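import Pool.Agent.MP_4baaa2_an.Mg.H94_Cx1

-- part MP_4baaa2_an.H94.Cx5
section

/-!
Cauchy, Poisson and Schwarz formulas on an annulus.
-/

namespace Pool.Agent.MP_4baaa2_an.H94

open Set Metric Filter Topology Complex
open scoped ComplexConjugate
open Pool.Agent.Lib.PlaneTop

variable {n : ℕ}

variable {V : Type*} [NormedAddCommGroup V] [NormedSpace ℂ V] [CompleteSpace V]

omit [CompleteSpace V] in
open Real in
theorem norm_avg_le {g : ℂ → V} {a B : ℝ} (ha : 0 < a)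
    (hB : ∀ w ∈ sphere (0 : ℂ) a, ‖g w‖ ≤ B) : ‖circleAverage g 0 a‖ ≤ B := by
  have h := intervalIntegral.norm_integral_le_of_norm_le_const (a := 0) (b := 2 * π)
    (f := fun θ => g (circleMap 0 a θ)) (C := B) fun θ _ => hB _ (circleMap_mem_sphere 0 ha.le θ)
  rw [circleAverage_def, norm_smul, Real.norm_eq_abs, abs_of_pos (inv_pos.2 two_pi_pos),
    inv_mul_le_iff₀ two_pi_pos]
  rw [sub_zero, abs_of_pos two_pi_pos] at h
  linarith

open Real in
/-- Cauchy-Schwarz on a circle -/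
theorem avg_mul_le {u v : ℂ → ℝ} {a : ℝ} (ha : 0 < a) (hu : ContinuousOn u (sphere 0 a))
    (hv : ContinuousOn v (sphere 0 a)) :
    circleAverage (fun w => u w * v w) 0 a ≤
      √(circleAverage (fun w => u w ^ 2) 0 a) * √(circleAverage (fun w => v w ^ 2) 0 a) := by
  have i1 : CircleIntegrable (fun w => u w ^ 2) 0 a := (hu.pow 2).circleIntegrable ha.le
  have i2 : CircleIntegrable (fun w => v w ^ 2) 0 a := (hv.pow 2).circleIntegrable ha.le
  have i3 : CircleIntegrable (fun w => u w * v w) 0 a := (hu.mul hv).circleIntegrable ha.le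
  have hd : discrim (circleAverage (fun w => u w ^ 2) 0 a)
      (2 * circleAverage (fun w => u w * v w) 0 a) (circleAverage (fun w => v w ^ 2) 0 a) ≤ 0 := by
    refine discrim_le_zero fun t => ?_
    have h0 : 0 ≤ circleAverage
        (fun w => ((t * t) • u w ^ 2 + (2 * t) • (u w * v w)) + v w ^ 2) 0 a :=
      circleAverage_nonneg_of_nonneg fun w _ => by
        simp only [smul_eq_mul]; nlinarith [sq_nonneg (t * u w + v w)]
    have j1 : CircleIntegrable (fun w => (t * t) • u w ^ 2) 0 a := i1.const_smul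
    have j3 : CircleIntegrable (fun w => (2 * t) • (u w * v w)) 0 a := i3.const_smul
    have j4 : CircleIntegrable (fun w => (t * t) • u w ^ 2 + (2 * t) • (u w * v w)) 0 a :=
      j1.add j3
    rw [circleAverage_fun_add j4 i2, circleAverage_fun_add j1 j3, circleAverage_fun_smul,
      circleAverage_fun_smul, smul_eq_mul, smul_eq_mul] at h0
    linarith
  rw [← Real.sqrt_mul (circleAverage_nonneg_of_nonneg fun w _ => sq_nonneg _)]
  refine Real.le_sqrt_of_sq_le ?_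
  rw [discrim] at hd
  linarith

omit [CompleteSpace V] in
open Real in
theorem ann_mean {g : ℂ → V} {U : Set ℂ} {a b : ℝ} (ha : 0 < a) (hab : a ≤ b) (hU : IsOpen U)
    (hsub : ∀ w : ℂ, a ≤ ‖w‖ → ‖w‖ ≤ b → w ∈ U) (hg : DifferentiableOn ℂ g U) :
    circleAverage g 0 a = circleAverage g 0 b := by
  rw [circleAverage_eq_circleIntegral ha.ne', circleAverage_eq_circleIntegral (ha.trans_le hab).ne',
    circleIntegral_sub_center_inv_smul_eq_of_differentiable_on_annulus_off_countable ha hab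
      countable_empty]
  · refine hg.continuousOn.mono fun w hw => hsub w ?_ ?_
    · simpa using hw.2
    · simpa using hw.1
  · intro w hw
    refine hg.differentiableAt (hU.mem_nhds (hsub w ?_ ?_))
    · have : a < ‖w‖ := by simpa using hw.1.2
      exact this.le
    · have : ‖w‖ < b := by simpa using hw.1.1
      exact this.le

open Real in
theorem cx5_center {g : ℂ → V} {a : ℝ} (ha : 0 < a) (hg : DifferentiableOn ℂ g (closedBall 0 a)) :
    circleAverage g 0 a = g 0 := by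
  refine DiffContOnCl.circleAverage ?_
  rw [abs_of_pos ha]
  exact hg.diffContOnCl_ball subset_rfl

theorem cx5_ne {w ω : ℂ} {r : ℝ} (hω : ω ∈ sphere (0 : ℂ) r) (h : ‖w‖ ≠ r) : ω - w ≠ 0 := by
  rw [sub_ne_zero]
  rintro rfl
  exact h (by simpa using hω)

theorem cx5_ker {w : ℂ} {r : ℝ} (h : ‖w‖ ≠ r) :
    ContinuousOn (fun ω : ℂ => ω / (ω - w)) (sphere 0 r) :=
  ContinuousOn.div (by fun_prop) (by fun_prop) fun _ hω => cx5_ne hω h

theorem cx5_ker' {w : ℂ} {a : ℝ} (h : a < ‖w‖) :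
    DifferentiableOn ℂ (fun ω : ℂ => ω / (ω - w)) (closedBall 0 a) := by
  refine DifferentiableOn.div (by fun_prop) (by fun_prop) fun ω hω => ?_
  rw [sub_ne_zero]
  rintro rfl
  exact absurd (mem_closedBall_zero_iff.1 hω) (not_le.2 h)

open Real in
theorem ann_cauchy {g : ℂ → V} {U : Set ℂ} {a b : ℝ} (ha : 0 < a) (hU : IsOpen U)
    (hsub : ∀ w : ℂ, a ≤ ‖w‖ → ‖w‖ ≤ b → w ∈ U) (hg : DifferentiableOn ℂ g U) {w : ℂ}
    (haw : a < ‖w‖) (hwb : ‖w‖ < b) :
    circleAverage (fun ω => (ω / (ω - w)) • g ω) 0 b -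
      circleAverage (fun ω => (ω / (ω - w)) • g ω) 0 a = g w := by
  have hab : a ≤ b := (haw.trans hwb).le
  have hb : 0 < b := ha.trans_le hab
  have hd : DifferentiableOn ℂ (fun ω => ω • dslope g w ω) U :=
    differentiableOn_id.smul ((differentiableOn_dslope (hU.mem_nhds (hsub w haw.le hwb.le))).2 hg)
  have hm := ann_mean ha hab hU hsub hd
  have key : ∀ r, a ≤ r → r ≤ b → ‖w‖ ≠ r → circleAverage (fun ω => ω • dslope g w ω) 0 r =
      circleAverage (fun ω => (ω / (ω - w)) • g ω) 0 r -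
        circleAverage (fun ω => (ω / (ω - w)) • g w) 0 r := by
    intro r h1 h2 h3
    have hr : 0 < r := ha.trans_le h1
    have hs : sphere (0 : ℂ) r ⊆ U := fun ω hω => by
      rw [mem_sphere_zero_iff_norm] at hω
      exact hsub ω (hω ▸ h1) (hω ▸ h2)
    rw [← circleAverage_fun_sub
      (((cx5_ker h3).fun_smul (hg.continuousOn.mono hs)).circleIntegrable hr.le)
      (((cx5_ker h3).fun_smul continuousOn_const).circleIntegrable hr.le)]
    refine circleAverage_congr_sphere fun ω hω => ?_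
    rw [abs_of_pos hr] at hω
    have := cx5_ne hω h3
    rw [dslope_of_ne _ (sub_ne_zero.1 this), slope_def_module, smul_smul, ← smul_sub,
      div_eq_mul_inv]
  rw [key a le_rfl hab haw.ne', key b hab le_rfl hwb.ne] at hm
  have h1 : circleAverage (fun ω => (ω / (ω - w)) • g w) 0 b = g w := by
    have := DiffContOnCl.circleAverage_smul_div (f := fun _ => g w) (c := 0) (R := b) (w := w)
      diffContOnCl_const (by rw [abs_of_pos hb]; simpa using hwb)
    simpa using this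
  have h2 : circleAverage (fun ω => (ω / (ω - w)) • g w) 0 a = 0 := by
    rw [cx5_center ha ((cx5_ker' haw).smul_const _)]
    simp
  rw [h1, h2, sub_zero] at hm
  rw [hm, sub_sub_cancel]

theorem cx5_den {w ω : ℂ} {b : ℝ} (hw : ‖w‖ < b) (hω : ‖ω‖ ≤ b) :
    (b : ℂ) ^ 2 - conj w * ω ≠ 0 := by
  rw [sub_ne_zero]
  intro h
  have h1 := congrArg norm h
  have hb : 0 < b := (norm_nonneg _).trans_lt hw
  rw [norm_mul, norm_pow, Complex.norm_real, Real.norm_eq_abs, abs_of_pos hb, norm_conj] at h1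
  nlinarith [norm_nonneg w, norm_nonneg ω]

theorem cx5_den_le (w ω : ℂ) {b : ℝ} (hb : 0 < b) :
    b ^ 2 - ‖w‖ * ‖ω‖ ≤ ‖(b : ℂ) ^ 2 - conj w * ω‖ := by
  have := norm_sub_norm_le ((b : ℂ) ^ 2) (conj w * ω)
  rwa [norm_mul, norm_pow, Complex.norm_real, Real.norm_eq_abs, abs_of_pos hb, norm_conj] at this

theorem cx5_open (w : ℂ) (b : ℝ) : IsOpen {ω : ℂ | (b : ℂ) ^ 2 - conj w * ω ≠ 0} :=
  isOpen_ne_fun (by fun_prop) continuous_const

open Real in
theorem ann_poisson {L : ℂ → ℂ} {U : Set ℂ} {a b B : ℝ} (ha : 0 < a) (hU : IsOpen U)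
    (hsub : ∀ w : ℂ, a ≤ ‖w‖ → ‖w‖ ≤ b → w ∈ U) (hL : DifferentiableOn ℂ L U)
    (hB : ∀ ω ∈ sphere (0 : ℂ) a, ‖L ω‖ ≤ B) {w : ℂ} (haw : a < ‖w‖) (hwb : ‖w‖ < b) :
    |(L w).im - circleAverage (fun ω => poissonKernel 0 w ω * (L ω).im) 0 b| ≤
      B * (b ^ 2 - ‖w‖ ^ 2) * a / ((‖w‖ - a) * (b ^ 2 - ‖w‖ * a)) := by
  have hab : a ≤ b := (haw.trans hwb).le
  have hb : 0 < b := ha.trans_le hab
  have hc := ann_cauchy ha hU hsub hL haw hwb
  set f₁ : ℂ → ℂ := fun ω => (ω / (ω - w)) • L ω with hf₁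
  set f₂ : ℂ → ℂ := fun ω => (conj w * ω / ((b : ℂ) ^ 2 - conj w * ω)) • L ω with hf₂
  have hd₂ : DifferentiableOn ℂ f₂ (U ∩ {ω : ℂ | (b : ℂ) ^ 2 - conj w * ω ≠ 0}) :=
    (DifferentiableOn.div (by fun_prop) (by fun_prop) fun ω hω => hω.2).smul
      (hL.mono inter_subset_left)
  have hsub₂ : ∀ ω : ℂ, a ≤ ‖ω‖ → ‖ω‖ ≤ b → ω ∈ U ∩ {ω : ℂ | (b : ℂ) ^ 2 - conj w * ω ≠ 0} :=
    fun ω h1 h2 => ⟨hsub ω h1 h2, cx5_den hwb h2⟩
  have hm := ann_mean ha hab (hU.inter (cx5_open w b)) hsub₂ hd₂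
  have int : ∀ r, a ≤ r → r ≤ b → ‖w‖ ≠ r → CircleIntegrable f₁ 0 r ∧ CircleIntegrable f₂ 0 r := by
    intro r h1 h2 h3
    have hr : 0 < r := ha.trans_le h1
    have hs : sphere (0 : ℂ) r ⊆ U ∩ {ω : ℂ | (b : ℂ) ^ 2 - conj w * ω ≠ 0} := fun ω hω => by
      rw [mem_sphere_zero_iff_norm] at hω
      exact hsub₂ ω (hω ▸ h1) (hω ▸ h2)
    exact ⟨((cx5_ker h3).fun_smul (hL.continuousOn.mono
      (hs.trans inter_subset_left))).circleIntegrable hr.le,
      (hd₂.continuousOn.mono hs).circleIntegrable hr.le⟩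
  obtain ⟨ia₁, ia₂⟩ := int a le_rfl hab haw.ne'
  obtain ⟨ib₁, ib₂⟩ := int b hab le_rfl hwb.ne
  have e1 : circleAverage (fun ω => poissonKernel 0 w ω * (L ω).im) 0 b =
      (circleAverage (f₁ + f₂) 0 b).im := by
    rw [← imCLM_apply, ← imCLM.circleAverage_comp_comm (ib₁.add ib₂)]
    refine circleAverage_congr_sphere fun ω hω => ?_
    rw [abs_of_pos hb] at hω
    have n1 := cx5_ne hω hwb.ne
    rw [mem_sphere_zero_iff_norm] at hω
    have n2 := cx5_den hwb hω.le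
    have n3 : conj ω - conj w ≠ 0 := by rw [← map_sub, map_ne_zero]; exact n1
    have n4 : ω ≠ 0 := by rw [← norm_pos_iff, hω]; exact hb
    have hb2 : (b : ℂ) ^ 2 = ω * conj ω := by rw [mul_conj', hω]
    have : f₁ ω + f₂ ω = (poissonKernel 0 w ω : ℂ) * L ω := by
      simp only [hf₁, hf₂, smul_eq_mul, poissonKernel_def, sub_zero]
      push_cast
      rw [← mul_conj', ← mul_conj', ← mul_conj', map_sub, hb2, ← add_mul, mul_comm (conj w) ω,
        ← mul_sub]
      congr 1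
      field_simp
      ring
    simp only [Function.comp_apply, Pi.add_apply, imCLM_apply, this, im_ofReal_mul]
  have e2 : circleAverage (f₁ + f₂) 0 b = L w + circleAverage (f₁ + f₂) 0 a := by
    rw [circleAverage_add ib₁ ib₂, circleAverage_add ia₁ ia₂, ← hc, hm]
    ring
  rw [e1, e2, add_im, sub_add_cancel_left, abs_neg]
  refine (abs_im_le_norm _).trans (norm_avg_le ha fun ω hω => ?_)
  have n1 := cx5_ne hω haw.ne'
  have hBω := hB ω hω
  rw [mem_sphere_zero_iff_norm] at hω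
  have n2 := cx5_den hwb (hω.le.trans hab)
  have p1 : 0 < b ^ 2 - ‖w‖ ^ 2 := by nlinarith [norm_nonneg w]
  have p2 : 0 < b ^ 2 - ‖w‖ * a := by nlinarith [norm_nonneg w]
  have p3 : 0 < ‖w‖ - a := by linarith
  have : (f₁ + f₂) ω = L ω * ((b ^ 2 - ‖w‖ ^ 2 : ℝ) : ℂ) * ω /
      ((ω - w) * ((b : ℂ) ^ 2 - conj w * ω)) := by
    simp only [hf₁, hf₂, smul_eq_mul, Pi.add_apply]
    push_cast
    rw [← mul_conj' w, ← add_mul, div_add_div _ _ n1 n2, div_mul_eq_mul_div]
    congr 1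
    ring
  rw [this, norm_div, norm_mul, norm_mul, norm_mul, Complex.norm_real, Real.norm_eq_abs,
    abs_of_pos p1, hω]
  have q1 : ‖w‖ - a ≤ ‖ω - w‖ := by
    rw [norm_sub_rev, ← hω]; exact norm_sub_norm_le _ _
  have q2 := cx5_den_le w ω hb
  rw [hω] at q2
  have hB0 : 0 ≤ B := (norm_nonneg _).trans hBω
  gcongr

open Real in
theorem cx5_schwarz {Z T : ℂ → ℂ} {U : Set ℂ} {a b B μ : ℝ} (ha : 0 < a) (hb1 : b < 1)
    (hU : IsOpen U) (hsub : ∀ w : ℂ, a ≤ ‖w‖ → ‖w‖ < 1 → w ∈ U)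
    (hZ : DifferentiableOn ℂ Z (ball 0 1)) (hZ0 : Z 0 = 0) (hT : DifferentiableOn ℂ T U)
    (hB : ∀ ω ∈ sphere (0 : ℂ) a, ‖T ω‖ ≤ B)
    (him : ∀ ω ∈ sphere (0 : ℂ) b, |(Z ω - T ω).im| ≤ μ) {w : ℂ} (haw : a < ‖w‖)
    (hwb : ‖w‖ < b) :
    ‖Z w - T w‖ ≤ 2 * μ * (b / (b - ‖w‖)) + B * (a / (‖w‖ - a)) +
      B * (b ^ 2 / (b ^ 2 - ‖w‖ * a)) := by
  have hab : a ≤ b := (haw.trans hwb).le
  have hb : 0 < b := ha.trans_le hab
  set W : Set ℂ := (U ∩ ball 0 1) ∩ {ω : ℂ | (b : ℂ) ^ 2 - conj w * ω ≠ 0} with hW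
  have hWo : IsOpen W := (hU.inter isOpen_ball).inter (cx5_open w b)
  have hsW : ∀ ω : ℂ, a ≤ ‖ω‖ → ‖ω‖ ≤ b → ω ∈ W := fun ω h1 h2 =>
    ⟨⟨hsub ω h1 (h2.trans_lt hb1), mem_ball_zero_iff.2 (h2.trans_lt hb1)⟩, cx5_den hwb h2⟩
  have hZW : DifferentiableOn ℂ Z W := hZ.mono fun ω hω => hω.1.2
  have hTW : DifferentiableOn ℂ T W := hT.mono fun ω hω => hω.1.1
  have hE : DifferentiableOn ℂ (fun ω => Z ω - T ω) W := hZW.sub hTW
  have hk : DifferentiableOn ℂ (fun ω : ℂ => (b : ℂ) ^ 2 / ((b : ℂ) ^ 2 - conj w * ω)) W :=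
    DifferentiableOn.div (by fun_prop) (by fun_prop) fun ω hω => hω.2
  have hc := ann_cauchy ha hWo hsW hE haw hwb
  have hm := ann_mean ha hab hWo hsW (hk.fun_smul hE)
  have hs : ∀ r, a ≤ r → r ≤ b → sphere (0 : ℂ) r ⊆ W := fun r h1 h2 ω hω => by
    rw [mem_sphere_zero_iff_norm] at hω
    exact hsW ω (hω ▸ h1) (hω ▸ h2)
  have hZa : DifferentiableOn ℂ Z (closedBall 0 a) :=
    hZ.mono (closedBall_subset_ball (hab.trans_lt hb1))
  have sa := hs a le_rfl hab
  have sb := hs b hab le_rfl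
  -- the inner averages
  have a1 : ‖circleAverage (fun ω => (ω / (ω - w)) • (Z ω - T ω)) 0 a‖ ≤ B * (a / (‖w‖ - a)) := by
    simp only [smul_sub]
    rw [circleAverage_fun_sub
      (((cx5_ker haw.ne').fun_smul (hZW.continuousOn.mono sa)).circleIntegrable ha.le)
      (((cx5_ker haw.ne').fun_smul (hTW.continuousOn.mono sa)).circleIntegrable ha.le),
      cx5_center ha ((cx5_ker' haw).fun_smul hZa), hZ0, smul_zero, zero_sub, norm_neg]
    refine norm_avg_le ha fun ω hω => ?_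
    have hBω := hB ω hω
    rw [mem_sphere_zero_iff_norm] at hω
    have q1 : ‖w‖ - a ≤ ‖ω - w‖ := by
      rw [norm_sub_rev, ← hω]; exact norm_sub_norm_le _ _
    have p3 : 0 < ‖w‖ - a := by linarith
    have hB0 : 0 ≤ B := (norm_nonneg _).trans hBω
    rw [norm_smul, norm_div, hω, mul_comm]
    gcongr
  have a2 : ‖circleAverage (fun ω => ((b : ℂ) ^ 2 / ((b : ℂ) ^ 2 - conj w * ω)) • (Z ω - T ω)) 0 a‖
      ≤ B * (b ^ 2 / (b ^ 2 - ‖w‖ * a)) := by
    have hk' : DifferentiableOn ℂ (fun ω : ℂ => (b : ℂ) ^ 2 / ((b : ℂ) ^ 2 - conj w * ω))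
        (closedBall 0 a) := DifferentiableOn.div (by fun_prop) (by fun_prop) fun ω hω =>
      cx5_den hwb ((mem_closedBall_zero_iff.1 hω).trans hab)
    simp only [smul_sub]
    rw [circleAverage_fun_sub
      (((hk.fun_smul hZW).continuousOn.mono sa).circleIntegrable ha.le)
      (((hk.fun_smul hTW).continuousOn.mono sa).circleIntegrable ha.le),
      cx5_center ha (hk'.fun_smul hZa), hZ0, smul_zero, zero_sub, norm_neg]
    refine norm_avg_le ha fun ω hω => ?_
    have hBω := hB ω hω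
    rw [mem_sphere_zero_iff_norm] at hω
    have q2 := cx5_den_le w ω hb
    rw [hω] at q2
    have p2 : 0 < b ^ 2 - ‖w‖ * a := by nlinarith [norm_nonneg w]
    have hB0 : 0 ≤ B := (norm_nonneg _).trans hBω
    rw [norm_smul, norm_div, norm_pow, Complex.norm_real, Real.norm_eq_abs, abs_of_pos hb, mul_comm]
    gcongr
  -- the outer average
  have i1 : CircleIntegrable (fun ω => (ω / (ω - w)) • (Z ω - T ω)) 0 b :=
    ((cx5_ker hwb.ne).fun_smul (hE.continuousOn.mono sb)).circleIntegrable hb.le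
  have c2 := (hk.fun_smul hE).continuousOn.mono sb
  have a3 : ‖circleAverage (fun ω => (ω / (ω - w)) • (Z ω - T ω)) 0 b - conj (circleAverage
      (fun ω => ((b : ℂ) ^ 2 / ((b : ℂ) ^ 2 - conj w * ω)) • (Z ω - T ω)) 0 b)‖
      ≤ 2 * μ * (b / (b - ‖w‖)) := by
    have := (conjCLE : ℂ →L[ℝ] ℂ).circleAverage_comp_comm (c2.circleIntegrable hb.le)
    rw [ContinuousLinearEquiv.coe_coe, conjCLE_apply] at this
    rw [← this, ← circleAverage_sub i1
      ((conjCLE.continuous.comp_continuousOn c2).circleIntegrable hb.le)]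
    refine norm_avg_le hb fun ω hω => ?_
    have h1 := him ω hω
    have n1 := cx5_ne hω hwb.ne
    rw [mem_sphere_zero_iff_norm] at hω
    have n4 : conj ω ≠ 0 := by
      rw [map_ne_zero, ← norm_pos_iff, hω]; exact hb
    have hb2 : (b : ℂ) ^ 2 = ω * conj ω := by rw [mul_conj', hω]
    have e : conj ((b : ℂ) ^ 2 / ((b : ℂ) ^ 2 - conj w * ω)) = ω / (ω - w) := by
      rw [hb2]
      simp only [map_div₀, map_sub, map_mul, conj_conj]
      rw [mul_comm (conj ω) ω, ← sub_mul, mul_div_mul_right _ _ n4]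
    simp only [Pi.sub_apply, Function.comp_apply, conjCLE_apply, smul_eq_mul, map_mul, e]
    rw [← mul_sub, sub_conj, norm_mul, norm_mul, norm_I, mul_one, Complex.norm_real,
      Real.norm_eq_abs, abs_mul, abs_two, norm_div, hω, mul_comm]
    have q1 : b - ‖w‖ ≤ ‖ω - w‖ := by
      rw [← hω]; exact norm_sub_norm_le _ _
    have p3 : 0 < b - ‖w‖ := by linarith
    have hμ : 0 ≤ μ := (abs_nonneg _).trans h1
    gcongr
  rw [← hm] at a3
  rw [← hc]
  set X := circleAverage (fun ω => (ω / (ω - w)) • (Z ω - T ω)) 0 b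
  set Y := circleAverage (fun ω => (ω / (ω - w)) • (Z ω - T ω)) 0 a
  set Q := circleAverage
    (fun ω => ((b : ℂ) ^ 2 / ((b : ℂ) ^ 2 - conj w * ω)) • (Z ω - T ω)) 0 a
  calc ‖X - Y‖ = ‖(X - conj Q) - Y + conj Q‖ := by congr 1; ring
    _ ≤ ‖X - conj Q‖ + ‖Y‖ + ‖conj Q‖ :=
      (norm_add_le _ _).trans (add_le_add (norm_sub_le _ _) le_rfl)
    _ ≤ _ := by rw [norm_conj]; linarith

/-- a holomorphic function on an annulus which is asymptotically real at the unit circle -/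
theorem ann_schwarz {Z T : ℂ → ℂ} {U : Set ℂ} {a B : ℝ} (ha : 0 < a) (ha1 : a < 1)
    (hU : IsOpen U) (hsub : ∀ w : ℂ, a ≤ ‖w‖ → ‖w‖ < 1 → w ∈ U)
    (hZ : DifferentiableOn ℂ Z (ball 0 1)) (hZ0 : Z 0 = 0) (hT : DifferentiableOn ℂ T U)
    (hB : ∀ ω ∈ sphere (0 : ℂ) a, ‖T ω‖ ≤ B)
    (him : ∀ μ > 0, ∃ r < 1, ∀ w ∈ Ann r, |(Z w - T w).im| ≤ μ) :
    ∀ w ∈ Ann a, ‖Z w - T w‖ ≤ B * (a / (‖w‖ - a) + 1 / (1 - a)) := by
  rintro w ⟨haw, hw1⟩
  have hw0 : 0 < ‖w‖ := ha.trans haw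
  have hB0 : 0 ≤ B := (norm_nonneg _).trans (hB a (by simp [abs_of_pos ha]))
  obtain ⟨c, hc1, hc2, hc3⟩ : ∃ c : ℝ, ‖w‖ < c ∧ c < 1 ∧ ‖w‖ ≤ c ^ 2 :=
    ⟨(1 + ‖w‖) / 2, by linarith, by linarith, by nlinarith [sq_nonneg (1 - ‖w‖)]⟩
  refine le_of_forall_pos_le_add fun ε hε => ?_
  obtain ⟨r, hr, h⟩ := him (ε * (c - ‖w‖) / 2) (by have := sub_pos.2 hc1; positivity)
  set b := max c ((r + 1) / 2) with hb
  have hb1 : b < 1 := max_lt hc2 (by linarith)
  have hcb : c ≤ b := le_max_left _ _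
  have hrb : r < b := lt_max_of_lt_right (by linarith)
  have := cx5_schwarz ha hb1 hU hsub hZ hZ0 hT hB (fun ω hω => h ω (by
    rw [mem_sphere_zero_iff_norm] at hω
    exact ⟨hω ▸ hrb, hω ▸ hb1⟩)) haw (hc1.trans_le hcb)
  have p1 : 0 < c - ‖w‖ := sub_pos.2 hc1
  have t1 : 2 * (ε * (c - ‖w‖) / 2) * (b / (b - ‖w‖)) ≤ ε := by
    calc 2 * (ε * (c - ‖w‖) / 2) * (b / (b - ‖w‖))
        ≤ 2 * (ε * (c - ‖w‖) / 2) * (1 / (c - ‖w‖)) := by gcongr
      _ = ε := by field_simp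
  have hb2 : ‖w‖ ≤ b ^ 2 := hc3.trans (by gcongr; linarith)
  have t2 : b ^ 2 / (b ^ 2 - ‖w‖ * a) ≤ 1 / (1 - a) := by
    rw [div_le_div_iff₀ (by nlinarith) (by linarith)]
    nlinarith
  have t3 := mul_le_mul_of_nonneg_left t2 hB0
  rw [mul_add]
  linarith

end Pool.Agent.MP_4baaa2_an.H94

/-!
Joint holomorphy of divided differences, a maximum principle on an annulus.
-/

namespace Pool.Agent.MP_4baaa2_an.H94

open Set Metric Filter Topology Complex
open scoped ComplexConjugate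
open Pool.Agent.Lib.PlaneTop

variable {n : ℕ}

variable {V : Type*} [NormedAddCommGroup V] [NormedSpace ℂ V] [CompleteSpace V]

theorem cx6_seg {ρ : ℝ} {a b : ℂ} (ha : ‖a‖ ≤ ρ) (hb : ‖b‖ ≤ ρ) {t : ℝ} (ht : t ∈ Icc (0 : ℝ) 1) :
    ‖a + t * (b - a)‖ ≤ ρ := by
  have h := (convex_closedBall (0 : ℂ) ρ).add_smul_sub_mem (mem_closedBall_zero_iff.2 ha)
    (mem_closedBall_zero_iff.2 hb) ht
  simpa using h

theorem cx6_int {h : ℂ → V} (hh : DifferentiableOn ℂ h (ball 0 1)) {a b : ℂ} (ha : ‖a‖ < 1)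
    (hb : ‖b‖ < 1) : dslope h a b = ∫ t in (0 : ℝ)..1, deriv h (a + t * (b - a)) := by
  rcases eq_or_ne b a with rfl | hne
  · simp
  have hm : ∀ t ∈ uIcc (0 : ℝ) 1, a + t * (b - a) ∈ ball (0 : ℂ) 1 := fun t ht => by
    rw [uIcc_of_le zero_le_one] at ht
    exact mem_ball_zero_iff.2
      ((cx6_seg (le_max_left _ _) (le_max_right _ _) ht).trans_lt (max_lt ha hb))
  have hc : ContinuousOn (fun t : ℝ => deriv h (a + t * (b - a))) (uIcc 0 1) :=
    (hh.deriv isOpen_ball).continuousOn.comp (by fun_prop) hm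
  have h1 := intervalIntegral.integral_eq_sub_of_hasDerivAt
    (f := fun t : ℝ => h (a + t * (b - a)))
    (f' := fun t : ℝ => (b - a) • deriv h (a + t * (b - a))) (a := 0) (b := 1) (fun t ht => by
      have h2 : HasDerivAt (fun t : ℝ => a + t * (b - a)) (b - a) t := by
        simpa using ((Complex.ofRealCLM.hasDerivAt (x := t)).mul_const (b - a)).const_add a
      exact (hh.differentiableAt (isOpen_ball.mem_nhds (hm t ht))).hasDerivAt.scomp t h2)
    (hc.const_smul (b - a)).intervalIntegrable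
  rw [intervalIntegral.integral_smul] at h1
  rw [dslope_of_ne _ hne, slope_def_module]
  simp only [ofReal_one, one_mul, add_sub_cancel, ofReal_zero, zero_mul, add_zero] at h1
  rw [← h1, smul_smul, inv_mul_cancel₀ (sub_ne_zero.2 hne), one_smul]

/-- the point of the segment as a linear map -/
noncomputable def cx6_lin (t : ℝ) : ℂ × ℂ →L[ℂ] ℂ :=
  ContinuousLinearMap.fst ℂ ℂ ℂ +
    (t : ℂ) • (ContinuousLinearMap.snd ℂ ℂ ℂ - ContinuousLinearMap.fst ℂ ℂ ℂ)

theorem cx6_lin_apply (t : ℝ) (x : ℂ × ℂ) : cx6_lin t x = x.1 + t * (x.2 - x.1) := rfl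

theorem cx6_lin_cont : Continuous cx6_lin := by
  unfold cx6_lin
  fun_prop

theorem dslope_diff {h : ℂ → V} (hh : DifferentiableOn ℂ h (ball 0 1)) :
    DifferentiableOn ℂ (fun x : ℂ × ℂ => dslope h x.1 x.2) (ball 0 1 ×ˢ ball 0 1) := by
  rintro x₀ ⟨h1, h2⟩
  rw [mem_ball_zero_iff] at h1 h2
  obtain ⟨ρ, hρ, hρ1⟩ := exists_between (max_lt h1 h2)
  have hg := hh.deriv isOpen_ball
  have hg' := (hg.deriv isOpen_ball).continuousOn
  set s : Set (ℂ × ℂ) := ball 0 ρ ×ˢ ball 0 ρ with hs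
  have hx₀ : x₀ ∈ s := ⟨mem_ball_zero_iff.2 ((le_max_left _ _).trans_lt hρ),
    mem_ball_zero_iff.2 ((le_max_right _ _).trans_lt hρ)⟩
  have hsn : s ∈ 𝓝 x₀ := (isOpen_ball.prod isOpen_ball).mem_nhds hx₀
  have hm : ∀ x ∈ s, ∀ t ∈ Icc (0 : ℝ) 1, cx6_lin t x ∈ closedBall (0 : ℂ) ρ := fun x hx t ht =>
    mem_closedBall_zero_iff.2
      (cx6_seg (mem_ball_zero_iff.1 hx.1).le (mem_ball_zero_iff.1 hx.2).le ht)
  have hm' : ∀ x ∈ s, ∀ t ∈ Icc (0 : ℝ) 1, cx6_lin t x ∈ ball (0 : ℂ) 1 := fun x hx t ht =>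
    closedBall_subset_ball hρ1 (hm x hx t ht)
  have hI : Set.uIoc (0 : ℝ) 1 ⊆ Icc 0 1 := by
    rw [uIoc_of_le zero_le_one]
    exact Ioc_subset_Icc_self
  obtain ⟨M, hM⟩ := (isCompact_closedBall (0 : ℂ) ρ).exists_bound_of_continuousOn
    (hg'.mono (closedBall_subset_ball hρ1))
  obtain ⟨M', hM'⟩ := (isCompact_Icc (a := (0 : ℝ)) (b := 1)).exists_bound_of_continuousOn
    cx6_lin_cont.continuousOn
  have hl : ∀ x : ℂ × ℂ, Continuous fun t => cx6_lin t x := fun x =>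
    cx6_lin_cont.clm_apply continuous_const
  have hc : ∀ x ∈ s, ContinuousOn (fun t => deriv h (cx6_lin t x)) (Icc 0 1) := fun x hx =>
    hg.continuousOn.comp (hl x).continuousOn (hm' x hx)
  have key := intervalIntegral.hasFDerivAt_integral_of_dominated_of_fderiv_le (𝕜 := ℂ)
    (μ := MeasureTheory.volume) (a := 0) (b := 1) (bound := fun _ => M' * M)
    (F := fun x t => deriv h (cx6_lin t x))
    (F' := fun x t => (cx6_lin t).smulRight (deriv (deriv h) (cx6_lin t x))) hsn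
    (by
      filter_upwards [hsn] with x hx
      exact ((hc x hx).mono hI).aestronglyMeasurable measurableSet_uIoc)
    (ContinuousOn.intervalIntegrable (by rw [uIcc_of_le zero_le_one]; exact hc x₀ hx₀))
    (by
      refine ContinuousOn.aestronglyMeasurable (ContinuousOn.mono ?_ hI) measurableSet_uIoc
      exact (isBoundedBilinearMap_smulRight (𝕜 := ℂ) (E := ℂ × ℂ) (F := V)).continuous.comp_continuousOn
        (cx6_lin_cont.continuousOn.prodMk (hg'.comp (hl x₀).continuousOn (hm' x₀ hx₀))))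
    (MeasureTheory.ae_of_all _ fun t ht x hx => by
      rw [ContinuousLinearMap.norm_smulRight_apply]
      exact mul_le_mul (hM' t (hI ht)) (hM _ (hm x hx t (hI ht))) (norm_nonneg _)
        ((norm_nonneg _).trans (hM' t (hI ht))))
    intervalIntegrable_const
    (MeasureTheory.ae_of_all _ fun t ht x hx =>
      (hg.differentiableAt (isOpen_ball.mem_nhds (hm' x hx t (hI ht)))).hasDerivAt.hasFDerivAt.comp
        x (cx6_lin t).hasFDerivAt)
  refine (key.differentiableAt.congr_of_eventuallyEq ?_).differentiableWithinAt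
  filter_upwards [hsn] with x hx
  exact cx6_int hh ((mem_ball_zero_iff.1 hx.1).trans hρ1) ((mem_ball_zero_iff.1 hx.2).trans hρ1)

theorem ann_max {L : ℂ → ℂ} {U : Set ℂ} {a b B c : ℝ} (ha : 0 < a) (hU : IsOpen U)
    (hsub : ∀ w : ℂ, a ≤ ‖w‖ → ‖w‖ ≤ b → w ∈ U) (hL : DifferentiableOn ℂ L U)
    (hB : ∀ ω ∈ sphere (0 : ℂ) a, ‖L ω‖ ≤ B) (hc : ∀ ω ∈ sphere (0 : ℂ) b, (L ω).im ≤ c)
    {w : ℂ} (haw : a < ‖w‖) (hwb : ‖w‖ < b) :
    (L w).im ≤ c + B * (b ^ 2 - ‖w‖ ^ 2) * a / ((‖w‖ - a) * (b ^ 2 - ‖w‖ * a)) := by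
  have hb : 0 < b := (norm_nonneg w).trans_lt hwb
  have h1 := (abs_le.1 (ann_poisson ha hU hsub hL hB haw hwb)).2
  have hw : w ∈ ball (0 : ℂ) b := mem_ball_zero_iff.2 hwb
  have hP : ContinuousOn (poissonKernel 0 w) (sphere 0 b) := by
    rw [poissonKernel_eq_re_herglotzRieszKernel]
    have := continuousOn_herglotzRieszKernel_sphere hw
    rw [abs_of_pos hb] at this
    exact continuous_re.comp_continuousOn this
  have hLc : ContinuousOn L (sphere 0 b) := hL.continuousOn.mono fun ω hω => by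
    rw [mem_sphere_zero_iff_norm] at hω
    exact hsub ω (by linarith) hω.le
  have h2 : Real.circleAverage (fun ω => poissonKernel 0 w ω * c) 0 b = c := by
    have h3 := (diffContOnCl_const (𝕜 := ℂ) (c := (c : ℂ))
      (s := ball (0 : ℂ) b)).circleAverage_poissonKernel_smul hw
    have h4 := Complex.reCLM.circleAverage_comp_comm (c := 0) (R := b)
      (f := poissonKernel 0 w • fun _ : ℂ => (c : ℂ))
      ((hP.smul continuousOn_const).circleIntegrable hb.le)
    rw [h3] at h4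
    simpa [Function.comp_def] using h4
  have h5 : Real.circleAverage (fun ω => poissonKernel 0 w ω * (L ω).im) 0 b ≤
      Real.circleAverage (fun ω => poissonKernel 0 w ω * c) 0 b := by
    refine Real.circleAverage_mono
      ((hP.mul (continuous_im.comp_continuousOn hLc)).circleIntegrable hb.le)
      ((hP.mul continuousOn_const).circleIntegrable hb.le) fun ω hω => ?_
    rw [abs_of_pos hb] at hω
    refine mul_le_mul_of_nonneg_left (hc ω hω) ?_
    rw [poissonKernel_def, sub_zero, sub_zero, mem_sphere_zero_iff_norm.1 hω]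
    exact div_nonneg (by nlinarith [norm_nonneg w]) (sq_nonneg _)
  linarith

/-- the form of `ann_max` which is used: the outer bound holds near the unit circle -/
theorem ann_max' {a a' : ℝ} (ha : 0 < a) (haa : a < a') (ha' : a' < 1) : ∃ K > 0,
    ∀ (L : ℂ → ℂ) (a₀ B c : ℝ), a₀ < a → 0 ≤ B → DifferentiableOn ℂ L (Ann a₀) →
      (∀ ω ∈ sphere (0 : ℂ) a, ‖L ω‖ ≤ B) → (∃ r₃ < 1, ∀ ω ∈ Ann r₃, (L ω).im ≤ c) →
      ∀ w ∈ Ann a', (L w).im ≤ c + K * B * (1 - ‖w‖) := by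
  have h0 : 0 < a' - a := sub_pos.2 haa
  have h1 : 0 < a' := ha.trans haa
  refine ⟨2 * a / ((a' - a) * (a' * (a' - a))), by positivity, ?_⟩
  rintro L a₀ B c ha₀ hB hL hB' ⟨r₃, hr, hc⟩ w ⟨hw1, hw2⟩
  obtain ⟨b, hb1, hb2⟩ := exists_between (max_lt hr hw2)
  have hb3 : r₃ < b := (le_max_left _ _).trans_lt hb1
  have hb4 : ‖w‖ < b := (le_max_right _ _).trans_lt hb1
  have h2 := ann_max ha (isOpen_Ann a₀) (fun z h3 h4 => ⟨ha₀.trans_le h3, h4.trans_lt hb2⟩) hL hB'
    (fun ω hω => hc ω (by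
      rw [mem_sphere_zero_iff_norm] at hω
      exact ⟨hω ▸ hb3, hω ▸ hb2⟩)) (haa.trans hw1) hb4
  refine h2.trans (add_le_add_right ?_ c)
  have h3 : 2 * a / ((a' - a) * (a' * (a' - a))) * B * (1 - ‖w‖) =
      B * (2 * (1 - ‖w‖)) * a / ((a' - a) * (a' * (a' - a))) := by ring
  rw [h3]
  have h4 : b ^ 2 - ‖w‖ ^ 2 ≤ 2 * (1 - ‖w‖) := by nlinarith
  have h5 : a' * (a' - a) ≤ b ^ 2 - ‖w‖ * a := by nlinarith
  have h6 : 0 ≤ 1 - ‖w‖ := by linarith
  have h7 : 0 ≤ ‖w‖ - a := by linarith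
  gcongr

open Real in
/-- the mean of a holomorphic function vanishing at the centre -/
theorem avg_eq_zero {g : ℂ → V} {a b : ℝ} (ha : 0 < a) (hab : a < b)
    (hg : DifferentiableOn ℂ g (ball 0 b)) (h0 : g 0 = 0) : circleAverage g 0 a = 0 := by
  rw [cx5_center ha (hg.mono (closedBall_subset_ball hab)), h0]

open Real in
theorem avg_re {g : ℂ → ℂ} {a : ℝ} (ha : 0 < a) (hg : ContinuousOn g (sphere 0 a)) :
    (circleAverage g 0 a).re = circleAverage (fun w => (g w).re) 0 a := by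
  exact (Complex.reCLM.circleAverage_comp_comm (hg.circleIntegrable ha.le)).symm

omit [CompleteSpace V] in
open Real in
theorem norm_avg_le_avg {g : ℂ → V} {u : ℂ → ℝ} {a : ℝ} (ha : 0 < a)
    (hu : ContinuousOn u (sphere 0 a)) (h : ∀ w ∈ sphere (0 : ℂ) a, ‖g w‖ ≤ u w) :
    ‖circleAverage g 0 a‖ ≤ circleAverage u 0 a := by
  rw [circleAverage_def, circleAverage_def, norm_smul, Real.norm_eq_abs,
    abs_of_pos (inv_pos.2 two_pi_pos), smul_eq_mul]
  refine mul_le_mul_of_nonneg_left ?_ (inv_pos.2 two_pi_pos).le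
  exact intervalIntegral.norm_integral_le_of_norm_le two_pi_pos.le
    (MeasureTheory.ae_of_all _ fun θ _ => h _ (circleMap_mem_sphere 0 ha.le θ))
    (hu.circleIntegrable ha.le)

/-- a compact subset of a connected open set lies in a connected set of positive depth -/
theorem conn_hull {G X : Set (E n)} (hG : IsOpen G) (hc : IsPreconnected G) (hne : G ≠ univ)
    (hX : IsCompact X) (hXG : X ⊆ G) :
    ∃ τ > 0, ∃ S, IsPreconnected S ∧ X ⊆ S ∧ ∀ z ∈ S, τ ≤ dep G z := by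
  rcases X.eq_empty_or_nonempty with rfl | ⟨p, hp⟩
  · exact ⟨1, one_pos, ∅, isPreconnected_empty, Subset.rfl, by simp⟩
  have hcont : Continuous (dep G) := continuous_infDist_pt _
  have hpos : ∀ z ∈ G, 0 < dep G z := fun z hz =>
    (hG.isClosed_compl.notMem_iff_infDist_pos (nonempty_compl.2 hne)).1 (notMem_compl_iff.2 hz)
  let O : ℕ → Set (E n) := fun k => {z | 1 / ((k : ℝ) + 1) < dep G z}
  have hO : ∀ k, IsOpen (O k) := fun k => isOpen_lt continuous_const hcont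
  have hOm : Monotone O := fun k l hkl z hz =>
    lt_of_le_of_lt (Nat.one_div_le_one_div (α := ℝ) hkl) hz
  have hcov : ∀ z ∈ G, ∃ k, z ∈ O k := fun z hz => exists_nat_one_div_lt (hpos z hz)
  let C : ℕ → Set (E n) := fun k => connectedComponentIn (O k) p
  have hC : ∀ k, IsOpen (C k) := fun k => (hO k).connectedComponentIn
  have hCm : Monotone C := fun k l hkl => connectedComponentIn_mono p (hOm hkl)
  have hGC : G ⊆ ⋃ k, C k := by
    refine hc.subset_of_closure_inter_subset (isOpen_iUnion hC) ?_ ?_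
    · obtain ⟨k, hk⟩ := hcov p (hXG hp)
      exact ⟨p, hXG hp, mem_iUnion.2 ⟨k, mem_connectedComponentIn hk⟩⟩
    · rintro z ⟨hz, hzG⟩
      obtain ⟨k, hk⟩ := hcov z hzG
      obtain ⟨y, hy, hy'⟩ := mem_closure_iff.1 hz _ (hO k).connectedComponentIn
        (mem_connectedComponentIn hk)
      obtain ⟨l, hl⟩ := mem_iUnion.1 hy'
      refine mem_iUnion.2 ⟨max k l, ?_⟩
      have e1 := connectedComponentIn_eq (hCm (le_max_right k l) hl)
      have e2 := connectedComponentIn_eq (connectedComponentIn_mono z (hOm (le_max_left k l)) hy)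
      change z ∈ connectedComponentIn (O (max k l)) p
      rw [e1, ← e2]
      exact mem_connectedComponentIn (hOm (le_max_left k l) hk)
  obtain ⟨k, hk⟩ := hX.elim_directed_cover C hC (hXG.trans hGC) hCm.directed_le
  exact ⟨1 / ((k : ℝ) + 1), by positivity, C k, isPreconnected_connectedComponentIn, hk,
    fun z hz => le_of_lt (connectedComponentIn_subset (O k) p hz)⟩

/-- a sublevel set is connected if every local minimum lies in a connected subset -/
theorem conn_sublevel {D S : Set (E n)} {u : E n → ℝ} {t : ℝ} (hD : IsOpen D)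
    (hu : ContinuousOn u D) {K : Set (E n)} (hK : IsCompact K) (hKD : K ⊆ D)
    (hsub : {z ∈ D | u z < t} ⊆ K) (hS : IsPreconnected S) (hSs : S ⊆ {z ∈ D | u z < t})
    (hmin : ∀ z ∈ D, u z < t → IsLocalMin u z → z ∈ S) : IsPreconnected {z ∈ D | u z < t} := by
  set A := {z ∈ D | u z < t} with hA
  have hAo : IsOpen A := hu.isOpen_inter_preimage hD isOpen_Iio
  have key : ∀ z ∈ A, (S ∩ connectedComponentIn A z).Nonempty := fun z hz => by
    have hcl : closure (connectedComponentIn A z) ⊆ K :=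
      closure_minimal ((connectedComponentIn_subset _ _).trans hsub) hK.isClosed
    obtain ⟨m, hm, hmin'⟩ := (hK.of_isClosed_subset isClosed_closure hcl).exists_isMinOn
      ⟨z, subset_closure (mem_connectedComponentIn hz)⟩ (hu.mono (hcl.trans hKD))
    have hmA : m ∈ A := ⟨hKD (hcl hm),
      lt_of_le_of_lt (hmin' (subset_closure (mem_connectedComponentIn hz))) hz.2⟩
    obtain ⟨y, hy, hy'⟩ := mem_closure_iff.1 hm _ hAo.connectedComponentIn
      (mem_connectedComponentIn hmA)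
    have hmC : m ∈ connectedComponentIn A z := by
      rw [connectedComponentIn_eq hy', ← connectedComponentIn_eq hy]
      exact mem_connectedComponentIn hmA
    exact ⟨m, hmin m hmA.1 hmA.2 (hmin'.isLocalMin (mem_of_superset
      (hAo.connectedComponentIn.mem_nhds hmC) subset_closure)), hmC⟩
  refine isPreconnected_of_forall_pair fun x hx y hy => ⟨connectedComponentIn A x,
    connectedComponentIn_subset _ _, mem_connectedComponentIn hx, ?_,
    isPreconnected_connectedComponentIn⟩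
  obtain ⟨m, hm, hm'⟩ := key x hx
  obtain ⟨m', hn, hn'⟩ := key y hy
  rw [connectedComponentIn_eq hm', connectedComponentIn_eq (hS.subset_connectedComponentIn hm hSs hn),
    ← connectedComponentIn_eq hn']
  exact mem_connectedComponentIn hy

end Pool.Agent.MP_4baaa2_an.H94

/-!
The Riemann mapping theorem for bounded domains on which logarithms exist.
-/

namespace Pool.Agent.MP_4baaa2_an.H94

open Set Metric Filter Topology Complex
open scoped ComplexConjugate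
open Pool.Agent.Lib.PlaneTop

variable {n : ℕ}

/-- univalent maps of `G` into the unit disc -/
structure RmtUniv (G : Set ℂ) (g : ℂ → ℂ) : Prop where
  diff : DifferentiableOn ℂ g G
  maps : ∀ w ∈ G, ‖g w‖ < 1
  inj : InjOn g G
  der : ∀ w ∈ G, deriv g w ≠ 0

/-- disc automorphism -/
noncomputable def rmtMob (a z : ℂ) : ℂ := (z - a) / (1 - conj a * z)

theorem rmt_den_ne {a z : ℂ} (ha : ‖a‖ < 1) (hz : ‖z‖ < 1) : 1 - conj a * z ≠ 0 := by
  intro h
  have h1 : conj a * z = 1 := by linear_combination -h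
  have h2 := congrArg norm h1
  rw [norm_mul, RCLike.norm_conj, norm_one] at h2
  nlinarith [norm_nonneg a, norm_nonneg z]

theorem rmt_num_ne {a : ℂ} (ha : ‖a‖ < 1) : 1 - conj a * a ≠ 0 := rmt_den_ne ha ha

theorem rmt_mob_norm {a z : ℂ} (ha : ‖a‖ < 1) (hz : ‖z‖ < 1) : ‖rmtMob a z‖ < 1 := by
  rw [rmtMob, norm_div, div_lt_one (norm_pos_iff.mpr (rmt_den_ne ha hz))]
  have h1 : ‖a‖ ^ 2 < 1 := by nlinarith [norm_nonneg a]
  have h2 : ‖z‖ ^ 2 < 1 := by nlinarith [norm_nonneg z]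
  rw [← sq_lt_sq₀ (norm_nonneg _) (norm_nonneg _)]
  simp only [Complex.sq_norm, Complex.normSq_apply] at *
  simp only [sub_re, sub_im, one_re, one_im, mul_re, mul_im, conj_re, conj_im]
  nlinarith [mul_pos (sub_pos.mpr h1) (sub_pos.mpr h2)]

theorem rmt_mob_hasDerivAt {a z : ℂ} (ha : ‖a‖ < 1) (hz : ‖z‖ < 1) :
    HasDerivAt (rmtMob a) ((1 - conj a * a) / (1 - conj a * z) ^ 2) z := by
  have h1 : HasDerivAt (fun z : ℂ => z - a) 1 z := (hasDerivAt_id z).sub_const a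
  have h2 : HasDerivAt (fun z : ℂ => 1 - conj a * z) (-(conj a * 1)) z :=
    ((hasDerivAt_id z).const_mul (conj a)).const_sub 1
  have h3 := h1.div h2 (rmt_den_ne ha hz)
  have e : (1 - conj a * a) / (1 - conj a * z) ^ 2 =
      (1 * (1 - conj a * z) - (z - a) * -(conj a * 1)) / (1 - conj a * z) ^ 2 := by
    congr 1; ring
  rw [e]
  exact h3

theorem rmt_mob_inj {a z z' : ℂ} (ha : ‖a‖ < 1) (hz : ‖z‖ < 1) (hz' : ‖z'‖ < 1)
    (h : rmtMob a z = rmtMob a z') : z = z' := by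
  rw [rmtMob, rmtMob, div_eq_div_iff (rmt_den_ne ha hz) (rmt_den_ne ha hz')] at h
  have h1 : (1 - conj a * a) * (z - z') = 0 := by linear_combination h
  exact sub_eq_zero.mp ((mul_eq_zero.mp h1).resolve_left (rmt_num_ne ha))

theorem RmtUniv.hasDerivAt {G : Set ℂ} {g : ℂ → ℂ} (h : RmtUniv G g) (hG : IsOpen G) {w : ℂ}
    (hw : w ∈ G) : HasDerivAt g (deriv g w) w :=
  (h.diff.differentiableAt (hG.mem_nhds hw)).hasDerivAt

theorem RmtUniv.mob_hasDerivAt {G : Set ℂ} {g : ℂ → ℂ} (h : RmtUniv G g) (hG : IsOpen G) {a : ℂ}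
    (ha : ‖a‖ < 1) {w : ℂ} (hw : w ∈ G) :
    HasDerivAt (fun w => rmtMob a (g w))
      ((1 - conj a * a) / (1 - conj a * g w) ^ 2 * deriv g w) w :=
  (rmt_mob_hasDerivAt ha (h.maps w hw)).comp w (h.hasDerivAt hG hw)

theorem RmtUniv.mob {G : Set ℂ} {g : ℂ → ℂ} (h : RmtUniv G g) (hG : IsOpen G) {a : ℂ}
    (ha : ‖a‖ < 1) : RmtUniv G (fun w => rmtMob a (g w)) where
  diff := fun _ hw => (h.mob_hasDerivAt hG ha hw).differentiableAt.differentiableWithinAt
  maps := fun w hw => rmt_mob_norm ha (h.maps w hw)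
  inj := fun w hw w' hw' e => h.inj hw hw' (rmt_mob_inj ha (h.maps w hw) (h.maps w' hw') e)
  der := fun w hw => by
    rw [(h.mob_hasDerivAt hG ha hw).deriv]
    exact mul_ne_zero (div_ne_zero (rmt_num_ne ha) (pow_ne_zero _ (rmt_den_ne ha (h.maps w hw))))
      (h.der w hw)

theorem RmtUniv.rot {G : Set ℂ} {g : ℂ → ℂ} (h : RmtUniv G g) (hG : IsOpen G) {c : ℂ}
    (hc : ‖c‖ = 1) : RmtUniv G (fun w => c * g w) where
  diff := h.diff.const_mul c
  maps := fun w hw => by rw [norm_mul, hc, one_mul]; exact h.maps w hw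
  inj := fun w hw w' hw' e => h.inj hw hw'
    (mul_left_cancel₀ (norm_ne_zero_iff.mp (by rw [hc]; exact one_ne_zero)) e)
  der := fun w hw => by
    rw [((h.hasDerivAt hG hw).const_mul c).deriv]
    exact mul_ne_zero (norm_ne_zero_iff.mp (by rw [hc]; exact one_ne_zero)) (h.der w hw)

theorem RmtUniv.sqrt {G : Set ℂ} {g : ℂ → ℂ} (h : RmtUniv G g) (hG : IsOpen G)
    (hl : HasLogOn g G) :
    ∃ s, RmtUniv G s ∧ ∀ w ∈ G, s w ^ 2 = g w ∧ 2 * s w * deriv s w = deriv g w := by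
  obtain ⟨L, hL, he⟩ := hl
  have hLd := holo_log hG h.diff hL he
  have hs : DifferentiableOn ℂ (fun w => exp (L w / 2)) G := (hLd.div_const 2).cexp
  have hsq : ∀ w ∈ G, exp (L w / 2) ^ 2 = g w := fun w hw => by
    rw [← he w hw, ← Complex.exp_nat_mul]; congr 1; push_cast; ring
  have hd : ∀ w ∈ G, 2 * exp (L w / 2) * deriv (fun w => exp (L w / 2)) w = deriv g w := by
    intro w hw
    have h1 := ((hs.differentiableAt (hG.mem_nhds hw)).hasDerivAt).pow 2
    have h2 : g =ᶠ[𝓝 w] (fun w => exp (L w / 2)) ^ 2 := by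
      filter_upwards [hG.mem_nhds hw] with x hx
      exact (hsq x hx).symm
    rw [(h1.congr_of_eventuallyEq h2).deriv]
    simp
  refine ⟨fun w => exp (L w / 2), ⟨hs, fun w hw => ?_, fun w hw w' hw' e => ?_, fun w hw e => ?_⟩,
    fun w hw => ⟨hsq w hw, hd w hw⟩⟩
  · have h1 := h.maps w hw
    rw [← hsq w hw, norm_pow] at h1
    nlinarith [norm_nonneg (exp (L w / 2))]
  · refine h.inj hw hw' ?_
    rw [← hsq w hw, ← hsq w' hw']
    exact congrArg (· ^ 2) e
  · apply h.der w hw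
    rw [← hd w hw, e, mul_zero]

/-- the square root trick -/
theorem RmtUniv.improve {G : Set ℂ} {g : ℂ → ℂ} (h : RmtUniv G g) (hG : IsOpen G)
    (h0 : (0 : ℂ) ∈ G) (hg0 : g 0 = 0)
    (hl : ∀ g : ℂ → ℂ, RmtUniv G g → (∀ w ∈ G, g w ≠ 0) → HasLogOn g G)
    {a : ℂ} (ha : ‖a‖ < 1) (hna : ∀ w ∈ G, g w ≠ a) :
    ∃ g', RmtUniv G g' ∧ g' 0 = 0 ∧ ‖deriv g 0‖ < ‖deriv g' 0‖ := by
  have h1 := h.mob hG ha
  obtain ⟨s, hs, hs2⟩ := h1.sqrt hG (hl _ h1 fun w hw =>
    div_ne_zero (sub_ne_zero.mpr (hna w hw)) (rmt_den_ne ha (h.maps w hw)))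
  have hb := hs.maps 0 h0
  refine ⟨_, hs.mob hG hb, by simp [rmtMob], ?_⟩
  obtain ⟨e1, e2⟩ := hs2 0 h0
  rw [(h.mob_hasDerivAt hG ha h0).deriv] at e2
  rw [(hs.mob_hasDerivAt hG hb h0).deriv]
  rw [hg0] at e1 e2
  set b := s 0 with hbdef
  have e3 : b ^ 2 = -a := by simpa [rmtMob] using e1
  have ha0 : a ≠ 0 := fun e => hna 0 h0 (by rw [hg0, e])
  have hb0 : b ≠ 0 := fun e => ha0 (by rw [e] at e3; simpa using e3.symm)
  have hna' : ‖a‖ = ‖b‖ ^ 2 := by rw [← norm_pow, e3, norm_neg]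
  have ca : 1 - conj a * a = ((1 - ‖b‖ ^ 4 : ℝ) : ℂ) := by
    rw [Complex.conj_mul', hna']; push_cast; ring
  have cb : 1 - conj b * b = ((1 - ‖b‖ ^ 2 : ℝ) : ℂ) := by
    rw [Complex.conj_mul']; push_cast; ring
  have t0 : 0 < ‖b‖ := norm_pos_iff.mpr hb0
  have t2 : 0 < 1 - ‖b‖ ^ 2 := by nlinarith
  have t4 : 0 < 1 - ‖b‖ ^ 4 := by nlinarith
  have e4 := congrArg norm e2
  rw [ca] at e4
  simp only [mul_zero, sub_zero, one_pow, div_one, norm_mul, Complex.norm_real, Real.norm_eq_abs,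
    abs_of_pos t4, Complex.norm_ofNat] at e4
  rw [cb, norm_mul, norm_div, norm_pow, Complex.norm_real, Real.norm_eq_abs, abs_of_pos t2]
  have hd := norm_pos_iff.mpr (h.der 0 h0)
  have e5 : ‖deriv s 0‖ = (1 - ‖b‖ ^ 4) * ‖deriv g 0‖ / (2 * ‖b‖) := by
    rw [eq_div_iff (by positivity)]; linarith
  have e6 : (1 - ‖b‖ ^ 2) / (1 - ‖b‖ ^ 2) ^ 2 * ((1 - ‖b‖ ^ 4) * ‖deriv g 0‖ / (2 * ‖b‖)) =
      (1 + ‖b‖ ^ 2) / (2 * ‖b‖) * ‖deriv g 0‖ := by
    field_simp; ring
  rw [e5, e6]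
  refine lt_mul_of_one_lt_left hd ?_
  rw [one_lt_div (by positivity)]
  nlinarith

theorem rmt_exists_max {G : Set ℂ} (hG : IsOpen G) (hc : IsPreconnected G) (h0 : (0 : ℂ) ∈ G)
    (hb : Bornology.IsBounded G) :
    ∃ g, RmtUniv G g ∧ g 0 = 0 ∧ ∀ g', RmtUniv G g' → g' 0 = 0 → ‖deriv g' 0‖ ≤ ‖deriv g 0‖ := by
  set S : Set ℝ := {x | ∃ g, RmtUniv G g ∧ g 0 = 0 ∧ ‖deriv g 0‖ = x} with hS
  obtain ⟨R, hR0, hR⟩ := hb.subset_ball_lt 0 (0 : ℂ)
  have hRc : (R : ℂ) ≠ 0 := by exact_mod_cast hR0.ne'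
  have hg1 : RmtUniv G (fun w => w / R) := by
    refine ⟨by fun_prop, fun w hw => ?_, fun w _ w' _ e => ?_, fun w _ => ?_⟩
    · rw [norm_div, Complex.norm_real, Real.norm_eq_abs, abs_of_pos hR0, div_lt_one hR0]
      exact mem_ball_zero_iff.mp (hR hw)
    · exact (div_left_inj' hRc).mp e
    · rw [((hasDerivAt_id' w).div_const (R : ℂ)).deriv]
      exact div_ne_zero one_ne_zero hRc
  have hm1 : ‖deriv (fun w : ℂ => w / R) 0‖ ∈ S := ⟨_, hg1, by simp, rfl⟩
  obtain ⟨r, hr0, hr⟩ := Metric.isOpen_iff.mp hG 0 h0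
  have hbdd : BddAbove S := by
    refine ⟨2 * 1 / (r - 0), ?_⟩
    rintro _ ⟨g, hg, -, rfl⟩
    exact deriv_bound hr0 (hg.diff.mono hr) (fun w hw => (hg.maps w (hr hw)).le) (by simp)
  obtain ⟨u, -, hu, huS⟩ := exists_seq_tendsto_sSup ⟨_, hm1⟩ hbdd
  choose f hf hf0 hfu using huS
  have hM : 0 < sSup S := lt_of_lt_of_le (norm_pos_iff.mpr (hg1.der 0 h0)) (le_csSup hbdd hm1)
  obtain ⟨g, hg, hlim⟩ := montel (hyperfilter ℕ) (f := f) hG (Eventually.of_forall fun k => (hf k).diff)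
    (fun x _ => ⟨1, one_pos, 1, Eventually.of_forall fun k y hy => ((hf k).maps y hy.2).le⟩)
  have hdlim := hlim.deriv (Eventually.of_forall fun k => (hf k).diff) hG
  have hd0 : ‖deriv g 0‖ = sSup S := by
    have h1 := (hdlim.tendsto_at h0).norm
    have h2 : Tendsto (fun k => ‖deriv (f k) 0‖) (hyperfilter ℕ : Filter ℕ) (𝓝 (sSup S)) := by
      simp only [hfu]
      exact hu.mono_left Nat.hyperfilter_le_atTop
    exact tendsto_nhds_unique h1 h2
  have hg0 : g 0 = 0 := by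
    have h1 := hlim.tendsto_at h0
    simp only [hf0] at h1
    exact tendsto_nhds_unique h1 tendsto_const_nhds
  have hder : ∀ w ∈ G, deriv g w ≠ 0 :=
    hurwitz hG hc (Eventually.of_forall fun k => ⟨(hf k).diff.deriv hG, (hf k).der⟩) hdlim h0
      (norm_pos_iff.mp (hd0 ▸ hM))
  have hle : ∀ w ∈ G, ‖g w‖ ≤ 1 := fun w hw =>
    le_of_tendsto (hlim.tendsto_at hw).norm (Eventually.of_forall fun k => ((hf k).maps w hw).le)
  refine ⟨g, ⟨hg, fun w hw => ?_, fun a ha b hb' e => ?_, hder⟩, hg0, fun g' hg' hg0' => ?_⟩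
  · refine lt_of_le_of_ne (hle w hw) fun e => ?_
    have h1 := Complex.eqOn_of_isPreconnected_of_isMaxOn_norm hc hG hg hw
      (fun x hx => by simpa [e] using hle x hx) h0
    rw [hg0] at h1
    have h2 : g w = 0 := h1.symm
    rw [h2, norm_zero] at e
    exact zero_ne_one e
  · by_contra hab
    obtain ⟨ρ, hρ0, hρ⟩ := Metric.isOpen_iff.mp (hG.inter isOpen_compl_singleton) b
      ⟨hb', fun h => hab (mem_singleton_iff.mp h).symm⟩
    have hsub : ball b ρ ⊆ G := fun x hx => (hρ hx).1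
    have h1 : TendstoLocallyUniformlyOn (fun k x => f k x - f k a) (fun x => g x - g a)
        (hyperfilter ℕ : Filter ℕ) (ball b ρ) :=
      (hlim.mono hsub).sub
        ((hlim.tendsto_at ha).tendstoUniformlyOn_const _).tendstoLocallyUniformlyOn
    have h2 : ∀ᶠ x in 𝓝[≠] b, g x ≠ g a :=
      (hg.differentiableAt (hG.mem_nhds hb')).hasDerivAt.eventually_ne (hder b hb')
    obtain ⟨x, hx1, hx2⟩ := (h2.and (mem_nhdsWithin_of_mem_nhds (ball_mem_nhds b hρ0))).exists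
    have h3 := hurwitz isOpen_ball (convex_ball b ρ).isPreconnected
      (Eventually.of_forall fun k => ⟨((hf k).diff.mono hsub).sub_const _, fun x hx e' =>
        (hρ hx).2 ((hf k).inj (hsub hx) ha (sub_eq_zero.mp e'))⟩) h1 hx2 (sub_ne_zero.mpr hx1)
      b (mem_ball_self hρ0)
    exact h3 (sub_eq_zero.mpr e.symm)
  · rw [hd0]
    exact le_csSup hbdd ⟨g', hg', hg0', rfl⟩

theorem riemann_map {G : Set ℂ} (hG : IsOpen G) (hc : IsPreconnected G) (h0 : (0 : ℂ) ∈ G)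
    (hb : Bornology.IsBounded G)
    (hl : ∀ g : ℂ → ℂ, RmtUniv G g → (∀ w ∈ G, g w ≠ 0) → HasLogOn g G) :
    ∃ ψ : ℂ → ℂ, DifferentiableOn ℂ ψ (ball 0 1) ∧ InjOn ψ (ball 0 1) ∧ ψ '' ball 0 1 = G ∧
      ψ 0 = 0 ∧ (∀ w ∈ ball (0 : ℂ) 1, deriv ψ w ≠ 0) ∧ (∃ x : ℝ, 0 < x ∧ deriv ψ 0 = x) ∧
      ∃ g, RmtUniv G g ∧ (∀ w ∈ ball (0 : ℂ) 1, g (ψ w) = w) ∧ ∀ x ∈ G, ψ (g x) = x := by
  obtain ⟨g1, hg1, hg10, hmax⟩ := rmt_exists_max hG hc h0 hb
  have hd1 := hg1.der 0 h0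
  have hn1 : ((‖deriv g1 0‖ : ℝ) : ℂ) ≠ 0 := by exact_mod_cast norm_ne_zero_iff.mpr hd1
  have hcn : ‖(‖deriv g1 0‖ : ℂ) / deriv g1 0‖ = 1 := by
    rw [norm_div, Complex.norm_real, norm_norm, div_self (norm_ne_zero_iff.mpr hd1)]
  have hg := hg1.rot hG hcn
  have hgd := ((hg1.hasDerivAt hG h0).const_mul ((‖deriv g1 0‖ : ℂ) / deriv g1 0)).deriv
  rw [div_mul_cancel₀ _ hd1] at hgd
  set g : ℂ → ℂ := fun w => (‖deriv g1 0‖ : ℂ) / deriv g1 0 * g1 w with hgdef
  have hg0 : g 0 = 0 := by simp [hgdef, hg10]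
  have honto : ∀ a ∈ ball (0 : ℂ) 1, ∃ w ∈ G, g w = a := by
    intro a ha
    by_contra hna
    push Not at hna
    obtain ⟨g', hg', hg0', hlt⟩ := hg.improve hG h0 hg0 hl (mem_ball_zero_iff.mp ha) hna
    rw [hgd, Complex.norm_real, norm_norm] at hlt
    exact absurd (hmax g' hg' hg0') (not_le.mpr hlt)
  have hleft : ∀ w ∈ G, Function.invFunOn g G (g w) = w := fun w hw =>
    hg.inj.leftInvOn_invFunOn hw
  have hder : ∀ w ∈ G, HasDerivAt (Function.invFunOn g G) (deriv g w)⁻¹ (g w) := by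
    intro w hw
    have h1 : HasStrictDerivAt g (deriv g w) w :=
      (hg.diff.analyticAt (hG.mem_nhds hw)).hasStrictDerivAt
    exact (h1.to_local_left_inverse (hg.der w hw)
      (by filter_upwards [hG.mem_nhds hw] with x hx using hleft x hx)).hasDerivAt
  refine ⟨Function.invFunOn g G, fun a ha => ?_, fun a ha b hb' e => ?_, ?_, ?_, fun a ha => ?_,
    ⟨‖deriv g1 0‖⁻¹, inv_pos.mpr (norm_pos_iff.mpr hd1), ?_⟩, g, hg, fun a ha => ?_, hleft⟩
  · obtain ⟨w, hw, rfl⟩ := honto a ha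
    exact (hder w hw).differentiableAt.differentiableWithinAt
  · obtain ⟨w, hw, rfl⟩ := honto a ha
    obtain ⟨w', hw', rfl⟩ := honto b hb'
    rw [hleft w hw, hleft w' hw'] at e
    rw [e]
  · ext w
    constructor
    · rintro ⟨a, ha, rfl⟩
      obtain ⟨w, hw, rfl⟩ := honto a ha
      rw [hleft w hw]; exact hw
    · intro hw
      exact ⟨g w, mem_ball_zero_iff.mpr (hg.maps w hw), hleft w hw⟩
  · have := hleft 0 h0
    rwa [hg0] at this
  · obtain ⟨w, hw, rfl⟩ := honto a ha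
    rw [(hder w hw).deriv]
    exact inv_ne_zero (hg.der w hw)
  · have := (hder 0 h0).deriv
    rw [hg0, hgd] at this
    rw [this]; push_cast; rfl
  · obtain ⟨w, hw, rfl⟩ := honto a ha
    rw [hleft w hw]

end Pool.Agent.MP_4baaa2_an.H94

/-!
Definitions for the boundary behaviour of functions on the unit disc.
-/

namespace Pool.Agent.MP_4baaa2_an.H94

open Set Metric Filter Topology Complex MeasureTheory
open scoped ComplexConjugate

/-- the circle `ℝ / ℤ` -/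
abbrev TT : Type := UnitAddCircle

instance tt_prob : IsProbabilityMeasure (volume : Measure TT) := ⟨UnitAddCircle.measure_univ⟩

/-- the point `e^{2πit}` of the unit circle -/
noncomputable def ec (t : TT) : ℂ := fourier 1 t

/-- the Poisson kernel of the unit disc -/
noncomputable def Pk (w ω : ℂ) : ℝ := (1 - ‖w‖ ^ 2) / ‖ω - w‖ ^ 2

/-- the Poisson integral -/
noncomputable def PI {V : Type*} [NormedAddCommGroup V] [NormedSpace ℝ V] (f : TT → V) (w : ℂ) :
    V := ∫ t, Pk w (ec t) • f t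

/-- the Schwarz integral -/
noncomputable def SI (f : TT → ℝ) (w : ℂ) : ℂ := ∫ t, (ec t + w) / (ec t - w) * (f t : ℂ)

/-- harmonic measure -/
noncomputable def hm (B : Set TT) (w : ℂ) : ℝ := PI (B.indicator fun _ => (1 : ℝ)) w

/-- the outer function with phase `b` -/
noncomputable def ka (b : TT → ℝ) (w : ℂ) : ℂ := exp (I * SI b w)

/-- the nontangential approach region -/
def Cone (M : ℝ) (e : ℂ) : Set ℂ := {w | ‖w‖ < 1 ∧ ‖w - e‖ ≤ M * (1 - ‖w‖)}

/-- `fs` is the radial limit of `f` almost everywhere -/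
def RL {V : Type*} [TopologicalSpace V] (f : ℂ → V) (fs : TT → V) : Prop :=
  ∀ᵐ t, Tendsto (fun r : ℝ => f (r * ec t)) (𝓝[<] 1) (𝓝 (fs t))

/-- members of the disc algebra -/
abbrev DA {V : Type*} [NormedAddCommGroup V] [NormedSpace ℂ V] (f : ℂ → V) : Prop :=
  DiffContOnCl ℂ f (ball 0 1)

/-- bounded holomorphic functions on the disc -/
structure HB {V : Type*} [NormedAddCommGroup V] [NormedSpace ℂ V] (f : ℂ → V) (B : ℝ) : Prop where
  diff : DifferentiableOn ℂ f (ball 0 1)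
  bd : ∀ w ∈ ball (0 : ℂ) 1, ‖f w‖ ≤ B

/-- an absolute constant -/
noncomputable def cz : ℝ := 1 / 1000

/-- a damping function for the set `B` -/
structure Dmp (B : Set TT) (θ₁ θ₂ : ℝ) (u : ℂ → ℂ) : Prop where
  hb : HB u 1
  small : ∀ w ∈ ball (0 : ℂ) 1, cz ≤ hm B w → ‖u w‖ ≤ θ₁
  phase : ∀ w ∈ ball (0 : ℂ) 1, ‖u w‖ ≤ θ₁ ∨ ∃ ψ : ℝ, |ψ| ≤ θ₂ ∧ u w = ‖u w‖ * exp (ψ * I)

/-- the boundary points of the sawtooth domain over `G` -/
def Bd (G : Set TT) (s r : ℝ) (w : ℂ) : Prop :=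
  (‖w‖ = r ∧ cz ≤ hm Gᶜ w) ∨
    ((∃ t ∈ G, w ∈ Cone 8 (ec t) ∧ w / r ∈ Cone 8 (ec t)) ∧ 1 - ‖w‖ ≤ 2 * s ∧ ‖w‖ ≤ r ∧
      (cz ≤ hm Gᶜ w ∨ s / 2 ≤ 1 - ‖w‖))

/-- the admissible polar coordinates for the branch attached to `L` -/
def BrS (L : ℂ) : Set (ℝ × ℝ) :=
  {x | 0 ≤ x.1 ∧ (‖1 - exp L‖ * x.1 = ‖exp L‖ → |x.2 + arg (1 - exp L) - L.im| < Real.pi)}

/-- a continuous family of univalent maps of the disc -/
structure Fam {X : Type*} [TopologicalSpace X] (R : X → ℂ → ℂ) : Prop where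
  cont : ContinuousOn (fun x : X × ℂ => R x.1 x.2) (univ ×ˢ ball 0 1)
  diff : ∀ t, DifferentiableOn ℂ (R t) (ball 0 1)
  inj : ∀ t, InjOn (R t) (ball 0 1)
  der : ∀ t, ∀ w ∈ ball (0 : ℂ) 1, deriv (R t) w ≠ 0

end Pool.Agent.MP_4baaa2_an.H94

end

-- part MP_4baaa2_an.H94.Top
section

/-!
Plane topology: logarithms along segments, components of complements, translated arcs.
-/

namespace Pool.Agent.MP_4baaa2_an.H94

open Set Metric Filter Topology Complex
open scoped ComplexConjugate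
open Pool.Agent.Lib.PlaneTop

theorem top1_slit {z : ℂ} (h : 0 ≤ z.re ∧ z ≠ 0) : z ∈ slitPlane := by
  rcases h.1.lt_or_eq with h1 | h1
  · exact Or.inl h1
  · exact Or.inr fun h2 => h.2 (Complex.ext h1.symm h2)

theorem top1_re {z : ℂ} (h : ‖z‖ ≤ 1) : 0 ≤ (1 + z).re := by
  have := (abs_le.1 ((abs_re_le_norm z).trans h)).1
  rw [add_re, one_re]
  linarith

theorem top1_side {ω : ℝ → ℂ} (hω : ContinuousOn ω (Icc 0 1))
    (hre : ∀ s ∈ Icc (0 : ℝ) 1, 0 ≤ (exp (ω s)).re) :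
    (ω 1).im - (ω 0).im = arg (exp (ω 1)) - arg (exp (ω 0)) := by
  have e := log_sub_const (K := Icc (0 : ℝ) 1) (ω := ω) (ω' := fun s => log (exp (ω s)))
    isPreconnected_Icc hω (hω.cexp.clog fun s hs => top1_slit ⟨hre s hs, exp_ne_zero _⟩)
    (fun s _ => (exp_log (exp_ne_zero _)).symm) ⟨le_rfl, zero_le_one⟩ ⟨zero_le_one, le_rfl⟩
  have e1 := congrArg im e
  simp only [sub_im, log_im] at e1
  linarith

/-- Hint: `s ↦ (a + s b) / a = 1 + s (b / a)` avoids the negative axis (if it were `-x ≤ 0` at `s`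
then `a + (s / (1 + x)) b = 0`); `log_sub_const` on `Icc 0 1`. -/
theorem seg_arg {a b : ℂ} {l : ℝ → ℂ} (hl : ContinuousOn l (Icc 0 1))
    (he : ∀ s ∈ Icc (0 : ℝ) 1, exp (l s) = a + s * b) :
    (a + b) / a ∈ slitPlane ∧ l 1 - l 0 = log ((a + b) / a) ∧ |(l 1).im - (l 0).im| < Real.pi := by
  have hne : ∀ s ∈ Icc (0 : ℝ) 1, a + s * b ≠ 0 := fun s hs => by
    rw [← he s hs]; exact exp_ne_zero _
  have ha : a ≠ 0 := by simpa using hne 0 ⟨le_rfl, zero_le_one⟩
  have hsl : ∀ s ∈ Icc (0 : ℝ) 1, (a + s * b) / a ∈ slitPlane := fun s hs => by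
    by_contra hn
    rw [mem_slitPlane_iff, not_or, not_lt, not_not] at hn
    set x : ℝ := -((a + s * b) / a).re with hx
    have hx0 : 0 ≤ x := by linarith [hn.1]
    have e : (a + s * b) / a = -(x : ℂ) := Complex.ext (by simp [hx]) (by simpa using hn.2)
    rw [div_eq_iff ha] at e
    have h1 : (0 : ℝ) < 1 + x := by linarith
    refine hne (s / (1 + x)) ⟨div_nonneg hs.1 h1.le, (div_le_one h1).2 (by linarith [hs.2])⟩ ?_
    have h2 : (1 + x : ℂ) ≠ 0 := by exact_mod_cast h1.ne'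
    push_cast
    field_simp
    linear_combination e
  have h1 : (a + b) / a ∈ slitPlane := by simpa using hsl 1 ⟨zero_le_one, le_rfl⟩
  have e := log_sub_const (K := Icc (0 : ℝ) 1) (ω := l)
    (ω' := fun s : ℝ => l 0 + log ((a + s * b) / a)) isPreconnected_Icc hl
    (continuousOn_const.add (ContinuousOn.clog (by fun_prop) hsl)) (fun s hs => by
      rw [exp_add, exp_log (slitPlane_ne_zero (hsl s hs)), he s hs, he 0 ⟨le_rfl, zero_le_one⟩,
        ofReal_zero, zero_mul, add_zero, mul_div_cancel₀ _ ha]) ⟨le_rfl, zero_le_one⟩ ⟨zero_le_one, le_rfl⟩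
  have e2 : l 1 - l 0 = log ((a + b) / a) := by
    simp only [ofReal_zero, zero_mul, add_zero, div_self ha, log_one, ofReal_one, one_mul] at e
    linear_combination -e
  refine ⟨h1, e2, ?_⟩
  rw [← sub_im, e2, log_im]
  exact abs_lt.2 ⟨neg_pi_lt_arg _, lt_of_le_of_ne (arg_le_pi _) (mem_slitPlane_iff_arg.1 h1).1⟩

/-- If `y - b` has a logarithm on the compact set `S` then `b` lies in the unbounded component of
the complement. Hint: let `O` be the component of `b` in `Sᶜ` (open, path connected, frontier in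
`S`). If `O` is unbounded we are done. Otherwise extend the logarithm `L` continuously to the plane
(Tietze, `ContinuousMap.exists_restrict_eq` or `ContinuousOn` version, real and imaginary part) and
put `g = exp L` on `O`, `g y = y - b` off `O`: continuous (the formulas agree on the frontier),
without zeros, so it has a logarithm on a big closed ball around `b` (`hasLogOn_of_convex`), in
contradiction with `not_hasLogOn_sphere`. -/
theorem bk {S : Set ℂ} (hS : IsCompact S) {b : ℂ} (hl : HasLogOn (fun y => y - b) S) (R : ℝ) :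
    ∃ c : ℂ, R ≤ ‖c‖ ∧ JoinedIn Sᶜ b c := by
  classical
  have hb : b ∈ Sᶜ := fun h => hl.ne_zero h (sub_self b)
  by_contra hcon
  push Not at hcon
  set O := pathComponentIn Sᶜ b with hO
  have hSo : IsOpen Sᶜ := hS.isClosed.isOpen_compl
  have Oo : IsOpen O := hSo.pathComponentIn b
  have bO : b ∈ O := mem_pathComponentIn_self hb
  have OR : ∀ c ∈ O, ‖c‖ < R := fun c hc => not_le.1 fun h => hcon c h hc
  have fr : ∀ y ∈ closure O, y ∉ O → y ∈ S := fun y hy hyO => by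
    by_contra hyS
    obtain ⟨r, r0, hr⟩ := Metric.isOpen_iff.1 hSo y hyS
    obtain ⟨z, hz1, hz2⟩ := mem_closure_iff.1 hy (ball y r) isOpen_ball (mem_ball_self r0)
    exact hyO (JoinedIn.trans hz2 ((((convex_ball y r).isPathConnected
      ⟨y, mem_ball_self r0⟩).joinedIn z hz1 y (mem_ball_self r0)).mono hr))
  obtain ⟨ω, h1, h2⟩ := hl
  obtain ⟨L, hL⟩ := ContinuousMap.exists_restrict_eq hS.isClosed
    (⟨S.domRestrict ω, continuousOn_iff_continuous_domRestrict.1 h1⟩ : C(S, ℂ))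
  have hL' : ∀ y ∈ S, exp (L y) = y - b := fun y hy => by
    exact (congrArg exp (DFunLike.congr_fun hL ⟨y, hy⟩)).trans (h2 y hy)
  set g : ℂ → ℂ := fun y => if y ∈ O then exp (L y) else y - b with hg
  have gc : Continuous g := by
    refine continuous_if' (fun y hy => ?_) (fun y hy => ?_) (by fun_prop) (by fun_prop)
    · have hy' : y ∈ frontier O := hy
      rw [Oo.frontier_eq] at hy'
      rw [if_neg hy'.2, ← hL' y (fr y hy'.1 hy'.2)]
      exact ((by fun_prop : Continuous fun y => exp (L y)).tendsto y).mono_left inf_le_left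
    · have hy' : y ∈ frontier O := hy
      rw [Oo.frontier_eq] at hy'
      rw [if_neg hy'.2]
      exact ((by fun_prop : Continuous fun y => y - b).tendsto y).mono_left inf_le_left
  have g0 : ∀ y, g y ≠ 0 := fun y => by
    by_cases hy : y ∈ O
    · simp [hg, hy]
    · simp only [hg, hy, if_false]
      exact fun h => hy (by rwa [sub_eq_zero.1 h])
  have hR : 0 < R := (norm_nonneg _).trans_lt (OR b bO)
  refine not_hasLogOn_sphere b (r := 2 * R) (by positivity)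
    (((hasLogOn_of_convex convex_univ gc.continuousOn fun y _ => g0 y).mono
      (subset_univ _)).congr fun y hy => ?_)
  have : y ∉ O := fun h => by
    have e1 := OR y h
    have e2 := OR b bO
    have e3 := norm_sub_le y b
    rw [mem_sphere_iff_norm] at hy
    linarith
  simp [hg, this]

/-- all far points are joined, and `y - c` has a logarithm for far `c` -/
theorem far_log {S : Set ℂ} {R : ℝ} (hS : S ⊆ ball 0 R) {c : ℂ} (hc : R ≤ ‖c‖) :
    HasLogOn (fun y => y - c) S := by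
  refine (hasLogOn_of_convex (convex_ball 0 R) (by fun_prop) fun y hy h => ?_).mono hS
  rw [mem_ball_zero_iff, sub_eq_zero.1 h] at hy
  linarith

theorem compl_conn {S : Set ℂ} (hS : IsCompact S)
    (hl : ∀ b ∉ S, HasLogOn (fun y => y - b) S) : IsPreconnected Sᶜ := by
  obtain ⟨R, R0, hR⟩ := hS.isBounded.subset_ball_lt 0 0
  set F : Set ℂ := (fun p : ℝ × ℝ => (p.1 : ℂ) * exp (p.2 * I)) '' (Ici R ×ˢ univ) with hF
  have Fc : IsPreconnected F :=
    (isPreconnected_Ici.prod isPreconnected_univ).image _ (by fun_prop)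
  have F1 : ∀ c : ℂ, R ≤ ‖c‖ → c ∈ F := fun c hc =>
    ⟨(‖c‖, arg c), ⟨hc, trivial⟩, norm_mul_exp_arg_mul_I c⟩
  have F2 : F ⊆ Sᶜ := by
    rintro _ ⟨p, hp, rfl⟩ h
    have e := mem_ball_zero_iff.1 (hR h)
    have hp1 : R ≤ p.1 := hp.1
    rw [norm_mul, norm_exp_ofReal_mul_I, mul_one, norm_real, Real.norm_eq_abs] at e
    linarith [le_abs_self p.1]
  refine isPreconnected_of_forall (R : ℂ) fun b hb => ?_
  obtain ⟨c, hc, γ, hγ⟩ := bk hS (hl b hb) R
  refine ⟨F ∪ range γ, union_subset F2 (range_subset_iff.2 hγ),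
    Or.inl (F1 _ (by simp [abs_of_pos R0])), Or.inr ⟨0, γ.source⟩, ?_⟩
  exact Fc.union c (F1 c hc) ⟨1, γ.target⟩ (isPreconnected_range γ.continuous)

/-- Hint: `B' u = B (choice of a preimage)`; the preimage of a closed set `C` is
`U '' (K ∩ B ⁻¹' C)`, which is compact (`continuousOn_iff_isClosed`). -/
theorem desc {Y : Type*} [TopologicalSpace Y] {K : Set Y} (hK : IsCompact K) {U B : Y → ℂ}
    (hU : ContinuousOn U K) (hB : ContinuousOn B K)
    (h : ∀ y ∈ K, ∀ y' ∈ K, U y = U y' → B y = B y') :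
    ∃ B' : ℂ → ℂ, ContinuousOn B' (U '' K) ∧ ∀ y ∈ K, B' (U y) = B y := by
  classical
  set B' : ℂ → ℂ := fun u => if hu : u ∈ U '' K then B hu.choose else 0 with hB'
  have e : ∀ y ∈ K, B' (U y) = B y := fun y hy => by
    have hu : U y ∈ U '' K := mem_image_of_mem U hy
    simp only [hB', dif_pos hu]
    exact h _ hu.choose_spec.1 y hy hu.choose_spec.2
  refine ⟨B', continuousOn_iff_isClosed.2 fun C hC => ?_, e⟩
  obtain ⟨T, T1, T2⟩ := continuousOn_iff_isClosed.1 hB C hC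
  refine ⟨U '' (K ∩ T), ((hK.inter_right T1).image_of_continuousOn
    (hU.mono inter_subset_left)).isClosed, ?_⟩
  ext u
  constructor
  · rintro ⟨h1, y, hy, rfl⟩
    have : y ∈ B ⁻¹' C ∩ K := ⟨by rwa [mem_preimage, e y hy] at h1, hy⟩
    rw [T2] at this
    exact ⟨⟨y, ⟨hy, this.1⟩, rfl⟩, y, hy, rfl⟩
  · rintro ⟨⟨y, hy, rfl⟩, h2⟩
    have : y ∈ T ∩ K := ⟨hy.2, hy.1⟩
    rw [← T2] at this
    exact ⟨by rw [mem_preimage, e y hy.1]; exact this.1, h2⟩

/-- An arc which stays away from its translate by `2πi` cannot join two leftmost points at vertical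
distance `2π`. Hint: assume not; put `κ = max 0 (2π - Δ) + μ / 8 ≤ 3 μ / 8` and
`c s = max (Re γ s - μ / 4) m + I (Im γ s + s κ)`. Then `Re c ≥ m` with equality at both ends,
`Δ' = Im c 1 - Im c 0 > 2π`, and `f (s, t) = c s - c t - 2πi ≠ 0` on the square, so `f` has a
logarithm there (`hasLogOn_of_convex`). On the sides `t = 0`, `t = 1` the real part of `f` is
nonnegative (compare with `log f`), on `s = 0`, `s = 1` it is nonpositive (compare with
`log (- f)`); the corners `(0,0), (1,1), (0,1)` are on the negative imaginary axis, `(1,0)` is on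
the positive one. The argument increases by `π, π, 0, 0` along the boundary: contradiction. -/
theorem cl_margin {γ : ℝ → ℂ} {μ m : ℝ} (hμ : 0 < μ) (hγ : ContinuousOn γ (Icc 0 1))
    (hs : ∀ s ∈ Icc (0 : ℝ) 1, ∀ t ∈ Icc (0 : ℝ) 1, μ ≤ ‖γ s - γ t - 2 * Real.pi * I‖)
    (hm : ∀ s ∈ Icc (0 : ℝ) 1, m ≤ (γ s).re) (h0 : (γ 0).re ≤ m + μ / 4)
    (h1 : (γ 1).re ≤ m + μ / 4) : (γ 1).im - (γ 0).im ≤ 2 * Real.pi - μ / 4 := by
  by_contra hcon
  rw [not_le] at hcon
  have pi0 := Real.pi_pos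
  set κ : ℝ := max 0 (2 * Real.pi - ((γ 1).im - (γ 0).im)) + μ / 8 with hκ
  have κ0 : 0 < κ := by have := le_max_left 0 (2 * Real.pi - ((γ 1).im - (γ 0).im)); linarith
  have κ1 : κ ≤ 3 * μ / 8 := by
    have : max 0 (2 * Real.pi - ((γ 1).im - (γ 0).im)) ≤ μ / 4 :=
      max_le (by linarith) (by linarith)
    linarith
  have κ2 : 2 * Real.pi < (γ 1).im - (γ 0).im + κ := by
    have := le_max_right 0 (2 * Real.pi - ((γ 1).im - (γ 0).im)); linarith
  set u : ℝ → ℝ := fun s => max ((γ s).re - μ / 4) m with hu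
  set v : ℝ → ℝ := fun s => (γ s).im + s * κ with hv
  have uc : ContinuousOn u (Icc 0 1) :=
    ((continuous_re.comp_continuousOn hγ).sub continuousOn_const).sup continuousOn_const
  have vc : ContinuousOn v (Icc 0 1) := (continuous_im.comp_continuousOn hγ).add (by fun_prop)
  have um : ∀ s, m ≤ u s := fun s => le_max_right _ _
  have u0 : u 0 = m := max_eq_right (by linarith)
  have u1 : u 1 = m := max_eq_right (by linarith)
  have v01 : 2 * Real.pi < v 1 - v 0 := by simp only [hv]; linarith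
  set f : ℝ × ℝ → ℂ := fun p => (u p.1 - u p.2 : ℝ) + (v p.1 - v p.2 - 2 * Real.pi : ℝ) * I with hf
  have fre : ∀ p, (f p).re = u p.1 - u p.2 := fun p => by simp [hf]
  have fim : ∀ p, (f p).im = v p.1 - v p.2 - 2 * Real.pi := fun p => by simp [hf]
  have fc : ContinuousOn f (Icc 0 1 ×ˢ Icc 0 1) := by
    have a1 : ContinuousOn (fun p : ℝ × ℝ => u p.1) (Icc 0 1 ×ˢ Icc 0 1) :=
      uc.comp continuousOn_fst fun p hp => hp.1
    have a2 : ContinuousOn (fun p : ℝ × ℝ => u p.2) (Icc 0 1 ×ˢ Icc 0 1) :=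
      uc.comp continuousOn_snd fun p hp => hp.2
    have a3 : ContinuousOn (fun p : ℝ × ℝ => v p.1) (Icc 0 1 ×ˢ Icc 0 1) :=
      vc.comp continuousOn_fst fun p hp => hp.1
    have a4 : ContinuousOn (fun p : ℝ × ℝ => v p.2) (Icc 0 1 ×ˢ Icc 0 1) :=
      vc.comp continuousOn_snd fun p hp => hp.2
    exact (continuous_ofReal.comp_continuousOn (a1.sub a2)).add
      ((continuous_ofReal.comp_continuousOn ((a3.sub a4).sub continuousOn_const)).mul
        continuousOn_const)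
  have fne : ∀ p ∈ Icc (0 : ℝ) 1 ×ˢ Icc (0 : ℝ) 1, f p ≠ 0 := fun p hp h => by
    have e1 := fre p
    have e2 := fim p
    rw [h] at e1 e2
    simp only [zero_re, zero_im, hv] at e1 e2
    have b1 : ∀ s ∈ Icc (0 : ℝ) 1, (γ s).re - μ / 4 ≤ u s ∧ u s ≤ (γ s).re := fun s hs' =>
      ⟨le_max_left _ _, max_le (by linarith) (hm s hs')⟩
    have b2 := (hs _ hp.1 _ hp.2).trans (norm_le_abs_re_add_abs_im _)
    have b3 : |(γ p.1 - γ p.2 - 2 * Real.pi * I).re| ≤ μ / 4 := by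
      have c1 := b1 _ hp.1
      have c2 := b1 _ hp.2
      simp only [sub_re, mul_re, re_ofNat, ofReal_re, im_ofNat, ofReal_im, mul_zero, sub_zero,
        I_re, mul_im, zero_mul, add_zero, I_im, mul_one, sub_self]
      exact abs_le.2 ⟨by linarith, by linarith⟩
    have b4 : |(γ p.1 - γ p.2 - 2 * Real.pi * I).im| ≤ κ := by
      simp only [sub_im, mul_re, re_ofNat, ofReal_re, im_ofNat, ofReal_im, mul_zero, sub_zero,
        I_re, mul_im, zero_mul, add_zero, I_im, mul_one]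
      exact abs_le.2 ⟨by nlinarith [hp.1.1, hp.1.2, hp.2.1, hp.2.2],
        by nlinarith [hp.1.1, hp.1.2, hp.2.1, hp.2.2]⟩
    linarith
  obtain ⟨ω, w1, w2⟩ := hasLogOn_of_convex ((convex_Icc (0 : ℝ) 1).prod (convex_Icc (0 : ℝ) 1))
    fc fne
  have z0 : (0 : ℝ) ∈ Icc (0 : ℝ) 1 := ⟨le_rfl, zero_le_one⟩
  have z1 : (1 : ℝ) ∈ Icc (0 : ℝ) 1 := ⟨zero_le_one, le_rfl⟩
  have H : ∀ t ∈ Icc (0 : ℝ) 1, u t = m →
      (ω (1, t)).im - (ω (0, t)).im = arg (f (1, t)) - arg (f (0, t)) := fun t ht hm' => by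
    have := top1_side (ω := fun s => ω (s, t))
      (w1.comp (by fun_prop) fun s hs' => ⟨hs', ht⟩) fun s hs' => by
        rw [w2 _ ⟨hs', ht⟩, fre]
        simp only [hm']
        linarith [um s]
    rwa [w2 _ ⟨z1, ht⟩, w2 _ ⟨z0, ht⟩] at this
  have V : ∀ s ∈ Icc (0 : ℝ) 1, u s = m →
      (ω (s, 1)).im - (ω (s, 0)).im = arg (- f (s, 1)) - arg (- f (s, 0)) := fun s hs' hm' => by
    have := top1_side (ω := fun t => ω (s, t) + Real.pi * I)
      ((w1.comp (by fun_prop) fun t ht => ⟨hs', ht⟩).add continuousOn_const) fun t ht => by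
        rw [exp_add_pi_mul_I, w2 _ ⟨hs', ht⟩, neg_re, fre]
        simp only [hm']
        linarith [um t]
    rw [exp_add_pi_mul_I, exp_add_pi_mul_I, w2 _ ⟨hs', z1⟩, w2 _ ⟨hs', z0⟩, add_im,
      add_im] at this
    linarith
  have up : ∀ z : ℂ, z.re = 0 → 0 < z.im → arg z = Real.pi / 2 := fun z a b =>
    arg_eq_pi_div_two_iff.2 ⟨a, b⟩
  have dn : ∀ z : ℂ, z.re = 0 → z.im < 0 → arg z = -(Real.pi / 2) := fun z a b =>
    arg_eq_neg_pi_div_two_iff.2 ⟨a, b⟩
  have e1 := H 0 z0 u0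
  have e2 := H 1 z1 u1
  have e3 := V 0 z0 u0
  have e4 := V 1 z1 u1
  rw [up (f (1, 0)) (by simp [fre, u0, u1]) (by rw [fim]; linarith),
    dn (f (0, 0)) (by simp [fre]) (by rw [fim]; linarith)] at e1
  rw [dn (f (1, 1)) (by simp [fre]) (by rw [fim]; linarith),
    dn (f (0, 1)) (by simp [fre, u0, u1]) (by rw [fim]; linarith)] at e2
  rw [up (- f (0, 1)) (by simp [fre, u0, u1]) (by rw [neg_im, fim]; linarith),
    up (- f (0, 0)) (by simp [fre]) (by rw [neg_im, fim]; linarith)] at e3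
  rw [up (- f (1, 1)) (by simp [fre]) (by rw [neg_im, fim]; linarith),
    dn (- f (1, 0)) (by simp [fre, u0, u1]) (by rw [neg_im, fim]; linarith)] at e4
  linarith

/-- The branch of `log (x + (1 - x) ρ e^{iθ})`, `x = exp L`. Hint: with `W = (1 - x) ρ e^{iθ}` put
`B = L + log (1 + W / x)` if `‖1 - x‖ ρ ≤ ‖x‖` and
`B = log ρ + iθ + log (1 - x) + log (1 + x / W)` otherwise. On the junction `W / x = e^{iφ}`,
`φ = θ + arg (1 - x) - Im L ∈ (-π, π)`, and `log (1 + e^{iφ}) - log (1 + e^{-iφ}) = iφ`, so both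
formulas agree; `ContinuousOn.if` or `ContinuousOn.union_continuousOn` on the two relatively closed
pieces. -/
theorem br {L : ℂ} (hL : ‖exp L‖ < 1 / 2) : ∃ B : ℝ × ℝ → ℂ, ContinuousOn B (BrS L) ∧
    (∀ x ∈ BrS L, exp (B x) = exp L + (1 - exp L) * (x.1 * exp (x.2 * I))) ∧ B (1, 0) = 0 ∧
    ∀ θ, B (0, θ) = L := by
  classical
  set x := exp L with hx
  have x0 : x ≠ 0 := exp_ne_zero L
  have xn : 0 < ‖x‖ := norm_pos_iff.2 x0
  have y1 : 1 / 2 < ‖1 - x‖ := by
    have := norm_sub_norm_le (1 : ℂ) x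
    rw [norm_one] at this
    linarith
  have y0 : 1 - x ≠ 0 := norm_pos_iff.1 (by linarith)
  have ys : 1 - x ∈ slitPlane := by
    rw [sub_eq_add_neg]
    exact mem_slitPlane_of_norm_lt_one (by rw [norm_neg]; linarith)
  set W : ℝ × ℝ → ℂ := fun p => (1 - x) * (p.1 * exp (p.2 * I)) with hW
  have Wc : Continuous W := by fun_prop
  have Wn : ∀ p ∈ BrS L, ‖W p‖ = ‖1 - x‖ * p.1 := fun p hp => by
    simp only [hW]
    rw [norm_mul, norm_mul, norm_exp_ofReal_mul_I, mul_one, norm_real, Real.norm_eq_abs,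
      abs_of_nonneg hp.1]
  have Wx : ∀ p ∈ BrS L, x + W p ≠ 0 := fun p hp h => by
    have e1 : W p = -x := by linear_combination h
    have e2 : ‖1 - x‖ * p.1 = ‖x‖ := by rw [← Wn p hp, e1, norm_neg]
    have e3 := abs_lt.1 (hp.2 e2)
    have e4 : exp ((p.2 + arg (1 - x) - L.im : ℝ) * I) = exp (Real.pi * I) := by
      have a1 : (‖x‖ : ℂ) * exp (L.im * I) = x := by
        rw [hx, norm_exp, ofReal_exp, ← exp_add, re_add_im]
      have a2 := norm_mul_exp_arg_mul_I (1 - x)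
      have a3 : (‖x‖ : ℂ) ≠ 0 := by exact_mod_cast xn.ne'
      have a4 : (‖1 - x‖ : ℂ) * p.1 = ‖x‖ := by exact_mod_cast e2
      rw [exp_pi_mul_I]
      push_cast
      rw [sub_mul, add_mul, exp_sub, exp_add, div_eq_iff (exp_ne_zero _)]
      refine mul_left_cancel₀ a3 ?_
      simp only [hW] at e1
      linear_combination e1 + a1 + (p.1 * exp (p.2 * I)) * a2 -
        (exp (p.2 * I) * exp (arg (1 - x) * I)) * a4
    have e5 := exp_inj_of_neg_pi_lt_of_le_pi (by simpa using e3.1) (by simpa using e3.2.le)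
      (by simpa using Real.pi_pos) (by simp) e4
    have e6 := congrArg im e5
    simp only [mul_im, ofReal_re, I_im, mul_one, ofReal_im, I_re, mul_zero, add_zero] at e6
    linarith [e3.2]
  set B₁ : ℝ × ℝ → ℂ := fun p => L + log (1 + W p / x) with hB₁
  set B₂ : ℝ × ℝ → ℂ := fun p =>
    (Real.log p.1 : ℝ) + p.2 * I + log (1 - x) + log (1 + x / W p) with hB₂
  set A₁ : Set (ℝ × ℝ) := {p | ‖1 - x‖ * p.1 ≤ ‖x‖} with hA₁
  set A₂ : Set (ℝ × ℝ) := {p | ‖x‖ ≤ ‖1 - x‖ * p.1} with hA₂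
  have p0 : ∀ p ∈ A₂, 0 < p.1 := fun p hp => by
    have : ‖x‖ ≤ ‖1 - x‖ * p.1 := hp
    by_contra hn
    nlinarith
  have W0 : ∀ p ∈ A₂, W p ≠ 0 := fun p hp =>
    mul_ne_zero y0 (mul_ne_zero (by exact_mod_cast (p0 p hp).ne') (exp_ne_zero _))
  have n1 : ∀ p ∈ BrS L ∩ A₁, 0 ≤ (1 + W p / x).re ∧ 1 + W p / x ≠ 0 := fun p hp =>
    ⟨top1_re (by rw [norm_div, div_le_one xn, Wn p hp.1]; exact hp.2), fun h =>
      Wx p hp.1 (by field_simp at h; linear_combination h)⟩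
  have n2 : ∀ p ∈ BrS L ∩ A₂, 0 ≤ (1 + x / W p).re ∧ 1 + x / W p ≠ 0 := fun p hp =>
    ⟨top1_re (by rw [norm_div, div_le_one (norm_pos_iff.2 (W0 p hp.2)), Wn p hp.1]; exact hp.2),
      fun h => Wx p hp.1 (by
        have := W0 p hp.2
        field_simp at h
        linear_combination h)⟩
  have E1 : ∀ p ∈ BrS L ∩ A₁, exp (B₁ p) = x + W p := fun p hp => by
    simp only [hB₁]
    rw [exp_add, exp_log (n1 p hp).2, ← hx]
    field_simp
  have E2 : ∀ p ∈ BrS L ∩ A₂, exp (B₂ p) = x + W p := fun p hp => by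
    have := W0 p hp.2
    simp only [hB₂]
    rw [exp_add, exp_add, exp_add, exp_log (n2 p hp).2, exp_log y0, ← ofReal_exp,
      Real.exp_log (p0 p hp.2)]
    calc (p.1 : ℂ) * exp (p.2 * I) * (1 - x) * (1 + x / W p) = W p * (1 + x / W p) := by
          simp only [hW]; ring
      _ = x + W p := by field_simp; ring
  have J : ∀ p ∈ BrS L, p ∈ A₁ → p ∈ A₂ → B₁ p = B₂ p := fun p hp h1 h2 => by
    obtain ⟨k, hk⟩ := exp_eq_exp_iff_exists_int.1 ((E1 p ⟨hp, h1⟩).trans (E2 p ⟨hp, h2⟩).symm)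
    have e1 := congrArg im hk
    have e2 := abs_lt.1 (hp.2 (le_antisymm h1 h2))
    have e3 := abs_le.1 (abs_arg_le_pi_div_two_iff.2 (n1 p ⟨hp, h1⟩).1)
    have e4 := abs_le.1 (abs_arg_le_pi_div_two_iff.2 (n2 p ⟨hp, h2⟩).1)
    simp only [hB₁, hB₂, add_im, log_im, mul_im, ofReal_re, ofReal_im, I_re, I_im, mul_re,
      intCast_re, intCast_im, re_ofNat, im_ofNat, mul_zero, mul_one, add_zero, zero_add, zero_mul,
      sub_zero] at e1
    have pi0 := Real.pi_pos
    have k1 : (k : ℝ) < 1 := by nlinarith [e2.1, e2.2, e3.1, e3.2, e4.1, e4.2]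
    have k2 : (-1 : ℝ) < k := by nlinarith [e2.1, e2.2, e3.1, e3.2, e4.1, e4.2]
    have k3 : k = 0 := by
      have : k < 1 := by exact_mod_cast k1
      have : -1 < k := by exact_mod_cast k2
      omega
    simpa [k3] using hk
  have C1 : ContinuousOn B₁ (BrS L ∩ A₁) :=
    continuousOn_const.add (ContinuousOn.clog (by fun_prop) fun p hp => top1_slit (n1 p hp))
  have C2 : ContinuousOn B₂ (BrS L ∩ A₂) := by
    refine (((continuous_ofReal.comp_continuousOn (continuousOn_fst.log fun p hp =>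
      (p0 p hp.2).ne')).add (by fun_prop)).add continuousOn_const).add
      (ContinuousOn.clog (continuousOn_const.add (continuousOn_const.div Wc.continuousOn
        fun p hp => W0 p hp.2)) fun p hp => top1_slit (n2 p hp))
  have A1c : IsClosed A₁ := isClosed_le (by fun_prop) continuous_const
  have A2c : IsClosed A₂ := isClosed_le continuous_const (by fun_prop)
  have A12 : ∀ p, p ∉ A₁ → p ∈ A₂ := fun p hp =>
    (le_total (‖1 - x‖ * p.1) ‖x‖).resolve_left hp
  have A3 : closure {p | ¬ p ∈ A₁} ⊆ A₂ := closure_minimal A12 A2c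
  refine ⟨fun p => if p ∈ A₁ then B₁ p else B₂ p, ?_, fun p hp => ?_, ?_, fun θ => ?_⟩
  · refine ContinuousOn.if (fun p hp => J p hp.1 (A1c.frontier_subset hp.2) (A3 ?_)) ?_
      (C2.mono (inter_subset_inter_right _ A3))
    · have := hp.2
      rw [← frontier_compl] at this
      exact frontier_subset_closure this
    · exact C1.mono (inter_subset_inter_right _ A1c.closure_subset)
  · by_cases h : p ∈ A₁
    · simp only [h, if_true]
      exact E1 p ⟨hp, h⟩
    · simp only [h, if_false]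
      exact E2 p ⟨hp, A12 p h⟩
  · have h : ((1 : ℝ), (0 : ℝ)) ∉ A₁ := fun h => by
      have : ‖1 - x‖ * 1 ≤ ‖x‖ := h
      linarith
    have e : 1 + x / (1 - x) = (1 - x)⁻¹ := by field_simp; ring
    simp only [h, if_false, hB₂, hW]
    simp [e, log_inv _ (mem_slitPlane_iff_arg.1 ys).1]
  · have h : ((0 : ℝ), θ) ∈ A₁ := by simp [hA₁]
    simp [h, hB₁, hW]

end Pool.Agent.MP_4baaa2_an.H94

/-!
Logarithms of univalent functions; the theorem of Runge for conformal discs.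
-/

namespace Pool.Agent.MP_4baaa2_an.H94

open Set Metric Filter Topology Complex
open scoped ComplexConjugate
open Pool.Agent.Lib.PlaneTop

theorem dslope_contOn {G : Set ℂ} (hG : IsOpen G) {g : ℂ → ℂ} (hg : DifferentiableOn ℂ g G) :
    ContinuousOn (fun x : ℂ × ℂ => dslope g x.1 x.2) (G ×ˢ G) := by
  rintro ⟨a, b⟩ ⟨ha, hb⟩
  apply ContinuousAt.continuousWithinAt
  have han : ∀ z ∈ G, AnalyticAt ℂ g z := fun z hz => hg.analyticAt (hG.mem_nhds hz)
  rcases eq_or_ne b a with rfl | hne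
  · have hs : HasStrictDerivAt g (deriv g b) b := (han b hb).hasStrictDerivAt
    have hd : ContinuousAt (deriv g) b := (han b hb).deriv.continuousAt
    rw [ContinuousAt, Metric.tendsto_nhds]
    intro ε hε
    have h1 := (hasStrictDerivAt_iff_hasStrictFDerivAt.1 hs).isLittleO.bound (half_pos hε)
    have h2 : ∀ᶠ x : ℂ × ℂ in 𝓝 (b, b), dist (deriv g x.1) (deriv g b) < ε :=
      (continuousAt_fst (p := (b, b))).tendsto.eventually (Metric.tendsto_nhds.1 hd ε hε)
    filter_upwards [h1, h2] with x hx1 hx2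
    simp only [dslope_same]
    rcases eq_or_ne x.2 x.1 with h | h
    · rw [h, dslope_same]; exact hx2
    · have h0 : x.1 - x.2 ≠ 0 := sub_ne_zero.2 h.symm
      have h0' : x.2 - x.1 ≠ 0 := sub_ne_zero.2 h
      rw [dslope_of_ne _ h, slope_def_field, dist_eq_norm]
      have e : (g x.2 - g x.1) / (x.2 - x.1) - deriv g b =
          (g x.1 - g x.2 - (x.1 - x.2) * deriv g b) / (x.1 - x.2) := by
        field_simp
        ring
      rw [e, norm_div, div_lt_iff₀ (norm_pos_iff.2 h0)]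
      have h3 : ‖g x.1 - g x.2 - (x.1 - x.2) * deriv g b‖ ≤ ε / 2 * ‖x.1 - x.2‖ := by
        simpa using hx1
      nlinarith [norm_pos_iff.2 h0]
  · have h1 : ContinuousAt (fun x : ℂ × ℂ => (g x.2 - g x.1) / (x.2 - x.1)) (a, b) := by
      refine ContinuousAt.div (ContinuousAt.sub ?_ ?_) (by fun_prop) (sub_ne_zero.2 hne)
      · exact ContinuousAt.comp (g := g) (f := Prod.snd) (han b hb).continuousAt continuousAt_snd
      · exact ContinuousAt.comp (g := g) (f := Prod.fst) (han a ha).continuousAt continuousAt_fst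
    refine h1.congr ?_
    have h2 : ∀ᶠ x : ℂ × ℂ in 𝓝 (a, b), x.2 ≠ x.1 :=
      (isOpen_ne_fun continuous_snd continuous_fst).mem_nhds hne
    filter_upwards [h2] with x hx
    rw [dslope_of_ne _ hx, slope_def_field]

/-- logarithms on all compact subsets give a logarithm -/
theorem log_of_compact {V : Type*} [NormedAddCommGroup V] [NormedSpace ℝ V] [ProperSpace V]
    {G : Set V} (hG : IsOpen G) (hc : IsPreconnected G) {g : V → ℂ}
    (h : ∀ K ⊆ G, IsCompact K → HasLogOn g K) : HasLogOn g G := by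
  classical
  rcases G.eq_empty_or_nonempty with rfl | ⟨x₀, hx₀⟩
  · exact h ∅ Subset.rfl isCompact_empty
  obtain ⟨c, -, hc0⟩ := h {x₀} (singleton_subset_iff.2 hx₀) isCompact_singleton
  have hc1 : exp (c x₀) = g x₀ := hc0 x₀ rfl
  have hn : ∀ K ⊆ G, IsCompact K → x₀ ∈ K → ∃ ω : V → ℂ, ContinuousOn ω K ∧
      (∀ x ∈ K, exp (ω x) = g x) ∧ ω x₀ = c x₀ := by
    intro K hK hKc hx
    obtain ⟨ω, h1, h2⟩ := h K hK hKc
    refine ⟨fun x => ω x - ω x₀ + c x₀, (h1.sub continuousOn_const).add continuousOn_const,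
      fun x hx' => ?_, by simp⟩
    rw [exp_add, exp_sub, hc1, ← h2 x₀ hx, div_mul_cancel₀ _ (exp_ne_zero _), h2 x hx']
  let P : V → ℂ → Prop := fun x v => ∃ K ⊆ G, IsCompact K ∧ IsPreconnected K ∧ x₀ ∈ K ∧ x ∈ K ∧
    ∃ ω : V → ℂ, ContinuousOn ω K ∧ (∀ y ∈ K, exp (ω y) = g y) ∧ ω x₀ = c x₀ ∧ ω x = v
  have huniq : ∀ x v v', P x v → P x v' → v = v' := by
    rintro x v v' ⟨K, hK, hKc, hKp, h0, hx, ω, h1, h2, h3, rfl⟩
      ⟨K', hK', hKc', hKp', h0', hx', ω', h1', h2', h3', rfl⟩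
    obtain ⟨η, e1, e2, e3⟩ := hn (K ∪ K') (union_subset hK hK') (hKc.union hKc') (Or.inl h0)
    have a1 := log_sub_const hKp h1 (e1.mono subset_union_left)
      (fun y hy => by rw [h2 y hy, e2 y (Or.inl hy)]) hx h0
    have a2 := log_sub_const hKp' h1' (e1.mono subset_union_right)
      (fun y hy => by rw [h2' y hy, e2 y (Or.inr hy)]) hx' h0'
    rw [h3, e3, sub_self, sub_eq_zero] at a1
    rw [h3', e3, sub_self, sub_eq_zero] at a2
    rw [a1, a2]
  have hpc : IsPathConnected G := (hG.isConnected_iff_isPathConnected).1 ⟨⟨x₀, hx₀⟩, hc⟩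
  have hloc : ∀ x ∈ G, ∃ ω : V → ℂ, ContinuousAt ω x ∧ exp (ω x) = g x ∧
      ∀ᶠ y in 𝓝 x, P y (ω y) := by
    intro x hx
    obtain ⟨γ, hγ⟩ := hpc.joinedIn x₀ hx₀ x hx
    obtain ⟨r, hr, hrG⟩ := Metric.nhds_basis_closedBall.mem_iff.1 (hG.mem_nhds hx)
    have hK : range γ ∪ closedBall x r ⊆ G := union_subset (range_subset_iff.2 hγ) hrG
    have hKc : IsCompact (range γ ∪ closedBall x r) :=
      (isCompact_range γ.continuous).union (isCompact_closedBall x r)
    have hKp : IsPreconnected (range γ ∪ closedBall x r) :=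
      (isPreconnected_range γ.continuous).union x γ.target_mem_range
        (mem_closedBall_self hr.le) (convex_closedBall x r).isPreconnected
    have h0 : x₀ ∈ range γ ∪ closedBall x r := Or.inl γ.source_mem_range
    obtain ⟨ω, h1, h2, h3⟩ := hn _ hK hKc h0
    have hnh : range γ ∪ closedBall x r ∈ 𝓝 x :=
      mem_of_superset (closedBall_mem_nhds x hr) subset_union_right
    refine ⟨ω, h1.continuousAt hnh, h2 x (mem_of_mem_nhds hnh), ?_⟩
    filter_upwards [hnh] with y hy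
    exact ⟨_, hK, hKc, hKp, h0, hy, ω, h1, h2, h3, rfl⟩
  let L : V → ℂ := fun x => if hx : ∃ v, P x v then hx.choose else 0
  have hL : ∀ x v, P x v → L x = v := by
    intro x v hv
    have hx : ∃ v, P x v := ⟨v, hv⟩
    simp only [L, dif_pos hx]
    exact huniq x _ _ hx.choose_spec hv
  refine ⟨L, fun x hx => ?_, fun x hx => ?_⟩
  · obtain ⟨ω, h1, -, h3⟩ := hloc x hx
    refine (h1.congr ?_).continuousWithinAt
    filter_upwards [h3] with y hy
    exact (hL y _ hy).symm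
  · obtain ⟨ω, -, h2, h3⟩ := hloc x hx
    rw [hL x _ h3.self_of_nhds, h2]

theorem top2_join {K : Set ℂ} {g : ℂ → ℂ} (hg : ContinuousOn g K) {a b : ℂ}
    (hab : JoinedIn (g '' K)ᶜ a b) (h : HasLogOn (fun x => g x - a) K) :
    HasLogOn (fun x => g x - b) K := by
  obtain ⟨γ, hγ⟩ := hab
  have := HasLogOn.homotopy (H := fun t z => g z - γ.extend t) (K := K)
    (ContinuousOn.sub (hg.comp continuousOn_snd fun p hp => hp.2)
      (Continuous.continuousOn (by fun_prop)))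
    (fun t ht z hz h0 => by
      have h1 : γ.extend t ∈ (g '' K)ᶜ := by rw [γ.extend_apply ht]; exact hγ _
      exact h1 ⟨z, hz, sub_eq_zero.1 h0⟩)
    (by simpa using h)
  simpa using this

theorem top2_open {G : Set ℂ} (hG : IsOpen G) {g : ℂ → ℂ} (hg : DifferentiableOn ℂ g G)
    (hd : ∀ w ∈ G, deriv g w ≠ 0) : IsOpen (g '' G) := by
  rw [isOpen_iff_mem_nhds]
  rintro _ ⟨w, hw, rfl⟩
  have hs : HasStrictDerivAt g (deriv g w) w := (hg.analyticAt (hG.mem_nhds hw)).hasStrictDerivAt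
  rw [← hs.map_nhds_eq (hd w hw)]
  exact image_mem_map (hG.mem_nhds hw)

theorem top2_ne {G : Set ℂ} {g : ℂ → ℂ} (hi : InjOn g G) (hd : ∀ w ∈ G, deriv g w ≠ 0) {x y : ℂ}
    (hx : x ∈ G) (hy : y ∈ G) : dslope g y x ≠ 0 := by
  rcases eq_or_ne x y with rfl | h
  · rw [dslope_same]; exact hd x hx
  · rw [dslope_of_ne _ h, slope_def_field]
    exact div_ne_zero (sub_ne_zero.2 fun e => h (hi hx hy e)) (sub_ne_zero.2 h)

theorem top2_near {G : Set ℂ} (hG : IsOpen G) (hb : Bornology.IsBounded G)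
    (hl : ∀ b ∉ G, HasLogOn (fun x => x - b) G) {g : ℂ → ℂ} (hg : RmtUniv G g) {K : Set ℂ}
    (hK : K ⊆ G) (hKc : IsCompact K) (hne : K.Nonempty) {z : ℂ} (hz : z ∉ g '' G) :
    ∃ y ∈ G, y ∉ K ∧ JoinedIn (g '' K)ᶜ z (g y) ∧ HasLogOn (fun x => x - y) K := by
  obtain ⟨δ, hδ, hδG⟩ := hKc.exists_thickening_subset_open hG hK
  set K' : Set ℂ := {y | ball y δ ⊆ G} with hK'
  have hK'G : K' ⊆ G := fun y hy => hy (mem_ball_self hδ)
  have hKK' : K ⊆ K' := fun y hy w hw => hδG (mem_thickening_iff.2 ⟨y, hy, hw⟩)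
  have hcl : IsClosed K' := by
    rw [← isOpen_compl_iff, Metric.isOpen_iff]
    intro y hy
    obtain ⟨b, hb1, hb2⟩ := not_subset.1 hy
    refine ⟨δ - dist b y, sub_pos.2 hb1, fun w hw hw' => hb2 (hw' ?_)⟩
    have := dist_triangle b y w
    rw [mem_ball, dist_comm] at hw
    rw [mem_ball]
    linarith
  have hK'c : IsCompact K' := Metric.isCompact_of_isClosed_isBounded hcl (hb.subset hK'G)
  have hS : IsCompact (g '' K') := hK'c.image_of_continuousOn (hg.diff.continuousOn.mono hK'G)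
  obtain ⟨s, hs, hmin⟩ := hS.exists_isMinOn ((hne.mono hKK').image g)
    (continuous_const.dist continuous_id : Continuous fun s => dist z s).continuousOn
  have hsG : s ∈ g '' G := image_mono hK'G hs
  have hr : 0 < dist z s := dist_pos.2 fun e => hz (e ▸ hsG)
  have hcls : s ∈ closure (ball z (dist z s)) := by
    rw [closure_ball z hr.ne', mem_closedBall, dist_comm]
  obtain ⟨p, ⟨y, hy, rfl⟩, hp⟩ := mem_closure_iff.1 hcls _ (top2_open hG hg.diff hg.der) hsG
  have hball : ball z (dist z s) ⊆ (g '' K')ᶜ := fun w hw hw' => by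
    have h1 : dist z s ≤ dist z w := hmin hw'
    rw [mem_ball, dist_comm] at hw
    linarith
  have hyK' : y ∉ K' := fun h => hball hp ⟨y, h, rfl⟩
  refine ⟨y, hy, fun h => hyK' (hKK' h), ?_, ?_⟩
  · exact (((convex_ball z _).isPathConnected ⟨z, mem_ball_self hr⟩).joinedIn z
      (mem_ball_self hr) _ hp).mono (hball.trans (compl_subset_compl.2 (image_mono hKK')))
  · obtain ⟨b, hb1, hb2⟩ := not_subset.1 hyK'
    have hbK : ball b δ ⊆ Kᶜ := fun w hw hw' => hb2 (hKK' hw' (mem_ball_comm.1 hw))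
    exact HasLogOn.of_joinedIn ((((convex_ball b δ).isPathConnected ⟨b, mem_ball_self hδ⟩).joinedIn
      b (mem_ball_self hδ) y (mem_ball_comm.1 hb1)).mono hbK) ((hl b hb2).mono hK)

theorem univ_log {G : Set ℂ} (hG : IsOpen G) (hc : IsPreconnected G) (hb : Bornology.IsBounded G)
    (hl : ∀ b ∉ G, HasLogOn (fun x => x - b) G) {g : ℂ → ℂ} (hg : RmtUniv G g)
    (h0 : ∀ w ∈ G, g w ≠ 0) : HasLogOn g G := by
  refine log_of_compact hG hc fun K hK hKc => ?_
  rcases K.eq_empty_or_nonempty with rfl | hne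
  · exact ⟨0, continuousOn_empty _, by simp⟩
  have hgK : ContinuousOn g K := hg.diff.continuousOn.mono hK
  have hfac : ∀ x y : ℂ, g x - g y = (x - y) * dslope g y x := fun x y => by
    rw [← smul_eq_mul, sub_smul_dslope]
  obtain ⟨y, hy, hyK, hj, hly⟩ := top2_near hG hb hl hg hK hKc hne (z := 1) (by
    rintro ⟨w, hw, e⟩
    have := hg.maps w hw
    rw [e, norm_one] at this
    exact lt_irrefl _ this)
  obtain ⟨y', hy', -, hj', hly'⟩ := top2_near hG hb hl hg hK hKc hne (z := 0) (by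
    rintro ⟨w, hw, e⟩
    exact h0 w hw e)
  have h1 : HasLogOn (fun x => g x - 1) K :=
    (far_log (S := g '' K) (R := 1) (c := 1) (by
      rintro _ ⟨w, hw, rfl⟩
      exact mem_ball_zero_iff.2 (hg.maps w (hK hw))) (by simp)).comp hgK (mapsTo_image g K)
  have h2 : HasLogOn (fun x => dslope g y x) K := by
    refine ((top2_join hgK hj h1).div hly).congr fun x hx => ?_
    have : x - y ≠ 0 := sub_ne_zero.2 fun e => hyK (e ▸ hx)
    rw [hfac, mul_div_cancel_left₀ _ this]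
  have hpc : IsPathConnected G := (hG.isConnected_iff_isPathConnected).1 ⟨⟨y, hy⟩, hc⟩
  obtain ⟨γ, hγ⟩ := hpc.joinedIn y hy y' hy'
  have hγ' : ∀ t ∈ Icc (0 : ℝ) 1, γ.extend t ∈ G := fun t ht => by
    rw [γ.extend_apply ht]; exact hγ _
  have h3 := HasLogOn.homotopy (H := fun t x => dslope g (γ.extend t) x) (K := K)
    ((dslope_contOn hG hg.diff).comp (f := fun p : ℝ × ℂ => (γ.extend p.1, p.2))
      (Continuous.continuousOn (by fun_prop)) fun p hp => ⟨hγ' _ hp.1, hK hp.2⟩)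
    (fun t ht x hx => top2_ne hg.inj hg.der (hK hx) (hγ' t ht)) (by simpa using h2)
  have h4 : HasLogOn (fun x => g x - g y') K :=
    (hly'.mul h3).congr fun x _ => by simpa using hfac x y'
  simpa using top2_join hgK hj'.symm h4

theorem top2_cauchy {R f : ℂ → ℂ} (hR : DifferentiableOn ℂ R (ball 0 1)) (hi : InjOn R (ball 0 1))
    (hd : ∀ w ∈ ball (0 : ℂ) 1, deriv R w ≠ 0) (hf : DifferentiableOn ℂ f (ball 0 1)) {r : ℝ}
    (hr : r < 1) {ζ : ℂ} (hζ : ‖ζ‖ < r) :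
    (∮ s in C(0, r), (f s * deriv R s) * (R s - R ζ)⁻¹) = (2 * Real.pi * I : ℂ) • f ζ := by
  have hζ1 : ζ ∈ ball (0 : ℂ) 1 := mem_ball_zero_iff.2 (hζ.trans hr)
  have hD : DifferentiableOn ℂ (dslope R ζ) (ball 0 1) :=
    (differentiableOn_dslope (isOpen_ball.mem_nhds hζ1)).2 hR
  have hh : DifferentiableOn ℂ (fun s => f s * deriv R s / dslope R ζ s) (ball 0 1) :=
    (hf.mul (hR.deriv isOpen_ball)).div hD fun s hs => top2_ne hi hd hs hζ1
  have h1 := (hh.mono (closedBall_subset_ball hr)).circleIntegral_sub_inv_smul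
    (mem_ball_zero_iff.2 hζ)
  rw [dslope_same, mul_div_cancel_right₀ _ (hd ζ hζ1)] at h1
  rw [← h1]
  refine circleIntegral.integral_congr ((norm_nonneg _).trans hζ.le) fun s _ => ?_
  have e : R s - R ζ = (s - ζ) * dslope R ζ s := by rw [← smul_eq_mul, sub_smul_dslope]
  simp only [e, smul_eq_mul, mul_inv, div_eq_mul_inv]
  ring

theorem runge {R f : ℂ → ℂ} (hR : DifferentiableOn ℂ R (ball 0 1)) (hi : InjOn R (ball 0 1))
    (hd : ∀ w ∈ ball (0 : ℂ) 1, deriv R w ≠ 0) (hf : DifferentiableOn ℂ f (ball 0 1)) {ρ θ : ℝ}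
    (hρ : ρ < 1) (hθ : 0 < θ) :
    ∃ p : Polynomial ℂ, ∀ ζ : ℂ, ‖ζ‖ ≤ ρ → ‖f ζ - p.eval (R ζ)‖ ≤ θ := by
  rcases lt_or_ge ρ 0 with hρ0 | hρ0
  · exact ⟨0, fun ζ hζ => absurd ((norm_nonneg _).trans hζ) (not_le.2 hρ0)⟩
  obtain ⟨r, hr1, hr2⟩ := exists_between hρ
  have hr0 : 0 < r := hρ0.trans_lt hr1
  set K : Set ℂ := closedBall 0 ρ with hKdef
  have hK : K ⊆ ball 0 1 := closedBall_subset_ball hρ
  have hKc : IsCompact K := isCompact_closedBall 0 ρ
  have : CompactSpace K := isCompact_iff_compactSpace.1 hKc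
  have hRK : ContinuousOn R K := hR.continuousOn.mono hK
  let x : C(K, ℂ) := ⟨fun y => R y, hRK.domRestrict⟩
  let A : Subalgebra ℂ C(K, ℂ) := (Algebra.adjoin ℂ {x}).topologicalClosure
  have hA : IsClosed (A : Set C(K, ℂ)) := Subalgebra.isClosed_topologicalClosure _
  have : CompleteSpace A := hA.completeSpace_coe
  let a : A := ⟨x, Subalgebra.le_topologicalClosure _ (Algebra.self_mem_adjoin_singleton ℂ x)⟩
  have hsx : spectrum ℂ x = R '' K := by
    rw [ContinuousMap.spectrum_eq_range]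
    exact range_domRestrict R K
  have hconn : IsPreconnected (R '' K)ᶜ := by
    refine compl_conn (hKc.image_of_continuousOn hRK) fun b hb => ?_
    obtain ⟨B, hB1, hB2⟩ := hasLogOn_of_convex (F := fun y => R y - b) (convex_closedBall 0 ρ)
      (hRK.sub continuousOn_const) fun y hy e => hb ⟨y, hy, sub_eq_zero.1 e⟩
    obtain ⟨B', h1, h2⟩ := desc hKc hRK hB1 fun y hy y' hy' e => by rw [hi (hK hy) (hK hy') e]
    refine ⟨B', h1, ?_⟩
    rintro _ ⟨y, hy, rfl⟩
    rw [h2 y hy, hB2 y hy]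
  have hsa : spectrum ℂ a = R '' K := by
    rw [← hsx]
    exact Subalgebra.spectrum_eq_of_isPreconnected_compl A a (by
      change IsPreconnected (spectrum ℂ x)ᶜ
      rw [hsx]; exact hconn)
  have hsph : sphere (0 : ℂ) r ⊆ ball 0 1 := sphere_subset_closedBall.trans
    (closedBall_subset_ball hr2)
  have hres : ∀ s ∈ sphere (0 : ℂ) r, R s ∈ resolventSet ℂ a := by
    intro s hs
    by_contra h
    have h1 : R s ∈ spectrum ℂ a := h
    rw [hsa] at h1
    obtain ⟨y, hy, e⟩ := h1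
    have h2 := hi (hK hy) (hsph hs) e
    have h3 := mem_closedBall_zero_iff.1 hy
    rw [h2, mem_sphere_zero_iff_norm.1 hs] at h3
    linarith
  let Φ : ℂ → A := fun s => (f s * deriv R s) • resolvent a (R s)
  have hΦ : ContinuousOn Φ (sphere 0 r) := by
    refine ContinuousOn.smul ((hf.mul (hR.deriv isOpen_ball)).continuousOn.mono hsph) ?_
    intro s hs
    exact (spectrum.hasDerivAt_resolvent_const_left (hres s hs)).continuousAt.comp_continuousWithinAt
      (hR.continuousOn.mono hsph s hs)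
  have hint : CircleIntegrable Φ 0 r := hΦ.circleIntegrable hr0.le
  let J : A := (2 * Real.pi * I : ℂ)⁻¹ • ∮ s in C(0, r), Φ s
  have hJ : ∀ ζ : K, (J : C(K, ℂ)) ζ = f ζ := by
    intro ζ
    let ev : A →L[ℂ] ℂ := (ContinuousMap.evalCLM ℂ ζ).comp A.toSubmodule.subtypeL
    have hev : ∀ u : A, ev u = (u : C(K, ℂ)) ζ := fun u => rfl
    have h1 : ev (∮ s in C(0, r), Φ s) = ∮ s in C(0, r), ev (Φ s) := by
      simp only [circleIntegral]
      rw [← ev.intervalIntegral_comp_comm hint.out]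
      simp only [map_smul]
    have h2 : ∀ s ∈ sphere (0 : ℂ) r, ev (Φ s) = (f s * deriv R s) * (R s - R ζ)⁻¹ := by
      intro s hs
      have h3 : (algebraMap ℂ A (R s) - a) * resolvent a (R s) = 1 :=
        Ring.mul_inverse_cancel _ (hres s hs)
      have h4 : (R s - R ζ) * ev (resolvent a (R s)) = 1 := by
        have := congrArg (fun u : A => (u : C(K, ℂ)) ζ) h3
        simpa [hev, a, x] using this
      rw [map_smul, smul_eq_mul, eq_inv_of_mul_eq_one_right h4]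
    have h5 : ‖(ζ : ℂ)‖ < r := (mem_closedBall_zero_iff.1 ζ.2).trans_lt hr1
    rw [← hev, map_smul, h1, circleIntegral.integral_congr hr0.le h2,
      top2_cauchy hR hi hd hf hr2 h5, inv_smul_smul₀ two_pi_I_ne_zero]
  have hJ2 : (J : C(K, ℂ)) ∈ closure ((Algebra.adjoin ℂ {x} : Subalgebra ℂ C(K, ℂ)) :
    Set C(K, ℂ)) := J.2
  obtain ⟨u, hu, hdist⟩ := Metric.mem_closure_iff.1 hJ2 θ hθ
  rw [SetLike.mem_coe, Algebra.adjoin_singleton_eq_range_aeval] at hu
  obtain ⟨p, rfl⟩ := hu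
  refine ⟨p, fun ζ hζ => ?_⟩
  have hζ' : ζ ∈ K := mem_closedBall_zero_iff.2 hζ
  have h1 := ContinuousMap.dist_apply_le_dist (f := (J : C(K, ℂ)))
    (g := Polynomial.aeval x p) ⟨ζ, hζ'⟩
  rw [hJ, Polynomial.aeval_continuousMap_apply, dist_eq_norm] at h1
  exact h1.trans hdist.le

end Pool.Agent.MP_4baaa2_an.H94

/-!
Riemann maps depend continuously on the domain.
-/

namespace Pool.Agent.MP_4baaa2_an.H94

open Set Metric Filter Topology Complex
open scoped ComplexConjugate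
open Pool.Agent.Lib.PlaneTop

theorem rfam_tlu_iff {ι : Type*} {l : Filter ι} {g : ι → ℂ → ℂ} {g₀ : ℂ → ℂ}
    {W : Set ℂ} (hc : ContinuousOn g₀ W) : TendstoLocallyUniformlyOn g g₀ l W ↔
      ∀ x ∈ W, Tendsto (fun y : ι × ℂ => g y.1 y.2) (l ×ˢ 𝓝[W] x) (𝓝 (g₀ x)) := by
  rw [tendstoLocallyUniformlyOn_iff_forall_tendsto]
  refine forall₂_congr fun x hx => ?_
  have h1 : Tendsto (fun y : ι × ℂ => g₀ y.2) (l ×ˢ 𝓝[W] x) (𝓝 (g₀ x)) :=
    (hc x hx).tendsto.comp tendsto_snd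
  exact ⟨fun h => h1.congr_uniformity h,
    fun h => (h1.prodMk_nhds h).mono_right (nhds_le_uniformity _)⟩

theorem rfam_cont_iff {X : Type*} [TopologicalSpace X] {R : X → ℂ → ℂ} {W : Set ℂ}
    (hc : ∀ t, ContinuousOn (R t) W) :
    ContinuousOn (fun x : X × ℂ => R x.1 x.2) (univ ×ˢ W) ↔
      ∀ t, TendstoLocallyUniformlyOn R (R t) (𝓝 t) W := by
  simp only [rfam_tlu_iff (hc _)]
  constructor
  · intro h t x hx
    have := h (t, x) ⟨trivial, hx⟩
    rwa [ContinuousWithinAt, nhdsWithin_prod_eq, nhdsWithin_univ] at this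
  · rintro h ⟨t, x⟩ ⟨-, hx⟩
    rw [ContinuousWithinAt, nhdsWithin_prod_eq, nhdsWithin_univ]
    exact h t x hx

/-- derivative of a composition with the inverse map at the origin -/
theorem rfam_comp {G : Set ℂ} (hG : IsOpen G) (h0 : (0 : ℂ) ∈ G) {g ψ S : ℂ → ℂ}
    (hg : DifferentiableOn ℂ g G) (hψ : DifferentiableOn ℂ ψ (ball 0 1)) (hψ0 : ψ 0 = 0)
    (hl : ∀ w ∈ ball (0 : ℂ) 1, g (ψ w) = w) (hS : DifferentiableAt ℂ S 0) (hS0 : S 0 = 0) :
    deriv (fun w => g (S w)) 0 * deriv ψ 0 = deriv S 0 := by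
  have hb : ball (0 : ℂ) 1 ∈ 𝓝 0 := ball_mem_nhds _ one_pos
  have h1 : HasDerivAt g (deriv g 0) 0 := (hg.differentiableAt (hG.mem_nhds h0)).hasDerivAt
  have h2 : HasDerivAt (fun w => g (S w)) (deriv g 0 * deriv S 0) 0 :=
    HasDerivAt.comp (h₂ := g) 0 (by rw [hS0]; exact h1) hS.hasDerivAt
  have h3 : HasDerivAt (fun w => g (ψ w)) (deriv g 0 * deriv ψ 0) 0 :=
    HasDerivAt.comp (h₂ := g) 0 (by rw [hψ0]; exact h1) (hψ.differentiableAt hb).hasDerivAt
  have h4 : HasDerivAt (fun w => g (ψ w)) 1 0 :=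
    (hasDerivAt_id (0 : ℂ)).congr_of_eventuallyEq (by filter_upwards [hb] with w hw using hl w hw)
  have h5 := h3.unique h4
  rw [h2.deriv]
  linear_combination deriv S 0 * h5

/-- Hint: `riemann_map` and `univ_log` give `R t` with inverse `g t` and `deriv (R t) 0 = x t > 0`.
Enough: for every ultrafilter `𝒰 ≤ 𝓝 t₀` the maps `R t` converge locally uniformly to `R t₀`
(then `cls2_tlu_iff`-type argument, `tendsto_iff_ultrafilter`). Let `S` be the limit (`montel`).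
(1) for `ρ < 1` the compact connected set `R t₀ '' closedBall 0 ρ` lies in `Ω t` for `t` near `t₀`
(`IsCompact.eventually_forall_of_forall_eventually`), hence in the component of `0`; Schwarz for
`w ↦ g t (R t₀ (ρ w))` gives `ρ x t₀ ≤ x t`; so `deriv S 0` is real and `≥ x t₀`.
(2) `S` omits every `b ∉ Ω t₀` (`hurwitz` for `R t - b t`, `b t → b`, `S 0 = 0 ≠ b`), so `S` maps
the ball into the component, `φ = g t₀ ∘ S` maps the ball to itself, `φ 0 = 0`,
`deriv φ 0 = deriv S 0 / x t₀ ≥ 1`; equality case of Schwarz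
(`Complex.affine_of_mapsTo_ball_of_norm_dslope_eq_div`) gives `φ = id`. -/
theorem rfam {X : Type*} [TopologicalSpace X] {Ω : X → Set ℂ}
    (ho : IsOpen {x : X × ℂ | x.2 ∈ Ω x.1}) {C : ℝ} (hb : ∀ t, Ω t ⊆ ball 0 C)
    (h0 : ∀ t, (0 : ℂ) ∈ Ω t)
    (hc : ∀ t, ∀ b ∉ Ω t, ∀ ε > 0, ∀ᶠ s in 𝓝 t, ∃ b' ∉ Ω s, ‖b' - b‖ < ε)
    (hl : ∀ t, ∀ b ∉ connectedComponentIn (Ω t) 0,
      HasLogOn (fun x => x - b) (connectedComponentIn (Ω t) 0)) :
    ∃ R : X → ℂ → ℂ, Fam R ∧ ∀ t, R t '' ball 0 1 = connectedComponentIn (Ω t) 0 ∧ R t 0 = 0 := by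
  have hΩ : ∀ t, IsOpen (Ω t) := fun t => ho.preimage (Continuous.prodMk_right t)
  have hG : ∀ t, IsOpen (connectedComponentIn (Ω t) 0) := fun t => (hΩ t).connectedComponentIn
  have hG0 : ∀ t, (0 : ℂ) ∈ connectedComponentIn (Ω t) 0 := fun t =>
    mem_connectedComponentIn (h0 t)
  have hGs : ∀ t, connectedComponentIn (Ω t) 0 ⊆ Ω t := fun t => connectedComponentIn_subset _ _
  have hGb : ∀ t, Bornology.IsBounded (connectedComponentIn (Ω t) 0) := fun t =>
    isBounded_ball.subset ((hGs t).trans (hb t))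
  choose R hRd hRi hRim hR0 hRder hx g hg hgl hgr using fun t =>
    riemann_map (hG t) isPreconnected_connectedComponentIn (hG0 t) (hGb t) fun g hg hne =>
      univ_log (hG t) isPreconnected_connectedComponentIn (hGb t) (hl t) hg hne
  choose x hx0 hx using hx
  have hb0 : (0 : ℂ) ∈ ball (0 : ℂ) 1 := mem_ball_self one_pos
  have hb1 : ball (0 : ℂ) 1 ∈ 𝓝 0 := ball_mem_nhds _ one_pos
  have hRm : ∀ t, ∀ w ∈ ball (0 : ℂ) 1, R t w ∈ Ω t := fun t w hw =>
    hGs t (hRim t ▸ mem_image_of_mem _ hw)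
  have hg0 : ∀ t, g t 0 = 0 := fun t => by
    have := hgl t 0 hb0
    rwa [hR0] at this
  refine ⟨R, ⟨?_, hRd, hRi, hRder⟩, fun t => ⟨hRim t, hR0 t⟩⟩
  rw [rfam_cont_iff fun t => (hRd t).continuousOn]
  intro t₀
  have low : ∀ ρ : ℝ, 0 < ρ → ρ < 1 → ∀ᶠ t in 𝓝 t₀, ρ * x t₀ ≤ x t := by
    intro ρ h1 h2
    have hsub : closedBall (0 : ℂ) ρ ⊆ ball 0 1 := closedBall_subset_ball h2
    have hcont := (hRd t₀).continuousOn.mono hsub
    have hK : IsCompact (R t₀ '' closedBall 0 ρ) :=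
      (isCompact_closedBall _ _).image_of_continuousOn hcont
    have hKc : IsPreconnected (R t₀ '' closedBall 0 ρ) :=
      (convex_closedBall _ _).isPreconnected.image _ hcont
    have h3 : ∀ᶠ t in 𝓝 t₀, ∀ y ∈ R t₀ '' closedBall 0 ρ, y ∈ Ω t :=
      hK.eventually_forall_of_forall_eventually (by
        rintro _ ⟨w, hw, rfl⟩
        exact ho.mem_nhds (hRm t₀ w (hsub hw)))
    filter_upwards [h3] with t ht
    have h4 : R t₀ '' closedBall 0 ρ ⊆ connectedComponentIn (Ω t) 0 :=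
      hKc.subset_connectedComponentIn ⟨0, mem_closedBall_self h1.le, hR0 t₀⟩ ht
    have h5 : MapsTo (R t₀) (ball 0 ρ) (connectedComponentIn (Ω t) 0) := fun w hw =>
      h4 (mem_image_of_mem _ (ball_subset_closedBall hw))
    have h6 := Complex.norm_deriv_le_div_of_mapsTo_ball (f := fun w => g t (R t₀ w)) (c := 0)
      (R₁ := ρ) (R₂ := 1)
      ((hg t).diff.comp ((hRd t₀).mono (ball_subset_closedBall.trans hsub)) h5)
      (fun w hw => by
        simp only [hR0, hg0, mem_closedBall_zero_iff]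
        exact ((hg t).maps _ (h5 hw)).le) h1
    have h7 := congrArg norm (rfam_comp (hG t) (hG0 t) (hg t).diff (hRd t) (hR0 t) (hgl t)
      ((hRd t₀).differentiableAt hb1) (hR0 t₀))
    rw [norm_mul, hx, hx, Complex.norm_real, Complex.norm_real, Real.norm_of_nonneg (hx0 t).le,
      Real.norm_of_nonneg (hx0 t₀).le] at h7
    rw [le_div_iff₀ h1] at h6
    nlinarith [mul_le_mul_of_nonneg_right h6 (hx0 t).le]
  have key : ∀ 𝒰 : Ultrafilter X, ↑𝒰 ≤ 𝓝 t₀ →
      TendstoLocallyUniformlyOn R (R t₀) 𝒰 (ball 0 1) := by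
    intro 𝒰 hU
    obtain ⟨S, hSd, hS⟩ := montel 𝒰 isOpen_ball (Eventually.of_forall hRd) fun y _ =>
      ⟨1, one_pos, C, Eventually.of_forall fun t w hw =>
        (mem_ball_zero_iff.1 (hb t (hRm t w hw.2))).le⟩
    have hS0 : S 0 = 0 := by
      have := hS.tendsto_at hb0
      simp only [hR0] at this
      exact (tendsto_nhds_unique tendsto_const_nhds this).symm
    have hSx : Tendsto (fun t => (x t : ℂ)) 𝒰 (𝓝 (deriv S 0)) := by
      have := (hS.deriv (Eventually.of_forall hRd) isOpen_ball).tendsto_at hb0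
      simpa only [Function.comp_apply, hx] using this
    have him : (deriv S 0).im = 0 := by
      have := (continuous_im.tendsto _).comp hSx
      simp only [Function.comp_def, ofReal_im] at this
      exact (tendsto_nhds_unique tendsto_const_nhds this).symm
    have hre : x t₀ ≤ (deriv S 0).re := by
      have h1 := (continuous_re.tendsto _).comp hSx
      simp only [Function.comp_def, ofReal_re] at h1
      have h2 : Tendsto (fun ρ : ℝ => ρ * x t₀) (𝓝[<] 1) (𝓝 (1 * x t₀)) :=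
        ((continuous_id.mul continuous_const).tendsto 1).mono_left nhdsWithin_le_nhds
      rw [one_mul] at h2
      refine le_of_tendsto h2 ?_
      filter_upwards [Ioo_mem_nhdsLT (zero_lt_one' ℝ)] with ρ hρ
      exact ge_of_tendsto h1 ((low ρ hρ.1 hρ.2).filter_mono hU)
    have hom : ∀ w ∈ ball (0 : ℂ) 1, S w ∈ Ω t₀ := by
      intro w hw
      by_contra hnb
      set b := S w with hbdef
      have hne : ((↑𝒰 ×ˢ 𝓝 b) ⊓ 𝓟 {p : X × ℂ | p.2 ∉ Ω p.1}).NeBot := by
        rw [inf_principal_neBot_iff]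
        intro U hU'
        obtain ⟨A, hA, B, hB, hAB⟩ := mem_prod_iff.1 hU'
        obtain ⟨ε, hε, hεB⟩ := Metric.mem_nhds_iff.1 hB
        obtain ⟨s, ⟨b', h1, h2⟩, h3⟩ := (((hc t₀ b hnb ε hε).filter_mono hU).and hA).exists
        exact ⟨(s, b'), hAB ⟨h3, hεB (mem_ball_iff_norm.2 h2)⟩, h1⟩
      have hlim : TendstoLocallyUniformlyOn (fun (p : X × ℂ) w => R p.1 w - p.2)
          (fun w => S w - b) ((↑𝒰 ×ˢ 𝓝 b) ⊓ 𝓟 {p : X × ℂ | p.2 ∉ Ω p.1}) (ball 0 1) := by
        rw [rfam_tlu_iff (hSd.sub_const b).continuousOn]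
        intro y hy
        have h1 := (rfam_tlu_iff hSd.continuousOn).1 hS y hy
        have h2 : Tendsto (fun q : (X × ℂ) × ℂ => q.1)
            (((↑𝒰 ×ˢ 𝓝 b) ⊓ 𝓟 {p : X × ℂ | p.2 ∉ Ω p.1}) ×ˢ 𝓝[ball 0 1] y) (↑𝒰 ×ˢ 𝓝 b) :=
          tendsto_fst.mono_right inf_le_left
        exact (h1.comp ((tendsto_fst.comp h2).prodMk tendsto_snd)).sub (tendsto_snd.comp h2)
      refine hurwitz isOpen_ball (convex_ball _ _).isPreconnected ?_ hlim hb0 ?_ w hw
        (sub_self _)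
      · refine mem_inf_of_right (mem_principal.2 fun p hp => ⟨(hRd _).sub_const _, ?_⟩)
        intro y hy e
        exact hp (sub_eq_zero.1 e ▸ hRm _ y hy)
      · rw [hS0, zero_sub, neg_ne_zero]
        intro e
        exact hnb (e ▸ h0 t₀)
    have hSG : MapsTo S (ball 0 1) (connectedComponentIn (Ω t₀) 0) := by
      rw [mapsTo_iff_image_subset]
      refine ((convex_ball _ _).isPreconnected.image _
        hSd.continuousOn).subset_connectedComponentIn ⟨0, hb0, hS0⟩ ?_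
      rintro _ ⟨w, hw, rfl⟩
      exact hom w hw
    have hφd : DifferentiableOn ℂ (fun w => g t₀ (S w)) (ball 0 1) := (hg t₀).diff.comp hSd hSG
    have hφm : MapsTo (fun w => g t₀ (S w)) (ball 0 1)
        (closedBall ((fun w => g t₀ (S w)) 0) 1) := fun w hw => by
      simp only [hS0, hg0, mem_closedBall_zero_iff]
      exact ((hg t₀).maps _ (hSG hw)).le
    have h6 := Complex.norm_deriv_le_one_of_mapsTo_ball hφd hφm one_pos
    have h7 := rfam_comp (hG t₀) (hG0 t₀) (hg t₀).diff (hRd t₀) (hR0 t₀) (hgl t₀)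
      (hSd.differentiableAt hb1) hS0
    rw [hx] at h7
    have h8 : deriv (fun w => g t₀ (S w)) 0 = 1 := by
      have a1 := congrArg re h7
      have a2 := congrArg im h7
      simp only [mul_re, mul_im, ofReal_re, ofReal_im, mul_zero, sub_zero, zero_add, him] at a1 a2
      have a3 := (re_le_norm _).trans h6
      have a4 := hx0 t₀
      refine Complex.ext ?_ ((mul_eq_zero.1 a2).resolve_right a4.ne')
      rw [one_re]
      nlinarith
    have h9 := Complex.affine_of_mapsTo_ball_of_norm_dslope_eq_div hφd hφm hb0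
      (by rw [dslope_same, h8, norm_one, div_one])
    refine hS.congr_right fun w hw => ?_
    have h10 := h9 hw
    simp only [dslope_same, h8, hS0, hg0, zero_add, sub_zero, smul_eq_mul, mul_one] at h10
    rw [← hgr t₀ _ (hSG hw), h10]
  rw [rfam_tlu_iff (hRd t₀).continuousOn]
  intro y hy
  rw [tendsto_iff_ultrafilter]
  intro 𝒲 hW
  have h1 : ↑(𝒲.map Prod.fst) ≤ 𝓝 t₀ := tendsto_fst.mono_left hW
  exact ((rfam_tlu_iff (hRd t₀).continuousOn).1 (key _ h1) y hy).mono_left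
    (le_prod.2 ⟨tendsto_map, tendsto_snd.mono_left hW⟩)

variable {X : Type*} [TopologicalSpace X] {R : X → ℂ → ℂ}

/-- Hint: joint continuity gives local uniform convergence `R t → R t₀`
(`IsCompact.eventually_forall_of_forall_eventually`); Cauchy estimates (`deriv_bound`). -/
theorem cont_deriv (hc : ContinuousOn (fun x : X × ℂ => R x.1 x.2) (univ ×ˢ ball 0 1))
    (hd : ∀ t, DifferentiableOn ℂ (R t) (ball 0 1)) :
    ContinuousOn (fun x : X × ℂ => deriv (R x.1) x.2) (univ ×ˢ ball 0 1) := by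
  rw [rfam_cont_iff (R := fun t => deriv (R t)) fun t =>
    ((hd t).deriv isOpen_ball).continuousOn]
  intro t
  exact ((rfam_cont_iff fun t => (hd t).continuousOn).1 hc t).deriv (Eventually.of_forall hd)
    isOpen_ball

theorem cont_dslope (hc : ContinuousOn (fun x : X × ℂ => R x.1 x.2) (univ ×ˢ ball 0 1))
    (hd : ∀ t, DifferentiableOn ℂ (R t) (ball 0 1)) :
    ContinuousOn (fun x : X × ℂ => dslope (R x.1) 0 x.2) (univ ×ˢ ball 0 1) := by
  rw [rfam_cont_iff (R := fun t => dslope (R t) 0) fun t =>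
    ((differentiableOn_dslope (ball_mem_nhds _ one_pos)).2 (hd t)).continuousOn]
  intro t
  exact dslope_tendsto (Eventually.of_forall hd) (hd t)
    ((rfam_cont_iff fun t => (hd t).continuousOn).1 hc t) tendsto_const_nhds
    (mem_ball_self one_pos)

/-- Hint: the homotopy `(t, ζ) ↦ (t, s ζ)` ends at the constant `1` (`HasLogOn.homotopy`);
`holo_log`. -/
theorem Fam.exists_log (h : Fam R) : ∃ N : X → ℂ → ℂ,
    ContinuousOn (fun x : X × ℂ => N x.1 x.2) (univ ×ˢ ball 0 1) ∧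
    (∀ t, DifferentiableOn ℂ (N t) (ball 0 1)) ∧
    ∀ t, ∀ ζ ∈ ball (0 : ℂ) 1, exp (N t ζ) = dslope (R t) 0 ζ / deriv (R t) ζ := by
  have hne : ∀ t, ∀ ζ ∈ ball (0 : ℂ) 1, dslope (R t) 0 ζ ≠ 0 := by
    intro t ζ hζ
    rcases eq_or_ne ζ 0 with rfl | h0
    · rw [dslope_same]
      exact h.der t 0 hζ
    · rw [dslope_of_ne _ h0, slope_def_field]
      exact div_ne_zero (sub_ne_zero.2 fun e => h0 (h.inj t hζ (mem_ball_self one_pos) e))
        (sub_ne_zero.2 h0)
  have hm : ∀ s ∈ Icc (0 : ℝ) 1, ∀ ζ ∈ ball (0 : ℂ) 1, (s : ℂ) * ζ ∈ ball (0 : ℂ) 1 := by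
    intro s hs ζ hζ
    rw [mem_ball_zero_iff] at *
    rw [norm_mul, Complex.norm_real, Real.norm_of_nonneg hs.1]
    nlinarith [hs.2, norm_nonneg ζ]
  have hq : ContinuousOn (fun x : X × ℂ => dslope (R x.1) 0 x.2 / deriv (R x.1) x.2)
      (univ ×ˢ ball 0 1) :=
    (cont_dslope h.cont h.diff).div (cont_deriv h.cont h.diff) fun x hx => h.der _ _ hx.2
  obtain ⟨N, hN, he⟩ := HasLogOn.homotopy (K := (univ : Set X) ×ˢ ball (0 : ℂ) 1)
    (H := fun s x => dslope (R x.1) 0 (s * x.2) / deriv (R x.1) (s * x.2))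
    (hq.comp (f := fun p : ℝ × (X × ℂ) => (p.2.1, (p.1 : ℂ) * p.2.2)) (by fun_prop)
      fun p hp => ⟨trivial, hm _ hp.1 _ hp.2.2⟩)
    (fun s hs x hx => div_ne_zero (hne _ _ (hm s hs _ hx.2)) (h.der _ _ (hm s hs _ hx.2)))
    ((hasLogOn_const one_ne_zero _).congr fun x _ => by
      simp only [ofReal_zero, zero_mul, dslope_same]
      exact div_self (h.der _ _ (mem_ball_self one_pos)))
  simp only [ofReal_one, one_mul] at he
  refine ⟨fun t ζ => N (t, ζ), hN, fun t => ?_, fun t ζ hζ => he (t, ζ) ⟨trivial, hζ⟩⟩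
  exact holo_log isOpen_ball
    (((differentiableOn_dslope (ball_mem_nhds _ one_pos)).2 (h.diff t)).div
      ((h.diff t).deriv isOpen_ball) (h.der t))
    (hN.comp (Continuous.prodMk_right t).continuousOn fun ζ hζ => ⟨trivial, hζ⟩)
    fun ζ hζ => he (t, ζ) ⟨trivial, hζ⟩

/-- preimages of a continuous section stay in a compact disc. Hint: near `t₀` the function
`R t - c t` has a zero in a small disc around the zero of `R t₀ - c t₀` (`zero_of_lt`). -/
theorem Fam.radius [CompactSpace X] (h : Fam R) {c : X → ℂ} (hc : Continuous c)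
    (hm : ∀ t, c t ∈ R t '' ball 0 1) : ∃ ρ < (1 : ℝ), ∀ t, ∃ ζ : ℂ, ‖ζ‖ ≤ ρ ∧ c t = R t ζ := by
  suffices H : ∃ ρ < (1 : ℝ), ∀ t ∈ (univ : Set X), ∃ ζ : ℂ, ‖ζ‖ ≤ ρ ∧ c t = R t ζ by
    obtain ⟨ρ, h1, h2⟩ := H
    exact ⟨ρ, h1, fun t => h2 t trivial⟩
  refine isCompact_univ.induction_on
    (p := fun A => ∃ ρ < (1 : ℝ), ∀ t ∈ A, ∃ ζ : ℂ, ‖ζ‖ ≤ ρ ∧ c t = R t ζ)
    ⟨0, one_pos, fun _ ht => ht.elim⟩ (fun A B hAB ⟨ρ, h1, h2⟩ => ⟨ρ, h1, fun t ht => h2 t (hAB ht)⟩)
    ?_ ?_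
  · rintro A B ⟨ρ, h1, h2⟩ ⟨ρ', h1', h2'⟩
    refine ⟨max ρ ρ', max_lt h1 h1', ?_⟩
    rintro t (ht | ht)
    · obtain ⟨ζ, a1, a2⟩ := h2 t ht
      exact ⟨ζ, a1.trans (le_max_left _ _), a2⟩
    · obtain ⟨ζ, a1, a2⟩ := h2' t ht
      exact ⟨ζ, a1.trans (le_max_right _ _), a2⟩
  · intro t₀ _
    obtain ⟨ζ₀, hζ₀, e⟩ := hm t₀
    obtain ⟨ρ, h1, h2⟩ := exists_between (mem_ball_zero_iff.1 hζ₀)
    have hr : 0 < ρ - ‖ζ₀‖ := sub_pos.2 h1
    have hs1 : closedBall ζ₀ (ρ - ‖ζ₀‖) ⊆ closedBall 0 ρ := by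
      refine closedBall_subset_closedBall' ?_
      rw [dist_zero_right]
      linarith
    have hs2 := hs1.trans (closedBall_subset_ball h2)
    have hca : ∀ w ∈ ball (0 : ℂ) 1, ContinuousAt (fun x : X × ℂ => R x.1 x.2) (t₀, w) :=
      fun w hw => h.cont.continuousAt ((isOpen_univ.prod isOpen_ball).mem_nhds ⟨trivial, hw⟩)
    have h3 : ∀ᶠ t in 𝓝 t₀, ∀ w ∈ sphere ζ₀ (ρ - ‖ζ₀‖), ‖R t ζ₀ - c t‖ < ‖R t w - c t‖ := by
      refine (isCompact_sphere _ _).eventually_forall_of_forall_eventually fun w hw => ?_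
      have hw1 := hs2 (sphere_subset_closedBall hw)
      have a1 : ContinuousAt (fun x : X × ℂ => R x.1 ζ₀) (t₀, w) :=
        ContinuousAt.comp (g := fun x : X × ℂ => R x.1 x.2) (f := fun x : X × ℂ => (x.1, ζ₀))
          (hca ζ₀ hζ₀) (by fun_prop)
      have a2 : ContinuousAt (fun x : X × ℂ => c x.1) (t₀, w) :=
        (hc.comp continuous_fst).continuousAt
      refine ((a1.sub a2).norm).eventually_lt (((hca w hw1).sub a2).norm) ?_
      simp only [Pi.sub_apply, ← e, sub_self, norm_zero, norm_pos_iff, sub_ne_zero]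
      exact fun e' => ne_of_mem_sphere hw hr.ne' (h.inj t₀ hw1 hζ₀ e')
    refine ⟨_, mem_nhdsWithin_of_mem_nhds h3, ρ, h2, fun t ht => ?_⟩
    obtain ⟨w, hw, e'⟩ := zero_of_lt (g := fun w => R t w - c t) hr
      (((h.diff t).sub_const _).diffContOnCl_ball hs2) ht
    exact ⟨w, mem_closedBall_zero_iff.1 (hs1 (ball_subset_closedBall hw)),
      (sub_eq_zero.1 e').symm⟩

end Pool.Agent.MP_4baaa2_an.H94

end
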