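import Pool.Agent.MP_4baaa2_an.Mg.H94_Cx1
import Pool.Agent.MP_4baaa2_an.Mg.H94_Top

/-!
Definitions for the extremal problem on dual discs.
-/

namespace Pool.Agent.MP_4baaa2_an.H94

open Set Metric Filter Topology Complex
open scoped ComplexConjugate
open Pool.Agent.Lib.PlaneTop

variable {n : ℕ}

/-- the factor `O` in `ω - ⟨z, h ω⟩ = (ω - ζ) O` (valid when `⟨z, h ζ⟩ = ζ`) -/
noncomputable def O (h : ℂ → E n) (z : E n) (ζ ω : ℂ) : ℂ := 1 - dot z (dslope h ζ ω)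

/-- admissible dual discs: for every `z ∈ D` the function `ω - ⟨z, h ω⟩` has exactly one zero in
the disc and it is simple -/
def Adm (D : Set (E n)) (h : ℂ → E n) : Prop :=
  DifferentiableOn ℂ h (ball 0 1) ∧ ∀ z ∈ D, ∃ ζ ∈ ball (0 : ℂ) 1, dot z (h ζ) = ζ ∧
    ∀ ω ∈ ball (0 : ℂ) 1, O h z ζ ω ≠ 0

open Classical in
/-- the zero of `ω - ⟨z, h ω⟩` -/
noncomputable def F (h : ℂ → E n) (z : E n) : ℂ :=
  if H : ∃ ζ ∈ ball (0 : ℂ) 1, dot z (h ζ) = ζ then H.choose else 0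

/-- parameters of the perturbation -/
structure Par where
  Λ : ℝ
  s : ℝ
  r : ℝ
  hΛ : 0 ≤ Λ
  hs : 0 < s
  hsr : s < r
  hr : r < 1

/-- `L²` product on a circle -/
noncomputable def ip (ρ : ℝ) (η h : ℂ → E n) : ℂ :=
  Real.circleAverage (fun w => dot (η w) (cj (h w))) 0 ρ

/-- the quadratic perturbation -/
noncomputable def Q (P : Par) (h : ℂ → E n) : ℝ := P.Λ * N2 P.s h + N2 P.r h

/-- its derivative at `h` in the direction `η` is the real part of this number -/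
noncomputable def Lq (P : Par) (h η : ℂ → E n) : ℂ := 2 * (P.Λ * ip P.s η h + ip P.r η h)

/-- the functional to be maximised -/
noncomputable def V (P : Par) (ε : ℝ) (p : E n) (h : ℂ → E n) : ℝ :=
  ‖F h p‖ * Real.exp (-(ε * Q P h))

/-- the value function -/
noncomputable def U (D : Set (E n)) (P : Par) (ε : ℝ) (p : E n) : ℝ :=
  sSup (V P ε p '' {h | Adm D h})

/-- the unperturbed value function -/
noncomputable def U0 (D : Set (E n)) (p : E n) : ℝ := sSup ((fun h => ‖F h p‖) '' {h | Adm D h})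

/-- maximisers -/
def IsMax (D : Set (E n)) (P : Par) (ε : ℝ) (p : E n) (h : ℂ → E n) : Prop :=
  Adm D h ∧ ∀ h', Adm D h' → V P ε p h' ≤ V P ε p h

/-- the constant in the derivative of `log F h p` -/
noncomputable def cc (h : ℂ → E n) (p : E n) : ℂ := (F h p * O h p (F h p) (F h p))⁻¹

/-- the first variation of `log V` -/
noncomputable def ell (P : Par) (ε : ℝ) (p : E n) (h η : ℂ → E n) : ℂ :=
  cc h p * dot p (η (F h p)) - ε * Lq P h η

/-- the kernel representing `Lq` -/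
noncomputable def kap (P : Par) (h : ℂ → E n) (w : ℂ) : E n :=
  (2 * w) • ((P.Λ : ℂ) • cj (h (P.s ^ 2 / conj w)) + cj (h (P.r ^ 2 / conj w)))

/-- the meromorphic disc of hyperplanes -/
noncomputable def xi (h : ℂ → E n) (w : ℂ) : E n := w⁻¹ • h w

/-- `(w - ζ)/w²` times the unperturbed part of the density -/
noncomputable def np (p : E n) (h m : ℂ → E n) (w : ℂ) : E n := (w - F h p) • m w + cc h p • p

/-- `(w - ζ)/w²` times the density of the multiplier -/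
noncomputable def nt (P : Par) (ε : ℝ) (p : E n) (h m : ℂ → E n) (w : ℂ) : E n :=
  np p h m w - (ε * (w - F h p) / w ^ 2) • kap P h w

/-- the density of the multiplier -/
noncomputable def nn (P : Par) (ε : ℝ) (p : E n) (h m : ℂ → E n) (w : ℂ) : E n :=
  (w ^ 2 / (w - F h p)) • nt P ε p h m w

/-- the primal disc near the origin -/
noncomputable def fp (p : E n) (h m : ℂ → E n) (w : ℂ) : E n :=
  (w / dot (np p h m w) (h w)) • np p h m w

/-- the primal annulus -/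
noncomputable def ff (P : Par) (ε : ℝ) (p : E n) (h m : ℂ → E n) (w : ℂ) : E n :=
  (w / dot (nt P ε p h m w) (h w)) • nt P ε p h m w

/-- the perturbed Poisson kernel -/
noncomputable def N1 (P : Par) (ε : ℝ) (p : E n) (h m : ℂ → E n) (w : ℂ) : ℂ :=
  w / (w - F h p) * dot (nt P ε p h m w) (h w - w • deriv h w)

/-- the radii used in the estimates -/
structure Rad where
  a1 : ℝ
  a2 : ℝ
  a3 : ℝ
  a4 : ℝ
  σ1 : ℝ
  σ2 : ℝ
  ρ1 : ℝ
  r : ℝ
  h0 : 0 < r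
  h1 : r ^ 2 < a1
  h2 : a1 < a2
  h3 : a2 < a3
  h4 : a3 < a4
  h5 : a4 < σ1
  h6 : σ1 ≤ σ2
  h7 : σ2 < ρ1
  h8 : ρ1 < r
  h9 : r < 1

/-- what is known on a maximiser after the boundary analysis -/
structure Core (D : Set (E n)) (R : Rad) (P : Par) (δL ε : ℝ) (p : E n) (h m : ℂ → E n) :
    Prop where
  hr : P.r = R.r
  eps : 0 ≤ ε
  adm : Adm D h
  pD : p ∈ D
  lo : R.σ1 ≤ ‖F h p‖
  hi : ‖F h p‖ ≤ R.σ2
  md : DifferentiableOn ℂ m (ball 0 1)
  ne : ∀ w ∈ Ann R.a1, dot (nt P ε p h m w) (h w) ≠ 0 ∧ ff P ε p h m w ∈ D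
  inn : ∀ w ∈ ball (0 : ℂ) R.a4, dot (np p h m w) (h w) ≠ 0 ∧ δL ≤ dep D (fp p h m w)
  inn2 : ∀ w : ℂ, R.a2 ≤ ‖w‖ → ‖w‖ ≤ R.a3 → δL ≤ dep D (ff P ε p h m w)
  n1im : ∀ μ > 0, ∃ r₃ < 1, ∀ w ∈ Ann r₃, |(N1 P ε p h m w).im| ≤ μ

/-- the data used for the quadratic growth estimate, with uniform constants -/
structure Good (D : Set (E n)) (R : Rad) (P : Par) (δL C c ε : ℝ) (p : E n)
    (h m : ℂ → E n) : Prop where
  hr : P.r = R.r
  eps : 0 ≤ ε
  adm : Adm D h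
  pD : p ∈ D
  lo : R.σ1 ≤ ‖F h p‖
  hi : ‖F h p‖ ≤ R.σ2
  md : DifferentiableOn ℂ m (ball 0 1)
  ne : ∀ w ∈ Ann R.a1, dot (nt P ε p h m w) (h w) ≠ 0 ∧ ff P ε p h m w ∈ D
  inn : ∀ w ∈ ball (0 : ℂ) R.a4, dot (np p h m w) (h w) ≠ 0 ∧ δL ≤ dep D (fp p h m w)
  inn2 : ∀ w : ℂ, R.a2 ≤ ‖w‖ → ‖w‖ ≤ R.a3 → δL ≤ dep D (ff P ε p h m w) ∧
    ‖ff P ε p h m w - fp p h m w‖ ≤ C * (ε * (P.Λ + 1)) ∧ ‖dot (np p h m w) (h w)‖ ≤ C
  n1 : ∀ w ∈ Ann R.r, c ≤ (N1 P ε p h m w).re ∧ ‖N1 P ε p h m w‖ ≤ C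
  n1im : ∀ μ > 0, ∃ r₃ < 1, ∀ w ∈ Ann r₃, |(N1 P ε p h m w).im| ≤ μ

/-- quadratic growth at the maximiser `h` -/
def Growth (D : Set (E n)) (P : Par) (ε : ℝ) (p : E n) (h : ℂ → E n) : Prop :=
  ∀ h₂, Adm D h₂ → ∀ x : ℝ, 0 < x → F h₂ p = x * F h p →
    Real.log x - ε * Q P h₂ ≤ -(ε * Q P h) - ε / 2 * Q P (h₂ - h)

/-- bounded linearly convex domains with uniform interior and exterior balls -/
structure Nice (G : Set (E n)) : Prop where
  isOpen : IsOpen G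
  conn : IsPreconnected G
  bdd : Bornology.IsBounded G
  zero : (0 : E n) ∈ G
  ne_univ : G ≠ univ
  lc : ∀ z ∉ G, ∃ ξ ∈ Kd G, dot z ξ = 1
  two : ∃ R > 0, ∀ q ∈ frontier G, ∃ ν : E n, ‖ν‖ = 1 ∧ ball (q - R • ν) R ⊆ G ∧
    Disjoint (ball (q + R • ν) R) G

end Pool.Agent.MP_4baaa2_an.H94

/-!
Basic properties of admissible discs.
-/

namespace Pool.Agent.MP_4baaa2_an.H94

open Set Metric Filter Topology Complex
open scoped ComplexConjugate
open Pool.Agent.Lib.PlaneTop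

variable {n : ℕ}

variable {D : Set (E n)} {Φ : E n → E n → ℂ} {h : ℂ → E n} {z : E n}

theorem W_eq (h : ℂ → E n) (z : E n) {ζ : ℂ} (hζ : dot z (h ζ) = ζ) (ω : ℂ) :
    ω - dot z (h ω) = (ω - ζ) * O h z ζ ω := by
  have := congrArg (dot z) (sub_smul_dslope h ζ ω)
  rw [dot_smul_right, dot_sub_right, hζ] at this
  unfold O
  linear_combination this

theorem cls1_F (H : ∃ ζ ∈ ball (0 : ℂ) 1, dot z (h ζ) = ζ) :
    F h z ∈ ball (0 : ℂ) 1 ∧ dot z (h (F h z)) = F h z := by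
  unfold F
  rw [dif_pos H]
  exact H.choose_spec

theorem Adm.F_spec (hh : Adm D h) (hz : z ∈ D) : F h z ∈ ball (0 : ℂ) 1 ∧
    dot z (h (F h z)) = F h z ∧ ∀ ω ∈ ball (0 : ℂ) 1, O h z (F h z) ω ≠ 0 := by
  obtain ⟨ζ, h1, h2, h3⟩ := hh.2 z hz
  obtain ⟨a1, a2⟩ := cls1_F ⟨ζ, h1, h2⟩
  have e := W_eq h z h2 (F h z)
  rw [a2, sub_self] at e
  have : F h z = ζ := sub_eq_zero.1 ((mul_eq_zero.1 e.symm).resolve_right (h3 _ a1))
  rw [this]
  exact ⟨h1, h2, h3⟩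

theorem Adm.F_unique (hh : Adm D h) (hz : z ∈ D) {ω : ℂ} (hω : ω ∈ ball (0 : ℂ) 1)
    (he : dot z (h ω) = ω) : F h z = ω := by
  obtain ⟨-, h2, h3⟩ := hh.F_spec hz
  have e := W_eq h z h2 ω
  rw [he, sub_self] at e
  exact (sub_eq_zero.1 ((mul_eq_zero.1 e.symm).resolve_right (h3 _ hω))).symm

theorem Adm.F_zero (hh : Adm D h) (h0 : (0 : E n) ∈ D) : F h 0 = 0 := by
  exact hh.F_unique h0 (mem_ball_self one_pos) (dot_zero_left _)

theorem F_congr {h' : ℂ → E n} (he : EqOn h' h (ball 0 1)) (z : E n) : F h' z = F h z := by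
  have e : (fun ζ => ζ ∈ ball (0 : ℂ) 1 ∧ dot z (h' ζ) = ζ) =
      fun ζ => ζ ∈ ball (0 : ℂ) 1 ∧ dot z (h ζ) = ζ := by
    funext ζ
    exact propext (and_congr_right fun hζ => by rw [he hζ])
  exact congrArg (fun p : ℂ → Prop =>
    @dite ℂ (∃ ζ, p ζ) (Classical.propDecidable _) (fun H => H.choose) fun _ => 0) e

theorem O_congr {h' : ℂ → E n} (he : EqOn h' h (ball 0 1)) (z : E n) {ζ ω : ℂ}
    (hζ : ζ ∈ ball (0 : ℂ) 1) (hω : ω ∈ ball (0 : ℂ) 1) : O h' z ζ ω = O h z ζ ω := by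
  unfold O
  congr 2
  rcases eq_or_ne ω ζ with rfl | hne
  · rw [dslope_same, dslope_same]
    exact (he.eventuallyEq_of_mem (isOpen_ball.mem_nhds hζ)).deriv_eq
  · rw [dslope_of_ne _ hne, dslope_of_ne _ hne, slope_def_module, slope_def_module, he hζ, he hω]

theorem Adm.congr (hh : Adm D h) {h' : ℂ → E n} (he : EqOn h' h (ball 0 1)) : Adm D h' := by
  refine ⟨hh.1.congr he, fun z hz => ?_⟩
  obtain ⟨ζ, h1, h2, h3⟩ := hh.2 z hz
  refine ⟨ζ, h1, by rw [he h1, h2], fun ω hω => ?_⟩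
  rw [O_congr he z h1 hω]
  exact h3 ω hω

theorem cls1_sph {ρ : ℝ} (_h0 : 0 < ρ) (h1 : ρ < 1) : sphere (0 : ℂ) ρ ⊆ ball 0 1 :=
  sphere_subset_closedBall.trans (closedBall_subset_ball h1)

theorem cls1_s (P : Par) : 0 < P.s ∧ P.s < 1 := ⟨P.hs, P.hsr.trans P.hr⟩

theorem cls1_r (P : Par) : 0 < P.r ∧ P.r < 1 := ⟨P.hs.trans P.hsr, P.hr⟩

theorem Q_congr (P : Par) {h' : ℂ → E n} (he : EqOn h' h (ball 0 1)) : Q P h' = Q P h := by
  have key : ∀ ρ : ℝ, 0 < ρ ∧ ρ < 1 → N2 ρ h' = N2 ρ h := fun ρ hρ => by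
    refine Real.circleAverage_congr_sphere fun w hw => ?_
    rw [abs_of_pos hρ.1] at hw
    simp only [he (cls1_sph hρ.1 hρ.2 hw)]
  unfold Q
  rw [key _ (cls1_s P), key _ (cls1_r P)]

theorem IsMax.congr {P : Par} {ε : ℝ} {p : E n} (hh : IsMax D P ε p h) {h' : ℂ → E n}
    (he : EqOn h' h (ball 0 1)) : IsMax D P ε p h' := by
  refine ⟨hh.1.congr he, fun g hg => ?_⟩
  have := hh.2 g hg
  unfold V at this ⊢
  rwa [F_congr he, Q_congr P he]

theorem cls1_cont (hD : IsOpen D) (hh : Adm D h) (hz : z ∈ D) : ContinuousAt (F h) z := by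
  obtain ⟨h1, h2, h3⟩ := hh.F_spec hz
  set ζ := F h z with hζ
  obtain ⟨r₀, hr₀, hsub⟩ := nhds_basis_closedBall.mem_iff.1 (isOpen_ball.mem_nhds h1)
  refine Metric.tendsto_nhds.2 fun ε hε => ?_
  set r := min ε r₀ with hr
  have hr0 : 0 < r := lt_min hε hr₀
  have hs : closedBall ζ r ⊆ ball 0 1 := (closedBall_subset_closedBall (min_le_right _ _)).trans hsub
  have e1 : ∀ᶠ x in 𝓝 z, ∀ w ∈ sphere ζ r, ‖ζ - dot x (h ζ)‖ < ‖w - dot x (h w)‖ := by
    refine (isCompact_sphere ζ r).eventually_forall_of_forall_eventually fun w hw => ?_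
    have hw1 := hs (sphere_subset_closedBall hw)
    have hc : ContinuousAt h w := hh.1.continuousOn.continuousAt (isOpen_ball.mem_nhds hw1)
    have hc' : ContinuousAt (fun p : E n × ℂ => h p.2) (z, w) :=
      ContinuousAt.comp (g := h) (f := fun p : E n × ℂ => p.2) hc continuousAt_snd
    refine ContinuousAt.eventually_lt (f := fun p : E n × ℂ => ‖ζ - dot p.1 (h ζ)‖)
      (g := fun p : E n × ℂ => ‖p.2 - dot p.1 (h p.2)‖) (by fun_prop)
      (continuousAt_snd.sub (contAt_dot continuousAt_fst hc')).norm ?_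
    simp only [h2, sub_self, norm_zero, norm_pos_iff]
    rw [W_eq h z h2]
    refine mul_ne_zero (sub_ne_zero.2 ?_) (h3 w hw1)
    exact ne_of_mem_sphere hw hr0.ne'
  filter_upwards [e1, hD.mem_nhds hz] with x hx hxD
  have hd : DifferentiableOn ℂ (fun w => w - dot x (h w)) (ball 0 1) :=
    differentiableOn_id.sub (diffOn_dot (differentiableOn_const x) hh.1)
  obtain ⟨w, hw, hw0⟩ := zero_of_lt hr0 (hd.diffContOnCl_ball hs) hx
  rw [hh.F_unique hxD (hs (ball_subset_closedBall hw)) (sub_eq_zero.1 hw0).symm]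
  exact (mem_ball.1 hw).trans_le (min_le_left _ _)

theorem Adm.F_hasFDerivAt (hD : IsOpen D) (hh : Adm D h) (hz : z ∈ D) :
    HasFDerivAt (F h) ((O h z (F h z) (F h z))⁻¹ • dotL (h (F h z))) z := by
  obtain ⟨h1, h2, h3⟩ := hh.F_spec hz
  have hF := cls1_cont hD hh hz
  have hda : DifferentiableAt ℂ h (F h z) := hh.1.differentiableAt (isOpen_ball.mem_nhds h1)
  have c1 : ContinuousAt (fun ω => (O h z (F h z) ω)⁻¹ • h ω) (F h z) := by
    refine ContinuousAt.smul (ContinuousAt.inv₀ ?_ (h3 _ h1)) hda.continuousAt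
    exact continuousAt_const.sub (contAt_dot continuousAt_const (continuousAt_dslope_same.2 hda))
  have c2 := ContinuousAt.comp (f := F h) c1 hF
  rw [hasFDerivAt_iff_isLittleO, Asymptotics.isLittleO_iff]
  intro c hc
  filter_upwards [Metric.tendsto_nhds.1 c2 c hc, hD.mem_nhds hz] with x hx hxD
  obtain ⟨a1, a2, -⟩ := hh.F_spec hxD
  have e := W_eq h z h2 (F h x)
  have hO := h3 _ a1
  have e2 : F h x - F h z - ((O h z (F h z) (F h z))⁻¹ • dotL (h (F h z))) (x - z) =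
      dot (x - z) ((O h z (F h z) (F h x))⁻¹ • h (F h x) -
        (O h z (F h z) (F h z))⁻¹ • h (F h z)) := by
    rw [smul_apply, dotL_apply, dot_comm (h (F h z)), smul_eq_mul,
      dot_sub_right, dot_smul_right, dot_smul_right, dot_sub_left x z (h (F h x)), a2, e]
    field_simp
  rw [e2, mul_comm]
  refine (norm_dot_le _ _).trans (mul_le_mul_of_nonneg_left ?_ (norm_nonneg _))
  rw [dist_eq_norm] at hx
  exact hx.le

theorem Adm.F_diff (hD : IsOpen D) (hh : Adm D h) : DifferentiableOn ℂ (F h) D := by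
  exact fun z hz => (hh.F_hasFDerivAt hD hz).differentiableAt.differentiableWithinAt

theorem cls1_dir (v : E n) : ∃ e : E n, ‖e‖ ≤ 1 ∧ v = ((‖v‖ : ℝ) : ℂ) • e := by
  rcases eq_or_ne v 0 with rfl | hv
  · exact ⟨0, by simp, by simp⟩
  have h0 : ((‖v‖ : ℝ) : ℂ) ≠ 0 := ofReal_ne_zero.2 (norm_ne_zero_iff.2 hv)
  refine ⟨((‖v‖ : ℝ) : ℂ)⁻¹ • v, ?_, by rw [smul_inv_smul₀ h0]⟩
  rw [norm_smul, norm_inv, Complex.norm_real, norm_norm, inv_mul_cancel₀ (norm_ne_zero_iff.2 hv)]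

theorem cls1_line {f : E n → ℂ} (hf : DifferentiableOn ℂ f D) {R : ℝ} (hR : ball z R ⊆ D)
    {e : E n} (he : ‖e‖ ≤ 1) : (∀ t ∈ ball (0 : ℂ) R, z + t • e ∈ D) ∧
      DifferentiableOn ℂ (fun t : ℂ => f (z + t • e)) (ball 0 R) := by
  have h1 : ∀ t ∈ ball (0 : ℂ) R, z + t • e ∈ D := fun t ht => by
    refine hR ?_
    rw [mem_ball_iff_norm, add_sub_cancel_left, norm_smul]
    exact (mul_le_of_le_one_right (norm_nonneg _) he).trans_lt (mem_ball_zero_iff.1 ht)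
  exact ⟨h1, hf.comp (f := fun t : ℂ => z + t • e) (by fun_prop) h1⟩

/-- uniform Lipschitz bound -/
theorem Adm.F_lip (hD : IsOpen D) (hh : Adm D h) {R : ℝ} (hR : ball z R ⊆ D) {z' : E n}
    (hz' : z' ∈ ball z R) : ‖F h z' - F h z‖ ≤ 2 / R * ‖z' - z‖ := by
  obtain ⟨e, he, hv⟩ := cls1_dir (z' - z)
  obtain ⟨h1, h2⟩ := cls1_line (hh.F_diff hD) hR he
  have h3 := schwarz_lip (b := 1) h2 (fun t ht => (mem_ball_zero_iff.1 (hh.F_spec (h1 t ht)).1).le)
    ((‖z' - z‖ : ℝ) : ℂ) (by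
      rw [mem_ball_zero_iff, Complex.norm_real, norm_norm]
      exact mem_ball_iff_norm.1 hz')
  rw [← hv, add_sub_cancel, zero_smul, add_zero, mul_one, Complex.norm_real, norm_norm] at h3
  exact h3

theorem cls1_solve {v : E n} (hv : v ≠ 0) (c : ℂ) :
    dot ((c / ((‖v‖ ^ 2 : ℝ) : ℂ)) • cj v) v = c := by
  have h0 : ((‖v‖ ^ 2 : ℝ) : ℂ) ≠ 0 := ofReal_ne_zero.2 (pow_ne_zero 2 (norm_ne_zero_iff.2 hv))
  rw [dot_smul_left, dot_comm, dot_cj_self, div_mul_cancel₀ _ h0]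

/-- admissible discs are uniformly bounded -/
theorem adm_bound (hD : IsOpen D) (h0 : (0 : E n) ∈ D) :
    ∃ Rh > 0, ∀ h, Adm D h → ∀ ω ∈ ball (0 : ℂ) 1, ‖h ω‖ ≤ Rh := by
  obtain ⟨d, hd, hsub⟩ := Metric.isOpen_iff.1 hD 0 h0
  refine ⟨4 / d, by positivity, fun h hh => ?_⟩
  have key : ∀ ω ∈ ball (0 : ℂ) 1, 1 / 2 ≤ ‖ω‖ → ‖h ω‖ ≤ 4 / d := by
    intro ω hω h2
    by_contra hlt
    rw [not_le] at hlt
    have hp : 0 < ‖h ω‖ := lt_trans (by positivity) hlt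
    have hv : h ω ≠ 0 := norm_pos_iff.1 hp
    have hω1 := mem_ball_zero_iff.1 hω
    have hn : ‖(ω / ((‖h ω‖ ^ 2 : ℝ) : ℂ)) • cj (h ω)‖ < d / 4 := by
      rw [norm_smul, norm_div, Complex.norm_real, norm_cj, Real.norm_of_nonneg (sq_nonneg _)]
      have e : ‖ω‖ / ‖h ω‖ ^ 2 * ‖h ω‖ = ‖ω‖ / ‖h ω‖ := by field_simp
      rw [e, div_lt_iff₀ hp]
      rw [div_lt_iff₀ hd] at hlt
      linarith
    have hb : (ω / ((‖h ω‖ ^ 2 : ℝ) : ℂ)) • cj (h ω) ∈ ball (0 : E n) d :=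
      mem_ball_zero_iff.2 (by linarith)
    have h3 := hh.F_lip hD hsub hb
    rw [hh.F_unique (hsub hb) hω (cls1_solve hv ω), hh.F_zero h0, sub_zero, sub_zero] at h3
    have h4 : 2 / d * ‖(ω / ((‖h ω‖ ^ 2 : ℝ) : ℂ)) • cj (h ω)‖ < 2 / d * (d / 4) :=
      mul_lt_mul_of_pos_left hn (by positivity)
    have h5 : 2 / d * (d / 4) = 1 / 2 := by field_simp; norm_num
    linarith
  intro ω hω
  rcases le_or_gt (1 / 2) ‖ω‖ with h2 | h2
  · exact key ω hω h2
  have hs : closedBall (0 : ℂ) (1 / 2) ⊆ ball 0 1 := closedBall_subset_ball (by norm_num)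
  refine norm_le_of_forall_mem_frontier_norm_le isBounded_ball (hh.1.diffContOnCl_ball hs)
    (fun w hw => ?_) (subset_closure (mem_ball_zero_iff.2 h2))
  rw [frontier_ball _ (by norm_num)] at hw
  exact key w (hs (sphere_subset_closedBall hw)) (mem_sphere_zero_iff_norm.1 hw).ge

theorem const_adm (hb : Bornology.IsBounded D) : ∃ c > 0, ∀ v : E n, ‖v‖ ≤ c →
    Adm D (fun _ => v) ∧ ∀ z ∈ D, F (fun _ => v) z = dot z v := by
  obtain ⟨B, hB, hD⟩ := hb.exists_pos_norm_le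
  refine ⟨1 / (2 * B), by positivity, fun v hv => ?_⟩
  have h1 : ∀ z ∈ D, dot z v ∈ ball (0 : ℂ) 1 := fun z hz => by
    rw [mem_ball_zero_iff]
    refine (norm_dot_le _ _).trans_lt ?_
    calc ‖z‖ * ‖v‖ ≤ B * (1 / (2 * B)) := by gcongr; exact hD z hz
      _ = 1 / 2 := by field_simp
      _ < 1 := by norm_num
  have h2 : Adm D fun _ => v := by
    refine ⟨differentiableOn_const v, fun z hz => ⟨dot z v, h1 z hz, rfl, fun ω _ => ?_⟩⟩
    have : dslope (fun _ : ℂ => v) (dot z v) ω = 0 := by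
      rcases eq_or_ne ω (dot z v) with rfl | hne
      · rw [dslope_same, deriv_const]
      · rw [dslope_of_ne _ hne, slope_def_module, sub_self, smul_zero]
    rw [O, this, dot_zero_right, sub_zero]
    exact one_ne_zero
  exact ⟨h2, fun z hz => h2.F_unique hz (h1 z hz) rfl⟩

theorem cls1_avg_rot (g : ℂ → ℝ) {u : ℂ} (hu : ‖u‖ = 1) (ρ : ℝ) :
    Real.circleAverage (fun w => g (u * w)) 0 ρ = Real.circleAverage g 0 ρ := by
  rw [Real.circleAverage_eq_integral_add (f := g) (arg u), Real.circleAverage_def]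
  congr 2
  funext θ
  congr 1
  have := norm_mul_exp_arg_mul_I u
  rw [hu, ofReal_one, one_mul] at this
  rw [circleMap_zero, circleMap_zero, ofReal_add, add_mul, Complex.exp_add, this]
  ring

/-- rotation -/
theorem Adm.rot (hh : Adm D h) {u : ℂ} (hu : ‖u‖ = 1) :
    Adm D (fun ω => u • h (conj u * ω)) ∧
    (∀ z ∈ D, F (fun ω => u • h (conj u * ω)) z = u * F h z) ∧
    ∀ P : Par, Q P (fun ω => u • h (conj u * ω)) = Q P h := by
  have hcu : conj u * u = 1 := by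
    rw [mul_comm, mul_conj', hu]
    simp
  have hm : ∀ ω ∈ ball (0 : ℂ) 1, conj u * ω ∈ ball (0 : ℂ) 1 := fun ω hω => by
    rwa [mem_ball_zero_iff, norm_mul, norm_conj, hu, one_mul, ← mem_ball_zero_iff]
  have hm' : ∀ ω ∈ ball (0 : ℂ) 1, u * ω ∈ ball (0 : ℂ) 1 := fun ω hω => by
    rwa [mem_ball_zero_iff, norm_mul, hu, one_mul, ← mem_ball_zero_iff]
  have hz : ∀ (z : E n) (ζ : ℂ), dot z (h ζ) = ζ →
      dot z (u • h (conj u * (u * ζ))) = u * ζ := fun z ζ hζ => by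
    rw [← mul_assoc, hcu, one_mul, dot_smul_right, hζ]
  have hA : Adm D fun ω => u • h (conj u * ω) := by
    refine ⟨(hh.1.comp (f := fun ω => conj u * ω) (by fun_prop) hm).const_smul u, fun z hzD => ?_⟩
    obtain ⟨ζ, h1, h2, h3⟩ := hh.2 z hzD
    refine ⟨u * ζ, hm' ζ h1, hz z ζ h2, fun ω hω => ?_⟩
    rcases eq_or_ne ω (u * ζ) with rfl | hne
    · have d1 : HasDerivAt h (deriv h ζ) (conj u * (u * ζ)) := by
        rw [← mul_assoc, hcu, one_mul]
        exact (hh.1.differentiableAt (isOpen_ball.mem_nhds h1)).hasDerivAt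
      have d2 : HasDerivAt (fun ω => conj u * ω) (conj u * 1) (u * ζ) :=
        (hasDerivAt_id _).const_mul _
      have d3 : HasDerivAt (fun ω => u • h (conj u * ω)) (u • (conj u * 1) • deriv h ζ) (u * ζ) :=
        (d1.scomp (u * ζ) d2).const_smul u
      have h4 := h3 ζ h1
      rw [O, dslope_same] at h4 ⊢
      rwa [d3.deriv, smul_smul, mul_one, mul_comm, hcu, one_smul]
    · intro h0
      have e1 := W_eq (fun ω => u • h (conj u * ω)) z (hz z ζ h2) ω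
      have e2 := W_eq h z h2 (conj u * ω)
      rw [h0, mul_zero, dot_smul_right] at e1
      have e3 : (conj u * ω - ζ) * O h z ζ (conj u * ω) = 0 := by
        rw [← e2]
        linear_combination conj u * e1 + dot z (h (conj u * ω)) * hcu
      have e4 := sub_eq_zero.1 ((mul_eq_zero.1 e3).resolve_right (h3 _ (hm ω hω)))
      refine hne ?_
      rw [← e4, ← mul_assoc, mul_comm u, hcu, one_mul]
  refine ⟨hA, fun z hzD => ?_, fun P => ?_⟩
  · obtain ⟨h1, h2, -⟩ := hh.F_spec hzD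
    exact hA.F_unique hzD (hm' _ h1) (hz z _ h2)
  · have key : ∀ ρ : ℝ, N2 ρ (fun ω => u • h (conj u * ω)) = N2 ρ h := fun ρ => by
      unfold N2
      simp only [norm_smul, hu, one_mul]
      exact cls1_avg_rot (fun w => ‖h w‖ ^ 2) (by rw [norm_conj, hu]) ρ
    unfold Q
    rw [key, key]

/-- holomorphic functions with nonnegative real part -/
def cls1P (D : Set (E n)) (P : E n → ℂ) : Prop :=
  DifferentiableOn ℂ P D ∧ ∀ z ∈ D, 0 ≤ (P z).re

theorem cls1_har {P : E n → ℂ} (hP : cls1P D P) {x y : E n} {R : ℝ} (hR0 : 0 < R)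
    (hR : ball x R ⊆ D) (hy : ‖y - x‖ ≤ R / 2) : (P x).re / 3 ≤ (P y).re := by
  obtain ⟨e, he, hv⟩ := cls1_dir (y - x)
  obtain ⟨h1, h2⟩ := cls1_line hP.1 hR he
  have h3 := (harnack h2 (fun t ht => hP.2 _ (h1 t ht)) (w := ((‖y - x‖ : ℝ) : ℂ)) (by
    rw [mem_ball_zero_iff, Complex.norm_real, norm_norm]
    linarith)).2.2
  rw [← hv, add_sub_cancel, zero_smul, add_zero, sub_zero, Complex.norm_real, norm_norm] at h3
  refine le_trans ?_ h3
  rw [div_eq_inv_mul]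
  refine mul_le_mul_of_nonneg_right ?_ (hP.2 x (hR (mem_ball_self hR0)))
  rw [le_div_iff₀ (by positivity)]
  linarith

theorem cls1_chain (hD : IsOpen D) (hc : IsPreconnected D) {x y : E n} (hx : x ∈ D) (hy : y ∈ D) :
    ∃ m > 0, ∀ P, cls1P D P → m * (P x).re ≤ (P y).re := by
  refine hc.induction₂' (fun x y => ∃ m > (0 : ℝ), ∀ P, cls1P D P → m * (P x).re ≤ (P y).re)
    (fun x hx => ?_) ?_ hx hy
  · obtain ⟨R, hR, hsub⟩ := Metric.isOpen_iff.1 hD x hx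
    filter_upwards [mem_nhdsWithin_of_mem_nhds (ball_mem_nhds x (by positivity : 0 < R / 4))]
      with y hy
    have h1 := mem_ball_iff_norm.1 hy
    refine ⟨⟨1 / 3, by norm_num, fun P hP => ?_⟩, ⟨1 / 3, by norm_num, fun P hP => ?_⟩⟩
    · linarith [cls1_har hP hR hsub (y := y) (by linarith)]
    · have h2 : ball y (R / 2) ⊆ D :=
        (ball_subset_ball' (by rw [dist_eq_norm]; linarith)).trans hsub
      linarith [cls1_har hP (half_pos hR) h2 (y := x) (by rw [norm_sub_rev]; linarith)]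
  · rintro x y w - - - ⟨m, hm, h1⟩ ⟨m', hm', h2⟩
    refine ⟨m' * m, mul_pos hm' hm, fun P hP => ?_⟩
    rw [mul_assoc]
    exact (mul_le_mul_of_nonneg_left (h1 P hP) hm'.le).trans (h2 P hP)

theorem cls1_deep (hD : IsOpen D) (hc : IsPreconnected D) {x : E n} (hx : x ∈ D) {K : Set (E n)}
    (hK : IsCompact K) (hKD : K ⊆ D) :
    ∃ m > 0, ∀ y ∈ K, ∀ P, cls1P D P → m * (P x).re ≤ (P y).re := by
  refine hK.induction_on
    (p := fun K => ∃ m > (0 : ℝ), ∀ y ∈ K, ∀ P, cls1P D P → m * (P x).re ≤ (P y).re)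
    ⟨1, one_pos, fun y hy => absurd hy (notMem_empty y)⟩
    (fun s t hst ⟨m, hm, H⟩ => ⟨m, hm, fun y hy => H y (hst hy)⟩) ?_ fun y hy => ?_
  · rintro s t ⟨m, hm, H⟩ ⟨m', hm', H'⟩
    refine ⟨min m m', lt_min hm hm', fun y hy P hP => ?_⟩
    rcases hy with hy | hy
    · exact (mul_le_mul_of_nonneg_right (min_le_left _ _) (hP.2 x hx)).trans (H y hy P hP)
    · exact (mul_le_mul_of_nonneg_right (min_le_right _ _) (hP.2 x hx)).trans (H' y hy P hP)
  · obtain ⟨R, hR, hsub⟩ := Metric.isOpen_iff.1 hD y (hKD hy)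
    obtain ⟨m, hm, H⟩ := cls1_chain hD hc hx (hKD hy)
    refine ⟨ball y (R / 2), mem_nhdsWithin_of_mem_nhds (ball_mem_nhds y (half_pos hR)), m / 3,
      by positivity, fun w hw P hP => ?_⟩
    linarith [cls1_har hP hR hsub (mem_ball_iff_norm.1 hw).le, H P hP]

theorem cls1_cone {P : E n → ℂ} (hP : cls1P D P) {e : E n} (he : ‖e‖ ≤ 1) {c t₀ m : ℝ}
    (hc : 0 < c) (hc1 : c ≤ 1) (ht₀ : 0 < t₀)
    (H : ∀ t ∈ Icc (0 : ℝ) t₀, c * t ≤ dep D (z + t • e)) (hm0 : 0 ≤ m)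
    (hm : m ≤ (P (z + t₀ • e)).re) (k : ℕ) :
    ∀ t, (1 - c / 2) ^ k * t₀ ≤ t → t ≤ t₀ → m / 3 ^ k ≤ (P (z + t • e)).re := by
  induction k with
  | zero =>
    intro t h1 h2
    rw [pow_zero, one_mul] at h1
    rw [le_antisymm h2 h1, pow_zero, div_one]
    exact hm
  | succ k ih =>
    intro t h1 h2
    have hq : 0 < 1 - c / 2 := by linarith
    have e3 : m / 3 ^ (k + 1) = m / 3 ^ k / 3 := by rw [pow_succ, div_div]
    have h0 : 0 ≤ m / 3 ^ k := by positivity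
    rcases le_total ((1 - c / 2) ^ k * t₀) t with h3 | h3
    · linarith [ih t h3 h2]
    set s := (1 - c / 2) ^ k * t₀ with hs
    have s0 : 0 < s := by positivity
    have s1 : s ≤ t₀ := mul_le_of_le_one_left ht₀.le (pow_le_one₀ hq.le (by linarith))
    have h4 : (1 - c / 2) * s ≤ t := by
      rw [hs, ← mul_assoc, ← pow_succ']
      exact h1
    have h5 : ball (z + s • e) (c * s) ⊆ D :=
      (ball_subset_ball (H s ⟨s0.le, s1⟩)).trans (ball_dep_subset _)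
    have h6 : ‖z + t • e - (z + s • e)‖ ≤ c * s / 2 := by
      rw [add_sub_add_left_eq_sub, ← sub_smul, norm_smul, Real.norm_eq_abs, abs_sub_comm,
        abs_of_nonneg (by linarith)]
      refine (mul_le_of_le_one_right (by linarith) he).trans ?_
      linarith
    linarith [cls1_har hP (mul_pos hc s0) h5 h6, ih s le_rfl s1]

/-- a Hopf type lemma -/
theorem Geo.hopf (G : Geo D Φ) : ∃ c > 0, ∃ α ≥ (1 : ℝ), ∀ f : E n → ℂ, DifferentiableOn ℂ f D →
    MapsTo f D (ball 0 1) → f 0 = 0 → ∀ z ∈ D, c * dep D z ^ α ≤ 1 - ‖f z‖ := by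
  obtain ⟨c₀, hc₀, t₀, ht₀, H⟩ := G.cone
  set c := min c₀ 1 with hcdef
  have hc : 0 < c := lt_min hc₀ one_pos
  have hc1 : c ≤ 1 := min_le_right _ _
  have hq : 0 < 1 - c / 2 := by linarith
  obtain ⟨hK, hKD⟩ := isCompact_deep G.bdd G.ne_univ (mul_pos hc ht₀)
  obtain ⟨m, hm, Hm⟩ := cls1_deep G.isOpen G.conn G.zero hK hKD
  obtain ⟨a, ha⟩ := exists_pow_lt_of_lt_one (by norm_num : (0 : ℝ) < 1 / 3)
    (by linarith : 1 - c / 2 < 1)
  have ha' : (1 - c / 2) ^ (a + 1) ≤ 1 / 3 := by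
    rw [pow_succ]
    exact (mul_le_of_le_one_right (by positivity) (by linarith)).trans ha.le
  obtain ⟨w, hw⟩ := (ne_univ_iff_exists_notMem D).1 G.ne_univ
  obtain ⟨B, hB, hDB⟩ := G.bdd.exists_pos_norm_le
  set T := max (8 * t₀) (B + ‖w‖) with hT
  have hT0 : 0 < T := lt_max_of_lt_left (by positivity)
  refine ⟨m / 3 / T ^ (a + 1), by positivity, ((a + 1 : ℕ) : ℝ), by simp, fun f hf hmaps f0 z hz => ?_⟩
  obtain ⟨u, hu, hfu⟩ := exists_norm_eq_mul_self (f z)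
  have hP : cls1P D fun x => 1 - u * f x := by
    refine ⟨(differentiableOn_const 1).sub (hf.const_mul u), fun x hx => ?_⟩
    have h1 := re_le_norm (u * f x)
    rw [norm_mul, hu, one_mul] at h1
    have h2 := mem_ball_zero_iff.1 (hmaps hx)
    simp only [sub_re, one_re]
    linarith
  have hm' : ∀ y, c * t₀ ≤ dep D y → m ≤ (1 - u * f y).re := fun y hy => by
    simpa [f0] using Hm y hy _ hP
  have hd : 0 < dep D z := (dep_pos_iff G.isOpen G.ne_univ).2 hz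
  have hgoal : 1 - ‖f z‖ = (1 - u * f z).re := by
    rw [← hfu]
    simp
  rw [hgoal, Real.rpow_natCast, div_mul_eq_mul_div, mul_div_assoc, ← div_pow]
  set d := dep D z with hddef
  rcases le_total d t₀ with h1 | h1
  · obtain ⟨e, he, He⟩ := H z hz h1
    have He' : ∀ t ∈ Icc (0 : ℝ) t₀, c * t ≤ dep D (z + t • e) := fun t ht =>
      (mul_le_mul_of_nonneg_right (min_le_left _ _) ht.1).trans (He t ht).2
    obtain ⟨k, k1, k2⟩ := exists_nat_pow_near_of_lt_one (by positivity : 0 < d / 4 / t₀)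
      (by rw [div_le_one ht₀]; linarith) hq (by linarith)
    have h2 := cls1_cone hP he hc hc1 ht₀ He' hm.le (hm' _ (He' t₀ ⟨ht₀.le, le_rfl⟩)) (k + 1)
      (d / 4) ((lt_div_iff₀ ht₀).1 k1).le (by linarith)
    have h3 : ‖(d / 4) • e‖ ≤ d / 4 := by
      rw [norm_smul, Real.norm_of_nonneg (by positivity)]
      exact mul_le_of_le_one_right (by positivity) he
    have h4 : ball (z + (d / 4) • e) (d / 2) ⊆ D := by
      refine (ball_subset_ball' ?_).trans (ball_dep_subset z)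
      rw [dist_eq_norm, add_sub_cancel_left]
      linarith
    have h5 := cls1_har hP (half_pos hd) h4 (y := z) (by
      rw [norm_sub_rev, add_sub_cancel_left]
      linarith)
    have h6 : d / T ≤ (1 - c / 2) ^ (k + 1) := by
      have b1 : d / T ≤ d / (8 * t₀) := by gcongr; exact le_max_left _ _
      have b2 : d / (8 * t₀) = d / 4 / t₀ * (1 / 2) := by field_simp; norm_num
      rw [pow_succ]
      refine b1.trans (b2.le.trans ?_)
      exact mul_le_mul k2 (by linarith) (by norm_num) (by positivity)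
    have h7 : (d / T) ^ (a + 1) ≤ 1 / 3 ^ (k + 1) := by
      calc (d / T) ^ (a + 1) ≤ ((1 - c / 2) ^ (k + 1)) ^ (a + 1) := by gcongr
        _ = ((1 - c / 2) ^ (a + 1)) ^ (k + 1) := by rw [← pow_mul, ← pow_mul, mul_comm]
        _ ≤ (1 / 3) ^ (k + 1) := by gcongr
        _ = 1 / 3 ^ (k + 1) := by rw [one_div_pow]
    have h8 : m / 3 * (d / T) ^ (a + 1) ≤ m / 3 * (1 / 3 ^ (k + 1)) := by gcongr
    have h9 : m / 3 * (1 / 3 ^ (k + 1)) = m / 3 ^ (k + 1) / 3 := by ring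
    linarith
  · have h2 := hm' z ((mul_le_of_le_one_left ht₀.le hc1).trans h1)
    have h3 : d ≤ T := by
      refine le_trans ?_ (le_max_right _ _)
      refine (infDist_le_dist_of_mem (show w ∈ Dᶜ from hw)).trans ?_
      rw [dist_eq_norm]
      linarith [norm_sub_le z w, hDB z hz]
    have h4 : (d / T) ^ (a + 1) ≤ 1 := pow_le_one₀ (by positivity) ((div_le_one hT0).2 h3)
    have h5 : m / 3 * (d / T) ^ (a + 1) ≤ m / 3 := mul_le_of_le_one_right (by positivity) h4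
    linarith

/-- boundary values lie in the dual complement -/
theorem Adm.xi_mem (hD : IsOpen D) (hh : Adm D h) (hc : DiffContOnCl ℂ h (ball 0 1)) {ω : ℂ}
    (hω : ω ∈ sphere (0 : ℂ) 1) : xi h ω ∈ Kd D := by
  intro z hz he
  have hn := mem_sphere_zero_iff_norm.1 hω
  have hω0 : ω ≠ 0 := by
    rintro rfl
    simp at hn
  have h1 : dot z (h ω) = ω := by
    rw [xi, dot_smul_right] at he
    field_simp at he
    exact he
  have hv : h ω ≠ 0 := fun h0 => hω0 (by rw [← h1, h0, dot_zero_right])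
  have hcl : ω ∈ closure (ball (0 : ℂ) 1) := by
    rw [closure_ball _ one_ne_zero]
    exact sphere_subset_closedBall hω
  have := mem_closure_iff_nhdsWithin_neBot.1 hcl
  have t1 : Tendsto h (𝓝[ball 0 1] ω) (𝓝 (h ω)) := (hc.2 ω hcl).mono subset_closure
  have t0 : Tendsto (fun w : ℂ => w) (𝓝[ball 0 1] ω) (𝓝 ω) := tendsto_nhdsWithin_of_tendsto_nhds tendsto_id
  have t2 : Tendsto (fun w => z + ((w - dot z (h w)) / ((‖h w‖ ^ 2 : ℝ) : ℂ)) • cj (h w))
      (𝓝[ball 0 1] ω) (𝓝 z) := by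
    have a1 := (t0.sub (tendsto_dot (tendsto_const_nhds (x := z)) t1)).div
      ((continuous_ofReal.tendsto _).comp (t1.norm.pow 2))
      (ofReal_ne_zero.2 (pow_ne_zero 2 (norm_ne_zero_iff.2 hv)))
    have a2 := (a1.smul ((continuous_cj.tendsto _).comp t1)).const_add z
    rw [h1, sub_self, zero_div, zero_smul, add_zero] at a2
    exact a2
  have t3 := (cls1_cont hD hh hz).tendsto.comp t2
  have t4 : F h z = ω := by
    refine tendsto_nhds_unique t3 (t0.congr' ?_)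
    filter_upwards [self_mem_nhdsWithin, t2.eventually (hD.mem_nhds hz),
      t1.eventually (isOpen_ne.mem_nhds hv)] with w a1 a2 a3
    refine (hh.F_unique a2 a1 ?_).symm
    rw [dot_add_left, cls1_solve a3, add_sub_cancel]
  have := mem_ball_zero_iff.1 (hh.F_spec hz).1
  rw [t4, hn] at this
  exact lt_irrefl _ this

theorem Q_nonneg (P : Par) (h : ℂ → E n) : 0 ≤ Q P h := by
  exact add_nonneg (mul_nonneg P.hΛ (N2_nonneg _ _)) (N2_nonneg _ _)

theorem Q_le (P : Par) {Rh : ℝ} (hb : ∀ ω ∈ ball (0 : ℂ) 1, ‖h ω‖ ≤ Rh)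
    (hd : DifferentiableOn ℂ h (ball 0 1)) : Q P h ≤ (P.Λ + 1) * Rh ^ 2 := by
  have key : ∀ ρ : ℝ, 0 < ρ ∧ ρ < 1 → N2 ρ h ≤ Rh ^ 2 := fun ρ hρ => by
    have hs := cls1_sph hρ.1 hρ.2
    refine Real.circleAverage_mono_on_of_le_circle
      (((hd.continuousOn.mono hs).norm.pow 2).circleIntegrable hρ.1.le) fun w hw => ?_
    rw [abs_of_pos hρ.1] at hw
    exact pow_le_pow_left₀ (norm_nonneg _) (hb w (hs hw)) 2
  have h1 := mul_le_mul_of_nonneg_left (key _ (cls1_s P)) P.hΛ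
  have h2 := key _ (cls1_r P)
  unfold Q
  linarith

theorem Q_add (P : Par) {η : ℂ → E n} (hd : DifferentiableOn ℂ h (ball 0 1))
    (hη : DifferentiableOn ℂ η (ball 0 1)) : Q P (h + η) = Q P h + (Lq P h η).re + Q P η := by
  have key : ∀ ρ : ℝ, 0 < ρ ∧ ρ < 1 → N2 ρ (h + η) = N2 ρ h + 2 * (ip ρ η h).re + N2 ρ η := by
    intro ρ hρ
    have hs := cls1_sph hρ.1 hρ.2
    have c1 := hd.continuousOn.mono hs
    have c2 := hη.continuousOn.mono hs
    have c3 : ContinuousOn (fun w => dot (η w) (cj (h w))) (sphere 0 ρ) :=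
      contOn_dot c2 (continuous_cj.comp_continuousOn c1)
    have i1 : CircleIntegrable (fun w => ‖h w‖ ^ 2) 0 ρ := (c1.norm.pow 2).circleIntegrable hρ.1.le
    have i2 : CircleIntegrable (fun w => ‖η w‖ ^ 2) 0 ρ := (c2.norm.pow 2).circleIntegrable hρ.1.le
    have i3 : CircleIntegrable (fun w => (2 : ℝ) • (dot (η w) (cj (h w))).re) 0 ρ :=
      ((continuous_re.comp_continuousOn c3).const_smul (2 : ℝ)).circleIntegrable hρ.1.le
    have e1 : (ip ρ η h).re = Real.circleAverage (fun w => (dot (η w) (cj (h w))).re) 0 ρ :=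
      (reCLM.circleAverage_comp_comm (c3.circleIntegrable hρ.1.le)).symm
    have i4 : CircleIntegrable
        (fun w => ‖h w‖ ^ 2 + (2 : ℝ) • (dot (η w) (cj (h w))).re) 0 ρ := i1.add i3
    unfold N2
    rw [e1, ← smul_eq_mul, ← Real.circleAverage_fun_smul, ← Real.circleAverage_fun_add i1 i3,
      ← Real.circleAverage_fun_add i4 i2]
    congr 1
    funext w
    rw [Pi.add_apply, norm_add_sq (𝕜 := ℂ), dot_cj_right]
    simp
  unfold Q Lq
  rw [key _ (cls1_s P), key _ (cls1_r P)]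
  simp only [mul_re, add_re, re_ofNat, im_ofNat, ofReal_re, ofReal_im, zero_mul, sub_zero]
  ring

/-- `Lq` only depends on the values on the two circles and is bounded -/
theorem norm_Lq_le (P : Par) {η : ℂ → E n} {Rh B : ℝ} (hb : ∀ ω ∈ ball (0 : ℂ) 1, ‖h ω‖ ≤ Rh)
    (hB : ∀ ω : ℂ, ‖ω‖ = P.s ∨ ‖ω‖ = P.r → ‖η ω‖ ≤ B) :
    ‖Lq P h η‖ ≤ 2 * (P.Λ + 1) * Rh * B := by
  have key : ∀ ρ : ℝ, 0 < ρ ∧ ρ < 1 → (∀ ω : ℂ, ‖ω‖ = ρ → ‖η ω‖ ≤ B) → ‖ip ρ η h‖ ≤ Rh * B := by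
    intro ρ hρ H
    have h1 := intervalIntegral.norm_integral_le_of_norm_le_const (a := 0) (b := 2 * Real.pi)
      (f := fun θ => dot (η (circleMap 0 ρ θ)) (cj (h (circleMap 0 ρ θ)))) (C := Rh * B)
      fun θ _ => by
        have hw := circleMap_mem_sphere 0 hρ.1.le θ
        have a1 := H _ (mem_sphere_zero_iff_norm.1 hw)
        have a2 := hb _ (cls1_sph hρ.1 hρ.2 hw)
        refine (norm_dot_le _ _).trans ?_
        rw [norm_cj, mul_comm]
        exact mul_le_mul a2 a1 (norm_nonneg _) ((norm_nonneg _).trans a2)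
    rw [ip, Real.circleAverage_def, norm_smul, Real.norm_eq_abs,
      abs_of_pos (inv_pos.2 Real.two_pi_pos), inv_mul_le_iff₀ Real.two_pi_pos]
    rw [sub_zero, abs_of_pos Real.two_pi_pos] at h1
    linarith
  have h1 := key _ (cls1_s P) fun ω hω => hB ω (Or.inl hω)
  have h2 := key _ (cls1_r P) fun ω hω => hB ω (Or.inr hω)
  have h3 := norm_add_le ((P.Λ : ℂ) * ip P.s η h) (ip P.r η h)
  rw [norm_mul, Complex.norm_real, Real.norm_of_nonneg P.hΛ] at h3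
  have h4 := mul_le_mul_of_nonneg_left h1 P.hΛ
  rw [Lq, norm_mul, Complex.norm_ofNat]
  linarith

end Pool.Agent.MP_4baaa2_an.H94

/-!
Compactness of the class of admissible discs and consequences.
-/

namespace Pool.Agent.MP_4baaa2_an.H94

open Set Metric Filter Topology Complex
open scoped ComplexConjugate
open Pool.Agent.Lib.PlaneTop

variable {n : ℕ}

variable {D : Set (E n)} {Φ : E n → E n → ℂ}

theorem cls2_tlu_iff {ι β : Type*} [UniformSpace β] {l : Filter ι} {g : ι → ℂ → β} {g₀ : ℂ → β}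
    {W : Set ℂ} (hc : ContinuousOn g₀ W) : TendstoLocallyUniformlyOn g g₀ l W ↔
      ∀ x ∈ W, Tendsto (fun y : ι × ℂ => g y.1 y.2) (l ×ˢ 𝓝[W] x) (𝓝 (g₀ x)) := by
  rw [tendstoLocallyUniformlyOn_iff_forall_tendsto]
  refine forall₂_congr fun x hx => ?_
  have h1 : Tendsto (fun y : ι × ℂ => g₀ y.2) (l ×ˢ 𝓝[W] x) (𝓝 (g₀ x)) :=
    (hc x hx).tendsto.comp tendsto_snd
  exact ⟨fun h => h1.congr_uniformity h,
    fun h => (h1.prodMk_nhds h).mono_right (nhds_le_uniformity _)⟩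

theorem cls2_tlu_dot {ι : Type*} {l : Filter ι} {g : ι → ℂ → E n} {g₀ : ℂ → E n} {W : Set ℂ}
    (hc : ContinuousOn g₀ W) (hg : TendstoLocallyUniformlyOn g g₀ l W) {p : ι → E n} {p₀ : E n}
    (hp : Tendsto p l (𝓝 p₀)) : TendstoLocallyUniformlyOn (fun k w => 1 - dot (p k) (g k w))
      (fun w => 1 - dot p₀ (g₀ w)) l W := by
  rw [cls2_tlu_iff (by fun_prop)]
  intro x hx
  exact (tendsto_dot (hp.comp tendsto_fst) ((cls2_tlu_iff hc).1 hg x hx)).const_sub 1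

theorem cls2_comp {ι β : Type*} [UniformSpace β] {l : Filter ι} {g : ι → ℂ → β} {g₀ : ℂ → β}
    (hc : ContinuousOn g₀ (ball 0 1)) (hg : TendstoLocallyUniformlyOn g g₀ l (ball 0 1))
    {a : ι → ℂ} {a₀ : ℂ} (ha : Tendsto a l (𝓝 a₀)) (ha₀ : a₀ ∈ ball (0 : ℂ) 1) :
    Tendsto (fun k => g k (a k)) l (𝓝 (g₀ a₀)) :=
  hg.tendsto_comp (hc a₀ ha₀) ha₀ (by rwa [isOpen_ball.nhdsWithin_eq ha₀])

theorem cls2_dslope_diff {h : ℂ → E n} (hh : DifferentiableOn ℂ h (ball 0 1)) {ζ : ℂ}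
    (hζ : ζ ∈ ball (0 : ℂ) 1) : DifferentiableOn ℂ (dslope h ζ) (ball 0 1) :=
  (differentiableOn_dslope (isOpen_ball.mem_nhds hζ)).2 hh

theorem cls2_O_diff {h : ℂ → E n} (hh : DifferentiableOn ℂ h (ball 0 1)) (z : E n) {ζ : ℂ}
    (hζ : ζ ∈ ball (0 : ℂ) 1) : DifferentiableOn ℂ (O h z ζ) (ball 0 1) :=
  (diffOn_dot (differentiableOn_const z) (cls2_dslope_diff hh hζ)).const_sub 1

/-- near a point of `D` the zero stays in a smaller disc, uniformly -/
theorem Pre.cls2_small (G : Pre D) {z : E n} (hz : z ∈ D) : ∃ ρ < (1 : ℝ), ∀ᶠ z' in 𝓝 z,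
    z' ∈ D ∧ ∀ h, Adm D h → ‖F h z'‖ ≤ ρ := by
  obtain ⟨r, hr, hsub⟩ := nhds_basis_closedBall.mem_iff.1 (G.isOpen.mem_nhds hz)
  obtain ⟨m, hm, Hm⟩ := cls1_deep G.isOpen G.conn G.zero (isCompact_closedBall z r) hsub
  refine ⟨1 - m, by linarith, ?_⟩
  filter_upwards [closedBall_mem_nhds z hr] with y hy
  refine ⟨hsub hy, fun k hk => ?_⟩
  obtain ⟨u, hu, hfu⟩ := exists_norm_eq_mul_self (F k y)
  have hP : cls1P D fun x => 1 - u * F k x := by
    refine ⟨(differentiableOn_const 1).sub ((hk.F_diff G.isOpen).const_mul u), fun x hx => ?_⟩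
    have h1 := re_le_norm (u * F k x)
    rw [norm_mul, hu, one_mul] at h1
    have h2 := mem_ball_zero_iff.1 (hk.F_spec hx).1
    simp only [sub_re, one_re]
    linarith
  have h3 := Hm y hy _ hP
  simp only [hk.F_zero G.zero, ← hfu, mul_zero, sub_zero, one_re, mul_one, sub_re, ofReal_re] at h3
  linarith

theorem Pre.cls2_zeta (G : Pre D) {ι : Type*} (𝒰 : Ultrafilter ι) {h : ι → ℂ → E n}
    {h₀ : ℂ → E n} (hh : ∀ᶠ k in (𝒰 : Filter ι), Adm D (h k))
    (h0 : DifferentiableOn ℂ h₀ (ball 0 1))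
    (hlim : TendstoLocallyUniformlyOn h h₀ 𝒰 (ball 0 1)) {p : ι → E n} {p₀ : E n}
    (hp : Tendsto p 𝒰 (𝓝 p₀)) (hp₀ : p₀ ∈ D) : ∃ ζ ∈ ball (0 : ℂ) 1, dot p₀ (h₀ ζ) = ζ ∧
      Tendsto (fun k => F (h k) (p k)) 𝒰 (𝓝 ζ) := by
  obtain ⟨ρ, hρ, H⟩ := G.cls2_small hp₀
  have h1 := hp.eventually H
  obtain ⟨ζ, hζ, h2⟩ := (isCompact_closedBall (0 : ℂ) ρ).ultrafilter_le_nhds
    (𝒰.map fun k => F (h k) (p k)) (by
      rw [le_principal_iff, Ultrafilter.coe_map, mem_map]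
      filter_upwards [h1, hh] with k hk hk'
      exact mem_closedBall_zero_iff.2 (hk.2 _ hk'))
  have hζ' : ζ ∈ ball (0 : ℂ) 1 := closedBall_subset_ball hρ hζ
  have h3 : Tendsto (fun k => F (h k) (p k)) 𝒰 (𝓝 ζ) := h2
  refine ⟨ζ, hζ', tendsto_nhds_unique_of_eventuallyEq
    (tendsto_dot hp (cls2_comp h0.continuousOn hlim h3 hζ')) h3 ?_, h3⟩
  filter_upwards [h1, hh] with k hk hk'
  exact (hk'.F_spec hk.1).2.1

theorem cls2_O_tendsto {ι : Type*} {l : Filter ι} {h : ι → ℂ → E n} {h₀ : ℂ → E n}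
    (hh : ∀ᶠ k in l, Adm D (h k)) (h0 : DifferentiableOn ℂ h₀ (ball 0 1))
    (hlim : TendstoLocallyUniformlyOn h h₀ l (ball 0 1)) {p : ι → E n} {p₀ : E n}
    (hp : Tendsto p l (𝓝 p₀)) {a : ι → ℂ} {ζ : ℂ} (ha : Tendsto a l (𝓝 ζ))
    (hζ : ζ ∈ ball (0 : ℂ) 1) :
    TendstoLocallyUniformlyOn (fun k => O (h k) (p k) (a k)) (O h₀ p₀ ζ) l (ball 0 1) :=
  cls2_tlu_dot (cls2_dslope_diff h0 hζ).continuousOn
    (dslope_tendsto (hh.mono fun _ hk => hk.1) h0 hlim ha hζ) hp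

theorem Pre.adm_limit (G : Pre D) {ι : Type*} (𝒰 : Ultrafilter ι) {h : ι → ℂ → E n}
    (hh : ∀ᶠ k in (𝒰 : Filter ι), Adm D (h k)) :
    ∃ h₀, Adm D h₀ ∧ TendstoLocallyUniformlyOn h h₀ 𝒰 (ball 0 1) := by
  obtain ⟨Rh, -, hR⟩ := adm_bound G.isOpen G.zero
  obtain ⟨h₀, h0, hlim⟩ := montel 𝒰 isOpen_ball (hh.mono fun _ hk => hk.1)
    fun x _ => ⟨1, one_pos, Rh, hh.mono fun k hk y hy => hR _ hk y hy.2⟩
  refine ⟨h₀, ⟨h0, fun z hz => ?_⟩, hlim⟩
  obtain ⟨ζ, hζ, h1, h2⟩ := G.cls2_zeta 𝒰 hh h0 hlim tendsto_const_nhds hz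
  refine ⟨ζ, hζ, h1, ?_⟩
  have h3 := cls2_O_tendsto hh h0 hlim (tendsto_const_nhds (x := z)) h2 hζ
  obtain ⟨ρ, hρ, H⟩ := G.cls2_small hz
  obtain ⟨t, ht0, ht1⟩ := exists_between (max_lt hρ one_pos)
  have ht : 0 < t := (le_max_right _ _).trans_lt ht0
  have hn : ‖(t : ℂ)‖ = t := by rw [Complex.norm_real, Real.norm_of_nonneg ht.le]
  have hw : (t : ℂ) ∈ ball (0 : ℂ) 1 := by rw [mem_ball_zero_iff, hn]; exact ht1
  refine hurwitz isOpen_ball (convex_ball _ _).isPreconnected (hh.mono fun k hk =>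
    ⟨cls2_O_diff hk.1 z (hk.F_spec hz).1, (hk.F_spec hz).2.2⟩) h3 hw fun hO => ?_
  have h4 := W_eq h₀ z h1 t
  rw [hO, mul_zero] at h4
  have h5 : h₀ t ≠ 0 := fun h => by
    rw [h, dot_zero_right, sub_zero] at h4
    exact ht.ne' (by exact_mod_cast h4)
  have h6 : Tendsto (fun k => h k t) 𝒰 (𝓝 (h₀ t)) := hlim.tendsto_at hw
  have h7 : ContinuousAt (fun x : E n =>
      z + (((t : ℂ) - dot z x) / ((‖x‖ ^ 2 : ℝ) : ℂ)) • cj x) (h₀ t) := by
    have a1 : ContinuousAt (fun x : E n => (t : ℂ) - dot z x) (h₀ t) := by fun_prop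
    have a2 : ContinuousAt (fun x : E n => ((‖x‖ ^ 2 : ℝ) : ℂ)) (h₀ t) := by fun_prop
    refine continuousAt_const.add ((a1.div a2 ?_).smul continuous_cj.continuousAt)
    exact_mod_cast pow_ne_zero 2 (norm_ne_zero_iff.2 h5)
  have h8 := h7.tendsto.comp h6
  rw [h4, zero_div, zero_smul, add_zero] at h8
  obtain ⟨k, hk1, hk2, hk3⟩ := ((h8.eventually H).and (hh.and (h6.eventually_ne h5))).exists
  have h9 := hk1.2 _ hk2
  rw [hk2.F_unique hk1.1 hw, hn] at h9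
  · exact absurd ((le_max_left _ _).trans_lt ht0) (not_lt.2 h9)
  · have h10 : ((‖h k t‖ ^ 2 : ℝ) : ℂ) ≠ 0 := by
      exact_mod_cast pow_ne_zero 2 (norm_ne_zero_iff.2 hk3)
    rw [Function.comp_apply, dot_add_left, dot_smul_left, dot_comm (cj _), dot_cj_self,
      div_mul_cancel₀ _ h10, add_sub_cancel]

theorem Pre.F_tendsto (G : Pre D) {ι : Type*} {l : Filter ι} {h : ι → ℂ → E n} {h₀ : ℂ → E n}
    (hh : ∀ᶠ k in l, Adm D (h k)) (h0 : Adm D h₀)
    (hlim : TendstoLocallyUniformlyOn h h₀ l (ball 0 1)) {p : ι → E n} {p₀ : E n}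
    (hp : Tendsto p l (𝓝 p₀)) (hp₀ : p₀ ∈ D) :
    Tendsto (fun k => F (h k) (p k)) l (𝓝 (F h₀ p₀)) := by
  rw [tendsto_iff_ultrafilter]
  intro 𝒰 hU
  obtain ⟨ζ, hζ, h1, h2⟩ := G.cls2_zeta 𝒰 (hU hh) h0.1 (fun u hu x hx =>
    (hlim u hu x hx).imp fun _ ht => ⟨ht.1, hU ht.2⟩) (hp.mono_left hU) hp₀
  rwa [h0.F_unique hp₀ hζ h1]

theorem cls2_N2_tendsto {ρ : ℝ} (h1 : 0 < ρ) (h2 : ρ < 1) {ι : Type*} {l : Filter ι}
    {h : ι → ℂ → E n} {h₀ : ℂ → E n} (hh : ∀ᶠ k in l, DifferentiableOn ℂ (h k) (ball 0 1))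
    (h0 : DifferentiableOn ℂ h₀ (ball 0 1))
    (hlim : TendstoLocallyUniformlyOn h h₀ l (ball 0 1)) :
    Tendsto (fun k => N2 ρ (h k)) l (𝓝 (N2 ρ h₀)) := by
  have hs : sphere (0 : ℂ) ρ ⊆ ball 0 1 := sphere_subset_closedBall.trans
    (closedBall_subset_ball h2)
  have h3 : TendstoLocallyUniformlyOn (fun k w => ‖h k w‖ ^ 2) (fun w => ‖h₀ w‖ ^ 2) l
      (ball 0 1) := by
    exact (cls2_tlu_iff (h0.continuousOn.norm.pow 2)).2 fun x hx =>
      ((cls2_tlu_iff h0.continuousOn).1 hlim x hx).norm.pow 2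
  have h4 := (tendstoLocallyUniformlyOn_iff_forall_isCompact isOpen_ball).1 h3 _ hs
    (isCompact_sphere _ _)
  rw [Metric.tendsto_nhds]
  intro ε hε
  filter_upwards [hh, Metric.tendstoUniformlyOn_iff.1 h4 (ε / 2) (by positivity)] with k hk hk'
  have i1 : CircleIntegrable (fun w => ‖h k w‖ ^ 2) 0 ρ :=
    ((hk.continuousOn.mono hs).norm.pow 2).circleIntegrable h1.le
  have i2 : CircleIntegrable (fun w => ‖h₀ w‖ ^ 2) 0 ρ :=
    ((h0.continuousOn.mono hs).norm.pow 2).circleIntegrable h1.le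
  have a1 := Real.circleAverage_mono_on_of_le_circle (a := ε / 2)
    (f := fun w => ‖h k w‖ ^ 2 - ‖h₀ w‖ ^ 2) (i1.sub i2) fun w hw => by
      rw [abs_of_pos h1] at hw
      have := abs_lt.1 ((Real.dist_eq _ _).symm.trans_lt (hk' w hw))
      linarith [this.1]
  have a2 := Real.circleAverage_mono_on_of_le_circle (a := ε / 2)
    (f := fun w => ‖h₀ w‖ ^ 2 - ‖h k w‖ ^ 2) (i2.sub i1) fun w hw => by
      rw [abs_of_pos h1] at hw
      have := abs_lt.1 ((Real.dist_eq _ _).symm.trans_lt (hk' w hw))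
      linarith [this.2]
  rw [Real.circleAverage_fun_sub i1 i2] at a1
  rw [Real.circleAverage_fun_sub i2 i1] at a2
  rw [Real.dist_eq, abs_lt]
  unfold N2
  constructor <;> linarith

theorem Q_tendsto (P : Par) {ι : Type*} {l : Filter ι} {h : ι → ℂ → E n} {h₀ : ℂ → E n}
    (hh : ∀ᶠ k in l, DifferentiableOn ℂ (h k) (ball 0 1))
    (h0 : DifferentiableOn ℂ h₀ (ball 0 1))
    (hlim : TendstoLocallyUniformlyOn h h₀ l (ball 0 1)) :
    Tendsto (fun k => Q P (h k)) l (𝓝 (Q P h₀)) := by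
  exact ((cls2_N2_tendsto P.hs (P.hsr.trans P.hr) hh h0 hlim).const_mul P.Λ).add
    (cls2_N2_tendsto (P.hs.trans P.hsr) P.hr hh h0 hlim)

/-- uniform two sided bounds for the factor `O` -/
theorem Pre.O_bounds (G : Pre D) {δ ρ : ℝ} (hδ : 0 < δ) (hρ : ρ < 1) :
    ∃ C ≥ (1 : ℝ), ∀ h, Adm D h → ∀ z, δ ≤ dep D z → ∀ ω : ℂ, ‖ω‖ ≤ ρ →
      C⁻¹ ≤ ‖O h z (F h z) ω‖ ∧ ‖O h z (F h z) ω‖ ≤ C := by
  by_contra hcon
  have h1 : ∀ m : ℕ, ∃ h, Adm D h ∧ ∃ z, δ ≤ dep D z ∧ ∃ ω : ℂ, ‖ω‖ ≤ ρ ∧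
      ¬ (((m : ℝ) + 1)⁻¹ ≤ ‖O h z (F h z) ω‖ ∧ ‖O h z (F h z) ω‖ ≤ (m : ℝ) + 1) := by
    intro m
    by_contra h2
    refine hcon ⟨(m : ℝ) + 1, by linarith [Nat.cast_nonneg (α := ℝ) m], fun h hh z hz ω hω => ?_⟩
    by_contra h3
    exact h2 ⟨h, hh, z, hz, ω, hω, h3⟩
  choose h hh z hz ω hω hbad using h1
  obtain ⟨hK, hKD⟩ := isCompact_deep G.bdd G.ne_univ hδ
  obtain ⟨h₀, h0, hlim⟩ := G.adm_limit (hyperfilter ℕ) (Eventually.of_forall hh)
  obtain ⟨z₀, hz₀, h2⟩ := hK.ultrafilter_le_nhds ((hyperfilter ℕ).map z)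
    (le_principal_iff.2 (mem_map.2 (Eventually.of_forall hz)))
  obtain ⟨ω₀, hω₀, h3⟩ := (isCompact_closedBall (0 : ℂ) ρ).ultrafilter_le_nhds
    ((hyperfilter ℕ).map ω) (le_principal_iff.2 (mem_map.2 (Eventually.of_forall fun m =>
      mem_closedBall_zero_iff.2 (hω m))))
  have hω₁ : ω₀ ∈ ball (0 : ℂ) 1 := closedBall_subset_ball hρ hω₀
  have hs := h0.F_spec (hKD hz₀)
  have h4 := G.F_tendsto (Eventually.of_forall hh) h0 hlim h2 (hKD hz₀)
  have h5 := (cls2_comp (cls2_O_diff h0.1 z₀ hs.1).continuousOn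
    (cls2_O_tendsto (Eventually.of_forall hh) h0.1 hlim h2 h4 hs.1) h3 hω₁).norm
  have h6 : 0 < ‖O h₀ z₀ (F h₀ z₀) ω₀‖ := norm_pos_iff.2 (hs.2.2 ω₀ hω₁)
  have h7 : Tendsto (fun m : ℕ => (m : ℝ) + 1) (hyperfilter ℕ) atTop :=
    (tendsto_atTop_add_const_right _ 1 tendsto_natCast_atTop_atTop).mono_left
      Nat.hyperfilter_le_atTop
  have h8 := h7.inv_tendsto_atTop.eventually_lt h5 h6
  have h9 := (h5.eventually (gt_mem_nhds (lt_add_one _))).and (h7.eventually_ge_atTop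
    (‖O h₀ z₀ (F h₀ z₀) ω₀‖ + 1))
  obtain ⟨m, hm1, hm2, hm3⟩ := (h8.and h9).exists
  exact hbad m ⟨hm1.le, hm2.le.trans hm3⟩

theorem cls2_V_le (P : Par) {ε : ℝ} (hε : 0 ≤ ε) (p : E n) (h : ℂ → E n) :
    V P ε p h ≤ ‖F h p‖ :=
  mul_le_of_le_one_right (norm_nonneg _) (Real.exp_le_one_iff.2
    (neg_nonpos.2 (mul_nonneg hε (Q_nonneg P h))))

theorem Pre.cls2_ne (G : Pre D) : {h : ℂ → E n | Adm D h}.Nonempty := by
  obtain ⟨c, hc, H⟩ := const_adm G.bdd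
  exact ⟨_, (H 0 (by simpa using hc.le)).1⟩

theorem cls2_F_lt {h : ℂ → E n} (hh : Adm D h) {p : E n} (hp : p ∈ D) : ‖F h p‖ < 1 :=
  mem_ball_zero_iff.1 (hh.F_spec hp).1

theorem Pre.max_exists (G : Pre D) (P : Par) {ε : ℝ} (hε : 0 ≤ ε) {p : E n} (hp : p ∈ D) :
    ∃ h, IsMax D P ε p h := by
  have hb : BddAbove (V P ε p '' {h | Adm D h}) := ⟨1, by
    rintro _ ⟨h, hh, rfl⟩
    exact (cls2_V_le P hε p h).trans (cls2_F_lt hh hp).le⟩
  obtain ⟨u, -, hu, hm⟩ := exists_seq_tendsto_sSup (G.cls2_ne.image _) hb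
  choose h hh he using hm
  obtain ⟨h₀, h0, hlim⟩ := G.adm_limit (hyperfilter ℕ) (Eventually.of_forall hh)
  have h1 := G.F_tendsto (Eventually.of_forall hh) h0 hlim tendsto_const_nhds hp
  have h2 := Q_tendsto P (Eventually.of_forall fun k => (hh k).1) h0.1 hlim
  have h3 : Tendsto (fun k => V P ε p (h k)) (hyperfilter ℕ) (𝓝 (V P ε p h₀)) :=
    h1.norm.mul (h2.const_mul ε).neg.rexp
  rw [funext he] at h3
  refine ⟨h₀, h0, fun h' hh' => ?_⟩
  rw [tendsto_nhds_unique h3 (hu.mono_left Nat.hyperfilter_le_atTop)]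
  exact le_csSup hb ⟨h', hh', rfl⟩

theorem IsMax.U_eq {P : Par} {ε : ℝ} {p : E n} {h : ℂ → E n} (hh : IsMax D P ε p h) :
    U D P ε p = V P ε p h := by
  refine IsGreatest.csSup_eq ⟨⟨h, hh.1, rfl⟩, ?_⟩
  rintro _ ⟨h', hh', rfl⟩
  exact hh.2 h' hh'

theorem U_zero (D : Set (E n)) (P : Par) (p : E n) : U D P 0 p = U0 D p := by
  have : V P 0 p = fun h => ‖F h p‖ := funext fun h => by simp [V]
  rw [U, U0, this]

theorem Pre.le_U0 (G : Pre D) {h : ℂ → E n} (hh : Adm D h) {p : E n} (hp : p ∈ D) :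
    ‖F h p‖ ≤ U0 D p := by
  have _ := G.zero
  refine le_csSup ⟨1, ?_⟩ ⟨h, hh, rfl⟩
  rintro _ ⟨h', hh', rfl⟩
  exact (cls2_F_lt hh' hp).le

theorem Pre.U0_lt_one (G : Pre D) {p : E n} (hp : p ∈ D) : U0 D p < 1 := by
  obtain ⟨ρ, hρ, H⟩ := G.cls2_small hp
  refine lt_of_le_of_lt (csSup_le (G.cls2_ne.image _) ?_) hρ
  rintro _ ⟨h, hh, rfl⟩
  exact H.self_of_nhds.2 h hh

theorem Pre.U_compare (G : Pre D) (P : Par) : ∃ B > 0, (∀ h, Adm D h → Q P h ≤ B) ∧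
    ∀ ε ≥ (0 : ℝ), ∀ p ∈ D,
      U0 D p * Real.exp (-(ε * B)) ≤ U D P ε p ∧ U D P ε p ≤ U0 D p := by
  obtain ⟨Rh, hR0, hR⟩ := adm_bound G.isOpen G.zero
  have hΛ := P.hΛ
  have hB : ∀ h, Adm D h → Q P h ≤ (P.Λ + 1) * Rh ^ 2 := fun h hh => Q_le P (hR h hh) hh.1
  refine ⟨(P.Λ + 1) * Rh ^ 2, by positivity, hB, fun ε hε p hp => ?_⟩
  obtain ⟨h, hh⟩ := G.max_exists P hε hp
  obtain ⟨h', hh'⟩ := G.max_exists P le_rfl hp
  rw [hh.U_eq]
  refine ⟨le_trans ?_ (hh.2 h' hh'.1), (cls2_V_le P hε p h).trans (G.le_U0 hh.1 hp)⟩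
  rw [← U_zero D P, hh'.U_eq]
  refine mul_le_mul (cls2_V_le P le_rfl p h') (Real.exp_le_exp.2 ?_) (Real.exp_pos _).le
    (norm_nonneg _)
  exact neg_le_neg (mul_le_mul_of_nonneg_left (hB h' hh'.1) hε)

theorem Pre.U_cont (G : Pre D) (P : Par) {ε : ℝ} (hε : 0 ≤ ε) :
    ContinuousOn (U D P ε) D := by
  intro p hp
  obtain ⟨R, hR, hb⟩ := Metric.isOpen_iff.1 G.isOpen p hp
  have key : ∀ q ∈ D, ∀ q' ∈ D, ∀ b : ℝ, (∀ h, Adm D h → ‖F h q - F h q'‖ ≤ b) →
      U D P ε q - U D P ε q' ≤ b := by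
    intro q hq q' hq' b H
    obtain ⟨h, hh⟩ := G.max_exists P hε hq
    obtain ⟨h', hh'⟩ := G.max_exists P hε hq'
    have h1 := hh'.2 h hh.1
    have h2 : V P ε q h - V P ε q' h ≤ ‖F h q - F h q'‖ := by
      rw [V, V, ← sub_mul]
      refine (mul_le_mul_of_nonneg_right (norm_sub_norm_le _ _) (Real.exp_pos _).le).trans ?_
      exact mul_le_of_le_one_right (norm_nonneg _) (Real.exp_le_one_iff.2
        (neg_nonpos.2 (mul_nonneg hε (Q_nonneg P h))))
    rw [hh.U_eq, hh'.U_eq]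
    linarith [H h hh.1]
  refine ContinuousAt.continuousWithinAt (tendsto_iff_norm_sub_tendsto_zero.2 ?_)
  have h3 : Tendsto (fun q : E n => 2 / R * ‖q - p‖) (𝓝 p) (𝓝 0) := by
    have h4 : Continuous fun q : E n => 2 / R * ‖q - p‖ := by fun_prop
    simpa using h4.tendsto p
  refine squeeze_zero' (Eventually.of_forall fun _ => norm_nonneg _) ?_ h3
  filter_upwards [ball_mem_nhds p hR] with q hq
  rw [Real.norm_eq_abs, abs_sub_le_iff]
  exact ⟨key q (hb hq) p hp _ fun h hh => hh.F_lip G.isOpen hb hq,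
    key p hp q (hb hq) _ fun h hh => by rw [norm_sub_rev]; exact hh.F_lip G.isOpen hb hq⟩

theorem Pre.U0_pos (G : Pre D) {p : E n} (hp : p ∈ D) (hp0 : p ≠ 0) : 0 < U0 D p := by
  obtain ⟨c, hc, H⟩ := const_adm G.bdd
  have hn : 0 < ‖p‖ := norm_pos_iff.2 hp0
  obtain ⟨h1, h2⟩ := H ((c / ‖p‖) • cj p) (by
    rw [norm_smul, norm_cj, Real.norm_of_nonneg (by positivity), div_mul_cancel₀ _ hn.ne'])
  refine lt_of_lt_of_le (norm_pos_iff.2 ?_) (G.le_U0 h1 hp)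
  rw [h2 p hp, dot_rsmul_right, dot_cj_self]
  exact_mod_cast (show 0 < c / ‖p‖ * ‖p‖ ^ 2 by positivity).ne'

/-- tautness -/
theorem Geo.taut (G : Geo D Φ) {ρ : ℝ} (hρ : ρ < 1) : ∃ δ > 0, ∀ f : ℂ → E n,
    DifferentiableOn ℂ f (ball 0 1) → MapsTo f (ball 0 1) D → f 0 = 0 →
    ∀ w : ℂ, ‖w‖ ≤ ρ → δ ≤ dep D (f w) := by
  obtain ⟨A, hA⟩ := G.Φbdd
  obtain ⟨M, hM0, hM⟩ := (isCompact_Kd G.isOpen G.zero).isBounded.exists_pos_norm_le
  have hρ' : max ρ 0 < 1 := max_lt hρ one_pos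
  obtain ⟨K, hK⟩ : ∃ K, K = (1 + max ρ 0) / (1 - max ρ 0) := ⟨_, rfl⟩
  refine ⟨Real.exp (-((K + 1) * (2 * A + 1))) / M, by positivity, fun f hf hm hf0 w hw => ?_⟩
  have hw1 : w ∈ ball (0 : ℂ) 1 := mem_ball_zero_iff.2 (hw.trans_lt hρ)
  obtain ⟨q, hq, hqd⟩ := exists_frontier_near G.isOpen G.ne_univ (hm hw1)
  obtain ⟨ξ, hξ, hqξ⟩ := G.lc q (by rw [G.isOpen.frontier_eq] at hq; exact hq.2)
  have hA0 : 0 ≤ A := (abs_nonneg _).trans (hA 0 G.zero ξ hξ)
  have hL : DifferentiableOn ℂ (fun u => Φ (f u) ξ) (ball 0 1) :=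
    holo_log (g := fun u => 1 - dot (f u) ξ) isOpen_ball
      ((diffOn_dot hf (differentiableOn_const ξ)).const_sub 1)
      (G.Φcont.comp (f := fun u => (f u, ξ)) (hf.continuousOn.prodMk continuousOn_const)
        fun u hu => ⟨hm hu, hξ⟩) fun u hu => G.Φexp _ (hm hu) ξ hξ
  have h1 := (harnack (P := fun u => ((2 * A + 1 : ℝ) : ℂ) - I * (Φ (f u) ξ - Φ 0 ξ))
    (((hL.sub_const _).const_mul I).const_sub _) (fun u hu => by
      have a1 := abs_le.1 (hA _ (hm hu) ξ hξ)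
      have a2 := abs_le.1 (hA _ G.zero ξ hξ)
      simp only [sub_re, ofReal_re, mul_re, I_re, zero_mul, I_im, sub_im, one_mul]
      linarith [a1.1, a2.2]) hw1).2.1
  simp only [hf0, sub_self, mul_zero, sub_zero] at h1
  rw [Complex.norm_real, Real.norm_of_nonneg (by linarith)] at h1
  have h2 : (1 + ‖w‖) / (1 - ‖w‖) ≤ K := by
    have := hw.trans (le_max_left ρ 0)
    rw [hK]
    gcongr
  have h3 : ‖Φ (f w) ξ - Φ 0 ξ‖ ≤ (K + 1) * (2 * A + 1) := by
    have a1 := norm_sub_le ((2 * A + 1 : ℝ) : ℂ)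
      (((2 * A + 1 : ℝ) : ℂ) - I * (Φ (f w) ξ - Φ 0 ξ))
    rw [sub_sub_cancel, norm_mul, norm_I, one_mul, Complex.norm_real,
      Real.norm_of_nonneg (by linarith)] at a1
    have a2 := mul_le_mul_of_nonneg_right h2 (show 0 ≤ 2 * A + 1 by linarith)
    linarith
  have h4 : exp (Φ (f w) ξ - Φ 0 ξ) = dot (q - f w) ξ := by
    rw [exp_sub, G.Φexp _ (hm hw1) ξ hξ, G.Φexp _ G.zero ξ hξ, dot_zero_left, sub_zero, div_one,
      dot_sub_left, hqξ]
  have h5 : Real.exp (-((K + 1) * (2 * A + 1))) ≤ ‖dot (q - f w) ξ‖ := by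
    rw [← h4, norm_exp, Real.exp_le_exp]
    have := abs_le.1 ((abs_re_le_norm _).trans h3)
    exact this.1
  rw [div_le_iff₀ hM0, ← hqd]
  exact h5.trans ((norm_dot_le _ _).trans (mul_le_mul_of_nonneg_left (hM ξ hξ) (norm_nonneg _)))

/-- a holomorphic map whose values avoid all hyperplanes from the interior of the dual
complement, and one of whose values lies in `D`, has all values in `D` -/
theorem Geo.mem_of_avoid (G : Geo D Φ) {f : ℂ → E n} {W : Set ℂ} (hW : IsOpen W)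
    (hc : IsPreconnected W) (hf : DifferentiableOn ℂ f W)
    (hav : ∀ a ∈ Oc D, ∀ w ∈ W, dot (f w) a ≠ 1) {w₀ : ℂ} (hw₀ : w₀ ∈ W)
    (h0 : f w₀ ∈ D) : MapsTo f W D := by
  intro w hw
  by_contra hn
  obtain ⟨ξ, hξ, h1⟩ := G.lc _ hn
  have := mem_closure_iff_nhdsWithin_neBot.1 (G.dense hξ)
  have h5 := cls2_tlu_dot (g := fun _ : E n => f) (l := 𝓝[Oc D] ξ) hf.continuousOn
    ((cls2_tlu_iff hf.continuousOn).2 fun x hx =>
      (hf.continuousOn x hx).tendsto.comp tendsto_snd) (p := id) (p₀ := ξ) nhdsWithin_le_nhds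
  refine hurwitz hW hc ?_ h5 hw₀ ?_ w hw (by rw [dot_comm, h1, sub_self])
  · filter_upwards [self_mem_nhdsWithin] with t ht
    refine ⟨(diffOn_dot (differentiableOn_const _) hf).const_sub 1, fun x hx => ?_⟩
    rw [dot_comm]
    exact sub_ne_zero.2 (hav _ ht x hx).symm
  · rw [dot_comm]
    exact sub_ne_zero.2 (hξ _ h0).symm

end Pool.Agent.MP_4baaa2_an.H94

/-!
Algebraic identities for the primal maps.
-/

namespace Pool.Agent.MP_4baaa2_an.H94

open Set Metric Filter Topology Complex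
open scoped ComplexConjugate
open Pool.Agent.Lib.PlaneTop

variable {n : ℕ}

variable {D : Set (E n)} {P : Par} {ε : ℝ} {p : E n} {h m : ℂ → E n} {w : ℂ}

/-- the scalar factor between the density and the primal map -/
noncomputable def lam (P : Par) (ε : ℝ) (p : E n) (h m : ℂ → E n) (w : ℂ) : ℂ :=
  w / (w - F h p) * dot (nt P ε p h m w) (h w)

/-- the relative position of the zero of a second disc along a primal map -/
noncomputable def chi (h₂ f : ℂ → E n) (w : ℂ) : ℂ := F h₂ (f w) / w - 1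

/-- the quotient of the two factors -/
noncomputable def Gr (h₁ h₂ : ℂ → E n) (z : E n) (ω : ℂ) : ℂ :=
  O h₁ z (F h₁ z) ω / O h₂ z (F h₂ z) ω

theorem ff_dot (hne : dot (nt P ε p h m w) (h w) ≠ 0) : dot (ff P ε p h m w) (h w) = w := by
  simp only [ff, dot_smul_left]; field_simp

theorem fp_dot (hne : dot (np p h m w) (h w) ≠ 0) : dot (fp p h m w) (h w) = w := by
  simp only [fp, dot_smul_left]; field_simp

theorem fp_zero : fp p h m 0 = 0 := by simp [fp]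

theorem O_self (h : ℂ → E n) (z : E n) (w : ℂ) : O h z w w = 1 - dot z (deriv h w) := by
  simp [O]

theorem N1_eq (hne : dot (nt P ε p h m w) (h w) ≠ 0) :
    N1 P ε p h m w = lam P ε p h m w * O h (ff P ε p h m w) w w := by
  simp only [N1, lam, O_self, ff, dot_smul_left, dot_sub_right, dot_smul_right]
  field_simp

theorem nn_eq (hne : dot (nt P ε p h m w) (h w) ≠ 0) :
    nn P ε p h m w = lam P ε p h m w • ff P ε p h m w := by
  simp only [nn, lam, ff, smul_smul]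
  congr 1
  field_simp

theorem cc_ne (hh : Adm D h) (hp : p ∈ D) (hζ : F h p ≠ 0) : cc h p ≠ 0 :=
  inv_ne_zero (mul_ne_zero hζ ((hh.F_spec hp).2.2 _ (hh.F_spec hp).1))

theorem np_zeta : np p h m (F h p) = cc h p • p := by simp [np]

theorem nt_zeta : nt P ε p h m (F h p) = cc h p • p := by simp [nt, np]

theorem ff_zeta (hh : Adm D h) (hp : p ∈ D) (hζ : F h p ≠ 0) : ff P ε p h m (F h p) = p := by
  have h1 := cc_ne hh hp hζ
  simp only [ff, nt_zeta, dot_smul_left, (hh.F_spec hp).2.1, smul_smul]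
  rw [show F h p / (cc h p * F h p) * cc h p = 1 by field_simp, one_smul]

theorem fp_zeta (hh : Adm D h) (hp : p ∈ D) (hζ : F h p ≠ 0) : fp p h m (F h p) = p := by
  have h1 := cc_ne hh hp hζ
  simp only [fp, np_zeta, dot_smul_left, (hh.F_spec hp).2.1, smul_smul]
  rw [show F h p / (cc h p * F h p) * cc h p = 1 by field_simp, one_smul]

/-- the residue of `N1` -/
theorem res_one (hh : Adm D h) (hp : p ∈ D) (hζ : F h p ≠ 0) :
    dot (cc h p • p) (h (F h p) - F h p • deriv h (F h p)) = 1 := by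
  have h1 := (hh.F_spec hp).2.2 _ (hh.F_spec hp).1
  simp only [dot_smul_left, dot_sub_right, dot_smul_right, (hh.F_spec hp).2.1, cc]
  rw [O_self] at h1 ⊢
  field_simp

theorem np_diff (hm : DifferentiableOn ℂ m (ball 0 1)) :
    DifferentiableOn ℂ (np p h m) (ball 0 1) := by
  unfold np
  exact ((differentiableOn_id.sub_const _).smul hm).add_const _

theorem F_ff (hh : Adm D h) (hw : w ∈ ball (0 : ℂ) 1) (hne : dot (nt P ε p h m w) (h w) ≠ 0)
    (hD : ff P ε p h m w ∈ D) : F h (ff P ε p h m w) = w :=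
  hh.F_unique hD hw (ff_dot hne)

theorem F_fp (hh : Adm D h) (hw : w ∈ ball (0 : ℂ) 1) (hne : dot (np p h m w) (h w) ≠ 0)
    (hD : fp p h m w ∈ D) : F h (fp p h m w) = w :=
  hh.F_unique hD hw (fp_dot hne)

/-- joint holomorphy of the factor `O` -/
theorem Adm.O_diff (hD : IsOpen D) (hh : Adm D h) :
    DifferentiableOn ℂ (fun x : E n × ℂ => O h x.1 (F h x.1) x.2) (D ×ˢ ball 0 1) := by
  unfold O
  refine (differentiableOn_const _).sub (diffOn_dot differentiableOn_fst ?_)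
  have h1 : DifferentiableOn ℂ (fun x : E n × ℂ => (F h x.1, x.2)) (D ×ˢ ball 0 1) :=
    ((hh.F_diff hD).comp differentiableOn_fst (fun x hx => hx.1)).prodMk differentiableOn_snd
  exact DifferentiableOn.comp (g := fun x : ℂ × ℂ => dslope h x.1 x.2)
    (f := fun x : E n × ℂ => (F h x.1, x.2)) (dslope_diff hh.1) h1
    (fun x hx => ⟨(hh.F_spec hx.1).1, hx.2⟩)

/-- the second disc along a primal map -/
theorem chi_eq {h₂ f : ℂ → E n} (hh₂ : Adm D h₂) (hw0 : w ≠ 0)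
    (hf : f w ∈ D) (hd : dot (f w) (h w) = w) :
    dot (f w) (h₂ w - h w) = w * chi h₂ f w * O h₂ (f w) (F h₂ (f w)) w := by
  have := W_eq h₂ (f w) (hh₂.F_spec hf).2.1 w
  rw [dot_sub_right, hd, chi]
  field_simp
  linear_combination -this

/-- comparison of the two factors -/
theorem O_sub {h₁ h₂ : ℂ → E n} (h1 : Adm D h₁) (h2 : Adm D h₂) {z : E n} (hz : z ∈ D) {ω : ℂ}
    (hω : ω ∈ ball (0 : ℂ) 1) :
    O h₂ z (F h₂ z) ω - O h₁ z (F h₁ z) ω = -dot z (dslope (h₂ - h₁) (F h₁ z) ω) -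
      (F h₁ z - F h₂ z) * dslope (O h₂ z (F h₂ z)) (F h₁ z) ω := by
  obtain ⟨a1, b1, -⟩ := h1.F_spec hz
  obtain ⟨a2, b2, -⟩ := h2.F_spec hz
  have key : ∀ x, (x - F h₂ z) * O h₂ z (F h₂ z) x - (x - F h₁ z) * O h₁ z (F h₁ z) x +
      dot z ((h₂ - h₁) x) = 0 := fun x => by
    rw [← W_eq h₂ z b2, ← W_eq h₁ z b1, Pi.sub_apply, dot_sub_right]; ring
  have hO : ∀ {g : ℂ → E n}, DifferentiableOn ℂ g (ball 0 1) → ∀ {c : ℂ}, c ∈ ball (0 : ℂ) 1 →
      ∀ {x : ℂ}, x ∈ ball (0 : ℂ) 1 → DifferentiableAt ℂ (O g z c) x := fun {g} hg c hc x hx => by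
    have := ((differentiableOn_dslope (isOpen_ball.mem_nhds hc)).2 hg).differentiableAt
      (isOpen_ball.mem_nhds hx)
    unfold O
    exact (differentiableAt_const _).sub (diffAt_dot (differentiableAt_const _) this)
  rcases eq_or_ne ω (F h₁ z) with rfl | hne
  · have d2 := (hO h2.1 a2 a1).hasDerivAt
    have d1 := (hO h1.1 a1 a1).hasDerivAt
    have d3 := ((h2.1.sub h1.1).differentiableAt (isOpen_ball.mem_nhds a1)).hasDerivAt
    have d4 := ((((hasDerivAt_id' (F h₁ z)).sub_const (F h₂ z)).mul d2).sub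
      (((hasDerivAt_id' (F h₁ z)).sub_const (F h₁ z)).mul d1)).add
      (hasDerivAt_dot (hasDerivAt_const (F h₁ z) z) d3)
    have d5 := d4.unique ((hasDerivAt_const (F h₁ z) (0 : ℂ)).congr_of_eventuallyEq
      (Eventually.of_forall key))
    simp only [dslope_same]
    simp only [dot_zero_left] at d5
    linear_combination d5
  · have hs : ω - F h₁ z ≠ 0 := sub_ne_zero.2 hne
    have k1 := key ω
    have k2 := key (F h₁ z)
    rw [dslope_of_ne _ hne, dslope_of_ne _ hne, slope_def_module, slope_def_field, dot_smul_right,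
      dot_sub_right]
    field_simp
    linear_combination k1 - k2

end Pool.Agent.MP_4baaa2_an.H94

/-!
The kernel of the quadratic perturbation; linearity of the first variation.
-/

namespace Pool.Agent.MP_4baaa2_an.H94

open Set Metric Filter Topology Complex
open scoped ComplexConjugate
open Pool.Agent.Lib.PlaneTop

variable {n : ℕ}

variable {D : Set (E n)} {Φ : E n → E n → ℂ} {P : Par} {ε : ℝ} {p : E n} {h : ℂ → E n}

theorem kern_mem {s : ℝ} {w : ℂ} (hw : s ^ 2 < ‖w‖) : (s ^ 2 / conj w : ℂ) ∈ ball (0 : ℂ) 1 := by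
  have h0 : 0 < ‖w‖ := (sq_nonneg s).trans_lt hw
  rw [mem_ball_zero_iff, norm_div, norm_pow, Complex.norm_real, Real.norm_eq_abs, sq_abs,
    norm_conj, div_lt_one h0]
  exact hw

theorem refl_diff (hd : DifferentiableOn ℂ h (ball 0 1)) {s : ℝ} (hs : 0 < s) :
    DifferentiableOn ℂ (fun w => cj (h (s ^ 2 / conj w))) {w | s ^ 2 < ‖w‖} := by
  refine differentiableOn_euclidean.2 fun j w hw => DifferentiableAt.differentiableWithinAt ?_
  have hw0 : w ≠ 0 := norm_pos_iff.1 ((sq_pos_of_pos hs).trans hw)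
  have h1 : DifferentiableAt ℂ (fun z => h z j) (s ^ 2 / conj w) :=
    differentiableAt_euclidean.1 (hd.differentiableAt (isOpen_ball.mem_nhds (kern_mem hw))) j
  have h2 : DifferentiableAt ℂ (fun w : ℂ => (s : ℂ) ^ 2 / w) w :=
    (differentiableAt_const _).div differentiableAt_id hw0
  have h3 := h1.conj_conj
  rw [show conj ((s : ℂ) ^ 2 / conj w) = (s : ℂ) ^ 2 / w by simp] at h3
  have h4 := h3.comp w h2
  simpa [Function.comp_def] using h4

theorem kern_sq (P : Par) : P.s ^ 2 < P.r ^ 2 := by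
  have := P.hs
  have := P.hsr
  gcongr

theorem kap_diff (P : Par) (hd : DifferentiableOn ℂ h (ball 0 1)) :
    DifferentiableOn ℂ (kap P h) {w | P.r ^ 2 < ‖w‖} := by
  have h1 := (refl_diff hd P.hs).mono (s := {w | P.r ^ 2 < ‖w‖})
    fun w hw => (kern_sq P).trans hw
  have h2 := refl_diff hd (P.hs.trans P.hsr)
  exact (differentiableOn_id.const_mul 2).smul ((h1.const_smul (P.Λ : ℂ)).add h2)

theorem kap_le (P : Par) {Rh : ℝ} (hb : ∀ ω ∈ ball (0 : ℂ) 1, ‖h ω‖ ≤ Rh) {w : ℂ}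
    (hw : P.r ^ 2 < ‖w‖) : ‖kap P h w‖ ≤ 2 * ‖w‖ * (P.Λ + 1) * Rh := by
  have h1 := hb _ (kern_mem ((kern_sq P).trans hw))
  have h2 := hb _ (kern_mem hw)
  have h3 := P.hΛ
  rw [kap, norm_smul, norm_mul, Complex.norm_two, mul_assoc (2 * ‖w‖)]
  refine mul_le_mul_of_nonneg_left ((norm_add_le _ _).trans ?_) (by positivity)
  rw [norm_smul, norm_cj, norm_cj, Complex.norm_real, Real.norm_of_nonneg h3, add_mul, one_mul]
  gcongr

theorem nt_diff (P : Par) (ε : ℝ) (p : E n) {m : ℂ → E n} (hd : DifferentiableOn ℂ h (ball 0 1))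
    (hm : DifferentiableOn ℂ m (ball 0 1)) :
    DifferentiableOn ℂ (nt P ε p h m) (Ann (P.r ^ 2)) := by
  have h1 := (np_diff (p := p) (h := h) hm).mono (s := Ann (P.r ^ 2))
    fun w hw => mem_ball_zero_iff.2 hw.2
  have h2 := (kap_diff P hd).mono (s := Ann (P.r ^ 2)) fun w hw => hw.1
  have h3 : DifferentiableOn ℂ (fun w : ℂ => ε * (w - F h p) / w ^ 2) (Ann (P.r ^ 2)) :=
    DifferentiableOn.div (by fun_prop) (by fun_prop) fun w hw =>
      pow_ne_zero 2 (norm_pos_iff.1 ((sq_nonneg _).trans_lt hw.1))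
  exact h1.sub (h3.smul h2)

theorem kern_refl {s : ℝ} (hs : 0 < s) {w : ℂ} (hw : w ∈ sphere (0 : ℂ) |s|) :
    (s ^ 2 / conj w : ℂ) = w := by
  have h1 : ‖w‖ = s := by rw [mem_sphere_zero_iff_norm.1 hw, abs_of_pos hs]
  have h0 : conj w ≠ 0 := by
    rw [map_ne_zero, ← norm_pos_iff, h1]
    exact hs
  rw [div_eq_iff h0, mul_conj, normSq_eq_norm_sq, h1, ofReal_pow]

/-- the `L²` product on a circle as a mean over another circle -/
theorem ip_eq_avg (hd : DifferentiableOn ℂ h (ball 0 1)) {η : ℂ → E n} {s ρ b : ℝ} (hs : 0 < s)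
    (hs1 : s < 1) (hsb : s < b) (hρ : s ^ 2 < ρ) (hρb : ρ < b)
    (hη : DifferentiableOn ℂ η (ball 0 b)) :
    Real.circleAverage (fun w => dot (η w) (cj (h (s ^ 2 / conj w)))) 0 ρ = ip s η h := by
  have hU : IsOpen ({w : ℂ | s ^ 2 < ‖w‖} ∩ ball 0 b) :=
    (isOpen_lt continuous_const continuous_norm).inter isOpen_ball
  have hg : DifferentiableOn ℂ (fun w => dot (η w) (cj (h (s ^ 2 / conj w))))
      ({w : ℂ | s ^ 2 < ‖w‖} ∩ ball 0 b) :=
    diffOn_dot (hη.mono inter_subset_right) ((refl_diff hd hs).mono inter_subset_left)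
  have hss : s ^ 2 < s := by nlinarith
  have e : Real.circleAverage (fun w => dot (η w) (cj (h (s ^ 2 / conj w)))) 0 s = ip s η h :=
    Real.circleAverage_congr_sphere fun w hw => by simp only [kern_refl hs hw]
  rw [← e]
  rcases le_total ρ s with hle | hle
  · exact ann_mean ((sq_nonneg s).trans_lt hρ) hle hU
      (fun w h1 h2 => ⟨hρ.trans_le h1, mem_ball_zero_iff.2 (h2.trans_lt hsb)⟩) hg
  · exact (ann_mean hs hle hU
      (fun w h1 h2 => ⟨hss.trans_le h1, mem_ball_zero_iff.2 (h2.trans_lt hρb)⟩) hg).symm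

theorem avg_kap (P : Par) (hd : DifferentiableOn ℂ h (ball 0 1)) {η : ℂ → E n}
    (hη : DifferentiableOn ℂ η (ball 0 1)) {ρ : ℝ} (hρ : P.r ^ 2 < ρ) (hρ1 : ρ < 1) :
    Real.circleAverage (fun w => dot (kap P h w) (η w) / w) 0 ρ = Lq P h η := by
  have h0 : 0 < ρ := (sq_nonneg _).trans_lt hρ
  have hr0 := P.hs.trans P.hsr
  have hs1 := P.hsr.trans P.hr
  have hi : ∀ {s : ℝ}, 0 < s → s ^ 2 < ρ →
      CircleIntegrable (fun w => dot (η w) (cj (h (s ^ 2 / conj w)))) 0 ρ := fun hs hsρ =>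
    ContinuousOn.circleIntegrable h0.le (contOn_dot
      (hη.continuousOn.mono (sphere_subset_closedBall.trans (closedBall_subset_ball hρ1)))
      ((refl_diff hd hs).continuousOn.mono fun w hw => by
        rw [mem_ofPred_eq, mem_sphere_zero_iff_norm.1 hw]; exact hsρ))
  have hsρ := (kern_sq P).trans hρ
  rw [Lq, ← ip_eq_avg hd P.hs hs1 hs1 hsρ hρ1 hη, ← ip_eq_avg hd hr0 P.hr P.hr hρ hρ1 hη,
    ← smul_eq_mul, ← smul_eq_mul, ← Real.circleAverage_fun_smul,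
    ← Real.circleAverage_fun_add ((hi P.hs hsρ).const_fun_smul) (hi hr0 hρ),
    ← Real.circleAverage_fun_smul]
  refine Real.circleAverage_congr_sphere fun w hw => ?_
  have hw0 : w ≠ 0 := by
    rw [← norm_pos_iff, mem_sphere_zero_iff_norm.1 hw]
    exact abs_pos.2 h0.ne'
  simp only [kap, dot_smul_left, dot_add_left, smul_eq_mul, dot_comm (η w)]
  field_simp

theorem kern_ell_add (hd : DifferentiableOn ℂ h (ball 0 1)) (hζ : ‖F h p‖ ≤ P.r)
    {η η' η'' : ℂ → E n} (hη : ContinuousOn η (closedBall 0 P.r))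
    (hη' : ContinuousOn η' (closedBall 0 P.r))
    (e : ∀ ω ∈ closedBall (0 : ℂ) P.r, η'' ω = η ω + η' ω) :
    ell P ε p h η'' = ell P ε p h η + ell P ε p h η' := by
  have key : ∀ s : ℝ, 0 < s → s ≤ P.r → ip s η'' h = ip s η h + ip s η' h := by
    intro s hs hsr
    have hsub : sphere (0 : ℂ) s ⊆ closedBall 0 P.r :=
      sphere_subset_closedBall.trans (closedBall_subset_closedBall hsr)
    have hh : ContinuousOn (fun w => cj (h w)) (sphere 0 s) :=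
      continuous_cj.comp_continuousOn
        (hd.continuousOn.mono (hsub.trans (closedBall_subset_ball P.hr)))
    rw [ip, ip, ip, ← Real.circleAverage_fun_add
      ((contOn_dot (hη.mono hsub) hh).circleIntegrable hs.le)
      ((contOn_dot (hη'.mono hsub) hh).circleIntegrable hs.le)]
    refine Real.circleAverage_congr_sphere fun ω hω => ?_
    rw [abs_of_pos hs] at hω
    simp only [e ω (hsub hω), dot_add_left]
  simp only [ell, Lq, key _ P.hs P.hsr.le, key _ (P.hs.trans P.hsr) le_rfl,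
    e _ (mem_closedBall_zero_iff.2 hζ), dot_add_right]
  ring

theorem mult_ip_smul (ρ : ℝ) (c : ℂ) (η : ℂ → E n) : ip ρ (c • η) h = c * ip ρ η h := by
  rw [ip, ip, ← smul_eq_mul, ← Real.circleAverage_fun_smul]
  simp only [Pi.smul_apply, dot_smul_left, smul_eq_mul]

theorem mult_Lq_smul (P : Par) (c : ℂ) (η : ℂ → E n) : Lq P h (c • η) = c * Lq P h η := by
  simp only [Lq, mult_ip_smul]
  ring

theorem mult_ell_smul (P : Par) (ε : ℝ) (p : E n) (c : ℂ) (η : ℂ → E n) :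
    ell P ε p h (c • η) = c * ell P ε p h η := by
  simp only [ell, mult_Lq_smul, Pi.smul_apply, dot_smul_right]
  ring

end Pool.Agent.MP_4baaa2_an.H94
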