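import Pool.Agent.MP_4baaa2_an.H94.Stmt
import Pool.Agent.Lib.PlaneTop.HasLog

-- part MP_4baaa2_an.H94.Basic
section

/-!
The bilinear pairing, conjugation, and the definitions shared by all files of the proof.
-/

namespace Pool.Agent.MP_4baaa2_an.H94

open Set Metric Filter Topology Complex
open scoped ComplexConjugate
open Pool.Agent.Lib.PlaneTop

variable {n : ℕ}

/-- coordinatewise conjugation -/
@[irreducible] noncomputable def cj (x : E n) : E n := WithLp.toLp 2 fun i => conj (x i)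

@[simp] lemma cj_apply (x : E n) (i : Fin n) : cj x i = conj (x i) := by unfold cj; rfl

lemma dot_def (x y : E n) : dot x y = ∑ i, x i * y i := by unfold dot; rfl

lemma dot_comm (x y : E n) : dot x y = dot y x := by simp [dot, mul_comm]

@[simp] lemma dot_add_left (x y z : E n) : dot (x + y) z = dot x z + dot y z := by
  simp [dot, add_mul, Finset.sum_add_distrib]
@[simp] lemma dot_add_right (x y z : E n) : dot x (y + z) = dot x y + dot x z := by
  simp [dot, mul_add, Finset.sum_add_distrib]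
@[simp] lemma dot_sub_left (x y z : E n) : dot (x - y) z = dot x z - dot y z := by
  simp [dot, sub_mul, Finset.sum_sub_distrib]
@[simp] lemma dot_sub_right (x y z : E n) : dot x (y - z) = dot x y - dot x z := by
  simp [dot, mul_sub, Finset.sum_sub_distrib]
@[simp] lemma dot_neg_left (x y : E n) : dot (-x) y = -dot x y := by simp [dot]
@[simp] lemma dot_neg_right (x y : E n) : dot x (-y) = -dot x y := by simp [dot]
@[simp] lemma dot_zero_left (y : E n) : dot 0 y = 0 := by simp [dot]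
@[simp] lemma dot_zero_right (x : E n) : dot x 0 = 0 := by simp [dot]
@[simp] lemma dot_smul_left (c : ℂ) (x y : E n) : dot (c • x) y = c * dot x y := by
  simp [dot, Finset.mul_sum, mul_assoc]
@[simp] lemma dot_smul_right (c : ℂ) (x y : E n) : dot x (c • y) = c * dot x y := by
  simp [dot, Finset.mul_sum, mul_left_comm]
@[simp] lemma dot_rsmul_left (c : ℝ) (x y : E n) : dot (c • x) y = c * dot x y := by
  simp [dot, Finset.mul_sum, mul_assoc]
@[simp] lemma dot_rsmul_right (c : ℝ) (x y : E n) : dot x (c • y) = c * dot x y := by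
  simp [dot, Finset.mul_sum, mul_left_comm]
lemma dot_sum_left {ι : Type*} (s : Finset ι) (x : ι → E n) (y : E n) :
    dot (∑ j ∈ s, x j) y = ∑ j ∈ s, dot (x j) y := by
  classical
  induction s using Finset.induction_on with
  | empty => simp
  | insert a s ha ih => simp [Finset.sum_insert ha, ih]
lemma dot_sum_right {ι : Type*} (s : Finset ι) (x : E n) (y : ι → E n) :
    dot x (∑ j ∈ s, y j) = ∑ j ∈ s, dot x (y j) := by
  rw [dot_comm, dot_sum_left]; simp [dot_comm]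
@[simp] lemma dot_single_right (x : E n) (i : Fin n) (c : ℂ) :
    dot x (EuclideanSpace.single i c) = x i * c := by
  simp [dot]
@[simp] lemma dot_single_left (x : E n) (i : Fin n) (c : ℂ) :
    dot (EuclideanSpace.single i c) x = c * x i := by
  rw [dot_comm, dot_single_right, mul_comm]

@[simp] lemma cj_cj (x : E n) : cj (cj x) = x := by ext i; simp
@[simp] lemma cj_add (x y : E n) : cj (x + y) = cj x + cj y := by ext i; simp
@[simp] lemma cj_sub (x y : E n) : cj (x - y) = cj x - cj y := by ext i; simp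
@[simp] lemma cj_neg (x : E n) : cj (-x) = -cj x := by ext i; simp
@[simp] lemma cj_zero : cj (0 : E n) = 0 := by ext i; simp
@[simp] lemma cj_smul (c : ℂ) (x : E n) : cj (c • x) = conj c • cj x := by ext i; simp
@[simp] lemma cj_rsmul (c : ℝ) (x : E n) : cj (c • x) = c • cj x := by ext i; simp
@[simp] lemma norm_cj (x : E n) : ‖cj x‖ = ‖x‖ := by simp [EuclideanSpace.norm_eq]
lemma dot_cj_left (x y : E n) : dot (cj x) y = inner ℂ x y := by
  simp [dot, PiLp.inner_apply, mul_comm]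
lemma dot_cj_right (x y : E n) : dot x (cj y) = inner ℂ y x := by
  rw [dot_comm, dot_cj_left]
lemma conj_dot (x y : E n) : conj (dot x y) = dot (cj x) (cj y) := by simp [dot]
lemma dot_cj_self (x : E n) : dot x (cj x) = ((‖x‖ ^ 2 : ℝ) : ℂ) := by
  rw [dot_cj_right, inner_self_eq_norm_sq_to_K]; simp
lemma norm_dot_le (x y : E n) : ‖dot x y‖ ≤ ‖x‖ * ‖y‖ := by
  have := norm_inner_le_norm (𝕜 := ℂ) (cj x) y
  rwa [← dot_cj_left, cj_cj, norm_cj] at this
lemma eq_zero_of_dot (x : E n) (h : ∀ y, dot x y = 0) : x = 0 := by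
  have := h (cj x)
  rw [dot_cj_self] at this
  have h2 : ‖x‖ ^ 2 = 0 := by exact_mod_cast this
  simpa using h2
/-- the norm is controlled by the pairing with vectors of norm at most one -/
lemma norm_le_of_dot {x : E n} {C : ℝ} (hC : 0 ≤ C) (h : ∀ y, ‖y‖ ≤ 1 → ‖dot y x‖ ≤ C) :
    ‖x‖ ≤ C := by
  rcases eq_or_ne x 0 with rfl | hx
  · simpa using hC
  have hn : 0 < ‖x‖ := norm_pos_iff.2 hx
  have := h ((‖x‖⁻¹ : ℝ) • cj x) (by rw [norm_smul, norm_cj]; simp [hn.ne'])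
  rw [dot_rsmul_left, dot_comm, dot_cj_self, ← ofReal_mul, Complex.norm_real,
    Real.norm_of_nonneg (by positivity)] at this
  calc ‖x‖ = ‖x‖⁻¹ * ‖x‖ ^ 2 := by field_simp
    _ ≤ C := this

/-- the pairing as a continuous bilinear map -/
noncomputable def dotL : E n →L[ℂ] E n →L[ℂ] ℂ :=
  LinearMap.mkContinuous₂ (LinearMap.mk₂ ℂ dot dot_add_left (fun c x y => by simp)
    dot_add_right (fun c x y => by simp)) 1 (fun x y => by simpa using norm_dot_le x y)

@[simp] lemma dotL_apply (x y : E n) : dotL x y = dot x y := rfl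

/-- conjugation as a continuous real linear map -/
noncomputable def cjL : E n →L[ℝ] E n :=
  LinearMap.mkContinuous ⟨⟨cj, cj_add⟩, fun c x => by simp⟩ 1 (fun x => by simp)

@[simp] lemma cjL_apply (x : E n) : cjL x = cj x := rfl

@[fun_prop] lemma continuous_cj : Continuous (cj : E n → E n) := cjL.continuous

@[fun_prop] lemma continuous_dot : Continuous fun p : E n × E n => dot p.1 p.2 :=
  dotL.continuous₂

section funprop
variable {X : Type*} [TopologicalSpace X] {f g : X → E n}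

@[fun_prop] lemma cont_dot (hf : Continuous f) (hg : Continuous g) :
    Continuous fun x => dot (f x) (g x) :=
  Continuous.comp (g := fun p : E n × E n => dot p.1 p.2) (f := fun x => (f x, g x))
    continuous_dot (hf.prodMk hg)
@[fun_prop] lemma contOn_dot {s : Set X} (hf : ContinuousOn f s) (hg : ContinuousOn g s) :
    ContinuousOn (fun x => dot (f x) (g x)) s :=
  Continuous.comp_continuousOn (g := fun p : E n × E n => dot p.1 p.2)
    (f := fun x => (f x, g x)) continuous_dot (hf.prodMk hg)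
@[fun_prop] lemma contAt_dot {x : X} (hf : ContinuousAt f x) (hg : ContinuousAt g x) :
    ContinuousAt (fun x => dot (f x) (g x)) x :=
  ContinuousAt.comp (g := fun p : E n × E n => dot p.1 p.2) (f := fun x => (f x, g x))
    continuous_dot.continuousAt (hf.prodMk hg)
lemma tendsto_dot {ι : Type*} {l : Filter ι} {u v : ι → E n} {a b : E n}
    (hu : Tendsto u l (𝓝 a)) (hv : Tendsto v l (𝓝 b)) :
    Tendsto (fun i => dot (u i) (v i)) l (𝓝 (dot a b)) :=
  Tendsto.comp (g := fun p : E n × E n => dot p.1 p.2) (f := fun i => (u i, v i))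
    (continuous_dot.tendsto (a, b)) (hu.prodMk_nhds hv)
end funprop

section diff
variable {X : Type*} [NormedAddCommGroup X] [NormedSpace ℂ X] {f g : X → E n}

@[fun_prop] lemma diffAt_dot {x : X} (hf : DifferentiableAt ℂ f x)
    (hg : DifferentiableAt ℂ g x) : DifferentiableAt ℂ (fun x => dot (f x) (g x)) x :=
  (dotL.differentiableAt.comp x hf).clm_apply hg
@[fun_prop] lemma diffOn_dot {s : Set X} (hf : DifferentiableOn ℂ f s)
    (hg : DifferentiableOn ℂ g s) : DifferentiableOn ℂ (fun x => dot (f x) (g x)) s :=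
  (dotL.differentiable.comp_differentiableOn hf).clm_apply hg
@[fun_prop] lemma diff_dot (hf : Differentiable ℂ f)
    (hg : Differentiable ℂ g) : Differentiable ℂ (fun x => dot (f x) (g x)) :=
  fun x => diffAt_dot (hf x) (hg x)
lemma dcc_dot {s : Set X} (hf : DiffContOnCl ℂ f s) (hg : DiffContOnCl ℂ g s) :
    DiffContOnCl ℂ (fun x => dot (f x) (g x)) s :=
  ⟨diffOn_dot hf.1 hg.1, contOn_dot hf.2 hg.2⟩
end diff

lemma hasDerivAt_dot {f g : ℂ → E n} {f' g' : E n} {x : ℂ} (hf : HasDerivAt f f' x)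
    (hg : HasDerivAt g g' x) :
    HasDerivAt (fun x => dot (f x) (g x)) (dot f' (g x) + dot (f x) g') x := by
  have := (dotL.hasFDerivAt.comp_hasDerivAt x hf).clm_apply hg
  simpa [Function.comp_def] using this

/-! ### The dual complement, depth, true phases -/

/-- the dual complement -/
def Kd (D : Set (E n)) : Set (E n) := {ξ | ∀ z ∈ D, dot z ξ ≠ 1}

/-- distance to the complement -/
noncomputable def dep (D : Set (E n)) (z : E n) : ℝ := infDist z Dᶜ

/-- the points of depth at least `δ` -/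
def Zd (D : Set (E n)) (δ : ℝ) : Set (E n) := {z | δ ≤ dep D z}

/-- `(q, ξ)` is a flat flag with central phase `σ`: near the flag the values `1 - ⟨z, ξ'⟩` lie
asymptotically in the half plane with inner normal `e^{iσ}`, for the branch `Φ` of the
logarithm. -/
def Tru (D : Set (E n)) (Φ : E n → E n → ℂ) (q ξ : E n) (σ : ℝ) : Prop :=
  q ∈ closure D ∧ ξ ∈ Kd D ∧ dot q ξ = 1 ∧ ∀ η > 0,
    ∀ᶠ x : E n × E n in 𝓝[D ×ˢ Kd D] (q, ξ), |(Φ x.1 x.2).im - σ| ≤ Real.pi / 2 + η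

/-- the path component of the origin in the interior of the dual complement -/
def Oc (D : Set (E n)) : Set (E n) := {a | JoinedIn (interior (Kd D)) 0 a}

/-- all phases at levels below `κ` are within `π - γ` of `β` -/
def NP (D : Set (E n)) (Φ : E n → E n → ℂ) (ξ : E n) (β γ κ : ℝ) : Prop :=
  ∀ z ∈ D, ‖1 - dot z ξ‖ < κ → |(Φ z ξ).im - β| ≤ Real.pi - γ

/-- a ball (index of the centre, radius) with an interval of phases -/
abbrev Bl : Type := ℕ × ℚ × ℚ × ℚ

/-- a type: a central phase, a level and finitely many balls -/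
abbrev Ty : Type := ℚ × ℚ × Finset Bl

/-- a dense sequence of vectors -/
noncomputable def ds (n : ℕ) (k : ℕ) : E n := TopologicalSpace.denseSeq (E n) k

/-- centre of a ball -/
noncomputable def cen (n : ℕ) (i : Bl) : E n := ds n i.1
/-- radius of a ball -/
def rad (i : Bl) : ℝ := (i.2.1 : ℝ)
/-- lower end of the interval of phases -/
def lo (i : Bl) : ℝ := (i.2.2.1 : ℝ)
/-- upper end of the interval of phases -/
def hi (i : Bl) : ℝ := (i.2.2.2 : ℝ)
/-- midpoint of the interval of phases -/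
noncomputable def mid (i : Bl) : ℝ := (lo i + hi i) / 2
/-- the interval of phases has length almost `π` -/
def Flat (η : ℝ) (i : Bl) : Prop := Real.pi - 2 * η ≤ hi i - lo i

/-- the hyperplane `ξ` has type `τ` at precision `η` -/
structure IsTy (D : Set (E n)) (Φ : E n → E n → ℂ) (γ η : ℝ) (τ : Ty) (ξ : E n) : Prop where
  mem : ξ ∈ Kd D
  kpos : (0 : ℝ) < τ.2.1
  off : ∀ z ∈ D, (∀ i ∈ τ.2.2, rad i ≤ ‖z - cen n i‖) → (τ.2.1 : ℝ) ≤ ‖1 - dot z ξ‖
  num : ∀ i ∈ τ.2.2, 0 < rad i ∧ rad i ≤ η ∧ lo i ≤ hi i ∧ hi i ≤ lo i + Real.pi + η ∧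
    (τ.1 : ℝ) - Real.pi + γ ≤ lo i ∧ hi i ≤ (τ.1 : ℝ) + Real.pi - γ
  ph : ∀ i ∈ τ.2.2, ∀ z ∈ D, ‖z - cen n i‖ < 2 * rad i → (Φ z ξ).im ∈ Icc (lo i) (hi i)
  con : ∀ i ∈ τ.2.2, ∃ q ∈ closure D, ‖q - cen n i‖ ≤ rad i ∧ dot q ξ = 1
  att : ∀ i ∈ τ.2.2, ∃ z z' : E n, (τ.2.1 : ℝ) ≤ dep D z ∧ (τ.2.1 : ℝ) ≤ dep D z' ∧
    ‖z - cen n i‖ ≤ 2 * rad i ∧ ‖z' - cen n i‖ ≤ 2 * rad i ∧
    (Φ z ξ).im ≤ lo i + η ∧ hi i - η ≤ (Φ z' ξ).im

/-- the vector `e^{iυ} q` is tested against all members of the dense sequence which are polar to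
the almost flat balls of the types `τ j`, `j` large -/
def Pol (η : ℕ → ℝ) (τ : ℕ → Ty) (b υ : ℝ) (q : E n) : Prop :=
  ∀ k j₀ : ℕ, (∀ j ≥ j₀, ∀ i ∈ (τ j).2.2, Flat (η j) i →
    (exp ((b - mid i : ℝ) * I) * dot (cen n i) (ds n k)).re ≤ 0) →
      (exp (υ * I) * dot q (ds n k)).re ≤ 0

/-- bounded domains containing the origin -/
structure Pre (D : Set (E n)) : Prop where
  isOpen : IsOpen D
  conn : IsPreconnected D
  bdd : Bornology.IsBounded D
  zero : (0 : E n) ∈ D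
  ne_univ : D ≠ univ

/-- the section of `D` by the parametrised line `s ↦ a + s v` -/
def Sec (D : Set (E n)) (a v : E n) : Set ℂ := {s | a + s • v ∈ D}

/-- the facts on a domain without boundary regularity which are used for the first stage -/
structure Gen (D : Set (E n)) : Prop extends Pre D where
  two : 2 ≤ n
  lc : ∀ z ∉ D, ∃ ξ ∈ Kd D, dot z ξ = 1
  joined : ∀ a ∈ D, ∀ b ∈ D, JoinedIn (Sec D a (b - a)) 0 1
  plog : ∀ ξ ∈ Kd D, HasLogOn (fun z => 1 - dot z ξ) D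

/-- The geometric facts on `D` used by the analytic part of the proof. -/
structure Geo (D : Set (E n)) (Φ : E n → E n → ℂ) : Prop extends Pre D where
  lc : ∀ z ∉ D, ∃ ξ ∈ Kd D, dot z ξ = 1
  logs : ∀ g : E n → ℂ, ContinuousOn g D → (∀ z ∈ D, g z ≠ 0) → HasLogOn g D
  sect : ∀ (v : E n) (c : ℂ), IsPreconnected {z ∈ D | dot z v = c}
  Φcont : ContinuousOn (fun x : E n × E n => Φ x.1 x.2) (D ×ˢ Kd D)
  Φexp : ∀ z ∈ D, ∀ ξ ∈ Kd D, exp (Φ z ξ) = 1 - dot z ξ
  Φzero : ∀ ξ ∈ Kd D, Φ 0 ξ = 0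
  Φbdd : ∃ A : ℝ, ∀ z ∈ D, ∀ ξ ∈ Kd D, |(Φ z ξ).im| ≤ A
  cone : ∃ c > 0, ∃ t₀ > 0, ∀ z ∈ D, dep D z ≤ t₀ → ∃ e : E n, ‖e‖ ≤ 1 ∧
    ∀ t ∈ Icc (0 : ℝ) t₀, z + t • e ∈ D ∧ c * t ≤ dep D (z + t • e)
  deep : ∃ δ₀ > 0, ∃ A C : ℝ, ∀ δ ∈ Ioc (0 : ℝ) δ₀, (0 : E n) ∈ Zd D δ ∧
    IsPathConnected (Zd D δ) ∧ (∀ z ∈ D, ∃ z' ∈ Zd D δ, ‖z' - z‖ ≤ C * δ) ∧
    ∀ (ξ : E n) (l : E n → ℂ), ContinuousOn l (Zd D δ) →
      (∀ z ∈ Zd D δ, exp (l z) = 1 - dot z ξ) → l 0 = 0 → ∀ z ∈ Zd D δ, |(l z).im| ≤ A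
  sep : ∃ μ > 0, ∀ ξ ∈ Kd D, ∀ z ∈ D, ∀ z' ∈ D, ∀ k : ℤ, k ≠ 0 →
    μ ≤ ‖Φ z ξ - Φ z' ξ - k * (2 * Real.pi * I)‖
  line : ∀ q ∈ closure D, ∀ z ∈ D, ∀ l ∈ Ioo (0 : ℝ) 1, ∃ c : ℂ, ‖c‖ = l ∧ q + c • (z - q) ∈ D
  dense : Kd D ⊆ closure (Oc D)
  npex : ∃ γ > 0, γ ≤ 1 / 10 ∧ ∃ A₀ : ℝ, ∀ ξ ∈ Kd D, ∃ (β : ℚ) (k : ℕ), |(β : ℝ)| ≤ A₀ ∧
    NP D Φ ξ β (2 * γ) (1 / ((k : ℝ) + 1))
  tyex : ∀ γ > 0, ∀ ξ ∈ Kd D, ∀ (β : ℚ), ∀ κ > 0, NP D Φ ξ β (2 * γ) κ → ∀ η ∈ Ioc (0 : ℝ) γ,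
    ∃ τ : Ty, τ.1 = β ∧ IsTy D Φ γ η τ ξ
  coh : ∀ γ > 0, ∀ (ξ q : E n) (b υ : ℝ) (η : ℕ → ℝ) (τ : ℕ → Ty), Tendsto η atTop (𝓝 0) →
    (∀ j, ((τ j).1 : ℝ) = b ∧ IsTy D Φ γ (η j) (τ j) ξ) → dot q ξ = 1 → |υ| ≤ Real.pi / 2 →
    Pol η τ b υ q →
      (∀ a ∈ interior (Kd D), dot q a ≠ 1) ∧ (q ∈ closure D → Tru D Φ q ξ (b - υ))

end Pool.Agent.MP_4baaa2_an.H94

/-!
Elementary facts on the dual complement and on the depth.
-/

namespace Pool.Agent.MP_4baaa2_an.H94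

open Set Metric Filter Topology Complex
open scoped ComplexConjugate
open Pool.Agent.Lib.PlaneTop

variable {n : ℕ}

/-- complex linear functionals are given by the pairing -/
theorem chart_repr (l : E n →ₗ[ℂ] ℂ) : ∃ ξ : E n, ∀ z, dot z ξ = l z := by
  refine ⟨WithLp.toLp 2 fun i => l (EuclideanSpace.single i 1), fun z => ?_⟩
  have hz : z = ∑ i, z i • EuclideanSpace.single i (1 : ℂ) := by
    ext j
    simp [Finset.sum_apply, Pi.single_apply]
  conv_rhs => rw [hz]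
  simp [dot_def]

theorem lc_kd {D : Set (E n)} (hlc : LinConvex D) (h0 : (0 : E n) ∈ D) :
    ∀ z ∉ D, ∃ ξ ∈ Kd D, dot z ξ = 1 := by
  intro z hz
  obtain ⟨l, -, hl⟩ := hlc z hz
  obtain ⟨ξ, hξ⟩ := chart_repr (l : E n →ₗ[ℂ] ℂ)
  have h0 : l z ≠ 0 := by simpa [eq_comm] using hl 0 h0
  refine ⟨(l z)⁻¹ • ξ, fun w hw h => hl w hw ?_, by simp [hξ, h0]⟩
  rw [dot_smul_right, hξ, inv_mul_eq_one₀ h0] at h
  exact h.symm

theorem ne_univ_of_bdd {D : Set (E n)} (hn : 2 ≤ n) (hb : Bornology.IsBounded D) : D ≠ univ := by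
  rintro rfl
  have : Nonempty (Fin n) := ⟨⟨0, by omega⟩⟩
  exact NormedSpace.unbounded_univ ℂ (E n) hb

theorem isClosed_Kd {D : Set (E n)} (hD : IsOpen D) : IsClosed (Kd D) := by
  refine isOpen_compl_iff.1 (isOpen_iff_mem_nhds.2 fun ξ hξ => ?_)
  obtain ⟨z, hz, h1⟩ : ∃ z ∈ D, dot z ξ = 1 := by simpa [Kd] using hξ
  have h2 : ContinuousAt (fun η => dot z η) ξ := by fun_prop
  have h3 : dot z ξ ≠ 0 := by simp [h1]
  have h4 : ContinuousAt (fun η => (dot z η)⁻¹ • z) ξ := (h2.inv₀ h3).smul continuousAt_const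
  filter_upwards [h2.eventually_ne h3, h4.eventually_mem (hD.mem_nhds (by simpa [h1] using hz))]
    with η a b c
  exact c _ b (by simp [a])

theorem isCompact_Kd {D : Set (E n)} (hD : IsOpen D) (h0 : (0 : E n) ∈ D) :
    IsCompact (Kd D) := by
  obtain ⟨ε, hε, hb⟩ := Metric.isOpen_iff.1 hD 0 h0
  refine isCompact_of_isClosed_isBounded (isClosed_Kd hD)
    (isBounded_iff_forall_norm_le.2 ⟨ε⁻¹, fun ξ hξ => le_of_not_gt fun h => ?_⟩)
  have h1 : 0 < ‖ξ‖ := (inv_pos.2 hε).trans h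
  refine hξ (((‖ξ‖ ^ 2)⁻¹ : ℝ) • cj ξ) (hb ?_) ?_
  · rw [mem_ball_zero_iff, norm_smul, norm_cj, Real.norm_of_nonneg (by positivity),
      show (‖ξ‖ ^ 2)⁻¹ * ‖ξ‖ = ‖ξ‖⁻¹ by field_simp]
    exact inv_lt_of_inv_lt₀ hε h
  · rw [dot_rsmul_left, dot_comm, dot_cj_self, ← ofReal_mul, inv_mul_cancel₀ (by positivity),
      ofReal_one]

theorem zero_mem_interior_Kd {D : Set (E n)} (hb : Bornology.IsBounded D) :
    (0 : E n) ∈ interior (Kd D) := by
  obtain ⟨R, hR, h⟩ := hb.exists_pos_norm_le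
  refine mem_interior_iff_mem_nhds.2 (Metric.mem_nhds_iff.2 ⟨R⁻¹, inv_pos.2 hR,
    fun ξ hξ z hz h1 => ?_⟩)
  have h2 := norm_dot_le z ξ
  rw [h1, norm_one] at h2
  have h3 := mul_lt_mul_of_pos_left (mem_ball_zero_iff.1 hξ) hR
  rw [mul_inv_cancel₀ hR.ne'] at h3
  nlinarith [h z hz, norm_nonneg ξ]

/-- hyperplanes from the interior of the dual complement miss the closure -/
theorem dot_ne_one_of_interior {D : Set (E n)} {a z : E n} (ha : a ∈ interior (Kd D))
    (hz : z ∈ closure D) : dot z a ≠ 1 := by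
  intro h1
  have h2 : ContinuousAt (fun w => dot w a) z := by fun_prop
  have h3 : dot z a ≠ 0 := by simp [h1]
  have h4 : ContinuousAt (fun w => (dot w a)⁻¹ • a) z := (h2.inv₀ h3).smul continuousAt_const
  obtain ⟨w, ⟨b, c⟩, hw⟩ := mem_closure_iff_nhds.1 hz _ ((h2.eventually_ne h3).and
    (h4.eventually_mem (s := Kd D) (by simpa [h1] using mem_interior_iff_mem_nhds.1 ha)))
  exact c w hw (by simp [b])

theorem dep_pos_iff {D : Set (E n)} (hD : IsOpen D) (hne : D ≠ univ) {z : E n} :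
    0 < dep D z ↔ z ∈ D := by
  rw [dep, ← hD.isClosed_compl.notMem_iff_infDist_pos (nonempty_compl.2 hne), notMem_compl_iff]

theorem ball_dep_subset {D : Set (E n)} (z : E n) : ball z (dep D z) ⊆ D :=
  ball_infDist_compl_subset

theorem le_dep_of_ball {D : Set (E n)} (hne : D ≠ univ) {z : E n} {δ : ℝ}
    (h : ball z δ ⊆ D) : δ ≤ dep D z :=
  (le_infDist (nonempty_compl.2 hne)).2 fun _ hy => le_of_not_gt fun h1 => hy (h (mem_ball'.2 h1))

theorem exists_frontier_near {D : Set (E n)} (hD : IsOpen D) (hne : D ≠ univ) {z : E n}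
    (hz : z ∈ D) : ∃ q ∈ frontier D, ‖q - z‖ = dep D z := by
  have _ := hD
  obtain ⟨q, h1, h2⟩ := exists_mem_frontier_infDist_compl_eq_dist hz hne
  exact ⟨q, h1, by rw [dep, h2, dist_eq_norm']⟩

theorem continuous_dep (D : Set (E n)) : Continuous (dep D) := continuous_infDist_pt _

theorem isCompact_deep {D : Set (E n)} (hb : Bornology.IsBounded D) (hne : D ≠ univ) {δ : ℝ}
    (hδ : 0 < δ) : IsCompact {z | δ ≤ dep D z} ∧ {z | δ ≤ dep D z} ⊆ D := by
  have _ := hne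
  have h : {z | δ ≤ dep D z} ⊆ D := fun z hz => ball_dep_subset z (mem_ball_self (hδ.trans_le hz))
  exact ⟨isCompact_of_isClosed_isBounded (isClosed_le continuous_const (continuous_dep D))
    (hb.subset h), h⟩

end Pool.Agent.MP_4baaa2_an.H94

end

-- part MP_4baaa2_an.H94.Cx1
section

/-!
Montel and Hurwitz theorems, maximum principles, Schwarz type estimates.
-/

namespace Pool.Agent.MP_4baaa2_an.H94

open Set Metric Filter Topology Complex
open scoped ComplexConjugate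
open Pool.Agent.Lib.PlaneTop

variable {n : ℕ}

variable {V : Type*} [NormedAddCommGroup V] [NormedSpace ℂ V]

/-- the open annulus `a < |w| < 1` -/
def Ann (a : ℝ) : Set ℂ := {w | a < ‖w‖ ∧ ‖w‖ < 1}

theorem isOpen_Ann (a : ℝ) : IsOpen (Ann a) := by
  exact (isOpen_lt continuous_const continuous_norm).inter
    (isOpen_lt continuous_norm continuous_const)

theorem isPreconnected_Ann {a : ℝ} (ha : 0 ≤ a) : IsPreconnected (Ann a) := by
  have h : Ann a = (fun p : ℝ × ℝ => (p.1 : ℂ) * exp (p.2 * I)) '' (Ioo a 1 ×ˢ univ) := by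
    ext w
    constructor
    · rintro ⟨h1, h2⟩
      exact ⟨(‖w‖, arg w), ⟨⟨h1, h2⟩, trivial⟩, norm_mul_exp_arg_mul_I w⟩
    · rintro ⟨⟨r, t⟩, ⟨⟨h1, h2⟩, -⟩, rfl⟩
      have hr : 0 ≤ r := ha.trans h1.le
      have : ‖(r : ℂ) * exp (t * I)‖ = r := by
        rw [norm_mul, norm_exp_ofReal_mul_I, mul_one, norm_real, Real.norm_of_nonneg hr]
      exact ⟨by simpa only [this] using h1, by simpa only [this] using h2⟩
  rw [h]
  exact (isPreconnected_Ioo.prod isPreconnected_univ).image _ (by fun_prop)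

/-- Montel's theorem along an ultrafilter -/
theorem montel [ProperSpace V] {ι : Type*} (𝒰 : Ultrafilter ι) {f : ι → ℂ → V} {U : Set ℂ}
    (hU : IsOpen U) (hf : ∀ᶠ k in (𝒰 : Filter ι), DifferentiableOn ℂ (f k) U)
    (hb : ∀ x ∈ U, ∃ r > 0, ∃ M : ℝ, ∀ᶠ k in (𝒰 : Filter ι), ∀ y ∈ ball x r ∩ U, ‖f k y‖ ≤ M) :
    ∃ g, DifferentiableOn ℂ g U ∧ TendstoLocallyUniformlyOn f g 𝒰 U := by
  have hlim : ∀ x, ∃ y, x ∈ U → Tendsto (fun k => f k x) 𝒰 (𝓝 y) := by
    intro x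
    by_cases hx : x ∈ U
    · obtain ⟨r, hr, M, hM⟩ := hb x hx
      have h1 : (↑(𝒰.map fun k => f k x) : Filter V) ≤ 𝓟 (closedBall (0 : V) M) := by
        rw [le_principal_iff, Ultrafilter.coe_map, mem_map]
        filter_upwards [hM] with k hk
        simpa using hk x ⟨mem_ball_self hr, hx⟩
      obtain ⟨y, -, hy⟩ := (isCompact_closedBall (0 : V) M).ultrafilter_le_nhds _ h1
      exact ⟨y, fun _ => hy⟩
    · exact ⟨0, fun h => absurd h hx⟩
  choose g hg using hlim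
  have key : TendstoLocallyUniformlyOn f g 𝒰 U := by
    rw [Metric.tendstoLocallyUniformlyOn_iff]
    intro ε hε x hx
    obtain ⟨r, hr, M, hM⟩ := hb x hx
    obtain ⟨r', hr', hsub⟩ := Metric.isOpen_iff.1 hU x hx
    set s := min r r' with hs
    have hs0 : 0 < s := lt_min hr hr'
    have hsU : ball x s ⊆ U := (ball_subset_ball (min_le_right _ _)).trans hsub
    have hlip : ∀ᶠ k in (𝒰 : Filter ι), ∀ y ∈ ball x s,
        dist (f k y) (f k x) ≤ 2 * M / s * dist y x := by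
      filter_upwards [hf, hM] with k h1 h2 y hy
      refine dist_le_div_mul_dist_of_mapsTo_ball (h1.mono hsU) ?_ hy
      intro z hz
      have a1 := h2 z ⟨ball_subset_ball (min_le_left _ _) hz, hsU hz⟩
      have a2 := h2 x ⟨mem_ball_self hr, hx⟩
      rw [mem_closedBall, dist_eq_norm]
      exact (norm_sub_le _ _).trans (by linarith)
    have hglip : ∀ y ∈ ball x s, dist (g y) (g x) ≤ 2 * M / s * dist y x := by
      intro y hy
      refine le_of_tendsto ((hg y (hsU hy)).dist (hg x hx)) ?_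
      filter_upwards [hlip] with k hk using hk y hy
    have hc : ContinuousAt (fun y : ℂ => 2 * M / s * dist y x) x := by fun_prop
    have hev : ∀ᶠ y in 𝓝 x, 2 * M / s * dist y x < ε / 3 :=
      hc.eventually (gt_mem_nhds (by simpa using hε))
    refine ⟨{y | 2 * M / s * dist y x < ε / 3} ∩ ball x s,
      mem_nhdsWithin_of_mem_nhds (inter_mem hev (ball_mem_nhds _ hs0)), ?_⟩
    have h3 := (Metric.tendsto_nhds.1 (hg x hx)) (ε / 3) (by positivity)
    filter_upwards [hlip, h3] with k h1 h2 y hy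
    have b1 := h1 y hy.2
    have b2 := hglip y hy.2
    have b3 : 2 * M / s * dist y x < ε / 3 := hy.1
    have := dist_triangle4 (g y) (g x) (f k x) (f k y)
    rw [dist_comm (g x), dist_comm (f k x) (f k y)] at this
    linarith
  exact ⟨g, key.differentiableOn hf hU, key⟩

/-- a function which is smaller at the centre than on the circle has a zero -/
theorem zero_of_lt {g : ℂ → ℂ} {c : ℂ} {r : ℝ} (hr : 0 < r) (hg : DiffContOnCl ℂ g (ball c r))
    (h : ∀ w ∈ sphere c r, ‖g c‖ < ‖g w‖) : ∃ w ∈ ball c r, g w = 0 := by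
  by_contra hne
  push Not at hne
  obtain ⟨w₀, hw₀, hmin⟩ := (isCompact_sphere c r).exists_isMinOn
    (NormedSpace.sphere_nonempty.2 hr.le)
    ((hg.continuousOn_ball.mono sphere_subset_closedBall).norm)
  have hm := h w₀ hw₀
  have hc0 : 0 < ‖g c‖ := norm_pos_iff.2 (hne c (mem_ball_self hr))
  have hnz : ∀ w ∈ closure (ball c r), g w ≠ 0 := by
    intro w hw
    rw [closure_ball c hr.ne', ← ball_union_sphere] at hw
    rcases hw with hw | hw
    · exact hne w hw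
    · exact norm_pos_iff.1 (hc0.trans (h w hw))
  have hd : DiffContOnCl ℂ g⁻¹ (ball c r) := hg.inv hnz
  have := norm_le_of_forall_mem_frontier_norm_le (C := ‖g w₀‖⁻¹) isBounded_ball hd (fun z hz => by
    rw [frontier_ball c hr.ne'] at hz
    rw [Pi.inv_apply, norm_inv]
    exact inv_anti₀ (hc0.trans hm) (hmin hz)) (subset_closure (mem_ball_self hr))
  rw [Pi.inv_apply, norm_inv] at this
  exact absurd this (not_le.2 (inv_strictAnti₀ hc0 hm))

/-- Hurwitz' theorem -/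
theorem hurwitz {ι : Type*} {l : Filter ι} [l.NeBot] {f : ι → ℂ → ℂ} {g : ℂ → ℂ} {U : Set ℂ}
    (hU : IsOpen U) (hc : IsPreconnected U)
    (hf : ∀ᶠ k in l, DifferentiableOn ℂ (f k) U ∧ ∀ x ∈ U, f k x ≠ 0)
    (hg : TendstoLocallyUniformlyOn f g l U) {x₀ : ℂ} (hx₀ : x₀ ∈ U) (h0 : g x₀ ≠ 0) :
    ∀ x ∈ U, g x ≠ 0 := by
  intro x hx hgx
  have hgd : DifferentiableOn ℂ g U := hg.differentiableOn (hf.mono fun k hk => hk.1) hU
  have han : AnalyticOnNhd ℂ g U := hgd.analyticOnNhd hU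
  rcases (han x hx).eventually_eq_zero_or_eventually_ne_zero with hz | hz
  · exact h0 (han.eqOn_zero_of_preconnected_of_eventuallyEq_zero hc hx hz hx₀)
  · rw [eventually_nhdsWithin_iff] at hz
    obtain ⟨r, hr, hball⟩ := nhds_basis_closedBall.mem_iff.1 (inter_mem hz (hU.mem_nhds hx))
    have hsub : closedBall x r ⊆ U := fun y hy => (hball hy).2
    obtain ⟨w₀, hw₀, hmin⟩ := (isCompact_sphere x r).exists_isMinOn
      (NormedSpace.sphere_nonempty.2 hr.le)
      ((hgd.continuousOn.mono (sphere_subset_closedBall.trans hsub)).norm)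
    have hm : 0 < ‖g w₀‖ := by
      refine norm_pos_iff.2 ((hball (sphere_subset_closedBall hw₀)).1 ?_)
      rintro rfl
      simp only [mem_sphere, dist_self] at hw₀
      exact hr.ne hw₀
    have hu : TendstoUniformlyOn f g l (closedBall x r) :=
      (tendstoLocallyUniformlyOn_iff_tendstoUniformlyOn_of_compact
        (isCompact_closedBall x r)).1 (hg.mono hsub)
    have h2 := Metric.tendstoUniformlyOn_iff.1 hu (‖g w₀‖ / 2) (by positivity)
    obtain ⟨k, ⟨hk1, hk2⟩, hk3⟩ := (hf.and h2).exists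
    have hd : DiffContOnCl ℂ (f k) (ball x r) :=
      hk1.diffContOnCl_ball hsub
    obtain ⟨w, hw, hw0⟩ := zero_of_lt hr hd (fun w hw => by
      have a1 := hk3 x (mem_closedBall_self hr.le)
      have a2 := hk3 w (sphere_subset_closedBall hw)
      have a3 : ‖g w₀‖ ≤ ‖g w‖ := hmin hw
      rw [hgx, dist_zero_left] at a1
      rw [dist_eq_norm] at a2
      have a4 := norm_sub_norm_le (g w) (f k w)
      linarith)
    exact hk2 w (hsub (ball_subset_closedBall hw)) hw0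

theorem re_nonneg_ball {P : ℂ → ℂ} {a : ℝ} (ha : a < 1) (hP : DifferentiableOn ℂ P (ball 0 1))
    (h : ∀ w ∈ Ann a, 0 ≤ (P w).re) : ∀ w ∈ ball (0 : ℂ) 1, 0 ≤ (P w).re := by
  intro w hw
  rw [mem_ball_zero_iff] at hw
  obtain ⟨ρ, h1, h2⟩ := exists_between (max_lt ha hw)
  have hρ : 0 < ρ := ((norm_nonneg w).trans (le_max_right _ _)).trans_lt h1
  have hd : DiffContOnCl ℂ (fun z => exp (-P z)) (ball 0 ρ) :=
    (hP.neg.cexp).diffContOnCl_ball (closedBall_subset_ball h2)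
  have := norm_le_of_forall_mem_frontier_norm_le (C := 1) isBounded_ball hd (fun z hz => by
    rw [frontier_ball _ hρ.ne', mem_sphere_zero_iff_norm] at hz
    have := h z ⟨by rw [hz]; exact (le_max_left _ _).trans_lt h1, by rw [hz]; exact h2⟩
    rw [norm_exp, neg_re, Real.exp_le_one_iff]
    linarith) (z := w)
    (subset_closure (mem_ball_zero_iff.2 ((le_max_right _ _).trans_lt h1)))
  rw [norm_exp, neg_re, Real.exp_le_one_iff] at this
  linarith

theorem ne_zero_of_re_nonneg {P : ℂ → ℂ} {U : Set ℂ} (hU : IsOpen U) (hc : IsPreconnected U)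
    (hP : DifferentiableOn ℂ P U) (h : ∀ w ∈ U, 0 ≤ (P w).re) {x₀ : ℂ} (hx₀ : x₀ ∈ U)
    (h0 : P x₀ ≠ 0) : ∀ w ∈ U, P w ≠ 0 := by
  intro w hw hPw
  have h1 : ∀ z ∈ U, 1 ≤ ‖1 + P z‖ := fun z hz => by
    have := re_le_norm (1 + P z)
    have := h z hz
    simp only [add_re, one_re] at *
    linarith
  have hnz : ∀ z ∈ U, 1 + P z ≠ 0 := fun z hz =>
    norm_pos_iff.1 (one_pos.trans_le (h1 z hz))
  have hd : DifferentiableOn ℂ (fun z => (1 + P z)⁻¹) U := (hP.const_add 1).inv hnz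
  have hmax : IsMaxOn (norm ∘ fun z => (1 + P z)⁻¹) U w := fun z hz => by
    simp only [Function.comp_apply, hPw, add_zero, inv_one, norm_one, norm_inv, mem_ofPred_eq]
    exact inv_le_one_of_one_le₀ (h1 z hz)
  have := eqOn_of_isPreconnected_of_isMaxOn_norm hc hU hd hw hmax hx₀
  simp only [Function.const_apply, hPw, add_zero, inv_one, inv_eq_one] at this
  exact h0 (by simpa using this)

/-- a continuous logarithm of a holomorphic function is holomorphic -/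
theorem holo_log {g L : ℂ → ℂ} {U : Set ℂ} (hU : IsOpen U) (hg : DifferentiableOn ℂ g U)
    (hL : ContinuousOn L U) (he : ∀ w ∈ U, exp (L w) = g w) : DifferentiableOn ℂ L U := by
  intro w₀ hw₀
  refine DifferentiableAt.differentiableWithinAt ?_
  have hn := hU.mem_nhds hw₀
  have hg0 : g w₀ ≠ 0 := he w₀ hw₀ ▸ exp_ne_zero _
  have hc : ContinuousAt (fun w => ‖L w - L w₀‖) w₀ :=
    ((hL.continuousAt hn).sub continuousAt_const).norm
  have hev : ∀ᶠ w in 𝓝 w₀, ‖L w - L w₀‖ < Real.pi :=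
    hc.eventually (gt_mem_nhds (by simpa using Real.pi_pos))
  have heq : L =ᶠ[𝓝 w₀] fun w => L w₀ + log (g w / g w₀) := by
    filter_upwards [hev, hn] with w h1 h2
    have h3 := abs_lt.1 ((abs_im_le_norm _).trans_lt h1)
    rw [← he w h2, ← he w₀ hw₀, ← exp_sub, log_exp h3.1 h3.2.le]
    ring
  refine DifferentiableAt.congr_of_eventuallyEq ?_ heq
  refine (DifferentiableAt.clog ((hg.differentiableAt hn).div_const _) ?_).const_add _
  rw [div_self hg0]
  exact one_mem_slitPlane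

/-- maximum principle for the imaginary part -/
theorem abs_im_le_of_sphere {L : ℂ → ℂ} {A : ℝ} (hL : DiffContOnCl ℂ L (ball 0 1))
    (h : ∀ w ∈ sphere (0 : ℂ) 1, |(L w).im| ≤ A) : ∀ w ∈ closedBall (0 : ℂ) 1, |(L w).im| ≤ A := by
  intro w hw
  have key : ∀ c : ℂ, (∀ z ∈ sphere (0 : ℂ) 1, (c * L z).re ≤ A) → (c * L w).re ≤ A := by
    intro c hc
    have hd : DiffContOnCl ℂ (fun z => exp (c * L z)) (ball 0 1) :=
      ⟨(hL.differentiableOn.const_mul c).cexp, (continuousOn_const.mul hL.continuousOn).cexp⟩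
    have := norm_le_of_forall_mem_frontier_norm_le (C := Real.exp A) isBounded_ball hd
      (fun z hz => by
        rw [frontier_ball _ one_ne_zero] at hz
        rw [norm_exp]
        exact Real.exp_le_exp.2 (hc z hz)) (z := w) (by rwa [closure_ball _ one_ne_zero])
    rwa [norm_exp, Real.exp_le_exp] at this
  have h1 := key I (fun z hz => by
    have := abs_le.1 (h z hz)
    simp only [mul_re, I_re, I_im]
    linarith [this.1])
  have h2 := key (-I) (fun z hz => by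
    have := abs_le.1 (h z hz)
    simp only [mul_re, neg_re, neg_im, I_re, I_im]
    linarith [this.2])
  simp only [mul_re, neg_re, neg_im, I_re, I_im] at h1 h2
  rw [abs_le]
  constructor <;> linarith

omit [NormedSpace ℂ V] in
lemma cx1_maps {G : ℂ → V} {c : ℂ} {δ b : ℝ} (hb : ∀ t ∈ ball c δ, ‖G t‖ ≤ b) {t : ℂ}
    (ht : t ∈ ball c δ) : MapsTo G (ball c δ) (closedBall (G c) (2 * b)) := by
  intro z hz
  have a1 := hb z hz
  have a2 := hb c (mem_ball_self (pos_of_mem_ball ht))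
  rw [mem_closedBall, dist_eq_norm]
  exact (norm_sub_le _ _).trans (by linarith)

theorem schwarz_lip [CompleteSpace V] {G : ℂ → V} {δ b : ℝ}
    (hG : DifferentiableOn ℂ G (ball 0 δ)) (hb : ∀ t ∈ ball (0 : ℂ) δ, ‖G t‖ ≤ b) :
    ∀ t ∈ ball (0 : ℂ) δ, ‖G t - G 0‖ ≤ 2 * b / δ * ‖t‖ := by
  intro t ht
  simpa [dist_eq_norm] using dist_le_div_mul_dist_of_mapsTo_ball hG (cx1_maps hb ht) ht

theorem schwarz_taylor [CompleteSpace V] {G : ℂ → V} {δ b : ℝ}
    (hG : DifferentiableOn ℂ G (ball 0 δ)) (hb : ∀ t ∈ ball (0 : ℂ) δ, ‖G t‖ ≤ b) :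
    ∀ t ∈ ball (0 : ℂ) δ, ‖G t - G 0 - t • deriv G 0‖ ≤ 4 * b / δ ^ 2 * ‖t‖ ^ 2 := by
  intro t ht
  have hδ : 0 < δ := pos_of_mem_ball ht
  have hd : DifferentiableOn ℂ (dslope G 0) (ball 0 δ) :=
    (differentiableOn_dslope (ball_mem_nhds _ hδ)).2 hG
  have h1 := schwarz_lip hd
    (fun s hs => norm_dslope_le_div_of_mapsTo_ball hG (cx1_maps hb ht) hs) t ht
  have h2 : G t - G 0 - t • deriv G 0 = t • (dslope G 0 t - dslope G 0 0) := by
    rw [smul_sub, dslope_same, ← sub_smul_dslope G 0 t, sub_zero]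
  rw [h2, norm_smul]
  calc ‖t‖ * ‖dslope G 0 t - dslope G 0 0‖ ≤ ‖t‖ * (2 * (2 * b / δ) / δ * ‖t‖) := by gcongr
    _ = _ := by field_simp; ring

theorem deriv_bound [CompleteSpace V] {h : ℂ → V} {R M ρ : ℝ} (hρ : ρ < R)
    (hh : DifferentiableOn ℂ h (ball 0 R)) (hM : ∀ w ∈ ball (0 : ℂ) R, ‖h w‖ ≤ M) {a : ℂ}
    (ha : ‖a‖ ≤ ρ) : ‖deriv h a‖ ≤ 2 * M / (R - ρ) := by
  have hsub : ball a (R - ρ) ⊆ ball 0 R := by
    refine ball_subset_ball' ?_
    rw [dist_zero_right]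
    linarith
  have h0 : 0 < R - ρ := by linarith
  exact norm_deriv_le_div_of_mapsTo_ball (hh.mono hsub)
    (cx1_maps (fun t ht => hM t (hsub ht)) (mem_ball_self h0)) h0

lemma cx1_lip [CompleteSpace V] {h : ℂ → V} {R M ρ : ℝ} (hρ : ρ < R)
    (hh : DifferentiableOn ℂ h (ball 0 R)) (hM : ∀ w ∈ ball (0 : ℂ) R, ‖h w‖ ≤ M) {a b : ℂ}
    (ha : ‖a‖ ≤ ρ) (hb : ‖b‖ ≤ ρ) : ‖h b - h a‖ ≤ 2 * M / (R - ρ) * ‖b - a‖ :=
  (convex_closedBall (0 : ℂ) ρ).norm_image_sub_le_of_norm_deriv_le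
    (fun _ hx => hh.differentiableAt (isOpen_ball.mem_nhds (closedBall_subset_ball hρ hx)))
    (fun _ hx => deriv_bound hρ hh hM (mem_closedBall_zero_iff.1 hx))
    (mem_closedBall_zero_iff.2 ha) (mem_closedBall_zero_iff.2 hb)

theorem dslope_bound [CompleteSpace V] {h : ℂ → V} {R M ρ : ℝ} (hρ : ρ < R)
    (hh : DifferentiableOn ℂ h (ball 0 R)) (hM : ∀ w ∈ ball (0 : ℂ) R, ‖h w‖ ≤ M) {a b : ℂ}
    (ha : ‖a‖ ≤ ρ) (hb : ‖b‖ ≤ ρ) : ‖dslope h a b‖ ≤ 2 * M / (R - ρ) := by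
  rcases eq_or_ne b a with rfl | hne
  · rw [dslope_same]
    exact deriv_bound hρ hh hM ha
  · have h0 : 0 < ‖b - a‖ := norm_pos_iff.2 (sub_ne_zero.2 hne)
    rw [dslope_of_ne _ hne, slope_def_module, norm_smul, norm_inv, ← div_eq_inv_mul,
      div_le_iff₀ h0]
    exact cx1_lip hρ hh hM ha hb

theorem dslope_symm (h : ℂ → V) (a b : ℂ) : dslope h a b = dslope h b a := by
  rcases eq_or_ne b a with rfl | hne
  · rfl
  · rw [dslope_of_ne _ hne, dslope_of_ne _ hne.symm, slope_comm]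

lemma cx1_dslope_lip [CompleteSpace V] {h : ℂ → V} {R M ρ : ℝ} (hρ : ρ < R)
    (hh : DifferentiableOn ℂ h (ball 0 R)) (hM : ∀ w ∈ ball (0 : ℂ) R, ‖h w‖ ≤ M) :
    ∃ K : ℝ, ∀ a b b' : ℂ, ‖a‖ ≤ ρ → ‖b‖ ≤ ρ → ‖b'‖ ≤ ρ →
      ‖dslope h a b' - dslope h a b‖ ≤ K * ‖b' - b‖ := by
  obtain ⟨S, h1, h2⟩ := exists_between hρ
  refine ⟨2 * (2 * M / (R - S)) / (S - ρ), fun a b b' ha hb hb' => ?_⟩
  have hd : DifferentiableOn ℂ (dslope h a) (ball 0 R) :=
    (differentiableOn_dslope (isOpen_ball.mem_nhds (mem_ball_zero_iff.2 (ha.trans_lt hρ)))).2 hh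
  exact cx1_lip h1 (hd.mono (ball_subset_ball h2.le))
    (fun w hw => dslope_bound h2 hh hM (ha.trans h1.le) (mem_ball_zero_iff.1 hw).le) hb hb'

/-- joint continuity of the divided difference -/
theorem dslope_cont [CompleteSpace V] {h : ℂ → V} (hh : DiffContOnCl ℂ h (ball 0 1)) :
    ContinuousOn (fun x : ℂ × ℂ => dslope h x.1 x.2) (ball 0 1 ×ˢ closedBall 0 1) := by
  have hc : ContinuousOn h (closedBall 0 1) := hh.continuousOn_ball
  rintro ⟨a₀, b₀⟩ ⟨ha₀, hb₀⟩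
  rcases eq_or_ne b₀ a₀ with rfl | hne
  · obtain ⟨M, hM⟩ := (isCompact_closedBall (0 : ℂ) 1).exists_bound_of_continuousOn hc
    obtain ⟨ρ, h1, h2⟩ := exists_between (mem_ball_zero_iff.1 ha₀)
    obtain ⟨K, hK⟩ := cx1_dslope_lip h2 hh.differentiableOn
      (fun w hw => hM w (ball_subset_closedBall hw))
    refine ContinuousAt.continuousWithinAt ?_
    rw [ContinuousAt, tendsto_iff_norm_sub_tendsto_zero]
    have hc2 : Tendsto (fun x : ℂ × ℂ => K * ‖x.2 - b₀‖ + K * ‖x.1 - b₀‖) (𝓝 (b₀, b₀)) (𝓝 0) := by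
      refine Continuous.tendsto' (by fun_prop) _ _ (by simp)
    refine squeeze_zero' (Eventually.of_forall fun _ => norm_nonneg _) ?_ hc2
    have e1 : ∀ᶠ x : ℂ × ℂ in 𝓝 (b₀, b₀), ‖x.1‖ < ρ :=
      (continuous_fst.norm.tendsto _).eventually (gt_mem_nhds h1)
    have e2 : ∀ᶠ x : ℂ × ℂ in 𝓝 (b₀, b₀), ‖x.2‖ < ρ :=
      (continuous_snd.norm.tendsto _).eventually (gt_mem_nhds h1)
    filter_upwards [e1, e2] with x x1 x2
    have a1 := hK x.1 b₀ x.2 x1.le h1.le x2.le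
    have a2 := hK b₀ b₀ x.1 h1.le h1.le x1.le
    rw [dslope_symm h b₀ x.1] at a2
    exact (norm_sub_le_norm_sub_add_norm_sub _ (dslope h x.1 b₀) _).trans (add_le_add a1 a2)
  · have e : ∀ᶠ x : ℂ × ℂ in 𝓝 (a₀, b₀), x.2 ≠ x.1 :=
      (isOpen_ne_fun continuous_snd continuous_fst).mem_nhds hne
    have c1 : ContinuousWithinAt (fun x : ℂ × ℂ => h x.1) (ball 0 1 ×ˢ closedBall 0 1) (a₀, b₀) :=
      ContinuousWithinAt.comp (hc a₀ (ball_subset_closedBall ha₀)) continuousWithinAt_fst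
        (fun x hx => ball_subset_closedBall hx.1)
    have c2 : ContinuousWithinAt (fun x : ℂ × ℂ => h x.2) (ball 0 1 ×ˢ closedBall 0 1) (a₀, b₀) :=
      ContinuousWithinAt.comp (hc b₀ hb₀) continuousWithinAt_snd (fun x hx => hx.2)
    have c3 : ContinuousWithinAt (fun x : ℂ × ℂ => (x.2 - x.1)⁻¹ • (h x.2 - h x.1))
        (ball 0 1 ×ˢ closedBall 0 1) (a₀, b₀) :=
      ((continuousWithinAt_snd.sub continuousWithinAt_fst).inv₀ (sub_ne_zero.2 hne)).smul
        (c2.sub c1)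
    refine c3.congr_of_eventuallyEq ?_ ?_
    · filter_upwards [mem_nhdsWithin_of_mem_nhds e] with x hx
      rw [dslope_of_ne _ hx, slope_def_module]
    · rw [dslope_of_ne _ hne, slope_def_module]

lemma cx1_dslope_sub {f g : ℂ → V} {a : ℂ} (hf : DifferentiableAt ℂ f a)
    (hg : DifferentiableAt ℂ g a) (b : ℂ) :
    dslope (f - g) a b = dslope f a b - dslope g a b := by
  rcases eq_or_ne b a with rfl | hne
  · simp only [dslope_same]
    exact deriv_sub hf hg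
  · simp only [dslope_of_ne _ hne, slope_def_module, Pi.sub_apply, ← smul_sub]
    congr 1
    abel

/-- divided differences converge along locally uniform limits -/
theorem dslope_tendsto [CompleteSpace V] {ι : Type*} {l : Filter ι} {f : ι → ℂ → V} {g : ℂ → V}
    (hf : ∀ᶠ k in l, DifferentiableOn ℂ (f k) (ball 0 1)) (hg : DifferentiableOn ℂ g (ball 0 1))
    (hlim : TendstoLocallyUniformlyOn f g l (ball 0 1)) {a : ι → ℂ} {a₀ : ℂ}
    (ha : Tendsto a l (𝓝 a₀)) (ha₀ : a₀ ∈ ball (0 : ℂ) 1) :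
    TendstoLocallyUniformlyOn (fun k => dslope (f k) (a k)) (dslope g a₀) l (ball 0 1) := by
  rw [Metric.tendstoLocallyUniformlyOn_iff]
  intro ε hε x hx
  obtain ⟨ρ, h1, h2⟩ := exists_between
    (max_lt (mem_ball_zero_iff.1 ha₀) (mem_ball_zero_iff.1 hx))
  obtain ⟨R, h3, h4⟩ := exists_between h2
  have hsub : closedBall (0 : ℂ) R ⊆ ball 0 1 := closedBall_subset_ball h4
  have hsub' : ball (0 : ℂ) R ⊆ ball 0 1 := ball_subset_ball h4.le
  have ha1 : ‖a₀‖ < ρ := (le_max_left _ _).trans_lt h1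
  obtain ⟨M, hM⟩ := (isCompact_closedBall (0 : ℂ) R).exists_bound_of_continuousOn
    (hg.continuousOn.mono hsub)
  obtain ⟨K, hK⟩ := cx1_dslope_lip h3 (hg.mono hsub')
    (fun w hw => hM w (ball_subset_closedBall hw))
  have hu : TendstoUniformlyOn f g l (closedBall 0 R) :=
    (tendstoLocallyUniformlyOn_iff_tendstoUniformlyOn_of_compact
      (isCompact_closedBall _ R)).1 (hlim.mono hsub)
  have hR : 0 < R - ρ := by linarith
  have e1 := Metric.tendstoUniformlyOn_iff.1 hu (ε / 4 * (R - ρ)) (by positivity)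
  have e2 : ∀ᶠ k in l, ‖a k‖ < ρ := ha.norm.eventually (gt_mem_nhds ha1)
  have e3 : ∀ᶠ k in l, K * ‖a₀ - a k‖ < ε / 2 := by
    have : Tendsto (fun k => K * ‖a₀ - a k‖) l (𝓝 (K * ‖a₀ - a₀‖)) :=
      ((tendsto_const_nhds.sub ha).norm).const_mul K
    exact this.eventually (gt_mem_nhds (by simpa using hε))
  refine ⟨ball 0 ρ, mem_nhdsWithin_of_mem_nhds (isOpen_ball.mem_nhds
    (mem_ball_zero_iff.2 ((le_max_right _ _).trans_lt h1))), ?_⟩
  filter_upwards [hf, e1, e2, e3] with k k0 k1 k2 k3 y hy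
  rw [mem_ball_zero_iff] at hy
  have b1 := hK y (a k) a₀ hy.le k2.le ha1.le
  rw [dslope_symm g y, dslope_symm g y] at b1
  have hak : ball (0 : ℂ) 1 ∈ 𝓝 (a k) := isOpen_ball.mem_nhds (mem_ball_zero_iff.2 (k2.trans h2))
  have b2 := dslope_bound (M := ε / 4 * (R - ρ)) h3 ((hg.sub k0).mono hsub')
    (fun w hw => by simpa [dist_eq_norm] using (k1 w (ball_subset_closedBall hw)).le)
    k2.le hy.le
  rw [cx1_dslope_sub (hg.differentiableAt hak) (k0.differentiableAt hak)] at b2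
  have b3 : 2 * (ε / 4 * (R - ρ)) / (R - ρ) = ε / 2 := by field_simp; ring
  rw [dist_eq_norm]
  have := norm_sub_le_norm_sub_add_norm_sub (dslope g a₀ y) (dslope g (a k) y)
    (dslope (f k) (a k) y)
  linarith

end Pool.Agent.MP_4baaa2_an.H94

/-!
Two forms of the argument principle.
-/

namespace Pool.Agent.MP_4baaa2_an.H94

open Set Metric Filter Topology Complex
open scoped ComplexConjugate
open Pool.Agent.Lib.PlaneTop

variable {n : ℕ}

theorem cx2_remove {K O : Set ℂ} (hO : IsOpen O) (hOK : O ⊆ K) {a : ℂ} (ha : a ∈ O) (m : ℕ) :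
    ∀ g : ℂ → ℂ, ContinuousOn g K → DifferentiableOn ℂ g O → analyticOrderAt g a = m →
      ∃ g₁ : ℂ → ℂ, ContinuousOn g₁ K ∧ DifferentiableOn ℂ g₁ O ∧ g₁ a ≠ 0 ∧
        ∀ w, g w = (w - a) ^ m * g₁ w := by
  have hn := hO.mem_nhds ha
  induction m with
  | zero =>
    intro g hc hd h
    exact ⟨g, hc, hd, (hd.analyticAt hn).analyticOrderAt_eq_zero.1 (by simpa using h), by simp⟩
  | succ m ih =>
    intro g hc hd h
    have h0 : g a = 0 := apply_eq_zero_of_analyticOrderAt_ne_zero (by rw [h]; simp)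
    have e : ∀ w, g w = (w - a) * dslope g a w := fun w => by
      rw [← smul_eq_mul, sub_smul_dslope, h0, sub_zero]
    have hd' : DifferentiableOn ℂ (dslope g a) O := (differentiableOn_dslope hn).2 hd
    have hc' : ContinuousOn (dslope g a) K :=
      (continuousOn_dslope (mem_of_superset hn hOK)).2 ⟨hc, hd.differentiableAt hn⟩
    have ho := analyticOrderAt_mul (f := fun w => w - a) (g := dslope g a) (z₀ := a)
      (by fun_prop) (hd'.analyticAt hn)
    have e' : (fun w => w - a) * dslope g a = g := (funext e).symm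
    have h1 : analyticOrderAt (fun w : ℂ => w - a) a = 1 := analyticOrderAt_id_sub_const_self
    rw [e', h, h1, Nat.cast_succ, add_comm] at ho
    obtain ⟨g₁, a1, a2, a3, a4⟩ := ih _ hc' hd'
      (WithTop.add_left_cancel ENat.one_ne_top ho).symm
    exact ⟨g₁, a1, a2, a3, fun w => by rw [e, a4, pow_succ]; ring⟩

theorem cx2_finite {K O : Set ℂ} (hO : IsOpen O) (hOK : O ⊆ K) (hc : IsPreconnected O)
    {S : Set ℂ} (hS : S.Finite) : S ⊆ O → ∀ g : ℂ → ℂ, ContinuousOn g K → DifferentiableOn ℂ g O →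
      (∃ x ∈ O, g x ≠ 0) → (∀ w ∈ K, g w = 0 → w ∈ S) →
      ∃ (l : List ℂ) (g₁ : ℂ → ℂ), (∀ a ∈ l, a ∈ O) ∧ ContinuousOn g₁ K ∧
        DifferentiableOn ℂ g₁ O ∧ (∀ w ∈ K, g₁ w ≠ 0) ∧
        ∀ w, g w = (l.map fun a => w - a).prod * g₁ w := by
  induction S, hS using Set.Finite.induction_on with
  | empty => exact fun _ g h1 h2 _ h => ⟨[], g, by simp, h1, h2, h, by simp⟩
  | @insert a S _ _ ih =>
    rintro hS g h1 h2 ⟨x, hx, hx0⟩ h
    have ha : a ∈ O := hS (mem_insert _ _)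
    have hA := h2.analyticOnNhd hO
    have ht : analyticOrderAt g a ≠ ⊤ :=
      hA.analyticOrderAt_ne_top_of_isPreconnected hc hx ha
        (by rw [(hA x hx).analyticOrderAt_eq_zero.2 hx0]; simp)
    obtain ⟨m, hm⟩ := ENat.ne_top_iff_exists.1 ht
    obtain ⟨g₁, a1, a2, a3, a4⟩ := cx2_remove hO hOK ha m g h1 h2 hm.symm
    obtain ⟨l, g₂, b1, b2, b3, b4, b5⟩ := ih ((subset_insert _ _).trans hS) g₁ a1 a2
      ⟨x, hx, fun e => hx0 (by rw [a4, e, mul_zero])⟩ fun w hw e => by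
        rcases h w hw (by rw [a4, e, mul_zero]) with rfl | h'
        · exact absurd e a3
        · exact h'
    refine ⟨List.replicate m a ++ l, g₂, fun b hb => ?_, b2, b3, b4, fun w => ?_⟩
    · rcases List.mem_append.1 hb with hb | hb
      · rw [List.eq_of_mem_replicate hb]; exact ha
      · exact b1 b hb
    · rw [a4, b5]; simp [mul_assoc]

theorem cx2_factor {K O : Set ℂ} (hK : IsCompact K) (hO : IsOpen O) (hOK : O ⊆ K)
    (hc : IsPreconnected O) {g : ℂ → ℂ} (h1 : ContinuousOn g K) (h2 : DifferentiableOn ℂ g O)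
    (hb : ∀ w ∈ K, g w = 0 → w ∈ O) {x₀ : ℂ} (hx₀ : x₀ ∈ K) (hx₀' : x₀ ∉ O)
    (hcl : x₀ ∈ closure O) :
    ∃ (l : List ℂ) (g₁ : ℂ → ℂ), (∀ a ∈ l, a ∈ O) ∧ ContinuousOn g₁ K ∧
      DifferentiableOn ℂ g₁ O ∧ (∀ w ∈ K, g₁ w ≠ 0) ∧
      ∀ w, g w = (l.map fun a => w - a).prod * g₁ w := by
  have hx : ∃ x ∈ O, g x ≠ 0 := by
    by_contra h
    push Not at h
    have := ((h1 x₀ hx₀).mono hOK).mem_closure_image hcl
    have hs : g '' O ⊆ {0} := by rintro _ ⟨x, hx, rfl⟩; exact h x hx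
    exact hx₀' (hb x₀ hx₀ (by simpa using closure_mono hs this))
  obtain ⟨x, hx, hx0⟩ := hx
  have hA := h2.analyticOnNhd hO
  have hZ : IsCompact (K ∩ g ⁻¹' {0}) :=
    hK.of_isClosed_subset (h1.preimage_isClosed_of_isClosed hK.isClosed isClosed_singleton)
      inter_subset_left
  have hfin : (K ∩ g ⁻¹' {0}).Finite := by
    refine hZ.finite (isDiscrete_iff_nhdsNE.2 fun a ha => ?_)
    have haO := hb a ha.1 ha.2
    rcases (hA a haO).eventually_eq_zero_or_eventually_ne_zero with h | h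
    · exact absurd (hA.eqOn_zero_of_preconnected_of_eventuallyEq_zero hc haO h hx) hx0
    · rw [inf_principal_eq_bot]
      exact h.mono fun w hw hw' => hw hw'.2
  exact cx2_finite hO hOK hc hfin (fun w hw => hb w hw.1 hw.2) g h1 h2 ⟨x, hx, hx0⟩
    fun w hw e => ⟨hw, e⟩

theorem cx2_in {r : ℝ} (hr : 0 < r) (l : List ℂ) (hl : ∀ a ∈ l, ‖a‖ < r) :
    HasLogOn (fun w => (l.map fun a => w - a).prod / w ^ l.length) (sphere (0 : ℂ) r) := by
  have hne : ∀ w ∈ sphere (0 : ℂ) r, w ≠ 0 := fun w hw => ne_of_mem_sphere hw hr.ne'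
  induction l with
  | nil => simpa using hasLogOn_const one_ne_zero _
  | cons a l ih =>
    have h1 : HasLogOn (fun w => 1 + -a / w) (sphere (0 : ℂ) r) := by
      refine hasLogOn_slit (continuousOn_const.add (continuousOn_const.div continuousOn_id hne))
        fun w hw => mem_slitPlane_of_norm_lt_one ?_
      rw [norm_div, norm_neg, mem_sphere_zero_iff_norm.1 hw, div_lt_one hr]
      exact hl a (by simp)
    refine (h1.mul (ih fun b hb => hl b (by simp [hb]))).congr fun w hw => ?_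
    have := hne w hw
    simp only [List.map_cons, List.prod_cons, List.length_cons]
    field_simp
    ring

theorem cx2_out {r : ℝ} (hr : 0 < r) (l : List ℂ) (hl : ∀ a ∈ l, r < ‖a‖) :
    HasLogOn (fun w => (l.map fun a => w - a).prod) (sphere (0 : ℂ) r) := by
  induction l with
  | nil => simpa using hasLogOn_const one_ne_zero _
  | cons a l ih =>
    have ha := hl a (by simp)
    have ha0 : a ≠ 0 := norm_pos_iff.1 (hr.trans ha)
    have h1 : HasLogOn (fun w => 1 + -w / a) (sphere (0 : ℂ) r) := by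
      refine hasLogOn_slit (by fun_prop) fun w hw => mem_slitPlane_of_norm_lt_one ?_
      rwa [norm_div, norm_neg, mem_sphere_zero_iff_norm.1 hw, div_lt_one (hr.trans ha)]
    refine (((hasLogOn_const (neg_ne_zero.2 ha0) _).mul h1).mul
      (ih fun b hb => hl b (by simp [hb]))).congr fun w hw => ?_
    simp only [List.map_cons, List.prod_cons]
    field_simp
    ring

theorem AP_disc {g : ℂ → ℂ} (hg : DiffContOnCl ℂ g (ball 0 1))
    (hl : HasLogOn (fun w => g w / w) (sphere 0 1)) :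
    ∃ ζ ∈ ball (0 : ℂ) 1, g ζ = 0 ∧ ∀ w ∈ ball (0 : ℂ) 1, dslope g ζ w ≠ 0 := by
  have hcl : closure (ball (0 : ℂ) 1) = closedBall 0 1 := closure_ball _ one_ne_zero
  have hne : ∀ w ∈ sphere (0 : ℂ) 1, w ≠ 0 := fun w hw => ne_of_mem_sphere hw one_ne_zero
  obtain ⟨l, g₁, b1, b2, b3, b4, b5⟩ := cx2_factor (isCompact_closedBall (0 : ℂ) 1) isOpen_ball
    ball_subset_closedBall (convex_ball _ _).isPreconnected (hcl ▸ hg.2) hg.1
    (fun w hw e => by
      by_contra h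
      have hs : w ∈ sphere (0 : ℂ) 1 := by
        rw [← closedBall_sdiff_ball]; exact ⟨hw, h⟩
      exact hl.ne_zero hs (by simp [e]))
    (x₀ := 1) (by simp) (by simp) (by simp [hcl])
  have l1 := (hasLogOn_of_convex (convex_closedBall _ _) b2 b4).mono sphere_subset_closedBall
  have l2 := cx2_in one_pos l fun a ha => mem_ball_zero_iff.1 (b1 a ha)
  have l3 : HasLogOn (fun w => w ^ l.length / w) (sphere (0 : ℂ) 1) := by
    refine ((hl.div l1).div l2).congr fun w hw => ?_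
    have n1 := hne w hw
    have n2 := b4 w (sphere_subset_closedBall hw)
    have n3 : (l.map fun a => w - a).prod ≠ 0 := fun e => l2.ne_zero hw (by simp only [e, zero_div])
    rw [b5]
    field_simp
  match l, b1, b5, l3 with
  | [], _, _, l3 =>
    refine absurd (((hasLogOn_const one_ne_zero _).div l3).congr fun w hw => ?_)
      (not_hasLogOn_sphere 0 one_pos)
    simp
  | [ζ], b1, b5, _ =>
    have hζ := b1 ζ (by simp)
    have e : g = fun w => (w - ζ) • g₁ w := funext fun w => by simp [b5]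
    refine ⟨ζ, hζ, by simp [e], fun w hw => ?_⟩
    rcases eq_or_ne w ζ with rfl | h
    · have := ((hasDerivAt_id w).sub_const w).fun_smul
        (b3.differentiableAt (isOpen_ball.mem_nhds hw)).hasDerivAt
      simp only [id, sub_self, zero_smul, one_smul, zero_add] at this
      rw [dslope_same, e, this.deriv]
      exact b4 w (ball_subset_closedBall hw)
    · rw [e, dslope_sub_smul_of_ne _ h]
      exact b4 w (ball_subset_closedBall hw)
  | a :: b :: l, _, _, l3 =>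
    refine absurd (l3.congr fun w hw => ?_)
      (not_hasLogOn_sphere_pow 0 one_pos (Nat.succ_ne_zero l.length))
    have := hne w hw
    simp only [List.length_cons, sub_zero, pow_succ]
    field_simp

theorem AP_ann {g : ℂ → ℂ} {U : Set ℂ} {a b : ℝ} (ha : 0 < a) (hab : a ≤ b) (hU : IsOpen U)
    (hsub : ∀ w : ℂ, a ≤ ‖w‖ → ‖w‖ ≤ b → w ∈ U) (hg : DifferentiableOn ℂ g U)
    (h1 : HasLogOn g (sphere 0 a)) (h2 : HasLogOn g (sphere 0 b)) :
    ∀ w : ℂ, a ≤ ‖w‖ → ‖w‖ ≤ b → g w ≠ 0 := by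
  rcases hab.eq_or_lt with rfl | hab'
  · exact fun w h h' => h1.ne_zero (mem_sphere_zero_iff_norm.2 (le_antisymm h' h))
  have hb : 0 < b := ha.trans hab'
  set K : Set ℂ := {w | a ≤ ‖w‖ ∧ ‖w‖ ≤ b} with hK
  set O : Set ℂ := {w | a < ‖w‖ ∧ ‖w‖ < b} with hO
  have hKc : IsCompact K := (isCompact_closedBall (0 : ℂ) b).of_isClosed_subset
    (isClosed_Icc.preimage continuous_norm) fun w hw => mem_closedBall_zero_iff.2 hw.2
  have hOo : IsOpen O := isOpen_Ioo.preimage continuous_norm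
  have hOK : O ⊆ K := fun w hw => ⟨hw.1.le, hw.2.le⟩
  have hKU : K ⊆ U := fun w hw => hsub w hw.1 hw.2
  have hOc : IsPreconnected O := by
    have : O = (fun p : ℝ × ℝ => (p.1 : ℂ) * exp (p.2 * I)) '' (Ioo a b ×ˢ univ) := by
      ext w
      constructor
      · exact fun hw => ⟨(‖w‖, arg w), ⟨hw, trivial⟩, norm_mul_exp_arg_mul_I w⟩
      · rintro ⟨p, hp, rfl⟩
        have : ‖(p.1 : ℂ) * exp (p.2 * I)‖ = p.1 := by
          rw [norm_mul, norm_exp_ofReal_mul_I, mul_one, Complex.norm_real,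
            Real.norm_of_nonneg (ha.trans hp.1.1).le]
        simp only [hO, mem_ofPred_eq, this]
        exact hp.1
    rw [this]
    exact (isPreconnected_Ioo.prod isPreconnected_univ).image _ (by fun_prop)
  have hna : ‖(a : ℂ)‖ = a := by rw [Complex.norm_real, Real.norm_of_nonneg ha.le]
  obtain ⟨l, g₁, b1, b2, b3, b4, b5⟩ := cx2_factor hKc hOo hOK hOc (hg.continuousOn.mono hKU)
    (hg.mono (hOK.trans hKU))
    (fun w hw e => ⟨hw.1.lt_of_ne fun h => h1.ne_zero (mem_sphere_zero_iff_norm.2 h.symm) e,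
      hw.2.lt_of_ne fun h => h2.ne_zero (mem_sphere_zero_iff_norm.2 h) e⟩)
    (x₀ := a) ⟨hna.ge, hna.le.trans hab⟩ (fun h => h.1.ne hna.symm)
    (map_mem_closure continuous_ofReal (s := Ioo a b)
      (by rw [closure_Ioo hab'.ne]; exact left_mem_Icc.2 hab) fun r hr => by
        simp only [hO, mem_ofPred_eq, Complex.norm_real, Real.norm_of_nonneg (ha.trans hr.1).le]
        exact hr)
  have sa : sphere (0 : ℂ) a ⊆ K := fun w hw => by
    rw [mem_sphere_zero_iff_norm] at hw; exact ⟨hw.ge, hw.le.trans hab⟩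
  have sb : sphere (0 : ℂ) b ⊆ K := fun w hw => by
    rw [mem_sphere_zero_iff_norm] at hw; exact ⟨hab.trans hw.ge, hw.le⟩
  have l1 := cx2_out ha l fun c hc => (b1 c hc).1
  have l2 := cx2_in hb l fun c hc => (b1 c hc).2
  have l3 : HasLogOn g₁ (sphere 0 a) := (h1.div l1).congr fun w hw => by
    have := l1.ne_zero hw
    rw [b5]
    field_simp
  have hm : ∀ t ∈ Icc (0 : ℝ) 1, ∀ w ∈ sphere (0 : ℂ) b,
      (((a + t * (b - a)) / b : ℝ) : ℂ) * w ∈ K := fun t ht w hw => by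
    have p : 0 ≤ t * (b - a) := mul_nonneg ht.1 (by linarith)
    have q : t * (b - a) ≤ b - a := mul_le_of_le_one_left (by linarith) ht.2
    have : ‖(((a + t * (b - a)) / b : ℝ) : ℂ) * w‖ = a + t * (b - a) := by
      rw [norm_mul, mem_sphere_zero_iff_norm.1 hw, Complex.norm_real,
        Real.norm_of_nonneg (by positivity)]
      field_simp
    simp only [hK, mem_ofPred_eq, this]
    constructor <;> linarith
  have l4 : HasLogOn g₁ (sphere 0 b) := by
    have := HasLogOn.homotopy (H := fun t w => g₁ ((((a + t * (b - a)) / b : ℝ) : ℂ) * w))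
      (K := sphere 0 b) (b2.comp (by fun_prop) fun p hp => hm _ hp.1 _ hp.2)
      (fun t ht w hw => b4 _ (hm t ht w hw))
      (l3.comp (φ := fun w => (((a + 0 * (b - a)) / b : ℝ) : ℂ) * w) (by fun_prop) fun w hw => by
        rw [mem_sphere_zero_iff_norm, norm_mul, mem_sphere_zero_iff_norm.1 hw, Complex.norm_real,
          zero_mul, add_zero, Real.norm_of_nonneg (by positivity)]
        field_simp)
    refine this.congr fun w _ => ?_
    rw [one_mul, add_sub_cancel, div_self hb.ne', ofReal_one, one_mul]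
  have l5 : HasLogOn (fun w => (w - 0) ^ l.length) (sphere (0 : ℂ) b) := by
    refine ((h2.div l4).div l2).congr fun w hw => ?_
    have n1 : w ≠ 0 := ne_of_mem_sphere hw hb.ne'
    have n2 := b4 w (sb hw)
    have n3 : (l.map fun a => w - a).prod ≠ 0 := fun e => l2.ne_zero hw (by simp only [e, zero_div])
    rw [b5, sub_zero]
    field_simp
  have h0 : l.length = 0 := by
    by_contra h
    exact not_hasLogOn_sphere_pow 0 hb h l5
  intro w hw hw'
  rw [b5, List.length_eq_zero_iff.1 h0]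
  simpa using b4 w ⟨hw, hw'⟩

end Pool.Agent.MP_4baaa2_an.H94

/-!
Harnack inequalities and consequences, approximation of phases.
-/

namespace Pool.Agent.MP_4baaa2_an.H94

open Set Metric Filter Topology Complex
open scoped ComplexConjugate
open Pool.Agent.Lib.PlaneTop

variable {n : ℕ}

theorem cx3_den {a z : ℂ} (ha : 0 < a.re) (hz : 0 ≤ z.re) : z + conj a ≠ 0 := by
  intro h
  have := congrArg re h
  simp only [add_re, conj_re, zero_re] at this
  linarith

theorem cx3_cayley {P : ℂ → ℂ} {c : ℂ} {R : ℝ} (hP : DifferentiableOn ℂ P (ball c R))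
    (hpos : ∀ w ∈ ball c R, 0 ≤ (P w).re) (hc : 0 < (P c).re) :
    DifferentiableOn ℂ (fun w => (P w - P c) / (P w + conj (P c))) (ball c R) ∧
    MapsTo (fun w => (P w - P c) / (P w + conj (P c))) (ball c R)
      (closedBall ((fun w => (P w - P c) / (P w + conj (P c))) c) 1) := by
  refine ⟨(hP.sub_const _).div (hP.add_const _) fun w hw => cx3_den hc (hpos w hw), fun w hw => ?_⟩
  simp only [sub_self, zero_div, mem_closedBall_zero_iff, norm_div]
  rw [div_le_one (norm_pos_iff.mpr (cx3_den hc (hpos w hw))),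
    ← sq_le_sq₀ (norm_nonneg _) (norm_nonneg _)]
  simp only [Complex.sq_norm, Complex.normSq_apply, sub_re, sub_im, add_re, add_im, conj_re, conj_im]
  nlinarith [mul_nonneg hc.le (hpos w hw)]

theorem cx3_alg {a z φ : ℂ} {k : ℝ} (hk : k < 1) (hφ : ‖φ‖ ≤ k) (ha : 0 ≤ a.re)
    (h : z * (1 - φ) = a + φ * conj a) :
    (1 - k) * ‖a‖ ≤ (1 + k) * ‖z‖ ∧ (1 - k) * ‖z‖ ≤ (1 + k) * ‖a‖ ∧
      (1 - k) * a.re ≤ (1 + k) * z.re := by
  have hn := congrArg norm h
  rw [norm_mul] at hn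
  have h1 : ‖1 - φ‖ ≤ 1 + ‖φ‖ := by simpa using norm_sub_le 1 φ
  have h2 : 1 - ‖φ‖ ≤ ‖1 - φ‖ := by simpa using norm_sub_norm_le 1 φ
  have h3 : ‖a + φ * conj a‖ ≤ ‖a‖ + ‖φ‖ * ‖a‖ := by simpa using norm_add_le a (φ * conj a)
  have h4 : ‖a‖ - ‖φ‖ * ‖a‖ ≤ ‖a + φ * conj a‖ := by
    simpa using norm_sub_norm_le a (-(φ * conj a))
  have hz := norm_nonneg z
  have ha' := norm_nonneg a
  have hφ0 := norm_nonneg φ
  refine ⟨by nlinarith [mul_le_mul_of_nonneg_left h1 hz, mul_le_mul_of_nonneg_right hφ ha',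
      mul_le_mul_of_nonneg_right hφ hz],
    by nlinarith [mul_le_mul_of_nonneg_left h2 hz, mul_le_mul_of_nonneg_right hφ ha',
      mul_le_mul_of_nonneg_right hφ hz], ?_⟩
  have e : z.re * ‖1 - φ‖ ^ 2 = a.re * (1 - ‖φ‖ ^ 2) := by
    have e1 := congrArg re h
    have e2 := congrArg im h
    simp only [Complex.sq_norm, Complex.normSq_apply, sub_re, sub_im, add_re, add_im, conj_re,
      conj_im, mul_re, mul_im, one_re, one_im] at *
    linear_combination (1 - φ.re) * e1 - φ.im * e2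
  have hp : 0 < ‖1 - φ‖ := by linarith
  have hq : 0 ≤ 1 - ‖φ‖ ^ 2 := by nlinarith
  have hzr : 0 ≤ z.re := by
    by_contra hneg
    have := mul_neg_of_neg_of_pos (not_le.mp hneg) (pow_pos hp 2)
    nlinarith [mul_nonneg ha hq]
  have h5 : a.re * (1 - ‖φ‖ ^ 2) ≤ z.re * (1 + ‖φ‖) ^ 2 := by
    rw [← e]
    exact mul_le_mul_of_nonneg_left (pow_le_pow_left₀ hp.le h1 2) hzr
  have h6 : a.re * (1 - ‖φ‖) ≤ z.re * (1 + ‖φ‖) := by
    have h7 : (1 + ‖φ‖) * (a.re * (1 - ‖φ‖)) ≤ (1 + ‖φ‖) * (z.re * (1 + ‖φ‖)) := by nlinarith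
    exact le_of_mul_le_mul_left h7 (by linarith)
  nlinarith [mul_le_mul_of_nonneg_left hφ ha, mul_le_mul_of_nonneg_left hφ hzr]

theorem cx3_harnack_pos {P : ℂ → ℂ} {c : ℂ} {R : ℝ} (hP : DifferentiableOn ℂ P (ball c R))
    (hpos : ∀ w ∈ ball c R, 0 ≤ (P w).re) (hc : 0 < (P c).re) {w : ℂ} (hw : w ∈ ball c R) :
    (1 - ‖w - c‖ / R) * ‖P c‖ ≤ (1 + ‖w - c‖ / R) * ‖P w‖ ∧
    (1 - ‖w - c‖ / R) * ‖P w‖ ≤ (1 + ‖w - c‖ / R) * ‖P c‖ ∧
    (1 - ‖w - c‖ / R) * (P c).re ≤ (1 + ‖w - c‖ / R) * (P w).re := by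
  obtain ⟨h1, h2⟩ := cx3_cayley hP hpos hc
  have h3 := Complex.dist_le_div_mul_dist_of_mapsTo_ball h1 h2 hw
  have hR : 0 < R := pos_of_mem_ball hw
  simp only [sub_self, zero_div, dist_eq_norm, sub_zero] at h3
  refine cx3_alg (φ := (P w - P c) / (P w + conj (P c))) ?_ ?_ hc.le ?_
  · rw [div_lt_one hR]; exact mem_ball_iff_norm.mp hw
  · refine h3.trans_eq ?_
    ring
  · have := cx3_den hc (hpos w hw)
    field_simp
    ring

theorem cx3_harnack {P : ℂ → ℂ} {c : ℂ} {R : ℝ} (hP : DifferentiableOn ℂ P (ball c R))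
    (hpos : ∀ w ∈ ball c R, 0 ≤ (P w).re) {w : ℂ} (hw : w ∈ ball c R) :
    (R - ‖w - c‖) * ‖P c‖ ≤ (R + ‖w - c‖) * ‖P w‖ ∧
    (R - ‖w - c‖) * ‖P w‖ ≤ (R + ‖w - c‖) * ‖P c‖ ∧
    (R - ‖w - c‖) * (P c).re ≤ (R + ‖w - c‖) * (P w).re := by
  have hR : 0 < R := pos_of_mem_ball hw
  have hc : c ∈ ball c R := mem_ball_self hR
  have key : ∀ η : ℝ, 0 < η →
      (1 - ‖w - c‖ / R) * ‖P c + η‖ ≤ (1 + ‖w - c‖ / R) * ‖P w + η‖ ∧
      (1 - ‖w - c‖ / R) * ‖P w + η‖ ≤ (1 + ‖w - c‖ / R) * ‖P c + η‖ ∧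
      (1 - ‖w - c‖ / R) * (P c + η).re ≤ (1 + ‖w - c‖ / R) * (P w + η).re := fun η hη =>
    cx3_harnack_pos (P := fun w => P w + η) (hP.add_const _)
      (fun x hx => by simpa using add_nonneg (hpos x hx) hη.le)
      (by simpa using add_pos_of_nonneg_of_pos (hpos c hc) hη) hw
  have lim : ∀ f g : ℝ → ℝ, Continuous f → Continuous g → (∀ η, 0 < η → f η ≤ g η) → f 0 ≤ g 0 :=
    fun f g hf hg h => le_of_tendsto_of_tendsto (b := 𝓝[>] 0)
      (hf.tendsto 0 |>.mono_left nhdsWithin_le_nhds) (hg.tendsto 0 |>.mono_left nhdsWithin_le_nhds)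
      (by filter_upwards [self_mem_nhdsWithin] with η hη using h η hη)
  have e1 : R - ‖w - c‖ = R * (1 - ‖w - c‖ / R) := by field_simp
  have e2 : R + ‖w - c‖ = R * (1 + ‖w - c‖ / R) := by field_simp
  rw [e1, e2]
  simp only [mul_assoc]
  refine ⟨mul_le_mul_of_nonneg_left ?_ hR.le, mul_le_mul_of_nonneg_left ?_ hR.le,
    mul_le_mul_of_nonneg_left ?_ hR.le⟩
  · simpa using lim _ _ (by fun_prop) (by fun_prop) fun η hη => (key η hη).1
  · simpa using lim _ _ (by fun_prop) (by fun_prop) fun η hη => (key η hη).2.1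
  · simpa using lim _ _ (by fun_prop) (by fun_prop) fun η hη => (key η hη).2.2

theorem harnack {P : ℂ → ℂ} {c : ℂ} {R : ℝ} (hP : DifferentiableOn ℂ P (ball c R))
    (hpos : ∀ w ∈ ball c R, 0 ≤ (P w).re) {w : ℂ} (hw : w ∈ ball c R) :
    (R - ‖w - c‖) / (R + ‖w - c‖) * ‖P c‖ ≤ ‖P w‖ ∧
    ‖P w‖ ≤ (R + ‖w - c‖) / (R - ‖w - c‖) * ‖P c‖ ∧
    (R - ‖w - c‖) / (R + ‖w - c‖) * (P c).re ≤ (P w).re := by
  obtain ⟨h1, h2, h3⟩ := cx3_harnack hP hpos hw
  have hR : 0 < R := pos_of_mem_ball hw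
  have p1 : 0 < R + ‖w - c‖ := by positivity
  have p2 : 0 < R - ‖w - c‖ := sub_pos.mpr (mem_ball_iff_norm.mp hw)
  refine ⟨?_, ?_, ?_⟩
  · rw [div_mul_eq_mul_div, div_le_iff₀ p1]; linarith
  · rw [div_mul_eq_mul_div, le_div_iff₀ p2]; linarith
  · rw [div_mul_eq_mul_div, div_le_iff₀ p1]; linarith

theorem cx3_deriv {P : ℂ → ℂ} {c : ℂ} {R : ℝ} (hR : 0 < R) (hP : DifferentiableOn ℂ P (ball c R))
    (hpos : ∀ w ∈ ball c R, 0 ≤ (P w).re) (hc : 0 < (P c).re) :
    ‖deriv P c‖ ≤ 2 * (P c).re / R := by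
  obtain ⟨h1, h2⟩ := cx3_cayley hP hpos hc
  have h3 := Complex.norm_deriv_le_div_of_mapsTo_ball h1 h2 hR
  have hd := (hP.differentiableAt (ball_mem_nhds c hR)).hasDerivAt
  have hne := cx3_den hc hc.le
  have h4 : HasDerivAt (fun w => (P w - P c) / (P w + conj (P c))) _ c :=
    (hd.sub_const (P c)).div (hd.add_const (conj (P c))) hne
  rw [h4.deriv, sub_self, zero_mul, sub_zero, pow_two, mul_div_mul_right _ _ hne, norm_div,
    Complex.add_conj, Complex.norm_real, Real.norm_eq_abs, abs_of_pos (by linarith),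
    div_le_iff₀ (by linarith)] at h3
  refine h3.trans_eq ?_
  ring

theorem im_deriv {t : ℂ → ℂ} {c : ℂ} {R β : ℝ} (hR : 0 < R)
    (ht : DifferentiableOn ℂ t (ball c R)) (hb : ∀ w ∈ ball c R, |(t w).im| ≤ β) :
    ‖deriv t c‖ ≤ 4 * β / R := by
  refine le_of_forall_pos_le_add fun ε hε => ?_
  have hη : 0 < ε * R / 2 := by positivity
  have hre : ∀ w, (I * t w + ((β + ε * R / 2 : ℝ) : ℂ)).re = β + ε * R / 2 - (t w).im := by
    intro w
    simp only [add_re, mul_re, I_re, I_im, ofReal_re]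
    ring
  have hc := abs_le.mp (hb c (mem_ball_self hR))
  have h := cx3_deriv (P := fun w => I * t w + ((β + ε * R / 2 : ℝ) : ℂ)) hR
    ((ht.const_mul I).add_const _)
    (fun w hw => by rw [hre]; linarith [(abs_le.mp (hb w hw)).2]) (by rw [hre]; linarith)
  have hd := (((ht.differentiableAt (ball_mem_nhds c hR)).hasDerivAt.const_mul I).add_const
    ((β + ε * R / 2 : ℝ) : ℂ)).deriv
  rw [hd, norm_mul, Complex.norm_I, one_mul, hre] at h
  refine h.trans ?_
  rw [div_le_iff₀ hR, add_mul, div_mul_cancel₀ _ hR.ne']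
  linarith

theorem cx3_ann {P : ℂ → ℂ} {r : ℝ} (hr0 : 0 ≤ r)
    (hP : DifferentiableOn ℂ P (Ann r)) (hpos : ∀ w ∈ Ann r, 0 ≤ (P w).re) {w : ℂ}
    (hw : w ∈ Ann ((1 + r) / 2)) :
    ∃ c ∈ sphere (0 : ℂ) ((1 + r) / 2),
      (1 - ‖w‖) * ‖P c‖ ≤ ‖P w‖ ∧ (1 - ‖w‖) * ‖P w‖ ≤ ‖P c‖ := by
  obtain ⟨h1, h2⟩ := hw
  have hw0 : 0 < ‖w‖ := by linarith
  set c : ℂ := (((1 + r) / 2 / ‖w‖ : ℝ) : ℂ) * w with hcdef
  have hc : ‖c‖ = (1 + r) / 2 := by
    rw [hcdef, norm_mul, Complex.norm_real, Real.norm_eq_abs, abs_of_pos (by positivity),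
      div_mul_cancel₀ _ hw0.ne']
  have hwc : ‖w - c‖ = ‖w‖ - (1 + r) / 2 := by
    have e : w - c = ((1 - (1 + r) / 2 / ‖w‖ : ℝ) : ℂ) * w := by rw [hcdef]; push_cast; ring
    rw [e, norm_mul, Complex.norm_real, Real.norm_eq_abs,
      abs_of_pos (sub_pos.mpr ((div_lt_one hw0).mpr h1)), sub_mul, div_mul_cancel₀ _ hw0.ne',
      one_mul]
  have hsub : ball c ((1 - r) / 2) ⊆ Ann r := by
    intro z hz
    have h3 := abs_lt.mp ((abs_norm_sub_norm_le z c).trans_lt (mem_ball_iff_norm.mp hz))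
    constructor <;> linarith [h3.1, h3.2]
  obtain ⟨h4, h5, -⟩ := cx3_harnack (hP.mono hsub) (fun z hz => hpos z (hsub hz)) (w := w)
    (by rw [mem_ball_iff_norm, hwc]; linarith)
  rw [hwc] at h4 h5
  refine ⟨c, mem_sphere_zero_iff_norm.mpr hc, ?_, ?_⟩
  · nlinarith [norm_nonneg (P w)]
  · nlinarith [norm_nonneg (P c)]

theorem cx3_sphere_sub {r : ℝ} (hr : r < 1) : sphere (0 : ℂ) ((1 + r) / 2) ⊆ Ann r := by
  intro z hz
  rw [mem_sphere_zero_iff_norm] at hz
  constructor <;> linarith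

/-- a function with values in a sector of opening `< π` decays slower than linearly -/
theorem sector_low {Y : ℂ → ℂ} {r₂ γ : ℝ} (hr0 : 0 ≤ r₂) (hr : r₂ < 1) (hγ : 0 < γ)
    (hY : DifferentiableOn ℂ Y (Ann r₂))
    (hs : ∀ w ∈ Ann r₂, Y w ≠ 0 ∧ |arg (Y w)| ≤ Real.pi / 2 - γ) :
    ∀ μ > 0, ∃ r₃ < 1, ∀ w ∈ Ann r₃, 1 - ‖w‖ ≤ μ * ‖Y w‖ := by
  intro μ hμ
  have hpi := Real.pi_pos
  set α : ℝ := max (Real.pi / 2 - γ) (Real.pi / 4) with hα
  have hα0 : 0 < α := lt_max_of_lt_right (by linarith)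
  have hα1 : α < Real.pi / 2 := max_lt (by linarith) (by linarith)
  set κ : ℝ := Real.pi / 2 / α with hκ
  have hκ1 : 1 < κ := (one_lt_div hα0).mpr hα1
  have hκα : κ * α = Real.pi / 2 := div_mul_cancel₀ _ hα0.ne'
  have harg : ∀ w ∈ Ann r₂, |arg (Y w)| ≤ α := fun w hw => (hs w hw).2.trans (le_max_left _ _)
  have hP : DifferentiableOn ℂ (fun w => exp (κ * log (Y w))) (Ann r₂) := by
    refine ((hY.clog fun w hw => ?_).const_mul _).cexp
    refine Complex.mem_slitPlane_iff_arg.mpr ⟨fun e => ?_, (hs w hw).1⟩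
    have := (abs_le.mp (harg w hw)).2
    linarith
  have hpos : ∀ w ∈ Ann r₂, 0 ≤ (exp (κ * log (Y w))).re := by
    intro w hw
    rw [Complex.exp_re]
    refine mul_nonneg (Real.exp_pos _).le (Real.cos_nonneg_of_mem_Icc ?_)
    rw [im_ofReal_mul, Complex.log_im, ← hκα]
    have := abs_le.mp (harg w hw)
    constructor <;> nlinarith [this.1, this.2]
  have hnorm : ∀ w, ‖exp (κ * log (Y w))‖ = Real.exp (κ * Real.log ‖Y w‖) := by
    intro w
    rw [Complex.norm_exp, re_ofReal_mul, Complex.log_re]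
  obtain ⟨c₀, -, hc₀⟩ := (isCompact_sphere (0 : ℂ) ((1 + r₂) / 2)).exists_isMinOn
    (NormedSpace.sphere_nonempty.mpr (by linarith))
    (hP.continuousOn.mono (cx3_sphere_sub hr)).norm
  set m : ℝ := ‖exp (κ * log (Y c₀))‖ with hm
  have hm0 : 0 < m := norm_pos_iff.mpr (exp_ne_zero _)
  set A : ℝ := (κ * Real.log μ + Real.log m) / (κ - 1) with hA
  refine ⟨max ((1 + r₂) / 2) (1 - Real.exp A), max_lt (by linarith) (by linarith [Real.exp_pos A]),
    fun w hw => ?_⟩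
  obtain ⟨h1, h2⟩ := hw
  rw [max_lt_iff] at h1
  obtain ⟨c, hc, h3, -⟩ := cx3_ann hr0 hP hpos (w := w) ⟨h1.1, h2⟩
  have hs0 : 0 < 1 - ‖w‖ := by linarith
  have hY0 : 0 < ‖Y w‖ := norm_pos_iff.mpr (hs w ⟨by linarith [h1.1], h2⟩).1
  have h4 : (1 - ‖w‖) * m ≤ Real.exp (κ * Real.log ‖Y w‖) := by
    rw [← hnorm]
    exact (mul_le_mul_of_nonneg_left (hc₀ hc) hs0.le).trans h3
  have h5 : Real.log (1 - ‖w‖) + Real.log m ≤ κ * Real.log ‖Y w‖ := by
    rw [← Real.log_mul hs0.ne' hm0.ne']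
    exact (Real.log_le_iff_le_exp (by positivity)).mpr h4
  have h6 : Real.log (1 - ‖w‖) ≤ A := (Real.log_le_iff_le_exp hs0).mpr (by linarith [h1.2])
  rw [hA, le_div_iff₀ (by linarith)] at h6
  rw [← Real.log_le_log_iff hs0 (by positivity), Real.log_mul hμ.ne' hY0.ne']
  have h7 : κ * Real.log (1 - ‖w‖) ≤ κ * (Real.log μ + Real.log ‖Y w‖) := by linarith
  exact le_of_mul_le_mul_left h7 (by linarith)

theorem im_zero {N L : ℂ → ℂ} {r₂ C : ℝ} (hr0 : 0 ≤ r₂) (hr : r₂ < 1)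
    (hL : DifferentiableOn ℂ L (Ann r₂)) (he : ∀ w ∈ Ann r₂, exp (L w) = N w)
    (hb : ∀ w ∈ Ann r₂, |(L w).im| ≤ C * (1 - ‖w‖)) :
    ∀ μ > 0, ∃ r₃ < 1, ∀ w ∈ Ann r₃, |(N w).im| ≤ μ := by
  intro μ hμ
  have hpi := Real.pi_pos
  set K : ℝ := |C| + 1 with hK
  have hK0 : 0 < K := by positivity
  have hb' : ∀ w ∈ Ann r₂, |(L w).im| ≤ K * (1 - ‖w‖) := fun w hw =>
    (hb w hw).trans (mul_le_mul_of_nonneg_right (by linarith [le_abs_self C]) (by linarith [hw.2]))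
  set r : ℝ := max r₂ (1 - Real.pi / 4 / K) with hrdef
  have hr0' : 0 ≤ r := le_max_of_le_left hr0
  have hr1 : r < 1 := max_lt hr (by have : 0 < Real.pi / 4 / K := by positivity
                                    linarith)
  have hsub : Ann r ⊆ Ann r₂ := fun w hw => ⟨(le_max_left _ _).trans_lt hw.1, hw.2⟩
  have hP : DifferentiableOn ℂ (fun w => exp ((2 : ℝ) * L w)) (Ann r) :=
    ((hL.mono hsub).const_mul _).cexp
  have hpos : ∀ w ∈ Ann r, 0 ≤ (exp ((2 : ℝ) * L w)).re := by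
    intro w hw
    rw [Complex.exp_re]
    refine mul_nonneg (Real.exp_pos _).le (Real.cos_nonneg_of_mem_Icc ?_)
    rw [im_ofReal_mul]
    have h1 : 1 - ‖w‖ ≤ Real.pi / 4 / K := by linarith [(le_max_right _ _).trans_lt hw.1]
    rw [le_div_iff₀ hK0] at h1
    have := abs_le.mp (hb' w (hsub hw))
    constructor <;> linarith [this.1, this.2]
  obtain ⟨M, hM⟩ := (isCompact_sphere (0 : ℂ) ((1 + r) / 2)).exists_bound_of_continuousOn
    (hP.continuousOn.mono (cx3_sphere_sub hr1))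
  have hδ : 0 < μ ^ 2 / (K ^ 2 * (|M| + 1)) := by positivity
  refine ⟨max ((1 + r) / 2) (1 - μ ^ 2 / (K ^ 2 * (|M| + 1))), max_lt (by linarith) (by linarith),
    fun w hw => ?_⟩
  obtain ⟨h1, h2⟩ := hw
  rw [max_lt_iff] at h1
  obtain ⟨c, hc, -, h3⟩ := cx3_ann hr0' hP hpos (w := w) ⟨h1.1, h2⟩
  have hw2 : w ∈ Ann r₂ := hsub ⟨by linarith [h1.1], h2⟩
  have hs0 : 0 < 1 - ‖w‖ := by linarith
  have h4 : (1 - ‖w‖) * Real.exp (L w).re ^ 2 ≤ |M| + 1 := by
    have e : ‖exp ((2 : ℝ) * L w)‖ = Real.exp (L w).re ^ 2 := by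
      rw [Complex.norm_exp, re_ofReal_mul, ← Real.exp_nat_mul]; norm_num
    rw [← e]
    linarith [hM c hc, le_abs_self M]
  have h5 : |(N w).im| ≤ Real.exp (L w).re * (K * (1 - ‖w‖)) := by
    rw [← he w hw2, Complex.exp_im, abs_mul, abs_of_pos (Real.exp_pos _)]
    exact mul_le_mul_of_nonneg_left (Real.abs_sin_le_abs.trans (hb' w hw2)) (Real.exp_pos _).le
  have h6 : (1 - ‖w‖) * (K ^ 2 * (|M| + 1)) ≤ μ ^ 2 := by
    rw [← le_div_iff₀ (by positivity)]; linarith [h1.2]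
  refine h5.trans (abs_le_of_sq_le_sq' ?_ hμ.le).2
  calc (Real.exp (L w).re * (K * (1 - ‖w‖))) ^ 2
      = (1 - ‖w‖) * (K ^ 2 * ((1 - ‖w‖) * Real.exp (L w).re ^ 2)) := by ring
    _ ≤ (1 - ‖w‖) * (K ^ 2 * (|M| + 1)) := by gcongr
    _ ≤ μ ^ 2 := h6

theorem cx3_span (f : C(AddCircle (1 : ℝ), ℂ))
    (hf : f ∈ Submodule.span ℂ (range (@fourier 1))) :
    ∃ P Q : Polynomial ℂ, ∀ x, f x = P.eval (x.toCircle : ℂ) + conj (Q.eval (x.toCircle : ℂ)) := by
  have hnat : ∀ (k : ℕ) (x : AddCircle (1 : ℝ)), fourier (k : ℤ) x = (x.toCircle : ℂ) ^ k := by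
    intro k x
    rw [fourier_apply, AddCircle.toCircle_zsmul, zpow_natCast, Circle.coe_pow]
  induction hf using Submodule.span_induction with
  | mem f hf =>
    obtain ⟨m, rfl⟩ := hf
    obtain ⟨k, rfl | rfl⟩ := Int.eq_nat_or_neg m
    · exact ⟨Polynomial.X ^ k, 0, fun x => by rw [hnat]; simp⟩
    · exact ⟨0, Polynomial.X ^ k, fun x => by rw [fourier_neg, hnat]; simp⟩
  | zero => exact ⟨0, 0, fun x => by simp⟩
  | add f g _ _ hf hg =>
    obtain ⟨P, Q, h⟩ := hf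
    obtain ⟨P', Q', h'⟩ := hg
    refine ⟨P + P', Q + Q', fun x => ?_⟩
    simp only [ContinuousMap.add_apply, h, h', Polynomial.eval_add, map_add]
    ring
  | smul a f _ hf =>
    obtain ⟨P, Q, h⟩ := hf
    refine ⟨Polynomial.C a * P, Polynomial.C (conj a) * Q, fun x => ?_⟩
    simp only [ContinuousMap.smul_apply, h, Polynomial.eval_mul, Polynomial.eval_C, map_mul,
      smul_eq_mul, Complex.conj_conj]
    ring

/-- a continuous real function on the circle is close to the real part of a polynomial -/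
theorem poly_approx {B : ℂ → ℝ} (hB : ContinuousOn B (sphere 0 1)) {δ : ℝ} (hδ : 0 < δ) :
    ∃ P : Polynomial ℂ, ∀ w ∈ sphere (0 : ℂ) 1, |B w - (P.eval w).re| < δ := by
  have : Fact ((0 : ℝ) < 1) := ⟨one_pos⟩
  have hc : Continuous fun x : AddCircle (1 : ℝ) => B (x.toCircle : ℂ) :=
    hB.comp_continuous (continuous_subtype_val.comp AddCircle.continuous_toCircle)
      fun x => mem_sphere_zero_iff_norm.mpr (Circle.norm_coe _)
  let g : C(AddCircle (1 : ℝ), ℂ) := ⟨fun x => (B (x.toCircle : ℂ) : ℂ), continuous_ofReal.comp hc⟩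
  have hg : g ∈ (Submodule.span ℂ (range (@fourier 1))).topologicalClosure := by
    rw [span_fourier_closure_eq_top]; trivial
  obtain ⟨f, hf, hd⟩ := Metric.mem_closure_iff.mp hg δ hδ
  obtain ⟨P, Q, h⟩ := cx3_span f hf
  refine ⟨P + Q, fun w hw => ?_⟩
  obtain ⟨x, hx⟩ := (AddCircle.homeomorphCircle (T := 1) one_ne_zero).surjective ⟨w, hw⟩
  rw [AddCircle.homeomorphCircle_apply] at hx
  have hx' : (x.toCircle : ℂ) = w := congrArg Subtype.val hx
  have h1 := (ContinuousMap.dist_apply_le_dist (f := g) (g := f) x).trans_lt hd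
  rw [dist_eq_norm] at h1
  have h2 := (Complex.abs_re_le_norm _).trans_lt h1
  simpa [g, h, hx'] using h2

end Pool.Agent.MP_4baaa2_an.H94

/-!
Hoelder extension to the closed disc, an interpolation inequality.
-/

namespace Pool.Agent.MP_4baaa2_an.H94

open Set Metric Filter Topology Complex
open scoped ComplexConjugate
open Pool.Agent.Lib.PlaneTop

variable {n : ℕ}

variable {V : Type*} [NormedAddCommGroup V] [NormedSpace ℂ V] [CompleteSpace V]

/-- mean square on the circle of radius `ρ` -/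
noncomputable def N2 (ρ : ℝ) (h : ℂ → E n) : ℝ := Real.circleAverage (fun w => ‖h w‖ ^ 2) 0 ρ

theorem N2_nonneg (ρ : ℝ) (h : ℂ → E n) : 0 ≤ N2 ρ h :=
  Real.circleAverage_nonneg_of_nonneg fun _ _ => sq_nonneg _

open Real in
theorem cx4_avg {k : ℂ → ℂ} {Δ : ℂ → E n} {ρ K : ℝ} (hρ : 0 < ρ) (_hK : 0 ≤ K)
    (hk : ContinuousOn k (sphere 0 ρ)) (hΔ : ContinuousOn Δ (sphere 0 ρ))
    (hb : ∀ ω ∈ sphere (0 : ℂ) ρ, ‖k ω‖ ≤ K) :
    ‖circleAverage (fun ω => k ω • Δ ω) 0 ρ‖ ^ 2 ≤ K ^ 2 * N2 ρ Δ := by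
  have i1 : CircleIntegrable (fun ω => ‖Δ ω‖) 0 ρ := hΔ.norm.circleIntegrable hρ.le
  have i2 : CircleIntegrable (fun ω => ‖Δ ω‖ ^ 2) 0 ρ := (hΔ.norm.pow 2).circleIntegrable hρ.le
  set m := circleAverage (fun ω => ‖Δ ω‖) 0 ρ with hm
  have h1 : ‖circleAverage (fun ω => k ω • Δ ω) 0 ρ‖ ≤ circleAverage (fun ω => ‖k ω • Δ ω‖) 0 ρ := by
    rw [circleAverage_def, circleAverage_def, norm_smul, Real.norm_eq_abs,
      abs_of_pos (inv_pos.2 two_pi_pos), smul_eq_mul]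
    gcongr
    exact intervalIntegral.norm_integral_le_integral_norm two_pi_pos.le
  have h2 : circleAverage (fun ω => ‖k ω • Δ ω‖) 0 ρ ≤ K * m := by
    rw [← smul_eq_mul, hm, ← circleAverage_fun_smul]
    refine circleAverage_mono ((hk.smul hΔ).norm.circleIntegrable hρ.le) i1.const_smul
      fun ω hω => ?_
    rw [abs_of_pos hρ] at hω
    rw [norm_smul, smul_eq_mul]
    exact mul_le_mul_of_nonneg_right (hb ω hω) (norm_nonneg _)
  have h3 : m ^ 2 ≤ N2 ρ Δ := by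
    have j1 : CircleIntegrable (fun ω => (2 * m) • ‖Δ ω‖) 0 ρ := i1.const_smul
    have := circleAverage_mono_on_of_le_circle (a := m ^ 2)
      (f := fun ω => (2 * m) • ‖Δ ω‖ - ‖Δ ω‖ ^ 2) (j1.sub i2) fun ω _ => by
        simp only [smul_eq_mul]; nlinarith [sq_nonneg (‖Δ ω‖ - m)]
    rw [circleAverage_fun_sub j1 i2, circleAverage_fun_smul, smul_eq_mul, ← hm] at this
    unfold N2
    nlinarith
  calc _ ≤ (K * m) ^ 2 := by gcongr; exact h1.trans h2
    _ = K ^ 2 * m ^ 2 := mul_pow _ _ _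
    _ ≤ _ := by gcongr

open Real in
theorem cx4_mean {g : ℂ → E n} {a b : ℝ} (ha : 0 < a) (hab : a ≤ b) (hb : b < 1)
    (hg : DifferentiableOn ℂ g (ball 0 1 \ {0})) : circleAverage g 0 a = circleAverage g 0 b := by
  have hsub : ∀ w : ℂ, a ≤ ‖w‖ → ‖w‖ ≤ b → w ∈ ball (0 : ℂ) 1 \ {0} := fun w h1 h2 =>
    ⟨mem_ball_zero_iff.2 (h2.trans_lt hb), norm_pos_iff.1 (ha.trans_le h1)⟩
  rw [circleAverage_eq_circleIntegral ha.ne', circleAverage_eq_circleIntegral (ha.trans_le hab).ne',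
    circleIntegral_sub_center_inv_smul_eq_of_differentiable_on_annulus_off_countable ha hab
      countable_empty]
  · refine hg.continuousOn.mono fun w hw => hsub w ?_ ?_
    · simpa using hw.2
    · simpa using hw.1
  · intro w hw
    refine hg.differentiableAt ((isOpen_ball.sdiff isClosed_singleton).mem_nhds (hsub w ?_ ?_))
    · have : a < ‖w‖ := by simpa using hw.1.2
      exact this.le
    · have : ‖w‖ < b := by simpa using hw.1.1
      exact this.le

theorem interp {s ρ₁ r δ : ℝ} (hs : 0 < s) (hsr : s < r) (hρ : ρ₁ < r) (hr : r < 1)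
    (hδ : 0 < δ) : ∃ C > 0, ∀ Δ : ℂ → E n, DifferentiableOn ℂ Δ (ball 0 1) →
      ∀ w : ℂ, ‖w‖ ≤ ρ₁ → ‖Δ w‖ ^ 2 ≤ δ * N2 r Δ + C * N2 s Δ := by
  rcases lt_or_ge ρ₁ 0 with h0 | h0
  · exact ⟨1, one_pos, fun Δ _ w hw => absurd ((norm_nonneg _).trans hw) (not_le.2 h0)⟩
  have hr0 : 0 < r := hs.trans hsr
  have hq : ρ₁ / r < 1 := (div_lt_one hr0).2 hρ
  have hq0 : 0 ≤ ρ₁ / r := div_nonneg h0 hr0.le
  have hp : 0 < r - ρ₁ := sub_pos.2 hρ
  obtain ⟨N, hN⟩ : ∃ N : ℕ, 2 * ((ρ₁ / r) ^ N * (r / (r - ρ₁))) ^ 2 ≤ δ := by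
    have h1 := (((tendsto_pow_atTop_nhds_zero_of_lt_one hq0 hq).mul_const
      (r / (r - ρ₁))).pow 2).const_mul 2
    rw [zero_mul, zero_pow two_ne_zero, mul_zero] at h1
    exact (h1.eventually (ge_mem_nhds hδ)).exists
  set A := ∑ j ∈ Finset.range N, (ρ₁ / s) ^ j with hA
  have hA0 : 0 ≤ A := by positivity
  refine ⟨2 * A ^ 2 + 1, by positivity, fun Δ hΔ w hw => ?_⟩
  have hwr : ‖w‖ < r := hw.trans_lt hρ
  have sp : ∀ ρ : ℝ, 0 < ρ → ρ < 1 → sphere (0 : ℂ) ρ ⊆ ball 0 1 \ {0} := fun ρ h1 h2 ω hω => by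
    rw [mem_sphere_zero_iff_norm] at hω
    exact ⟨mem_ball_zero_iff.2 (hω ▸ h2), norm_pos_iff.1 (hω ▸ h1)⟩
  have hne : ∀ ω ∈ sphere (0 : ℂ) r, ω - w ≠ 0 := fun ω hω => by
    rw [sub_ne_zero]
    rintro rfl
    exact hwr.ne (by simpa using hω)
  have hk₁ : DifferentiableOn ℂ (fun ω : ℂ => ∑ j ∈ Finset.range N, (w / ω) ^ j)
      (ball 0 1 \ {0}) := DifferentiableOn.fun_sum fun j _ =>
    (DifferentiableOn.div (by fun_prop) (by fun_prop) fun ω hω => hω.2).pow j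
  have hk₂ : ContinuousOn (fun ω : ℂ => (w / ω) ^ N * (ω / (ω - w))) (sphere 0 r) :=
    ((ContinuousOn.div (by fun_prop) (by fun_prop) fun ω hω => (sp r hr0 hr hω).2).pow N).mul
      (ContinuousOn.div (by fun_prop) (by fun_prop) hne)
  have hΔ' : DifferentiableOn ℂ Δ (ball 0 1 \ {0}) := hΔ.mono sdiff_subset
  have cr := hΔ'.continuousOn.mono (sp r hr0 hr)
  have cs := hΔ'.continuousOn.mono (sp s hs (hsr.trans hr))
  have hc : Real.circleAverage (fun ω => ((ω - 0) / (ω - w)) • Δ ω) 0 r = Δ w := by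
    refine DiffContOnCl.circleAverage_smul_div ?_ ?_
    · rw [abs_of_pos hr0]; exact hΔ.diffContOnCl_ball (closedBall_subset_ball hr)
    · rw [abs_of_pos hr0]; exact mem_ball_zero_iff.2 hwr
  have e : Δ w = Real.circleAverage (fun ω => (∑ j ∈ Finset.range N, (w / ω) ^ j) • Δ ω) 0 s +
      Real.circleAverage (fun ω => ((w / ω) ^ N * (ω / (ω - w))) • Δ ω) 0 r := by
    rw [cx4_mean hs hsr.le hr (hk₁.fun_smul hΔ'), ← Real.circleAverage_fun_add
      (((hk₁.fun_smul hΔ').continuousOn.mono (sp r hr0 hr)).circleIntegrable hr0.le)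
      ((hk₂.fun_smul cr).circleIntegrable hr0.le), ← hc]
    refine Real.circleAverage_congr_sphere fun ω hω => ?_
    rw [abs_of_pos hr0] at hω
    have n1 := hne ω hω
    have n2 : ω ≠ 0 := (sp r hr0 hr hω).2
    have n3 : w / ω ≠ 1 := by
      rw [Ne, div_eq_one_iff_eq n2]
      exact fun h => n1 (by rw [h, sub_self])
    have n4 : w - ω ≠ 0 := by rw [← neg_sub]; exact neg_ne_zero.2 n1
    show _ = _ • _ + _ • _
    rw [← add_smul, geom_sum_eq n3, div_sub_one n2]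
    congr 1
    field_simp
    ring
  have b1 := cx4_avg hs hA0 (hk₁.continuousOn.mono (sp s hs (hsr.trans hr))) cs fun ω hω => by
    rw [mem_sphere_zero_iff_norm] at hω
    refine norm_sum_le_of_le _ fun j _ => ?_
    rw [norm_pow, norm_div, hω]
    gcongr
  have b2 := cx4_avg (K := (ρ₁ / r) ^ N * (r / (r - ρ₁))) hr0 (by positivity) hk₂ cr fun ω hω => by
    rw [mem_sphere_zero_iff_norm] at hω
    have q1 : r - ρ₁ ≤ ‖ω - w‖ := by
      have := norm_sub_norm_le ω w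
      linarith
    rw [norm_mul, norm_pow, norm_div, norm_div, hω]
    gcongr
  rw [e]
  set X := Real.circleAverage (fun ω => (∑ j ∈ Finset.range N, (w / ω) ^ j) • Δ ω) 0 s
  set Y := Real.circleAverage (fun ω => ((w / ω) ^ N * (ω / (ω - w))) • Δ ω) 0 r
  have t1 : ‖X + Y‖ ^ 2 ≤ (‖X‖ + ‖Y‖) ^ 2 := by gcongr; exact norm_add_le _ _
  have t2 := mul_le_mul_of_nonneg_right hN (N2_nonneg r Δ)
  nlinarith [sq_nonneg (‖X‖ - ‖Y‖), N2_nonneg s Δ]

end Pool.Agent.MP_4baaa2_an.H94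

end
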