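import Pool.Agent.MP_4baaa2_an.Mg.H94_Top
import Pool.Agent.MP_4baaa2_an.Mg.H94_Cls
import Pool.Agent.MP_4baaa2_an.Mg.H94_Cx1

-- part MP_4baaa2_an.H94.Comp
section

/-!
Maximisers are onto the disc; the value function tends to one at the boundary.
-/

namespace Pool.Agent.MP_4baaa2_an.H94

open Set Metric Filter Topology Complex
open scoped ComplexConjugate
open Pool.Agent.Lib.PlaneTop

variable {n : ℕ}

variable {D : Set (E n)} {Φ : E n → E n → ℂ}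

/-- logarithms descend along open maps with connected fibres -/
theorem descend {π : E n → ℂ}
    (hopen : ∀ z ∈ D, 𝓝 (π z) ≤ map π (𝓝[D] z))
    (hfib : ∀ c : ℂ, IsPreconnected {z ∈ D | π z = c}) {g : ℂ → ℂ}
    (hg : HasLogOn (fun z => g (π z)) D) : HasLogOn g (π '' D) := by
  classical
  obtain ⟨L, hL, he⟩ := hg
  let l : ℂ → ℂ := fun w => if H : w ∈ π '' D then L H.choose else 0
  have hl : ∀ z ∈ D, l (π z) = L z := by
    intro z hz
    have H : π z ∈ π '' D := mem_image_of_mem _ hz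
    have h1 := H.choose_spec
    have h2 := log_sub_const (ω := L) (ω' := fun _ => L z) (hfib (π z))
      (hL.mono fun _ hx => hx.1) continuousOn_const
      (fun x hx => (he x hx.1).trans ((congrArg g hx.2).trans (he z hz).symm)) (x := H.choose) (y := z) h1 ⟨hz, rfl⟩
    simp only [l, dif_pos H]
    linear_combination h2
  refine ⟨l, ?_, ?_⟩
  · rintro _ ⟨z, hz, rfl⟩
    have h1 : Tendsto l (map π (𝓝[D] z)) (𝓝 (L z)) := by
      rw [tendsto_map'_iff]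
      refine (hL z hz).tendsto.congr' ?_
      filter_upwards [self_mem_nhdsWithin] with x hx using (hl x hx).symm
    unfold ContinuousWithinAt
    rw [hl z hz]
    exact h1.mono_left (nhdsWithin_le_nhds.trans (hopen z hz))
  · rintro _ ⟨z, hz, rfl⟩
    rw [hl z hz, he z hz]

theorem proper_g_ne {ψ : ℂ → ℂ} (hinj : InjOn ψ (ball 0 1))
    (hd : ∀ w ∈ ball (0 : ℂ) 1, deriv ψ w ≠ 0) {a w : ℂ} (ha : a ∈ ball (0 : ℂ) 1)
    (hw : w ∈ ball (0 : ℂ) 1) : dslope ψ a w ≠ 0 := by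
  rcases eq_or_ne w a with rfl | hne
  · rw [dslope_same]; exact hd w hw
  · intro h0
    have h1 := sub_smul_dslope ψ a w
    rw [h0, smul_zero, eq_comm, sub_eq_zero] at h1
    exact hne (hinj hw ha h1)

/-- reparametrisation of a disc by a conformal map -/
theorem proper_reparam {ψ : ℂ → ℂ} (hψ : DifferentiableOn ℂ ψ (ball 0 1))
    (hinj : InjOn ψ (ball 0 1)) (h0 : ψ 0 = 0) (hd : ∀ w ∈ ball (0 : ℂ) 1, deriv ψ w ≠ 0)
    {B : Set ℂ} (hB : IsOpen B) (hm : MapsTo ψ (ball 0 1) B) {k : ℂ → E n}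
    (hk : DifferentiableOn ℂ k B) {π : E n → ℂ}
    (hπ : ∀ z ∈ D, π z ∈ ψ '' ball 0 1 ∧ dot z (k (π z)) = π z ∧ ∀ u ∈ B, O k z (π z) u ≠ 0) :
    Adm D (fun w => (dslope ψ 0 w)⁻¹ • k (ψ w)) ∧
      ∀ z ∈ D, ψ (F (fun w => (dslope ψ 0 w)⁻¹ • k (ψ w)) z) = π z := by
  have hz0 : (0 : ℂ) ∈ ball (0 : ℂ) 1 := mem_ball_self one_pos
  have hds : ∀ a ∈ ball (0 : ℂ) 1, DifferentiableOn ℂ (dslope ψ a) (ball 0 1) := fun a ha =>
    (differentiableOn_dslope (isOpen_ball.mem_nhds ha)).2 hψ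
  have hg : ∀ w ∈ ball (0 : ℂ) 1, dslope ψ 0 w ≠ 0 := fun w hw => proper_g_ne hinj hd hz0 hw
  set h' : ℂ → E n := fun w => (dslope ψ 0 w)⁻¹ • k (ψ w) with hh'
  have hd' : DifferentiableOn ℂ h' (ball 0 1) := ((hds 0 hz0).inv hg).smul (hk.comp hψ hm)
  have hW : ∀ z, ∀ w ∈ ball (0 : ℂ) 1,
      w - dot z (h' w) = (ψ w - dot z (k (ψ w))) / dslope ψ 0 w := by
    intro z w hw
    have h1 := sub_smul_dslope ψ 0 w
    rw [h0, sub_zero, sub_zero, smul_eq_mul] at h1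
    have h2 := hg w hw
    simp only [hh', dot_smul_right]
    field_simp
    rw [← h1]
  have key : ∀ z ∈ D, ∀ ζ ∈ ball (0 : ℂ) 1, ψ ζ = π z →
      dot z (h' ζ) = ζ ∧ ∀ ω ∈ ball (0 : ℂ) 1, O h' z ζ ω ≠ 0 := by
    intro z hz ζ hζ e
    obtain ⟨-, h1, h2⟩ := hπ z hz
    have h3 : dot z (h' ζ) = ζ := by
      have := hW z ζ hζ
      rw [e, h1, sub_self, zero_div, sub_eq_zero] at this
      exact this.symm
    refine ⟨h3, ?_⟩
    set R : ℂ → ℂ := fun ω => dslope ψ ζ ω * O k z (π z) (ψ ω) / dslope ψ 0 ω with hR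
    have hne : ∀ ω ∈ ball (0 : ℂ) 1, ω ≠ ζ → O h' z ζ ω = R ω := by
      intro ω hω hne
      have a1 := W_eq h' z h3 ω
      have a2 := sub_smul_dslope ψ ζ ω
      rw [hW z ω hω, W_eq k z h1, ← e, ← a2, smul_eq_mul, e] at a1
      refine mul_left_cancel₀ (sub_ne_zero.2 hne) ?_
      rw [← a1, hR]; ring
    have hRne : ∀ ω ∈ ball (0 : ℂ) 1, R ω ≠ 0 := fun ω hω =>
      div_ne_zero (mul_ne_zero (proper_g_ne hinj hd hζ hω) (h2 _ (hm hω))) (hg ω hω)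
    have hnb := isOpen_ball.mem_nhds hζ
    have hsame : O h' z ζ ζ = R ζ := by
      have c1 : ContinuousAt (O h' z ζ) ζ :=
        continuousAt_const.sub (contAt_dot continuousAt_const
          (continuousAt_dslope_same.2 (hd'.differentiableAt hnb)))
      have c0 : ContinuousAt (O k z (π z)) (ψ ζ) := by
        rw [e]
        exact continuousAt_const.sub (contAt_dot continuousAt_const
          (continuousAt_dslope_same.2 (hk.differentiableAt (hB.mem_nhds (e ▸ hm hζ)))))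
      have c2 : ContinuousAt R ζ :=
        (((hds ζ hζ).continuousOn.continuousAt hnb).mul
          (c0.comp (hψ.continuousOn.continuousAt hnb))).div
          ((hds 0 hz0).continuousOn.continuousAt hnb) (hg ζ hζ)
      refine tendsto_nhds_unique_of_eventuallyEq (l := 𝓝[≠] ζ)
        (c1.tendsto.mono_left nhdsWithin_le_nhds) (c2.tendsto.mono_left nhdsWithin_le_nhds) ?_
      filter_upwards [self_mem_nhdsWithin, mem_nhdsWithin_of_mem_nhds hnb] with ω h1 h2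
        using hne ω h2 h1
    intro ω hω
    rcases eq_or_ne ω ζ with rfl | h
    · rw [hsame]; exact hRne _ hω
    · rw [hne ω hω h]; exact hRne _ hω
  have hadm : Adm D h' := by
    refine ⟨hd', fun z hz => ?_⟩
    obtain ⟨ζ, hζ, e⟩ := (hπ z hz).1
    exact ⟨ζ, hζ, key z hz ζ hζ e⟩
  refine ⟨hadm, fun z hz => ?_⟩
  obtain ⟨ζ, hζ, e⟩ := (hπ z hz).1
  rw [hadm.F_unique hz hζ (key z hz ζ hζ e).1, e]

/-- the image of `D` under a projection given by a disc of hyperplanes is conformally a disc -/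
theorem Pre.proper_rmt (G : Pre D)
    (hs : ∀ (v : E n) (c : ℂ), IsPreconnected {z ∈ D | dot z v = c}) {B : Set ℂ} (hB : IsOpen B) {k : ℂ → E n}
    (hk : DifferentiableOn ℂ k B) {π : E n → ℂ} (hπc : ContinuousOn π D)
    (hπB : ∀ z ∈ D, π z ∈ B) (hiff : ∀ z ∈ D, ∀ u ∈ B, dot z (k u) = u ↔ π z = u)
    (hne : ∀ z ∈ D, k (π z) ≠ 0) (hO : ∀ z ∈ D, ∀ u ∈ B, O k z (π z) u ≠ 0)
    (hbd : Bornology.IsBounded (π '' D))
    (hlog : ∀ b ∉ π '' D, HasLogOn (fun z => π z - b) D) :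
    ∃ ψ : ℂ → ℂ, DifferentiableOn ℂ ψ (ball 0 1) ∧ InjOn ψ (ball 0 1) ∧ ψ '' ball 0 1 = π '' D ∧
      ψ 0 = 0 ∧ (∀ w ∈ ball (0 : ℂ) 1, deriv ψ w ≠ 0) ∧ (∃ x : ℝ, 0 < x ∧ deriv ψ 0 = x) ∧
      Adm D (fun w => (dslope ψ 0 w)⁻¹ • k (ψ w)) ∧
      ∀ z ∈ D, ψ (F (fun w => (dslope ψ 0 w)⁻¹ • k (ψ w)) z) = π z := by
  have hopen : ∀ z ∈ D, 𝓝 (π z) ≤ map π (𝓝[D] z) := by
    intro z hz
    have hnb := hB.mem_nhds (hπB z hz)
    have hkc : ContinuousAt k (π z) := hk.continuousOn.continuousAt hnb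
    have hdz : dot z (k (π z)) = π z := (hiff z hz _ (hπB z hz)).2 rfl
    have hn : ∀ v : E n, v ≠ 0 → dot (cj v) v ≠ 0 := fun v hv => by
      rw [dot_comm, dot_cj_self]
      exact_mod_cast pow_ne_zero 2 (norm_ne_zero_iff.2 hv)
    set s : ℂ → E n := fun w => z + ((w - dot z (k w)) / dot (cj (k w)) (k w)) • cj (k w) with hs
    have hcj : ContinuousAt (fun w => cj (k w)) (π z) := continuous_cj.continuousAt.comp hkc
    have hsc : ContinuousAt s (π z) :=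
      continuousAt_const.add (((continuousAt_id.sub (contAt_dot continuousAt_const hkc)).div
        (contAt_dot hcj hkc) (hn _ (hne z hz))).smul hcj)
    have hs0 : s (π z) = z := by simp [hs, hdz]
    have ht : Tendsto s (𝓝 (π z)) (𝓝[D] z) := by
      rw [G.isOpen.nhdsWithin_eq hz]
      have := hsc.tendsto
      rwa [hs0] at this
    have hev : ∀ᶠ w in 𝓝 (π z), π (s w) = w := by
      filter_upwards [hnb, ht.eventually self_mem_nhdsWithin, hkc.eventually_ne (hne z hz)]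
        with w h1 h2 h3
      refine (hiff _ h2 w h1).1 ?_
      have := hn _ h3
      simp only [hs, dot_add_left, dot_smul_left]
      field_simp
      ring
    calc 𝓝 (π z) = map id (𝓝 (π z)) := map_id.symm
      _ = map (π ∘ s) (𝓝 (π z)) := map_congr (hev.mono fun w hw => hw.symm)
      _ = map π (map s (𝓝 (π z))) := map_map.symm
      _ ≤ map π (𝓝[D] z) := map_mono ht
  have hfib : ∀ c : ℂ, IsPreconnected {z ∈ D | π z = c} := by
    intro c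
    by_cases hc : c ∈ B
    · have : {z ∈ D | π z = c} = {z ∈ D | dot z (k c) = c} := by
        ext z
        exact and_congr_right fun hz => (hiff z hz c hc).symm
      rw [this]; exact hs _ _
    · have : {z ∈ D | π z = c} = ∅ :=
        eq_empty_of_forall_notMem fun z hz => hc (hz.2 ▸ hπB z hz.1)
      rw [this]; exact isPreconnected_empty
  have hGo : IsOpen (π '' D) := by
    rw [isOpen_iff_mem_nhds]
    rintro _ ⟨z, hz, rfl⟩
    exact hopen z hz (image_mem_map self_mem_nhdsWithin)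
  have hπ0 : π 0 = 0 := by
    have := (hiff 0 G.zero _ (hπB 0 G.zero)).2 rfl
    rw [dot_zero_left] at this
    exact this.symm
  obtain ⟨ψ, h1, h2, h3, h4, h5, h6, -⟩ := riemann_map hGo (G.conn.image π hπc) ⟨0, G.zero, hπ0⟩ hbd
    fun g hg hg0 => univ_log hGo (G.conn.image π hπc) hbd
      (fun b hb => descend (g := fun x => x - b) hopen hfib (hlog b hb)) hg hg0
  have hm : MapsTo ψ (ball 0 1) B := by
    intro w hw
    obtain ⟨z, hz, e⟩ : ψ w ∈ π '' D := h3 ▸ mem_image_of_mem _ hw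
    exact e ▸ hπB z hz
  exact ⟨ψ, h1, h2, h3, h4, h5, h6, proper_reparam h1 h2 h4 h5 hB hm hk fun z hz =>
    ⟨h3 ▸ mem_image_of_mem _ hz, (hiff z hz _ (hπB z hz)).2 rfl, hO z hz⟩⟩

theorem proper_exp {L : ℂ} (h : 0 ≤ L.re) : ‖exp (-L) - 1‖ ≤ 2 * ‖L‖ := by
  rcases le_total ‖L‖ 1 with h1 | h1
  · have := Complex.norm_exp_sub_one_le (x := -L) (by rwa [norm_neg])
    rwa [norm_neg] at this
  · have h2 : ‖exp (-L)‖ ≤ 1 := by
      rw [Complex.norm_exp, Real.exp_le_one_iff, neg_re]; linarith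
    have h3 := norm_sub_le (exp (-L)) 1
    rw [norm_one] at h3
    linarith

/-- the logarithm of `w / ψ w` -/
theorem proper_log {ψ : ℂ → ℂ} (hψ : DifferentiableOn ℂ ψ (ball 0 1))
    (hinj : InjOn ψ (ball 0 1)) (h0 : ψ 0 = 0) (hd : ∀ w ∈ ball (0 : ℂ) 1, deriv ψ w ≠ 0)
    (hm : MapsTo ψ (ball 0 1) (ball 0 1)) {x : ℝ} (hx : 0 < x) (hx0 : deriv ψ 0 = x) :
    ∃ L : ℂ → ℂ, DifferentiableOn ℂ L (ball 0 1) ∧ (∀ w ∈ ball (0 : ℂ) 1, 0 ≤ (L w).re) ∧
      (∀ w ∈ ball (0 : ℂ) 1, exp (-L w) = dslope ψ 0 w) ∧ ‖L 0‖ = (L 0).re := by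
  have hz0 : (0 : ℂ) ∈ ball (0 : ℂ) 1 := mem_ball_self one_pos
  have hds : DifferentiableOn ℂ (dslope ψ 0) (ball 0 1) :=
    (differentiableOn_dslope (isOpen_ball.mem_nhds hz0)).2 hψ
  obtain ⟨ω, hω, he⟩ := hasLogOn_of_convex (convex_ball 0 1) hds.continuousOn
    fun w hw => proper_g_ne hinj hd hz0 hw
  have hωd := holo_log isOpen_ball hds hω he
  have hxc : (x : ℂ) ≠ 0 := by exact_mod_cast hx.ne'
  have he' : ∀ w ∈ ball (0 : ℂ) 1, exp (-(ω 0 - Real.log x - ω w)) = dslope ψ 0 w := by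
    intro w hw
    have e1 : -(ω 0 - Real.log x - ω w) = ω w + Real.log x - ω 0 := by ring
    rw [e1, exp_sub, exp_add, he w hw, he 0 hz0, dslope_same, hx0, ← ofReal_exp, Real.exp_log hx]
    field_simp
  have hre : ∀ w ∈ ball (0 : ℂ) 1, 0 ≤ (ω 0 - Real.log x - ω w).re := by
    intro w hw
    have h1 := Complex.norm_dslope_le_div_of_mapsTo_ball (R₂ := 1) hψ
      (fun u hu => by rw [h0]; exact ball_subset_closedBall (hm hu)) hw
    rw [← he' w hw, Complex.norm_exp, div_one, Real.exp_le_one_iff, neg_re] at h1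
    linarith
  refine ⟨fun w => ω 0 - Real.log x - ω w, (differentiableOn_const _).sub hωd, hre, he', ?_⟩
  have h2 := hre 0 hz0
  have e : ω 0 - Real.log x - ω 0 = ((-Real.log x : ℝ) : ℂ) := by push_cast; ring
  simp only [e, ofReal_re] at h2 ⊢
  rw [Complex.norm_real, Real.norm_of_nonneg h2]

theorem Geo.proper (G : Geo D Φ) (P : Par) {σ : ℝ} (hσ : σ < 1) : ∃ ε₀ > 0,
    ∀ ε ∈ Icc (0 : ℝ) ε₀, ∀ p ∈ D, ∀ h, IsMax D P ε p h → F h p ≠ 0 → ‖F h p‖ ≤ σ →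
      F h '' D = ball 0 1 := by
  obtain ⟨B, hB, hQB, -⟩ := G.U_compare P
  obtain ⟨Rh, hRh, hbd⟩ := adm_bound G.isOpen G.zero
  have hr1 : 0 < 1 - P.r := sub_pos.2 P.hr
  have hr0 : 0 < P.r := P.hs.trans P.hsr
  have hΛ := P.hΛ
  set C₁ : ℝ := 4 / (1 - P.r) * (2 * Rh / (1 - P.r) + Rh) with hC₁
  set C : ℝ := 2 * (P.Λ + 1) * Rh * C₁ with hC
  have hC₁0 : 0 < C₁ := by positivity
  have hC0 : 0 < C := by positivity
  set κ : ℝ := (1 - σ) / 2 with hκ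
  have hκ0 : 0 < κ := by rw [hκ]; linarith
  refine ⟨min (κ / (2 * B)) (κ / (4 * C)), lt_min (by positivity) (by positivity), ?_⟩
  intro ε hε p hp h hmax hζ0 hζσ
  have hε0 := hε.1
  have hεB : ε * B ≤ κ / 2 := by
    have := (le_div_iff₀ (by positivity)).1 (hε.2.trans (min_le_left _ _))
    linarith
  have hεC : ε * C ≤ κ / 4 := by
    have := (le_div_iff₀ (by positivity)).1 (hε.2.trans (min_le_right _ _))
    linarith
  have hh := hmax.1
  have hz0 : (0 : ℂ) ∈ ball (0 : ℂ) 1 := mem_ball_self one_pos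
  have hsub : F h '' D ⊆ ball 0 1 := by
    rintro _ ⟨z, hz, rfl⟩
    exact (hh.F_spec hz).1
  have hne : ∀ z ∈ D, h (F h z) ≠ 0 := by
    intro z hz h0
    have h1 := (hh.F_spec hz).2.1
    rw [h0, dot_zero_right] at h1
    rw [← h1] at h0
    exact hζ0 (hh.F_unique hp hz0 (by rw [h0, dot_zero_right]))
  obtain ⟨ψ, hψ, hinj, him, h0, hd, ⟨x, hx, hx0⟩, hadm, hF⟩ := G.proper_rmt G.sect isOpen_ball hh.1
    (hh.F_diff G.isOpen).continuousOn (fun z hz => (hh.F_spec hz).1)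
    (fun z hz u hu => ⟨hh.F_unique hz hu, fun e => e ▸ (hh.F_spec hz).2.1⟩) hne
    (fun z hz => (hh.F_spec hz).2.2) (isBounded_ball.subset hsub)
    (fun b hb => G.logs _ ((hh.F_diff G.isOpen).continuousOn.sub continuousOn_const)
      fun z hz e => hb ⟨z, hz, sub_eq_zero.1 e⟩)
  have hm : MapsTo ψ (ball 0 1) (ball 0 1) := fun w hw => hsub (him ▸ mem_image_of_mem _ hw)
  obtain ⟨L, hLd, hLre, hLe, hL0⟩ := proper_log hψ hinj h0 hd hm hx hx0
  set h' : ℂ → E n := fun w => (dslope ψ 0 w)⁻¹ • h (ψ w) with hh'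
  have hψe : ∀ w ∈ ball (0 : ℂ) 1, ψ w = w * exp (-L w) := by
    intro w hw
    have h1 := sub_smul_dslope ψ 0 w
    rw [h0, sub_zero, sub_zero, smul_eq_mul] at h1
    rw [hLe w hw, h1]
  have hψn : ∀ w ∈ ball (0 : ℂ) 1, ‖ψ w‖ = ‖w‖ * Real.exp (-(L w).re) := fun w hw => by
    rw [hψe w hw, norm_mul, Complex.norm_exp, neg_re]
  set ζ := F h' p with hζ
  have hζb : ζ ∈ ball (0 : ℂ) 1 := (hadm.F_spec hp).1
  have hζ1 : ‖ζ‖ < 1 := mem_ball_zero_iff.1 hζb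
  have hn : ‖F h p‖ = ‖ζ‖ * Real.exp (-(L ζ).re) := by rw [← hF p hp, hψn ζ hζb]
  have hζp : 0 < ‖ζ‖ := by
    refine lt_of_le_of_ne (norm_nonneg _) fun e => hζ0 ?_
    rw [← norm_eq_zero, hn, ← e, zero_mul]
  have hgain : (L ζ).re ≤ ε * (Q P h' - Q P h) := by
    have h1 := hmax.2 h' hadm
    unfold V at h1
    rw [hn, mul_assoc, ← Real.exp_add] at h1
    have h2 := Real.exp_le_exp.1 (le_of_mul_le_mul_left h1 hζp)
    linarith [mul_sub ε (Q P h') (Q P h)]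
  have hsmall : ‖ζ‖ ≤ 1 - κ := by
    by_contra hlt
    rw [not_le] at hlt
    have h1 : ε * (Q P h' - Q P h) ≤ ε * B :=
      mul_le_mul_of_nonneg_left (by linarith [hQB h' hadm, Q_nonneg P h]) hε0
    have h2 : 1 - κ / 2 ≤ Real.exp (-(L ζ).re) := by
      linarith [Real.add_one_le_exp (-(L ζ).re)]
    have h3 := mul_le_mul_of_nonneg_left h2 hζp.le
    have h4 : ‖ζ‖ * (κ / 2) ≤ 1 * (κ / 2) := mul_le_mul_of_nonneg_right hζ1.le (by linarith)
    rw [mul_sub] at h3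
    linarith
  set a := (L 0).re with ha
  have ha0 : 0 ≤ a := hLre 0 hz0
  have hlow : κ / 2 * a ≤ (L ζ).re := by
    have h1 := (harnack hLd hLre hζb).2.2
    rw [sub_zero] at h1
    refine le_trans (mul_le_mul_of_nonneg_right ?_ ha0) h1
    rw [div_le_div_iff₀ two_pos (by positivity)]
    have := mul_le_mul_of_nonneg_left (show 1 + ‖ζ‖ ≤ 2 by linarith) hκ0.le
    linarith
  have hup : ∀ w : ℂ, ‖w‖ ≤ P.r → ‖(h - h') w‖ ≤ C₁ * a := by
    intro w hw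
    have hw1 : ‖w‖ < 1 := hw.trans_lt P.hr
    have hwb : w ∈ ball (0 : ℂ) 1 := mem_ball_zero_iff.2 hw1
    have h1 : ‖L w‖ ≤ 2 / (1 - P.r) * a := by
      have h2 := (harnack hLd hLre hwb).2.1
      rw [sub_zero, hL0] at h2
      refine h2.trans (mul_le_mul_of_nonneg_right ?_ ha0)
      exact div_le_div₀ zero_le_two (by linarith) hr1 (by linarith)
    have h2 : ‖exp (-L w) - 1‖ ≤ 4 / (1 - P.r) * a := by
      refine (proper_exp (hLre w hwb)).trans ?_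
      calc 2 * ‖L w‖ ≤ 2 * (2 / (1 - P.r) * a) := by linarith
        _ = 4 / (1 - P.r) * a := by ring
    have h3 : ‖ψ w‖ ≤ P.r := by
      rw [hψn w hwb]
      have : Real.exp (-(L w).re) ≤ 1 := Real.exp_le_one_iff.2 (by linarith [hLre w hwb])
      calc _ ≤ ‖w‖ * 1 := mul_le_mul_of_nonneg_left this (norm_nonneg _)
        _ ≤ P.r := by linarith
    have h4 := dslope_bound P.hr hh.1 (hbd h hh) (a := w) (b := ψ w) hw h3
    have h5 := sub_smul_dslope h w (ψ w)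
    have h6 : h (ψ w) = exp (-L w) • h' w := by
      simp only [hh', ← hLe w hwb, smul_smul]
      rw [mul_inv_cancel₀ (exp_ne_zero _), one_smul]
    have h7 : (h - h') w = (exp (-L w) - 1) • (h' w - w • dslope h w (ψ w)) := by
      have e : ψ w - w = (exp (-L w) - 1) * w := by rw [hψe w hwb]; ring
      rw [smul_sub, smul_smul _ w, ← e, h5, sub_smul, one_smul, ← h6, Pi.sub_apply]
      abel
    rw [h7, norm_smul]
    have h8 : ‖h' w - w • dslope h w (ψ w)‖ ≤ 2 * Rh / (1 - P.r) + Rh := by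
      refine (norm_sub_le _ _).trans ?_
      rw [norm_smul w]
      have := mul_le_mul hw1.le h4 (norm_nonneg _) zero_le_one
      linarith [hbd h' hadm w hwb]
    calc _ ≤ (4 / (1 - P.r) * a) * (2 * Rh / (1 - P.r) + Rh) :=
          mul_le_mul h2 h8 (norm_nonneg _) (by positivity)
      _ = C₁ * a := by rw [hC₁]; ring
  have hQ : Q P h' - Q P h ≤ C * a := by
    have h1 := Q_add P hadm.1 (hh.1.sub hadm.1)
    have h2 := norm_Lq_le P (hbd h' hadm) (η := h - h') (B := C₁ * a)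
      fun ω hω => hup ω (by rcases hω with e | e <;> linarith [P.hsr])
    have h3 := (abs_le.1 (abs_re_le_norm (Lq P h' (h - h')))).1
    have e : h' + (h - h') = h := add_sub_cancel _ _
    have e2 : 2 * (P.Λ + 1) * Rh * (C₁ * a) = C * a := by rw [hC]; ring
    change Q P (h' + (h - h')) = Q P h' + (Lq P h' (h - h')).re + Q P (h - h') at h1
    rw [e] at h1
    linarith [Q_nonneg P (h - h')]
  have ha' : a = 0 := by
    have h1 := mul_le_mul_of_nonneg_left hQ hε0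
    have h2 := mul_le_mul_of_nonneg_right hεC ha0
    have h3 : κ / 4 * a ≤ 0 := by linarith [mul_assoc ε C a]
    exact le_antisymm (nonpos_of_mul_nonpos_right h3 (by linarith)) ha0
  rw [← him]
  refine (image_congr fun w hw => ?_).trans (image_id' _)
  have h1 := (harnack hLd hLre hw).2.1
  rw [hL0, ha', mul_zero, norm_le_zero_iff] at h1
  rw [hψe w hw, h1, neg_zero, exp_zero, mul_one]

theorem Pre.U0_proper' (G : Pre D) (hlc : ∀ z ∉ D, ∃ ξ ∈ Kd D, dot z ξ = 1)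
    (hs : ∀ (v : E n) (c : ℂ), IsPreconnected {z ∈ D | dot z v = c})
    (hl : ∀ ξ ∈ Kd D, HasLogOn (fun z => 1 - dot z ξ) D) {σ : ℝ} (hσ : σ < 1) :
    ∃ δ > 0, ∀ z ∈ D, U0 D z ≤ σ → δ ≤ dep D z := by
  have key : ∀ q ∉ D, ∀ᶠ z in 𝓝 q, z ∈ D → σ < U0 D z := by
    intro q hq
    obtain ⟨ξ, hξ, hqξ⟩ := hlc q hq
    have hξ0 : ξ ≠ 0 := fun e => by simp [e] at hqξ
    obtain ⟨ψ, hψ, -, him, -, -, -, hadm, hF⟩ := G.proper_rmt hs (k := fun _ => ξ)
      (π := fun z => dot z ξ) isOpen_univ (differentiableOn_const _) (by fun_prop)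
      (fun _ _ => trivial) (fun _ _ _ _ => Iff.rfl) (fun _ _ => hξ0)
      (fun z _ u _ => by
        have : dslope (fun _ : ℂ => ξ) (dot z ξ) u = 0 := by
          rcases eq_or_ne u (dot z ξ) with rfl | h
          · simp
          · simp [dslope_of_ne _ h, slope]
        simp [O, this])
      ((dotL.flip ξ).lipschitz.isBounded_image G.bdd) (fun b hb => by
        have hb0 : b ≠ 0 := fun e => hb ⟨0, G.zero, by simp [e]⟩
        refine ((hl (b⁻¹ • ξ) fun z hz e => hb ⟨z, hz, ?_⟩).mul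
          (hasLogOn_const (neg_ne_zero.2 hb0) D)).congr fun z _ => ?_
        · rw [dot_smul_right, inv_mul_eq_one₀ hb0] at e
          exact e.symm
        · rw [dot_smul_right]
          field_simp
          ring)
    have hsub : closedBall (0 : ℂ) σ ⊆ ball 0 1 := closedBall_subset_ball hσ
    have hK : IsClosed (ψ '' closedBall 0 σ) :=
      ((isCompact_closedBall 0 σ).image_of_continuousOn (hψ.continuousOn.mono hsub)).isClosed
    have h1 : dot q ξ ∈ (ψ '' closedBall 0 σ)ᶜ := by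
      intro h
      obtain ⟨z, hz, e⟩ : dot q ξ ∈ (fun z => dot z ξ) '' D := him ▸ image_mono hsub h
      exact hξ z hz (e.trans hqξ)
    have h2 : ContinuousAt (fun z => dot z ξ) q := by fun_prop
    filter_upwards [h2.eventually (hK.isOpen_compl.mem_nhds h1)] with z hz hzD
    refine lt_of_lt_of_le ?_ (G.le_U0 hadm hzD)
    by_contra hle
    exact hz ⟨_, mem_closedBall_zero_iff.2 (not_lt.1 hle), hF z hzD⟩
  set S := {z ∈ D | U0 D z ≤ σ} with hS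
  have hcl : closure S ⊆ D := by
    intro q hq
    by_contra hqD
    obtain ⟨z, hz1, hz2⟩ := mem_closure_iff_nhds.1 hq _ (key q hqD)
    exact absurd (hz1 hz2.1) (not_lt.2 hz2.2)
  have hc : IsCompact (closure S) := (G.bdd.subset fun _ hz => hz.1).isCompact_closure
  obtain ⟨δ, hδ, hth⟩ := hc.exists_thickening_subset_open G.isOpen hcl
  refine ⟨δ, hδ, fun z hz hU => ?_⟩
  refine (le_infDist (nonempty_compl.2 G.ne_univ)).2 fun y hy => ?_
  by_contra hlt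
  exact hy (hth (mem_thickening_iff.2
    ⟨z, subset_closure ⟨hz, hU⟩, by rw [dist_comm]; exact not_le.1 hlt⟩))

theorem Geo.U0_proper (G : Geo D Φ) {σ : ℝ} (hσ : σ < 1) :
    ∃ δ > 0, ∀ z ∈ D, U0 D z ≤ σ → δ ≤ dep D z :=
  G.U0_proper' G.lc G.sect (fun ξ hξ => G.logs _ (by fun_prop)
    fun z hz => sub_ne_zero.2 (hξ z hz).symm) hσ

theorem Gen.sect (G : Gen D) (v : E n) (c : ℂ) : IsPreconnected {z ∈ D | dot z v = c} := by
  refine isPreconnected_of_forall_pair fun a ha b hb => ?_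
  obtain ⟨γ, hγ⟩ := (G.joined a ha.1 b hb.1).map (f := fun s : ℂ => a + s • (b - a)) (by fun_prop)
  refine ⟨range γ, ?_, ⟨0, by simp⟩, ⟨1, by simp⟩, isPreconnected_range γ.continuous⟩
  rintro _ ⟨t, rfl⟩
  obtain ⟨s, hs, e⟩ := hγ t
  rw [← e]
  refine ⟨hs, ?_⟩
  simp [ha.2, hb.2]

theorem Gen.U0_proper (G : Gen D) {σ : ℝ} (hσ : σ < 1) :
    ∃ δ > 0, ∀ z ∈ D, U0 D z ≤ σ → δ ≤ dep D z :=
  G.U0_proper' G.lc G.sect G.plog hσ

end Pool.Agent.MP_4baaa2_an.H94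

/-!
Definitions for the boundary analysis of a maximiser.
-/

namespace Pool.Agent.MP_4baaa2_an.H94

open Set Metric Filter Topology Complex MeasureTheory
open scoped ComplexConjugate
open Pool.Agent.Lib.PlaneTop

variable {n : ℕ}

/-- the value `1 - ⟨z, ξ(w)⟩` -/
noncomputable def uz (h : ℂ → E n) (z : E n) (w : ℂ) : ℂ := 1 - dot z (xi h w)

/-- the logarithm of `uz` near the circle -/
noncomputable def lz (h : ℂ → E n) (Lg : E n → ℂ → ℂ) (z : E n) (w : ℂ) : ℂ :=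
  Lg z w + log (1 - F h z / w)

/-- the holomorphic function whose imaginary part has the phases of `uz` as boundary values -/
noncomputable def gz (h : ℂ → E n) (Lg : E n → ℂ → ℂ) (z : E n) (w : ℂ) : ℂ :=
  Lg z w - log (1 - conj (F h z) * w)

/-- the normalised logarithm of the factor `O` -/
structure IsLg (D : Set (E n)) (h : ℂ → E n) (Lg : E n → ℂ → ℂ) : Prop where
  lgd : DifferentiableOn ℂ (fun x : E n × ℂ => Lg x.1 x.2) (D ×ˢ ball 0 1)
  lge : ∀ z ∈ D, ∀ w ∈ ball (0 : ℂ) 1, exp (Lg z w) = O h z (F h z) w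
  lg0 : ∀ w ∈ ball (0 : ℂ) 1, Lg 0 w = 0

/-- boundary values of a disc which is onto -/
structure Bdy (D : Set (E n)) (Φ : E n → E n → ℂ) (h : ℂ → E n) (xs : TT → E n)
    (Lg : E n → ℂ → ℂ) : Prop where
  adm : Adm D h
  onto : F h '' D = ball 0 1
  meas : Measurable xs
  mem : ∀ t, xs t ∈ Kd D
  rl : RL h fun t => ec t • xs t
  lg : IsLg D h Lg
  lgi : ∀ z ∈ D, ∀ w ∈ ball (0 : ℂ) 1, (gz h Lg z w).im = PI (fun t => (Φ z (xs t)).im) w

/-- a measurable choice of central phases and types -/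
structure Sel (D : Set (E n)) (Φ : E n → E n → ℂ) (xs : TT → E n) (γ A₀ : ℝ) (b₀ : TT → ℝ)
    (η : ℕ → ℝ) (τ : ℕ → TT → Ty) : Prop where
  gpos : 0 < γ
  gle : γ ≤ 1 / 10
  meas : Measurable b₀
  bd : ∀ t, |b₀ t| ≤ A₀
  np : ∀ t, ∃ κ > 0, NP D Φ (xs t) (b₀ t) (2 * γ) κ
  epos : ∀ j, 0 < η j ∧ η j ≤ γ / 20
  elim : Tendsto η atTop (𝓝 0)
  fib : ∀ j σ, MeasurableSet {t | τ j t = σ}
  ty : ∀ j t, ((τ j t).1 : ℝ) = b₀ t ∧ IsTy D Φ γ (η j) (τ j t) (xs t)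

/-- control of the phases and of their rate of change at the point `w` -/
def Ctl (D : Set (E n)) (h : ℂ → E n) (Lg : E n → ℂ → ℂ) (τ : Ty) (ε : ℝ) (w : ℂ) : Prop :=
  ∀ i ∈ τ.2.2, ∀ z ∈ D, ‖z - cen n i‖ < 2 * rad i →
    (gz h Lg z w).im ∈ Icc (lo i - ε) (hi i + ε) ∧
      ‖deriv (gz h Lg z) w‖ * (1 - ‖w‖) ≤ (hi i - lo i) / Real.pi + ε

/-- `e` is a Fatou point for the type `τ` and the hyperplane `ξ` -/
def Fat (D : Set (E n)) (h : ℂ → E n) (Lg : E n → ℂ → ℂ) (τ : Ty) (ξ : E n) (e : ℂ) : Prop :=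
  ‖e‖ = 1 ∧ ∀ M : ℝ, ∀ ε > 0, ∀ᶠ w in 𝓝[Cone M e] e, Ctl D h Lg τ ε w ∧ ‖xi h w - ξ‖ ≤ ε

/-- `q` is a limit of points whose zeros tend to `e` -/
def ActP (D : Set (E n)) (h : ℂ → E n) (e : ℂ) (q : E n) : Prop :=
  ∀ δ > 0, ∃ z ∈ D, ‖z - q‖ < δ ∧ ‖F h z - e‖ < δ

/-- the ball `i` is active at `e` -/
def Act (D : Set (E n)) (h : ℂ → E n) (e : ℂ) (i : Bl) : Prop :=
  ∃ q, ‖q - cen n i‖ ≤ 3 / 2 * rad i ∧ ActP D h e q

/-- the variation of `h` in the direction `g` of size `s ^ α` is admissible near `e` -/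
def RN (D : Set (E n)) (h g : ℂ → E n) (e : ℂ) (b α γ' θ₁ θ₂ : ℝ) : Prop :=
  ∀ L : ℝ, ∀ᶠ s : ℝ in 𝓝[>] 0, ∀ w ∈ Cone 9 e, 1 - ‖w‖ ≤ 2 * s → ∀ l : ℂ,
    |l.re - α * Real.log s| ≤ L → |l.im - b| ≤ γ' → ∀ u : ℂ,
      (‖u‖ ≤ θ₁ ∨ (‖u‖ ≤ 1 ∧ s / 2 ≤ 1 - ‖w‖ ∧ ∃ ψ : ℝ, |ψ| ≤ θ₂ ∧ u = ‖u‖ * exp (ψ * I))) →
      ∀ z ∈ D, exp l * (1 - u * dot z (xi g w)) + (1 - exp l) * uz h z w ≠ 0

/-- the vector `v` is polar to the almost flat balls of the type `τ` -/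
def Cnd (η : ℝ) (τ : Ty) (b : ℝ) (v : E n) : Prop :=
  ∀ i ∈ τ.2.2, Flat η i → (exp ((b - mid i : ℝ) * I) * dot (cen n i) v).re ≤ 0

/-- the varied disc -/
noncomputable def kk (h g : ℂ → E n) (Λ u : ℂ → ℂ) (r : ℝ) (w : ℂ) : E n :=
  (1 - exp (Λ (w / r))) • h w + (exp (Λ (w / r)) * u w) • g w

/-- the disc `k` read through the conformal map `ω ↦ ω exp (- W ω)` -/
noncomputable def tw (k : ℂ → E n) (W : ℂ → ℂ) (ω : ℂ) : E n :=
  exp (W ω) • k (ω * exp (-W ω))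

/-- the conformal map onto a sawtooth domain -/
structure SawV (G : Set TT) (s r : ℝ) (W : ℂ → ℂ) : Prop where
  da : DA W
  zero : ‖W 0‖ = (W 0).re
  re : ∀ ω ∈ closedBall (0 : ℂ) 1, 0 ≤ (W ω).re ∧ (W ω).re ≤ 4 * s
  lt : ∀ ω ∈ closedBall (0 : ℂ) 1, ‖ω * exp (-W ω)‖ < r
  low : ∀ ω ∈ closedBall (0 : ℂ) 1, cz - hm Gᶜ (ω * exp (-W ω)) ≤ 4 * cz / s * (W ω).re

/-- the variational inequality at a maximiser -/
def Gain (D : Set (E n)) (P : Par) (ε : ℝ) (p : E n) (h : ℂ → E n) : Prop :=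
  ∀ ρ : ℝ, P.r < ρ → ρ < 1 → ∃ c > 0, ∃ C : ℝ, ∃ a₀ > 0, ∀ μ > 0, ∀ᶠ δ : ℝ in 𝓝[>] 0,
    ∀ (k : ℂ → E n) (W : ℂ → ℂ) (a : ℝ), a ≤ a₀ → DifferentiableOn ℂ k (ball 0 ρ) →
      (∀ w ∈ ball (0 : ℂ) ρ, ‖k w - h w‖ ≤ a) → DifferentiableOn ℂ W (ball 0 1) →
      (∀ ω ∈ ball (0 : ℂ) 1, 0 ≤ (W ω).re) → ‖W 0‖ = (W 0).re → (W 0).re ≤ a →
      Adm (Zd D δ) (tw k W) → c * (W 0).re + (ell P ε p h (k - h)).re ≤ μ + C * a ^ 2

/-- the normalised density -/
noncomputable def Nv (P : Par) (ε : ℝ) (p : E n) (h m : ℂ → E n) (b₀ : TT → ℝ) (w : ℂ) : E n :=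
  ((1 - conj (F h p) * w) * ka b₀ w) • nt P ε p h m w

/-- its unperturbed part -/
noncomputable def Np (p : E n) (h m : ℂ → E n) (b₀ : TT → ℝ) (w : ℂ) : E n :=
  ((1 - conj (F h p) * w) * ka b₀ w) • np p h m w

/-- the multiplier as a limit of integrable densities -/
structure Mu (P : Par) (ε : ℝ) (p : E n) (h : ℂ → E n) (b₀ : TT → ℝ) (η : ℕ → ℝ)
    (τ : ℕ → TT → Ty) (a K : ℝ) (m : ℂ → E n) (ν : ℕ → TT → E n) (𝒰 : Ultrafilter ℕ) : Prop where
  le : (𝒰 : Filter ℕ) ≤ atTop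
  md : DifferentiableOn ℂ m (ball 0 1)
  int : ∀ j, Integrable (ν j)
  pol : ∀ j t v, Cnd (η j) (τ j t) (b₀ t) v → (ec t * dot (ν j t) v).re ≤ 0
  eq : ∀ (g : ℂ → E n) (gs : TT → E n) (B : ℝ), HB g B → RL g gs →
    Tendsto (fun j => ∫ t, dot (ν j t) (gs t)) atTop (𝓝 (ell P ε p h fun w => ka b₀ w • g w))
  rep : ∀ (g : ℂ → E n) (gs : TT → E n) (B : ℝ), HB g B → RL g gs → ∀ ρ < (1 : ℝ), ∀ μ > 0,
    ∀ᶠ j in (𝒰 : Filter ℕ), ∀ w ∈ Ann a, ‖w‖ ≤ ρ → ‖dot (Nv P ε p h m b₀ w) (g w) -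
      PI (fun t => (‖ec t - F h p‖ ^ 2 : ℝ) • dot (ν j t) (gs t)) w‖ ≤ ε * K * B * (1 - ‖w‖) + μ

/-- positivity of the density -/
structure Yp (P : Par) (ε : ℝ) (p : E n) (h m : ℂ → E n) (b₀ : TT → ℝ) (c a a' : ℝ) : Prop where
  low : ∀ w ∈ Ann a, c * (1 - ‖w‖) ≤ (dot (Nv P ε p h m b₀ w) (h w)).re
  nrm : ∀ w ∈ Ann a, c * ‖Nv P ε p h m b₀ w‖ ≤ (dot (Nv P ε p h m b₀ w) (h w)).re
  lowp : ∀ w ∈ ball (0 : ℂ) a', c ≤ (dot (Np p h m b₀ w) (h w)).re
  nrmp : ∀ w ∈ ball (0 : ℂ) a', c * ‖Np p h m b₀ w‖ ≤ (dot (Np p h m b₀ w) (h w)).re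

end Pool.Agent.MP_4baaa2_an.H94

/-!
Second order expansion of the functional; exhaustion of the domain.
-/

namespace Pool.Agent.MP_4baaa2_an.H94

open Set Metric Filter Topology Complex MeasureTheory
open scoped ComplexConjugate
open Pool.Agent.Lib.PlaneTop

variable {n : ℕ} {D : Set (E n)} {Φ : E n → E n → ℂ}


variable {P : Par} {ε : ℝ} {p : E n} {h : ℂ → E n}

theorem Adm.mono {D' : Set (E n)} (hh : Adm D h) (hs : D' ⊆ D) : Adm D' h := by
  exact ⟨hh.1, fun z hz => hh.2 z (hs hz)⟩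

/-- Hint: `norm_Lq_le`. -/
theorem norm_ell_le (P : Par) (ε : ℝ) (p : E n) {Rh : ℝ} (hb : ∀ ω ∈ ball (0 : ℂ) 1, ‖h ω‖ ≤ Rh)
    (hζ : ‖F h p‖ ≤ P.r) : ∃ C > 0, ∀ (η : ℂ → E n) (B : ℝ),
      (∀ w : ℂ, ‖w‖ ≤ P.r → ‖η w‖ ≤ B) → ‖ell P ε p h η‖ ≤ C * B := by
  have hr := cls1_r P
  have hs := cls1_s P
  have hΛ := P.hΛ
  have hR : 0 ≤ Rh := (norm_nonneg _).trans (hb 0 (mem_ball_self one_pos))
  refine ⟨‖cc h p‖ * ‖p‖ + |ε| * (2 * (P.Λ + 1) * Rh) + 1, by positivity, fun η B hB => ?_⟩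
  have hB0 : 0 ≤ B := (norm_nonneg _).trans (hB 0 (by simpa using hr.1.le))
  have h1 := norm_Lq_le P (η := η) (B := B) hb fun ω hω => hB ω (by
    rcases hω with hω | hω
    · exact hω.le.trans P.hsr.le
    · exact hω.le)
  have h2 : ‖dot p (η (F h p))‖ ≤ ‖p‖ * B :=
    (norm_dot_le _ _).trans (mul_le_mul_of_nonneg_left (hB _ hζ) (norm_nonneg _))
  have h3 := mul_le_mul_of_nonneg_left h2 (norm_nonneg (cc h p))
  have h4 := mul_le_mul_of_nonneg_left h1 (abs_nonneg ε)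
  refine (norm_sub_le _ _).trans ?_
  rw [norm_mul, norm_mul, Complex.norm_real, Real.norm_eq_abs]
  linarith

theorem comp1_log {a b : ℂ} (hb : b ≠ 0) (h : ‖(a - b) / b‖ ≤ 1 / 2) : a ≠ 0 ∧
    |Real.log ‖a‖ - Real.log ‖b‖ - ((a - b) / b).re| ≤ ‖(a - b) / b‖ ^ 2 := by
  set y := (a - b) / b with hy
  have h1 : a = (1 + y) * b := by rw [hy]; field_simp; ring
  have h2 : 1 + y ≠ 0 := fun h0 => by
    rw [eq_neg_of_add_eq_zero_right h0] at h
    norm_num at h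
  have h3 : Real.log ‖a‖ - Real.log ‖b‖ - y.re = (log (1 + y) - y).re := by
    rw [h1, norm_mul, Real.log_mul (norm_ne_zero_iff.2 h2) (norm_ne_zero_iff.2 hb), sub_re, log_re]
    ring
  refine ⟨by rw [h1]; exact mul_ne_zero h2 hb, ?_⟩
  rw [h3]
  refine (abs_re_le_norm _).trans ((norm_log_one_add_sub_self_le (by linarith)).trans ?_)
  have h4 : (1 - ‖y‖)⁻¹ ≤ 2 := by
    rw [inv_le_comm₀ (by linarith) (by norm_num)]
    linarith
  nlinarith [sq_nonneg ‖y‖]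

theorem comp1_Q_le (P : Par) {Δ : ℂ → E n} {a : ℝ} (hb : ∀ ω : ℂ, ‖ω‖ ≤ P.r → ‖Δ ω‖ ≤ a)
    (hd : DifferentiableOn ℂ Δ (ball 0 1)) : Q P Δ ≤ (P.Λ + 1) * a ^ 2 := by
  have key : ∀ ρ : ℝ, 0 < ρ ∧ ρ < 1 → ρ ≤ P.r → N2 ρ Δ ≤ a ^ 2 := fun ρ hρ hρr => by
    have hs := cls1_sph hρ.1 hρ.2
    refine Real.circleAverage_mono_on_of_le_circle
      (((hd.continuousOn.mono hs).norm.pow 2).circleIntegrable hρ.1.le) fun w hw => ?_
    rw [abs_of_pos hρ.1] at hw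
    exact pow_le_pow_left₀ (norm_nonneg _)
      (hb w ((mem_sphere_zero_iff_norm.1 hw).le.trans hρr)) 2
  have h1 := mul_le_mul_of_nonneg_left (key _ (cls1_s P) P.hsr.le) P.hΛ
  have h2 := key _ (cls1_r P) le_rfl
  unfold Q
  linarith

/-- the perturbed equation has a solution near the old one -/
theorem comp1_zero {o g : ℂ → ℂ} {ζ : ℂ} {L b t : ℝ} (ht : 0 < t)
    (ho : DiffContOnCl ℂ o (ball ζ t)) (hg : DiffContOnCl ℂ g (ball ζ t))
    (hL : ∀ w ∈ closedBall ζ t, ‖o w - o ζ‖ ≤ L * ‖w - ζ‖) (hb : ∀ w ∈ closedBall ζ t, ‖g w‖ ≤ b)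
    (h1 : L * t ≤ ‖o ζ‖ / 2) (h2 : 4 * b < t * ‖o ζ‖) :
    ∃ w ∈ ball ζ t, (w - ζ) * o w = g w := by
  have hd : DiffContOnCl ℂ (fun w => (w - ζ) * o w - g w) (ball ζ t) :=
    ((differentiable_id.sub_const ζ).diffContOnCl.smul ho).sub hg
  obtain ⟨w, hw, hw0⟩ := zero_of_lt ht hd fun w hw => by
    have hw' := sphere_subset_closedBall hw
    have e1 : ‖w - ζ‖ = t := mem_sphere_iff_norm.1 hw
    have a1 := hL w hw'
    have a2 := hb w hw'
    have a3 := hb ζ (mem_closedBall_self ht.le)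
    have a4 := norm_sub_norm_le (o ζ) (o w)
    have a5 := norm_sub_norm_le ((w - ζ) * o w) (g w)
    rw [norm_sub_rev (o ζ)] at a4
    rw [norm_mul, e1] at a5
    rw [e1] at a1
    have a6 : t * (‖o ζ‖ / 2) ≤ t * ‖o w‖ := mul_le_mul_of_nonneg_left (by linarith) ht.le
    rw [sub_self, zero_mul, zero_sub, norm_neg]
    linarith
  exact ⟨w, hw, sub_eq_zero.1 hw0⟩

theorem comp1_move (hh : Adm D h) (hp : p ∈ D) {r ρ : ℝ} (hζ : ‖F h p‖ ≤ r) (hρ : r < ρ)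
    (hρ1 : ρ < 1) : ∃ K > 0, ∃ C : ℝ, ∃ a₀ > 0, ∀ (k : ℂ → E n) (a : ℝ), a ≤ a₀ →
      DifferentiableOn ℂ k (ball 0 1) → (∀ w ∈ ball (0 : ℂ) ρ, ‖k w - h w‖ ≤ a) →
      ∃ w ∈ ball (0 : ℂ) 1, dot p (k w) = w ∧ ‖w - F h p‖ ≤ K * a ∧
        ‖(w - F h p) * O h p (F h p) (F h p) - dot p ((k - h) (F h p))‖ ≤ C * a ^ 2 := by
  obtain ⟨h1, h2, h3⟩ := hh.F_spec hp
  set ζ := F h p with hζdef
  have hr0 : 0 ≤ r := (norm_nonneg _).trans hζ
  have hod := cls2_O_diff hh.1 p h1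
  have hsub : ball (0 : ℂ) ρ ⊆ ball 0 1 := ball_subset_ball hρ1.le
  obtain ⟨M, hM⟩ := (isCompact_closedBall (0 : ℂ) ρ).exists_bound_of_continuousOn
    (hod.continuousOn.mono (closedBall_subset_ball hρ1))
  obtain ⟨ρ', hρ'1, hρ'2⟩ := exists_between hρ
  have hm : 0 < ‖O h p ζ ζ‖ := norm_pos_iff.2 (h3 ζ h1)
  set m := ‖O h p ζ ζ‖ with hmdef
  have hM0 : 0 < M := hm.trans_le (hM ζ (mem_closedBall_zero_iff.2 (hζ.trans hρ.le)))
  have hgap : 0 < ρ - ρ' := by linarith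
  have hgap' : 0 < ρ' - r := by linarith
  obtain ⟨L, hL⟩ : ∃ L, L = 2 * M / (ρ - ρ') := ⟨_, rfl⟩
  obtain ⟨K, hK⟩ : ∃ K, K = (4 * ‖p‖ + 1) / m := ⟨_, rfl⟩
  have hL0 : 0 < L := by rw [hL]; positivity
  have hK0 : 0 < K := by rw [hK]; positivity
  have hKm : K * m = 4 * ‖p‖ + 1 := by rw [hK]; field_simp
  have lipO : ∀ w : ℂ, ‖w‖ ≤ ρ' → ‖O h p ζ w - O h p ζ ζ‖ ≤ L * ‖w - ζ‖ := fun w hw => by
    rw [hL]
    exact cx1_lip hρ'2 (hod.mono hsub) (fun x hx => hM x (ball_subset_closedBall hx))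
      (hζ.trans hρ'1.le) hw
  refine ⟨K, hK0, K * (L * K) + ‖p‖ * (2 / (ρ - ρ') * K), min ((ρ' - r) / K) (m / 2 / (L * K)),
    by positivity, fun k a ha hk hkh => ?_⟩
  have ha0 : 0 ≤ a := (norm_nonneg _).trans (hkh 0 (mem_ball_self (by linarith)))
  have ha1 : K * a ≤ ρ' - r := by
    have := (le_div_iff₀ hK0).1 (ha.trans (min_le_left _ _))
    linarith
  have ha2 : L * (K * a) ≤ m / 2 := by
    have := (le_div_iff₀ (mul_pos hL0 hK0)).1 (ha.trans (min_le_right _ _))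
    linarith
  have hcb : ∀ w ∈ closedBall ζ (K * a), ‖w‖ ≤ ρ' := fun w hw => by
    have := mem_closedBall_iff_norm.1 hw
    have := norm_sub_norm_le w ζ
    linarith
  have hcb1 : closedBall ζ (K * a) ⊆ ball 0 1 := fun w hw =>
    mem_ball_zero_iff.2 (by linarith [hcb w hw])
  have hΔ : DifferentiableOn ℂ (k - h) (ball 0 1) := hk.sub hh.1
  have hg : ∀ w : ℂ, ‖w‖ ≤ ρ' → ‖dot p ((k - h) w)‖ ≤ ‖p‖ * a := fun w hw =>
    (norm_dot_le _ _).trans (mul_le_mul_of_nonneg_left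
      (hkh w (mem_ball_zero_iff.2 (hw.trans_lt hρ'2))) (norm_nonneg _))
  have hex : ∃ w ∈ closedBall ζ (K * a), (w - ζ) * O h p ζ w = dot p ((k - h) w) := by
    rcases ha0.eq_or_lt with rfl | hapos
    · refine ⟨ζ, mem_closedBall_self (by positivity), ?_⟩
      have := hg ζ (hζ.trans hρ'1.le)
      rw [mul_zero, norm_le_zero_iff] at this
      rw [this, sub_self, zero_mul]
    · obtain ⟨w, hw, he⟩ := comp1_zero (g := fun w => dot p ((k - h) w)) (mul_pos hK0 hapos)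
        (hod.diffContOnCl_ball hcb1)
        ((diffOn_dot (differentiableOn_const p) hΔ).diffContOnCl_ball hcb1)
        (fun w hw => lipO w (hcb w hw)) (fun w hw => hg w (hcb w hw)) ha2 (by
          have : K * a * m = (4 * ‖p‖ + 1) * a := by rw [← hKm]; ring
          rw [this]
          linarith)
      exact ⟨w, ball_subset_closedBall hw, he⟩
  obtain ⟨w, hw, he⟩ := hex
  have hd : ‖w - ζ‖ ≤ K * a := mem_closedBall_iff_norm.1 hw
  refine ⟨w, hcb1 hw, ?_, hd, ?_⟩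
  · rw [← W_eq h p h2, Pi.sub_apply, dot_sub_right] at he
    linear_combination -he
  · have b1 := lipO w (hcb w hw)
    have b2 : ‖(k - h) w - (k - h) ζ‖ ≤ 2 * a / (ρ - ρ') * ‖w - ζ‖ :=
      cx1_lip hρ'2 (hΔ.mono hsub) hkh (hζ.trans hρ'1.le) (hcb w hw)
    have e : (w - ζ) * O h p ζ ζ - dot p ((k - h) ζ) =
        dot p ((k - h) w - (k - h) ζ) - (w - ζ) * (O h p ζ w - O h p ζ ζ) := by
      rw [dot_sub_right, ← he]
      ring
    have b3 : ‖(w - ζ) * (O h p ζ w - O h p ζ ζ)‖ ≤ K * a * (L * (K * a)) := by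
      rw [norm_mul]
      exact mul_le_mul hd (b1.trans (mul_le_mul_of_nonneg_left hd hL0.le)) (norm_nonneg _)
        (by positivity)
    have b4 : ‖dot p ((k - h) w - (k - h) ζ)‖ ≤ ‖p‖ * (2 * a / (ρ - ρ') * (K * a)) :=
      (norm_dot_le _ _).trans (mul_le_mul_of_nonneg_left
        (b2.trans (mul_le_mul_of_nonneg_left hd (by positivity))) (norm_nonneg _))
    rw [e]
    refine (norm_sub_le _ _).trans ((add_le_add b4 b3).trans (le_of_eq ?_))
    ring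

/-- Hint: `ζ = F h p`, `G ω = ω - ⟨p, h ω⟩ = (ω - ζ) O ω` (`W_eq`), `O ζ ≠ 0`, `Δ = k - h`. On a small
circle around `ζ` of radius `K a` one has `‖G - ⟨p, Δ⟩‖ > ‖⟨p, Δ ζ⟩‖`, so `zero_of_lt` gives a zero
`ζ'` of `ω - ⟨p, k ω⟩` with `‖ζ' - ζ‖ ≤ K a`, and `F k p = ζ'` by `hu`. Then
`(ζ' - ζ) O ζ' = ⟨p, Δ ζ'⟩`, so `ζ' - ζ = ⟨p, Δ ζ⟩ / O ζ + O(a²)` (`cx1_lip` for `O` and `Δ`);
`level1_log`-type expansion `|log ‖1 + x‖ - Re x| ≤ ‖x‖²`; `Q_add`, and `Q P Δ ≤ (Λ + 1) a²`. -/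
theorem taylor_V (P : Par) (hε : 0 ≤ ε) (hh : Adm D h) (hp : p ∈ D) (h0 : F h p ≠ 0)
    (hζ : ‖F h p‖ ≤ P.r) {ρ : ℝ} (hρ : P.r < ρ) (hρ1 : ρ < 1) : ∃ C : ℝ, ∃ a₀ > 0,
      ∀ (k : ℂ → E n) (a : ℝ), a ≤ a₀ → DifferentiableOn ℂ k (ball 0 1) →
        (∀ w ∈ ball (0 : ℂ) ρ, ‖k w - h w‖ ≤ a) →
        (∀ ω ∈ ball (0 : ℂ) 1, dot p (k ω) = ω → F k p = ω) → F k p ≠ 0 ∧
          |Real.log (V P ε p k) - Real.log (V P ε p h) - (ell P ε p h (k - h)).re| ≤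
            C * a ^ 2 := by
  obtain ⟨K, hK, C, a₀, ha₀, H⟩ := comp1_move hh hp hζ hρ hρ1
  obtain ⟨h1, -, h3⟩ := hh.F_spec hp
  have hn : 0 < ‖F h p‖ := norm_pos_iff.2 h0
  refine ⟨(K / ‖F h p‖) ^ 2 + ‖cc h p‖ * C + ε * (P.Λ + 1), min a₀ (‖F h p‖ / 2 / K),
    by positivity, fun k a ha hk hkh hu => ?_⟩
  obtain ⟨w, hw, e1, b1, b2⟩ := H k a (ha.trans (min_le_left _ _)) hk hkh
  have ha1 := (le_div_iff₀ hK).1 (ha.trans (min_le_right _ _))
  have hy : ‖(w - F h p) / F h p‖ ≤ K / ‖F h p‖ * a := by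
    rw [norm_div, div_mul_eq_mul_div]
    gcongr
  have hy2 : ‖(w - F h p) / F h p‖ ≤ 1 / 2 := by
    rw [norm_div, div_le_iff₀ hn]
    linarith
  obtain ⟨hw0, b3⟩ := comp1_log h0 hy2
  have b4 := pow_le_pow_left₀ (norm_nonneg _) hy 2
  have hΔ : DifferentiableOn ℂ (k - h) (ball 0 1) := hk.sub hh.1
  have b5 := comp1_Q_le P (a := a) (Δ := k - h)
    (fun ω hω => hkh ω (mem_ball_zero_iff.2 (hω.trans_lt hρ))) hΔ
  have b6 := Q_nonneg P (k - h)
  have b7 := Q_add P hh.1 hΔ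
  rw [add_sub_cancel] at b7
  have e2 : (w - F h p) / F h p - cc h p * dot p ((k - h) (F h p)) =
      cc h p * ((w - F h p) * O h p (F h p) (F h p) - dot p ((k - h) (F h p))) := by
    have := h3 _ h1
    rw [cc]
    field_simp
  have b8 : |((w - F h p) / F h p).re - (cc h p * dot p ((k - h) (F h p))).re| ≤
      ‖cc h p‖ * (C * a ^ 2) := by
    rw [← sub_re, e2]
    refine (abs_re_le_norm _).trans ?_
    rw [norm_mul]
    exact mul_le_mul_of_nonneg_left b2 (norm_nonneg _)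
  have b9 := mul_le_mul_of_nonneg_left b5 hε
  have b10 := mul_nonneg hε b6
  have b11 := b10.trans b9
  refine ⟨by rwa [hu w hw e1], ?_⟩
  rw [V, V, hu w hw e1, Real.log_mul (norm_ne_zero_iff.2 hw0) (Real.exp_pos _).ne',
    Real.log_mul hn.ne' (Real.exp_pos _).ne', Real.log_exp, Real.log_exp, ell, sub_re,
    re_ofReal_mul, b7]
  rw [abs_le] at b3 b8 ⊢
  rw [mul_pow] at b4
  constructor <;> linarith [b3.1, b3.2, b8.1, b8.2]

/-- zeros of discs which are admissible for deep parts stay inside. Hint: `conn_hull` for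
`X = {0} ∪ closedBall z r`; `D' = thickening (τ / 2) S` is open, preconnected and contained in
`Zd D δ` for `δ ≤ τ / 2`; `Adm.mono`, `Adm.F_diff`, `cls1_deep` for `P = 1 - u F`, `‖u‖ = 1`. -/
theorem Pre.small_deep (G : Pre D) {z : E n} (hz : z ∈ D) : ∃ ρ < (1 : ℝ), ∃ δ₀ > 0,
    ∀ᶠ z' in 𝓝 z, ∀ δ ≤ δ₀, z' ∈ Zd D δ ∧ ∀ k, Adm (Zd D δ) k → ‖F k z'‖ ≤ ρ := by
  obtain ⟨r, hr, hsub⟩ := nhds_basis_closedBall.mem_iff.1 (G.isOpen.mem_nhds hz)
  obtain ⟨τ, hτ, S, hS, hXS, hdeep⟩ := conn_hull G.isOpen G.conn G.ne_univ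
    ((isCompact_closedBall z r).insert 0) (insert_subset G.zero hsub)
  have hτ2 : 0 < τ / 2 := half_pos hτ
  have hconn : IsPreconnected (thickening (τ / 2) S) := by
    rw [← add_ball_zero, ← add_image_prod]
    exact (hS.prod (convex_ball _ _).isPreconnected).image _ continuous_add.continuousOn
  have hST : S ⊆ thickening (τ / 2) S := self_subset_thickening hτ2 S
  have h0 : (0 : E n) ∈ thickening (τ / 2) S := hST (hXS (mem_insert _ _))
  obtain ⟨m, hm, Hm⟩ := cls1_deep isOpen_thickening hconn h0 (isCompact_closedBall z r)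
    ((subset_insert _ _).trans (hXS.trans hST))
  have hT : ∀ δ ≤ τ / 2, thickening (τ / 2) S ⊆ Zd D δ := fun δ hδ y hy => by
    obtain ⟨x, hx, hxy⟩ := mem_thickening_iff.1 hy
    have h1 : dep D x ≤ dep D y + dist x y := infDist_le_infDist_add_dist
    have h2 := hdeep x hx
    rw [dist_comm] at hxy
    show δ ≤ dep D y
    linarith
  refine ⟨1 - m, by linarith, τ / 2, hτ2, ?_⟩
  filter_upwards [closedBall_mem_nhds z hr] with y hy δ hδ
  refine ⟨hT δ hδ (hST (hXS (mem_insert_of_mem _ hy))), fun k hk => ?_⟩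
  have hk' := hk.mono (hT δ hδ)
  obtain ⟨u, hu, hfu⟩ := exists_norm_eq_mul_self (F k y)
  have hP : cls1P (thickening (τ / 2) S) fun x => 1 - u * F k x := by
    refine ⟨(differentiableOn_const 1).sub ((hk'.F_diff isOpen_thickening).const_mul u),
      fun x hx => ?_⟩
    have h1 := re_le_norm (u * F k x)
    rw [norm_mul, hu, one_mul] at h1
    have h2 := cls2_F_lt hk' hx
    simp only [sub_re, one_re]
    linarith
  have h3 := Hm y hy _ hP
  simp only [hk'.F_zero h0, ← hfu, mul_zero, sub_zero, one_re, mul_one, sub_re, ofReal_re] at h3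
  linarith

theorem comp1_small (G : Pre D) {ι : Type*} {l : Filter ι} {δ : ι → ℝ}
    (hδ : Tendsto δ l (𝓝 0)) {z : E n} (hz : z ∈ D) : ∃ ρ < (1 : ℝ), ∀ q : ι → E n,
      Tendsto q l (𝓝 z) → ∀ᶠ i in l, q i ∈ Zd D (δ i) ∧ ∀ k, Adm (Zd D (δ i)) k → ‖F k (q i)‖ ≤ ρ := by
  obtain ⟨ρ, hρ, δ₀, hδ₀, H⟩ := G.small_deep hz
  refine ⟨ρ, hρ, fun q hq => ?_⟩
  filter_upwards [hq.eventually H, hδ.eventually (gt_mem_nhds hδ₀)] with i h1 h2
  exact h1 _ h2.le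

theorem comp1_zeta (G : Pre D) {ι : Type*} (𝒰 : Ultrafilter ι) {k : ι → ℂ → E n}
    {δ : ι → ℝ} (hδ : Tendsto δ 𝒰 (𝓝 0)) (hk : ∀ᶠ i in (𝒰 : Filter ι), Adm (Zd D (δ i)) (k i))
    {k₀ : ℂ → E n} (h0 : DifferentiableOn ℂ k₀ (ball 0 1))
    (hlim : TendstoLocallyUniformlyOn k k₀ 𝒰 (ball 0 1)) {z : E n} (hz : z ∈ D) :
    ∃ ζ ∈ ball (0 : ℂ) 1, dot z (k₀ ζ) = ζ ∧ Tendsto (fun i => F (k i) z) 𝒰 (𝓝 ζ) := by
  obtain ⟨ρ, hρ, H⟩ := comp1_small G hδ hz
  have h1 := H _ tendsto_const_nhds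
  obtain ⟨ζ, hζ, h2⟩ := (isCompact_closedBall (0 : ℂ) ρ).ultrafilter_le_nhds
    (𝒰.map fun i => F (k i) z) (by
      rw [le_principal_iff, Ultrafilter.coe_map, mem_map]
      filter_upwards [h1, hk] with i hi hi'
      exact mem_closedBall_zero_iff.2 (hi.2 _ hi'))
  have hζ' : ζ ∈ ball (0 : ℂ) 1 := closedBall_subset_ball hρ hζ
  have h3 : Tendsto (fun i => F (k i) z) 𝒰 (𝓝 ζ) := h2
  refine ⟨ζ, hζ', tendsto_nhds_unique_of_eventuallyEq
    (tendsto_dot tendsto_const_nhds (cls2_comp h0.continuousOn hlim h3 hζ')) h3 ?_, h3⟩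
  filter_upwards [h1, hk] with i hi hi'
  exact (hi'.F_spec hi.1).2.1

/-- Hint: copy `Geo.cls2_zeta` and `Geo.adm_limit` with `small_deep` in place of `cls2_small`; the
uniform bound comes from `adm_bound` for a ball around `0` contained in `Zd D δ`. -/
theorem Pre.adm_limit_deep (G : Pre D) {ι : Type*} (𝒰 : Ultrafilter ι) {k : ι → ℂ → E n}
    {δ : ι → ℝ} (hδ : Tendsto δ 𝒰 (𝓝 0)) (hk : ∀ᶠ i in (𝒰 : Filter ι), Adm (Zd D (δ i)) (k i)) :
    ∃ k₀, Adm D k₀ ∧ TendstoLocallyUniformlyOn k k₀ 𝒰 (ball 0 1) ∧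
      ∀ z ∈ D, Tendsto (fun i => F (k i) z) 𝒰 (𝓝 (F k₀ z)) := by
  have hd : 0 < dep D 0 / 2 := half_pos ((dep_pos_iff G.isOpen G.ne_univ).2 G.zero)
  obtain ⟨Rh, -, hR⟩ := adm_bound (isOpen_ball (x := (0 : E n)) (ε := dep D 0 / 2))
    (mem_ball_self hd)
  have hb : ∀ᶠ i in (𝒰 : Filter ι), Adm (ball 0 (dep D 0 / 2)) (k i) := by
    filter_upwards [hk, hδ.eventually (gt_mem_nhds hd)] with i h1 h2
    refine h1.mono fun y hy => ?_
    have h3 : dep D 0 ≤ dep D y + dist 0 y := infDist_le_infDist_add_dist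
    have h4 := mem_ball'.1 hy
    show δ i ≤ dep D y
    linarith
  obtain ⟨k₀, h0, hlim⟩ := montel 𝒰 isOpen_ball (hk.mono fun _ hi => hi.1)
    fun x _ => ⟨1, one_pos, Rh, hb.mono fun i hi y hy => hR _ hi y hy.2⟩
  have hA : Adm D k₀ := by
    refine ⟨h0, fun z hz => ?_⟩
    obtain ⟨ζ, hζ, h1, h2⟩ := comp1_zeta G 𝒰 hδ hk h0 hlim hz
    refine ⟨ζ, hζ, h1, ?_⟩
    have h3 : TendstoLocallyUniformlyOn (fun i => O (k i) z (F (k i) z)) (O k₀ z ζ) 𝒰
        (ball 0 1) := cls2_tlu_dot (cls2_dslope_diff h0 hζ).continuousOn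
      (dslope_tendsto (hk.mono fun _ hi => hi.1) h0 hlim h2 hζ) tendsto_const_nhds
    obtain ⟨ρ, hρ, H⟩ := comp1_small G hδ hz
    obtain ⟨t, ht0, ht1⟩ := exists_between (max_lt hρ one_pos)
    have ht : 0 < t := (le_max_right _ _).trans_lt ht0
    have hn : ‖(t : ℂ)‖ = t := by rw [Complex.norm_real, Real.norm_of_nonneg ht.le]
    have hw : (t : ℂ) ∈ ball (0 : ℂ) 1 := by rw [mem_ball_zero_iff, hn]; exact ht1
    refine hurwitz isOpen_ball (convex_ball _ _).isPreconnected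
      ((hk.and (H _ tendsto_const_nhds)).mono fun i hi =>
        ⟨cls2_O_diff hi.1.1 z (hi.1.F_spec hi.2.1).1, (hi.1.F_spec hi.2.1).2.2⟩) h3 hw
      fun hO => ?_
    have h4 := W_eq k₀ z h1 t
    rw [hO, mul_zero] at h4
    have h5 : k₀ t ≠ 0 := fun h => by
      rw [h, dot_zero_right, sub_zero] at h4
      exact ht.ne' (by exact_mod_cast h4)
    have h6 : Tendsto (fun i => k i t) 𝒰 (𝓝 (k₀ t)) := hlim.tendsto_at hw
    have h7 : ContinuousAt (fun x : E n =>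
        z + (((t : ℂ) - dot z x) / ((‖x‖ ^ 2 : ℝ) : ℂ)) • cj x) (k₀ t) := by
      have a1 : ContinuousAt (fun x : E n => (t : ℂ) - dot z x) (k₀ t) := by fun_prop
      have a2 : ContinuousAt (fun x : E n => ((‖x‖ ^ 2 : ℝ) : ℂ)) (k₀ t) := by fun_prop
      refine continuousAt_const.add ((a1.div a2 ?_).smul continuous_cj.continuousAt)
      exact_mod_cast pow_ne_zero 2 (norm_ne_zero_iff.2 h5)
    have h8 := h7.tendsto.comp h6
    rw [h4, zero_div, zero_smul, add_zero] at h8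
    obtain ⟨i, hi1, hi2, hi3⟩ := ((H _ h8).and (hk.and (h6.eventually_ne h5))).exists
    have h9 := hi1.2 _ hi2
    rw [hi2.F_unique hi1.1 hw, hn] at h9
    · exact absurd ((le_max_left _ _).trans_lt ht0) (not_lt.2 h9)
    · rw [Function.comp_apply, dot_add_left, cls1_solve hi3, add_sub_cancel]
  refine ⟨k₀, hA, hlim, fun z hz => ?_⟩
  obtain ⟨ζ, hζ, h1, h2⟩ := comp1_zeta G 𝒰 hδ hk h0 hlim hz
  rwa [hA.F_unique hz hζ h1]

/-- Hint: contradiction, an ultrafilter finer than `𝓝[>] 0 ⊓ 𝓟 bad`, `Q_tendsto`. -/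
theorem Pre.expand (G : Pre D) (hp : p ∈ D) (hh : IsMax D P ε p h) {μ : ℝ} (hμ : 0 < μ) :
    ∀ᶠ δ : ℝ in 𝓝[>] 0, p ∈ Zd D δ ∧ ∀ k, Adm (Zd D δ) k → V P ε p k ≤ V P ε p h + μ := by
  have h1 : ∀ᶠ δ : ℝ in 𝓝[>] 0, p ∈ Zd D δ :=
    mem_nhdsWithin_of_mem_nhds (ge_mem_nhds ((dep_pos_iff G.isOpen G.ne_univ).2 hp))
  refine h1.and ?_
  by_contra hcon
  have h2 : ∀ δ : ℝ, ∃ k : ℂ → E n, ¬ (∀ k, Adm (Zd D δ) k → V P ε p k ≤ V P ε p h + μ) →
      Adm (Zd D δ) k ∧ V P ε p h + μ < V P ε p k := fun δ => by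
    by_cases hb : ∀ k, Adm (Zd D δ) k → V P ε p k ≤ V P ε p h + μ
    · exact ⟨h, fun h' => absurd hb h'⟩
    · push Not at hb
      obtain ⟨k, hk⟩ := hb
      exact ⟨k, fun _ => hk⟩
  choose k hk using h2
  have h3 := frequently_iff_neBot.1 (not_eventually.1 hcon)
  obtain ⟨𝒰, hU⟩ := Ultrafilter.exists_le (𝓝[>] (0 : ℝ) ⊓
    𝓟 {δ | ¬ ∀ k, Adm (Zd D δ) k → V P ε p k ≤ V P ε p h + μ})
  have h4 : ∀ᶠ δ in (𝒰 : Filter ℝ), Adm (Zd D δ) (k δ) ∧ V P ε p h + μ < V P ε p (k δ) := by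
    filter_upwards [le_principal_iff.1 (hU.trans inf_le_right)] with δ hδ
    exact hk δ hδ
  obtain ⟨k₀, hA, hlim, hF⟩ := G.adm_limit_deep 𝒰 (δ := fun δ => δ)
    ((hU.trans inf_le_left).trans nhdsWithin_le_nhds) (h4.mono fun _ hδ => hδ.1)
  have h5 := Q_tendsto P (h4.mono fun _ hδ => hδ.1.1) hA.1 hlim
  have h6 : Tendsto (fun δ => V P ε p (k δ)) 𝒰 (𝓝 (V P ε p k₀)) :=
    (hF p hp).norm.mul (h5.const_mul ε).neg.rexp
  have h7 := ge_of_tendsto h6 (h4.mono fun _ hδ => hδ.2.le)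
  linarith [hh.2 k₀ hA]

end Pool.Agent.MP_4baaa2_an.H94

/-!
The variational inequality.
-/

namespace Pool.Agent.MP_4baaa2_an.H94

open Set Metric Filter Topology Complex MeasureTheory
open scoped ComplexConjugate
open Pool.Agent.Lib.PlaneTop

variable {n : ℕ} {D : Set (E n)} {Φ : E n → E n → ℂ}

/-- Taylor expansion at an interior point -/
theorem comp2_taylor {h : ℂ → E n} {Rh : ℝ} (hh : HB h Rh) {ρ : ℝ} {ω t : ℂ} (hω : ‖ω‖ ≤ ρ)
    (ht : ‖t‖ < 1 - ρ) :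
    ‖h (ω + t) - h ω - t • deriv h ω‖ ≤ 4 * Rh / (1 - ρ) ^ 2 * ‖t‖ ^ 2 := by
  have hm : ∀ s ∈ ball (0 : ℂ) (1 - ρ), ω + s ∈ ball (0 : ℂ) 1 := fun s hs => by
    rw [mem_ball_zero_iff] at hs ⊢
    linarith [norm_add_le ω s]
  have h1 : DifferentiableOn ℂ (fun s => h (ω + s)) (ball 0 (1 - ρ)) :=
    hh.diff.comp (by fun_prop) hm
  have h2 := schwarz_taylor h1 (fun s hs => hh.bd _ (hm s hs)) t (mem_ball_zero_iff.2 ht)
  simpa only [add_zero, deriv_comp_const_add] using h2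

/-- the vector field -/
theorem comp2_field {h : ℂ → E n} {Rh : ℝ} (hh : HB h Rh) {ρ : ℝ} (hρ : ρ < 1) {ω : ℂ}
    (hω : ‖ω‖ ≤ ρ) : ‖h ω - ω • deriv h ω‖ ≤ Rh + 2 * Rh / (1 - ρ) := by
  have h1 := hh.bd ω (mem_ball_zero_iff.2 (hω.trans_lt hρ))
  have h2 := deriv_bound hρ hh.diff hh.bd hω
  refine (norm_sub_le _ _).trans (add_le_add h1 ?_)
  rw [norm_smul]
  exact (mul_le_of_le_one_left (norm_nonneg _) (hω.trans hρ.le)).trans h2

theorem comp2_harnack {W : ℂ → ℂ} (hW : DifferentiableOn ℂ W (ball 0 1))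
    (hre : ∀ ω ∈ ball (0 : ℂ) 1, 0 ≤ (W ω).re) (h0 : ‖W 0‖ = (W 0).re) {ρ : ℝ} (hρ : ρ < 1)
    {ω : ℂ} (hω : ‖ω‖ ≤ ρ) :
    ‖W ω‖ ≤ 2 / (1 - ρ) * (W 0).re ∧ (1 - ρ) / 2 * (W 0).re ≤ (W ω).re := by
  obtain ⟨-, h1, h2⟩ := harnack hW hre (mem_ball_zero_iff.2 (hω.trans_lt hρ))
  rw [sub_zero] at h1 h2
  have hn := norm_nonneg ω
  have hp : 0 ≤ (W 0).re := h0 ▸ norm_nonneg _
  rw [h0] at h1
  refine ⟨h1.trans (mul_le_mul_of_nonneg_right ?_ hp),
    le_trans (mul_le_mul_of_nonneg_right ?_ hp) h2⟩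
  · exact div_le_div₀ (by norm_num) (by linarith) (by linarith) (by linarith)
  · exact div_le_div₀ (by linarith) (by linarith) (by linarith) (by linarith)

/-- Hint: `ω e^{-W} = ω - ω W + O(W²)`, `e^W = 1 + W + O(W²)` (`Complex.norm_exp_sub_one_sub_id_le`);
for small `a₀` the point `ω e^{-W}` stays in a disc of radius `ρ'' < ρ`; Taylor estimates for `h`
(`schwarz_taylor` after translation, or `deriv_bound` twice) and `cx1_lip` for `k - h`. -/
theorem tw_expand {h : ℂ → E n} {Rh : ℝ} (hh : HB h Rh) {ρ' ρ : ℝ} (h1 : ρ' < ρ) (h2 : ρ < 1) :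
    ∃ C : ℝ, ∃ a₀ > 0, ∀ (k : ℂ → E n) (W : ℂ → ℂ) (a : ℝ), a ≤ a₀ →
      DifferentiableOn ℂ k (ball 0 ρ) → (∀ w ∈ ball (0 : ℂ) ρ, ‖k w - h w‖ ≤ a) →
      ∀ ω : ℂ, ‖ω‖ ≤ ρ' → ‖W ω‖ ≤ a →
        ‖tw k W ω - h ω - (k ω - h ω) - W ω • (h ω - ω • deriv h ω)‖ ≤ C * a ^ 2 := by
  have hR : 0 ≤ Rh := (norm_nonneg _).trans (hh.bd 0 (mem_ball_self one_pos))
  refine ⟨2 + 8 / (ρ - ρ') + (Rh + 2 * Rh / (1 - ρ')) + 48 * Rh / (1 - ρ') ^ 2,
    min 1 ((ρ - ρ') / 4), lt_min one_pos (by linarith), fun k W a ha hk hka ω hω hW => ?_⟩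
  have ha1 : a ≤ 1 := ha.trans (min_le_left _ _)
  have ha2 : a ≤ (ρ - ρ') / 4 := ha.trans (min_le_right _ _)
  have ha0 : 0 ≤ a := (norm_nonneg _).trans hW
  set x := W ω with hx
  have hx1 : ‖x‖ ≤ 1 := hW.trans ha1
  have e1 : ‖exp x - 1‖ ≤ 2 * a := (Complex.norm_exp_sub_one_le hx1).trans (by linarith)
  have e2 : ‖exp (-x) - 1‖ ≤ 2 * a := by
    have := Complex.norm_exp_sub_one_le (x := -x) (by rwa [norm_neg])
    rw [norm_neg] at this
    linarith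
  have e3 : ‖exp x - 1 - x‖ ≤ a ^ 2 :=
    (Complex.norm_exp_sub_one_sub_id_le hx1).trans (by gcongr)
  have e4 : ‖exp x‖ ≤ 3 := by
    have := norm_le_norm_sub_add (exp x) 1
    rw [norm_one] at this
    linarith
  set t := ω * (exp (-x) - 1) with ht
  have ht1 : ‖t‖ ≤ 2 * a := by
    rw [ht, norm_mul]
    exact (mul_le_of_le_one_left (norm_nonneg _) (by linarith)).trans e2
  have hω1 : ω * exp (-x) = ω + t := by rw [ht]; ring
  have hn1 : ‖ω + t‖ ≤ (ρ + ρ') / 2 := by linarith [norm_add_le ω t]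
  have hd : DifferentiableOn ℂ (fun w => k w - h w) (ball 0 ρ) :=
    hk.sub (hh.diff.mono (ball_subset_ball h2.le))
  have l1 := cx1_lip (ρ := (ρ + ρ') / 2) (by linarith) hd hka (a := ω) (b := ω + t)
    (by linarith) hn1
  have l2 := hka (ω + t) (mem_ball_zero_iff.2 (by linarith))
  have l3 := comp2_taylor hh (t := t) hω (by linarith)
  have l4 := comp2_field hh (h1.trans h2) hω
  rw [add_sub_cancel_left] at l1
  have hxx : exp x * exp (-x) = 1 := by rw [← exp_add, add_neg_cancel, exp_zero]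
  have key : tw k W ω - h ω - (k ω - h ω) - x • (h ω - ω • deriv h ω) =
      (exp x - 1) • (k (ω + t) - h (ω + t)) + (k (ω + t) - h (ω + t) - (k ω - h ω)) +
        (exp x - 1 - x) • (h ω - ω • deriv h ω) +
        exp x • (h (ω + t) - h ω - t • deriv h ω) := by
    have hq : exp x * t = ω * (1 - exp x) := by
      rw [ht]; linear_combination ω * hxx
    rw [tw, ← hx, hω1]
    simp only [smul_sub, sub_smul, smul_smul, one_smul, hq, mul_sub, mul_one, sub_mul, one_mul,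
      mul_comm ω (exp x)]
    abel
  rw [key]
  have b1 : ‖(exp x - 1) • (k (ω + t) - h (ω + t))‖ ≤ 2 * a ^ 2 := by
    rw [norm_smul]
    exact (mul_le_mul e1 l2 (norm_nonneg _) (by positivity)).trans_eq (by ring)
  have hpos : 0 < ρ - ρ' := by linarith
  have hpos' : 0 < 1 - ρ' := by linarith
  have b2 : ‖k (ω + t) - h (ω + t) - (k ω - h ω)‖ ≤ 8 / (ρ - ρ') * a ^ 2 := by
    refine l1.trans ?_
    rw [show ρ - (ρ + ρ') / 2 = (ρ - ρ') / 2 by ring]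
    refine (mul_le_mul_of_nonneg_left ht1 (by positivity)).trans_eq ?_
    field_simp
    ring
  have b3 : ‖(exp x - 1 - x) • (h ω - ω • deriv h ω)‖ ≤ (Rh + 2 * Rh / (1 - ρ')) * a ^ 2 := by
    rw [norm_smul, mul_comm]
    exact mul_le_mul l4 e3 (norm_nonneg _) (by positivity)
  have b4 : ‖exp x • (h (ω + t) - h ω - t • deriv h ω)‖ ≤ 48 * Rh / (1 - ρ') ^ 2 * a ^ 2 := by
    rw [norm_smul]
    have : ‖t‖ ^ 2 ≤ (2 * a) ^ 2 := by gcongr
    refine (mul_le_mul e4 (l3.trans (mul_le_mul_of_nonneg_left this (by positivity)))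
      (norm_nonneg _) (by norm_num)).trans_eq ?_
    ring
  refine (norm_add_le_of_le (norm_add_le_of_le (norm_add_le_of_le b1 b2) b3) b4).trans_eq ?_
  ring

/-- Hint: `res_one` gives `cc ⟨p, W ζ (h ζ - ζ h' ζ)⟩ = W ζ`; `harnack` gives
`Re W ζ ≥ (1 - r) / 2 Re W 0` and `‖W ω‖ ≤ 2 / (1 - r) Re W 0` for `‖ω‖ ≤ r`; `norm_Lq_le`,
`deriv_bound`. -/
theorem ell_gain (P : Par) (Rh : ℝ) : ∃ e₀ > 0, ∃ c > 0, ∀ ε ∈ Icc (0 : ℝ) e₀, ∀ {D : Set (E n)}
    {p : E n} {h : ℂ → E n}, Adm D h → HB h Rh → p ∈ D → F h p ≠ 0 → ‖F h p‖ ≤ P.r →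
      ∀ W : ℂ → ℂ, DifferentiableOn ℂ W (ball 0 1) → (∀ ω ∈ ball (0 : ℂ) 1, 0 ≤ (W ω).re) →
        ‖W 0‖ = (W 0).re →
        c * (W 0).re ≤ (ell P ε p h fun ω => W ω • (h ω - ω • deriv h ω)).re := by
  have hr : 0 < 1 - P.r := by linarith [P.hr]
  obtain ⟨K, hK⟩ : ∃ K : ℝ, K = 2 * (P.Λ + 1) * Rh * (2 / (1 - P.r) * (Rh + 2 * Rh / (1 - P.r))) :=
    ⟨_, rfl⟩
  refine ⟨(1 - P.r) / (4 * (|K| + 1)), by positivity, (1 - P.r) / 4, by positivity,
    fun ε hε D p h hh hb hp h0 hζ W hW hre hz => ?_⟩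
  have hp0 : 0 ≤ (W 0).re := hz ▸ norm_nonneg _
  have h1 := (comp2_harnack hW hre hz P.hr hζ).2
  have h2 : ‖Lq P h fun ω => W ω • (h ω - ω • deriv h ω)‖ ≤ K * (W 0).re := by
    refine (norm_Lq_le P (B := 2 / (1 - P.r) * (W 0).re * (Rh + 2 * Rh / (1 - P.r))) hb.bd
      fun ω hω => ?_).trans_eq (by rw [hK]; ring)
    have hω' : ‖ω‖ ≤ P.r := hω.elim (fun e => e.le.trans P.hsr.le) fun e => e.le
    rw [norm_smul]
    exact mul_le_mul (comp2_harnack hW hre hz P.hr hω').1 (comp2_field hb P.hr hω')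
      (norm_nonneg _) (by positivity)
  have h3 := res_one hh hp h0
  rw [dot_smul_left] at h3
  have h4 : cc h p * dot p (W (F h p) • (h (F h p) - F h p • deriv h (F h p))) = W (F h p) := by
    rw [dot_smul_right]
    linear_combination W (F h p) * h3
  have h5 : ε * (|K| + 1) ≤ (1 - P.r) / 4 := by
    have := hε.2
    rw [le_div_iff₀ (by positivity)] at this
    linarith
  have h6 := (re_le_norm _).trans h2
  have h7 : ε * (K * (W 0).re) ≤ (1 - P.r) / 4 * (W 0).re := by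
    rw [← mul_assoc]
    refine mul_le_mul_of_nonneg_right (le_trans ?_ h5) hp0
    exact mul_le_mul_of_nonneg_left (by linarith [le_abs_self K]) hε.1
  have h8 := mul_le_mul_of_nonneg_left h6 hε.1
  rw [ell, h4, sub_re, re_ofReal_mul]
  linarith

/-- Hint: `P.r < ρ' < ρ`; on `closedBall 0 ρ'` `‖W‖ ≤ H a` (`harnack`), so `‖tw k W - h‖ ≤ C a`;
`taylor_V` for `tw k W` with radius `ρ'` (`Adm.F_unique` on `Zd D δ ∋ p`), `expand` (with
`log (V + μ') ≤ log V + μ' / V`), `tw_expand`, `kern_ell_add`, `norm_ell_le`, `ell_gain`. -/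
theorem Geo.gain (G : Geo D Φ) (P : Par) : ∃ e₀ > 0, ∀ ε ∈ Icc (0 : ℝ) e₀, ∀ p ∈ D, ∀ h,
    IsMax D P ε p h → F h p ≠ 0 → ‖F h p‖ ≤ P.r → Gain D P ε p h := by
  obtain ⟨Rh, hRh, hb⟩ := adm_bound G.isOpen G.zero
  obtain ⟨e₀, he₀, c, hc, hg⟩ := ell_gain (n := n) P Rh
  refine ⟨e₀, he₀, fun ε hε p hp h hh h0 hζ ρ hρ hρ1 => ?_⟩
  have hB : HB h Rh := ⟨hh.1.1, hb h hh.1⟩
  obtain ⟨ρ', hρ', hρ''⟩ := exists_between hρ
  have hρ'1 : ρ' < 1 := hρ''.trans hρ1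
  have hpos : 0 < 1 - ρ' := by linarith
  have hr0 : 0 < P.r := P.hs.trans P.hsr
  obtain ⟨C₁, a₁, ha₁, H1⟩ := tw_expand hB hρ'' hρ1
  obtain ⟨C₂, a₂, ha₂, H2⟩ := taylor_V P hε.1 hh.1 hp h0 hζ hρ' hρ'1
  obtain ⟨C₃, hC₃, H3⟩ := norm_ell_le P ε p hB.bd hζ
  obtain ⟨H, hH⟩ : ∃ H : ℝ, H = 2 / (1 - ρ') := ⟨_, rfl⟩
  have hH1 : 1 ≤ H := by
    rw [hH, le_div_iff₀ hpos]
    linarith
  obtain ⟨K, hK⟩ : ∃ K : ℝ, K = 1 + H * (Rh + 2 * Rh / (1 - ρ')) + |C₁| * H ^ 2 := ⟨_, rfl⟩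
  have hK0 : 0 < K := by rw [hK]; positivity
  have hV : 0 < V P ε p h := mul_pos (norm_pos_iff.2 h0) (Real.exp_pos _)
  refine ⟨c, hc, C₂ * K ^ 2 + C₃ * (C₁ * H ^ 2), min 1 (min (a₁ / H) (a₂ / K)),
    by positivity, fun μ hμ => ?_⟩
  filter_upwards [G.expand hp hh (mul_pos hV hμ)] with δ ⟨hpδ, hδ⟩ k W a ha hk hka hW hre hz hWa
    hadm
  have ha1 : a ≤ 1 := ha.trans (min_le_left _ _)
  have ha2 : H * a ≤ a₁ := by
    have := ha.trans ((min_le_right _ _).trans (min_le_left _ _))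
    rwa [le_div_iff₀ (by positivity), mul_comm] at this
  have ha3 : K * a ≤ a₂ := by
    have := ha.trans ((min_le_right _ _).trans (min_le_right _ _))
    rwa [le_div_iff₀ hK0, mul_comm] at this
  have ha0 : 0 ≤ a := (hz ▸ norm_nonneg _ : 0 ≤ (W 0).re).trans hWa
  have hWb : ∀ ω : ℂ, ‖ω‖ ≤ ρ' → ‖W ω‖ ≤ H * a := fun ω hω =>
    (comp2_harnack hW hre hz hρ'1 hω).1.trans
      (hH ▸ mul_le_mul_of_nonneg_left hWa (by positivity))
  have hR : ∀ ω : ℂ, ‖ω‖ ≤ ρ' →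
      ‖tw k W ω - h ω - (k ω - h ω) - W ω • (h ω - ω • deriv h ω)‖ ≤ C₁ * H ^ 2 * a ^ 2 :=
    fun ω hω => (H1 k W (H * a) ha2 hk
      (fun w hw => (hka w hw).trans (le_mul_of_one_le_left ha0 hH1)) ω hω (hWb ω hω)).trans_eq
      (by ring)
  have hT : ∀ ω ∈ ball (0 : ℂ) ρ', ‖tw k W ω - h ω‖ ≤ K * a := fun ω hω => by
    have hω' := (mem_ball_zero_iff.1 hω).le
    have b1 := hka ω (ball_subset_ball hρ''.le hω)
    have b2 : ‖W ω • (h ω - ω • deriv h ω)‖ ≤ H * a * (Rh + 2 * Rh / (1 - ρ')) := by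
      rw [norm_smul]
      exact mul_le_mul (hWb ω hω') (comp2_field hB hρ'1 hω') (norm_nonneg _) (by positivity)
    have b3 : C₁ * H ^ 2 * a ^ 2 ≤ |C₁| * H ^ 2 * a :=
      mul_le_mul (mul_le_mul_of_nonneg_right (le_abs_self _) (by positivity)) (by nlinarith)
        (by positivity) (by positivity)
    have e : tw k W ω - h ω = (k ω - h ω) + W ω • (h ω - ω • deriv h ω) +
        (tw k W ω - h ω - (k ω - h ω) - W ω • (h ω - ω • deriv h ω)) := by abel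
    rw [e]
    refine (norm_add_le_of_le (norm_add_le_of_le b1 b2) ((hR ω hω').trans b3)).trans_eq ?_
    rw [hK]
    ring
  obtain ⟨t0, t1⟩ := H2 (tw k W) (K * a) ha3 hadm.1 hT fun ω hω e => hadm.F_unique hpδ hω e
  have hV' : 0 < V P ε p (tw k W) := mul_pos (norm_pos_iff.2 t0) (Real.exp_pos _)
  have hlog : Real.log (V P ε p (tw k W)) ≤ Real.log (V P ε p h) + μ := by
    have := Real.log_le_log hV' ((hδ _ hadm).trans_eq (mul_one_add _ _).symm)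
    rw [Real.log_mul hV.ne' (by positivity)] at this
    have h2 := Real.log_le_sub_one_of_pos (x := 1 + μ) (by positivity)
    linarith
  have hs1 : closedBall (0 : ℂ) P.r ⊆ ball 0 1 := closedBall_subset_ball P.hr
  have c1 : ContinuousOn h (closedBall 0 P.r) := hB.diff.continuousOn.mono hs1
  have c2 : ContinuousOn (k - h) (closedBall 0 P.r) :=
    (hk.continuousOn.mono (closedBall_subset_ball hρ)).sub c1
  have c3 : ContinuousOn (fun ω => W ω • (h ω - ω • deriv h ω)) (closedBall 0 P.r) :=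
    (hW.continuousOn.mono hs1).smul (c1.sub (continuousOn_id.smul
      ((hB.diff.deriv isOpen_ball).continuousOn.mono hs1)))
  have c4 : ContinuousOn (fun ω => tw k W ω - h ω - (k ω - h ω) - W ω • (h ω - ω • deriv h ω))
      (closedBall 0 P.r) := (((hadm.1.continuousOn.mono hs1).sub c1).sub c2).sub c3
  have e1 := kern_ell_add (P := P) (ε := ε) (p := p)
    (η'' := k - h + fun ω => W ω • (h ω - ω • deriv h ω)) hB.diff hζ c2 c3 (fun _ _ => rfl)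
  have e2 := kern_ell_add (P := P) (ε := ε) (p := p) (η'' := tw k W - h) hB.diff hζ (c2.add c3) c4
    (fun ω _ => by simp only [Pi.sub_apply, Pi.add_apply]; abel)
  have g1 := hg ε hε hh.1 hB hp h0 hζ W hW hre hz
  have g2 := H3 _ _ fun w hw => hR w (hw.trans hρ'.le)
  have g3 := (abs_le.1 ((abs_re_le_norm _).trans g2)).1
  have g4 := (abs_le.1 t1).1
  rw [e2, e1, add_re, add_re] at g4
  linarith

end Pool.Agent.MP_4baaa2_an.H94

end

-- part MP_4baaa2_an.H94.GeoA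
section

/-!
Inward directions and the cone data at a boundary point.
-/

namespace Pool.Agent.MP_4baaa2_an.H94

open Set Metric Filter Topology Complex
open scoped ComplexConjugate
open Pool.Agent.Lib.PlaneTop

variable {n : ℕ}

/-- `d` is a uniformly inward direction at `x` -/
def HT (D : Set (E n)) (x d : E n) : Prop :=
  ∃ r > 0, ∀ y ∈ closure D, ‖y - x‖ < r → ∀ d', ‖d' - d‖ < r → ∀ t ∈ Ioo (0 : ℝ) r,
    y + t • d' ∈ D

/-- the edge `e` is approximated by nearby hyperplanes -/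
def EdW (D : Set (E n)) (q ξ : E n) (e : ℂ) : Prop :=
  ∀ η : ℝ, 0 < η → ∃ δ : ℝ, 0 < δ ∧ ∃ ξ' ∈ Kd D, ‖ξ' - ξ‖ < η ∧ ‖dot q (ξ' - ξ) - δ * e‖ < δ * η

/-- the edge `e` is approximated by nearby hyperplanes with a linear rate -/
def EdS (D : Set (E n)) (q ξ : E n) (e : ℂ) : Prop :=
  ∀ η : ℝ, 0 < η → ∃ C : ℝ, ∀ᶠ δ : ℝ in 𝓝[>] 0, ∃ ξ' ∈ Kd D, ‖ξ' - ξ‖ ≤ C * δ ∧
    ‖dot q (ξ' - ξ) - δ * e‖ ≤ δ * η

/-- the cone data at the boundary point `q` -/
structure Cn (D : Set (E n)) (q : E n) (T : Set (E n)) : Prop where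
  mem : q ∈ closure D
  op : IsOpen T
  cv : Convex ℝ T
  sm : ∀ v ∈ T, ∀ c : ℝ, 0 < c → c • v ∈ T
  ht : ∀ v ∈ T, HT D q v
  tr : ∀ a ∈ D, ∃ d : ℂ, d • (q - a) ∈ T
  ed : ∀ ξ ∈ Kd D, dot q ξ = 1 → ∀ l e : ℂ, l ≠ 0 → ‖e‖ = 1 → (l * e).re = 0 →
    (∀ v ∈ T, (dot (l • ξ) v).re ≤ 0) → EdS D q ξ e

/-- the hypotheses for the second stage -/
structure Hyp (D : Set (E n)) : Prop where
  two : 2 ≤ n
  isOpen : IsOpen D
  conn : IsConnected D
  bdd : Bornology.IsBounded D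
  zero : (0 : E n) ∈ D
  lc' : ∀ z ∉ D, ∃ ξ ∈ Kd D, dot z ξ = 1
  cn : ∀ q ∈ frontier D, ∃ T, Cn D q T

variable {D T : Set (E n)} {p q ξ : E n}

theorem Hyp.ne_univ (H : Hyp D) : D ≠ univ := ne_univ_of_bdd H.two H.bdd

theorem HT.add {d d' : E n} (h : HT D q d) (h' : HT D q d') : HT D q (d + d') := by
  obtain ⟨r₁, h₁, h⟩ := h
  obtain ⟨r₂, h₂, h'⟩ := h'
  have hn := norm_nonneg d'
  have h3 : r₁ / (1 + ‖d'‖) ≤ r₁ := div_le_self h₁.le (by linarith)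
  refine ⟨min (r₁ / (1 + ‖d'‖)) r₂, by positivity, fun y hy h4 d'' h5 t ht => ?_⟩
  rw [lt_min_iff] at h4 h5
  have h6 := lt_min_iff.1 ht.2
  have h7 := h' y hy h4.2 d' (by simpa) t ⟨ht.1, h6.2⟩
  have h8 : ‖y + t • d' - q‖ < r₁ := by
    rw [add_sub_right_comm]
    refine (norm_add_le _ _).trans_lt ?_
    rw [norm_smul, Real.norm_of_nonneg ht.1.le]
    have := mul_le_mul_of_nonneg_right h6.1.le hn
    have e : r₁ / (1 + ‖d'‖) + r₁ / (1 + ‖d'‖) * ‖d'‖ = r₁ := by field_simp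
    linarith [h4.1]
  have h9 := h _ (subset_closure h7) h8 (d'' - d')
    (by rw [sub_sub, add_comm d' d]; exact h5.1.trans_le h3) t ⟨ht.1, h6.1.trans_le h3⟩
  rwa [add_assoc, ← smul_add, add_sub_cancel] at h9

theorem HT.smul {d : E n} (h : HT D q d) {c : ℝ} (hc : 0 < c) : HT D q (c • d) := by
  obtain ⟨r₁, h₁, h⟩ := h
  refine ⟨min r₁ (min (c * r₁) (r₁ / c)), by positivity, fun y hy h4 d' h5 t ht => ?_⟩
  have h6 := ht.2
  simp only [lt_min_iff] at h4 h5 h6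
  have h7 := h y hy h4.1 (c⁻¹ • d') (by
    have e : c⁻¹ • d' - d = c⁻¹ • (d' - c • d) := by
      rw [smul_sub, smul_smul, inv_mul_cancel₀ hc.ne', one_smul]
    rw [e, norm_smul, Real.norm_of_nonneg (inv_nonneg.2 hc.le), inv_mul_lt_iff₀ hc]
    exact h5.2.1) (t * c) ⟨mul_pos ht.1 hc, (lt_div_iff₀ hc).1 h6.2.2⟩
  rwa [smul_smul, mul_inv_cancel_right₀ hc.ne'] at h7

theorem HT.nhds {d : E n} (h : HT D q d) : ∀ᶠ x : E n × E n in 𝓝 (q, d), HT D x.1 x.2 := by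
  obtain ⟨r₁, h₁, h⟩ := h
  filter_upwards [ball_mem_nhds (q, d) (half_pos h₁)] with x hx
  rw [mem_ball, Prod.dist_eq, max_lt_iff, dist_eq_norm, dist_eq_norm] at hx
  refine ⟨r₁ / 2, half_pos h₁, fun y hy h4 d' h5 t ht => h y hy ?_ d' ?_ t
    ⟨ht.1, ht.2.trans (half_lt_self h₁)⟩⟩
  · linarith [norm_sub_le_norm_sub_add_norm_sub y x.1 q, hx.1]
  · linarith [norm_sub_le_norm_sub_add_norm_sub d' x.2 d, hx.2]

theorem HT.step {d : E n} (h : HT D q d) (hq : q ∈ closure D) :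
    ∀ᶠ t : ℝ in 𝓝[>] 0, q + t • d ∈ D := by
  obtain ⟨r, hr, h⟩ := h
  filter_upwards [Ioo_mem_nhdsGT hr] with t ht
  exact h q hq (by simpa using hr) d (by simpa using hr) t ht

theorem Hyp.transv (H : Hyp D) {a v : E n} (ha : a ∈ D) {s : ℂ}
    (hs : a + s • v ∈ frontier D) : ∃ d : ℂ, HT D (a + s • v) (d • v) := by
  obtain ⟨T, h⟩ := H.cn _ hs
  obtain ⟨d, hd⟩ := h.tr a ha
  rw [add_sub_cancel_left, smul_smul] at hd
  exact ⟨_, h.ht _ hd⟩

theorem Hyp.exists_ht (H : Hyp D) (hq : q ∈ frontier D) : ∃ d, HT D q d := by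
  obtain ⟨T, h⟩ := H.cn _ hq
  obtain ⟨d, hd⟩ := h.tr 0 H.zero
  exact ⟨_, h.ht _ hd⟩

theorem EdS.edW {e : ℂ} (h : EdS D q ξ e) : EdW D q ξ e := by
  intro η hη
  obtain ⟨C, hC⟩ := h (η / 2) (half_pos hη)
  have h1 : ∀ᶠ δ : ℝ in 𝓝[>] 0, C * δ < η :=
    mem_nhdsWithin_of_mem_nhds (((continuous_const.mul continuous_id).tendsto' 0 0
      (by simp)).eventually (gt_mem_nhds hη))
  obtain ⟨δ, ⟨⟨ξ', h2, h3, h4⟩, h5⟩, h6⟩ := ((hC.and h1).and self_mem_nhdsWithin).exists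
  have h7 : 0 < δ := h6
  exact ⟨δ, h7, ξ', h2, h3.trans_lt h5, h4.trans_lt (by nlinarith)⟩

end Pool.Agent.MP_4baaa2_an.H94

/-!
Line sections are connected; logarithms exist on the domain.
-/

namespace Pool.Agent.MP_4baaa2_an.H94

open Set Metric Filter Topology Complex
open scoped ComplexConjugate
open Pool.Agent.Lib.PlaneTop

variable {n : ℕ}

variable {D : Set (E n)}

/-- a continuous choice of inward directions along the line -/
theorem GeoB_field (H : Hyp D) {a v : E n} (ha : a ∈ D) :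
    ∃ d : ℂ → ℂ, Continuous d ∧ (∀ s, ‖d s‖ ≤ 1) ∧
      ∀ s, a + s • v ∈ frontier D → HT D (a + s • v) (d s • v) := by
  have key := exists_continuous_forall_mem_convex_of_local_const (X := ℂ) (E := ℂ)
    (t := fun s => {d : ℂ | ‖d‖ ≤ 1 ∧ (a + s • v ∈ frontier D → HT D (a + s • v) (d • v))})
    (fun s => ?_) (fun s₀ => ?_)
  · obtain ⟨g, hg⟩ := key
    exact ⟨g, g.continuous, fun s => (hg s).1, fun s => (hg s).2⟩
  · rintro x ⟨hx1, hx2⟩ y ⟨hy1, hy2⟩ α β hα hβ hαβ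
    refine ⟨?_, fun hs => ?_⟩
    · calc ‖α • x + β • y‖ ≤ ‖α • x‖ + ‖β • y‖ := norm_add_le _ _
        _ = α * ‖x‖ + β * ‖y‖ := by
          rw [norm_smul, norm_smul, Real.norm_of_nonneg hα, Real.norm_of_nonneg hβ]
        _ ≤ α * 1 + β * 1 := by gcongr
        _ = 1 := by linarith
    · rcases hα.eq_or_lt with h0 | h0
      · have : β = 1 := by linarith
        subst this; subst h0
        simpa using hy2 hs
      rcases hβ.eq_or_lt with h1 | h1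
      · have : α = 1 := by linarith
        subst this; subst h1
        simpa using hx2 hs
      have := ((hx2 hs).smul h0).add ((hy2 hs).smul h1)
      rwa [add_smul, smul_assoc, smul_assoc]
  · by_cases hs : a + s₀ • v ∈ frontier D
    · obtain ⟨d, hd⟩ := H.transv ha hs
      have hc : 0 < (‖d‖ + 1)⁻¹ := by positivity
      have h1 := (hd.smul hc).nhds
      have h2 : Tendsto (fun s : ℂ => (a + s • v, (‖d‖ + 1)⁻¹ • d • v)) (𝓝 s₀)
          (𝓝 (a + s₀ • v, (‖d‖ + 1)⁻¹ • d • v)) :=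
        Continuous.tendsto (f := fun s : ℂ => (a + s • v, (‖d‖ + 1)⁻¹ • d • v)) (by fun_prop) s₀
      refine ⟨(‖d‖ + 1)⁻¹ • d, ?_⟩
      filter_upwards [h2.eventually h1] with s hs'
      refine ⟨?_, fun _ => by rwa [smul_assoc]⟩
      rw [norm_smul, Real.norm_of_nonneg hc.le, inv_mul_le_iff₀ (by positivity)]
      linarith
    · refine ⟨0, ?_⟩
      have h1 : ∀ᶠ x in 𝓝 (a + s₀ • v), x ∉ frontier D :=
        isClosed_frontier.isOpen_compl.mem_nhds hs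
      have h2 : Tendsto (fun s : ℂ => a + s • v) (𝓝 s₀) (𝓝 (a + s₀ • v)) :=
        Continuous.tendsto (f := fun s : ℂ => a + s • v) (by fun_prop) s₀
      filter_upwards [h2.eventually h1] with s hs'
      exact ⟨by simp, fun h => absurd h hs'⟩

/-- the uniform pushing property with radius `δ` -/
def GeoBQ (D : Set (E n)) (x e : E n) (δ : ℝ) : Prop :=
  ∀ y ∈ D, ‖y - x‖ < δ → ∀ w, ‖w - e‖ < δ → ∀ t ∈ Ioo (0 : ℝ) δ, y + t • w ∈ D

theorem GeoBQ.mono {x e : E n} {δ δ' : ℝ} (h : GeoBQ D x e δ) (hδ : δ' ≤ δ) : GeoBQ D x e δ' :=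
  fun y hy h1 w h2 t ht => h y hy (h1.trans_le hδ) w (h2.trans_le hδ) t ⟨ht.1, ht.2.trans_le hδ⟩

theorem GeoBQ.near {x e x' e' : E n} {δ : ℝ} (h : GeoBQ D x e δ) (hx : ‖x' - x‖ < δ / 2)
    (he : ‖e' - e‖ < δ / 2) : GeoBQ D x' e' (δ / 2) := by
  intro y hy h1 w h2 t ht
  refine h y hy ?_ w ?_ t ⟨ht.1, by linarith [ht.1, ht.2]⟩
  · linarith [norm_sub_le_norm_sub_add_norm_sub y x' x]
  · linarith [norm_sub_le_norm_sub_add_norm_sub w e' e]

theorem GeoB_point (hD : IsOpen D) {x e : E n} (h : x ∈ frontier D → HT D x e) :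
    ∃ δ > 0, GeoBQ D x e δ := by
  by_cases hx : x ∈ frontier D
  · obtain ⟨r, hr, h⟩ := h hx
    exact ⟨r, hr, fun y hy => h y (subset_closure hy)⟩
  by_cases hxD : x ∈ D
  · obtain ⟨ρ, hρ, hb⟩ := Metric.isOpen_iff.1 hD x hxD
    have h0 : 0 < ρ / (‖e‖ + 2) := by positivity
    refine ⟨min 1 (ρ / (‖e‖ + 2)), lt_min one_pos h0, fun y _ h1 w h2 t ht => hb ?_⟩
    rw [mem_ball, dist_eq_norm]
    have h3 : ‖w‖ ≤ ‖e‖ + 1 := by
      have := norm_le_norm_add_norm_sub' w e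
      linarith [min_le_left 1 (ρ / (‖e‖ + 2))]
    have h4 : ‖y - x‖ < ρ / (‖e‖ + 2) := h1.trans_le (min_le_right _ _)
    have h5 : t ≤ ρ / (‖e‖ + 2) := (ht.2.trans_le (min_le_right _ _)).le
    calc ‖y + t • w - x‖ = ‖(y - x) + t • w‖ := by congr 1; abel
      _ ≤ ‖y - x‖ + t * ‖w‖ := by
        refine (norm_add_le _ _).trans ?_
        rw [norm_smul, Real.norm_of_nonneg ht.1.le]
      _ < ρ / (‖e‖ + 2) + ρ / (‖e‖ + 2) * (‖e‖ + 1) := by
        refine add_lt_add_of_lt_of_le h4 ?_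
        exact mul_le_mul h5 h3 (norm_nonneg _) h0.le
      _ = ρ := by field_simp; ring
  · have hc : x ∉ closure D := by
      intro hc
      exact hx (by rw [hD.frontier_eq]; exact ⟨hc, hxD⟩)
    obtain ⟨ρ, hρ, hb⟩ := Metric.isOpen_iff.1 isClosed_closure.isOpen_compl x hc
    refine ⟨ρ, hρ, fun y hy h1 => absurd (subset_closure hy) (hb ?_)⟩
    rwa [mem_ball, dist_eq_norm]

theorem GeoB_unif (hD : IsOpen D) {x e : ℂ → E n} (hx : Continuous x) (he : Continuous e)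
    (h : ∀ s, x s ∈ frontier D → HT D (x s) (e s)) {K : Set ℂ} (hK : IsCompact K) :
    ∃ δ > 0, ∀ s ∈ K, GeoBQ D (x s) (e s) δ := by
  refine hK.induction_on (p := fun K => ∃ δ > 0, ∀ s ∈ K, GeoBQ D (x s) (e s) δ)
    ⟨1, one_pos, by simp⟩ ?_ ?_ ?_
  · rintro s t hst ⟨δ, hδ, h⟩
    exact ⟨δ, hδ, fun z hz => h z (hst hz)⟩
  · rintro s t ⟨δ, hδ, h⟩ ⟨δ', hδ', h'⟩
    refine ⟨min δ δ', lt_min hδ hδ', fun z hz => ?_⟩
    rcases hz with hz | hz
    · exact (h z hz).mono (min_le_left _ _)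
    · exact (h' z hz).mono (min_le_right _ _)
  · intro s₀ _
    obtain ⟨δ, hδ, hq⟩ := GeoB_point hD (h s₀)
    have h1 : ∀ᶠ s in 𝓝 s₀, ‖x s - x s₀‖ < δ / 2 := by
      have := (hx.tendsto s₀).eventually (ball_mem_nhds (x s₀) (half_pos hδ))
      simpa [dist_eq_norm] using this
    have h2 : ∀ᶠ s in 𝓝 s₀, ‖e s - e s₀‖ < δ / 2 := by
      have := (he.tendsto s₀).eventually (ball_mem_nhds (e s₀) (half_pos hδ))
      simpa [dist_eq_norm] using this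
    exact ⟨{s | ‖x s - x s₀‖ < δ / 2 ∧ ‖e s - e s₀‖ < δ / 2},
      mem_nhdsWithin_of_mem_nhds (h1.and h2), δ / 2, half_pos hδ,
      fun s hs => hq.near hs.1 hs.2⟩

/-- nearby sections can be pushed into each other inside `D` -/
theorem Hyp.push (H : Hyp D) {a v : E n} (ha : a ∈ D) (hv : v ≠ 0) :
    ∃ d : ℂ → ℂ, Continuous d ∧ (∀ s, ‖d s‖ ≤ 1) ∧ ∃ ε₀ > 0, ∀ ε ∈ Ioo (0 : ℝ) ε₀, ∃ r > 0,
      ∀ a₁ v₁ a₂ v₂ : E n, ‖a₁ - a‖ < r → ‖v₁ - v‖ < r → ‖a₂ - a‖ < r → ‖v₂ - v‖ < r →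
      ∀ s ∈ Sec D a₁ v₁, ∀ t ∈ Icc (0 : ℝ) 1,
        (1 - t) • (a₁ + s • v₁) + t • (a₂ + (s + ε * d s) • v₂) ∈ D := by
  obtain ⟨d, hdc, hd1, hd⟩ := GeoB_field H (v := v) ha
  obtain ⟨R, hR0, hR⟩ := H.bdd.exists_pos_norm_le
  have hv0 : 0 < ‖v‖ := norm_pos_iff.2 hv
  set S : ℝ := 2 * (R + ‖a‖ + 1) / ‖v‖ with hS
  have hS0 : 0 < S := by positivity
  obtain ⟨δ, hδ, hq⟩ := GeoB_unif H.isOpen (x := fun s : ℂ => a + s • v)
    (e := fun s : ℂ => d s • v) (by fun_prop) (by fun_prop) hd (isCompact_closedBall (0 : ℂ) S)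
  refine ⟨d, hdc, hd1, δ, hδ, fun ε hε => ?_⟩
  have hε0 := hε.1
  obtain ⟨r, hr0, hr1, hr2, hr3, hr4⟩ : ∃ r : ℝ, 0 < r ∧ r ≤ 1 ∧ r ≤ ‖v‖ / 2 ∧
      r * (1 + S) ≤ δ / 2 ∧ 2 * r * (1 + S) ≤ ε * (δ / 2) := by
    refine ⟨min (min 1 (‖v‖ / 2)) (min (δ / 2 / (1 + S)) (ε * (δ / 2) / (2 * (1 + S)))),
      by positivity, (min_le_left _ _).trans (min_le_left _ _),
      (min_le_left _ _).trans (min_le_right _ _), ?_, ?_⟩
    · rw [← le_div_iff₀ (by positivity)]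
      exact (min_le_right _ _).trans (min_le_left _ _)
    · rw [mul_right_comm, mul_comm, ← le_div_iff₀ (by positivity)]
      exact (min_le_right _ _).trans (min_le_right _ _)
  refine ⟨r, hr0, fun a₁ v₁ a₂ v₂ h1 h2 h3 h4 s hs t ht => ?_⟩
  have hy : a₁ + s • v₁ ∈ D := hs
  rcases ht.1.eq_or_lt with h0 | h0
  · subst h0; simpa using hy
  have hsS : ‖s‖ ≤ S := by
    have e1 : ‖s‖ * ‖v₁‖ ≤ R + ‖a‖ + 1 := by
      rw [← norm_smul]
      have e2 := hR _ hy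
      have e3 : ‖s • v₁‖ ≤ ‖a₁ + s • v₁‖ + ‖a₁‖ := by
        simpa using norm_sub_le (a₁ + s • v₁) a₁
      have e4 := norm_le_norm_add_norm_sub' a₁ a
      linarith
    have e5 : ‖v‖ / 2 ≤ ‖v₁‖ := by
      have := norm_le_norm_add_norm_sub v₁ v
      linarith
    rw [hS, le_div_iff₀ hv0]
    nlinarith [norm_nonneg s]
  have hsr : ‖s‖ * r ≤ S * r := by gcongr
  have key := hq s (by simpa using hsS) _ hy ?_
    (d s • v₂ + ε⁻¹ • ((a₂ - a₁) + s • (v₂ - v₁))) ?_ (t * ε)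
    ⟨by positivity, by nlinarith [ht.2, hε.2]⟩
  · convert key using 1
    have e : (ε : ℂ) * d s = ε • d s := by simp
    rw [e, smul_add (t * ε), smul_smul (t * ε) ε⁻¹, mul_inv_cancel_right₀ hε0.ne', add_smul s,
      smul_assoc, smul_sub s]
    module
  · calc ‖a₁ + s • v₁ - (a + s • v)‖ = ‖(a₁ - a) + s • (v₁ - v)‖ := by
          congr 1; rw [smul_sub]; abel
      _ ≤ ‖a₁ - a‖ + ‖s‖ * ‖v₁ - v‖ := by
          refine (norm_add_le _ _).trans ?_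
          rw [norm_smul]
      _ ≤ r + ‖s‖ * r := by gcongr
      _ < δ := by nlinarith
  · have e1 : ‖a₂ - a₁‖ ≤ 2 * r := by
      have := norm_sub_le_norm_sub_add_norm_sub a₂ a a₁
      rw [norm_sub_rev a a₁] at this
      linarith
    have e2 : ‖v₂ - v₁‖ ≤ 2 * r := by
      have := norm_sub_le_norm_sub_add_norm_sub v₂ v v₁
      rw [norm_sub_rev v v₁] at this
      linarith
    have e3 : ‖(a₂ - a₁) + s • (v₂ - v₁)‖ ≤ ε * (δ / 2) := by
      refine (norm_add_le _ _).trans ?_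
      rw [norm_smul]
      have : ‖s‖ * ‖v₂ - v₁‖ ≤ S * (2 * r) := by gcongr
      linarith
    have e4 : ‖ε⁻¹ • ((a₂ - a₁) + s • (v₂ - v₁))‖ ≤ δ / 2 := by
      rw [norm_smul, Real.norm_of_nonneg (by positivity), inv_mul_le_iff₀ hε0]
      exact e3
    have e5 : ‖d s • (v₂ - v)‖ < δ / 2 := by
      rw [norm_smul]
      calc ‖d s‖ * ‖v₂ - v‖ ≤ 1 * ‖v₂ - v‖ := by gcongr; exact hd1 s
        _ < r := by linarith
        _ ≤ δ / 2 := by nlinarith
    calc ‖d s • v₂ + ε⁻¹ • ((a₂ - a₁) + s • (v₂ - v₁)) - d s • v‖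
        = ‖d s • (v₂ - v) + ε⁻¹ • ((a₂ - a₁) + s • (v₂ - v₁))‖ := by
          congr 1; rw [smul_sub (d s)]; abel
      _ ≤ _ := norm_add_le _ _
      _ < δ := by linarith

/-- `push` with a fixed parameter -/
theorem GeoB_push (H : Hyp D) {a v : E n} (ha : a ∈ D) (hv : v ≠ 0) :
    ∃ φ : ℂ → ℂ, Continuous φ ∧ ∃ r > 0,
      ∀ a₁ v₁ a₂ v₂ : E n, ‖a₁ - a‖ < r → ‖v₁ - v‖ < r → ‖a₂ - a‖ < r → ‖v₂ - v‖ < r →
      ∀ s ∈ Sec D a₁ v₁, ∀ t ∈ Icc (0 : ℝ) 1,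
        (1 - t) • (a₁ + s • v₁) + t • (a₂ + φ s • v₂) ∈ D := by
  obtain ⟨d, hd, -, ε₀, hε₀, h⟩ := H.push ha hv
  exact ⟨fun s => s + (ε₀ / 2 : ℝ) * d s, by fun_prop, h (ε₀ / 2) ⟨by positivity, by linarith⟩⟩

theorem Hyp.joined (H : Hyp D) {a b : E n} (ha : a ∈ D) (hb : b ∈ D) :
    JoinedIn (Sec D a (b - a)) 0 1 := by
  have hnear : ∀ᶠ b in 𝓝 a, JoinedIn (Sec D a (b - a)) 0 1 := by
    obtain ⟨ρ, hρ, hball⟩ := Metric.isOpen_iff.1 H.isOpen a ha
    filter_upwards [ball_mem_nhds a hρ] with b hb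
    refine JoinedIn.of_segment_subset ?_
    rintro s ⟨α, β, hα, hβ, hαβ, rfl⟩
    refine hball ?_
    have := (convex_ball a ρ) (mem_ball_self hρ) hb hα hβ hαβ
    convert this using 1
    have e : α = 1 - β := by linarith
    rw [smul_zero, zero_add, smul_assoc, one_smul, e]
    module
  refine H.conn.isPreconnected.induction₂'
    (fun b b' => JoinedIn (Sec D a (b - a)) 0 1 → JoinedIn (Sec D a (b' - a)) 0 1)
    (fun b₀ hb₀ => ?_) (fun x y z _ _ _ h1 h2 h => h2 (h1 h)) ha hb hnear.self_of_nhds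
  rcases eq_or_ne b₀ a with rfl | hne
  · filter_upwards [mem_nhdsWithin_of_mem_nhds hnear] with b hb
    exact ⟨fun _ => hb, fun _ => hnear.self_of_nhds⟩
  obtain ⟨φ, hφ, r, hr, h⟩ := GeoB_push H ha (sub_ne_zero.2 hne)
  have key : ∀ b₁ ∈ ball b₀ r, ∀ b₂ ∈ ball b₀ r, b₂ ∈ D →
      JoinedIn (Sec D a (b₁ - a)) 0 1 → JoinedIn (Sec D a (b₂ - a)) 0 1 := by
    intro b₁ h1 b₂ h2 hD hj
    rw [mem_ball, dist_eq_norm] at h1 h2
    have h0 : ‖a - a‖ < r := by simpa using hr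
    have h1' : ‖b₁ - a - (b₀ - a)‖ < r := by rwa [sub_sub_sub_cancel_right]
    have h2' : ‖b₂ - a - (b₀ - a)‖ < r := by rwa [sub_sub_sub_cancel_right]
    have hseg : ∀ s ∈ Sec D a (b₂ - a), JoinedIn (Sec D a (b₂ - a)) s (φ s) := by
      intro s hs
      refine JoinedIn.of_segment_subset ?_
      rintro _ ⟨α, β, hα, hβ, hαβ, rfl⟩
      have := h a _ a _ h0 h2' h0 h2' s hs β ⟨hβ, by linarith⟩
      change a + (α • s + β • φ s) • (b₂ - a) ∈ D
      convert this using 1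
      have e : α = 1 - β := by linarith
      rw [add_smul, smul_assoc, smul_assoc, e]
      module
    have hmid : JoinedIn (Sec D a (b₂ - a)) (φ 0) (φ 1) := by
      refine (hj.map hφ).mono ?_
      rintro _ ⟨s, hs, rfl⟩
      have := h a _ a _ h0 h1' h0 h2' s hs 1 ⟨zero_le_one, le_rfl⟩
      simpa [Sec] using this
    exact ((hseg 0 (by simpa [Sec] using ha)).trans hmid).trans
      (hseg 1 (by simpa [Sec] using hD)).symm
  filter_upwards [mem_nhdsWithin_of_mem_nhds (ball_mem_nhds b₀ hr), self_mem_nhdsWithin]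
    with b hb hbD
  exact ⟨key _ (mem_ball_self hr) _ hb hbD, key _ hb _ (mem_ball_self hr) hb₀⟩

theorem GeoB_range {X : Type*} [TopologicalSpace X] {F : Set X} {x y : X} (h : JoinedIn F x y) :
    ∃ K, K ⊆ F ∧ x ∈ K ∧ y ∈ K ∧ IsPreconnected K ∧ IsCompact K := by
  obtain ⟨γ, hγ⟩ := h
  exact ⟨range γ, range_subset_iff.2 hγ, ⟨0, γ.source⟩, ⟨1, γ.target⟩,
    isPreconnected_range γ.continuous, isCompact_range γ.continuous⟩

theorem Hyp.sect (H : Hyp D) (v : E n) (c : ℂ) : IsPreconnected {z ∈ D | dot z v = c} := by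
  refine isPreconnected_of_forall_pair fun a ha b hb => ?_
  have h1 := (H.joined ha.1 hb.1).map (f := fun s : ℂ => a + s • (b - a)) (by fun_prop)
  obtain ⟨K, hK, h2, h3, h4, -⟩ := GeoB_range h1
  refine ⟨K, hK.trans ?_, by simpa using h2, by simpa using h3, h4⟩
  rintro _ ⟨s, hs, rfl⟩
  refine ⟨hs, ?_⟩
  simp [ha.2, hb.2]

/-- a small section near a farthest boundary point -/
theorem GeoB_base (H : Hyp D) {g : E n → ℂ} (hg : ContinuousOn g D)
    (hne : ∀ z ∈ D, g z ≠ 0) : ∃ a ∈ D, ∃ v : E n, v ≠ 0 ∧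
      HasLogOn (fun s : ℂ => g (a + s • v)) (Sec D a v) := by
  have hn := H.two
  obtain ⟨q, hq, hmax⟩ := H.bdd.isCompact_closure.exists_isMaxOn
    ⟨0, subset_closure H.zero⟩ continuous_norm.continuousOn
  have hmax' : ∀ y ∈ D, ‖y‖ ≤ ‖q‖ := fun y hy => hmax (subset_closure hy)
  obtain ⟨v, hv, hv0⟩ : ∃ v : E n, dot v (cj q) = 0 ∧ v ≠ 0 := by
    have := (dotL (cj q)).toLinearMap.ker_ne_bot_of_finrank_lt (by simp; omega)
    obtain ⟨v, hv, hv0⟩ := (Submodule.ne_bot_iff _).1 this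
    exact ⟨v, by rw [dot_comm]; simpa using hv, hv0⟩
  have hv1 : 0 < ‖v‖ := norm_pos_iff.2 hv0
  have hqD : q ∉ D := by
    intro hqD
    obtain ⟨ρ, hρ, hb⟩ := Metric.isOpen_iff.1 H.isOpen q hqD
    have hm : q + (ρ / 2 / ‖v‖) • v ∈ D := by
      refine hb ?_
      rw [mem_ball, dist_eq_norm, add_sub_cancel_left, norm_smul,
        Real.norm_of_nonneg (by positivity), div_mul_cancel₀ _ hv1.ne']
      linarith
    have h1 := hmax' _ hm
    have h2 := norm_add_sq (𝕜 := ℂ) q ((ρ / 2 / ‖v‖) • v)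
    rw [← dot_cj_right, dot_rsmul_left, hv, norm_smul, Real.norm_of_nonneg (by positivity),
      div_mul_cancel₀ _ hv1.ne'] at h2
    have h3 := pow_le_pow_left₀ (norm_nonneg _) h1 2
    simp only [mul_zero, map_zero] at h2
    nlinarith
  obtain ⟨d, r, hr, hd⟩ := H.exists_ht (q := q) (by rw [H.isOpen.frontier_eq]; exact ⟨hq, hqD⟩)
  have hd' : ∀ y ∈ closure D, ‖y - q‖ < r → ∀ t ∈ Ioo (0 : ℝ) r, y + t • d ∈ D :=
    fun y hy h1 => hd y hy h1 d (by simpa using hr)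
  obtain ⟨ρ, hρ, hb⟩ := Metric.isOpen_iff.1 H.isOpen _
    (hd' q hq (by simpa using hr) (r / 2) ⟨by positivity, by linarith⟩)
  set η := min r ρ with hη
  have hη0 : 0 < η := lt_min hr hρ
  obtain ⟨a, haD, ha⟩ := Metric.mem_closure_iff.1 hq (η ^ 2 / (2 * ‖q‖ + 1)) (by positivity)
  have hsmall : ∀ s ∈ Sec D a v, ‖a + s • v - q‖ < η := by
    intro s hs
    have h1 := pow_le_pow_left₀ (norm_nonneg _) (hmax' _ hs) 2
    have h2 := norm_add_sq (𝕜 := ℂ) q (a + s • v - q)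
    have e : a + s • v - q = s • v - (q - a) := by abel
    rw [add_sub_cancel, ← dot_cj_right] at h2
    have h3 : dot (a + s • v - q) (cj q) = -dot (q - a) (cj q) := by
      rw [e, dot_sub_left, dot_smul_left, hv, mul_zero, zero_sub]
    have h4 : (dot (q - a) (cj q)).re ≤ ‖q - a‖ * ‖q‖ := by
      refine (re_le_norm _).trans ?_
      simpa using norm_dot_le (q - a) (cj q)
    rw [h3] at h2
    simp only [map_neg, RCLike.re_to_complex] at h2
    rw [dist_eq_norm, lt_div_iff₀ (by positivity)] at ha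
    refine lt_of_pow_lt_pow_left₀ 2 hη0.le ?_
    nlinarith [norm_nonneg (q - a)]
  refine ⟨a, haD, v, hv0, ?_⟩
  have hm : ∀ t ∈ Icc (0 : ℝ) 1, ∀ s ∈ Sec D a v, a + s • v + (t * (r / 2)) • d ∈ D := by
    intro t ht s hs
    rcases ht.1.eq_or_lt with h0 | h0
    · subst h0; simpa [Sec] using hs
    exact hd' _ (subset_closure hs) ((hsmall s hs).trans_le (min_le_left _ _)) _
      ⟨by positivity, by nlinarith [ht.2]⟩
  have h1 := (hasLogOn_of_convex (convex_ball _ ρ) (hg.mono hb) fun x hx => hne x (hb hx)).comp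
    (φ := fun s : ℂ => a + s • v + (r / 2) • d) (K' := Sec D a v) (by fun_prop) (fun s hs => by
      rw [mem_ball, dist_eq_norm, add_sub_add_right_eq_sub]
      exact (hsmall s hs).trans_le (min_le_right _ _))
  have := HasLogOn.homotopy' (H := fun t s => g (a + s • v + (t * (r / 2)) • d)) (K := Sec D a v)
    (hg.comp (f := fun p : ℝ × ℂ => a + p.2 • v + (p.1 * (r / 2)) • d) (by fun_prop)
      (fun p hp => hm _ hp.1 _ hp.2))
    (fun t ht s hs => hne _ (hm t ht s hs)) (by simpa using h1)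
  simpa using this

theorem Hyp.logs_line (H : Hyp D) {g : E n → ℂ} (hg : ContinuousOn g D)
    (hne : ∀ z ∈ D, g z ≠ 0) {a v : E n} (ha : a ∈ D) :
    HasLogOn (fun s : ℂ => g (a + s • v)) (Sec D a v) := by
  rcases eq_or_ne v 0 with rfl | hv
  · simpa using hasLogOn_const (hne a ha) _
  obtain ⟨a₀, ha₀, v₀, hv₀, hbase⟩ := GeoB_base H hg hne
  have hn := H.two
  have hrank : 1 < Module.rank ℝ (E n) := by
    rw [← Module.finrank_eq_rank, finrank_real_of_complex, finrank_euclideanSpace_fin]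
    exact_mod_cast (by omega : 1 < 2 * n)
  have hconn : IsPreconnected (D ×ˢ ({0}ᶜ : Set (E n))) :=
    H.conn.isPreconnected.prod (isConnected_compl_singleton_of_one_lt_rank hrank 0).isPreconnected
  refine hconn.induction₂'
    (fun x y : E n × E n => HasLogOn (fun s : ℂ => g (x.1 + s • x.2)) (Sec D x.1 x.2) →
      HasLogOn (fun s : ℂ => g (y.1 + s • y.2)) (Sec D y.1 y.2))
    (fun x hx => ?_) (fun x y z _ _ _ h1 h2 h => h2 (h1 h)) (x := (a₀, v₀)) (y := (a, v))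
    ⟨ha₀, hv₀⟩ ⟨ha, hv⟩ hbase
  obtain ⟨φ, hφ, r, hr, h⟩ := GeoB_push H hx.1 hx.2
  have key : ∀ y ∈ ball x r, ∀ z ∈ ball x r,
      HasLogOn (fun s : ℂ => g (y.1 + s • y.2)) (Sec D y.1 y.2) →
      HasLogOn (fun s : ℂ => g (z.1 + s • z.2)) (Sec D z.1 z.2) := by
    intro y hy z hz hl
    rw [mem_ball, Prod.dist_eq, max_lt_iff, dist_eq_norm, dist_eq_norm] at hy hz
    have hm := h z.1 z.2 y.1 y.2 hz.1 hz.2 hy.1 hy.2
    have h1 := hl.comp (φ := φ) (K' := Sec D z.1 z.2) hφ.continuousOn (fun s hs => by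
      simpa [Sec] using hm s hs 1 ⟨zero_le_one, le_rfl⟩)
    have := HasLogOn.homotopy'
      (H := fun t s => g ((1 - t) • (z.1 + s • z.2) + t • (y.1 + φ s • y.2))) (K := Sec D z.1 z.2)
      (hg.comp (f := fun p : ℝ × ℂ => (1 - p.1) • (z.1 + p.2 • z.2) + p.1 • (y.1 + φ p.2 • y.2))
        (by fun_prop) (fun p hp => hm _ hp.2 _ hp.1))
      (fun t ht s hs => hne _ (hm s hs t ht)) (by simpa using h1)
    simpa using this
  filter_upwards [mem_nhdsWithin_of_mem_nhds (ball_mem_nhds x hr)] with y hy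
  exact ⟨key _ (mem_ball_self hr) _ hy, key _ hy _ (mem_ball_self hr)⟩

theorem Hyp.logs (H : Hyp D) {g : E n → ℂ} (hg : ContinuousOn g D)
    (hne : ∀ z ∈ D, g z ≠ 0) : HasLogOn g D := by
  choose ω hω1 hω2 using fun z : E n => H.logs_line hg hne (v := z) H.zero
  simp only [Sec, zero_add, mem_ofPred_eq] at hω1 hω2
  have hg0 := hne 0 H.zero
  refine ⟨fun z => ω z 1 - ω z 0 + log (g 0), fun z₀ hz₀ => ?_, fun z hz => ?_⟩
  swap
  · rw [exp_add, exp_sub, hω2 z 1 (by simpa using hz), hω2 z 0 (by simpa using H.zero),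
      exp_log hg0]
    simp [hg0]
  obtain ⟨K, hK, h0, h1, hKc, hKk⟩ := GeoB_range (H.joined H.zero hz₀)
  simp only [Sec, zero_add, sub_zero] at hK
  have hgo : ∀ x ∈ D, ContinuousAt g x := fun x hx => hg.continuousAt (H.isOpen.mem_nhds hx)
  have hev : ∀ᶠ z in 𝓝 z₀, ∀ s ∈ K, s • z ∈ D ∧ g (s • z) / g (s • z₀) ∈ slitPlane := by
    refine hKk.eventually_forall_of_forall_eventually fun s hs => ?_
    have hsD : s • z₀ ∈ D := hK hs
    have c1 : ContinuousAt (fun p : E n × ℂ => p.2 • p.1) (z₀, s) := by fun_prop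
    have c2 : ContinuousAt (fun p : E n × ℂ => p.2 • z₀) (z₀, s) := by fun_prop
    have c3 : ContinuousAt (fun p : E n × ℂ => g (p.2 • p.1) / g (p.2 • z₀)) (z₀, s) :=
      (ContinuousAt.comp (g := g) (f := fun p : E n × ℂ => p.2 • p.1) (hgo _ hsD) c1).div
        (ContinuousAt.comp (g := g) (f := fun p : E n × ℂ => p.2 • z₀) (hgo _ hsD) c2)
        (hne _ hsD)
    refine (c1.eventually (H.isOpen.mem_nhds hsD)).and (c3.eventually ?_)
    refine isOpen_slitPlane.mem_nhds ?_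
    simp [div_self (hne _ hsD)]
  have heq : ∀ᶠ z in 𝓝 z₀, ω z 1 - ω z 0 + log (g 0) =
      ω z₀ 1 - ω z₀ 0 + log (g 0) + log (g z / g z₀) := by
    filter_upwards [hev] with z hz
    have d1 : ContinuousOn (fun s : ℂ => g (s • z)) K :=
      hg.comp (f := fun s : ℂ => s • z) (by fun_prop) fun s hs => (hz s hs).1
    have d2 : ContinuousOn (fun s : ℂ => g (s • z₀)) K :=
      hg.comp (f := fun s : ℂ => s • z₀) (by fun_prop) fun s hs => hK hs
    have := log_sub_const (ω := ω z) (ω' := fun s => ω z₀ s + log (g (s • z) / g (s • z₀))) hKc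
      ((hω1 z).mono fun s hs => (hz s hs).1)
      (((hω1 z₀).mono hK).add ((d1.div d2 fun s hs => hne _ (hK hs)).clog fun s hs => (hz s hs).2))
      (fun s hs => by
        rw [exp_add, hω2 z s (hz s hs).1, hω2 z₀ s (hK hs),
          exp_log (slitPlane_ne_zero (hz s hs).2), mul_div_cancel₀ _ (hne _ (hK hs))]) h0 h1
    simp only [zero_smul, one_smul, div_self hg0, log_one] at this
    linear_combination -this
  refine ContinuousAt.continuousWithinAt (ContinuousAt.congr ?_ (EventuallyEq.symm heq))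
  refine continuousAt_const.add (ContinuousAt.clog ((hgo _ hz₀).div_const _) ?_)
  simp [div_self (hne _ hz₀)]

end Pool.Agent.MP_4baaa2_an.H94

/-!
The branch of `log (1 - ⟨z, ξ⟩)` on the product of the domain and its dual complement.
-/

namespace Pool.Agent.MP_4baaa2_an.H94

open Set Metric Filter Topology Complex
open scoped ComplexConjugate
open Pool.Agent.Lib.PlaneTop

variable {n : ℕ}

/-- `Φ` is the normalised branch of `log (1 - ⟨z, ξ⟩)` -/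
structure IsPhi (D : Set (E n)) (Φ : E n → E n → ℂ) : Prop where
  cont : ContinuousOn (fun x : E n × E n => Φ x.1 x.2) (D ×ˢ Kd D)
  exp_eq : ∀ z ∈ D, ∀ ξ ∈ Kd D, exp (Φ z ξ) = 1 - dot z ξ
  zero : ∀ ξ ∈ Kd D, Φ 0 ξ = 0

/-- `Ψ` is the continuous extension of `Φ · a` to the closure -/
structure IsExt (D : Set (E n)) (Φ : E n → E n → ℂ) (a : E n) (Ψ : E n → ℂ) : Prop where
  cont : ContinuousOn Ψ (closure D)
  eq : ∀ z ∈ D, Ψ z = Φ z a
  exp_eq : ∀ z ∈ closure D, exp (Ψ z) = 1 - dot z a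

variable {D : Set (E n)} {Φ : E n → E n → ℂ}

lemma geoC_slit {w : ℂ} (h : ‖w - 1‖ < 1 / 2) : w ∈ slitPlane := by
  have := mem_slitPlane_of_norm_lt_one (z := w - 1) (by linarith)
  simpa using this

lemma geoC_ratio {K : Set (E n)} (hK : IsCompact K) {a : E n} (ha : ∀ z ∈ K, dot z a ≠ 1) :
    ∀ᶠ a' in 𝓝 a, ∀ z ∈ K, ‖(1 - dot z a') / (1 - dot z a) - 1‖ < 1 / 2 := by
  refine hK.eventually_forall_of_forall_eventually
    (P := fun a' z => ‖(1 - dot z a') / (1 - dot z a) - 1‖ < 1 / 2) fun z hz => ?_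
  have hne : 1 - dot z a ≠ 0 := sub_ne_zero.2 (ha z hz).symm
  have hc : ContinuousAt
      (fun x : E n × E n => ‖(1 - dot x.2 x.1) / (1 - dot x.2 a) - 1‖) (a, z) := by
    refine ContinuousAt.norm (ContinuousAt.sub (ContinuousAt.div ?_ ?_ hne) continuousAt_const)
    · fun_prop
    · fun_prop
  refine hc.eventually_lt continuousAt_const ?_
  simp [div_self hne]

lemma geoC_contOn_ratio {K : Set (E n)} {a a' : E n} (ha : ∀ z ∈ K, dot z a ≠ 1)
    (h : ∀ z ∈ K, ‖(1 - dot z a') / (1 - dot z a) - 1‖ < 1 / 2) :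
    ContinuousOn (fun z => log ((1 - dot z a') / (1 - dot z a))) K := by
  refine ContinuousOn.clog (ContinuousOn.div ?_ ?_ fun z hz => sub_ne_zero.2 (ha z hz).symm)
    fun z hz => geoC_slit (h z hz)
  · fun_prop
  · fun_prop

/-- two normalised logarithms for nearby hyperplanes differ by the logarithm of the ratio -/
lemma geoC_near {K : Set (E n)} (hK : IsPreconnected K) (h0 : (0 : E n) ∈ K) {a a' : E n}
    {φ φ' : E n → ℂ} (hφ : ContinuousOn φ K) (hφ' : ContinuousOn φ' K)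
    (he : ∀ z ∈ K, exp (φ z) = 1 - dot z a) (he' : ∀ z ∈ K, exp (φ' z) = 1 - dot z a')
    (hz : φ 0 = 0) (hz' : φ' 0 = 0)
    (h : ∀ z ∈ K, ‖(1 - dot z a') / (1 - dot z a) - 1‖ < 1 / 2) {z : E n} (hzK : z ∈ K) :
    φ' z = φ z + log ((1 - dot z a') / (1 - dot z a)) := by
  have ha : ∀ z ∈ K, dot z a ≠ 1 := fun z hz h1 => exp_ne_zero (φ z) (by rw [he z hz, h1, sub_self])
  have := log_sub_const (ω := φ') (ω' := fun z => φ z + log ((1 - dot z a') / (1 - dot z a))) hK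
    hφ' (hφ.add (geoC_contOn_ratio ha h)) (fun x hx => by
      have hne : 1 - dot x a ≠ 0 := sub_ne_zero.2 (ha x hx).symm
      rw [exp_add, he x hx, he' x hx, exp_log (slitPlane_ne_zero (geoC_slit (h x hx)))]
      field_simp) hzK h0
  simpa [hz, hz', sub_eq_zero] using this

lemma geoC_eq_zero {w : ℂ} (h1 : exp w = 1) (h2 : ‖w‖ < 1) : w = 0 := by
  obtain ⟨m, rfl⟩ := exp_eq_one_iff.1 h1
  rcases eq_or_ne m 0 with rfl | hm
  · simp
  · exfalso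
    have h3 : (1 : ℝ) ≤ |(m : ℝ)| := by exact_mod_cast Int.one_le_abs hm
    have h4 : ‖(m : ℂ) * (2 * Real.pi * I)‖ = |(m : ℝ)| * (2 * Real.pi) := by
      simp [abs_of_pos Real.pi_pos]
    rw [h4] at h2
    nlinarith [Real.pi_gt_three]

lemma IsPhi.contOn (hΦ : IsPhi D Φ) {ξ : E n} (hξ : ξ ∈ Kd D) :
    ContinuousOn (fun z => Φ z ξ) D :=
  hΦ.cont.comp (f := fun z : E n => (z, ξ)) (by fun_prop) fun _ hz => ⟨hz, hξ⟩

theorem Hyp.exists_phi (H : Hyp D) : ∃ Φ, IsPhi D Φ := by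
  have key : ∀ ξ : E n, ∃ φ : E n → ℂ, ξ ∈ Kd D → ContinuousOn φ D ∧
      (∀ z ∈ D, exp (φ z) = 1 - dot z ξ) ∧ φ 0 = 0 := by
    intro ξ
    by_cases hξ : ξ ∈ Kd D
    · obtain ⟨ω, h1, h2⟩ := H.logs (g := fun z => 1 - dot z ξ) (by fun_prop)
        fun z hz => sub_ne_zero.2 (hξ z hz).symm
      refine ⟨fun z => ω z - ω 0, fun _ => ⟨h1.sub continuousOn_const, fun z hz => ?_, by simp⟩⟩
      rw [exp_sub, h2 z hz, h2 0 H.zero]; simp
    · exact ⟨0, fun h => absurd h hξ⟩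
  choose φ hφ using key
  refine ⟨fun z ξ => φ ξ z, ?_, fun z hz ξ hξ => (hφ ξ hξ).2.1 z hz, fun ξ hξ => (hφ ξ hξ).2.2⟩
  rintro ⟨z, ξ⟩ ⟨hz, hξ⟩
  dsimp only at hz hξ
  obtain ⟨γ, hγ⟩ := (H.isOpen.isConnected_iff_isPathConnected.1 H.conn).joinedIn 0 H.zero z hz
  obtain ⟨ρ, hρ, hb⟩ := nhds_basis_closedBall.mem_iff.1 (H.isOpen.mem_nhds hz)
  have hKD : range γ ∪ closedBall z ρ ⊆ D := union_subset (range_subset_iff.2 hγ) hb
  have hKc : IsCompact (range γ ∪ closedBall z ρ) :=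
    (isCompact_range γ.continuous).union (isCompact_closedBall z ρ)
  have hKp : IsPreconnected (range γ ∪ closedBall z ρ) :=
    IsPreconnected.union z ⟨1, γ.target⟩ (mem_closedBall_self hρ.le)
      (isPreconnected_range γ.continuous) (convex_closedBall z ρ).isPreconnected
  have hK0 : (0 : E n) ∈ range γ ∪ closedBall z ρ := Or.inl ⟨0, γ.source⟩
  have hne : 1 - dot z ξ ≠ 0 := sub_ne_zero.2 (hξ z hz).symm
  have hr := geoC_ratio hKc (a := ξ) fun x hx => hξ x (hKD hx)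
  have hev : (fun x : E n × E n => φ x.2 x.1) =ᶠ[𝓝[D ×ˢ Kd D] (z, ξ)]
      fun x => φ ξ x.1 + log ((1 - dot x.1 x.2) / (1 - dot x.1 ξ)) := by
    have e1 : ∀ᶠ x : E n × E n in 𝓝 (z, ξ), x.1 ∈ closedBall z ρ :=
      continuous_fst.continuousAt.eventually (closedBall_mem_nhds z hρ)
    have e2 := (continuous_snd.continuousAt (x := (z, ξ))).eventually hr
    filter_upwards [self_mem_nhdsWithin, nhdsWithin_le_nhds e1, nhdsWithin_le_nhds e2]
      with x hx h1 h2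
    exact geoC_near hKp hK0 ((hφ ξ hξ).1.mono hKD) ((hφ x.2 hx.2).1.mono hKD)
      (fun y hy => (hφ ξ hξ).2.1 y (hKD hy)) (fun y hy => (hφ x.2 hx.2).2.1 y (hKD hy))
      (hφ ξ hξ).2.2 (hφ x.2 hx.2).2.2 h2 (Or.inr h1)
  refine ContinuousWithinAt.congr_of_eventuallyEq_of_mem ?_ hev ⟨hz, hξ⟩
  refine ContinuousAt.continuousWithinAt (ContinuousAt.add ?_ ?_)
  · exact ContinuousAt.comp (g := φ ξ) (f := fun x : E n × E n => x.1)
      ((hφ ξ hξ).1.continuousAt (H.isOpen.mem_nhds hz)) continuousAt_fst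
  · refine ContinuousAt.clog (ContinuousAt.div ?_ ?_ hne) ?_
    · fun_prop
    · fun_prop
    · simp [div_self hne]

theorem Hyp.loc_conn (H : Hyp D) {q : E n} (hq : q ∈ closure D) {r : ℝ} (hr : 0 < r) :
    ∃ r' > 0, ∃ S, IsPreconnected S ∧ D ∩ ball q r' ⊆ S ∧ S ⊆ D ∩ ball q r := by
  by_cases hqD : q ∈ D
  · obtain ⟨ρ, hρ, hb⟩ := Metric.isOpen_iff.1 H.isOpen q hqD
    refine ⟨min ρ r, lt_min hρ hr, ball q (min ρ r), (convex_ball _ _).isPreconnected,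
      inter_subset_right, subset_inter ?_ (ball_subset_ball (min_le_right _ _))⟩
    exact (ball_subset_ball (min_le_left _ _)).trans hb
  have hqf : q ∈ frontier D := by rw [H.isOpen.frontier_eq]; exact ⟨hq, hqD⟩
  obtain ⟨d, ρ, hρ, hd⟩ := H.exists_ht hqf
  have hd1 : 0 < ‖d‖ + 1 := by positivity
  obtain ⟨t₀, ht0, ht1, ht2⟩ : ∃ t₀ : ℝ, 0 < t₀ ∧ t₀ < ρ ∧ t₀ * ‖d‖ ≤ r / 2 := by
    refine ⟨min (ρ / 2) (r / 2 / (‖d‖ + 1)), by positivity,
      (min_le_left _ _).trans_lt (by linarith), ?_⟩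
    have h1 := min_le_right (ρ / 2) (r / 2 / (‖d‖ + 1))
    rw [le_div_iff₀ hd1] at h1
    have h2 : 0 < min (ρ / 2) (r / 2 / (‖d‖ + 1)) := by positivity
    nlinarith
  obtain ⟨r', hr0, hr1, hr2, hr3⟩ : ∃ r' : ℝ, 0 < r' ∧ r' ≤ ρ ∧ r' ≤ t₀ * ρ ∧ r' ≤ r / 2 :=
    ⟨min ρ (min (t₀ * ρ) (r / 2)), by positivity, min_le_left _ _,
      (min_le_right _ _).trans (min_le_left _ _), (min_le_right _ _).trans (min_le_right _ _)⟩
  have hfar : ∀ (y : E n) (t : ℝ), ‖y - q‖ < r' → t ∈ Icc 0 t₀ → y + t • d ∈ ball q r := by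
    intro y t hy ht
    rw [mem_ball_iff_norm]
    have e : y + t • d - q = (y - q) + t • d := by abel
    have h1 : ‖t • d‖ ≤ r / 2 := by
      rw [norm_smul, Real.norm_of_nonneg ht.1]
      exact (mul_le_mul_of_nonneg_right ht.2 (norm_nonneg _)).trans ht2
    rw [e]
    linarith [norm_add_le (y - q) (t • d)]
  have hB : ball (q + t₀ • d) r' ⊆ D ∩ ball q r := by
    intro x hx
    rw [mem_ball_iff_norm] at hx
    constructor
    · have := hd q hq (by simpa using hρ) (d + t₀⁻¹ • (x - (q + t₀ • d))) (by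
        rw [add_sub_cancel_left, norm_smul, Real.norm_of_nonneg (inv_nonneg.2 ht0.le),
          inv_mul_lt_iff₀ ht0]
        linarith) t₀ ⟨ht0, ht1⟩
      rwa [smul_add, smul_smul, mul_inv_cancel₀ ht0.ne', one_smul, ← add_assoc,
        add_sub_cancel] at this
    · have := hfar (x - t₀ • d) t₀ (by rwa [sub_sub, add_comm (t₀ • d)]) ⟨ht0.le, le_rfl⟩
      rwa [sub_add_cancel] at this
  have hseg : ∀ y ∈ D ∩ ball q r', (fun t : ℝ => y + t • d) '' Icc 0 t₀ ⊆ D ∩ ball q r := by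
    rintro y ⟨hy, hy'⟩ _ ⟨t, ht, rfl⟩
    rw [mem_ball_iff_norm] at hy'
    refine ⟨?_, hfar y t hy' ht⟩
    rcases ht.1.eq_or_lt with h0 | h0
    · simpa [← h0] using hy
    · exact hd y (subset_closure hy) (hy'.trans_le hr1) d (by simpa using hρ) t
        ⟨h0, ht.2.trans_lt ht1⟩
  refine ⟨r', hr0, ball (q + t₀ • d) r' ∪
    ⋃ y ∈ D ∩ ball q r', (fun t : ℝ => y + t • d) '' Icc 0 t₀, ?_, fun y hy => ?_,
    union_subset hB (iUnion₂_subset hseg)⟩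
  · refine isPreconnected_of_forall (q + t₀ • d) fun x hx => ?_
    rcases hx with hx | hx
    · exact ⟨_, subset_union_left, mem_ball_self hr0, hx, (convex_ball _ _).isPreconnected⟩
    · obtain ⟨y, hy, hx⟩ := mem_iUnion₂.1 hx
      refine ⟨ball (q + t₀ • d) r' ∪ (fun t : ℝ => y + t • d) '' Icc 0 t₀,
        union_subset_union_right _ (subset_biUnion_of_mem (u := fun y : E n =>
          (fun t : ℝ => y + t • d) '' Icc 0 t₀) hy), Or.inl (mem_ball_self hr0), Or.inr hx, ?_⟩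
      refine IsPreconnected.union (y + t₀ • d) ?_ ⟨t₀, ⟨ht0.le, le_rfl⟩, rfl⟩
        (convex_ball _ _).isPreconnected (isPreconnected_Icc.image _ (by fun_prop))
      simpa using hy.2
  · exact Or.inr (mem_iUnion₂.2 ⟨y, hy, 0, ⟨le_rfl, ht0.le⟩, by simp⟩)

/-- near a point of `closure D × K` where the values stay in a slit plane, `Φ` is a principal
logarithm up to a constant -/
theorem Hyp.phi_local (H : Hyp D) (hΦ : IsPhi D Φ) {q ξ : E n} (hq : q ∈ closure D)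
    (hξ : ξ ∈ Kd D) {u : ℂ}
    (hu : ∀ᶠ x : E n × E n in 𝓝[D ×ˢ Kd D] (q, ξ), u * (1 - dot x.1 x.2) ∈ slitPlane) :
    ∃ m : ℂ, exp m * u = 1 ∧ ∀ᶠ x : E n × E n in 𝓝[D ×ˢ Kd D] (q, ξ),
      Φ x.1 x.2 = log (u * (1 - dot x.1 x.2)) + m := by
  obtain ⟨r, hr, hs⟩ := Metric.mem_nhdsWithin_iff.1 hu
  have hsl : ∀ z ∈ D ∩ ball q r, ∀ ξ' ∈ Kd D, ξ' ∈ ball ξ r → u * (1 - dot z ξ') ∈ slitPlane := by
    intro z hz ξ' h1 h2
    refine hs (a := (z, ξ')) ⟨?_, hz.1, h1⟩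
    rw [← ball_prod_same]; exact ⟨hz.2, h2⟩
  obtain ⟨r', hr', S, hS, hS1, hS2⟩ := H.loc_conn hq hr
  obtain ⟨z₁, hz1, hz2⟩ := Metric.mem_closure_iff.1 hq r' hr'
  have hz1S : z₁ ∈ S := hS1 ⟨hz1, by rwa [mem_ball, dist_comm]⟩
  have h1 := hsl z₁ (hS2 hz1S) ξ hξ (mem_ball_self hr)
  have hm : exp (Φ z₁ ξ - log (u * (1 - dot z₁ ξ))) * u = 1 := by
    have h2 := slitPlane_ne_zero h1
    rw [exp_sub, exp_log h2, hΦ.exp_eq z₁ hz1 ξ hξ, div_mul_eq_mul_div, mul_comm, div_self h2]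
  refine ⟨_, hm, ?_⟩
  generalize hmm : Φ z₁ ξ - log (u * (1 - dot z₁ ξ)) = m at hm
  have hexp : ∀ z ∈ S, ∀ ξ' ∈ Kd D, ξ' ∈ ball ξ r →
      exp (Φ z ξ') = exp (log (u * (1 - dot z ξ')) + m) := by
    intro z hz ξ' h2 h3
    rw [exp_add, exp_log (slitPlane_ne_zero (hsl z (hS2 hz) ξ' h2 h3)),
      hΦ.exp_eq z (hS2 hz).1 ξ' h2]
    linear_combination (-(1 - dot z ξ')) * hm
  have hc : ContinuousWithinAt
      (fun x : E n × E n => Φ z₁ x.2 - (log (u * (1 - dot z₁ x.2)) + m)) (D ×ˢ Kd D) (q, ξ) := by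
    refine ContinuousWithinAt.sub ?_ (ContinuousAt.continuousWithinAt
      (ContinuousAt.add (ContinuousAt.clog (by fun_prop) h1) continuousAt_const))
    exact ContinuousWithinAt.comp_of_eq (g := fun x : E n × E n => Φ x.1 x.2)
      (f := fun x : E n × E n => (z₁, x.2)) (hΦ.cont (z₁, ξ) ⟨hz1, hξ⟩) (by fun_prop)
      (fun x hx => ⟨hz1, hx.2⟩) rfl
  have hsmall : ∀ᶠ x : E n × E n in 𝓝[D ×ˢ Kd D] (q, ξ),
      ‖Φ z₁ x.2 - (log (u * (1 - dot z₁ x.2)) + m)‖ < 1 := by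
    refine hc.norm.eventually (gt_mem_nhds ?_)
    simp [← hmm]
  have e1 : ∀ᶠ x : E n × E n in 𝓝 (q, ξ), x.1 ∈ ball q r' :=
    continuous_fst.continuousAt.eventually (ball_mem_nhds q hr')
  have e2 : ∀ᶠ x : E n × E n in 𝓝 (q, ξ), x.2 ∈ ball ξ r :=
    continuous_snd.continuousAt.eventually (ball_mem_nhds ξ hr)
  filter_upwards [self_mem_nhdsWithin, nhdsWithin_le_nhds e1, nhdsWithin_le_nhds e2, hsmall]
    with x hx h2 h3 h4
  have h5 := geoC_eq_zero (by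
    rw [exp_sub, hexp z₁ hz1S x.2 hx.2 h3, div_self (exp_ne_zero _)]) h4
  have h6 := log_sub_const (ω := fun z => Φ z x.2)
    (ω' := fun z => log (u * (1 - dot z x.2)) + m) hS
    ((hΦ.contOn hx.2).mono fun z hz => (hS2 hz).1)
    (ContinuousOn.add (ContinuousOn.clog (by fun_prop)
      fun z hz => hsl z (hS2 hz) x.2 hx.2 h3) continuousOn_const)
    (fun z hz => hexp z hz x.2 hx.2 h3) (hS1 ⟨hx.1, h2⟩) hz1S
  exact sub_eq_zero.1 (h6.trans h5)

theorem Hyp.exists_ext (H : Hyp D) (hΦ : IsPhi D Φ) {a : E n} (ha : a ∈ interior (Kd D)) :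
    ∃ Ψ, IsExt D Φ a Ψ := by
  have haK : a ∈ Kd D := interior_subset ha
  have hcont : ContinuousOn (extendFrom D fun z => Φ z a) (closure D) := by
    refine continuousOn_extendFrom subset_rfl fun q hq => ?_
    have hne : 1 - dot q a ≠ 0 := sub_ne_zero.2 (dot_ne_one_of_interior ha hq).symm
    have h1 : (1 - dot q a)⁻¹ * (1 - dot q a) ∈ slitPlane := by
      rw [inv_mul_cancel₀ hne]; exact one_mem_slitPlane
    have hc : ContinuousAt (fun x : E n × E n => (1 - dot q a)⁻¹ * (1 - dot x.1 x.2)) (q, a) := by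
      fun_prop
    obtain ⟨m, -, hm⟩ := H.phi_local hΦ hq haK (u := (1 - dot q a)⁻¹)
      (nhdsWithin_le_nhds (hc.eventually (isOpen_slitPlane.mem_nhds h1)))
    have ht : Tendsto (fun z : E n => (z, a)) (𝓝[D] q) (𝓝[D ×ˢ Kd D] (q, a)) :=
      ContinuousWithinAt.tendsto_nhdsWithin (f := fun z : E n => (z, a)) (by fun_prop)
        fun z hz => ⟨hz, haK⟩
    have hc2 : ContinuousAt (fun z : E n => log ((1 - dot q a)⁻¹ * (1 - dot z a)) + m) q :=
      ContinuousAt.add (ContinuousAt.clog (by fun_prop) h1) continuousAt_const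
    exact ⟨_, (hc2.continuousWithinAt (s := D)).tendsto.congr'
      ((ht.eventually hm).mono fun z hz => hz.symm)⟩
  have heq := extendFrom_extends (hΦ.contOn haK)
  refine ⟨_, hcont, heq, ?_⟩
  exact Set.EqOn.of_subset_closure (s := D) (f := fun z => exp (extendFrom D (fun z => Φ z a) z))
    (g := fun z => 1 - dot z a) (fun z hz => by
      simp only [heq z hz]; exact hΦ.exp_eq z hz a haK)
    hcont.cexp (by fun_prop) subset_closure subset_rfl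

theorem Hyp.ext_zero (H : Hyp D) (hΦ : IsPhi D Φ) : IsExt D Φ 0 (fun _ => 0) := by
  have h0 : (0 : E n) ∈ Kd D := interior_subset (zero_mem_interior_Kd H.bdd)
  refine ⟨continuousOn_const, fun z hz => ?_, fun z _ => by simp⟩
  have := log_sub_const (ω := fun z => Φ z 0) (ω' := fun _ => 0) H.conn.isPreconnected
    (hΦ.contOn h0) continuousOn_const (fun x hx => by simp [hΦ.exp_eq x hx 0 h0]) hz H.zero
  simpa [hΦ.zero 0 h0, eq_comm] using this

/-- the extension for a nearby base point -/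
theorem Hyp.ext_near (H : Hyp D) (hΦ : IsPhi D Φ) {a : E n} (ha : a ∈ interior (Kd D))
    {Ψ : E n → ℂ} (hΨ : IsExt D Φ a Ψ) : ∀ᶠ a' in 𝓝 a, a' ∈ interior (Kd D) ∧
      (∀ z ∈ closure D, ‖(1 - dot z a') / (1 - dot z a) - 1‖ < 1 / 2) ∧
      IsExt D Φ a' (fun z => Ψ z + log ((1 - dot z a') / (1 - dot z a))) := by
  have hne : ∀ z ∈ closure D, dot z a ≠ 1 := fun z hz => dot_ne_one_of_interior ha hz
  have haK : a ∈ Kd D := interior_subset ha
  filter_upwards [isOpen_interior.mem_nhds ha, geoC_ratio H.bdd.isCompact_closure hne]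
    with a' h1 h2
  have haK' : a' ∈ Kd D := interior_subset h1
  refine ⟨h1, h2, hΨ.cont.add (geoC_contOn_ratio hne h2), fun z hz => ?_, fun z hz => ?_⟩
  · rw [hΨ.eq z hz]
    exact (geoC_near H.conn.isPreconnected H.zero (hΦ.contOn haK) (hΦ.contOn haK')
      (fun x hx => hΦ.exp_eq x hx a haK) (fun x hx => hΦ.exp_eq x hx a' haK') (hΦ.zero a haK)
      (hΦ.zero a' haK') (fun x hx => h2 x (subset_closure hx)) hz).symm
  · have h3 : 1 - dot z a ≠ 0 := sub_ne_zero.2 (hne z hz).symm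
    rw [exp_add, hΨ.exp_eq z hz, exp_log (slitPlane_ne_zero (geoC_slit (h2 z hz)))]
    field_simp

end Pool.Agent.MP_4baaa2_an.H94

end
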