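import Pool.Agent.MP_4baaa2_an.Mg.H94_Top

/-!
The circle, the Poisson kernel and the Poisson integral.
-/

namespace Pool.Agent.MP_4baaa2_an.H94

open Set Metric Filter Topology Complex MeasureTheory
open scoped ComplexConjugate

variable {w : ℂ}

@[simp] theorem norm_ec (t : TT) : ‖ec t‖ = 1 := by
  exact Circle.norm_coe _

@[fun_prop] theorem continuous_ec : Continuous ec := by
  exact (fourier 1).continuous

theorem ec_coe (x : ℝ) : ec (x : TT) = exp ((2 * Real.pi * x : ℝ) * I) := by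
  rw [ec, fourier_coe_apply]
  congr 1
  push_cast
  ring

theorem ec_add (s t : TT) : ec (s + t) = ec s * ec t := by
  rw [ec, ec, ec, fourier_one, fourier_one, fourier_one, AddCircle.toCircle_add, Circle.coe_mul]

theorem ec_ne (t : TT) : ec t ≠ 0 := by
  exact norm_ne_zero_iff.1 (by simp)

theorem conj_ec (t : TT) : conj (ec t) = (ec t)⁻¹ := by
  rw [Complex.inv_def, Complex.normSq_eq_norm_sq, norm_ec]
  simp

theorem ec_mem (t : TT) : ec t ∈ sphere (0 : ℂ) 1 := by
  simp

theorem ec_surj (hw : ‖w‖ = 1) : ∃ t, ec t = w := by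
  refine ⟨((arg w / (2 * Real.pi) : ℝ) : TT), ?_⟩
  rw [ec_coe, mul_div_cancel₀ _ (by positivity)]
  simpa [hw] using norm_mul_exp_arg_mul_I w

theorem ha1_dist (s t : TT) : ∃ x : ℝ, |x| = dist s t ∧ |x| ≤ 1 / 2 ∧
    ‖ec s - ec t‖ = 2 * |Real.sin (Real.pi * x)| := by
  obtain ⟨y, hy⟩ := QuotientAddGroup.mk_surjective (s - t)
  refine ⟨y - round y, ?_, abs_sub_round y, ?_⟩
  · rw [dist_eq_norm, ← hy, UnitAddCircle.norm_eq]
  · have h0 : (((round y : ℤ) : ℝ) : TT) = 0 := (AddCircle.coe_eq_zero_iff 1).2 ⟨round y, by simp⟩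
    have h1 : s = ((y - round y : ℝ) : TT) + t := by
      rw [AddCircle.coe_sub, h0, sub_zero, hy, sub_add_cancel]
    rw [h1, ec_add, ← sub_one_mul, norm_mul, norm_ec, mul_one, ec_coe, mul_comm _ I,
      norm_exp_I_mul_ofReal_sub_one, norm_mul, Real.norm_ofNat, Real.norm_eq_abs]
    congr 3
    ring

/-- Hint: lift `s - t` to a real number of absolute value `dist s t ≤ 1/2`
(`AddCircle.norm_eq`, `UnitAddCircle.norm_eq`), then `‖e^{ix} - 1‖ = 2 |sin (x/2)|`
(`Complex.norm_exp_I_mul_ofReal_sub_one`). -/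
theorem ec_dist_le (s t : TT) : ‖ec s - ec t‖ ≤ 2 * Real.pi * dist s t := by
  obtain ⟨x, h1, -, h3⟩ := ha1_dist s t
  rw [h3, ← h1]
  have := Real.abs_sin_le_abs (x := Real.pi * x)
  rw [abs_mul, abs_of_pos Real.pi_pos] at this
  linarith

/-- Hint: Jordan's inequality `Real.mul_le_sin`. -/
theorem le_ec_dist (s t : TT) : 4 * dist s t ≤ ‖ec s - ec t‖ := by
  obtain ⟨x, h1, h2, h3⟩ := ha1_dist s t
  rw [h3, ← h1]
  have := Real.mul_abs_le_abs_sin (x := Real.pi * x) (by
    rw [abs_mul, abs_of_pos Real.pi_pos]; nlinarith [Real.pi_pos])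
  rw [abs_mul, abs_of_pos Real.pi_pos, ← mul_assoc, div_mul_cancel₀ _ Real.pi_pos.ne'] at this
  linarith

theorem ec_sub_ne (hw : ‖w‖ < 1) (t : TT) : ec t - w ≠ 0 := by
  intro h
  rw [← sub_eq_zero.1 h, norm_ec] at hw
  exact lt_irrefl _ hw

/-- Hint: `UnitAddCircle.intervalIntegral_preimage`, `intervalIntegral.integral_comp_mul_left`. -/
theorem avg_eq {V : Type*} [NormedAddCommGroup V] [NormedSpace ℝ V] (g : ℂ → V) (ρ : ℝ) :
    Real.circleAverage g 0 ρ = ∫ t, g (ρ * ec t) := by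
  rw [← UnitAddCircle.intervalIntegral_preimage 0, Real.circleAverage_def]
  have h := intervalIntegral.integral_comp_mul_left (fun θ => g (circleMap 0 ρ θ))
    (a := 0) (b := 1) (c := 2 * Real.pi) (by positivity)
  rw [mul_zero, mul_one] at h
  rw [← h, zero_add]
  refine intervalIntegral.integral_congr fun x _ => ?_
  simp only [ec_coe, circleMap, zero_add]

theorem Pk_nonneg (hw : ‖w‖ < 1) (ω : ℂ) : 0 ≤ Pk w ω := by
  refine div_nonneg ?_ (sq_nonneg _)
  nlinarith [norm_nonneg w]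

theorem le_Pk (hw : ‖w‖ < 1) (t : TT) : (1 - ‖w‖) / 2 ≤ Pk w (ec t) := by
  have h1 : 0 < ‖ec t - w‖ := norm_pos_iff.2 (ec_sub_ne hw t)
  have h2 : ‖ec t - w‖ ≤ 1 + ‖w‖ := by simpa using norm_sub_le (ec t) w
  have h3 := norm_nonneg w
  have h4 := pow_le_pow_left₀ h1.le h2 2
  rw [Pk, le_div_iff₀ (by positivity)]
  refine (mul_le_mul_of_nonneg_left h4 (by linarith)).trans ?_
  nlinarith [mul_nonneg (mul_nonneg (sub_nonneg.2 hw.le) (sub_nonneg.2 hw.le)) (add_nonneg h3 zero_le_one)]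

theorem Pk_le (hw : ‖w‖ < 1) (t : TT) : Pk w (ec t) ≤ 2 / (1 - ‖w‖) := by
  have h1 : 0 < 1 - ‖w‖ := sub_pos.2 hw
  have h2 : 1 - ‖w‖ ≤ ‖ec t - w‖ := by simpa using norm_sub_norm_le (ec t) w
  have h4 := pow_le_pow_left₀ h1.le h2 2
  rw [Pk, div_le_div_iff₀ (by positivity [h1.trans_le h2]) h1]
  nlinarith [mul_nonneg (sq_nonneg (1 - ‖w‖)) h1.le]

theorem continuous_Pk (hw : ‖w‖ < 1) : Continuous fun t => Pk w (ec t) := by
  unfold Pk
  exact continuous_const.div (by fun_prop) fun t => pow_ne_zero _ (norm_ne_zero_iff.2 (ec_sub_ne hw t))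

theorem Pk_eq_re (hw : ‖w‖ < 1) (t : TT) : Pk w (ec t) = ((ec t + w) / (ec t - w)).re := by
  have := congrFun (poissonKernel_eq_re_herglotzRieszKernel (c := 0) (w := w)) (ec t)
  simpa [poissonKernel_def, herglotzRieszKernel_def, Pk] using this

theorem Pk_symm (r : ℝ) (s t : TT) : Pk (r * ec s) (ec t) = Pk (r * ec t) (ec s) := by
  have key : ∀ a b : ℂ, ‖a‖ = 1 → ‖b‖ = 1 →
      ‖a - r * b‖ ^ 2 = 1 + r ^ 2 - 2 * r * (a.re * b.re + a.im * b.im) := by
    intro a b ha hb
    have h1 : a.re ^ 2 + a.im ^ 2 = 1 := by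
      have := Complex.sq_norm a
      rw [ha, normSq_apply] at this; linarith
    have h2 : b.re ^ 2 + b.im ^ 2 = 1 := by
      have := Complex.sq_norm b
      rw [hb, normSq_apply] at this; linarith
    rw [Complex.sq_norm, normSq_apply]
    simp only [sub_re, sub_im, re_ofReal_mul, im_ofReal_mul]
    linear_combination h1 + r ^ 2 * h2
  rw [Pk, Pk, key _ _ (norm_ec _) (norm_ec _), key _ _ (norm_ec _) (norm_ec _), norm_mul, norm_mul,
    norm_ec, norm_ec]
  ring

/-- the Poisson formula. Hint: `DiffContOnCl.circleAverage_poissonKernel_smul` and `avg_eq`. -/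
theorem PI_holo {V : Type*} [NormedAddCommGroup V] [NormedSpace ℂ V] [CompleteSpace V]
    {f : ℂ → V} (hf : DA f) (hw : ‖w‖ < 1) : PI (fun t => f (ec t)) w = f w := by
  rw [← hf.circleAverage_poissonKernel_smul (mem_ball_zero_iff.2 hw), avg_eq, PI]
  congr 1
  funext t
  simp [poissonKernel_def, Pk]

theorem integral_Pk (hw : ‖w‖ < 1) : ∫ t, Pk w (ec t) = 1 := by
  have h := PI_holo (f := fun _ => (1 : ℂ)) diffContOnCl_const hw
  simp only [PI, real_smul, mul_one, integral_complex_ofReal] at h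
  exact_mod_cast h

section lin
variable {V : Type*} [NormedAddCommGroup V] [NormedSpace ℝ V] {f g : TT → V}

theorem PI_int (hf : Integrable f) (hw : ‖w‖ < 1) : Integrable fun t => Pk w (ec t) • f t := by
  refine Integrable.smul_of_top_right hf (memLp_top_of_bound (continuous_Pk hw).aestronglyMeasurable
    (2 / (1 - ‖w‖)) (Eventually.of_forall fun t => ?_))
  rw [Real.norm_of_nonneg (Pk_nonneg hw _)]
  exact Pk_le hw t

theorem PI_congr (h : f =ᵐ[volume] g) (w : ℂ) : PI f w = PI g w := by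
  exact integral_congr_ae (h.mono fun t ht => by simp only [ht])

theorem PI_add (hf : Integrable f) (hg : Integrable g) (hw : ‖w‖ < 1) :
    PI (fun t => f t + g t) w = PI f w + PI g w := by
  simp only [PI, smul_add]
  exact integral_add (PI_int hf hw) (PI_int hg hw)

theorem PI_sub (hf : Integrable f) (hg : Integrable g) (hw : ‖w‖ < 1) :
    PI (fun t => f t - g t) w = PI f w - PI g w := by
  simp only [PI, smul_sub]
  exact integral_sub (PI_int hf hw) (PI_int hg hw)

theorem PI_neg (f : TT → V) (w : ℂ) : PI (fun t => -f t) w = -PI f w := by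
  simp only [PI, smul_neg, integral_neg]

theorem PI_smul (c : ℝ) (f : TT → V) (w : ℂ) : PI (fun t => c • f t) w = c • PI f w := by
  simp only [PI, smul_comm _ c, integral_smul]

theorem PI_const [CompleteSpace V] (c : V) (hw : ‖w‖ < 1) : PI (fun _ => c) w = c := by
  rw [PI, integral_smul_const, integral_Pk hw, one_smul]

theorem PI_zero (f : TT → V) : PI f 0 = ∫ t, f t := by
  simp [PI, Pk]

theorem PI_clm [CompleteSpace V] {W : Type*} [NormedAddCommGroup W] [NormedSpace ℝ W]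
    [CompleteSpace W] (L : V →L[ℝ] W) (hf : Integrable f) (hw : ‖w‖ < 1) :
    PI (fun t => L (f t)) w = L (PI f w) := by
  simp only [PI, ← L.integral_comp_comm (PI_int hf hw), map_smul]

theorem norm_PI_le (f : TT → V) (hw : ‖w‖ < 1) : ‖PI f w‖ ≤ PI (fun t => ‖f t‖) w := by
  refine (norm_integral_le_integral_norm _).trans (le_of_eq ?_)
  simp only [PI, norm_smul, Real.norm_of_nonneg (Pk_nonneg hw _), smul_eq_mul]

theorem norm_PI_le_const {B : ℝ} (h : ∀ᵐ t, ‖f t‖ ≤ B) (hw : ‖w‖ < 1) : ‖PI f w‖ ≤ B := by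
  refine (norm_integral_le_of_norm_le (g := fun t => Pk w (ec t) • B)
    (PI_int (integrable_const B) hw) (h.mono fun t ht => ?_)).trans (PI_const B hw).le
  rw [norm_smul, Real.norm_of_nonneg (Pk_nonneg hw _)]
  exact mul_le_mul_of_nonneg_left ht (Pk_nonneg hw _)

theorem norm_PI_le_int (hf : Integrable f) (hw : ‖w‖ < 1) :
    ‖PI f w‖ ≤ 2 / (1 - ‖w‖) * ∫ t, ‖f t‖ := by
  rw [← integral_const_mul]
  refine norm_integral_le_of_norm_le (hf.norm.const_mul _) (Eventually.of_forall fun t => ?_)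
  rw [norm_smul, Real.norm_of_nonneg (Pk_nonneg hw _)]
  exact mul_le_mul_of_nonneg_right (Pk_le hw t) (norm_nonneg _)

/-- Hint: `MeasureTheory.continuousOn_of_dominated` or `continuousAt_of_dominated`. -/
theorem continuousOn_PI (hf : Integrable f) : ContinuousOn (PI f) (ball 0 1) := by
  intro w hw
  rw [mem_ball_zero_iff] at hw
  obtain ⟨ρ, h1, h2⟩ := exists_between hw
  have hev : ∀ᶠ z in 𝓝 w, ‖z‖ < ρ := continuous_norm.continuousAt.eventually_lt continuousAt_const h1
  refine (continuousAt_of_dominated (bound := fun t => 2 / (1 - ρ) * ‖f t‖)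
    (hev.mono fun z hz => (PI_int hf (hz.trans h2)).1)
    (hev.mono fun z hz => Eventually.of_forall fun t => ?_) (hf.norm.const_mul _)
    (Eventually.of_forall fun t => ?_)).continuousWithinAt
  · rw [norm_smul, Real.norm_of_nonneg (Pk_nonneg (hz.trans h2) _)]
    refine mul_le_mul_of_nonneg_right ((Pk_le (hz.trans h2) t).trans ?_) (norm_nonneg _)
    exact div_le_div_of_nonneg_left zero_le_two (sub_pos.2 h2) (by linarith)
  · refine ContinuousAt.smul ?_ continuousAt_const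
    unfold Pk
    exact ContinuousAt.div (by fun_prop) (by fun_prop)
      (pow_ne_zero _ (norm_ne_zero_iff.2 (ec_sub_ne hw t)))

end lin

theorem PI_re {f : TT → ℂ} (hf : Integrable f) (hw : ‖w‖ < 1) :
    PI (fun t => (f t).re) w = (PI f w).re := by
  exact PI_clm reCLM hf hw

theorem PI_im {f : TT → ℂ} (hf : Integrable f) (hw : ‖w‖ < 1) :
    PI (fun t => (f t).im) w = (PI f w).im := by
  exact PI_clm imCLM hf hw

theorem PI_mul (c : ℂ) (f : TT → ℂ) (w : ℂ) : PI (fun t => c * f t) w = c * PI f w := by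
  simp only [PI, ← mul_smul_comm, integral_const_mul]

theorem PI_dot {n : ℕ} (v : E n) {f : TT → E n} (hf : Integrable f) (hw : ‖w‖ < 1) :
    PI (fun t => dot v (f t)) w = dot v (PI f w) := by
  exact PI_clm ((dotL v).restrictScalars ℝ) hf hw

theorem PI_nonneg {f : TT → ℝ} (h : ∀ᵐ t, 0 ≤ f t) (hw : ‖w‖ < 1) : 0 ≤ PI f w := by
  exact integral_nonneg_of_ae (h.mono fun t ht => mul_nonneg (Pk_nonneg hw _) ht)

theorem PI_mono {f g : TT → ℝ} (hf : Integrable f) (hg : Integrable g) (h : ∀ᵐ t, f t ≤ g t)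
    (hw : ‖w‖ < 1) : PI f w ≤ PI g w := by
  exact integral_mono_ae (PI_int hf hw) (PI_int hg hw)
    (h.mono fun t ht => mul_le_mul_of_nonneg_left ht (Pk_nonneg hw _))

theorem int_le_PI {f : TT → ℝ} (hf : Integrable f) (h : ∀ᵐ t, 0 ≤ f t) (hw : ‖w‖ < 1) :
    (1 - ‖w‖) / 2 * ∫ t, f t ≤ PI f w := by
  rw [← integral_const_mul]
  exact integral_mono_ae (hf.const_mul _) (PI_int hf hw)
    (h.mono fun t ht => mul_le_mul_of_nonneg_right (le_Pk hw t) ht)

/-- radii lie in every cone -/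
theorem radial_mem {M r : ℝ} {e : ℂ} (he : ‖e‖ = 1) (hM : 1 ≤ M) (h0 : 0 ≤ r) (h1 : r < 1) :
    (r : ℂ) * e ∈ Cone M e := by
  have h2 : ‖(r : ℂ) * e‖ = r := by rw [norm_mul, he, mul_one, norm_real, Real.norm_of_nonneg h0]
  have h3 : ‖(r : ℂ) * e - e‖ = 1 - r := by
    rw [show (r : ℂ) * e - e = ((r - 1 : ℝ) : ℂ) * e by push_cast; ring, norm_mul, he, mul_one,
      norm_real, Real.norm_eq_abs, abs_of_neg (by linarith), neg_sub]
  refine ⟨h2.symm ▸ h1, ?_⟩
  rw [h2, h3]
  exact le_mul_of_one_le_left (by linarith) hM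

theorem radial_tendsto {M : ℝ} {e : ℂ} (he : ‖e‖ = 1) (hM : 1 ≤ M) :
    Tendsto (fun r : ℝ => (r : ℂ) * e) (𝓝[<] 1) (𝓝[Cone M e] e) := by
  refine tendsto_nhdsWithin_iff.2 ⟨?_, ?_⟩
  · have : Continuous fun r : ℝ => (r : ℂ) * e := by fun_prop
    simpa using (this.tendsto 1).mono_left (nhdsWithin_le_nhds (s := Iio 1))
  · filter_upwards [Ioo_mem_nhdsLT (zero_lt_one' ℝ)] with r hr
    exact radial_mem he hM hr.1.le hr.2

theorem cone_mono {M M' : ℝ} (h : M ≤ M') (e : ℂ) : Cone M e ⊆ Cone M' e := by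
  exact fun w hw => ⟨hw.1, hw.2.trans (mul_le_mul_of_nonneg_right h (sub_nonneg.2 hw.1.le))⟩

theorem cone_near {M : ℝ} {t : TT} (hw : w ∈ Cone M (ec t)) :
    ∀ᶠ s in 𝓝 t, w ∈ Cone (M + 1) (ec s) := by
  have h1 : ‖w - ec t‖ < (M + 1) * (1 - ‖w‖) := by linarith [hw.1, hw.2]
  have h2 : Continuous fun s => ‖w - ec s‖ := by fun_prop
  exact (h2.continuousAt.eventually_lt continuousAt_const h1).mono fun s hs => ⟨hw.1, hs.le⟩

/-- eventually in a cone means at small depth -/
theorem cone_ev {M : ℝ} {e : ℂ} (he : ‖e‖ = 1) {Q : ℂ → Prop} :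
    (∀ᶠ w in 𝓝[Cone M e] e, Q w) ↔ ∃ d > 0, ∀ w ∈ Cone M e, 1 - ‖w‖ ≤ d → Q w := by
  rw [eventually_nhdsWithin_iff, Metric.eventually_nhds_iff]
  constructor
  · rintro ⟨ε, hε, h⟩
    have hM : 0 < |M| + 1 := by positivity
    refine ⟨ε / (|M| + 1), by positivity, fun w hw hd => h ?_ hw⟩
    rw [dist_eq_norm]
    rw [le_div_iff₀ hM] at hd
    have h1 := sub_pos.2 hw.1
    have h2 := mul_le_mul_of_nonneg_right (le_abs_self M) h1.le
    linarith [hw.2]
  · rintro ⟨d, hd, h⟩
    refine ⟨d, hd, fun w hw hc => h w hc ?_⟩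
    rw [dist_comm, dist_eq_norm] at hw
    have := norm_sub_norm_le e w
    linarith

end Pool.Agent.MP_4baaa2_an.H94

/-!
The Schwarz integral, harmonic measure, derivative estimates.
-/

namespace Pool.Agent.MP_4baaa2_an.H94

open Set Metric Filter Topology Complex MeasureTheory
open scoped ComplexConjugate

variable {w : ℂ} {f : TT → ℝ} {B B' : Set TT}

theorem ha2_den (w : ℂ) (t : TT) : 1 - ‖w‖ ≤ ‖ec t - w‖ := by
  have := norm_sub_norm_le (ec t) w
  rwa [norm_ec] at this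

theorem ha2_int {k : TT → ℂ} (hk : Continuous k) (hf : Integrable f) :
    Integrable fun t => k t * (f t : ℂ) := by
  obtain ⟨C, hC⟩ := (isCompact_univ.image hk).isBounded.exists_norm_le
  exact hf.ofReal.bdd_mul hk.aestronglyMeasurable
    (Eventually.of_forall fun t => hC _ (mem_image_of_mem _ (mem_univ t)))

theorem ha2_cont (hw : ‖w‖ < 1) : Continuous fun t => (ec t + w) / (ec t - w) :=
  (continuous_ec.add continuous_const).div (continuous_ec.sub continuous_const) (ec_sub_ne hw)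

theorem ha2_cont' (hw : ‖w‖ < 1) : Continuous fun t => 2 * ec t / (ec t - w) ^ 2 :=
  (continuous_const.mul continuous_ec).div ((continuous_ec.sub continuous_const).pow 2)
    fun t => pow_ne_zero 2 (ec_sub_ne hw t)

theorem ha2_norm' (w : ℂ) (t : TT) : ‖2 * ec t / (ec t - w) ^ 2‖ = 2 / ‖ec t - w‖ ^ 2 := by
  rw [norm_div, norm_mul, norm_ec, norm_pow]
  simp

theorem SI_hasDerivAt (hf : Integrable f) (hw : ‖w‖ < 1) :
    HasDerivAt (SI f) (∫ t, 2 * ec t / (ec t - w) ^ 2 * (f t : ℂ)) w := by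
  set r : ℝ := (1 + ‖w‖) / 2 with hr
  have hr1 : r < 1 := by linarith
  have hs : ball (0 : ℂ) r ∈ 𝓝 w := isOpen_ball.mem_nhds (by rw [mem_ball_zero_iff]; linarith)
  refine (hasDerivAt_integral_of_dominated_loc_of_deriv_le (μ := volume)
    (F := fun x t => (ec t + x) / (ec t - x) * (f t : ℂ))
    (F' := fun x t => 2 * ec t / (ec t - x) ^ 2 * (f t : ℂ))
    (bound := fun t => 2 / (1 - r) ^ 2 * ‖f t‖) hs ?_ (ha2_int (ha2_cont hw) hf)
    (ha2_int (ha2_cont' hw) hf).aestronglyMeasurable ?_ (hf.norm.const_mul _) ?_).2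
  · filter_upwards [hs] with x hx
    exact (ha2_int (ha2_cont ((mem_ball_zero_iff.mp hx).trans hr1)) hf).aestronglyMeasurable
  · refine Eventually.of_forall fun t x hx => ?_
    rw [mem_ball_zero_iff] at hx
    rw [norm_mul, ha2_norm', Complex.norm_real]
    have := ha2_den x t
    gcongr
    linarith
  · refine Eventually.of_forall fun t x hx => ?_
    have hne := ec_sub_ne ((mem_ball_zero_iff.mp hx).trans hr1) t
    have h := (((hasDerivAt_id x).const_add (ec t)).div ((hasDerivAt_id x).const_sub (ec t))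
      hne).mul_const (f t : ℂ)
    refine h.congr_deriv ?_
    simp only [id]
    congr 2
    ring

theorem SI_diff (hf : Integrable f) : DifferentiableOn ℂ (SI f) (ball 0 1) := fun _ hw =>
  (SI_hasDerivAt hf (mem_ball_zero_iff.mp hw)).differentiableAt.differentiableWithinAt

theorem SI_re (hf : Integrable f) (hw : ‖w‖ < 1) : (SI f w).re = PI f w := by
  have h := (reCLM.integral_comp_comm (ha2_int (ha2_cont hw) hf)).symm
  simp only [reCLM_apply] at h
  rw [SI, h, PI]
  refine integral_congr_ae (Eventually.of_forall fun t => ?_)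
  simp only [re_mul_ofReal, Pk_eq_re hw, smul_eq_mul]

theorem SI_zero (f : TT → ℝ) : SI f 0 = ((∫ t, f t : ℝ) : ℂ) := by
  rw [SI, ← integral_complex_ofReal]
  refine integral_congr_ae (Eventually.of_forall fun t => ?_)
  simp [div_self (ec_ne t)]

theorem SI_sub {g : TT → ℝ} (hf : Integrable f) (hg : Integrable g) (hw : ‖w‖ < 1) :
    SI (fun t => f t - g t) w = SI f w - SI g w := by
  rw [SI, SI, SI, ← integral_sub (ha2_int (ha2_cont hw) hf) (ha2_int (ha2_cont hw) hg)]
  refine integral_congr_ae (Eventually.of_forall fun t => ?_)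
  push_cast
  ring

theorem norm_SI_le (hf : Integrable f) (hw : ‖w‖ < 1) :
    ‖SI f w‖ ≤ 2 / (1 - ‖w‖) * ∫ t, |f t| := by
  rw [← integral_const_mul]
  refine norm_integral_le_of_norm_le (hf.abs.const_mul _) (Eventually.of_forall fun t => ?_)
  rw [norm_mul, Complex.norm_real, norm_div, Real.norm_eq_abs]
  have h1 := ha2_den w t
  have h2 := norm_add_le (ec t) w
  rw [norm_ec] at h2
  gcongr
  linarith

theorem deriv_SI_le (hf : Integrable f) (hw : ‖w‖ < 1) :
    ‖deriv (SI f) w‖ * (1 - ‖w‖ ^ 2) ≤ 2 * PI (fun t => |f t|) w := by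
  have h0 : 0 ≤ 1 - ‖w‖ ^ 2 := by nlinarith [norm_nonneg w]
  rw [(SI_hasDerivAt hf hw).deriv, PI, ← integral_const_mul]
  refine (mul_le_mul_of_nonneg_right (norm_integral_le_integral_norm _) h0).trans_eq ?_
  rw [← integral_mul_const]
  refine integral_congr_ae (Eventually.of_forall fun t => ?_)
  simp only [norm_mul, ha2_norm', Complex.norm_real, Real.norm_eq_abs, Pk, smul_eq_mul]
  ring

theorem SI_unique {g : ℂ → ℂ} (hg : DifferentiableOn ℂ g (ball 0 1)) (hf : Integrable f)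
    (he : ∀ w ∈ ball (0 : ℂ) 1, (g w).im = PI f w) (hw : ‖w‖ < 1) :
    g w = (g 0).re + I * SI f w := by
  have hd : DifferentiableOn ℂ (fun x => g x - I * SI f x) (ball 0 1) :=
    hg.sub ((SI_diff hf).const_mul I)
  have him : ∀ x ∈ ball (0 : ℂ) 1, (g x - I * SI f x).im = 0 := fun x hx => by
    rw [sub_im, he x hx, I_mul_im, SI_re hf (mem_ball_zero_iff.mp hx), sub_self]
  have hz : ∀ x ∈ ball (0 : ℂ) 1, deriv (fun x => g x - I * SI f x) x = 0 := fun x hx => by
    obtain ⟨R, hR, hs⟩ := Metric.isOpen_iff.mp isOpen_ball x hx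
    have := im_deriv (β := 0) hR (hd.mono hs) fun y hy => by rw [him y (hs hy), abs_zero]
    simpa using this
  have hc := isOpen_ball.is_const_of_deriv_eq_zero (convex_ball (0 : ℂ) 1).isPreconnected hd hz
    (mem_ball_zero_iff.mpr hw) (mem_ball_self one_pos)
  have h0 := him 0 (mem_ball_self one_pos)
  have h1 : g 0 - I * SI f 0 = (g 0).re := by
    refine Complex.ext ?_ (by rw [h0, ofReal_im])
    rw [SI_zero]
    simp
  rw [← h1, ← hc]
  ring

theorem ka_diff (hf : Integrable f) : DifferentiableOn ℂ (ka f) (ball 0 1) :=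
  ((SI_diff hf).const_mul I).cexp

theorem ha2_bdd {A : ℝ} (hf : Measurable f) (hA : ∀ t, |f t| ≤ A) : Integrable f :=
  Integrable.of_bound hf.aestronglyMeasurable A (Eventually.of_forall hA)

theorem ka_bound {A : ℝ} (hf : Measurable f) (hA : ∀ t, |f t| ≤ A) (hw : ‖w‖ < 1) :
    Real.exp (-(2 * A / (1 - ‖w‖))) ≤ ‖ka f w‖ ∧ ‖ka f w‖ ≤ Real.exp (2 * A / (1 - ‖w‖)) := by
  have hi := ha2_bdd hf hA
  have h1 : ∫ t, |f t| ≤ A := by
    simpa using integral_mono hi.abs (integrable_const A) hA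
  have h2 : ‖I * SI f w‖ ≤ 2 * A / (1 - ‖w‖) := by
    rw [norm_mul, norm_I, one_mul, mul_div_right_comm]
    refine (norm_SI_le hi hw).trans (mul_le_mul_of_nonneg_left h1 ?_)
    exact div_nonneg zero_le_two (by linarith)
  have h3 := abs_le.mp ((abs_re_le_norm _).trans h2)
  rw [ka, norm_exp]
  exact ⟨Real.exp_le_exp.mpr h3.1, Real.exp_le_exp.mpr h3.2⟩

theorem ha2_ind (hB : MeasurableSet B) : Integrable (B.indicator fun _ => (1 : ℝ)) :=
  (integrable_const 1).indicator hB

theorem hm_nonneg (B : Set TT) (hw : ‖w‖ < 1) : 0 ≤ hm B w :=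
  PI_nonneg (Eventually.of_forall fun t => indicator_nonneg (fun _ _ => zero_le_one) t) hw

theorem hm_le_one (B : Set TT) (hw : ‖w‖ < 1) : hm B w ≤ 1 := by
  refine (le_abs_self _).trans (norm_PI_le_const (f := B.indicator fun _ => (1 : ℝ))
    (Eventually.of_forall fun t => ?_) hw)
  simpa using norm_indicator_le_norm_self (s := B) (fun _ => (1 : ℝ)) t

theorem hm_le (hB : MeasurableSet B) (hw : ‖w‖ < 1) :
    hm B w ≤ 2 / (1 - ‖w‖) * volume.real B := by
  refine (le_abs_self _).trans ((norm_PI_le_int (ha2_ind hB) hw).trans_eq ?_)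
  simp only [norm_indicator_eq_indicator_norm]
  rw [integral_indicator hB]
  simp

theorem hm_mono (hB : MeasurableSet B) (hB' : MeasurableSet B') (h : B ⊆ B') (hw : ‖w‖ < 1) :
    hm B w ≤ hm B' w :=
  PI_mono (ha2_ind hB) (ha2_ind hB') (Eventually.of_forall fun t =>
    indicator_le_indicator_of_subset h (fun _ => zero_le_one) t) hw

theorem hm_union (hB : MeasurableSet B) (hB' : MeasurableSet B') (hw : ‖w‖ < 1) :
    hm (B ∪ B') w ≤ hm B w + hm B' w := by
  rw [hm, hm, hm, ← PI_add (ha2_ind hB) (ha2_ind hB') hw]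
  refine PI_mono (ha2_ind (hB.union hB')) ((ha2_ind hB).add (ha2_ind hB'))
    (Eventually.of_forall fun t => ?_) hw
  by_cases h1 : t ∈ B <;> by_cases h2 : t ∈ B' <;> simp [indicator, h1, h2]

theorem continuousOn_hm (hB : MeasurableSet B) : ContinuousOn (hm B) (ball 0 1) :=
  continuousOn_PI (ha2_ind hB)

/-- lower bound by an arc. -/
theorem le_hm (hB : MeasurableSet B) (hw : ‖w‖ < 1) {c : TT} {ρ L : ℝ} (hρ : 0 < ρ)
    (hρ' : ρ ≤ 1 / 2) (hsub : ball c ρ ⊆ B) (hL : ∀ t ∈ ball c ρ, ‖ec t - w‖ ≤ L) :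
    2 * ρ * (1 - ‖w‖) / L ^ 2 ≤ hm B w := by
  have hv : volume.real (ball c ρ) = 2 * ρ := by
    rw [Measure.real, ← measure_congr AddCircle.closedBall_ae_eq_ball, AddCircle.volume_closedBall,
      min_eq_right (by linarith), ENNReal.toReal_ofReal (by linarith)]
  have h1 : ∫ t, (ball c ρ).indicator (fun _ => (1 - ‖w‖) / L ^ 2) t =
      2 * ρ * (1 - ‖w‖) / L ^ 2 := by
    rw [integral_indicator measurableSet_ball, setIntegral_const, hv, smul_eq_mul, mul_div_assoc]
  rw [← h1]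
  refine integral_mono ((integrable_const _).indicator measurableSet_ball)
    (PI_int (ha2_ind hB) hw) fun t => ?_
  by_cases ht : t ∈ ball c ρ
  · simp only [indicator_of_mem ht, indicator_of_mem (hsub ht), smul_eq_mul, mul_one, Pk]
    have h2 := hL t ht
    have h3 := norm_pos_iff.mpr (ec_sub_ne hw t)
    have h4 := norm_nonneg w
    gcongr
    · nlinarith
    · nlinarith
  · simp only [indicator_of_notMem ht, smul_eq_mul]
    exact mul_nonneg (Pk_nonneg hw _) (indicator_nonneg (fun _ _ => zero_le_one) t)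

theorem PI_split (hf : Integrable f) (hB : MeasurableSet B) {b A : ℝ} (hA : ∀ᵐ t, f t ≤ b + A)
    (hb : ∀ᵐ t, t ∉ B → f t ≤ b) (hw : ‖w‖ < 1) : PI f w ≤ b + A * hm B w := by
  have hi : Integrable fun t => A • B.indicator (fun _ => (1 : ℝ)) t := (ha2_ind hB).smul A
  have h1 := PI_add (integrable_const b) hi hw
  rw [PI_const b hw, PI_smul, smul_eq_mul] at h1
  rw [hm, ← h1]
  refine PI_mono hf ((integrable_const b).add hi) ?_ hw
  filter_upwards [hA, hb] with t h2 h3
  by_cases ht : t ∈ B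
  · simpa [ht] using h2
  · simpa [ht] using h3 ht

theorem ha2_mob (hw : ‖w‖ < 1) {x : ℂ} (hx : ‖x‖ < 1) :
    1 + conj w * x ≠ 0 ∧ ‖(x + w) / (1 + conj w * x)‖ < 1 := by
  have h1 : ‖x + w‖ ^ 2 < ‖1 + conj w * x‖ ^ 2 := by
    have a1 : ‖x‖ ^ 2 < 1 := by nlinarith [norm_nonneg x]
    have a2 : ‖w‖ ^ 2 < 1 := by nlinarith [norm_nonneg w]
    have a3 := mul_pos (sub_pos.mpr a1) (sub_pos.mpr a2)
    simp only [Complex.sq_norm, normSq_apply, add_re, add_im, mul_re, mul_im, conj_re, conj_im,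
      one_re, one_im] at a3 ⊢
    nlinarith
  have h2 := lt_of_pow_lt_pow_left₀ 2 (norm_nonneg _) h1
  have h3 := (norm_nonneg _).trans_lt h2
  exact ⟨norm_pos_iff.mp h3, by rw [norm_div, div_lt_one h3]; exact h2⟩

theorem ha2_strip0 {g : ℂ → ℂ} (hg : DifferentiableOn ℂ g (ball 0 1)) {a b : ℝ}
    (h : ∀ w ∈ ball (0 : ℂ) 1, (g w).im ∈ Icc a b) : ‖deriv g 0‖ ≤ 2 * (b - a) / Real.pi := by
  have h0 := h 0 (mem_ball_self one_pos)
  have hπ := Real.pi_pos
  have key : ∀ W, b - a < W → ‖deriv g 0‖ ≤ 2 * W / Real.pi := by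
    intro W hW
    have hW0 : 0 < W := by linarith [h0.1, h0.2]
    set k : ℝ := Real.pi / W with hk
    have hk0 : 0 < k := by positivity
    set c : ℂ := I * ((a + b) / 2 : ℝ) with hc
    have hpos : ∀ x ∈ ball (0 : ℂ) 1, 0 < (exp (k * (g x - c))).re := fun x hx => by
      rw [exp_re]
      refine mul_pos (Real.exp_pos _) (Real.cos_pos_of_mem_Ioo ?_)
      have e : (k * (g x - c)).im = k * ((g x).im - (a + b) / 2) := by
        rw [im_ofReal_mul, sub_im, hc, I_mul_im, ofReal_re]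
      have e2 : Real.pi / 2 = k * (W / 2) := by rw [hk]; field_simp
      obtain ⟨h1, h2⟩ := h x hx
      rw [e, e2, ← mul_neg]
      exact ⟨mul_lt_mul_of_pos_left (by linarith) hk0, mul_lt_mul_of_pos_left (by linarith) hk0⟩
    have h1 := cx3_deriv (P := fun x => exp (k * (g x - c))) one_pos
      ((hg.sub_const c).const_mul _).cexp (fun x hx => (hpos x hx).le)
      (hpos 0 (mem_ball_self one_pos))
    have hd := ((((hg.differentiableAt (ball_mem_nhds 0 one_pos)).hasDerivAt).sub_const c).const_mul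
      (k : ℂ)).cexp.deriv
    rw [hd, norm_mul, norm_mul, Complex.norm_real, Real.norm_of_nonneg hk0.le, div_one] at h1
    have h2 := re_le_norm (exp (k * (g 0 - c)))
    have h3 := norm_pos_iff.mpr (exp_ne_zero (k * (g 0 - c)))
    have h4 : k * ‖deriv g 0‖ ≤ 2 := le_of_mul_le_mul_left (by linarith) h3
    rw [hk, div_mul_eq_mul_div, div_le_iff₀ hW0] at h4
    rw [le_div_iff₀ hπ]
    linarith
  refine le_of_forall_pos_le_add fun ε hε => ?_
  refine (key (b - a + ε * Real.pi / 2) (by nlinarith [mul_pos hε hπ])).trans_eq ?_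
  field_simp

/-- Schwarz-Pick for a strip. -/
theorem strip_deriv {g : ℂ → ℂ} (hg : DifferentiableOn ℂ g (ball 0 1)) {a b : ℝ}
    (h : ∀ w ∈ ball (0 : ℂ) 1, (g w).im ∈ Icc a b) (hw : ‖w‖ < 1) :
    ‖deriv g w‖ * (1 - ‖w‖ ^ 2) ≤ 2 * (b - a) / Real.pi := by
  have hm : MapsTo (fun x => (x + w) / (1 + conj w * x)) (ball (0 : ℂ) 1) (ball 0 1) :=
    fun x hx => mem_ball_zero_iff.mpr (ha2_mob hw (mem_ball_zero_iff.mp hx)).2
  have hd : DifferentiableOn ℂ (fun x => (x + w) / (1 + conj w * x)) (ball 0 1) :=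
    DifferentiableOn.div (by fun_prop) (by fun_prop)
      fun x hx => (ha2_mob hw (mem_ball_zero_iff.mp hx)).1
  have h1 := ha2_strip0 (hg.comp hd hm) fun x hx => h _ (hm hx)
  have h2 : HasDerivAt (fun x => (x + w) / (1 + conj w * x)) ((1 - ‖w‖ ^ 2 : ℝ) : ℂ) 0 := by
    have := ((hasDerivAt_id (0 : ℂ)).add_const w).div
      (((hasDerivAt_id (0 : ℂ)).const_mul (conj w)).const_add 1) (by simp)
    refine this.congr_deriv ?_
    simp [mul_conj, Complex.normSq_eq_norm_sq]
  have h3 : HasDerivAt g (deriv g w) ((0 + w) / (1 + conj w * 0)) := by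
    simpa using (hg.differentiableAt (isOpen_ball.mem_nhds (mem_ball_zero_iff.mpr hw))).hasDerivAt
  have h4 := (h3.comp 0 h2).deriv
  rw [h4, norm_mul, Complex.norm_real,
    Real.norm_of_nonneg (by nlinarith [norm_nonneg w])] at h1
  exact h1

theorem rate {g : ℂ → ℂ} {a b A : ℝ} (hg : DifferentiableOn ℂ g (ball 0 1)) (hf : Measurable f)
    (hB : MeasurableSet B) (hA : ∀ t, |f t| ≤ A) (ha : |a| ≤ A) (hb : |b| ≤ A) (hab : a ≤ b)
    (hm' : ∀ t ∉ B, f t ∈ Icc a b) (he : ∀ w ∈ ball (0 : ℂ) 1, (g w).im = PI f w)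
    (hw : ‖w‖ < 1) : (g w).im ∈ Icc (a - 2 * A * hm B w) (b + 2 * A * hm B w) ∧
      ‖deriv g w‖ * (1 - ‖w‖ ^ 2) ≤ 2 * (b - a) / Real.pi + 4 * A * hm B w := by
  obtain ⟨ha1, ha2⟩ := abs_le.mp ha
  obtain ⟨hb1, hb2⟩ := abs_le.mp hb
  have hi := ha2_bdd hf hA
  obtain ⟨f₁, hf₁, h1, h2⟩ : ∃ f₁ : TT → ℝ, Measurable f₁ ∧ (∀ t, f₁ t ∈ Icc a b) ∧
      ∀ t ∉ B, f₁ t = f t := by
    refine ⟨fun t => max a (min b (f t)), measurable_const.max (measurable_const.min hf),
      fun t => ⟨le_max_left _ _, max_le hab (min_le_left _ _)⟩, fun t ht => ?_⟩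
    simp only [min_eq_right (hm' t ht).2, max_eq_right (hm' t ht).1]
  have hi₁ : Integrable f₁ := ha2_bdd (A := A) hf₁ fun t =>
    abs_le.mpr ⟨by linarith [(h1 t).1], by linarith [(h1 t).2]⟩
  have hi₂ : Integrable fun t => f t - f₁ t := hi.sub hi₁
  have h3 : PI (fun t => |f t - f₁ t|) w ≤ 2 * A * hm B w := by
    have := PI_split (b := 0) (A := 2 * A) hi₂.abs hB (Eventually.of_forall fun t => ?_)
      (Eventually.of_forall fun t ht => by simp [h2 t ht]) hw
    · simpa using this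
    · obtain ⟨p, q⟩ := abs_le.mp (hA t)
      exact abs_le.mpr ⟨by linarith [(h1 t).2], by linarith [(h1 t).1]⟩
  have h4 : ∀ x : ℂ, ‖x‖ < 1 → PI f₁ x ∈ Icc a b := fun x hx =>
    ⟨(PI_const a hx).symm.trans_le
      (PI_mono (integrable_const a) hi₁ (Eventually.of_forall fun t => (h1 t).1) hx),
    (PI_mono hi₁ (integrable_const b) (Eventually.of_forall fun t => (h1 t).2) hx).trans_eq
      (PI_const b hx)⟩
  have hwb := mem_ball_zero_iff.mpr hw
  constructor
  · have h5 := abs_le.mp ((norm_PI_le (fun t => f t - f₁ t) hw).trans h3)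
    rw [PI_sub hi hi₁ hw, ← he w hwb] at h5
    obtain ⟨p, q⟩ := h4 w hw
    exact ⟨by linarith [h5.1], by linarith [h5.2]⟩
  · have h5 := strip_deriv (a := a) (b := b) ((SI_diff hi₁).const_mul I) (fun x hx => by
      rw [I_mul_im, SI_re hi₁ (mem_ball_zero_iff.mp hx)]
      exact h4 x (mem_ball_zero_iff.mp hx)) hw
    have h6 := deriv_SI_le hi₂ hw
    have h7 : g =ᶠ[𝓝 w] fun x => (g 0).re + (I * SI f₁ x + I * SI (fun t => f t - f₁ t) x) := by
      filter_upwards [isOpen_ball.mem_nhds hwb] with x hx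
      rw [mem_ball_zero_iff] at hx
      rw [SI_unique hg hi he hx, SI_sub hi hi₁ hx]
      ring
    have d1 := (((SI_diff hi₁).const_mul I).differentiableAt
      (isOpen_ball.mem_nhds hwb)).hasDerivAt
    have d2 := (((SI_diff hi₂).differentiableAt (isOpen_ball.mem_nhds hwb)).hasDerivAt).const_mul I
    have h8 := ((d1.fun_add d2).const_add ((g 0).re : ℂ)).deriv
    rw [h7.deriv_eq, h8]
    have h9 := norm_add_le (deriv (fun x => I * SI f₁ x) w) (I * deriv (SI fun t => f t - f₁ t) w)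
    rw [norm_mul, norm_I, one_mul] at h9
    have h0 : 0 ≤ 1 - ‖w‖ ^ 2 := by nlinarith [norm_nonneg w]
    have := mul_le_mul_of_nonneg_right h9 h0
    linarith

/-- a walk inside a cone. -/
theorem walk {g : ℂ → ℂ} (hg : DifferentiableOn ℂ g (ball 0 1)) {e : ℂ} (he : ‖e‖ = 1)
    {M κ d₀ d₁ : ℝ} (hM : 1 ≤ M) (hκ : 0 ≤ κ) (h0 : d₀ < 1) (h1 : M * d₀ ≤ d₁)
    (h : ∀ x ∈ Cone M e, 1 - ‖x‖ ≤ d₁ → ‖deriv g x‖ * (1 - ‖x‖) ≤ κ) (hw : w ∈ Cone M e)
    (hd : 1 - ‖w‖ ≤ d₀) :
    ‖g w - g ((1 - d₀ : ℝ) * e)‖ ≤ κ * (M + 1) + κ * Real.log (d₀ / (1 - ‖w‖)) := by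
  obtain ⟨hw1, hw2⟩ := hw
  obtain ⟨d, hdd⟩ : ∃ d, d = 1 - ‖w‖ := ⟨_, rfl⟩
  have hwd : ‖w‖ = 1 - d := by linarith
  rw [← hdd] at hw2 hd ⊢
  have hd0 : 0 < d := by linarith
  have hMd : d ≤ M * d := by nlinarith
  have hrad : ∀ τ : ℝ, τ ≤ 1 → ‖((1 - τ : ℝ) : ℂ) * e‖ = 1 - τ := fun τ hτ => by
    rw [norm_mul, he, mul_one, Complex.norm_real, Real.norm_of_nonneg (by linarith)]
  have hed : ‖((1 - d : ℝ) : ℂ) * e - e‖ = d := by
    rw [show ((1 - d : ℝ) : ℂ) * e - e = -(d * e) by push_cast; ring, norm_neg, norm_mul, he,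
      mul_one, Complex.norm_real, Real.norm_of_nonneg hd0.le]
  have hdiff : ∀ x : ℂ, ‖x‖ < 1 → DifferentiableAt ℂ g x := fun x hx =>
    hg.differentiableAt (isOpen_ball.mem_nhds (mem_ball_zero_iff.mpr hx))
  have s1 : ‖g w - g ((1 - d : ℝ) * e)‖ ≤ κ * (M + 1) := by
    have hc : Convex ℝ (closedBall (0 : ℂ) (1 - d) ∩ closedBall e (M * d)) :=
      (convex_closedBall _ _).inter (convex_closedBall _ _)
    have := hc.norm_image_sub_le_of_norm_deriv_le (f := g) (C := κ / d)
      (x := (1 - d : ℝ) * e) (y := w) (fun x hx => hdiff x ?_) (fun x hx => ?_) ⟨?_, ?_⟩ ⟨?_, ?_⟩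
    · refine this.trans ?_
      have h2 := norm_sub_le_norm_sub_add_norm_sub w e ((1 - d : ℝ) * e)
      rw [norm_sub_rev e, hed] at h2
      calc κ / d * ‖w - (1 - d : ℝ) * e‖ ≤ κ / d * ((M + 1) * d) := by gcongr; linarith
        _ = κ * (M + 1) := by field_simp
    · linarith [mem_closedBall_zero_iff.mp hx.1]
    · have p := mem_closedBall_zero_iff.mp hx.1
      have q := mem_closedBall_iff_norm.mp hx.2
      have r := norm_sub_norm_le e x
      rw [he, norm_sub_rev] at r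
      have := h x ⟨by linarith, q.trans (by gcongr; linarith)⟩ (by nlinarith)
      rw [le_div_iff₀ hd0]
      exact le_trans (by gcongr; linarith) this
    · exact mem_closedBall_zero_iff.mpr (hrad d (by linarith)).le
    · exact mem_closedBall_iff_norm.mpr (hed.trans_le hMd)
    · exact mem_closedBall_zero_iff.mpr hwd.le
    · exact mem_closedBall_iff_norm.mpr hw2
  have hder : ∀ τ ∈ Icc d d₀, HasDerivAt (fun τ : ℝ => g ((1 - τ : ℝ) * e) - g ((1 - d : ℝ) * e))
      (deriv g ((1 - τ : ℝ) * e) * (-e)) τ := fun τ hτ => by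
    have a1 : HasDerivAt (fun z : ℂ => (1 - z) * e) (-e) τ := by
      simpa using ((hasDerivAt_id (τ : ℂ)).const_sub 1).mul_const e
    have a2 := (hdiff ((1 - τ : ℝ) * e) (by rw [hrad τ (by linarith [hτ.2])]; linarith [hτ.1])
      ).hasDerivAt
    have a3 := (HasDerivAt.comp_of_eq (τ : ℂ) a2 a1 (by push_cast; rfl)).comp_ofReal
    simpa using a3.sub_const (g ((1 - d : ℝ) * e))
  have hlog : ∀ τ ∈ Icc d d₀, HasDerivAt (fun τ : ℝ => κ * (Real.log τ - Real.log d))
      (κ * τ⁻¹) τ := fun τ hτ =>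
    ((Real.hasDerivAt_log (by linarith [hτ.1])).sub_const _).const_mul κ
  have s2 := image_norm_le_of_norm_deriv_right_le_deriv_boundary'
    (fun τ hτ => (hder τ hτ).continuousAt.continuousWithinAt)
    (fun τ hτ => (hder τ (Ico_subset_Icc_self hτ)).hasDerivWithinAt) (by simp)
    (fun τ hτ => (hlog τ hτ).continuousAt.continuousWithinAt)
    (fun τ hτ => (hlog τ (Ico_subset_Icc_self hτ)).hasDerivWithinAt) (fun τ hτ => ?_)
    (right_mem_Icc.mpr hd)
  · rw [Real.log_div (by linarith) hd0.ne']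
    have := norm_sub_le_norm_sub_add_norm_sub (g w) (g ((1 - d : ℝ) * e)) (g ((1 - d₀ : ℝ) * e))
    rw [norm_sub_rev] at s2
    linarith
  · have p := hrad τ (by linarith [hτ.2])
    have hτ0 : 0 < τ := by linarith [hτ.1]
    have := h _ (radial_mem (r := 1 - τ) he hM (by linarith [hτ.2]) (by linarith))
      (by rw [p]; nlinarith [hτ.2])
    rw [p, sub_sub_cancel] at this
    rw [norm_mul, norm_neg, he, mul_one, ← div_eq_mul_inv, le_div_iff₀ hτ0]
    exact this

end Pool.Agent.MP_4baaa2_an.H94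

/-!
The nontangential maximal function and the theorem of Fatou.
-/

namespace Pool.Agent.MP_4baaa2_an.H94

open Set Metric Filter Topology Complex MeasureTheory
open scoped ComplexConjugate
open Pool.Agent.Lib.PlaneTop

/-- the kernel away from the vertex of the cone -/
theorem ha3_Pk_far {w e : ℂ} (hw : ‖w‖ < 1) {L : ℝ} (hL : 0 < L) (h : L ≤ ‖e - w‖) :
    Pk w e ≤ 2 * (1 - ‖w‖) / L ^ 2 := by
  have h0 := norm_nonneg w
  unfold Pk
  have h1 : 1 - ‖w‖ ^ 2 ≤ 2 * (1 - ‖w‖) := by nlinarith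
  have h2 : 0 ≤ 2 * (1 - ‖w‖) := by linarith
  exact div_le_div₀ h2 h1 (by positivity) (by gcongr)

theorem ha3_lower (s t : TT) (w : ℂ) : 4 * dist s t - ‖w - ec t‖ ≤ ‖ec s - w‖ := by
  have h1 := le_ec_dist s t
  have h2 : ‖ec s - ec t‖ ≤ ‖ec s - w‖ + ‖w - ec t‖ := norm_sub_le_norm_sub_add_norm_sub _ _ _
  linarith

theorem ha3_dyadic {w : ℂ} {t : TT} {A : ℝ} (hA : 1 ≤ A) (hw : w ∈ Cone A (ec t)) (N : ℕ)
    (s : TT) (hs : dist s t ≤ 2 ^ N * (A * (1 - ‖w‖))) :
    Pk w (ec s) ≤ ∑ k ∈ Finset.range (N + 1), 8 / (4 ^ k * (1 - ‖w‖)) *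
      (closedBall t (2 ^ k * (A * (1 - ‖w‖)))).indicator (fun _ => (1 : ℝ)) s := by
  obtain ⟨h1, h2⟩ := hw
  have hd : 0 < 1 - ‖w‖ := by linarith
  induction N with
  | zero =>
    rw [Finset.sum_range_one, indicator_of_mem (mem_closedBall.2 hs)]
    refine (Pk_le h1 s).trans ?_
    rw [pow_zero, one_mul, mul_one]
    gcongr
    norm_num
  | succ N ih =>
    rw [Finset.sum_range_succ, indicator_of_mem (mem_closedBall.2 hs)]
    by_cases h : dist s t ≤ 2 ^ N * (A * (1 - ‖w‖))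
    · refine (ih h).trans (le_add_of_nonneg_right ?_)
      positivity
    · push Not at h
      refine le_add_of_nonneg_of_le (Finset.sum_nonneg fun k _ => mul_nonneg (by positivity)
        (indicator_nonneg (fun _ _ => zero_le_one) _)) ?_
      have h3 := ha3_lower s t w
      have h4 : (1 : ℝ) ≤ 2 ^ N := one_le_pow₀ one_le_two
      have h5 : 0 < A * (1 - ‖w‖) := by positivity
      have h6 : A * (1 - ‖w‖) ≤ 2 ^ N * (A * (1 - ‖w‖)) := le_mul_of_one_le_left h5.le h4
      have h7 : 2 ^ N * (1 - ‖w‖) ≤ 2 ^ N * (A * (1 - ‖w‖)) := by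
        gcongr
        exact le_mul_of_one_le_left hd.le hA
      have h8 : 2 ^ N * (1 - ‖w‖) ≤ ‖ec s - w‖ := by nlinarith
      refine (ha3_Pk_far h1 (by positivity) h8).trans (le_of_eq ?_)
      have h9 : (4 : ℝ) ^ (N + 1) = 4 * (2 ^ N) ^ 2 := by
        rw [← pow_mul, mul_comm N 2, pow_mul, pow_succ]; norm_num [mul_comm]
      rw [h9]
      field_simp
      norm_num

/-- The Poisson integral in a cone is controlled by averages over arcs. -/
theorem PI_le_arcs (M : ℝ) : ∃ C > 0, ∀ f : TT → ℝ, Integrable f → (∀ t, 0 ≤ f t) →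
    ∀ (t : TT) (l : ℝ), (∀ ρ > 0, ∫ s in closedBall t ρ, f s ≤ l * ρ) →
      ∀ w ∈ Cone M (ec t), PI f w ≤ C * l := by
  have hA : 1 ≤ max M 1 := le_max_right _ _
  refine ⟨16 * max M 1, by positivity, fun f hf h0 t l hl w hw => ?_⟩
  have hw' : w ∈ Cone (max M 1) (ec t) := cone_mono (le_max_left _ _) _ hw
  generalize max M 1 = A at hA hw' ⊢
  have hd : 0 < 1 - ‖w‖ := by linarith [hw.1]
  have hl0 : 0 ≤ l := by
    have := (integral_nonneg (μ := volume.restrict (closedBall t 1)) h0).trans (hl 1 one_pos)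
    linarith
  have ha : 0 < A * (1 - ‖w‖) := by positivity
  obtain ⟨N, hN⟩ := pow_unbounded_of_one_lt (1 / (A * (1 - ‖w‖))) (one_lt_two (α := ℝ))
  rw [div_lt_iff₀ ha] at hN
  have hpt : ∀ s, Pk w (ec s) • f s ≤ ∑ k ∈ Finset.range (N + 1), 8 / (4 ^ k * (1 - ‖w‖)) *
      (closedBall t (2 ^ k * (A * (1 - ‖w‖)))).indicator f s := by
    intro s
    have hs : dist s t ≤ 2 ^ N * (A * (1 - ‖w‖)) := by
      have := AddCircle.norm_le_half_period (1 : ℝ) (x := s - t) one_ne_zero
      rw [dist_eq_norm]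
      norm_num at this
      linarith
    refine (mul_le_mul_of_nonneg_right (ha3_dyadic hA hw' N s hs) (h0 s)).trans (le_of_eq ?_)
    rw [Finset.sum_mul]
    refine Finset.sum_congr rfl fun k _ => ?_
    rw [mul_assoc]
    congr 1
    by_cases h : s ∈ closedBall t (2 ^ k * (A * (1 - ‖w‖))) <;> simp [h]
  have hi : ∀ k ∈ Finset.range (N + 1), Integrable fun s => 8 / (4 ^ k * (1 - ‖w‖)) *
      (closedBall t (2 ^ k * (A * (1 - ‖w‖)))).indicator f s := fun k _ =>
    (hf.indicator measurableSet_closedBall).const_mul _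
  refine (integral_mono (PI_int hf hw.1) (integrable_finsetSum _ hi) hpt).trans ?_
  rw [integral_finsetSum _ hi]
  have hk : ∀ k ∈ Finset.range (N + 1), ∫ s, 8 / (4 ^ k * (1 - ‖w‖)) *
      (closedBall t (2 ^ k * (A * (1 - ‖w‖)))).indicator f s ≤ 8 * A * l * (1 / 2) ^ k := by
    intro k _
    rw [integral_const_mul, integral_indicator measurableSet_closedBall]
    refine (mul_le_mul_of_nonneg_left (hl _ (by positivity)) (by positivity)).trans (le_of_eq ?_)
    have h9 : (4 : ℝ) ^ k = 2 ^ k * 2 ^ k := by rw [← mul_pow]; norm_num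
    rw [h9, one_div, inv_pow]
    field_simp
  refine (Finset.sum_le_sum hk).trans ?_
  rw [← Finset.mul_sum]
  have h3 := sum_geometric_two_le (N + 1)
  have h4 : 0 ≤ 8 * A * l := by positivity
  nlinarith

/-- weak type estimate for arcs. -/
theorem weak_arcs {f : TT → ℝ} (hf : Integrable f) (h0 : ∀ t, 0 ≤ f t) {l : ℝ} (hl : 0 < l) :
    volume.real {t : TT | ∃ ρ > 0, l * ρ < ∫ s in closedBall t ρ, f s} ≤ 10 * (∫ t, f t) / l := by
  set S := {t : TT | ∃ ρ > 0, l * ρ < ∫ s in closedBall t ρ, f s} with hS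
  have hex : ∀ t : TT, ∃ ρ : ℝ, t ∈ S → 0 < ρ ∧ l * ρ < ∫ s in closedBall t ρ, f s := by
    intro t
    by_cases h : t ∈ S
    · obtain ⟨ρ, h1, h2⟩ := h
      exact ⟨ρ, fun _ => ⟨h1, h2⟩⟩
    · exact ⟨0, fun h' => absurd h' h⟩
  choose r hr using hex
  have hI : 0 ≤ ∫ t, f t := integral_nonneg h0
  obtain ⟨u, hu, hd, hc⟩ := Vitali.exists_disjoint_subfamily_covering_enlargement_closedBall S
    (fun t => t) r ((∫ t, f t) / l) (fun t ht => by
      rw [le_div_iff₀ hl]
      have := setIntegral_le_integral (s := closedBall t (r t)) hf (Eventually.of_forall h0)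
      linarith [(hr t ht).2]) 5 (by norm_num)
  have hcount : u.Countable := hd.countable_of_nonempty_interior fun t ht =>
    ⟨t, ball_subset_interior_closedBall (mem_ball_self (hr t (hu ht)).1)⟩
  have hsub : S ⊆ ⋃ b ∈ u, closedBall b (5 * r b) := fun t ht => by
    obtain ⟨b, hb, h⟩ := hc t ht
    exact mem_biUnion hb (h (mem_closedBall_self (hr t ht).1.le))
  have key : volume S ≤ ENNReal.ofReal (10 * (∫ t, f t) / l) := by
    calc volume S ≤ ∑' b : u, volume (closedBall (b : TT) (5 * r b)) :=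
          (measure_mono hsub).trans (measure_biUnion_le _ hcount _)
      _ ≤ ∑' b : u, ENNReal.ofReal (10 / l) *
            ∫⁻ s in closedBall (b : TT) (r b), ENNReal.ofReal (f s) := by
          refine ENNReal.tsum_le_tsum fun b => ?_
          rw [AddCircle.volume_closedBall, ← ofReal_integral_eq_lintegral_ofReal hf.integrableOn
            (Eventually.of_forall h0), ← ENNReal.ofReal_mul (by positivity)]
          refine ENNReal.ofReal_le_ofReal ((min_le_right _ _).trans ?_)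
          rw [div_mul_eq_mul_div, le_div_iff₀ hl]
          linarith [(hr b (hu b.2)).2]
      _ = ENNReal.ofReal (10 / l) *
            ∫⁻ s in ⋃ b ∈ u, closedBall b (r b), ENNReal.ofReal (f s) := by
          rw [ENNReal.tsum_mul_left,
            lintegral_biUnion hcount (fun _ _ => measurableSet_closedBall) hd]
      _ ≤ ENNReal.ofReal (10 / l) * ∫⁻ s, ENNReal.ofReal (f s) := by
          gcongr
          exact Measure.restrict_le_self
      _ = _ := by
          rw [← ofReal_integral_eq_lintegral_ofReal hf (Eventually.of_forall h0),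
            ← ENNReal.ofReal_mul (by positivity), div_mul_eq_mul_div]
  exact ENNReal.toReal_le_of_le_ofReal (by positivity) key

theorem weak_type (M : ℝ) : ∃ C > 0, ∀ f : TT → ℝ, Integrable f → (∀ t, 0 ≤ f t) → ∀ l > 0,
    volume.real {t | ∃ w ∈ Cone M (ec t), l < PI f w} ≤ C * (∫ t, f t) / l := by
  obtain ⟨C, hC, h⟩ := PI_le_arcs M
  refine ⟨10 * C, by positivity, fun f hf h0 l hl => ?_⟩
  have h1 := weak_arcs hf h0 (div_pos hl hC)
  refine (measureReal_mono ?_).trans (h1.trans (le_of_eq ?_))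
  · rintro t ⟨w, hw, hlw⟩
    by_contra hn
    simp only [mem_ofPred_eq, not_exists, not_and, not_lt] at hn
    have := h f hf h0 t (l / C) hn w hw
    rw [mul_div_cancel₀ _ hC.ne'] at this
    linarith
  · field_simp

/-- the Poisson integral of a continuous function. -/
theorem PI_cont {V : Type*} [NormedAddCommGroup V] [NormedSpace ℝ V] [CompleteSpace V]
    {f : TT → V} (hf : Continuous f) (t : TT) :
    Tendsto (PI f) (𝓝[ball 0 1] (ec t)) (𝓝 (f t)) := by
  have hc : Continuous fun s => ‖f s - f t‖ := by fun_prop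
  have hfi : Integrable f := hf.integrable_of_hasCompactSupport (HasCompactSupport.of_compactSpace _)
  have hci : Integrable fun s => ‖f s - f t‖ := (hfi.sub (integrable_const _)).norm
  obtain ⟨B, hB⟩ := (isCompact_range hc).bddAbove
  have hB' : ∀ s, ‖f s - f t‖ ≤ B := fun s => hB ⟨s, rfl⟩
  have hB0 : 0 ≤ B := (norm_nonneg _).trans (hB' t)
  rw [Metric.tendsto_nhdsWithin_nhds]
  intro ε hε
  obtain ⟨δ, hδ, hd⟩ := Metric.continuousAt_iff.1 (hf.continuousAt (x := t)) (ε / 2) (by positivity)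
  refine ⟨min (2 * δ) (ε * δ ^ 2 / (B + 1)), by positivity, fun w hw hwt => ?_⟩
  rw [mem_ball_zero_iff] at hw
  rw [dist_eq_norm, lt_min_iff] at hwt
  obtain ⟨h1, h2⟩ := hwt
  have hdw : 1 - ‖w‖ ≤ ‖w - ec t‖ := by
    have := norm_sub_norm_le (ec t) w
    rwa [norm_ec, norm_sub_rev] at this
  have he : PI f w - f t = PI (fun s => f s - f t) w := by
    rw [PI_sub hfi (integrable_const _) hw, PI_const _ hw]
  have hpt : ∀ s, Pk w (ec s) • ‖f s - f t‖ ≤
      Pk w (ec s) * (ε / 2) + B * ‖w - ec t‖ / (2 * δ ^ 2) := by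
    intro s
    have hP := Pk_nonneg hw (ec s)
    rw [smul_eq_mul]
    by_cases h : dist s t < δ
    · have := hd h
      rw [dist_eq_norm] at this
      exact le_add_of_le_of_nonneg (by gcongr) (by positivity)
    · push Not at h
      have h3 := ha3_lower s t w
      have h4 := ha3_Pk_far (e := ec s) hw (L := 2 * δ) (by positivity) (by linarith)
      refine le_add_of_nonneg_of_le (by positivity) ?_
      calc Pk w (ec s) * ‖f s - f t‖ ≤ 2 * ‖w - ec t‖ / (2 * δ) ^ 2 * B := by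
            refine mul_le_mul (h4.trans ?_) (hB' s) (norm_nonneg _) (by positivity)
            gcongr
        _ = _ := by field_simp
  have hPi : Integrable fun s => Pk w (ec s) :=
    (continuous_Pk hw).integrable_of_hasCompactSupport (HasCompactSupport.of_compactSpace _)
  rw [dist_eq_norm, he]
  refine (norm_PI_le _ hw).trans_lt ((integral_mono (PI_int hci hw)
    ((hPi.mul_const _).add (integrable_const _)) hpt).trans_lt ?_)
  rw [integral_add' (hPi.mul_const _) (integrable_const _), integral_mul_const, integral_Pk hw]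
  simp only [integral_const, probReal_univ, smul_eq_mul, one_mul]
  have h5 : B * ‖w - ec t‖ / (2 * δ ^ 2) < ε / 2 := by
    rw [lt_div_iff₀ (by positivity)] at h2
    rw [div_lt_iff₀ (by positivity)]
    nlinarith [norm_nonneg (w - ec t)]
  linarith

theorem ha3_null {V : Type*} [NormedAddCommGroup V] [NormedSpace ℝ V] [CompleteSpace V]
    {f : TT → V} (hf : Integrable f) (M : ℝ) {l : ℝ} (hl : 0 < l) :
    ∀ᵐ t, ∀ᶠ w in 𝓝[Cone M (ec t)] (ec t), ‖PI f w - f t‖ < l := by
  obtain ⟨C, hC, h⟩ := weak_type M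
  rw [ae_iff, ← measureReal_eq_zero_iff]
  refine le_antisymm (le_of_forall_pos_le_add fun ε hε => ?_) measureReal_nonneg
  obtain ⟨g, hg, hgi⟩ := hf.exists_boundedContinuous_integral_sub_le
    (ε := ε * (l / 3) / (C + 1)) (by positivity)
  have hi : Integrable fun s => ‖f s - g s‖ := (hf.sub hgi).norm
  have h1 := h _ hi (fun _ => norm_nonneg _) (l / 3) (by positivity)
  have h2 := mul_meas_ge_le_integral_of_nonneg (Eventually.of_forall fun _ => norm_nonneg _) hi
    (l / 3)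
  have hsub : {t | ¬∀ᶠ w in 𝓝[Cone M (ec t)] (ec t), ‖PI f w - f t‖ < l} ⊆
      {t | ∃ w ∈ Cone M (ec t), l / 3 < PI (fun s => ‖f s - g s‖) w} ∪
        {t | l / 3 ≤ ‖f t - g t‖} := by
    intro t ht
    by_contra hn
    simp only [mem_union, mem_ofPred_eq, not_or, not_exists, not_and, not_lt, not_le] at hn
    refine ht ?_
    have h3 := (PI_cont g.continuous t).mono_left
      (nhdsWithin_mono _ (s := Cone M (ec t)) fun w hw => mem_ball_zero_iff.2 hw.1)
    filter_upwards [Metric.tendsto_nhds.1 h3 (l / 3) (by positivity), self_mem_nhdsWithin]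
      with w h4 hw
    have h5 := (norm_PI_le (fun s => f s - g s) hw.1).trans (hn.1 w hw)
    rw [PI_sub hf hgi hw.1] at h5
    rw [dist_eq_norm] at h4
    have h6 : PI f w - f t = (PI f w - PI g w) + (PI g w - g t) - (f t - g t) := by abel
    rw [h6]
    refine (norm_sub_le _ _).trans_lt ?_
    linarith [norm_add_le (PI f w - PI g w) (PI g w - g t), hn.2]
  refine (measureReal_mono hsub).trans ((measureReal_union_le _ _).trans ?_)
  rw [le_div_iff₀ (by positivity)] at h1 hg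
  have h7 : 0 < l / 3 := by positivity
  rw [zero_add]
  refine le_of_mul_le_mul_right ?_ h7
  nlinarith

theorem fatou {V : Type*} [NormedAddCommGroup V] [NormedSpace ℝ V] [CompleteSpace V]
    {f : TT → V} (hf : Integrable f) :
    ∀ᵐ t, ∀ M : ℝ, Tendsto (PI f) (𝓝[Cone M (ec t)] (ec t)) (𝓝 (f t)) := by
  have h : ∀ᵐ t, ∀ M j : ℕ, ∀ᶠ w in 𝓝[Cone M (ec t)] (ec t),
      ‖PI f w - f t‖ < 1 / ((j : ℝ) + 1) :=
    ae_all_iff.2 fun M => ae_all_iff.2 fun j => ha3_null hf M Nat.one_div_pos_of_nat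
  filter_upwards [h] with t ht M
  rw [Metric.tendsto_nhds]
  intro ε hε
  obtain ⟨j, hj⟩ := exists_nat_one_div_lt hε
  filter_upwards [nhdsWithin_mono _ (cone_mono (Nat.le_ceil M) _) (ht ⌈M⌉₊ j)] with w hw
  rw [dist_eq_norm]
  exact lt_trans hw hj

theorem fatou_hm {B : Set TT} (hB : MeasurableSet B) : ∀ᵐ t, t ∉ B → ∀ M : ℝ, ∀ c > 0,
    ∀ᶠ w in 𝓝[Cone M (ec t)] (ec t), hm B w ≤ c := by
  filter_upwards [fatou ((integrable_const (μ := (volume : Measure TT)) (1 : ℝ)).indicator hB)]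
    with t ht hn M c hc
  have h := ht M
  rw [indicator_of_notMem hn] at h
  exact h.eventually (eventually_le_nhds hc)

theorem exists_hm_small {S : Set TT} (hS : MeasurableSet S) (h : 0 < volume.real S) {c : ℝ}
    (hc : 0 < c) : ∃ w : ℂ, ‖w‖ < 1 ∧ hm Sᶜ w ≤ c := by
  have h0 : volume S ≠ 0 := fun h0 => by simp [measureReal_def, h0] at h
  obtain ⟨t, ht, h1⟩ := Measure.exists_mem_of_measure_ne_zero_of_ae h0
    (ae_restrict_of_ae (fatou_hm hS.compl))
  have h2 := (h1 (fun h => h ht) 1 c hc).and self_mem_nhdsWithin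
  obtain ⟨r, h3, h4⟩ := ((radial_tendsto (norm_ec t) le_rfl).eventually h2).exists
  exact ⟨_, h4.1, h3⟩

/-- Uniformisation; no measurability of `S`, `Q k`, `X` is needed. -/
theorem good_set {S : Set TT} {Q : ℕ → TT → Prop} (hQ : ∀ k t, Q k t → Q (k + 1) t)
    (hS : ∀ t ∈ S, ∃ k, Q k t) {m : ℝ} (hm0 : 0 < m) : ∃ k, ∀ X : Set TT, volume.real X ≤ m →
      volume.real (toMeasurable volume S \ closure {t | t ∈ S ∧ Q k t ∧ t ∉ X}) ≤ 2 * m := by
  have hmono : Monotone fun k => {t | t ∈ S ∧ Q k t} :=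
    monotone_nat_of_le_succ fun k t ht => ⟨ht.1, hQ k t ht.2⟩
  have hU : ⋃ k, {t | t ∈ S ∧ Q k t} = S := by
    ext t
    simp only [mem_iUnion, mem_ofPred_eq]
    exact ⟨fun ⟨_, h⟩ => h.1, fun h => (hS t h).imp fun _ h' => ⟨h, h'⟩⟩
  have h1 := tendsto_measure_iUnion_atTop (μ := (volume : Measure TT)) hmono
  rw [hU] at h1
  have h2 := (ENNReal.tendsto_toReal (measure_ne_top _ _)).comp h1
  obtain ⟨k, hk⟩ := (h2.eventually (lt_mem_nhds (sub_lt_self _ hm0))).exists
  refine ⟨k, fun X hX => ?_⟩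
  have h3 := measureReal_inter_add_sdiff (μ := (volume : Measure TT))
    (s := toMeasurable volume S) (isClosed_closure (s := {t | t ∈ S ∧ Q k t ∧ t ∉ X})).measurableSet
  have h4 : volume.real (toMeasurable volume S) = (volume S).toReal := by
    rw [measureReal_def, measure_toMeasurable]
  have h5 : {t | t ∈ S ∧ Q k t} ⊆
      (toMeasurable volume S ∩ closure {t | t ∈ S ∧ Q k t ∧ t ∉ X}) ∪ X := fun t ht => by
    by_cases h : t ∈ X
    · exact Or.inr h
    · exact Or.inl ⟨subset_toMeasurable _ _ ht.1, subset_closure ⟨ht.1, ht.2, h⟩⟩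
  have h6 := (measureReal_mono (μ := (volume : Measure TT)) h5).trans (measureReal_union_le _ _)
  have h7 : (volume S).toReal - m < volume.real {t | t ∈ S ∧ Q k t} := hk
  linarith

/-- translation is continuous in `L¹` -/
theorem ha3_shift {V : Type*} [NormedAddCommGroup V] [NormedSpace ℝ V] {f : TT → V}
    (hf : Integrable f) : Tendsto (fun a : TT => ∫ t, ‖f (t + a) - f t‖) (𝓝 0) (𝓝 0) := by
  rw [Metric.tendsto_nhds_nhds]
  intro ε hε
  obtain ⟨g, hg, hgi⟩ := hf.exists_boundedContinuous_integral_sub_le (ε := ε / 4) (by positivity)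
  obtain ⟨δ, hδ, hd⟩ := Metric.uniformContinuous_iff.1
    (CompactSpace.uniformContinuous_of_continuous g.continuous) (ε / 4) (by positivity)
  refine ⟨δ, hδ, fun a ha => ?_⟩
  have hi : Integrable fun s => ‖f s - g s‖ := (hf.sub hgi).norm
  have hpt : ∀ t, ‖f (t + a) - f t‖ ≤ ‖f (t + a) - g (t + a)‖ + ‖f t - g t‖ + ε / 4 := by
    intro t
    have h1 := hd (a := t + a) (b := t) (by simpa using ha)
    rw [dist_eq_norm] at h1
    have h2 : f (t + a) - f t = (f (t + a) - g (t + a)) - (f t - g t) + (g (t + a) - g t) := by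
      abel
    rw [h2]
    refine (norm_add_le _ _).trans ?_
    linarith [norm_sub_le (f (t + a) - g (t + a)) (f t - g t)]
  have h3 := integral_mono ((hf.comp_add_right a).sub hf).norm
    (((hi.comp_add_right a).add hi).add (integrable_const (ε / 4))) hpt
  rw [integral_add' ((hi.comp_add_right a).add hi) (integrable_const _),
    integral_add' (hi.comp_add_right a) hi,
    integral_add_right_eq_self (fun s => ‖f s - g s‖) a] at h3
  simp only [integral_const, probReal_univ, smul_eq_mul, one_mul, Pi.sub_apply] at h3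
  rw [Real.dist_eq, sub_zero, abs_of_nonneg (integral_nonneg fun _ => norm_nonneg _)]
  linarith

theorem exists_shift {V : Type*} [NormedAddCommGroup V] [NormedSpace ℝ V] {f : TT → V}
    (hf : Integrable f) : ∃ θ : ℕ → ℝ, (∀ k, 0 < θ k ∧ θ k < 1 / 2) ∧ Tendsto θ atTop (𝓝 0) ∧
      ∀ᵐ t, Tendsto (fun k => f (t + (θ k : ℝ))) atTop (𝓝 (f t)) ∧
        Tendsto (fun k => f (t - (θ k : ℝ))) atTop (𝓝 (f t)) := by
  obtain ⟨θ, -, h1, h2⟩ := exists_seq_strictAnti_tendsto' (show (0 : ℝ) < 1 / 2 by norm_num)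
  have h3 : Tendsto (fun k => ((θ k : ℝ) : TT)) atTop (𝓝 0) :=
    ((AddCircle.continuous_mk' (1 : ℝ)).tendsto 0).comp h2
  have h4 : Tendsto (fun k => -((θ k : ℝ) : TT)) atTop (𝓝 0) := by simpa using h3.neg
  have hi : ∀ a : TT, Integrable fun t => ‖f (t + a) - f t‖ := fun a =>
    ((hf.comp_add_right a).sub hf).norm
  set F : ℕ → TT → ℝ := fun k t => ‖f (t + (θ k : ℝ)) - f t‖ + ‖f (t + -(θ k : ℝ)) - f t‖ with hF
  have hFi : ∀ k, Integrable (F k) := fun k => (hi _).add (hi _)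
  have h5 : Tendsto (fun k => ∫ t, ‖F k t - (0 : TT → ℝ) t‖) atTop (𝓝 0) := by
    have := ((ha3_shift hf).comp h3).add ((ha3_shift hf).comp h4)
    rw [add_zero] at this
    refine this.congr fun k => ?_
    simp only [Function.comp]
    rw [← integral_add (hi _) (hi _)]
    refine integral_congr_ae (Eventually.of_forall fun t => ?_)
    simp only [hF, Pi.zero_apply, sub_zero]
    rw [Real.norm_of_nonneg (by positivity)]
  have h6 : TendstoInMeasure volume F atTop 0 := by
    refine tendstoInMeasure_of_tendsto_eLpNorm (p := 1) one_ne_zero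
      (fun k => (hFi k).aestronglyMeasurable) aestronglyMeasurable_zero ?_
    have := ENNReal.tendsto_ofReal h5
    rw [ENNReal.ofReal_zero] at this
    refine this.congr fun k => ?_
    rw [eLpNorm_one_eq_lintegral_enorm]
    exact ofReal_integral_norm_eq_lintegral_enorm ((hFi k).sub (integrable_zero _ _ _))
  obtain ⟨ns, hns, h7⟩ := h6.exists_seq_tendsto_ae
  refine ⟨θ ∘ ns, fun k => h1 _, h2.comp hns.tendsto_atTop, ?_⟩
  filter_upwards [h7] with t ht
  refine ⟨tendsto_iff_norm_sub_tendsto_zero.2 (squeeze_zero (fun _ => norm_nonneg _)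
    (fun k => ?_) ht), tendsto_iff_norm_sub_tendsto_zero.2 (squeeze_zero (fun _ => norm_nonneg _)
    (fun k => ?_) ht)⟩
  · exact le_add_of_nonneg_right (norm_nonneg _)
  · rw [sub_eq_add_neg t]
    exact le_add_of_nonneg_left (norm_nonneg _)

end Pool.Agent.MP_4baaa2_an.H94

/-!
Radial limits of bounded holomorphic functions on the disc.
-/

namespace Pool.Agent.MP_4baaa2_an.H94

open Set Metric Filter Topology Complex MeasureTheory
open scoped ComplexConjugate
open Pool.Agent.Lib.PlaneTop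

theorem ha4_norm {r : ℝ} (hr : 0 ≤ r) (t : TT) : ‖(r : ℂ) * ec t‖ = r := by
  rw [norm_mul, norm_ec, mul_one, norm_real, Real.norm_of_nonneg hr]

theorem ha4_ev {a : ℝ} (ha : a < 1) : ∀ᶠ r : ℝ in 𝓝[<] 1, r ∈ Ioo (max a 0) 1 :=
  Ioo_mem_nhdsLT (max_lt ha one_pos)

theorem ha4_ann {a r : ℝ} (hr : r ∈ Ioo (max a 0) 1) (t : TT) : (r : ℂ) * ec t ∈ Ann a := by
  have h := ha4_norm ((le_max_right a 0).trans hr.1.le) t
  exact ⟨by rw [h]; exact (le_max_left a 0).trans_lt hr.1, by rw [h]; exact hr.2⟩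

theorem ha4_seq {a : ℝ} (ha : a < 1) :
    ∃ u : ℕ → ℝ, (∀ k, u k ∈ Ioo (max a 0) 1) ∧ Tendsto u atTop (𝓝[<] 1) := by
  obtain ⟨u, -, h1, h2⟩ := exists_seq_strictMono_tendsto' (max_lt ha one_pos)
  exact ⟨u, h1, tendsto_nhdsWithin_iff.2 ⟨h2, Eventually.of_forall fun k => (h1 k).2⟩⟩

theorem ha4_sub (a : ℝ) : Ann a ⊆ ball (0 : ℂ) 1 := fun _ h => mem_ball_zero_iff.2 h.2

theorem ha4_rad (x : ℂ) : Tendsto (fun r : ℝ => (r : ℂ) * x) (𝓝[<] 1) (𝓝 x) := by
  have h : Continuous fun r : ℝ => (r : ℂ) * x := by fun_prop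
  have h1 := h.tendsto 1
  rw [ofReal_one, one_mul] at h1
  exact h1.mono_left nhdsWithin_le_nhds

section general
variable {V : Type*} [NormedAddCommGroup V] {f : ℂ → V} {fs gs : TT → V} {a B : ℝ}

theorem ha4_cont (hf : ContinuousOn f (Ann a)) {r : ℝ} (hr : r ∈ Ioo (max a 0) 1) :
    Continuous fun t => f (r * ec t) :=
  hf.comp_continuous (continuous_const.mul continuous_ec) (ha4_ann hr)

theorem ev_ann (ha : a < 1) (t : TT) : ∀ᶠ r : ℝ in 𝓝[<] 1, (r : ℂ) * ec t ∈ Ann a :=
  (ha4_ev ha).mono fun _ hr => ha4_ann hr t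

theorem RL.unique (h : RL f fs) (h' : RL f gs) : fs =ᵐ[volume] gs := by
  filter_upwards [h, h'] with t h1 h2 using tendsto_nhds_unique h1 h2

theorem RL.congr (h : RL f fs) (ha : a < 1) {g : ℂ → V} (he : EqOn g f (Ann a)) : RL g fs := by
  filter_upwards [h] with t h1
  exact h1.congr' ((ev_ann ha t).mono fun r hr => (he hr).symm)

theorem RL.aesm (h : RL f fs) (ha : a < 1) (hf : ContinuousOn f (Ann a)) :
    AEStronglyMeasurable fs volume := by
  obtain ⟨u, h1, h2⟩ := ha4_seq ha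
  refine aestronglyMeasurable_of_tendsto_ae atTop (f := fun k t => f (u k * ec t))
    (fun k => (ha4_cont hf (h1 k)).aestronglyMeasurable) ?_
  filter_upwards [h] with t ht using ht.comp h2

theorem RL.mem (h : RL f fs) (ha : a < 1) {S : Set V} (hf : ∀ w ∈ Ann a, f w ∈ S) :
    ∀ᵐ t, fs t ∈ closure S := by
  filter_upwards [h] with t ht
  exact mem_closure_of_tendsto ht ((ev_ann ha t).mono fun r hr => hf _ hr)

theorem RL.bound (h : RL f fs) (ha : a < 1) (hf : ∀ w ∈ Ann a, ‖f w‖ ≤ B) :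
    ∀ᵐ t, ‖fs t‖ ≤ B := by
  filter_upwards [h] with t ht
  exact le_of_tendsto ht.norm ((ev_ann ha t).mono fun r hr => hf _ hr)

theorem RL.int (h : RL f fs) (ha : a < 1) (hc : ContinuousOn f (Ann a))
    (hf : ∀ w ∈ Ann a, ‖f w‖ ≤ B) : Integrable fs :=
  Integrable.of_bound (h.aesm ha hc) B (h.bound ha hf)

theorem RL_of_cont {U : Set ℂ} (ha : a < 1) (hU : ∀ w : ℂ, a < ‖w‖ → ‖w‖ ≤ 1 → w ∈ U)
    (hf : ContinuousOn f U) : RL f fun t => f (ec t) := by
  refine Eventually.of_forall fun t => ?_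
  have h1 : ec t ∈ U := hU _ (by rw [norm_ec]; exact ha) (norm_ec t).le
  refine (hf _ h1).tendsto.comp (tendsto_nhdsWithin_iff.2 ⟨ha4_rad _, ?_⟩)
  exact (ev_ann ha t).mono fun r hr => hU _ hr.1 hr.2.le

/-- convergence in `L¹` -/
theorem RL.tendsto_L1 (h : RL f fs) (ha : a < 1) (hc : ContinuousOn f (Ann a))
    (hf : ∀ w ∈ Ann a, ‖f w‖ ≤ B) :
    Tendsto (fun r : ℝ => ∫ t, ‖f (r * ec t) - fs t‖) (𝓝[<] 1) (𝓝 0) := by
  have h0 : (0 : ℝ) = ∫ _ : TT, (0 : ℝ) := by simp
  rw [h0]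
  refine tendsto_integral_filter_of_dominated_convergence (fun _ => B + B) ?_ ?_
    (integrable_const _) ?_
  · filter_upwards [ha4_ev ha] with r hr
    exact ((ha4_cont hc hr).aestronglyMeasurable.sub (h.aesm ha hc)).norm
  · filter_upwards [ha4_ev ha] with r hr
    filter_upwards [h.bound ha hf] with t ht
    rw [norm_norm]
    exact (norm_sub_le _ _).trans (add_le_add (hf _ (ha4_ann hr t)) ht)
  · filter_upwards [h] with t ht
    exact tendsto_iff_norm_sub_tendsto_zero.1 ht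

theorem RL_PI [NormedSpace ℝ V] [CompleteSpace V] (hf : Integrable fs) : RL (PI fs) fs := by
  filter_upwards [fatou hf] with t ht
  exact (ht 1).comp (radial_tendsto (norm_ec t) le_rfl)

end general

theorem ha4_ne {w : ℂ} (hw : ‖w‖ < 1) {x : ℂ} (hx : ‖x‖ ≤ 1) : 1 - conj w * x ≠ 0 := by
  intro h
  have h1 : ‖conj w * x‖ = 1 := by rw [← sub_eq_zero.1 h, norm_one]
  rw [norm_mul, RCLike.norm_conj] at h1
  nlinarith [norm_nonneg w, norm_nonneg x]

theorem ha4_kernel {w : ℂ} (hw : ‖w‖ < 1) (t : TT) : (Pk w (ec t) : ℂ) =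
    ec t / (ec t - w) + conj w * ec t / (1 - conj w * ec t) := by
  have h1 := ec_sub_ne hw t
  have h2 := ha4_ne hw (norm_ec t).le
  have h3 := ec_ne t
  have h4 : conj (ec t - w) = (1 - conj w * ec t) / ec t := by
    rw [map_sub, conj_ec]
    field_simp
  unfold Pk
  push_cast
  rw [← mul_conj' w, ← mul_conj' (ec t - w), h4]
  field_simp
  ring

theorem ha4_le {w x : ℂ} (hx : ‖x - w‖ < (1 - ‖w‖) / 2) (t : TT) :
    (1 - ‖w‖) / 2 ≤ ‖ec t - x‖ := by
  have h1 := norm_sub_norm_le (ec t) x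
  have h2 := norm_sub_norm_le x w
  rw [norm_ec] at h1
  linarith

section holo
variable {V : Type*} [NormedAddCommGroup V] [NormedSpace ℂ V] [CompleteSpace V] {f : ℂ → V}
  {fs : TT → V} {B : ℝ} {w : ℂ}

omit [CompleteSpace V] in
theorem ha4_dil (hf : DifferentiableOn ℂ f (ball 0 1)) {r : ℝ} (hr : r ∈ Ioo (max 0 0) 1) :
    DA fun x => f (r * x) := by
  refine DifferentiableOn.diffContOnCl ?_
  rw [closure_ball _ one_ne_zero]
  refine hf.comp (by fun_prop) fun x hx => ?_
  rw [max_self] at hr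
  rw [mem_closedBall_zero_iff] at hx
  rw [mem_ball_zero_iff, norm_mul, norm_real, Real.norm_of_nonneg hr.1.le]
  nlinarith [hr.1, hr.2, norm_nonneg x]

omit [CompleteSpace V] in
theorem ha4_int (hi : Integrable fs) {φ : TT → ℂ} (hφ : Continuous φ) :
    Integrable fun t => φ t • fs t := by
  obtain ⟨C, hC⟩ := isCompact_univ.exists_bound_of_continuousOn hφ.continuousOn
  exact hi.bdd_smul C hφ.aestronglyMeasurable (Eventually.of_forall fun t => hC t (mem_univ t))

theorem HB.int (hf : HB f B) (h : RL f fs) : Integrable fs :=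
  h.int one_pos (hf.diff.continuousOn.mono (ha4_sub 0)) fun x hx => hf.bd x (ha4_sub 0 hx)

theorem HB.rep (hf : HB f B) (h : RL f fs) (hw : ‖w‖ < 1) : PI fs w = f w := by
  have hc := hf.diff.continuousOn.mono (ha4_sub 0)
  have h1 := (h.tendsto_L1 one_pos hc fun x hx => hf.bd x (ha4_sub 0 hx)).const_mul
    (2 / (1 - ‖w‖))
  rw [mul_zero] at h1
  have h2 : Tendsto (fun r : ℝ => f (r * w)) (𝓝[<] 1) (𝓝 (PI fs w)) := by
    rw [tendsto_iff_norm_sub_tendsto_zero]
    refine squeeze_zero' (Eventually.of_forall fun _ => norm_nonneg _) ?_ h1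
    filter_upwards [ha4_ev one_pos] with r hr
    have h3 : Integrable fun t => f (r * ec t) :=
      (ha4_cont hc hr).integrable_of_hasCompactSupport (HasCompactSupport.of_compactSpace _)
    rw [← PI_holo (ha4_dil hf.diff hr) hw, ← PI_sub h3 (hf.int h) hw]
    exact norm_PI_le_int (h3.sub (hf.int h)) hw
  have h3 : ContinuousAt f w :=
    hf.diff.continuousOn.continuousAt (isOpen_ball.mem_nhds (mem_ball_zero_iff.2 hw))
  exact tendsto_nhds_unique h2 (h3.tendsto.comp (ha4_rad w))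

theorem HB.mean (hf : HB f B) (h : RL f fs) : ∫ t, fs t = f 0 := by
  rw [← PI_zero, hf.rep h (by simp)]

theorem ha4_mul (hf : HB f B) (h : RL f fs) {φ : ℂ → ℂ}
    (hφ : DifferentiableOn ℂ φ (closedBall 0 1)) : ∫ t, φ (ec t) • fs t = φ 0 • f 0 := by
  obtain ⟨C, hC⟩ := (isCompact_closedBall (0 : ℂ) 1).exists_bound_of_continuousOn
    hφ.continuousOn
  have h1 : HB (fun x => φ x • f x) (C * B) := by
    refine ⟨(hφ.mono ball_subset_closedBall).smul hf.diff, fun x hx => ?_⟩
    rw [norm_smul]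
    have h2 := hC x (ball_subset_closedBall hx)
    exact mul_le_mul h2 (hf.bd x hx) (norm_nonneg _) ((norm_nonneg _).trans h2)
  refine h1.mean ?_
  filter_upwards [h, RL_of_cont one_pos (fun x _ hx => mem_closedBall_zero_iff.2 hx)
    hφ.continuousOn] with t h2 h3 using h3.smul h2

omit [CompleteSpace V] in
theorem ha4_split (hi : Integrable fs) (hw : ‖w‖ < 1) : PI fs w =
    (∫ t, (ec t / (ec t - w)) • fs t) + ∫ t, (conj w * ec t / (1 - conj w * ec t)) • fs t := by
  have h1 : Continuous fun t => ec t / (ec t - w) :=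
    continuous_ec.div (continuous_ec.sub continuous_const) (ec_sub_ne hw)
  have h2 : Continuous fun t => conj w * ec t / (1 - conj w * ec t) :=
    (continuous_const.mul continuous_ec).div
      (continuous_const.sub (continuous_const.mul continuous_ec)) fun t => ha4_ne hw (norm_ec t).le
  rw [← integral_add (ha4_int hi h1) (ha4_int hi h2)]
  refine integral_congr_ae (Eventually.of_forall fun t => ?_)
  simp only
  rw [← add_smul, ← ha4_kernel hw, coe_smul]

/-- the Cauchy formula -/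
theorem HB.cauchy (hf : HB f B) (h : RL f fs) (hw : ‖w‖ < 1) :
    ∫ t, (ec t / (ec t - w)) • fs t = f w := by
  have h1 := ha4_mul hf h (φ := fun x => conj w * x / (1 - conj w * x))
    (DifferentiableOn.div (by fun_prop) (by fun_prop)
      fun x hx => ha4_ne hw (mem_closedBall_zero_iff.1 hx))
  rw [← hf.rep h hw, ha4_split (hf.int h) hw, h1]
  simp

theorem HB.max (hf : HB f B) (h : RL f fs) {C : ℝ} (hC : ∀ᵐ t, ‖fs t‖ ≤ C) : HB f C := by
  refine ⟨hf.diff, fun x hx => ?_⟩
  rw [mem_ball_zero_iff] at hx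
  rw [← hf.rep h hx]
  exact norm_PI_le_const hC hx

theorem HB.nt (hf : HB f B) (h : RL f fs) :
    ∀ᵐ t, ∀ M : ℝ, Tendsto f (𝓝[Cone M (ec t)] (ec t)) (𝓝 (fs t)) := by
  filter_upwards [fatou (hf.int h)] with t ht M
  refine (ht M).congr' ?_
  filter_upwards [self_mem_nhdsWithin] with x hx using hf.rep h hx.1

theorem DA.hb (hf : DA f) (h : ∀ t, ‖f (ec t)‖ ≤ B) : ∀ w ∈ closedBall (0 : ℂ) 1, ‖f w‖ ≤ B := by
  intro x hx
  rcases (mem_closedBall_zero_iff.1 hx).lt_or_eq with h1 | h1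
  · rw [← PI_holo hf h1]
    exact norm_PI_le_const (Eventually.of_forall h) h1
  · obtain ⟨t, rfl⟩ := ec_surj h1
    exact h t

omit [CompleteSpace V] in
theorem ha4_anti (hi : Integrable fs) (h : ∀ k : ℕ, ∫ t, ec t ^ (k + 1) • fs t = 0) {z : ℂ}
    (hz : ‖z‖ < 1) : ∫ t, (z * ec t / (1 - z * ec t)) • fs t = 0 := by
  have h1 := hasSum_integral_of_summable_integral_norm (μ := volume)
    (F := fun (k : ℕ) t => (z * ec t) ^ (k + 1) • fs t)
    (fun k => ha4_int hi ((continuous_const.mul continuous_ec).pow _)) (by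
      simp only [norm_smul, norm_pow, norm_mul, norm_ec, mul_one, integral_const_mul]
      refine Summable.mul_right _ ?_
      simp only [pow_succ]
      exact (summable_geometric_of_lt_one (norm_nonneg z) hz).mul_right _)
  have h2 : ∀ k : ℕ, ∫ t, (z * ec t) ^ (k + 1) • fs t = 0 := fun k => by
    simp only [mul_pow, mul_smul]
    rw [integral_smul, h k, smul_zero]
  simp only [h2] at h1
  rw [← h1.unique hasSum_zero]
  refine integral_congr_ae (Eventually.of_forall fun t => ?_)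
  have h3 : ‖z * ec t‖ < 1 := by rwa [norm_mul, norm_ec, mul_one]
  have h4 := ((hasSum_geometric_of_norm_lt_one h3).mul_left (z * ec t)).smul_const (fs t)
  simp only [← pow_succ'] at h4
  simp only
  rw [h4.tsum_eq, div_eq_mul_inv]

omit [CompleteSpace V] in
theorem ha4_diff (hi : Integrable fs) (hw : ‖w‖ < 1) :
    DifferentiableAt ℂ (fun x => ∫ t, (ec t / (ec t - x)) • fs t) w := by
  have hε : 0 < (1 - ‖w‖) / 2 := by linarith
  have hne : ∀ x ∈ ball w ((1 - ‖w‖) / 2), ∀ t, ec t - x ≠ 0 := fun x hx t =>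
    norm_pos_iff.1 (hε.trans_le (ha4_le (mem_ball_iff_norm.1 hx) t))
  refine (hasDerivAt_integral_of_dominated_loc_of_deriv_le (μ := volume) (ball_mem_nhds w hε)
    (F := fun x t => (ec t / (ec t - x)) • fs t)
    (F' := fun x t => (ec t / (ec t - x) ^ 2) • fs t)
    (bound := fun t => 1 / ((1 - ‖w‖) / 2) ^ 2 * ‖fs t‖) ?_ ?_ ?_ ?_ (hi.norm.const_mul _)
    ?_).2.differentiableAt
  · filter_upwards [ball_mem_nhds w hε] with x hx
    exact (ha4_int hi (continuous_ec.div (continuous_ec.sub continuous_const) (hne x hx))).1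
  · exact ha4_int hi (continuous_ec.div (continuous_ec.sub continuous_const) (ec_sub_ne hw))
  · exact (ha4_int hi (continuous_ec.div ((continuous_ec.sub continuous_const).pow 2)
      fun t => pow_ne_zero 2 (ec_sub_ne hw t))).1
  · refine Eventually.of_forall fun t x hx => ?_
    rw [norm_smul, norm_div, norm_ec, norm_pow]
    gcongr
    exact ha4_le (mem_ball_iff_norm.1 hx) t
  · refine Eventually.of_forall fun t x hx => ?_
    have h1 := ((hasDerivAt_const x (ec t)).div ((hasDerivAt_id x).const_sub (ec t))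
      (hne x hx t)).smul_const (fs t)
    have h2 : ec t / (ec t - x) ^ 2 = (0 * (ec t - id x) - ec t * -1) / (ec t - id x) ^ 2 := by
      simp
    rw [h2]
    exact h1

theorem hinf (hi : Integrable fs) (h : ∀ k : ℕ, ∫ t, ec t ^ (k + 1) • fs t = 0) :
    DifferentiableOn ℂ (PI fs) (ball 0 1) := by
  refine DifferentiableOn.congr (f := fun x => ∫ t, (ec t / (ec t - x)) • fs t)
    (fun x hx => (ha4_diff hi (mem_ball_zero_iff.1 hx)).differentiableWithinAt) fun x hx => ?_
  rw [mem_ball_zero_iff] at hx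
  rw [ha4_split hi hx, ha4_anti hi h (by rwa [RCLike.norm_conj]), add_zero]

end holo

/-- bounded sequences in a Hilbert space have weak cluster points -/
theorem ha4_weak {H : Type*} [NormedAddCommGroup H] [InnerProductSpace ℂ H] [CompleteSpace H]
    {F : ℕ → H} {K : ℝ} (hF : ∀ k, ‖F k‖ ≤ K) : ∃ g : H, ∀ (u : H) (L : ℂ),
      Tendsto (fun k => inner ℂ u (F k)) atTop (𝓝 L) → inner ℂ u g = L := by
  obtain ⟨φ, -, hφ⟩ := (WeakDual.isCompact_closedBall (0 : StrongDual ℂ H) K).exists_mapClusterPt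
    (f := atTop) (u := fun k => StrongDual.toWeakDual (InnerProductSpace.toDual ℂ H (F k))) (by
      rw [le_principal_iff, mem_map]
      refine Eventually.of_forall fun k => ?_
      simpa using hF k)
  refine ⟨(InnerProductSpace.toDual ℂ H).symm (WeakDual.toStrongDual φ), fun u L hL => ?_⟩
  have h1 := hφ.continuousAt_comp (f := fun x : WeakDual ℂ H => conj (x u))
    (continuous_conj.comp (WeakDual.eval_continuous u)).continuousAt
  have h2 : ((fun x : WeakDual ℂ H => conj (x u)) ∘ fun k =>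
      StrongDual.toWeakDual (InnerProductSpace.toDual ℂ H (F k))) = fun k => inner ℂ u (F k) := by
    funext k
    exact inner_conj_symm u (F k)
  rw [h2] at h1
  rw [← inner_conj_symm, InnerProductSpace.toDual_symm_apply]
  exact eq_of_nhds_neBot (h1.clusterPt.mono hL)

theorem ha4_test {V : Type*} [NormedAddCommGroup V] [InnerProductSpace ℂ V] {w : ℂ}
    (hw : ‖w‖ < 1) (v : V) : ∃ u : Lp V 2 (volume : Measure TT), ∀ g : Lp V 2 (volume : Measure TT),
      inner ℂ u g = ∫ t, inner ℂ v (Pk w (ec t) • g t) := by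
  have h1 : MemLp (fun t => Pk w (ec t) • v) 2 (volume : Measure TT) := by
    refine MemLp.of_bound ((continuous_Pk hw).smul continuous_const).aestronglyMeasurable
      (2 / (1 - ‖w‖) * ‖v‖) (Eventually.of_forall fun t => ?_)
    rw [norm_smul, Real.norm_of_nonneg (Pk_nonneg hw _)]
    exact mul_le_mul_of_nonneg_right (Pk_le hw t) (norm_nonneg v)
  refine ⟨h1.toLp, fun g => ?_⟩
  rw [L2.inner_def]
  refine integral_congr_ae ?_
  filter_upwards [h1.coeFn_toLp] with t ht
  rw [ht, ← coe_smul, ← coe_smul, inner_smul_left, inner_smul_right, conj_ofReal]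

/-- Existence of radial limits. -/
theorem HB.exists_RL {V : Type*} [NormedAddCommGroup V] [InnerProductSpace ℂ V]
    [FiniteDimensional ℂ V] {f : ℂ → V} {B : ℝ} (hf : HB f B) :
    ∃ fs : TT → V, StronglyMeasurable fs ∧ (∀ t, ‖fs t‖ ≤ B) ∧ RL f fs := by
  have : CompleteSpace V := FiniteDimensional.complete ℂ V
  have hB : 0 ≤ B := (norm_nonneg _).trans (hf.bd 0 (mem_ball_self one_pos))
  have hc := hf.diff.continuousOn.mono (ha4_sub 0)
  obtain ⟨u, h1, h2⟩ := ha4_seq one_pos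
  have hm : ∀ k, MemLp (fun t => f (u k * ec t)) 2 (volume : Measure TT) := fun k =>
    MemLp.of_bound (ha4_cont hc (h1 k)).aestronglyMeasurable B
      (Eventually.of_forall fun t => hf.bd _ (ha4_sub 0 (ha4_ann (h1 k) t)))
  obtain ⟨g, hg⟩ := ha4_weak (F := fun k => (hm k).toLp) fun k =>
    Lp.norm_le_of_ae_bound hB (by
      filter_upwards [(hm k).coeFn_toLp] with t ht
      rw [ht]
      exact hf.bd _ (ha4_sub 0 (ha4_ann (h1 k) t)))
  have hi : ∀ G : Lp V 2 (volume : Measure TT), Integrable G := fun G =>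
    (Lp.memLp G).integrable one_le_two
  have he : EqOn f (PI g) (Ann 0) := fun x hx => by
    refine ext_inner_left ℂ fun v => ?_
    obtain ⟨y, hy⟩ := ha4_test hx.2 v
    have h3 : ∀ G : Lp V 2 (volume : Measure TT), inner ℂ y G = inner ℂ v (PI G x) := fun G => by
      rw [hy, integral_inner (PI_int (hi G) hx.2)]
      rfl
    rw [← h3]
    refine (hg y _ ?_).symm
    have h4 : ContinuousAt f x :=
      hf.diff.continuousOn.continuousAt (isOpen_ball.mem_nhds (ha4_sub 0 hx))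
    refine (tendsto_const_nhds.inner ((h4.tendsto.comp (ha4_rad x)).comp h2)).congr fun k => ?_
    rw [h3, PI_congr (hm k).coeFn_toLp, PI_holo (ha4_dil hf.diff (h1 k)) hx.2]
    rfl
  have hR : RL f g := (RL_PI (hi g)).congr one_pos he
  have hs := Lp.stronglyMeasurable g
  refine ⟨{t | ‖g t‖ ≤ B}.indicator g,
    hs.indicator (measurableSet_le hs.norm.measurable measurable_const), fun t => ?_, ?_⟩
  · by_cases ht : t ∈ {t | ‖g t‖ ≤ B}
    · rw [indicator_of_mem ht]
      exact ht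
    · rw [indicator_of_notMem ht, norm_zero]
      exact hB
  · filter_upwards [hR, hR.bound one_pos fun x hx => hf.bd x (ha4_sub 0 hx)] with t h3 h4
    rwa [indicator_of_mem (show t ∈ {t | ‖g t‖ ≤ B} from h4)]

end Pool.Agent.MP_4baaa2_an.H94
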