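import Pool.Agent.MP_4baaa2_an.Mg.H94_Ha5
import Pool.Agent.MP_4baaa2_an.Mg.H94_GeoA
import Pool.Agent.MP_4baaa2_an.Mg.H94_Ha1

/-!
The conformal map onto a sawtooth domain.
-/

namespace Pool.Agent.MP_4baaa2_an.H94

open Set Metric Filter Topology Complex MeasureTheory
open scoped ComplexConjugate
open Pool.Agent.Lib.PlaneTop

/-- Riemann maps are proper. -/
theorem saw_proper {Ω O : Set ℂ} (hb : Bornology.IsBounded Ω) (hO : IsOpen O)
    (hsub : ∀ w ∈ closure Ω, w ∉ Ω → w ∈ O) {ψ g : ℂ → ℂ} (hm' : MapsTo ψ (ball 0 1) Ω)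
    (hg : ContinuousOn g Ω) (hg' : MapsTo g Ω (ball 0 1))
    (hinv : ∀ w ∈ ball (0 : ℂ) 1, g (ψ w) = w) :
    ∃ ρ₀ < (1 : ℝ), ∀ w ∈ Ann ρ₀, ψ w ∈ O := by
  have h1 : closure Ω \ O ⊆ Ω := fun w hw => by_contra fun h => hw.2 (hsub w hw.1 h)
  obtain ⟨ρ, hρ, h2⟩ := exists_lt_subset_ball ((hb.isCompact_closure.diff hO).image_of_continuousOn
    (hg.mono h1)).isClosed (image_subset_iff.2 fun w hw => hg' (h1 hw))
  refine ⟨ρ, hρ, fun w hw => by_contra fun h => ?_⟩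
  have h3 := mem_ball_zero_iff.2 hw.2
  exact hw.1.not_gt (mem_ball_zero_iff.1 (h2 ⟨_, ⟨subset_closure (hm' h3), h⟩, hinv w h3⟩))

lemma saw_re {f : ℂ → ℂ} (hf : DA f) {c : ℝ} (h : ∀ t, c ≤ (f (ec t)).re) :
    ∀ w ∈ closedBall (0 : ℂ) 1, c ≤ (f w).re := fun w hw => by
  simpa [norm_exp] using DA.hb (B := Real.exp (-c)) (differentiable_exp.comp_diffContOnCl hf.neg)
    (fun t => by simpa [norm_exp] using h t) w hw

lemma saw_bd {G : Set TT} {s r : ℝ} (hs : 0 < s) (hr : 1 - s / 2 ≤ r) (hr1 : r < 1) {w : ℂ}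
    (h : Bd G s r w) : ‖w‖ ≤ r ∧ 1 - 3 * s < ‖w‖ ∧ cz - hm Gᶜ w < 4 * cz / s * (1 - ‖w‖) := by
  obtain ⟨h1, h2, h3⟩ : ‖w‖ ≤ r ∧ 1 - ‖w‖ ≤ 2 * s ∧ (cz ≤ hm Gᶜ w ∨ s / 2 ≤ 1 - ‖w‖) := by
    rcases h with h | h
    · exact ⟨h.1.le, by linarith [h.1], Or.inl h.2⟩
    · exact ⟨h.2.2.1, h.2.1, h.2.2.2⟩
  have hc : 0 < cz := by norm_num [cz]
  refine ⟨h1, by linarith, ?_⟩
  rcases h3 with h3 | h3
  · exact (sub_nonpos.2 h3).trans_lt (mul_pos (by positivity) (by linarith))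
  · have := hm_nonneg Gᶜ (h1.trans_lt hr1)
    rw [div_mul_eq_mul_div, lt_div_iff₀ hs]
    nlinarith [mul_pos hc hs]

theorem saw {G : Set TT} (hG : IsClosed G) (hne : G.Nonempty) {s r : ℝ} (hs : 0 < s)
    (hs1 : s ≤ 1 / 16) (hr : 1 - s / 2 ≤ r) (hr1 : r < 1) {S : Set ℂ}
    (hS : ∀ w, Bd G s r w → S ∈ 𝓝[closedBall 0 r] w) :
    ∃ W, SawV G s r W ∧ ∀ ω ∈ sphere (0 : ℂ) 1, ω * exp (-W ω) ∈ S := by
  have r0 : 0 < r := by linarith
  have hB := hG.isOpen_compl.measurableSet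
  obtain ⟨φ, hφ, h1⟩ := exists_teeth hG hne hs hs1
  obtain ⟨o1, o2, o3, o4, o5, o6⟩ := star_props (R := fun t => r * (1 - φ t)) (by fun_prop)
    fun t => mul_pos r0 (by linarith [(h1 t).2.1])
  replace o6 := o6 r fun t => mul_le_of_le_one_right r0.le (by linarith [(h1 t).1])
  obtain ⟨ψ, p1, p2, p3, p4, p5, ⟨x, hx, p6⟩, g, hg, p7, -⟩ := riemann_map o1 o2 o3
    (isBounded_ball.subset o6) fun g hg => o4 g hg.diff.continuousOn
  have p8 : MapsTo ψ (ball 0 1) (Star fun t => r * (1 - φ t)) := fun w hw => p3 ▸ ⟨w, hw, rfl⟩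
  have p9 : MapsTo ψ (ball 0 1) (ball 0 1) := fun w hw => ball_subset_ball hr1.le (o6 (p8 hw))
  obtain ⟨L, l1, l2, l3, l4⟩ := proper_log p1 p2 p4 p5 p9 hx p6
  obtain ⟨ρ₀, h2, h3⟩ := saw_proper (O := interior {w | w ∈ closedBall 0 r → w ∈ S ∧
      1 - 3 * s < ‖w‖ ∧ cz - hm Gᶜ w < 4 * cz / s * (1 - ‖w‖)}) (isBounded_ball.subset o6)
    isOpen_interior (fun w hw h => by
      obtain ⟨t, rfl⟩ := o5 w hw h
      have a1 := teeth_bd hG hs hs1 hr hr1 (h1 t).1 (h1 t).2.1 (h1 t).2.2.1 (h1 t).2.2.2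
      generalize ((r * (1 - φ t) : ℝ) : ℂ) * ec t = w at a1
      obtain ⟨a2, a3, a4⟩ := saw_bd hs hr hr1 a1
      have a5 := (continuousOn_hm hB).continuousAt
        (isOpen_ball.mem_nhds (mem_ball_zero_iff.2 (a2.trans_lt hr1)))
      exact mem_interior_iff_mem_nhds.2 (eventually_nhdsWithin_iff.1 (Eventually.and (hS w a1)
        (nhdsWithin_le_nhds ((ContinuousAt.eventually_lt continuousAt_const (by fun_prop) a3).and
          (ContinuousAt.eventually_lt (continuousAt_const.sub a5) (by fun_prop) a4))))))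
    p8 hg.diff.continuousOn (fun w hw => mem_ball_zero_iff.2 (hg.maps w hw)) p7
  obtain ⟨ρ, h4, h5⟩ := exists_between (max_lt h2 one_pos)
  have ρ0 : 0 < ρ := (le_max_right _ _).trans_lt h4
  have h6 : ρ ∈ Ioo (max 0 0) 1 := ⟨by simpa using ρ0, h5⟩
  have h7 : ∀ ω ∈ closedBall (0 : ℂ) 1, (ρ : ℂ) * ω ∈ ball (0 : ℂ) 1 := fun ω hω => by
    rw [mem_ball_zero_iff, norm_mul, norm_real, Real.norm_of_nonneg ρ0.le]
    exact (mul_le_of_le_one_right ρ0.le (mem_closedBall_zero_iff.1 hω)).trans_lt h5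
  have h8 := Real.log_neg ρ0 h5
  obtain ⟨W, hW⟩ : ∃ W : ℂ → ℂ, W = fun ω => L (ρ * ω) - Real.log ρ := ⟨_, rfl⟩
  have w1 : DA W := hW ▸ (ha4_dil l1 h6).sub_const _
  have w2 : ∀ ω ∈ closedBall (0 : ℂ) 1, ω * exp (-W ω) = ψ (ρ * ω) := fun ω hω => by
    have := sub_smul_dslope ψ 0 (ρ * ω)
    rw [p4, sub_zero, sub_zero, ← l3 _ (h7 ω hω), smul_eq_mul] at this
    rw [← this, hW, neg_sub, sub_eq_add_neg, exp_add, ← ofReal_exp, Real.exp_log ρ0]
    ring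
  have w3 : ∀ t, ec t * exp (-W (ec t)) ∈ S ∧ 1 - 3 * s < Real.exp (-(W (ec t)).re) ∧
      cz - hm Gᶜ (ψ (ρ * ec t)) < 4 * cz / s * (1 - Real.exp (-(W (ec t)).re)) := fun t => by
    have a1 := sphere_subset_closedBall (ec_mem t)
    have a2 := interior_subset (h3 _ (ha4_ann ⟨h4, h5⟩ t))
      (ball_subset_closedBall (o6 (p8 (h7 _ a1))))
    have a3 := congrArg norm (w2 _ a1)
    rw [norm_mul, norm_ec, one_mul, norm_exp, neg_re] at a3
    rwa [w2 _ a1, a3]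
  have hc : 0 ≤ 4 * cz / s := by rw [cz]; positivity
  refine ⟨W, ⟨w1, (le_antisymm ?_ (re_le_norm _)), fun ω hω => ⟨?_, ?_⟩, fun ω hω => ?_,
    fun ω hω => ?_⟩, fun ω hω => ?_⟩
  · rw [hW]
    refine (norm_sub_le _ _).trans_eq ?_
    rw [sub_re, mul_zero, l4, norm_real, Real.norm_of_nonpos h8.le, ofReal_re, sub_eq_add_neg]
  · rw [hW]
    simp only [sub_re, ofReal_re]
    linarith [l2 _ (h7 ω hω)]
  · refine neg_le_neg_iff.1 (saw_re w1.neg (fun t => ?_) ω hω)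
    refine Real.exp_le_exp.1 (le_trans ?_ (w3 t).2.1.le)
    rw [Real.exp_neg, inv_le_iff_one_le_mul₀ (Real.exp_pos _)]
    nlinarith [Real.add_one_le_exp (4 * s)]
  · rw [w2 ω hω]
    exact mem_ball_zero_iff.1 (o6 (p8 (h7 ω hω)))
  · have a1 : ∀ ω ∈ closedBall (0 : ℂ) 1, (SI (Gᶜ.indicator fun _ => 1) (ψ (ρ * ω)) +
        (4 * cz / s : ℝ) * W ω).re = hm Gᶜ (ψ (ρ * ω)) + 4 * cz / s * (W ω).re := fun ω hω => by
      rw [add_re, re_ofReal_mul, SI_re (ha2_ind hB) (mem_ball_zero_iff.1 (p9 (h7 ω hω))), hm]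
    have := saw_re (c := cz) ((ha4_dil ((SI_diff (ha2_ind hB)).comp p1 p9) h6).add
      (w1.const_smul ((4 * cz / s : ℝ) : ℂ))) (fun t => by
        refine le_of_le_of_eq ?_ (a1 _ (sphere_subset_closedBall (ec_mem t))).symm
        have := mul_le_mul_of_nonneg_left (Real.add_one_le_exp (-(W (ec t)).re)) hc
        linarith [(w3 t).2.2]) ω hω
    rw [w2 ω hω]
    linarith [this.trans_eq (a1 ω hω)]
  · obtain ⟨t, rfl⟩ := ec_surj (mem_sphere_zero_iff_norm.1 hω)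
    exact (w3 t).1

variable {n : ℕ}

theorem adm_of_bd {Z : Set (E n)} (hp : IsPathConnected Z) (h0 : (0 : E n) ∈ Z) {k : ℂ → E n}
    (hk : DA k) (h : ∀ z ∈ Z, ∀ ω ∈ sphere (0 : ℂ) 1, dot z (k ω) ≠ ω) : Adm Z k := by
  refine ⟨hk.1, fun z hz => ?_⟩
  have hg : DiffContOnCl ℂ (fun w => w - dot z (k w)) (ball 0 1) :=
    differentiable_id.diffContOnCl.sub (dcc_dot diffContOnCl_const hk)
  obtain ⟨γ, hγ⟩ := hp.joinedIn 0 h0 z hz
  have h1 : ∀ ω ∈ sphere (0 : ℂ) 1, ω ≠ 0 := fun ω hω => ne_zero_of_mem_unit_sphere ⟨ω, hω⟩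
  obtain ⟨ζ, hζ, h2, hne⟩ := AP_disc hg (by
    simpa using HasLogOn.homotopy (H := fun a ω => (ω - dot (γ.extend a) (k ω)) / ω)
      (K := sphere 0 1) ((continuousOn_snd.sub (contOn_dot (by fun_prop)
        (hk.continuousOn_ball.comp continuousOn_snd
          fun p hp => sphere_subset_closedBall hp.2))).div continuousOn_snd fun p hp => h1 _ hp.2)
      (fun a _ ω hω => div_ne_zero (sub_ne_zero.2 (h _ (hγ (projIcc 0 1 zero_le_one a)) ω hω).symm)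
        (h1 ω hω))
      ((hasLogOn_const one_ne_zero _).congr fun ω hω => by simp [h1 ω hω]))
  have h3 : dot z (k ζ) = ζ := (sub_eq_zero.1 h2).symm
  refine ⟨ζ, hζ, h3, fun ω hω => ?_⟩
  have h4 := hne ω hω
  rcases eq_or_ne ω ζ with rfl | hωζ
  · have hd := (hk.1.differentiableAt (isOpen_ball.mem_nhds hω)).hasDerivAt
    rw [dslope_same, show (fun w => w - dot z (k w)) = id - fun w => dot z (k w) from rfl,
      ((hasDerivAt_id ω).sub (hasDerivAt_dot (hasDerivAt_const ω z) hd)).deriv] at h4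
    simpa [O] using h4
  · intro h5
    have h6 := sub_smul_dslope (fun w => w - dot z (k w)) ζ ω
    simp only [h2, sub_zero, W_eq k z h3 ω, h5, mul_zero, smul_eq_mul] at h6
    exact mul_ne_zero (sub_ne_zero.2 hωζ) h4 h6

theorem slack {Z : Set (E n)} (hZ : IsCompact Z) {k : ℂ → E n} {T : Set ℂ}
    (hk : ContinuousOn k T) {w : ℂ} (hw : w ∈ T) (h : ∀ z ∈ Z, dot z (k w) ≠ w) :
    {w' | ∀ z ∈ Z, dot z (k w') ≠ w'} ∈ 𝓝[T] w :=
  ((hk w hw).prodMk continuousWithinAt_id).eventually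
    (hZ.eventually_forall_of_forall_eventually (x₀ := (k w, w)) (P := fun p z => dot z p.1 ≠ p.2)
      fun z hz => (isOpen_ne_fun (by fun_prop) (by fun_prop)).mem_nhds (h z hz))

/-- the combination used in the variation -/
theorem saw_adm {Z : Set (E n)} (hZ : IsCompact Z) (hp : IsPathConnected Z) (h0 : (0 : E n) ∈ Z)
    {G : Set TT} (hG : IsClosed G) (hne : G.Nonempty) {s r : ℝ} (hs : 0 < s) (hs1 : s ≤ 1 / 16)
    (hr : 1 - s / 2 ≤ r) (hr1 : r < 1) {k : ℂ → E n} (hk : DiffContOnCl ℂ k (ball 0 r))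
    (h : ∀ w, Bd G s r w → ∀ z ∈ Z, dot z (k w) ≠ w) :
    ∃ W, SawV G s r W ∧ Adm Z (tw k W) := by
  obtain ⟨W, hW, h1⟩ := saw hG hne hs hs1 hr hr1 fun w hw => slack hZ hk.continuousOn_ball
    (mem_closedBall_zero_iff.2 (saw_bd hs hr hr1 hw).1) (h w hw)
  refine ⟨W, hW, adm_of_bd hp h0 ((differentiable_exp.comp_diffContOnCl hW.da).smul
    (hk.comp (differentiable_id.diffContOnCl.smul (differentiable_exp.comp_diffContOnCl hW.da.neg))
      fun ω hω => mem_ball_zero_iff.2 (hW.lt ω (ball_subset_closedBall hω))))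
    fun z hz ω hω h2 => h1 ω hω z hz ?_⟩
  rw [tw, dot_smul_right] at h2
  rw [exp_neg, eq_mul_inv_iff_mul_eq₀ (exp_ne_zero _), mul_comm, ← exp_neg, h2]

end Pool.Agent.MP_4baaa2_an.H94

/-!
Boundary values of admissible discs.
-/

namespace Pool.Agent.MP_4baaa2_an.H94

open Set Metric Filter Topology Complex MeasureTheory
open scoped ComplexConjugate
open Pool.Agent.Lib.PlaneTop

variable {n : ℕ} {D : Set (E n)} {Φ : E n → E n → ℂ}


variable {h : ℂ → E n} {Lg : E n → ℂ → ℂ}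

theorem bdy_holo_log {X : Type*} [NormedAddCommGroup X] [NormedSpace ℂ X] {g L : X → ℂ}
    {U : Set X} (hU : IsOpen U) (hg : DifferentiableOn ℂ g U) (hL : ContinuousOn L U)
    (he : ∀ w ∈ U, exp (L w) = g w) : DifferentiableOn ℂ L U := by
  intro w₀ hw₀
  refine DifferentiableAt.differentiableWithinAt ?_
  have hn := hU.mem_nhds hw₀
  have hg0 : g w₀ ≠ 0 := he w₀ hw₀ ▸ exp_ne_zero _
  have hc : ContinuousAt (fun w => ‖L w - L w₀‖) w₀ :=
    ((hL.continuousAt hn).sub continuousAt_const).norm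
  have hev : ∀ᶠ w in 𝓝 w₀, ‖L w - L w₀‖ < Real.pi :=
    hc.eventually (gt_mem_nhds (by simpa using Real.pi_pos))
  have heq : L =ᶠ[𝓝 w₀] fun w => L w₀ + log (g w * (g w₀)⁻¹) := by
    filter_upwards [hev, hn] with w h1 h2
    have h3 := abs_lt.1 ((abs_im_le_norm _).trans_lt h1)
    rw [← div_eq_mul_inv, ← he w h2, ← he w₀ hw₀, ← exp_sub, log_exp h3.1 h3.2.le]
    ring
  refine DifferentiableAt.congr_of_eventuallyEq ?_ heq
  refine (DifferentiableAt.clog ((hg.differentiableAt hn).mul_const _) ?_).const_add _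
  rw [mul_inv_cancel₀ hg0]
  exact one_mem_slitPlane

theorem bdy_slit {a w : ℂ} (h : ‖a‖ < ‖w‖) : 1 - a / w ∈ slitPlane := by
  rw [sub_eq_add_neg]
  refine mem_slitPlane_of_norm_lt_one ?_
  rwa [norm_neg, norm_div, div_lt_one ((norm_nonneg _).trans_lt h)]

theorem bdy_slit' {a w : ℂ} (h : ‖a‖ < 1) (hw : ‖w‖ ≤ 1) : 1 - conj a * w ∈ slitPlane := by
  rw [sub_eq_add_neg]
  refine mem_slitPlane_of_norm_lt_one ?_
  rw [norm_neg, norm_mul, norm_conj]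
  exact (mul_le_of_le_one_right (norm_nonneg _) hw).trans_lt h

/-- Hint: `Geo.hopf`. -/
theorem Geo.rho (G : Geo D Φ) {δ : ℝ} (hδ : 0 < δ) :
    ∃ ρ < (1 : ℝ), ∀ h, Adm D h → ∀ z ∈ Zd D δ, ‖F h z‖ ≤ ρ := by
  obtain ⟨c, hc, α, hα, H⟩ := G.hopf
  refine ⟨1 - c * δ ^ α, by linarith [mul_pos hc (Real.rpow_pos_of_pos hδ α)],
    fun h hh z hz => ?_⟩
  have h1 := H (F h) (hh.F_diff G.isOpen) (fun z hz => (hh.F_spec hz).1) (hh.F_zero G.zero) z
    ((isCompact_deep G.bdd G.ne_univ hδ).2 hz)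
  have h2 : δ ^ α ≤ dep D z ^ α := Real.rpow_le_rpow hδ.le hz (by linarith)
  linarith [mul_le_mul_of_nonneg_left h2 hc.le]

theorem Geo.hb (G : Geo D Φ) : ∃ Rh > 0, ∀ h, Adm D h → HB h Rh := by
  obtain ⟨Rh, h0, H⟩ := adm_bound G.isOpen G.zero
  exact ⟨Rh, h0, fun h hh => ⟨hh.1, H h hh⟩⟩

/-- Hint: compactness of `Zd D δ ×ˢ Kd D` (`isCompact_deep`, `isCompact_Kd`). -/
theorem Geo.lev (G : Geo D Φ) {δ : ℝ} (hδ : 0 < δ) :
    ∃ κ > 0, ∀ z ∈ Zd D δ, ∀ ξ ∈ Kd D, κ ≤ ‖1 - dot z ξ‖ := by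
  obtain ⟨h1, h2⟩ := isCompact_deep G.bdd G.ne_univ hδ
  obtain ⟨κ, h3, h4⟩ := (h1.prod (isCompact_Kd G.isOpen G.zero)).exists_forall_le'
    (f := fun x : E n × E n => ‖1 - dot x.1 x.2‖) (a := 0)
    (continuous_const.sub continuous_dot).norm.continuousOn
    fun x hx => norm_pos_iff.2 (sub_ne_zero.2 (hx.2 x.1 (h2 hx.1)).symm)
  exact ⟨κ, h3, fun z hz ξ hξ => h4 (z, ξ) ⟨hz, hξ⟩⟩

/-- The hyperplanes cluster on the dual complement. Hint: otherwise `w_k` with `‖w_k‖ → 1` and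
`xi h w_k → ξ ∉ Kd D` along an ultrafilter; if `⟨z, ξ⟩ = 1`, `z ∈ D`, correct `z` to `z_k → z` with
`⟨z_k, xi h w_k⟩ = 1` (`cls1_solve`, see the end of the proof of `Geo.adm_limit`), so
`F h z_k = w_k`, against `Geo.cls2_small`. -/
theorem Pre.cl_K (G : Pre D) (hh : Adm D h) {ε : ℝ} (hε : 0 < ε) :
    ∃ ρ < (1 : ℝ), ∀ w ∈ Ann ρ, ∃ ξ ∈ Kd D, ‖xi h w - ξ‖ ≤ ε := by
  by_contra hcon
  push Not at hcon
  obtain ⟨Rh, -, hR⟩ := adm_bound G.isOpen G.zero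
  obtain ⟨u, hu, hu1⟩ := ha4_seq (a := 1 / 2) (by norm_num)
  choose w hw hbad using fun k => hcon (u k) (hu k).2
  have hw2 : ∀ k, 1 / 2 < ‖w k‖ := fun k => ((le_max_left _ _).trans_lt (hu k).1).trans (hw k).1
  have hw0 : ∀ k, w k ≠ 0 := fun k => norm_pos_iff.1 (lt_trans (by norm_num) (hw2 k))
  have hb : ∀ k, xi h (w k) ∈ closedBall (0 : E n) (2 * Rh) := fun k => by
    rw [mem_closedBall_zero_iff, xi, norm_smul, norm_inv]
    refine mul_le_mul ?_ (hR h hh _ (mem_ball_zero_iff.2 (hw k).2)) (norm_nonneg _) zero_le_two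
    rw [inv_le_comm₀ (norm_pos_iff.2 (hw0 k)) two_pos]
    linarith [hw2 k]
  obtain ⟨ξ, -, φ, hφ, hlim⟩ := tendsto_subseq_of_bounded isBounded_closedBall hb
  have hξ : ξ ∉ Kd D := fun hξ => by
    obtain ⟨k, hk⟩ := (hlim.eventually (closedBall_mem_nhds ξ hε)).exists
    exact absurd (mem_closedBall_iff_norm.1 hk) (not_le.2 (hbad _ ξ hξ))
  obtain ⟨z, hz, hzξ⟩ : ∃ z ∈ D, dot z ξ = 1 := by
    by_contra hc
    exact hξ fun z hz he => hc ⟨z, hz, he⟩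
  have h5 : ξ ≠ 0 := fun h0 => by simp [h0] at hzξ
  obtain ⟨ρ, hρ, H⟩ := G.cls2_small hz
  have h7 : ContinuousAt (fun x : E n =>
      z + ((1 - dot z x) / ((‖x‖ ^ 2 : ℝ) : ℂ)) • cj x) ξ := by
    have a1 : ContinuousAt (fun x : E n => 1 - dot z x) ξ := by fun_prop
    have a2 : ContinuousAt (fun x : E n => ((‖x‖ ^ 2 : ℝ) : ℂ)) ξ := by fun_prop
    refine continuousAt_const.add ((a1.div a2 ?_).smul continuous_cj.continuousAt)
    exact_mod_cast pow_ne_zero 2 (norm_ne_zero_iff.2 h5)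
  have h8 := h7.tendsto.comp hlim
  rw [hzξ, sub_self, zero_div, zero_smul, add_zero] at h8
  have h6 := ((hu1.mono_right nhdsWithin_le_nhds).comp hφ.tendsto_atTop).eventually
    (lt_mem_nhds hρ)
  obtain ⟨k, hk1, hk2, hk3⟩ := ((h8.eventually H).and (h6.and (hlim.eventually_ne h5))).exists
  have h9 := hk1.2 _ hh
  rw [hh.F_unique hk1.1 (mem_ball_zero_iff.2 (hw (φ k)).2)] at h9
  · exact absurd (hk2.trans (hw (φ k)).1) (not_lt.2 h9)
  · have e : h (w (φ k)) = w (φ k) • xi h (w (φ k)) := by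
      rw [xi, smul_smul, mul_inv_cancel₀ (hw0 _), one_smul]
    rw [e, dot_smul_right, Function.comp_apply, Function.comp_apply, dot_add_left,
      cls1_solve (v := xi h (w (φ k))) hk3, add_sub_cancel, mul_one]

theorem xi_low (hh : Adm D h) (ho : F h '' D = ball 0 1) {RD : ℝ} (hR : D ⊆ ball 0 RD) {w : ℂ}
    (hw : ‖w‖ < 1) (hw0 : w ≠ 0) : (∃ z ∈ D, F h z = w ∧ uz h z w = 0) ∧ 1 ≤ RD * ‖xi h w‖ := by
  obtain ⟨z, hz, hzw⟩ : w ∈ F h '' D := ho ▸ mem_ball_zero_iff.2 hw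
  have h1 := (hh.F_spec hz).2.1
  rw [hzw] at h1
  have h2 : dot z (xi h w) = 1 := by rw [xi, dot_smul_right, h1, inv_mul_cancel₀ hw0]
  refine ⟨⟨z, hz, hzw, by rw [uz, h2, sub_self]⟩, ?_⟩
  have h3 := norm_dot_le z (xi h w)
  rw [h2, norm_one] at h3
  exact h3.trans (mul_le_mul_of_nonneg_right (mem_ball_zero_iff.1 (hR hz)).le (norm_nonneg _))

/-- Hint: `Adm.O_diff`; the homotopy `(z, w) ↦ (z, s w)` (`HasLogOn.homotopy`) reduces to
`z ↦ O h z (F h z) 0`, which has a logarithm by `G.logs`. Normalise at `(0, 0)`; `O h 0 _ w = 1`.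
Near `x₀` the logarithm is `L x₀ + log (O x / O x₀)`, hence differentiable (as in `holo_log`). -/
theorem Geo.exists_lg (G : Geo D Φ) (hh : Adm D h) : ∃ Lg, IsLg D h Lg := by
  have hO := hh.O_diff G.isOpen
  have hm : ∀ s ∈ Icc (0 : ℝ) 1, ∀ w ∈ ball (0 : ℂ) 1, (s : ℂ) * w ∈ ball (0 : ℂ) 1 :=
    fun s hs w hw => by
      rw [mem_ball_zero_iff, norm_mul, Complex.norm_real, Real.norm_of_nonneg hs.1]
      exact (mul_le_of_le_one_left (norm_nonneg _) hs.2).trans_lt (mem_ball_zero_iff.1 hw)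
  have h0 : (0 : ℂ) ∈ ball (0 : ℂ) 1 := mem_ball_self one_pos
  have h1 : HasLogOn (fun z => O h z (F h z) 0) D :=
    G.logs _ (hO.continuousOn.comp (f := fun z : E n => (z, (0 : ℂ))) (by fun_prop)
      fun z hz => ⟨hz, h0⟩) fun z hz => (hh.F_spec hz).2.2 0 h0
  obtain ⟨ω, h2, h3⟩ := HasLogOn.homotopy
    (H := fun (s : ℝ) (x : E n × ℂ) => O h x.1 (F h x.1) (s * x.2)) (K := D ×ˢ ball 0 1)
    (hO.continuousOn.comp (f := fun p : ℝ × E n × ℂ => (p.2.1, (p.1 : ℂ) * p.2.2)) (by fun_prop)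
      fun p hp => ⟨hp.2.1, hm _ hp.1 _ hp.2.2⟩)
    (fun s hs x hx => (hh.F_spec hx.1).2.2 _ (hm s hs _ hx.2))
    ((h1.comp continuousOn_fst fun x hx => hx.1).congr fun x _ => by simp)
  simp only [ofReal_one, one_mul] at h3
  have h4 : ∀ w ∈ ball (0 : ℂ) 1, exp (ω (0, w)) = 1 := fun w hw => by
    rw [h3 _ ⟨G.zero, hw⟩]; simp [O]
  refine ⟨fun z w => ω (z, w) - ω (0, 0),
    (bdy_holo_log (G.isOpen.prod isOpen_ball) hO h2 h3).sub_const _, fun z hz w hw => ?_,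
    fun w hw => ?_⟩
  · rw [exp_sub, h4 0 h0, div_one, h3 _ ⟨hz, hw⟩]
  · have := log_sub_const (ω := fun w => ω (0, w)) (ω' := fun _ => 0)
      (convex_ball (0 : ℂ) 1).isPreconnected
      (h2.comp (f := fun w : ℂ => ((0 : E n), w)) (by fun_prop) fun w hw => ⟨G.zero, hw⟩)
      continuousOn_const (fun w hw => by rw [h4 w hw, exp_zero]) hw h0
    simpa [sub_eq_zero] using this

theorem exp_lz (hh : Adm D h) (hL : IsLg D h Lg) {z : E n} (hz : z ∈ D) {w : ℂ}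
    (h1 : ‖F h z‖ < ‖w‖) (hw : ‖w‖ < 1) : exp (lz h Lg z w) = uz h z w := by
  have hw0 : w ≠ 0 := norm_pos_iff.1 ((norm_nonneg _).trans_lt h1)
  have h2 := W_eq h z (hh.F_spec hz).2.1 w
  rw [lz, exp_add, hL.lge z hz w (mem_ball_zero_iff.2 hw),
    exp_log (slitPlane_ne_zero (bdy_slit h1)), uz, xi, dot_smul_right]
  field_simp
  linear_combination -h2

theorem lz_cont (hD : IsOpen D) (hh : Adm D h) (hL : IsLg D h Lg) :
    ContinuousOn (fun x : E n × ℂ => lz h Lg x.1 x.2)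
      {x | x.1 ∈ D ∧ ‖F h x.1‖ < ‖x.2‖ ∧ ‖x.2‖ < 1} := by
  have h1 : ContinuousOn (fun x : E n × ℂ => F h x.1)
      {x | x.1 ∈ D ∧ ‖F h x.1‖ < ‖x.2‖ ∧ ‖x.2‖ < 1} :=
    (hh.F_diff hD).continuousOn.comp continuousOn_fst fun x hx => hx.1
  exact (hL.lgd.continuousOn.mono fun x hx => ⟨hx.1, mem_ball_zero_iff.2 hx.2.2⟩).add
    ((continuousOn_const.sub (h1.div continuousOn_snd fun x hx =>
      norm_pos_iff.1 ((norm_nonneg _).trans_lt hx.2.1))).clog fun x hx => bdy_slit hx.2.1)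

theorem gz_diff (hh : Adm D h) (hL : IsLg D h Lg) {z : E n} (hz : z ∈ D) :
    DifferentiableOn ℂ (gz h Lg z) (ball 0 1) := by
  have h1 : DifferentiableOn ℂ (fun w => Lg z w) (ball 0 1) :=
    hL.lgd.comp (f := fun w : ℂ => (z, w)) (by fun_prop) fun w hw => ⟨hz, hw⟩
  exact h1.sub (DifferentiableOn.clog (by fun_prop) fun w hw =>
    bdy_slit' (cls2_F_lt hh hz) (mem_ball_zero_iff.1 hw).le)

/-- Hint: `geoC_near` on the preconnected set `Zd D δ` with `φ = Φ · ξ`, `φ' = lz h Lg · w`;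
`Geo.rho`, `Geo.lev`; `‖log (1 + x)‖ ≤ 3/2 ‖x‖`. -/
theorem Geo.lg_near (G : Geo D Φ) {δ : ℝ} (hδ : 0 < δ) (h0 : (0 : E n) ∈ Zd D δ)
    (hc : IsPreconnected (Zd D δ)) {θ : ℝ} (hθ : 0 < θ) : ∃ ρ < (1 : ℝ), ∃ ε > 0,
    ∀ h Lg, Adm D h → IsLg D h Lg → ∀ w ∈ Ann ρ, (∀ z ∈ Zd D δ, ‖F h z‖ < ‖w‖) ∧
      ∀ ξ ∈ Kd D, ‖xi h w - ξ‖ ≤ ε → ∀ z ∈ Zd D δ, ‖lz h Lg z w - Φ z ξ‖ ≤ θ := by
  obtain ⟨ρ, hρ, H1⟩ := G.rho hδ
  obtain ⟨κ, hκ, H2⟩ := G.lev hδ
  obtain ⟨R, hR, H3⟩ := G.bdd.exists_pos_norm_le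
  have hZ := (isCompact_deep G.bdd G.ne_univ hδ).2
  have hm : 0 < min (θ / 2) (1 / 4) := by positivity
  refine ⟨ρ, hρ, min (θ / 2) (1 / 4) * κ / R, by positivity, fun h Lg hh hL w hw => ?_⟩
  have h1 : ∀ z ∈ Zd D δ, ‖F h z‖ < ‖w‖ := fun z hz => (H1 h hh z hz).trans_lt hw.1
  refine ⟨h1, fun ξ hξ hε z hz => ?_⟩
  have h2 : ∀ z ∈ Zd D δ, ‖(1 - dot z (xi h w)) / (1 - dot z ξ) - 1‖ ≤ min (θ / 2) (1 / 4) := by
    intro z hz
    have a1 := H2 z hz ξ hξ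
    have a2 : 0 < ‖1 - dot z ξ‖ := hκ.trans_le a1
    rw [div_sub_one (norm_pos_iff.1 a2), sub_sub_sub_cancel_left, ← dot_sub_right, norm_div,
      div_le_iff₀ a2]
    rw [norm_sub_rev, le_div_iff₀ hR] at hε
    calc _ ≤ ‖z‖ * ‖ξ - xi h w‖ := norm_dot_le _ _
      _ ≤ ‖ξ - xi h w‖ * R := by
        rw [mul_comm]; exact mul_le_mul_of_nonneg_left (H3 z (hZ hz)) (norm_nonneg _)
      _ ≤ _ := hε.trans (mul_le_mul_of_nonneg_left a1 hm.le)
  have h3 := geoC_near hc h0 (φ := fun z => Φ z ξ) (φ' := fun z => lz h Lg z w)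
    (G.Φcont.comp (f := fun z : E n => (z, ξ)) (by fun_prop) fun z hz => ⟨hZ hz, hξ⟩)
    ((lz_cont G.isOpen hh hL).comp (f := fun z : E n => (z, w)) (by fun_prop)
      fun z hz => ⟨hZ hz, h1 z hz, hw.2⟩)
    (fun z hz => G.Φexp z (hZ hz) ξ hξ) (fun z hz => exp_lz hh hL (hZ hz) (h1 z hz) hw.2)
    (G.Φzero ξ hξ) (by simp [lz, hL.lg0 w (mem_ball_zero_iff.2 hw.2), hh.F_zero G.zero])
    (fun z hz => (h2 z hz).trans_lt ((min_le_right _ _).trans_lt (by norm_num))) hz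
  have h4 := norm_log_one_add_half_le_self
    ((h2 z hz).trans ((min_le_right _ _).trans (by norm_num)))
  rw [add_sub_cancel] at h4
  rw [h3, add_sub_cancel_left]
  linarith [(h2 z hz).trans (min_le_left _ _)]

theorem bdy_rl {hs : TT → E n} (H : RL h hs) : RL (xi h) fun t => (ec t)⁻¹ • hs t := by
  filter_upwards [H] with t ht
  exact ((ha4_rad (ec t)).inv₀ (ec_ne t)).smul ht

theorem bdy_psi {a : ℂ} (ha : ‖a‖ < 1) :
    ContinuousOn (fun w => log (1 - a / w) + log (1 - conj a * w)) {w | ‖a‖ < ‖w‖ ∧ ‖w‖ ≤ 1} :=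
  ((continuousOn_const.sub (continuousOn_const.div continuousOn_id fun _ hx =>
      norm_pos_iff.1 ((norm_nonneg _).trans_lt hx.1))).clog fun _ hx => bdy_slit hx.1).add
    (ContinuousOn.clog (by fun_prop) fun _ hx => bdy_slit' ha hx.2)

theorem bdy_im {a : ℂ} (ha : ‖a‖ < 1) (t : TT) :
    (log (1 - a / ec t) + log (1 - conj a * ec t)).im = 0 := by
  have e : 1 - a / ec t = conj (1 - conj a * ec t) := by
    rw [map_sub, map_one, map_mul, conj_conj, conj_ec, div_eq_mul_inv]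
  rw [e, log_conj _ (slitPlane_arg_ne_pi (bdy_slit' ha (norm_ec t).le)), add_im, conj_im,
    neg_add_cancel]

theorem Geo.bdy_rep (G : Geo D Φ) (hh : Adm D h) (hL : IsLg D h Lg) {xs : TT → E n}
    (hK : ∀ t, xs t ∈ Kd D) (hx : RL (xi h) xs) {z : E n} (hz : z ∈ D) {w : ℂ}
    (hw : w ∈ ball (0 : ℂ) 1) : (gz h Lg z w).im = PI (fun t => (Φ z (xs t)).im) w := by
  obtain ⟨δ₀, hδ₀, A, C, H⟩ := G.deep
  have hd := (dep_pos_iff G.isOpen G.ne_univ).2 hz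
  have hδ : 0 < min δ₀ (dep D z) := lt_min hδ₀ hd
  obtain ⟨a1, a2, -⟩ := H _ ⟨hδ, min_le_left _ _⟩
  have hzZ : z ∈ Zd D (min δ₀ (dep D z)) := min_le_right δ₀ (dep D z)
  have hnear := fun (θ : ℝ) (hθ : 0 < θ) =>
    G.lg_near hδ a1 a2.isConnected.isPreconnected hθ
  have ha := cls2_F_lt hh hz
  have hψ := bdy_psi ha
  have hg : ∀ w, gz h Lg z w =
      lz h Lg z w - (log (1 - F h z / w) + log (1 - conj (F h z) * w)) := fun w => by
    rw [gz, lz]; ring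
  have hd := gz_diff hh hL hz
  have h1 : RL (gz h Lg z) fun t => Φ z (xs t) -
      (log (1 - F h z / ec t) + log (1 - conj (F h z) * ec t)) := by
    filter_upwards [hx, RL_of_cont ha (fun w b1 b2 => mem_ofPred_eq ▸ And.intro b1 b2) hψ] with t b1 b2
    simp only [hg]
    refine Tendsto.sub (Metric.tendsto_nhds.2 fun θ hθ => ?_) b2
    obtain ⟨ρ, hρ, ε, hε, H'⟩ := hnear _ (half_pos hθ)
    filter_upwards [ev_ann hρ t, b1.eventually (closedBall_mem_nhds _ hε)] with r r1 r2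
    rw [dist_eq_norm]
    exact ((H' h Lg hh hL _ r1).2 _ (hK t) (mem_closedBall_iff_norm.1 r2) z hzZ).trans_lt
      (half_lt_self hθ)
  obtain ⟨B, hB⟩ : ∃ B, HB (gz h Lg z) B := by
    obtain ⟨ρ, hρ, ε, hε, H'⟩ := hnear 1 one_pos
    obtain ⟨ρ', hρ', H''⟩ := G.cl_K hh hε
    obtain ⟨σ, s1, s2⟩ := exists_between (max_lt (max_lt hρ hρ') ha)
    simp only [max_lt_iff] at s1
    obtain ⟨B1, b1⟩ := (isCompact_closedBall (0 : ℂ) σ).exists_bound_of_continuousOn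
      (hd.continuousOn.mono (closedBall_subset_ball s2))
    obtain ⟨B2, b2⟩ := ((isCompact_closedBall (0 : ℂ) 1).diff
      (isOpen_ball (x := 0) (ε := σ))).exists_bound_of_continuousOn
      (hψ.mono fun w hw => ⟨s1.2.trans_le (not_lt.1 (mt mem_ball_zero_iff.2 hw.2)),
        mem_closedBall_zero_iff.1 hw.1⟩)
    obtain ⟨B3, b3⟩ := (isCompact_Kd G.isOpen G.zero).exists_bound_of_continuousOn
      (G.Φcont.comp (f := fun ξ : E n => (z, ξ)) (by fun_prop) fun ξ hξ => ⟨hz, hξ⟩)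
    refine ⟨max B1 (1 + B3 + B2), hd, fun w hw => ?_⟩
    rcases le_or_gt ‖w‖ σ with c1 | c1
    · exact (b1 w (mem_closedBall_zero_iff.2 c1)).trans (le_max_left _ _)
    · have c2 := mem_ball_zero_iff.1 hw
      obtain ⟨ξ, hξ, c3⟩ := H'' w ⟨s1.1.2.trans c1, c2⟩
      have c4 := (H' h Lg hh hL w ⟨s1.1.1.trans c1, c2⟩).2 ξ hξ c3 z hzZ
      have c5 := b2 w ⟨ball_subset_closedBall hw, fun c => absurd (mem_ball_zero_iff.1 c) c1.not_gt⟩
      have c6 : ‖Φ z ξ‖ ≤ B3 := b3 ξ hξ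
      refine le_trans ?_ (le_max_right _ _)
      rw [hg]
      refine (norm_sub_le _ _).trans (add_le_add ?_ c5)
      exact (norm_le_norm_sub_add _ (Φ z ξ)).trans (add_le_add c4 c6)
  have hw' := mem_ball_zero_iff.1 hw
  rw [← hB.rep h1 hw', ← PI_im (hB.int h1) hw']
  simp only [sub_im, bdy_im ha, sub_zero]

/-- Hint: `HB.exists_RL` gives `hs`; `conj (ec t) • hs t ∈ Kd D` a.e. (`cl_K`, closedness); redefine
it as `0` on the measurable null set where it is not in `Kd D`. For fixed `z ∈ Zd D δ`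
(`G.deep`, small `δ`) the function `gz h Lg z` is bounded: near the circle by `cl_K`, `lg_near` and
continuity of `Φ z ·` on the compact `Kd D`, inside by continuity. Its radial limit is
`Φ z (xs t) - log (1 - a / e) - log (1 - conj a * e)`, `a = F h z`, `e = ec t`, and
`1 - a / e = conj (1 - conj a * e)`, so the imaginary part is `Im Φ z (xs t)`
(`Complex.log_conj`, `arg_conj`). `HB.rep`, `PI_im`, `PI_congr`. -/
theorem Geo.exists_bdy (G : Geo D Φ) (hh : Adm D h) (ho : F h '' D = ball 0 1) :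
    ∃ xs Lg, Bdy D Φ h xs Lg := by
  classical
  obtain ⟨Lg, hL⟩ := G.exists_lg hh
  obtain ⟨Rh, -, hb⟩ := G.hb
  obtain ⟨hs, h1, -, h2⟩ := (hb h hh).exists_RL
  have h3 := bdy_rl h2
  have hK := isClosed_Kd G.isOpen
  have h4 : Measurable fun t => (ec t)⁻¹ • hs t :=
    ((continuous_ec.inv₀ ec_ne).stronglyMeasurable.smul h1).measurable
  have h5 : ∀ᵐ t, (ec t)⁻¹ • hs t ∈ Kd D := by
    filter_upwards [h3] with t ht
    rw [← hK.closure_eq, Metric.mem_closure_iff]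
    intro ε hε
    obtain ⟨ρ, hρ, H⟩ := G.cl_K hh (half_pos hε)
    obtain ⟨r, r1, r2⟩ := ((ev_ann hρ t).and (ht.eventually (ball_mem_nhds _ (half_pos hε)))).exists
    obtain ⟨ξ, hξ, a1⟩ := H _ r1
    refine ⟨ξ, hξ, (dist_triangle_left _ _ (xi h (r * ec t))).trans_lt ?_⟩
    rw [← dist_eq_norm] at a1
    linarith [mem_ball.1 r2]
  have h6 : ∀ t, (if (ec t)⁻¹ • hs t ∈ Kd D then (ec t)⁻¹ • hs t else 0) ∈ Kd D := fun t => by
    split_ifs with ht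
    exacts [ht, interior_subset (zero_mem_interior_Kd G.bdd)]
  refine ⟨fun t => if (ec t)⁻¹ • hs t ∈ Kd D then (ec t)⁻¹ • hs t else 0, Lg, hh, ho,
    Measurable.ite (h4 hK.measurableSet) h4 measurable_const, h6, ?_, hL,
    fun z hz w hw => G.bdy_rep hh hL h6 ?_ hz hw⟩
  · filter_upwards [h2, h5] with t a1 a2
    rwa [if_pos a2, smul_smul, mul_inv_cancel₀ (ec_ne t), one_smul]
  · filter_upwards [h3, h5] with t a1 a2
    rwa [if_pos a2]

theorem Bdy.rl_xi {xs : TT → E n} (B : Bdy D Φ h xs Lg) : RL (xi h) xs := by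
  filter_upwards [bdy_rl B.rl] with t ht
  rwa [smul_smul, inv_mul_cancel₀ (ec_ne t), one_smul] at ht

/-- measurability and integrability of the phases -/
theorem Geo.meas_phase (G : Geo D Φ) {xs : TT → E n} (hm : Measurable xs) (hK : ∀ t, xs t ∈ Kd D)
    {z : E n} (hz : z ∈ D) : Measurable fun t => (Φ z (xs t)).im := by
  have h1 : ContinuousOn (fun ξ => Φ z ξ) (Kd D) :=
    G.Φcont.comp (f := fun ξ : E n => (z, ξ)) (by fun_prop) fun ξ hξ => ⟨hz, hξ⟩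
  exact measurable_im.comp
    ((continuousOn_iff_continuous_domRestrict.1 h1).measurable.comp (hm.subtype_mk (h := hK)))

end Pool.Agent.MP_4baaa2_an.H94

/-!
Measurable selection of types.
-/

namespace Pool.Agent.MP_4baaa2_an.H94

open Set Metric Filter Topology Complex MeasureTheory
open scoped ComplexConjugate
open Pool.Agent.Lib.PlaneTop

variable {n : ℕ} {D : Set (E n)} {Φ : E n → E n → ℂ}


theorem sel_count {ι : Type*} [Countable ι] {S : ι → Set TT} (hS : ∀ i, MeasurableSet (S i))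
    (hc : ∀ t, ∃ i, t ∈ S i) : ∃ f : TT → ι, (∀ t, t ∈ S (f t)) ∧
      ∀ i, MeasurableSet {t | f t = i} := by
  classical
  have : Nonempty ι := ⟨(hc 0).choose⟩
  obtain ⟨g, hg⟩ := exists_surjective_nat ι
  have hp : ∀ t, ∃ k, t ∈ S (g k) := fun t => by
    obtain ⟨i, hi⟩ := hc t
    obtain ⟨k, rfl⟩ := hg i
    exact ⟨k, hi⟩
  have hm : Measurable fun t => Nat.find (hp t) := measurable_find hp fun k => hS (g k)
  exact ⟨fun t => g (Nat.find (hp t)), fun t => Nat.find_spec (hp t),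
    fun i => hm (MeasurableSet.of_discrete (s := {k | g k = i}))⟩

theorem sel_proj {X Y : Type*} [TopologicalSpace X] [TopologicalSpace Y] {K : Set X}
    (hK : IsCompact K) {C : Set (X × Y)} (hC : IsClosed C) :
    IsClosed {y | ∃ x ∈ K, (x, y) ∈ C} := by
  have : CompactSpace K := isCompact_iff_compactSpace.1 hK
  have h := isClosedMap_snd_of_compactSpace (X := K) (Y := Y) _
    (hC.preimage (f := fun p : K × Y => ((p.1 : X), p.2)) (by fun_prop))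
  have e : {y | ∃ x ∈ K, (x, y) ∈ C} =
      Prod.snd '' ((fun p : K × Y => ((p.1 : X), p.2)) ⁻¹' C) := by
    ext y
    constructor
    · rintro ⟨x, hx, h1⟩
      exact ⟨(⟨x, hx⟩, y), h1, rfl⟩
    · rintro ⟨⟨x, y'⟩, h1, rfl⟩
      exact ⟨x, x.2, h1⟩
  rw [e]
  exact h

theorem Geo.sel_cont (G : Geo D Φ) {z : E n} (hz : z ∈ D) :
    ContinuousOn (fun ξ => (Φ z ξ).im) (Kd D) :=
  continuous_im.comp_continuousOn (G.Φcont.comp (f := fun ξ : E n => (z, ξ)) (by fun_prop)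
    fun _ hξ => ⟨hz, hξ⟩)

theorem Geo.np_closed (G : Geo D Φ) (γ κ : ℝ) :
    IsClosed {x : E n × ℝ | x.1 ∈ Kd D ∧ NP D Φ x.1 x.2 γ κ} := by
  have hK : IsClosed {x : E n × ℝ | x.1 ∈ Kd D} := (isClosed_Kd G.isOpen).preimage continuous_fst
  refine isClosed_of_closure_subset fun x hx => ⟨hK.closure_subset_iff.2 (fun y hy => hy.1) hx,
    fun z hz => ?_⟩
  have h1 : ContinuousOn (fun y : E n × ℝ => |(Φ z y.1).im - y.2|) {x : E n × ℝ | x.1 ∈ Kd D} :=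
    (((G.sel_cont hz).comp continuousOn_fst fun _ h => h).sub continuousOn_snd).abs
  have h2 := h1.preimage_isClosed_of_isClosed hK (isClosed_Iic (a := Real.pi - γ))
  have h3 : IsClosed {y : E n × ℝ | κ ≤ ‖1 - dot z y.1‖} :=
    isClosed_le continuous_const (by fun_prop)
  have h4 := (h3.union h2).closure_subset_iff.2 (fun y (hy : y.1 ∈ Kd D ∧ NP D Φ y.1 y.2 γ κ) =>
    (le_or_gt κ ‖1 - dot z y.1‖).imp id fun h => ⟨hy.1, hy.2 z hz h⟩) hx
  intro h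
  exact (h4.resolve_left (not_le.2 h)).2

theorem Geo.sel_att (G : Geo D Φ) {κ : ℝ} (hκ : 0 < κ) (c : E n) (ρ : ℝ) {T : Set ℝ}
    (hT : IsClosed T) :
    IsClosed {ξ | ∃ z, κ ≤ dep D z ∧ ξ ∈ Kd D ∧ ‖z - c‖ ≤ ρ ∧ (Φ z ξ).im ∈ T} := by
  obtain ⟨k1, k2⟩ := isCompact_deep G.bdd G.ne_univ hκ
  have h1 : ContinuousOn (fun x : E n × E n => (Φ x.1 x.2).im) ({z | κ ≤ dep D z} ×ˢ Kd D) :=
    continuous_im.comp_continuousOn (G.Φcont.mono (prod_mono k2 subset_rfl))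
  have h2 := h1.preimage_isClosed_of_isClosed (k1.isClosed.prod (isClosed_Kd G.isOpen)) hT
  have h3 : IsClosed {x : E n × E n | ‖x.1 - c‖ ≤ ρ} := isClosed_le (by fun_prop) continuous_const
  have h4 := sel_proj k1 (h2.inter h3)
  have e : {ξ | ∃ z, κ ≤ dep D z ∧ ξ ∈ Kd D ∧ ‖z - c‖ ≤ ρ ∧ (Φ z ξ).im ∈ T} =
      {ξ | ∃ z ∈ {z | κ ≤ dep D z}, (z, ξ) ∈ (({z | κ ≤ dep D z} ×ˢ Kd D) ∩
        (fun x : E n × E n => (Φ x.1 x.2).im) ⁻¹' T) ∩ {x : E n × E n | ‖x.1 - c‖ ≤ ρ}} := by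
    ext ξ
    constructor
    · rintro ⟨z, a1, a2, a3, a4⟩
      exact ⟨z, a1, ⟨⟨a1, a2⟩, a4⟩, a3⟩
    · rintro ⟨z, a1, ⟨⟨-, a2⟩, a4⟩, a3⟩
      exact ⟨z, a1, a2, a3, a4⟩
  rw [e]
  exact h4

theorem Geo.ty_closed (G : Geo D Φ) (γ η : ℝ) (τ : Ty) : IsClosed {ξ | IsTy D Φ γ η τ ξ} := by
  refine isClosed_of_closure_subset fun ξ hξ => ?_
  obtain ⟨ξ₀, h0⟩ : {ξ | IsTy D Φ γ η τ ξ}.Nonempty := closure_nonempty_iff.1 ⟨ξ, hξ⟩
  have key : ∀ {T : Set (E n)}, IsClosed T → (∀ y, IsTy D Φ γ η τ y → y ∈ T) → ξ ∈ T :=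
    fun hT h => hT.closure_subset_iff.2 h hξ
  have hK := isClosed_Kd G.isOpen
  refine ⟨key hK fun y hy => hy.mem, h0.kpos, fun z hz h => ?_, h0.num, fun i hi z hz h => ?_,
    fun i hi => ?_, fun i hi => ?_⟩
  · exact key (T := {y | (τ.2.1 : ℝ) ≤ ‖1 - dot z y‖})
      (isClosed_le continuous_const (by fun_prop)) fun y hy => hy.off z hz h
  · exact (key ((G.sel_cont hz).preimage_isClosed_of_isClosed hK isClosed_Icc)
      fun y hy => ⟨hy.mem, hy.ph i hi z hz h⟩).2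
  · have h1 : IsClosed {x : E n × E n | ‖x.1 - cen n i‖ ≤ rad i ∧ dot x.1 x.2 = 1} :=
      IsClosed.and (isClosed_le (by fun_prop) continuous_const)
        (isClosed_eq continuous_dot continuous_const)
    exact key (sel_proj G.bdd.isCompact_closure h1) fun y hy => hy.con i hi
  · obtain ⟨z, a1, -, a2, a3⟩ := key (G.sel_att h0.kpos (cen n i) (2 * rad i)
      (isClosed_Iic (a := lo i + η))) fun y hy => by
        obtain ⟨z, z', b1, b2, b3, b4, b5, b6⟩ := hy.att i hi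
        exact ⟨z, b1, hy.mem, b3, b5⟩
    obtain ⟨z', c1, -, c2, c3⟩ := key (G.sel_att h0.kpos (cen n i) (2 * rad i)
      (isClosed_Ici (a := H94.hi i - η))) fun y hy => by
        obtain ⟨z, z', b1, b2, b3, b4, b5, b6⟩ := hy.att i hi
        exact ⟨z', b2, hy.mem, b4, b6⟩
    exact ⟨z, z', a1, c1, a2, c2, a3, c3⟩

theorem Geo.exists_sel (G : Geo D Φ) : ∃ γ A₀ : ℝ, ∀ xs : TT → E n, Measurable xs →
    (∀ t, xs t ∈ Kd D) → ∃ b₀ η τ, Sel D Φ xs γ A₀ b₀ η τ := by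
  obtain ⟨γ, hγ, hγ', A₀, H⟩ := G.npex
  refine ⟨γ, A₀, fun xs hxs hK => ?_⟩
  obtain ⟨f, f1, f2⟩ := sel_count (ι := ℚ × ℕ)
    (S := fun i => {t | |(i.1 : ℝ)| ≤ A₀} ∩ (fun t => (xs t, (i.1 : ℝ))) ⁻¹'
      {x : E n × ℝ | x.1 ∈ Kd D ∧ NP D Φ x.1 x.2 (2 * γ) (1 / ((i.2 : ℝ) + 1))})
    (fun i => (MeasurableSet.const _).inter
      ((hxs.prodMk measurable_const) (G.np_closed _ _).measurableSet))
    (fun t => by
      obtain ⟨β, k, h1, h2⟩ := H (xs t) (hK t)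
      exact ⟨(β, k), h1, hK t, h2⟩)
  have hb : Measurable fun t => ((f t).1 : ℝ) := by
    have h1 : Measurable f := measurable_to_countable' f2
    exact (measurable_of_countable fun i : ℚ × ℕ => (i.1 : ℝ)).comp h1
  have hη : ∀ j : ℕ, 0 < γ / 20 * (1 / ((j : ℝ) + 1)) ∧ γ / 20 * (1 / ((j : ℝ) + 1)) ≤ γ / 20 :=
    fun j => ⟨by positivity, mul_le_of_le_one_right (by positivity)
      (div_le_one_of_le₀ (by linarith [(Nat.cast_nonneg j : (0 : ℝ) ≤ j)]) (by positivity))⟩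
  have hτ : ∀ j : ℕ, ∃ τ : TT → Ty, (∀ t, ((τ t).1 : ℝ) = ((f t).1 : ℝ) ∧
      IsTy D Φ γ (γ / 20 * (1 / ((j : ℝ) + 1))) (τ t) (xs t)) ∧
      ∀ σ, MeasurableSet {t | τ t = σ} := fun j =>
    sel_count (ι := Ty) (S := fun σ => {t | (σ.1 : ℝ) = ((f t).1 : ℝ)} ∩
        xs ⁻¹' {ξ | IsTy D Φ γ (γ / 20 * (1 / ((j : ℝ) + 1))) σ ξ})
      (fun σ => (measurableSet_eq_fun measurable_const hb).inter
        (hxs (G.ty_closed _ _ _).measurableSet))
      (fun t => by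
        obtain ⟨τ, h1, h2⟩ := G.tyex γ hγ (xs t) (hK t) (f t).1 _ (by positivity) (f1 t).2.2 _
          ⟨(hη j).1, (hη j).2.trans (by linarith)⟩
        exact ⟨τ, congrArg _ h1, h2⟩)
  choose τ t1 t2 using hτ
  refine ⟨_, _, τ, hγ, hγ', hb, fun t => (f1 t).1, fun t => ⟨_, by positivity, (f1 t).2.2⟩, hη,
    ?_, t2, t1⟩
  simpa using tendsto_one_div_add_atTop_nhds_zero_nat.const_mul (γ / 20)

theorem act_closed (D : Set (E n)) (h : ℂ → E n) (i : Bl) : IsClosed {e | Act D h e i} := by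
  have h1 := sel_proj (isCompact_closedBall (cen n i) (3 / 2 * rad i))
    (isClosed_closure (s := (fun z => (z, F h z)) '' D))
  have e : {e | Act D h e i} = {e | ∃ q ∈ closedBall (cen n i) (3 / 2 * rad i),
      (q, e) ∈ closure ((fun z => (z, F h z)) '' D)} := by
    ext e
    refine exists_congr fun q => and_congr mem_closedBall_iff_norm.symm ?_
    rw [Metric.mem_closure_iff]
    refine forall₂_congr fun δ _ => ⟨?_, ?_⟩
    · rintro ⟨z, hz, a1, a2⟩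
      refine ⟨_, ⟨z, hz, rfl⟩, ?_⟩
      rw [Prod.dist_eq, max_lt_iff, dist_eq_norm', dist_eq_norm']
      exact ⟨a1, a2⟩
    · rintro ⟨_, ⟨z, hz, rfl⟩, a⟩
      rw [Prod.dist_eq, max_lt_iff, dist_eq_norm', dist_eq_norm'] at a
      exact ⟨z, hz, a.1, a.2⟩
  rw [e]
  exact h1

theorem sel_cos {γ η x : ℝ} (hγ : 0 < γ) (hγ' : γ ≤ 1 / 10) (hη : 0 < η) (hη' : η ≤ γ / 20)
    (hx : |x| ≤ Real.pi / 2 - (γ - η)) : γ / 2 ≤ Real.cos x := by
  have p1 := Real.pi_gt_three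
  have p2 := Real.pi_lt_d2
  rw [← Real.cos_abs]
  refine le_trans ?_ (Real.cos_le_cos_of_nonneg_of_le_pi (abs_nonneg x) (by linarith) hx)
  rw [Real.cos_pi_div_two_sub]
  refine le_trans ?_ (Real.mul_le_sin (by linarith) (by linarith))
  rw [div_mul_eq_mul_div, le_div_iff₀ (by linarith)]
  nlinarith

/-- The densities are controlled by their pairing with the hyperplane. -/
theorem Geo.sl (G : Geo D Φ) {γ : ℝ} (hγ : 0 < γ) : ∃ c₁ > 0, ∀ {xs : TT → E n} {A₀ : ℝ}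
    {b₀ : TT → ℝ} {η : ℕ → ℝ} {τ : ℕ → TT → Ty}, Sel D Φ xs γ A₀ b₀ η τ → ∀ᶠ j in atTop,
      ∀ t, ∀ ν : E n, (∀ v, Cnd (η j) (τ j t) (b₀ t) v → (ec t * dot ν v).re ≤ 0) →
        c₁ * ‖ν‖ ≤ (dot ν (ec t • xs t)).re := by
  obtain ⟨R, hR, h1⟩ := G.bdd.closure.exists_pos_norm_le
  obtain ⟨B, hB, h2⟩ := (isCompact_Kd G.isOpen G.zero).isBounded.exists_pos_norm_le
  obtain ⟨c, hc⟩ : ∃ c, c = γ / (4 * (R + 1)) := ⟨_, rfl⟩
  have hc0 : 0 < c := by rw [hc]; positivity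
  have hc1 : c * (R + 1) = γ / 4 := by rw [hc]; field_simp
  refine ⟨c, hc0, fun {xs A₀ b₀ η τ} S => ?_⟩
  filter_upwards [S.elim.eventually (gt_mem_nhds (show 0 < γ / (4 * B) by positivity))]
    with j hj t ν hν
  obtain ⟨y, y1, y2⟩ : ∃ y : E n, ‖y‖ ≤ 1 ∧ ec t * dot ν y = ‖ν‖ := by
    rcases eq_or_ne ν 0 with rfl | h0
    · exact ⟨0, by simp, by simp⟩
    have h3 : (‖ν‖ : ℂ) ≠ 0 := ofReal_ne_zero.2 (norm_ne_zero_iff.2 h0)
    have h4 : ec t ≠ 0 := norm_ne_zero_iff.1 (by rw [norm_ec]; exact one_ne_zero)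
    refine ⟨((ec t)⁻¹ * (‖ν‖ : ℂ)⁻¹) • cj ν, ?_, ?_⟩
    · rw [norm_smul, norm_mul, norm_inv, norm_inv, norm_ec, norm_cj, norm_real, norm_norm,
        inv_one, one_mul, inv_mul_cancel₀ (norm_ne_zero_iff.2 h0)]
    · rw [dot_smul_right, dot_cj_self]
      push_cast
      field_simp
  obtain ⟨ty1, ty⟩ := S.ty j t
  obtain ⟨e1, e2⟩ := S.epos j
  have g2 := S.gle
  have key := hν (c • y - xs t) fun i hi hf => by
    obtain ⟨n1, n2, n3, n4, n5, n6⟩ := ty.num i hi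
    obtain ⟨q, q1, q2, q3⟩ := ty.con i hi
    rw [ty1] at n5 n6
    have hcos : γ / 2 ≤ Real.cos (b₀ t - mid i) := by
      refine sel_cos hγ g2 e1 e2 (abs_le.2 ⟨?_, ?_⟩) <;> simp only [mid, Flat] at hf ⊢ <;> linarith
    obtain ⟨u, hu⟩ : ∃ u, u = exp ((b₀ t - mid i : ℝ) * I) := ⟨_, rfl⟩
    have u1 : ‖u‖ = 1 := by rw [hu, norm_exp_ofReal_mul_I]
    have u2 : u.re = Real.cos (b₀ t - mid i) := by rw [hu, exp_ofReal_mul_I_re]
    have a1 : ‖cen n i‖ ≤ R + 1 := by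
      have := norm_le_norm_add_norm_sub q (cen n i)
      linarith [h1 q q1]
    have a2 : (u * (c * dot (cen n i) y)).re ≤ γ / 4 := by
      refine (re_le_norm _).trans ?_
      rw [norm_mul, norm_mul, u1, one_mul, norm_real, Real.norm_of_nonneg hc0.le, ← hc1]
      refine mul_le_mul_of_nonneg_left ((norm_dot_le _ _).trans ?_) hc0.le
      exact (mul_le_of_le_one_right (norm_nonneg _) y1).trans a1
    have a3 : (u * dot (q - cen n i) (xs t)).re ≤ γ / 4 := by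
      refine (re_le_norm _).trans ?_
      rw [norm_mul, u1, one_mul]
      refine (norm_dot_le _ _).trans ((mul_le_mul (q2.trans n2) (h2 _ ty.mem) (norm_nonneg _)
        e1.le).trans ?_)
      rw [lt_div_iff₀ (by positivity)] at hj
      linarith
    rw [← hu, show u * dot (cen n i) (c • y - xs t) = u * (c * dot (cen n i) y) +
      u * dot (q - cen n i) (xs t) - u by
        rw [dot_sub_right, dot_rsmul_right, dot_sub_left, q3]; ring, sub_re, add_re]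
    linarith
  rw [dot_sub_right, dot_rsmul_right, mul_sub, mul_left_comm, y2, sub_re, ← ofReal_mul,
    ofReal_re] at key
  rw [dot_smul_right]
  linarith

theorem sel_markov {φ : TT → ℝ} (h0 : ∀ t, 0 ≤ φ t) (hi : Integrable φ) {θ m : ℝ} (hθ : 0 < θ)
    (h : ∫ t, φ t ≤ θ * m) {S : Set TT} (hS : ∀ t ∈ S, θ ≤ φ t) : volume.real S ≤ m := by
  have h1 := mul_meas_ge_le_integral_of_nonneg (Eventually.of_forall h0) hi θ
  have h2 : volume.real S ≤ volume.real {t | θ ≤ φ t} := measureReal_mono hS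
  exact h2.trans (le_of_mul_le_mul_left (h1.trans h) hθ)

/-- approximation of a measurable function by a continuous one -/
theorem cont_approx {b₀ : TT → ℝ} (hm : Measurable b₀) {A : ℝ} (hA : ∀ t, |b₀ t| ≤ A) {θ m : ℝ}
    (hθ : 0 < θ) (hm0 : 0 < m) :
    ∃ b : TT → ℝ, Continuous b ∧ volume.real {t | θ < |b t - b₀ t|} ≤ m := by
  have hi : Integrable b₀ := Integrable.of_bound hm.aestronglyMeasurable A (Eventually.of_forall hA)
  obtain ⟨g, g1, g2⟩ := hi.exists_boundedContinuous_integral_sub_le (mul_pos hθ hm0)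
  refine ⟨g, g.continuous, sel_markov (fun _ => norm_nonneg _) (hi.sub g2).norm hθ g1
    fun t ht => ?_⟩
  have : θ < |g t - b₀ t| := ht
  rw [abs_sub_comm] at this
  exact this.le

theorem RL.in_measure {V : Type*} [NormedAddCommGroup V] {f : ℂ → V} {fs : TT → V} (h : RL f fs)
    {a : ℝ} (ha : a < 1) (hc : ContinuousOn f (Ann a)) {θ m : ℝ} (hθ : 0 < θ) (hm0 : 0 < m) :
    ∀ᶠ r : ℝ in 𝓝[<] 1, volume.real {t | θ < ‖f (r * ec t) - fs t‖} ≤ m := by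
  have h0 : ∀ x : V, 0 ≤ min θ ‖x‖ := fun x => le_min hθ.le (norm_nonneg x)
  have hb : ∀ x : V, ‖min θ ‖x‖‖ ≤ θ := fun x => by
    rw [Real.norm_of_nonneg (h0 x)]
    exact min_le_left _ _
  have hs : ∀ᶠ r : ℝ in 𝓝[<] 1,
      AEStronglyMeasurable (fun t => min θ ‖f (r * ec t) - fs t‖) volume := by
    filter_upwards [ha4_ev ha] with r hr
    exact (continuous_const.min continuous_id).comp_aestronglyMeasurable
      ((ha4_cont hc hr).aestronglyMeasurable.sub (h.aesm ha hc)).norm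
  have hT : Tendsto (fun r : ℝ => ∫ t, min θ ‖f (r * ec t) - fs t‖) (𝓝[<] 1)
      (𝓝 (∫ _ : TT, (0 : ℝ))) := by
    refine tendsto_integral_filter_of_dominated_convergence (fun _ => θ) hs
      (Eventually.of_forall fun r => Eventually.of_forall fun t => hb _) (integrable_const _) ?_
    filter_upwards [h] with t ht
    have := (tendsto_const_nhds (x := θ)).min (tendsto_iff_norm_sub_tendsto_zero.1 ht)
    rwa [min_eq_right hθ.le] at this
  rw [integral_zero] at hT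
  filter_upwards [hs, hT.eventually (ge_mem_nhds (mul_pos hθ hm0))] with r h1 h2
  exact sel_markov (fun _ => h0 _) (Integrable.of_bound h1 θ (Eventually.of_forall fun _ => hb _))
    hθ h2 fun t ht => le_min le_rfl (le_of_lt ht)

end Pool.Agent.MP_4baaa2_an.H94

/-!
The primal maps in terms of the normalised density.
-/

namespace Pool.Agent.MP_4baaa2_an.H94

open Set Metric Filter Topology Complex MeasureTheory
open scoped ComplexConjugate
open Pool.Agent.Lib.PlaneTop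

variable {n : ℕ} {D : Set (E n)} {Φ : E n → E n → ℂ}

variable {h m : ℂ → E n} {xs : TT → E n} {Lg : E n → ℂ → ℂ} {γ A₀ : ℝ} {b₀ : TT → ℝ} {η : ℕ → ℝ}
  {τ : ℕ → TT → Ty} {P : Par} {ε : ℝ} {p : E n} {a a' c K : ℝ} {ν : ℕ → TT → E n}
  {𝒰 : Ultrafilter ℕ}


theorem ypb_scale {k : ℂ} (hk : k ≠ 0) (w : ℂ) (N x : E n) :
    (w / dot (k • N) x) • (k • N) = (w / dot N x) • N := by
  rw [dot_smul_left, smul_smul]
  congr 1
  rw [mul_comm k, ← div_div, div_mul_cancel₀ _ hk]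

theorem ypb_sc_diff (ζ : ℂ) (hb : Integrable b₀) :
    DifferentiableOn ℂ (fun w => (1 - conj ζ * w) * ka b₀ w) (ball 0 1) :=
  DifferentiableOn.mul (by fun_prop) (ka_diff hb)

theorem ypb_quot {N : E n} {Y : ℂ} (hc : 0 < c) (h0 : 0 < Y.re) (h1 : c * ‖N‖ ≤ Y.re) :
    ‖N‖ / ‖Y‖ ≤ 1 / c := by
  have := re_le_norm Y
  rw [div_le_div_iff₀ (by linarith) hc]
  linarith

theorem scal_ne {ζ w : ℂ} (hζ : ‖ζ‖ < 1) (hw : ‖w‖ < 1) (b₀ : TT → ℝ) :
    (1 - conj ζ * w) * ka b₀ w ≠ 0 := by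
  refine mul_ne_zero (fun h => ?_) (exp_ne_zero _)
  have h1 : ‖conj ζ * w‖ = 1 := by rw [← sub_eq_zero.1 h, norm_one]
  rw [norm_mul, norm_conj] at h1
  nlinarith [norm_nonneg ζ, norm_nonneg w]

theorem Nv_diff (hd : DifferentiableOn ℂ h (ball 0 1)) (hm' : DifferentiableOn ℂ m (ball 0 1))
    (hb : Integrable b₀) : DifferentiableOn ℂ (Nv P ε p h m b₀) (Ann (P.r ^ 2)) := by
  exact ((ypb_sc_diff (F h p) hb).mono fun w hw => mem_ball_zero_iff.2 hw.2).smul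
    (nt_diff P ε p hd hm')

theorem Np_diff (hm' : DifferentiableOn ℂ m (ball 0 1)) (hb : Integrable b₀) :
    DifferentiableOn ℂ (Np p h m b₀) (ball 0 1) := by
  exact (ypb_sc_diff (F h p) hb).smul (np_diff hm')

theorem ff_eq (hζ : ‖F h p‖ < 1) {w : ℂ} (hw : ‖w‖ < 1) :
    ff P ε p h m w = (w / dot (Nv P ε p h m b₀ w) (h w)) • Nv P ε p h m b₀ w := by
  exact (ypb_scale (scal_ne hζ hw b₀) w _ _).symm

theorem fp_eq (hζ : ‖F h p‖ < 1) {w : ℂ} (hw : ‖w‖ < 1) :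
    fp p h m w = (w / dot (Np p h m b₀ w) (h w)) • Np p h m b₀ w := by
  exact (ypb_scale (scal_ne hζ hw b₀) w _ _).symm

theorem Yp.pos (Y : Yp P ε p h m b₀ c a a') (hc : 0 < c) {w : ℂ} (hw : w ∈ Ann a) :
    0 < (dot (Nv P ε p h m b₀ w) (h w)).re ∧ dot (nt P ε p h m w) (h w) ≠ 0 := by
  have h1 : 0 < (dot (Nv P ε p h m b₀ w) (h w)).re :=
    (mul_pos hc (sub_pos.2 hw.2)).trans_le (Y.low w hw)
  refine ⟨h1, fun h0 => ?_⟩
  rw [Nv, dot_smul_left, h0, mul_zero, zero_re] at h1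
  exact h1.false

theorem Yp.posp (Y : Yp P ε p h m b₀ c a a') (hc : 0 < c) {w : ℂ} (hw : w ∈ ball (0 : ℂ) a') :
    dot (np p h m w) (h w) ≠ 0 := by
  intro h0
  have h1 := hc.trans_le (Y.lowp w hw)
  rw [Np, dot_smul_left, h0, mul_zero, zero_re] at h1
  exact h1.false

theorem Yp.ff_le (Y : Yp P ε p h m b₀ c a a') (hc : 0 < c) (hζ : ‖F h p‖ < 1) {w : ℂ}
    (hw : w ∈ Ann a) : ‖ff P ε p h m w‖ ≤ 1 / c := by
  rw [ff_eq (b₀ := b₀) hζ hw.2, norm_smul, norm_div, div_mul_eq_mul_div, mul_div_assoc]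
  exact (mul_le_of_le_one_left (by positivity) hw.2.le).trans
    (ypb_quot hc (Y.pos hc hw).1 (Y.nrm w hw))

theorem Yp.ff_diff (Y : Yp P ε p h m b₀ c a a') (hc : 0 < c) (ha : P.r ^ 2 ≤ a)
    (hd : DifferentiableOn ℂ h (ball 0 1)) (hm' : DifferentiableOn ℂ m (ball 0 1)) :
    DifferentiableOn ℂ (ff P ε p h m) (Ann a) := by
  have h1 := (nt_diff P ε p hd hm').mono (s := Ann a) fun w hw => ⟨ha.trans_lt hw.1, hw.2⟩
  have h2 := hd.mono (s := Ann a) fun w hw => mem_ball_zero_iff.2 hw.2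
  exact (differentiableOn_id.div (diffOn_dot h1 h2) fun w hw => (Y.pos hc hw).2).smul h1

theorem Yp.fp_diff (Y : Yp P ε p h m b₀ c a a') (hc : 0 < c) (ha : a' ≤ 1)
    (hd : DifferentiableOn ℂ h (ball 0 1)) (hm' : DifferentiableOn ℂ m (ball 0 1)) :
    DifferentiableOn ℂ (fp p h m) (ball 0 a') := by
  have h1 := (np_diff (p := p) (h := h) hm').mono (ball_subset_ball ha)
  have h2 := hd.mono (ball_subset_ball ha)
  exact (differentiableOn_id.div (diffOn_dot h1 h2) fun w hw => Y.posp hc hw).smul h1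

/-- Hint: `kap_le`, `ka_bound`. -/
theorem Np_sub_Nv (P : Par) (A Rh : ℝ) {ρ : ℝ} (hρ : ρ < 1) : ∃ K₂ > 0, ∀ {ε : ℝ} {p : E n}
    {h m : ℂ → E n} {b₀ : TT → ℝ}, 0 ≤ ε → HB h Rh → ‖F h p‖ < 1 → Measurable b₀ →
      (∀ t, |b₀ t| ≤ A) → ∀ w : ℂ, P.r ^ 2 < ‖w‖ → ‖w‖ ≤ ρ →
        ‖Np p h m b₀ w - Nv P ε p h m b₀ w‖ ≤ ε * K₂ := by
  have hr : 0 < P.r := P.hs.trans P.hsr
  have hΛ := P.hΛ
  refine ⟨2 * Real.exp (2 * A / (1 - ρ)) * (2 / P.r ^ 2 * (2 * (P.Λ + 1) * |Rh|)) + 1,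
    by positivity, ?_⟩
  intro ε p h m b₀ hε hb hζ hme hA w h1 h2
  have hw1 : ‖w‖ < 1 := h2.trans_lt hρ
  have hw0 : 0 < ‖w‖ := (sq_nonneg _).trans_lt h1
  have hA0 : 0 ≤ A := (abs_nonneg _).trans (hA 0)
  have k1 : ‖1 - conj (F h p) * w‖ ≤ 2 := by
    refine (norm_sub_le _ _).trans ?_
    rw [norm_one, norm_mul, norm_conj]
    nlinarith [norm_nonneg (F h p)]
  have k2 : ‖ka b₀ w‖ ≤ Real.exp (2 * A / (1 - ρ)) :=
    (ka_bound hme hA hw1).2.trans (Real.exp_le_exp.2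
      (div_le_div_of_nonneg_left (by positivity) (by linarith) (by linarith)))
  have k3 : ‖w - F h p‖ ≤ 2 := (norm_sub_le _ _).trans (by linarith)
  have k4 : ‖kap P h w‖ ≤ ‖w‖ * (2 * (P.Λ + 1) * |Rh|) :=
    (kap_le P (fun ω hω => (hb.bd ω hω).trans (le_abs_self Rh)) h1).trans_eq (by ring)
  have k5 : ‖w - F h p‖ / ‖w‖ ^ 2 * ‖kap P h w‖ ≤ 2 / P.r ^ 2 * (2 * (P.Λ + 1) * |Rh|) := by
    refine (mul_le_mul_of_nonneg_left k4 (by positivity)).trans ?_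
    rw [← mul_assoc]
    refine mul_le_mul_of_nonneg_right ?_ (by positivity)
    rw [sq, ← div_div, div_mul_cancel₀ _ hw0.ne']
    exact div_le_div₀ (by norm_num) k3 (by positivity) h1.le
  rw [Np, Nv, ← smul_sub, nt, sub_sub_cancel, norm_smul, norm_smul, norm_mul, norm_div, norm_mul,
    norm_pow, Complex.norm_real, Real.norm_of_nonneg hε, mul_div_assoc, mul_assoc ε,
    mul_left_comm]
  refine mul_le_mul_of_nonneg_left (le_add_of_le_of_nonneg ?_ zero_le_one) hε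
  exact mul_le_mul (mul_le_mul k1 k2 (norm_nonneg _) (by norm_num)) k5 (by positivity)
    (by positivity)

/-- Hint: with `N, N'` the two densities and `Y, Y'` their pairings with `h w`:
`N / Y - N' / Y' = (N / Y) (Y' - Y) / Y' - (N' - N) / Y'`. -/
theorem ff_sub_fp (P : Par) (A Rh : ℝ) {c a' : ℝ} (hc : 0 < c) (ha' : a' < 1) : ∃ K₃ > 0,
    ∀ {ε a : ℝ} {p : E n} {h m : ℂ → E n} {b₀ : TT → ℝ}, 0 ≤ ε → P.r ^ 2 ≤ a → HB h Rh →
      ‖F h p‖ < 1 → Measurable b₀ → (∀ t, |b₀ t| ≤ A) → Yp P ε p h m b₀ c a a' →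
      ∀ w ∈ Ann a, ‖w‖ < a' → ‖ff P ε p h m w - fp p h m w‖ ≤ ε * K₃ := by
  obtain ⟨K₂, hK, H⟩ := Np_sub_Nv (n := n) P A Rh ha'
  refine ⟨1 / c * (K₂ * |Rh| / c) + K₂ / c, by positivity, ?_⟩
  intro ε a p h m b₀ hε ha hb hζ hme hA Y w hw hw'
  have h1 := H (m := m) hε hb hζ hme hA w (ha.trans_lt hw.1) hw'.le
  have hwb : w ∈ ball (0 : ℂ) a' := mem_ball_zero_iff.2 hw'
  have p1 := (Y.pos hc hw).1
  have p2 := ypb_quot hc p1 (Y.nrm w hw)
  have p3 := Y.lowp w hwb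
  have hh : ‖h w‖ ≤ |Rh| := (hb.bd w (mem_ball_zero_iff.2 hw.2)).trans (le_abs_self Rh)
  rw [ff_eq (b₀ := b₀) hζ hw.2, fp_eq (b₀ := b₀) hζ hw.2]
  generalize Nv P ε p h m b₀ w = N at *
  generalize Np p h m b₀ w = N' at *
  have h2 : ‖dot N' (h w) - dot N (h w)‖ ≤ ε * K₂ * |Rh| := by
    rw [← dot_sub_left]
    exact (norm_dot_le _ _).trans (mul_le_mul h1 hh (norm_nonneg _) (by positivity))
  generalize dot N (h w) = y at *
  generalize dot N' (h w) = y' at *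
  have y0 : y ≠ 0 := fun e => by simp [e] at p1
  have yc : c ≤ ‖y'‖ := p3.trans (re_le_norm _)
  have y1 : y' ≠ 0 := norm_pos_iff.1 (hc.trans_le yc)
  have e : (w / y) • N - (w / y') • N' =
      w • ((y⁻¹ * ((y' - y) / y')) • N - y'⁻¹ • (N' - N)) := by
    have : y⁻¹ * ((y' - y) / y') = y⁻¹ - y'⁻¹ := by field_simp
    rw [this, div_eq_mul_inv, div_eq_mul_inv]
    module
  rw [e, norm_smul]
  refine (mul_le_of_le_one_left (norm_nonneg _) hw.2.le).trans ((norm_sub_le _ _).trans ?_)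
  rw [norm_smul, norm_smul, norm_mul, norm_inv, norm_inv, norm_div, mul_right_comm,
    ← div_eq_inv_mul, ← div_eq_inv_mul]
  have q1 : ‖y' - y‖ / ‖y'‖ ≤ ε * K₂ * |Rh| / c := div_le_div₀ (by positivity) h2 hc yc
  have q2 : ‖N' - N‖ / ‖y'‖ ≤ ε * K₂ / c := div_le_div₀ (by positivity) h1 hc yc
  refine (add_le_add (mul_le_mul p2 q1 (by positivity) (by positivity)) q2).trans_eq ?_
  ring

end Pool.Agent.MP_4baaa2_an.H94

/-!
Phases at rotated points.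
-/

namespace Pool.Agent.MP_4baaa2_an.H94

open Set Metric Filter Topology Complex MeasureTheory
open scoped ComplexConjugate
open Pool.Agent.Lib.PlaneTop

variable {n : ℕ} {D : Set (E n)} {Φ : E n → E n → ℂ}

theorem n1a_lt (t : TT) : ∀ᶠ r : ℝ in 𝓝[<] 1, ‖(r : ℂ) * ec t‖ < 1 := by
  filter_upwards [Ioo_mem_nhdsLT (zero_lt_one' ℝ)] with r hr
  rw [norm_mul, norm_ec, mul_one, Complex.norm_real, Real.norm_of_nonneg hr.1.le]
  exact hr.2

theorem n1a_meas {xs : TT → E n} (hm' : Measurable xs) (δ : ℝ) (x : E n) :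
    MeasurableSet {s | δ ≤ ‖xs s - x‖} :=
  hm' (isClosed_le (f := fun _ : E n => δ) (g := fun y => ‖y - x‖) continuous_const
    (by fun_prop)).measurableSet

theorem xs_conc {xs : TT → E n} (hm' : Measurable xs) : ∀ᵐ t, ∀ δ > 0, ∀ c > 0,
    ∀ᶠ r : ℝ in 𝓝[<] 1, hm {s | δ ≤ ‖xs s - xs t‖} (r * ec t) ≤ c := by
  filter_upwards [ae_all_iff.2 fun k : ℕ => ae_all_iff.2 fun j : ℕ =>
    fatou_hm (n1a_meas hm' (1 / ((j : ℝ) + 1)) (ds n k))] with t ht δ hδ c hc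
  obtain ⟨j, hj⟩ := exists_nat_one_div_lt (half_pos hδ)
  obtain ⟨k, hk⟩ := (TopologicalSpace.denseRange_denseSeq (E n)).exists_dist_lt (xs t)
    (Nat.one_div_pos_of_nat (α := ℝ) (n := j))
  have hk' : ‖xs t - ds n k‖ < 1 / ((j : ℝ) + 1) := by rwa [dist_eq_norm] at hk
  filter_upwards [(radial_tendsto (norm_ec t) le_rfl).eventually
    (ht k j (not_le.2 hk') 1 c hc), n1a_lt t] with r h1 h2
  refine (hm_mono (n1a_meas hm' _ _) (n1a_meas hm' _ _) (fun s hs => ?_) h2).trans h1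
  have a1 : δ ≤ ‖xs s - xs t‖ := hs
  have a2 := norm_sub_le (xs s - ds n k) (xs t - ds n k)
  rw [sub_sub_sub_cancel_right] at a2
  change 1 / ((j : ℝ) + 1) ≤ ‖xs s - ds n k‖
  linarith

theorem Geo.n1a_one (G : Geo D Φ) {xs : TT → E n} (hm' : Measurable xs) (hK : ∀ t, xs t ∈ Kd D)
    {f : ℝ → E n} {q ξ : E n} {σ : ℝ} (hf : ∀ᶠ r in 𝓝[<] (1 : ℝ), f r ∈ D)
    (hq : Tendsto f (𝓝[<] 1) (𝓝 q)) (hT : Tru D Φ q ξ σ) {ε : ℝ} (hε : 0 < ε) :
    ∃ δ > 0, ∀ t, (∀ δ > 0, ∀ c > 0,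
      ∀ᶠ r : ℝ in 𝓝[<] 1, hm {s | δ ≤ ‖xs s - xs t‖} (r * ec t) ≤ c) → dist (xs t) ξ < δ →
      ∀ᶠ r : ℝ in 𝓝[<] 1,
        PI (fun s => (Φ (f r) (xs s)).im) (r * ec t) ≤ σ + Real.pi / 2 + ε ∧
          σ - Real.pi / 2 - ε ≤ PI (fun s => (Φ (f r) (xs s)).im) (r * ec t) := by
  obtain ⟨A, hA⟩ := G.Φbdd
  obtain ⟨δ, hδ, hb⟩ := Metric.mem_nhdsWithin_iff.1 (hT.2.2.2 _ (half_pos hε))
  have hA' : 0 < |A| + |σ| + 1 := by positivity
  refine ⟨δ / 2, half_pos hδ, fun t ht hx => ?_⟩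
  filter_upwards [hf, hq.eventually (ball_mem_nhds q hδ), n1a_lt t,
    ht _ (half_pos hδ) _ (div_pos (half_pos hε) hA')] with r h1 h2 h3 h4
  have hi : Integrable fun s => (Φ (f r) (xs s)).im :=
    Integrable.of_bound (G.meas_phase hm' hK h1).aestronglyMeasurable A
      (Eventually.of_forall fun s => hA _ h1 _ (hK s))
  have hg : ∀ s ∉ {s | δ / 2 ≤ ‖xs s - xs t‖},
      |(Φ (f r) (xs s)).im - σ| ≤ Real.pi / 2 + ε / 2 := fun s hs => by
    refine hb (a := (f r, xs s)) ⟨?_, h1, hK s⟩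
    rw [mem_ball, Prod.dist_eq, max_lt_iff]
    refine ⟨h2, (dist_triangle _ (xs t) _).trans_lt ?_⟩
    have : ‖xs s - xs t‖ < δ / 2 := not_le.1 hs
    rw [dist_eq_norm]
    linarith
  have hbd : ∀ s, |(Φ (f r) (xs s)).im| ≤ |A| := fun s =>
    (hA _ h1 _ (hK s)).trans (le_abs_self A)
  have hπ := Real.pi_pos
  have b1 := PI_split hi (n1a_meas hm' (δ / 2) (xs t)) (b := σ + Real.pi / 2 + ε / 2)
    (A := |A| + |σ| + 1) (Eventually.of_forall fun s => by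
      linarith [(abs_le.1 (hbd s)).2, neg_abs_le σ])
    (Eventually.of_forall fun s hs => by linarith [(abs_le.1 (hg s hs)).2]) h3
  have b2 := PI_split (f := fun s => -(Φ (f r) (xs s)).im) hi.neg (n1a_meas hm' (δ / 2) (xs t))
    (b := -σ + Real.pi / 2 + ε / 2) (A := |A| + |σ| + 1) (Eventually.of_forall fun s => by
      linarith [(abs_le.1 (hbd s)).1, le_abs_self σ])
    (Eventually.of_forall fun s hs => by linarith [(abs_le.1 (hg s hs)).1]) h3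
  rw [PI_neg] at b2
  rw [le_div_iff₀' hA'] at h4
  constructor <;> linarith

theorem Geo.tru_pi (G : Geo D Φ) {xs : TT → E n} (hm' : Measurable xs) (hK : ∀ t, xs t ∈ Kd D) :
    ∃ θ : ℕ → ℝ, (∀ k, 0 < θ k ∧ θ k < 1 / 2) ∧ Tendsto θ atTop (𝓝 0) ∧
      ∀ᵐ t, ∀ (f : ℝ → E n) (q : E n) (σ : ℝ), (∀ᶠ r in 𝓝[<] (1 : ℝ), f r ∈ D) →
        Tendsto f (𝓝[<] 1) (𝓝 q) → Tru D Φ q (xs t) σ → ∀ ε > 0, ∀ᶠ k in atTop,
          ∀ᶠ r : ℝ in 𝓝[<] 1,
            PI (fun s => (Φ (f r) (xs s)).im) (r * ec (t + (θ k : ℝ))) ≤ σ + Real.pi / 2 + ε ∧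
            σ - Real.pi / 2 - ε ≤ PI (fun s => (Φ (f r) (xs s)).im) (r * ec (t - (θ k : ℝ))) := by
  obtain ⟨R, hR⟩ := (isCompact_Kd G.isOpen G.zero).isBounded.exists_norm_le
  obtain ⟨θ, h1, h2, h3⟩ := exists_shift (Integrable.of_bound (μ := volume)
    hm'.aestronglyMeasurable R (Eventually.of_forall fun t => hR _ (hK t)))
  refine ⟨θ, h1, h2, ?_⟩
  filter_upwards [h3, ae_all_iff.2 fun k : ℕ =>
    (measurePreserving_add_right volume ((θ k : ℝ) : TT)).quasiMeasurePreserving.ae (xs_conc hm'),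
    ae_all_iff.2 fun k : ℕ =>
    (measurePreserving_sub_right volume ((θ k : ℝ) : TT)).quasiMeasurePreserving.ae (xs_conc hm')]
    with t a1 a2 a3 f q σ hf hq hT ε hε
  obtain ⟨δ, hδ, H⟩ := G.n1a_one hm' hK hf hq hT hε
  filter_upwards [a1.1.eventually (ball_mem_nhds _ hδ), a1.2.eventually (ball_mem_nhds _ hδ)]
    with k b1 b2
  filter_upwards [H _ (a2 k) b1, H _ (a3 k) b2] with r c1 c2
  exact ⟨c1.1, c2.2⟩

theorem n1a_rot {e : ℂ} {ρ y : ℝ} (hρ : 0 < ρ) (h1 : -Real.pi < y) (h2 : y < Real.pi)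
    (he : 1 - e = ρ * (cos y + sin y * I)) :
    Tendsto (fun r : ℝ => (log (1 - (r : ℂ) ^ 2 * e)).im) (𝓝[<] 1) (𝓝 y) := by
  have ha : arg (1 - e) = y := by
    rw [he]
    exact arg_mul_cos_add_sin_mul_I hρ ⟨h1, h2.le⟩
  have hs : 1 - e ∈ slitPlane := by
    refine mem_slitPlane_iff_arg.2 ⟨ha ▸ h2.ne, ?_⟩
    rw [he, ← exp_mul_I]
    exact mul_ne_zero (ofReal_ne_zero.2 hρ.ne') (exp_ne_zero _)
  have hc : ContinuousAt (fun r : ℝ => log (1 - (r : ℂ) ^ 2 * e)) 1 :=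
    ContinuousAt.clog (by fun_prop) (by simpa using hs)
  have := ((continuous_im.tendsto _).comp hc.tendsto).mono_left (nhdsWithin_le_nhds (s := Iio 1))
  simpa [Function.comp_def, log_im, ha] using this

theorem arg_rot {θ : ℝ} (h0 : 0 < θ) (h1 : θ < 1 / 2) :
    Tendsto (fun r : ℝ => (log (1 - (r : ℂ) ^ 2 * ec (θ : ℝ))).im) (𝓝[<] 1)
      (𝓝 (Real.pi * θ - Real.pi / 2)) ∧
    Tendsto (fun r : ℝ => (log (1 - (r : ℂ) ^ 2 * ec (-(θ : ℝ) : TT))).im) (𝓝[<] 1)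
      (𝓝 (Real.pi / 2 - Real.pi * θ)) := by
  have hπ := Real.pi_pos
  have a1 : 0 < Real.pi * θ := mul_pos hπ h0
  have a2 : Real.pi * θ < Real.pi / 2 := by nlinarith
  have hs : 0 < 2 * Real.sin (Real.pi * θ) :=
    mul_pos two_pos (Real.sin_pos_of_pos_of_lt_pi a1 (by linarith))
  have h3 := Real.sin_sq_add_cos_sq (Real.pi * θ)
  constructor
  · refine n1a_rot hs (by linarith) (by linarith) ?_
    rw [ec_coe, exp_mul_I, ← ofReal_cos, ← ofReal_sin, ← ofReal_cos, ← ofReal_sin,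
      Real.cos_sub_pi_div_two, Real.sin_sub_pi_div_two, mul_assoc, Real.cos_two_mul,
      Real.sin_two_mul]
    have h4 := congrArg ofReal h3
    rw [ofReal_add, ofReal_pow, ofReal_pow, ofReal_one] at h4
    simp only [ofReal_sub, ofReal_mul, ofReal_pow, ofReal_neg, ofReal_one, ofReal_ofNat]
    linear_combination (-2) * h4
  · refine n1a_rot hs (by linarith) (by linarith) ?_
    rw [← AddCircle.coe_neg, ec_coe, exp_mul_I, ← ofReal_cos, ← ofReal_sin, ← ofReal_cos,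
      ← ofReal_sin, Real.cos_pi_div_two_sub, Real.sin_pi_div_two_sub, mul_neg, Real.cos_neg,
      Real.sin_neg, mul_assoc, Real.cos_two_mul, Real.sin_two_mul]
    have h4 := congrArg ofReal h3
    rw [ofReal_add, ofReal_pow, ofReal_pow, ofReal_one] at h4
    simp only [ofReal_sub, ofReal_mul, ofReal_pow, ofReal_neg, ofReal_one, ofReal_ofNat]
    linear_combination (-2) * h4

/-- the two elementary factors cancel on the circle -/
theorem log_cancel {ζ : ℂ} (hζ : ‖ζ‖ < 1) (t : TT) :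
    Tendsto (fun r : ℝ => (log (1 - conj ζ * (r * ec t)) + log (1 - ζ / (r * ec t))).im) (𝓝[<] 1)
      (𝓝 0) := by
  have s1 : 1 - conj ζ * ec t ∈ slitPlane := by
    rw [sub_eq_add_neg]
    exact mem_slitPlane_of_norm_lt_one (by simpa using hζ)
  have s2 : 1 - ζ / ec t ∈ slitPlane := by
    rw [sub_eq_add_neg]
    exact mem_slitPlane_of_norm_lt_one (by simpa using hζ)
  have c1 : ContinuousAt (fun r : ℝ => log (1 - conj ζ * (r * ec t))) 1 :=
    ContinuousAt.clog (by fun_prop) (by simpa using s1)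
  have c2 : ContinuousAt (fun r : ℝ => log (1 - ζ / (r * ec t))) 1 :=
    ContinuousAt.clog (continuousAt_const.sub (continuousAt_const.div (by fun_prop)
      (by simpa using ec_ne t))) (by simpa using s2)
  have := ((continuous_im.tendsto _).comp (c1.add c2).tendsto).mono_left
    (nhdsWithin_le_nhds (s := Iio 1))
  have e : 1 - ζ / ec t = conj (1 - conj ζ * ec t) := by
    rw [map_sub, map_one, map_mul, conj_conj, conj_ec, div_eq_mul_inv]
  have e2 : (log (1 - conj ζ * ec t) + log (1 - ζ / ec t)).im = 0 := by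
    rw [e, log_conj _ (slitPlane_arg_ne_pi s1)]
    simp
  simp only [Pi.add_apply, ofReal_one, one_mul, e2] at this
  exact this

end Pool.Agent.MP_4baaa2_an.H94
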