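import Pool.Agent.MP_4baaa2_an.Mg.H94_GeoA
import Pool.Agent.MP_4baaa2_an.Mg.H94_Top

-- part MP_4baaa2_an.H94.GeoD
section

/-!
Uniform cones, the deep part of the domain.
-/

namespace Pool.Agent.MP_4baaa2_an.H94

open Set Metric Filter Topology Complex
open scoped ComplexConjugate
open Pool.Agent.Lib.PlaneTop

variable {n : ℕ} {D : Set (E n)} {Φ : E n → E n → ℂ}

/-- Uniform inward directions. -/
theorem Hyp.ht_unif (H : Hyp D) : ∃ r > 0, ∃ N > 0, ∀ z ∈ D, dep D z ≤ r → ∃ d : E n, ‖d‖ ≤ N ∧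
    ∀ y ∈ closure D, ‖y - z‖ < r → ∀ d', ‖d' - d‖ < r → ∀ t ∈ Ioo (0 : ℝ) r, y + t • d' ∈ D := by
  have key : ∃ r > 0, ∃ N > 0, ∀ q ∈ frontier D, ∃ d : E n, ‖d‖ ≤ N ∧
      ∀ y ∈ closure D, ‖y - q‖ < r → ∀ d', ‖d' - d‖ < r → ∀ t ∈ Ioo (0 : ℝ) r,
        y + t • d' ∈ D := by
    refine (H.bdd.isCompact_closure.of_isClosed_subset isClosed_frontier
      frontier_subset_closure).induction_on (p := fun S => ∃ r > 0, ∃ N > 0, ∀ q ∈ S, ∃ d : E n,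
        ‖d‖ ≤ N ∧ ∀ y ∈ closure D, ‖y - q‖ < r → ∀ d', ‖d' - d‖ < r → ∀ t ∈ Ioo (0 : ℝ) r,
          y + t • d' ∈ D) ⟨1, one_pos, 1, one_pos, by simp⟩ ?_ ?_ ?_
    · rintro S T hST ⟨c, hc, t₀, ht₀, h⟩
      exact ⟨c, hc, t₀, ht₀, fun q hq => h q (hST hq)⟩
    · rintro S T ⟨r, hr, N, hN, h⟩ ⟨r', hr', N', hN', h'⟩
      refine ⟨min r r', lt_min hr hr', max N N', lt_max_of_lt_left hN, fun q hq => ?_⟩
      rcases hq with hq | hq
      · obtain ⟨d, h1, h2⟩ := h q hq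
        exact ⟨d, h1.trans (le_max_left _ _), fun y hy a d' b t ht => h2 y hy
          (a.trans_le (min_le_left _ _)) d' (b.trans_le (min_le_left _ _)) t
          ⟨ht.1, ht.2.trans_le (min_le_left _ _)⟩⟩
      · obtain ⟨d, h1, h2⟩ := h' q hq
        exact ⟨d, h1.trans (le_max_right _ _), fun y hy a d' b t ht => h2 y hy
          (a.trans_le (min_le_right _ _)) d' (b.trans_le (min_le_right _ _)) t
          ⟨ht.1, ht.2.trans_le (min_le_right _ _)⟩⟩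
    · intro x hx
      obtain ⟨d, r, hr, h⟩ := H.exists_ht hx
      refine ⟨ball x (r / 2), mem_nhdsWithin_of_mem_nhds (ball_mem_nhds x (half_pos hr)),
        r / 2, half_pos hr, ‖d‖ + 1, by positivity, fun q hq => ⟨d, by linarith,
          fun y hy a d' b t ht => h y hy ?_ d' (by linarith) t ⟨ht.1, by linarith [ht.2]⟩⟩⟩
      have h1 := norm_sub_le_norm_sub_add_norm_sub y q x
      rw [mem_ball, dist_eq_norm] at hq
      linarith
  obtain ⟨r, hr, N, hN, h⟩ := key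
  refine ⟨r / 2, half_pos hr, N, hN, fun z hz hd => ?_⟩
  obtain ⟨q, hq, h1⟩ := exists_frontier_near H.isOpen H.ne_univ hz
  obtain ⟨d, h2, h3⟩ := h q hq
  refine ⟨d, h2, fun y hy a d' b t ht => h3 y hy ?_ d' (by linarith) t ⟨ht.1, by linarith [ht.2]⟩⟩
  have h4 := norm_sub_le_norm_sub_add_norm_sub y z q
  rw [norm_sub_rev z q] at h4
  linarith

theorem Hyp.cone2 (H : Hyp D) : ∃ c > 0, ∃ t₀ > 0, ∀ z ∈ D, dep D z ≤ t₀ → ∃ e : E n, ‖e‖ ≤ 1 ∧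
    ∀ t ∈ Icc (0 : ℝ) t₀, dep D z + c * t ≤ dep D (z + t • e) := by
  obtain ⟨r, hr, N, hN, h⟩ := H.ht_unif
  have hN1 : 0 < N + 1 := by positivity
  refine ⟨r / (N + 1), by positivity, r, hr, fun z hz hd => ?_⟩
  obtain ⟨d, h1, h2⟩ := h z hz hd
  refine ⟨(N + 1)⁻¹ • d, ?_, fun t ht => ?_⟩
  · rw [norm_smul, Real.norm_of_nonneg (by positivity), inv_mul_le_iff₀ hN1]
    linarith
  rcases ht.1.eq_or_lt with rfl | ht0
  · simp
  have hp := (dep_pos_iff H.isOpen H.ne_univ).2 hz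
  obtain ⟨s, hs⟩ : ∃ s, t * (N + 1)⁻¹ = s := ⟨_, rfl⟩
  have hs0 : 0 < s := by rw [← hs]; positivity
  have hs1 : s < r := by
    rw [← hs, ← div_eq_mul_inv, div_lt_iff₀ hN1]
    nlinarith [ht.2]
  rw [smul_smul, hs, show r / (N + 1) * t = s * r by rw [← hs]; ring]
  refine le_dep_of_ball H.ne_univ fun w hw => ?_
  obtain ⟨u, rfl⟩ : ∃ u, w = z + s • d + u := ⟨w - (z + s • d), by abel⟩
  rw [mem_ball, dist_eq_norm, add_sub_cancel_left] at hw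
  have hq : 0 < dep D z + s * r := by positivity
  have hu : ∀ a : ℝ, 0 < a → ‖(a / (dep D z + s * r)) • u‖ < a := fun a ha => by
    rw [norm_smul, Real.norm_of_nonneg (by positivity), div_mul_eq_mul_div, div_lt_iff₀ hq]
    exact mul_lt_mul_of_pos_left hw ha
  have h3 := h2 (z + (dep D z / (dep D z + s * r)) • u) (subset_closure (ball_dep_subset z (by
    rw [mem_ball, dist_eq_norm, add_sub_cancel_left]
    exact hu _ hp))) (by
      rw [add_sub_cancel_left]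
      exact (hu _ hp).trans_le hd) (d + (r / (dep D z + s * r)) • u) (by
      rw [add_sub_cancel_left]
      exact hu _ hr) s ⟨hs0, hs1⟩
  have e : dep D z / (dep D z + s * r) + s * (r / (dep D z + s * r)) = 1 := by field_simp
  have e' : z + (dep D z / (dep D z + s * r)) • u + s • (d + (r / (dep D z + s * r)) • u) =
      z + s • d + (dep D z / (dep D z + s * r) + s * (r / (dep D z + s * r))) • u := by module
  rwa [e', e, one_smul] at h3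

theorem Hyp.cone (H : Hyp D) : ∃ c > 0, ∃ t₀ > 0, ∀ z ∈ D, dep D z ≤ t₀ → ∃ e : E n, ‖e‖ ≤ 1 ∧
    ∀ t ∈ Icc (0 : ℝ) t₀, z + t • e ∈ D ∧ c * t ≤ dep D (z + t • e) := by
  obtain ⟨c, hc, t₀, ht₀, h⟩ := H.cone2
  refine ⟨c, hc, t₀, ht₀, fun z hz hd => ?_⟩
  obtain ⟨e, h1, h2⟩ := h z hz hd
  have hp := (dep_pos_iff H.isOpen H.ne_univ).2 hz
  refine ⟨e, h1, fun t ht => ?_⟩
  have h3 := h2 t ht
  have h4 := mul_nonneg hc.le ht.1
  exact ⟨(dep_pos_iff H.isOpen H.ne_univ).1 (by linarith), by linarith⟩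

theorem geoD_seg {U : Set (E n)} {ξ x v : E n} {l : E n → ℂ} (hl : ContinuousOn l U)
    (he : ∀ z ∈ U, exp (l z) = 1 - dot z ξ) (hs : ∀ s ∈ Icc (0 : ℝ) 1, x + s • v ∈ U) :
    |(l (x + v)).im - (l x).im| < Real.pi := by
  have h := (seg_arg (a := 1 - dot x ξ) (b := -dot v ξ) (l := fun s : ℝ => l (x + s • v))
    (hl.comp (by fun_prop) hs) fun s hs' => by
      rw [he _ (hs s hs')]
      simp only [dot_add_left, dot_rsmul_left]
      ring).2.2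
  simpa only [one_smul, zero_smul, add_zero] using h

/-- On a compact subset of a connected open set all normalised logarithms of affine functions are
uniformly bounded. -/
theorem geoD_bd {U X : Set (E n)} (hU : IsOpen U) (hc : IsPreconnected U) (h0 : (0 : E n) ∈ U)
    (hX : IsCompact X) (hXU : X ⊆ U) : ∃ A : ℝ, ∀ (ξ : E n) (l : E n → ℂ), ContinuousOn l U →
      (∀ z ∈ U, exp (l z) = 1 - dot z ξ) → l 0 = 0 → ∀ z ∈ X, |(l z).im| ≤ A := by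
  obtain ⟨P, hP⟩ : ∃ P : ℝ → E n → Prop, ∀ N x, P N x ↔ ∀ (ξ : E n) (l : E n → ℂ),
      ContinuousOn l U → (∀ z ∈ U, exp (l z) = 1 - dot z ξ) → l 0 = 0 → |(l x).im| ≤ N :=
    ⟨_, fun _ _ => Iff.rfl⟩
  have loc : ∀ x ∈ U, ∃ r > 0, ball x r ⊆ U ∧ ∀ y ∈ ball x r, ∀ N,
      (P N x → P (N + Real.pi) y) ∧ (P N y → P (N + Real.pi) x) := fun x hx => by
    obtain ⟨r, hr, hb⟩ := Metric.isOpen_iff.1 hU x hx
    refine ⟨r, hr, hb, fun y hy N => ?_⟩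
    have hs : ∀ s ∈ Icc (0 : ℝ) 1, x + s • (y - x) ∈ U := fun s hs =>
      hb ((convex_ball x r).add_smul_sub_mem (mem_ball_self hr) hy hs)
    simp only [hP]
    refine ⟨fun h ξ l a b c => ?_, fun h ξ l a b c => ?_⟩
    all_goals
      have h1 := abs_lt.1 (geoD_seg a b hs)
      have h2 := abs_le.1 (h ξ l a b c)
      rw [add_sub_cancel] at h1
      exact abs_le.2 ⟨by linarith, by linarith⟩
  have hW : U ⊆ {x | x ∈ U ∧ ∃ N, P N x} := by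
    refine hc.subset_left_of_subset_union (v := {x | x ∈ U ∧ ¬ ∃ N, P N x}) ?_ ?_ ?_ ?_
      ⟨0, h0, h0, 0, (hP _ _).2 fun ξ l _ _ c => by simp [c]⟩
    · refine Metric.isOpen_iff.2 fun x ⟨hx, N, hN⟩ => ?_
      obtain ⟨r, hr, hb, h⟩ := loc x hx
      exact ⟨r, hr, fun y hy => ⟨hb hy, _, (h y hy N).1 hN⟩⟩
    · refine Metric.isOpen_iff.2 fun x ⟨hx, hN⟩ => ?_
      obtain ⟨r, hr, hb, h⟩ := loc x hx
      exact ⟨r, hr, fun y hy => ⟨hb hy, fun ⟨N, hN'⟩ => hN ⟨_, (h y hy N).2 hN'⟩⟩⟩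
    · exact disjoint_left.2 fun x a b => b.2 a.2
    · exact fun x hx => (em (∃ N, P N x)).imp (fun h => ⟨hx, h⟩) fun h => ⟨hx, h⟩
  have hm : ∀ N N' x, N ≤ N' → P N x → P N' x := fun N N' x h a =>
    (hP _ _).2 fun ξ l b c d => ((hP _ _).1 a ξ l b c d).trans h
  obtain ⟨A, hA⟩ : ∃ A, ∀ x ∈ X, P A x := by
    refine hX.induction_on (p := fun S => ∃ A, ∀ x ∈ S, P A x) ⟨0, by simp⟩ ?_ ?_ ?_
    · rintro S T hST ⟨A, h⟩
      exact ⟨A, fun x hx => h x (hST hx)⟩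
    · rintro S T ⟨A, h⟩ ⟨A', h'⟩
      exact ⟨max A A', fun x hx => hx.elim (fun a => hm _ _ _ (le_max_left _ _) (h x a))
        fun a => hm _ _ _ (le_max_right _ _) (h' x a)⟩
    · intro x hx
      obtain ⟨r, hr, -, h⟩ := loc x (hXU hx)
      obtain ⟨-, N, hN⟩ := hW (hXU hx)
      exact ⟨ball x r, mem_nhdsWithin_of_mem_nhds (ball_mem_nhds x hr), _,
        fun y hy => (h y hy N).1 hN⟩
  exact ⟨A, fun ξ l a b c z hz => (hP _ _).1 (hA z hz) ξ l a b c⟩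

theorem Hyp.deep (H : Hyp D) : ∃ δ₀ > 0, ∃ A C : ℝ, ∀ δ ∈ Ioc (0 : ℝ) δ₀, (0 : E n) ∈ Zd D δ ∧
    IsPathConnected (Zd D δ) ∧ (∀ z ∈ D, ∃ z' ∈ Zd D δ, ‖z' - z‖ ≤ C * δ) ∧
    ∀ (ξ : E n) (l : E n → ℂ), ContinuousOn l (Zd D δ) →
      (∀ z ∈ Zd D δ, exp (l z) = 1 - dot z ξ) → l 0 = 0 → ∀ z ∈ Zd D δ, |(l z).im| ≤ A := by
  obtain ⟨c, hc, t₀, ht₀, h⟩ := H.cone2
  obtain ⟨m, hm, m1, m2⟩ : ∃ m > 0, m ≤ t₀ ∧ m ≤ c * t₀ :=
    ⟨min t₀ (c * t₀), lt_min ht₀ (by positivity), min_le_left _ _, min_le_right _ _⟩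
  obtain ⟨x1, x2⟩ := isCompact_deep H.bdd H.ne_univ hm
  have hX : IsCompact (insert (0 : E n) {z | m ≤ dep D z}) := x1.insert 0
  obtain ⟨τ, hτ, S, hS, hXS, hSτ⟩ := conn_hull H.isOpen H.conn.isPreconnected H.ne_univ hX
    (insert_subset H.zero x2)
  have hSU : S ⊆ thickening (τ / 2) S := self_subset_thickening (half_pos hτ) S
  have h0 : (0 : E n) ∈ S := hXS (mem_insert _ _)
  have hU : IsPreconnected (thickening (τ / 2) S) := by
    refine isPreconnected_of_forall 0 fun y hy => ?_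
    obtain ⟨x, hx, hxy⟩ := mem_thickening_iff.1 hy
    exact ⟨S ∪ ball x (τ / 2), union_subset hSU (ball_subset_thickening hx _), Or.inl h0,
      Or.inr hxy, hS.union x hx (mem_ball_self (half_pos hτ)) (convex_ball _ _).isPreconnected⟩
  have hP : IsPathConnected (thickening (τ / 2) S) :=
    isOpen_thickening.isConnected_iff_isPathConnected.1 ⟨⟨0, hSU h0⟩, hU⟩
  obtain ⟨A, hA⟩ := geoD_bd isOpen_thickening hU (hSU h0) hX (hXS.trans hSU)
  refine ⟨min (τ / 2) m, lt_min (half_pos hτ) hm, A + Real.pi, c⁻¹, fun δ hδ => ?_⟩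
  have d1 := hδ.2.trans (min_le_left _ _)
  have d2 := hδ.2.trans (min_le_right _ _)
  have hUZ : thickening (τ / 2) S ⊆ Zd D δ := fun y hy => by
    obtain ⟨x, hx, hxy⟩ := mem_thickening_iff.1 hy
    have h1 : dep D x ≤ dep D y + dist x y := infDist_le_infDist_add_dist
    have h2 := hSτ x hx
    rw [dist_comm] at hxy
    show δ ≤ dep D y
    linarith
  have seg : ∀ z ∈ Zd D δ, ∃ v, z + v ∈ insert (0 : E n) {z | m ≤ dep D z} ∧
      ∀ s ∈ Icc (0 : ℝ) 1, z + s • v ∈ Zd D δ := fun z hz => by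
    by_cases hd : m ≤ dep D z
    · exact ⟨0, Or.inr (by simpa using hd), fun s _ => by simpa using hz⟩
    have hz' : δ ≤ dep D z := hz
    obtain ⟨e, -, h2⟩ := h z ((dep_pos_iff H.isOpen H.ne_univ).1 (hδ.1.trans_le hz'))
      ((not_le.1 hd).le.trans m1)
    refine ⟨t₀ • e, Or.inr ?_, fun s hs => ?_⟩
    · have h3 := h2 t₀ ⟨ht₀.le, le_rfl⟩
      show m ≤ dep D _
      linarith [hδ.1]
    · have h4 := mul_nonneg hs.1 ht₀.le
      have h3 := h2 (s * t₀) ⟨h4, mul_le_of_le_one_left ht₀.le hs.2⟩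
      rw [smul_smul]
      show δ ≤ dep D _
      linarith [mul_nonneg hc.le h4]
  refine ⟨hUZ (hSU h0), ⟨0, hUZ (hSU h0), fun z hz => ?_⟩, fun z hz => ?_, fun ξ l a b d z hz => ?_⟩
  · obtain ⟨v, h1, h2⟩ := seg z hz
    refine ((hP.joinedIn 0 (hSU h0) _ (hSU (hXS h1))).mono hUZ).trans (JoinedIn.symm ?_)
    exact JoinedIn.ofLine (f := fun s : ℝ => z + s • v) (by fun_prop) (by simp) (by simp)
      (image_subset_iff.2 h2)
  · by_cases hd : δ ≤ dep D z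
    · exact ⟨z, hd, by simpa using mul_nonneg (inv_nonneg.2 hc.le) hδ.1.le⟩
    obtain ⟨e, h1, h2⟩ := h z hz ((not_le.1 hd).le.trans (d2.trans m1))
    have h4 : 0 ≤ c⁻¹ * δ := mul_nonneg (inv_nonneg.2 hc.le) hδ.1.le
    have h3 := h2 (c⁻¹ * δ) ⟨h4, (inv_mul_le_iff₀ hc).2 (d2.trans m2)⟩
    rw [mul_inv_cancel_left₀ hc.ne'] at h3
    refine ⟨z + (c⁻¹ * δ) • e, ?_, ?_⟩
    · show δ ≤ dep D _
      linarith [(dep_pos_iff H.isOpen H.ne_univ).2 hz]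
    · rw [add_sub_cancel_left, norm_smul, Real.norm_of_nonneg h4]
      exact mul_le_of_le_one_right h4 h1
  · obtain ⟨v, h1, h2⟩ := seg z hz
    have h3 := abs_lt.1 (geoD_seg a b h2)
    have h4 := abs_le.1 (hA ξ l (a.mono hUZ) (fun y hy => b y (hUZ hy)) d _ h1)
    exact abs_le.2 ⟨by linarith, by linarith⟩

theorem Hyp.phi_bdd (H : Hyp D) (hΦ : IsPhi D Φ) :
    ∃ A : ℝ, ∀ z ∈ D, ∀ ξ ∈ Kd D, |(Φ z ξ).im| ≤ A := by
  obtain ⟨δ₀, h0, A, C, h⟩ := H.deep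
  refine ⟨A, fun z hz ξ hξ => ?_⟩
  have hδ : 0 < min δ₀ (dep D z) := lt_min h0 ((dep_pos_iff H.isOpen H.ne_univ).2 hz)
  have hs : Zd D (min δ₀ (dep D z)) ⊆ D := (isCompact_deep H.bdd H.ne_univ hδ).2
  exact (h _ ⟨hδ, min_le_left _ _⟩).2.2.2 ξ (fun z => Φ z ξ) ((hΦ.contOn hξ).mono hs)
    (fun y hy => hΦ.exp_eq y (hs hy) ξ hξ) (hΦ.zero ξ hξ) z (min_le_right δ₀ (dep D z))

theorem Hyp.line (H : Hyp D) : ∀ q ∈ closure D, ∀ z ∈ D, ∀ l ∈ Ioo (0 : ℝ) 1,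
    ∃ c : ℂ, ‖c‖ = l ∧ q + c • (z - q) ∈ D := by
  intro q hq z hz l hl
  obtain ⟨c, c1, c2⟩ : ∃ c : ℂ, ‖c‖ ≤ l ∧ q + c • (z - q) ∈ D := by
    rw [closure_eq_self_union_frontier] at hq
    rcases hq with hq | hq
    · exact ⟨0, by simpa using hl.1.le, by simpa using hq⟩
    obtain ⟨d, r, hr, h⟩ := H.transv (v := q - z) (s := 1) hz (by simpa using hq)
    obtain ⟨t, t0, t1, t2⟩ : ∃ t > 0, t < r ∧ t * ‖d‖ ≤ l := by
      have h1 : 0 < l / (‖d‖ + 1) := div_pos hl.1 (by positivity)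
      refine ⟨min (r / 2) (l / (‖d‖ + 1)), lt_min (half_pos hr) h1,
        (min_le_left _ _).trans_lt (half_lt_self hr),
        (mul_le_mul_of_nonneg_right (min_le_right _ _) (norm_nonneg _)).trans ?_⟩
      rw [div_mul_eq_mul_div, div_le_iff₀ (by positivity)]
      nlinarith [hl.1]
    refine ⟨-(t * d), by rwa [norm_neg, norm_mul, norm_real, Real.norm_of_nonneg t0.le], ?_⟩
    have h2 := h q (frontier_subset_closure hq) (by simpa using hr) (d • (q - z))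
      (by simpa using hr) t ⟨t0, t1⟩
    rwa [← coe_smul, smul_smul, ← neg_sub z q, smul_neg, ← neg_smul] at h2
  obtain ⟨K, k1, k2, k3, k4, -⟩ := GeoB_range (H.joined c2 hz)
  obtain ⟨s, hs, e⟩ := k4.intermediate_value k2 k3 (f := fun s : ℂ => ‖c + s * (1 - c)‖)
    (by fun_prop) (show l ∈ _ from ⟨by simpa using c1, by simpa using hl.2.le⟩)
  refine ⟨_, e, ?_⟩
  have h3 : q + c • (z - q) + s • (z - (q + c • (z - q))) ∈ D := k1 hs
  have e' : q + c • (z - q) + s • (z - (q + c • (z - q))) = q + (c + s * (1 - c)) • (z - q) := by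
    module
  rwa [e'] at h3

theorem mem_interior_Kd (hb : Bornology.IsBounded D) {a : E n}
    (ha : ∀ z ∈ closure D, dot z a ≠ 1) : a ∈ interior (Kd D) := by
  have h : ∀ᶠ a' in 𝓝 a, ∀ z ∈ closure D, dot z a' ≠ 1 :=
    hb.isCompact_closure.eventually_forall_of_forall_eventually fun z hz =>
      (show ContinuousAt (fun p : E n × E n => dot p.2 p.1) (a, z) by fun_prop).eventually_ne
        (ha z hz)
  exact mem_interior_iff_mem_nhds.2 (h.mono fun a' h' z hz => h' z (subset_closure hz))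

end Pool.Agent.MP_4baaa2_an.H94

/-!
Separation of the branches of the logarithm.
-/

namespace Pool.Agent.MP_4baaa2_an.H94

open Set Metric Filter Topology Complex
open scoped ComplexConjugate
open Pool.Agent.Lib.PlaneTop

variable {n : ℕ} {D : Set (E n)} {Φ : E n → E n → ℂ}

theorem geoE_sin {θ : ℝ} (h : |θ| ≤ Real.pi) : |Real.sin θ| ≤ Real.pi - |θ| := by
  rcases le_total 0 θ with h0 | h0
  · rw [abs_of_nonneg h0] at h ⊢
    rw [← Real.sin_pi_sub]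
    exact Real.abs_sin_le_abs.trans_eq (abs_of_nonneg (by linarith))
  · rw [abs_of_nonpos h0] at h ⊢
    rw [← abs_neg, ← Real.sin_add_pi]
    exact Real.abs_sin_le_abs.trans_eq ((abs_of_nonneg (by linarith)).trans (by ring))

theorem geoE_arg {b : ℂ} {ε : ℝ} (hε : 0 < ε) (hε1 : ε ≤ 1)
    (h : ∀ s ∈ Icc (0 : ℝ) 1, ∀ b' : ℂ, ‖b' - b‖ < ε * ‖b‖ → 1 + s * b' ≠ 0) :
    |arg (1 + b)| ≤ Real.pi - ε := by
  by_contra hlt
  rw [not_le] at hlt
  have hpi := Real.pi_gt_three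
  have hre : (1 + b).re < 0 := by
    by_contra h0
    have := abs_arg_le_pi_div_two_iff.2 (not_lt.1 h0)
    linarith
  have hne : 1 + b ≠ 0 := fun e => by simp [e] at hre
  have hn : 0 < ‖1 + b‖ := norm_pos_iff.2 hne
  have hre' : b.re < -1 := by
    rw [add_re, one_re] at hre
    linarith
  have h1 : |Real.sin (arg (1 + b))| < ε := by
    have := geoE_sin (abs_arg_le_pi (1 + b))
    linarith
  rw [sin_arg, abs_div, abs_norm, div_lt_iff₀ hn, add_im, one_im, zero_add] at h1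
  have h2 : ‖1 + b‖ ≤ ‖b‖ := by
    refine abs_le_of_sq_le_sq' ?_ (norm_nonneg _) |>.2
    rw [Complex.sq_norm, Complex.sq_norm, normSq_apply, normSq_apply, add_re, add_im, one_re,
      one_im]
    nlinarith
  have h3 : ‖(b.re : ℂ) - b‖ < ε * ‖b‖ := by
    have e : (b.re : ℂ) - b = (-b.im : ℝ) * I := by
      apply Complex.ext <;> simp
    rw [e, norm_mul, norm_I, mul_one, Complex.norm_real, Real.norm_eq_abs, abs_neg]
    exact h1.trans_le (mul_le_mul_of_nonneg_left h2 hε.le)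
  have h4 : (0 : ℝ) < -b.re := by linarith
  refine h (-b.re)⁻¹ ⟨by positivity, inv_le_one_of_one_le₀ (by linarith)⟩ _ h3 ?_
  rw [← ofReal_mul, ← ofReal_one, ← ofReal_add, ofReal_eq_zero]
  have : b.re ≠ 0 := by linarith
  field_simp
  ring

theorem geoE_ne {z ξ : E n} (hξ : ξ ∈ Kd D) (hz : z ∈ D) : 1 - dot z ξ ≠ 0 :=
  sub_ne_zero.2 (hξ z hz).symm

/-- the change of `Φ` along a segment inside `D` -/
theorem geoE_seg (hΦ : IsPhi D Φ) {ξ z v : E n} (hξ : ξ ∈ Kd D)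
    (h : ∀ s ∈ Icc (0 : ℝ) 1, z + s • v ∈ D) :
    (Φ (z + v) ξ).im - (Φ z ξ).im = arg (1 + -dot v ξ / (1 - dot z ξ)) ∧
      |(Φ (z + v) ξ).im - (Φ z ξ).im| < Real.pi := by
  have hz : z ∈ D := by simpa using h 0 ⟨le_rfl, zero_le_one⟩
  have hc : ContinuousOn (fun s : ℝ => Φ (z + s • v) ξ) (Icc 0 1) :=
    (hΦ.contOn hξ).comp (f := fun s : ℝ => z + s • v) (by fun_prop) h
  obtain ⟨-, h2, h3⟩ := seg_arg (a := 1 - dot z ξ) (b := -dot v ξ) hc fun s hs => by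
    rw [hΦ.exp_eq _ (h s hs) _ hξ, dot_add_left, dot_rsmul_left]
    ring
  simp only [one_smul, zero_smul, add_zero] at h2 h3
  refine ⟨?_, h3⟩
  rw [← sub_im, h2, log_im, add_div, div_self (geoE_ne hξ hz)]

/-- the change of the phase along the axis of a cone inside `D` -/
theorem geoE_cone (hΦ : IsPhi D Φ) {ξ z v : E n} (hξ : ξ ∈ Kd D) {ε : ℝ} (hε : 0 < ε)
    (hε1 : ε ≤ 1) (h : ∀ v', ‖v' - v‖ ≤ ε * ‖v‖ → ∀ s ∈ Icc (0 : ℝ) 1, z + s • v' ∈ D) :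
    |(Φ (z + v) ξ).im - (Φ z ξ).im| ≤ Real.pi - ε := by
  have h0 := h v (by rw [sub_self, norm_zero]; positivity)
  have hz : z ∈ D := by simpa using h0 0 ⟨le_rfl, zero_le_one⟩
  have ha := geoE_ne hξ hz
  rw [(geoE_seg hΦ hξ h0).1]
  refine geoE_arg hε hε1 fun s hs b' hb' => ?_
  set a := 1 - dot z ξ with ha'
  set b := -dot v ξ / a with hb
  have hξ0 : ξ ≠ 0 := by
    rintro rfl
    simp only [hb, dot_zero_right, neg_zero, zero_div, norm_zero, mul_zero] at hb'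
    exact absurd hb' (not_lt.2 (norm_nonneg _))
  have hn : 0 < ‖ξ‖ := norm_pos_iff.2 hξ0
  have hnc : ((‖ξ‖ ^ 2 : ℝ) : ℂ) ≠ 0 := ofReal_ne_zero.2 (by positivity)
  have han : 0 < ‖a‖ := norm_pos_iff.2 ha
  set c : ℂ := -((b' - b) * a) / ((‖ξ‖ ^ 2 : ℝ) : ℂ) with hc
  have h1 : ‖v + c • cj ξ - v‖ ≤ ε * ‖v‖ := by
    rw [add_sub_cancel_left, norm_smul, norm_cj, hc, norm_div, norm_neg, norm_mul,
      Complex.norm_real, Real.norm_of_nonneg (by positivity)]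
    have h2 : ‖b‖ * ‖a‖ ≤ ‖v‖ * ‖ξ‖ := by
      rw [hb, norm_div, norm_neg, div_mul_cancel₀ _ han.ne']
      exact norm_dot_le v ξ
    have h3 : ‖b' - b‖ * ‖a‖ ≤ ε * (‖v‖ * ‖ξ‖) := by
      calc ‖b' - b‖ * ‖a‖ ≤ ε * ‖b‖ * ‖a‖ := mul_le_mul_of_nonneg_right hb'.le han.le
        _ = ε * (‖b‖ * ‖a‖) := by ring
        _ ≤ _ := mul_le_mul_of_nonneg_left h2 hε.le
    rw [div_mul_eq_mul_div, div_le_iff₀ (by positivity)]
    nlinarith
  have h4 := geoE_ne hξ (h _ h1 s hs)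
  intro h5
  apply h4
  have h6 : dot (cj ξ) ξ = ((‖ξ‖ ^ 2 : ℝ) : ℂ) := by rw [dot_comm, dot_cj_self]
  have h7 : c * ((‖ξ‖ ^ 2 : ℝ) : ℂ) = -((b' - b) * a) := by rw [hc, div_mul_cancel₀ _ hnc]
  have h8 : dot v ξ = -(b * a) := by rw [hb, div_mul_cancel₀ _ ha, neg_neg]
  rw [dot_add_left, dot_rsmul_left, dot_add_left, dot_smul_left, h6, h7, h8]
  linear_combination a * h5 + ha'

/-- Close points have phases at distance less than `2π`. -/
theorem Hyp.sep_near (H : Hyp D) (hΦ : IsPhi D Φ) : ∃ μ > 0, ∃ r₀ > 0, ∀ ξ ∈ Kd D, ∀ z ∈ D,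
    ∀ z' ∈ D, ‖z - z'‖ < r₀ → |(Φ z ξ).im - (Φ z' ξ).im| ≤ 2 * Real.pi - μ := by
  obtain ⟨r, hr, N, hN, h⟩ := H.ht_unif
  have hpi := Real.pi_gt_three
  set ε : ℝ := min 1 (r / 2 / (N + r)) with hε
  have hε0 : 0 < ε := by positivity
  have hε1 : ε ≤ 1 := min_le_left _ _
  have hε2 : ε * (N + r) ≤ r / 2 := (le_div_iff₀ (by positivity)).1 (min_le_right _ _)
  refine ⟨2 * ε, by positivity, min r (r ^ 2 / 4), by positivity, fun ξ hξ z hz z' hz' hd => ?_⟩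
  rw [lt_min_iff] at hd
  rcases lt_or_ge r (dep D z) with hdep | hdep
  · have h1 := (geoE_seg hΦ hξ (z := z) (v := z' - z) fun s hs => ball_dep_subset z (by
      rw [mem_ball, dist_eq_norm, add_sub_cancel_left, norm_smul, Real.norm_of_nonneg hs.1,
        norm_sub_rev]
      nlinarith [hs.2, hs.1, norm_nonneg (z - z')])).2
    rw [add_sub_cancel, abs_sub_comm] at h1
    linarith
  obtain ⟨d, hdN, hd'⟩ := h z hz hdep
  have key : ∀ x ∈ D, ‖x - z‖ < r → ∀ e, ‖e - d‖ < r / 2 →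
      |(Φ (x + (r / 2) • e) ξ).im - (Φ x ξ).im| ≤ Real.pi - ε := by
    intro x hx hxz e he
    refine geoE_cone hΦ hξ hε0 hε1 fun v' hv' s hs => ?_
    rcases hs.1.eq_or_lt with rfl | hs0
    · simpa using hx
    have h2 : ‖e‖ ≤ N + r := by
      have := norm_le_norm_add_norm_sub' e d
      linarith
    have h3 : ‖(2 / r) • v' - e‖ ≤ r / 2 := by
      have e1 : (2 / r) • v' - e = (2 / r) • (v' - (r / 2) • e) := by
        rw [smul_sub, smul_smul, show 2 / r * (r / 2) = 1 by field_simp, one_smul]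
      rw [e1, norm_smul, Real.norm_of_nonneg (by positivity)]
      rw [norm_smul, Real.norm_of_nonneg (by positivity)] at hv'
      calc 2 / r * ‖v' - (r / 2) • e‖ ≤ 2 / r * (ε * (r / 2 * ‖e‖)) := by gcongr
        _ = ε * ‖e‖ := by field_simp
        _ ≤ ε * (N + r) := by gcongr
        _ ≤ r / 2 := hε2
    have h4 := hd' x (subset_closure hx) hxz ((2 / r) • v')
      (by linarith [norm_sub_le_norm_sub_add_norm_sub ((2 / r) • v') e d]) (s * (r / 2))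
      ⟨by positivity, by nlinarith [hs.2]⟩
    rwa [smul_smul, show s * (r / 2) * (2 / r) = s by field_simp] at h4
  have k1 := key z hz (by simpa using hr) d (by simpa using hr)
  have k2 := key z' hz' (by rw [norm_sub_rev]; exact hd.1) (d + (2 / r) • (z - z')) (by
    rw [add_sub_cancel_left, norm_smul, Real.norm_of_nonneg (by positivity), div_mul_eq_mul_div,
      div_lt_iff₀ hr]
    nlinarith [hd.2])
  have e2 : z' + (r / 2) • (d + (2 / r) • (z - z')) = z + (r / 2) • d := by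
    rw [smul_add, smul_smul, show r / 2 * (2 / r) = 1 by field_simp, one_smul]
    abel
  rw [e2] at k2
  rw [abs_le] at k1 k2 ⊢
  constructor <;> linarith [k1.1, k1.2, k2.1, k2.2]

theorem geoE_bounds (H : Hyp D) {a : E n} (ha : a ∈ interior (Kd D)) :
    ∃ m > 0, ∃ M > 0, ∀ z ∈ D, m ≤ ‖1 - dot z a‖ ∧ ‖1 - dot z a‖ ≤ M := by
  have hc : IsCompact (closure D) := H.bdd.isCompact_closure
  have hf : ContinuousOn (fun z => ‖1 - dot z a‖) (closure D) := by fun_prop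
  have hne : (closure D).Nonempty := ⟨0, subset_closure H.zero⟩
  obtain ⟨x, hx, h1⟩ := hc.exists_isMinOn hne hf
  obtain ⟨y, hy, h2⟩ := hc.exists_isMaxOn hne hf
  exact ⟨_, norm_pos_iff.2 (sub_ne_zero.2 (dot_ne_one_of_interior ha hx).symm), _,
    norm_pos_iff.2 (sub_ne_zero.2 (dot_ne_one_of_interior ha hy).symm),
    fun z hz => ⟨h1 (subset_closure hz), h2 (subset_closure hz)⟩⟩

/-- Far points. -/
theorem Hyp.sep_far (H : Hyp D) (hΦ : IsPhi D Φ) {a : E n} (ha : a ∈ interior (Kd D))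
    {r₀ : ℝ} (hr : 0 < r₀) : ∃ μ > 0, ∀ ξ ∈ Kd D, ∀ z ∈ D, ∀ z' ∈ D, r₀ ≤ ‖z - z'‖ → ∀ k : ℤ,
      k ≠ 0 → μ ≤ ‖(Φ z ξ - Φ z a) - (Φ z' ξ - Φ z' a) - k * (2 * Real.pi * I)‖ := by
  obtain ⟨m, hm, M, hM, hb⟩ := geoE_bounds H ha
  obtain ⟨R, hR, hRD⟩ := H.bdd.exists_pos_norm_le
  have ha' : a ∈ Kd D := interior_subset ha
  have hpi := Real.pi_gt_three
  set S : ℝ := 2 * R / r₀ with hS
  have hS0 : 0 < S := by positivity
  refine ⟨min 1 (m / (2 * S * M)), by positivity, fun ξ hξ z hz z' hz' hd k hk => ?_⟩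
  by_contra hlt
  rw [not_le, lt_min_iff] at hlt
  set δ := (Φ z ξ - Φ z a) - (Φ z' ξ - Φ z' a) - k * (2 * Real.pi * I) with hδ
  set ε₁ := exp (-δ) - 1 with hε₁
  have h1 : ‖ε₁‖ ≤ 2 * ‖δ‖ := by
    have := norm_exp_sub_one_le (x := -δ) (by rw [norm_neg]; exact hlt.1.le)
    rwa [norm_neg] at this
  obtain ⟨K, hK, h0K, h1K, hKc, -⟩ := GeoB_range (H.joined hz hz')
  have hmem : ∀ s ∈ K, z + s • (z' - z) ∈ D := fun s hs => hK hs
  have hsn : ∀ s ∈ K, ‖s‖ ≤ S := fun s hs => by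
    rw [hS, le_div_iff₀ hr]
    have h2 : ‖s‖ * ‖z - z'‖ ≤ 2 * R := by
      rw [norm_sub_rev, ← norm_smul, ← add_sub_cancel_left z (s • (z' - z))]
      linarith [norm_sub_le (z + s • (z' - z)) z, hRD _ (hmem s hs), hRD _ hz]
    nlinarith [norm_nonneg s]
  set w' := 1 - dot z' a with hw'
  set q : ℂ → ℂ := fun s => s * ε₁ * w' / (1 - dot (z + s • (z' - z)) a) with hq
  have hq1 : ∀ s ∈ K, ‖q s‖ < 1 := fun s hs => by
    have h3 := (hb _ (hmem s hs)).1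
    rw [hq]
    beta_reduce
    rw [norm_div, div_lt_one (hm.trans_le h3), norm_mul, norm_mul]
    have h4 : ‖s‖ * ‖ε₁‖ * ‖w'‖ ≤ S * (2 * ‖δ‖) * M := by
      gcongr
      · exact hsn s hs
      · exact (hb _ hz').2
    have h5 := (lt_div_iff₀ (by positivity)).1 hlt.2
    nlinarith
  have hcz : Continuous fun s : ℂ => z + s • (z' - z) := by fun_prop
  have c1 : ContinuousOn (fun s : ℂ => Φ (z + s • (z' - z)) ξ - Φ (z + s • (z' - z)) a) K :=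
    ((hΦ.contOn hξ).comp hcz.continuousOn hmem).sub ((hΦ.contOn ha').comp hcz.continuousOn hmem)
  have c2 : ContinuousOn (fun s : ℂ => (Φ z ξ - Φ z a) + log (1 + q s)) K := by
    refine continuousOn_const.add (ContinuousOn.clog (continuousOn_const.add ?_)
      fun s hs => mem_slitPlane_of_norm_lt_one (hq1 s hs))
    exact ContinuousOn.div (by fun_prop) (by fun_prop) fun s hs => geoE_ne ha' (hmem s hs)
  have hu := geoE_ne hξ hz
  have hw := geoE_ne ha' hz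
  have hu' := geoE_ne hξ hz'
  have hw0 : w' ≠ 0 := geoE_ne ha' hz'
  have hexp : exp (-δ) = (1 - dot z' ξ) / w' / ((1 - dot z ξ) / (1 - dot z a)) := by
    have e : -δ = (Φ z' ξ - Φ z' a) - (Φ z ξ - Φ z a) + k * (2 * Real.pi * I) := by
      rw [hδ]; ring
    rw [e, exp_add, exp_int_mul_two_pi_mul_I, mul_one, exp_sub, exp_sub, exp_sub,
      hΦ.exp_eq _ hz' _ hξ, hΦ.exp_eq _ hz' _ ha', hΦ.exp_eq _ hz _ hξ, hΦ.exp_eq _ hz _ ha']
  have h6 := log_sub_const hKc c1 c2 (fun s hs => by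
    have h7 := geoE_ne ha' (hmem s hs)
    rw [exp_add, exp_log (slitPlane_ne_zero (mem_slitPlane_of_norm_lt_one (hq1 s hs))), exp_sub,
      exp_sub, hΦ.exp_eq _ (hmem s hs) _ hξ, hΦ.exp_eq _ (hmem s hs) _ ha', hΦ.exp_eq _ hz _ hξ,
      hΦ.exp_eq _ hz _ ha', hq]
    beta_reduce
    rw [hε₁, hexp]
    have e1 : dot (z + s • (z' - z)) ξ = dot z ξ + s * (dot z' ξ - dot z ξ) := by simp
    have e2 : dot (z + s • (z' - z)) a = dot z a + s * (dot z' a - dot z a) := by simp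
    have e3 : dot z' a = 1 - w' := by rw [hw']; ring
    rw [e1]
    generalize hL : 1 - dot (z + s • (z' - z)) a = L at h7
    have e4 : L = 1 - dot z a + s * (w' - (1 - dot z a)) := by rw [← hL, e2, e3]; ring
    field_simp
    rw [e4]
    ring) h1K h0K
  have q0 : q 0 = 0 := by simp [hq]
  have q1 : q 1 = ε₁ := by
    rw [hq]
    beta_reduce
    rw [one_smul, add_sub_cancel, one_mul, ← hw', mul_div_assoc, div_self hw0, mul_one]
  have him : |δ.im| < 1 := (abs_im_le_norm δ).trans_lt hlt.1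
  rw [abs_lt] at him
  simp only [q0, q1, one_smul, add_sub_cancel, zero_smul, add_zero, log_one, sub_self, hε₁] at h6
  rw [log_exp (by rw [neg_im]; linarith) (by rw [neg_im]; linarith), hδ] at h6
  have h8 : (k : ℂ) * (2 * Real.pi * I) = 0 := by linear_combination -h6
  exact mul_ne_zero (Int.cast_ne_zero.2 hk) two_pi_I_ne_zero h8

theorem Hyp.sep_a (H : Hyp D) (hΦ : IsPhi D Φ) {a : E n} (ha : a ∈ interior (Kd D)) :
    ∃ μ > 0, ∀ ξ ∈ Kd D, ∀ z ∈ D, ∀ z' ∈ D, ∀ k : ℤ, k ≠ 0 →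
      μ ≤ ‖(Φ z ξ - Φ z a) - (Φ z' ξ - Φ z' a) - k * (2 * Real.pi * I)‖ := by
  obtain ⟨Ψ, hΨ⟩ := H.exists_ext hΦ ha
  obtain ⟨μ₁, hμ₁, r₀, hr₀, h1⟩ := H.sep_near hΦ
  obtain ⟨r₁, hr₁, h2⟩ := Metric.uniformContinuousOn_iff.1
    (H.bdd.isCompact_closure.uniformContinuousOn_of_continuous hΨ.cont) _ (half_pos hμ₁)
  obtain ⟨μ₂, hμ₂, h3⟩ := H.sep_far hΦ ha (lt_min hr₀ hr₁)
  refine ⟨min (μ₁ / 2) μ₂, by positivity, fun ξ hξ z hz z' hz' k hk => ?_⟩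
  rcases lt_or_ge ‖z - z'‖ (min r₀ r₁) with hd | hd
  · rw [lt_min_iff] at hd
    refine (min_le_left _ _).trans (le_trans ?_ (abs_im_le_norm _))
    have h4 := abs_le.1 (h1 ξ hξ z hz z' hz' hd.1)
    have h5 := h2 z (subset_closure hz) z' (subset_closure hz') (by rw [dist_eq_norm]; exact hd.2)
    rw [dist_eq_norm, hΨ.eq z hz, hΨ.eq z' hz'] at h5
    have h6 := abs_lt.1 ((abs_im_le_norm _).trans_lt h5)
    rw [sub_im] at h6
    have e : ((Φ z ξ - Φ z a) - (Φ z' ξ - Φ z' a) - k * (2 * Real.pi * I)).im =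
        ((Φ z ξ).im - (Φ z' ξ).im) - ((Φ z a).im - (Φ z' a).im) - k * (2 * Real.pi) := by
      simp
      ring
    rw [e, le_abs]
    have hpi := Real.pi_pos
    rcases lt_or_gt_of_ne hk with hk' | hk'
    · have : (k : ℝ) ≤ -1 := by exact_mod_cast Int.le_sub_one_of_lt hk'
      left
      nlinarith [h4.1, h6.2]
    · have : (1 : ℝ) ≤ k := by exact_mod_cast hk'
      right
      nlinarith [h4.2, h6.1]
  · exact (min_le_right _ _).trans (h3 ξ hξ z hz z' hz' hd k hk)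

theorem Hyp.sep (H : Hyp D) (hΦ : IsPhi D Φ) : ∃ μ > 0, ∀ ξ ∈ Kd D, ∀ z ∈ D, ∀ z' ∈ D, ∀ k : ℤ,
    k ≠ 0 → μ ≤ ‖Φ z ξ - Φ z' ξ - k * (2 * Real.pi * I)‖ := by
  obtain ⟨μ, hμ, h⟩ := H.sep_a hΦ (zero_mem_interior_Kd H.bdd)
  refine ⟨μ, hμ, fun ξ hξ z hz z' hz' k hk => ?_⟩
  have := h ξ hξ z hz z' hz' k hk
  rwa [← (H.ext_zero hΦ).eq z hz, ← (H.ext_zero hΦ).eq z' hz', sub_zero, sub_zero] at this

/-- The interior of the dual complement is path connected. -/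
theorem Hyp.oc_eq (H : Hyp D) (hΦ : IsPhi D Φ) : interior (Kd D) ⊆ Oc D := by
  intro a ha
  obtain ⟨Ψ, hΨ⟩ := H.exists_ext hΦ ha
  obtain ⟨μ, hμ, hsep⟩ := H.sep hΦ
  have hc : IsCompact (closure D) := H.bdd.isCompact_closure
  have hfib : ∀ z ∈ closure D, ∀ z' ∈ closure D, dot z a = dot z' a → Ψ z = Ψ z' := by
    intro z hz z' hz' he
    obtain ⟨k, hk⟩ := exp_eq_exp_iff_exists_int.1
      (show exp (Ψ z) = exp (Ψ z') by rw [hΨ.exp_eq z hz, hΨ.exp_eq z' hz', he])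
    by_cases hk0 : k = 0
    · simpa [hk0] using hk
    exfalso
    have c1 : ContinuousOn (fun x : E n × E n => ‖Ψ x.1 - Ψ x.2 - k * (2 * Real.pi * I)‖)
        (closure (D ×ˢ D)) := by
      rw [closure_prod_eq]
      exact (((hΨ.cont.comp continuousOn_fst fun x hx => hx.1).sub
        (hΨ.cont.comp continuousOn_snd fun x hx => hx.2)).sub continuousOn_const).norm
    have h1 := le_on_closure (f := fun _ => μ) (s := D ×ˢ D) (fun x hx => by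
      have := hsep a (interior_subset ha) x.1 hx.1 x.2 hx.2 k hk0
      rwa [← hΨ.eq _ hx.1, ← hΨ.eq _ hx.2] at this) continuousOn_const c1 (x := (z, z'))
      (by rw [closure_prod_eq]; exact ⟨hz, hz'⟩)
    simp only [hk, add_sub_cancel_left, sub_self, norm_zero] at h1
    linarith
  obtain ⟨B, hB, hB'⟩ := desc (U := fun z => dot z a) hc (by fun_prop) hΨ.cont hfib
  set S := (fun z => dot z a) '' closure D with hS
  have hSc : IsCompact S := hc.image (by fun_prop)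
  have hlog : HasLogOn (fun y => y - 1) S := by
    refine ⟨fun y => B y + Real.pi * I, hB.add continuousOn_const, ?_⟩
    rintro _ ⟨z, hz, rfl⟩
    beta_reduce
    rw [exp_add, hB' z hz, hΨ.exp_eq z hz, exp_pi_mul_I]
    ring
  obtain ⟨ε, hε, hball⟩ := Metric.isOpen_iff.1 isOpen_interior _ (zero_mem_interior_Kd H.bdd)
  obtain ⟨c, hcR, hj⟩ := bk hSc hlog (‖a‖ / ε + 1)
  have h0S : ∀ y ∈ Sᶜ, y ≠ 0 := by
    rintro y hy rfl
    exact hy ⟨0, subset_closure H.zero, by simp⟩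
  have hj2 := (hj.map_continuousOn (f := fun y : ℂ => y⁻¹ • a)
    ((continuousOn_id.inv₀ h0S).smul continuousOn_const)).mono (V := interior (Kd D)) (by
      rintro _ ⟨y, hy, rfl⟩
      refine mem_interior_Kd H.bdd fun z hz h1 => hy ⟨z, hz, ?_⟩
      rw [dot_smul_right, inv_mul_eq_one₀ (h0S y hy)] at h1
      exact h1.symm)
  simp only [inv_one, one_smul] at hj2
  have hc0 : 0 < ‖c‖ := lt_of_lt_of_le (by positivity) hcR
  have hin : c⁻¹ • a ∈ ball (0 : E n) ε := by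
    rw [mem_ball_zero_iff, norm_smul, norm_inv, inv_mul_lt_iff₀ hc0]
    have : ‖a‖ / ε < ‖c‖ := by linarith
    rwa [div_lt_iff₀ hε] at this
  have hj3 : JoinedIn (interior (Kd D)) 0 (c⁻¹ • a) :=
    JoinedIn.of_segment_subset
      (((convex_ball (0 : E n) ε).segment_subset (mem_ball_self hε) hin).trans hball)
  exact hj3.trans hj2.symm

end Pool.Agent.MP_4baaa2_an.H94

/-!
The sector of phases at a contact point.
-/

namespace Pool.Agent.MP_4baaa2_an.H94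

open Set Metric Filter Topology Complex
open scoped ComplexConjugate
open Pool.Agent.Lib.PlaneTop

variable {n : ℕ} {D : Set (E n)} {Φ : E n → E n → ℂ}


/-- the local picture at a point `q` where the hyperplane `ξ` touches the domain: the phases of
`1 - ⟨z, ξ⟩` fill the interval from `s` to `t`, and both edges come from nearby hyperplanes -/
structure Loc (D : Set (E n)) (Φ : E n → E n → ℂ) (q ξ : E n) (s t : ℝ) : Prop where
  qm : q ∈ closure D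
  xm : ξ ∈ Kd D
  one : dot q ξ = 1
  lt : s < t
  le : t ≤ s + Real.pi
  ray : ∀ θ ∈ Ioo s t, ∃ v, HT D q v ∧ dot v ξ = -exp (θ * I) ∧
    ∀ᶠ x : ℝ in 𝓝[>] 0, (Φ (q + x • v) ξ).im = θ
  up : EdW D q ξ (exp (t * I))
  dn : EdW D q ξ (exp (s * I))
  rate : t = s + Real.pi ∨ (EdS D q ξ (exp (t * I)) ∧ EdS D q ξ (exp (s * I)))

variable {q ξ : E n} {T : Set (E n)}

theorem geoF_unif (h : Cn D q T) {S : Set (E n)} (hS : IsCompact S) (hK : S ⊆ T) :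
    ∃ ε > 0, ∀ x ∈ Ioo (0 : ℝ) ε, ∀ w ∈ S, q + x • w ∈ D := by
  have := hS.eventually_forall_of_forall_eventually (x₀ := (0 : ℝ))
    (P := fun x w => 0 < x → q + x • w ∈ D) fun w hw => by
      obtain ⟨ε, hε, hb⟩ := h.ht w (hK hw)
      filter_upwards [ball_mem_nhds ((0 : ℝ), w) hε] with z hz h0
      rw [mem_ball, Prod.dist_eq, max_lt_iff, Real.dist_0_eq_abs, dist_eq_norm] at hz
      exact hb q h.mem (by simpa) _ hz.2 _ ⟨h0, (le_abs_self _).trans_lt hz.1⟩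
  obtain ⟨ε, hε, hb⟩ := Metric.eventually_nhds_iff.1 this
  exact ⟨ε, hε, fun x hx w hw =>
    hb (by rw [Real.dist_0_eq_abs, abs_of_pos hx.1]; exact hx.2) w hw hx.1⟩

/-- the normalised logarithm on the tangent cone -/
theorem geoF_log (hz : (0 : E n) ∈ D) (hΦ : IsPhi D Φ) (h : Cn D q T) (hξ : ξ ∈ Kd D) (h1 : dot q ξ = 1) :
    ∃ L : E n → ℂ, ContinuousOn L (T) ∧ (∀ v ∈ T, exp (L v) = -dot v ξ) ∧
      ∀ v ∈ T, ∀ᶠ x : ℝ in 𝓝[>] 0, (Φ (q + x • v) ξ).im = (L v).im := by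
  obtain ⟨L, L1, L2⟩ := hasLogOn_of_convex (F := fun v => -dot v ξ) h.cv
    (by fun_prop) fun v hv h0 => by
      obtain ⟨t, ht⟩ := ((h.ht v hv).step h.mem).exists
      refine hξ _ ht ?_
      simp [h1, neg_eq_zero.1 h0]
  have hexp : ∀ x : ℝ, 0 < x → ∀ w ∈ T, q + x • w ∈ D →
      exp (Φ (q + x • w) ξ) = exp ((Real.log x : ℝ) + L w) := fun x hx w hw hD => by
    rw [hΦ.exp_eq _ hD _ hξ, exp_add, L2 w hw, ← ofReal_exp, Real.exp_log hx]
    simp [h1]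
  have key : ∀ v₀ ∈ T, ∀ v ∈ T, ∃ ε > 0, ∀ x ∈ Ioo (0 : ℝ) ε, ∀ y ∈ Ioo (0 : ℝ) ε,
      q + y • v₀ ∈ D ∧ Φ (q + x • v) ξ - ((Real.log x : ℝ) + L v) =
        Φ (q + y • v₀) ξ - ((Real.log y : ℝ) + L v₀) := by
    intro v₀ h0 v hv
    have hs := h.cv.segment_subset h0 hv
    obtain ⟨ε, hε, hb⟩ := geoF_unif h (S := segment ℝ v₀ v)
      (by rw [segment_eq_image]; exact isCompact_Icc.image (by fun_prop)) hs
    refine ⟨ε, hε, fun x hx y hy => ⟨hb y hy _ (left_mem_segment _ _ _), ?_⟩⟩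
    exact log_sub_const (K := Ioo (0 : ℝ) ε ×ˢ segment ℝ v₀ v)
      (ω := fun z => Φ (q + z.1 • z.2) ξ) (ω' := fun z => (Real.log z.1 : ℝ) + L z.2)
      (isPreconnected_Ioo.prod (convex_segment _ _).isPreconnected)
      (hΦ.cont.comp (f := fun z : ℝ × E n => (q + z.1 • z.2, ξ)) (by fun_prop)
        fun z hz => ⟨hb _ hz.1 _ hz.2, hξ⟩)
      ((continuous_ofReal.comp_continuousOn (continuousOn_fst.log fun z hz => hz.1.1.ne')).add
        (L1.comp continuousOn_snd fun z hz => hs hz.2))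
      (fun z hz => hexp _ hz.1.1 _ (hs hz.2) (hb _ hz.1 _ hz.2))
      (x := (x, v)) (y := (y, v₀)) ⟨hx, right_mem_segment _ _ _⟩ ⟨hy, left_mem_segment _ _ _⟩
  obtain ⟨d, h0⟩ : T.Nonempty := (h.tr 0 hz).elim fun _ hd => ⟨_, hd⟩
  obtain ⟨ε₀, hε₀, k0⟩ := key _ h0 _ h0
  have m0 : ε₀ / 2 ∈ Ioo (0 : ℝ) ε₀ := ⟨half_pos hε₀, half_lt_self hε₀⟩
  obtain ⟨c, hc⟩ : ∃ c, c = Φ (q + (ε₀ / 2) • d) ξ - ((Real.log (ε₀ / 2) : ℝ) + L d) :=
    ⟨_, rfl⟩
  have hc1 : exp c = 1 := by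
    rw [hc, exp_sub, hexp _ m0.1 _ h0 (k0 _ m0 _ m0).1, div_self (exp_ne_zero _)]
  refine ⟨fun v => L v + c, L1.add continuousOn_const,
    fun v hv => by rw [exp_add, hc1, mul_one, L2 v hv], fun v hv => ?_⟩
  obtain ⟨ε, hε, k1⟩ := key _ h0 _ hv
  have m1 : 0 < min ε ε₀ := lt_min hε hε₀
  filter_upwards [Ioo_mem_nhdsGT hε] with x hx
  have e1 := (k1 x hx _ ⟨half_pos m1, (half_lt_self m1).trans_le (min_le_left _ _)⟩).2
  have e2 := (k0 _ ⟨half_pos m1, (half_lt_self m1).trans_le (min_le_right _ _)⟩ _ m0).2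
  rw [e2, ← hc, sub_eq_iff_eq_add] at e1
  rw [e1, add_im, add_im, add_im, ofReal_im]
  ring

/-- the sector of phases -/
theorem Cn.sector (hz : (0 : E n) ∈ D) (hΦ : IsPhi D Φ) (h : Cn D q T) (hξ : ξ ∈ Kd D) (h1 : dot q ξ = 1) :
    ∃ s t : ℝ, s < t ∧ t ≤ s + Real.pi ∧
      (∀ θ ∈ Ioo s t, ∃ v ∈ T, dot v ξ = -exp (θ * I) ∧
        ∀ᶠ x : ℝ in 𝓝[>] 0, (Φ (q + x • v) ξ).im = θ) ∧
      ∀ v ∈ T, ∃ θ ∈ Ioo s t, ∃ x : ℝ, 0 < x ∧ dot v ξ = -(x * exp (θ * I)) := by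
  obtain ⟨L, L1, L2, L3⟩ := geoF_log hz hΦ h hξ h1
  obtain ⟨d, h0⟩ : T.Nonempty := (h.tr 0 hz).elim fun _ hd => ⟨_, hd⟩
  obtain ⟨A, hA⟩ : ∃ A, A = (fun v => (L v).im) '' T := ⟨_, rfl⟩
  have mA : ∀ v ∈ T, (L v).im ∈ A := fun v hv => hA ▸ mem_image_of_mem _ hv
  have hne : A.Nonempty := ⟨_, mA _ h0⟩
  have hpc : IsPreconnected A :=
    hA ▸ h.cv.isPreconnected.image _ (continuous_im.comp_continuousOn L1)
  have hd2 : ∀ a ∈ A, ∀ b ∈ A, a ≤ b + Real.pi := by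
    subst hA
    rintro _ ⟨w, hw, rfl⟩ _ ⟨v, hv, rfl⟩
    have hm : ∀ s ∈ Icc (0 : ℝ) 1, v + s • (w - v) ∈ T := fun s hs =>
      h.cv.add_smul_sub_mem hv hw hs
    have := (seg_arg (a := -dot v ξ) (b := -dot (w - v) ξ) (l := fun s => L (v + s • (w - v)))
      (L1.comp (by fun_prop) hm) fun s hs => by
        rw [L2 _ (hm s hs), dot_add_left, dot_rsmul_left]
        ring).2.2
    simp only [one_smul, add_sub_cancel, zero_smul, add_zero] at this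
    linarith [(abs_lt.1 this).2]
  obtain ⟨a₀, ha₀⟩ := hne
  have bA : BddAbove A := ⟨a₀ + Real.pi, fun a ha => hd2 a ha a₀ ha₀⟩
  have bB : BddBelow A := ⟨a₀ - Real.pi, fun a ha => by linarith [hd2 a₀ ha₀ a ha]⟩
  have hin : ∀ v ∈ T, (L v).im ∈ Ioo (sInf A) (sSup A) := by
    intro v hv
    have c1 : Continuous fun φ : ℝ => exp (φ * I) • v := by fun_prop
    obtain ⟨ε, hε, hb⟩ := Metric.eventually_nhds_iff_ball.1
      (c1.continuousAt (x := 0) (h.op.mem_nhds (by simpa using hv)))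
    have e : ∀ φ ∈ ball (0 : ℝ) ε, (L v).im + φ ∈ A := fun φ hφ => by
      have := log_sub_const (K := ball (0 : ℝ) ε) (ω := fun φ : ℝ => L (exp (φ * I) • v))
        (ω' := fun φ : ℝ => φ * I + L v) (convex_ball _ _).isPreconnected
        (L1.comp c1.continuousOn hb) (by fun_prop) (fun φ hφ => by
          rw [L2 _ (hb φ hφ), exp_add, L2 v hv, dot_smul_left, mul_neg]) hφ (mem_ball_self hε)
      simp only [ofReal_zero, zero_mul, exp_zero, one_smul, zero_add, sub_self, sub_eq_zero]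
        at this
      have h2 := mA _ (hb φ hφ)
      rw [this] at h2
      simpa [add_comm] using h2
    have e1 := csInf_le bB (e (-(ε / 2)) (by simpa [abs_of_pos hε] using hε))
    have e2 := le_csSup bA (e (ε / 2) (by simpa [abs_of_pos hε] using hε))
    exact ⟨by linarith, by linarith⟩
  refine ⟨sInf A, sSup A, (hin _ h0).1.trans (hin _ h0).2, csSup_le ⟨_, ha₀⟩ fun a ha => ?_,
    fun θ hθ => ?_, fun v hv => ⟨_, hin v hv, Real.exp (L v).re, Real.exp_pos _, ?_⟩⟩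
  · have := le_csInf (a := a - Real.pi) ⟨_, ha₀⟩ fun b hb => by linarith [hd2 a ha b hb]
    linarith
  · have := IsConnected.Ioo_csInf_csSup_subset ⟨⟨_, ha₀⟩, hpc⟩ bB bA hθ
    rw [hA] at this
    obtain ⟨v, hv, rfl⟩ := this
    have hc := Real.exp_pos (-(L v).re)
    refine ⟨_, h.sm _ hv _ hc, ?_, ?_⟩
    · rw [dot_rsmul_left, ← neg_neg (dot v ξ), ← L2 v hv, mul_neg, ofReal_exp, ← exp_add]
      congr 2
      exact Complex.ext (by simp) (by simp)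
    · have t1 : Tendsto (fun x : ℝ => x * Real.exp (-(L v).re)) (𝓝[>] 0) (𝓝[>] 0) :=
        tendsto_nhdsWithin_iff.2 ⟨tendsto_nhdsWithin_of_tendsto_nhds
          (Continuous.tendsto' (by fun_prop) _ _ (zero_mul _)),
          eventually_mem_nhdsWithin.mono fun x hx => mul_pos hx hc⟩
      filter_upwards [t1.eventually (L3 v hv)] with x hx
      rw [smul_smul, hx]
  · rw [ofReal_exp, ← exp_add, re_add_im, L2 v hv, neg_neg]

theorem Hyp.exists_loc (H : Hyp D) (hΦ : IsPhi D Φ) (hq : q ∈ closure D) (hξ : ξ ∈ Kd D)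
    (h1 : dot q ξ = 1) : ∃ s t, Loc D Φ q ξ s t := by
  have hf : q ∈ frontier D := ⟨hq, fun hi => hξ q (interior_subset hi) h1⟩
  obtain ⟨T, h⟩ := H.cn q hf
  obtain ⟨s, t, hst, hle, hray, hcone⟩ := h.sector H.zero hΦ hξ h1
  have hre : ∀ u θ x : ℝ, (I * exp (-(u * I)) * -(x * exp (θ * I))).re = x * Real.sin (θ - u) := by
    intro u θ x
    have : I * exp (-(u * I)) * -(x * exp (θ * I)) = -(x * (I * exp ((θ - u : ℝ) * I))) := by
      rw [ofReal_sub, sub_mul, sub_eq_add_neg, exp_add]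
      ring
    rw [this, neg_re, re_ofReal_mul, I_mul_re, exp_ofReal_mul_I_im]
    ring
  have hre0 : ∀ u : ℝ, (I * exp (-(u * I)) * exp (u * I)).re = 0 := fun u => by
    rw [mul_assoc, ← exp_add, neg_add_cancel, exp_zero, mul_one, I_re]
  have hre1 : (-(I * exp (-(s * I))) * exp (s * I)).re = 0 := by
    rw [neg_mul, neg_re, hre0, neg_zero]
  have hne : ∀ u : ℝ, I * exp (-(u * I)) ≠ 0 := fun u => mul_ne_zero I_ne_zero (exp_ne_zero _)
  have hne' := neg_ne_zero.2 (hne s)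
  have p1 : ∀ v ∈ T, (dot ((I * exp (-(t * I))) • ξ) v).re ≤ 0 := fun v hv => by
    obtain ⟨θ, hθ, x, hx, h2⟩ := hcone v hv
    rw [dot_smul_left, dot_comm, h2, hre]
    exact mul_nonpos_of_nonneg_of_nonpos hx.le
      (Real.sin_nonpos_of_nonpos_of_neg_pi_le (by linarith [hθ.2]) (by linarith [hθ.1]))
  have p2 : ∀ v ∈ T, (dot ((-(I * exp (-(s * I)))) • ξ) v).re ≤ 0 := fun v hv => by
    obtain ⟨θ, hθ, x, hx, h2⟩ := hcone v hv
    rw [dot_smul_left, dot_comm, h2, neg_mul, neg_re, hre, neg_nonpos]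
    exact mul_nonneg hx.le
      (Real.sin_nonneg_of_nonneg_of_le_pi (by linarith [hθ.1]) (by linarith [hθ.2]))
  have e1 := h.ed ξ hξ h1 _ _ (hne t) (norm_exp_ofReal_mul_I t) (hre0 t) p1
  have e2 := h.ed ξ hξ h1 _ _ hne' (norm_exp_ofReal_mul_I s) hre1 p2
  refine ⟨s, t, hq, hξ, h1, hst, hle, fun θ hθ => ?_, e1.edW, e2.edW, Or.inr ⟨e1, e2⟩⟩
  obtain ⟨v, hv, h2⟩ := hray θ hθ
  exact ⟨v, h.ht v hv, h2⟩

end Pool.Agent.MP_4baaa2_an.H94

/-!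
Consequences of the local picture.
-/

namespace Pool.Agent.MP_4baaa2_an.H94

open Set Metric Filter Topology Complex
open scoped ComplexConjugate
open Pool.Agent.Lib.PlaneTop

variable {n : ℕ} {D : Set (E n)} {Φ : E n → E n → ℂ}


variable {q ξ : E n} {s t σ η : ℝ}

theorem geoG_cont (hΦ : IsPhi D Φ) {a z v : E n} (ha : a ∈ Kd D) {x₀ : ℝ}
    (hD : ∀ x ∈ Icc (0 : ℝ) x₀, z + x • v ∈ D) :
    ContinuousOn (fun x : ℝ => Φ (z + x • v) a) (Icc 0 x₀) :=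
  (hΦ.contOn ha).comp (f := fun x : ℝ => z + x • v) (by fun_prop) hD

theorem geoG_seg (hΦ : IsPhi D Φ) {a z v : E n} (ha : a ∈ Kd D) {x₀ : ℝ} (h0 : 0 ≤ x₀)
    (hD : ∀ x ∈ Icc (0 : ℝ) x₀, z + x • v ∈ D) :
    |(Φ (z + x₀ • v) a).im - (Φ z a).im| < Real.pi := by
  have hm : ∀ u ∈ Icc (0 : ℝ) 1, u * x₀ ∈ Icc (0 : ℝ) x₀ := fun u hu =>
    ⟨mul_nonneg hu.1 h0, mul_le_of_le_one_left h0 hu.2⟩
  have := (seg_arg (a := 1 - dot z a) (b := -(x₀ * dot v a))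
    (l := fun u => Φ (z + (u * x₀) • v) a)
    ((geoG_cont hΦ ha hD).comp (f := fun u : ℝ => u * x₀) (by fun_prop) hm) fun u hu => by
      rw [hΦ.exp_eq _ (hD _ (hm u hu)) _ ha, dot_add_left, dot_rsmul_left]
      push_cast; ring).2.2
  simpa using this

theorem geoG_in {v z : E n} {r x₀ : ℝ} (hr : 0 < r)
    (hH : ∀ y ∈ closure D, ‖y - q‖ < r → ∀ d', ‖d' - v‖ < r → ∀ t ∈ Ioo (0 : ℝ) r, y + t • d' ∈ D)
    (hz : z ∈ D) (hzq : ‖z - q‖ < r) (hx : x₀ < r) : ∀ x ∈ Icc (0 : ℝ) x₀, z + x • v ∈ D := by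
  intro x hx'
  rcases hx'.1.eq_or_lt with h | h
  · rw [← h]; simpa using hz
  · exact hH z (subset_closure hz) hzq v (by simpa using hr) x ⟨h, hx'.2.trans_lt hx⟩

theorem geoG_ball (q ξ : E n) (S : Set (E n × E n)) {r : ℝ} (hr : 0 < r) :
    ∀ᶠ x : E n × E n in 𝓝[S] (q, ξ), ‖x.1 - q‖ < r := by
  have : ContinuousAt (fun x : E n × E n => ‖x.1 - q‖) (q, ξ) := by fun_prop
  exact nhdsWithin_le_nhds (this.eventually (gt_mem_nhds (by simpa using hr)))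

theorem geoG_small {a r ε : ℝ} (hr : 0 < r) (hε : 0 < ε) :
    ∀ᶠ x : ℝ in 𝓝[>] 0, x ∈ Ioo 0 r ∧ x * a < ε := by
  have : ContinuousAt (fun x : ℝ => x * a) 0 := by fun_prop
  filter_upwards [Ioo_mem_nhdsGT hr,
    nhdsWithin_le_nhds (this.eventually (gt_mem_nhds (by simpa using hε)))] with x h1 h2
  exact ⟨h1, h2⟩

theorem geoG_tend (hΦ : IsPhi D Φ) (hq : q ∈ closure D) (hξ : ξ ∈ Kd D) {v : E n} {r x₀ : ℝ}
    (hH : ∀ y ∈ closure D, ‖y - q‖ < r → ∀ d', ‖d' - v‖ < r → ∀ t ∈ Ioo (0 : ℝ) r, y + t • d' ∈ D)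
    (hx : x₀ ∈ Ioo 0 r) :
    Tendsto (fun x : E n × E n => (Φ (x.1 + x₀ • v) x.2).im) (𝓝[D ×ˢ Kd D] (q, ξ))
      (𝓝 (Φ (q + x₀ • v) ξ).im) := by
  have hr : 0 < r := hx.1.trans hx.2
  have hq' : q + x₀ • v ∈ D := hH q hq (by simpa using hr) v (by simpa using hr) x₀ hx
  have h1 : Tendsto (fun x : E n × E n => (x.1 + x₀ • v, x.2)) (𝓝[D ×ˢ Kd D] (q, ξ))
      (𝓝[D ×ˢ Kd D] (q + x₀ • v, ξ)) := by
    refine tendsto_nhdsWithin_iff.2 ⟨tendsto_nhdsWithin_of_tendsto_nhds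
      (Continuous.tendsto (f := fun x : E n × E n => (x.1 + x₀ • v, x.2)) (by fun_prop) (q, ξ)), ?_⟩
    filter_upwards [self_mem_nhdsWithin, geoG_ball q ξ _ hr] with x h1 h2
    exact ⟨hH _ (subset_closure h1.1) h2 v (by simpa using hr) x₀ hx, h1.2⟩
  exact (continuous_im.tendsto _).comp ((hΦ.cont _ ⟨hq', hξ⟩).tendsto.comp h1)

theorem geoG_near (hΦ : IsPhi D Φ) (L : Loc D Φ q ξ s t) {θ : ℝ} (hθ : θ ∈ Ioo s t) (hη : 0 < η) :
    ∀ᶠ x : E n × E n in 𝓝[D ×ˢ Kd D] (q, ξ), |(Φ x.1 x.2).im - θ| < Real.pi + η := by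
  obtain ⟨v, ⟨r, hr, hH⟩, -, hph⟩ := L.ray θ hθ
  obtain ⟨x₀, h1, h2⟩ := (hph.and (Ioo_mem_nhdsGT hr)).exists
  have ht := geoG_tend hΦ L.qm L.xm hH h2
  rw [h1] at ht
  filter_upwards [self_mem_nhdsWithin, geoG_ball q ξ _ hr,
    ht.eventually (Ioo_mem_nhds (sub_lt_self θ hη) (lt_add_of_pos_right θ hη))] with x hx hb hI
  have := abs_lt.1 (geoG_seg hΦ hx.2 h2.1.le (geoG_in hr hH hx.1 hb h2.2))
  rw [abs_lt]
  constructor <;> linarith [this.1, this.2, hI.1, hI.2]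

theorem geoG_shift {S : Set (E n × E n)} {P : E n × E n → Prop}
    (h : ∀ᶠ x in 𝓝[S] (q, ξ), P x) :
    ∃ ε > 0, ∀ ξ', ‖ξ' - ξ‖ < ε → ∀ᶠ x in 𝓝[S] (q, ξ'), P x := by
  have h1 := (eventually_nhdsWithin_iff.1 h).eventually_nhds
  have h2 := (Continuous.tendsto (f := fun a : E n => (q, a)) (by fun_prop) ξ).eventually h1
  obtain ⟨ε, hε, h3⟩ := Metric.eventually_nhds_iff.1 h2
  exact ⟨ε, hε, fun ξ' h' => eventually_nhdsWithin_iff.2 (h3 (by rwa [dist_eq_norm]))⟩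

theorem geoG_slice (hξ : ξ ∈ Kd D) :
    Tendsto (fun z : E n => (z, ξ)) (𝓝[D] q) (𝓝[D ×ˢ Kd D] (q, ξ)) := by
  refine tendsto_nhdsWithin_iff.2 ⟨tendsto_nhdsWithin_of_tendsto_nhds
    (Continuous.tendsto (f := fun z : E n => (z, ξ)) (by fun_prop) q), ?_⟩
  filter_upwards [self_mem_nhdsWithin] with z hz using ⟨hz, hξ⟩

theorem geoG_exp (w : ℂ) : exp w = (Real.exp w.re : ℝ) * exp (w.im * I) := by
  rw [ofReal_exp, ← Complex.exp_add, re_add_im]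

theorem geoG_sin {m u κ : ℝ} (hm : 0 ≤ m) (h1 : m ≤ u) (h2 : u ≤ Real.pi - m) (hκ : κ = 2 / Real.pi * m) :
    κ ≤ Real.sin u := by
  have hp : 0 ≤ 2 / Real.pi := by positivity
  rcases le_total u (Real.pi / 2) with h | h
  · exact hκ ▸ (mul_le_mul_of_nonneg_left h1 hp).trans (Real.mul_le_sin (hm.trans h1) h)
  · rw [← Real.sin_pi_sub]
    exact hκ ▸ (mul_le_mul_of_nonneg_left (by linarith) hp).trans
      (Real.mul_le_sin (by linarith) (by linarith))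

theorem geoG_cosle {m u : ℝ} (hm : 0 ≤ m) (h1 : m ≤ u) (h2 : u ≤ 2 * Real.pi - m) :
    Real.cos u ≤ Real.cos m := by
  rcases le_total u Real.pi with h | h
  · exact Real.cos_le_cos_of_nonneg_of_le_pi hm h h1
  · rw [← Real.cos_two_pi_sub]
    exact Real.cos_le_cos_of_nonneg_of_le_pi hm (by linarith) (by linarith)

theorem geoG_meet {a y v z : E n} {r x : ℝ} (ha : a ∈ Kd D) (hx : x ∈ Ioo 0 r)
    (hH : ∀ d', ‖d' - v‖ < r → z + x • d' ∈ D) (hy : y = z + x • v) (h0 : 0 < ‖a‖) :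
    x * r * ‖a‖ ≤ ‖1 - dot y a‖ := by
  by_contra hlt
  rw [not_le] at hlt
  have hx0 := hx.1
  have hxc : (x : ℂ) ≠ 0 := ofReal_ne_zero.2 hx0.ne'
  have hac : (‖a‖ : ℂ) ≠ 0 := ofReal_ne_zero.2 h0.ne'
  refine ha _ (hH (v + ((1 - dot y a) / (x * ‖a‖ ^ 2)) • cj a) ?_) ?_
  · rw [add_sub_cancel_left, norm_smul, norm_cj, norm_div, norm_mul, norm_pow, Complex.norm_real,
      Complex.norm_real, norm_norm, Real.norm_of_nonneg hx0.le, div_mul_eq_mul_div,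
      div_lt_iff₀ (by positivity)]
    nlinarith
  · rw [smul_add, ← add_assoc, ← hy, dot_add_left, dot_rsmul_left, dot_smul_left,
      dot_comm (cj a), dot_cj_self]
    push_cast
    field_simp
    ring

theorem geoG_cross (hΦ : IsPhi D Φ) (hξ : ξ ∈ Kd D) (h1 : dot q ξ = 1) {v : E n} {r θ u m : ℝ}
    (hr : 0 < r) (hm : 0 < m)
    (hH : ∀ y ∈ closure D, ‖y - q‖ < r → ∀ d', ‖d' - v‖ < r → ∀ t ∈ Ioo (0 : ℝ) r, y + t • d' ∈ D)
    (hv : dot v ξ = -exp (θ * I))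
    (he : EdS D q ξ (exp (u * I))) :
    ∃ ε > 0, ∀ z ∈ D, ‖z - q‖ < r → ∀ x ∈ Ioo 0 r, ‖z + x • v - q‖ < ε →
      (Φ (z + x • v) ξ).im = u → |Real.sin ((Φ z ξ).im - u)| < m := by
  have hξ0 : 0 < ‖ξ‖ := norm_pos_iff.2 fun h => by simp [h] at h1
  have hη : 0 < m * r * (‖ξ‖ / 2) / 2 := by positivity
  obtain ⟨C, hC⟩ := he _ hη
  obtain ⟨δ₀, hδ₀, hC⟩ := (nhdsGT_basis (0 : ℝ)).eventually_iff.1 hC
  obtain ⟨ε, ⟨⟨hε, e1⟩, -, e2⟩, -, e3⟩ := (((geoG_small (a := ‖ξ‖) one_pos hδ₀).and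
    (geoG_small (a := C * ‖ξ‖) one_pos (half_pos hξ0))).and (geoG_small (a := C) one_pos hη)).exists
  refine ⟨ε, hε.1, fun z hz hzq x hx hyq hu => ?_⟩
  have hy : z + x • v ∈ D := hH z (subset_closure hz) hzq v (by simpa using hr) x hx
  obtain ⟨y, hy'⟩ : ∃ y, y = z + x • v := ⟨_, rfl⟩
  rw [← hy'] at hy hyq hu
  obtain ⟨δ, hδ⟩ : ∃ δ, δ = Real.exp (Φ y ξ).re := ⟨_, rfl⟩
  have hδ0 : 0 < δ := hδ ▸ Real.exp_pos _
  have ey : 1 - dot y ξ = δ * exp (u * I) := by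
    rw [← hΦ.exp_eq y hy ξ hξ, geoG_exp, hu, hδ]
  have hδε : δ ≤ ε * ‖ξ‖ := by
    have : ‖1 - dot y ξ‖ = δ := by
      rw [ey, norm_mul, norm_exp_ofReal_mul_I, mul_one, Complex.norm_real,
        Real.norm_of_nonneg hδ0.le]
    rw [← this, ← h1, ← dot_sub_left]
    refine (norm_dot_le _ _).trans (mul_le_mul_of_nonneg_right ?_ hξ0.le)
    rw [norm_sub_rev]; exact hyq.le
  obtain ⟨a, ha, a1, a2⟩ := hC (show δ ∈ Ioo 0 δ₀ from ⟨hδ0, hδε.trans_lt e1⟩)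
  have hC0 : 0 ≤ C := nonneg_of_mul_nonneg_left ((norm_nonneg _).trans a1) hδ0
  have ha2 : ‖ξ‖ / 2 ≤ ‖a‖ := by
    have := norm_sub_norm_le ξ a
    rw [norm_sub_rev] at this
    nlinarith [mul_le_mul_of_nonneg_left hδε hC0]
  have hmeet := geoG_meet ha hx (fun d' hd => hH z (subset_closure hz) hzq d' hd x hx) hy'
    (by linarith)
  have hup : ‖1 - dot y a‖ ≤ δ * (m * r * (‖ξ‖ / 2) / 2) + δ * (ε * C) := by
    have : 1 - dot y a = -(dot q (a - ξ) - δ * exp (u * I)) - dot (y - q) (a - ξ) := by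
      rw [← ey]; simp only [dot_sub_left, dot_sub_right]; ring
    rw [this]
    refine (norm_sub_le _ _).trans ?_
    rw [norm_neg]
    have h3 := (norm_dot_le (y - q) (a - ξ)).trans
      (mul_le_mul hyq.le a1 (norm_nonneg _) hε.1.le)
    linarith
  have hxm : x < δ * m := by
    have h3 : x * r * (‖ξ‖ / 2) ≤ x * r * ‖a‖ :=
      mul_le_mul_of_nonneg_left ha2 (mul_nonneg hx.1.le hr.le)
    have h4 := mul_lt_mul_of_pos_left e3 hδ0
    have h5 : x * (r * (‖ξ‖ / 2)) < δ * m * (r * (‖ξ‖ / 2)) := by linarith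
    exact lt_of_mul_lt_mul_right h5 (by positivity)
  have ez : exp (Φ z ξ) = δ * exp (u * I) - x * exp (θ * I) := by
    rw [hΦ.exp_eq z hz ξ hξ, ← ey, hy', dot_add_left, dot_rsmul_left, hv]; ring
  obtain ⟨φ, hφ⟩ : ∃ φ, φ = (Φ z ξ).im := ⟨_, rfl⟩
  rw [geoG_exp, ← hφ] at ez
  rw [← hφ]
  have r1 := congrArg re ez
  have r2 := congrArg im ez
  simp only [sub_re, sub_im, re_ofReal_mul, im_ofReal_mul, exp_ofReal_mul_I_re,
    exp_ofReal_mul_I_im] at r1 r2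
  have key : δ * Real.sin (φ - u) = x * Real.sin (φ - θ) := by
    rw [Real.sin_sub, Real.sin_sub]
    linear_combination Real.cos φ * r2 - Real.sin φ * r1
  have h6 : δ * |Real.sin (φ - u)| ≤ x := by
    rw [← abs_of_pos hδ0, ← abs_mul, key, abs_mul, abs_of_pos hx.1]
    exact mul_le_of_le_one_right hx.1.le (Real.abs_sin_le_one _)
  exact lt_of_mul_lt_mul_left (h6.trans_lt hxm) hδ0.le

theorem geoG_edge (hΦ : IsPhi D Φ) (h1 : dot q ξ = 1) {u c ε : ℝ} (hc0 : 0 ≤ c) (hc : c < 1)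
    (hε : 0 < ε)
    (he : EdW D q ξ (exp (u * I))) :
    ∃ ξ' ∈ Kd D, ‖ξ' - ξ‖ < ε ∧ ∀ᶠ x : E n × E n in 𝓝[D ×ˢ Kd D] (q, ξ'),
      c < -Real.cos ((Φ x.1 x.2).im - u) := by
  obtain ⟨m, hm⟩ : ∃ m, m = (1 - c) / 4 := ⟨_, rfl⟩
  have hm0 : 0 < m := by linarith
  obtain ⟨δ, hδ0, a, ha, a1, a2⟩ := he _ (lt_min hε hm0)
  refine ⟨a, ha, a1.trans_le (min_le_left _ _), ?_⟩
  have hcont : ContinuousAt
      (fun x : E n × E n => ‖1 - dot x.1 x.2 + δ * exp (u * I)‖) (q, a) := by fun_prop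
  have hlt : ‖1 - dot q a + δ * exp (u * I)‖ < δ * m := by
    have : 1 - dot q a + δ * exp (u * I) = -(dot q (a - ξ) - δ * exp (u * I)) := by
      rw [dot_sub_right, h1]; ring
    rw [this, norm_neg]
    exact a2.trans_le (mul_le_mul_of_nonneg_left (min_le_right _ _) hδ0.le)
  filter_upwards [self_mem_nhdsWithin,
    nhdsWithin_le_nhds (hcont.eventually (gt_mem_nhds hlt))] with x hx hb
  rw [← hΦ.exp_eq _ hx.1 _ hx.2, geoG_exp] at hb
  obtain ⟨ρ, hρ⟩ : ∃ ρ, ρ = Real.exp (Φ x.1 x.2).re := ⟨_, rfl⟩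
  have hρ0 : 0 < ρ := hρ ▸ Real.exp_pos _
  obtain ⟨φ, hφ⟩ : ∃ φ, φ = (Φ x.1 x.2).im := ⟨_, rfl⟩
  rw [← hρ, ← hφ] at hb
  rw [← hφ]
  have hfac : (ρ : ℂ) * exp (φ * I) + δ * exp (u * I) =
      (ρ * exp ((φ - u : ℝ) * I) + δ) * exp (u * I) := by
    rw [add_mul, mul_assoc, ← Complex.exp_add]; push_cast; ring_nf
  rw [hfac, norm_mul, norm_exp_ofReal_mul_I, mul_one] at hb
  have b1 := (le_abs_self _).trans ((abs_re_le_norm _).trans hb.le)
  simp only [add_re, re_ofReal_mul, exp_ofReal_mul_I_re, ofReal_re] at b1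
  have b2 := norm_sub_le ((ρ : ℂ) * exp ((φ - u : ℝ) * I) + δ) δ
  rw [add_sub_cancel_right, norm_mul, norm_exp_ofReal_mul_I, mul_one, Complex.norm_real,
    Complex.norm_real, Real.norm_of_nonneg hρ0.le, Real.norm_of_nonneg hδ0.le] at b2
  by_contra hn
  rw [not_lt] at hn
  have b3 : ρ * -Real.cos (φ - u) ≤ (δ * m + δ) * c :=
    (mul_le_mul_of_nonneg_left hn hρ0.le).trans (mul_le_mul_of_nonneg_right (by linarith) hc0)
  have b4 : δ * m * c ≤ δ * m := mul_le_of_le_one_right (by positivity) hc.le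
  have b5 : δ * c = δ - 4 * (δ * m) := by rw [hm]; ring
  nlinarith [mul_pos hδ0 hm0]

theorem geoG_par (L : Loc D Φ q ξ s t) (hη : 0 < η) :
    ∃ m, 0 < m ∧ m ≤ η ∧ m ≤ (t - s) / 2 ∧ 0 ≤ Real.cos m ∧ Real.cos m < 1 := by
  have h1 := L.lt
  have h2 := L.le
  have h3 := Real.pi_pos
  have h0 : 0 < min η ((t - s) / 2) := lt_min hη (by linarith)
  have h4 := min_le_right η ((t - s) / 2)
  refine ⟨_, h0, min_le_left _ _, h4,
    Real.cos_nonneg_of_neg_pi_div_two_le_of_le (by linarith) (by linarith), ?_⟩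
  rw [← Real.cos_zero]
  exact Real.cos_lt_cos_of_nonneg_of_le_pi le_rfl (by linarith) h0


/-- Hint: fix `θ ∈ Ioo s t`, `v` from `ray`, a small `x₀` with `Im Φ (q + x₀ v) ξ = θ`. For
`(z, ξ')` near `(q, ξ)` the segment from `z` to `z + x₀ v` lies in `D`, so (`seg_arg`)
`|Im Φ z ξ' - Im Φ (z + x₀ v) ξ'| < π`, and `Φ` is continuous at `(q + x₀ v, ξ)`. Use `θ` close to
`t` for the lower and close to `s` for the upper bound. -/
theorem Loc.weak (hΦ : IsPhi D Φ) (L : Loc D Φ q ξ s t) (hη : 0 < η) :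
    ∀ᶠ x : E n × E n in 𝓝[D ×ˢ Kd D] (q, ξ),
      (Φ x.1 x.2).im ∈ Icc (t - Real.pi - η) (s + Real.pi + η) := by
  have h1 := L.lt
  filter_upwards [geoG_near hΦ L (θ := max (t - η / 2) ((s + t) / 2))
      ⟨lt_max_of_lt_right (by linarith), max_lt (by linarith) (by linarith)⟩ (half_pos hη),
    geoG_near hΦ L (θ := min (s + η / 2) ((s + t) / 2))
      ⟨lt_min (by linarith) (by linarith), min_lt_of_right_lt (by linarith)⟩ (half_pos hη)]
    with x a b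
  constructor
  · linarith [(abs_lt.1 a).1, le_max_left (t - η / 2) ((s + t) / 2)]
  · linarith [(abs_lt.1 b).2, min_le_left (s + η / 2) ((s + t) / 2)]

/-- Hint (upper bound; the lower one is symmetric, with `dn`): fix `θ ∈ Ioo s t`, `v`, `r` of `HT`,
a small `x₀`. Let `z` be near `q` with phase `φ > t + η`; by `weak`, `φ < t + π`. The phase at
`z + x₀ v` is `< t`, so it equals `t` at some `y = z + x v`, `0 < x < x₀`:
`1 - ⟨y, ξ⟩ = δ e^{it}`, and `1 - ⟨z, ξ⟩ = δ e^{it} - x e^{iθ}` has phase `φ`, so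
`x ≥ δ sin (min η (π/2))` (distance from `δ e^{it}` to the ray of phase `φ`). The ball with centre `y`
and radius `x r` lies in `D`, and for `ξ'` from `up`
`‖1 - ⟨y, ξ'⟩‖ ≤ C δ² + C δ ‖y - q‖ < x r ‖ξ'‖`; so the ball meets the hyperplane `ξ'`
(move in the direction `cj ξ'`), a contradiction. -/
theorem Loc.strong (hΦ : IsPhi D Φ) (L : Loc D Φ q ξ s t) (hη : 0 < η) :
    ∀ᶠ z in 𝓝[D] q, (Φ z ξ).im ∈ Icc (s - η) (t + η) := by
  rcases L.rate with hr | ⟨up, dn⟩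
  · filter_upwards [(geoG_slice L.xm).eventually (L.weak hΦ hη)] with z hz
    exact ⟨by linarith [hz.1], by linarith [hz.2]⟩
  obtain ⟨m, hm, m1, m2, -⟩ := geoG_par L hη
  have h1 := L.lt
  have hθ : (s + t) / 2 ∈ Ioo s t := ⟨by linarith, by linarith⟩
  obtain ⟨v, ⟨r, hr, hH⟩, hv, hph⟩ := L.ray _ hθ
  have hκ : 0 < 2 / Real.pi * m := by positivity
  obtain ⟨ε₁, hε₁, c1⟩ := geoG_cross hΦ L.xm L.one hr hκ hH hv up
  obtain ⟨ε₂, hε₂, c2⟩ := geoG_cross hΦ L.xm L.one hr hκ hH hv dn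
  have hε : 0 < min ε₁ ε₂ / 2 := half_pos (lt_min hε₁ hε₂)
  obtain ⟨x₀, hx1, hx2, hx3⟩ := (hph.and (geoG_small (a := ‖v‖) hr hε)).exists
  have ht := geoG_tend hΦ L.qm L.xm hH hx2
  rw [hx1] at ht
  have hall := (L.weak hΦ (η := (t - s) / 2) (by linarith)).and ((geoG_ball q ξ _ hr).and
    ((geoG_ball q ξ _ hε).and (ht.eventually (Ioo_mem_nhds hθ.1 hθ.2))))
  filter_upwards [self_mem_nhdsWithin, (geoG_slice L.xm).eventually hall] with z hz h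
  obtain ⟨hw, hb, hb', hI⟩ := h
  have hc := continuous_im.comp_continuousOn (geoG_cont hΦ L.xm (geoG_in hr hH hz hb hx2.2))
  have hn : ∀ x ∈ Icc (0 : ℝ) x₀, ‖z + x • v - q‖ < min ε₁ ε₂ := fun x hx => by
    rw [add_sub_right_comm]
    refine (norm_add_le _ _).trans_lt ?_
    rw [norm_smul, Real.norm_of_nonneg hx.1]
    linarith [mul_le_mul_of_nonneg_right hx.2 (norm_nonneg v)]
  constructor
  · by_contra hlt
    rw [not_le] at hlt
    obtain ⟨x, hx, hxs⟩ := intermediate_value_Ioo hx2.1.le hc (show s ∈ Ioo _ _ from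
      ⟨by simp only [Function.comp, zero_smul, add_zero]; linarith, hI.1⟩)
    have := c2 z hz hb x ⟨hx.1, hx.2.trans hx2.2⟩
      ((hn x (Ioo_subset_Icc_self hx)).trans_le (min_le_right _ _)) hxs
    rw [← abs_neg, ← Real.sin_neg, neg_sub] at this
    exact ((geoG_sin hm.le (by linarith) (by linarith [hw.1]) rfl).trans
      (le_abs_self _)).not_gt this
  · by_contra hlt
    rw [not_le] at hlt
    obtain ⟨x, hx, hxs⟩ := intermediate_value_Ioo' hx2.1.le hc (show t ∈ Ioo _ _ from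
      ⟨hI.2, by simp only [Function.comp, zero_smul, add_zero]; linarith⟩)
    have := c1 z hz hb x ⟨hx.1, hx.2.trans hx2.2⟩
      ((hn x (Ioo_subset_Icc_self hx)).trans_le (min_le_left _ _)) hxs
    exact ((geoG_sin hm.le (by linarith) (by linarith [hw.2]) rfl).trans
      (le_abs_self _)).not_gt this

/-- Hint: wlog `η < (t - s) / 2`, `η ≤ 1`. For `ξ'` from `up` with small `δ` and `(z, a)` near
`(q, ξ')` the number `1 - ⟨z, a⟩` is `- δ e^{it} (1 + O(η))`, so its phase is `t - π + O(η)` modulo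
`2π`; `weak` excludes all other candidates. -/
theorem Loc.ph_up (hΦ : IsPhi D Φ) (L : Loc D Φ q ξ s t) (hη : 0 < η) {ε : ℝ} (hε : 0 < ε) :
    ∃ ξ' ∈ Kd D, ‖ξ' - ξ‖ < ε ∧ ∀ᶠ x : E n × E n in 𝓝[D ×ˢ Kd D] (q, ξ'),
      (Φ x.1 x.2).im ≤ t - Real.pi + η := by
  obtain ⟨m, hm, m1, m2, c0, c1⟩ := geoG_par L hη
  have h1 := L.lt
  obtain ⟨ε', hε', hw⟩ := geoG_shift (L.weak hΦ (η := (t - s) / 2) (by linarith))
  obtain ⟨a, ha, a1, a2⟩ := geoG_edge hΦ L.one c0 c1 (lt_min hε hε') L.up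
  refine ⟨a, ha, a1.trans_le (min_le_left _ _), ?_⟩
  filter_upwards [a2, hw a (a1.trans_le (min_le_right _ _))] with x b1 b2
  by_contra hlt
  rw [not_le] at hlt
  rw [← Real.cos_add_pi] at b1
  exact (geoG_cosle hm.le (by linarith) (by linarith [b2.2])).not_gt b1

theorem Loc.ph_dn (hΦ : IsPhi D Φ) (L : Loc D Φ q ξ s t) (hη : 0 < η) {ε : ℝ} (hε : 0 < ε) :
    ∃ ξ' ∈ Kd D, ‖ξ' - ξ‖ < ε ∧ ∀ᶠ x : E n × E n in 𝓝[D ×ˢ Kd D] (q, ξ'),
      s + Real.pi - η ≤ (Φ x.1 x.2).im := by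
  obtain ⟨m, hm, m1, m2, c0, c1⟩ := geoG_par L hη
  have h1 := L.lt
  obtain ⟨ε', hε', hw⟩ := geoG_shift (L.weak hΦ (η := (t - s) / 2) (by linarith))
  obtain ⟨a, ha, a1, a2⟩ := geoG_edge hΦ L.one c0 c1 (lt_min hε hε') L.dn
  refine ⟨a, ha, a1.trans_le (min_le_left _ _), ?_⟩
  filter_upwards [a2, hw a (a1.trans_le (min_le_right _ _))] with x b1 b2
  by_contra hlt
  rw [not_le] at hlt
  rw [← Real.cos_pi_sub] at b1
  exact (geoG_cosle hm.le (by linarith) (by linarith [b2.1])).not_gt b1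

theorem Loc.tru (hΦ : IsPhi D Φ) (L : Loc D Φ q ξ s t) (h : t = s + Real.pi) :
    Tru D Φ q ξ (s + Real.pi / 2) := by
  refine ⟨L.qm, L.xm, L.one, fun η hη => (L.weak hΦ hη).mono fun x hx => abs_le.2 ⟨?_, ?_⟩⟩
  · linarith [hx.1]
  · linarith [hx.2]

/-- Hint: `ph_up`, `ph_dn` give `σ - π/2 ≤ t - π` and `s + π ≤ σ + π/2`. -/
theorem Loc.flat (hΦ : IsPhi D Φ) (L : Loc D Φ q ξ s t) (h : Tru D Φ q ξ σ) :
    t = s + Real.pi ∧ σ = s + Real.pi / 2 := by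
  have hne : ∀ a ∈ Kd D, (𝓝[D ×ˢ Kd D] (q, a)).NeBot := fun a ha =>
    mem_closure_iff_nhdsWithin_neBot.1 (by
      rw [closure_prod_eq]; exact ⟨L.qm, subset_closure ha⟩)
  have h1 : σ - Real.pi / 2 ≤ t - Real.pi := le_of_forall_pos_le_add fun η hη => by
    obtain ⟨ε, hε, hw⟩ := geoG_shift (h.2.2.2 _ (half_pos hη))
    obtain ⟨a, ha, a1, a2⟩ := L.ph_up hΦ (half_pos hη) hε
    have := hne a ha
    obtain ⟨x, b1, b2⟩ := (a2.and (hw a a1)).exists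
    linarith [(abs_le.1 b2).1]
  have h2 : s + Real.pi ≤ σ + Real.pi / 2 := le_of_forall_pos_le_add fun η hη => by
    obtain ⟨ε, hε, hw⟩ := geoG_shift (h.2.2.2 _ (half_pos hη))
    obtain ⟨a, ha, a1, a2⟩ := L.ph_dn hΦ (half_pos hη) hε
    have := hne a ha
    obtain ⟨x, b1, b2⟩ := (a2.and (hw a a1)).exists
    linarith [(abs_le.1 b2).2]
  have h3 := L.le
  constructor <;> linarith

/-- every phase of the sector occurs arbitrarily close to `q` -/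
theorem Loc.freq (L : Loc D Φ q ξ s t) {θ : ℝ} (hθ : θ ∈ Ioo s t) {ε : ℝ} (hε : 0 < ε) :
    ∃ z ∈ D, ‖z - q‖ < ε ∧ (Φ z ξ).im = θ := by
  obtain ⟨v, ⟨r, hr, hH⟩, -, hph⟩ := L.ray θ hθ
  obtain ⟨x, h1, h2, h3⟩ := (hph.and (geoG_small (a := ‖v‖) hr hε)).exists
  refine ⟨_, hH q L.qm (by simpa using hr) v (by simpa using hr) x h2, ?_, h1⟩
  rwa [add_sub_cancel_left, norm_smul, Real.norm_of_nonneg h2.1.le]

end Pool.Agent.MP_4baaa2_an.H94

end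

-- part MP_4baaa2_an.H94.GeoH
section

/-!
Phases at low levels; types.
-/

namespace Pool.Agent.MP_4baaa2_an.H94

open Set Metric Filter Topology Complex
open scoped ComplexConjugate
open Pool.Agent.Lib.PlaneTop

variable {n : ℕ} {D : Set (E n)} {Φ : E n → E n → ℂ}

/-- radial segments reach all low levels -/
lemma geoH_ray (hΦ : IsPhi D Φ) {q ξ : E n} {s t θ ε : ℝ} (L : Loc D Φ q ξ s t)
    (hθ : θ ∈ Ioo s t) {Ψ : E n → ℂ} (hΨ : ContinuousOn Ψ (closure D)) (hε : 0 < ε) :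
    ∃ p ∈ D, ∀ᶠ m : ℝ in atBot, ∃ z, JoinedIn {y | y ∈ D ∧ m - ε ≤ (Φ y ξ - Ψ y).re} z p ∧
      (Φ z ξ - Ψ z).re ≤ m + ε ∧ |(Φ z ξ - Ψ z).im - (θ - (Ψ q).im)| ≤ ε := by
  obtain ⟨v, ⟨r, hr, hv⟩, h1, h2⟩ := L.ray θ hθ
  have h3 : ∀ᶠ x : ℝ in 𝓝[>] 0, q + x • v ∈ D := by
    filter_upwards [Ioo_mem_nhdsGT hr] with x hx
    exact hv q L.qm (by simpa using hr) v (by simpa using hr) x hx
  have hc : Continuous fun x : ℝ => q + x • v := by fun_prop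
  have h4 : Tendsto (fun x : ℝ => q + x • v) (𝓝[>] 0) (𝓝[closure D] q) :=
    tendsto_nhdsWithin_iff.2 ⟨(hc.tendsto' 0 q (by simp)).mono_left nhdsWithin_le_nhds,
      h3.mono fun _ h => subset_closure h⟩
  have h5 := Metric.tendsto_nhds.1 ((hΨ q L.qm).tendsto.comp h4) ε hε
  obtain ⟨x₀, hx₀, h6⟩ := mem_nhdsGT_iff_exists_Ioc_subset.1 (h2.and (h3.and h5))
  have h7 : ∀ x ∈ Ioc 0 x₀, q + x • v ∈ D ∧
      |(Φ (q + x • v) ξ - Ψ (q + x • v)).re - (Real.log x - (Ψ q).re)| ≤ ε ∧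
      |(Φ (q + x • v) ξ - Ψ (q + x • v)).im - (θ - (Ψ q).im)| ≤ ε := fun x hx => by
    obtain ⟨a1, a2, a3⟩ := h6 hx
    have a4 := congrArg norm (hΦ.exp_eq _ a2 ξ L.xm)
    rw [norm_exp, dot_add_left, dot_rsmul_left, L.one, h1] at a4
    simp only [sub_add_cancel_left, mul_neg, neg_neg, norm_mul, norm_exp_ofReal_mul_I, mul_one,
      norm_real, Real.norm_of_nonneg hx.1.le] at a4
    rw [Function.comp, dist_comm, dist_eq_norm] at a3
    have a5 := (abs_re_le_norm _).trans a3.le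
    have a6 := (abs_im_le_norm _).trans a3.le
    refine ⟨a2, ?_, ?_⟩
    · rwa [sub_re, ← a4, Real.log_exp, a4, sub_sub_sub_cancel_left, ← sub_re]
    · rwa [sub_im, a1, sub_sub_sub_cancel_left, ← sub_im]
  refine ⟨_, (h7 x₀ ⟨hx₀, le_rfl⟩).1, ?_⟩
  filter_upwards [eventually_le_atBot (Real.log x₀ - (Ψ q).re)] with m hm
  have h8 : 0 < Real.exp (m + (Ψ q).re) := Real.exp_pos _
  have h9 : Real.exp (m + (Ψ q).re) ≤ x₀ := (Real.le_log_iff_exp_le hx₀).1 (by linarith)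
  obtain ⟨-, a1, a2⟩ := h7 _ ⟨h8, h9⟩
  rw [Real.log_exp] at a1
  refine ⟨_, ((((convex_Icc _ _).isPathConnected ⟨_, le_rfl, h9⟩).image hc).joinedIn _
    ⟨_, ⟨le_rfl, h9⟩, rfl⟩ _ ⟨_, ⟨h9, le_rfl⟩, rfl⟩).mono ?_, by linarith [(abs_le.1 a1).2], a2⟩
  rintro _ ⟨x, hx, rfl⟩
  obtain ⟨b1, b2, -⟩ := h7 x ⟨h8.trans_le hx.1, hx.2⟩
  have := (Real.le_log_iff_exp_le (h8.trans_le hx.1)).2 hx.1
  exact ⟨b1, by linarith [(abs_le.1 b2).1]⟩

/-- All phases at contact points lie in an interval shorter than `2π`. -/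
theorem Hyp.two_pi (H : Hyp D) (hΦ : IsPhi D Φ) {a : E n} (ha : a ∈ interior (Kd D))
    {Ψ : E n → ℂ} (hΨ : IsExt D Φ a Ψ) : ∃ μ > 0, ∀ ξ q₁ q₂ : E n, ∀ s₁ t₁ s₂ t₂ : ℝ,
      Loc D Φ q₁ ξ s₁ t₁ → Loc D Φ q₂ ξ s₂ t₂ →
        (t₂ - (Ψ q₂).im) - (s₁ - (Ψ q₁).im) ≤ 2 * Real.pi - μ := by
  obtain ⟨μ, hμ, hs⟩ := H.sep_a hΦ ha
  refine ⟨μ / 8, by positivity, fun ξ q₁ q₂ s₁ t₁ s₂ t₂ L₁ L₂ => ?_⟩
  have hε : 0 < μ / 32 := by positivity
  obtain ⟨θ₁, a1, a2⟩ := exists_between (lt_min L₁.lt (lt_add_of_pos_right s₁ hε))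
  obtain ⟨θ₂, a3, a4⟩ := exists_between (max_lt L₂.lt (sub_lt_self t₂ hε))
  rw [lt_min_iff] at a2
  rw [max_lt_iff] at a3
  obtain ⟨p₁, hp₁, h₁⟩ := geoH_ray hΦ L₁ ⟨a1, a2.1⟩ hΨ.cont hε
  obtain ⟨p₂, hp₂, h₂⟩ := geoH_ray hΦ L₂ ⟨a3.1, a4⟩ hΨ.cont hε
  have hF : ContinuousOn (fun y => Φ y ξ - Ψ y) D :=
    (hΦ.contOn L₁.xm).sub (hΨ.cont.mono subset_closure)
  obtain ⟨P, hP⟩ := (H.isOpen.isConnected_iff_isPathConnected.1 H.conn).joinedIn _ hp₁ _ hp₂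
  obtain ⟨B, hB⟩ := (isCompact_range (continuous_re.comp
    (hF.comp_continuous P.continuous hP))).bddBelow
  obtain ⟨m, hm, ⟨z₁, j₁, b1, b2⟩, z₂, j₂, b3, b4⟩ :=
    ((eventually_le_atBot B).and (h₁.and h₂)).exists
  have j₃ : JoinedIn {y | y ∈ D ∧ m - μ / 32 ≤ (Φ y ξ - Ψ y).re} p₁ p₂ :=
    ⟨P, fun u => ⟨hP u, ((sub_le_self _ hε.le).trans hm).trans (hB ⟨u, rfl⟩)⟩⟩
  obtain ⟨Q, hQ⟩ := (j₁.trans j₃).trans j₂.symm
  have hQ' : ∀ u, Q.extend u ∈ D ∧ m - μ / 32 ≤ (Φ (Q.extend u) ξ - Ψ (Q.extend u)).re :=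
    fun u => hQ (projIcc 0 1 zero_le_one u)
  have := cl_margin (γ := fun u => Φ (Q.extend u) ξ - Ψ (Q.extend u)) (m := m - μ / 32) hμ
    (hF.comp_continuous Q.continuous_extend fun u => (hQ' u).1).continuousOn
    (fun u _ w _ => by
      have := hs ξ L₁.xm _ (hQ' u).1 _ (hQ' w).1 1 one_ne_zero
      rwa [Int.cast_one, one_mul, ← hΨ.eq _ (hQ' u).1, ← hΨ.eq _ (hQ' w).1] at this)
    (fun u _ => (hQ' u).2) (by rw [Q.extend_zero]; linarith) (by rw [Q.extend_one]; linarith)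
  rw [Q.extend_zero, Q.extend_one] at this
  linarith [(abs_le.1 b2).2, (abs_le.1 b4).1, a2.2, a3.2]

/-- a property which holds near all contact points holds at low levels -/
lemma geoH_cover (H : Hyp D) {ξ : E n} {p : E n → Prop}
    (h : ∀ q ∈ closure D, dot q ξ = 1 → ∀ᶠ z in 𝓝[D] q, p z) :
    ∃ κ > 0, ∀ z ∈ D, ‖1 - dot z ξ‖ < κ → p z := by
  have h1 := H.bdd.isCompact_closure.eventually_forall_of_forall_eventually (x₀ := (0 : ℝ))
    (P := fun κ z => z ∈ D → ‖1 - dot z ξ‖ < κ → p z) fun q hq => by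
      by_cases h1 : dot q ξ = 1
      · exact (continuous_snd.continuousAt.eventually
          (eventually_nhdsWithin_iff.1 (h q hq h1))).mono fun x hx a _ => hx a
      · have h2 : ∀ᶠ x : ℝ × E n in 𝓝 (0, q), x.1 < ‖1 - dot x.2 ξ‖ :=
          ContinuousAt.eventually_lt (by fun_prop) (by fun_prop)
            (norm_pos_iff.2 (sub_ne_zero.2 (Ne.symm h1)))
        exact h2.mono fun x hx _ a => absurd a hx.not_gt
  obtain ⟨κ, h2, h3⟩ := ((h1.filter_mono (nhdsWithin_le_nhds (s := Ioi 0))).and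
    self_mem_nhdsWithin).exists
  exact ⟨κ, h3, fun z hz => h2 z (subset_closure hz) hz⟩

theorem Hyp.low (H : Hyp D) (hΦ : IsPhi D Φ) {ξ : E n} (hξ : ξ ∈ Kd D) {η : ℝ} (hη : 0 < η) :
    ∃ κ > 0, ∀ z ∈ D, ‖1 - dot z ξ‖ < κ → ∃ q s t, Loc D Φ q ξ s t ∧
      (Φ z ξ).im ∈ Icc (s - η) (t + η) :=
  geoH_cover H fun q hq h1 => by
    obtain ⟨s, t, L⟩ := H.exists_loc hΦ hq hξ h1
    exact (L.strong hΦ hη).mono fun z hz => ⟨q, s, t, L, hz⟩

/-- bounds for the phases near `q` are bounds for the sector -/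
lemma geoH_bd {q ξ : E n} {s t a b : ℝ} (L : Loc D Φ q ξ s t)
    (h : ∀ᶠ z in 𝓝[D] q, (Φ z ξ).im ∈ Icc a b) : a ≤ s ∧ t ≤ b := by
  obtain ⟨r, hr, h1⟩ := Metric.mem_nhdsWithin_iff.1 h
  rw [← Icc_subset_Icc_iff L.lt.le, ← closure_Ioo L.lt.ne]
  refine closure_minimal (fun θ hθ => ?_) isClosed_Icc
  obtain ⟨z, hz, h2, rfl⟩ := L.freq hθ hr
  exact h1 ⟨mem_ball_iff_norm.2 h2, hz⟩

theorem Hyp.npex (H : Hyp D) (hΦ : IsPhi D Φ) : ∃ γ > 0, γ ≤ 1 / 10 ∧ ∃ A₀ : ℝ, ∀ ξ ∈ Kd D,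
    ∃ (β : ℚ) (k : ℕ), |(β : ℝ)| ≤ A₀ ∧ NP D Φ ξ β (2 * γ) (1 / ((k : ℝ) + 1)) := by
  obtain ⟨μ, hμ, h1⟩ := H.two_pi hΦ (zero_mem_interior_Kd H.bdd) (H.ext_zero hΦ)
  obtain ⟨A, hA⟩ := H.phi_bdd hΦ
  have hπ := Real.pi_pos
  refine ⟨min (μ / 16) (1 / 10), by positivity, min_le_right _ _, A + Real.pi + μ, fun ξ hξ => ?_⟩
  obtain ⟨σ, h2, h3⟩ : ∃ σ : ℝ, |σ| ≤ A ∧ ∀ q s t, Loc D Φ q ξ s t →
      σ ≤ s ∧ t ≤ σ + 2 * Real.pi - μ := by
    have hb : ∀ q s t, Loc D Φ q ξ s t → -A ≤ s ∧ t ≤ A := fun q s t L =>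
      geoH_bd L (eventually_mem_nhdsWithin.mono fun z hz => abs_le.1 (hA z hz ξ hξ))
    rcases {s | ∃ q t, Loc D Φ q ξ s t}.eq_empty_or_nonempty with h | h
    · exact ⟨0, by simpa using (abs_nonneg _).trans (hA 0 H.zero ξ hξ), fun q s t L =>
        absurd (show s ∈ {s | ∃ q t, Loc D Φ q ξ s t} from ⟨q, t, L⟩) (by simp [h])⟩
    have hl : -A ∈ lowerBounds {s | ∃ q t, Loc D Φ q ξ s t} := fun s ⟨q, t, L⟩ => (hb q s t L).1
    refine ⟨sInf {s | ∃ q t, Loc D Φ q ξ s t}, abs_le.2 ⟨le_csInf h hl, ?_⟩, fun q s t L =>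
      ⟨csInf_le ⟨_, hl⟩ ⟨q, t, L⟩, ?_⟩⟩
    · obtain ⟨s, q, t, L⟩ := h
      exact ((csInf_le ⟨_, hl⟩ ⟨q, t, L⟩).trans L.lt.le).trans (hb q s t L).2
    · have : t - (2 * Real.pi - μ) ≤ sInf {s | ∃ q t, Loc D Φ q ξ s t} :=
        le_csInf h fun s' ⟨q', t', L'⟩ => by
          have := h1 ξ q' q s' t' s t L' L
          simp only [zero_im] at this
          linarith
      linarith
  obtain ⟨β, h4, h5⟩ := exists_rat_btwn
    (show σ + Real.pi - μ / 2 < σ + Real.pi - μ / 2 + μ / 16 by linarith)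
  obtain ⟨κ, hκ, h6⟩ := H.low hΦ hξ (show 0 < μ / 16 by positivity)
  obtain ⟨k, hk⟩ := exists_nat_one_div_lt hκ
  rw [abs_le] at h2
  refine ⟨β, k, abs_le.2 ⟨by linarith, by linarith⟩, fun z hz h7 => ?_⟩
  obtain ⟨q, s, t, L, h8, h9⟩ := h6 z hz (h7.trans hk)
  have := h3 q s t L
  have := min_le_left (μ / 16) (1 / 10)
  exact abs_le.2 ⟨by linarith, by linarith⟩

theorem Hyp.dense (H : Hyp D) (hΦ : IsPhi D Φ) : Kd D ⊆ closure (Oc D) := by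
  obtain ⟨γ, hγ, hγ1, A, h⟩ := H.npex hΦ
  intro ξ hξ
  obtain ⟨β, k, -, h1⟩ := h ξ hξ
  have hκ : 0 < 1 / ((k : ℝ) + 1) := by positivity
  generalize 1 / ((k : ℝ) + 1) = κ at h1 hκ
  generalize (β : ℝ) = b at h1
  have hπ := Real.pi_gt_three
  have h2 : closure D ⊆ {z | κ ≤ ‖1 - dot z ξ‖} ∪ {z | -Real.cos (2 * γ) * ‖1 - dot z ξ‖ ≤
      (exp (-(b * I)) * (1 - dot z ξ)).re} := by
    refine closure_minimal (fun z hz => ?_) ((isClosed_le continuous_const (by fun_prop)).union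
      (isClosed_le (by fun_prop) (by fun_prop)))
    refine (le_or_gt κ ‖1 - dot z ξ‖).imp id fun h3 => ?_
    have h4 := Real.cos_le_cos_of_nonneg_of_le_pi (abs_nonneg _) (by linarith) (h1 z hz h3)
    rw [Real.cos_pi_sub, Real.cos_abs] at h4
    rw [mem_ofPred_eq, ← hΦ.exp_eq z hz ξ hξ, ← exp_add, exp_re, norm_exp, mul_comm]
    simpa [neg_add_eq_sub] using mul_le_mul_of_nonneg_left h4 (Real.exp_pos (Φ z ξ).re).le
  have h3 : Real.cos (2 * γ) < 1 := by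
    simpa using Real.cos_lt_cos_of_nonneg_of_le_pi le_rfl (by linarith) (show 0 < 2 * γ by linarith)
  have hc : ContinuousAt (fun x : ℝ => (1 + x * exp (b * I) : ℂ)⁻¹ • ξ) 0 :=
    (ContinuousAt.inv₀ (f := fun x : ℝ => (1 + x * exp (b * I) : ℂ)) (by fun_prop)
      (by simp)).smul continuousAt_const
  refine mem_closure_of_tendsto (b := 𝓝[>] 0)
    ((hc.tendsto.mono_left nhdsWithin_le_nhds).trans_eq (by simp)) ?_
  filter_upwards [Ioo_mem_nhdsGT hκ] with x hx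
  refine H.oc_eq hΦ (mem_interior_Kd H.bdd fun z hz h4 => ?_)
  rw [dot_smul_right] at h4
  have h5 : 1 - dot z ξ = -(x * exp (b * I)) := by
    rw [eq_inv_of_mul_eq_one_right h4, inv_inv]; ring
  have h6 : ‖1 - dot z ξ‖ = x := by
    rw [h5, norm_neg, norm_mul, norm_exp_ofReal_mul_I, mul_one, norm_real,
      Real.norm_of_nonneg hx.1.le]
  rcases h2 hz with h7 | h7
  · exact absurd (h6 ▸ h7 : κ ≤ x) hx.2.not_ge
  · rw [mem_ofPred_eq, h6, h5, mul_neg, mul_left_comm, ← exp_add, neg_add_cancel, exp_zero, mul_one,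
      neg_re, ofReal_re] at h7
    nlinarith [hx.1]

theorem Hyp.tyex (H : Hyp D) (hΦ : IsPhi D Φ) : ∀ γ > 0, ∀ ξ ∈ Kd D, ∀ (β : ℚ), ∀ κ > 0,
    NP D Φ ξ β (2 * γ) κ → ∀ η ∈ Ioc (0 : ℝ) γ, ∃ τ : Ty, τ.1 = β ∧ IsTy D Φ γ η τ ξ := by
  intro γ hγ ξ hξ β κ hκ hNP η ⟨hη, hηγ⟩
  have hne := H.ne_univ
  let G : Set Bl := {i | (0 < rad i ∧ rad i ≤ η ∧ lo i ≤ hi i ∧ hi i ≤ lo i + Real.pi + η ∧
      (β : ℝ) - Real.pi + γ ≤ lo i ∧ hi i ≤ (β : ℝ) + Real.pi - γ) ∧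
    (∀ z ∈ D, ‖z - cen n i‖ < 2 * rad i → (Φ z ξ).im ∈ Icc (lo i) (hi i)) ∧
    (∃ q ∈ closure D, ‖q - cen n i‖ ≤ rad i ∧ dot q ξ = 1) ∧
    ∀ᶠ l : ℝ in 𝓝 0, ∃ z z' : E n, l ≤ dep D z ∧ l ≤ dep D z' ∧
      ‖z - cen n i‖ ≤ 2 * rad i ∧ ‖z' - cen n i‖ ≤ 2 * rad i ∧
      (Φ z ξ).im ≤ lo i + η ∧ hi i - η ≤ (Φ z' ξ).im}
  have h1 : closure D ∩ {q | dot q ξ = 1} ⊆ ⋃ i ∈ G, ball (cen n i) (rad i) := by
    rintro q ⟨hq, h1⟩
    obtain ⟨s, t, L⟩ := H.exists_loc hΦ hq hξ h1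
    have h2 : ∀ᶠ z in 𝓝 q, ‖1 - dot z ξ‖ < κ :=
      ContinuousAt.eventually_lt (by fun_prop) continuousAt_const (by simpa [L.one] using hκ)
    obtain ⟨h3, h4⟩ := geoH_bd (a := β - (Real.pi - 2 * γ)) (b := β + (Real.pi - 2 * γ)) L (by
      filter_upwards [nhdsWithin_le_nhds h2, self_mem_nhdsWithin] with z a1 a2
      have := abs_le.1 (hNP z a2 a1)
      exact ⟨by linarith, by linarith⟩)
    obtain ⟨r, hr, h5⟩ := Metric.mem_nhdsWithin_iff.1 (L.strong hΦ (show 0 < η / 4 by positivity))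
    obtain ⟨ρ, hρ, h6⟩ := exists_rat_btwn (lt_min hη (show 0 < r / 3 by positivity))
    rw [lt_min_iff] at h6
    obtain ⟨k, hk⟩ := Metric.denseRange_iff.1 (TopologicalSpace.denseRange_denseSeq (E n)) q ρ hρ
    obtain ⟨a, a1, a2⟩ := exists_rat_btwn (show s - η / 2 < s - η / 4 by linarith)
    obtain ⟨b, b1, b2⟩ := exists_rat_btwn (show t + η / 4 < t + η / 2 by linarith)
    obtain ⟨θ, c1, c2⟩ := exists_between (lt_min L.lt (lt_add_of_pos_right s (half_pos hη)))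
    obtain ⟨θ', c3, c4⟩ := exists_between (max_lt L.lt (sub_lt_self t (half_pos hη)))
    rw [lt_min_iff] at c2
    rw [max_lt_iff] at c3
    obtain ⟨z, hz, z1, z2⟩ := L.freq ⟨c1, c2.1⟩ hρ
    obtain ⟨z', hz', z3, z4⟩ := L.freq ⟨c3.1, c4⟩ hρ
    have hk' : ‖q - ds n k‖ < ρ := by rwa [dist_eq_norm] at hk
    have := L.lt
    have := L.le
    refine mem_iUnion₂.2 ⟨(k, ρ, a, b), ?_, hk⟩
    simp only [G, mem_ofPred_eq, rad, lo, hi, cen]
    refine ⟨⟨hρ, h6.1.le, by linarith, by linarith, by linarith, by linarith⟩, fun y hy y1 => ?_,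
      ⟨q, hq, hk'.le, h1⟩, ?_⟩
    · have := norm_sub_le_norm_sub_add_norm_sub y (ds n k) q
      rw [norm_sub_rev (ds n k)] at this
      have y2 := h5 ⟨mem_ball_iff_norm.2 (show ‖y - q‖ < r by linarith [h6.2]), hy⟩
      exact ⟨a2.le.trans y2.1, y2.2.trans b1.le⟩
    · filter_upwards [Iic_mem_nhds ((dep_pos_iff H.isOpen hne).2 hz),
        Iic_mem_nhds ((dep_pos_iff H.isOpen hne).2 hz')] with l l1 l2
      have := norm_sub_le_norm_sub_add_norm_sub z q (ds n k)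
      have := norm_sub_le_norm_sub_add_norm_sub z' q (ds n k)
      exact ⟨z, z', l1, l2, by linarith, by linarith, by linarith [c2.2], by linarith [c3.2]⟩
  obtain ⟨T, hT, hf, h2⟩ := (H.bdd.isCompact_closure.inter_right
    (isClosed_eq (by fun_prop) continuous_const)).elim_finite_subcover_image
      (fun _ _ => isOpen_ball) h1
  obtain ⟨κ₁, hκ₁, h3⟩ := geoH_cover H (ξ := ξ) (p := fun z => z ∈ ⋃ i ∈ T, ball (cen n i) (rad i))
    fun q hq h => nhdsWithin_le_nhds ((isOpen_biUnion fun _ _ => isOpen_ball).mem_nhds (h2 ⟨hq, h⟩))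
  obtain ⟨δ, hδ, h4⟩ := Metric.eventually_nhds_iff.1
    ((eventually_all_finite hf).2 fun i hi => (hT hi).2.2.2)
  obtain ⟨l, l1, l2⟩ := exists_rat_btwn (lt_min hδ hκ₁)
  rw [lt_min_iff] at l2
  refine ⟨(β, l, hf.toFinset), rfl, hξ, l1, fun z hz h5 => le_of_not_gt fun h6 => ?_,
    fun i hi => (hT (hf.mem_toFinset.1 hi)).1, fun i hi => (hT (hf.mem_toFinset.1 hi)).2.1,
    fun i hi => (hT (hf.mem_toFinset.1 hi)).2.2.1,
    fun i hi => h4 (by rw [Real.dist_eq, sub_zero, abs_of_pos l1]; exact l2.1) i (hf.mem_toFinset.1 hi)⟩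
  obtain ⟨i, hi, h7⟩ := mem_iUnion₂.1 (h3 z hz (h6.trans l2.2))
  exact (h5 i (hf.mem_toFinset.2 hi)).not_gt (mem_ball_iff_norm.1 h7)

end Pool.Agent.MP_4baaa2_an.H94

/-!
Flat contact points.
-/

namespace Pool.Agent.MP_4baaa2_an.H94

open Set Metric Filter Topology Complex
open scoped ComplexConjugate
open Pool.Agent.Lib.PlaneTop

variable {n : ℕ} {D : Set (E n)} {Φ : E n → E n → ℂ}


/-- the flat contact points of `ξ` whose central phase is close to `b` -/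
def Fl (D : Set (E n)) (Φ : E n → E n → ℂ) (ξ : E n) (b γ : ℝ) : Set (E n × ℝ) :=
  {x | Tru D Φ x.1 ξ x.2 ∧ |b - x.2| ≤ Real.pi / 2 - γ}

variable {ξ q : E n} {b γ υ : ℝ}

theorem Hyp.fl_compact (H : Hyp D) (hΦ : IsPhi D Φ) (ξ : E n) (b γ : ℝ) :
    IsCompact (Fl D Φ ξ b γ) := by
  have hK := H.bdd.isCompact_closure.prod (isCompact_closedBall b (Real.pi / 2 - γ))
  have hs : Fl D Φ ξ b γ ⊆ closure D ×ˢ closedBall b (Real.pi / 2 - γ) :=
    fun x hx => ⟨hx.1.1, mem_closedBall'.2 hx.2⟩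
  refine hK.of_isClosed_subset (isClosed_of_closure_subset fun x hx => ?_) hs
  have h1 := closure_minimal hs hK.isClosed hx
  have h2 : dot x.1 ξ = 1 := closure_minimal (t := {x : E n × ℝ | dot x.1 ξ = 1})
    (fun y hy => hy.1.2.2.1) (isClosed_eq (by fun_prop) continuous_const) hx
  obtain ⟨y, hy⟩ := closure_nonempty_iff.1 ⟨x, hx⟩
  have hξ := hy.1.2.1
  obtain ⟨s, t, L⟩ := H.exists_loc hΦ h1.1 hξ h2
  have h3 : ∀ η > 0, s ≤ x.2 - Real.pi / 2 + η ∧ x.2 + Real.pi / 2 ≤ t + η := fun η hη => by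
    have a1 := continuous_fst.continuousAt.eventually (eventually_eventually_nhds.2
      (eventually_nhdsWithin_iff.1 (L.strong hΦ (half_pos hη))))
    have a2 : ∀ᶠ y : E n × ℝ in 𝓝 x, dist y.2 x.2 < η / 2 :=
      continuous_snd.continuousAt.eventually (ball_mem_nhds _ (half_pos hη))
    obtain ⟨y, hy, a3, a4⟩ := ((mem_closure_iff_frequently.1 hx).and_eventually (a1.and a2)).exists
    obtain ⟨s', t', L'⟩ := H.exists_loc hΦ hy.1.1 hξ hy.1.2.2.1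
    obtain ⟨a5, a6⟩ := L'.flat hΦ hy.1
    obtain ⟨a7, a8⟩ := geoH_bd L' (eventually_nhdsWithin_iff.2 a3)
    rw [Real.dist_eq, abs_lt] at a4
    exact ⟨by linarith, by linarith⟩
  have h4 := le_of_forall_pos_le_add fun η hη => (h3 η hη).1
  have h5 := le_of_forall_pos_le_add fun η hη => (h3 η hη).2
  have h6 := L.le
  refine ⟨?_, mem_closedBall'.1 h1.2⟩
  rw [show x.2 = s + Real.pi / 2 by linarith]
  exact L.tru hΦ (by linarith)

theorem Hyp.tru_unif (H : Hyp D) (hΦ : IsPhi D Φ) (ξ : E n) (b γ : ℝ) {η : ℝ} (hη : 0 < η) :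
    ∃ r > 0, ∀ x ∈ Fl D Φ ξ b γ, ∀ z ∈ D, ∀ a ∈ Kd D, ‖z - x.1‖ < r → ‖a - ξ‖ < r →
      |(Φ z a).im - x.2| ≤ Real.pi / 2 + η := by
  have h1 := (H.fl_compact hΦ ξ b γ).eventually_forall_of_forall_eventually (x₀ := (0 : ℝ))
    (P := fun r x => ∀ z ∈ D, ∀ a ∈ Kd D, ‖z - x.1‖ < r → ‖a - ξ‖ < r →
      |(Φ z a).im - x.2| ≤ Real.pi / 2 + η) fun y hy => by
      obtain ⟨ε, hε, h⟩ := Metric.mem_nhdsWithin_iff.1 (hy.1.2.2.2 _ (half_pos hη))
      have a1 : ∀ᶠ p : ℝ × E n × ℝ in 𝓝 (0, y), p.1 + ‖p.2.1 - y.1‖ < ε :=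
        ContinuousAt.eventually_lt (by fun_prop) continuousAt_const (by simpa using hε)
      have a2 : ∀ᶠ p : ℝ × E n × ℝ in 𝓝 (0, y), |y.2 - p.2.2| < η / 2 :=
        ContinuousAt.eventually_lt (by fun_prop) continuousAt_const (by simpa using hη)
      filter_upwards [a1, a2] with p a1 a2 z hz a ha a3 a4
      have a5 := norm_sub_le_norm_sub_add_norm_sub z p.2.1 y.1
      have a6 := norm_nonneg (p.2.1 - y.1)
      have a7 : |(Φ z a).im - y.2| ≤ Real.pi / 2 + η / 2 := h (a := (z, a)) ⟨by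
        rw [← ball_prod_same]
        exact ⟨mem_ball_iff_norm.2 (by linarith), mem_ball_iff_norm.2 (by linarith)⟩, hz, ha⟩
      linarith [abs_sub_le (Φ z a).im y.2 p.2.2]
  obtain ⟨r, h2, h3⟩ := ((h1.filter_mono (nhdsWithin_le_nhds (s := Ioi 0))).and
    self_mem_nhdsWithin).exists
  exact ⟨r, h3, h2⟩

/-- Almost flat balls are close to flat points. -/
theorem Hyp.tylim (H : Hyp D) (hΦ : IsPhi D Φ) {η : ℕ → ℝ} {τ : ℕ → Ty}
    (hη : Tendsto η atTop (𝓝 0)) (hτ : ∀ j, ((τ j).1 : ℝ) = b ∧ IsTy D Φ γ (η j) (τ j) ξ)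
    {ε : ℝ} (hε : 0 < ε) : ∀ᶠ j in atTop, ∀ i ∈ (τ j).2.2, Flat (η j) i →
      ∃ x ∈ Fl D Φ ξ b γ, ‖cen n i - x.1‖ ≤ ε ∧ |mid i - x.2| ≤ ε := by
  have hξ := (hτ 0).2.mem
  have h1 := ((H.bdd.isCompact_closure.inter_right (t := {q | dot q ξ = 1})
    (isClosed_eq (by fun_prop) continuous_const)).prod (isCompact_Icc (a := b - Real.pi + γ)
      (b := b + Real.pi - γ))).eventually_forall_of_forall_eventually (x₀ := (0 : ℝ))
    (P := fun e y => ∀ z ∈ D, ∀ z' ∈ D, ‖z - y.1‖ ≤ 3 * e → ‖z' - y.1‖ ≤ 3 * e →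
      (Φ z ξ).im ≤ y.2 - Real.pi / 2 + 2 * e → y.2 + Real.pi / 2 - 2 * e ≤ (Φ z' ξ).im →
      |b - y.2| ≤ Real.pi / 2 - γ + e →
      ∃ x ∈ Fl D Φ ξ b γ, ‖y.1 - x.1‖ + e ≤ ε ∧ |y.2 - x.2| ≤ ε) fun y hy => by
      obtain ⟨s, t, L⟩ := H.exists_loc hΦ hy.1.1 hξ hy.1.2
      by_cases h : ∀ δ > 0, s ≤ y.2 - Real.pi / 2 + δ ∧ y.2 + Real.pi / 2 ≤ t + δ ∧
          |b - y.2| ≤ Real.pi / 2 - γ + δ
      · have a1 := le_of_forall_pos_le_add fun δ hδ => (h δ hδ).1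
        have a2 := le_of_forall_pos_le_add fun δ hδ => (h δ hδ).2.1
        have a3 := L.le
        have a4 : y ∈ Fl D Φ ξ b γ := ⟨by
          rw [show y.2 = s + Real.pi / 2 by linarith]
          exact L.tru hΦ (by linarith), le_of_forall_pos_le_add fun δ hδ => (h δ hδ).2.2⟩
        have a5 : ∀ᶠ p : ℝ × E n × ℝ in 𝓝 (0, y), ‖p.2.1 - y.1‖ + p.1 < ε :=
          ContinuousAt.eventually_lt (by fun_prop) continuousAt_const (by simpa using hε)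
        have a6 : ∀ᶠ p : ℝ × E n × ℝ in 𝓝 (0, y), |p.2.2 - y.2| < ε :=
          ContinuousAt.eventually_lt (by fun_prop) continuousAt_const (by simpa using hε)
        filter_upwards [a5, a6] with p a5 a6 _ _ _ _ _ _ _ _ _ using ⟨y, a4, a5.le, a6.le⟩
      · obtain ⟨δ, h⟩ := not_forall.1 h
        obtain ⟨hδ, h⟩ := Classical.not_imp.1 h
        obtain ⟨r, hr, a1⟩ := Metric.mem_nhdsWithin_iff.1 (L.strong hΦ (half_pos hδ))
        have a2 : ∀ᶠ p : ℝ × E n × ℝ in 𝓝 (0, y), ‖p.2.1 - y.1‖ + 3 * p.1 < r :=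
          ContinuousAt.eventually_lt (by fun_prop) continuousAt_const (by simpa using hr)
        have a3 : ∀ᶠ p : ℝ × E n × ℝ in 𝓝 (0, y), |p.2.2 - y.2| + 2 * |p.1| < δ / 2 :=
          ContinuousAt.eventually_lt (by fun_prop) continuousAt_const (by simpa using hδ)
        filter_upwards [a2, a3] with p a2 a3 z hz z' hz' b1 b2 b3 b4 b5
        have b6 := norm_sub_le_norm_sub_add_norm_sub z p.2.1 y.1
        have b7 := norm_sub_le_norm_sub_add_norm_sub z' p.2.1 y.1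
        have b8 := (a1 ⟨mem_ball_iff_norm.2 (show ‖z - y.1‖ < r by linarith), hz⟩).1
        have b9 := (a1 ⟨mem_ball_iff_norm.2 (show ‖z' - y.1‖ < r by linarith), hz'⟩).2
        have := le_abs_self p.1
        have := abs_nonneg p.1
        have := le_abs_self (p.2.2 - y.2)
        have := neg_abs_le (p.2.2 - y.2)
        have := abs_sub_le b p.2.2 y.2
        exact absurd ⟨by linarith, by linarith, by linarith⟩ h
  filter_upwards [hη.eventually h1] with j hj i hi hf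
  obtain ⟨hb, T⟩ := hτ j
  obtain ⟨q, hq, a1, a2⟩ := T.con i hi
  obtain ⟨z, z', z1, z2, z3, z4, z5, z6⟩ := T.att i hi
  obtain ⟨-, n1, n2, -, n3, n4⟩ := T.num i hi
  rw [hb] at n3 n4
  rw [norm_sub_rev] at a1
  have := norm_sub_le_norm_sub_add_norm_sub z (cen n i) q
  have := norm_sub_le_norm_sub_add_norm_sub z' (cen n i) q
  have hm : mid i = (lo i + H94.hi i) / 2 := rfl
  rw [Flat] at hf
  obtain ⟨x, hx, x1, x2⟩ := hj (q, mid i) ⟨⟨hq, a2⟩, by linarith, by linarith⟩ z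
    ((dep_pos_iff H.isOpen H.ne_univ).1 (T.kpos.trans_le z1)) z'
    ((dep_pos_iff H.isOpen H.ne_univ).1 (T.kpos.trans_le z2)) (by linarith) (by linarith)
    (by linarith) (by linarith) (abs_le.2 ⟨by linarith, by linarith⟩)
  exact ⟨x, hx, by linarith [norm_sub_le_norm_sub_add_norm_sub (cen n i) q x.1], x2⟩

theorem Hyp.bipolar (H : Hyp D) (hΦ : IsPhi D Φ) (hγ : 0 < γ) {η : ℕ → ℝ} {τ : ℕ → Ty}
    (hη : Tendsto η atTop (𝓝 0)) (hτ : ∀ j, ((τ j).1 : ℝ) = b ∧ IsTy D Φ γ (η j) (τ j) ξ)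
    (hp : Pol η τ b υ q) : ∀ y : E n,
      (∀ x ∈ Fl D Φ ξ b γ, (exp ((b - x.2 : ℝ) * I) * dot x.1 y).re ≤ 0) →
        (exp (υ * I) * dot q y).re ≤ 0 := by
  intro y hy
  have hC : IsClosed {w : E n | (exp (υ * I) * dot q w).re ≤ 0} :=
    isClosed_le (by fun_prop) continuous_const
  have hc : Continuous fun ε : ℝ => y - ε • ξ := by fun_prop
  change y ∈ {w : E n | (exp (υ * I) * dot q w).re ≤ 0}
  refine hC.mem_of_tendsto (b := 𝓝[>] (0 : ℝ))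
    ((hc.tendsto' 0 y (by simp)).mono_left nhdsWithin_le_nhds)
    (eventually_mem_nhdsWithin.mono fun ε (hε : 0 < ε) => ?_)
  have h1 := (H.fl_compact hΦ ξ b γ).eventually_forall_of_forall_eventually
    (x₀ := ((0 : E n × ℝ), y - ε • ξ)) (P := fun p x =>
      (exp ((b - (x.2 + p.1.2) : ℝ) * I) * dot (x.1 + p.1.1) p.2).re < 0) fun x hx => by
      refine ContinuousAt.eventually_lt (by fun_prop) continuousAt_const ?_
      have a1 := abs_le.1 hx.2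
      have a2 := Real.cos_pos_of_mem_Ioo (x := b - x.2) ⟨by linarith, by linarith⟩
      have a3 := hy x hx
      simp only [Prod.snd_zero, Prod.fst_zero, add_zero, dot_sub_right, dot_rsmul_right,
        hx.1.2.2.1, mul_one, mul_sub, sub_re, re_mul_ofReal, exp_ofReal_mul_I_re]
      nlinarith
  obtain ⟨δ, hδ, h2⟩ := Metric.eventually_nhds_iff.1 h1
  obtain ⟨j₀, h3⟩ := eventually_atTop.1 (H.tylim hΦ hη hτ (half_pos hδ))
  refine hC.closure_subset (mem_closure_iff_frequently.2 (((mem_closure_iff_frequently.1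
    (TopologicalSpace.denseRange_denseSeq (E n) (y - ε • ξ))).and_eventually
      (ball_mem_nhds _ hδ)).mono ?_))
  rintro _ ⟨⟨k, rfl⟩, hk⟩
  refine hp k j₀ fun j hj i hi hf => ?_
  obtain ⟨x, hx, x1, x2⟩ := h3 j hj i hi hf
  have := h2 (y := ((cen n i - x.1, mid i - x.2), ds n k)) (max_lt (by
    rw [dist_zero_right]
    exact (max_le x1 x2).trans_lt (half_lt_self hδ)) hk) x hx
  simp only [add_sub_cancel] at this
  exact this.le

theorem Hyp.pair (H : Hyp D) (hΦ : IsPhi D Φ) {a : E n} (ha : a ∈ interior (Kd D))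
    {Ψ : E n → ℂ} (hΨ : IsExt D Φ a Ψ) : ∃ μ > 0, ∀ x ∈ Fl D Φ ξ b γ, ∀ x' ∈ Fl D Φ ξ b γ,
      ((Ψ x.1).im - x.2) - ((Ψ x'.1).im - x'.2) ≤ Real.pi - μ := by
  obtain ⟨μ, hμ, h⟩ := H.two_pi hΦ ha hΨ
  refine ⟨μ, hμ, fun x hx x' hx' => ?_⟩
  obtain ⟨s, t, L⟩ := H.exists_loc hΦ hx.1.1 hx.1.2.1 hx.1.2.2.1
  obtain ⟨s', t', L'⟩ := H.exists_loc hΦ hx'.1.1 hx'.1.2.1 hx'.1.2.2.1
  linarith [h _ _ _ _ _ _ _ L L', L.flat hΦ hx.1, L'.flat hΦ hx'.1]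

end Pool.Agent.MP_4baaa2_an.H94

/-!
Coherence of the multiplier with the flat contact points.
-/

namespace Pool.Agent.MP_4baaa2_an.H94

open Set Metric Filter Topology Complex
open scoped ComplexConjugate
open Pool.Agent.Lib.PlaneTop

variable {n : ℕ} {D : Set (E n)} {Φ : E n → E n → ℂ}


variable {ξ q : E n} {b γ υ : ℝ}

theorem geoJ_re (w : ℂ) (x y : ℝ) :
    (exp (x * I) * (-exp (y * I) * exp w)).re = -(Real.exp w.re * Real.cos (w.im + x + y)) := by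
  rw [neg_mul, mul_neg, ← exp_add, ← exp_add, neg_re, exp_re]
  simp [add_comm, add_left_comm]

theorem geoJ_uniq {a : E n} {Ψ Ψ' : E n → ℂ} (h : IsExt D Φ a Ψ) (h' : IsExt D Φ a Ψ') :
    EqOn Ψ Ψ' (closure D) :=
  EqOn.of_subset_closure (fun z hz => (h.eq z hz).trans (h'.eq z hz).symm) h.cont h'.cont
    subset_closure subset_rfl

theorem geoJ_lim {a : E n} {Ψ : E n → ℂ} (h : IsExt D Φ a Ψ) (hq : q ∈ closure D) {S : Set ℝ}
    (hS : IsClosed S) (he : ∀ᶠ z in 𝓝[D] q, (Φ z a).im ∈ S) : (Ψ q).im ∈ S := by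
  have := mem_closure_iff_nhdsWithin_neBot.1 hq
  refine hS.mem_of_tendsto ((continuous_im.tendsto _).comp
    ((h.cont q hq).mono subset_closure).tendsto) ?_
  filter_upwards [he, self_mem_nhdsWithin] with z h1 h2
  rwa [Function.comp_apply, h.eq z h2]

/-- The phase of `1 - ⟨q, a⟩` modulo `2π`. -/
theorem Hyp.claimA (H : Hyp D) (hΦ : IsPhi D Φ) (h1 : dot q ξ = 1)
    (hb : ∀ y : E n, (∀ x ∈ Fl D Φ ξ b γ, (exp ((b - x.2 : ℝ) * I) * dot x.1 y).re ≤ 0) →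
      (exp (υ * I) * dot q y).re ≤ 0)
    {a : E n} (ha : a ∈ interior (Kd D)) {Ψ : E n → ℂ} (hΨ : IsExt D Φ a Ψ) :
    dot q a ≠ 1 ∧ ∃ x₁ ∈ Fl D Φ ξ b γ, ∃ x₂ ∈ Fl D Φ ξ b γ, ∃ φ : ℝ,
      (∀ x ∈ Fl D Φ ξ b γ, (Ψ x₁.1).im - x₁.2 ≤ (Ψ x.1).im - x.2 ∧
        (Ψ x.1).im - x.2 ≤ (Ψ x₂.1).im - x₂.2) ∧
      φ ∈ Icc ((Ψ x₁.1).im - x₁.2) ((Ψ x₂.1).im - x₂.2) ∧
      1 - dot q a = ‖1 - dot q a‖ * exp ((φ + (b - υ) : ℝ) * I) := by
  have hone : exp (υ * I) * exp (-(υ * I)) = 1 := by rw [← exp_add]; simp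
  have hne : (Fl D Φ ξ b γ).Nonempty := by
    by_contra h
    have h2 := hb (exp (-(υ * I)) • ξ) fun x hx => absurd ⟨x, hx⟩ h
    rw [dot_smul_right, h1, mul_one, hone, one_re] at h2
    linarith
  have hK := H.fl_compact hΦ ξ b γ
  have hc : ContinuousOn (fun x : E n × ℝ => (Ψ x.1).im - x.2) (Fl D Φ ξ b γ) :=
    (continuous_im.comp_continuousOn (hΨ.cont.comp continuousOn_fst fun x hx => hx.1.1)).sub
      continuousOn_snd
  obtain ⟨x₁, hx₁, hm₁⟩ := hK.exists_isMinOn hne hc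
  obtain ⟨x₂, hx₂, hm₂⟩ := hK.exists_isMaxOn hne hc
  obtain ⟨μ, hμ, hp⟩ := H.pair (ξ := ξ) (b := b) (γ := γ) hΦ ha hΨ
  have hbd : ∀ x ∈ Fl D Φ ξ b γ, (Ψ x₁.1).im - x₁.2 ≤ (Ψ x.1).im - x.2 ∧
      (Ψ x.1).im - x.2 ≤ (Ψ x₂.1).im - x₂.2 := fun x hx => ⟨hm₁ hx, hm₂ hx⟩
  have h2 := hp x₂ hx₂ x₁ hx₁
  have h3 := (hbd x₂ hx₂).1
  obtain ⟨mn, hmn⟩ : ∃ m, m = (Ψ x₁.1).im - x₁.2 := ⟨_, rfl⟩
  obtain ⟨mx, hmx⟩ : ∃ m, m = (Ψ x₂.1).im - x₂.2 := ⟨_, rfl⟩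
  rw [← hmn, ← hmx] at h2 h3
  have hv : ∀ φ : ℝ, ∀ x ∈ Fl D Φ ξ b γ,
      (exp ((b - x.2 : ℝ) * I) * dot x.1 ((-exp ((-(φ + b) : ℝ) * I)) • (ξ - a))).re =
        -(Real.exp (Ψ x.1).re * Real.cos ((Ψ x.1).im - x.2 - φ)) := fun φ x hx => by
    rw [dot_smul_right, dot_sub_right, hx.1.2.2.1, ← hΨ.exp_eq _ hx.1.1, geoJ_re]
    congr 3
    ring
  have hqa : dot q a ≠ 1 := by
    intro h4
    obtain ⟨y₀, hy₀⟩ : ∃ y, y = (-exp ((-((mn + mx) / 2 + b) : ℝ) * I)) • (ξ - a) := ⟨_, rfl⟩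
    have h5 : ∀ᶠ ε : ℝ in 𝓝 0, ∀ x ∈ Fl D Φ ξ b γ,
        (exp ((b - x.2 : ℝ) * I) * dot x.1 (y₀ + ε • exp (-(υ * I)) • ξ)).re < 0 := by
      refine hK.eventually_forall_of_forall_eventually
        (P := fun (ε : ℝ) (x : E n × ℝ) =>
          (exp ((b - x.2 : ℝ) * I) * dot x.1 (y₀ + ε • exp (-(υ * I)) • ξ)).re < 0) fun x hx => ?_
      have h6 : Continuous fun p : ℝ × E n × ℝ =>
          (exp ((b - p.2.2 : ℝ) * I) * dot p.2.1 (y₀ + p.1 • exp (-(υ * I)) • ξ)).re := by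
        fun_prop
      refine h6.continuousAt.eventually_lt continuousAt_const ?_
      have h7 := hbd x hx
      rw [← hmn, ← hmx] at h7
      rw [zero_smul, add_zero, hy₀, hv _ x hx, neg_lt_zero]
      exact mul_pos (Real.exp_pos _) (Real.cos_pos_of_mem_Ioo ⟨by linarith, by linarith⟩)
    obtain ⟨ε, h6, h7⟩ := ((h5.filter_mono nhdsWithin_le_nhds).and
      (self_mem_nhdsWithin (s := Ioi (0 : ℝ)))).exists
    have h8 := hb _ fun x hx => (h6 x hx).le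
    rw [hy₀, dot_add_right, dot_smul_right, dot_sub_right, h1, h4, sub_self, mul_zero, zero_add,
      dot_rsmul_right, dot_smul_right, h1, mul_one, mul_left_comm, hone, mul_one, ofReal_re] at h8
    exact absurd h7 (not_lt.2 h8)
  have hu : 0 < ‖1 - dot q a‖ := norm_pos_iff.2 (sub_ne_zero.2 hqa.symm)
  obtain ⟨ω, hω, hrep⟩ : ∃ ω : ℝ, |ω - (mn + mx) / 2| ≤ Real.pi ∧
      1 - dot q a = ‖1 - dot q a‖ * exp ((ω + (b - υ) : ℝ) * I) := by
    obtain ⟨w, hw⟩ : ∃ w, w = (1 - dot q a) * exp ((-((mn + mx) / 2 + (b - υ)) : ℝ) * I) :=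
      ⟨_, rfl⟩
    have h4 : ‖w‖ = ‖1 - dot q a‖ := by rw [hw, norm_mul, norm_exp_ofReal_mul_I, mul_one]
    refine ⟨(mn + mx) / 2 + arg w, by rw [add_sub_cancel_left]; exact abs_arg_le_pi w, ?_⟩
    have h5 := norm_mul_exp_arg_mul_I w
    rw [h4] at h5
    calc 1 - dot q a = w * exp (((mn + mx) / 2 + (b - υ) : ℝ) * I) := by
          rw [hw, mul_assoc, ← exp_add, ofReal_neg, neg_mul, neg_add_cancel, exp_zero, mul_one]
      _ = _ := by
          conv_lhs => rw [← h5]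
          rw [mul_assoc, ← exp_add]
          congr 2
          push_cast
          ring
  have hcos : ∀ φ : ℝ, mx - Real.pi / 2 ≤ φ → φ ≤ mn + Real.pi / 2 → 0 ≤ Real.cos (ω - φ) := by
    intro φ h4 h5
    have h6 := hb _ fun x hx => (hv φ x hx).trans_le (by
      have h7 := hbd x hx
      rw [← hmn, ← hmx] at h7
      exact neg_nonpos.2 (mul_nonneg (Real.exp_pos _).le
        (Real.cos_nonneg_of_mem_Icc ⟨by linarith, by linarith⟩)))
    rw [dot_smul_right, dot_sub_right, h1, hrep, ← mul_assoc, ← mul_assoc, mul_right_comm,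
      re_mul_ofReal, mul_assoc, geoJ_re] at h6
    simp only [mul_re, ofReal_re, I_re, mul_zero, ofReal_im, I_im, mul_one, sub_self,
      Real.exp_zero, one_mul, mul_im, add_zero] at h6
    rw [show ω + (b - υ) + υ + -(φ + b) = ω - φ by ring] at h6
    by_contra h7
    exact absurd (mul_pos (neg_pos.2 (not_le.1 h7)) hu) (not_lt.2 h6)
  have hpi := Real.pi_pos
  have h4 : |ω - (mn + mx) / 2| ≤ Real.pi / 2 := by
    by_contra h
    have h5 := Real.cos_neg_of_pi_div_two_lt_of_lt (not_le.1 h) (by linarith)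
    rw [Real.cos_abs] at h5
    exact absurd (hcos _ (by linarith) (by linarith)) (not_le.2 h5)
  rw [abs_le] at h4
  refine ⟨hqa, x₁, hx₁, x₂, hx₂, ω, hbd, ?_, hrep⟩
  rw [← hmn, ← hmx]
  constructor
  · by_contra h
    have h5 := hcos (mn + Real.pi / 2) (by linarith) le_rfl
    rw [← Real.cos_neg] at h5
    exact absurd (Real.cos_neg_of_pi_div_two_lt_of_lt (by linarith) (by linarith)) (not_lt.2 h5)
  · by_contra h
    exact absurd (Real.cos_neg_of_pi_div_two_lt_of_lt (by linarith) (by linarith))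
      (not_lt.2 (hcos (mx - Real.pi / 2) le_rfl (by linarith)))

/-- The branch. -/
theorem Hyp.branch (H : Hyp D) (hΦ : IsPhi D Φ) (hγ : 0 < γ) (hq : q ∈ closure D)
    (h1 : dot q ξ = 1) (hυ : |υ| ≤ Real.pi / 2)
    (hb : ∀ y : E n, (∀ x ∈ Fl D Φ ξ b γ, (exp ((b - x.2 : ℝ) * I) * dot x.1 y).re ≤ 0) →
      (exp (υ * I) * dot q y).re ≤ 0)
    {a : E n} (ha : a ∈ interior (Kd D)) {Ψ : E n → ℂ} (hΨ : IsExt D Φ a Ψ) :
    ∃ x₁ ∈ Fl D Φ ξ b γ, ∃ x₂ ∈ Fl D Φ ξ b γ,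
      (Ψ q).im - (b - υ) ∈ Icc ((Ψ x₁.1).im - x₁.2) ((Ψ x₂.1).im - x₂.2) := by
  have hpi := Real.pi_pos
  obtain ⟨-, x₀, hx₀, -⟩ := H.claimA hΦ h1 hb ha hΨ
  have hq₀ : x₀.1 ∈ closure D := hx₀.1.1
  have key : ∀ a ∈ interior (Kd D), ∀ Ψ, IsExt D Φ a Ψ → ∃ x₁ ∈ Fl D Φ ξ b γ,
      ∃ x₂ ∈ Fl D Φ ξ b γ, ∃ (φ : ℝ) (k : ℤ),
        φ ∈ Icc ((Ψ x₁.1).im - x₁.2) ((Ψ x₂.1).im - x₂.2) ∧
        |φ - ((Ψ x₀.1).im - x₀.2)| < Real.pi ∧
        (Ψ q).im - (b - υ) = φ + k * (2 * Real.pi) := by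
    intro a ha Ψ hΨ
    obtain ⟨h2, x₁, hx₁, x₂, hx₂, φ, -, h3, h4⟩ := H.claimA hΦ h1 hb ha hΨ
    obtain ⟨μ, hμ, hp⟩ := H.pair (ξ := ξ) (b := b) (γ := γ) hΦ ha hΨ
    have hu : 0 < ‖1 - dot q a‖ := norm_pos_iff.2 (sub_ne_zero.2 h2.symm)
    rw [← Real.exp_log hu, ofReal_exp, ← exp_add, ← hΨ.exp_eq q hq] at h4
    obtain ⟨k, hk⟩ := exp_eq_exp_iff_exists_int.1 h4
    have h5 := congrArg im hk
    simp only [add_im, ofReal_im, mul_im, ofReal_re, I_im, I_re, mul_one, mul_zero, add_zero,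
      zero_add, intCast_re, intCast_im, zero_mul, mul_re, re_ofNat, im_ofNat, sub_zero] at h5
    refine ⟨x₁, hx₁, x₂, hx₂, φ, k, h3, abs_lt.2 ⟨?_, ?_⟩, by linarith⟩
    · linarith [hp x₀ hx₀ x₁ hx₁, h3.1]
    · linarith [hp x₂ hx₂ x₀ hx₀, h3.2]
  have hex : ∀ a : E n, ∃ Ψ : E n → ℂ, a ∈ interior (Kd D) → IsExt D Φ a Ψ := fun a => by
    by_cases h : a ∈ interior (Kd D)
    · obtain ⟨Ψ, hΨ⟩ := H.exists_ext hΦ h
      exact ⟨Ψ, fun _ => hΨ⟩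
    · exact ⟨0, fun h' => absurd h' h⟩
  choose P hP using hex
  have hc : ∀ z ∈ closure D, ContinuousOn (fun a => (P a z).im) (interior (Kd D)) := by
    intro z hz a ha
    have h2 : 1 - dot z a ≠ 0 := sub_ne_zero.2 (dot_ne_one_of_interior ha hz).symm
    have h3 : ContinuousAt (fun a' => P a z + log ((1 - dot z a') / (1 - dot z a))) a :=
      continuousAt_const.add (ContinuousAt.clog (by fun_prop) (by simp [div_self h2]))
    refine (continuous_im.continuousAt.comp (h3.congr ?_)).continuousWithinAt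
    filter_upwards [H.ext_near hΦ ha (hP a ha)] with a' h4
    exact geoJ_uniq h4.2.2 (hP a' h4.1) hz
  obtain ⟨g, hg⟩ : ∃ g : E n → ℝ,
      g = fun a => (P a q).im - (b - υ) - ((P a x₀.1).im - x₀.2) := ⟨_, rfl⟩
  have hgc : ContinuousOn g (interior (Kd D)) := by
    rw [hg]
    exact ((hc q hq).sub continuousOn_const).sub ((hc _ hq₀).sub continuousOn_const)
  have hne : ∀ a ∈ interior (Kd D), |g a| ≠ Real.pi := by
    intro a ha h2
    obtain ⟨x₁, -, x₂, -, φ, k, -, h3, h4⟩ := key a ha _ (hP a ha)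
    rw [abs_lt] at h3
    simp only [hg, h4] at h2
    rcases lt_trichotomy k 0 with h | rfl | h
    · have h5 : (k : ℝ) ≤ -1 := by exact_mod_cast Int.le_sub_one_of_lt h
      have := neg_abs_le (φ + k * (2 * Real.pi) - ((P a x₀.1).im - x₀.2))
      nlinarith
    · rcases abs_eq hpi.le |>.1 h2 with h5 | h5 <;> simp at h5 <;> linarith
    · have h5 : (1 : ℝ) ≤ k := by exact_mod_cast h
      have := le_abs_self (φ + k * (2 * Real.pi) - ((P a x₀.1).im - x₀.2))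
      nlinarith
  have h0 : (0 : E n) ∈ interior (Kd D) := zero_mem_interior_Kd H.bdd
  have hg0 : |g 0| < Real.pi := by
    have h2 := geoJ_uniq (hP 0 h0) (H.ext_zero hΦ)
    have h3 := abs_le.1 hx₀.2
    have h4 := abs_le.1 hυ
    simp only [hg, h2 hq, h2 hq₀, zero_im]
    exact abs_lt.2 ⟨by linarith, by linarith⟩
  have hga : |g a| < Real.pi := by
    by_contra h
    obtain ⟨K, hK, h2, h3, h4, -⟩ := GeoB_range (H.oc_eq hΦ ha)
    obtain ⟨a', h5, h6⟩ := h4.intermediate_value h2 h3 (hgc.mono hK).abs ⟨hg0.le, not_lt.1 h⟩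
    exact hne a' (hK h5) h6
  obtain ⟨x₁, hx₁, x₂, hx₂, φ, k, h2, h3, h4⟩ := key a ha _ hΨ
  have h5 := geoJ_uniq (hP a ha) hΨ
  simp only [hg, h5 hq, h5 hq₀, h4] at hga
  rw [abs_lt] at h3 hga
  have h6 : k = 0 := by
    have h7 : (k : ℝ) < 1 := by nlinarith
    have h8 : (-1 : ℝ) < k := by nlinarith
    have h9 : k < 1 := by exact_mod_cast h7
    have h10 : -1 < k := by exact_mod_cast h8
    omega
  refine ⟨x₁, hx₁, x₂, hx₂, ?_⟩
  rwa [h4, h6, Int.cast_zero, zero_mul, add_zero]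

theorem geoJ_key (H : Hyp D) (hΦ : IsPhi D Φ) (hγ : 0 < γ) (hq : q ∈ closure D)
    (h1 : dot q ξ = 1) (hυ : |υ| ≤ Real.pi / 2)
    (hb : ∀ y : E n, (∀ x ∈ Fl D Φ ξ b γ, (exp ((b - x.2 : ℝ) * I) * dot x.1 y).re ≤ 0) →
      (exp (υ * I) * dot q y).re ≤ 0) {η : ℝ} (hη : 0 < η) :
    ∃ r > 0, ∀ ξ' ∈ Kd D, ‖ξ' - ξ‖ < r → ∀ S : Set ℝ, IsClosed S →
      (∀ᶠ x : E n × E n in 𝓝[D ×ˢ Kd D] (q, ξ'), (Φ x.1 x.2).im ∈ S) →
        ∃ c ∈ S, |c - (b - υ)| ≤ Real.pi / 2 + η := by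
  obtain ⟨r, hr, hu⟩ := H.tru_unif hΦ ξ b γ hη
  refine ⟨r, hr, fun ξ' hξ' hd S hS he => ?_⟩
  obtain ⟨δ, hδ, hδ'⟩ := Metric.mem_nhdsWithin_iff.1 he
  obtain ⟨a, ha, hda⟩ := Metric.mem_closure_iff.1 (H.dense hΦ hξ') (min δ (r - ‖ξ' - ξ‖))
    (lt_min hδ (sub_pos.2 hd))
  rw [dist_comm, lt_min_iff] at hda
  have ha' : a ∈ interior (Kd D) := JoinedIn.target_mem ha
  have haK : a ∈ Kd D := interior_subset ha'
  have har : ‖a - ξ‖ < r := by
    have h2 := hda.2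
    rw [dist_eq_norm] at h2
    linarith [norm_sub_le_norm_sub_add_norm_sub a ξ' ξ]
  obtain ⟨Ψ, hΨ⟩ := H.exists_ext hΦ ha'
  have h2 : ∀ x ∈ Fl D Φ ξ b γ, |(Ψ x.1).im - x.2| ≤ Real.pi / 2 + η := fun x hx => by
    refine geoJ_lim (S := {c | |c - x.2| ≤ Real.pi / 2 + η}) hΨ hx.1.1
      (isClosed_le (by fun_prop) continuous_const) ?_
    filter_upwards [self_mem_nhdsWithin, mem_nhdsWithin_of_mem_nhds (ball_mem_nhds x.1 hr)]
      with z hz hz'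
    exact hu x hx z hz a haK (mem_ball_iff_norm.1 hz') har
  obtain ⟨x₁, hx₁, x₂, hx₂, h3, h4⟩ := H.branch hΦ hγ hq h1 hυ hb ha' hΨ
  refine ⟨(Ψ q).im, geoJ_lim hΨ hq hS ?_,
    abs_le.2 ⟨(abs_le.1 (h2 x₁ hx₁)).1.trans h3, h4.trans (abs_le.1 (h2 x₂ hx₂)).2⟩⟩
  filter_upwards [self_mem_nhdsWithin, mem_nhdsWithin_of_mem_nhds (ball_mem_nhds q hδ)]
    with z hz hz'
  exact hδ' (a := (z, a)) ⟨by rw [mem_ball, Prod.dist_eq]; exact max_lt hz' hda.1, hz, haK⟩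

/-- Coherence. -/
theorem Hyp.coh (H : Hyp D) (hΦ : IsPhi D Φ) : ∀ γ > 0, ∀ (ξ q : E n) (b υ : ℝ) (η : ℕ → ℝ)
    (τ : ℕ → Ty), Tendsto η atTop (𝓝 0) →
    (∀ j, ((τ j).1 : ℝ) = b ∧ IsTy D Φ γ (η j) (τ j) ξ) → dot q ξ = 1 → |υ| ≤ Real.pi / 2 →
    Pol η τ b υ q →
      (∀ a ∈ interior (Kd D), dot q a ≠ 1) ∧ (q ∈ closure D → Tru D Φ q ξ (b - υ)) := by
  intro γ hγ ξ q b υ η τ hη hτ h1 hυ hp
  have hb := H.bipolar hΦ hγ hη hτ hp
  refine ⟨fun a ha => ?_, fun hq => ?_⟩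
  · obtain ⟨Ψ, hΨ⟩ := H.exists_ext hΦ ha
    exact (H.claimA hΦ h1 hb ha hΨ).1
  obtain ⟨s, t, L⟩ := H.exists_loc hΦ hq (hτ 0).2.mem h1
  have h2 : b - υ + Real.pi / 2 ≤ t := le_of_forall_pos_le_add fun ε hε => by
    obtain ⟨r, hr, h⟩ := geoJ_key H hΦ hγ hq h1 hυ hb (half_pos hε)
    obtain ⟨ξ', h3, h4, h5⟩ := L.ph_up hΦ (half_pos hε) hr
    obtain ⟨c, h6, h7⟩ := h ξ' h3 h4 (Iic (t - Real.pi + ε / 2)) isClosed_Iic h5
    linarith [(abs_le.1 h7).1, mem_Iic.1 h6]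
  have h3 : s ≤ b - υ - Real.pi / 2 := le_of_forall_pos_le_add fun ε hε => by
    obtain ⟨r, hr, h⟩ := geoJ_key H hΦ hγ hq h1 hυ hb (half_pos hε)
    obtain ⟨ξ', h3, h4, h5⟩ := L.ph_dn hΦ (half_pos hε) hr
    obtain ⟨c, h6, h7⟩ := h ξ' h3 h4 (Ici (s + Real.pi - ε / 2)) isClosed_Ici h5
    linarith [(abs_le.1 h7).2, mem_Ici.1 h6]
  have h4 := L.le
  rw [show b - υ = s + Real.pi / 2 by linarith]
  exact L.tru hΦ (by linarith)

theorem Hyp.geo (H : Hyp D) : ∃ Φ, Geo D Φ := by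
  obtain ⟨Φ, hΦ⟩ := H.exists_phi
  exact ⟨Φ, ⟨⟨H.isOpen, H.conn.isPreconnected, H.bdd, H.zero, H.ne_univ⟩, H.lc',
    fun _ hg hne => H.logs hg hne, H.sect, hΦ.cont, hΦ.exp_eq, hΦ.zero, H.phi_bdd hΦ, H.cone,
    H.deep, H.sep hΦ, H.line, H.dense hΦ, H.npex hΦ, H.tyex hΦ, H.coh hΦ⟩⟩

end Pool.Agent.MP_4baaa2_an.H94

end
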