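import Pool.Agent.MP_4baaa2_an.Mg.H94_Cls
import Pool.Agent.MP_4baaa2_an.Mg.H94_GeoA
import Pool.Agent.MP_4baaa2_an.Mg.H94_Top

-- part MP_4baaa2_an.H94.Grow
section

/-!
Comparison of two admissible discs near a deep point.
-/

namespace Pool.Agent.MP_4baaa2_an.H94

open Set Metric Filter Topology Complex
open scoped ComplexConjugate
open Pool.Agent.Lib.PlaneTop

variable {n : ℕ}

variable {D : Set (E n)} {Φ : E n → E n → ℂ}

theorem Gr_diff (hD : IsOpen D) {h₁ h₂ : ℂ → E n} (h1 : Adm D h₁) (h2 : Adm D h₂) :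
    DifferentiableOn ℂ (fun x : E n × ℂ => Gr h₁ h₂ x.1 x.2) (D ×ˢ ball 0 1) := by
  simp only [Gr, div_eq_mul_inv]
  exact (h1.O_diff hD).mul ((h2.O_diff hD).inv fun x hx => (h2.F_spec hx.1).2.2 _ hx.2)

theorem grow1_quot {a b : ℂ} {C : ℝ} (hC : 1 ≤ C) (hb : C⁻¹ ≤ ‖b‖) :
    ‖a / b - 1‖ ≤ C * ‖b - a‖ := by
  have hC0 : 0 < C := by linarith
  have h0 : 0 < ‖b‖ := (inv_pos.2 hC0).trans_le hb
  have hb0 : b ≠ 0 := norm_pos_iff.1 h0
  rw [show a / b - 1 = -(b - a) / b by field_simp; ring, norm_div, norm_neg, div_le_iff₀ h0]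
  calc ‖b - a‖ = C * ‖b - a‖ * C⁻¹ := by field_simp
    _ ≤ _ := by gcongr

theorem grow1_line {f : E n → ℂ} {z z' : E n} {R b : ℝ} (hf : DifferentiableOn ℂ f (ball z R))
    (hb : ∀ x ∈ ball z R, ‖f x‖ ≤ b) (hz' : z' ∈ ball z R) :
    ‖f z' - f z‖ ≤ 2 * b / R * ‖z' - z‖ := by
  obtain ⟨e, he, hv⟩ := cls1_dir (z' - z)
  obtain ⟨h1, h2⟩ := cls1_line hf subset_rfl he
  have h3 := schwarz_lip (b := b) h2 (fun t ht => hb _ (h1 t ht))
    ((‖z' - z‖ : ℝ) : ℂ) (by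
      rw [mem_ball_zero_iff, Complex.norm_real, norm_norm]
      exact mem_ball_iff_norm.1 hz')
  rw [← hv, add_sub_cancel, zero_smul, add_zero, Complex.norm_real, norm_norm] at h3
  exact h3

theorem grow1_deep {δ : ℝ} (hδ : 0 < δ) {z : E n} (hz : δ ≤ dep D z) : z ∈ D :=
  ball_dep_subset z (mem_ball_self (hδ.trans_le hz))

theorem grow1_dO {h : ℂ → E n} (hh : Adm D h) {z : E n} (hz : z ∈ D) {ρ ρ' C : ℝ} (hρ : ρ < ρ')
    (hρ' : ρ' < 1) (hC : ∀ ω : ℂ, ‖ω‖ ≤ ρ' → ‖O h z (F h z) ω‖ ≤ C) {a b : ℂ} (ha : ‖a‖ ≤ ρ)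
    (hb : ‖b‖ ≤ ρ) : ‖dslope (O h z (F h z)) a b‖ ≤ 2 * C / (ρ' - ρ) :=
  dslope_bound hρ ((cls2_O_diff hh.1 z (hh.F_spec hz).1).mono (ball_subset_ball hρ'.le))
    (fun w hw => hC w (mem_ball_zero_iff.1 hw).le) ha hb

theorem Geo.grow1_pt (G : Geo D Φ) {δ ρ ρ' : ℝ} (hδ : 0 < δ) (hρ : ρ < ρ') (hρ' : ρ' < 1) :
    ∃ K > 0, ∀ h₁ h₂, Adm D h₁ → Adm D h₂ → ∀ a : ℝ,
      (∀ ω : ℂ, ‖ω‖ ≤ ρ' → ‖h₂ ω - h₁ ω‖ ≤ a) → ∀ z, δ ≤ dep D z → ‖F h₁ z‖ ≤ ρ →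
      ‖F h₂ z - F h₁ z‖ ≤ K * a ∧ ∀ ω : ℂ, ‖ω‖ ≤ ρ → ‖Gr h₁ h₂ z ω - 1‖ ≤ K * a := by
  obtain ⟨B, hB, HB⟩ := G.bdd.exists_pos_norm_le
  obtain ⟨C, hC, HC⟩ := G.O_bounds hδ hρ'
  have hC0 : 0 < C := by linarith
  have hg : 0 < ρ' - ρ := by linarith
  obtain ⟨L, hL⟩ : ∃ L, L = C * (B * (2 / (ρ' - ρ)) + C * B * (2 * C / (ρ' - ρ))) := ⟨_, rfl⟩
  have hL0 : 0 < L := by rw [hL]; positivity
  refine ⟨C * B + L, by positivity, fun h₁ h₂ h1 h2 a ha z hz hF => ?_⟩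
  have hzD := grow1_deep hδ hz
  have hρ0 : 0 ≤ ρ := (norm_nonneg _).trans hF
  have ha0 : 0 ≤ a := (norm_nonneg _).trans (ha 0 (by rw [norm_zero]; linarith))
  have hzB := HB z hzD
  obtain ⟨a1, b1, -⟩ := h1.F_spec hzD
  obtain ⟨a2, b2, -⟩ := h2.F_spec hzD
  have k1 : ‖F h₁ z - F h₂ z‖ ≤ C * B * a := by
    have e1 := W_eq h₂ z b2 (F h₁ z)
    have e2 : (F h₁ z - F h₂ z) * O h₂ z (F h₂ z) (F h₁ z) =
        -dot z (h₂ (F h₁ z) - h₁ (F h₁ z)) := by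
      rw [dot_sub_right, b1, ← e1]; ring
    have e3 := congrArg norm e2
    rw [norm_mul, norm_neg] at e3
    have e4 : ‖dot z (h₂ (F h₁ z) - h₁ (F h₁ z))‖ ≤ B * a :=
      (norm_dot_le _ _).trans (mul_le_mul hzB (ha _ (by linarith)) (norm_nonneg _) hB.le)
    have e5 := (HC h₂ h2 z hz (F h₁ z) (by linarith)).1
    calc ‖F h₁ z - F h₂ z‖ = C * (‖F h₁ z - F h₂ z‖ * C⁻¹) := by field_simp
      _ ≤ C * (‖F h₁ z - F h₂ z‖ * ‖O h₂ z (F h₂ z) (F h₁ z)‖) := by gcongr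
      _ ≤ C * (B * a) := by rw [e3]; gcongr
      _ = _ := by ring
  refine ⟨?_, fun ω hω => ?_⟩
  · rw [norm_sub_rev]
    exact k1.trans (mul_le_mul_of_nonneg_right (by linarith) ha0)
  have hω1 : ω ∈ ball (0 : ℂ) 1 := mem_ball_zero_iff.2 (by linarith)
  have e1 : ‖dslope (h₂ - h₁) (F h₁ z) ω‖ ≤ 2 * a / (ρ' - ρ) :=
    dslope_bound hρ ((h2.1.sub h1.1).mono (ball_subset_ball hρ'.le))
      (fun w hw => ha w (mem_ball_zero_iff.1 hw).le) hF hω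
  have e2 := grow1_dO h2 hzD hρ hρ' (fun w hw => (HC h₂ h2 z hz w hw).2) hF hω
  have e3 : ‖O h₂ z (F h₂ z) ω - O h₁ z (F h₁ z) ω‖ ≤
      B * (2 * a / (ρ' - ρ)) + C * B * a * (2 * C / (ρ' - ρ)) := by
    rw [O_sub h1 h2 hzD hω1]
    refine (norm_sub_le _ _).trans (add_le_add ?_ ?_)
    · rw [norm_neg]
      exact (norm_dot_le _ _).trans (mul_le_mul hzB e1 (norm_nonneg _) hB.le)
    · rw [norm_mul]
      exact mul_le_mul k1 e2 (norm_nonneg _) (by positivity)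
  calc ‖Gr h₁ h₂ z ω - 1‖ ≤ C * ‖O h₂ z (F h₂ z) ω - O h₁ z (F h₁ z) ω‖ :=
        grow1_quot hC (HC h₂ h2 z hz ω (by linarith)).1
    _ ≤ C * (B * (2 * a / (ρ' - ρ)) + C * B * a * (2 * C / (ρ' - ρ))) :=
        mul_le_mul_of_nonneg_left e3 hC0.le
    _ = L * a := by rw [hL]; ring
    _ ≤ _ := mul_le_mul_of_nonneg_right (le_add_of_nonneg_left (by positivity)) ha0

theorem Geo.cmp (G : Geo D Φ) {δ ρ ρ' : ℝ} (hδ : 0 < δ) (hρ : ρ < ρ') (hρ' : ρ' < 1) :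
    ∃ K > 0, ∃ δ' > 0, ∀ h₁ h₂, Adm D h₁ → Adm D h₂ → ∀ a : ℝ,
      (∀ ω : ℂ, ‖ω‖ ≤ ρ' → ‖h₂ ω - h₁ ω‖ ≤ a) → ∀ z, δ ≤ dep D z → ‖F h₁ z‖ ≤ ρ →
      ∀ z' ∈ ball z δ', z' ∈ D ∧ ‖F h₂ z' - F h₁ z'‖ ≤ K * a ∧
        ‖(F h₂ z' - F h₁ z') - (F h₂ z - F h₁ z)‖ ≤ K * a * ‖z' - z‖ ∧
        ∀ ω : ℂ, ‖ω‖ ≤ ρ → ‖Gr h₁ h₂ z' ω - 1‖ ≤ K * a ∧
          ‖Gr h₁ h₂ z' ω - Gr h₁ h₂ z ω‖ ≤ K * a * ‖z' - z‖ := by
  obtain ⟨σ, hσ1, hσ2⟩ := exists_between hρ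
  obtain ⟨K, hK, H⟩ := G.grow1_pt (half_pos hδ) hσ2 hρ'
  obtain ⟨d, hd⟩ : ∃ d, d = min (δ / 2) ((σ - ρ) * (δ / 2)) := ⟨_, rfl⟩
  have hd0 : 0 < d := hd ▸ lt_min (half_pos hδ) (mul_pos (by linarith) (half_pos hδ))
  have hd1 : d ≤ δ / 2 := hd ▸ min_le_left _ _
  have hd2 : d ≤ (σ - ρ) * (δ / 2) := hd ▸ min_le_right _ _
  refine ⟨K + 2 * K / d, by positivity, d, hd0, fun h₁ h₂ h1 h2 a ha z hz hF => ?_⟩
  have hρ0 : 0 ≤ ρ := (norm_nonneg _).trans hF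
  have ha0 : 0 ≤ a := (norm_nonneg _).trans (ha 0 (by rw [norm_zero]; linarith))
  have hsub : ball z δ ⊆ D := (ball_subset_ball hz).trans (ball_dep_subset z)
  have hsub' : ball z d ⊆ D := (ball_subset_ball (by linarith)).trans hsub
  have key : ∀ x ∈ ball z d, ‖F h₂ x - F h₁ x‖ ≤ K * a ∧
      ∀ ω : ℂ, ‖ω‖ ≤ σ → ‖Gr h₁ h₂ x ω - 1‖ ≤ K * a := fun x hx => by
    have hx' := mem_ball_iff_norm.1 hx
    refine H h₁ h₂ h1 h2 a ha x (le_dep_of_ball G.ne_univ ((ball_subset_ball' ?_).trans hsub)) ?_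
    · rw [dist_eq_norm]; linarith
    · have e1 := h1.F_lip G.isOpen hsub (ball_subset_ball (by linarith) hx)
      have e2 : 2 / δ * ‖x - z‖ ≤ σ - ρ := by
        calc 2 / δ * ‖x - z‖ ≤ 2 / δ * ((σ - ρ) * (δ / 2)) := by gcongr; linarith
          _ = _ := by field_simp
      have e3 := norm_le_insert' (F h₁ x) (F h₁ z)
      linarith
  have m1 : K * a ≤ (K + 2 * K / d) * a :=
    mul_le_mul_of_nonneg_right (le_add_of_nonneg_right (by positivity)) ha0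
  have m2 : ∀ t : ℝ, 0 ≤ t → 2 * (K * a) / d * t ≤ (K + 2 * K / d) * a * t := fun t ht => by
    refine mul_le_mul_of_nonneg_right ?_ ht
    have : 0 ≤ K * a := by positivity
    calc 2 * (K * a) / d = 2 * K / d * a := by ring
      _ ≤ _ := by rw [add_mul]; linarith
  intro z' hz'
  refine ⟨hsub' hz', (key z' hz').1.trans m1, ?_, fun ω hω => ⟨?_, ?_⟩⟩
  · exact (grow1_line (f := fun x => F h₂ x - F h₁ x)
      (((h2.F_diff G.isOpen).sub (h1.F_diff G.isOpen)).mono hsub') (fun x hx => (key x hx).1)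
      hz').trans (m2 _ (norm_nonneg _))
  · exact ((key z' hz').2 ω (by linarith)).trans m1
  · have hω1 : ω ∈ ball (0 : ℂ) 1 := mem_ball_zero_iff.2 (by linarith)
    have e1 : DifferentiableOn ℂ (fun x => Gr h₁ h₂ x ω) (ball z d) :=
      DifferentiableOn.comp (g := fun x : E n × ℂ => Gr h₁ h₂ x.1 x.2)
        (f := fun x : E n => (x, ω)) (Gr_diff G.isOpen h1 h2)
        (differentiableOn_id.prodMk (differentiableOn_const _)) fun x hx => ⟨hsub' hx, hω1⟩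
    have e2 := grow1_line (f := fun x => Gr h₁ h₂ x ω - 1) (e1.sub_const 1)
      (fun x hx => (key x hx).2 ω (by linarith)) hz'
    rw [sub_sub_sub_cancel_right] at e2
    exact e2.trans (m2 _ (norm_nonneg _))

/-- the quotient of the factors along the inner disc, on small circles -/
theorem Geo.gplus_small (G : Geo D Φ) (R : Rad) {δL : ℝ} (hδ : 0 < δL) : ∃ K > 0,
    ∀ {P : Par} {C c ε : ℝ} {p : E n} {h m h₂ : ℂ → E n} {X : ℝ},
      Good D R P δL C c ε p h m → Adm D h₂ →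
      (∀ w : ℂ, w ≠ 0 → ‖w‖ ≤ R.a3 → ‖chi h₂ (fp p h m) w‖ ≤ X) →
      ∀ w : ℂ, ‖w‖ ≤ R.a1 → ‖Gr h h₂ (fp p h m w) w - 1‖ ≤ K * ‖w‖ * (X + ‖h₂ w - h w‖) := by
  have r0 : 0 < R.a1 := (sq_nonneg _).trans_lt R.h1
  have r1 : R.a1 < R.a3 := R.h2.trans R.h3
  have r2 := R.h4
  have r3 : R.a4 < 1 := by linarith [R.h5, R.h6, R.h7, R.h8, R.h9]
  obtain ⟨B, hB, HB⟩ := G.bdd.exists_pos_norm_le
  obtain ⟨C, hC, HC⟩ := G.O_bounds hδ (r2.trans r3)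
  have hC0 : 0 < C := by linarith
  have g1 : 0 < R.a3 - R.a1 := by linarith
  have g2 : 0 < R.a4 - R.a3 := by linarith
  obtain ⟨U, hU⟩ : ∃ U, U = 2 * (2 * B / (R.a4 - R.a3)) / (R.a3 - R.a1) := ⟨_, rfl⟩
  obtain ⟨T, hT⟩ : ∃ T, T = 2 * C / (R.a3 - R.a1) := ⟨_, rfl⟩
  have hU0 : 0 < U := by rw [hU]; positivity
  have hT0 : 0 < T := by rw [hT]; positivity
  refine ⟨C * (2 * T + U), by positivity, fun {P C' c ε p h m h₂ X} g h2 hX w hw => ?_⟩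
  have hX0 : 0 ≤ X := (norm_nonneg _).trans (hX (R.a1 : ℂ) (ofReal_ne_zero.2 r0.ne') (by
    rw [Complex.norm_real, Real.norm_of_nonneg r0.le]; exact r1.le))
  rcases eq_or_ne w 0 with rfl | hw0
  · simp [Gr, O, fp_zero]
  have s4 : ball (0 : ℂ) R.a4 ⊆ ball 0 1 := ball_subset_ball r3.le
  have s3 : ball (0 : ℂ) R.a3 ⊆ ball 0 R.a4 := ball_subset_ball r2.le
  obtain ⟨f, hf⟩ : ∃ f, f = fp p h m := ⟨_, rfl⟩
  have fD : ∀ x ∈ ball (0 : ℂ) R.a4, f x ∈ D := fun x hx => hf ▸ grow1_deep hδ (g.inn x hx).2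
  have fd : DifferentiableOn ℂ f (ball 0 R.a4) := by
    have e1 := (np_diff (p := p) (h := h) g.md).mono s4
    rw [hf]
    exact (differentiableOn_id.div (diffOn_dot e1 (g.adm.1.mono s4))
      fun x hx => (g.inn x hx).1).smul e1
  obtain ⟨u, hu⟩ : ∃ u, u = dslope f 0 := ⟨_, rfl⟩
  have ud : DifferentiableOn ℂ u (ball 0 R.a4) :=
    hu ▸ (differentiableOn_dslope (ball_mem_nhds _ (by linarith))).2 fd
  have fu : ∀ x, f x = x • u x := fun x => by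
    have := sub_smul_dslope f 0 x
    rw [sub_zero, show f 0 = 0 from hf ▸ fp_zero, sub_zero] at this
    rw [hu, this]
  have uU : ‖deriv u w‖ ≤ U := hU ▸ deriv_bound r1 (ud.mono s3) (fun x hx => hu ▸
    dslope_bound r2 fd (fun y hy => HB _ (fD y hy)) (by rw [norm_zero]; linarith)
      (mem_ball_zero_iff.1 hx).le) hw
  have Δd : DifferentiableOn ℂ (h₂ - h) (ball 0 R.a4) := (h2.1.sub g.adm.1).mono s4
  obtain ⟨ψ, hψ⟩ : ∃ ψ : ℂ → ℂ, ψ = fun x => dot (u x) ((h₂ - h) x) := ⟨_, rfl⟩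
  have ψd : DifferentiableOn ℂ ψ (ball 0 R.a4) := hψ ▸ diffOn_dot ud Δd
  have ψ1 : ∀ x ∈ ball (0 : ℂ) R.a3, x ≠ 0 → ‖ψ x‖ ≤ X * C := fun x hx hx0 => by
    have hx' := (mem_ball_zero_iff.1 hx).le
    have e1 := chi_eq (h := h) (f := f) h2 hx0 (fD x (s3 hx)) (hf ▸ fp_dot (g.inn x (s3 hx)).1)
    have e2 : ψ x = chi h₂ f x * O h₂ (f x) (F h₂ (f x)) x := by
      apply mul_left_cancel₀ hx0
      rw [← mul_assoc, ← e1, hψ]
      conv_rhs => rw [fu x, dot_smul_left]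
      rfl
    rw [e2, norm_mul]
    exact mul_le_mul (hf ▸ hX x hx0 hx') (HC h₂ h2 _ (hf ▸ (g.inn x (s3 hx)).2) x hx').2
      (norm_nonneg _) hX0
  have ψ2 : ∀ x ∈ ball (0 : ℂ) R.a3, ‖ψ x‖ ≤ X * C := fun x hx => by
    rcases eq_or_ne x 0 with rfl | hx0
    · have e1 : ContinuousAt ψ 0 :=
        (ψd.differentiableAt (isOpen_ball.mem_nhds (s3 hx))).continuousAt
      refine le_of_tendsto (e1.norm.tendsto.mono_left (nhdsWithin_le_nhds (s := {0}ᶜ))) ?_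
      filter_upwards [mem_nhdsWithin_of_mem_nhds (isOpen_ball.mem_nhds hx), self_mem_nhdsWithin]
        with y hy hy0
      exact ψ1 y hy hy0
    · exact ψ1 x hx hx0
  have ψ3 : ‖deriv ψ w‖ ≤ X * T := (deriv_bound r1 (ψd.mono s3) ψ2 hw).trans_eq (by
    rw [hT]; ring)
  have w4 : w ∈ ball (0 : ℂ) R.a4 := mem_ball_zero_iff.2 (by linarith)
  have n4 := isOpen_ball.mem_nhds w4
  have ψ4 : deriv ψ w = dot (deriv u w) ((h₂ - h) w) + dot (u w) (deriv (h₂ - h) w) := by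
    rw [hψ]
    exact (hasDerivAt_dot (ud.differentiableAt n4).hasDerivAt
      (Δd.differentiableAt n4).hasDerivAt).deriv
  have Fw : F h (f w) = w := hf ▸ F_fp g.adm (s4 w4) (g.inn w w4).1 (hf ▸ fD w w4)
  have dw : δL ≤ dep D (f w) := hf ▸ (g.inn w w4).2
  have e1 := O_sub g.adm h2 (fD w w4) (s4 w4)
  have e2 : ‖dslope (O h₂ (f w) (F h₂ (f w))) w w‖ ≤ T := hT ▸ grow1_dO h2 (fD w w4) r1
    (r2.trans r3) (fun y hy => (HC h₂ h2 _ dw y hy).2) hw hw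
  have e3 : O h₂ (f w) (F h₂ (f w)) w - O h (f w) (F h (f w)) w =
      w * (dot (deriv u w) (h₂ w - h w) - deriv ψ w +
        chi h₂ f w * dslope (O h₂ (f w) (F h₂ (f w))) w w) := by
    have e4 : dot (f w) (deriv (h₂ - h) w) = w * dot (u w) (deriv (h₂ - h) w) := by
      rw [fu w, dot_smul_left]
    rw [e1, Fw, dslope_same (h₂ - h), e4, ψ4, chi, Pi.sub_apply]
    field_simp
    ring
  have e5 : ‖chi h₂ f w‖ ≤ X := hf ▸ hX w hw0 (by linarith)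
  have e6 : ‖dot (deriv u w) (h₂ w - h w) - deriv ψ w +
      chi h₂ f w * dslope (O h₂ (f w) (F h₂ (f w))) w w‖ ≤ (2 * T + U) * (X + ‖h₂ w - h w‖) := by
    have a1 : ‖dot (deriv u w) (h₂ w - h w)‖ ≤ U * ‖h₂ w - h w‖ :=
      (norm_dot_le _ _).trans (mul_le_mul_of_nonneg_right uU (norm_nonneg _))
    have a2 : ‖chi h₂ f w * dslope (O h₂ (f w) (F h₂ (f w))) w w‖ ≤ X * T := by
      rw [norm_mul]
      exact mul_le_mul e5 e2 (norm_nonneg _) hX0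
    refine ((norm_add_le _ _).trans (add_le_add ((norm_sub_le _ _).trans (add_le_add a1 ψ3))
      a2)).trans ?_
    have a3 := mul_nonneg hT0.le (norm_nonneg (h₂ w - h w))
    have a4 := mul_nonneg hU0.le hX0
    nlinarith
  rw [← hf]
  calc ‖Gr h h₂ (f w) w - 1‖ ≤ C * ‖O h₂ (f w) (F h₂ (f w)) w - O h (f w) (F h (f w)) w‖ :=
        grow1_quot hC (HC h₂ h2 _ dw w (by linarith)).1
    _ ≤ C * (‖w‖ * ((2 * T + U) * (X + ‖h₂ w - h w‖))) := by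
        rw [e3, norm_mul]
        exact mul_le_mul_of_nonneg_left (mul_le_mul_of_nonneg_left e6 (norm_nonneg _)) hC0.le
    _ = _ := by ring

end Pool.Agent.MP_4baaa2_an.H94

/-!
The residue identity and the estimates on the outer circle.
-/

namespace Pool.Agent.MP_4baaa2_an.H94

open Set Metric Filter Topology Complex
open scoped ComplexConjugate
open Pool.Agent.Lib.PlaneTop

variable {n : ℕ}

variable {D : Set (E n)} {Φ : E n → E n → ℂ} {R : Rad} {P : Par} {δL C c ε : ℝ} {p : E n}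
  {h m h₂ : ℂ → E n}

theorem grow2_rad (R : Rad) : 0 < R.a1 ∧ 0 < R.a2 ∧ 0 < R.a3 ∧ R.a3 < R.ρ1 ∧ R.ρ1 < 1 ∧
    R.a3 < R.r ∧ R.a4 < 1 := by
  have h0 := pow_pos R.h0 2
  have := R.h1; have := R.h2; have := R.h3; have := R.h4; have := R.h5; have := R.h6
  have := R.h7; have := R.h8; have := R.h9
  refine ⟨?_, ?_, ?_, ?_, ?_, ?_, ?_⟩ <;> linarith

theorem grow2_ball {a : ℝ} : Ann a ⊆ ball (0 : ℂ) 1 := fun _ hw => mem_ball_zero_iff.2 hw.2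

theorem grow2_ne {a : ℝ} (ha : 0 < a) {w : ℂ} (hw : a ≤ ‖w‖) : w ≠ 0 :=
  norm_pos_iff.1 (ha.trans_le hw)

theorem grow2_sph {a ρ : ℝ} (h1 : a < ρ) (h2 : ρ < 1) : sphere (0 : ℂ) ρ ⊆ Ann a := fun w hw => by
  rw [mem_sphere_zero_iff_norm] at hw
  exact ⟨hw ▸ h1, hw ▸ h2⟩

theorem grow2_nt (hg : Good D R P δL C c ε p h m) :
    DifferentiableOn ℂ (nt P ε p h m) (Ann R.a1) :=
  (nt_diff P ε p hg.adm.1 hg.md).mono fun _ hw => ⟨by rw [hg.hr]; exact R.h1.trans hw.1, hw.2⟩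

theorem grow2_num (hg : Good D R P δL C c ε p h m) :
    DifferentiableOn ℂ (fun w => dot (nt P ε p h m w) (h w - w • deriv h w)) (Ann R.a1) := by
  have h1 : DifferentiableOn ℂ (fun w => h w - w • deriv h w) (ball 0 1) :=
    hg.adm.1.fun_sub (differentiableOn_id.fun_smul (hg.adm.1.deriv isOpen_ball))
  exact diffOn_dot (grow2_nt hg) (h1.mono grow2_ball)

theorem grow2_zeta (hg : Good D R P δL C c ε p h m) : R.a2 < ‖F h p‖ ∧ ‖F h p‖ < R.r := by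
  have := R.h3; have := R.h4; have := R.h5; have := R.h7; have := R.h8
  have := hg.lo; have := hg.hi
  constructor <;> linarith

theorem Good.ff_diff (hg : Good D R P δL C c ε p h m) :
    DifferentiableOn ℂ (ff P ε p h m) (Ann R.a1) := by
  unfold ff
  exact (differentiableOn_id.div (diffOn_dot (grow2_nt hg) (hg.adm.1.mono grow2_ball))
    fun w hw => (hg.ne w hw).1).smul (grow2_nt hg)

theorem Good.fp_diff (hg : Good D R P δL C c ε p h m) :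
    DifferentiableOn ℂ (fp p h m) (ball 0 R.a4) := by
  have h1 : ball (0 : ℂ) R.a4 ⊆ ball 0 1 := ball_subset_ball (grow2_rad R).2.2.2.2.2.2.le
  have h2 : DifferentiableOn ℂ (np p h m) (ball 0 R.a4) := (np_diff hg.md).mono h1
  unfold fp
  exact (differentiableOn_id.div (diffOn_dot h2 (hg.adm.1.mono h1))
    fun w hw => (hg.inn w hw).1).smul h2

theorem Good.chi_diff (G : Geo D Φ) (hg : Good D R P δL C c ε p h m) (hh : Adm D h₂) :
    DifferentiableOn ℂ (chi h₂ (ff P ε p h m)) (Ann R.a1) := by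
  unfold chi
  exact (((hh.F_diff G.isOpen).comp hg.ff_diff fun w hw => (hg.ne w hw).2).div differentiableOn_id
    fun w hw => grow2_ne (grow2_rad R).1 hw.1.le).sub_const 1

theorem Good.residue (G : Geo D Φ) (hg : Good D R P δL C c ε p h m) (hh : Adm D h₂) {ρ : ℝ}
    (hρ : R.r < ρ) (hρ1 : ρ < 1) : F h₂ p / F h p - 1 =
      Real.circleAverage (fun w => chi h₂ (ff P ε p h m) w * N1 P ε p h m w) 0 ρ -
      Real.circleAverage (fun w => chi h₂ (ff P ε p h m) w * N1 P ε p h m w) 0 R.a2 := by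
  obtain ⟨z1, z2⟩ := grow2_zeta hg
  have h2 := (grow2_rad R).2.1
  have hζ : F h p ≠ 0 := grow2_ne h2 z1.le
  have h1 := ann_cauchy (U := Ann R.a1) (b := ρ) h2 (isOpen_Ann _)
    (fun w h1 h3 => ⟨R.h2.trans_le h1, h3.trans_lt hρ1⟩)
    ((hg.chi_diff G hh).mul (grow2_num hg)) z1 (z2.trans hρ)
  have h3 : (fun ω => (ω / (ω - F h p)) • (chi h₂ (ff P ε p h m) *
      fun w => dot (nt P ε p h m w) (h w - w • deriv h w)) ω) =
      fun w => chi h₂ (ff P ε p h m) w * N1 P ε p h m w := by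
    funext ω
    simp only [Pi.mul_apply, smul_eq_mul, N1]
    ring
  rw [h3] at h1
  rw [h1, Pi.mul_apply, nt_zeta, res_one hg.adm hg.pD hζ, mul_one, chi, ff_zeta hg.adm hg.pD hζ]

theorem grow2_point {x N : ℂ} {c C μ t : ℝ} (hc : 0 < c) (ht : 0 ≤ t) (ht3 : t ≤ 3)
    (hx : ‖x + 1‖ ^ 2 ≤ 1 + t) (h1 : c ≤ N.re) (h2 : ‖N‖ ≤ C) (h3 : |N.im| ≤ μ / 4)
    (h4 : t * C ≤ μ) : (x * N).re ≤ -(c / 2) * ‖x‖ ^ 2 + μ := by
  rw [Complex.sq_norm, normSq_apply] at hx ⊢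
  simp only [add_re, add_im, one_re, one_im, add_zero] at hx
  have h5 : N.re ≤ C := (re_le_norm N).trans h2
  have h6 : |x.im| ≤ 2 := abs_le_of_sq_le_sq (by nlinarith [mul_self_nonneg (x.re + 1)]) zero_le_two
  have h7 : -(x.im * N.im) ≤ μ / 2 := by
    refine (neg_le_abs _).trans ?_
    rw [abs_mul]
    nlinarith [abs_nonneg x.im, abs_nonneg N.im]
  have h8 : x.re - t / 2 ≤ -((x.re * x.re + x.im * x.im) / 2) := by nlinarith
  have h9 : 0 ≤ x.re * x.re + x.im * x.im := add_nonneg (mul_self_nonneg _) (mul_self_nonneg _)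
  have h10 : (x.re - t / 2) * N.re ≤ (x.re - t / 2) * c :=
    mul_le_mul_of_nonpos_left h1 (by linarith)
  have h11 : (x.re - t / 2) * c ≤ -((x.re * x.re + x.im * x.im) / 2) * c :=
    mul_le_mul_of_nonneg_right h8 hc.le
  have h12 : t * N.re ≤ t * C := mul_le_mul_of_nonneg_left h5 ht
  rw [mul_re]
  linarith

theorem Good.outer (G : Geo D Φ) (hg : Good D R P δL C c ε p h m) (hc : 0 < c) (hh : Adm D h₂)
    {μ : ℝ} (hμ : 0 < μ) : ∃ ρ, R.r < ρ ∧ ρ < 1 ∧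
      (Real.circleAverage (fun w => chi h₂ (ff P ε p h m) w * N1 P ε p h m w) 0 ρ).re ≤
        -(c / 2) * Real.circleAverage (fun w => ‖chi h₂ (ff P ε p h m) w‖ ^ 2) 0 ρ + μ := by
  obtain ⟨r₃, hr₃, him⟩ := hg.n1im (μ / 4) (by positivity)
  have hev : ∀ᶠ ρ : ℝ in 𝓝 1, R.r < ρ ∧ r₃ < ρ ∧ 1 / 2 < ρ ∧ (1 / ρ ^ 2 - 1) * C < μ := by
    refine (lt_mem_nhds R.h9).and ((lt_mem_nhds hr₃).and ((lt_mem_nhds (by norm_num)).and ?_))
    have h1 : ContinuousAt (fun ρ : ℝ => (1 / ρ ^ 2 - 1) * C) 1 := by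
      fun_prop (disch := norm_num)
    exact h1.eventually_lt continuousAt_const (by simpa using hμ)
  obtain ⟨ρ, ⟨h1, h2, h3, h4⟩, h5⟩ :=
    ((hev.filter_mono nhdsWithin_le_nhds).and (self_mem_nhdsWithin (a := (1 : ℝ))
      (s := Iio 1))).exists
  have h6 : ρ < 1 := h5
  have h0 : 0 < ρ := by linarith
  refine ⟨ρ, h1, h6, ?_⟩
  have ha : R.a1 < ρ := R.h2.trans ((grow2_zeta hg).1.trans ((grow2_zeta hg).2.trans h1))
  have cχ : ContinuousOn (chi h₂ (ff P ε p h m)) (sphere 0 ρ) :=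
    (hg.chi_diff G hh).continuousOn.mono (grow2_sph ha h6)
  have cN : ContinuousOn (N1 P ε p h m) (sphere 0 ρ) :=
    (cx5_ker ((grow2_zeta hg).2.trans h1).ne).mul
      ((grow2_num hg).continuousOn.mono (grow2_sph ha h6))
  have c1 : ContinuousOn (fun w => chi h₂ (ff P ε p h m) w * N1 P ε p h m w) (sphere 0 ρ) :=
    cχ.mul cN
  have c2 : ContinuousOn (fun w => ‖chi h₂ (ff P ε p h m) w‖ ^ 2) (sphere 0 ρ) := cχ.norm.pow 2
  have c3 : ContinuousOn (fun w => (-(c / 2)) • ‖chi h₂ (ff P ε p h m) w‖ ^ 2) (sphere 0 ρ) :=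
    c2.const_smul (-(c / 2))
  rw [avg_re h0 c1, ← smul_eq_mul, ← Real.circleAverage_fun_smul,
    ← Real.circleAverage_const μ 0 ρ, ← Real.circleAverage_fun_add (c3.circleIntegrable h0.le)
      (continuousOn_const.circleIntegrable h0.le)]
  refine Real.circleAverage_mono ((continuous_re.comp_continuousOn c1).circleIntegrable h0.le)
    ((c3.add continuousOn_const).circleIntegrable h0.le) fun w hw => ?_
  rw [abs_of_pos h0] at hw
  have hn := hg.n1 w (grow2_sph h1 h6 hw)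
  have hρ2 : 0 < ρ ^ 2 := by positivity
  refine grow2_point (t := 1 / ρ ^ 2 - 1) hc ?_ ?_ ?_ hn.1 hn.2 (him w (grow2_sph h2 h6 hw)) h4.le
  · rw [sub_nonneg, le_div_iff₀ hρ2]
    nlinarith
  · rw [sub_le_iff_le_add, div_le_iff₀ hρ2]
    nlinarith
  · have h7 := mem_ball_zero_iff.1 (hh.F_spec (hg.ne w (grow2_sph ha h6 hw)).2).1
    rw [chi, sub_add_cancel, add_sub_cancel, norm_div, mem_sphere_zero_iff_norm.1 hw, div_pow]
    exact div_le_div_of_nonneg_right (pow_le_one₀ (norm_nonneg _) h7.le) hρ2.le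

/-- the Cauchy formula on the annulus followed by the maximum principle -/
theorem grow2_max {χ ψ : ℂ → ℂ} {a1 a2 a3 a4 r ρ B : ℝ} (h2 : 0 < a2) (h12 : a1 < a2)
    (h23 : a2 < a3) (h34 : a3 < a4) (h3r : a3 < r) (hρ : r < ρ) (hρ1 : ρ < 1)
    (hχ : DifferentiableOn ℂ χ (Ann a1)) (hψ : DifferentiableOn ℂ ψ (ball 0 a4))
    (hB : ∀ w : ℂ, a2 ≤ ‖w‖ → ‖w‖ ≤ a3 → ‖χ w - ψ w‖ ≤ B) {w : ℂ} (hw : ‖w‖ ≤ a3) :
    ‖ψ w‖ ≤ 1 / (r - a3) * √(Real.circleAverage (fun w => ‖χ w‖ ^ 2) 0 ρ) +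
      (a2 / (a3 - a2) + 1) * B := by
  have h3 : 0 < a3 := h2.trans h23
  have h0 : 0 < ρ := by linarith
  have hk : 0 < 1 / (r - a3) := one_div_pos.2 (sub_pos.2 h3r)
  refine norm_le_of_forall_mem_frontier_norm_le (U := ball 0 a3) isBounded_ball
    (hψ.diffContOnCl_ball (closedBall_subset_ball h34)) (fun z hz => ?_)
    (by rw [closure_ball _ h3.ne']; exact mem_closedBall_zero_iff.2 hw)
  rw [frontier_ball _ h3.ne', mem_sphere_zero_iff_norm] at hz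
  have hz2 : a2 < ‖z‖ := hz ▸ h23
  have hzρ : ‖z‖ < ρ := by linarith
  have e1 := ann_cauchy (U := Ann a1) (b := ρ) h2 (isOpen_Ann _)
    (fun w h1 h3 => ⟨h12.trans_le h1, h3.trans_lt hρ1⟩) hχ hz2 hzρ
  have e2 : Real.circleAverage (fun ω => (ω / (ω - z)) • ψ ω) 0 a2 = 0 := by
    refine avg_eq_zero h2 h23 (DifferentiableOn.smul (differentiableOn_id.div
      (differentiableOn_id.sub_const z) fun ω hω h => ?_) (hψ.mono (ball_subset_ball h34.le)))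
      (by simp)
    rw [mem_ball_zero_iff, show ω = z from sub_eq_zero.1 h] at hω
    exact hω.ne hz
  have cρ : ContinuousOn χ (sphere 0 ρ) := hχ.continuousOn.mono (grow2_sph (by linarith) hρ1)
  have c1 : ContinuousOn (fun ω => (ω / (ω - z)) • χ ω) (sphere 0 a2) :=
    (cx5_ker hz2.ne').smul (hχ.continuousOn.mono (grow2_sph h12 (by linarith)))
  have c2 : ContinuousOn (fun ω => (ω / (ω - z)) • ψ ω) (sphere 0 a2) :=
    (cx5_ker hz2.ne').smul (hψ.continuousOn.mono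
      (sphere_subset_closedBall.trans (closedBall_subset_ball (h23.trans h34))))
  have b1 : ‖Real.circleAverage (fun ω => (ω / (ω - z)) • χ ω) 0 a2‖ ≤ a2 / (a3 - a2) * B := by
    have e3 := Real.circleAverage_fun_sub (c1.circleIntegrable h2.le) (c2.circleIntegrable h2.le)
    rw [e2, sub_zero] at e3
    rw [← e3]
    refine norm_avg_le h2 fun ω hω => ?_
    rw [mem_sphere_zero_iff_norm] at hω
    rw [← smul_sub, norm_smul, norm_div, hω]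
    refine mul_le_mul (div_le_div_of_nonneg_left h2.le (sub_pos.2 h23) ?_)
      (hB ω hω.ge (hω.le.trans h23.le)) (norm_nonneg _) (div_pos h2 (sub_pos.2 h23)).le
    rw [← hz, ← hω, norm_sub_rev]
    exact norm_sub_norm_le z ω
  have b2 : ‖Real.circleAverage (fun ω => (ω / (ω - z)) • χ ω) 0 ρ‖ ≤
      1 / (r - a3) * √(Real.circleAverage (fun w => ‖χ w‖ ^ 2) 0 ρ) := by
    have h4 := avg_mul_le (u := fun _ => 1 / (r - a3)) (v := fun ω => ‖χ ω‖) h0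
      continuousOn_const cρ.norm
    rw [Real.circleAverage_const, Real.sqrt_sq hk.le] at h4
    refine (norm_avg_le_avg h0 (continuousOn_const.mul cρ.norm) fun ω hω => ?_).trans h4
    rw [mem_sphere_zero_iff_norm] at hω
    rw [norm_smul, norm_div, hω]
    refine mul_le_mul_of_nonneg_right (div_le_div₀ zero_le_one hρ1.le (sub_pos.2 h3r) ?_)
      (norm_nonneg _)
    have := norm_sub_norm_le ω z
    linarith
  have b3 : ‖χ z‖ ≤ _ := e1 ▸ (norm_sub_le _ _).trans (add_le_add b2 b1)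
  have b4 := hB z hz2.le hz.le
  have b5 := norm_sub_norm_le (ψ z) (χ z)
  rw [norm_sub_rev] at b5
  linarith

theorem Geo.chi_plus (G : Geo D Φ) (R : Rad) {δL C : ℝ} (hδ : 0 < δL) (hC : 0 < C) :
    ∃ K > 0, ∃ e₀ > 0, ∀ {P : Par} {c ε : ℝ} {p : E n} {h m h₂ : ℂ → E n} {a ρ : ℝ},
      Good D R P δL C c ε p h m → ε * (P.Λ + 1) ≤ e₀ → Adm D h₂ →
      (∀ ω : ℂ, ‖ω‖ ≤ R.ρ1 → ‖h₂ ω - h ω‖ ≤ a) → R.r < ρ → ρ < 1 →
      ∀ w : ℂ, w ≠ 0 → ‖w‖ ≤ R.a3 → ‖chi h₂ (fp p h m) w‖ ≤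
        K * (√(Real.circleAverage (fun w => ‖chi h₂ (ff P ε p h m) w‖ ^ 2) 0 ρ) +
          ε * (P.Λ + 1) * a) := by
  obtain ⟨r1, r2, r3, r4, r5, r6, r7⟩ := grow2_rad R
  obtain ⟨K, hK, δ', hδ', H⟩ := G.cmp hδ r4 r5
  have k0 : 0 < 1 / (R.r - R.a3) := one_div_pos.2 (sub_pos.2 r6)
  have k1 : 0 < (R.a2 / (R.a3 - R.a2) + 1) * (K * C / R.a2) := by
    have := sub_pos.2 R.h3
    positivity
  refine ⟨1 / (R.r - R.a3) + (R.a2 / (R.a3 - R.a2) + 1) * (K * C / R.a2), add_pos k0 k1,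
    δ' / (2 * C), by positivity, ?_⟩
  intro P c ε p h m h₂ a ρ hg he hh ha hρ hρ1 w hw0 hw
  have a0 : 0 ≤ a := (norm_nonneg _).trans (ha 0 (by rw [norm_zero]; linarith))
  have e0 : 0 ≤ ε * (P.Λ + 1) * a :=
    mul_nonneg (mul_nonneg hg.eps (add_nonneg P.hΛ zero_le_one)) a0
  have hfp : ∀ ω ∈ ball (0 : ℂ) R.a4, fp p h m ω ∈ D := fun ω hω =>
    (dep_pos_iff G.isOpen G.ne_univ).1 (hδ.trans_le (hg.inn ω hω).2)
  have hψ : DifferentiableOn ℂ (fun ω => dslope (F h₂ ∘ fp p h m) 0 ω - 1) (ball 0 R.a4) :=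
    ((differentiableOn_dslope (ball_mem_nhds _ (r3.trans R.h4))).2
      ((hh.F_diff G.isOpen).comp hg.fp_diff hfp)).sub_const 1
  have hψe : ∀ ω : ℂ, ω ≠ 0 → dslope (F h₂ ∘ fp p h m) 0 ω - 1 = chi h₂ (fp p h m) ω := by
    intro ω hω
    rw [dslope_of_ne _ hω, slope_def_field, chi]
    simp [fp_zero, hh.F_zero G.zero]
  have key := grow2_max (B := K * C / R.a2 * (ε * (P.Λ + 1) * a)) r2 R.h2 R.h3 R.h4 r6 hρ hρ1
    (hg.chi_diff G hh) hψ (fun ω h1 h2 => ?_) hw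
  · rw [hψe w hw0] at key
    refine key.trans ?_
    have h1 := mul_nonneg k0.le e0
    have h2 := mul_nonneg k1.le (Real.sqrt_nonneg
      (Real.circleAverage (fun w => ‖chi h₂ (ff P ε p h m) w‖ ^ 2) 0 ρ))
    linarith
  have hω4 : ω ∈ ball (0 : ℂ) R.a4 := mem_ball_zero_iff.2 (h2.trans_lt R.h4)
  have hωA : ω ∈ Ann R.a1 := ⟨R.h2.trans_le h1, by linarith⟩
  have f1 : F h (fp p h m ω) = ω := F_fp hg.adm (grow2_ball hωA) (hg.inn ω hω4).1 (hfp ω hω4)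
  have f2 : F h (ff P ε p h m ω) = ω :=
    F_ff hg.adm (grow2_ball hωA) (hg.ne ω hωA).1 (hg.ne ω hωA).2
  have d1 := (hg.inn2 ω h1 h2).2.1
  have d2 : C * (ε * (P.Λ + 1)) < δ' := by
    have h3 := mul_le_mul_of_nonneg_left he hC.le
    rw [show C * (δ' / (2 * C)) = δ' / 2 by field_simp] at h3
    linarith
  have d3 := (H h h₂ hg.adm hh a ha _ (hg.inn ω hω4).2 (by rw [f1]; exact h2) (ff P ε p h m ω)
    (mem_ball_iff_norm.2 (d1.trans_lt d2))).2.2.1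
  rw [f1, f2, sub_sub_sub_cancel_right] at d3
  rw [hψe ω (grow2_ne r2 h1), chi, chi, sub_sub_sub_cancel_right, ← sub_div, norm_div]
  have d4 := d3.trans (mul_le_mul_of_nonneg_left d1 (mul_nonneg hK.le a0))
  refine (div_le_div₀ ((norm_nonneg _).trans d4) d4 r2 h1).trans (le_of_eq ?_)
  ring

end Pool.Agent.MP_4baaa2_an.H94

/-!
The estimate on the inner circle.
-/

namespace Pool.Agent.MP_4baaa2_an.H94

open Set Metric Filter Topology Complex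
open scoped ComplexConjugate
open Pool.Agent.Lib.PlaneTop

variable {n : ℕ}

variable {D : Set (E n)} {Φ : E n → E n → ℂ}

section aux
variable {R : Rad} {P : Par} {δL C c ε : ℝ} {p : E n} {h m h₂ : ℂ → E n}

theorem grow3_mem {δ : ℝ} (hδ : 0 < δ) {z : E n} (hz : δ ≤ dep D z) : z ∈ D :=
  ball_dep_subset z (mem_ball_self (hδ.trans_le hz))

theorem grow3_rad (R : Rad) : 0 < R.a1 ∧ R.a1 < R.a2 ∧ R.a2 < R.a3 ∧ R.a3 < R.a4 ∧
    R.a4 < R.σ1 ∧ R.σ1 < R.ρ1 ∧ R.ρ1 < 1 :=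
  ⟨(pow_pos R.h0 2).trans R.h1, R.h2, R.h3, R.h4, R.h5, R.h6.trans_lt R.h7, R.h8.trans R.h9⟩

/-- the integrand in terms of the difference of the two discs -/
theorem grow3_split (hg : Good D R P δL C c ε p h m) (hh : Adm D h₂) {w : ℂ}
    (hw : w ∈ Ann R.a1) (hζ : w - F h p ≠ 0) :
    chi h₂ (ff P ε p h m) w * N1 P ε p h m w =
      (w / (w - F h p) * dot (np p h m w) (h₂ w - h w) -
        ε * (dot (kap P h w) (h₂ w - h w) / w)) * Gr h h₂ (ff P ε p h m w) w := by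
  obtain ⟨hne, hD⟩ := hg.ne w hw
  have hw0 : w ≠ 0 := norm_pos_iff.1 ((grow3_rad R).1.trans hw.1)
  have hw1 : w ∈ ball (0 : ℂ) 1 := mem_ball_zero_iff.2 hw.2
  have e1 := chi_eq hh hw0 hD (ff_dot hne)
  have e2 : dot (nn P ε p h m w) (h₂ w - h w) =
      lam P ε p h m w * dot (ff P ε p h m w) (h₂ w - h w) := by rw [nn_eq hne, dot_smul_left]
  have e3 : dot (nn P ε p h m w) (h₂ w - h w) = w ^ 2 / (w - F h p) *
      (dot (np p h m w) (h₂ w - h w) -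
        ε * (w - F h p) / w ^ 2 * dot (kap P h w) (h₂ w - h w)) := by
    rw [nn, nt, dot_smul_left, dot_sub_left, dot_smul_left]
  have hO := (hh.F_spec hD).2.2 w hw1
  have e4 : w / (w - F h p) * dot (np p h m w) (h₂ w - h w) -
      ε * (dot (kap P h w) (h₂ w - h w) / w) = dot (nn P ε p h m w) (h₂ w - h w) / w := by
    rw [e3]; field_simp
  rw [e4, e2, e1, N1_eq hne, Gr, F_ff hg.adm hw1 hne hD]
  field_simp

theorem grow3_npd (hg : Good D R P δL C c ε p h m) (hδ : 0 < δL) (hh : Adm D h₂) {w : ℂ}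
    (hw : w ∈ ball (0 : ℂ) R.a4) (hw0 : w ≠ 0) :
    dot (np p h m w) (h₂ w - h w) = dot (np p h m w) (h w) * chi h₂ (fp p h m) w *
      O h₂ (fp p h m w) (F h₂ (fp p h m w)) w := by
  obtain ⟨hne, hD⟩ := hg.inn w hw
  have e1 := chi_eq hh hw0 (grow3_mem hδ hD) (fp_dot hne)
  have e2 : dot (fp p h m w) (h₂ w - h w) =
      w / dot (np p h m w) (h w) * dot (np p h m w) (h₂ w - h w) := by rw [fp, dot_smul_left]
  rw [e2] at e1
  field_simp at e1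
  linear_combination e1

theorem grow3_gp_diff (G : Geo D Φ) (hg : Good D R P δL C c ε p h m) (hδ : 0 < δL)
    (hh : Adm D h₂) :
    DifferentiableOn ℂ (fun w => Gr h h₂ (fp p h m w) w) (ball 0 R.a4) := by
  obtain ⟨r1, r2, r3, r4, r5, r6, r7⟩ := grow3_rad R
  have h1 : DifferentiableOn ℂ (fun w : ℂ => ((fp p h m w, w) : E n × ℂ)) (ball 0 R.a4) :=
    hg.fp_diff.prodMk differentiableOn_id
  have h2 := (Gr_diff G.isOpen hg.adm hh).comp h1 fun w hw =>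
    ⟨grow3_mem hδ (hg.inn w hw).2, ball_subset_ball (by linarith) hw⟩
  exact h2

theorem grow3_zeta (hg : Good D R P δL C c ε p h m) {w : ℂ} :
    R.σ1 - ‖w‖ ≤ ‖w - F h p‖ := by
  have h1 := norm_sub_norm_le (F h p) w
  rw [norm_sub_rev] at h1
  linarith [hg.lo]

theorem grow3_t1_diff (G : Geo D Φ) (hg : Good D R P δL C c ε p h m) (hδ : 0 < δL)
    (hh : Adm D h₂) : DifferentiableOn ℂ (fun w => w / (w - F h p) *
      dot (np p h m w) (h₂ w - h w) * Gr h h₂ (fp p h m w) w) (ball 0 R.a4) := by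
  obtain ⟨r1, r2, r3, r4, r5, r6, r7⟩ := grow3_rad R
  have hs : ball (0 : ℂ) R.a4 ⊆ ball 0 1 := ball_subset_ball (by linarith)
  refine ((differentiableOn_id.div (differentiableOn_id.sub_const _) fun w hw => ?_).mul
    (diffOn_dot ((np_diff hg.md).mono hs) ((hh.1.sub hg.adm.1).mono hs))).mul
    (grow3_gp_diff G hg hδ hh)
  have h1 := grow3_zeta hg (w := w)
  have h2 := mem_ball_zero_iff.1 hw
  exact (norm_pos_iff (a := w - F h p)).1 (by linarith)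

theorem grow3_main_cont (G : Geo D Φ) (hg : Good D R P δL C c ε p h m) (hh : Adm D h₂) :
    ContinuousOn (fun w => chi h₂ (ff P ε p h m) w * N1 P ε p h m w) (sphere 0 R.a2) := by
  obtain ⟨r1, r2, r3, r4, r5, r6, r7⟩ := grow3_rad R
  have s1 : sphere (0 : ℂ) R.a2 ⊆ Ann R.a1 := fun w hw => by
    have := mem_sphere_zero_iff_norm.1 hw
    exact ⟨by linarith, by linarith⟩
  have s2 : sphere (0 : ℂ) R.a2 ⊆ Ann (P.r ^ 2) := fun w hw =>
    ⟨by rw [hg.hr]; exact R.h1.trans (s1 hw).1, (s1 hw).2⟩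
  have s3 : sphere (0 : ℂ) R.a2 ⊆ ball 0 1 := fun w hw => mem_ball_zero_iff.2 (s1 hw).2
  refine ((hg.chi_diff G hh).continuousOn.mono s1).mul ?_
  unfold N1
  refine (continuousOn_id.div (continuousOn_id.sub continuousOn_const) fun w hw => ?_).mul
    (contOn_dot ((nt_diff P ε p hg.adm.1 hg.md).continuousOn.mono s2)
      ((hg.adm.1.continuousOn.mono s3).sub (continuousOn_id.smul
        ((hg.adm.1.deriv isOpen_ball).continuousOn.mono s3))))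
  have h1 := grow3_zeta hg (w := w)
  have h2 := mem_sphere_zero_iff_norm.1 hw
  exact (norm_pos_iff (a := w - F h p)).1 (by linarith)

theorem grow3_refl {Rh s : ℝ} (hb : ∀ ω ∈ ball (0 : ℂ) 1, ‖h ω‖ ≤ Rh) {w : ℂ}
    (hw : s ^ 2 < ‖w‖) : ‖cj (h (s ^ 2 / conj w))‖ ≤ Rh := by
  rw [norm_cj]
  refine hb _ (mem_ball_zero_iff.2 ?_)
  rw [norm_div, RCLike.norm_conj, div_lt_one ((sq_nonneg s).trans_lt hw), norm_pow,
    Complex.norm_real, Real.norm_eq_abs, sq_abs]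
  exact hw

theorem grow3_ip {g : ℂ → ℂ} {Δ : ℂ → E n} {Rh K s a X : ℝ} (hs : 0 < s) (hs1 : s < 1)
    (hK : 0 ≤ K) (hX : 0 ≤ X) (hb : ∀ ω ∈ ball (0 : ℂ) 1, ‖h ω‖ ≤ Rh)
    (hΔ : ContinuousOn Δ (sphere 0 s)) (ha : ∀ w ∈ sphere (0 : ℂ) s, ‖Δ w‖ ≤ a)
    (hg : ∀ w ∈ sphere (0 : ℂ) s, ‖g w‖ ≤ K * ‖w‖ * (X + ‖Δ w‖)) :
    ‖ip s (fun w => g w • Δ w) h‖ ≤ Rh * K * s * (X * a + N2 s Δ) := by
  have hc : ContinuousOn (fun w => ‖Δ w‖ ^ 2) (sphere 0 s) := hΔ.norm.pow 2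
  have h1 := norm_avg_le_avg (g := fun w => dot (g w • Δ w) (cj (h w)))
    (u := fun w => (Rh * K * s) • (X * a + ‖Δ w‖ ^ 2)) hs
    (continuousOn_const.mul (continuousOn_const.add hc)) fun w hw => by
      have hw' := mem_sphere_zero_iff_norm.1 hw
      have b1 := hb w (mem_ball_zero_iff.2 (hw'.trans_lt hs1))
      have b2 := hg w hw
      have b3 := ha w hw
      rw [hw'] at b2
      have b0 : 0 ≤ Rh := (norm_nonneg _).trans b1
      calc ‖dot (g w • Δ w) (cj (h w))‖ ≤ ‖g w‖ * ‖Δ w‖ * ‖h w‖ := by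
            simpa [norm_smul] using norm_dot_le (g w • Δ w) (cj (h w))
        _ ≤ K * s * (X + ‖Δ w‖) * ‖Δ w‖ * Rh := by gcongr
        _ = Rh * K * s * (X * ‖Δ w‖ + ‖Δ w‖ ^ 2) := by ring
        _ ≤ Rh * K * s * (X * a + ‖Δ w‖ ^ 2) := by gcongr
  rw [Real.circleAverage_fun_smul, Real.circleAverage_fun_add
    (continuousOn_const.circleIntegrable hs.le) (hc.circleIntegrable hs.le),
    Real.circleAverage_const] at h1
  exact h1

theorem grow3_avg {f t b u : ℂ → ℂ} {ρ B : ℝ} {e l : ℂ} (hρ : 0 < ρ)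
    (hf : ContinuousOn f (sphere 0 ρ)) (ht : ContinuousOn t (sphere 0 ρ))
    (hb : ContinuousOn b (sphere 0 ρ)) (hu : ContinuousOn u (sphere 0 ρ))
    (hB : ∀ w ∈ sphere (0 : ℂ) ρ, ‖t w - f w - e * b w - l * u w‖ ≤ B) :
    ‖Real.circleAverage t 0 ρ - Real.circleAverage f 0 ρ - e * Real.circleAverage b 0 ρ -
      l * Real.circleAverage u 0 ρ‖ ≤ B := by
  have h1 := norm_avg_le (g := t - f - e • b - l • u) hρ hB
  have c1 := ht.sub hf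
  have c2 := hb.const_smul e
  have c3 := hu.const_smul l
  rw [Real.circleAverage_sub ((c1.sub c2).circleIntegrable hρ.le) (c3.circleIntegrable hρ.le),
    Real.circleAverage_sub (c1.circleIntegrable hρ.le) (c2.circleIntegrable hρ.le),
    Real.circleAverage_sub (ht.circleIntegrable hρ.le) (hf.circleIntegrable hρ.le),
    Real.circleAverage_smul, Real.circleAverage_smul] at h1
  exact h1

theorem grow3_pt {A ds dr g gp : ℂ} {ε Λ bA bd b1 b2 : ℝ} (hε : 0 ≤ ε) (hΛ : 0 ≤ Λ)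
    (hA : ‖A‖ ≤ bA) (hs : ‖ds‖ ≤ bd) (hr : ‖dr‖ ≤ bd) (h1 : ‖g - gp‖ ≤ b1) (h2 : ‖g - 1‖ ≤ b2) :
    ‖A * gp - (A - ε * (2 * (Λ * ds + dr))) * g - ε * (2 * (Λ * ds + dr)) -
      2 * ε * Λ * ((gp - 1) * ds)‖ ≤ bA * b1 + 2 * ε * Λ * (bd * b1) + 2 * ε * (bd * b2) := by
  have e : A * gp - (A - ε * (2 * (Λ * ds + dr))) * g - ε * (2 * (Λ * ds + dr)) -
      2 * ε * Λ * ((gp - 1) * ds) = -(A * (g - gp)) + ((2 * ε * Λ : ℝ) : ℂ) * (ds * (g - gp)) +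
        ((2 * ε : ℝ) : ℂ) * (dr * (g - 1)) := by push_cast; ring
  have p1 : 0 ≤ bA := (norm_nonneg _).trans hA
  have p2 : 0 ≤ bd := (norm_nonneg _).trans hs
  rw [e]
  refine norm_add₃_le.trans ?_
  rw [norm_neg, norm_mul, norm_mul, norm_mul, norm_mul, norm_mul, Complex.norm_real,
    Complex.norm_real, Real.norm_of_nonneg (by positivity), Real.norm_of_nonneg (by positivity)]
  gcongr

theorem grow3_num {k1 k2 k3 k4 ε Λ s a X N : ℝ} (h1 : 0 ≤ k1) (h2 : 0 ≤ k2) (h3 : 0 ≤ k3)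
    (h4 : 0 ≤ k4) (hε : 0 ≤ ε) (hΛ : 0 ≤ Λ) (hs : 0 ≤ s) (hs1 : s ≤ 1) (ha : 0 ≤ a) (hX : 0 ≤ X)
    (hN : 0 ≤ N) :
    k1 * (ε * (Λ + 1) * a * X) + k2 * (ε * Λ * (ε * (Λ + 1)) * a ^ 2) + k3 * (ε * a ^ 2) +
      k4 * (ε * Λ * s * (X * a + N)) ≤ (k1 + k2 + k3 + k4 + 1) * (ε * (Λ + 1) * a * X +
        (ε * (Λ + 1)) ^ 2 * a ^ 2 + ε * a ^ 2 + ε * Λ * s * N) := by
  have e1 : ε * Λ * (ε * (Λ + 1)) * a ^ 2 ≤ (ε * (Λ + 1)) ^ 2 * a ^ 2 := by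
    rw [sq (ε * (Λ + 1))]; gcongr; linarith
  have e2 : ε * Λ * s * (X * a) ≤ ε * (Λ + 1) * a * X := by
    calc ε * Λ * s * (X * a) ≤ ε * (Λ + 1) * 1 * (X * a) := by gcongr; linarith
      _ = _ := by ring
  obtain ⟨u1, hu1⟩ : ∃ u, u = ε * (Λ + 1) * a * X := ⟨_, rfl⟩
  obtain ⟨u2, hu2⟩ : ∃ u, u = (ε * (Λ + 1)) ^ 2 * a ^ 2 := ⟨_, rfl⟩
  obtain ⟨u3, hu3⟩ : ∃ u, u = ε * a ^ 2 := ⟨_, rfl⟩
  obtain ⟨u4, hu4⟩ : ∃ u, u = ε * Λ * s * N := ⟨_, rfl⟩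
  have p1 : 0 ≤ u1 := by rw [hu1]; positivity
  have p2 : 0 ≤ u2 := by rw [hu2]; positivity
  have p3 : 0 ≤ u3 := by rw [hu3]; positivity
  have p4 : 0 ≤ u4 := by rw [hu4]; positivity
  rw [← hu2] at e1
  rw [← hu1] at e2
  rw [mul_add (ε * Λ * s), ← hu1, ← hu2, ← hu3, ← hu4]
  have q1 := mul_le_mul_of_nonneg_left (show u1 ≤ u1 + u2 + u3 + u4 by linarith) h1
  have q2 := mul_le_mul_of_nonneg_left (e1.trans (show u2 ≤ u1 + u2 + u3 + u4 by linarith)) h2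
  have q3 := mul_le_mul_of_nonneg_left (show u3 ≤ u1 + u2 + u3 + u4 by linarith) h3
  have q4 := mul_le_mul_of_nonneg_left
    (show ε * Λ * s * (X * a) + u4 ≤ u1 + u2 + u3 + u4 by linarith) h4
  linarith

end aux

theorem Geo.inner_est (G : Geo D Φ) (R : Rad) {δL C : ℝ} (hδ : 0 < δL) (hC : 0 < C) :
    ∃ K > 0, ∃ e₀ > 0, ∀ {P : Par} {c ε : ℝ} {p : E n} {h m h₂ : ℂ → E n} {a X : ℝ},
      Good D R P δL C c ε p h m → P.s ≤ R.a1 → ε * (P.Λ + 1) ≤ e₀ → Adm D h₂ →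
      (∀ ω : ℂ, ‖ω‖ ≤ R.ρ1 → ‖h₂ ω - h ω‖ ≤ a) →
      (∀ w : ℂ, w ≠ 0 → ‖w‖ ≤ R.a3 → ‖chi h₂ (fp p h m) w‖ ≤ X) →
      -(Real.circleAverage (fun w => chi h₂ (ff P ε p h m) w * N1 P ε p h m w) 0 R.a2).re ≤
        ε * (Lq P h (h₂ - h)).re + K * (ε * (P.Λ + 1) * a * X + (ε * (P.Λ + 1)) ^ 2 * a ^ 2 +
          ε * a ^ 2 + ε * P.Λ * P.s * N2 P.s (h₂ - h)) := by
  obtain ⟨r1, r2, r3, r4, r5, r6, r7⟩ := grow3_rad R
  obtain ⟨Rh, hRh, hb⟩ := adm_bound G.isOpen G.zero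
  obtain ⟨CO, hCO, hO⟩ := G.O_bounds hδ (ρ := R.a3) (by linarith)
  obtain ⟨K, hK, δ', hδ', hcmp⟩ := G.cmp hδ (ρ := R.a3) (ρ' := R.ρ1) (by linarith) r7
  obtain ⟨K', hK', hgp⟩ := G.gplus_small R hδ
  have hd0 : 0 < R.σ1 - R.a2 := by linarith
  have ha2 : 0 < R.a2 := by linarith
  refine ⟨R.a2 / (R.σ1 - R.a2) * C * CO * K * C + 2 * Rh * K * C + 2 * Rh * K + 2 * Rh * K' + 1,
    by positivity, δ' / (2 * C), by positivity, ?_⟩
  intro P c ε p h m h₂ a X hg hs he hh ha hX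
  have ha0 : 0 ≤ a := (norm_nonneg _).trans (ha 0 (by simp; linarith))
  have hX0 : 0 ≤ X := (norm_nonneg _).trans (hX R.a2 (by exact_mod_cast ha2.ne')
    (by rw [Complex.norm_real, Real.norm_of_nonneg ha2.le]; linarith))
  have hs0 := P.hs
  have hε := hg.eps
  have hΛ := P.hΛ
  have hs1 : P.s < 1 := by linarith
  have hs2 : P.s ^ 2 < R.a2 := by nlinarith
  have hr2 : P.r ^ 2 < R.a2 := by rw [hg.hr]; linarith [R.h1]
  have hΔ : DifferentiableOn ℂ (h₂ - h) (ball 0 1) := hh.1.sub hg.adm.1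
  have s4 : ball (0 : ℂ) R.a4 ⊆ ball 0 1 := ball_subset_ball (by linarith)
  have s2 : sphere (0 : ℂ) R.a2 ⊆ ball 0 R.a4 := sphere_subset_ball (by linarith)
  have hη : DifferentiableOn ℂ (fun w => (Gr h h₂ (fp p h m w) w - 1) • (h₂ - h) w)
      (ball 0 R.a4) := ((grow3_gp_diff G hg hδ hh).sub_const 1).smul (hΔ.mono s4)
  have m1 := avg_eq_zero ha2 (by linarith) (grow3_t1_diff G hg hδ hh) (by simp)
  have m2 := avg_kap P hg.adm.1 hΔ hr2 (by linarith)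
  have m3 := ip_eq_avg hg.adm.1 hs0 hs1 (by linarith) hs2 (by linarith) hη
  have m4 := grow3_ip (g := fun w => Gr h h₂ (fp p h m w) w - 1) (Δ := h₂ - h) (a := a) hs0 hs1
    hK'.le hX0 (hb h hg.adm) (hΔ.continuousOn.mono (sphere_subset_ball hs1))
    (fun w hw => ha w (by rw [mem_sphere_zero_iff_norm.1 hw]; linarith))
    fun w hw => hgp hg hh hX w (by rw [mem_sphere_zero_iff_norm.1 hw]; exact hs)
  have m5 := grow3_avg (e := ε) (l := 2 * ε * P.Λ) ha2 (grow3_main_cont G hg hh)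
    (B := R.a2 / (R.σ1 - R.a2) * (C * X * CO) * (K * a * (C * (ε * (P.Λ + 1)))) +
      2 * ε * P.Λ * (Rh * a * (K * a * (C * (ε * (P.Λ + 1))))) + 2 * ε * (Rh * a * (K * a)))
    ((grow3_t1_diff G hg hδ hh).continuousOn.mono s2)
    (b := fun w => dot (kap P h w) ((h₂ - h) w) / w)
    ((contOn_dot ((kap_diff P hg.adm.1).continuousOn.mono fun w hw => by
        rw [mem_ofPred_eq, mem_sphere_zero_iff_norm.1 hw]; exact hr2)
      (hΔ.continuousOn.mono (s2.trans s4))).div continuousOn_id fun w hw =>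
        norm_pos_iff.1 (by rw [mem_sphere_zero_iff_norm.1 hw]; exact ha2))
    (u := fun w => dot ((Gr h h₂ (fp p h m w) w - 1) • (h₂ - h) w) (cj (h (P.s ^ 2 / conj w))))
    (contOn_dot (hη.continuousOn.mono s2) ((refl_diff hg.adm.1 hs0).continuousOn.mono fun w hw => by
        rw [mem_ofPred_eq, mem_sphere_zero_iff_norm.1 hw]; exact hs2))
    fun w hw => by
      have hw' := mem_sphere_zero_iff_norm.1 hw
      have hw0 : w ≠ 0 := norm_pos_iff.1 (by linarith)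
      have hz := grow3_zeta hg (w := w)
      rw [hw'] at hz
      obtain ⟨i1, i2⟩ := hg.inn w (s2 hw)
      obtain ⟨-, j2, j3⟩ := hg.inn2 w hw'.ge (by linarith)
      have hF := F_fp hg.adm (s4 (s2 hw)) i1 (grow3_mem hδ i2)
      have hball : ff P ε p h m w ∈ ball (fp p h m w) δ' := by
        rw [mem_ball, dist_eq_norm]
        calc _ ≤ C * (ε * (P.Λ + 1)) := j2
          _ ≤ C * (δ' / (2 * C)) := by gcongr
          _ = δ' / 2 := by field_simp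
          _ < δ' := by linarith
      obtain ⟨k1, k2⟩ := (hcmp h h₂ hg.adm hh a ha _ i2 (by rw [hF]; linarith) _ hball).2.2.2 w
        (by linarith)
      have hΔw : ‖h₂ w - h w‖ ≤ a := ha w (by linarith)
      have e1 : dot (kap P h w) (h₂ w - h w) / w =
          2 * (P.Λ * dot (cj (h (P.s ^ 2 / conj w))) (h₂ w - h w) +
            dot (cj (h (P.r ^ 2 / conj w))) (h₂ w - h w)) := by
        rw [kap, dot_smul_left, dot_add_left, dot_smul_left]; field_simp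
      rw [grow3_split hg hh ⟨by linarith, by linarith⟩ (norm_pos_iff.1 (by linarith)),
        Pi.sub_apply, e1, dot_smul_left, dot_comm (h₂ w - h w)]
      refine grow3_pt hε hΛ ?_ ?_ ?_ (k2.trans (by gcongr)) k1
      · rw [norm_mul, norm_div, hw', grow3_npd hg hδ hh (s2 hw) hw0, norm_mul, norm_mul]
        have l1 := hX w hw0 (by linarith)
        have l2 := (hO h₂ hh _ i2 w (by linarith)).2
        gcongr
      · refine (norm_dot_le _ _).trans ?_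
        have := grow3_refl (s := P.s) (hb h hg.adm) (w := w) (by linarith)
        gcongr
      · refine (norm_dot_le _ _).trans ?_
        have := grow3_refl (s := P.r) (hb h hg.adm) (w := w) (by linarith)
        gcongr
  rw [m1, m2, m3] at m5
  have m6 := (re_le_norm _).trans m5
  have m7 : (2 * ε * P.Λ * ip P.s (fun w => (Gr h h₂ (fp p h m w) w - 1) • (h₂ - h) w) h).re ≤
      2 * ε * P.Λ * (Rh * K' * P.s * (X * a + N2 P.s (h₂ - h))) := by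
    refine (re_le_norm _).trans ?_
    rw [show (2 * ε * P.Λ : ℂ) = ((2 * ε * P.Λ : ℝ) : ℂ) by push_cast; ring, norm_mul,
      Complex.norm_real, Real.norm_of_nonneg (by positivity)]
    gcongr
  rw [sub_re, sub_re, sub_re, zero_re, re_ofReal_mul] at m6
  have m8 := grow3_num (k1 := R.a2 / (R.σ1 - R.a2) * C * CO * K * C) (k2 := 2 * Rh * K * C)
    (k3 := 2 * Rh * K) (k4 := 2 * Rh * K') (by positivity) (by positivity) (by positivity)
    (by positivity) hε hΛ hs0.le hs1.le ha0 hX0 (N2_nonneg P.s (h₂ - h))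
  linarith

end Pool.Agent.MP_4baaa2_an.H94

/-!
Uniform estimates for the perturbed Poisson kernel.
-/

namespace Pool.Agent.MP_4baaa2_an.H94

open Set Metric Filter Topology Complex
open scoped ComplexConjugate
open Pool.Agent.Lib.PlaneTop

variable {n : ℕ}

variable {D : Set (E n)} {Φ : E n → E n → ℂ}

/-- the Poisson kernel with pole at `ζ`, as a meromorphic function -/
noncomputable def Pz (ζ w : ℂ) : ℂ := w / (w - ζ) + conj ζ * w / (1 - conj ζ * w)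

lemma goodof_den {ζ w : ℂ} {σ : ℝ} (hζ : ‖ζ‖ ≤ σ) (hw : ‖w‖ ≤ 1) :
    1 - σ ≤ ‖1 - conj ζ * w‖ := by
  have h1 : ‖conj ζ * w‖ ≤ σ := by
    rw [norm_mul, Complex.norm_conj]
    exact (mul_le_of_le_one_right (norm_nonneg _) hw).trans hζ
  have h2 := norm_sub_norm_le (1 : ℂ) (conj ζ * w)
  rw [norm_one] at h2
  linarith

lemma goodof_den_ne {ζ w : ℂ} (hζ : ‖ζ‖ < 1) (hw : ‖w‖ ≤ 1) : 1 - conj ζ * w ≠ 0 := by
  have := goodof_den (le_refl ‖ζ‖) hw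
  exact norm_pos_iff.1 (by linarith)

lemma goodof_im {ζ w : ℂ} {σ ρ : ℝ} (hζ : ‖ζ‖ ≤ σ) (hσρ : σ < ρ) (hρ : ρ ≤ ‖w‖) (hw : ‖w‖ < 1) :
    |(Pz ζ w).im| ≤ 2 * (1 - ‖w‖) / ((ρ - σ) * (1 - σ)) := by
  have hσ1 : σ < 1 := by linarith
  have h1 : ρ - σ ≤ ‖w - ζ‖ := by
    have := norm_sub_norm_le w ζ
    linarith
  have h1' : w - ζ ≠ 0 := norm_pos_iff.1 (by linarith)
  have h2 : 1 - σ ≤ ‖1 - conj ζ * w‖ := goodof_den hζ hw.le
  have h2' : 1 - conj ζ * w ≠ 0 := norm_pos_iff.1 (by linarith)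
  have h3 : 1 - ζ * conj w = conj (1 - conj ζ * w) := by simp
  have h3' : 1 - ζ * conj w ≠ 0 := by rw [h3]; exact (map_ne_zero _).2 h2'
  have h4 : (Pz ζ w).im = (ζ * (1 - w * conj w) / ((w - ζ) * (1 - ζ * conj w))).im := by
    have e1 : ζ * (1 - w * conj w) / ((w - ζ) * (1 - ζ * conj w)) =
        w / (w - ζ) - conj (conj ζ * w / (1 - conj ζ * w)) - 1 := by
      rw [map_div₀, ← h3, map_mul, conj_conj]
      field_simp
      ring
    rw [e1, Pz]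
    simp only [add_im, sub_im, conj_im, one_im]
    ring
  rw [h4]
  refine (abs_im_le_norm _).trans ?_
  rw [norm_div, norm_mul, norm_mul, h3, Complex.norm_conj, mul_conj, normSq_eq_norm_sq]
  have h5 : ‖(1 : ℂ) - ((‖w‖ ^ 2 : ℝ) : ℂ)‖ = 1 - ‖w‖ ^ 2 := by
    rw [← ofReal_one, ← ofReal_sub, Complex.norm_real, Real.norm_of_nonneg]
    nlinarith [norm_nonneg w]
  rw [h5]
  have h6 : ‖ζ‖ * (1 - ‖w‖ ^ 2) ≤ 2 * (1 - ‖w‖) := by
    have : ‖ζ‖ * (1 - ‖w‖ ^ 2) ≤ 1 * (1 - ‖w‖ ^ 2) :=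
      mul_le_mul_of_nonneg_right (by linarith) (by nlinarith [norm_nonneg w])
    nlinarith [norm_nonneg w]
  have h7 : (ρ - σ) * (1 - σ) ≤ ‖w - ζ‖ * ‖1 - conj ζ * w‖ :=
    mul_le_mul h1 h2 (by linarith) (norm_nonneg _)
  exact div_le_div₀ (by linarith) h6 (mul_pos (by linarith) (by linarith)) h7

lemma goodof_re_inv {x : ℂ} (hx : ‖x‖ < 1) : 1 / (1 + ‖x‖) ≤ (1 - x)⁻¹.re := by
  have h1 : (1 : ℂ) - x ≠ 0 := by
    intro h
    have : x = 1 := (sub_eq_zero.1 h).symm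
    rw [this, norm_one] at hx
    exact lt_irrefl _ hx
  have h2 : 0 < normSq (1 - x) := normSq_pos.2 h1
  have h3 : normSq (1 - x) = 1 - 2 * x.re + ‖x‖ ^ 2 := by
    rw [← normSq_eq_norm_sq, normSq_apply, normSq_apply]
    simp only [sub_re, one_re, sub_im, one_im]
    ring
  have h4 : -‖x‖ ≤ x.re := (abs_le.1 (abs_re_le_norm x)).1
  rw [inv_re, div_le_div_iff₀ (by positivity) h2, h3]
  simp only [sub_re, one_re]
  nlinarith [mul_nonneg (show 0 ≤ ‖x‖ + x.re by linarith) (show 0 ≤ 1 - ‖x‖ by linarith)]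

lemma goodof_re {ζ w : ℂ} {σ : ℝ} (hζ : ‖ζ‖ ≤ σ) (hσ : σ < 1) (hζw : ‖ζ‖ < ‖w‖) (hw : ‖w‖ < 1) :
    (1 - σ) / 4 ≤ (Pz ζ w).re := by
  have hw0 : 0 < ‖w‖ := (norm_nonneg _).trans_lt hζw
  have hw0' : w ≠ 0 := norm_pos_iff.1 hw0
  have h1 : w - ζ ≠ 0 := by
    intro h
    rw [sub_eq_zero.1 h] at hζw
    exact lt_irrefl _ hζw
  have h2 : 1 - conj ζ * w ≠ 0 := goodof_den_ne (by linarith) hw.le
  have e1 : Pz ζ w = (1 - ζ / w)⁻¹ + (1 - conj ζ * w)⁻¹ - 1 := by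
    have : 1 - ζ / w = (w - ζ) / w := by field_simp
    have h2' : 1 - w * conj ζ ≠ 0 := by rwa [mul_comm]
    rw [Pz, this]
    field_simp
    ring
  have hx : ‖ζ / w‖ < 1 := by rw [norm_div, div_lt_one hw0]; exact hζw
  have hy : ‖conj ζ * w‖ ≤ σ := by
    rw [norm_mul, Complex.norm_conj]
    exact (mul_le_of_le_one_right (norm_nonneg _) hw.le).trans hζ
  have a1 := goodof_re_inv hx
  have a2 := goodof_re_inv (hy.trans_lt hσ)
  have hσ0 : 0 ≤ σ := (norm_nonneg _).trans hζ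
  have a3 : (1 : ℝ) / 2 ≤ 1 / (1 + ‖ζ / w‖) :=
    one_div_le_one_div_of_le (by positivity) (by linarith)
  have a4 : 1 / (1 + σ) ≤ 1 / (1 + ‖conj ζ * w‖) :=
    one_div_le_one_div_of_le (by positivity) (by linarith)
  have a5 : 1 / 2 + (1 - σ) / 4 ≤ 1 / (1 + σ) := by
    rw [le_div_iff₀ (by positivity)]
    nlinarith [sq_nonneg (1 - σ)]
  rw [e1]
  simp only [add_re, sub_re, one_re]
  linarith

lemma goodof_up {ζ w : ℂ} {σ b : ℝ} (hζ : ‖ζ‖ ≤ σ) (hσ : σ < 1) (hw : ‖w‖ ≤ 1) (hb : 0 < b)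
    (hbw : b ≤ ‖w - ζ‖) : ‖Pz ζ w‖ ≤ 1 / b + 1 / (1 - σ) := by
  refine (norm_add_le _ _).trans (add_le_add ?_ ?_)
  · rw [norm_div]
    exact div_le_div₀ zero_le_one hw hb hbw
  · rw [norm_div]
    refine div_le_div₀ zero_le_one ?_ (by linarith) (goodof_den hζ hw)
    rw [norm_mul, Complex.norm_conj]
    exact (mul_le_of_le_one_right (norm_nonneg _) hw).trans (by linarith)

lemma goodof_lo {ζ w : ℂ} {σ a : ℝ} (hζ : ‖ζ‖ ≤ σ) (hσ : σ < 1) (hw : ‖w‖ ≤ 1) (ha : a ≤ ‖w‖)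
    (hne : w ≠ ζ) : a * (1 - σ) / 4 ≤ ‖Pz ζ w‖ := by
  have h1 : w - ζ ≠ 0 := sub_ne_zero.2 hne
  have h2 : 1 - conj ζ * w ≠ 0 := goodof_den_ne (by linarith) hw
  have e1 : Pz ζ w = w * (1 - ζ * conj ζ) / ((w - ζ) * (1 - conj ζ * w)) := by
    have h2' : 1 - w * conj ζ ≠ 0 := by rwa [mul_comm]
    rw [Pz]
    field_simp
    ring
  have hz0 := norm_nonneg ζ
  have h5 : ‖(1 : ℂ) - ((‖ζ‖ ^ 2 : ℝ) : ℂ)‖ = 1 - ‖ζ‖ ^ 2 := by
    rw [← ofReal_one, ← ofReal_sub, Complex.norm_real, Real.norm_of_nonneg]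
    nlinarith
  rw [e1, norm_div, norm_mul, norm_mul, mul_conj, normSq_eq_norm_sq, h5]
  have b1 : ‖w - ζ‖ ≤ 2 := (norm_sub_le _ _).trans (by linarith)
  have b2 : ‖1 - conj ζ * w‖ ≤ 2 := by
    refine (norm_sub_le _ _).trans ?_
    rw [norm_one, norm_mul, Complex.norm_conj]
    have := mul_le_of_le_one_right hz0 hw
    linarith
  have b3 : ‖w - ζ‖ * ‖1 - conj ζ * w‖ ≤ 4 := by
    have := mul_le_mul b1 b2 (norm_nonneg _) zero_le_two
    linarith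
  have b4 : a * (1 - σ) ≤ ‖w‖ * (1 - ‖ζ‖ ^ 2) :=
    mul_le_mul ha (by nlinarith) (by linarith) (norm_nonneg _)
  exact div_le_div₀ (mul_nonneg (norm_nonneg _) (by nlinarith)) b4
    (mul_pos (norm_pos_iff.2 h1) (norm_pos_iff.2 h2)) b3

lemma goodof_a1 (R : Rad) : 0 < R.a1 := (pow_pos R.h0 2).trans R.h1

lemma goodof_split {P : Par} {ε : ℝ} {p : E n} {h m : ℂ → E n} (hh : Adm D h) (hp : p ∈ D)
    (hζ : F h p ≠ 0) {w : ℂ} (hw0 : w ≠ 0) (hne : w ≠ F h p) :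
    N1 P ε p h m w - Pz (F h p) w =
      (w * dslope (fun w => dot (np p h m w) (h w - w • deriv h w)) (F h p) w -
        conj (F h p) * w / (1 - conj (F h p) * w)) -
      ε * dot (kap P h w) (h w - w • deriv h w) / w := by
  have h1 : w - F h p ≠ 0 := sub_ne_zero.2 hne
  rw [dslope_of_ne _ hne, slope_def_field, np_zeta, res_one hh hp hζ, N1, Pz, nt, dot_sub_left,
    dot_smul_left]
  generalize dot (np p h m w) (h w - w • deriv h w) = A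
  generalize dot (kap P h w) (h w - w • deriv h w) = B
  generalize conj (F h p) * w / (1 - conj (F h p) * w) = C
  field_simp
  ring

theorem Geo.n1_close (G : Geo D Φ) (R : Rad) : ∃ K > 0, ∀ {P : Par} {δL ε : ℝ} {p : E n}
    {h m : ℂ → E n}, Core D R P δL ε p h m → ∀ w ∈ Ann R.a1, R.a2 ≤ ‖w‖ → w ≠ F h p →
      ‖N1 P ε p h m w - Pz (F h p) w‖ ≤ K * (ε * (P.Λ + 1)) := by
  obtain ⟨Rh, hRh, hb⟩ := adm_bound G.isOpen G.zero
  have ha0 := goodof_a1 R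
  have h12 := R.h2
  have h2σ : R.a2 < R.σ1 := R.h3.trans (R.h4.trans R.h5)
  have hσ1 : R.σ2 < 1 := R.h7.trans (R.h8.trans R.h9)
  have ha1 : R.a1 < 1 := by linarith [R.h6]
  have hp1 : 0 < 1 - R.a1 := by linarith
  have hp2 : 0 < R.a2 - R.a1 := by linarith
  refine ⟨2 * Rh * (Rh + 2 * Rh / (1 - R.a1)) * (R.a1 / (R.a2 - R.a1) + 1 / (1 - R.a1)),
    by positivity, fun {P δL ε p h m} hc w hw hw2 hne => ?_⟩
  have hζ1 : ‖F h p‖ < 1 := hc.hi.trans_lt hσ1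
  have hζ0 : F h p ≠ 0 := norm_pos_iff.1 (by linarith [hc.lo])
  have hd := hc.adm.1
  have hg : DifferentiableOn ℂ (fun w => h w - w • deriv h w) (ball 0 1) :=
    hd.sub (differentiableOn_id.smul (hd.deriv isOpen_ball))
  have hA : DifferentiableOn ℂ (fun w => dot (np p h m w) (h w - w • deriv h w))
      (ball 0 1) := diffOn_dot (np_diff hc.md) hg
  have hZ : DifferentiableOn ℂ (fun w => w * dslope (fun w => dot (np p h m w)
      (h w - w • deriv h w)) (F h p) w - conj (F h p) * w / (1 - conj (F h p) * w))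
      (ball 0 1) := by
    refine (differentiableOn_id.mul ((differentiableOn_dslope
      (isOpen_ball.mem_nhds (mem_ball_zero_iff.2 hζ1))).2 hA)).sub ?_
    refine DifferentiableOn.div (by fun_prop) (by fun_prop) fun x hx => ?_
    exact goodof_den_ne hζ1 (mem_ball_zero_iff.1 hx).le
  have hr0 : 0 < P.r ^ 2 := by rw [hc.hr]; exact pow_pos R.h0 2
  have hT : DifferentiableOn ℂ (fun w => ε * dot (kap P h w) (h w - w • deriv h w) / w)
      (Ann (P.r ^ 2)) := by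
    refine DifferentiableOn.div ((diffOn_dot ((kap_diff P hd).mono fun x hx => hx.1)
      (hg.mono fun x hx => mem_ball_zero_iff.2 hx.2)).const_mul _) differentiableOn_id
      fun x hx => norm_pos_iff.1 (hr0.trans hx.1)
  have hra : P.r ^ 2 < R.a1 := by rw [hc.hr]; exact R.h1
  have hε := hc.eps
  have hΛ := P.hΛ
  have hB : ∀ ω ∈ sphere (0 : ℂ) R.a1, ‖ε * dot (kap P h ω) (h ω - ω • deriv h ω) / ω‖ ≤
      2 * Rh * (Rh + 2 * Rh / (1 - R.a1)) * (ε * (P.Λ + 1)) := by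
    intro ω hω
    have hω1 : ‖ω‖ = R.a1 := mem_sphere_zero_iff_norm.1 hω
    have k1 := kap_le P (hb h hc.adm) (w := ω) (by rw [hω1]; exact hra)
    have k2 : ‖h ω - ω • deriv h ω‖ ≤ Rh + 2 * Rh / (1 - R.a1) := by
      refine (norm_sub_le _ _).trans (add_le_add (hb h hc.adm ω
        (mem_ball_zero_iff.2 (by linarith))) ?_)
      rw [norm_smul]
      exact (mul_le_of_le_one_left (norm_nonneg _) (by linarith)).trans
        (deriv_bound ha1 hd (hb h hc.adm) hω1.le)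
    have k3 := (norm_dot_le _ _).trans (mul_le_mul k1 k2 (norm_nonneg _) (by positivity))
    rw [norm_div, norm_mul, Complex.norm_real, Real.norm_of_nonneg hε,
      div_le_iff₀ (by linarith)]
    refine (mul_le_mul_of_nonneg_left k3 hε).trans (le_of_eq ?_)
    ring
  have key := ann_schwarz ha0 ha1 (isOpen_Ann _) (fun x hx hx1 => ⟨hra.trans_le hx, hx1⟩) hZ
    (by simp) hT hB (fun μ hμ => by
      obtain ⟨r₃, hr₃, h3⟩ := hc.n1im (μ / 2) (by positivity)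
      have q1 : 0 < R.ρ1 - R.σ2 := sub_pos.2 R.h7
      have q2 : 0 < 1 - R.σ2 := sub_pos.2 hσ1
      have q3 : 0 < μ * ((R.ρ1 - R.σ2) * (1 - R.σ2)) / 4 := by positivity
      refine ⟨max (max r₃ R.ρ1) (1 - μ * ((R.ρ1 - R.σ2) * (1 - R.σ2)) / 4),
        max_lt (max_lt hr₃ (R.h8.trans R.h9)) (by linarith), fun x hx => ?_⟩
      obtain ⟨hx1, hx2⟩ := hx
      rw [max_lt_iff, max_lt_iff] at hx1
      obtain ⟨⟨x1, x2⟩, x3⟩ := hx1
      have x4 : x ≠ F h p := by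
        intro e
        rw [e] at x2
        linarith [hc.hi, R.h7]
      have x5 : x ≠ 0 := norm_pos_iff.1 (by linarith [R.h6, R.h7])
      rw [← goodof_split hc.adm hc.pD hζ0 x5 x4, sub_im]
      have y1 := h3 x ⟨x1, hx2⟩
      have y2 := goodof_im hc.hi R.h7 x2.le hx2
      have y3 : 2 * (1 - ‖x‖) / ((R.ρ1 - R.σ2) * (1 - R.σ2)) ≤ μ / 2 := by
        rw [div_le_iff₀ (by positivity)]
        linarith
      exact (abs_sub _ _).trans (by linarith)) w hw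
  rw [goodof_split hc.adm hc.pD hζ0 (norm_pos_iff.1 (ha0.trans hw.1)) hne]
  refine key.trans ?_
  have z1 : R.a1 / (‖w‖ - R.a1) ≤ R.a1 / (R.a2 - R.a1) :=
    div_le_div_of_nonneg_left ha0.le hp2 (by linarith)
  calc _ ≤ 2 * Rh * (Rh + 2 * Rh / (1 - R.a1)) * (ε * (P.Λ + 1)) *
        (R.a1 / (R.a2 - R.a1) + 1 / (1 - R.a1)) :=
        mul_le_mul_of_nonneg_left (by linarith) (by positivity)
    _ = _ := by ring

/-- two sided bounds for a factor of a product -/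
lemma goodof_fac {N w ζ d o : ℂ} {c C CO a b : ℝ} (hN : N = w / (w - ζ) * d * o) (hc : c ≤ ‖N‖)
    (hC : ‖N‖ ≤ C) (hCO : 1 ≤ CO) (ho1 : CO⁻¹ ≤ ‖o‖) (ho2 : ‖o‖ ≤ CO) (ha : 0 < a)
    (haw : a ≤ ‖w‖) (hw : ‖w‖ ≤ 1) (hb : 0 < b) (hbw : b ≤ ‖w - ζ‖) (hζ : ‖ζ‖ ≤ 1) :
    c * b / CO ≤ ‖d‖ ∧ ‖d‖ ≤ 2 * C * CO / a := by
  have h1 : 0 < ‖w - ζ‖ := hb.trans_le hbw
  have h2 : ‖N‖ * ‖w - ζ‖ = ‖w‖ * ‖d‖ * ‖o‖ := by
    rw [hN, norm_mul, norm_mul, norm_div]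
    field_simp
  have hCO0 : 0 < CO := by linarith
  have h3 : ‖w - ζ‖ ≤ 2 := (norm_sub_le _ _).trans (by linarith)
  have hd := norm_nonneg d
  constructor
  · rw [div_le_iff₀ hCO0]
    calc c * b ≤ ‖N‖ * ‖w - ζ‖ := mul_le_mul hc hbw hb.le (norm_nonneg _)
      _ = ‖w‖ * ‖d‖ * ‖o‖ := h2
      _ ≤ 1 * ‖d‖ * CO := by gcongr
      _ = _ := by ring
  · rw [le_div_iff₀ ha]
    have h4 : 1 ≤ ‖o‖ * CO := by
      have := mul_le_mul_of_nonneg_right ho1 hCO0.le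
      rwa [inv_mul_cancel₀ hCO0.ne'] at this
    calc ‖d‖ * a ≤ ‖d‖ * ‖w‖ * (‖o‖ * CO) := by
          have : ‖d‖ * a ≤ ‖d‖ * ‖w‖ := by gcongr
          exact this.trans (le_mul_of_one_le_right (by positivity) h4)
      _ = ‖N‖ * ‖w - ζ‖ * CO := by rw [h2]; ring
      _ ≤ C * 2 * CO := by
          have := (norm_nonneg _).trans hC
          gcongr
      _ = _ := by ring

/-- difference of two normalised vectors -/
lemma goodof_diff {u v x : E n} {w : ℂ} (h1 : dot (u - v) x ≠ 0) (h2 : dot u x ≠ 0) :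
    (w / dot (u - v) x) • (u - v) - (w / dot u x) • u =
      (dot (u - v) x)⁻¹ • (dot v x • ((w / dot u x) • u) - w • v) := by
  have e : w / dot (u - v) x - w / dot u x = (dot (u - v) x)⁻¹ * (dot v x * (w / dot u x)) := by
    rw [dot_sub_left] at h1 ⊢
    field_simp
    ring
  rw [smul_sub, smul_sub, smul_smul, smul_smul, smul_smul, mul_assoc, ← e, sub_smul,
    div_eq_inv_mul w (dot (u - v) x)]
  abel

theorem Geo.good_of (G : Geo D Φ) (R : Rad) {δL : ℝ} (hδ : 0 < δL) : ∃ C > 0, ∃ c > 0, ∃ e₀ > 0,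
    ∀ {P : Par} {ε : ℝ} {p : E n} {h m : ℂ → E n},
    ε * (P.Λ + 1) ≤ e₀ → Core D R P δL ε p h m → Good D R P δL C c ε p h m := by
  obtain ⟨K, hK, hcl⟩ := G.n1_close R
  obtain ⟨Rh, hRh, hb⟩ := adm_bound G.isOpen G.zero
  obtain ⟨RD, hRD, hD⟩ := G.bdd.exists_pos_norm_le
  have ha0 := goodof_a1 R
  have r2 := R.h2
  have r3 := R.h3
  have r4 := R.h4
  have r5 := R.h5
  have r6 := R.h6
  have r7 := R.h7
  have r8 := R.h8
  have r9 := R.h9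
  obtain ⟨CO, hCO, hO⟩ := G.O_bounds hδ (ρ := R.a3) (by linarith)
  have q0 : 0 < R.a2 := by linarith
  have q1 : 0 < 1 - R.σ2 := by linarith
  have q2 : 0 < R.σ1 - R.a3 := by linarith
  have q3 : 0 < R.r - R.σ2 := by linarith
  have q4 : 0 < CO := by linarith
  obtain ⟨c, hc0, hc⟩ : ∃ c : ℝ, 0 < c ∧ c = R.a2 * (1 - R.σ2) / 8 := ⟨_, by positivity, rfl⟩
  have hc1 : c ≤ (1 - R.σ2) / 8 := by
    rw [hc]
    exact div_le_div_of_nonneg_right (mul_le_of_le_one_left q1.le (by linarith)) (by norm_num)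
  obtain ⟨C1, hC1, hC1e⟩ : ∃ C1 : ℝ, 0 < C1 ∧ C1 = 1 / (R.σ1 - R.a3) + 1 / (1 - R.σ2) + c :=
    ⟨_, by positivity, rfl⟩
  obtain ⟨K1, hK1, hK1e⟩ : ∃ K1 : ℝ, 0 < K1 ∧ K1 = 4 * Rh / R.a2 := ⟨_, by positivity, rfl⟩
  obtain ⟨dl, hdl, hdle⟩ : ∃ dl : ℝ, 0 < dl ∧ dl = c * (R.σ1 - R.a3) / CO :=
    ⟨_, by positivity, rfl⟩
  have t1 : 0 < 1 / (R.r - R.σ2) + 1 / (1 - R.σ2) + c := by positivity
  have t2 : 0 < 2 * C1 * CO / R.a2 + K1 * (c / K) * Rh := by positivity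
  have t3 : 0 < dl⁻¹ * (K1 * Rh * RD + K1) := by positivity
  refine ⟨(1 / (R.r - R.σ2) + 1 / (1 - R.σ2) + c) + (2 * C1 * CO / R.a2 + K1 * (c / K) * Rh) +
    dl⁻¹ * (K1 * Rh * RD + K1), by positivity, c, hc0, c / K, by positivity,
    fun {P ε p h m} he H => ?_⟩
  have hε := H.eps
  have hΛ := P.hΛ
  have he0 : 0 ≤ ε * (P.Λ + 1) := by positivity
  have hKe : K * (ε * (P.Λ + 1)) ≤ c := by
    rw [le_div_iff₀ hK] at he
    linarith
  have hlo := H.lo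
  have hhi := H.hi
  refine ⟨H.hr, H.eps, H.adm, H.pD, H.lo, H.hi, H.md, H.ne, H.inn,
    fun w hw2 hw3 => ?_, fun w hw => ?_, H.n1im⟩
  · have hdep := H.inn2 w hw2 hw3
    have hne := (H.ne w ⟨by linarith, by linarith⟩).1
    obtain ⟨hne', hdep'⟩ := H.inn w (mem_ball_zero_iff.2 (by linarith))
    have hw1 : ‖w‖ < 1 := by linarith
    have hwb : w ∈ ball (0 : ℂ) 1 := mem_ball_zero_iff.2 hw1
    have hw0 : 0 < ‖w‖ := by linarith
    have hbw : R.σ1 - R.a3 ≤ ‖w - F h p‖ := by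
      have := norm_sub_norm_le (F h p) w
      rw [norm_sub_rev] at this
      linarith
    have hwζ : w ≠ F h p := sub_ne_zero.1 (norm_pos_iff.1 (q2.trans_le hbw))
    have k1 := (hcl H w ⟨by linarith, hw1⟩ hw2 hwζ).trans hKe
    have k2 := goodof_lo hhi (by linarith) hw1.le hw2 hwζ
    have k3 := goodof_up hhi (by linarith) hw1.le q2 hbw
    have k4 : c ≤ ‖N1 P ε p h m w‖ := by
      have := norm_sub_norm_le (Pz (F h p) w) (N1 P ε p h m w)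
      rw [norm_sub_rev] at this
      linarith
    have k5 : ‖N1 P ε p h m w‖ ≤ C1 := by
      have := norm_sub_norm_le (N1 P ε p h m w) (Pz (F h p) w)
      linarith
    have hfD : ff P ε p h m w ∈ D := (dep_pos_iff G.isOpen G.ne_univ).1 (hδ.trans_le hdep)
    have hfD' : fp p h m w ∈ D := (dep_pos_iff G.isOpen G.ne_univ).1 (hδ.trans_le hdep')
    have k6 := hO h H.adm _ hdep w hw3
    rw [F_ff H.adm hwb hne hfD] at k6
    obtain ⟨k7, k8⟩ := goodof_fac (N1_eq hne) k4 k5 hCO k6.1 k6.2 q0 hw2 hw1.le q2 hbw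
      (by linarith)
    rw [← hdle] at k7
    have hra : P.r ^ 2 < ‖w‖ := by rw [H.hr]; linarith [R.h1]
    have k9 : ‖(ε * (w - F h p) / w ^ 2) • kap P h w‖ ≤ K1 * (ε * (P.Λ + 1)) := by
      have b1 : ‖w - F h p‖ ≤ 2 := (norm_sub_le _ _).trans (by linarith)
      have b2 := kap_le P (hb h H.adm) hra
      rw [norm_smul, norm_div, norm_mul, norm_pow, Complex.norm_real, Real.norm_of_nonneg hε]
      calc ε * ‖w - F h p‖ / ‖w‖ ^ 2 * ‖kap P h w‖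
          ≤ ε * 2 / ‖w‖ ^ 2 * (2 * ‖w‖ * (P.Λ + 1) * Rh) := by gcongr
        _ = 4 * Rh / ‖w‖ * (ε * (P.Λ + 1)) := by field_simp; ring
        _ ≤ _ := by rw [hK1e]; gcongr
    have k10 : ‖dot ((ε * (w - F h p) / w ^ 2) • kap P h w) (h w)‖ ≤
        K1 * (ε * (P.Λ + 1)) * Rh :=
      (norm_dot_le _ _).trans (mul_le_mul k9 (hb h H.adm w hwb) (norm_nonneg _) (by positivity))
    refine ⟨hdep, ?_, ?_⟩
    · have e := goodof_diff (w := w) hne hne'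
      have k11 : ‖ff P ε p h m w - fp p h m w‖ ≤
          dl⁻¹ * (K1 * (ε * (P.Λ + 1)) * Rh * RD + K1 * (ε * (P.Λ + 1))) := by
        refine (congrArg norm e).trans_le ?_
        rw [norm_smul, norm_inv]
        refine mul_le_mul (inv_anti₀ hdl k7) ((norm_sub_le _ _).trans (add_le_add ?_ ?_))
          (norm_nonneg _) (by positivity)
        · rw [norm_smul]
          exact mul_le_mul k10 (hD _ hfD') (norm_nonneg _) (by positivity)
        · rw [norm_smul]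
          exact (mul_le_of_le_one_left (norm_nonneg _) hw1.le).trans k9
      refine k11.trans ?_
      calc _ = dl⁻¹ * (K1 * Rh * RD + K1) * (ε * (P.Λ + 1)) := by ring
        _ ≤ _ := mul_le_mul_of_nonneg_right (by linarith) he0
    · have e : dot (np p h m w) (h w) = dot (nt P ε p h m w) (h w) +
          dot ((ε * (w - F h p) / w ^ 2) • kap P h w) (h w) := by
        rw [nt, dot_sub_left, sub_add_cancel]
      rw [e]
      refine (norm_add_le _ _).trans ?_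
      have : K1 * (ε * (P.Λ + 1)) * Rh ≤ K1 * (c / K) * Rh := by gcongr
      linarith
  · obtain ⟨hw1, hw2⟩ := hw
    have hbw : R.r - R.σ2 ≤ ‖w - F h p‖ := by
      have := norm_sub_norm_le w (F h p)
      linarith
    have hwζ : w ≠ F h p := sub_ne_zero.1 (norm_pos_iff.1 (q3.trans_le hbw))
    have k1 := (hcl H w ⟨by linarith, hw2⟩ (by linarith) hwζ).trans hKe
    have k2 := goodof_re hhi (by linarith) (by linarith) hw2
    have k3 := goodof_up hhi (by linarith) hw2.le q3 hbw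
    constructor
    · have := (abs_le.1 ((abs_re_le_norm _).trans k1)).1
      rw [sub_re] at this
      linarith
    · have := norm_sub_norm_le (N1 P ε p h m w) (Pz (F h p) w)
      linarith

end Pool.Agent.MP_4baaa2_an.H94

/-!
The value function is of class C11 in a shell.
-/

namespace Pool.Agent.MP_4baaa2_an.H94

open Set Metric Filter Topology Complex
open scoped ComplexConjugate
open Pool.Agent.Lib.PlaneTop

variable {n : ℕ}

variable {D : Set (E n)} {Φ : E n → E n → ℂ}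

theorem level1_log {a b : ℂ} (hb : b ≠ 0) (h : ‖(a - b) / b‖ ≤ 1 / 2) :
    |Real.log ‖a‖ - Real.log ‖b‖ - ((a - b) / b).re| ≤ ‖(a - b) / b‖ ^ 2 := by
  set y := (a - b) / b with hy
  have h1 : a = (1 + y) * b := by rw [hy]; field_simp; ring
  have h2 : 1 + y ≠ 0 := fun h0 => by
    rw [eq_neg_of_add_eq_zero_right h0] at h
    norm_num at h
  have h3 : Real.log ‖a‖ - Real.log ‖b‖ - y.re = (log (1 + y) - y).re := by
    rw [h1, norm_mul, Real.log_mul (norm_ne_zero_iff.2 h2) (norm_ne_zero_iff.2 hb), sub_re, log_re]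
    ring
  rw [h3]
  refine (abs_re_le_norm _).trans ((norm_log_one_add_sub_self_le (by linarith)).trans ?_)
  have h4 : (1 - ‖y‖)⁻¹ ≤ 2 := by
    rw [inv_le_comm₀ (by linarith) (by norm_num)]
    linarith
  nlinarith [sq_nonneg ‖y‖]

theorem level1_taylor (hD : IsOpen D) {h : ℂ → E n} (hh : Adm D h) {p z : E n} {δ₀ σ1 : ℝ}
    (hδ : 0 < δ₀) (h1 : 0 < σ1) (hb : ball p δ₀ ⊆ D) (hσ : σ1 ≤ ‖F h p‖) (hz : z ∈ ball p δ₀)
    (hz' : ‖z - p‖ ≤ σ1 * δ₀ / 4) : σ1 / 2 ≤ ‖F h z‖ ∧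
      |Real.log ‖F h z‖ - Real.log ‖F h p‖ - (dot (cc h p • h (F h p)) (z - p)).re| ≤
        (4 / (δ₀ ^ 2 * σ1 ^ 2) + 4 / (δ₀ ^ 2 * σ1)) * ‖z - p‖ ^ 2 := by
  have hp : p ∈ D := hb (mem_ball_self hδ)
  have hl := hh.F_lip hD hb hz
  have hl' : ‖F h z - F h p‖ ≤ σ1 / 2 := by
    refine hl.trans ?_
    rw [div_mul_eq_mul_div, div_le_iff₀ hδ]
    linarith
  have hζ : 0 < ‖F h p‖ := h1.trans_le hσ
  have hζ0 : F h p ≠ 0 := norm_pos_iff.1 hζ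
  refine ⟨by linarith [norm_sub_norm_le (F h p) (F h z), norm_sub_rev (F h p) (F h z)], ?_⟩
  have hy : ‖(F h z - F h p) / F h p‖ ≤ 2 / δ₀ * ‖z - p‖ / σ1 := by
    rw [norm_div]
    exact div_le_div₀ (by positivity) hl h1 hσ
  have hy' : ‖(F h z - F h p) / F h p‖ ≤ 1 / 2 := by
    rw [norm_div, div_le_iff₀ hζ]
    linarith
  have h2 := level1_log hζ0 hy'
  obtain ⟨e, he, hv⟩ := cls1_dir (z - p)
  obtain ⟨h3, h4⟩ := cls1_line (hh.F_diff hD) hb he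
  have h5 := schwarz_taylor h4 (fun t ht => (cls2_F_lt hh (h3 t ht)).le) ((‖z - p‖ : ℝ) : ℂ)
    (by simpa [dist_eq_norm] using hz)
  have h6 : HasDerivAt (fun t : ℂ => F h (p + t • e))
      (((O h p (F h p) (F h p))⁻¹ • dotL (h (F h p))) e) 0 := by
    have h7 : HasDerivAt (fun t : ℂ => p + t • e) e 0 := by
      simpa using ((hasDerivAt_id (0 : ℂ)).smul_const e).const_add p
    exact (hh.F_hasFDerivAt hD hp).comp_hasDerivAt_of_eq 0 h7 (by simp)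
  rw [h6.deriv, ← hv, ← map_smul, ← hv] at h5
  simp only [add_sub_cancel, zero_smul, add_zero, norm_real, Real.norm_eq_abs, abs_norm,
    mul_one] at h5
  have h8 : (F h z - F h p) / F h p - dot (cc h p • h (F h p)) (z - p) =
      (F h z - F h p - ((O h p (F h p) (F h p))⁻¹ • dotL (h (F h p))) (z - p)) / F h p := by
    simp only [cc, dot_smul_left, smul_apply, dotL_apply, smul_eq_mul]
    field_simp
  have h9 : |((F h z - F h p) / F h p).re - (dot (cc h p • h (F h p)) (z - p)).re| ≤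
      4 / δ₀ ^ 2 * ‖z - p‖ ^ 2 / σ1 := by
    rw [← sub_re, h8]
    refine (abs_re_le_norm _).trans ?_
    rw [norm_div]
    exact div_le_div₀ (by positivity) h5 h1 hσ
  have h10 := pow_le_pow_left₀ (norm_nonneg _) hy 2
  have h11 : (4 / (δ₀ ^ 2 * σ1 ^ 2) + 4 / (δ₀ ^ 2 * σ1)) * ‖z - p‖ ^ 2 =
      (2 / δ₀ * ‖z - p‖ / σ1) ^ 2 + 4 / δ₀ ^ 2 * ‖z - p‖ ^ 2 / σ1 := by
    field_simp
    ring
  rw [h11]
  rw [abs_le] at h2 h9 ⊢
  constructor <;> linarith [h2.1, h2.2, h9.1, h9.2]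

theorem level1_rot {h : ℂ → E n} (hh : Adm D h) {p : E n} (hp : p ∈ D) {ζ : ℂ} (hζ : ζ ≠ 0)
    (h0 : F h p ≠ 0) : ∃ h₂, Adm D h₂ ∧ F h₂ p = ((‖F h p‖ / ‖ζ‖ : ℝ) : ℂ) * ζ ∧
      (∀ z ∈ D, ‖F h₂ z‖ = ‖F h z‖) ∧ ∀ P, Q P h₂ = Q P h := by
  have h1 : (‖ζ‖ : ℂ) ≠ 0 := by exact_mod_cast norm_ne_zero_iff.2 hζ
  have h2 : ‖ζ / ‖ζ‖ * (‖F h p‖ / F h p)‖ = 1 := by
    simp [norm_ne_zero_iff.2 hζ, norm_ne_zero_iff.2 h0]
  obtain ⟨h3, h4, h5⟩ := hh.rot h2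
  refine ⟨_, h3, ?_, fun z hz => by rw [h4 z hz, norm_mul, h2, one_mul], h5⟩
  rw [h4 p hp]
  push_cast
  field_simp

theorem level1_cmp {a b a' ζ : ℂ} {x A d L σ c : ℝ} (hσ : 0 < σ) (hc : 0 < c) (hA : 0 ≤ A)
    (hd : 0 ≤ d) (hL : 0 ≤ L) (hx : c ≤ x) (hζ : σ ≤ ‖ζ‖) (hb : σ / 2 ≤ ‖b‖) (ha : a ≠ 0)
    (ha' : a' = x * ζ) (h1 : ‖a' - ζ‖ ≤ A) (h2 : ‖(a - b) - (a' - ζ)‖ ≤ A * d)
    (h3 : ‖b - ζ‖ ≤ L * d) :
    Real.log ‖a‖ ≤ Real.log x + Real.log ‖b‖ + (1 + L / σ) / (c * (σ / 2)) * A * d := by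
  have hx0 : 0 < x := hc.trans_le hx
  have hb0 : 0 < ‖b‖ := lt_of_lt_of_le (by positivity) hb
  have h4 : ‖(x : ℂ) - 1‖ ≤ A / σ := by
    rw [ha', ← sub_one_mul, norm_mul] at h1
    rw [le_div_iff₀ hσ]
    exact (mul_le_mul_of_nonneg_left hζ (norm_nonneg _)).trans h1
  have h5 : ‖a‖ ≤ x * ‖b‖ + (1 + L / σ) * A * d := by
    have e : a = x * b + (((a - b) - (a' - ζ)) - (x - 1) * (b - ζ)) := by rw [ha']; ring
    have h6 : ‖((x : ℂ) - 1) * (b - ζ)‖ ≤ A / σ * (L * d) := by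
      rw [norm_mul]
      exact mul_le_mul h4 h3 (norm_nonneg _) (by positivity)
    have h7 := norm_sub_le ((a - b) - (a' - ζ)) ((x - 1) * (b - ζ))
    have h8 := norm_add_le ((x : ℂ) * b) (((a - b) - (a' - ζ)) - (x - 1) * (b - ζ))
    rw [← e, norm_mul, norm_real, Real.norm_of_nonneg hx0.le] at h8
    have h9 : (1 + L / σ) * A * d = A * d + A / σ * (L * d) := by ring
    linarith
  have h6 := Real.log_le_sub_one_of_pos (div_pos (norm_pos_iff.2 ha) (mul_pos hx0 hb0))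
  rw [Real.log_div (norm_ne_zero_iff.2 ha) (mul_pos hx0 hb0).ne', Real.log_mul hx0.ne' hb0.ne']
    at h6
  have h7 : ‖a‖ / (x * ‖b‖) - 1 ≤ (1 + L / σ) * A * d / (c * (σ / 2)) := by
    rw [div_sub_one (mul_pos hx0 hb0).ne']
    exact div_le_div₀ (by positivity) (by linarith) (by positivity)
      (mul_le_mul hx hb (by positivity) hx0.le)
  have h8 : (1 + L / σ) / (c * (σ / 2)) * A * d = (1 + L / σ) * A * d / (c * (σ / 2)) := by ring
  linarith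

theorem level1_logV (P : Par) (ε : ℝ) {p : E n} {h : ℂ → E n} (h0 : F h p ≠ 0) :
    Real.log (V P ε p h) = Real.log ‖F h p‖ - ε * Q P h := by
  rw [V, Real.log_mul (norm_ne_zero_iff.2 h0) (Real.exp_pos _).ne', Real.log_exp]
  ring

theorem Geo.c11 (G : Geo D Φ) {P : Par} {ε C₂ σ1 σ2 ρ1 δ₀ : ℝ} (hε : 0 < ε) (hC₂ : 0 < C₂)
    (h1 : 0 < σ1) (h2 : σ2 < ρ1) (h3 : ρ1 < 1) (hδ : 0 < δ₀)
    (hQ : ∀ Δ : ℂ → E n, DifferentiableOn ℂ Δ (ball 0 1) → ∀ w : ℂ, ‖w‖ ≤ ρ1 →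
      ‖Δ w‖ ^ 2 ≤ C₂ * Q P Δ) :
    ∃ C > 0, ∃ c > 0, ∃ δ > 0, ∀ p h, δ₀ ≤ dep D p → IsMax D P ε p h → σ1 ≤ ‖F h p‖ →
      ‖F h p‖ ≤ σ2 → Growth D P ε p h → ∃ g : E n, c ≤ ‖g‖ ∧ ∀ z ∈ ball p δ, z ∈ D ∧
        0 < U D P ε z ∧
        |Real.log (U D P ε z) - Real.log (U D P ε p) - (dot g (z - p)).re| ≤ C * ‖z - p‖ ^ 2 := by
  obtain ⟨B, hB, hQB, -⟩ := G.U_compare P
  obtain ⟨K, hK, δ', hδ', hcmp⟩ := G.cmp hδ h2 h3
  obtain ⟨CO, hCO, hO⟩ := G.O_bounds hδ (h2.trans h3)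
  obtain ⟨R, hR, hRD⟩ := G.bdd.exists_pos_norm_le
  set c1 := σ1 / 2 * Real.exp (-(ε * B)) with hc1
  have hc1p : 0 < c1 := by positivity
  set K2 := (1 + 2 / δ₀ / σ1) / (c1 / 2 * (σ1 / 2)) * K with hK2
  have hK2p : 0 < K2 := by positivity
  refine ⟨4 / (δ₀ ^ 2 * σ1 ^ 2) + 4 / (δ₀ ^ 2 * σ1) + K2 ^ 2 * C₂ / (2 * ε), by positivity,
    CO⁻¹ / R, by positivity, min (min δ₀ δ') (min (σ1 * δ₀ / 4) (c1 * δ₀ / 4)), by positivity,
    fun p h hp hmax hlo hhi hgr => ?_⟩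
  have hh := hmax.1
  have hb : ball p δ₀ ⊆ D := (ball_subset_ball hp).trans (ball_dep_subset p)
  have hpD : p ∈ D := hb (mem_ball_self hδ)
  have hζ : 0 < ‖F h p‖ := h1.trans_le hlo
  have hζ0 : F h p ≠ 0 := norm_pos_iff.1 hζ
  refine ⟨cc h p • h (F h p), ?_, fun z hz => ?_⟩
  · have h4 := norm_dot_le p (cc h p • h (F h p))
    have h5 : dot p (cc h p • h (F h p)) = (O h p (F h p) (F h p))⁻¹ := by
      rw [dot_smul_right, (hh.F_spec hpD).2.1, cc]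
      field_simp
    obtain ⟨h6, h7⟩ := hO h hh p hp (F h p) hhi
    rw [h5, norm_inv] at h4
    rw [div_le_iff₀' hR]
    exact (inv_anti₀ (lt_of_lt_of_le (by positivity) h6) h7).trans
      (h4.trans (mul_le_mul_of_nonneg_right (hRD p hpD) (norm_nonneg _)))
  simp only [mem_ball, lt_min_iff] at hz
  obtain ⟨⟨z1, z2⟩, z3, z4⟩ := hz
  rw [dist_eq_norm] at z3 z4
  have hzD : z ∈ D := hb z1
  obtain ⟨t1, t2⟩ := level1_taylor G.isOpen hh hδ h1 hb hlo z1 z3.le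
  have hz0 : F h z ≠ 0 := norm_pos_iff.1 (lt_of_lt_of_le (by positivity) t1)
  obtain ⟨k, hk⟩ := G.max_exists P hε.le hzD
  have hV := hk.2 h hh
  have hVc : c1 ≤ V P ε z h := mul_le_mul t1
    (Real.exp_le_exp.2 (neg_le_neg (mul_le_mul_of_nonneg_left (hQB h hh) hε.le)))
    (Real.exp_pos _).le (norm_nonneg _)
  have hk1 : c1 ≤ ‖F k z‖ := hVc.trans (hV.trans (cls2_V_le P hε.le z k))
  have hk2 : c1 / 2 ≤ ‖F k p‖ := by
    have h4 : ‖F k z - F k p‖ ≤ c1 / 2 := by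
      refine (hk.1.F_lip G.isOpen hb z1).trans ?_
      rw [div_mul_eq_mul_div, div_le_iff₀ hδ]
      linarith
    linarith [norm_sub_norm_le (F k z) (F k p)]
  have hk0 : F k z ≠ 0 := norm_pos_iff.1 (hc1p.trans_le hk1)
  obtain ⟨h₂, a1, a2, a3, a4⟩ := level1_rot hk.1 hpD hζ0
    (norm_pos_iff.1 (lt_of_lt_of_le (by positivity) hk2))
  have hx : c1 / 2 ≤ ‖F k p‖ / ‖F h p‖ :=
    hk2.trans (le_div_self (norm_nonneg _) hζ (cls2_F_lt hh hpD).le)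
  have g1 := hgr h₂ a1 _ (lt_of_lt_of_le (by positivity) hx) a2
  have hq := Q_nonneg P (h₂ - h)
  set a := √(C₂ * Q P (h₂ - h)) with ha
  have ha0 : 0 ≤ a := Real.sqrt_nonneg _
  have ha2 : a ^ 2 = C₂ * Q P (h₂ - h) := Real.sq_sqrt (by positivity)
  have g2 := hcmp h h₂ hh a1 a
    (fun ω hω => Real.le_sqrt_of_sq_le (hQ _ (a1.1.sub hh.1) ω hω)) p hp hhi
  have g3 := level1_cmp (L := 2 / δ₀) h1 (half_pos hc1p) (mul_nonneg hK.le ha0) (norm_nonneg _)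
    (by positivity) hx hlo t1 (norm_pos_iff.1 (by rw [a3 z hzD]; exact hc1p.trans_le hk1)) a2
    (g2 p (mem_ball_self hδ')).2.1 (g2 z z2).2.2.1 (hh.F_lip G.isOpen hb z1)
  rw [a3 z hzD, ← mul_assoc, ← hK2] at g3
  rw [a4] at g1
  have g4 := Real.log_le_log (hc1p.trans_le hVc) hV
  refine ⟨hzD, by rw [hk.U_eq]; exact hc1p.trans_le (hVc.trans hV), ?_⟩
  rw [hk.U_eq, hmax.U_eq, level1_logV P ε hζ0]
  rw [level1_logV P ε hz0] at g4
  rw [level1_logV P ε hk0] at g4 ⊢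
  have g5 : K2 * a * ‖z - p‖ - ε / 2 * Q P (h₂ - h) ≤ K2 ^ 2 * C₂ / (2 * ε) * ‖z - p‖ ^ 2 := by
    have e1 : Q P (h₂ - h) = a ^ 2 / C₂ := by rw [ha2]; field_simp
    have e2 : K2 ^ 2 * C₂ / (2 * ε) * ‖z - p‖ ^ 2 - (K2 * a * ‖z - p‖ - ε / 2 * (a ^ 2 / C₂)) =
        (K2 * C₂ * ‖z - p‖ - ε * a) ^ 2 / (2 * ε * C₂) := by
      field_simp
      ring
    rw [e1, ← sub_nonneg, e2]
    positivity
  have g6 : 0 ≤ K2 ^ 2 * C₂ / (2 * ε) * ‖z - p‖ ^ 2 := by positivity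
  rw [abs_le] at t2 ⊢
  rw [add_mul _ (K2 ^ 2 * C₂ / (2 * ε))]
  constructor <;> linarith [t2.1, t2.2]

end Pool.Agent.MP_4baaa2_an.H94

end

-- part MP_4baaa2_an.H94.Smooth
section

/-!
Nearest hyperplanes of a domain with interior and exterior balls.
-/

namespace Pool.Agent.MP_4baaa2_an.H94

open Set Metric Filter Topology Complex
open scoped ComplexConjugate
open Pool.Agent.Lib.PlaneTop

variable {n : ℕ}

variable {G : Set (E n)}

/-- the normalised covector of the hyperplane `ξ` seen from `z` -/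
noncomputable def et (ξ z : E n) : E n := (1 - dot z ξ)⁻¹ • ξ

/-- the point of the hyperplane `ξ` nearest to `z` -/
noncomputable def smooth1_ft (ξ z : E n) : E n :=
  z + ((1 - dot z ξ) / ((‖ξ‖ ^ 2 : ℝ) : ℂ)) • cj ξ

theorem smooth1_dot {ξ : E n} (hξ : ξ ≠ 0) (z : E n) : dot (smooth1_ft ξ z) ξ = 1 := by
  have h : ((‖ξ‖ ^ 2 : ℝ) : ℂ) ≠ 0 := by exact_mod_cast pow_ne_zero 2 (norm_ne_zero_iff.2 hξ)
  rw [smooth1_ft, dot_add_left, dot_smul_left, dot_comm (cj ξ), dot_cj_self, div_mul_cancel₀ _ h]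
  ring

theorem smooth1_norm {ξ : E n} (hξ : ξ ≠ 0) (z : E n) :
    ‖smooth1_ft ξ z - z‖ * ‖ξ‖ = ‖1 - dot z ξ‖ := by
  have h : ‖ξ‖ ≠ 0 := norm_ne_zero_iff.2 hξ
  rw [smooth1_ft, add_sub_cancel_left, norm_smul, norm_cj, norm_div, Complex.norm_real,
    Real.norm_of_nonneg (sq_nonneg _)]
  field_simp

theorem smooth1_ray {u ν : E n} {a b : ℝ} (hν : ‖ν‖ = 1) (hb : 0 < b) (hu : ‖u‖ = a)
    (h : a + b ≤ ‖u + b • ν‖) : u = a • ν := by
  have h1 : ‖b • ν‖ = b := by rw [norm_smul, hν, mul_one, Real.norm_of_nonneg hb.le]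
  have h2 : SameRay ℝ u (b • ν) := sameRay_iff_norm_add.2
    (le_antisymm (norm_add_le _ _) (by rw [h1, hu]; exact h))
  have h3 := h2.norm_smul_eq
  rw [h1, hu, smul_comm] at h3
  exact (smul_right_injective _ hb.ne' h3).symm

theorem dep_mul_le {z ξ : E n} (hξ : ξ ∈ Kd G) : dep G z * ‖ξ‖ ≤ ‖1 - dot z ξ‖ := by
  rcases eq_or_ne ξ 0 with rfl | h0
  · simp
  rw [← smooth1_norm h0 z]
  refine mul_le_mul_of_nonneg_right ?_ (norm_nonneg _)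
  rw [← dist_eq_norm, dist_comm]
  exact infDist_le_dist_of_mem fun h => hξ _ h (smooth1_dot h0 z)

theorem Nice.exists_nearest (hG : Nice G) {z : E n} (hz : z ∈ G) :
    ∃ ξ ∈ Kd G, ξ ≠ 0 ∧ ‖1 - dot z ξ‖ = dep G z * ‖ξ‖ := by
  obtain ⟨q, hq, hd⟩ := exists_frontier_near hG.isOpen hG.ne_univ hz
  obtain ⟨ξ, hξ, h1⟩ := hG.lc q (fun h => (hG.isOpen.frontier_eq ▸ hq).2 h)
  refine ⟨ξ, hξ, fun h => by simp [h] at h1, le_antisymm ?_ (dep_mul_le hξ)⟩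
  rw [← h1, ← dot_sub_left, ← hd]
  exact norm_dot_le _ _

theorem Nice.unique_nearest (hG : Nice G) : ∃ τ > 0, ∀ z ∈ G, dep G z ≤ τ →
    ∀ ξ ∈ Kd G, ∀ ξ' ∈ Kd G, ‖1 - dot z ξ‖ = dep G z * ‖ξ‖ → ‖1 - dot z ξ'‖ = dep G z * ‖ξ'‖ →
      ξ = ξ' := by
  obtain ⟨R, hR, htwo⟩ := hG.two
  refine ⟨R / 2, half_pos hR, fun z hz hd ξ hξ ξ' hξ' e e' => ?_⟩
  have hd0 : 0 < dep G z := (dep_pos_iff hG.isOpen hG.ne_univ).2 hz
  have h0 : ξ ≠ 0 := fun h => by simp [h] at e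
  have h0' : ξ' ≠ 0 := fun h => by simp [h] at e'
  have n1 : ‖smooth1_ft ξ z - z‖ = dep G z :=
    mul_right_cancel₀ (norm_ne_zero_iff.2 h0) ((smooth1_norm h0 z).trans e)
  have n2 : ‖smooth1_ft ξ' z - z‖ = dep G z :=
    mul_right_cancel₀ (norm_ne_zero_iff.2 h0') ((smooth1_norm h0' z).trans e')
  have m1 : smooth1_ft ξ z ∉ G := fun h => hξ _ h (smooth1_dot h0 z)
  have m2 : smooth1_ft ξ' z ∉ G := fun h => hξ' _ h (smooth1_dot h0' z)
  have hq : smooth1_ft ξ z ∈ frontier G := by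
    rw [hG.isOpen.frontier_eq]
    refine ⟨closure_mono (ball_dep_subset z) ?_, m1⟩
    rw [closure_ball z hd0.ne', mem_closedBall, dist_eq_norm, n1]
  obtain ⟨ν, hν, hin, hout⟩ := htwo _ hq
  have a1 := (disjoint_ball_ball_iff hR hd0).1 (hout.mono_right (ball_dep_subset z))
  have a2 : smooth1_ft ξ z - z = dep G z • ν := by
    refine smooth1_ray hν hR n1 ?_
    rw [dist_eq_norm, add_sub_right_comm, add_comm R] at a1
    exact a1
  have a3 : smooth1_ft ξ' z - z = dep G z • ν := by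
    refine smooth1_ray hν (b := R - dep G z) (by linarith) n2 ?_
    have b1 : R ≤ ‖smooth1_ft ξ' z - (smooth1_ft ξ z - R • ν)‖ := by
      rw [← dist_eq_norm]
      exact not_lt.1 fun h => m2 (hin h)
    have b2 : smooth1_ft ξ' z - (smooth1_ft ξ z - R • ν) =
        smooth1_ft ξ' z - z + (R - dep G z) • ν := by
      rw [sub_smul, ← a2]; abel
    rw [← b2]; linarith
  have a4 : smooth1_ft ξ z = smooth1_ft ξ' z := sub_left_injective (a2.trans a3.symm)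
  have a5 := smooth1_dot h0 z
  have a6 := smooth1_dot h0' z
  rw [← a4] at a6
  have hc : (1 - dot z ξ) / ((‖ξ‖ ^ 2 : ℝ) : ℂ) ≠ 0 := by
    refine div_ne_zero (sub_ne_zero.2 (hξ z hz).symm) ?_
    exact_mod_cast pow_ne_zero 2 (norm_ne_zero_iff.2 h0)
  have a7 := congrArg cj (add_left_cancel a4)
  rw [cj_smul, cj_smul, cj_cj, cj_cj] at a7
  have hc' := (map_ne_zero (starRingEnd ℂ)).2 hc
  have a8 := congrArg (dot (smooth1_ft ξ z)) a7
  rw [dot_smul_right, dot_smul_right, a5, a6, mul_one, mul_one] at a8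
  rw [← a8] at a7
  exact smul_right_injective _ hc' a7

theorem Nice.stable (hG : Nice G) : ∃ τ₂ > 0, ∀ τ₁ > 0, ∀ θ > 0, ∃ κ > 0, ∀ z : E n,
    τ₁ ≤ dep G z → dep G z ≤ τ₂ → ∀ ξ ∈ Kd G, ∀ ξ' ∈ Kd G,
      (1 - κ) * ‖1 - dot z ξ‖ ^ 2 ≤ dep G z ^ 2 * ‖ξ‖ ^ 2 →
      (1 - κ) * ‖1 - dot z ξ'‖ ^ 2 ≤ dep G z ^ 2 * ‖ξ'‖ ^ 2 → ‖et ξ z - et ξ' z‖ ≤ θ := by
  obtain ⟨τ₂, hτ₂, hu⟩ := hG.unique_nearest
  refine ⟨τ₂, hτ₂, fun τ₁ hτ₁ θ hθ => ?_⟩
  obtain ⟨hK, hKG⟩ := isCompact_deep hG.bdd hG.ne_univ hτ₁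
  have hK' : IsCompact ({z | τ₁ ≤ dep G z} ∩ {z | dep G z ≤ τ₂}) :=
    hK.inter_right (isClosed_le (continuous_dep G) continuous_const)
  have hKd := isCompact_Kd hG.isOpen hG.zero
  have hdc := continuous_dep G
  obtain ⟨κ, hκ, hmin⟩ := (hK'.prod (hKd.prod hKd)).exists_forall_le'
    (f := fun x : E n × E n × E n => max
      (max (1 - dep G x.1 ^ 2 * ‖x.2.1‖ ^ 2 / ‖1 - dot x.1 x.2.1‖ ^ 2)
        (1 - dep G x.1 ^ 2 * ‖x.2.2‖ ^ 2 / ‖1 - dot x.1 x.2.2‖ ^ 2))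
      (θ - ‖et x.2.1 x.1 - et x.2.2 x.1‖)) (a := 0)
    (by
      have c1 : ∀ x ∈ ({z | τ₁ ≤ dep G z} ∩ {z | dep G z ≤ τ₂}) ×ˢ Kd G ×ˢ Kd G,
          1 - dot x.1 x.2.1 ≠ 0 := fun x hx => sub_ne_zero.2 (hx.2.1 _ (hKG hx.1.1)).symm
      have c2 : ∀ x ∈ ({z | τ₁ ≤ dep G z} ∩ {z | dep G z ≤ τ₂}) ×ˢ Kd G ×ˢ Kd G,
          1 - dot x.1 x.2.2 ≠ 0 := fun x hx => sub_ne_zero.2 (hx.2.2 _ (hKG hx.1.1)).symm
      unfold et
      refine ContinuousOn.sup (ContinuousOn.sup (continuousOn_const.sub (ContinuousOn.div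
        (by fun_prop) (by fun_prop) fun x hx => pow_ne_zero 2 (norm_ne_zero_iff.2 (c1 x hx))))
        (continuousOn_const.sub (ContinuousOn.div (by fun_prop) (by fun_prop)
          fun x hx => pow_ne_zero 2 (norm_ne_zero_iff.2 (c2 x hx)))))
        (continuousOn_const.sub (ContinuousOn.norm (ContinuousOn.sub
          ((ContinuousOn.inv₀ (by fun_prop) c1).smul (by fun_prop))
          ((ContinuousOn.inv₀ (by fun_prop) c2).smul (by fun_prop))))))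
    (by
      rintro ⟨z, ξ, ξ'⟩ ⟨hz, hξ, hξ'⟩
      by_contra h
      simp only [not_lt, max_le_iff] at h
      have key : ∀ η ∈ Kd G, 1 - dep G z ^ 2 * ‖η‖ ^ 2 / ‖1 - dot z η‖ ^ 2 ≤ 0 →
          ‖1 - dot z η‖ = dep G z * ‖η‖ := fun η hη hle => by
        have c1 : 0 < ‖1 - dot z η‖ := norm_pos_iff.2 (sub_ne_zero.2 (hη _ (hKG hz.1)).symm)
        refine le_antisymm ?_ (dep_mul_le hη)
        rw [sub_nonpos, one_le_div (by positivity), ← mul_pow] at hle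
        exact (sq_le_sq₀ c1.le (mul_nonneg (hτ₁.le.trans hz.1) (norm_nonneg _))).1 hle
      have e := hu z (hKG hz.1) hz.2 ξ hξ ξ' hξ' (key ξ hξ h.1.1) (key ξ' hξ' h.1.2)
      have h2 := h.2
      rw [e, sub_self, norm_zero] at h2
      linarith)
  refine ⟨κ / 2, half_pos hκ, fun z h1 h2 ξ hξ ξ' hξ' e e' => ?_⟩
  have key : ∀ η ∈ Kd G, (1 - κ / 2) * ‖1 - dot z η‖ ^ 2 ≤ dep G z ^ 2 * ‖η‖ ^ 2 →
      1 - dep G z ^ 2 * ‖η‖ ^ 2 / ‖1 - dot z η‖ ^ 2 < κ := fun η hη hle => by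
    have c1 : 0 < ‖1 - dot z η‖ := norm_pos_iff.2 (sub_ne_zero.2 (hη _ (hKG h1)).symm)
    rw [← le_div_iff₀ (by positivity)] at hle
    linarith
  have h3 := hmin (z, ξ, ξ') ⟨⟨h1, h2⟩, hξ, hξ'⟩
  simp only [le_max_iff] at h3
  rcases h3 with (h3 | h3) | h3
  · exact absurd h3 (not_le.2 (key ξ hξ e))
  · exact absurd h3 (not_le.2 (key ξ' hξ' e'))
  · linarith

theorem Nice.net (hG : Nice G) {τ κ : ℝ} (hτ : 0 < τ) (hκ : 0 < κ) :
    ∃ s : Finset (E n), (∀ ξ ∈ s, ξ ∈ Kd G) ∧ ∀ z : E n, τ ≤ dep G z → ∃ ξ ∈ s,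
      (1 - κ) * ‖1 - dot z ξ‖ ^ 2 ≤ dep G z ^ 2 * ‖ξ‖ ^ 2 := by
  obtain ⟨hK, hKG⟩ := isCompact_deep hG.bdd hG.ne_univ hτ
  have hdc := continuous_dep G
  obtain ⟨b, hb, hfin, hcov⟩ := hK.elim_finite_subcover_image (b := Kd G)
    (c := fun ξ => {z | (1 - κ) * ‖1 - dot z ξ‖ ^ 2 < dep G z ^ 2 * ‖ξ‖ ^ 2})
    (fun ξ _ => isOpen_lt (by fun_prop) (by fun_prop)) (fun z hz => by
      obtain ⟨ξ, hξ, -, e⟩ := hG.exists_nearest (hKG hz)
      have c1 : 0 < ‖1 - dot z ξ‖ := norm_pos_iff.2 (sub_ne_zero.2 (hξ _ (hKG hz)).symm)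
      refine mem_biUnion hξ ?_
      rw [mem_ofPred_eq, ← mul_pow, ← e]
      exact mul_lt_of_lt_one_left (by positivity) (by linarith))
  refine ⟨hfin.toFinset, fun ξ hξ => hb (hfin.mem_toFinset.1 hξ), fun z hz => ?_⟩
  obtain ⟨ξ, hξ, h⟩ := mem_iUnion₂.1 (hcov hz)
  exact ⟨ξ, hfin.mem_toFinset.2 hξ, le_of_lt h⟩

/-- the hyperplane parallel to a nearest hyperplane stays near the complement -/
theorem Nice.parallel (hG : Nice G) {z : E n} (hz : z ∈ G) :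
    ∃ ξ : E n, ξ ≠ 0 ∧ ∀ y, dot ξ y = dot ξ z → dep G y ≤ dep G z := by
  obtain ⟨ξ, hξ, h0, e⟩ := hG.exists_nearest hz
  refine ⟨ξ, h0, fun y hy => le_of_mul_le_mul_right ?_ (norm_pos_iff.2 h0)⟩
  rw [← e, dot_comm z, ← hy, dot_comm ξ]
  exact dep_mul_le hξ

end Pool.Agent.MP_4baaa2_an.H94

/-!
A power sum with linearly convex sublevel sets.
-/

namespace Pool.Agent.MP_4baaa2_an.H94

open Set Metric Filter Topology Complex
open scoped ComplexConjugate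
open Pool.Agent.Lib.PlaneTop

variable {n : ℕ}

open scoped ContDiff

/-- one term -/
noncomputable def tm (ξ z : E n) : ℝ := (1 + ‖z‖ ^ 2) * ‖ξ‖ ^ 2 / ‖1 - dot z ξ‖ ^ 2

/-- the power sum -/
noncomputable def Pw (s : Finset (E n)) (k : ℕ) (z : E n) : ℝ := ∑ ξ ∈ s, tm ξ z ^ k

/-- the weights -/
noncomputable def wt (s : Finset (E n)) (k : ℕ) (z ξ : E n) : ℝ := tm ξ z ^ k / Pw s k z

/-- the normalised complex gradient -/
noncomputable def gr (s : Finset (E n)) (k : ℕ) (z : E n) : E n :=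
  (1 + ‖z‖ ^ 2)⁻¹ • cj z + ∑ ξ ∈ s, wt s k z ξ • et ξ z

variable {s : Finset (E n)} {k : ℕ} {z z₀ : E n}

theorem smooth2_tm_nonneg (ξ z : E n) : 0 ≤ tm ξ z := by
  unfold tm
  positivity

theorem smooth2_wt_nonneg (s : Finset (E n)) (k : ℕ) (z ξ : E n) : 0 ≤ wt s k z ξ :=
  div_nonneg (pow_nonneg (smooth2_tm_nonneg _ _) _)
    (Finset.sum_nonneg fun _ _ => pow_nonneg (smooth2_tm_nonneg _ _) _)

theorem smooth2_sum_wt (hpos : 0 < Pw s k z) : ∑ ξ ∈ s, wt s k z ξ = 1 := by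
  unfold wt
  rw [← Finset.sum_div]
  exact div_self hpos.ne'

theorem smooth2_contDiffAt {ξ : E n} (h : dot z ξ ≠ 1) : ContDiffAt ℝ ∞ (tm ξ) z := by
  unfold tm
  have h1 : ContDiff ℝ ∞ fun z : E n => ‖z‖ ^ 2 := contDiff_norm_sq ℂ
  have h2 : ContDiff ℝ ∞ fun z : E n => dot z ξ := by
    have e : (fun z : E n => dot z ξ) = (dotL ξ).restrictScalars ℝ := by
      funext z
      simp [dot_comm]
    rw [e]
    exact ContinuousLinearMap.contDiff _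
  have h3 : ContDiff ℝ ∞ fun z : E n => ‖1 - dot z ξ‖ ^ 2 := (contDiff_const.sub h2).norm_sq ℂ
  refine ((contDiff_const.add h1).mul contDiff_const).contDiffAt.div h3.contDiffAt ?_
  exact pow_ne_zero _ (norm_ne_zero_iff.2 (sub_ne_zero.2 h.symm))

theorem smooth2_factor {ξ : E n} (h0 : dot z₀ ξ ≠ 1) (v : E n) :
    1 - dot (z₀ + v) ξ = (1 - dot z₀ ξ) * (1 - dot (et ξ z₀) v) := by
  have hc : 1 - dot z₀ ξ ≠ 0 := sub_ne_zero.2 h0.symm
  unfold et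
  rw [dot_smul_left, dot_add_left, dot_comm ξ v]
  field_simp
  ring

theorem smooth2_bern {y : ℝ} (hy : 0 < y) (k : ℕ) : 1 + k * (1 - y) ≤ (y⁻¹) ^ k := by
  have h1 : 1 - y ≤ y⁻¹ - 1 := by
    have : y⁻¹ - 1 - (1 - y) = (1 - y) ^ 2 / y := by
      field_simp
    have h2 : 0 ≤ (1 - y) ^ 2 / y := by positivity
    linarith
  have h2 := one_add_mul_le_pow (a := y⁻¹ - 1) (by have := inv_pos.2 hy; linarith) k
  rw [add_sub_cancel] at h2
  have h3 : (k : ℝ) * (1 - y) ≤ k * (y⁻¹ - 1) := by gcongr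
  linarith

theorem smooth2_var {ι : Type*} (s : Finset ι) (w : ι → ℝ) (l : ι → ℂ) (l₀ : ℂ)
    (hw : ∑ i ∈ s, w i = 1) :
    ∑ i ∈ s, w i * ‖l i‖ ^ 2 ≤ ‖∑ i ∈ s, (w i : ℂ) * l i‖ ^ 2 + ∑ i ∈ s, w i * ‖l i - l₀‖ ^ 2 := by
  have e : ∀ i, w i * ‖l i‖ ^ 2 = w i * ‖l i - l₀‖ ^ 2 + 2 * l₀.re * (w i * (l i).re) +
      2 * l₀.im * (w i * (l i).im) - w i * (l₀.re ^ 2 + l₀.im ^ 2) := by
    intro i
    simp only [Complex.sq_norm, normSq_apply, sub_re, sub_im]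
    ring
  simp only [e, Finset.sum_sub_distrib, Finset.sum_add_distrib, ← Finset.mul_sum,
    ← Finset.sum_mul, hw]
  rw [Complex.sq_norm (∑ i ∈ s, (w i : ℂ) * l i), normSq_apply, re_sum, im_sum]
  simp only [re_ofReal_mul, im_ofReal_mul]
  nlinarith [sq_nonneg (∑ i ∈ s, w i * (l i).re - l₀.re),
    sq_nonneg (∑ i ∈ s, w i * (l i).im - l₀.im)]

theorem smooth2_norm_add (x v : E n) :
    ‖x + v‖ ^ 2 = ‖x‖ ^ 2 + 2 * (dot (cj x) v).re + ‖v‖ ^ 2 := by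
  rw [dot_cj_left, @norm_add_sq ℂ]
  rfl

theorem smooth2_lagrange (x v : E n) :
    ‖((1 + ‖x‖ ^ 2 : ℝ) : ℂ) + dot (cj x) v‖ ^ 2 + ‖v‖ ^ 2 ≤
      (1 + ‖x + v‖ ^ 2) * (1 + ‖x‖ ^ 2) := by
  have h1 := norm_dot_le (cj x) v
  rw [norm_cj] at h1
  have h2 : ‖dot (cj x) v‖ ^ 2 ≤ (‖x‖ * ‖v‖) ^ 2 := by gcongr
  rw [smooth2_norm_add]
  rw [Complex.sq_norm, normSq_apply] at h2 ⊢
  simp only [add_re, add_im, ofReal_re, ofReal_im, zero_add]
  nlinarith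

theorem smooth2_dot_gr (s : Finset (E n)) (k : ℕ) (z v : E n) :
    dot (gr s k z) v = (((1 + ‖z‖ ^ 2)⁻¹ : ℝ) : ℂ) * dot (cj z) v +
      ∑ ξ ∈ s, (wt s k z ξ : ℂ) * dot (et ξ z) v := by
  unfold gr
  rw [dot_add_left, dot_rsmul_left, dot_sum_left]
  simp only [dot_rsmul_left]

theorem smooth2_deriv {ξ : E n} (h0 : dot z₀ ξ ≠ 1) (v : E n) :
    HasDerivAt (fun t : ℝ => tm ξ (z₀ + t • v))
      (tm ξ z₀ * (2 * ((1 + ‖z₀‖ ^ 2)⁻¹ * (dot (cj z₀) v).re + (dot (et ξ z₀) v).re))) 0 := by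
  have hc : ‖1 - dot z₀ ξ‖ ≠ 0 := norm_ne_zero_iff.2 (sub_ne_zero.2 h0.symm)
  set A := (dot (cj z₀) v).re with hA
  set a := dot (et ξ z₀) v with ha
  have e : (fun t : ℝ => tm ξ (z₀ + t • v)) = fun t : ℝ =>
      (‖ξ‖ ^ 2 / ‖1 - dot z₀ ξ‖ ^ 2) * ((1 + ‖z₀‖ ^ 2 + 2 * A * t + ‖v‖ ^ 2 * t ^ 2) /
        (1 - 2 * a.re * t + ‖a‖ ^ 2 * t ^ 2)) := by
    funext t
    unfold tm
    have e1 : ‖1 - (t : ℂ) * a‖ ^ 2 = 1 - 2 * a.re * t + ‖a‖ ^ 2 * t ^ 2 := by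
      simp only [Complex.sq_norm, normSq_apply, sub_re, sub_im, one_re, one_im, re_ofReal_mul,
        im_ofReal_mul]
      ring
    rw [smooth2_factor h0, smooth2_norm_add, norm_mul, mul_pow, dot_rsmul_right, dot_rsmul_right,
      ← ha, e1, re_ofReal_mul, ← hA, norm_smul, mul_pow, Real.norm_eq_abs, sq_abs,
      div_mul_div_comm]
    congr 1
    ring
  rw [e]
  have d1 : HasDerivAt (fun t : ℝ => 1 + ‖z₀‖ ^ 2 + 2 * A * t + ‖v‖ ^ 2 * t ^ 2) (2 * A) 0 := by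
    simpa using (((hasDerivAt_id (0 : ℝ)).const_mul (2 * A)).const_add (1 + ‖z₀‖ ^ 2)).fun_add
      ((hasDerivAt_pow 2 (0 : ℝ)).const_mul (‖v‖ ^ 2))
  have d2 : HasDerivAt (fun t : ℝ => 1 - 2 * a.re * t + ‖a‖ ^ 2 * t ^ 2) (-(2 * a.re)) 0 := by
    simpa using (((hasDerivAt_id (0 : ℝ)).const_mul (2 * a.re)).const_sub 1).fun_add
      ((hasDerivAt_pow 2 (0 : ℝ)).const_mul (‖a‖ ^ 2))
  refine ((d1.fun_div d2 (by simp)).const_mul _).congr_deriv ?_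
  unfold tm
  have hN : (1 + ‖z₀‖ ^ 2) ≠ 0 := by positivity
  simp only [mul_zero, add_zero, sub_zero, ne_eq, OfNat.ofNat_ne_zero, not_false_eq_true,
    zero_pow, mul_one, one_pow, div_one]
  field_simp
  ring

theorem Pw_smooth (s : Finset (E n)) (k : ℕ) :
    ContDiffOn ℝ ∞ (Pw s k) {z | ∀ ξ ∈ s, dot z ξ ≠ 1} := by
  intro z hz
  unfold Pw
  exact (ContDiffAt.sum fun ξ hξ => (smooth2_contDiffAt (hz ξ hξ)).pow k).contDiffWithinAt

theorem Pw_ge (h0 : ∀ ξ ∈ s, dot z₀ ξ ≠ 1) (hz : ∀ ξ ∈ s, dot z ξ ≠ 1) (hpos : 0 < Pw s k z₀)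
    {η₀ : E n} (hvar : ∑ ξ ∈ s, wt s k z₀ ξ * ‖et ξ z₀ - η₀‖ ^ 2 ≤ ((1 + ‖z₀‖ ^ 2) ^ 2)⁻¹)
    (hH : dot (gr s k z₀) (z - z₀) = 0) : Pw s k z₀ ≤ Pw s k z := by
  obtain ⟨v, rfl⟩ : ∃ v, z = z₀ + v := ⟨z - z₀, by simp⟩
  rw [add_sub_cancel_left, smooth2_dot_gr] at hH
  set N₀ : ℝ := 1 + ‖z₀‖ ^ 2 with hN₀
  set N : ℝ := 1 + ‖z₀ + v‖ ^ 2 with hN
  have N₀p : 0 < N₀ := by positivity
  have Np : 0 < N := by positivity
  set l : E n → ℂ := fun ξ => 1 - dot (et ξ z₀) v with hl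
  have hw := smooth2_sum_wt hpos
  have hmean : ∑ ξ ∈ s, (wt s k z₀ ξ : ℂ) * l ξ = (N₀ : ℂ)⁻¹ * (N₀ + dot (cj z₀) v) := by
    have hw' : ∑ ξ ∈ s, (wt s k z₀ ξ : ℂ) = 1 := by exact_mod_cast hw
    have hN' : (N₀ : ℂ) ≠ 0 := by exact_mod_cast N₀p.ne'
    simp only [hl, mul_sub, mul_one, Finset.sum_sub_distrib, hw']
    rw [mul_add, inv_mul_cancel₀ hN']
    push_cast at hH
    linear_combination -hH
  have hV := smooth2_var s (wt s k z₀) l (1 - dot η₀ v) hw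
  have hV2 : ∑ ξ ∈ s, wt s k z₀ ξ * ‖l ξ - (1 - dot η₀ v)‖ ^ 2 ≤ ‖v‖ ^ 2 * (N₀ ^ 2)⁻¹ := by
    refine le_trans ?_ (mul_le_mul_of_nonneg_left hvar (sq_nonneg ‖v‖))
    rw [Finset.mul_sum]
    refine Finset.sum_le_sum fun ξ _ => ?_
    have e : l ξ - (1 - dot η₀ v) = -dot (et ξ z₀ - η₀) v := by
      simp only [hl, dot_sub_left]
      ring
    have h1 := norm_dot_le (et ξ z₀ - η₀) v
    have h2 : ‖dot (et ξ z₀ - η₀) v‖ ^ 2 ≤ (‖et ξ z₀ - η₀‖ * ‖v‖) ^ 2 := by gcongr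
    have h3 := smooth2_wt_nonneg s k z₀ ξ
    rw [e, norm_neg]
    calc _ ≤ wt s k z₀ ξ * (‖et ξ z₀ - η₀‖ * ‖v‖) ^ 2 := by gcongr
      _ = _ := by ring
  have hL := smooth2_lagrange z₀ v
  rw [← hN₀, ← hN] at hL
  have hsum : ∑ ξ ∈ s, wt s k z₀ ξ * ‖l ξ‖ ^ 2 ≤ N / N₀ := by
    rw [hmean, norm_mul, mul_pow, norm_inv, Complex.norm_real, Real.norm_of_nonneg N₀p.le] at hV
    have e : N / N₀ = (N * N₀) * (N₀ ^ 2)⁻¹ := by field_simp
    have h4 : (‖(N₀ : ℂ) + dot (cj z₀) v‖ ^ 2 + ‖v‖ ^ 2) * (N₀ ^ 2)⁻¹ ≤ (N * N₀) * (N₀ ^ 2)⁻¹ := by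
      gcongr
    rw [e]
    rw [inv_pow] at hV
    linarith
  have hterm : ∀ ξ ∈ s, Pw s k z₀ * (wt s k z₀ ξ * (1 + k) -
      k * (N₀ / N) * (wt s k z₀ ξ * ‖l ξ‖ ^ 2)) ≤ tm ξ (z₀ + v) ^ k := by
    intro ξ hξ
    have hf := smooth2_factor (h0 ξ hξ) v
    have hc : ‖1 - dot z₀ ξ‖ ≠ 0 := norm_ne_zero_iff.2 (sub_ne_zero.2 (h0 ξ hξ).symm)
    have hl0 : l ξ ≠ 0 := by
      intro h
      apply sub_ne_zero.2 (hz ξ hξ).symm
      rw [hf]
      exact mul_eq_zero_of_right _ h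
    have hlp : 0 < ‖l ξ‖ := norm_pos_iff.2 hl0
    have e : tm ξ (z₀ + v) = tm ξ z₀ * (‖l ξ‖ ^ 2 * (N₀ / N))⁻¹ := by
      unfold tm
      rw [hf, norm_mul, ← hN, ← hN₀]
      change _ / (_ * ‖l ξ‖) ^ 2 = _
      field_simp
    have hb := smooth2_bern (y := ‖l ξ‖ ^ 2 * (N₀ / N)) (by positivity) k
    have ht : 0 ≤ tm ξ z₀ ^ k := pow_nonneg (smooth2_tm_nonneg _ _) _
    rw [e, mul_pow]
    refine le_trans (le_of_eq ?_) (mul_le_mul_of_nonneg_left hb ht)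
    unfold wt
    field_simp
    ring
  have hfin := Finset.sum_le_sum hterm
  rw [← Finset.mul_sum, Finset.sum_sub_distrib, ← Finset.sum_mul, ← Finset.mul_sum, hw] at hfin
  refine le_trans ?_ hfin
  refine le_mul_of_one_le_right hpos.le ?_
  have h5 : (k : ℝ) * (N₀ / N) * ∑ ξ ∈ s, wt s k z₀ ξ * ‖l ξ‖ ^ 2 ≤ k * (N₀ / N) * (N / N₀) := by
    gcongr
  have e5 : (k : ℝ) * (N₀ / N) * (N / N₀) = k := by field_simp
  linarith

theorem gr_eq_zero (hk : 1 ≤ k) (h0 : ∀ ξ ∈ s, dot z₀ ξ ≠ 1) (hpos : 0 < Pw s k z₀)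
    (hd : fderiv ℝ (Pw s k) z₀ = 0) : gr s k z₀ = 0 := by
  set v := cj (gr s k z₀) with hv
  have hdiff : DifferentiableAt ℝ (Pw s k) z₀ := by
    have : ContDiffAt ℝ ∞ (Pw s k) z₀ := by
      unfold Pw
      exact ContDiffAt.sum fun ξ hξ => (smooth2_contDiffAt (h0 ξ hξ)).pow k
    exact this.differentiableAt (by simp)
  have hline : HasDerivAt (fun t : ℝ => z₀ + t • v) v 0 := by
    simpa using ((hasDerivAt_id (0 : ℝ)).smul_const v).const_add z₀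
  have d1 : HasDerivAt (fun t : ℝ => Pw s k (z₀ + t • v)) 0 0 := by
    have h1 : HasFDerivAt (Pw s k) (fderiv ℝ (Pw s k) z₀) (z₀ + (0 : ℝ) • v) := by
      simpa using hdiff.hasFDerivAt
    have h2 := h1.comp_hasDerivAt (0 : ℝ) hline
    rw [hd] at h2
    exact h2
  have d2 : HasDerivAt (fun t : ℝ => Pw s k (z₀ + t • v))
      (∑ ξ ∈ s, k * tm ξ z₀ ^ k *
        (2 * ((1 + ‖z₀‖ ^ 2)⁻¹ * (dot (cj z₀) v).re + (dot (et ξ z₀) v).re))) 0 := by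
    unfold Pw
    refine HasDerivAt.fun_sum fun ξ hξ => ?_
    refine ((smooth2_deriv (h0 ξ hξ) v).fun_pow k).congr_deriv ?_
    obtain ⟨j, rfl⟩ : ∃ j, k = j + 1 := ⟨k - 1, by omega⟩
    simp only [zero_smul, add_zero, Nat.add_sub_cancel]
    ring
  have hz := d2.unique d1
  have hw := smooth2_sum_wt hpos
  have e : ∑ ξ ∈ s, k * tm ξ z₀ ^ k *
      (2 * ((1 + ‖z₀‖ ^ 2)⁻¹ * (dot (cj z₀) v).re + (dot (et ξ z₀) v).re)) =
      2 * k * Pw s k z₀ * (dot (gr s k z₀) v).re := by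
    rw [smooth2_dot_gr, add_re, re_ofReal_mul, re_sum]
    simp only [re_ofReal_mul]
    rw [← one_mul ((1 + ‖z₀‖ ^ 2)⁻¹ * (dot (cj z₀) v).re), ← hw, Finset.sum_mul,
      ← Finset.sum_add_distrib, Finset.mul_sum]
    refine Finset.sum_congr rfl fun ξ _ => ?_
    rw [← Finset.sum_mul, hw]
    unfold wt
    field_simp
  rw [e, hv, dot_cj_self, ofReal_re] at hz
  have hk' : (0 : ℝ) < k := by exact_mod_cast hk
  have h3 : (0 : ℝ) < 2 * k * Pw s k z₀ := by positivity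
  have h4 := (mul_eq_zero.1 hz).resolve_left h3.ne'
  simpa using h4

/-- choice of the net and of the exponent -/
theorem Nice.pw_data {G : Set (E n)} (hG : Nice G) : ∃ τ₂ > 0, ∀ τ₁ > 0,
    ∃ (s : Finset (E n)) (k : ℕ), 1 ≤ k ∧ (∀ ξ ∈ s, ξ ∈ Kd G) ∧ (s.card : ℝ) < 2 ^ k ∧
      ∀ z : E n, τ₁ ≤ dep G z → dep G z ≤ τ₂ → ((2 * dep G z ^ 2)⁻¹) ^ k ≤ Pw s k z ∧
        ∃ η₀ : E n, ∑ ξ ∈ s, wt s k z ξ * ‖et ξ z - η₀‖ ^ 2 ≤ ((1 + ‖z‖ ^ 2) ^ 2)⁻¹ := by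
  obtain ⟨τ₂, hτ₂, hst⟩ := hG.stable
  refine ⟨τ₂, hτ₂, fun τ₁ hτ₁ => ?_⟩
  obtain ⟨R, hR⟩ := hG.bdd.exists_norm_le
  set M : ℝ := 1 + R ^ 2 with hM
  have Mp : 0 < M := by positivity
  obtain ⟨κ₀, hκ₀, hκ⟩ := hst τ₁ hτ₁ (2 * M)⁻¹ (by positivity)
  set κ : ℝ := min κ₀ (1 / 2) with hκd
  have κp : 0 < κ := lt_min hκ₀ (by norm_num)
  have κ1 : κ ≤ κ₀ := min_le_left _ _
  have κ2 : κ ≤ 1 / 2 := min_le_right _ _
  obtain ⟨s, hs, hnet⟩ := hG.net hτ₁ (half_pos κp)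
  set ρ : ℝ := (1 - κ) / (1 - κ / 2) with hρ
  have ρ0 : 0 ≤ ρ := div_nonneg (by linarith) (by linarith)
  have ρ1 : ρ < 1 := (div_lt_one (by linarith)).2 (by linarith)
  have t1 : Tendsto (fun k : ℕ => (s.card : ℝ) * (ρ ^ k * (2 / τ₁) ^ 2)) atTop (𝓝 0) := by
    simpa using ((tendsto_pow_atTop_nhds_zero_of_lt_one ρ0 ρ1).mul_const
      ((2 / τ₁) ^ 2)).const_mul (s.card : ℝ)
  have t2 : Tendsto (fun k : ℕ => (2 : ℝ) ^ k) atTop atTop :=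
    tendsto_pow_atTop_atTop_of_one_lt (by norm_num)
  obtain ⟨k, hk1, hk2, hk3⟩ := ((eventually_ge_atTop 1).and
    ((t2.eventually_gt_atTop (s.card : ℝ)).and
      (t1.eventually_le_const (u := ((2 * M)⁻¹) ^ 2) (by positivity)))).exists
  refine ⟨s, k, hk1, hs, hk2, fun z hz1 hz2 => ?_⟩
  have dp : 0 < dep G z := lt_of_lt_of_le hτ₁ hz1
  have hzG : z ∈ G := by
    by_contra hn
    have : dep G z = 0 := infDist_zero_of_mem hn
    linarith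
  have hc : ∀ ξ ∈ s, 0 < ‖1 - dot z ξ‖ := fun ξ hξ =>
    norm_pos_iff.2 (sub_ne_zero.2 (hs ξ hξ z hzG).symm)
  obtain ⟨ξ₁, hξ₁, hg₁⟩ := hnet z hz1
  set N : ℝ := 1 + ‖z‖ ^ 2 with hN
  have N1 : 1 ≤ N := by
    rw [hN]
    exact le_add_of_nonneg_right (sq_nonneg _)
  have NM : N ≤ M := by
    have h1 := hR z hzG
    have : ‖z‖ ^ 2 ≤ R ^ 2 := by gcongr
    linarith
  have hlow : N * (1 - κ / 2) / dep G z ^ 2 ≤ tm ξ₁ z := by
    unfold tm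
    rw [← hN, div_le_div_iff₀ (by positivity) (by have := hc ξ₁ hξ₁; positivity)]
    have := mul_le_mul_of_nonneg_left hg₁ (le_trans zero_le_one N1)
    linarith
  have hlow0 : 0 < N * (1 - κ / 2) / dep G z ^ 2 :=
    div_pos (mul_pos (by linarith) (by linarith)) (by positivity)
  have hP : tm ξ₁ z ^ k ≤ Pw s k z :=
    Finset.single_le_sum (f := fun ξ => tm ξ z ^ k)
      (fun ξ _ => pow_nonneg (smooth2_tm_nonneg _ _) _) hξ₁
  have tp : 0 < tm ξ₁ z := lt_of_lt_of_le hlow0 hlow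
  have Pp : 0 < Pw s k z := lt_of_lt_of_le (pow_pos tp k) hP
  have het : ∀ ξ ∈ s, ‖et ξ z‖ ≤ 1 / τ₁ := by
    intro ξ hξ
    have h1 := dep_mul_le (z := z) (hs ξ hξ)
    have h2 : τ₁ * ‖ξ‖ ≤ dep G z * ‖ξ‖ := by gcongr
    unfold et
    rw [norm_smul, norm_inv, inv_mul_eq_div, div_le_div_iff₀ (hc ξ hξ) hτ₁]
    linarith
  constructor
  · refine le_trans (pow_le_pow_left₀ (by positivity) (le_trans ?_ hlow) k) hP
    rw [mul_inv, ← div_eq_mul_inv]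
    refine div_le_div_of_nonneg_right ?_ (sq_nonneg _)
    have := mul_le_mul_of_nonneg_right N1 (show 0 ≤ 1 - κ / 2 by linarith)
    linarith
  · refine ⟨et ξ₁ z, ?_⟩
    have hterm : ∀ ξ ∈ s, wt s k z ξ * ‖et ξ z - et ξ₁ z‖ ^ 2 ≤
        wt s k z ξ * ((2 * M)⁻¹) ^ 2 + ρ ^ k * (2 / τ₁) ^ 2 := by
      intro ξ hξ
      have w0 := smooth2_wt_nonneg s k z ξ
      by_cases hgood : (1 - κ) * ‖1 - dot z ξ‖ ^ 2 ≤ dep G z ^ 2 * ‖ξ‖ ^ 2
      · have h1 := hκ z hz1 hz2 ξ (hs ξ hξ) ξ₁ (hs ξ₁ hξ₁)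
          (le_trans (by gcongr) hgood) (le_trans (by gcongr; linarith) hg₁)
        have h2 : wt s k z ξ * ‖et ξ z - et ξ₁ z‖ ^ 2 ≤ wt s k z ξ * ((2 * M)⁻¹) ^ 2 := by gcongr
        have h3 : 0 ≤ ρ ^ k * (2 / τ₁) ^ 2 := by positivity
        linarith
      · have h1 : tm ξ z ≤ ρ * tm ξ₁ z := by
          refine le_trans ?_ (mul_le_mul_of_nonneg_left hlow ρ0)
          have e : ρ * (N * (1 - κ / 2) / dep G z ^ 2) = N * (1 - κ) / dep G z ^ 2 := by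
            have : 1 - κ / 2 ≠ 0 := by linarith
            rw [hρ]
            generalize 1 - κ / 2 = u at this ⊢
            field_simp
          rw [e]
          unfold tm
          rw [← hN, div_le_div_iff₀ (by have := hc ξ hξ; positivity) (by positivity)]
          have := mul_le_mul_of_nonneg_left (not_le.1 hgood).le (le_trans zero_le_one N1)
          linarith
        have h2 : wt s k z ξ ≤ ρ ^ k := by
          unfold wt
          rw [div_le_iff₀ Pp]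
          calc tm ξ z ^ k ≤ (ρ * tm ξ₁ z) ^ k := pow_le_pow_left₀ (smooth2_tm_nonneg _ _) h1 k
            _ = ρ ^ k * tm ξ₁ z ^ k := mul_pow _ _ _
            _ ≤ _ := by gcongr
        have h3 : ‖et ξ z - et ξ₁ z‖ ≤ 2 / τ₁ := by
          refine le_trans (norm_sub_le _ _) ?_
          have := het ξ hξ
          have := het ξ₁ hξ₁
          have e : 2 / τ₁ = 1 / τ₁ + 1 / τ₁ := by ring
          linarith
        have h4 : wt s k z ξ * ‖et ξ z - et ξ₁ z‖ ^ 2 ≤ ρ ^ k * (2 / τ₁) ^ 2 := by gcongr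
        have h5 : 0 ≤ wt s k z ξ * ((2 * M)⁻¹) ^ 2 := by positivity
        linarith
    have hsum := Finset.sum_le_sum hterm
    rw [Finset.sum_add_distrib, ← Finset.sum_mul, smooth2_sum_wt Pp, Finset.sum_const,
      nsmul_eq_mul] at hsum
    have h6 : 2 * ((2 * M)⁻¹) ^ 2 ≤ (N ^ 2)⁻¹ := by
      have e : 2 * ((2 * M)⁻¹) ^ 2 = (2 * M ^ 2)⁻¹ := by field_simp
      rw [e]
      apply inv_anti₀ (by positivity)
      have : N ^ 2 ≤ M ^ 2 := by gcongr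
      have := sq_nonneg M
      linarith
    linarith

end Pool.Agent.MP_4baaa2_an.H94

/-!
Smoothing of domains with interior and exterior balls.
-/

namespace Pool.Agent.MP_4baaa2_an.H94

open Set Metric Filter Topology Complex
open scoped ComplexConjugate
open Pool.Agent.Lib.PlaneTop

variable {n : ℕ}

open scoped ContDiff

theorem smooth3_chi {A B : Set (E n)} (hA : IsClosed A) (hB : IsClosed B) (hd : Disjoint A B) :
    ∃ χ : E n → ℝ, ContDiff ℝ ∞ χ ∧ (∀ z ∈ A, χ z = 0) ∧ (∀ z ∈ B, χ z = 1) ∧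
      ∀ z, 0 ≤ χ z ∧ χ z ≤ 1 := by
  obtain ⟨f, h0, h1, h2⟩ := exists_contMDiffMap_zero_one_of_isClosed (n := ⊤)
    (modelWithCornersSelf ℝ (E n)) hA hB hd
  exact ⟨f, contMDiff_iff_contDiff.1 f.contMDiff, h0, h1, h2⟩

theorem smooth3_up {G : Set (E n)} {s : Finset (E n)} {k : ℕ} (hs : ∀ ξ ∈ s, ξ ∈ Kd G)
    (hc : (s.card : ℝ) < 2 ^ k) {z : E n} {t N : ℝ} (ht : 0 < t) (hz : t ≤ dep G z)
    (hN : 1 + ‖z‖ ^ 2 ≤ N) : Pw s k z < (2 * N / t ^ 2) ^ k := by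
  have hN0 : 0 < N := lt_of_lt_of_le (by positivity) hN
  have h1 : ∀ ξ ∈ s, tm ξ z ^ k ≤ (N / t ^ 2) ^ k := fun ξ hξ => by
    refine pow_le_pow_left₀ (by unfold tm; positivity) ?_ k
    have h2 : t * ‖ξ‖ ≤ ‖1 - dot z ξ‖ :=
      (mul_le_mul_of_nonneg_right hz (norm_nonneg _)).trans (dep_mul_le (hs ξ hξ))
    have h3 : (t * ‖ξ‖) ^ 2 ≤ ‖1 - dot z ξ‖ ^ 2 := by gcongr
    rw [tm]
    refine div_le_of_le_mul₀ (by positivity) (by positivity) ?_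
    calc (1 + ‖z‖ ^ 2) * ‖ξ‖ ^ 2 ≤ N * ‖ξ‖ ^ 2 := by gcongr
      _ = N / t ^ 2 * (t * ‖ξ‖) ^ 2 := by field_simp
      _ ≤ _ := by gcongr
  calc Pw s k z ≤ s.card • (N / t ^ 2) ^ k := Finset.sum_le_card_nsmul _ _ _ h1
    _ < 2 ^ k * (N / t ^ 2) ^ k := by
      rw [nsmul_eq_mul]
      gcongr
    _ = _ := by rw [← mul_pow, mul_div_assoc]

theorem smooth3_ne {ξ : E n} (h : ξ ≠ 0) : dotL ξ ≠ 0 := fun h0 =>
  h (eq_zero_of_dot ξ fun y => by rw [← dotL_apply, h0]; rfl)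

/-- the gluing step -/
theorem smooth3_glue {G S : Set (E n)} (hG : Nice G) {u : E n → ℝ} {T τ₁ τ₃ : ℝ} (h1 : 0 < τ₁)
    (hu : ContDiffOn ℝ ∞ u G) (hA : ∀ z, τ₃ ≤ dep G z → u z < T)
    (hB : ∀ z, τ₁ / 2 ≤ dep G z → dep G z ≤ τ₁ → T < u z) (h13 : τ₁ ≤ τ₃)
    (hS : IsPreconnected S) (hS0 : (0 : E n) ∈ S) (hS3 : ∀ z ∈ S, τ₃ ≤ dep G z)
    (hC : ∀ z ∉ S, τ₁ < dep G z → fderiv ℝ u z ≠ 0 ∧
      ∃ ξ : E n, ξ ≠ 0 ∧ ∀ y ∈ G, dot ξ y = dot ξ z → u z ≤ u y) :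
    ∃ Ψ : E n → ℝ, SmoothLC Ψ ∧ S ⊆ {z | Ψ z < 0} ∧ closure {z | Ψ z < 0} ⊆ G := by
  have cd := continuous_dep G
  have hin : ∀ z, 0 < dep G z → z ∈ G := fun z => (dep_pos_iff hG.isOpen hG.ne_univ).1
  obtain ⟨χ, hχ, c0, c1, c01⟩ := smooth3_chi (A := {z | τ₁ ≤ dep G z}) (B := {z | dep G z ≤ τ₁ / 2})
    (isClosed_le continuous_const cd) (isClosed_le cd continuous_const)
    (disjoint_left.2 fun z (a : τ₁ ≤ _) (b : _ ≤ τ₁ / 2) => by linarith)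
  let Ψ : E n → ℝ := fun z => (1 - χ z) * (u z - T) + χ z
  have hΨ : ContDiff ℝ ∞ Ψ := contDiff_iff_contDiffAt.2 fun z => by
    rcases lt_or_ge (dep G z) (τ₁ / 2) with hz | hz
    · refine (contDiffAt_const (c := (1 : ℝ))).congr_of_eventuallyEq ?_
      filter_upwards [cd.continuousAt.eventually_lt continuousAt_const hz] with y hy
      simp [Ψ, c1 y hy.le]
    · have := hu.contDiffAt (hG.isOpen.mem_nhds (hin z (by linarith)))
      exact ((contDiffAt_const.sub hχ.contDiffAt).mul (this.sub contDiffAt_const)).add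
        hχ.contDiffAt
  have e1 : ∀ z, τ₁ ≤ dep G z → Ψ z = u z - T := fun z hz => by simp [Ψ, c0 z hz]
  have hW : ∀ z, Ψ z < 0 ↔ τ₁ < dep G z ∧ u z < T := fun z => by
    refine ⟨fun hz => ?_, fun hz => by rw [e1 z hz.1.le]; linarith [hz.2]⟩
    rcases lt_or_ge τ₁ (dep G z) with a | a
    · exact ⟨a, by rw [e1 z a.le] at hz; linarith⟩
    · exfalso
      rcases le_total (dep G z) (τ₁ / 2) with b | b
      · simp [Ψ, c1 z b] at hz
        linarith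
      · have := mul_nonneg (sub_nonneg.2 (c01 z).2) (sub_pos.2 (hB z b a)).le
        simp only [Ψ] at hz
        linarith [(c01 z).1]
  have hlt : ∀ z, τ₁ / 2 ≤ dep G z → u z ≤ T → τ₁ < dep G z := fun z a b =>
    lt_of_not_ge fun c => (hB z a c).not_ge b
  have hSW : S ⊆ {z | Ψ z < 0} := fun z hz => (hW z).2
    ⟨hlt z (by linarith [hS3 z hz]) (hA z (hS3 z hz)).le, hA z (hS3 z hz)⟩
  obtain ⟨hK, hKG⟩ := isCompact_deep hG.bdd hG.ne_univ h1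
  have hWK : {z | Ψ z < 0} ⊆ {z | τ₁ ≤ dep G z} := fun z hz => ((hW z).1 hz).1.le
  have hcl : closure {z | Ψ z < 0} ⊆ {z | τ₁ ≤ dep G z} := closure_minimal hWK hK.isClosed
  refine ⟨Ψ, ⟨hΨ, ⟨⟨0, hSW hS0⟩, ?_⟩, hK.isBounded.subset hWK, fun z hz => ?_, hSW hS0,
    fun z hz => ?_⟩, hSW, hcl.trans hKG⟩
  · have e : {z | Ψ z < 0} = {z ∈ {z | τ₁ / 2 < dep G z} | u z < T} := by
      ext z
      exact (hW z).trans ⟨fun a => ⟨by change τ₁ / 2 < _; linarith [a.1], a.2⟩,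
        fun a => ⟨hlt z a.1.le a.2.le, a.2⟩⟩
    rw [e] at hWK hSW ⊢
    refine conn_sublevel (isOpen_lt continuous_const cd)
      (hu.continuousOn.mono fun z (a : τ₁ / 2 < _) => hin z (by linarith)) hK
      (fun z (a : τ₁ ≤ _) => by change τ₁ / 2 < _; linarith) hWK hS hSW fun z a b c => ?_
    by_contra d
    exact (hC z d (hlt z (le_of_lt a) b.le)).1 c.fderiv_eq_zero
  · by_cases hzG : z ∈ G
    · rcases le_or_gt (dep G z) τ₁ with a | a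
      · obtain ⟨ξ, h0, hξ⟩ := hG.parallel hzG
        exact ⟨dotL ξ, smooth3_ne h0, fun y hy e =>
          ((hW y).1 hy).1.not_ge ((hξ y e).trans a)⟩
      · obtain ⟨-, ξ, h0, hξ⟩ := hC z (fun b => hz (hSW b)) a
        exact ⟨dotL ξ, smooth3_ne h0, fun y hy e => hz ((hW z).2
          ⟨a, (hξ y (hKG (hWK hy)) e).trans_lt ((hW y).1 hy).2⟩)⟩
    · obtain ⟨ξ, hξ, e⟩ := hG.lc z hzG
      refine ⟨dotL ξ, smooth3_ne ?_, fun y hy e' => hξ y (hKG (hWK hy)) ?_⟩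
      · rintro rfl
        simp at e
      · rw [dot_comm, ← e, dot_comm z]
        exact e'
  · have hO : IsOpen {z | Ψ z < 0} := isOpen_lt hΨ.continuous continuous_const
    rw [hO.frontier_eq] at hz
    have a : τ₁ ≤ dep G z := hcl hz.1
    have b : Ψ z ≤ 0 := closure_lt_subset_le hΨ.continuous continuous_const hz.1
    rw [e1 z a] at b
    have c := hlt z (by linarith) (by linarith)
    have e : Ψ =ᶠ[𝓝 z] fun y => u y - T := by
      filter_upwards [continuousAt_const.eventually_lt cd.continuousAt c] with y hy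
      exact e1 y hy.le
    rw [e.fderiv_eq, fderiv_sub_const]
    exact (hC z (fun d => hz.2 (hSW d)) c).1

theorem Nice.smooth {G X : Set (E n)} (hG : Nice G) (hX : IsCompact X) (hXG : X ⊆ G) :
    ∃ Ψ : E n → ℝ, SmoothLC Ψ ∧ X ⊆ {z | Ψ z < 0} ∧ closure {z | Ψ z < 0} ⊆ G := by
  have hin : ∀ z, 0 < dep G z → z ∈ G := fun z => (dep_pos_iff hG.isOpen hG.ne_univ).1
  have d0 : 0 < dep G 0 := (dep_pos_iff hG.isOpen hG.ne_univ).2 hG.zero
  obtain ⟨R, hR⟩ := hG.bdd.exists_norm_le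
  obtain ⟨N, hN1, hN⟩ : ∃ N : ℝ, 1 ≤ N ∧ ∀ z ∈ G, 1 + ‖z‖ ^ 2 ≤ N :=
    ⟨1 + R ^ 2, by nlinarith [sq_nonneg R], fun z hz => by have := hR z hz; gcongr⟩
  obtain ⟨τ', hτ', hpw⟩ := hG.pw_data
  obtain ⟨τ₂, h2, h2a, h2b⟩ : ∃ τ₂ > 0, τ₂ ≤ τ' ∧ τ₂ ≤ dep G 0 / 2 :=
    ⟨min τ' (dep G 0 / 2), by positivity, min_le_left _ _, min_le_right _ _⟩
  obtain ⟨hK, hKG⟩ := isCompact_deep hG.bdd hG.ne_univ h2
  obtain ⟨τ, hτ, S, hS, hXS, hSτ⟩ := conn_hull hG.isOpen hG.conn hG.ne_univ (hX.union hK)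
    (union_subset hXG hKG)
  have hdS : ∀ z, τ₂ ≤ dep G z → z ∈ S := fun z hz => hXS (Or.inr hz)
  obtain ⟨τ₁, h1, e1⟩ : ∃ τ₁ > 0, τ = 3 * N * τ₁ :=
    ⟨τ / (3 * N), by positivity, by field_simp⟩
  obtain ⟨s, k, hk, hs, hc, hd⟩ := hpw (τ₁ / 2) (by positivity)
  have hne : ∀ z ∈ G, ∀ ξ ∈ s, dot z ξ ≠ 1 := fun z hz ξ hξ => hs ξ hξ z hz
  have h13 : τ₁ < τ := by nlinarith
  have h12 : τ₁ ≤ τ' := by
    by_contra hlt
    push Not at hlt
    obtain ⟨z, hz⟩ : ∃ z : E n, dep G z = τ₂ := by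
      obtain ⟨q, hq⟩ := nonempty_compl.2 hG.ne_univ
      exact intermediate_value_univ q 0 (continuous_dep G)
        ⟨by rw [dep, infDist_zero_of_mem hq]; exact h2.le, by linarith⟩
    linarith [hSτ z (hdS z hz.ge)]
  obtain ⟨Ψ, a, b, c⟩ := smooth3_glue (u := Pw s k) (T := (2 * N / τ ^ 2) ^ k) (τ₃ := τ) hG h1
    ((Pw_smooth s k).mono hne) (fun z hz => smooth3_up hs hc hτ hz (hN z (hin z (hτ.trans_le hz))))
    (fun z a b => by
      refine lt_of_lt_of_le (pow_lt_pow_left₀ ?_ (by positivity) (by omega)) (hd z a (b.trans h12)).1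
      have p : 0 < dep G z := by linarith
      have q : dep G z ^ 2 ≤ τ₁ ^ 2 := by gcongr
      rw [inv_eq_one_div, div_lt_div_iff₀ (by positivity) (by positivity), e1]
      have : N * dep G z ^ 2 ≤ N * τ₁ ^ 2 := by gcongr
      have : N * τ₁ ^ 2 ≤ N * (N * τ₁ ^ 2) := le_mul_of_one_le_left (by positivity) hN1
      have : 0 < N * τ₁ ^ 2 := by positivity
      nlinarith)
    h13.le hS (hdS 0 (by linarith)) hSτ (fun z hz a => by
      have p : 0 < dep G z := by linarith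
      have b : dep G z ≤ τ₂ := le_of_not_ge fun b => hz (hdS z b)
      obtain ⟨l, η, hη⟩ := hd z (by linarith) (b.trans h2a)
      have hp : 0 < Pw s k z := lt_of_lt_of_le (by positivity) l
      have hg : gr s k z ≠ 0 := fun g0 => by
        have u1 := Pw_ge (hne z (hin z p)) (hne 0 hG.zero) hp hη (by simp [g0])
        have u2 := smooth3_up hs hc d0 le_rfl (N := 1) (by simp)
        have u3 : (2 * 1 / dep G 0 ^ 2) ^ k ≤ ((2 * dep G z ^ 2)⁻¹) ^ k := by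
          refine pow_le_pow_left₀ (by positivity) ?_ k
          have : (2 * dep G z) ^ 2 ≤ dep G 0 ^ 2 := by gcongr; linarith
          rw [inv_eq_one_div, div_le_div_iff₀ (by positivity) (by positivity)]
          linarith
        linarith
      exact ⟨fun f0 => hg (gr_eq_zero hk (hne z (hin z p)) hp f0), _, hg, fun y hy e =>
        Pw_ge (hne z (hin z p)) (hne y hy) hp hη (by rw [dot_sub_right, e, sub_self])⟩)
  exact ⟨Ψ, a, (subset_union_left.trans hXS).trans b, c⟩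

end Pool.Agent.MP_4baaa2_an.H94

end
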