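import Pool.Agent.MP_4baaa2_an.Mg.H94_Slat
import Pool.Agent.MP_4baaa2_an.Mg.H94_Smooth
import Pool.Agent.MP_4baaa2_an.Mg.H94_Bdy
import Pool.Agent.MP_4baaa2_an.Mg.H94_GeoA
import Pool.Agent.MP_4baaa2_an.Mg.H94_GeoH

-- part MP_4baaa2_an.H94.Gen1
section

/-!
Definitions for the stage without boundary regularity.
-/

namespace Pool.Agent.MP_4baaa2_an.H94

open Set Metric Filter Topology Complex
open scoped ComplexConjugate
open Pool.Agent.Lib.PlaneTop

variable {n : ℕ}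

/-- the dilated and rotated disc -/
noncomputable def dil (h : ℂ → E n) (c w : ℂ) : E n := c⁻¹ • h (c * w)

/-- the pencil of two discs -/
noncomputable def pen (h₁ h₂ : ℂ → E n) (μ : ℂ → ℂ) (w : ℂ) : E n := h₁ w + μ w • (h₂ w - h₁ w)

/-- the denominator of the weight -/
noncomputable def den (h₁ h₂ : ℂ → E n) (p : E n) (r c₁ c₂ : ℂ) (μ : ℂ → ℂ) (w : ℂ) : ℂ :=
  (1 - μ w) * O h₁ p r (c₁ * w) + μ w * O h₂ p r (c₂ * w)

/-- the weight of the second disc -/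
noncomputable def tau (h₁ h₂ : ℂ → E n) (p : E n) (r c₁ c₂ : ℂ) (μ : ℂ → ℂ) (w : ℂ) : ℂ :=
  μ w * O h₂ p r (c₂ * w) / den h₁ h₂ p r c₁ c₂ μ w

/-- maximisers of the unperturbed problem -/
def Mx (D : Set (E n)) (h : ℂ → E n) (p : E n) : Prop := Adm D h ∧ ‖F h p‖ = U0 D p

/-- the gradient of `log (F h)` at `p` -/
noncomputable def sg (h : ℂ → E n) (p : E n) : E n := cc h p • h (F h p)

/-- the gradients of all maximisers -/
def Sg (D : Set (E n)) (p : E n) : Set (E n) := {σ | ∃ h, Mx D h p ∧ sg h p = σ}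

/-- the cone of descent directions -/
def Tg (D : Set (E n)) (p : E n) : Set (E n) := {v | ∀ σ ∈ Sg D p, (dot σ v).re < 0}

/-- sublevel sets of the value function -/
def Dr (D : Set (E n)) (r : ℝ) : Set (E n) := {z ∈ D | U0 D z < r}

section day
variable {Y : Type*} [TopologicalSpace Y] {a : Y → ℂ → ℂ}

theorem DAY.dil {h : ℂ → E n} (hh : DifferentiableOn ℂ h (ball 0 1)) {c : Y → ℂ}
    (hc : Continuous c) (h0 : ∀ y, c y ≠ 0) (h1 : ∀ y, ‖c y‖ < 1) : DAY fun y => dil h (c y) := by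
  have hm : ∀ y, ∀ w ∈ closedBall (0 : ℂ) 1, c y * w ∈ ball (0 : ℂ) 1 := fun y w hw => by
    rw [mem_ball_zero_iff, norm_mul]
    exact (mul_le_of_le_one_right (norm_nonneg _) (mem_closedBall_zero_iff.1 hw)).trans_lt (h1 y)
  refine ⟨fun y => DifferentiableOn.diffContOnCl ?_, ContinuousOn.smul
    (((hc.comp continuous_fst).inv₀ fun x => h0 _).continuousOn)
    (hh.continuousOn.comp (f := fun x : Y × ℂ => c x.1 * x.2) (by fun_prop)
      fun x hx => hm _ _ hx.2)⟩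
  rw [closure_ball _ one_ne_zero]
  exact (hh.comp (f := fun w => c y * w) (by fun_prop) (hm y)).const_smul (c y)⁻¹

theorem DAY.pen {k₁ k₂ : Y → ℂ → E n} (h1 : DAY k₁) (h2 : DAY k₂) (ha : DAY a) :
    DAY fun y => pen (k₁ y) (k₂ y) (a y) :=
  h1.add (ha.smul (h2.sub h1))

end day

variable {D : Set (E n)} {p : E n} {h : ℂ → E n}

theorem gam_iff {u y : E n} : u ∈ Gam D y ↔ u ∈ Kd D ∧ dot y u = 1 := by
  simp only [Gam, Kd, mem_ofPred_eq, dot_comm u, and_comm]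

/-- a choice of the parameters; they play no role for `ε = 0` -/
noncomputable def par0 : Par :=
  ⟨0, 1 / 3, 1 / 2, le_rfl, by norm_num, by norm_num, by norm_num⟩

theorem V_zero (P : Par) (p : E n) (h : ℂ → E n) : V P 0 p h = ‖F h p‖ := by simp [V]

theorem Pre.mx_exists (G : Pre D) (hp : p ∈ D) : ∃ h, Mx D h p := by
  obtain ⟨h, hh⟩ := G.max_exists par0 le_rfl hp
  exact ⟨h, hh.1, by rw [← U_zero D par0, hh.U_eq, V_zero]⟩

theorem Mx.isMax (G : Pre D) (hp : p ∈ D) (hh : Mx D h p) : IsMax D par0 0 p h :=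
  ⟨hh.1, fun h' hh' => by rw [V_zero, V_zero, hh.2]; exact G.le_U0 hh' hp⟩

theorem Pre.U0_cont (G : Pre D) : ContinuousOn (U0 D) D :=
  (G.U_cont par0 le_rfl).congr fun z _ => (U_zero D _ z).symm

theorem Pre.U0_zero (G : Pre D) : U0 D 0 = 0 := by
  obtain ⟨h, hh⟩ := G.mx_exists G.zero
  rw [← hh.2, hh.1.F_zero G.zero, norm_zero]

theorem dil_eq {r c : ℂ} (hr : dot p (h r) = r) (hc : c ≠ 0) (w : ℂ) :
    w - dot p (dil h c w) = (w - r / c) * O h p r (c * w) := by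
  have := W_eq h p hr (c * w)
  rw [dil, dot_smul_right]
  linear_combination c⁻¹ * this - (w - w * O h p r (c * w)) * mul_inv_cancel₀ hc +
    O h p r (c * w) * div_eq_mul_inv r c

theorem xi_dil (c w : ℂ) : xi (dil h c) w = xi h (c * w) := by
  rw [xi, xi, dil, smul_smul, mul_inv, mul_comm]

end Pool.Agent.MP_4baaa2_an.H94

/-!
Line sections of a domain with connected sets of supporting hyperplanes are connected.
-/

namespace Pool.Agent.MP_4baaa2_an.H94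

open Set Metric Filter Topology Complex
open scoped ComplexConjugate
open Pool.Agent.Lib.PlaneTop

variable {n : ℕ} {D : Set (E n)}

/-- `bk` gives a path from `0` to a far point in `Sᶜ`; map it by `u ↦ u / (u - 1)`. -/
theorem jn {S : Set ℂ} (hS : IsCompact S) (h1 : (1 : ℂ) ∈ S) (hl : HasLogOn (fun u => u) S) :
    JoinedIn {x : ℂ | ∀ u ∈ S, x + (1 - x) * u ≠ 0} 0 1 := by
  set W := {x : ℂ | ∀ u ∈ S, x + (1 - x) * u ≠ 0} with hW
  have ho : IsOpen W := chan_open (F := fun x u => x + (1 - x) * u) hS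
    (Continuous.continuousOn (by fun_prop))
  obtain ⟨r, hr, hrD⟩ := Metric.isOpen_iff.1 ho 1 fun y _ => by simp
  obtain ⟨d, hd, hj⟩ := bk hS (b := 0) (hl.congr fun x _ => sub_zero x) (1 / r + 2)
  have hne : ∀ u ∈ Sᶜ, u - 1 ≠ 0 := fun u hu h => hu (sub_eq_zero.1 h ▸ h1)
  have hj' := (hj.map_continuousOn (f := fun u => u / (u - 1))
    (continuousOn_id.div (by fun_prop) hne)).mono (V := W) (by
      rintro _ ⟨u, hu, rfl⟩ y hy h
      have h2 := hne u hu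
      have h3 : y = u := by
        field_simp at h
        linear_combination -h
      exact hu (h3 ▸ hy))
  rw [zero_div] at hj'
  refine hj'.trans ((((convex_ball (1 : ℂ) r).isPathConnected ⟨1, mem_ball_self hr⟩).joinedIn _ ?_ _
    (mem_ball_self hr)).mono hrD)
  have h2 := hne d hj.target_mem
  have h3 : d / (d - 1) - 1 = (d - 1)⁻¹ := by
    field_simp
    ring
  have h4 := norm_sub_norm_le d 1
  rw [norm_one] at h4
  rw [mem_ball, dist_eq_norm, h3, norm_inv, inv_lt_comm₀ (norm_pos_iff.2 h2) hr, ← one_div]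
  linarith

/-- a path which starts in an open set and avoids its frontier stays in the set -/
theorem joined_of_frontier {X : Type*} [TopologicalSpace X] {A B : Set X} (hA : IsOpen A) {x y : X}
    (hx : x ∈ A) (hj : JoinedIn B x y) (hB : Disjoint B (frontier A)) : JoinedIn A x y := by
  obtain ⟨γ, hγ⟩ := hj
  have h : range γ ⊆ A := (isPreconnected_range γ.continuous).subset_of_closure_inter_subset hA
    ⟨x, ⟨0, γ.source⟩, hx⟩ (by
      rintro _ ⟨h1, t, rfl⟩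
      by_contra h2
      exact disjoint_left.1 hB (hγ t) (by rw [hA.frontier_eq]; exact ⟨h1, h2⟩))
  exact ⟨γ, fun t => h ⟨t, rfl⟩⟩

lemma gtop1_log (G : Pre D) {a b : E n} (ha : a ∈ D) (hb : b ∈ D) :
    HasLogOn (fun ξ => (1 - dot a ξ) / (1 - dot b ξ)) (Kd D) := by
  obtain ⟨γ, hγ⟩ := (G.isOpen.isConnected_iff_isPathConnected.1 ⟨⟨a, ha⟩, G.conn⟩).joinedIn a ha b hb
  have hγ' : ∀ s : ℝ, γ.extend s ∈ D := fun s => by
    have : γ.extend s ∈ range γ := γ.extend_range ▸ mem_range_self s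
    obtain ⟨u, hu⟩ := this
    exact hu ▸ hγ u
  have hc : Continuous fun p : ℝ × E n => γ.extend p.1 := γ.continuous_extend.comp continuous_fst
  have hl := HasLogOn.homotopy (H := fun s ξ => (1 - dot a ξ) / (1 - dot (γ.extend s) ξ))
    (K := Kd D) (ContinuousOn.div (Continuous.continuousOn (by fun_prop))
      (continuous_const.sub (cont_dot hc continuous_snd)).continuousOn
      fun p hp => sub_ne_zero.2 (hp.2 _ (hγ' _)).symm)
    (fun s _ ξ hξ => div_ne_zero (sub_ne_zero.2 (hξ a ha).symm)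
      (sub_ne_zero.2 (hξ _ (hγ' s)).symm))
    ((hasLogOn_const one_ne_zero _).congr fun ξ hξ => by
      rw [γ.extend_zero, div_self (sub_ne_zero.2 (hξ a ha).symm)])
  simpa only [γ.extend_one] using hl

lemma gtop1_cpt (G : Pre D) (a : E n) {v : E n} (hv : v ≠ 0) : IsCompact
    {y : ℂ × E n | a + y.1 • v ∈ frontier D ∧ y.2 ∈ Kd D ∧ dot (a + y.1 • v) y.2 = 1} := by
  obtain ⟨C, hC⟩ := G.bdd.closure.exists_norm_le
  refine ((isCompact_closedBall (0 : ℂ) ((C + ‖a‖) / ‖v‖)).prod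
    (isCompact_Kd G.isOpen G.zero)).of_isClosed_subset
    ((isClosed_frontier.preimage (by fun_prop)).inter
      (((isClosed_Kd G.isOpen).preimage continuous_snd).inter
        (isClosed_eq (by fun_prop) continuous_const))) fun y hy => ⟨?_, hy.2.1⟩
  rw [mem_closedBall_zero_iff, le_div_iff₀ (norm_pos_iff.2 hv), ← norm_smul]
  have h1 := norm_sub_le (a + y.1 • v) a
  rw [add_sub_cancel_left] at h1
  linarith [hC _ (frontier_subset_closure hy.1)]

lemma gtop1_eq {a b ξ : E n} (hb : b ∈ D) (hξ : ξ ∈ Kd D) {s : ℂ}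
    (h : dot (a + s • (b - a)) ξ = 1) : (1 - dot a ξ) / (1 - dot b ξ) * (s - 1) = s := by
  have h1 : 1 - dot b ξ ≠ 0 := sub_ne_zero.2 (hξ b hb).symm
  have h2 : dot a ξ + s * (dot b ξ - dot a ξ) = 1 := by simpa using h
  rw [div_mul_eq_mul_div, div_eq_iff h1]
  linear_combination h2

/-- The function `s / (s - 1)` has a logarithm on the set of the pairs `(s, ξ)` with
`a + s v ∈ frontier D` and `ξ ∈ Gam D (a + s v)`, which descends to its image. -/
theorem gen_joined (G : Pre D) (hg : ∀ z ∈ frontier D, IsConnected (Gam D z)) :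
    ∀ a ∈ D, ∀ b ∈ D, JoinedIn (Sec D a (b - a)) 0 1 := by
  intro a ha b hb
  by_cases hv : b - a = 0
  · have h : Sec D a (b - a) = univ := eq_univ_of_forall fun s => by
      simpa [Sec, hv] using ha
    rw [h]
    exact joinedIn_univ.2 (PathConnectedSpace.joined 0 1)
  have hN := gtop1_cpt G a hv
  set N := {y : ℂ × E n | a + y.1 • (b - a) ∈ frontier D ∧ y.2 ∈ Kd D ∧
    dot (a + y.1 • (b - a)) y.2 = 1} with hNdef
  obtain ⟨L, hL, hLe⟩ := gtop1_log G ha hb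
  have hU : ContinuousOn (fun y : ℂ × E n => (1 - dot a y.2) / (1 - dot b y.2)) N :=
    ContinuousOn.div (Continuous.continuousOn (by fun_prop)) (Continuous.continuousOn (by fun_prop))
      fun y hy => sub_ne_zero.2 (hy.2.1 b hb).symm
  obtain ⟨B, hB, hBe⟩ := desc hN (B := fun y => L y.2) hU
    (hL.comp continuousOn_snd fun y hy => hy.2.1) (fun y hy y' hy' h => by
      have e1 := gtop1_eq hb hy.2.1 hy.2.2
      have e2 := gtop1_eq hb hy'.2.1 hy'.2.2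
      rw [← h] at e2
      have e3 : y.1 - 1 ≠ 0 := fun h0 => by
        rw [h0, mul_zero] at e1
        rw [← e1] at h0
        simp at h0
      have e4 : y'.1 = y.1 := by
        linear_combination (y.1 - 1) * e2 - (y'.1 - 1) * e1
      have m1 : y.2 ∈ Gam D (a + y.1 • (b - a)) := gam_iff.2 hy.2
      have m2 : y'.2 ∈ Gam D (a + y.1 • (b - a)) := e4 ▸ gam_iff.2 hy'.2
      have e5 := log_sub_const (ω := L) (ω' := fun _ => L y.2) (hg _ hy.1).2
        (hL.mono fun ξ hξ => (gam_iff.1 hξ).1) continuousOn_const (fun ξ hξ => by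
          obtain ⟨k1, k2⟩ := gam_iff.1 hξ
          rw [hLe ξ k1, hLe _ hy.2.1]
          exact mul_right_cancel₀ e3 ((gtop1_eq hb k1 k2).trans e1.symm)) m1 m2
      linear_combination e5)
  have hS := hN.image_of_continuousOn hU
  have hl : HasLogOn (fun u => u)
      ((fun y : ℂ × E n => (1 - dot a y.2) / (1 - dot b y.2)) '' N ∪ {1}) := by
    refine HasLogOn.union ⟨B, hB, ?_⟩ ((hasLogOn_const one_ne_zero _).congr fun u hu => hu)
      hS.isClosed isClosed_singleton (subsingleton_singleton.anti inter_subset_right).isPreconnected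
    rintro _ ⟨y, hy, rfl⟩
    rw [hBe y hy, hLe _ hy.2.1]
  have hc : Continuous fun s : ℂ => a + s • (b - a) := by fun_prop
  refine joined_of_frontier (G.isOpen.preimage hc) (by simpa [Sec] using ha)
    (jn (hS.union isCompact_singleton) (Or.inr rfl) hl) (disjoint_left.2 fun x hx hf => ?_)
  have h1 : a + x • (b - a) ∈ frontier D := hc.frontier_preimage_subset D hf
  obtain ⟨ξ, hξ⟩ := (hg _ h1).1
  obtain ⟨k1, k2⟩ := gam_iff.1 hξ
  refine hx _ (Or.inl ⟨(x, ξ), ⟨h1, k1, k2⟩, rfl⟩) ?_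
  linear_combination -gtop1_eq hb k1 k2

end Pool.Agent.MP_4baaa2_an.H94

/-!
Compact hulls.
-/

namespace Pool.Agent.MP_4baaa2_an.H94

open Set Metric Filter Topology Complex
open scoped ComplexConjugate
open Pool.Agent.Lib.PlaneTop

variable {n : ℕ} {D : Set (E n)}

theorem gtop1b_sec_mono {A B : Set (E n)} (h : A ⊆ B) (a v : E n) : Sec A a v ⊆ Sec B a v :=
  fun _ hs => h hs

/-- one path works for all pairs near a given pair -/
theorem gtop1b_local (G : Gen D) {p : E n × E n} (h1 : p.1 ∈ D) (h2 : p.2 ∈ D) :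
    ∃ t ∈ 𝓝 p, ∃ X', IsCompact X' ∧ X' ⊆ D ∧
      ∀ q ∈ t, JoinedIn (Sec X' q.1 (q.2 - q.1)) 0 1 := by
  obtain ⟨γ, hγ⟩ := G.joined p.1 h1 p.2 h2
  set F : (E n × E n) × unitInterval → E n := fun z => z.1.1 + γ z.2 • (z.1.2 - z.1.1) with hF
  have hFc : Continuous F := by
    have hγc : Continuous fun z : (E n × E n) × unitInterval => γ z.2 :=
      γ.continuous.comp continuous_snd
    exact (continuous_fst.comp continuous_fst).add
      (hγc.smul ((continuous_snd.comp continuous_fst).sub (continuous_fst.comp continuous_fst)))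
  have hev : ∀ᶠ q in 𝓝 p, ∀ s ∈ (univ : Set unitInterval), F (q, s) ∈ D := by
    refine isCompact_univ.eventually_forall_of_forall_eventually
      (P := fun q s => F (q, s) ∈ D) fun s _ => ?_
    exact hFc.continuousAt.preimage_mem_nhds (G.isOpen.mem_nhds (hγ s))
  obtain ⟨K, hKn, hKs, hKc⟩ := local_compact_nhds hev
  refine ⟨K, hKn, F '' (K ×ˢ univ), (hKc.prod isCompact_univ).image hFc, ?_, ?_⟩
  · rintro _ ⟨z, hz, rfl⟩
    exact hKs hz.1 z.2 (mem_univ _)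
  · intro q hq
    exact ⟨γ, fun s => ⟨(q, s), ⟨hq, mem_univ _⟩, rfl⟩⟩

/-- a compact subset of `D` lies in a compact subset whose sections join the same pairs -/
theorem Gen.lines (G : Gen D) {X : Set (E n)} (hX : IsCompact X) (hXD : X ⊆ D) :
    ∃ X', IsCompact X' ∧ X' ⊆ D ∧ ∀ a ∈ X, ∀ b ∈ X, JoinedIn (Sec X' a (b - a)) 0 1 := by
  have key : ∃ X', IsCompact X' ∧ X' ⊆ D ∧
      ∀ q ∈ X ×ˢ X, JoinedIn (Sec X' q.1 (q.2 - q.1)) 0 1 := by
    refine (hX.prod hX).induction_on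
      (p := fun S => ∃ X', IsCompact X' ∧ X' ⊆ D ∧
        ∀ q ∈ S, JoinedIn (Sec X' q.1 (q.2 - q.1)) 0 1) ?_ ?_ ?_ ?_
    · exact ⟨∅, isCompact_empty, empty_subset _, fun q hq => hq.elim⟩
    · rintro s t hst ⟨X', h1, h2, h3⟩
      exact ⟨X', h1, h2, fun q hq => h3 q (hst hq)⟩
    · rintro s t ⟨A, a1, a2, a3⟩ ⟨B, b1, b2, b3⟩
      refine ⟨A ∪ B, a1.union b1, union_subset a2 b2, fun q hq => ?_⟩
      rcases hq with hq | hq
      · exact (a3 q hq).mono (gtop1b_sec_mono subset_union_left _ _)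
      · exact (b3 q hq).mono (gtop1b_sec_mono subset_union_right _ _)
    · intro p hp
      obtain ⟨t, ht, h⟩ := gtop1b_local G (hXD hp.1) (hXD hp.2)
      exact ⟨t, mem_nhdsWithin_of_mem_nhds ht, h⟩
  obtain ⟨X', h1, h2, h3⟩ := key
  exact ⟨X', h1, h2, fun a ha b hb => h3 (a, b) ⟨ha, hb⟩⟩

/-- a compact subset of `D` lies in a compact path connected subset which contains `0` -/
theorem Pre.hull (G : Pre D) {X : Set (E n)} (hX : IsCompact X) (hXD : X ⊆ D) :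
    ∃ X', IsCompact X' ∧ IsPathConnected X' ∧ X ⊆ X' ∧ (0 : E n) ∈ X' ∧ X' ⊆ D := by
  have hD : IsPathConnected D :=
    G.isOpen.isConnected_iff_isPathConnected.1 ⟨⟨0, G.zero⟩, G.conn⟩
  refine hX.induction_on
    (p := fun S => ∃ X', IsCompact X' ∧ IsPathConnected X' ∧ S ⊆ X' ∧ (0 : E n) ∈ X' ∧ X' ⊆ D)
    ?_ ?_ ?_ ?_
  · exact ⟨{0}, isCompact_singleton, isPathConnected_singleton _, empty_subset _, rfl,
      singleton_subset_iff.2 G.zero⟩
  · rintro s t hst ⟨X', h1, h2, h3, h4, h5⟩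
    exact ⟨X', h1, h2, hst.trans h3, h4, h5⟩
  · rintro s t ⟨A, a1, a2, a3, a4, a5⟩ ⟨B, b1, b2, b3, b4, b5⟩
    exact ⟨A ∪ B, a1.union b1, a2.union b2 ⟨0, a4, b4⟩, union_subset_union a3 b3, Or.inl a4,
      union_subset a5 b5⟩
  · intro x hx
    obtain ⟨γ, hγ⟩ := hD.joinedIn 0 G.zero x (hXD hx)
    obtain ⟨r, hr, hball⟩ := nhds_basis_closedBall.mem_iff.1 (G.isOpen.mem_nhds (hXD hx))
    have hxb : x ∈ closedBall x r := mem_closedBall_self hr.le
    have hγp : IsPathConnected (range γ) := by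
      rw [← γ.extend_range]
      exact isPathConnected_range γ.continuous_extend
    refine ⟨closedBall x r, mem_nhdsWithin_of_mem_nhds (closedBall_mem_nhds x hr),
      range γ ∪ closedBall x r, (isCompact_range γ.continuous).union (isCompact_closedBall x r),
      hγp.union
        ((convex_closedBall x r).isPathConnected ⟨x, hxb⟩) ⟨x, γ.target_mem_range, hxb⟩,
      subset_union_right, Or.inl γ.source_mem_range, union_subset ?_ hball⟩
    rintro _ ⟨s, rfl⟩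
    exact hγ s

end Pool.Agent.MP_4baaa2_an.H94

/-!
The complement and the frontier are connected.
-/

namespace Pool.Agent.MP_4baaa2_an.H94

open Set Metric Filter Topology Complex
open scoped ComplexConjugate
open Pool.Agent.Lib.PlaneTop

variable {n : ℕ} {D : Set (E n)}

/-- the exterior of a ball is preconnected -/
theorem gtop2_ext (hn : 2 ≤ n) {R : ℝ} (hR : 0 < R) :
    IsPreconnected {x : E n | R ≤ ‖x‖} := by
  have hrank : 1 < Module.rank ℝ (E n) := by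
    rw [← Module.finrank_eq_rank, finrank_real_of_complex, finrank_euclideanSpace_fin]
    exact_mod_cast (by omega : 1 < 2 * n)
  have h0 := (isConnected_compl_singleton_of_one_lt_rank hrank (0 : E n)).isPreconnected
  have hc : ContinuousOn (fun x : E n => (max 1 (R / ‖x‖)) • x) ({0}ᶜ : Set (E n)) := by
    refine ContinuousOn.smul (ContinuousOn.sup continuousOn_const
      (continuousOn_const.div continuous_norm.continuousOn fun x hx => ?_)) continuousOn_id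
    simpa using hx
  convert h0.image _ hc using 1
  ext y
  simp only [mem_ofPred_eq, mem_image, mem_compl_iff, mem_singleton_iff]
  constructor
  · intro hy
    have hy0 : 0 < ‖y‖ := hR.trans_le hy
    refine ⟨y, norm_pos_iff.1 hy0, ?_⟩
    rw [max_eq_left ((div_le_one hy0).2 hy), one_smul]
  · rintro ⟨x, hx, rfl⟩
    have hx0 : 0 < ‖x‖ := norm_pos_iff.2 hx
    rw [norm_smul, Real.norm_of_nonneg (zero_le_one.trans (le_max_left _ _))]
    calc R = R / ‖x‖ * ‖x‖ := by field_simp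
      _ ≤ _ := mul_le_mul_of_nonneg_right (le_max_right _ _) hx0.le

/-- the complement of a bounded linearly convex set is preconnected -/
theorem compl_preconn (hn : 2 ≤ n) (hb : Bornology.IsBounded D)
    (hlc : ∀ z ∉ D, ∃ ξ ∈ Kd D, dot z ξ = 1) : IsPreconnected Dᶜ := by
  obtain ⟨R, hR, hD⟩ := hb.subset_ball_lt 0 0
  have hext := gtop2_ext hn hR
  have hsub : {x : E n | R ≤ ‖x‖} ⊆ Dᶜ := fun x hx hxD => by
    have := hD hxD
    rw [mem_ball_zero_iff] at this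
    exact absurd hx (not_le.2 this)
  let x₀ : E n := EuclideanSpace.single ⟨0, by omega⟩ (R : ℂ)
  have hx₀ : x₀ ∈ {x : E n | R ≤ ‖x‖} := by
    simp [x₀, abs_of_pos hR]
  refine isPreconnected_of_forall x₀ fun z hz => ?_
  obtain ⟨ξ, hξ, hzξ⟩ := hlc z hz
  obtain ⟨v, hv, hv0⟩ : ∃ v : E n, dot v ξ = 0 ∧ v ≠ 0 := by
    have := (dotL ξ).toLinearMap.ker_ne_bot_of_finrank_lt (by simp; omega)
    obtain ⟨v, hv, hv0⟩ := (Submodule.ne_bot_iff _).1 this
    exact ⟨v, by rw [dot_comm]; simpa using hv, hv0⟩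
  have hv1 : 0 < ‖v‖ := norm_pos_iff.2 hv0
  let L : Set (E n) := range fun s : ℝ => z + s • v
  have hL : IsPreconnected L := isPreconnected_range (by fun_prop)
  have hLD : L ⊆ Dᶜ := by
    rintro _ ⟨s, rfl⟩ hm
    exact hξ _ hm (by simp [hzξ, hv])
  have hm : z + ((R + ‖z‖) / ‖v‖) • v ∈ {x : E n | R ≤ ‖x‖} := by
    have h1 : ‖((R + ‖z‖) / ‖v‖) • v‖ = R + ‖z‖ := by
      rw [norm_smul, Real.norm_of_nonneg (by positivity), div_mul_cancel₀ _ hv1.ne']
    have h2 := norm_sub_le (z + ((R + ‖z‖) / ‖v‖) • v) z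
    rw [add_sub_cancel_left, h1] at h2
    simp only [mem_ofPred_eq]
    linarith
  exact ⟨{x : E n | R ≤ ‖x‖} ∪ L, union_subset hsub hLD, Or.inl hx₀, Or.inr ⟨0, by simp⟩,
    hext.union _ hm ⟨_, rfl⟩ hL⟩

/-- Unicoherence. -/
theorem frontier_preconn {V : Type*} [NormedAddCommGroup V] [NormedSpace ℝ V] {D : Set V}
    (hD : IsOpen D) (h1 : IsPreconnected D) (h2 : IsPreconnected Dᶜ) :
    IsPreconnected (frontier D) := by
  classical
  rw [isPreconnected_closed_iff]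
  intro t t' ht ht' hcov ⟨a, haF, hat⟩ ⟨b, hbF, hbt⟩
  by_contra hne
  have hdis : Disjoint (frontier D ∩ t) (frontier D ∩ t') := by
    rw [Set.disjoint_left]
    rintro x ⟨hx, hxt⟩ ⟨-, hxt'⟩
    exact hne ⟨x, hx, hxt, hxt'⟩
  obtain ⟨φ, hφ0, hφ1, -⟩ := exists_continuous_zero_one_of_isClosed
    (isClosed_frontier.inter ht) (isClosed_frontier.inter ht') hdis
  let p : V → ℂ := fun x => Real.pi * I * φ x
  have hp : Continuous p := by fun_prop
  have hfr : ∀ x ∈ frontier D, exp (p x) = exp (-p x) := by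
    intro x hx
    rcases hcov hx with h | h
    · have : φ x = 0 := hφ0 ⟨hx, h⟩
      simp [p, this]
    · have : φ x = 1 := hφ1 ⟨hx, h⟩
      simp [p, this, exp_neg, exp_pi_mul_I]
  let g : V → ℂ := fun x => if x ∈ D then exp (p x) else exp (-p x)
  have hg : Continuous g := Continuous.if hfr (by fun_prop) (by fun_prop)
  have hg0 : ∀ x ∈ (univ : Set V), g x ≠ 0 := fun x _ => by
    simp only [g]
    split_ifs <;> exact exp_ne_zero _
  obtain ⟨l, hl, hle⟩ := hasLogOn_of_convex convex_univ hg.continuousOn hg0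
  have hnD : ∀ x ∈ frontier D, x ∉ D := fun x hx hxD => by
    rw [hD.frontier_eq] at hx
    exact hx.2 hxD
  have e1 := log_sub_const (ω := l) (ω' := p) h1.closure (hl.mono (subset_univ _))
    hp.continuousOn (fun x hx => by
      rw [hle x (mem_univ _)]
      by_cases hxD : x ∈ D
      · simp [g, hxD]
      · have : x ∈ frontier D := by rw [hD.frontier_eq]; exact ⟨hx, hxD⟩
        simp only [g, hxD, if_false]
        exact (hfr x this).symm) (frontier_subset_closure haF) (frontier_subset_closure hbF)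
  have e2 := log_sub_const (ω := l) (ω' := fun x => -p x) h2 (hl.mono (subset_univ _))
    hp.neg.continuousOn (fun x hx => by
      rw [hle x (mem_univ _)]
      have hxD : x ∉ D := hx
      simp [g, hxD]) (hnD a haF) (hnD b hbF)
  have ha0 : φ a = 0 := hφ0 ⟨haF, hat⟩
  have hb1 : φ b = 1 := hφ1 ⟨hbF, hbt⟩
  simp only [p, ha0, hb1] at e1 e2
  have h4 : (Real.pi : ℂ) * I = 0 := by
    push_cast at e1 e2
    linear_combination (e1 - e2) / 2
  simp [Real.pi_ne_zero] at h4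

end Pool.Agent.MP_4baaa2_an.H94

/-!
The dual complement is connected; logarithms.
-/

namespace Pool.Agent.MP_4baaa2_an.H94

open Set Metric Filter Topology Complex
open scoped ComplexConjugate
open Pool.Agent.Lib.PlaneTop

variable {n : ℕ} {D : Set (E n)}

/-- a closed proper subset whose frontier lies in a preconnected subset is preconnected -/
theorem gtop3_of_frontier {X : Type*} [TopologicalSpace X] [PreconnectedSpace X] {K N : Set X}
    (hK : IsClosed K) (hne : K ≠ univ) (hN : IsPreconnected N) (h1 : frontier K ⊆ N)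
    (h2 : N ⊆ K) : IsPreconnected K := by
  have key : ∀ u v : Set X, IsClosed u → IsClosed v → K ⊆ u ∪ v → K ∩ (u ∩ v) = ∅ → N ⊆ u →
      K ⊆ u := by
    intro u v hu hv hc hd hNu
    have e : K ∩ v = interior K ∩ uᶜ := by
      ext x
      constructor
      · rintro ⟨hx, hxv⟩
        have hxu : x ∉ u := fun h => (hd ▸ (⟨hx, h, hxv⟩ : x ∈ K ∩ (u ∩ v)) : x ∈ (∅ : Set X))
        refine ⟨?_, hxu⟩
        by_contra hi
        exact hxu (hNu (h1 ⟨subset_closure hx, hi⟩))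
      · rintro ⟨hx, hxu⟩
        exact ⟨interior_subset hx, (hc (interior_subset hx)).resolve_left hxu⟩
    have hcl : IsClopen (K ∩ v) :=
      ⟨hK.inter hv, by rw [e]; exact isOpen_interior.inter hu.isOpen_compl⟩
    rcases isClopen_iff.1 hcl with h | h
    · intro x hx
      exact (hc hx).resolve_right fun hxv => (h ▸ (⟨hx, hxv⟩ : x ∈ K ∩ v) : x ∈ (∅ : Set X))
    · exact absurd (eq_univ_of_subset inter_subset_left h) hne
  rw [isPreconnected_iff_subset_of_disjoint_closed]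
  intro u v hu hv hc hd
  have hd' : N ∩ (u ∩ v) = ∅ := subset_eq_empty (inter_subset_inter_left _ h2) hd
  rcases isPreconnected_iff_subset_of_disjoint_closed.1 hN u v hu hv (h2.trans hc) hd' with h | h
  · exact Or.inl (key u v hu hv hc hd h)
  · exact Or.inr (key v u hv hu (by rwa [union_comm]) (by rwa [inter_comm v u]) h)

/-- the union of all sets `Gam D z` over the frontier is preconnected -/
theorem gtop3_union (G : Pre D) (hf : IsPreconnected (frontier D))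
    (hg : ∀ z ∈ frontier D, IsConnected (Gam D z)) :
    IsPreconnected {ξ | ∃ z ∈ frontier D, ξ ∈ Gam D z} := by
  have hfc : IsCompact (frontier D) :=
    G.bdd.isCompact_closure.of_isClosed_subset isClosed_frontier frontier_subset_closure
  have hcl : ∀ u : Set (E n), IsClosed u →
      IsClosed {z | z ∈ frontier D ∧ ∃ ξ ∈ u, ξ ∈ Gam D z} := by
    intro u hu
    have h1 : IsCompact ((frontier D ×ˢ (Kd D ∩ u)) ∩ {p : E n × E n | dot p.1 p.2 = 1}) :=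
      (hfc.prod ((isCompact_Kd G.isOpen G.zero).inter_right hu)).inter_right
        (isClosed_eq continuous_dot continuous_const)
    have h2 := (h1.image continuous_fst).isClosed
    convert h2 using 1
    ext z
    constructor
    · rintro ⟨hz, ξ, hξ, hΓ⟩
      exact ⟨(z, ξ), ⟨⟨hz, (gam_iff.1 hΓ).1, hξ⟩, (gam_iff.1 hΓ).2⟩, rfl⟩
    · rintro ⟨⟨z, ξ⟩, ⟨⟨hz, hK, hξ⟩, h1⟩, rfl⟩
      exact ⟨hz, ξ, hξ, gam_iff.2 ⟨hK, h1⟩⟩
  rw [isPreconnected_iff_subset_of_disjoint_closed]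
  intro u v hu hv hc hd
  have hno : ∀ z ∈ frontier D, ∀ ξ ∈ Gam D z, ξ ∈ u → ξ ∈ v → False := fun z hz ξ hξ h1 h2 =>
    (hd ▸ (⟨⟨z, hz, hξ⟩, h1, h2⟩ : ξ ∈ {ξ | ∃ z ∈ frontier D, ξ ∈ Gam D z} ∩ (u ∩ v)) :
      ξ ∈ (∅ : Set (E n)))
  have hone : ∀ z ∈ frontier D, Gam D z ⊆ u ∨ Gam D z ⊆ v := fun z hz =>
    isPreconnected_iff_subset_of_disjoint_closed.1 (hg z hz).isPreconnected u v hu hv
      (fun ξ hξ => hc ⟨z, hz, hξ⟩)
      (eq_empty_of_forall_notMem fun ξ hξ => hno z hz ξ hξ.1 hξ.2.1 hξ.2.2)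
  have hcov : frontier D ⊆ {z | z ∈ frontier D ∧ ∃ ξ ∈ u, ξ ∈ Gam D z} ∪
      {z | z ∈ frontier D ∧ ∃ ξ ∈ v, ξ ∈ Gam D z} := by
    intro z hz
    obtain ⟨ξ, hξ⟩ := (hg z hz).nonempty
    rcases hc ⟨z, hz, hξ⟩ with h | h
    · exact Or.inl ⟨hz, ξ, h, hξ⟩
    · exact Or.inr ⟨hz, ξ, h, hξ⟩
  have hdis : frontier D ∩ ({z | z ∈ frontier D ∧ ∃ ξ ∈ u, ξ ∈ Gam D z} ∩
      {z | z ∈ frontier D ∧ ∃ ξ ∈ v, ξ ∈ Gam D z}) = ∅ := by
    refine eq_empty_of_forall_notMem ?_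
    rintro z ⟨hz, ⟨-, ξ, hξu, hξ⟩, ⟨-, ξ', hξv, hξ'⟩⟩
    rcases hone z hz with h | h
    · exact hno z hz ξ' hξ' (h hξ') hξv
    · exact hno z hz ξ hξ hξu (h hξ)
  rcases isPreconnected_iff_subset_of_disjoint_closed.1 hf _ _ (hcl u hu) (hcl v hv) hcov hdis
    with h | h
  · left
    rintro ξ ⟨z, hz, hξ⟩
    obtain ⟨-, ξ', h1, h2⟩ := h hz
    rcases hone z hz with h3 | h3
    · exact h3 hξ
    · exact (hno z hz ξ' h2 h1 (h3 h2)).elim
  · right
    rintro ξ ⟨z, hz, hξ⟩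
    obtain ⟨-, ξ', h1, h2⟩ := h hz
    rcases hone z hz with h3 | h3
    · exact (hno z hz ξ' h2 (h3 h2) h1).elim
    · exact h3 hξ

/-- the dual complement is preconnected -/
theorem Kd_preconn (hn : 2 ≤ n) (G : Pre D) (hf : IsPreconnected (frontier D))
    (hg : ∀ z ∈ frontier D, IsConnected (Gam D z)) : IsPreconnected (Kd D) := by
  refine gtop3_of_frontier (isClosed_Kd G.isOpen)
    (ne_univ_of_bdd hn (isCompact_Kd G.isOpen G.zero).isBounded) (gtop3_union G hf hg) ?_ ?_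
  · intro ξ hξ
    have hK : ξ ∈ Kd D := (isClosed_Kd G.isOpen).frontier_subset hξ
    obtain ⟨z, hz, h1⟩ : ∃ z ∈ closure D, dot z ξ = 1 := by
      by_contra h
      push Not at h
      exact hξ.2 (mem_interior_Kd G.bdd h)
    refine ⟨z, ⟨hz, fun hi => hK z (interior_subset hi) h1⟩, gam_iff.2 ⟨hK, h1⟩⟩
  · rintro ξ ⟨z, -, hξ⟩
    exact (gam_iff.1 hξ).1

/-- the functions `1 - ⟨z, ξ⟩` have logarithms on `D` -/
theorem gen_plog (G : Pre D) (hK : IsPreconnected (Kd D)) :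
    ∀ ξ ∈ Kd D, HasLogOn (fun z => 1 - dot z ξ) D := by
  intro ξ hξ
  refine log_of_compact G.isOpen G.conn fun X hX hc => ?_
  have h0 : (0 : E n) ∈ Kd D := fun z _ => by simp
  have key := hK.induction₂'
    (fun a b => HasLogOn (fun z => 1 - dot z a) X → HasLogOn (fun z => 1 - dot z b) X)
    (fun a ha => ?_) (fun _ _ _ _ _ _ h1 h2 h => h2 (h1 h)) h0 hξ
  · exact key ((hasLogOn_const one_ne_zero X).congr fun z _ => by simp)
  · have hne : ∀ z ∈ X, dot z a ≠ 1 := fun z hz => ha z (hX hz)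
    have hne' : ∀ z ∈ X, 1 - dot z a ≠ 0 := fun z hz => sub_ne_zero.2 (hne z hz).symm
    filter_upwards [mem_nhdsWithin_of_mem_nhds (geoC_ratio hc hne), self_mem_nhdsWithin]
      with b hb hbK
    have hl : HasLogOn (fun z => (1 - dot z b) / (1 - dot z a)) X :=
      hasLogOn_slit (ContinuousOn.div (by fun_prop) (by fun_prop) hne')
        fun z hz => geoC_slit (hb z hz)
    refine ⟨fun h => (h.mul hl).congr fun z hz => ?_, fun h => (h.div hl).congr fun z hz => ?_⟩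
    · rw [mul_div_cancel₀ _ (hne' z hz)]
    · have hb' : 1 - dot z b ≠ 0 := sub_ne_zero.2 (hbK z (hX hz)).symm
      rw [div_div_cancel₀ hb']

theorem gen_of (hn : 2 ≤ n) (hopen : IsOpen D) (hconn : IsConnected D)
    (hbdd : Bornology.IsBounded D) (hzero : (0 : E n) ∈ D) (hlc : LinConvex D)
    (hg : ∀ z ∈ frontier D, IsConnected (Gam D z)) : Gen D := by
  have G : Pre D := ⟨hopen, hconn.isPreconnected, hbdd, hzero, ne_univ_of_bdd hn hbdd⟩
  have hl := lc_kd hlc hzero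
  exact ⟨G, hn, hl, gen_joined G hg, gen_plog G (Kd_preconn hn G
    (frontier_preconn hopen G.conn (compl_preconn hn hbdd hl)) hg)⟩

end Pool.Agent.MP_4baaa2_an.H94

/-!
Logarithms on compact sets.
-/

namespace Pool.Agent.MP_4baaa2_an.H94

open Set Metric Filter Topology Complex
open scoped ComplexConjugate
open Pool.Agent.Lib.PlaneTop

variable {n : ℕ} {D : Set (E n)}

/-- Hint: `m = min ‖1 - ⟨z, ξ⟩‖ > 0` on `X ×ˢ Kd D` (as in `Geo.lev`), `‖z‖ ≤ R` on `X`,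
`η = m / (2 R)`; the ratio `(1 - ⟨z, ξ'⟩) / (1 - ⟨z, ξ⟩)` is within `1 / 2` of `1`. -/
theorem Gen.log_near (G : Gen D) {X : Set (E n)} (hX : IsCompact X) (hXD : X ⊆ D) :
    ∃ η > 0, ∀ ξ ∈ Kd D, ∀ ξ' : E n, ‖ξ' - ξ‖ ≤ η → HasLogOn (fun z => 1 - dot z ξ') X := by
  have hK : IsCompact (X ×ˢ Kd D) := hX.prod (isCompact_Kd G.isOpen G.zero)
  have hc : ContinuousOn (fun x : E n × E n => ‖1 - dot x.1 x.2‖) (X ×ˢ Kd D) := by fun_prop
  obtain ⟨m, hm, hm2⟩ := hK.exists_forall_le' hc (a := 0) fun x hx =>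
    norm_pos_iff.2 (sub_ne_zero.2 (hx.2 x.1 (hXD hx.1)).symm)
  obtain ⟨R, hR, hR2⟩ := hX.isBounded.exists_pos_norm_le
  refine ⟨m / (2 * R), by positivity, fun ξ hξ ξ' hξ' => ?_⟩
  have hne : ∀ z ∈ X, 1 - dot z ξ ≠ 0 := fun z hz => sub_ne_zero.2 (hξ z (hXD hz)).symm
  have h1 : HasLogOn (fun z => (1 - dot z ξ') / (1 - dot z ξ)) X := by
    refine hasLogOn_slit (ContinuousOn.div (by fun_prop) (by fun_prop) hne) fun z hz => ?_
    have e : (1 - dot z ξ') / (1 - dot z ξ) = 1 + -(dot z (ξ' - ξ)) / (1 - dot z ξ) := by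
      rw [dot_sub_right]
      field_simp [hne z hz]
      ring
    rw [e]
    refine mem_slitPlane_of_norm_lt_one ?_
    have h2 : m ≤ ‖1 - dot z ξ‖ := hm2 (z, ξ) ⟨hz, hξ⟩
    have h3 : ‖dot z (ξ' - ξ)‖ ≤ R * (m / (2 * R)) :=
      (norm_dot_le _ _).trans (mul_le_mul (hR2 z hz) hξ' (norm_nonneg _) hR.le)
    have h4 : R * (m / (2 * R)) = m / 2 := by field_simp
    rw [norm_div, norm_neg, div_lt_one (norm_pos_iff.2 (hne z hz))]
    linarith
  refine (h1.mul ((G.plog ξ hξ).mono hXD)).congr fun z hz => ?_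
  exact (div_mul_cancel₀ _ (hne z hz)).symm

/-- Hint: `X ⊆ X'` (`JoinedIn.source_mem`). `L = l₁ - l₂` is a logarithm of
`U z = (1 - ⟨z, ξ₁⟩) / (1 - ⟨z, ξ₂⟩)` on `X'`. If `U a = U b = c`, the affine function
`s ↦ (1 - ⟨a + s (b - a), ξ₁⟩) - c (1 - ⟨a + s (b - a), ξ₂⟩)` vanishes at `0` and `1`, hence
identically, so `U = c` along the path and `L a = L b` (`log_sub_const`). Then `desc`. -/
theorem fib_log {X X' : Set (E n)} (hX : IsCompact X)
    (hl : ∀ a ∈ X, ∀ b ∈ X, JoinedIn (Sec X' a (b - a)) 0 1) {ξ₁ ξ₂ : E n}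
    (h1 : HasLogOn (fun z => 1 - dot z ξ₁) X') (h2 : HasLogOn (fun z => 1 - dot z ξ₂) X') :
    HasLogOn (fun u => u) ((fun z => (1 - dot z ξ₁) / (1 - dot z ξ₂)) '' X) := by
  have hXX : X ⊆ X' := fun a ha => by
    have := (hl a ha a ha).source_mem
    simpa [Sec] using this
  have hne : ∀ z ∈ X', 1 - dot z ξ₂ ≠ 0 := fun z hz => h2.ne_zero hz
  obtain ⟨L, hL, he0⟩ := h1.div h2
  have he : ∀ x ∈ X', exp (L x) = (1 - dot x ξ₁) / (1 - dot x ξ₂) := he0
  have hU : ContinuousOn (fun z : E n => (1 - dot z ξ₁) / (1 - dot z ξ₂)) X :=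
    ContinuousOn.div (by fun_prop) (by fun_prop) fun z hz => hne z (hXX hz)
  have key : ∀ a ∈ X, ∀ b ∈ X, (1 - dot a ξ₁) / (1 - dot a ξ₂) = (1 - dot b ξ₁) / (1 - dot b ξ₂) →
      L a = L b := by
    intro a ha b hb hab
    obtain ⟨γ, hγ⟩ := hl a ha b hb
    set c := (1 - dot b ξ₁) / (1 - dot b ξ₂) with hc
    have ea : 1 - dot a ξ₁ = c * (1 - dot a ξ₂) := (div_eq_iff (hne a (hXX ha))).1 hab
    have eb : 1 - dot b ξ₁ = c * (1 - dot b ξ₂) := (div_eq_iff (hne b (hXX hb))).1 hc.symm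
    have hmem : ∀ t, a + γ t • (b - a) ∈ X' := fun t => hγ t
    have hcont : Continuous fun t => a + γ t • (b - a) := by fun_prop
    have hval : ∀ t, exp (L (a + γ t • (b - a))) = exp (L a) := fun t => by
      rw [he _ (hmem t), he a (hXX ha), hab, div_eq_iff (hne _ (hmem t))]
      simp only [dot_add_left, dot_smul_left, dot_sub_left]
      linear_combination (1 - γ t) * ea + γ t * eb
    have h3 := log_sub_const (K := univ) (ω := fun t => L (a + γ t • (b - a)))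
      (ω' := fun _ => L a) isPreconnected_univ
      (hL.comp hcont.continuousOn fun t _ => hmem t) continuousOn_const (fun t _ => hval t)
      (mem_univ 0) (mem_univ 1)
    simp only [γ.source, γ.target, zero_smul, add_zero, one_smul, add_sub_cancel] at h3
    linear_combination h3
  obtain ⟨B, hB, hB2⟩ := desc hX hU (hL.mono hXX) key
  refine ⟨B, hB, ?_⟩
  rintro _ ⟨z, hz, rfl⟩
  rw [hB2 z hz, he z (hXX hz)]

end Pool.Agent.MP_4baaa2_an.H94

/-!
Semicontinuity of the gradients and descent directions.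
-/

namespace Pool.Agent.MP_4baaa2_an.H94

open Set Metric Filter Topology Complex
open scoped ComplexConjugate
open Pool.Agent.Lib.PlaneTop

variable {n : ℕ} {D : Set (E n)} {p q : E n} {h : ℂ → E n}

/-- Hint: choose maximisers `h i`; `Pre.adm_limit`, `Pre.F_tendsto`, `Pre.U0_cont` (the limit is a
maximiser), `cls2_O_tendsto` and `cls2_comp` (see the proof of `Pre.O_bounds`); `F h₀ q ≠ 0` by
`Pre.U0_pos`, `O ≠ 0` by `F_spec`. -/
theorem Pre.sg_lim (G : Pre D) (hq : q ∈ D) (hq0 : q ≠ 0) {ι : Type*} (𝒰 : Ultrafilter ι)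
    {x σ : ι → E n} (hx : Tendsto x 𝒰 (𝓝 q)) (hσ : ∀ᶠ i in (𝒰 : Filter ι), σ i ∈ Sg D (x i)) :
    ∃ σ₀ ∈ Sg D q, Tendsto σ 𝒰 (𝓝 σ₀) := by
  have h1 : ∀ i, ∃ k : ℂ → E n, σ i ∈ Sg D (x i) → Mx D k (x i) ∧ sg k (x i) = σ i := by
    intro i
    by_cases hi : σ i ∈ Sg D (x i)
    · obtain ⟨k, hk⟩ := hi
      exact ⟨k, fun _ => hk⟩
    · exact ⟨0, fun h => absurd h hi⟩
  choose k hk using h1
  have hh : ∀ᶠ i in (𝒰 : Filter ι), Mx D (k i) (x i) ∧ sg (k i) (x i) = σ i :=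
    hσ.mono fun i hi => hk i hi
  have ha : ∀ᶠ i in (𝒰 : Filter ι), Adm D (k i) := hh.mono fun i hi => hi.1.1
  obtain ⟨h₀, h0, hlim⟩ := G.adm_limit 𝒰 ha
  have hs := h0.F_spec hq
  have hF := G.F_tendsto ha h0 hlim hx hq
  have hU : Tendsto (fun i => U0 D (x i)) 𝒰 (𝓝 (U0 D q)) :=
    (G.U0_cont.continuousAt (G.isOpen.mem_nhds hq)).tendsto.comp hx
  have hm : ‖F h₀ q‖ = U0 D q :=
    tendsto_nhds_unique (hF.norm.congr' (hh.mono fun i hi => hi.1.2)) hU
  have hF0 : F h₀ q ≠ 0 := norm_pos_iff.1 (hm ▸ G.U0_pos hq hq0)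
  have hO := cls2_comp (cls2_O_diff h0.1 q hs.1).continuousOn
    (cls2_O_tendsto ha h0.1 hlim hx hF hs.1) hF hs.1
  have hk' := cls2_comp h0.1.continuousOn hlim hF hs.1
  refine ⟨sg h₀ q, ⟨h₀, ⟨h0, hm⟩, rfl⟩, Tendsto.congr' (hh.mono fun i hi => hi.2) ?_⟩
  exact ((hF.mul hO).inv₀ (mul_ne_zero hF0 (hs.2.2 _ hs.1))).smul hk'

/-- Hint: `isCompact_iff_ultrafilter_le_nhds` and `sg_lim` with `x` constant, `σ = id`. -/
theorem Pre.Sg_compact (G : Pre D) (hq : q ∈ D) (hq0 : q ≠ 0) : IsCompact (Sg D q) :=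
  isCompact_iff_ultrafilter_le_nhds.2 fun f hf =>
    G.sg_lim hq hq0 f (x := fun _ => q) (σ := id) tendsto_const_nhds (le_principal_iff.1 hf)

theorem Pre.Sg_ne (G : Pre D) (hq : q ∈ D) : (Sg D q).Nonempty :=
  (G.mx_exists hq).elim fun h hh => ⟨_, h, hh, rfl⟩

/-- Hint: compactness of `Sg` (`IsCompact.eventually_forall_of_forall_eventually`). -/
theorem Pre.Tg_open (G : Pre D) (hq : q ∈ D) (hq0 : q ≠ 0) : IsOpen (Tg D q) := by
  refine isOpen_iff_mem_nhds.2 fun v hv => ?_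
  refine (G.Sg_compact hq hq0).eventually_forall_of_forall_eventually
    (P := fun w σ => (dot σ w).re < 0) fun σ hσ => ?_
  have hc : Continuous fun z : E n × E n => (dot z.2 z.1).re := by fun_prop
  exact hc.continuousAt.eventually (gt_mem_nhds (hv σ hσ))

theorem Tg_convex (D : Set (E n)) (q : E n) : Convex ℝ (Tg D q) := by
  intro v hv w hw a b ha hb hab σ hσ
  have := convex_Iio (𝕜 := ℝ) (0 : ℝ) (hv σ hσ) (hw σ hσ) ha hb hab
  simpa using this

theorem Tg_smul {v : E n} (hv : v ∈ Tg D q) {c : ℝ} (hc : 0 < c) : c • v ∈ Tg D q := by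
  intro σ hσ
  have := mul_neg_of_pos_of_neg hc (hv σ hσ)
  simpa using this

/-- Hint: from `sg_lim` by contradiction (`Filter.mem_iff_ultrafilter` or an ultrafilter below
`𝓝 (q, v) ⊓ 𝓟 bad`): first `∃ c > 0, ∀ σ ∈ Sg D q, re ⟨σ, v⟩ ≤ -2 c` by compactness. -/
theorem Pre.Sg_usc (G : Pre D) (hq : q ∈ D) (hq0 : q ≠ 0) {v : E n} (hv : v ∈ Tg D q) :
    ∃ c > 0, ∀ᶠ x : E n × E n in 𝓝 (q, v), ∀ σ ∈ Sg D x.1, (dot σ x.2).re ≤ -c := by
  have hc : Continuous fun σ : E n => (dot σ v).re := by fun_prop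
  obtain ⟨σm, hσm, hmax⟩ := (G.Sg_compact hq hq0).exists_isMaxOn (G.Sg_ne hq) hc.continuousOn
  have hneg := hv σm hσm
  refine ⟨-(dot σm v).re / 2, by linarith, ?_⟩
  rw [Filter.Eventually, Filter.mem_iff_ultrafilter]
  intro 𝒰 h𝒰
  by_contra hbad
  have h1 : ∀ x : E n × E n, ∃ σ : E n,
      ¬ (∀ σ ∈ Sg D x.1, (dot σ x.2).re ≤ -(-(dot σm v).re / 2)) →
        σ ∈ Sg D x.1 ∧ -(-(dot σm v).re / 2) < (dot σ x.2).re := by
    intro x
    by_cases hx : ∀ σ ∈ Sg D x.1, (dot σ x.2).re ≤ -(-(dot σm v).re / 2)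
    · exact ⟨0, fun h => absurd hx h⟩
    · have hx' := hx
      push Not at hx'
      obtain ⟨σ, hσ⟩ := hx'
      exact ⟨σ, fun _ => hσ⟩
  choose σ hσ using h1
  have h2 : ∀ᶠ x in (𝒰 : Filter (E n × E n)),
      σ x ∈ Sg D x.1 ∧ -(-(dot σm v).re / 2) < (dot (σ x) x.2).re :=
    Filter.mem_of_superset (Ultrafilter.compl_mem_iff_notMem.2 hbad) fun x hx => hσ x hx
  obtain ⟨σ₀, hσ₀, hlim⟩ := G.sg_lim hq hq0 𝒰 (x := Prod.fst) (σ := σ)
    ((continuous_fst.tendsto (q, v)).mono_left h𝒰) (h2.mono fun x hx => hx.1)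
  have h3 : Tendsto (fun x : E n × E n => (dot (σ x) x.2).re) 𝒰 (𝓝 (dot σ₀ v).re) :=
    (continuous_re.tendsto _).comp
      (tendsto_dot hlim ((continuous_snd.tendsto (q, v)).mono_left h𝒰))
  have h4 := ge_of_tendsto h3 (h2.mono fun x hx => hx.2.le)
  have h5 : (dot σ₀ v).re ≤ (dot σm v).re := hmax hσ₀
  linarith

/-- Hint: let `x = y + t d`, `h` a maximiser at `x`. `level1_taylor` at the point `x` (with
`ball x δ₀ ⊆ D`, `σ1 = U0 D q / 2`, uniformly for `x` near `q`) gives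
`log ‖F h y‖ ≥ log (U0 x) - t re ⟨sg h x, d⟩ - C t² ‖d‖² > log (U0 x)` by `Sg_usc` for small `t`; and
`‖F h y‖ ≤ U0 y` (`Pre.le_U0`). -/
theorem Pre.danskin (G : Pre D) (hq : q ∈ D) (hq0 : q ≠ 0) {v : E n} (hv : v ∈ Tg D q) :
    ∃ ρ > 0, ∀ y, ‖y - q‖ < ρ → ∀ d, ‖d - v‖ < ρ → ∀ t ∈ Ioo (0 : ℝ) ρ,
      y + t • d ∈ D ∧ U0 D (y + t • d) < U0 D y := by
  obtain ⟨c, hc, husc⟩ := G.Sg_usc hq hq0 hv
  obtain ⟨δ, hδ, hball⟩ := Metric.isOpen_iff.1 G.isOpen q hq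
  have hU := G.U0_pos hq hq0
  set σ1 := U0 D q / 2 with hσ1
  have hσ : 0 < σ1 := half_pos hU
  set C := 4 / ((δ / 2) ^ 2 * σ1 ^ 2) + 4 / ((δ / 2) ^ 2 * σ1) with hC
  have t1 : Tendsto (fun w : E n × E n × ℝ => w.1 + w.2.2 • w.2.1) (𝓝 (q, v, 0)) (𝓝 q) :=
    Continuous.tendsto' (by fun_prop) _ _ (by simp)
  have t2 : Tendsto (fun w : E n × E n × ℝ => w.2.1) (𝓝 (q, v, 0)) (𝓝 v) :=
    Continuous.tendsto' (by fun_prop) _ _ rfl
  have t3 : Tendsto (fun w : E n × E n × ℝ => ‖w.2.2 • w.2.1‖) (𝓝 (q, v, 0)) (𝓝 0) :=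
    Continuous.tendsto' (by fun_prop) _ _ (by simp)
  have t4 : Tendsto (fun w : E n × E n × ℝ => C * w.2.2 * ‖w.2.1‖ ^ 2) (𝓝 (q, v, 0)) (𝓝 0) :=
    Continuous.tendsto' (by fun_prop) _ _ (by simp)
  have e1 := t1.eventually (ball_mem_nhds q (half_pos hδ))
  have e2 := (t1.prodMk_nhds t2).eventually husc
  have e3 := ((G.U0_cont.continuousAt (G.isOpen.mem_nhds hq)).tendsto.comp t1).eventually
    (lt_mem_nhds (half_lt_self hU))
  have e4 := t3.eventually (gt_mem_nhds (half_pos hδ))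
  have e5 := t3.eventually (gt_mem_nhds (show 0 < σ1 * (δ / 2) / 4 by positivity))
  have e6 := t4.eventually (gt_mem_nhds hc)
  obtain ⟨ρ, hρ, hall⟩ := Metric.eventually_nhds_iff.1
    (e1.and (e2.and (e3.and (e4.and (e5.and e6)))))
  refine ⟨ρ, hρ, fun y hy d hd t ht => ?_⟩
  obtain ⟨f1, f2, f3, f4, f5, f6⟩ := hall (y := (y, d, t)) (by
    rw [Prod.dist_eq, Prod.dist_eq, max_lt_iff, max_lt_iff, dist_eq_norm, dist_eq_norm,
      Real.dist_eq, sub_zero, abs_of_pos ht.1]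
    exact ⟨hy, hd, ht.2⟩)
  dsimp only [Function.comp] at f1 f2 f3 f4 f5 f6
  have hb : ball (y + t • d) (δ / 2) ⊆ D := fun z hz => hball (by
    have := dist_triangle z (y + t • d) q
    rw [mem_ball] at hz ⊢
    linarith)
  have hx : y + t • d ∈ D := hb (mem_ball_self (half_pos hδ))
  obtain ⟨k, hk⟩ := G.mx_exists hx
  have hyx : y - (y + t • d) = -(t • d) := by abel
  have hy' : y ∈ ball (y + t • d) (δ / 2) := by
    rwa [mem_ball, dist_eq_norm, hyx, norm_neg]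
  obtain ⟨g1, g2⟩ := level1_taylor G.isOpen hk.1 (half_pos hδ) hσ hb (hk.2 ▸ f3.le) hy'
    (by rw [hyx, norm_neg]; exact f5.le)
  have g3 := f2 _ ⟨k, hk, rfl⟩
  have g4 : (dot (cc k (y + t • d) • k (F k (y + t • d))) (y - (y + t • d))).re =
      -(t * (dot (sg k (y + t • d)) d).re) := by
    rw [hyx, dot_neg_right, dot_rsmul_right, neg_re, re_ofReal_mul, sg]
  rw [g4, hyx, norm_neg, norm_smul, Real.norm_eq_abs, abs_of_pos ht.1, ← hC] at g2
  have g5 := (abs_le.1 g2).1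
  have g6 : Real.log ‖F k (y + t • d)‖ < Real.log ‖F k y‖ := by
    nlinarith [mul_lt_mul_of_pos_left f6 ht.1, mul_le_mul_of_nonneg_left g3 ht.1.le]
  refine ⟨hx, ?_⟩
  rw [← hk.2]
  refine lt_of_lt_of_le ?_ (G.le_U0 hk.1 (hb hy'))
  by_contra hle
  exact g6.not_ge (Real.log_le_log (lt_of_lt_of_le (half_pos hσ) g1) (not_lt.1 hle))

end Pool.Agent.MP_4baaa2_an.H94

/-!
Separation.
-/

namespace Pool.Agent.MP_4baaa2_an.H94

open Set Metric Filter Topology Complex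
open scoped ComplexConjugate
open Pool.Agent.Lib.PlaneTop

variable {n : ℕ} {D : Set (E n)} {p q : E n} {h : ℂ → E n}

/-- a compact convex set of complex numbers without `0` lies in an open half plane.
Hint: `geometric_hahn_banach_point_closed` over `ℝ`, `d = f 1 - I * f I` up to sign; or take the point
`a` of least norm and `d = - conj a`. -/
theorem half_plane {S : Set ℂ} (hS : IsCompact S) (hc : Convex ℝ S) (h0 : (0 : ℂ) ∉ S) :
    ∃ d : ℂ, ∀ w ∈ S, (d * w).re < 0 := by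
  obtain ⟨f, u, h1, h2⟩ := RCLike.geometric_hahn_banach_closed_point (𝕜 := ℂ) hc hS.isClosed h0
  refine ⟨f 1, fun w hw => ?_⟩
  have e : f w = f 1 * w := by
    rw [mul_comm, ← smul_eq_mul, ← map_smul, smul_eq_mul, mul_one]
  have h3 := h1 w hw
  rw [map_zero, map_zero] at h2
  rw [e] at h3
  exact h3.trans h2

/-- Hint: `half_plane` for the image of `Sg D q` under `σ ↦ ⟨σ, q - a⟩`. If `⟨sg h q, q - a⟩ = 0` then
`⟨a, h ζ⟩ = ⟨q, h ζ⟩ = ζ` for `ζ = F h q` (`cc_ne`), so `F h a = ζ` (`F_unique`) and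
`U0 D q = ‖ζ‖ ≤ U0 D a`. (`q ≠ 0` because `U0 D 0 = 0 ≤ U0 D a`.) -/
theorem Pre.tr (G : Pre D) (hq : q ∈ D) (hc : Convex ℝ (Sg D q)) {a : E n} (ha : a ∈ D)
    (hlt : U0 D a < U0 D q) : ∃ d : ℂ, d • (q - a) ∈ Tg D q := by
  obtain ⟨k, hk⟩ := G.mx_exists ha
  have ha0 : 0 ≤ U0 D a := hk.2 ▸ norm_nonneg _
  have hq0 : q ≠ 0 := by
    rintro rfl
    rw [G.U0_zero] at hlt
    exact absurd hlt (not_lt.2 ha0)
  have hcv : Convex ℝ ((fun σ => dot σ (q - a)) '' Sg D q) := by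
    rintro _ ⟨x, hx, rfl⟩ _ ⟨y, hy, rfl⟩ s t hs ht hst
    exact ⟨s • x + t • y, hc hx hy hs ht hst, by
      simp only [dot_add_left, dot_rsmul_left, real_smul]⟩
  obtain ⟨d, hd⟩ := half_plane ((G.Sg_compact hq hq0).image (f := fun σ => dot σ (q - a))
    (by fun_prop)) hcv (by
      rintro ⟨_, ⟨g, hg, rfl⟩, e⟩
      have hF : F g q ≠ 0 := by
        rw [← norm_ne_zero_iff, hg.2]
        exact (ha0.trans_lt hlt).ne'
      obtain ⟨s1, s2, -⟩ := hg.1.F_spec hq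
      simp only [sg, dot_smul_left, mul_eq_zero, cc_ne hg.1 hq hF, false_or] at e
      rw [dot_sub_right, dot_comm _ q, dot_comm _ a, s2, sub_eq_zero] at e
      have h1 := G.le_U0 hg.1 ha
      rw [hg.1.F_unique ha s1 e.symm, hg.2] at h1
      exact absurd hlt (not_lt.2 h1))
  refine ⟨d, fun σ hσ => ?_⟩
  rw [dot_smul_right]
  exact hd _ ⟨σ, hσ, rfl⟩

/-- Hint: otherwise the compact convex set `S` and the closed ray `{c • N | 0 ≤ c}` are disjoint
(`0 ∉ S`, because the cone is nonempty); `geometric_hahn_banach_compact_closed` gives a real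
functional `f` with `f < u` on `S` and `u < f (c • N)` for all `c ≥ 0`, so `u < 0 ≤ f N`. Write
`f x = re ⟨x, v⟩` (`InnerProductSpace.toDual` over `ℝ`, or `chart_repr` for `f.extendRCLike`, or
`v i = f (single i 1) - I f (single i I)`). Then `v + ε cj N` is in the cone for small `ε > 0` and has
`re ⟨N, ·⟩ > 0`. -/
theorem polar_ray {S : Set (E n)} (hS : IsCompact S) (hc : Convex ℝ S)
    (hne : ∃ v, ∀ σ ∈ S, (dot σ v).re < 0) {N : E n} (hN : N ≠ 0)
    (h : ∀ v, (∀ σ ∈ S, (dot σ v).re < 0) → (dot N v).re ≤ 0) (hS0 : S.Nonempty) :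
    ∃ c : ℝ, 0 < c ∧ c • N ∈ S := by
  by_contra hno
  have hT : IsClosed ((fun c : ℝ => c • N) '' Ici 0) :=
    (isClosedEmbedding_smul_left hN).isClosedMap _ isClosed_Ici
  have hTc : Convex ℝ ((fun c : ℝ => c • N) '' Ici 0) :=
    (convex_Ici (0 : ℝ)).linear_image (LinearMap.toSpanSingleton ℝ (E n) N)
  have hd : Disjoint S ((fun c : ℝ => c • N) '' Ici 0) := by
    rw [disjoint_right]
    rintro _ ⟨c, hc0, rfl⟩ hcS
    rcases (mem_Ici.1 hc0).eq_or_lt with e | e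
    · obtain ⟨v, hv⟩ := hne
      have := hv _ hcS
      simp [← e] at this
    · exact hno ⟨c, e, hcS⟩
  obtain ⟨f, u, v, h1, h2, h3⟩ :=
    RCLike.geometric_hahn_banach_compact_closed (𝕜 := ℂ) hc hS hTc hT hd
  obtain ⟨ξ, hξ⟩ := chart_repr f.toLinearMap
  replace h1 : ∀ a ∈ S, (dot a ξ).re < u := fun a ha => by rw [hξ]; exact h1 a ha
  replace h3 : ∀ c : ℝ, 0 ≤ c → v < c * (dot N ξ).re := fun c hc0 => by
    have := h3 _ ⟨c, hc0, rfl⟩
    rw [← re_ofReal_mul, ← dot_rsmul_left, hξ]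
    exact this
  have hv : v < 0 := by simpa using h3 0 le_rfl
  have hf : 0 ≤ (dot N ξ).re := by
    by_contra hneg
    have hneg := not_le.1 hneg
    have := h3 (v / (dot N ξ).re) (div_nonneg_of_nonpos hv.le hneg.le)
    rw [div_mul_cancel₀ _ hneg.ne] at this
    exact lt_irrefl _ this
  obtain ⟨R, hR⟩ := hS.isBounded.exists_norm_le
  obtain ⟨σ0, hσ0⟩ := hS0
  have hR0 : 0 ≤ R := (norm_nonneg _).trans (hR _ hσ0)
  have hN0 : 0 < ‖N‖ := norm_pos_iff.2 hN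
  have hp : 0 < R * ‖N‖ + 1 := by positivity
  obtain ⟨ε, hε, he⟩ : ∃ ε : ℝ, 0 < ε ∧ ε * (R * ‖N‖ + 1) = -u :=
    ⟨-u / (R * ‖N‖ + 1), div_pos (by linarith) hp, div_mul_cancel₀ _ hp.ne'⟩
  have h4 := h (ξ + ε • cj N) fun σ hσ => by
    rw [dot_add_right, dot_rsmul_right, add_re, re_ofReal_mul]
    have a1 : (dot σ (cj N)).re ≤ R * ‖N‖ := by
      refine (re_le_norm _).trans ((norm_dot_le _ _).trans ?_)
      rw [norm_cj]
      exact mul_le_mul_of_nonneg_right (hR σ hσ) hN0.le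
    have a2 := mul_le_mul_of_nonneg_left a1 hε.le
    have a3 := h1 σ hσ
    linarith
  rw [dot_add_right, dot_rsmul_right, add_re, re_ofReal_mul, dot_cj_self, ofReal_re] at h4
  have : 0 < ε * ‖N‖ ^ 2 := by positivity
  linarith

end Pool.Agent.MP_4baaa2_an.H94

end

-- part MP_4baaa2_an.H94.Gen2
section

/-!
Continuous families from `0` to `1` in a moving channel.
-/

namespace Pool.Agent.MP_4baaa2_an.H94

open Set Metric Filter Topology Complex
open scoped ComplexConjugate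
open Pool.Agent.Lib.PlaneTop

variable {Y : Type*} [TopologicalSpace Y]

/-- two families are joined by a continuous family with boundary values in `Ω` -/
def Jn (Ω : Y × TT → Set ℂ) (x x' : Y → ℂ → ℂ) : Prop :=
  ∃ μ : ℝ × Y → ℂ → ℂ, DAY μ ∧ (∀ s ≤ (0 : ℝ), ∀ y, μ (s, y) = x y) ∧
    (∀ s ≥ (1 : ℝ), ∀ y, μ (s, y) = x' y) ∧ ∀ s y t, μ (s, y) (ec t) ∈ Ω (y, t)

variable {Ω : Y × TT → Set ℂ} {x x' x'' : Y → ℂ → ℂ}

theorem Jn.symm (h : Jn Ω x x') : Jn Ω x' x := by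
  obtain ⟨μ, h1, h2, h3, h4⟩ := h
  exact ⟨fun q => μ (1 - q.1, q.2), h1.comp (φ := fun q : ℝ × Y => (1 - q.1, q.2)) (by fun_prop),
    fun s hs y => h3 _ (by linarith) y, fun s hs y => h2 _ (by linarith) y, fun s y t => h4 _ y t⟩

theorem Jn.trans (h : Jn Ω x x') (h' : Jn Ω x' x'') : Jn Ω x x'' := by
  obtain ⟨μ, h1, h2, h3, h4⟩ := h
  obtain ⟨ν, k1, k2, k3, k4⟩ := h'
  have e1 : ∀ s ≤ (1 / 2 : ℝ), ∀ y w, μ (2 * s, y) w + ν (2 * s - 1, y) w - μ (1, y) w =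
      μ (2 * s, y) w := fun s hs y w => by
    rw [k2 _ (by linarith), h3 1 le_rfl, add_sub_cancel_right]
  have e2 : ∀ s ≥ (1 / 2 : ℝ), ∀ y w, μ (2 * s, y) w + ν (2 * s - 1, y) w - μ (1, y) w =
      ν (2 * s - 1, y) w := fun s hs y w => by
    rw [h3 _ (by linarith), h3 1 le_rfl, add_sub_cancel_left]
  refine ⟨fun q w => μ (2 * q.1, q.2) w + ν (2 * q.1 - 1, q.2) w - μ (1, q.2) w,
    ((h1.comp (φ := fun q : ℝ × Y => (2 * q.1, q.2)) (by fun_prop)).add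
      (k1.comp (φ := fun q : ℝ × Y => (2 * q.1 - 1, q.2)) (by fun_prop))).sub
      (h1.comp (φ := fun q : ℝ × Y => (1, q.2)) (by fun_prop)),
    fun s hs y => funext fun w => ?_, fun s hs y => funext fun w => ?_, fun s y t => ?_⟩
  · exact (e1 s (by linarith) y w).trans (by rw [h2 _ (by linarith)])
  · exact (e2 s (by linarith) y w).trans (by rw [k3 _ (by linarith)])
  · rcases le_total s (1 / 2) with hs | hs
    · exact mem_of_eq_of_mem (e1 s hs y (ec t)) (h4 _ y t)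
    · exact mem_of_eq_of_mem (e2 s hs y (ec t)) (k4 _ y t)

theorem Jn.seg (hx : DAY x) (hx' : DAY x') {θ : ℝ}
    (h : ∀ y t, ‖x' y (ec t) - x y (ec t)‖ ≤ θ ∧ closedBall (x y (ec t)) θ ⊆ Ω (y, t)) :
    Jn Ω x x' := by
  refine ⟨fun q w => x q.2 w + ((max 0 (min q.1 1) : ℝ) : ℂ) * (x' q.2 w - x q.2 w),
    (hx.comp continuous_snd).add ((DAY.par (c := fun q : ℝ × Y => ((max 0 (min q.1 1) : ℝ) : ℂ))
      (by fun_prop)).mul ((hx'.comp continuous_snd).sub (hx.comp continuous_snd))),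
    fun s hs y => funext fun w => ?_, fun s hs y => funext fun w => ?_, fun s y t => ?_⟩
  · simp only [max_eq_left ((min_le_left s 1).trans hs), ofReal_zero, zero_mul, add_zero]
  · simp only [min_eq_right hs, max_eq_right (zero_le_one' ℝ), ofReal_one, one_mul, add_sub_cancel]
  · refine (h y t).2 ?_
    rw [mem_closedBall_iff_norm, add_sub_cancel_left, norm_mul, norm_real,
      Real.norm_of_nonneg (le_max_left _ _)]
    exact (mul_le_of_le_one_left (norm_nonneg _)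
      (max_le zero_le_one (min_le_right _ _))).trans (h y t).1

theorem Fam.margin {X : Type*} [TopologicalSpace X] [CompactSpace X] {R : X → ℂ → ℂ} (h : Fam R)
    {Ω : X → Set ℂ} (ho : IsOpen {x : X × ℂ | x.2 ∈ Ω x.1})
    (hR : ∀ x, ∀ ζ ∈ ball (0 : ℂ) 1, R x ζ ∈ Ω x) {ρ : ℝ} (hρ : ρ < 1) :
    ∃ θ > 0, ∀ x, ∀ ζ : ℂ, ‖ζ‖ ≤ ρ → closedBall (R x ζ) θ ⊆ Ω x := by
  have hK : IsCompact ((univ : Set X) ×ˢ closedBall (0 : ℂ) ρ) :=
    isCompact_univ.prod (isCompact_closedBall _ _)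
  have h1 := hK.eventually_forall_of_forall_eventually (x₀ := (0 : ℂ))
    (P := fun v q => R q.1 q.2 + v ∈ Ω q.1) fun q hq => by
      have hb : q.2 ∈ ball (0 : ℂ) 1 := closedBall_subset_ball hρ hq.2
      have c1 : ContinuousAt (fun z : X × ℂ => R z.1 z.2) q :=
        h.cont.continuousAt ((isOpen_univ.prod isOpen_ball).mem_nhds ⟨trivial, hb⟩)
      have c3 : ContinuousAt (fun z : ℂ × X × ℂ => R z.2.1 z.2.2) (0, q) :=
        ContinuousAt.comp (f := fun z : ℂ × X × ℂ => z.2) (x := (0, q)) c1 continuousAt_snd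
      have c2 : ContinuousAt (fun z : ℂ × X × ℂ => (z.2.1, R z.2.1 z.2.2 + z.1)) (0, q) :=
        continuousAt_snd.fst.prodMk (c3.add continuousAt_fst)
      exact c2.eventually (ho.mem_nhds (by simpa using hR q.1 q.2 hb))
  obtain ⟨θ, hθ, h2⟩ := Metric.eventually_nhds_iff_ball.1 h1
  refine ⟨θ / 2, by positivity, fun x ζ hζ v hv => ?_⟩
  have h3 := h2 (v - R x ζ) (by
    rw [mem_ball_zero_iff]
    exact (mem_closedBall_iff_norm.1 hv).trans_lt (by linarith)) (x, ζ)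
    ⟨trivial, mem_closedBall_zero_iff.2 hζ⟩
  simpa using h3

theorem pchan [CompactSpace Y] [T2Space Y] {Z : Type*} [TopologicalSpace Z] {K : Set Z}
    (hK : IsCompact K) (hp : IsPathConnected K) {U : Y × TT → Z → ℂ}
    (hU : ContinuousOn (fun x : (Y × TT) × Z => U x.1 x.2) (univ ×ˢ K)) {z₀ : Z} (hz : z₀ ∈ K)
    (h1 : ∀ x, U x z₀ = 1) {ε : ℝ} (hε : 0 < ε)
    (hball : ∀ x, ∀ u ∈ ball (1 : ℂ) ε, ∃ z ∈ K, U x z = u)
    (hj : ∀ x, JoinedIn {m : ℂ | ∀ z ∈ K, m + (1 - m) * U x z ≠ 0} 0 1) :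
    Jn (fun x => {m : ℂ | ∀ z ∈ K, m + (1 - m) * U x z ≠ 0}) (fun _ _ => 0) (fun _ _ => 1) := by
  obtain ⟨R, hR, hR0, hR1, hRne⟩ := chan_fam hK hp hU hz h1 hε hball (c := fun _ => 0)
    continuous_const (fun _ => by norm_num) hj
  obtain ⟨r, hr, hr'⟩ := hR.radius (c := fun _ => 1) continuous_const hR1
  have hρ : max r 0 < 1 := max_lt hr one_pos
  obtain ⟨θ, hθ, hm⟩ := hR.margin (Ω := fun x => {m : ℂ | ∀ z ∈ K, m + (1 - m) * U x z ≠ 0})
    (chan_open (F := fun (x : (Y × TT) × ℂ) z => x.2 + (1 - x.2) * U x.1 z) hK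
      ((Continuous.continuousOn (by fun_prop)).add ((Continuous.continuousOn (by fun_prop)).mul
        (hU.comp (f := fun x : ((Y × TT) × ℂ) × Z => (x.1.1, x.2)) (by fun_prop)
          fun x hx => ⟨trivial, hx.2⟩)))) hRne hρ
  have d0 : DAY fun (_ : Y) (_ : ℂ) => (0 : ℂ) := DAY.par continuous_const
  have d1 : DAY fun (_ : Y) (_ : ℂ) => (1 : ℂ) := DAY.par continuous_const
  obtain ⟨N, x, x0, hx, xN⟩ := hR.pflow d0 d1 (fun y t => hR0 _) (le_max_right r 0) hρ hθ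
    fun y t => by
      obtain ⟨ζ, a1, a2⟩ := hr' (y, t)
      exact ⟨ζ, a1.trans (le_max_left _ _), a2⟩
  have hb : ∀ j y t, closedBall (x j y (ec t)) θ ⊆
      {m : ℂ | ∀ z ∈ K, m + (1 - m) * U (y, t) z ≠ 0} := fun j y t => by
    obtain ⟨ζ, a1, a2⟩ := ((hx j).2 y t).1
    rw [a2]
    exact hm (y, t) ζ a1
  have key : ∀ j, Jn (fun x => {m : ℂ | ∀ z ∈ K, m + (1 - m) * U x z ≠ 0}) (x 0) (x j) := by
    intro j
    induction j with
    | zero => exact Jn.seg (hx 0).1 (hx 0).1 fun y t => ⟨by simpa using hθ.le, hb 0 y t⟩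
    | succ j ih =>
      exact ih.trans (Jn.seg (hx j).1 (hx (j + 1)).1 fun y t => ⟨((hx j).2 y t).2, hb j y t⟩)
  have h2 := (key N).trans (Jn.seg (hx N).1 d0 fun y t =>
    ⟨by rw [norm_sub_rev]; exact xN y t, hb N y t⟩)
  rw [x0] at h2
  exact h2.symm

end Pool.Agent.MP_4baaa2_an.H94

/-!
The channel of a pencil of hyperplanes.
-/

namespace Pool.Agent.MP_4baaa2_an.H94

open Set Metric Filter Topology Complex
open scoped ComplexConjugate
open Pool.Agent.Lib.PlaneTop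

variable {n : ℕ} {Y : Type*} [TopologicalSpace Y]

/-- Either the values cover a fixed ball or they are close to `1`. Hint: `m ≤ ‖1 - ⟨z, ξ₂ x⟩‖`,
`‖z‖ ≤ R`, `‖ξ₂ x‖ ≤ M` by compactness; `U z - 1 = ⟨z, Δ⟩ / (1 - ⟨z, ξ₂⟩)` with `Δ = ξ₂ - ξ₁`. If
`‖Δ‖ ≤ c = m / (2 R)` the second alternative holds. Otherwise put `e = cj Δ / ‖Δ‖²` (`cls1_solve`,
`⟨e, Δ⟩ = 1`, `‖e‖ ≤ 1 / c`), `β = ⟨e, ξ₂⟩`, `z = λ e` with `λ = (u - 1) / (1 + (u - 1) β)`; take
`ε ≤ 1 / 2`, `ε M / c ≤ 1 / 2`, `2 ε / c ≤ d`. -/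
theorem wedge_eps {X : Type*} [TopologicalSpace X] [CompactSpace X] {K : Set (E n)}
    (hK : IsCompact K) {d : ℝ} (hd : 0 < d) (hb : closedBall 0 d ⊆ K) {ξ₁ ξ₂ : X → E n}
    (h2 : Continuous ξ₂) (hne : ∀ x, ∀ z ∈ K, dot z (ξ₂ x) ≠ 1) :
    ∃ ε > 0, ε ≤ 1 / 2 ∧ ∀ x,
      closedBall (1 : ℂ) ε ⊆ (fun z => (1 - dot z (ξ₁ x)) / (1 - dot z (ξ₂ x))) '' K ∨
      ∀ z ∈ K, ‖(1 - dot z (ξ₁ x)) / (1 - dot z (ξ₂ x)) - 1‖ ≤ 1 / 2 := by
  obtain ⟨m, hm, hm1⟩ := (isCompact_univ.prod hK).exists_forall_le'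
    (f := fun q : X × E n => ‖1 - dot q.2 (ξ₂ q.1)‖) (a := 0) (by fun_prop)
    fun q hq => norm_pos_iff.2 (sub_ne_zero.2 (hne q.1 q.2 hq.2).symm)
  obtain ⟨R, hR, hR1⟩ := hK.isBounded.exists_pos_norm_le
  obtain ⟨M, hM, hM1⟩ := (isCompact_range h2).isBounded.exists_pos_norm_le
  obtain ⟨c, hcd⟩ : ∃ c : ℝ, c = m / (2 * R) := ⟨_, rfl⟩
  have hc : 0 < c := by rw [hcd]; positivity
  obtain ⟨ε, hε, e1, e2, e3⟩ : ∃ ε > 0, ε ≤ 1 / 2 ∧ ε ≤ c / (2 * M) ∧ ε ≤ c * d / 2 :=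
    ⟨min (1 / 2) (min (c / (2 * M)) (c * d / 2)), by positivity, min_le_left _ _,
      (min_le_right _ _).trans (min_le_left _ _), (min_le_right _ _).trans (min_le_right _ _)⟩
  refine ⟨ε, hε, e1, fun x => ?_⟩
  rcases le_or_gt ‖ξ₂ x - ξ₁ x‖ c with h | h
  · refine Or.inr fun z hz => chan_quot hm (hm1 (x, z) ⟨trivial, hz⟩) ?_
    have e : 1 - dot z (ξ₁ x) - (1 - dot z (ξ₂ x)) = dot z (ξ₂ x - ξ₁ x) := by
      rw [dot_sub_right]; ring
    rw [e]
    calc _ ≤ ‖z‖ * ‖ξ₂ x - ξ₁ x‖ := norm_dot_le _ _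
      _ ≤ R * c := mul_le_mul (hR1 z hz) h (norm_nonneg _) hR.le
      _ = m / 2 := by rw [hcd]; field_simp
  · refine Or.inl fun u hu => ?_
    have h0 : 0 < ‖ξ₂ x - ξ₁ x‖ := hc.trans h
    obtain ⟨e, he1, he2⟩ : ∃ e : E n, dot e (ξ₂ x - ξ₁ x) = 1 ∧ ‖e‖ ≤ 1 / c := by
      refine ⟨_, cls1_solve (norm_pos_iff.1 h0) 1, ?_⟩
      rw [norm_smul, norm_cj, norm_div, norm_one, norm_real, Real.norm_of_nonneg (sq_nonneg _)]
      calc _ = 1 / ‖ξ₂ x - ξ₁ x‖ := by field_simp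
        _ ≤ 1 / c := one_div_le_one_div_of_le hc h.le
    rw [dot_sub_right] at he1
    have hw : ‖u - 1‖ ≤ ε := mem_closedBall_iff_norm.1 hu
    have hβ : ‖dot e (ξ₂ x)‖ ≤ 1 / c * M :=
      (norm_dot_le _ _).trans (mul_le_mul he2 (hM1 _ ⟨x, rfl⟩) (norm_nonneg _) (by positivity))
    have a1 : ‖(u - 1) * dot e (ξ₂ x)‖ ≤ 1 / 2 := by
      rw [norm_mul]
      calc _ ≤ c / (2 * M) * (1 / c * M) :=
            mul_le_mul (hw.trans e2) hβ (norm_nonneg _) (by positivity)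
        _ = 1 / 2 := by field_simp
    have a2 : 1 / 2 ≤ ‖1 + (u - 1) * dot e (ξ₂ x)‖ := by
      have a3 := norm_sub_le (1 + (u - 1) * dot e (ξ₂ x)) ((u - 1) * dot e (ξ₂ x))
      rw [add_sub_cancel_right, norm_one] at a3
      linarith
    have a4 : 1 + (u - 1) * dot e (ξ₂ x) ≠ 0 := norm_pos_iff.1 (by linarith)
    obtain ⟨l, hl1, hl2⟩ : ∃ l : ℂ, l * (1 + (u - 1) * dot e (ξ₂ x)) = u - 1 ∧ ‖l‖ ≤ c * d := by
      refine ⟨(u - 1) / (1 + (u - 1) * dot e (ξ₂ x)), div_mul_cancel₀ _ a4, ?_⟩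
      rw [norm_div, div_le_iff₀ (by linarith)]
      nlinarith [mul_pos hc hd]
    have hz : l • e ∈ K := hb (mem_closedBall_zero_iff.2 (by
      rw [norm_smul]
      calc _ ≤ c * d * (1 / c) := mul_le_mul hl2 he2 (norm_nonneg _) (by positivity)
        _ = d := by field_simp))
    refine ⟨l • e, hz, ?_⟩
    simp only
    rw [div_eq_iff (sub_ne_zero.2 (hne x _ hz).symm), dot_smul_left, dot_smul_left]
    linear_combination hl1 + l * he1

/-- Hint: `wedge_eps`; apply `pchan` to the wedge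
`K' = {(z, v) ∈ K ×ˢ closedBall 1 ε | z = 0 ∨ v = 1} = K ×ˢ {1} ∪ {0} ×ˢ closedBall 1 ε` with
`U' x (z, v) = U x z * v`, base point `(0, 1)`. Its values form `S = U x '' K ∪ closedBall 1 ε`; the
identity has a logarithm on `S` (first alternative: `S = U x '' K`; second: `S ⊆ slitPlane`,
`chan_slit`, `hasLogOn_slit`), so `jn` applies. Finally multiply by `1 - ⟨z, ξ₂⟩`. -/
theorem pchan' [CompactSpace Y] [T2Space Y] {K : Set (E n)} (hK : IsCompact K)
    (hp : IsPathConnected K) {d : ℝ} (hd : 0 < d) (hb : closedBall 0 d ⊆ K) {ξ₁ ξ₂ : Y × TT → E n}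
    (h1 : Continuous ξ₁) (h2 : Continuous ξ₂) (hne : ∀ x, ∀ z ∈ K, dot z (ξ₂ x) ≠ 1)
    (hl : ∀ x, HasLogOn (fun u => u) ((fun z => (1 - dot z (ξ₁ x)) / (1 - dot z (ξ₂ x))) '' K)) :
    Jn (fun x => {m : ℂ | ∀ z ∈ K, (1 - m) * (1 - dot z (ξ₁ x)) + m * (1 - dot z (ξ₂ x)) ≠ 0})
      (fun _ _ => 0) (fun _ _ => 1) := by
  obtain ⟨ε, hε, hε1, hw⟩ := wedge_eps (ξ₁ := ξ₁) hK hd hb h2 hne
  have h0 : (0 : E n) ∈ K := hb (mem_closedBall_self hd.le)
  have hb1 : (1 : ℂ) ∈ closedBall (1 : ℂ) ε := mem_closedBall_self hε.le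
  have hfst : ∀ q ∈ K ×ˢ ({1} : Set ℂ) ∪ ({0} : Set (E n)) ×ˢ closedBall (1 : ℂ) ε, q.1 ∈ K := by
    rintro q (hq | hq)
    · exact hq.1
    · exact mem_singleton_iff.1 hq.1 ▸ h0
  obtain ⟨μ, m1, m2, m3, m4⟩ := pchan (Y := Y)
    (K := K ×ˢ ({1} : Set ℂ) ∪ ({0} : Set (E n)) ×ˢ closedBall (1 : ℂ) ε)
    ((hK.prod isCompact_singleton).union (isCompact_singleton.prod (isCompact_closedBall _ _)))
    ((hp.prod (isPathConnected_singleton _)).union ((isPathConnected_singleton _).prod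
      ((convex_closedBall _ _).isPathConnected ⟨1, hb1⟩)) ⟨(0, 1), ⟨h0, rfl⟩, rfl, hb1⟩)
    (U := fun x q => (1 - dot q.1 (ξ₁ x)) / (1 - dot q.1 (ξ₂ x)) * q.2)
    (ContinuousOn.mul (ContinuousOn.div (by fun_prop) (by fun_prop)
      fun x hx => sub_ne_zero.2 (hne _ _ (hfst _ hx.2)).symm) (by fun_prop))
    (z₀ := (0, 1)) (Or.inl ⟨h0, rfl⟩) (fun x => by simp) hε
    (fun x u hu => ⟨(0, u), Or.inr ⟨rfl, ball_subset_closedBall hu⟩, by simp⟩) fun x => by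
      have hc : ContinuousOn (fun z => (1 - dot z (ξ₁ x)) / (1 - dot z (ξ₂ x))) K :=
        ContinuousOn.div (by fun_prop) (by fun_prop) fun z hz => sub_ne_zero.2 (hne x z hz).symm
      have hlog : HasLogOn (fun u => u)
          ((fun z => (1 - dot z (ξ₁ x)) / (1 - dot z (ξ₂ x))) '' K ∪ closedBall 1 ε) := by
        rcases hw x with h | h
        · rw [union_eq_self_of_subset_right h]
          exact hl x
        · refine hasLogOn_slit continuousOn_id ?_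
          rintro u (⟨z, hz, rfl⟩ | hu)
          · exact chan_slit (h z hz)
          · exact chan_slit ((mem_closedBall_iff_norm.1 hu).trans hε1)
      refine (jn ((hK.image_of_continuousOn hc).union (isCompact_closedBall _ _)) (Or.inr hb1)
        hlog).mono fun m hm => ?_
      rintro ⟨z, v⟩ (⟨hz, hv⟩ | ⟨hz, hv⟩)
      · obtain rfl : v = 1 := hv
        simpa using hm _ (Or.inl ⟨z, hz, rfl⟩)
      · obtain rfl : z = 0 := hz
        simpa using hm v (Or.inr hv)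
  refine ⟨μ, m1, m2, m3, fun s y t z hz => ?_⟩
  have a1 := m4 s y t (z, 1) (Or.inl ⟨hz, rfl⟩)
  have a2 : 1 - dot z (ξ₂ (y, t)) ≠ 0 := sub_ne_zero.2 (hne _ z hz).symm
  intro a3
  refine mul_ne_zero a1 a2 ?_
  simp only
  rw [mul_one, add_mul, mul_assoc, div_mul_cancel₀ _ a2]
  linear_combination a3

end Pool.Agent.MP_4baaa2_an.H94

/-!
The pencil of two admissible discs.
-/

namespace Pool.Agent.MP_4baaa2_an.H94

open Set Metric Filter Topology Complex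
open scoped ComplexConjugate
open Pool.Agent.Lib.PlaneTop

variable {n : ℕ} {D : Set (E n)} {p : E n} {h₁ h₂ : ℂ → E n}

theorem stage1_smul (k : ℂ → E n) {w : ℂ} (hw : w ≠ 0) : k w = w • xi k w := by
  rw [xi, smul_smul, mul_inv_cancel₀ hw, one_smul]

theorem stage1_xi {h : ℂ → E n} (hd : DifferentiableOn ℂ h (ball 0 1)) {Z : Type*}
    [TopologicalSpace Z] {c : Z → ℂ} (hc : Continuous c) (h0 : ∀ z, 0 < ‖c z‖)
    (h1 : ∀ z, ‖c z‖ < 1) : Continuous fun z => xi h (c z) := by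
  have H : ContinuousOn (xi h) (Ann 0) :=
    ContinuousOn.smul (continuousOn_id.inv₀ fun _ hw => norm_pos_iff.1 hw.1)
      (hd.continuousOn.mono fun _ hw => mem_ball_zero_iff.2 hw.2)
  exact H.comp_continuous hc fun z => ⟨h0 z, h1 z⟩

/-- the pencil of two dilated discs stays admissible -/
theorem Gen.stage (G : Gen D) (a1 : Adm D h₁) (a2 : Adm D h₂) {X : Set (E n)} (hX : IsCompact X)
    (hXD : X ⊆ D) {Y : Type} [TopologicalSpace Y] [CompactSpace Y] [T2Space Y] {u : Y → ℂ}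
    (hu : Continuous u) (hu1 : ∀ y, ‖u y‖ = 1) :
    ∀ᶠ ρ : ℝ in 𝓝[<] 1, ∃ μ : ℝ × Y → ℂ → ℂ, DAY μ ∧ (∀ y w, μ (0, y) w = 0) ∧
      (∀ y w, μ (1, y) w = 1) ∧ ∀ x : ℝ × Y,
        Adm X (pen (dil h₁ ρ) (dil h₂ (ρ * u x.2)) (μ x)) ∧ ∀ z ∈ X, ∀ w ∈ sphere (0 : ℂ) 1,
          dot z (pen (dil h₁ ρ) (dil h₂ (ρ * u x.2)) (μ x) w) ≠ w := by
  obtain ⟨d, hd, hdD⟩ := nhds_basis_closedBall.mem_iff.1 (G.isOpen.mem_nhds G.zero)
  obtain ⟨K, hK, hKp, hXK, hK0, hKD⟩ := G.toPre.hull (hX.union (isCompact_closedBall 0 d))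
    (union_subset hXD hdD)
  obtain ⟨X', hX', hX'D, hl⟩ := G.lines hK hKD
  have hKX : K ⊆ X' := fun a ha => by
    have := (hl a ha a ha).source_mem
    simpa [Sec] using this
  obtain ⟨η, hη, hlog⟩ := G.log_near hX' hX'D
  obtain ⟨ρ₁, hρ₁, H1⟩ := G.toPre.cl_K a1 hη
  obtain ⟨ρ₂, hρ₂, H2⟩ := G.toPre.cl_K a2 hη
  have hmax : max (max ρ₁ ρ₂) 0 < 1 := max_lt (max_lt hρ₁ hρ₂) one_pos
  filter_upwards [Ioo_mem_nhdsLT hmax] with ρ hρ
  have hρ0 : 0 < ρ := (le_max_right _ _).trans_lt hρ.1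
  have r1 : ρ₁ < ρ := ((le_max_left _ _).trans (le_max_left _ _)).trans_lt hρ.1
  have r2 : ρ₂ < ρ := ((le_max_right _ _).trans (le_max_left _ _)).trans_lt hρ.1
  have n0 : ‖(ρ : ℂ)‖ = ρ := by rw [norm_real, Real.norm_eq_abs, abs_of_pos hρ0]
  have n1 : ∀ t : TT, ‖(ρ : ℂ) * ec t‖ = ρ := fun t => by rw [norm_mul, norm_ec, mul_one, n0]
  have n2 : ∀ y, ‖(ρ : ℂ) * u y‖ = ρ := fun y => by rw [norm_mul, hu1, mul_one, n0]
  have n3 : ∀ y (t : TT), ‖(ρ : ℂ) * u y * ec t‖ = ρ := fun y t => by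
    rw [norm_mul, norm_ec, mul_one, n2]
  have L1 : ∀ x : Y × TT, HasLogOn (fun z => 1 - dot z (xi h₁ (ρ * ec x.2))) X' := fun x => by
    obtain ⟨ξ, hξ, h⟩ := H1 (ρ * ec x.2) ⟨by rw [n1]; exact r1, by rw [n1]; exact hρ.2⟩
    exact hlog ξ hξ _ h
  have L2 : ∀ x : Y × TT, HasLogOn (fun z => 1 - dot z (xi h₂ (ρ * u x.1 * ec x.2))) X' :=
    fun x => by
      obtain ⟨ξ, hξ, h⟩ := H2 (ρ * u x.1 * ec x.2) ⟨by rw [n3]; exact r2, by rw [n3]; exact hρ.2⟩
      exact hlog ξ hξ _ h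
  obtain ⟨μ, hμ, m0, m1, hΩ⟩ := pchan' (Y := Y) hK hKp hd (subset_union_right.trans hXK)
    (ξ₁ := fun x => xi h₁ (ρ * ec x.2)) (ξ₂ := fun x => xi h₂ (ρ * u x.1 * ec x.2))
    (stage1_xi a1.1 (by fun_prop) (fun x => by rw [n1]; exact hρ0) fun x => by rw [n1]; exact hρ.2)
    (stage1_xi a2.1 (by fun_prop) (fun x => by rw [n3]; exact hρ0) fun x => by rw [n3]; exact hρ.2)
    (fun x z hz h => (L2 x).ne_zero (hKX hz) (by rw [h, sub_self]))
    (fun x => fib_log hK hl (L1 x) (L2 x))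
  have hday : DAY fun x : ℝ × Y => pen (dil h₁ ρ) (dil h₂ (ρ * u x.2)) (μ x) :=
    DAY.pen (k₁ := fun _ => dil h₁ ρ) (k₂ := fun x : ℝ × Y => dil h₂ (ρ * u x.2))
      (DAY.dil (c := fun _ => (ρ : ℂ)) a1.1 continuous_const
        (fun _ => norm_pos_iff.1 (by rw [n0]; exact hρ0)) fun _ => by rw [n0]; exact hρ.2)
      (DAY.dil (c := fun x : ℝ × Y => (ρ : ℂ) * u x.2) a2.1 (by fun_prop)
        (fun x => norm_pos_iff.1 (by rw [n2]; exact hρ0)) fun x => by rw [n2]; exact hρ.2) hμ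
  refine ⟨μ, hμ, fun y w => by rw [m0 0 le_rfl], fun y w => by rw [m1 1 le_rfl], fun x => ?_⟩
  have hb : ∀ z ∈ K, ∀ w ∈ sphere (0 : ℂ) 1,
      dot z (pen (dil h₁ ρ) (dil h₂ (ρ * u x.2)) (μ x) w) ≠ w := by
    intro z hz w hw h
    obtain ⟨t, rfl⟩ := ec_surj (mem_sphere_zero_iff_norm.1 hw)
    refine hΩ x.1 x.2 t z hz (mul_left_cancel₀ (ec_ne t) ?_)
    rw [pen, stage1_smul (dil h₁ ρ) (ec_ne t), stage1_smul (dil h₂ (ρ * u x.2)) (ec_ne t), xi_dil,
      xi_dil, dot_add_right, dot_smul_right, dot_smul_right, dot_sub_right, dot_smul_right,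
      dot_smul_right] at h
    linear_combination -h
  have A := adm_of_bd hKp hK0 (hday.da x) hb
  exact ⟨⟨A.1, fun z hz => A.2 z (hXK (Or.inl hz))⟩, fun z hz => hb z (hXK (Or.inl hz))⟩

/-- continuity of the zero -/
theorem F_cont {Y : Type*} [TopologicalSpace Y] {H : Y → ℂ → E n} (hH : DAY H)
    (ha : ∀ y, Adm {p} (H y)) (hb : ∀ y, ∀ w ∈ sphere (0 : ℂ) 1, dot p (H y w) ≠ w) :
    Continuous fun y => F (H y) p := by
  refine continuous_iff_continuousAt.2 fun y₀ => ?_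
  rw [ContinuousAt, tendsto_iff_ultrafilter]
  intro 𝒰 h𝒰
  have sp := fun y => (ha y).F_spec (mem_singleton p)
  obtain ⟨ζ, hζ, hle⟩ := (isCompact_closedBall (0 : ℂ) 1).ultrafilter_le_nhds
    (𝒰.map fun y => F (H y) p) (by
      rw [Ultrafilter.coe_map, le_principal_iff, Filter.mem_map]
      exact Eventually.of_forall fun y => ball_subset_closedBall (sp y).1)
  have hT : Tendsto (fun y => F (H y) p) 𝒰 (𝓝 ζ) := hle
  have h1 : Tendsto (fun y => (y, F (H y) p)) 𝒰 (𝓝[univ ×ˢ closedBall 0 1] (y₀, ζ)) :=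
    tendsto_nhdsWithin_iff.2 ⟨(tendsto_id.mono_right h𝒰).prodMk_nhds hT,
      Eventually.of_forall fun y => ⟨trivial, ball_subset_closedBall (sp y).1⟩⟩
  have h2 : Tendsto (fun y => H y (F (H y) p)) 𝒰 (𝓝 (H y₀ ζ)) :=
    (hH.cont (y₀, ζ) ⟨trivial, hζ⟩).tendsto.comp h1
  have h3 : Tendsto (fun y => dot p (H y (F (H y) p))) 𝒰 (𝓝 (dot p (H y₀ ζ))) :=
    (continuous_dot.tendsto (p, H y₀ ζ)).comp (tendsto_const_nhds.prodMk_nhds h2)
  have h4 : dot p (H y₀ ζ) = ζ :=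
    tendsto_nhds_unique h3 (hT.congr fun y => (sp y).2.1.symm)
  have h5 : ζ ∈ ball (0 : ℂ) 1 := by
    rw [← closedBall_sdiff_sphere]
    exact ⟨hζ, fun hs => hb y₀ ζ hs h4⟩
  rwa [(ha y₀).F_unique (mem_singleton p) h5 h4]

end Pool.Agent.MP_4baaa2_an.H94

/-!
The weight of the second disc.
-/

namespace Pool.Agent.MP_4baaa2_an.H94

open Set Metric Filter Topology Complex
open scoped ComplexConjugate
open Pool.Agent.Lib.PlaneTop

variable {n : ℕ} {p : E n} {h₁ h₂ : ℂ → E n}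

theorem pen_eq {r c₁ c₂ : ℂ} (e1 : dot p (h₁ r) = r) (e2 : dot p (h₂ r) = r) (hc1 : c₁ ≠ 0)
    (hc2 : c₂ ≠ 0) (μ : ℂ → ℂ) (w : ℂ) : w - dot p (pen (dil h₁ c₁) (dil h₂ c₂) μ w) =
      (1 - μ w) * ((w - r / c₁) * O h₁ p r (c₁ * w)) +
        μ w * ((w - r / c₂) * O h₂ p r (c₂ * w)) := by
  rw [← dil_eq e1 hc1, ← dil_eq e2 hc2, pen, dot_add_right, dot_smul_right, dot_sub_right]
  ring

/-- Hint: with `w = F k p`, `pen_eq` gives `(w - r / c₁) den = μ O₂ (r / c₂ - r / c₁)`. If `den = 0`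
then `μ w = 0` or `r / c₁ = r / c₂` (`O₂ ≠ 0` by `F_spec`, as `c₂ w` is in the disc). In the first
case `den = O₁ ≠ 0`. In the second case `ω - ⟨p, k ω⟩ = (ω - r / c₁) den ω` for all `ω`, and it is also
`(ω - w) O k p w ω` (`W_eq`); if `w ≠ r / c₁` ... note that then `den w = 0` is possible only when
`r / c₁` is outside the disc, which is excluded by `hr1`: `r / c₁` is a zero in the disc, so
`w = r / c₁` (`F_unique`), `den ω = O k p w ω` for `ω ≠ w`, both sides are continuous at `w`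
(`cls2_O_diff`), so `den w = O k p w w ≠ 0`. -/
theorem pen_den {r c₁ c₂ : ℂ} {μ : ℂ → ℂ} (a1 : Adm {p} h₁) (a2 : Adm {p} h₂) (e1 : F h₁ p = r)
    (e2 : F h₂ p = r) (hr1 : ‖r‖ < ‖c₁‖) (hr2 : ‖r‖ < ‖c₂‖) (hc1 : ‖c₁‖ < 1) (hc2 : ‖c₂‖ < 1)
    (hμ : DifferentiableOn ℂ μ (ball 0 1)) (a : Adm {p} (pen (dil h₁ c₁) (dil h₂ c₂) μ)) :
    den h₁ h₂ p r c₁ c₂ μ (F (pen (dil h₁ c₁) (dil h₂ c₂) μ) p) ≠ 0 ∧
      F (pen (dil h₁ c₁) (dil h₂ c₂) μ) p = r / c₁ +
        tau h₁ h₂ p r c₁ c₂ μ (F (pen (dil h₁ c₁) (dil h₂ c₂) μ) p) * (r / c₂ - r / c₁) := by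
  obtain ⟨b1, d1, o1⟩ := a1.F_spec (mem_singleton p)
  obtain ⟨b2, d2, o2⟩ := a2.F_spec (mem_singleton p)
  rw [e1] at b1 d1 o1
  rw [e2] at b2 d2 o2
  have n1 : c₁ ≠ 0 := norm_pos_iff.1 ((norm_nonneg r).trans_lt hr1)
  have n2 : c₂ ≠ 0 := norm_pos_iff.1 ((norm_nonneg r).trans_lt hr2)
  have key := pen_eq d1 d2 n1 n2 μ
  have hu := fun ω => a.F_unique (mem_singleton p) (ω := ω)
  obtain ⟨b, d, o⟩ := a.F_spec (mem_singleton p)
  have hk := a.1
  generalize pen (dil h₁ c₁) (dil h₂ c₂) μ = k at key hu b d o hk ⊢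
  have hW := W_eq k p d
  generalize F k p = w at hu b d o hW ⊢
  have hm : ∀ c : ℂ, ‖c‖ < 1 → c * w ∈ ball (0 : ℂ) 1 := fun c hc => by
    rw [mem_ball_zero_iff, norm_mul]
    exact (mul_le_of_le_one_right (norm_nonneg _) (mem_ball_zero_iff.1 b).le).trans_lt hc
  have e0 : (w - r / c₁) * den h₁ h₂ p r c₁ c₂ μ w =
      μ w * O h₂ p r (c₂ * w) * (r / c₂ - r / c₁) := by
    have := key w
    rw [d, sub_self] at this
    unfold den
    linear_combination -this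
  have hd : den h₁ h₂ p r c₁ c₂ μ w ≠ 0 := by
    intro h0
    rw [h0, mul_zero] at e0
    rcases mul_eq_zero.1 e0.symm with h | h
    · rcases mul_eq_zero.1 h with h | h
      · rw [den, h, sub_zero, one_mul, zero_mul, add_zero] at h0
        exact o1 _ (hm _ hc1) h0
      · exact o2 _ (hm _ hc2) h
    · have hs : r / c₁ ∈ ball (0 : ℂ) 1 := by
        rw [mem_ball_zero_iff, norm_div, div_lt_one (norm_pos_iff.2 n1)]
        exact hr1
      rw [sub_eq_zero.1 h] at key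
      have hw : w = r / c₁ := hu _ hs (by
        have := key (r / c₁)
        rw [sub_self, zero_mul, zero_mul, mul_zero, mul_zero, add_zero] at this
        exact (sub_eq_zero.1 this).symm)
      rw [← hw] at key
      have he : ∀ᶠ ω in 𝓝[≠] w, den h₁ h₂ p r c₁ c₂ μ ω = O k p w ω := by
        filter_upwards [self_mem_nhdsWithin] with ω hω
        refine mul_left_cancel₀ (sub_ne_zero.2 hω) ?_
        rw [← hW, key, den]
        ring
      have cμ : ContinuousAt μ w := (hμ.differentiableAt (isOpen_ball.mem_nhds b)).continuousAt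
      have cO : ∀ {h : ℂ → E n} {c : ℂ}, DifferentiableOn ℂ h (ball 0 1) → ‖c‖ < 1 →
          ContinuousAt (fun ω => O h p r (c * ω)) w := fun {h c} hh hc =>
        ContinuousAt.comp (f := fun ω => c * ω) ((cls2_O_diff hh p b1).differentiableAt
          (isOpen_ball.mem_nhds (hm c hc))).continuousAt (by fun_prop)
      have c1 : ContinuousAt (den h₁ h₂ p r c₁ c₂ μ) w :=
        ((continuousAt_const.sub cμ).mul (cO a1.1 hc1)).add (cμ.mul (cO a2.1 hc2))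
      have c2 : ContinuousAt (O k p w) w :=
        ((cls2_O_diff hk p b).differentiableAt (isOpen_ball.mem_nhds b)).continuousAt
      have := tendsto_nhds_unique_of_eventuallyEq (c1.tendsto.mono_left nhdsWithin_le_nhds)
        (c2.tendsto.mono_left nhdsWithin_le_nhds) he
      exact o w b (this ▸ h0)
  refine ⟨hd, ?_⟩
  rw [tau, div_mul_eq_mul_div, ← e0, mul_div_cancel_right₀ _ hd, add_sub_cancel]

/-- Hint: multiply by `exp (a I)`: the number `exp (a I) - 2 I τ sin a` has real part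
`cos a + 2 τ.im sin a`. -/
theorem mir_ineq {τ : ℂ} {a e : ℝ} (h : ‖1 + τ * ((exp (2 * a * I))⁻¹ - 1)‖ ≤ 1 + e) :
    Real.cos a + 2 * τ.im * Real.sin a ≤ 1 + e := by
  have h1 : exp (2 * a * I) = exp (a * I) * exp (a * I) := by
    rw [← exp_add]; congr 1; ring
  have h2 : exp (a * I) * (1 + τ * ((exp (2 * a * I))⁻¹ - 1)) =
      exp (a * I) + τ * (exp (-(a * I)) - exp (a * I)) := by
    have := exp_ne_zero (a * I)
    rw [h1, exp_neg]
    field_simp
  have h3 := re_le_norm (exp (a * I) * (1 + τ * ((exp (2 * a * I))⁻¹ - 1)))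
  rw [norm_mul, norm_exp_ofReal_mul_I, one_mul, h2, ← neg_mul, ← ofReal_neg] at h3
  simp only [add_re, mul_re, sub_re, sub_im, exp_ofReal_mul_I_re, exp_ofReal_mul_I_im,
    Real.cos_neg, Real.sin_neg] at h3
  linarith

/-- Poincaré–Miranda with clipping. Hint: `miranda` for
`u s t = (τ.re - σ) + I * (max (τ.im - γ) 0 + min (τ.im + γ) 0)`. -/
theorem mir_clip {τ : ℝ → ℝ → ℂ} (hτ : Continuous fun x : ℝ × ℝ => τ x.1 x.2) {σ γ : ℝ}
    (hσ : σ ∈ Icc (0 : ℝ) 1) (hγ : 0 ≤ γ) (h0 : ∀ t, τ 0 t = 0) (h1 : ∀ t, τ 1 t = 1)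
    (hb : ∀ s, (τ s 0).im ≤ γ) (ht : ∀ s, -γ ≤ (τ s 1).im) : ∃ s t, ‖τ s t - σ‖ ≤ γ := by
  obtain ⟨s, -, t, -, h⟩ := miranda (u := fun s t => (((τ s t).re - σ : ℝ) : ℂ) +
      ((max ((τ s t).im - γ) 0 + min ((τ s t).im + γ) 0 : ℝ) : ℂ) * I) (by fun_prop)
    (fun t _ => by
      simp only [add_re, ofReal_re, mul_re, I_re, ofReal_im, I_im, h0, zero_re]
      linarith [hσ.1])
    (fun t _ => by
      simp only [add_re, ofReal_re, mul_re, I_re, ofReal_im, I_im, h1, one_re]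
      linarith [hσ.2])
    (fun s _ => by
      simp only [add_im, ofReal_re, mul_im, I_re, ofReal_im, I_im]
      rw [max_eq_right (sub_nonpos.2 (hb s))]
      linarith [min_le_right ((τ s 0).im + γ) 0])
    (fun s _ => by
      simp only [add_im, ofReal_re, mul_im, I_re, ofReal_im, I_im]
      rw [min_eq_right (by linarith [ht s])]
      linarith [le_max_right ((τ s 1).im - γ) 0])
  have h2 := congrArg re h
  have h3 := congrArg im h
  simp only [add_re, ofReal_re, mul_re, I_re, ofReal_im, I_im, zero_re] at h2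
  simp only [add_im, ofReal_re, mul_im, I_re, ofReal_im, I_im, zero_im] at h3
  refine ⟨s, t, (norm_le_abs_re_add_abs_im _).trans ?_⟩
  rw [sub_re, sub_im, ofReal_re, ofReal_im, sub_zero, show (τ s t).re - σ = 0 by linarith,
    abs_zero, zero_add, abs_le]
  simp only [max_def, min_def] at h3
  split_ifs at h3 <;> constructor <;> linarith

end Pool.Agent.MP_4baaa2_an.H94

/-!
The choice of the rotation.
-/

namespace Pool.Agent.MP_4baaa2_an.H94

open Set Metric Filter Topology Complex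
open scoped ComplexConjugate
open Pool.Agent.Lib.PlaneTop

variable {n : ℕ} {D : Set (E n)} {p : E n} {h₁ h₂ : ℂ → E n}

theorem stage3_a {γ : ℝ} (hγ : 0 < γ) : ∃ a : ℝ, 0 < a ∧ 0 < Real.sin a ∧
    1 - Real.cos a ≤ γ * Real.sin a ∧ ∀ b : ℝ, |b| ≤ a → ‖exp (2 * b * I) - 1‖ < γ / 2 := by
  have h0 : 0 < min (γ / 5) 1 := lt_min (by positivity) one_pos
  have h1 : min (γ / 5) 1 ≤ 1 := min_le_right _ _
  have h2 : min (γ / 5) 1 ≤ γ / 5 := min_le_left _ _
  set a := min (γ / 5) 1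
  have hs := Real.sin_gt_sub_cube h0
  have hc := Real.one_sub_sq_div_two_le_cos (x := a)
  have h3 : a ^ 3 ≤ a := pow_le_of_le_one h0.le h1 (by norm_num)
  have h4 : a / 2 ≤ Real.sin a := by linarith
  refine ⟨a, h0, by linarith, by nlinarith, fun b hb => ?_⟩
  have h5 := Real.norm_exp_I_mul_ofReal_sub_one_le (x := 2 * b)
  rw [Real.norm_eq_abs, abs_mul, abs_two] at h5
  have h6 : (2 * b * I : ℂ) = I * ((2 * b : ℝ) : ℂ) := by push_cast; ring
  rw [h6]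
  linarith

theorem stage3_norm (b : ℝ) : ‖exp (2 * b * I)‖ = 1 := by
  have h6 : (2 * b * I : ℂ) = ((2 * b : ℝ) : ℂ) * I := by push_cast; ring
  rw [h6, Complex.norm_exp_ofReal_mul_I]

/-- evaluation of `O` along a continuous map into the disc -/
theorem stage3_O {h : ℂ → E n} {r : ℂ} (a : Adm {p} h) (e : F h p = r) {Z : Type*}
    [TopologicalSpace Z] {w : Z → ℂ} (hw : Continuous w) (h1 : ∀ z, ‖w z‖ < 1) :
    Continuous fun z => O h p r (w z) :=
  (cls2_O_diff a.1 p (e ▸ (a.F_spec rfl).1)).continuousOn.comp_continuous hw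
    fun z => mem_ball_zero_iff.2 (h1 z)

/-- the rotation is chosen with the theorem of Poincaré and Miranda -/
theorem Gen.mir (G : Gen D) (hp : p ∈ D) (m1 : Mx D h₁ p) (m2 : Mx D h₂ p) {r : ℝ} (hr : 0 < r)
    (e1 : F h₁ p = r) (e2 : F h₂ p = r) {σ γ : ℝ} (hσ : σ ∈ Icc (0 : ℝ) 1) (hγ : 0 < γ) :
    ∃ δ ∈ Ioo (0 : ℝ) γ, ∃ c₁ c₂ : ℂ, (r < ‖c₁‖ ∧ r < ‖c₂‖ ∧ ‖c₁‖ < 1 ∧ ‖c₂‖ < 1) ∧
      ‖c₁ - 1‖ < γ ∧ ‖c₂ - 1‖ < γ ∧ ∃ μ : ℂ → ℂ, DifferentiableOn ℂ μ (ball 0 1) ∧ p ∈ Zd D δ ∧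
        Adm (Zd D δ) (pen (dil h₁ c₁) (dil h₂ c₂) μ) ∧
        ‖tau h₁ h₂ p r c₁ c₂ μ (F (pen (dil h₁ c₁) (dil h₂ c₂) μ) p) - σ‖ ≤ γ := by
  obtain ⟨a, ha, hsin, hcos, hexp⟩ := stage3_a hγ
  have hr1 : r < 1 := by
    have := (m1.1.F_spec hp).1
    rwa [e1, mem_ball_zero_iff, norm_real, Real.norm_of_nonneg hr.le] at this
  have hex := G.toPre.expand hp (m1.isMax G.toPre hp) (μ := r * (γ * Real.sin a)) (by positivity)
  obtain ⟨δ, ⟨hpZ, hδ⟩, hδγ⟩ := (hex.and (Ioo_mem_nhdsGT hγ)).exists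
  simp only [V_zero, e1, norm_real, Real.norm_of_nonneg hr.le] at hδ
  obtain ⟨hK, hKD⟩ := isCompact_deep G.bdd G.ne_univ hδγ.1
  let u : Icc (0 : ℝ) 1 → ℂ := fun t => exp (2 * (a * (1 - 2 * (t : ℝ)) : ℝ) * I)
  have hu : Continuous u := by fun_prop
  have hu1 : ∀ t, ‖u t‖ = 1 := fun t => stage3_norm _
  have hu0 : ∀ t, u t ≠ 0 := fun t => exp_ne_zero _
  have hu2 : ∀ t, ‖u t - 1‖ < γ / 2 := fun t => hexp _ (by
    rw [abs_mul, abs_of_pos ha]
    refine mul_le_of_le_one_right ha.le (abs_le.2 ⟨?_, ?_⟩) <;> linarith [t.2.1, t.2.2])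
  have hst := G.stage m1.1 m2.1 (X := Zd D δ) hK hKD hu hu1
  have hlt : max r (1 - γ / 2) < 1 := max_lt hr1 (by linarith)
  obtain ⟨ρ, ⟨μ, hμ, hμ0, hμ1, H⟩, hρ1, hρ2⟩ := (hst.and (Ioo_mem_nhdsLT hlt)).exists
  have hrρ : r < ρ := (le_max_left _ _).trans_lt hρ1
  have hγρ : 1 - γ / 2 < ρ := (le_max_right _ _).trans_lt hρ1
  have hρ0 : 0 < ρ := hr.trans hrρ
  have n1 : ‖(ρ : ℂ)‖ = ρ := by rw [norm_real, Real.norm_of_nonneg hρ0.le]
  have n2 : ∀ t, ‖ρ * u t‖ = ρ := fun t => by rw [norm_mul, hu1, n1, mul_one]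
  have nr : ‖(r : ℂ)‖ = r := by rw [norm_real, Real.norm_of_nonneg hr.le]
  have hρc : (ρ : ℂ) ≠ 0 := ofReal_ne_zero.2 hρ0.ne'
  have hsp : ({p} : Set (E n)) ⊆ D := singleton_subset_iff.2 hp
  have hsZ : ({p} : Set (E n)) ⊆ Zd D δ := singleton_subset_iff.2 hpZ
  have a1 : Adm {p} h₁ := m1.1.mono hsp
  have a2 : Adm {p} h₂ := m2.1.mono hsp
  let k : ℝ × Icc (0 : ℝ) 1 → ℂ → E n := fun x => pen (dil h₁ ρ) (dil h₂ (ρ * u x.2)) (μ x)
  have ak : ∀ x, Adm {p} (k x) := fun x => (H x).1.mono hsZ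
  have hk : DAY k := DAY.pen
    (DAY.dil (c := fun _ => (ρ : ℂ)) a1.1 continuous_const (fun _ => hρc) fun _ => n1.trans_lt hρ2)
    (DAY.dil (c := fun x : ℝ × Icc (0 : ℝ) 1 => ρ * u x.2) a2.1 (by fun_prop)
      (fun x => mul_ne_zero hρc (hu0 _)) fun x => (n2 _).trans_lt hρ2) hμ
  have hF : Continuous fun x => F (k x) p := F_cont hk ak fun x => (H x).2 p hpZ
  have hF1 : ∀ x, ‖F (k x) p‖ < 1 := fun x => mem_ball_zero_iff.1 ((ak x).F_spec rfl).1
  have hpd := fun x : ℝ × Icc (0 : ℝ) 1 => pen_den (c₁ := ρ) (c₂ := ρ * u x.2) a1 a2 e1 e2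
    (by rw [nr, n1]; exact hrρ) (by rw [nr, n2]; exact hrρ) (n1.trans_lt hρ2)
    ((n2 _).trans_lt hρ2) (hμ.da x).1 (ak x)
  let T : ℝ × Icc (0 : ℝ) 1 → ℂ := fun x => tau h₁ h₂ p r ρ (ρ * u x.2) (μ x) (F (k x) p)
  have hm : ∀ (c : ℂ) x, ‖c‖ = ρ → ‖c * F (k x) p‖ < 1 := fun c x hc => by
    rw [norm_mul, hc]
    exact (mul_le_of_le_one_right hρ0.le (hF1 x).le).trans_lt hρ2
  have hT : Continuous T := by
    have c0 : Continuous fun x => μ x (F (k x) p) :=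
      hμ.eval continuous_id hF fun x => (hF1 x).le
    have c1 : Continuous fun x => O h₁ p r (ρ * F (k x) p) :=
      stage3_O a1 e1 (continuous_const.mul hF) fun x => hm _ x n1
    have c2 : Continuous fun x : ℝ × Icc (0 : ℝ) 1 => O h₂ p r (ρ * u x.2 * F (k x) p) :=
      stage3_O a2 e2 ((continuous_const.mul (hu.comp continuous_snd)).mul hF)
        fun x => hm _ x (n2 _)
    exact (c0.mul c2).div (((continuous_const.sub c0).mul c1).add (c0.mul c2)) fun x => (hpd x).1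
  have hb : ∀ x, ‖1 + T x * ((u x.2)⁻¹ - 1)‖ ≤ 1 + γ * Real.sin a := fun x => by
    have h1 := hδ _ (H x).1
    have h2 : F (k x) p = r / ρ * (1 + T x * ((u x.2)⁻¹ - 1)) := by
      have := (hpd x).2
      have h0 := hu0 x.2
      change F (k x) p = r / ρ + T x * (r / (ρ * u x.2) - r / ρ) at this
      rw [this]
      field_simp
    change ‖F (k x) p‖ ≤ _ at h1
    rw [h2, norm_mul, norm_div, nr, n1] at h1
    have h3 : r ≤ r / ρ := le_div_self hr.le hρ0 hρ2.le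
    have h4 := mul_le_mul_of_nonneg_right h3 (norm_nonneg (1 + T x * ((u x.2)⁻¹ - 1)))
    exact le_of_mul_le_mul_left (by linarith) hr
  obtain ⟨s, t, hst⟩ := mir_clip (τ := fun s t => T (s, projIcc 0 1 zero_le_one t))
    (hT.comp (continuous_fst.prodMk (continuous_projIcc.comp continuous_snd))) hσ hγ.le
    (fun t => by simp only [T, tau, hμ0, zero_mul, zero_div])
    (fun t => by
      have := (hpd (1, projIcc 0 1 zero_le_one t)).1
      simp only [T, tau, den, hμ1, sub_self, zero_mul, zero_add, one_mul] at this ⊢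
      exact div_self this)
    (fun s => by
      have h1 := hb (s, projIcc 0 1 zero_le_one 0)
      have h2 : u (projIcc 0 1 zero_le_one 0) = exp (2 * a * I) := by simp [u]
      rw [h2] at h1
      have := mir_ineq h1
      exact le_of_mul_le_mul_right (by linarith) hsin)
    (fun s => by
      have h1 := hb (s, projIcc 0 1 zero_le_one 1)
      have h2 : u (projIcc 0 1 zero_le_one 1) = exp (2 * (-a : ℝ) * I) := by
        have : a * (1 - 2 * 1) = -a := by ring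
        simp only [u, projIcc_right, this]
      rw [h2] at h1
      have := mir_ineq h1
      rw [Real.cos_neg, Real.sin_neg] at this
      exact le_of_mul_le_mul_right (by linarith) hsin)
  set y := projIcc 0 1 zero_le_one t
  have d1 : ‖(ρ : ℂ) - 1‖ < γ / 2 := by
    rw [← ofReal_one, ← ofReal_sub, norm_real, Real.norm_eq_abs, abs_lt]
    constructor <;> linarith
  refine ⟨δ, hδγ, ρ, ρ * u y, ⟨by rwa [n1], by rwa [n2], n1.trans_lt hρ2, (n2 _).trans_lt hρ2⟩,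
    by linarith, ?_, μ (s, y), (hμ.da _).1, hpZ, (H (s, y)).1, hst⟩
  have d2 : (ρ : ℂ) * u y - 1 = (ρ - 1) * u y + (u y - 1) := by ring
  rw [d2]
  refine (norm_add_le _ _).trans_lt ?_
  rw [norm_mul, hu1]
  linarith [hu2 y]

end Pool.Agent.MP_4baaa2_an.H94

/-!
Limits of pencils.
-/

namespace Pool.Agent.MP_4baaa2_an.H94

open Set Metric Filter Topology Complex
open scoped ComplexConjugate
open Pool.Agent.Lib.PlaneTop

variable {n : ℕ} {h h₁ h₂ : ℂ → E n}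

theorem dil_tendsto {ι : Type*} {l : Filter ι} (hh : DifferentiableOn ℂ h (ball 0 1)) {c : ι → ℂ}
    (hc : Tendsto c l (𝓝 1)) :
    TendstoLocallyUniformlyOn (fun i => dil h (c i)) h l (ball 0 1) := by
  rw [cls2_tlu_iff hh.continuousOn]
  intro x hx
  have h1 : Tendsto (fun y : ι × ℂ => c y.1) (l ×ˢ 𝓝[ball 0 1] x) (𝓝 1) := hc.comp tendsto_fst
  have h2 : Tendsto (fun y : ι × ℂ => c y.1 * y.2) (l ×ˢ 𝓝[ball 0 1] x) (𝓝 x) := by
    simpa using h1.mul (tendsto_snd.mono_right nhdsWithin_le_nhds)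
  have h3 := ((hh.continuousOn.continuousAt (isOpen_ball.mem_nhds hx)).tendsto.comp h2)
  simpa [dil] using (h1.inv₀ one_ne_zero).smul h3

/-- a nonzero holomorphic function has no zeros on some small circle around any point -/
theorem lim1_circle {g : ℂ → ℂ} (hg : DifferentiableOn ℂ g (ball 0 1)) {w₀ : ℂ}
    (hw₀ : w₀ ∈ ball (0 : ℂ) 1) (h0 : g w₀ ≠ 0) {r : ℂ} (hr : r ∈ ball (0 : ℂ) 1) :
    ∃ d > 0, closedBall r d ⊆ ball 0 1 ∧ ∀ w ∈ sphere r d, g w ≠ 0 := by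
  have ha := hg.analyticOnNhd isOpen_ball
  rcases (ha r hr).eventually_eq_zero_or_eventually_ne_zero with h1 | h1
  · exact absurd (ha.eqOn_zero_of_preconnected_of_eventuallyEq_zero
      (convex_ball _ _).isPreconnected hr h1 hw₀) h0
  · rw [eventually_nhdsWithin_iff] at h1
    obtain ⟨d, hd, hs⟩ := nhds_basis_closedBall.mem_iff.1
      (h1.and (isOpen_ball.mem_nhds hr : ∀ᶠ w in 𝓝 r, w ∈ ball (0 : ℂ) 1))
    refine ⟨d, hd, fun w hw => (hs hw).2, fun w hw => (hs (sphere_subset_closedBall hw)).1 ?_⟩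
    rintro rfl
    simp only [mem_sphere, dist_self] at hw
    exact hd.ne hw

theorem pen_lim {ι : Type*} (𝒰 : Ultrafilter ι) {k₁ k₂ : ι → ℂ → E n} {μ : ι → ℂ → ℂ}
    (d1 : DifferentiableOn ℂ h₁ (ball 0 1)) (d2 : DifferentiableOn ℂ h₂ (ball 0 1))
    (d : DifferentiableOn ℂ h (ball 0 1)) (hμ : ∀ i, DifferentiableOn ℂ (μ i) (ball 0 1))
    (l1 : TendstoLocallyUniformlyOn k₁ h₁ 𝒰 (ball 0 1))
    (l2 : TendstoLocallyUniformlyOn k₂ h₂ 𝒰 (ball 0 1))
    (l : TendstoLocallyUniformlyOn (fun i => pen (k₁ i) (k₂ i) (μ i)) h 𝒰 (ball 0 1))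
    (hne : ¬ EqOn h₁ h₂ (ball 0 1)) {r : ℂ} (hr : r ∈ ball (0 : ℂ) 1) :
    ∃ d > 0, ball r d ⊆ ball 0 1 ∧ ∃ m : ℂ → ℂ, DifferentiableOn ℂ m (ball r d) ∧
      TendstoLocallyUniformlyOn μ m 𝒰 (ball r d) ∧ EqOn h (pen h₁ h₂ m) (ball r d) := by
  obtain ⟨w₀, hw₀, hw⟩ : ∃ w₀ ∈ ball (0 : ℂ) 1, h₂ w₀ - h₁ w₀ ≠ 0 := by
    by_contra hcon
    push Not at hcon
    exact hne fun w hw => (sub_eq_zero.1 (hcon w hw)).symm
  obtain ⟨v, hv⟩ : ∃ v, dot (h₂ w₀ - h₁ w₀) v ≠ 0 := by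
    by_contra hcon
    push Not at hcon
    exact hw (eq_zero_of_dot _ hcon)
  obtain ⟨e, he, hsub, hg⟩ := lim1_circle (g := fun w => dot (h₂ w - h₁ w) v)
    (diffOn_dot (d2.sub d1) (differentiableOn_const v)) hw₀ hv hr
  have hs : sphere r e ⊆ ball 0 1 := sphere_subset_closedBall.trans hsub
  have hb : ball r e ⊆ ball 0 1 := ball_subset_closedBall.trans hsub
  have cq : ContinuousOn (fun w => dot (h w - h₁ w) v / dot (h₂ w - h₁ w) v) (sphere r e) :=
    (contOn_dot ((d.sub d1).continuousOn.mono hs) continuousOn_const).div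
      (contOn_dot ((d2.sub d1).continuousOn.mono hs) continuousOn_const) hg
  have hq : TendstoLocallyUniformlyOn μ (fun w => dot (h w - h₁ w) v / dot (h₂ w - h₁ w) v) 𝒰
      (sphere r e) := by
    rw [cls2_tlu_iff cq]
    intro x hx
    have t1 := (cls2_tlu_iff (d1.continuousOn.mono hs)).1 (l1.mono hs) x hx
    have t2 := (cls2_tlu_iff (d2.continuousOn.mono hs)).1 (l2.mono hs) x hx
    have t := (cls2_tlu_iff (d.continuousOn.mono hs)).1 (l.mono hs) x hx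
    have u1 := tendsto_dot (t.sub t1) (tendsto_const_nhds (x := v))
    have u2 := tendsto_dot (t2.sub t1) (tendsto_const_nhds (x := v))
    refine (u1.div u2 (hg x hx)).congr' ?_
    filter_upwards [u2.eventually_ne (hg x hx)] with y hy
    simp only [pen, add_sub_cancel_left, dot_smul_left, Pi.div_apply]
    exact mul_div_cancel_right₀ _ hy
  rw [tendstoLocallyUniformlyOn_iff_tendstoUniformlyOn_of_compact (isCompact_sphere r e)] at hq
  obtain ⟨B, hB⟩ := (isCompact_sphere r e).exists_bound_of_continuousOn cq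
  have hbd : ∀ᶠ i in (𝒰 : Filter ι), ∀ y ∈ ball r e, ‖μ i y‖ ≤ B + 1 := by
    filter_upwards [Metric.tendstoUniformlyOn_iff.1 hq 1 one_pos] with i hi y hy
    refine Complex.norm_le_of_forall_mem_frontier_norm_le isBounded_ball
      (DifferentiableOn.diffContOnCl ?_) (fun z hz => ?_) (subset_closure hy)
    · rw [closure_ball _ he.ne']
      exact (hμ i).mono hsub
    · rw [frontier_ball _ he.ne'] at hz
      have h1 := hi z hz
      rw [dist_comm, dist_eq_norm] at h1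
      exact (norm_le_norm_add_norm_sub' _ _).trans (add_le_add (hB z hz) h1.le)
  obtain ⟨m, hm, hlim⟩ := montel 𝒰 (f := μ) (U := ball r e) isOpen_ball
    (Eventually.of_forall fun i => (hμ i).mono hb)
    fun x _ => ⟨1, one_pos, B + 1, hbd.mono fun i hi y hy => hi y hy.2⟩
  refine ⟨e, he, hb, m, hm, hlim, fun w hw => tendsto_nhds_unique (l.tendsto_at (hb hw)) ?_⟩
  exact (l1.tendsto_at (hb hw)).add ((hlim.tendsto_at hw).smul
    ((l2.tendsto_at (hb hw)).sub (l1.tendsto_at (hb hw))))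

end Pool.Agent.MP_4baaa2_an.H94

/-!
The gradients of the maximisers form a convex set.
-/

namespace Pool.Agent.MP_4baaa2_an.H94

open Set Metric Filter Topology Complex
open scoped ComplexConjugate
open Pool.Agent.Lib.PlaneTop

variable {n : ℕ} {D : Set (E n)} {p : E n} {h h₁ h₂ : ℂ → E n}

/-- Hint: `O_self`; `deriv h r = h₁' + m' (h₂ r - h₁ r) + m r (h₂' - h₁')` and
`⟨p, h₂ r - h₁ r⟩ = 0`. Unfold `sg`, `cc`; the three values of `O` and `r` are nonzero. -/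
theorem sg_pen {r : ℂ} {m : ℂ → ℂ} (a : Adm {p} h) (a1 : Adm {p} h₁) (a2 : Adm {p} h₂)
    (e : F h p = r) (e1 : F h₁ p = r) (e2 : F h₂ p = r) (hr : r ≠ 0)
    (hm : DifferentiableAt ℂ m r) (he : h =ᶠ[𝓝 r] pen h₁ h₂ m) :
    O h p r r = (1 - m r) * O h₁ p r r + m r * O h₂ p r r ∧
      sg h p = (1 - m r * O h₂ p r r / O h p r r) • sg h₁ p +
        (m r * O h₂ p r r / O h p r r) • sg h₂ p := by
  obtain ⟨b0, -, o0⟩ := a.F_spec (mem_singleton p)
  obtain ⟨b1, z1, o1⟩ := a1.F_spec (mem_singleton p)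
  obtain ⟨-, z2, o2⟩ := a2.F_spec (mem_singleton p)
  rw [e] at b0 o0
  rw [e1] at z1 o1
  rw [e2] at z2 o2
  have n0 := o0 r b0
  have n1 := o1 r b0
  have n2 := o2 r b0
  have d1 : HasDerivAt h₁ (deriv h₁ r) r :=
    (a1.1.differentiableAt (isOpen_ball.mem_nhds b0)).hasDerivAt
  have d2 : HasDerivAt h₂ (deriv h₂ r) r :=
    (a2.1.differentiableAt (isOpen_ball.mem_nhds b0)).hasDerivAt
  have d3 : HasDerivAt (pen h₁ h₂ m)
      (deriv h₁ r + (m r • (deriv h₂ r - deriv h₁ r) + deriv m r • (h₂ r - h₁ r))) r :=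
    d1.add (hm.hasDerivAt.smul (d2.sub d1))
  have hO : O h p r r = (1 - m r) * O h₁ p r r + m r * O h₂ p r r := by
    rw [O_self, O_self, O_self, he.deriv_eq, d3.deriv]
    simp only [dot_add_right, dot_smul_right, dot_sub_right, z1, z2]
    ring
  refine ⟨hO, ?_⟩
  have hv : h r = (1 - m r) • h₁ r + m r • h₂ r := by
    rw [he.eq_of_nhds, pen, smul_sub, sub_smul, one_smul]
    abel
  have k1 : (1 - m r * O h₂ p r r / O h p r r) * (r * O h₁ p r r)⁻¹ =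
      (r * O h p r r)⁻¹ * (1 - m r) := by
    field_simp
    linear_combination hO
  have k2 : (m r * O h₂ p r r / O h p r r) * (r * O h₂ p r r)⁻¹ = (r * O h p r r)⁻¹ * m r := by
    field_simp
  simp only [sg, cc, e, e1, e2]
  rw [hv, smul_add, smul_smul, smul_smul, smul_smul, smul_smul, k1, k2]

/-- Hint: if `EqOn h₁ h₂ (ball 0 1)` take `h₁` (`F_congr`, `O_congr`). Otherwise apply `Gen.mir` with
`γ = 1 / (k + 1)`, `𝒰 = hyperfilter ℕ`, `Pre.adm_limit_deep`, `dil_tendsto`, `pen_lim`. By `pen_den` the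
zeros `w k` tend to `r` (`tau → σ`, `c → 1`), so `F h p = r` and `h` is a maximiser; `μ k (w k) → m r`
(`TendstoLocallyUniformlyOn.tendsto_comp`), `O hⱼ p r (cⱼ w) → O hⱼ p r r` (`cls2_O_diff`), so
`den → O h p r r ≠ 0` (`sg_pen`) and `σ = m r O₂ / O`. -/
theorem Gen.sg_conv (G : Gen D) (hp : p ∈ D) (m1 : Mx D h₁ p) (m2 : Mx D h₂ p) {r : ℝ}
    (hr : 0 < r) (e1 : F h₁ p = r) (e2 : F h₂ p = r) {σ : ℝ} (hσ : σ ∈ Icc (0 : ℝ) 1) :
    ∃ h, Mx D h p ∧ sg h p = (1 - σ) • sg h₁ p + σ • sg h₂ p := by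
  have s1 : Adm {p} h₁ := m1.1.mono (singleton_subset_iff.2 hp)
  have s2 : Adm {p} h₂ := m2.1.mono (singleton_subset_iff.2 hp)
  have hrb : (r : ℂ) ∈ ball (0 : ℂ) 1 := e1 ▸ (m1.1.F_spec hp).1
  by_cases hne : EqOn h₁ h₂ (ball 0 1)
  · refine ⟨h₁, m1, ?_⟩
    have : sg h₂ p = sg h₁ p := by
      simp only [sg, cc, e1, e2]
      rw [O_congr hne p hrb hrb, hne hrb]
    rw [this, ← add_smul, sub_add_cancel, one_smul]
  have hγ : ∀ k : ℕ, (0 : ℝ) < 1 / ((k : ℝ) + 1) := fun k => Nat.one_div_pos_of_nat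
  choose δ hδ c₁ c₂ hc t1 t2 μ hμ hpZ hA hτ using
    fun k : ℕ => G.mir hp m1 m2 hr e1 e2 hσ (hγ k)
  set 𝒰 : Ultrafilter ℕ := hyperfilter ℕ with h𝒰
  have hU : (𝒰 : Filter ℕ) ≤ atTop := Nat.hyperfilter_le_atTop
  have h0 : Tendsto (fun k : ℕ => 1 / ((k : ℝ) + 1)) 𝒰 (𝓝 0) :=
    tendsto_one_div_add_atTop_nhds_zero_nat.mono_left hU
  have tδ : Tendsto δ 𝒰 (𝓝 0) :=
    squeeze_zero (fun k => (hδ k).1.le) (fun k => (hδ k).2.le) h0
  have tc1 : Tendsto c₁ 𝒰 (𝓝 1) := tendsto_iff_norm_sub_tendsto_zero.2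
    (squeeze_zero (fun k => norm_nonneg _) (fun k => (t1 k).le) h0)
  have tc2 : Tendsto c₂ 𝒰 (𝓝 1) := tendsto_iff_norm_sub_tendsto_zero.2
    (squeeze_zero (fun k => norm_nonneg _) (fun k => (t2 k).le) h0)
  have tτ := tendsto_iff_norm_sub_tendsto_zero.2
    (squeeze_zero (fun k => norm_nonneg _) hτ h0)
  obtain ⟨h, ah, lh, fh⟩ := G.adm_limit_deep 𝒰 tδ (Eventually.of_forall hA)
  obtain ⟨d, hd, hdb, m, hm, lm, em⟩ := pen_lim 𝒰 m1.1.1 m2.1.1 ah.1 hμ
    (dil_tendsto m1.1.1 tc1) (dil_tendsto m2.1.1 tc2) lh hne hrb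
  have hnr : ‖(r : ℂ)‖ = r := by rw [Complex.norm_real, Real.norm_of_nonneg hr.le]
  have hpd := fun k => pen_den s1 s2 e1 e2 (hnr.trans_lt (hc k).1) (hnr.trans_lt (hc k).2.1)
    (hc k).2.2.1 (hc k).2.2.2 (hμ k) ((hA k).mono (singleton_subset_iff.2 (hpZ k)))
  set w : ℕ → ℂ := fun k => F (pen (dil h₁ (c₁ k)) (dil h₂ (c₂ k)) (μ k)) p with hw
  have q1 : Tendsto (fun k => (r : ℂ) / c₁ k) 𝒰 (𝓝 ((r : ℂ) / 1)) :=
    tendsto_const_nhds.div tc1 one_ne_zero
  have q2 : Tendsto (fun k => (r : ℂ) / c₂ k) 𝒰 (𝓝 ((r : ℂ) / 1)) :=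
    tendsto_const_nhds.div tc2 one_ne_zero
  have tw : Tendsto w 𝒰 (𝓝 (r : ℂ)) := by
    have := q1.add (tτ.mul (q2.sub q1))
    rw [sub_self, mul_zero, add_zero, div_one] at this
    exact this.congr fun k => (hpd k).2.symm
  have eh : F h p = r := tendsto_nhds_unique (fh p hp) tw
  have hrd : (r : ℂ) ∈ ball (r : ℂ) d := mem_ball_self hd
  have tμ : Tendsto (fun k => μ k (w k)) 𝒰 (𝓝 (m r)) :=
    lm.tendsto_comp (hm.continuousOn r hrd) hrd (by rwa [isOpen_ball.nhdsWithin_eq hrd])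
  have tO : ∀ {g : ℂ → E n} {c : ℕ → ℂ}, DifferentiableOn ℂ g (ball 0 1) → Tendsto c 𝒰 (𝓝 1) →
      Tendsto (fun k => O g p r (c k * w k)) 𝒰 (𝓝 (O g p r r)) := by
    intro g c hg tc
    have h1 : ContinuousAt (O g p r) r :=
      ((cls2_O_diff hg p hrb).differentiableAt (isOpen_ball.mem_nhds hrb)).continuousAt
    have h2 := tc.mul tw
    rw [one_mul] at h2
    exact h1.tendsto.comp h2
  have hr0 : (r : ℂ) ≠ 0 := ofReal_ne_zero.2 hr.ne'
  obtain ⟨hO, hs⟩ := sg_pen (ah.mono (singleton_subset_iff.2 hp)) s1 s2 eh e1 e2 hr0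
    (hm.differentiableAt (isOpen_ball.mem_nhds hrd))
    (em.eventuallyEq_of_mem (isOpen_ball.mem_nhds hrd))
  have n0 : O h p r r ≠ 0 := by
    have := (ah.F_spec hp).2.2 r hrb
    rwa [eh] at this
  have tden : Tendsto (fun k => den h₁ h₂ p r (c₁ k) (c₂ k) (μ k) (w k)) 𝒰 (𝓝 (O h p r r)) := by
    rw [hO]
    exact ((tμ.const_sub 1).mul (tO m1.1.1 tc1)).add (tμ.mul (tO m2.1.1 tc2))
  have tτ' : Tendsto (fun k => tau h₁ h₂ p r (c₁ k) (c₂ k) (μ k) (w k)) 𝒰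
      (𝓝 (m r * O h₂ p r r / O h p r r)) := (tμ.mul (tO m2.1.1 tc2)).div tden n0
  have eσ : m r * O h₂ p r r / O h p r r = σ := tendsto_nhds_unique tτ' tτ
  refine ⟨h, ⟨ah, by rw [eh, ← e1, m1.2]⟩, ?_⟩
  rw [hs, eσ, ← Complex.coe_smul, ← Complex.coe_smul, ofReal_sub, ofReal_one]

/-- Hint: `Adm.rot` with `u` from `exists_norm_eq_mul_self`; `O_self` and the derivative `d3` in the
proof of `Adm.rot`. -/
theorem Mx.rot (hp : p ∈ D) (hh : Mx D h p) :
    ∃ h', Mx D h' p ∧ F h' p = (U0 D p : ℝ) ∧ sg h' p = sg h p := by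
  obtain ⟨u, hu, he⟩ := Complex.exists_norm_eq_mul_self (F h p)
  obtain ⟨hA, hF, -⟩ := hh.1.rot hu
  have hcu : conj u * u = 1 := by
    rw [mul_comm, mul_conj', hu]
    simp
  have hu0 : u ≠ 0 := by
    rintro rfl
    simp at hu
  have h1 := (hh.1.F_spec hp).1
  refine ⟨_, ⟨hA, by rw [hF p hp, norm_mul, hu, one_mul, hh.2]⟩,
    by rw [hF p hp, ← he, hh.2], ?_⟩
  have d1 : HasDerivAt h (deriv h (F h p)) (conj u * (u * F h p)) := by
    rw [← mul_assoc, hcu, one_mul]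
    exact (hh.1.1.differentiableAt (isOpen_ball.mem_nhds h1)).hasDerivAt
  have d2 : HasDerivAt (fun ω => conj u * ω) (conj u * 1) (u * F h p) :=
    (hasDerivAt_id _).const_mul _
  have d3 : HasDerivAt (fun ω => u • h (conj u * ω)) (u • (conj u * 1) • deriv h (F h p))
      (u * F h p) := (d1.scomp (u * F h p) d2).const_smul u
  have hO : O (fun ω => u • h (conj u * ω)) p (u * F h p) (u * F h p) =
      O h p (F h p) (F h p) := by
    rw [O_self, O_self, d3.deriv, smul_smul, mul_one, mul_comm, hcu, one_smul]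
  simp only [sg, cc, hF p hp]
  rw [hO, ← mul_assoc (conj u), hcu, one_mul, smul_smul, mul_assoc, mul_inv, mul_right_comm,
    inv_mul_cancel₀ hu0, one_mul]

theorem Gen.Sg_convex (G : Gen D) (hp : p ∈ D) (hp0 : p ≠ 0) : Convex ℝ (Sg D p) := by
  rintro _ ⟨h₁, m1, rfl⟩ _ ⟨h₂, m2, rfl⟩ a b ha hb hab
  obtain ⟨k₁, n1, e1, s1⟩ := m1.rot hp
  obtain ⟨k₂, n2, e2, s2⟩ := m2.rot hp
  obtain ⟨h, hh, he⟩ := G.sg_conv hp n1 n2 (G.U0_pos hp hp0) e1 e2 (σ := b) ⟨hb, by linarith⟩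
  exact ⟨h, hh, by rw [he, s1, s2, show 1 - b = a by linarith]⟩

end Pool.Agent.MP_4baaa2_an.H94

end
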