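import Pool.Agent.MP_4baaa2_an.Mg.H94_Ha1

/-!
Bounded holomorphic functions on an annulus.
-/

namespace Pool.Agent.MP_4baaa2_an.H94

open Set Metric Filter Topology Complex MeasureTheory
open scoped ComplexConjugate
open Pool.Agent.Lib.PlaneTop

section
variable {V : Type*} [NormedAddCommGroup V] [NormedSpace ℂ V] [CompleteSpace V]

theorem ha5_nm {r : ℝ} (hr : 0 ≤ r) (t : TT) : ‖(r : ℂ) * ec t‖ = r := by
  rw [norm_mul, norm_ec, Complex.norm_real, Real.norm_eq_abs, abs_of_nonneg hr, mul_one]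

omit [NormedSpace ℂ V] [CompleteSpace V] in
theorem ha5_cont {f : ℂ → V} {r : ℝ} (hr : 0 ≤ r) (hf : ContinuousOn f (sphere 0 r)) :
    Continuous fun t => f (r * ec t) :=
  hf.comp_continuous (by fun_prop) fun t => mem_sphere_zero_iff_norm.2 (ha5_nm hr t)

omit [NormedSpace ℂ V] [CompleteSpace V] in
theorem ha5_int {g : TT → V} (hg : Continuous g) : Integrable g :=
  hg.integrable_of_hasCompactSupport (HasCompactSupport.of_compactSpace g)

theorem ha5_sph {a r : ℝ} (h1 : a < r) (h2 : r < 1) : sphere (0 : ℂ) r ⊆ Ann a := fun ω hω => by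
  rw [mem_sphere_zero_iff_norm] at hω
  exact ⟨hω ▸ h1, hω ▸ h2⟩

omit [CompleteSpace V] in
theorem ha5_diff {f : ℂ → V} {r : ℝ} (hr : 0 < r) (hf : ContinuousOn f (sphere 0 r)) {w : ℂ}
    (hw : ‖w‖ ≠ r) : DifferentiableAt ℂ
      (fun x => Real.circleAverage (fun ω => (ω / (ω - x)) • f ω) 0 r) w := by
  simp only [avg_eq]
  have hg := ha5_cont hr.le hf
  set δ := |‖w‖ - r| / 2 with hδ
  have hδ0 : 0 < δ := half_pos (abs_pos.2 (sub_ne_zero.2 hw))
  have hlow : ∀ x ∈ ball w δ, ∀ t, δ ≤ ‖(r : ℂ) * ec t - x‖ := fun x hx t => by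
    have h1 := abs_norm_sub_norm_le w ((r : ℂ) * ec t)
    have h2 := norm_sub_le_norm_sub_add_norm_sub w x ((r : ℂ) * ec t)
    rw [ha5_nm hr.le] at h1
    rw [mem_ball, dist_eq_norm, norm_sub_rev] at hx
    rw [norm_sub_rev]
    linarith
  have hne : ∀ x ∈ ball w δ, ∀ t, (r : ℂ) * ec t - x ≠ 0 := fun x hx t =>
    norm_pos_iff.1 (hδ0.trans_le (hlow x hx t))
  have hc : ∀ x ∈ ball w δ, Continuous fun t => ((r : ℂ) * ec t / (r * ec t - x)) • f (r * ec t) :=
    fun x hx => (Continuous.div (by fun_prop) (by fun_prop) (hne x hx)).smul hg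
  refine (hasDerivAt_integral_of_dominated_loc_of_deriv_le (ball_mem_nhds w hδ0)
    (F' := fun x t => ((r : ℂ) * ec t / (r * ec t - x) ^ 2) • f (r * ec t))
    (bound := fun t => r / δ ^ 2 * ‖f (r * ec t)‖) ?_ (ha5_int (hc w (mem_ball_self hδ0))) ?_
    (ae_of_all _ fun t x hx => ?_) (ha5_int (continuous_const.mul hg.norm)) (ae_of_all _ fun t x hx => ?_)
    ).2.differentiableAt
  · filter_upwards [ball_mem_nhds w hδ0] with x hx using (hc x hx).aestronglyMeasurable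
  · exact ((Continuous.div (by fun_prop) (by fun_prop) fun t =>
      pow_ne_zero 2 (hne w (mem_ball_self hδ0) t)).smul hg).aestronglyMeasurable
  · rw [norm_smul, norm_div, norm_pow, ha5_nm hr.le]
    exact mul_le_mul_of_nonneg_right (div_le_div_of_nonneg_left hr.le (pow_pos hδ0 2)
      (pow_le_pow_left₀ hδ0.le (hlow x hx t) 2)) (norm_nonneg _)
  · refine HasDerivAt.smul_const ?_ _
    have := (hasDerivAt_const x ((r : ℂ) * ec t)).fun_div
      ((hasDerivAt_id' x).const_sub ((r : ℂ) * ec t)) (hne x hx t)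
    convert this using 1
    ring

omit [CompleteSpace V] in
theorem ha5_rad {f : ℂ → V} {a₀ r s : ℝ} (hf : DifferentiableOn ℂ f (Ann a₀)) {w : ℂ}
    (h1 : a₀ < r) (h2 : ‖w‖ < r) (h3 : r ≤ s) (h4 : s < 1) :
    Real.circleAverage (fun ω => (ω / (ω - w)) • f ω) 0 r =
      Real.circleAverage (fun ω => (ω / (ω - w)) • f ω) 0 s := by
  refine ann_mean ((norm_nonneg w).trans_lt h2) h3 (isOpen_Ann (max a₀ ‖w‖))
    (fun x hx hx' => ⟨(max_lt h1 h2).trans_le hx, hx'.trans_lt h4⟩) ?_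
  refine (DifferentiableOn.div (by fun_prop) (by fun_prop) fun ω hω => ?_).smul
    (hf.mono fun ω hω => ⟨(le_max_left _ _).trans_lt hω.1, hω.2⟩)
  rw [sub_ne_zero]
  rintro rfl
  exact absurd hω.1 (not_lt.2 (le_max_right _ _))

/-- Laurent splitting -/
theorem laurent {f : ℂ → V} {a₀ a : ℝ} (h0 : 0 < a) (ha₀ : a₀ < a) (ha : a < 1)
    (hf : DifferentiableOn ℂ f (Ann a₀)) : ∃ f₁ f₂ : ℂ → V, DifferentiableOn ℂ f₁ (ball 0 1) ∧
      DifferentiableOn ℂ f₂ {w | a < ‖w‖} ∧ (∀ w ∈ Ann a, f w = f₁ w + f₂ w) ∧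
      (∀ w : ℂ, a < ‖w‖ → f₂ w = -Real.circleAverage (fun ω => (ω / (ω - w)) • f ω) 0 a) ∧
      ∀ (g : ℂ → V) (B : ℝ), DifferentiableOn ℂ g (closedBall 0 a) →
        (∀ ω ∈ sphere (0 : ℂ) a, ‖f ω - g ω‖ ≤ B) →
        ∀ w : ℂ, a < ‖w‖ → ‖f₂ w‖ ≤ B * a / (‖w‖ - a) := by
  have hb : ∀ w : ℂ, ‖w‖ < 1 → a < (1 + max a ‖w‖) / 2 ∧ ‖w‖ < (1 + max a ‖w‖) / 2 ∧
      (1 + max a ‖w‖) / 2 < 1 := fun w hw => by
    have := max_lt ha hw
    have := le_max_left a ‖w‖
    have := le_max_right a ‖w‖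
    exact ⟨by linarith, by linarith, by linarith⟩
  have hfa := hf.continuousOn.mono (ha5_sph ha₀ ha)
  refine ⟨fun w => Real.circleAverage (fun ω => (ω / (ω - w)) • f ω) 0 ((1 + max a ‖w‖) / 2),
    fun w => -Real.circleAverage (fun ω => (ω / (ω - w)) • f ω) 0 a, fun w hw => ?_,
    fun w hw => (ha5_diff h0 hfa (ne_of_gt hw)).neg.differentiableWithinAt, fun w hw => ?_,
    fun _ _ => rfl, fun g B hg hB w hw => ?_⟩
  · obtain ⟨b1, b2, b3⟩ := hb w (mem_ball_zero_iff.1 hw)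
    set b := (1 + max a ‖w‖) / 2
    refine ((ha5_diff (h0.trans b1) (hf.continuousOn.mono (ha5_sph (ha₀.trans b1) b3))
      b2.ne).congr_of_eventuallyEq ?_).differentiableWithinAt
    filter_upwards [isOpen_ball.mem_nhds (mem_ball_zero_iff.2 b2)] with x hx
    rw [mem_ball_zero_iff] at hx
    obtain ⟨c1, c2, c3⟩ := hb x (hx.trans b3)
    rcases le_total b ((1 + max a ‖x‖) / 2) with h | h
    · exact (ha5_rad hf (ha₀.trans b1) hx h c3).symm
    · exact ha5_rad hf (ha₀.trans c1) c2 h b3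
  · obtain ⟨b1, b2, b3⟩ := hb w hw.2
    rw [← sub_eq_add_neg]
    exact (ann_cauchy h0 (isOpen_Ann a₀) (fun x h1 h2 => ⟨ha₀.trans_le h1, h2.trans_lt b3⟩) hf
      hw.1 b2).symm
  · have h2 : Real.circleAverage (fun ω => (ω / (ω - w)) • g ω) 0 a = 0 := by
      rw [cx5_center h0 ((cx5_ker' hw).fun_smul hg)]
      simp
    have h3 := Real.circleAverage_fun_sub
      (((cx5_ker hw.ne').fun_smul hfa).circleIntegrable h0.le)
      (((cx5_ker hw.ne').fun_smul (hg.continuousOn.mono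
        sphere_subset_closedBall)).circleIntegrable h0.le)
    rw [h2, sub_zero] at h3
    rw [norm_neg, ← h3]
    refine norm_avg_le h0 fun ω hω => ?_
    have q1 : ‖w‖ - a ≤ ‖ω - w‖ := by
      rw [norm_sub_rev, ← mem_sphere_zero_iff_norm.1 hω]; exact norm_sub_norm_le _ _
    rw [← smul_sub, norm_smul, norm_div, mem_sphere_zero_iff_norm.1 hω, mul_comm, mul_div_assoc]
    exact mul_le_mul (hB ω hω) (div_le_div_of_nonneg_left h0.le (sub_pos.2 hw) q1)
      (div_nonneg h0.le (norm_nonneg _)) ((norm_nonneg _).trans (hB ω hω))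

open Real in
theorem ha5_poisson {L : ℂ → V} {U : Set ℂ} {a b B : ℝ} (ha : 0 < a) (hU : IsOpen U)
    (hsub : ∀ w : ℂ, a ≤ ‖w‖ → ‖w‖ ≤ b → w ∈ U) (hL : DifferentiableOn ℂ L U)
    (hB : ∀ ω ∈ sphere (0 : ℂ) a, ‖L ω‖ ≤ B) {w : ℂ} (haw : a < ‖w‖) (hwb : ‖w‖ < b) :
    ‖L w - circleAverage (fun ω => poissonKernel 0 w ω • L ω) 0 b‖ ≤
      B * (b ^ 2 - ‖w‖ ^ 2) * a / ((‖w‖ - a) * (b ^ 2 - ‖w‖ * a)) := by
  have hab : a ≤ b := (haw.trans hwb).le
  have hb : 0 < b := ha.trans_le hab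
  have hc := ann_cauchy ha hU hsub hL haw hwb
  set f₁ : ℂ → V := fun ω => (ω / (ω - w)) • L ω with hf₁
  set f₂ : ℂ → V := fun ω => (conj w * ω / ((b : ℂ) ^ 2 - conj w * ω)) • L ω with hf₂
  have hd₂ : DifferentiableOn ℂ f₂ (U ∩ {ω : ℂ | (b : ℂ) ^ 2 - conj w * ω ≠ 0}) :=
    (DifferentiableOn.div (by fun_prop) (by fun_prop) fun ω hω => hω.2).smul
      (hL.mono inter_subset_left)
  have hsub₂ : ∀ ω : ℂ, a ≤ ‖ω‖ → ‖ω‖ ≤ b → ω ∈ U ∩ {ω : ℂ | (b : ℂ) ^ 2 - conj w * ω ≠ 0} :=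
    fun ω h1 h2 => ⟨hsub ω h1 h2, cx5_den hwb h2⟩
  have hm := ann_mean ha hab (hU.inter (cx5_open w b)) hsub₂ hd₂
  have int : ∀ r, a ≤ r → r ≤ b → ‖w‖ ≠ r → CircleIntegrable f₁ 0 r ∧ CircleIntegrable f₂ 0 r := by
    intro r h1 h2 h3
    have hr : 0 < r := ha.trans_le h1
    have hs : sphere (0 : ℂ) r ⊆ U ∩ {ω : ℂ | (b : ℂ) ^ 2 - conj w * ω ≠ 0} := fun ω hω => by
      rw [mem_sphere_zero_iff_norm] at hω
      exact hsub₂ ω (hω ▸ h1) (hω ▸ h2)
    exact ⟨((cx5_ker h3).fun_smul (hL.continuousOn.mono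
      (hs.trans inter_subset_left))).circleIntegrable hr.le,
      (hd₂.continuousOn.mono hs).circleIntegrable hr.le⟩
  obtain ⟨ia₁, ia₂⟩ := int a le_rfl hab haw.ne'
  obtain ⟨ib₁, ib₂⟩ := int b hab le_rfl hwb.ne
  have e1 : circleAverage (fun ω => poissonKernel 0 w ω • L ω) 0 b =
      circleAverage (f₁ + f₂) 0 b := by
    refine circleAverage_congr_sphere fun ω hω => ?_
    rw [abs_of_pos hb] at hω
    have n1 := cx5_ne hω hwb.ne
    rw [mem_sphere_zero_iff_norm] at hω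
    have n2 := cx5_den hwb hω.le
    have n3 : conj ω - conj w ≠ 0 := by rw [← map_sub, map_ne_zero]; exact n1
    have n4 : ω ≠ 0 := by rw [← norm_pos_iff, hω]; exact hb
    have hb2 : (b : ℂ) ^ 2 = ω * conj ω := by rw [mul_conj', hω]
    simp only [hf₁, hf₂, Pi.add_apply, ← add_smul, ← Complex.coe_smul, poissonKernel_def, sub_zero]
    push_cast
    rw [← mul_conj', ← mul_conj', ← mul_conj', map_sub, hb2, mul_comm (conj w) ω, ← mul_sub]
    congr 1
    field_simp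
    ring
  have e2 : circleAverage (f₁ + f₂) 0 b = L w + circleAverage (f₁ + f₂) 0 a := by
    rw [circleAverage_add ib₁ ib₂, circleAverage_add ia₁ ia₂, ← hc, hm]
    abel
  rw [e1, e2, sub_add_cancel_left, norm_neg]
  refine norm_avg_le ha fun ω hω => ?_
  have n1 := cx5_ne hω haw.ne'
  have hBω := hB ω hω
  rw [mem_sphere_zero_iff_norm] at hω
  have n2 := cx5_den hwb (hω.le.trans hab)
  have p1 : 0 < b ^ 2 - ‖w‖ ^ 2 := by nlinarith only [norm_nonneg w, hwb]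
  have p2 : 0 < b ^ 2 - ‖w‖ * a := by nlinarith only [norm_nonneg w, hwb, haw, ha]
  have p3 : 0 < ‖w‖ - a := sub_pos.2 haw
  have : (f₁ + f₂) ω = (((b ^ 2 - ‖w‖ ^ 2 : ℝ) : ℂ) * ω /
      ((ω - w) * ((b : ℂ) ^ 2 - conj w * ω))) • L ω := by
    simp only [hf₁, hf₂, Pi.add_apply, ← add_smul]
    push_cast
    rw [← mul_conj' w, div_add_div _ _ n1 n2]
    congr 2
    ring
  rw [this, norm_smul, norm_div, norm_mul, norm_mul, Complex.norm_real, Real.norm_eq_abs,
    abs_of_pos p1, hω, mul_comm, mul_assoc B, mul_div_assoc B]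
  have q1 : ‖w‖ - a ≤ ‖ω - w‖ := by
    rw [norm_sub_rev, ← hω]; exact norm_sub_norm_le _ _
  have q2 := cx5_den_le w ω hb
  rw [hω] at q2
  have hB0 : 0 ≤ B := (norm_nonneg _).trans hBω
  gcongr

theorem ha5_K {a a' b B x : ℝ} (ha : 0 < a) (haa : a < a') (hB : 0 ≤ B) (h1 : a' < x) (h2 : x < b)
    (h3 : b < 1) : B * (b ^ 2 - x ^ 2) * a / ((x - a) * (b ^ 2 - x * a)) ≤
      2 * a / ((a' - a) * (a' * (a' - a))) * B * (1 - x) := by
  have e : 2 * a / ((a' - a) * (a' * (a' - a))) * B * (1 - x) =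
      B * (2 * (1 - x)) * a / ((a' - a) * (a' * (a' - a))) := by ring
  rw [e]
  have h0 : 0 < a' - a := sub_pos.2 haa
  have h0' : 0 < a' := ha.trans haa
  have h4 : b ^ 2 - x ^ 2 ≤ 2 * (1 - x) := by nlinarith
  have h5 : a' * (a' - a) ≤ b ^ 2 - x * a := by nlinarith
  have h6 : 0 ≤ 1 - x := by linarith
  have h7 : 0 ≤ x - a := by linarith
  gcongr

theorem ha5_B {f : ℂ → ℝ} {a B : ℝ} (ha : 0 < a) (h0 : ∀ ω, 0 ≤ f ω)
    (h : ∀ ω ∈ sphere (0 : ℂ) a, f ω ≤ B) : 0 ≤ B :=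
  (h0 _).trans (h a (by simp [ha.le]))

theorem ha5_ker {w : ℂ} {b : ℝ} (h1 : (1 + ‖w‖) / 2 < b) (h2 : b < 1) :
    (Continuous fun t => poissonKernel 0 w (b * ec t)) ∧ ∀ t, 0 ≤ poissonKernel 0 w (b * ec t) ∧
      poissonKernel 0 w (b * ec t) ≤ 1 / ((1 - ‖w‖) / 2) ^ 2 := by
  have hw := norm_nonneg w
  have hb : 0 ≤ b := by linarith
  have hp : 0 < (1 - ‖w‖) / 2 := by linarith
  have hl : ∀ t, (1 - ‖w‖) / 2 ≤ ‖(b : ℂ) * ec t - w‖ := fun t => by
    have := norm_sub_norm_le ((b : ℂ) * ec t) w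
    rw [ha5_nm hb] at this
    linarith
  simp only [poissonKernel_def, sub_zero, ha5_nm hb]
  refine ⟨Continuous.div (by fun_prop) (by fun_prop) fun t => (pow_pos (hp.trans_le (hl t)) 2).ne',
    fun t => ⟨div_nonneg (by nlinarith) (sq_nonneg _), ?_⟩⟩
  exact div_le_div₀ zero_le_one (by nlinarith) (pow_pos hp 2) (pow_le_pow_left₀ hp.le (hl t) 2)

/-- Poisson representation up to a small error -/
theorem rep_ann {a a' : ℝ} (h0 : 0 < a) (haa : a < a') (ha' : a' < 1) : ∃ K > 0,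
    ∀ (f : ℂ → V) (fs : TT → V) (a₀ B C : ℝ), a₀ < a → DifferentiableOn ℂ f (Ann a₀) →
      (∀ w ∈ Ann a, ‖f w‖ ≤ C) → (∀ ω ∈ sphere (0 : ℂ) a, ‖f ω‖ ≤ B) → RL f fs →
      ∀ w ∈ Ann a', ‖f w - PI fs w‖ ≤ K * B * (1 - ‖w‖) := by
  have p0 : 0 < a' - a := sub_pos.2 haa
  have p1 : 0 < a' := h0.trans haa
  refine ⟨2 * a / ((a' - a) * (a' * (a' - a))), by positivity, ?_⟩
  rintro f fs a₀ B C ha₀ hf hC hB h w ⟨hw1, hw2⟩
  have hB0 := ha5_B h0 (fun ω => norm_nonneg (f ω)) hB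
  have hev : ∀ᶠ b : ℝ in 𝓝[<] 1, b ∈ Ioo ((1 + ‖w‖) / 2) 1 := Ioo_mem_nhdsLT (by linarith)
  have ht : Tendsto (fun b : ℝ => ∫ t, poissonKernel 0 w (b * ec t) • f (b * ec t)) (𝓝[<] 1)
      (𝓝 (PI fs w)) := by
    refine tendsto_integral_filter_of_dominated_convergence (fun _ => 1 / ((1 - ‖w‖) / 2) ^ 2 * C)
      ?_ ?_ (integrable_const _) ?_
    · filter_upwards [hev] with b hb
      exact ((ha5_ker hb.1 hb.2).1.smul (ha5_cont (by linarith [hb.1]) (hf.continuousOn.mono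
        (ha5_sph (by linarith [hb.1]) hb.2)))).aestronglyMeasurable
    · filter_upwards [hev] with b hb
      refine ae_of_all _ fun t => ?_
      obtain ⟨k1, k2⟩ := (ha5_ker hb.1 hb.2).2 t
      rw [norm_smul, Real.norm_eq_abs, abs_of_nonneg k1]
      refine mul_le_mul k2 (hC _ (ha5_sph (r := b) (by linarith [hb.1]) hb.2 ?_)) (norm_nonneg _)
        (k1.trans k2)
      exact mem_sphere_zero_iff_norm.2 (ha5_nm (by linarith [hb.1]) t)
    · filter_upwards [h] with t ht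
      refine Tendsto.smul (Tendsto.mono_left ?_ nhdsWithin_le_nhds) ht
      have : ContinuousAt (fun b : ℝ => poissonKernel 0 w (b * ec t)) 1 := by
        simp only [poissonKernel_def, sub_zero]
        refine ContinuousAt.div (by fun_prop) (by fun_prop) ?_
        simpa using ec_sub_ne hw2 t
      simpa [poissonKernel_def, Pk] using this.tendsto
  refine le_of_tendsto (tendsto_const_nhds.sub ht).norm ?_
  filter_upwards [hev] with b hb
  have hwb : ‖w‖ < b := by linarith [hb.1]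
  have := ha5_poisson h0 (isOpen_Ann a₀) (fun x h1 h2 => ⟨ha₀.trans_le h1, h2.trans_lt hb.2⟩) hf
    hB (haa.trans hw1) hwb
  rw [avg_eq] at this
  exact this.trans (ha5_K h0 haa hB0 hw1 hwb hb.2)

end

theorem exists_RL_ann {V : Type*} [NormedAddCommGroup V] [InnerProductSpace ℂ V]
    [FiniteDimensional ℂ V] {f : ℂ → V} {a B : ℝ} (ha : a < 1)
    (hf : DifferentiableOn ℂ f (Ann a)) (hB : ∀ w ∈ Ann a, ‖f w‖ ≤ B) :
    ∃ fs : TT → V, StronglyMeasurable fs ∧ (∀ t, ‖fs t‖ ≤ B) ∧ RL f fs := by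
  have : CompleteSpace V := FiniteDimensional.complete ℂ V
  obtain ⟨c, hc1, hc2⟩ := exists_between (max_lt ha zero_lt_one)
  obtain ⟨d, hd1, hd2⟩ := exists_between hc2
  have hac : a < c := (le_max_left _ _).trans_lt hc1
  have hc0 : 0 < c := (le_max_right _ _).trans_lt hc1
  have hBc : ∀ ω ∈ sphere (0 : ℂ) c, ‖f ω‖ ≤ B := fun ω hω => hB ω (ha5_sph hac hc2 hω)
  have hB0 := ha5_B hc0 (fun ω => norm_nonneg (f ω)) hBc
  obtain ⟨f₁, f₂, h1, h2, h3, -, h4⟩ := laurent hc0 hac hc2 hf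
  obtain ⟨M, hM⟩ := (isCompact_closedBall (0 : ℂ) d).exists_bound_of_continuousOn
    (h1.continuousOn.mono (closedBall_subset_ball hd2))
  have hb : HB f₁ (max M (B + B * c / (d - c))) := ⟨h1, fun w hw => by
    rcases le_or_gt ‖w‖ d with h | h
    · exact (hM w (mem_closedBall_zero_iff.2 h)).trans (le_max_left _ _)
    · refine le_trans ?_ (le_max_right _ _)
      rw [mem_ball_zero_iff] at hw
      rw [← sub_eq_iff_eq_add.2 (h3 w ⟨hd1.trans h, hw⟩)]
      refine (norm_sub_le _ _).trans (add_le_add (hB w ⟨(hac.trans hd1).trans h, hw⟩) ?_)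
      refine (h4 (fun _ => 0) B (differentiableOn_const _) (by simpa using hBc) w
        (hd1.trans h)).trans ?_
      exact div_le_div_of_nonneg_left (mul_nonneg hB0 hc0.le) (sub_pos.2 hd1) (by linarith)⟩
  obtain ⟨g, hg1, -, hg2⟩ := hb.exists_RL
  have hr := RL_of_cont (U := {w | c < ‖w‖}) hc2 (fun w h _ => h) h2.continuousOn
  have hs : RL f fun t => g t + f₂ (ec t) := by
    refine RL.congr (f := fun w => f₁ w + f₂ w) ?_ hc2 h3
    filter_upwards [hg2, hr] with t k1 k2 using k1.add k2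
  have hm : StronglyMeasurable fun t => g t + f₂ (ec t) :=
    hg1.add (h2.continuousOn.comp_continuous continuous_ec fun t => by
      simpa using hc2).stronglyMeasurable
  refine ⟨{t | ‖g t + f₂ (ec t)‖ ≤ B}.indicator fun t => g t + f₂ (ec t),
    hm.indicator (measurableSet_le hm.norm.measurable measurable_const), fun t => ?_, ?_⟩
  · by_cases h : t ∈ {t | ‖g t + f₂ (ec t)‖ ≤ B}
    · rw [indicator_of_mem h]; exact h
    · rw [indicator_of_notMem h, norm_zero]; exact hB0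
  · filter_upwards [hs, hs.bound ha hB] with t k1 k2
    rwa [indicator_of_mem (by exact k2)]

theorem exists_RL_arg {Y : ℂ → ℂ} {a : ℝ} (ha : a < 1) (hY : DifferentiableOn ℂ Y (Ann a))
    (h : ∀ w ∈ Ann a, 0 < (Y w).re) :
    ∃ υ : TT → ℝ, Measurable υ ∧ (∀ t, |υ t| ≤ Real.pi / 2) ∧ RL (fun w => arg (Y w)) υ := by
  have hn : ∀ w, ‖exp (I * log (Y w))‖ = Real.exp (-arg (Y w)) := fun w => by
    rw [Complex.norm_exp]; simp [log_im]
  have hb : ∀ w ∈ Ann a, |arg (Y w)| ≤ Real.pi / 2 := fun w hw =>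
    abs_arg_le_pi_div_two_iff.2 (h w hw).le
  obtain ⟨fs, h1, h2, h3⟩ := exists_RL_ann (f := fun w => exp (I * log (Y w)))
    (B := Real.exp (Real.pi / 2)) ha
    ((hY.clog fun w hw => Or.inl (h w hw)).const_mul I).cexp fun w hw => by
      rw [hn]; exact Real.exp_le_exp.2 (neg_le.1 (abs_le.1 (hb w hw)).1)
  have h4 := h3.mem ha (S := {z | Real.exp (-(Real.pi / 2)) ≤ ‖z‖}) fun w hw => by
    rw [mem_ofPred_eq, hn]; exact Real.exp_le_exp.2 (neg_le_neg (abs_le.1 (hb w hw)).2)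
  rw [(isClosed_le continuous_const continuous_norm).closure_eq] at h4
  have hp := Real.pi_pos
  refine ⟨fun t => max (-(Real.pi / 2)) (min (Real.pi / 2) (-Real.log ‖fs t‖)),
    measurable_const.max (measurable_const.min h1.norm.measurable.log.neg), fun t =>
    abs_le.2 ⟨le_max_left _ _, max_le (by linarith) (min_le_left _ _)⟩, ?_⟩
  filter_upwards [h3, h4] with t k1 k2
  have k3 : 0 < ‖fs t‖ := (Real.exp_pos _).trans_le k2
  rw [min_eq_right (neg_le.1 ((Real.le_log_iff_exp_le k3).2 k2)),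
    max_eq_right (neg_le_neg ((Real.log_le_iff_le_exp k3).2 (h2 t)))]
  simpa only [hn, Real.log_exp, neg_neg] using (k1.norm.log k3.ne').neg

/-- maximum principle on the annulus -/
theorem ann_mp {f : ℂ → ℂ} {fs : TT → ℂ} {a₀ a B C : ℝ} (h0 : 0 < a) (ha₀ : a₀ < a) (ha : a < 1)
    (hf : DifferentiableOn ℂ f (Ann a₀)) (hC : ∀ w ∈ Ann a, ‖f w‖ ≤ C)
    (hB : ∀ ω ∈ sphere (0 : ℂ) a, ‖f ω‖ ≤ B) (h : RL f fs) (hs : ∀ᵐ t, ‖fs t‖ ≤ B) :
    ∀ w ∈ Ann a, ‖f w‖ ≤ B := by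
  intro w hw
  obtain ⟨a', h1, h2⟩ := exists_between hw.1
  obtain ⟨K, hK, H⟩ := rep_ann (V := ℂ) h0 h1 (h2.trans hw.2)
  have hB0 := ha5_B h0 (fun ω => norm_nonneg (f ω)) hB
  have key : ∀ N : ℕ, ‖f w‖ ^ N ≤ (1 + K) * B ^ N := fun N => by
    have k1 := H (fun w => f w ^ N) (fun t => fs t ^ N) a₀ (B ^ N) (C ^ N) ha₀ (hf.pow N)
      (fun w hw => by rw [norm_pow]; exact pow_le_pow_left₀ (norm_nonneg _) (hC w hw) N)
      (fun w hw => by rw [norm_pow]; exact pow_le_pow_left₀ (norm_nonneg _) (hB w hw) N)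
      (by filter_upwards [h] with t ht using ht.pow N) w ⟨h2, hw.2⟩
    have k2 := norm_PI_le_const (f := fun t => fs t ^ N) (B := B ^ N) (by
      filter_upwards [hs] with t ht
      rw [norm_pow]; exact pow_le_pow_left₀ (norm_nonneg _) ht N) hw.2
    have k3 := norm_sub_norm_le (f w ^ N) (PI (fun t => fs t ^ N) w)
    rw [norm_pow] at k3
    have k4 := mul_nonneg (mul_nonneg hK.le (pow_nonneg hB0 N)) (norm_nonneg w)
    linarith
  by_contra hlt
  rw [not_le] at hlt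
  rcases hB0.eq_or_lt with e | e
  · have := key 1
    rw [← e] at this hlt
    simp only [pow_one, mul_zero] at this
    linarith
  · obtain ⟨N, hN⟩ := pow_unbounded_of_one_lt (1 + K) ((one_lt_div e).2 hlt)
    rw [div_pow, lt_div_iff₀ (pow_pos e N)] at hN
    linarith [key N]

theorem ha5_fatou {u : ℕ → ℕ → TT → ℝ} {A : ℝ} (hu : ∀ k j, Continuous (u k j))
    (hA : ∀ k j t, u k j t ≤ A)
    (h : ∀ᵐ t, ∀ ε > 0, ∀ᶠ k in atTop, ∀ᶠ j in atTop, u k j t ≤ ε) {x : ℕ → ℝ} {y : ℝ}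
    (hx : ∀ k j, x k ≤ ∫ t, max (u k j t) 0) (hy : Tendsto x atTop (𝓝 y)) : y ≤ 0 := by
  have hm : ∀ k j, Measurable fun t => ENNReal.ofReal (u k j t) := fun k j =>
    (hu k j).measurable.ennreal_ofReal
  have hfin : ∫⁻ _ : TT, ENNReal.ofReal A ≠ ⊤ := by simp
  have h1 : ∀ k, ENNReal.ofReal (x k) ≤
      ∫⁻ t, limsup (fun j => ENNReal.ofReal (u k j t)) atTop := fun k => by
    refine le_trans (le_limsup_of_frequently_le' (Frequently.of_forall fun j => ?_))
      (limsup_lintegral_le _ (hm k) (fun j => ae_of_all _ fun t =>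
        ENNReal.ofReal_le_ofReal (hA k j t)) hfin)
    refine (ENNReal.ofReal_le_ofReal (hx k j)).trans (le_of_eq ?_)
    rw [ofReal_integral_eq_lintegral_ofReal (f := fun t => max (u k j t) 0)
      (ha5_int ((hu k j).max continuous_const)) (ae_of_all _ fun t => le_max_right _ _)]
    simp only [ENNReal.ofReal_max, ENNReal.ofReal_zero, zero_le, max_eq_left]
  have h2 := limsup_lintegral_le (μ := volume) (fun _ => ENNReal.ofReal A)
    (fun k => Measurable.limsup (hm k)) (fun k => ae_of_all _ fun t => limsup_le_of_le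
      (by isBoundedDefault) (Eventually.of_forall fun j => ENNReal.ofReal_le_ofReal (hA k j t))) hfin
  have h3 : ∫⁻ t, limsup (fun k => limsup (fun j => ENNReal.ofReal (u k j t)) atTop) atTop = 0 := by
    rw [← lintegral_zero]
    refine lintegral_congr_ae ?_
    filter_upwards [h] with t ht
    refine le_antisymm (ENNReal.le_of_forall_pos_le_add fun ε hε _ => ?_) zero_le
    rw [zero_add]
    refine limsup_le_of_le (by isBoundedDefault) ?_
    filter_upwards [ht ε hε] with k hk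
    refine limsup_le_of_le (by isBoundedDefault) ?_
    filter_upwards [hk] with j hj
    exact ENNReal.ofReal_le_of_le_toReal hj
  rw [h3] at h2
  rw [← ENNReal.ofReal_eq_zero, ← (ENNReal.tendsto_ofReal hy).limsup_eq, ← le_zero_iff]
  exact (limsup_le_limsup (Eventually.of_forall h1)).trans h2

theorem an_lim {a a' : ℝ} (h0 : 0 < a) (haa : a < a') (ha' : a' < 1) : ∃ K > 0,
    ∀ (L : ℕ → ℂ → ℂ) (L₀ : ℂ → ℂ) (a₀ B A : ℝ), a₀ < a →
      (∀ k, DifferentiableOn ℂ (L k) (Ann a₀)) → (∀ k, ∀ ω ∈ sphere (0 : ℂ) a, ‖L k ω‖ ≤ B) →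
      (∀ k, ∀ w ∈ Ann a, (L k w).im ≤ A) →
      (∀ᵐ t, ∀ ε > 0, ∀ᶠ k in atTop, ∀ᶠ r : ℝ in 𝓝[<] 1, (L k (r * ec t)).im ≤ ε) →
      (∀ w ∈ Ann a, Tendsto (fun k => L k w) atTop (𝓝 (L₀ w))) →
      ∀ w ∈ Ann a', (L₀ w).im ≤ K * B * (1 - ‖w‖) := by
  have p0 : 0 < a' - a := sub_pos.2 haa
  have p1 : 0 < a' := h0.trans haa
  refine ⟨2 * a / ((a' - a) * (a' * (a' - a))), by positivity, ?_⟩
  rintro L L₀ a₀ B A ha₀ hL hB hA h hl w ⟨hw1, hw2⟩
  set D := 2 * a / ((a' - a) * (a' * (a' - a))) * B * (1 - ‖w‖)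
  have hB0 := ha5_B h0 (fun ω => norm_nonneg (L 0 ω)) (hB 0)
  obtain ⟨b, -, hb, hbt⟩ := exists_seq_strictMono_tendsto'
    (show (1 + ‖w‖) / 2 < 1 by linarith)
  have hbt' : Tendsto b atTop (𝓝[<] 1) :=
    tendsto_nhdsWithin_iff.2 ⟨hbt, Eventually.of_forall fun j => (hb j).2⟩
  have hwb : ∀ j, ‖w‖ < b j := fun j => by linarith [(hb j).1]
  have hab : ∀ j, a < b j := fun j => (haa.trans hw1).trans (hwb j)
  have hc : ∀ k j, Continuous fun t => (L k (b j * ec t)).im := fun k j =>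
    continuous_im.comp (ha5_cont (h0.trans (hab j)).le ((hL k).continuousOn.mono
      (ha5_sph (ha₀.trans (hab j)) (hb j).2)))
  set P := 1 / ((1 - ‖w‖) / 2) ^ 2
  have hP : 0 < P := one_div_pos.2 (pow_pos (by linarith) 2)
  have := ha5_fatou (A := A) hc (fun k j t => hA k _ (ha5_sph (hab j) (hb j).2
    (mem_sphere_zero_iff_norm.2 (ha5_nm (h0.trans (hab j)).le t))))
    (by filter_upwards [h] with t ht ε hε using (ht ε hε).mono fun k hk => hbt'.eventually hk)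
    (x := fun k => ((L k w).im - D) / P) (y := ((L₀ w).im - D) / P) (fun k j => ?_)
    ((((continuous_im.tendsto _).comp (hl w ⟨haa.trans hw1, hw2⟩)).sub_const D).div_const P)
  · rwa [div_le_iff₀ hP, zero_mul, sub_nonpos] at this
  · have k1 := (abs_le.1 ((ann_poisson h0 (isOpen_Ann a₀) (fun x h1 h2 => ⟨ha₀.trans_le h1,
      h2.trans_lt (hb j).2⟩) (hL k) (hB k) (haa.trans hw1) (hwb j)).trans
      (ha5_K h0 haa hB0 hw1 (hwb j) (hb j).2))).2
    obtain ⟨k2, k3⟩ := ha5_ker (hb j).1 (hb j).2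
    rw [avg_eq] at k1
    rw [div_le_iff₀' hP, ← integral_const_mul]
    refine (sub_le_comm.1 k1).trans (integral_mono (ha5_int (k2.mul (hc k j)))
      (ha5_int (continuous_const.mul ((hc k j).max continuous_const))) fun t => ?_)
    exact (mul_le_mul_of_nonneg_left (le_max_left _ 0) (k3 t).1).trans
      (mul_le_mul_of_nonneg_right (k3 t).2 (le_max_right _ _))

variable {n : ℕ}

theorem ha5_method {f : ℂ → E n} {W : Set ℂ} {B μ : ℝ} (hB : ∀ w ∈ W, ‖f w‖ ≤ B)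
    {a : ℝ → E n} (ha : ContinuousOn a (Icc 0 1)) (ha0 : a 0 = 0) (hμ : 0 < μ) (hμ1 : μ ≤ 1)
    (step : ∀ s ∈ Icc (0 : ℝ) 1, (∀ w ∈ W, μ / 2 ≤ ‖1 - dot (f w) (a s)‖) →
      ∀ w ∈ W, μ ≤ ‖1 - dot (f w) (a s)‖) : ∀ w ∈ W, μ ≤ ‖1 - dot (f w) (a 1)‖ := by
  have hp : 0 < |B| + 1 := by positivity
  refine IsClosed.Icc_subset_of_forall_mem_nhdsWithin (a := (0 : ℝ)) (b := 1)
    (s := {s | ∀ w ∈ W, μ ≤ ‖1 - dot (f w) (a s)‖}) ?_ (fun w _ => by simpa [ha0] using hμ1)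
    (fun x hx => ?_) ⟨zero_le_one, le_rfl⟩
  · refine isClosed_of_closure_subset fun x hx => ?_
    have hx' : x ∈ Icc (0 : ℝ) 1 := closure_minimal inter_subset_right isClosed_Icc hx
    refine ⟨fun w hw => ?_, hx'⟩
    have hc : ContinuousOn (fun s => ‖1 - dot (f w) (a s)‖) (Icc 0 1) := by fun_prop
    exact ContinuousWithinAt.closure_le hx continuousWithinAt_const
      ((hc x hx').mono inter_subset_right) fun y hy => hy.1 w hw
  · have h1 : Icc (0 : ℝ) 1 ∈ 𝓝[>] x := Icc_mem_nhdsGT_of_mem hx.2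
    have h2 := (ha x (Ico_subset_Icc_self hx.2)).mono_of_mem_nhdsWithin h1
    filter_upwards [h1, h2.eventually (ball_mem_nhds _ (div_pos (half_pos hμ) hp))] with s k1 k2
    refine step s k1 fun w hw => ?_
    rw [dist_eq_norm, lt_div_iff₀ hp] at k2
    have k3 := norm_dot_le (f w) (a s - a x)
    have k4 := norm_add_le (1 - dot (f w) (a s)) (dot (f w) (a s - a x))
    rw [show 1 - dot (f w) (a s) + dot (f w) (a s - a x) = 1 - dot (f w) (a x) by
      rw [dot_sub_right]; ring] at k4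
    have k5 := mul_le_mul_of_nonneg_right ((hB w hw).trans (le_abs_self B))
      (norm_nonneg (a s - a x))
    linarith [hx.1 w hw, norm_nonneg (a s - a x)]

theorem ha5_inv {z : ℂ} {μ : ℝ} (hμ : 0 < μ) (h : μ ≤ ‖z‖) : ‖z⁻¹‖ ≤ μ⁻¹ := by
  rw [norm_inv]; exact inv_anti₀ hμ h

theorem ha5_RL {f : ℂ → E n} {fs : TT → E n} (h : RL f fs) {v : E n} {μ : ℝ} (hμ : 0 < μ)
    (hs : ∀ᵐ t, μ ≤ ‖1 - dot (fs t) v‖) :
    RL (fun w => (1 - dot (f w) v)⁻¹) fun t => (1 - dot (fs t) v)⁻¹ := by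
  filter_upwards [h, hs] with t k1 k2
  exact ((tendsto_dot k1 tendsto_const_nhds).const_sub 1).inv₀ (norm_pos_iff.1 (hμ.trans_le k2))

/-- continuity method on the disc -/
theorem cont_disc {f : ℂ → E n} {fs : TT → E n} {B μ : ℝ} (hf : HB f B) (h : RL f fs)
    {a : ℝ → E n} (ha : ContinuousOn a (Icc 0 1)) (ha0 : a 0 = 0) (hμ : 0 < μ) (hμ1 : μ ≤ 1)
    (hs : ∀ s ∈ Icc (0 : ℝ) 1, ∀ᵐ t, μ ≤ ‖1 - dot (fs t) (a s)‖) :
    ∀ w ∈ ball (0 : ℂ) 1, μ ≤ ‖1 - dot (f w) (a 1)‖ := by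
  refine ha5_method hf.bd ha ha0 hμ hμ1 fun s k1 k2 w hw => ?_
  have hd := hf.diff
  have k3 : HB (fun w => (1 - dot (f w) (a s))⁻¹) (μ / 2)⁻¹ :=
    ⟨DifferentiableOn.inv (by fun_prop) fun w hw =>
      norm_pos_iff.1 ((half_pos hμ).trans_le (k2 w hw)), fun w hw => ha5_inv (half_pos hμ) (k2 w hw)⟩
  have k4 := (k3.max (ha5_RL h hμ (hs s k1)) ((hs s k1).mono fun t ht => ha5_inv hμ ht)).bd w hw
  rwa [norm_inv, inv_le_inv₀ ((half_pos hμ).trans_le (k2 w hw)) hμ] at k4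

/-- continuity method on the annulus -/
theorem cont_ann {f : ℂ → E n} {fs : TT → E n} {b₀ b B μ : ℝ} (h0 : 0 < b) (hb₀ : b₀ < b)
    (hb : b < 1) (hf : DifferentiableOn ℂ f (Ann b₀)) (hB : ∀ w ∈ Ann b, ‖f w‖ ≤ B) (h : RL f fs)
    {a : ℝ → E n} (ha : ContinuousOn a (Icc 0 1)) (ha0 : a 0 = 0) (hμ : 0 < μ) (hμ1 : μ ≤ 1)
    (hi : ∀ s ∈ Icc (0 : ℝ) 1, ∀ ω ∈ sphere (0 : ℂ) b, μ ≤ ‖1 - dot (f ω) (a s)‖)
    (hs : ∀ s ∈ Icc (0 : ℝ) 1, ∀ᵐ t, μ ≤ ‖1 - dot (fs t) (a s)‖) :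
    ∀ w ∈ Ann b, μ ≤ ‖1 - dot (f w) (a 1)‖ := by
  refine ha5_method hB ha ha0 hμ hμ1 fun s k1 k2 w hw => ?_
  have hd : DifferentiableOn ℂ (fun w => 1 - dot (f w) (a s)) (Ann b₀) := by fun_prop
  obtain ⟨δ, hδ, hO⟩ := (isCompact_sphere (0 : ℂ) b).exists_thickening_subset_open
    (hd.continuousOn.isOpen_inter_preimage (isOpen_Ann b₀) isOpen_compl_singleton (t := {0}ᶜ))
    fun ω hω => ⟨ha5_sph hb₀ hb hω, norm_pos_iff.1 (hμ.trans_le (hi s k1 ω hω))⟩
  have hne : ∀ x ∈ Ann (max (max b₀ (b - δ)) 0), 1 - dot (f x) (a s) ≠ 0 := fun x hx => by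
    rcases lt_or_ge b ‖x‖ with e | e
    · exact norm_pos_iff.1 ((half_pos hμ).trans_le (k2 x ⟨e, hx.2⟩))
    obtain ⟨e1, e2⟩ := max_lt_iff.1 hx.1
    refine (hO (mem_thickening_iff.2 ⟨(b / ‖x‖) • x, ?_, ?_⟩)).2
    · rw [mem_sphere_zero_iff_norm, norm_smul, Real.norm_of_nonneg (div_pos h0 e2).le,
        div_mul_cancel₀ _ e2.ne']
    · rw [dist_comm, dist_eq_norm, show (b / ‖x‖) • x - x = (b / ‖x‖ - 1) • x by
        rw [sub_smul, one_smul], norm_smul,
        Real.norm_of_nonneg (sub_nonneg.2 ((one_le_div e2).2 e)), sub_mul,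
        div_mul_cancel₀ _ e2.ne']
      linarith [(max_lt_iff.1 e1).2]
  have k4 := ann_mp h0 (max_lt (max_lt hb₀ (sub_lt_self b hδ)) h0) hb
    ((hd.mono fun x hx => ⟨((le_max_left _ _).trans (le_max_left _ _)).trans_lt hx.1, hx.2⟩).inv
      hne) (fun w hw => ha5_inv (half_pos hμ) (k2 w hw)) (fun ω hω => ha5_inv hμ (hi s k1 ω hω))
    (ha5_RL h hμ (hs s k1)) ((hs s k1).mono fun t ht => ha5_inv hμ ht) w hw
  rwa [Pi.inv_apply, norm_inv, inv_le_inv₀ ((half_pos hμ).trans_le (k2 w hw)) hμ] at k4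

end Pool.Agent.MP_4baaa2_an.H94

/-!
Damping functions, test functions, and the comparison of a logarithm with an outer function.
-/

namespace Pool.Agent.MP_4baaa2_an.H94

open Set Metric Filter Topology Complex MeasureTheory
open scoped ComplexConjugate
open Pool.Agent.Lib.PlaneTop

theorem ha6_ind_int {B : Set TT} (hB : MeasurableSet B) :
    Integrable (B.indicator fun _ => (1 : ℝ)) :=
  (integrable_const (1 : ℝ)).indicator hB

theorem ha6_ind_nonneg (B : Set TT) (t : TT) : 0 ≤ B.indicator (fun _ => (1 : ℝ)) t :=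
  indicator_nonneg (fun _ _ => zero_le_one) t

theorem ha6_ind_integral {B : Set TT} (hB : MeasurableSet B) :
    ∫ t, B.indicator (fun _ => (1 : ℝ)) t = volume.real B := by
  rw [integral_indicator_const (1 : ℝ) hB, smul_eq_mul, mul_one]

/-- a small power of a number with positive real part -/
theorem ha6_pow {θ β : ℝ} (hβ : 0 < β) (hβ1 : β ≤ 1 / 4) (hβθ : β ≤ θ / 4) {z : ℂ}
    (hz : 0 < z.re) : ‖exp (β * log z)‖ = Real.exp (β * Real.log ‖z‖) ∧
      ‖exp (β * log z)‖ / 2 ≤ (exp (β * log z)).re ∧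
      |(exp (β * log z)).im| ≤ θ * (exp (β * log z)).re := by
  obtain hre : ((β : ℂ) * log z).re = β * Real.log ‖z‖ := by
    rw [re_ofReal_mul, log_re]
  obtain him : ((β : ℂ) * log z).im = β * arg z := by
    rw [im_ofReal_mul, log_im]
  obtain ha : |arg z| ≤ 2 := by
    obtain h := abs_arg_le_pi_div_two_iff.2 hz.le
    linarith [Real.pi_le_four]
  obtain hφ : |β * arg z| ≤ 2 * β := by
    rw [abs_mul, abs_of_pos hβ, mul_comm]
    exact mul_le_mul_of_nonneg_right ha hβ.le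
  rw [norm_exp, exp_re, exp_im, hre, him]
  generalize β * arg z = φ at hφ
  obtain hE := Real.exp_pos (β * Real.log ‖z‖)
  generalize Real.exp (β * Real.log ‖z‖) = E at hE
  obtain hcos : 1 / 2 ≤ Real.cos φ := by
    obtain h1 := Real.one_sub_sq_div_two_le_cos (x := φ)
    obtain h2 : φ ^ 2 ≤ 1 := by
      rw [sq_le_one_iff_abs_le_one]
      linarith
    linarith
  obtain hsin : |Real.sin φ| ≤ θ * Real.cos φ := by
    obtain h1 := Real.abs_sin_le_abs (x := φ)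
    obtain h2 : θ * (1 / 2) ≤ θ * Real.cos φ := mul_le_mul_of_nonneg_left hcos (by linarith)
    linarith
  refine ⟨rfl, ?_, ?_⟩
  · obtain h := mul_le_mul_of_nonneg_left hcos hE.le
    linarith
  · rw [abs_mul, abs_of_pos hE, mul_left_comm]
    exact mul_le_mul_of_nonneg_left hsin hE.le

/-- a holomorphic function in a narrow sector, large where the harmonic measure of `B` is large -/
theorem exists_sector {θ θ' c ρ : ℝ} (hθ : 0 < θ) (hθ' : 0 < θ') (hc : 0 < c) (hρ : ρ < 1) :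
    ∃ m > 0, ∀ B : Set TT, MeasurableSet B → volume.real B ≤ m → ∃ G : ℂ → ℂ,
      DifferentiableOn ℂ G (ball 0 1) ∧ ∀ w ∈ ball (0 : ℂ) 1, 0 < (G w).re ∧
        |(G w).im| ≤ θ * (G w).re ∧ (c ≤ hm B w → 1 / 2 ≤ (G w).re) ∧
        (‖w‖ ≤ ρ → ‖G w‖ ≤ θ') := by
  obtain ⟨β, hβ, hβ1, hβθ⟩ : ∃ β : ℝ, 0 < β ∧ β ≤ 1 / 4 ∧ β ≤ θ / 4 :=
    ⟨min (1 / 4) (θ / 4), lt_min (by norm_num) (by positivity), min_le_left _ _, min_le_right _ _⟩
  obtain hρ' : 0 < 1 - ρ := sub_pos.2 hρ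
  obtain hK : 0 < 2 / (1 - ρ) + 1 := by positivity
  obtain ⟨m, hm0, hme⟩ : ∃ m : ℝ, 0 < m ∧
      (2 / (1 - ρ) + 1) * m = c * Real.exp (Real.log θ' / β) :=
    ⟨c * Real.exp (Real.log θ' / β) / (2 / (1 - ρ) + 1), by positivity,
      mul_div_cancel₀ _ hK.ne'⟩
  refine ⟨m, hm0, fun B hB hBm => ?_⟩
  obtain hi := ha6_ind_int hB
  obtain hre : ∀ w ∈ ball (0 : ℂ) 1,
      ((SI (B.indicator fun _ => (1 : ℝ)) w + m) / c).re = (hm B w + m) / c := by
    intro w hw
    rw [div_ofReal_re, add_re, ofReal_re, SI_re hi (mem_ball_zero_iff.1 hw), hm]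
  obtain hpos : ∀ w ∈ ball (0 : ℂ) 1,
      0 < ((SI (B.indicator fun _ => (1 : ℝ)) w + m) / c).re := by
    intro w hw
    rw [hre w hw]
    exact div_pos (add_pos_of_nonneg_of_pos (hm_nonneg B (mem_ball_zero_iff.1 hw)) hm0) hc
  refine ⟨fun w => exp (β * log ((SI (B.indicator fun _ => (1 : ℝ)) w + m) / c)), ?_,
    fun w hw => ?_⟩
  · exact (((((SI_diff hi).add_const _).div_const _).clog
      fun w hw => Or.inl (hpos w hw)).const_mul _).cexp
  obtain ⟨h1, h2, h3⟩ := ha6_pow hβ hβ1 hβθ (hpos w hw)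
  obtain hw1 := mem_ball_zero_iff.1 hw
  obtain hzn := re_le_norm ((SI (B.indicator fun _ => (1 : ℝ)) w + m) / c)
  obtain hz0 := (hpos w hw).trans_le hzn
  refine ⟨lt_of_lt_of_le ?_ h2, h3, fun hcw => le_trans ?_ h2, fun hwρ => ?_⟩
  · rw [h1]
    positivity
  · rw [hre w hw] at hzn
    obtain h4 : 1 ≤ (hm B w + m) / c := by
      rw [le_div_iff₀ hc]
      linarith
    obtain h5 := Real.one_le_exp (mul_nonneg hβ.le (Real.log_nonneg (h4.trans hzn)))
    rw [h1]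
    linarith
  · obtain h4 : ‖SI (B.indicator fun _ => (1 : ℝ)) w‖ ≤ 2 / (1 - ρ) * m := by
      refine (norm_SI_le hi hw1).trans (mul_le_mul ?_ ?_ (integral_nonneg fun t => abs_nonneg _)
        (by positivity))
      · exact div_le_div_of_nonneg_left (by norm_num) hρ' (by linarith)
      · simp only [abs_of_nonneg (ha6_ind_nonneg B _)]
        rw [ha6_ind_integral hB]
        exact hBm
    obtain h5 : ‖(SI (B.indicator fun _ => (1 : ℝ)) w + m) / c‖ ≤
        Real.exp (Real.log θ' / β) := by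
      rw [norm_div, norm_real, Real.norm_of_nonneg hc.le, div_le_iff₀ hc]
      obtain h6 := norm_add_le (SI (B.indicator fun _ => (1 : ℝ)) w) m
      rw [norm_real, Real.norm_of_nonneg hm0.le] at h6
      linarith
    obtain h6 := (Real.log_le_iff_le_exp hz0).2 h5
    rw [le_div_iff₀' hβ] at h6
    rw [h1]
    exact (Real.exp_le_exp.2 h6).trans (Real.exp_log hθ').le

theorem exists_dmp {θ₁ θ₂ θ₃ ρ : ℝ} (h1 : 0 < θ₁) (h2 : 0 < θ₂) (h3 : 0 < θ₃) (hρ : ρ < 1) :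
    ∃ m > 0, ∀ B : Set TT, MeasurableSet B → volume.real B ≤ m → ∃ u, Dmp B θ₁ θ₂ u ∧
      ∀ w : ℂ, ‖w‖ ≤ ρ → ‖u w - 1‖ ≤ θ₃ := by
  obtain ⟨L, hL, hL1⟩ : ∃ L : ℝ, 0 < L ∧ -L ≤ Real.log θ₁ :=
    ⟨|Real.log θ₁| + 1, by positivity, by linarith [neg_abs_le (Real.log θ₁)]⟩
  obtain ⟨η, hη, hη1, hη3⟩ : ∃ η : ℝ, 0 < η ∧ η ≤ 1 ∧ 2 * η ≤ θ₃ :=
    ⟨min 1 (θ₃ / 2), lt_min one_pos (by positivity), min_le_left _ _,
      by linarith [min_le_right 1 (θ₃ / 2)]⟩
  obtain hcz : 0 < cz := by norm_num [cz]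
  obtain ⟨m, hm0, hm1⟩ := exists_sector (θ := θ₂ / L) (θ' := η / (2 * L)) (by positivity)
    (by positivity) hcz hρ
  refine ⟨m, hm0, fun B hB hBm => ?_⟩
  obtain ⟨G, hG, hG1⟩ := hm1 B hB hBm
  obtain hn : ∀ w, ‖exp (((-(2 * L) : ℝ) : ℂ) * G w)‖ = Real.exp (-(2 * L) * (G w).re) := by
    intro w
    rw [norm_exp, re_ofReal_mul]
  obtain hsm : ∀ w, L ≤ 2 * L * (G w).re → ‖exp (((-(2 * L) : ℝ) : ℂ) * G w)‖ ≤ θ₁ := by
    intro w hw
    rw [hn]
    exact (Real.exp_le_exp.2 (by linarith)).trans (Real.exp_log h1).le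
  refine ⟨fun w => exp (((-(2 * L) : ℝ) : ℂ) * G w),
    ⟨⟨(hG.const_mul _).cexp, fun w hw => ?_⟩, fun w hw hc => ?_, fun w hw => ?_⟩, fun w hw => ?_⟩
  · rw [hn, Real.exp_le_one_iff]
    obtain h := mul_pos hL (hG1 w hw).1
    linarith
  · obtain h := mul_le_mul_of_nonneg_left ((hG1 w hw).2.2.1 hc) hL.le
    exact hsm w (by linarith)
  · rcases le_or_gt L (2 * L * (G w).re) with h | h
    · exact Or.inl (hsm w h)
    refine Or.inr ⟨-(2 * L) * (G w).im, ?_, ?_⟩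
    · rw [abs_mul, abs_neg, abs_of_pos (by positivity : 0 < 2 * L)]
      obtain h4 := mul_le_mul_of_nonneg_left (hG1 w hw).2.1 (by positivity : 0 ≤ 2 * L)
      obtain h5 := mul_le_mul_of_nonneg_left h.le (by positivity : 0 ≤ θ₂ / L)
      rw [div_mul_cancel₀ _ hL.ne'] at h5
      linarith
    · rw [hn, ofReal_exp, ← exp_add]
      refine congrArg exp ?_
      apply Complex.ext
      · simp
      · simp
  · obtain hw1 : w ∈ ball (0 : ℂ) 1 := mem_ball_zero_iff.2 (hw.trans_lt hρ)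
    obtain h4 : ‖((-(2 * L) : ℝ) : ℂ) * G w‖ ≤ η := by
      rw [norm_mul, norm_real, norm_neg, Real.norm_of_nonneg (by positivity : 0 ≤ 2 * L)]
      exact (le_div_iff₀' (by positivity)).1 ((hG1 w hw1).2.2.2 hw)
    obtain h5 := norm_exp_sub_one_le (h4.trans hη1)
    linarith

theorem dmp_zero (B : Set TT) {θ₁ : ℝ} (h : 0 ≤ θ₁) (θ₂ : ℝ) : Dmp B θ₁ θ₂ fun _ => 0 :=
  ⟨⟨differentiableOn_const _, fun _ _ => by simp⟩, fun _ _ _ => by simpa using h,
    fun _ _ => Or.inl (by simpa using h)⟩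

/-- the map `z ↦ z / (1 + z)` on the right half plane -/
theorem ha6_mob {θ : ℝ} (hθ : 0 < θ) {z : ℂ} (hz : 0 < z.re) : 1 + z ≠ 0 ∧ ‖z / (1 + z)‖ ≤ 1 ∧
    ‖z / (1 + z)‖ ≤ ‖z‖ ∧ (|z.im| ≤ θ * z.re → |(z / (1 + z)).im| ≤ θ * (z / (1 + z)).re) ∧
    (2 ≤ z.re → 1 / 3 ≤ (z / (1 + z)).re) := by
  obtain h1 : 1 ≤ ‖1 + z‖ := by
    obtain h := re_le_norm (1 + z)
    rw [add_re, one_re] at h
    linarith
  obtain h0 : 1 + z ≠ 0 := norm_pos_iff.1 (one_pos.trans_le h1)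
  obtain hN : normSq (1 + z) = (1 + z.re) ^ 2 + z.im ^ 2 := by
    rw [normSq_apply, add_re, add_im, one_re, one_im, zero_add, sq, sq]
  obtain hNp : 0 < normSq (1 + z) := normSq_pos.2 h0
  obtain hre : (z / (1 + z)).re = (z.re + z.re ^ 2 + z.im ^ 2) / normSq (1 + z) := by
    rw [div_re, add_re, add_im, one_re, one_im]
    ring
  obtain him : (z / (1 + z)).im = z.im / normSq (1 + z) := by
    rw [div_im, add_re, add_im, one_re, one_im]
    ring
  refine ⟨h0, ?_, ?_, fun h => ?_, fun h => ?_⟩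
  · rw [norm_div, div_le_one (one_pos.trans_le h1), ← sq_le_sq₀ (norm_nonneg _) (norm_nonneg _),
      Complex.sq_norm, Complex.sq_norm, hN, normSq_apply]
    linarith
  · rw [norm_div]
    exact div_le_self (norm_nonneg _) h1
  · rw [hre, him, abs_div, abs_of_pos hNp, ← mul_div_assoc]
    refine div_le_div_of_nonneg_right (h.trans (mul_le_mul_of_nonneg_left ?_ hθ.le)) hNp.le
    linarith [sq_nonneg z.re, sq_nonneg z.im]
  · rw [hre, le_div_iff₀ hNp, hN]
    linarith [sq_nonneg z.re, sq_nonneg z.im]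

theorem exists_test {θ ρ : ℝ} (hθ : 0 < θ) (hρ : ρ < 1) :
    ∃ m > 0, ∀ B : Set TT, MeasurableSet B → volume.real B ≤ m → ∃ (u : ℂ → ℂ) (us : TT → ℂ),
      HB u 1 ∧ RL u us ∧ (∀ᵐ t, |(us t).im| ≤ θ * (us t).re ∧ (t ∈ B → 1 / 3 ≤ (us t).re)) ∧
      ∀ w : ℂ, ‖w‖ ≤ ρ → ‖u w‖ ≤ θ := by
  obtain ⟨m, hm0, hm1⟩ := exists_sector (θ := θ) (θ' := θ / 4) (c := 1 / 2) hθ (by positivity)
    (by norm_num) hρ
  refine ⟨m, hm0, fun B hB hBm => ?_⟩
  obtain ⟨G, hG, hG1⟩ := hm1 B hB hBm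
  obtain hre : ∀ w, (((4 : ℝ) : ℂ) * G w).re = 4 * (G w).re := fun w => re_ofReal_mul _ _
  obtain him : ∀ w, (((4 : ℝ) : ℂ) * G w).im = 4 * (G w).im := fun w => im_ofReal_mul _ _
  obtain hM : ∀ w ∈ ball (0 : ℂ) 1, _ := fun w hw =>
    ha6_mob (z := ((4 : ℝ) : ℂ) * G w) hθ (by rw [hre]; linarith [(hG1 w hw).1])
  obtain hb : HB (fun w => ((4 : ℝ) : ℂ) * G w / (1 + ((4 : ℝ) : ℂ) * G w)) 1 :=
    ⟨(hG.const_mul _).div ((hG.const_mul _).const_add _) fun w hw => (hM w hw).1,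
      fun w hw => (hM w hw).2.1⟩
  obtain ⟨us, -, -, hus⟩ := hb.exists_RL
  refine ⟨_, us, hb, hus, ?_, fun w hw => ?_⟩
  · filter_upwards [hus, RL_PI (ha6_ind_int hB)] with t ht ht'
    obtain hev : ∀ᶠ r : ℝ in 𝓝[<] 1, (r : ℂ) * ec t ∈ ball (0 : ℂ) 1 :=
      (ev_ann (a := 0) one_pos t).mono fun r hr => mem_ball_zero_iff.2 hr.2
    obtain tre := (continuous_re.tendsto _).comp ht
    obtain tim := (continuous_im.tendsto _).comp ht
    refine ⟨le_of_tendsto_of_tendsto tim.abs (tre.const_mul θ) ?_, fun htB => ge_of_tendsto tre ?_⟩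
    · filter_upwards [hev] with r hr
      refine (hM _ hr).2.2.2.1 ?_
      rw [hre, him, abs_mul, abs_of_pos (by norm_num : (0 : ℝ) < 4)]
      linarith [(hG1 _ hr).2.1]
    · rw [indicator_of_mem htB] at ht'
      filter_upwards [hev, ht'.eventually (lt_mem_nhds (by norm_num : (1 / 2 : ℝ) < 1))]
        with r hr hr'
      refine (hM _ hr).2.2.2.2 ?_
      rw [hre]
      linarith [(hG1 _ hr).2.2.1 hr'.le]
  · obtain hw1 : w ∈ ball (0 : ℂ) 1 := mem_ball_zero_iff.2 (hw.trans_lt hρ)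
    refine (hM w hw1).2.2.1.trans ?_
    rw [norm_mul, norm_real, Real.norm_of_nonneg (by norm_num : (0 : ℝ) ≤ 4)]
    linarith [(hG1 w hw1).2.2.2 hw]

theorem ha6_ec_mem (t : TT) : ec t ∈ closedBall (0 : ℂ) 1 :=
  sphere_subset_closedBall (ec_mem t)

theorem ha6_cont {Λ : ℂ → ℂ} (hΛ : DA Λ) : Continuous fun t => Λ (ec t) := by
  obtain h := hΛ.continuousOn
  rw [closure_ball (0 : ℂ) one_ne_zero] at h
  exact h.comp_continuous continuous_ec ha6_ec_mem

theorem ha6_int {V : Type*} [NormedAddCommGroup V] {f : TT → V} (hf : Continuous f) :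
    Integrable f :=
  hf.integrable_of_hasCompactSupport (HasCompactSupport.of_compactSpace f)

theorem re_L1 {Λ : ℂ → ℂ} (hΛ : DA Λ) {A : ℝ} (hA : ∀ w ∈ closedBall (0 : ℂ) 1, |(Λ w).im| ≤ A) :
    ∫ t, |(Λ (ec t)).re - (Λ 0).re| ≤ 2 * A := by
  obtain hc := ha6_cont hΛ
  obtain h00 := hA 0 (mem_closedBall_self zero_le_one)
  obtain hA0 : 0 ≤ A := (abs_nonneg _).trans h00
  obtain hx : Continuous fun t => (Λ (ec t)).re - (Λ 0).re :=
    (continuous_re.comp hc).sub continuous_const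
  obtain hy : Continuous fun t => (Λ (ec t)).im - (Λ 0).im :=
    (continuous_im.comp hc).sub continuous_const
  obtain hxx : Integrable fun t => ((Λ (ec t)).re - (Λ 0).re) * ((Λ (ec t)).re - (Λ 0).re) :=
    ha6_int (hx.mul hx)
  obtain hyy : Integrable fun t => ((Λ (ec t)).im - (Λ 0).im) * ((Λ (ec t)).im - (Λ 0).im) :=
    ha6_int (hy.mul hy)
  obtain hg : DA fun w => (Λ w - Λ 0) * (Λ w - Λ 0) :=
    ⟨(hΛ.differentiableOn.sub_const _).mul (hΛ.differentiableOn.sub_const _),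
      (hΛ.continuousOn.sub continuousOn_const).mul (hΛ.continuousOn.sub continuousOn_const)⟩
  obtain h1 := PI_re (w := 0) (ha6_int (ha6_cont hg)) (by simp)
  rw [PI_holo hg (by simp), PI_zero] at h1
  simp only [sub_self, mul_re, sub_re, sub_im, mul_zero, zero_re] at h1
  rw [integral_sub hxx hyy, sub_eq_zero] at h1
  obtain h2 : ∫ t, ((Λ (ec t)).im - (Λ 0).im) * ((Λ (ec t)).im - (Λ 0).im) ≤ (2 * A) ^ 2 := by
    refine (integral_mono hyy (integrable_const ((2 * A) ^ 2)) fun t => ?_).trans (by simp)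
    obtain h3 : |(Λ (ec t)).im - (Λ 0).im| ≤ 2 * A := by
      obtain h4 := abs_sub (Λ (ec t)).im (Λ 0).im
      linarith [hA _ (ha6_ec_mem t)]
    obtain h4 := pow_le_pow_left₀ (abs_nonneg _) h3 2
    rw [sq_abs, sq] at h4
    exact h4
  rw [← h1] at h2
  refine le_of_forall_pos_le_add fun ε hε => ?_
  obtain ha : 0 < 2 * A + ε := by positivity
  obtain ha2 : (2 * A) ^ 2 ≤ (2 * A + ε) ^ 2 :=
    pow_le_pow_left₀ (by positivity) (by linarith) 2
  generalize 2 * A + ε = a at ha ha2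
  obtain h3 : ∫ t, 2 * a * |(Λ (ec t)).re - (Λ 0).re| ≤
      ∫ t, ((Λ (ec t)).re - (Λ 0).re) * ((Λ (ec t)).re - (Λ 0).re) + a ^ 2 := by
    refine integral_mono ((ha6_int hx.abs).const_mul _) (hxx.add (integrable_const _)) fun t => ?_
    obtain h4 := sq_nonneg (|(Λ (ec t)).re - (Λ 0).re| - a)
    rw [sub_sq, sq_abs] at h4
    beta_reduce
    linarith
  rw [integral_const_mul, integral_add hxx (integrable_const _)] at h3
  simp only [integral_const, probReal_univ, smul_eq_mul, one_mul] at h3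
  refine le_of_mul_le_mul_left ?_ (by positivity : 0 < 2 * a)
  linarith

theorem xset (M A : ℝ) {m γ : ℝ} (hm0 : 0 < m) (hγ : 0 < γ) : ∃ m₁ > 0, ∃ L ≥ (0 : ℝ), ∃ L' : ℝ,
    ∀ b : TT → ℝ, Measurable b → (∀ t, |b t| ≤ A) → ∀ (Λ : ℂ → ℂ) (s : ℝ), DA Λ →
      (Λ 0).re ∈ Icc (s - 1) s → (∀ w ∈ closedBall (0 : ℂ) 1, |(Λ w).im| ≤ A) →
      volume.real {t | |(Λ (ec t)).re - s| ≤ L ∧ γ < |(Λ (ec t)).im - b t|} ≤ m₁ →
      (∃ X : Set TT, volume.real X ≤ m ∧ ∀ t ∉ X, ∀ w ∈ Cone M (ec t),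
        |(Λ w).re - s| ≤ L' ∧ |(Λ w).im - PI b w| ≤ 2 * γ) ∧
      ∀ w : ℂ, ‖w‖ < 1 → ‖Λ w - (Λ 0).re - I * SI b w‖ ≤ 4 * γ / (1 - ‖w‖) := by
  rcases lt_or_ge A 0 with hA0 | hA0
  · exact ⟨1, one_pos, 0, le_rfl, 0, fun b _ hb => absurd ((abs_nonneg _).trans (hb 0)) hA0.not_ge⟩
  obtain ⟨C, hC, hW⟩ := weak_type M
  obtain ⟨l, hl, hl1⟩ : ∃ l : ℝ, 0 < l ∧ 2 * A * l ≤ γ := by
    refine ⟨γ / (2 * A + 1), by positivity, ?_⟩
    rw [← mul_div_assoc, div_le_iff₀ (by positivity)]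
    linarith
  obtain ⟨m₁, hm1, hm2, hm3⟩ : ∃ m₁ : ℝ, 0 < m₁ ∧ C * (2 * m₁) / l ≤ m / 2 ∧ 2 * m₁ ≤ l := by
    refine ⟨min (m * l / (4 * C)) (l / 2), lt_min (by positivity) (by positivity), ?_,
      by linarith [min_le_right (m * l / (4 * C)) (l / 2)]⟩
    obtain h := (le_div_iff₀ (by positivity)).1 (min_le_left (m * l / (4 * C)) (l / 2))
    rw [div_le_iff₀ hl]
    linarith
  obtain ⟨l₁, hl₁, hl₂⟩ : ∃ l₁ : ℝ, 0 < l₁ ∧ 2 * A ≤ l₁ * m₁ := by
    refine ⟨2 * A / m₁ + 1, by positivity, ?_⟩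
    rw [add_mul, div_mul_cancel₀ _ hm1.ne']
    linarith
  obtain ⟨l', hl', hl₃⟩ : ∃ l' : ℝ, 0 < l' ∧ C * (2 * A) / l' ≤ m / 2 := by
    refine ⟨4 * C * A / m + 1, by positivity, ?_⟩
    rw [div_le_iff₀ (by positivity), mul_add, div_mul_div_comm, mul_comm 2 m,
      mul_div_mul_left _ _ hm0.ne']
    linarith
  refine ⟨m₁, hm1, l₁ + 1, by positivity, l' + 1, fun b hb hbA Λ s hΛ hs hA hv => ?_⟩
  obtain hc := ha6_cont hΛ
  obtain hF := ha6_int hc
  obtain hx : Continuous fun t => (Λ (ec t)).re - (Λ 0).re :=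
    (continuous_re.comp hc).sub continuous_const
  obtain hy : Continuous fun t => (Λ (ec t)).im := continuous_im.comp hc
  obtain hbi : Integrable b :=
    Integrable.of_bound hb.aestronglyMeasurable A (Eventually.of_forall hbA)
  obtain hd : Integrable fun t => (Λ (ec t)).im - b t := (ha6_int hy).sub hbi
  obtain hL1 := re_L1 hΛ hA
  obtain hs0 : |(Λ 0).re - s| ≤ 1 := abs_le.2 ⟨by linarith [hs.1], by linarith [hs.2]⟩
  obtain ⟨Y, hYd⟩ : ∃ Y : Set TT, Y = {t | γ < |(Λ (ec t)).im - b t|} := ⟨_, rfl⟩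
  obtain hY : MeasurableSet Y := by
    rw [hYd]
    exact measurableSet_lt measurable_const (hy.measurable.sub hb).abs
  obtain hYm : volume.real Y ≤ 2 * m₁ := by
    obtain h1 := mul_meas_ge_le_integral_of_nonneg (μ := volume)
      (f := fun t => |(Λ (ec t)).re - (Λ 0).re|) (Eventually.of_forall fun t => abs_nonneg _)
      (ha6_int hx.abs) l₁
    obtain h2 := le_of_mul_le_mul_left (h1.trans (hL1.trans hl₂)) hl₁
    obtain h3 : Y ⊆ {t | |(Λ (ec t)).re - s| ≤ l₁ + 1 ∧ γ < |(Λ (ec t)).im - b t|} ∪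
        {t | l₁ ≤ |(Λ (ec t)).re - (Λ 0).re|} := by
      intro t ht
      rw [hYd] at ht
      rcases le_or_gt |(Λ (ec t)).re - s| (l₁ + 1) with h | h
      · exact Or.inl ⟨h, ht⟩
      · obtain h4 := abs_sub_le (Λ (ec t)).re (Λ 0).re s
        exact Or.inr (show l₁ ≤ _ by linarith)
    obtain h4 := (measureReal_mono (μ := volume) h3).trans (measureReal_union_le _ _)
    linarith
  obtain hsplit : ∀ w : ℂ, ‖w‖ < 1 →
      PI (fun t => |(Λ (ec t)).im - b t|) w ≤ γ + 2 * A * hm Y w := by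
    intro w hw
    refine PI_split hd.abs hY (Eventually.of_forall fun t => ?_)
      (Eventually.of_forall fun t ht => ?_) hw
    · obtain h1 := abs_sub (Λ (ec t)).im (b t)
      linarith [hA _ (ha6_ec_mem t), hbA t]
    · rw [hYd] at ht
      exact not_lt.1 ht
  obtain him : ∀ w : ℂ, ‖w‖ < 1 → (Λ w).im = PI (fun t => (Λ (ec t)).im) w := by
    intro w hw
    rw [PI_im hF hw, PI_holo hΛ hw]
  refine ⟨⟨{t | ∃ w ∈ Cone M (ec t), l < PI (Y.indicator fun _ => (1 : ℝ)) w} ∪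
    {t | ∃ w ∈ Cone M (ec t), l' < PI (fun t => |(Λ (ec t)).re - (Λ 0).re|) w}, ?_,
      fun t ht w hw => ⟨?_, ?_⟩⟩, fun w hw => ?_⟩
  · obtain h1 := hW _ (ha6_ind_int hY) (ha6_ind_nonneg Y) l hl
    obtain h2 := hW _ (ha6_int hx.abs) (fun t => abs_nonneg _) l' hl'
    rw [ha6_ind_integral hY] at h1
    obtain h3 := div_le_div_of_nonneg_right (mul_le_mul_of_nonneg_left hYm hC.le) hl.le
    obtain h4 := div_le_div_of_nonneg_right (mul_le_mul_of_nonneg_left hL1 hC.le) hl'.le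
    refine (measureReal_union_le _ _).trans ?_
    linarith
  · obtain h1 : PI (fun t => |(Λ (ec t)).re - (Λ 0).re|) w ≤ l' :=
      not_lt.1 fun h => ht (Or.inr ⟨w, hw, h⟩)
    obtain h2 : |PI (fun t => (Λ (ec t)).re - (Λ 0).re) w| ≤ l' :=
      (norm_PI_le (fun t => (Λ (ec t)).re - (Λ 0).re) hw.1).trans h1
    obtain hr : Integrable (fun t => (Λ (ec t)).re) volume := ha6_int (continuous_re.comp hc)
    rw [PI_sub hr (integrable_const _) hw.1, PI_re hF hw.1,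
      PI_holo hΛ hw.1, PI_const _ hw.1] at h2
    obtain h3 := abs_sub_le (Λ w).re (Λ 0).re s
    linarith
  · obtain h1 : hm Y w ≤ l := not_lt.1 fun h => ht (Or.inl ⟨w, hw, h⟩)
    obtain h2 : |PI (fun t => (Λ (ec t)).im - b t) w| ≤ γ + 2 * A * hm Y w :=
      (norm_PI_le (fun t => (Λ (ec t)).im - b t) hw.1).trans (hsplit w hw.1)
    rw [PI_sub (ha6_int hy) hbi hw.1, ← him w hw.1] at h2
    obtain h3 := mul_le_mul_of_nonneg_left h1 (by positivity : 0 ≤ 2 * A)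
    linarith
  · obtain h1 := SI_unique hΛ.differentiableOn (ha6_int hy)
      (fun w hw => him w (mem_ball_zero_iff.1 hw)) hw
    obtain h2 : Λ w - (Λ 0).re - I * SI b w = I * SI (fun t => (Λ (ec t)).im - b t) w := by
      rw [SI_sub (ha6_int hy) hbi hw]
      linear_combination h1
    obtain h3 := hsplit 0 (by simp)
    rw [hm, PI_zero, PI_zero, ha6_ind_integral hY] at h3
    obtain h4 := mul_le_mul_of_nonneg_left (hYm.trans hm3) (by positivity : 0 ≤ 2 * A)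
    obtain h5 : 0 < 1 - ‖w‖ := sub_pos.2 hw
    rw [h2, norm_mul, norm_I, one_mul]
    refine (norm_SI_le hd hw).trans ?_
    rw [div_mul_eq_mul_div]
    exact div_le_div_of_nonneg_right (by linarith) h5.le

end Pool.Agent.MP_4baaa2_an.H94

/-!
Duality between bounded holomorphic functions and integrable densities.
-/

namespace Pool.Agent.MP_4baaa2_an.H94

open Set Metric Filter Topology Complex MeasureTheory
open scoped ComplexConjugate
open Pool.Agent.Lib.PlaneTop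

variable {n : ℕ}

theorem dual_int (f : Lp (E n) 2 (volume : Measure TT)) : Integrable (f : TT → E n) :=
  (Lp.memLp f).integrable one_le_two

/-- a nonnegative function on `B` with nonpositive integral -/
theorem dual_null {B : Set TT} {φ : TT → ℝ} (hφ : Integrable (B.indicator φ))
    (hp : ∀ t ∈ B, 0 < φ t) (h : ∫ t, B.indicator φ t ≤ 0) : ∀ᵐ t, t ∉ B := by
  have h0 : 0 ≤ B.indicator φ := fun t => indicator_nonneg (fun s hs => (hp s hs).le) t
  have h1 := (integral_eq_zero_iff_of_nonneg h0 hφ).1 (le_antisymm h (integral_nonneg h0))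
  filter_upwards [h1] with t ht hB
  rw [indicator_of_mem hB] at ht
  exact (hp t hB).ne' ht

/-- A real functional on `L²` dominated by the `L¹` norm is given by a bounded function. -/
theorem dual_rep (L : Lp (E n) 2 (volume : Measure TT) →L[ℝ] ℝ) (hL : ∀ f, L f ≤ ∫ t, ‖f t‖) :
    ∃ gs : TT → E n, StronglyMeasurable gs ∧ (∀ᵐ t, ‖gs t‖ ≤ 1) ∧
      ∀ f, L f = (∫ t, dot (f t) (gs t)).re := by
  set Lc : StrongDual ℂ (Lp (E n) 2 (volume : Measure TT)) := StrongDual.extendRCLike L with hLc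
  set G := (InnerProductSpace.toDual ℂ _).symm Lc with hG
  have hrep : ∀ f, L f = (∫ t, dot (f t) (cj (G t))).re := by
    intro f
    have h1 : inner ℂ G f = Lc f := InnerProductSpace.toDual_symm_apply
    have h2 : (Lc f).re = L f := StrongDual.re_extendRCLike_apply (𝕜 := ℂ) L f
    rw [← h2, ← h1, L2.inner_def]
    simp only [dot_cj_right]
  have hm : StronglyMeasurable (G : TT → E n) := Lp.stronglyMeasurable G
  refine ⟨fun t => cj (G t), continuous_cj.comp_stronglyMeasurable hm, ?_, hrep⟩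
  set B := {t | 1 < ‖G t‖} with hB
  have hBm : MeasurableSet B := measurableSet_lt measurable_const hm.norm.measurable
  have hf : MemLp (B.indicator G) 2 := (Lp.memLp G).indicator hBm
  have h1 := hL (hf.toLp _)
  rw [hrep] at h1
  have e1 : ∫ t, dot (hf.toLp _ t) (cj (G t)) =
      ∫ t, ((B.indicator (fun t => ‖G t‖ ^ 2) t : ℝ) : ℂ) := by
    refine integral_congr_ae ?_
    filter_upwards [hf.coeFn_toLp] with t ht
    rw [ht]
    by_cases h : t ∈ B
    · rw [indicator_of_mem h, indicator_of_mem h, dot_cj_self]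
    · simp [indicator_of_notMem h]
  have e2 : ∫ t, ‖hf.toLp _ t‖ = ∫ t, B.indicator (fun t => ‖G t‖) t := by
    refine integral_congr_ae ?_
    filter_upwards [hf.coeFn_toLp] with t ht
    rw [ht, norm_indicator_eq_indicator_norm]
  rw [e1, e2, integral_complex_ofReal, ofReal_re] at h1
  have i1 : Integrable (B.indicator fun t => ‖G t‖ ^ 2) :=
    (Lp.memLp G).norm.integrable_sq.indicator hBm
  have i2 : Integrable (B.indicator fun t => ‖G t‖) := (dual_int G).norm.indicator hBm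
  have e3 : B.indicator (fun t => ‖G t‖ ^ 2 - ‖G t‖) =
      fun t => B.indicator (fun t => ‖G t‖ ^ 2) t - B.indicator (fun t => ‖G t‖) t :=
    indicator_sub B _ _
  have h2 := dual_null (B := B) (φ := fun t => ‖G t‖ ^ 2 - ‖G t‖) (by rw [e3]; exact i1.sub i2)
    (fun t ht => by
      have h3 : 1 < ‖G t‖ := ht
      nlinarith)
    (by rw [e3, integral_sub i1 i2]; linarith)
  filter_upwards [h2] with t ht
  rw [norm_cj]
  exact not_lt.1 ht

/-- the `L¹` norm on `L²` -/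
noncomputable def dualN (n : ℕ) : Seminorm ℝ (Lp (E n) 2 (volume : Measure TT)) :=
  Seminorm.of (fun f => ∫ t, ‖f t‖)
    (fun f g => by
      rw [← integral_add (dual_int f).norm (dual_int g).norm]
      refine integral_mono_ae (dual_int _).norm ((dual_int f).norm.add (dual_int g).norm) ?_
      filter_upwards [Lp.coeFn_add f g] with t ht
      rw [ht]
      exact norm_add_le _ _)
    (fun c f => by
      rw [← integral_const_mul]
      refine integral_congr_ae ?_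
      filter_upwards [Lp.coeFn_smul c f] with t ht
      rw [ht, Pi.smul_apply, norm_smul])

theorem dualN_apply (f : Lp (E n) 2 (volume : Measure TT)) : dualN n f = ∫ t, ‖f t‖ := rfl

theorem dualN_le (f : Lp (E n) 2 (volume : Measure TT)) : dualN n f ≤ ‖f‖ := by
  rw [dualN_apply, integral_norm_eq_lintegral_enorm (Lp.aestronglyMeasurable f),
    ← eLpNorm_one_eq_lintegral_enorm, Lp.norm_def]
  exact ENNReal.toReal_mono (Lp.eLpNorm_ne_top f)
    (eLpNorm_le_eLpNorm_of_exponent_le one_le_two (Lp.aestronglyMeasurable f))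

theorem dualN_cont : Continuous (dualN n) := by
  refine (LipschitzWith.of_dist_le_mul (K := 1) fun f g => ?_).continuous
  rw [NNReal.coe_one, one_mul, dist_eq_norm f g, Real.dist_eq]
  exact (abs_sub_map_le_sub (dualN n) f g).trans (dualN_le _)

/-- separation of a point from a convex cone in the `L¹` norm -/
theorem dual_sep {C : Set (Lp (E n) 2 (volume : Measure TT))} (h0 : 0 ∈ C)
    (hadd : ∀ f ∈ C, ∀ g ∈ C, f + g ∈ C) (hsm : ∀ c : ℝ, 0 ≤ c → ∀ f ∈ C, c • f ∈ C)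
    (K : Lp (E n) 2 (volume : Measure TT)) {b : ℝ} (hb : 0 < b)
    (hd : ∀ f ∈ C, b ≤ dualN n (f - K)) :
    ∃ L : Lp (E n) 2 (volume : Measure TT) →L[ℝ] ℝ, (∀ f, L f ≤ dualN n f) ∧ L K = b ∧
      ∀ f ∈ C, L f ≤ 0 := by
  have hC : Convex ℝ C := fun f hf g hg s t hs ht _ => hadd _ (hsm s hs f hf) _ (hsm t ht g hg)
  have hU : IsOpen ((dualN n).ball K b) := by
    rw [Seminorm.ball]
    exact isOpen_lt (dualN_cont.comp (continuous_id.sub continuous_const)) continuous_const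
  obtain ⟨L, u, h1, h2⟩ := geometric_hahn_banach_open ((dualN n).convex_ball K b) hU hC
    (disjoint_left.2 fun f hf hf' => (hd f hf').not_gt ((Seminorm.mem_ball _).1 hf))
  have hu : u ≤ 0 := by simpa using h2 0 h0
  have hK : L K < 0 := (h1 K ((dualN n).mem_ball_self hb)).trans_le hu
  have hpos : ∀ f ∈ C, 0 ≤ L f := by
    intro f hf
    by_contra hn
    rw [not_le] at hn
    have h3 := h2 _ (hsm ((u - 1) / L f) (div_nonneg_of_nonpos (by linarith) hn.le) f hf)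
    rw [map_smul, smul_eq_mul, div_mul_cancel₀ _ hn.ne] at h3
    linarith
  refine ⟨(b / L K) • L, fun f => ?_, ?_, fun f hf => ?_⟩
  · refine le_of_forall_gt_imp_ge_of_dense fun s hs => ?_
    have hs0 : 0 < s := (apply_nonneg _ f).trans_lt hs
    have h3 : K - (b / s) • f ∈ (dualN n).ball K b := by
      rw [Seminorm.mem_ball, sub_sub_cancel_left, map_neg_eq_map, map_smul_eq_mul,
        Real.norm_of_nonneg (by positivity), div_mul_eq_mul_div, div_lt_iff₀ hs0]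
      exact mul_lt_mul_of_pos_left hs hb
    have h4 := (h1 _ h3).trans_le hu
    rw [map_sub, map_smul, smul_eq_mul, div_mul_eq_mul_div, sub_neg, lt_div_iff₀ hs0] at h4
    rw [_root_.smul_apply, smul_eq_mul, div_mul_eq_mul_div, div_le_iff_of_neg hK]
    linarith
  · rw [_root_.smul_apply, smul_eq_mul, div_mul_cancel₀ _ hK.ne]
  · rw [_root_.smul_apply, smul_eq_mul]
    exact mul_nonpos_of_nonpos_of_nonneg (div_nonpos_of_nonneg_of_nonpos hb.le hK.le) (hpos f hf)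

theorem dual_mem {f : TT → E n} (hf : Continuous f) : MemLp f 2 := by
  obtain ⟨C, hC⟩ := isCompact_univ.exists_bound_of_continuousOn hf.continuousOn
  exact MemLp.of_bound hf.aestronglyMeasurable C (Eventually.of_forall fun t => hC t (mem_univ t))

theorem dual {ι : Type*} [Countable ι] {A : ι → Set TT} (hA : ∀ i, MeasurableSet (A i))
    {a : ι → TT → E n} (ha : ∀ i, Continuous (a i)) {k : TT → E n} (hk : Continuous k)
    {β β' : ℝ} (hβ : β < β')
    (H : ∀ (g : ℂ → E n) (gs : TT → E n), HB g 1 → RL g gs →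
      (∀ᵐ t, ∀ i, t ∈ A i → (dot (a i t) (gs t)).re ≤ 0) → (∫ t, dot (k t) (gs t)).re ≤ β) :
    ∃ ψ : ℂ → E n, Differentiable ℂ ψ ∧ ψ 0 = 0 ∧ ∃ ν : TT → E n, Integrable ν ∧
      ∫ t, ‖k t + ψ (ec t) - ν t‖ ≤ β' ∧
      ∀ t v, (∀ i, t ∈ A i → (dot (a i t) v).re ≤ 0) → (dot (ν t) v).re ≤ 0 := by
  have hβ0 : 0 ≤ β := by
    have := H (fun _ => 0) (fun _ => 0) ⟨differentiableOn_const _, fun _ _ => by simp⟩
      (Eventually.of_forall fun _ => tendsto_const_nhds) (Eventually.of_forall fun _ _ _ => by simp)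
    simpa using this
  set C : Set (Lp (E n) 2 (volume : Measure TT)) := {f | ∃ (ψ : ℂ → E n) (ν : TT → E n),
    Differentiable ℂ ψ ∧ ψ 0 = 0 ∧
      (∀ t v, (∀ i, t ∈ A i → (dot (a i t) v).re ≤ 0) → (dot (ν t) v).re ≤ 0) ∧
      ∀ᵐ t, f t = ν t - ψ (ec t)} with hC
  have hK := (dual_mem hk).coeFn_toLp
  set K := (dual_mem hk).toLp _
  by_cases hd : ∀ f ∈ C, β' ≤ dualN n (f - K)
  swap
  · push Not at hd
    obtain ⟨f, ⟨ψ, ν, h1, h2, h3, h4⟩, h5⟩ := hd
    have hc : Continuous fun t => ψ (ec t) := h1.continuous.comp continuous_ec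
    refine ⟨ψ, h1, h2, ν, ?_, (le_of_eq ?_).trans h5.le, h3⟩
    · refine ((dual_int f).add ((dual_mem hc).integrable one_le_two)).congr ?_
      filter_upwards [h4] with t ht
      simp [ht]
    · rw [dualN_apply]
      refine integral_congr_ae ?_
      filter_upwards [h4, hK, Lp.coeFn_sub f K] with t e1 e2 e3
      rw [e3, Pi.sub_apply, e1, e2, ← norm_neg]
      congr 1
      abel
  exfalso
  refine (dual_sep (C := C) ?_ ?_ ?_ K (hβ0.trans_lt hβ) hd).elim fun L ⟨h1, h2, h3⟩ => ?_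
  · refine ⟨fun _ => 0, fun _ => 0, differentiable_const _, rfl, fun _ _ _ => by simp, ?_⟩
    filter_upwards [Lp.coeFn_zero (E n) 2 (volume : Measure TT)] with t ht
    rw [ht, Pi.zero_apply, sub_zero]
  · rintro f ⟨ψ, ν, a1, a2, a3, a4⟩ g ⟨ψ', ν', b1, b2, b3, b4⟩
    refine ⟨fun w => ψ w + ψ' w, fun t => ν t + ν' t, a1.add b1, by simp [a2, b2],
      fun t v hv => ?_, ?_⟩
    · rw [dot_add_left, add_re]
      exact add_nonpos (a3 t v hv) (b3 t v hv)
    · filter_upwards [a4, b4, Lp.coeFn_add f g] with t e1 e2 e3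
      rw [e3, Pi.add_apply, e1, e2]
      abel
  · rintro c hc f ⟨ψ, ν, a1, a2, a3, a4⟩
    refine ⟨fun w => c • ψ w, fun t => c • ν t, a1.const_smul c, by simp [a2],
      fun t v hv => ?_, ?_⟩
    · rw [dot_rsmul_left, re_ofReal_mul]
      exact mul_nonpos_of_nonneg_of_nonpos hc (a3 t v hv)
    · filter_upwards [a4, Lp.coeFn_smul c f] with t e1 e2
      rw [e2, Pi.smul_apply, e1, smul_sub]
  obtain ⟨gs, g1, g2, g3⟩ := dual_rep L h1
  have gi : Integrable gs := Integrable.of_bound g1.aestronglyMeasurable 1 g2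
  have hmom : ∀ j : ℕ, ∫ t, ec t ^ (j + 1) • gs t = 0 := by
    intro j
    set J := ∫ t, ec t ^ (j + 1) • gs t with hJ
    have hc : Continuous fun t => ec t ^ (j + 1) • cj J :=
      (continuous_ec.pow _).smul continuous_const
    have hf := (dual_mem hc).coeFn_toLp
    have h4 := h3 ((dual_mem hc).toLp _) ⟨fun w => -(w ^ (j + 1) • cj J), fun _ => 0, by fun_prop,
      by simp, fun _ _ _ => by simp, by filter_upwards [hf] with t ht; simp [ht]⟩
    have e : ∫ t, dot ((dual_mem hc).toLp _ t) (gs t) = dot (cj J) J := by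
      have h5 := (dotL (cj J)).integral_comp_comm
        (ha4_int gi (φ := fun t => ec t ^ (j + 1)) (continuous_ec.pow (j + 1)))
      rw [← hJ, dotL_apply] at h5
      rw [← h5]
      refine integral_congr_ae ?_
      filter_upwards [hf] with t ht
      simp [ht]
    rw [g3, e, dot_comm, dot_cj_self, ofReal_re] at h4
    have h6 : ‖J‖ ^ 2 = 0 := le_antisymm h4 (sq_nonneg _)
    simpa using h6
  have hsign : ∀ i, ∀ᵐ t, t ∈ A i → (dot (a i t) (gs t)).re ≤ 0 := by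
    intro i
    have hm : StronglyMeasurable fun t => dot (a i t) (gs t) :=
      continuous_dot.comp_stronglyMeasurable ((ha i).stronglyMeasurable.prodMk g1)
    set B := A i ∩ {t | 0 < (dot (a i t) (gs t)).re} with hB
    have hBm : MeasurableSet B :=
      (hA i).inter (measurableSet_lt measurable_const (measurable_re.comp hm.measurable))
    have hf : MemLp (B.indicator (a i)) 2 := (dual_mem (ha i)).indicator hBm
    have h4 := h3 (hf.toLp _) ⟨fun _ => 0, B.indicator (a i), differentiable_const _, rfl,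
      fun t v hv => by
        by_cases h : t ∈ B
        · rw [indicator_of_mem h]
          exact hv i h.1
        · simp [indicator_of_notMem h],
      by filter_upwards [hf.coeFn_toLp] with t ht; simp [ht]⟩
    have hi : Integrable fun t => dot (a i t) (gs t) := by
      refine ((dual_mem (ha i)).integrable one_le_two).norm.mono' hm.aestronglyMeasurable ?_
      filter_upwards [g2] with t ht
      exact (norm_dot_le _ _).trans (mul_le_of_le_one_right (norm_nonneg _) ht)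
    have e : ∫ t, dot (hf.toLp _ t) (gs t) = ∫ t, B.indicator (fun t => dot (a i t) (gs t)) t := by
      refine integral_congr_ae ?_
      filter_upwards [hf.coeFn_toLp] with t ht
      rw [ht]
      by_cases h : t ∈ B
      · rw [indicator_of_mem h, indicator_of_mem h]
      · simp [indicator_of_notMem h]
    have e2 : (∫ t, B.indicator (fun t => dot (a i t) (gs t)) t).re =
        ∫ t, B.indicator (fun t => (dot (a i t) (gs t)).re) t := by
      rw [← RCLike.re_to_complex, ← integral_re (hi.indicator hBm)]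
      refine integral_congr_ae (Eventually.of_forall fun t => ?_)
      by_cases h : t ∈ B
      · simp [indicator_of_mem h]
      · simp [indicator_of_notMem h]
    rw [g3, e, e2] at h4
    filter_upwards [dual_null (hi.re.indicator hBm) (fun t ht => ht.2) h4] with t ht h5
    exact not_lt.1 fun h6 => ht ⟨h5, h6⟩
  have h4 := H (PI gs) gs ⟨hinf gi hmom, fun w hw => norm_PI_le_const g2 (mem_ball_zero_iff.1 hw)⟩
    (RL_PI gi) (ae_all_iff.2 hsign)
  have e : ∫ t, dot (K t) (gs t) = ∫ t, dot (k t) (gs t) := by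
    refine integral_congr_ae ?_
    filter_upwards [hK] with t ht
    rw [ht]
  rw [g3, e] at h2
  linarith

end Pool.Agent.MP_4baaa2_an.H94

/-!
The teeth of a sawtooth domain.
-/

namespace Pool.Agent.MP_4baaa2_an.H94

open Set Metric Filter Topology Complex MeasureTheory
open scoped ComplexConjugate
open Pool.Agent.Lib.PlaneTop

lemma saw0_lift (t c : TT) : ∃ x : ℝ, c = t + x ∧ |x| = dist t c := by
  obtain ⟨y, hy⟩ := QuotientAddGroup.mk_surjective (c - t)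
  have h0 : (((round y : ℤ) : ℝ) : TT) = 0 := (AddCircle.coe_eq_zero_iff 1).2 ⟨round y, by simp⟩
  exact ⟨y - round y, by rw [AddCircle.coe_sub, h0, sub_zero, hy, add_sub_cancel],
    by rw [dist_comm, dist_eq_norm, ← hy, UnitAddCircle.norm_eq]⟩

lemma saw0_le (t : TT) (x y : ℝ) : dist (t + x) (t + y) ≤ |x - y| := by
  rw [dist_add_left, dist_eq_norm, ← AddCircle.coe_sub]
  exact QuotientAddGroup.norm_mk_le_norm

lemma saw0_le' (t : TT) (x : ℝ) : dist (t + x) t ≤ |x| := by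
  simpa using saw0_le t x 0

theorem exists_teeth {G : Set TT} (hG : IsClosed G) (hne : G.Nonempty) {s : ℝ} (hs : 0 < s)
    (hs1 : s ≤ 1 / 16) : ∃ φ : TT → ℝ, Continuous φ ∧ ∀ t, 0 ≤ φ t ∧ φ t ≤ s ∧
      (0 < φ t → ∃ t' ∈ G, dist t t' ≤ φ t) ∧
      (φ t < s / 2 → ∀ d : ℝ, 0 < d → d ≤ 2 * s →
        ∃ c : TT, dist c t ≤ φ t + d / 4 ∧ ball c (d / 4) ⊆ Gᶜ) := by
  have _ := And.intro hs1 hG
  have hC : IsClosed {c | s / 2 ≤ infDist c G} :=
    isClosed_le continuous_const (continuous_infDist_pt G)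
  have h1 : ∀ p ∉ {c | s / 2 ≤ infDist c G}, ∃ g ∈ G, dist p g < s / 2 :=
    fun p hp => (infDist_lt_iff hne).1 (not_le.1 hp)
  have h2 : ∀ c ∈ {c | s / 2 ≤ infDist c G}, ∀ g ∈ G, s / 2 ≤ dist c g :=
    fun c hc g hg => le_trans hc (infDist_le_dist_of_mem hg)
  generalize {c | s / 2 ≤ infDist c G} = C at hC h1 h2
  rcases C.eq_empty_or_nonempty with rfl | hCn
  · refine ⟨fun _ => s, continuous_const, fun t => ⟨hs.le, le_rfl, fun _ => ?_,
      fun h => absurd h (by linarith)⟩⟩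
    obtain ⟨g, hg, h⟩ := h1 t (notMem_empty t)
    exact ⟨g, hg, by linarith⟩
  refine ⟨fun t => min s (max 0 (infDist t C - s / 2)), continuous_const.min
    (continuous_const.max ((continuous_infDist_pt C).sub continuous_const)), fun t => ?_⟩
  obtain ⟨c, hc, hd⟩ := hC.exists_infDist_eq_dist hCn t
  obtain ⟨x, rfl, hx⟩ := saw0_lift t c
  beta_reduce
  refine ⟨le_min hs.le (le_max_left _ _), min_le_left _ _, fun h => ?_, fun h d d0 d1 => ?_⟩
  · have h3 : s / 2 < infDist t C := by simpa using (lt_min_iff.1 h).2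
    have h4 : ∀ e : ℝ, |e| ≤ s / 2 → ∃ y : ℝ, |y| < s / 2 ∧ t + (e + y : ℝ) ∈ G ∧
        s / 2 ≤ |x - (e + y)| := fun e he => by
      obtain ⟨g, hg, h⟩ := h1 (t + e) fun h => by
        have := infDist_le_dist_of_mem (x := t) h
        rw [dist_comm] at this
        linarith [saw0_le' t e]
      obtain ⟨y, rfl, hy⟩ := saw0_lift (t + e) g
      rw [add_assoc, ← AddCircle.coe_add] at hg
      exact ⟨y, hy ▸ h, hg, (h2 _ hc _ hg).trans (saw0_le _ _ _)⟩
    rw [hd, ← hx] at h3 ⊢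
    obtain ⟨u, hu, h5, h6⟩ : ∃ u : ℝ, t + u ∈ G ∧ |u| ≤ s ∧ |u| ≤ |x| - s / 2 := by
      rcases abs_cases x with ⟨h5, -⟩ | ⟨h5, -⟩
      · obtain ⟨y, a1, a2, a3⟩ := h4 (s / 2) (abs_of_pos (half_pos hs)).le
        rw [abs_lt] at a1
        rcases le_abs.1 a3 with a3 | a3
        · exact ⟨_, a2, by rw [abs_of_pos (by linarith)]; constructor <;> linarith⟩
        · linarith
      · obtain ⟨y, a1, a2, a3⟩ := h4 (-(s / 2)) (by rw [abs_neg, abs_of_pos (half_pos hs)])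
        rw [abs_lt] at a1
        rcases le_abs.1 a3 with a3 | a3
        · linarith
        · exact ⟨_, a2, by rw [abs_of_neg (by linarith)]; constructor <;> linarith⟩
    exact ⟨_, hu, by
      rw [dist_comm]; exact (saw0_le' t u).trans (le_min h5 (le_max_of_le_right h6))⟩
  · rw [hd, ← hx] at h ⊢
    rw [min_eq_right (((min_lt_iff.1 h).resolve_left (by linarith)).le.trans (by linarith))]
    have a1 := le_max_left 0 (|x| - s / 2)
    have a2 := le_max_right 0 (|x| - s / 2)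
    generalize max 0 (|x| - s / 2) = m at a1 a2
    obtain ⟨u, a3, a4⟩ : ∃ u : ℝ, |u| ≤ m + d / 4 ∧ |x - u| ≤ s / 2 - d / 4 := by
      have := le_abs_self x
      have := neg_abs_le x
      rcases le_total x (-(m + d / 4)) with h | h
      · exact ⟨-(m + d / 4), abs_le.2 ⟨by linarith, by linarith⟩,
          abs_le.2 ⟨by linarith, by linarith⟩⟩
      rcases le_total x (m + d / 4) with h' | h'
      · exact ⟨x, abs_le.2 ⟨h, h'⟩, by rw [sub_self, abs_zero]; linarith⟩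
      · exact ⟨m + d / 4, abs_le.2 ⟨by linarith, by linarith⟩,
          abs_le.2 ⟨by linarith, by linarith⟩⟩
    refine ⟨t + u, (saw0_le' t u).trans a3, fun g h5 hg => ?_⟩
    have := dist_triangle (t + x) (t + u) g
    linarith [h2 _ hc _ hg, saw0_le t x u, mem_ball'.1 h5]

lemma saw0_dist {ρ : ℝ} (h1 : ρ ≤ 1) (t u : TT) :
    ‖ρ * ec t - ec u‖ ≤ 1 - ρ + 2 * Real.pi * dist t u := by
  have h2 : ‖ρ * ec t - ec t‖ = 1 - ρ := by
    rw [← sub_one_mul, norm_mul, norm_ec, mul_one, norm_sub_rev, ← ofReal_one, ← ofReal_sub,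
      norm_real, Real.norm_of_nonneg (sub_nonneg.2 h1)]
  linarith [norm_sub_le_norm_sub_add_norm_sub (ρ * ec t) (ec t) (ec u), ec_dist_le t u]

lemma saw0_norm {ρ : ℝ} (h0 : 0 ≤ ρ) (t : TT) : ‖(ρ : ℂ) * ec t‖ = ρ := by
  rw [norm_mul, norm_ec, mul_one, norm_real, Real.norm_of_nonneg h0]

lemma saw0_cone {ρ : ℝ} (h0 : 0 ≤ ρ) (h1 : ρ < 1) {t u : TT} (h : dist t u ≤ 1 - ρ) :
    (ρ : ℂ) * ec t ∈ Cone 8 (ec u) := by
  refine ⟨by rwa [saw0_norm h0], (saw0_dist h1.le t u).trans ?_⟩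
  rw [saw0_norm h0]
  nlinarith [Real.pi_lt_d2, Real.pi_pos, dist_nonneg (x := t) (y := u)]

theorem teeth_bd {G : Set TT} (hG : IsClosed G) {s r : ℝ} (hs : 0 < s) (hs1 : s ≤ 1 / 16)
    (hr : 1 - s / 2 ≤ r) (hr1 : r < 1) {t : TT} {x : ℝ} (h0 : 0 ≤ x) (h1 : x ≤ s)
    (h2 : 0 < x → ∃ t' ∈ G, dist t t' ≤ x)
    (h3 : x < s / 2 → ∀ d : ℝ, 0 < d → d ≤ 2 * s →
      ∃ c : TT, dist c t ≤ x + d / 4 ∧ ball c (d / 4) ⊆ Gᶜ) :
    Bd G s r ((r * (1 - x) : ℝ) * ec t) := by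
  have r0 : 0 < r := by linarith
  have a1 : 0 ≤ r * (1 - x) := mul_nonneg r0.le (by linarith)
  have a2 : r * (1 - x) ≤ r := by nlinarith
  have a3 : x ≤ 1 - r * (1 - x) := by nlinarith
  have a4 : 1 - r * (1 - x) ≤ 3 * s / 2 := by nlinarith
  have a5 : ((r * (1 - x) : ℝ) : ℂ) * ec t / r = (1 - x : ℝ) * ec t := by
    have : (r : ℂ) ≠ 0 := ofReal_ne_zero.2 r0.ne'
    push_cast
    field_simp
  have a6 : x = 0 → r * (1 - x) = r := fun h => by simp [h]
  generalize r * (1 - x) = ρ at *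
  have hn := saw0_norm a1 t
  have a7 : x < s / 2 → cz ≤ hm Gᶜ (ρ * ec t) := fun h => by
    obtain ⟨c, b1, b2⟩ := h3 h (1 - ρ) (by linarith) (by linarith)
    have b3 : 0 < 1 - ρ := by linarith
    refine le_trans ?_ (le_hm hG.isOpen_compl.measurableSet (by linarith) (L := 11 * (1 - ρ))
      (by linarith) (by linarith) b2 fun u hu => ?_)
    · rw [hn, cz, le_div_iff₀ (by positivity)]
      nlinarith [sq_nonneg (1 - ρ)]
    · rw [norm_sub_rev]
      refine (saw0_dist (by linarith) t u).trans ?_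
      have : dist t u ≤ 3 / 2 * (1 - ρ) := by linarith [dist_triangle_left t u c, mem_ball'.1 hu]
      nlinarith [Real.pi_lt_d2, Real.pi_pos, dist_nonneg (x := t) (y := u)]
  rcases h0.eq_or_lt with h | h
  · exact Or.inl ⟨hn.trans (a6 h.symm), a7 (by linarith)⟩
  · obtain ⟨u, hu, b1⟩ := h2 h
    refine Or.inr ⟨⟨u, hu, saw0_cone a1 (by linarith) (b1.trans a3), ?_⟩, by linarith,
      by linarith, (lt_or_ge x (s / 2)).imp a7 fun _ => by linarith⟩
    rw [a5]
    exact saw0_cone (by linarith) (by linarith) (by linarith)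

/-- the star shaped domain with radius function `R` -/
def Star (R : TT → ℝ) : Set ℂ := {w | ∀ t, w = ‖w‖ * ec t → ‖w‖ < R t}

lemma saw0_polar (w : ℂ) : ∃ t, w = ‖w‖ * ec t := by
  obtain ⟨t, ht⟩ := ec_surj (norm_exp_ofReal_mul_I (arg w))
  exact ⟨t, by rw [ht, norm_mul_exp_arg_mul_I]⟩

theorem star_props {R : TT → ℝ} (hR : Continuous R) (h0 : ∀ t, 0 < R t) :
    IsOpen (Star R) ∧ IsPreconnected (Star R) ∧ (0 : ℂ) ∈ Star R ∧
      (∀ g : ℂ → ℂ, ContinuousOn g (Star R) → (∀ w ∈ Star R, g w ≠ 0) → HasLogOn g (Star R)) ∧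
      (∀ w ∈ closure (Star R), w ∉ Star R → ∃ t, w = R t * ec t) ∧
      ∀ r, (∀ t, R t ≤ r) → Star R ⊆ ball 0 r := by
  have hz : (0 : ℂ) ∈ Star R := fun t _ => by simpa using h0 t
  have hs : ∀ a ∈ Icc (0 : ℝ) 1, ∀ w ∈ Star R, a • w ∈ Star R := fun a ha w hw => by
    rcases ha.1.eq_or_lt with rfl | h
    · simpa using hz
    intro t ht
    rw [norm_smul, Real.norm_of_nonneg ha.1] at ht ⊢
    refine (mul_le_of_le_one_left (norm_nonneg _) ha.2).trans_lt (hw t ?_)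
    rw [real_smul, ofReal_mul, mul_assoc] at ht
    exact mul_left_cancel₀ (ofReal_ne_zero.2 h.ne') ht
  have hp : IsClosed {x : TT × ℂ | x.2 = ‖x.2‖ * ec x.1} := isClosed_eq (by fun_prop) (by fun_prop)
  refine ⟨?_, ((starConvex_zero_iff.2 fun w hw a a0 a1 => hs a ⟨a0, a1⟩ w hw).isPathConnected
    hz).isConnected.isPreconnected, hz, fun g hg hne => ?_, fun w hw h => ?_, fun r hr w hw => ?_⟩
  · rw [← isClosed_compl_iff, show (Star R)ᶜ = Prod.snd '' ({x : TT × ℂ | x.2 = ‖x.2‖ * ec x.1} ∩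
      {x | R x.1 ≤ ‖x.2‖}) by ext w; simp [Star]]
    exact isClosedMap_snd_of_compactSpace _ (hp.inter (isClosed_le (by fun_prop) (by fun_prop)))
  · simpa using HasLogOn.homotopy (H := fun a w => g (a • w)) (K := Star R)
      (hg.comp (by fun_prop) fun p hp => hs _ hp.1 _ hp.2) (fun a ha w hw => hne _ (hs a ha w hw))
      (by simpa using hasLogOn_const (hne 0 hz) _)
  · obtain ⟨⟨t, _⟩, ⟨h1, h2⟩, rfl⟩ := (isClosedMap_snd_of_compactSpace _ (hp.inter
      (isClosed_le (f := fun x => ‖x.2‖) (g := fun x => R x.1) (by fun_prop)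
        (by fun_prop)))).closure_subset_iff.2 (fun w hw => (saw0_polar w).elim
          fun t ht => ⟨(t, w), ⟨ht, (hw t ht).le⟩, rfl⟩) hw
    simp only [Star, mem_ofPred_eq, not_forall, not_lt] at h h1 h2
    obtain ⟨u, h3, h4⟩ := h
    have h5 := mul_left_cancel₀ (ofReal_ne_zero.2 ((h0 u).trans_le h4).ne') (h1.symm.trans h3)
    have h6 := le_ec_dist t u
    rw [h5, sub_self, norm_zero] at h6
    obtain rfl : t = u := dist_le_zero.1 (by linarith)
    exact ⟨t, by rw [← h2.antisymm h4]; exact h1⟩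
  · obtain ⟨t, ht⟩ := saw0_polar w
    exact mem_ball_zero_iff.2 ((hw t ht).trans_le (hr t))

end Pool.Agent.MP_4baaa2_an.H94
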