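import Pool.Agent.MP_4baaa2_an.Mg.H94_Bdy
import Pool.Agent.MP_4baaa2_an.Mg.H94_GeoA
import Pool.Agent.MP_4baaa2_an.Mg.H94_Ha5

/-!
Equi-integrability of the densities.
-/

namespace Pool.Agent.MP_4baaa2_an.H94

open Set Metric Filter Topology Complex MeasureTheory
open scoped ComplexConjugate
open Pool.Agent.Lib.PlaneTop

variable {n : ℕ} {D : Set (E n)} {Φ : E n → E n → ℂ}

variable {h m : ℂ → E n} {xs : TT → E n} {Lg : E n → ℂ → ℂ} {γ A₀ : ℝ} {b₀ : TT → ℝ} {η : ℕ → ℝ}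
  {τ : ℕ → TT → Ty} {P : Par} {ε : ℝ} {p : E n} {a a' c K : ℝ} {ν : ℕ → TT → E n}
  {𝒰 : Ultrafilter ℕ}


theorem pol1_int {v gs : TT → E n} {g : ℂ → E n} {Bg : ℝ} (hv : Integrable v) (hg : HB g Bg)
    (hr : RL g gs) : Integrable fun t => dot (v t) (gs t) := by
  have hc : ContinuousOn g (Ann 0) := hg.diff.continuousOn.mono (ha4_sub 0)
  have h1 := hr.aesm zero_lt_one hc
  have h2 := hr.bound zero_lt_one fun w hw => hg.bd w (ha4_sub 0 hw)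
  refine (hv.norm.mul_const Bg).mono'
    (continuous_dot.comp_aestronglyMeasurable (hv.aestronglyMeasurable.prodMk h1)) ?_
  filter_upwards [h2] with t ht
  exact (norm_dot_le _ _).trans (mul_le_mul_of_nonneg_left ht (norm_nonneg _))

theorem pol1_re {f : TT → ℂ} {g : TT → ℝ} (hf : Integrable f) (hg : Integrable g)
    (h : ∀ᵐ t, g t ≤ (f t).re) : ∫ t, g t ≤ ‖∫ t, f t‖ := by
  have h1 : ∫ t, g t ≤ ∫ t, (f t).re := integral_mono_ae hg hf.re h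
  have h2 : ∫ t, (f t).re = (∫ t, f t).re := integral_re hf
  exact h1.trans (h2 ▸ re_le_norm _)

theorem pol1_alg {u d : ℂ} {θ R c x : ℝ} (hθ : 0 < θ) (hx : 0 ≤ x) (hu : |u.im| ≤ θ * u.re)
    (hd : c * x ≤ d.re) (hd' : ‖d‖ ≤ x * R) (hR : θ * R ≤ c / 2) :
    u.re * (c / 2 * x) ≤ (u * d).re := by
  have h0 : 0 ≤ u.re := by
    by_contra hc
    have := mul_neg_of_pos_of_neg hθ (not_le.1 hc)
    linarith [abs_nonneg u.im]
  have h1 : u.im * d.im ≤ θ * u.re * (x * R) := by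
    refine (le_abs_self _).trans ?_
    rw [abs_mul]
    exact mul_le_mul hu ((abs_im_le_norm d).trans hd') (abs_nonneg _) (by positivity)
  have h2 : u.re * (c * x) ≤ u.re * d.re := mul_le_mul_of_nonneg_left hd h0
  have h3 : u.re * x * (θ * R) ≤ u.re * x * (c / 2) :=
    mul_le_mul_of_nonneg_left hR (mul_nonneg h0 hx)
  rw [mul_re]
  nlinarith

/-- Hint: `Geo.sl`, `Mu.eq` for `g = h`. -/
theorem Geo.l1_bound (G : Geo D Φ) (B : Bdy D Φ h xs Lg) (S : Sel D Φ xs γ A₀ b₀ η τ)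
    (M : Mu P ε p h b₀ η τ a K m ν 𝒰) : ∃ C : ℝ, ∀ᶠ j in atTop, ∫ t, ‖ν j t‖ ≤ C := by
  obtain ⟨Rh, -, hRh⟩ := G.hb
  obtain ⟨c₁, hc₁, hsl⟩ := G.sl S.gpos
  have hb := hRh h B.adm
  have h1 := (M.eq h _ Rh hb B.rl).norm
  refine ⟨(‖ell P ε p h fun w => ka b₀ w • h w‖ + 1) / c₁, ?_⟩
  filter_upwards [hsl S, h1.eventually (gt_mem_nhds (lt_add_one _))] with j hj hj'
  have h2 := pol1_re (pol1_int (M.int j) hb B.rl) ((M.int j).norm.const_mul c₁)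
    (Eventually.of_forall fun t => hj t (ν j t) (M.pol j t))
  rw [integral_const_mul] at h2
  rw [le_div_iff₀ hc₁]
  linarith

/-- Hint: `exists_test θ' P.r` gives `u, us`; `Mu.eq` for `g = u • h`; the limit has norm `≤ C θ'`
(`norm_ell_le`, `ka_bound`), and
`Re (us ⟨ν, hs⟩) ≥ Re us (c₁ - θ' Rh) ‖ν‖ ≥ c₁ / 6 * indicator T ‖ν‖` (`Geo.sl`). -/
theorem Geo.equi (G : Geo D Φ) (B : Bdy D Φ h xs Lg) (S : Sel D Φ xs γ A₀ b₀ η τ)
    (M : Mu P ε p h b₀ η τ a K m ν 𝒰) (hζ : ‖F h p‖ ≤ P.r) {θ : ℝ} (hθ : 0 < θ) : ∃ m₀ > 0,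
      ∀ T : Set TT, MeasurableSet T → volume.real T ≤ m₀ →
        ∀ᶠ j in atTop, ∫ t in T, ‖ν j t‖ ≤ θ := by
  obtain ⟨Rh, hR0, hRh⟩ := G.hb
  obtain ⟨c₁, hc₁, hsl⟩ := G.sl S.gpos
  have hb := hRh h B.adm
  obtain ⟨C, hC, hell⟩ := norm_ell_le P ε p hb.bd hζ
  have hA : 0 ≤ A₀ := (abs_nonneg _).trans (S.bd 0)
  obtain ⟨Ka, hKa, hka⟩ : ∃ Ka > 0, ∀ w : ℂ, ‖w‖ ≤ P.r → ‖ka b₀ w‖ ≤ Ka := by
    refine ⟨Real.exp (2 * A₀ / (1 - P.r)), Real.exp_pos _, fun w hw => ?_⟩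
    refine (ka_bound S.meas S.bd (hw.trans_lt P.hr)).2.trans (Real.exp_le_exp.2 ?_)
    exact div_le_div_of_nonneg_left (by positivity) (sub_pos.2 P.hr) (by linarith)
  obtain ⟨θ', hθ', h1, h2⟩ : ∃ θ' > 0, θ' * Rh ≤ c₁ / 2 ∧ C * (Ka * (θ' * Rh)) < c₁ / 6 * θ := by
    refine ⟨min (c₁ / (2 * Rh)) (c₁ * θ / (12 * (C * Ka * Rh))), by positivity, ?_, ?_⟩
    · refine (mul_le_mul_of_nonneg_right (min_le_left _ _) hR0.le).trans (le_of_eq ?_)
      field_simp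
    · have h3 : C * (Ka * (min (c₁ / (2 * Rh)) (c₁ * θ / (12 * (C * Ka * Rh))) * Rh)) ≤
          C * (Ka * (c₁ * θ / (12 * (C * Ka * Rh)) * Rh)) := by
        gcongr
        exact min_le_right _ _
      have h4 : C * (Ka * (c₁ * θ / (12 * (C * Ka * Rh)) * Rh)) = c₁ * θ / 12 := by field_simp
      have h5 := mul_pos hc₁ hθ
      linarith
  obtain ⟨m₀, hm₀, htest⟩ := exists_test hθ' P.hr
  refine ⟨m₀, hm₀, fun T hT hTm => ?_⟩
  obtain ⟨u, us, hu, hus, hph, hsm⟩ := htest T hT hTm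
  have hg : HB (fun w => u w • h w) Rh := ⟨hu.diff.smul hb.diff, fun w hw => by
    rw [norm_smul]
    exact (mul_le_mul (hu.bd w hw) (hb.bd w hw) (norm_nonneg _) zero_le_one).trans
      (one_mul _).le⟩
  have hgs : RL (fun w => u w • h w) fun t => us t • ec t • xs t := by
    filter_upwards [hus, B.rl] with t h3 h4
    exact h3.smul h4
  have h3 := (M.eq _ _ Rh hg hgs).norm
  have h4 : ‖ell P ε p h fun w => ka b₀ w • u w • h w‖ < c₁ / 6 * θ := by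
    refine (hell _ (Ka * (θ' * Rh)) fun w hw => ?_).trans_lt h2
    rw [norm_smul, norm_smul]
    have h5 := hb.bd w (mem_ball_zero_iff.2 (hw.trans_lt P.hr))
    have h6 := hka w hw
    have h7 := hsm w hw
    gcongr
  have hbd := B.rl.bound zero_lt_one fun w hw => hb.bd w (ha4_sub 0 hw)
  filter_upwards [hsl S, h3.eventually (gt_mem_nhds h4)] with j hj hj'
  have h5 := pol1_re (pol1_int (M.int j) hg hgs)
    (((M.int j).norm.indicator hT).const_mul (c₁ / 6)) (by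
      filter_upwards [hph, hbd] with t ht hx
      have h6 := pol1_alg hθ' (norm_nonneg (ν j t)) ht.1 (hj t (ν j t) (M.pol j t))
        ((norm_dot_le _ _).trans (mul_le_mul_of_nonneg_left hx (norm_nonneg _))) h1
      rw [dot_smul_right]
      refine le_trans ?_ h6
      have h7 : 0 ≤ c₁ / 2 * ‖ν j t‖ := by positivity
      by_cases htT : t ∈ T
      · rw [indicator_of_mem htT]
        have h8 := mul_le_mul_of_nonneg_right (ht.2 htT) h7
        linarith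
      · rw [indicator_of_notMem htT, mul_zero]
        refine mul_nonneg ?_ h7
        by_contra hc
        have := mul_neg_of_pos_of_neg hθ' (not_le.1 hc)
        linarith [abs_nonneg (us t).im, ht.1])
  rw [integral_const_mul, integral_indicator hT] at h5
  exact le_of_mul_le_mul_left (h5.trans hj'.le) (by positivity)

/-- Hint: `Pk_symm`, `integral_integral_swap`. -/
theorem int_PI_swap {f : TT → ℝ} (hf : Integrable f) {B : Set TT} (hB : MeasurableSet B) {ρ : ℝ}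
    (h0 : 0 ≤ ρ) (h1 : ρ < 1) :
    ∫ t in B, PI f (ρ * ec t) = ∫ s, f s * hm B (ρ * ec s) := by
  have hw : ∀ s, ‖(ρ : ℂ) * ec s‖ < 1 := fun s => by rw [ha4_norm h0]; exact h1
  have hc : Continuous fun x : TT × TT => Pk (ρ * ec x.1) (ec x.2) := by
    unfold Pk
    refine Continuous.div (by fun_prop) (by fun_prop) fun x => ?_
    exact pow_ne_zero _ (norm_ne_zero_iff.2 (ec_sub_ne (hw x.1) x.2))
  have hi : Integrable (Function.uncurry fun t s : TT => Pk (ρ * ec t) (ec s) • f s)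
      ((volume.restrict B).prod volume) := by
    have h2 := hf.comp_snd (volume.restrict B)
    refine (h2.norm.const_mul (2 / (1 - ρ))).mono' (hc.aestronglyMeasurable.smul h2.1)
      (Eventually.of_forall fun x => ?_)
    show ‖Pk (ρ * ec x.1) (ec x.2) • f x.2‖ ≤ _
    rw [norm_smul, Real.norm_of_nonneg (Pk_nonneg (hw x.1) _)]
    have h3 := Pk_le (hw x.1) x.2
    rw [ha4_norm h0] at h3
    exact mul_le_mul_of_nonneg_right h3 (norm_nonneg _)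
  unfold PI
  rw [integral_integral_swap hi]
  refine integral_congr_ae (Eventually.of_forall fun s => ?_)
  show ∫ t in B, Pk (ρ * ec t) (ec s) • f s = f s * hm B (ρ * ec s)
  unfold hm PI
  rw [← integral_indicator hB, ← integral_const_mul]
  refine integral_congr_ae (Eventually.of_forall fun t => ?_)
  show B.indicator _ t = f s * (Pk (ρ * ec s) (ec t) • B.indicator (fun _ => (1 : ℝ)) t)
  by_cases ht : t ∈ B
  · rw [indicator_of_mem ht, indicator_of_mem ht, Pk_symm ρ t s, smul_eq_mul, smul_eq_mul]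
    ring
  · rw [indicator_of_notMem ht, indicator_of_notMem ht, smul_zero, mul_zero]

/-- Hint: `‖Y⁻¹‖ ≤ C Re Y⁻¹`, and the mean of `Y⁻¹` over circles is constant (`ann_mean`, `avg_eq`). -/
theorem inv_mean {Y : ℂ → ℂ} {a C : ℝ} (h0 : 0 < a) (ha : a < 1)
    (hY : DifferentiableOn ℂ Y (Ann a))
    (h1 : ∀ w ∈ Ann a, 0 < (Y w).re ∧ ‖Y w‖ ≤ C * (Y w).re) :
    ∃ C' : ℝ, ∀ ρ ∈ Ioo a 1, ∫ t, ‖Y (ρ * ec t)‖⁻¹ ≤ C' := by
  have hne : ∀ w ∈ Ann a, Y w ≠ 0 := fun w hw h => by simpa [h] using (h1 w hw).1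
  have hd : DifferentiableOn ℂ (fun w => (Y w)⁻¹) (Ann a) := hY.inv hne
  have hm : ∀ r ∈ Ioo a 1, ∀ r' ∈ Ioo a 1, r ≤ r' →
      Real.circleAverage (fun w => (Y w)⁻¹) 0 r = Real.circleAverage (fun w => (Y w)⁻¹) 0 r' :=
    fun r hr r' hr' hle => ann_mean (h0.trans hr.1) hle (isOpen_Ann a)
      (fun w h2 h3 => ⟨hr.1.trans_le h2, h3.trans_lt hr'.2⟩) hd
  have hρ₀ : (a + 1) / 2 ∈ Ioo a 1 := ⟨by linarith, by linarith⟩
  refine ⟨‖(C : ℂ) * Real.circleAverage (fun w => (Y w)⁻¹) 0 ((a + 1) / 2)‖, fun ρ hρ => ?_⟩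
  have hρ' : ρ ∈ Ioo (max a 0) 1 := ⟨max_lt hρ.1 (h0.trans hρ.1), hρ.2⟩
  have h2 : Real.circleAverage (fun w => (Y w)⁻¹) 0 ((a + 1) / 2) =
      Real.circleAverage (fun w => (Y w)⁻¹) 0 ρ := by
    rcases le_total ρ ((a + 1) / 2) with h | h
    · exact (hm _ hρ _ hρ₀ h).symm
    · exact hm _ hρ₀ _ hρ h
  have c1 : Continuous fun t => (Y (ρ * ec t))⁻¹ := ha4_cont hd.continuousOn hρ'
  rw [h2, avg_eq, ← integral_const_mul]
  refine pol1_re ((ha6_int c1).const_mul _) ?_ (Eventually.of_forall fun t => ?_)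
  · simpa only [norm_inv] using ha6_int c1.norm
  · have h3 := h1 _ (ha4_ann hρ' t)
    have h4 : 0 < ‖Y (ρ * ec t)‖ := norm_pos_iff.2 (hne _ (ha4_ann hρ' t))
    rw [re_ofReal_mul, inv_re, normSq_eq_norm_sq, ← mul_div_assoc, le_div_iff₀ (by positivity)]
    refine le_trans (le_of_eq ?_) h3.2
    field_simp

theorem pol1_point {x y C l R : ℝ} (hy : 0 < y) (hl : 0 < l) (hC : 0 ≤ C) (hx : x ≤ C * y)
    (hR : 0 ≤ R) (hxR : x ≤ R) : max (x / y) 0 ≤ C * l * y⁻¹ + R / l := by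
  have h1 : 0 ≤ C * l * y⁻¹ := by positivity
  have h2 : 0 ≤ R / l := by positivity
  refine max_le ?_ (by positivity)
  rcases le_total y l with h | h
  · have h3 : x / y ≤ C := (div_le_iff₀ hy).2 hx
    have h4 : C ≤ C * l * y⁻¹ := by
      rw [← div_eq_mul_inv, le_div_iff₀ hy]
      exact mul_le_mul_of_nonneg_left h hC
    linarith
  · have h3 : x / y ≤ R / y := div_le_div_of_nonneg_right hxR hy.le
    have h4 : R / y ≤ R / l := div_le_div_of_nonneg_left hR hl h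
    linarith

theorem pol1_hm {f : TT → ℝ} (hf : Integrable f) (h0 : ∀ t, 0 ≤ f t) {B : Set TT}
    (hB : MeasurableSet B) {ρ θ C θ' : ℝ} (hρ0 : 0 ≤ ρ) (hρ : ρ < 1) (hθ : 0 ≤ θ)
    (hC : ∫ t, f t ≤ C) {T : Set TT} (hT : MeasurableSet T)
    (hT' : ∀ s, s ∉ B → s ∉ T → hm B (ρ * ec s) ≤ θ) (hfT : ∫ t in T, f t ≤ θ') :
    ∫ t in B, PI (Bᶜ.indicator f) (ρ * ec t) ≤ θ' + θ * C := by
  rw [int_PI_swap (hf.indicator hB.compl) hB hρ0 hρ]
  have hw : ∀ s, ‖(ρ : ℂ) * ec s‖ < 1 := fun s => by rw [ha4_norm hρ0]; exact hρ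
  have h1 : ∫ s, Bᶜ.indicator f s * hm B (ρ * ec s) ≤ ∫ s, (T.indicator f s + θ * f s) := by
    refine integral_mono_of_nonneg (Eventually.of_forall fun s => ?_)
      ((hf.indicator hT).add (hf.const_mul θ)) (Eventually.of_forall fun s => ?_)
    · exact mul_nonneg (indicator_nonneg (fun t _ => h0 t) s) (hm_nonneg B (hw s))
    · have h2 : 0 ≤ T.indicator f s := indicator_nonneg (fun t _ => h0 t) s
      have h3 : 0 ≤ θ * f s := mul_nonneg hθ (h0 s)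
      show Bᶜ.indicator f s * hm B (ρ * ec s) ≤ T.indicator f s + θ * f s
      by_cases hs : s ∈ B
      · rw [indicator_of_notMem (show s ∉ Bᶜ from fun h => h hs), zero_mul]
        linarith
      · rw [indicator_of_mem (show s ∈ Bᶜ from hs)]
        by_cases hs' : s ∈ T
        · rw [indicator_of_mem hs']
          have h4 := mul_le_mul_of_nonneg_left (hm_le_one B (hw s)) (h0 s)
          linarith
        · have h4 := mul_le_mul_of_nonneg_left (hT' s hs hs') (h0 s)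
          linarith
  rw [integral_add (hf.indicator hT) (hf.const_mul θ), integral_indicator hT,
    integral_const_mul] at h1
  have h2 := mul_le_mul_of_nonneg_left hC hθ
  linarith

theorem pol1_step {X Y : ℂ → ℂ} {a C C' ρ l δ A : ℝ} (h0 : 0 < a) (hC : 0 ≤ C)
    (hY : ContinuousOn Y (Ann a)) (h1 : ∀ w ∈ Ann a, 0 < (Y w).re ∧ ‖X w‖ ≤ C * ‖Y w‖)
    (hρ : ρ ∈ Ioo a 1) (hl : 0 < l) (hδ : 0 ≤ δ) (hI : ∫ t, ‖Y (ρ * ec t)‖⁻¹ ≤ C') {B : Set TT}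
    {g : TT → ℝ} (hg : Integrable g) (hg0 : ∀ t, 0 ≤ g t)
    (hr : ∀ t, (X (ρ * ec t)).re ≤ PI g (ρ * ec t) + δ)
    (hA : ∫ t in B, PI g (ρ * ec t) ≤ A) :
    ∫ t in B, max ((X (ρ * ec t)).re / ‖Y (ρ * ec t)‖) 0 ≤ C * l * C' + (A + δ) / l := by
  have hρ' : ρ ∈ Ioo (max a 0) 1 := ⟨max_lt hρ.1 (h0.trans hρ.1), hρ.2⟩
  have hw : ∀ t, ‖(ρ : ℂ) * ec t‖ < 1 := fun t => (ha4_ann hρ' t).2
  have hne : ∀ t, 0 < ‖Y (ρ * ec t)‖ := fun t =>
    (h1 _ (ha4_ann hρ' t)).1.trans_le (re_le_norm _)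
  have c1 : Continuous fun t => ‖Y (ρ * ec t)‖⁻¹ :=
    (ha4_cont hY hρ').norm.inv₀ fun t => (hne t).ne'
  have c2 : Continuous fun t => PI g (ρ * ec t) :=
    ha4_cont ((continuousOn_PI hg).mono (ha4_sub a)) hρ'
  have i1 : Integrable fun t => C * l * ‖Y (ρ * ec t)‖⁻¹ + δ / l :=
    ((ha6_int c1).const_mul _).add (integrable_const _)
  have i2 : Integrable fun t => PI g (ρ * ec t) / l := (ha6_int c2).div_const l
  have h2 : ∫ t in B, max ((X (ρ * ec t)).re / ‖Y (ρ * ec t)‖) 0 ≤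
      ∫ t in B, ((C * l * ‖Y (ρ * ec t)‖⁻¹ + δ / l) + PI g (ρ * ec t) / l) := by
    refine integral_mono_of_nonneg (Eventually.of_forall fun t => le_max_right _ _)
      (i1.add i2).integrableOn (Eventually.of_forall fun t => ?_)
    have h3 := pol1_point (hne t) hl hC ((re_le_norm _).trans (h1 _ (ha4_ann hρ' t)).2)
      (add_nonneg (PI_nonneg (Eventually.of_forall hg0) (hw t)) hδ) (hr t)
    rw [add_div] at h3
    show max _ _ ≤ _ + _ + _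
    linarith
  have h3 : ∫ t in B, (C * l * ‖Y (ρ * ec t)‖⁻¹ + δ / l) ≤ C * l * C' + δ / l := by
    refine (setIntegral_le_integral i1 (Eventually.of_forall fun t => ?_)).trans ?_
    · show 0 ≤ C * l * ‖Y (ρ * ec t)‖⁻¹ + δ / l
      positivity
    · rw [integral_add ((ha6_int c1).const_mul _) (integrable_const _), integral_const_mul,
        integral_const]
      have h4 := mul_le_mul_of_nonneg_left hI (mul_nonneg hC hl.le)
      simp only [probReal_univ, smul_eq_mul, one_mul]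
      linarith
  rw [integral_add i1.integrableOn i2.integrableOn, integral_div] at h2
  have h4 := div_le_div_of_nonneg_right hA hl.le
  rw [add_div]
  linarith

/-- Hint: `Ψ w = max (Re X w / ‖Y w‖) 0 ≤ C`. Pointwise, for `l > 0`,
`Ψ ≤ C l ‖Y‖⁻¹ + (max (Re X) 0) / l` (cases `‖Y‖ ≤ l`, `‖Y‖ > l`). Integrate over `B` on the circle of
radius `ρ`: `inv_mean`, `hr`, `int_PI_swap`, and
`∫ indicator Bᶜ (f j) * hm B ≤ ∫_T f j + θ C`, `T = {s ∉ B | θ < hm B (ρ ec s)}`, whose measure tends to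
`0` as `ρ → 1` (`fatou_hm`, dominated convergence or `RL.in_measure` for `hm B`). So
`limsup ∫_B Ψ (ρ ec t) ≤ C C' l + (θ + θ C) / l`; the left side tends to `∫_B max φ 0`
(`RL.tendsto_L1`). -/
theorem pol_abs {X Y : ℂ → ℂ} {a C : ℝ} (h0 : 0 < a) (ha : a < 1) (hX : ContinuousOn X (Ann a))
    (hY : DifferentiableOn ℂ Y (Ann a))
    (h1 : ∀ w ∈ Ann a, 0 < (Y w).re ∧ ‖Y w‖ ≤ C * (Y w).re ∧ ‖X w‖ ≤ C * ‖Y w‖) {B : Set TT}
    (hB : MeasurableSet B) {l : Filter ℕ} [l.NeBot] {f : ℕ → TT → ℝ}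
    (hf : ∀ j, Integrable (f j) ∧ ∀ t, 0 ≤ f j t) (hC : ∀ᶠ j in l, ∫ t, f j t ≤ C)
    (he : ∀ θ > 0, ∃ m > 0, ∀ T : Set TT, MeasurableSet T → volume.real T ≤ m →
      ∀ᶠ j in l, ∫ t in T, f j t ≤ θ)
    (hr : ∀ ρ ∈ Ioo a 1, ∀ μ > 0, ∀ᶠ j in l, ∀ t,
      (X (ρ * ec t)).re ≤ PI (Bᶜ.indicator (f j)) (ρ * ec t) + C * (1 - ρ) + μ)
    {φ : TT → ℝ} (hφ : RL (fun w => (X w).re / ‖Y w‖) φ) : ∀ᵐ t, t ∈ B → φ t ≤ 0 := by
  have hC0 : 0 ≤ C := by
    have h2 : (a + 1) / 2 ∈ Ioo (max a 0) 1 := ⟨max_lt (by linarith) (by linarith), by linarith⟩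
    have h3 := h1 _ (ha4_ann h2 0)
    by_contra hc
    have := mul_neg_of_neg_of_pos (not_le.1 hc) h3.1
    linarith [norm_nonneg (Y (((a + 1) / 2 : ℝ) * ec 0)), h3.2.1]
  have hpos : ∀ w ∈ Ann a, 0 < ‖Y w‖ := fun w hw => (h1 w hw).1.trans_le (re_le_norm _)
  obtain ⟨C', hC'⟩ := inv_mean h0 ha hY fun w hw => ⟨(h1 w hw).1, (h1 w hw).2.1⟩
  have cΨ : ContinuousOn (fun w => max ((X w).re / ‖Y w‖) 0) (Ann a) :=
    (continuous_id.max continuous_const).comp_continuousOn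
      ((continuous_re.comp_continuousOn hX).div hY.continuousOn.norm fun w hw => (hpos w hw).ne')
  have bΨ : ∀ w ∈ Ann a, ‖max ((X w).re / ‖Y w‖) 0‖ ≤ C := fun w hw => by
    rw [Real.norm_of_nonneg (le_max_right _ _)]
    exact max_le ((div_le_iff₀ (hpos w hw)).2 ((re_le_norm _).trans (h1 w hw).2.2)) hC0
  have rΨ : RL (fun w => max ((X w).re / ‖Y w‖) 0) fun t => max (φ t) 0 := by
    filter_upwards [hφ] with t ht
    exact ht.max tendsto_const_nhds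
  have iφ := rΨ.int ha cΨ bΨ
  have hlim : Tendsto (fun ρ : ℝ => ∫ t in B, max ((X (ρ * ec t)).re / ‖Y (ρ * ec t)‖) 0)
      (𝓝[<] 1) (𝓝 (∫ t in B, max (φ t) 0)) := by
    refine tendsto_iff_norm_sub_tendsto_zero.2
      (squeeze_zero' (Eventually.of_forall fun _ => norm_nonneg _) ?_ (rΨ.tendsto_L1 ha cΨ bΨ))
    filter_upwards [ha4_ev ha] with ρ hρ
    have i1 := ha6_int (ha4_cont cΨ hρ)
    rw [← integral_sub i1.integrableOn iφ.integrableOn]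
    exact (norm_integral_le_integral_norm _).trans
      (setIntegral_le_integral (i1.sub iφ).norm (Eventually.of_forall fun t => norm_nonneg _))
  have hsmall : ∀ κ > 0, ∫ t in B, max (φ t) 0 ≤ κ := by
    intro κ hκ
    obtain ⟨lam, hlam, h2⟩ : ∃ lam > 0, C * lam * C' ≤ κ / 2 := by
      refine ⟨κ / (2 * (|C * C'| + 1)), by positivity, ?_⟩
      have h3 : 0 < |C * C'| + 1 := by positivity
      have h4 : C * (κ / (2 * (|C * C'| + 1))) * C' = κ / 2 * (C * C' / (|C * C'| + 1)) := by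
        field_simp
      have h5 : C * C' / (|C * C'| + 1) ≤ 1 :=
        (div_le_one h3).2 (by linarith [le_abs_self (C * C')])
      rw [h4]
      exact mul_le_of_le_one_right (by positivity) h5
    obtain ⟨θ, hθ, h3⟩ : ∃ θ > 0, (θ + θ * C + (θ + θ)) / lam ≤ κ / 2 := by
      refine ⟨κ * lam / (2 * (3 + C)), by positivity, le_of_eq ?_⟩
      field_simp
      ring
    obtain ⟨m, hm0, hm1⟩ := he θ hθ
    have h4 := (RL_PI (ha2_ind hB)).in_measure ha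
      ((continuousOn_PI (ha2_ind hB)).mono (ha4_sub a)) hθ hm0
    have h5 : ∀ᶠ ρ : ℝ in 𝓝[<] 1, C * (1 - ρ) < θ := by
      have h6 : Tendsto (fun ρ : ℝ => C * (1 - ρ)) (𝓝 1) (𝓝 0) :=
        (by fun_prop : Continuous fun ρ : ℝ => C * (1 - ρ)).tendsto' 1 0 (by simp)
      exact (h6.mono_left nhdsWithin_le_nhds).eventually (gt_mem_nhds hθ)
    refine le_of_tendsto hlim ?_
    filter_upwards [h4, h5, ha4_ev ha] with ρ h6 h7 hρ
    have hρ' : ρ ∈ Ioo a 1 := ⟨(le_max_left _ _).trans_lt hρ.1, hρ.2⟩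
    have hT : MeasurableSet {t | θ < ‖PI (B.indicator fun _ => (1 : ℝ)) (ρ * ec t) -
        B.indicator (fun _ => (1 : ℝ)) t‖} :=
      measurableSet_lt measurable_const
        ((ha4_cont ((continuousOn_PI (ha2_ind hB)).mono (ha4_sub a)) hρ).measurable.sub
          (measurable_const.indicator hB)).norm
    obtain ⟨j, h8, h9, h10⟩ := (hC.and ((hm1 _ hT h6).and (hr ρ hρ' θ hθ))).exists
    have h11 := pol1_hm (hf j).1 (hf j).2 hB (h0.trans hρ'.1).le hρ'.2 hθ.le h8 hT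
      (fun s hs hs' => by
        rw [mem_ofPred_eq] at hs'
        have h12 := not_lt.1 hs'
        rw [indicator_of_notMem hs, sub_zero] at h12
        exact (le_abs_self _).trans h12) h9
    have h12 := pol1_step (X := X) (δ := θ + θ) h0 hC0 hY.continuousOn
      (fun w hw => ⟨(h1 w hw).1, (h1 w hw).2.2⟩) hρ' hlam (by positivity) (hC' ρ hρ')
      ((hf j).1.indicator hB.compl) (indicator_nonneg fun t _ => (hf j).2 t)
      (fun t => by linarith [h10 t]) h11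
    linarith
  have hz : ∫ t in B, max (φ t) 0 = 0 :=
    le_antisymm (le_of_forall_pos_le_add fun κ hκ => by simpa using hsmall κ hκ)
      (integral_nonneg fun t => le_max_right _ _)
  have h2 := (setIntegral_eq_zero_iff_of_nonneg_ae
    (Eventually.of_forall fun t => le_max_right _ _) iφ.integrableOn).1 hz
  filter_upwards [(ae_restrict_iff' hB).1 h2] with t ht htB
  exact (le_max_left _ _).trans (ht htB).le

end Pool.Agent.MP_4baaa2_an.H94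

/-!
Boundary values of the primal annulus.
-/

namespace Pool.Agent.MP_4baaa2_an.H94

open Set Metric Filter Topology Complex MeasureTheory
open scoped ComplexConjugate
open Pool.Agent.Lib.PlaneTop

variable {n : ℕ} {D : Set (E n)} {Φ : E n → E n → ℂ}

variable {h m : ℂ → E n} {xs : TT → E n} {Lg : E n → ℂ → ℂ} {γ A₀ : ℝ} {b₀ : TT → ℝ} {η : ℕ → ℝ}
  {τ : ℕ → TT → Ty} {P : Par} {ε : ℝ} {p : E n} {a a' c K : ℝ} {ν : ℕ → TT → E n}
  {𝒰 : Ultrafilter ℕ}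


theorem cnd_meas (S : Sel D Φ xs γ A₀ b₀ η τ) (j : ℕ) (v : E n) :
    MeasurableSet {t | Cnd (η j) (τ j t) (b₀ t) v} := by
  have e : {t | Cnd (η j) (τ j t) (b₀ t) v} =
      ⋃ σ ∈ {σ : Ty | Cnd (η j) σ (σ.1 : ℝ) v}, {t | τ j t = σ} := by
    ext t
    simp only [mem_ofPred_eq, mem_iUnion, exists_prop, exists_eq_right', (S.ty j t).1]
  rw [e]
  exact MeasurableSet.biUnion (Set.to_countable _) fun σ _ => S.fib j σ

theorem pol2_id : RL (fun w : ℂ => w) ec :=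
  Eventually.of_forall fun t => ha4_rad (ec t)

theorem pol2_bd {ζ : ℂ} (hζ : ‖ζ‖ < 1) (u v : E n) (t : TT) :
    ‖(‖ec t - ζ‖ ^ 2 : ℝ) • dot u (ec t • v)‖ ≤ 4 * ‖v‖ * ‖u‖ := by
  have h1 : ‖ec t - ζ‖ ≤ 2 := by
    have := norm_sub_le (ec t) ζ
    rw [norm_ec] at this
    linarith
  have h2 : ‖ec t - ζ‖ ^ 2 ≤ 2 ^ 2 := pow_le_pow_left₀ (norm_nonneg _) h1 2
  have h3 : ‖dot u (ec t • v)‖ ≤ ‖u‖ * ‖v‖ := by
    have := norm_dot_le u (ec t • v)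
    rwa [norm_smul, norm_ec, one_mul] at this
  rw [norm_smul, Real.norm_of_nonneg (sq_nonneg _)]
  calc ‖ec t - ζ‖ ^ 2 * ‖dot u (ec t • v)‖ ≤ 2 ^ 2 * (‖u‖ * ‖v‖) := by gcongr
    _ = _ := by ring

theorem pol2_int {ζ : ℂ} (hζ : ‖ζ‖ < 1) {u : TT → E n} (hu : Integrable u) (v : E n) :
    Integrable fun t => (‖ec t - ζ‖ ^ 2 : ℝ) • dot (u t) (ec t • v) := by
  refine Integrable.mono' (hu.norm.const_mul (4 * ‖v‖)) ?_
    (Eventually.of_forall fun t => pol2_bd hζ (u t) v t)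
  have h1 : Continuous fun t => (‖ec t - ζ‖ ^ 2 : ℝ) :=
    ((continuous_ec.sub continuous_const).norm).pow 2
  have h2 : Continuous fun t => ec t • v := continuous_ec.smul continuous_const
  exact h1.aestronglyMeasurable.smul
    (continuous_dot.comp_aestronglyMeasurable (hu.1.prodMk h2.aestronglyMeasurable))

theorem pol2_div {Y z : ℂ} (hY : Y ≠ 0) : (Y * z).re / ‖Y‖ = (exp (arg Y * I) * z).re := by
  have h : (‖Y‖ : ℝ) ≠ 0 := norm_ne_zero_iff.2 hY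
  rw [div_eq_iff h, mul_comm _ ‖Y‖, ← re_ofReal_mul, ← mul_assoc, norm_mul_exp_arg_mul_I]

/-- Boundary values of the primal annulus and their polarity. -/
theorem Geo.pol (G : Geo D Φ) (B : Bdy D Φ h xs Lg) (S : Sel D Φ xs γ A₀ b₀ η τ)
    (M : Mu P ε p h b₀ η τ a K m ν 𝒰) (Y : Yp P ε p h m b₀ c a a') (hc : 0 < c)
    (ha : P.r ^ 2 ≤ a) (ha1 : a < 1) (hζ : ‖F h p‖ ≤ P.r) :
    ∃ (q : TT → E n) (υ : TT → ℝ), RL (ff P ε p h m) q ∧
      RL (fun w => arg (dot (Nv P ε p h m b₀ w) (h w))) υ ∧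
      ∀ᵐ t, dot (q t) (xs t) = 1 ∧ |υ t| ≤ Real.pi / 2 ∧
        Pol η (fun j => τ j t) (b₀ t) (υ t) (q t) := by
  have ha0 : 0 < a := lt_of_lt_of_le (pow_pos (P.hs.trans P.hsr) 2) ha
  have hζ1 : ‖F h p‖ < 1 := hζ.trans_lt P.hr
  have hd := B.adm.1
  have hNd : DifferentiableOn ℂ (Nv P ε p h m b₀) (Ann a) :=
    (Nv_diff hd M.md (ha2_bdd S.meas S.bd)).mono fun w hw => ⟨ha.trans_lt hw.1, hw.2⟩
  have hYd : DifferentiableOn ℂ (fun w => dot (Nv P ε p h m b₀ w) (h w)) (Ann a) :=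
    diffOn_dot hNd (hd.mono (ha4_sub a))
  obtain ⟨q, -, -, hq⟩ := exists_RL_ann ha1 (Y.ff_diff hc ha hd M.md)
    fun w hw => Y.ff_le hc hζ1 hw
  obtain ⟨υ, -, hυ, hυ'⟩ := exists_RL_arg ha1 hYd fun w hw => (Y.pos hc hw).1
  obtain ⟨Rh, hRh, hhb⟩ := G.hb
  obtain ⟨C₀, hC₀⟩ := G.l1_bound B S M
  refine ⟨q, υ, hq, hυ', ?_⟩
  have e1 : ∀ᵐ t, dot (q t) (xs t) = 1 := by
    have r1 : RL (fun w => dot (ff P ε p h m w) (h w)) fun t => dot (q t) (ec t • xs t) := by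
      filter_upwards [hq, B.rl] with t h1 h2 using tendsto_dot h1 h2
    have r2 : RL (fun w => dot (ff P ε p h m w) (h w)) ec :=
      pol2_id.congr ha1 fun w hw => ff_dot (Y.pos hc hw).2
    filter_upwards [r1.unique r2] with t ht
    rw [dot_smul_right] at ht
    exact mul_left_cancel₀ (ec_ne t) (ht.trans (mul_one _).symm)
  have e2 : ∀ (v : E n) (j₀ : ℕ), ∀ᵐ t, (∀ j ≥ j₀, Cnd (η j) (τ j t) (b₀ t) v) →
      (exp (υ t * I) * dot (q t) v).re ≤ 0 := by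
    intro v j₀
    have hB : MeasurableSet {t | ∀ j ≥ j₀, Cnd (η j) (τ j t) (b₀ t) v} := by
      rw [ofPred_forall]
      refine MeasurableSet.iInter fun j => ?_
      rw [ofPred_forall]
      exact MeasurableSet.iInter fun _ => cnd_meas S j v
    have hX : ∀ w ∈ Ann a, dot (Nv P ε p h m b₀ w) (w • v) =
        dot (Nv P ε p h m b₀ w) (h w) * dot (ff P ε p h m w) v := fun w hw => by
      have hne : dot (Nv P ε p h m b₀ w) (h w) ≠ 0 := fun h0 => by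
        have := (Y.pos hc hw).1
        rw [h0] at this
        simp at this
      rw [ff_eq (b₀ := b₀) hζ1 hw.2, dot_smul_left, dot_smul_right]
      field_simp
    have hv := norm_nonneg v
    have k1 : 0 ≤ Rh / c := by positivity
    have k2 : 0 ≤ ‖v‖ / c := by positivity
    have k3 := abs_nonneg (4 * ‖v‖ * C₀)
    have k4 := abs_nonneg (ε * K * ‖v‖)
    refine pol_abs (X := fun w => dot (Nv P ε p h m b₀ w) (w • v))
      (C := Rh / c + ‖v‖ / c + |4 * ‖v‖ * C₀| + |ε * K * ‖v‖|) (l := (𝒰 : Filter ℕ))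
      (f := fun j t => 4 * ‖v‖ * ‖ν j t‖) ha0 ha1
      (contOn_dot hNd.continuousOn (continuousOn_id.smul continuousOn_const)) hYd
      (fun w hw => ?_) hB (fun j => ⟨(M.int j).norm.const_mul _, fun t => by positivity⟩) ?_
      (fun θ hθ => ?_) (fun ρ hρ μ hμ => ?_) ?_
    · have p0 := (Y.pos hc hw).1
      refine ⟨p0, ?_, ?_⟩
      · calc ‖dot (Nv P ε p h m b₀ w) (h w)‖ ≤ ‖Nv P ε p h m b₀ w‖ * ‖h w‖ := norm_dot_le _ _
          _ ≤ ‖Nv P ε p h m b₀ w‖ * Rh := by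
            gcongr; exact (hhb h B.adm).bd w (ha4_sub a hw)
          _ = Rh / c * (c * ‖Nv P ε p h m b₀ w‖) := by field_simp
          _ ≤ Rh / c * (dot (Nv P ε p h m b₀ w) (h w)).re := by
            gcongr; exact Y.nrm w hw
          _ ≤ _ := by gcongr; linarith
      · rw [hX w hw, norm_mul, mul_comm]
        refine mul_le_mul_of_nonneg_right ?_ (norm_nonneg _)
        calc ‖dot (ff P ε p h m w) v‖ ≤ ‖ff P ε p h m w‖ * ‖v‖ := norm_dot_le _ _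
          _ ≤ 1 / c * ‖v‖ := by gcongr; exact Y.ff_le hc hζ1 hw
          _ = ‖v‖ / c := by ring
          _ ≤ _ := by linarith
    · filter_upwards [M.le hC₀] with j hj
      rw [integral_const_mul]
      have := mul_le_mul_of_nonneg_left hj (by positivity : 0 ≤ 4 * ‖v‖)
      linarith [le_abs_self (4 * ‖v‖ * C₀)]
    · obtain ⟨m₀, hm₀, H⟩ := G.equi B S M hζ (θ := θ / (4 * ‖v‖ + 1)) (by positivity)
      refine ⟨m₀, hm₀, fun T hT hT' => ?_⟩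
      filter_upwards [M.le (H T hT hT')] with j hj
      rw [integral_const_mul]
      calc 4 * ‖v‖ * ∫ t in T, ‖ν j t‖ ≤ 4 * ‖v‖ * (θ / (4 * ‖v‖ + 1)) := by gcongr
        _ ≤ (4 * ‖v‖ + 1) * (θ / (4 * ‖v‖ + 1)) := by gcongr; linarith
        _ = θ := by field_simp
    · have hg : HB (fun w : ℂ => w • v) ‖v‖ := ⟨differentiableOn_id.smul_const v, fun w hw => by
        rw [norm_smul]
        exact mul_le_of_le_one_left hv (mem_ball_zero_iff.1 hw).le⟩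
      have hgr : RL (fun w : ℂ => w • v) fun t => ec t • v := by
        filter_upwards [pol2_id] with t ht using ht.smul_const v
      filter_upwards [M.rep _ _ _ hg hgr ρ hρ.2 μ hμ, M.le (eventually_ge_atTop j₀)]
        with j hj hj₀ t
      have hn : ‖(ρ : ℂ) * ec t‖ = ρ := ha4_norm (ha0.trans hρ.1).le t
      have hw1 : ‖(ρ : ℂ) * ec t‖ < 1 := hn.trans_lt hρ.2
      have h1 := hj (ρ * ec t) ⟨by rw [hn]; exact hρ.1, hw1⟩ hn.le
      have hi := pol2_int hζ1 (M.int j) v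
      have h2 := (re_le_norm _).trans h1
      rw [sub_re, ← PI_re hi hw1, hn] at h2
      have h3 := PI_mono (g := {t | ∀ j ≥ j₀, Cnd (η j) (τ j t) (b₀ t) v}ᶜ.indicator
          fun t => 4 * ‖v‖ * ‖ν j t‖) hi.re
        (((M.int j).norm.const_mul _).indicator hB.compl) (Eventually.of_forall fun s => ?_) hw1
      · have h4 : ε * K * ‖v‖ * (1 - ρ) ≤
            (Rh / c + ‖v‖ / c + |4 * ‖v‖ * C₀| + |ε * K * ‖v‖|) * (1 - ρ) :=
          mul_le_mul_of_nonneg_right (by linarith [le_abs_self (ε * K * ‖v‖)])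
            (by linarith [hρ.2])
        simp only [RCLike.re_to_complex] at h3
        linarith
      · by_cases hs : s ∈ {t | ∀ j ≥ j₀, Cnd (η j) (τ j t) (b₀ t) v}
        · rw [indicator_of_notMem (by simpa using hs), RCLike.re_to_complex, smul_re,
            dot_smul_right, smul_eq_mul]
          exact mul_nonpos_of_nonneg_of_nonpos (sq_nonneg _) (M.pol j s v (hs j hj₀))
        · rw [indicator_of_mem (mem_compl hs)]
          exact (re_le_norm _).trans (pol2_bd hζ1 _ v s)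
    · have r1 : RL (fun w => (exp (arg (dot (Nv P ε p h m b₀ w) (h w)) * I) *
          dot (ff P ε p h m w) v).re) fun t => (exp (υ t * I) * dot (q t) v).re := by
        filter_upwards [hq, hυ'] with t h1 h2
        exact (continuous_re.tendsto _).comp
          ((((continuous_ofReal.tendsto _).comp h2).mul_const I).cexp.mul
            (tendsto_dot h1 tendsto_const_nhds))
      refine r1.congr ha1 fun w hw => ?_
      have hne : dot (Nv P ε p h m b₀ w) (h w) ≠ 0 := fun h0 => by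
        have := (Y.pos hc hw).1
        rw [h0] at this
        simp at this
      simp only [hX w hw]
      exact pol2_div hne
  have e3 : ∀ᵐ t, ∀ k j₀ : ℕ, (∀ j ≥ j₀, Cnd (η j) (τ j t) (b₀ t) (ds n k)) →
      (exp (υ t * I) * dot (q t) (ds n k)).re ≤ 0 :=
    ae_all_iff.2 fun k => ae_all_iff.2 fun j₀ => e2 (ds n k) j₀
  filter_upwards [e1, e3] with t h1 h3 using ⟨h1, hυ t, h3⟩

end Pool.Agent.MP_4baaa2_an.H94

/-!
Positivity of the density.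
-/

namespace Pool.Agent.MP_4baaa2_an.H94

open Set Metric Filter Topology Complex MeasureTheory
open scoped ComplexConjugate
open Pool.Agent.Lib.PlaneTop

variable {n : ℕ} {D : Set (E n)} {Φ : E n → E n → ℂ}

theorem ypos_unit (x : E n) : ∃ v : E n, ‖v‖ ≤ 1 ∧ dot x v = (‖x‖ : ℝ) := by
  rcases eq_or_ne x 0 with rfl | hx
  · exact ⟨0, by simp, by simp⟩
  have hn : 0 < ‖x‖ := norm_pos_iff.2 hx
  refine ⟨(‖x‖⁻¹ : ℝ) • cj x, by rw [norm_smul, norm_cj]; simp [hn.ne'], ?_⟩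
  rw [dot_rsmul_right, dot_cj_self, ← ofReal_mul]
  congr 1
  field_simp

theorem ypos_hb {v : E n} (hv : ‖v‖ ≤ 1) : HB (fun _ : ℂ => v) 1 :=
  ⟨differentiableOn_const _, fun _ _ => hv⟩

theorem ypos_rl (v : E n) : RL (fun _ : ℂ => v) fun _ => v :=
  Eventually.of_forall fun _ => tendsto_const_nhds

/-- The mass of the densities. Hint: `Mu.eq` for a constant `g = v`, `‖v‖ ≤ 1`, `⟨p, v⟩ = ‖p‖`:
`ell = cc * ka ζ * ‖p‖ - ε Lq`; `‖cc‖ ≥ 1 / C` (`O_bounds`), `‖p‖ ≥ σ1 / Rh` (`ζ = ⟨p, h ζ⟩`),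
`ka_bound`, `norm_Lq_le`. -/
theorem Geo.mass_low (G : Geo D Φ) (A₀ : ℝ) {σ1 σ2 δ₀ : ℝ} (h1 : 0 < σ1) (h2 : σ2 < 1)
    (hδ : 0 < δ₀) : ∃ c₂ > 0, ∀ P : Par, ∃ ε₀ > 0, ∀ ε ∈ Icc (0 : ℝ) ε₀, ∀ {p : E n}
      {h m : ℂ → E n} {b₀ : TT → ℝ} {η : ℕ → ℝ} {τ : ℕ → TT → Ty} {a K : ℝ} {ν : ℕ → TT → E n}
      {𝒰 : Ultrafilter ℕ}, δ₀ ≤ dep D p → σ1 ≤ ‖F h p‖ → ‖F h p‖ ≤ σ2 → Adm D h → Measurable b₀ →
      (∀ t, |b₀ t| ≤ A₀) → Mu P ε p h b₀ η τ a K m ν 𝒰 → ∀ᶠ j in atTop, c₂ ≤ ∫ t, ‖ν j t‖ := by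
  obtain ⟨C, hC, HC⟩ := G.O_bounds hδ h2
  obtain ⟨Rh, hRh, HR⟩ := G.hb
  have hC0 : 0 < C := one_pos.trans_le hC
  set c₂ : ℝ := C⁻¹ * (Real.exp (-(2 * A₀ / (1 - σ2))) * (σ1 / Rh)) / 3 with hc₂
  have hc : 0 < c₂ := by positivity
  refine ⟨c₂, hc, fun P => ?_⟩
  have hΛ := P.hΛ
  set L : ℝ := 2 * (P.Λ + 1) * Rh * Real.exp (2 * A₀ / (1 - P.r)) with hL
  have hL0 : 0 < L := by positivity
  refine ⟨c₂ / L, by positivity, fun ε hε p h m b₀ η τ a K ν 𝒰 hp l1 l2 hh hb hA M => ?_⟩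
  have hA0 : 0 ≤ A₀ := (abs_nonneg _).trans (hA 0)
  have hpD : p ∈ D := (dep_pos_iff G.isOpen G.ne_univ).1 (hδ.trans_le hp)
  obtain ⟨v, hv, hpv⟩ := ypos_unit p
  obtain ⟨z1, z2, -⟩ := hh.F_spec hpD
  have hζ : ‖F h p‖ < 1 := l2.trans_lt h2
  have k1 : C⁻¹ ≤ ‖cc h p‖ := by
    obtain ⟨o1, o2⟩ := HC h hh p hp (F h p) l2
    have o3 : 0 < ‖O h p (F h p) (F h p)‖ := (inv_pos.2 hC0).trans_le o1
    rw [cc, norm_inv, norm_mul]
    refine inv_anti₀ (mul_pos (h1.trans_le l1) o3) ?_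
    nlinarith [norm_nonneg (F h p)]
  have k2 : Real.exp (-(2 * A₀ / (1 - σ2))) ≤ ‖ka b₀ (F h p)‖ := by
    refine le_trans (Real.exp_le_exp.2 (neg_le_neg ?_)) (ka_bound hb hA hζ).1
    exact div_le_div_of_nonneg_left (by positivity) (by linarith) (by linarith)
  have k3 : σ1 / Rh ≤ ‖p‖ := by
    rw [div_le_iff₀ hRh]
    have := norm_dot_le p (h (F h p))
    rw [z2] at this
    exact l1.trans (this.trans (mul_le_mul_of_nonneg_left ((HR h hh).bd _ z1) (norm_nonneg _)))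
  have k4 : ‖Lq P h fun w => ka b₀ w • v‖ ≤ L := by
    refine norm_Lq_le P (HR h hh).bd fun ω hω => ?_
    have hr := P.hr
    have hω' : ‖ω‖ ≤ P.r := by
      rcases hω with e | e
      · exact e.le.trans P.hsr.le
      · exact e.le
    rw [norm_smul]
    refine (mul_le_of_le_one_right (norm_nonneg _) hv).trans
      ((ka_bound hb hA (hω'.trans_lt hr)).2.trans (Real.exp_le_exp.2 ?_))
    exact div_le_div_of_nonneg_left (by positivity) (by linarith) (by linarith)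
  have k5 : 3 * c₂ ≤ ‖cc h p * dot p (ka b₀ (F h p) • v)‖ := by
    rw [dot_smul_right, hpv, norm_mul, norm_mul, Complex.norm_real, norm_norm,
      show 3 * c₂ = C⁻¹ * (Real.exp (-(2 * A₀ / (1 - σ2))) * (σ1 / Rh)) by rw [hc₂]; ring]
    gcongr
  have k6 : ‖(ε : ℂ) * Lq P h fun w => ka b₀ w • v‖ ≤ c₂ := by
    rw [norm_mul, Complex.norm_real, Real.norm_of_nonneg hε.1]
    exact (mul_le_mul_of_nonneg_left k4 hε.1).trans ((le_div_iff₀ hL0).1 hε.2)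
  have k7 : c₂ < ‖ell P ε p h fun w => ka b₀ w • v‖ := by
    have := norm_sub_norm_le (cc h p * dot p (ka b₀ (F h p) • v))
      ((ε : ℂ) * Lq P h fun w => ka b₀ w • v)
    unfold ell
    linarith
  filter_upwards [(M.eq _ _ _ (ypos_hb hv) (ypos_rl v)).norm.eventually (lt_mem_nhds k7)]
    with j hj
  refine hj.le.trans (norm_integral_le_of_norm_le (M.int j).norm (Eventually.of_forall fun t => ?_))
  exact (norm_dot_le _ _).trans (mul_le_of_le_one_right (norm_nonneg _) hv)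

/-- minimum principle for the real part -/
theorem re_min {f : ℂ → ℂ} {ρ c : ℝ} (hρ : ρ < 1) (hf : DifferentiableOn ℂ f (ball 0 1))
    (h : ∀ w ∈ sphere (0 : ℂ) ρ, c ≤ (f w).re) : ∀ w ∈ ball (0 : ℂ) ρ, c ≤ (f w).re := by
  intro w hw
  have h0 : 0 < ρ := pos_of_mem_ball hw
  have hd : DiffContOnCl ℂ (fun x => exp (-f x)) (ball 0 ρ) :=
    hf.neg.cexp.diffContOnCl_ball (closedBall_subset_ball hρ)
  have := norm_le_of_forall_mem_frontier_norm_le (C := Real.exp (-c)) isBounded_ball hd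
    (fun z hz => by
      rw [frontier_ball _ h0.ne'] at hz
      rw [norm_exp, neg_re]
      exact Real.exp_le_exp.2 (neg_le_neg (h z hz))) (subset_closure hw)
  rw [norm_exp, neg_re, Real.exp_le_exp] at this
  linarith

theorem ypos_le {ζ : ℂ} (hζ : ‖ζ‖ ≤ 1) (t : TT) (x y : E n) {B : ℝ} (hy : ‖y‖ ≤ B) :
    ‖(‖ec t - ζ‖ ^ 2 : ℝ) • dot x y‖ ≤ (4 * B) • ‖x‖ := by
  have h1 : ‖ec t - ζ‖ ≤ 2 := (norm_sub_le _ _).trans (by rw [norm_ec]; linarith)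
  have h2 : ‖ec t - ζ‖ ^ 2 ≤ 4 := by nlinarith [norm_nonneg (ec t - ζ)]
  have h3 : ‖dot x y‖ ≤ ‖x‖ * B :=
    (norm_dot_le _ _).trans (mul_le_mul_of_nonneg_left hy (norm_nonneg _))
  rw [norm_smul, Real.norm_of_nonneg (by positivity), smul_eq_mul]
  calc ‖ec t - ζ‖ ^ 2 * ‖dot x y‖ ≤ 4 * (‖x‖ * B) := by gcongr
    _ = 4 * B * ‖x‖ := by ring

theorem ypos_int {ζ : ℂ} (hζ : ‖ζ‖ ≤ 1) {ν gs : TT → E n} {g : ℂ → E n} {B : ℝ}
    (hν : Integrable ν) (hg : HB g B) (hr : RL g gs) :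
    Integrable fun t => (‖ec t - ζ‖ ^ 2 : ℝ) • dot (ν t) (gs t) := by
  have h1 : AEStronglyMeasurable (fun t => dot (ν t) (gs t)) volume :=
    continuous_dot.comp_aestronglyMeasurable
      (hν.aestronglyMeasurable.prodMk (hg.int hr).aestronglyMeasurable)
  have h2 : Continuous fun t => (‖ec t - ζ‖ ^ 2 : ℝ) :=
    (continuous_ec.sub continuous_const).norm.pow 2
  refine (hν.norm.smul (4 * B)).mono' (h2.aestronglyMeasurable.smul h1) ?_
  filter_upwards [hr.bound one_pos fun x hx => hg.bd x (ha4_sub 0 hx)] with t ht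
  exact ypos_le hζ t _ _ ht

/-- the estimates near the circle -/
theorem ypos_ann {P : Par} {ε a K c₁ c₂ σ2 Rh : ℝ} {p : E n} {h m : ℂ → E n} {xs : TT → E n}
    {b₀ : TT → ℝ} {η : ℕ → ℝ} {τ : ℕ → TT → Ty} {ν : ℕ → TT → E n} {𝒰 : Ultrafilter ℕ}
    (M : Mu P ε p h b₀ η τ a K m ν 𝒰) (hb : HB h Rh) (hr : RL h fun t => ec t • xs t)
    (h2 : σ2 < 1) (hζ : ‖F h p‖ ≤ σ2) (hc₁ : 0 < c₁) (hc₂ : 0 < c₂)
    (H1 : ∀ᶠ j in atTop, ∀ t, c₁ * ‖ν j t‖ ≤ (dot (ν j t) (ec t • xs t)).re)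
    (H2 : ∀ᶠ j in atTop, c₂ ≤ ∫ t, ‖ν j t‖)
    (e1 : ε * K * Rh ≤ c₁ * (1 - σ2) ^ 2 * c₂ / 8) (e2 : ε * K ≤ c₂ / 2) {w : ℂ}
    (hw : w ∈ Ann a) :
    c₁ * (1 - σ2) ^ 2 * c₂ / 4 * (1 - ‖w‖) ≤ (dot (Nv P ε p h m b₀ w) (h w)).re ∧
      c₁ * (1 - σ2) ^ 2 / 12 * ‖Nv P ε p h m b₀ w‖ ≤ (dot (Nv P ε p h m b₀ w) (h w)).re := by
  have hw1 : ‖w‖ < 1 := hw.2
  have hζ1 : ‖F h p‖ ≤ 1 := hζ.trans h2.le
  have hs : 0 < 1 - σ2 := sub_pos.2 h2
  obtain ⟨β, hβ⟩ : ∃ β, β = c₁ * (1 - σ2) ^ 2 := ⟨_, rfl⟩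
  have hβ0 : 0 < β := by rw [hβ]; positivity
  obtain ⟨d, hd⟩ : ∃ d, d = 1 - ‖w‖ := ⟨_, rfl⟩
  have hd0 : 0 < d := by rw [hd]; linarith
  rw [← hβ] at e1 ⊢
  obtain ⟨v, hv, hNv⟩ := ypos_unit (Nv P ε p h m b₀ w)
  have hμ : 0 < min (β * c₂ * d / 8) (c₂ * d / 2) := by positivity
  obtain ⟨j, ⟨j1, j2⟩, j3, j4⟩ := (((H1.and H2).filter_mono M.le).and
    ((M.rep _ _ _ hb hr _ hw1 _ hμ).and
      (M.rep _ _ _ (ypos_hb hv) (ypos_rl v) _ hw1 _ hμ))).exists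
  have j5 := j3 w hw le_rfl
  have j6 := j4 w hw le_rfl
  have hi := (M.int j).norm
  have x1 := int_le_PI hi (Eventually.of_forall fun t => norm_nonneg _) hw1
  have i1 := ypos_int hζ1 (M.int j) hb hr
  have i2 := ypos_int hζ1 (M.int j) (ypos_hb hv) (ypos_rl v)
  have x2 : β • PI (fun t => ‖ν j t‖) w ≤ (PI (fun t => (‖ec t - F h p‖ ^ 2 : ℝ) •
      dot (ν j t) (ec t • xs t)) w).re := by
    rw [← PI_smul, ← PI_re i1 hw1]
    refine PI_mono (hi.smul β) i1.re (Eventually.of_forall fun t => ?_) hw1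
    have q1 : 1 - σ2 ≤ ‖ec t - F h p‖ := le_trans (by linarith) (ha2_den (F h p) t)
    have q2 : (1 - σ2) ^ 2 ≤ ‖ec t - F h p‖ ^ 2 := by gcongr
    rw [smul_re, smul_eq_mul, smul_eq_mul, hβ]
    calc c₁ * (1 - σ2) ^ 2 * ‖ν j t‖ = (1 - σ2) ^ 2 * (c₁ * ‖ν j t‖) := by ring
      _ ≤ _ := mul_le_mul q2 (j1 t) (by positivity) (by positivity)
  have x3 : ‖PI (fun t => (‖ec t - F h p‖ ^ 2 : ℝ) • dot (ν j t) v) w‖ ≤
      (4 * 1 : ℝ) • PI (fun t => ‖ν j t‖) w := by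
    rw [← PI_smul]
    refine (norm_PI_le _ hw1).trans (PI_mono i2.norm (hi.smul (4 * 1 : ℝ)) ?_ hw1)
    exact Eventually.of_forall fun t => ypos_le hζ1 t (ν j t) v hv
  have y1 := (abs_le.1 ((abs_re_le_norm _).trans j5)).1
  have y2 := (norm_sub_norm_le _ _).trans j6
  rw [hNv, Complex.norm_real, norm_norm] at y2
  rw [sub_re] at y1
  rw [smul_eq_mul] at x2 x3
  rw [← hd] at x1 y1 y2 ⊢
  generalize PI (fun t => ‖ν j t‖) w = X at x1 x2 x3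
  have m1 := min_le_left (β * c₂ * d / 8) (c₂ * d / 2)
  have m2 := min_le_right (β * c₂ * d / 8) (c₂ * d / 2)
  have x4 : c₂ * d / 2 ≤ X := by nlinarith
  have x5 : β * c₂ * d / 2 ≤ β * X := by nlinarith
  have x6 : ε * K * Rh * d ≤ β * c₂ * d / 8 := by nlinarith
  have x7 : ε * K * 1 * d ≤ c₂ * d / 2 := by nlinarith
  have x8 : ‖Nv P ε p h m b₀ w‖ ≤ 6 * X := by linarith
  constructor
  · linarith
  · nlinarith

/-- Hint: fix `w ∈ Ann a`, `μ > 0` and `j` in `𝒰` for which `Geo.sl`, `mass_low`, `Mu.rep` for `g = h`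
and for a constant `v` with `⟨Nv w, v⟩ = ‖Nv w‖` hold. With `X = PI ‖ν j‖ w ≥ (1 - ‖w‖) c₂ / 2`
(`int_le_PI`): `Re Y ≥ c₁ (1 - σ2)² X - ε K Rh (1 - ‖w‖) - μ` (`PI_re`, `PI_mono`) and
`‖Nv w‖ ≤ 4 X + ε K (1 - ‖w‖) + μ` (`norm_PI_le`). For small `ε` this gives `low`, `nrm` with a constant
`c₄` independent of `P`. On the circle of radius `a'` use `Np_sub_Nv`, then `re_min` for `⟨Np, h⟩` and
for `⟨Np, h⟩ - c ⟨Np, v⟩`, `‖v‖ ≤ 1`. -/
theorem Geo.ypos (G : Geo D Φ) {γ : ℝ} (hγ : 0 < γ) (A₀ : ℝ) {σ1 σ2 δ₀ a' : ℝ} (h1 : 0 < σ1)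
    (h2 : σ2 < 1) (hδ : 0 < δ₀) (ha' : a' < 1) : ∃ c > 0, ∀ (P : Par) (a K : ℝ), P.r ^ 2 < a →
      a < a' → 0 ≤ K → ∃ ε₀ > 0, ∀ ε ∈ Icc (0 : ℝ) ε₀, ∀ {p : E n} {h m : ℂ → E n} {xs : TT → E n}
        {Lg : E n → ℂ → ℂ} {b₀ : TT → ℝ} {η : ℕ → ℝ} {τ : ℕ → TT → Ty} {ν : ℕ → TT → E n}
        {𝒰 : Ultrafilter ℕ}, δ₀ ≤ dep D p → σ1 ≤ ‖F h p‖ → ‖F h p‖ ≤ σ2 → Bdy D Φ h xs Lg →
        Sel D Φ xs γ A₀ b₀ η τ → Mu P ε p h b₀ η τ a K m ν 𝒰 → Yp P ε p h m b₀ c a a' := by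
  obtain ⟨c₁, hc₁, H1⟩ := G.sl hγ
  obtain ⟨c₂, hc₂, H2⟩ := G.mass_low A₀ h1 h2 hδ
  obtain ⟨Rh, hRh, HR⟩ := G.hb
  have hs : 0 < 1 - σ2 := sub_pos.2 h2
  have hs' : 0 < 1 - a' := sub_pos.2 ha'
  obtain ⟨c₄, hc₄, q1, q2⟩ : ∃ c₄ > 0, c₄ ≤ c₁ * (1 - σ2) ^ 2 * c₂ / 4 ∧
      c₄ ≤ c₁ * (1 - σ2) ^ 2 / 12 :=
    ⟨min _ _, by positivity, min_le_left _ _, min_le_right _ _⟩
  refine ⟨c₄ * (1 - a') / 2, by positivity, fun P a K ha haa hK => ?_⟩
  obtain ⟨ε₁, hε₁, H2⟩ := H2 P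
  obtain ⟨K₂, hK₂, H3⟩ := Np_sub_Nv (n := n) P A₀ Rh ha'
  have small : ∀ x y : ℝ, 0 < y → ∀ᶠ ε : ℝ in 𝓝 0, ε * x ≤ y := fun x y hy => by
    have : Tendsto (fun ε : ℝ => ε * x) (𝓝 0) (𝓝 (0 * x)) := tendsto_id.mul_const x
    rw [zero_mul] at this
    exact this.eventually (Iic_mem_nhds hy)
  obtain ⟨ε₂, hε₂, H4⟩ := Metric.eventually_nhds_iff.1 ((small 1 ε₁ hε₁).and
    ((small (K * Rh) (c₁ * (1 - σ2) ^ 2 * c₂ / 8) (by positivity)).and
    ((small K (c₂ / 2) (by positivity)).and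
    ((small (K₂ * Rh) (c₄ * (1 - a') / 4) (by positivity)).and
    (small K₂ ((1 - a') / 4) (by positivity))))))
  refine ⟨ε₂ / 2, by positivity,
    fun ε hε p h m xs Lg b₀ η τ ν 𝒰 hp l1 l2 B S M => ?_⟩
  obtain ⟨e0, e1, e2, e3, e4⟩ := H4 (y := ε) (by
    rw [Real.dist_eq, sub_zero, abs_of_nonneg hε.1]
    linarith [hε.2])
  have hb := HR h B.adm
  have ha0 : 0 < a' := ((sq_nonneg _).trans_lt ha).trans haa
  have hc : c₄ * (1 - a') / 2 ≤ c₄ / 2 := by nlinarith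
  have key : ∀ w ∈ Ann a, c₄ * (1 - ‖w‖) ≤ (dot (Nv P ε p h m b₀ w) (h w)).re ∧
      c₄ * ‖Nv P ε p h m b₀ w‖ ≤ (dot (Nv P ε p h m b₀ w) (h w)).re := fun w hw => by
    obtain ⟨k1, k2⟩ := ypos_ann M hb B.rl h2 l2 hc₁ hc₂
      ((H1 S).mono fun j hj t => hj t _ (M.pol j t))
      (H2 ε ⟨hε.1, by linarith⟩ hp l1 l2 B.adm S.meas S.bd M) (by linarith) e2 hw
    exact ⟨(mul_le_mul_of_nonneg_right q1 (sub_pos.2 hw.2).le).trans k1,
      (mul_le_mul_of_nonneg_right q2 (norm_nonneg _)).trans k2⟩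
  have sph : ∀ w ∈ sphere (0 : ℂ) a', c₄ * (1 - a') / 2 ≤ (dot (Np p h m b₀ w) (h w)).re ∧
      c₄ * (1 - a') / 2 * ‖Np p h m b₀ w‖ ≤ (dot (Np p h m b₀ w) (h w)).re := fun w hw => by
    have hw' : ‖w‖ = a' := mem_sphere_zero_iff_norm.1 hw
    obtain ⟨k1, k2⟩ := key w ⟨by rw [hw']; exact haa, by rw [hw']; exact ha'⟩
    have k3 := H3 (p := p) (m := m) hε.1 hb (l2.trans_lt h2) S.meas S.bd w
      (by rw [hw']; exact ha.trans haa) hw'.le
    have k4 := hb.bd w (mem_ball_zero_iff.2 (by rw [hw']; exact ha'))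
    have k5 : ‖dot (Np p h m b₀ w - Nv P ε p h m b₀ w) (h w)‖ ≤ ε * K₂ * Rh :=
      (norm_dot_le _ _).trans (mul_le_mul k3 k4 (norm_nonneg _) (mul_nonneg hε.1 hK₂.le))
    have k6 := (abs_le.1 ((abs_re_le_norm _).trans k5)).1
    have k7 := (norm_sub_norm_le _ _).trans k3
    rw [dot_sub_left, sub_re] at k6
    rw [hw'] at k1
    have k8 : c₄ * (1 - a') / 2 * ‖Np p h m b₀ w‖ ≤ c₄ / 2 * ‖Np p h m b₀ w‖ :=
      mul_le_mul_of_nonneg_right hc (norm_nonneg _)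
    have k9 : c₄ * ‖Np p h m b₀ w‖ ≤ c₄ * (‖Nv P ε p h m b₀ w‖ + (1 - a') / 4) :=
      mul_le_mul_of_nonneg_left (by linarith) hc₄.le
    have k10 : 0 < c₄ * (1 - a') := by positivity
    constructor
    · linarith
    · linarith
  have hNp := Np_diff (p := p) (h := h) M.md (ha2_bdd S.meas S.bd)
  refine ⟨fun w hw => ?_, fun w hw => ?_, ?_, fun w hw => ?_⟩
  · exact (mul_le_mul_of_nonneg_right (by linarith) (sub_pos.2 hw.2).le).trans (key w hw).1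
  · exact (mul_le_mul_of_nonneg_right (by linarith) (norm_nonneg _)).trans (key w hw).2
  · exact re_min ha' (diffOn_dot hNp hb.diff) fun w hw => (sph w hw).1
  · obtain ⟨v, hv, hNv⟩ := ypos_unit (Np p h m b₀ w)
    have := re_min (c := 0) (f := fun x => dot (Np p h m b₀ x) (h x) -
      ((c₄ * (1 - a') / 2 : ℝ) : ℂ) * dot (Np p h m b₀ x) v) ha'
      ((diffOn_dot hNp hb.diff).sub ((diffOn_dot hNp (differentiableOn_const v)).const_mul _))
      (fun x hx => by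
        have k1 := (sph x hx).2
        have k2 : (dot (Np p h m b₀ x) v).re ≤ ‖Np p h m b₀ x‖ := (re_le_norm _).trans
          ((norm_dot_le _ _).trans (mul_le_of_le_one_right (norm_nonneg _) hv))
        have k3 := mul_le_mul_of_nonneg_left k2 (by positivity : 0 ≤ c₄ * (1 - a') / 2)
        rw [sub_re, re_ofReal_mul]
        linarith) w hw
    rw [hNv, sub_re, re_ofReal_mul, ofReal_re] at this
    linarith

end Pool.Agent.MP_4baaa2_an.H94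

/-!
The primal maps take values in the domain.
-/

namespace Pool.Agent.MP_4baaa2_an.H94

open Set Metric Filter Topology Complex MeasureTheory
open scoped ComplexConjugate
open Pool.Agent.Lib.PlaneTop

variable {n : ℕ} {D : Set (E n)} {Φ : E n → E n → ℂ}

theorem Geo.oc_margin (G : Geo D Φ) {a : E n} (ha : a ∈ Oc D) : ∃ α : ℝ → E n,
    ContinuousOn α (Icc 0 1) ∧ α 0 = 0 ∧ α 1 = a ∧ (∀ s ∈ Icc (0 : ℝ) 1, α s ∈ Kd D) ∧
    ∃ μ > 0, μ ≤ 1 ∧ ∀ y : E n, (∀ a' ∈ interior (Kd D), dot y a' ≠ 1) →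
      ∀ s ∈ Icc (0 : ℝ) 1, μ ≤ ‖1 - dot y (α s)‖ := by
  obtain ⟨γ, hγ⟩ := ha
  have hs : range γ ⊆ interior (Kd D) := range_subset_iff.2 hγ
  obtain ⟨r, hr, h1⟩ := (isCompact_range γ.continuous).exists_thickening_subset_open
    isOpen_interior hs
  obtain ⟨R, hR, h2⟩ := (isCompact_Kd G.isOpen G.zero).isBounded.exists_pos_norm_le
  have hm : ∀ s, γ.extend s ∈ range γ := fun s => γ.extend_range ▸ mem_range_self s
  refine ⟨γ.extend, γ.continuous_extend.continuousOn, γ.extend_zero, γ.extend_one,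
    fun s _ => interior_subset (hs (hm s)), r / (r + R), by positivity,
    (div_le_one (by positivity)).2 (by linarith), fun y hy s _ => ?_⟩
  obtain ⟨x, hx, e⟩ : ∃ x ∈ range γ, γ.extend s = x := ⟨_, hm s, rfl⟩
  rw [e, div_le_iff₀ (by positivity)]
  have a1 : r * ‖y‖ ≤ ‖1 - dot y x‖ := by
    rcases (norm_nonneg y).eq_or_lt with h0 | h0
    · rw [← h0, mul_zero]
      exact norm_nonneg _
    by_contra h
    have hc : ((‖y‖ ^ 2 : ℝ) : ℂ) ≠ 0 := ofReal_ne_zero.2 (by positivity)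
    refine hy (x + ((1 - dot y x) / ((‖y‖ ^ 2 : ℝ) : ℂ)) • cj y) (h1 (mem_thickening_iff.2
      ⟨x, hx, ?_⟩)) ?_
    · rw [dist_eq_norm, add_sub_cancel_left, norm_smul, norm_cj, norm_div, norm_real,
        Real.norm_of_nonneg (by positivity), div_mul_eq_mul_div, div_lt_iff₀ (by positivity)]
      nlinarith [mul_lt_mul_of_pos_right (not_le.1 h) h0]
    · rw [dot_add_right, dot_smul_right, dot_cj_self, div_mul_cancel₀ _ hc, add_sub_cancel]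
  have a2 := norm_sub_norm_le (1 : ℂ) (dot y x)
  have a3 := (norm_dot_le y x).trans (mul_le_mul_of_nonneg_left
    (h2 x (interior_subset (hs hx))) (norm_nonneg _))
  rw [norm_one] at a2
  nlinarith

theorem log_harnack {C ρ : ℝ} (hρ : ρ < 1) : ∃ δ > 0, ∀ f : ℂ → ℂ, HB f C →
    (∀ w ∈ ball (0 : ℂ) 1, f w ≠ 0) → 1 / 2 ≤ ‖f 0‖ → ∀ w : ℂ, ‖w‖ ≤ ρ → δ ≤ ‖f w‖ := by
  refine ⟨Real.exp (-(2 / (1 - ρ) * Real.log (2 * C))) / 2, by positivity,
    fun f hf hne h0 w hw => ?_⟩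
  obtain ⟨L, hL, he⟩ := hasLogOn_of_convex (convex_ball (0 : ℂ) 1) hf.diff.continuousOn hne
  have hd := holo_log isOpen_ball hf.diff hL he
  have hz : (0 : ℂ) ∈ ball (0 : ℂ) 1 := mem_ball_self one_pos
  have hw' : w ∈ ball (0 : ℂ) 1 := mem_ball_zero_iff.2 (hw.trans_lt hρ)
  have hC : 1 / 2 ≤ C := h0.trans (hf.bd 0 hz)
  have hn : ∀ x ∈ ball (0 : ℂ) 1, (L x).re = Real.log ‖f x‖ := fun x hx => by
    rw [← he x hx, norm_exp, Real.log_exp]
  have hp : ∀ x ∈ ball (0 : ℂ) 1, 0 ≤ Real.log C - (L x).re := fun x hx => by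
    rw [hn x hx, sub_nonneg]
    exact Real.log_le_log (norm_pos_iff.2 (hne x hx)) (hf.bd x hx)
  have h1 := (harnack (P := fun x => (Real.log C : ℂ) - L x + (L 0).im * I)
    ((hd.const_sub _).add_const _) (fun x hx => by simpa using hp x hx) hw').2.1
  have e0 : (Real.log C : ℂ) - L 0 + (L 0).im * I = ((Real.log C - (L 0).re : ℝ) : ℂ) := by
    apply Complex.ext <;> simp
  have h2 := re_le_norm ((Real.log C : ℂ) - L w + (L 0).im * I)
  rw [e0, norm_real, Real.norm_of_nonneg (hp 0 hz), sub_zero] at h1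
  have h3 : Real.log C - (L 0).re ≤ Real.log (2 * C) := by
    have := Real.log_le_log (by norm_num) h0
    rw [hn 0 hz, Real.log_mul two_ne_zero (by linarith)]
    rw [one_div, Real.log_inv] at this
    linarith
  have h4 : (1 + ‖w‖) / (1 - ‖w‖) ≤ 2 / (1 - ρ) :=
    div_le_div₀ zero_le_two (by linarith) (by linarith) (by linarith)
  have h5 := mul_le_mul h4 h3 (hp 0 hz) (div_nonneg zero_le_two (by linarith))
  simp only [add_re, sub_re, ofReal_re, mul_re, I_re, mul_zero, ofReal_im, I_im, mul_one,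
    sub_self, add_zero] at h2
  have h6 := Real.exp_le_exp.2 (show Real.log C + -(2 / (1 - ρ) * Real.log (2 * C)) ≤ (L w).re by
    linarith)
  rw [Real.exp_add, Real.exp_log (by linarith), ← norm_exp, he w hw'] at h6
  nlinarith [Real.exp_pos (-(2 / (1 - ρ) * Real.log (2 * C)))]

theorem Geo.dep_of_lev (G : Geo D Φ) : ∃ R > 0, (∀ ξ ∈ Kd D, ‖ξ‖ ≤ R) ∧ ∀ (z : E n) (δ : ℝ),
    (∀ ξ ∈ Kd D, δ * R ≤ ‖1 - dot z ξ‖) → δ ≤ dep D z := by
  obtain ⟨R, hR, h2⟩ := (isCompact_Kd G.isOpen G.zero).isBounded.exists_pos_norm_le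
  refine ⟨R, hR, h2, fun z δ h => (le_infDist (nonempty_compl.2 G.ne_univ)).2 fun y hy => ?_⟩
  obtain ⟨ξ, hξ, h1⟩ := G.lc y hy
  have h3 := h ξ hξ
  rw [← h1, ← dot_sub_left] at h3
  rw [dist_eq_norm']
  exact le_of_mul_le_mul_right (h3.trans ((norm_dot_le _ _).trans
    (mul_le_mul_of_nonneg_left (h2 ξ hξ) (norm_nonneg _)))) hR

theorem prim2_max {φ : ℂ → E n} {r s C : ℝ} (h0 : 0 < r) (hr : r < s)
    (hφ : DifferentiableOn ℂ φ (ball 0 s)) (h : ∀ ω : ℂ, ‖ω‖ = r → ‖φ ω‖ ≤ C) {w : ℂ}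
    (hw : ‖w‖ ≤ r) : ‖φ w‖ ≤ C := by
  refine norm_le_of_forall_mem_frontier_norm_le (isBounded_ball (x := (0 : ℂ)) (r := r))
    (hφ.diffContOnCl_ball (closedBall_subset_ball hr)) (fun ω hω => h ω ?_) ?_
  · rwa [frontier_ball _ h0.ne', mem_sphere_zero_iff_norm] at hω
  · rwa [closure_ball _ h0.ne', mem_closedBall_zero_iff]

theorem prim2_net (G : Geo D Φ) {η : ℝ} (hη : 0 < η) : ∃ μ > 0, μ ≤ 1 ∧ ∀ ξ ∈ Kd D,
    ∃ α : ℝ → E n, ContinuousOn α (Icc 0 1) ∧ α 0 = 0 ∧ ‖ξ - α 1‖ ≤ η ∧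
      (∀ s ∈ Icc (0 : ℝ) 1, α s ∈ Kd D) ∧ ∀ y : E n, (∀ a' ∈ interior (Kd D), dot y a' ≠ 1) →
        ∀ s ∈ Icc (0 : ℝ) 1, μ ≤ ‖1 - dot y (α s)‖ := by
  refine (isCompact_Kd G.isOpen G.zero).induction_on (p := fun S => ∃ μ > 0, μ ≤ 1 ∧ ∀ ξ ∈ S,
    ∃ α : ℝ → E n, ContinuousOn α (Icc 0 1) ∧ α 0 = 0 ∧ ‖ξ - α 1‖ ≤ η ∧
      (∀ s ∈ Icc (0 : ℝ) 1, α s ∈ Kd D) ∧ ∀ y : E n, (∀ a' ∈ interior (Kd D), dot y a' ≠ 1) →
        ∀ s ∈ Icc (0 : ℝ) 1, μ ≤ ‖1 - dot y (α s)‖) ⟨1, one_pos, le_rfl, by simp⟩ ?_ ?_ ?_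
  · rintro S T hST ⟨μ, h1, h2, h⟩
    exact ⟨μ, h1, h2, fun ξ hξ => h ξ (hST hξ)⟩
  · rintro S T ⟨μ, h1, h2, h⟩ ⟨μ', h1', -, h'⟩
    refine ⟨min μ μ', lt_min h1 h1', (min_le_left _ _).trans h2, fun ξ hξ => ?_⟩
    rcases hξ with hξ | hξ
    · obtain ⟨α, a, b, c, d, e⟩ := h ξ hξ
      exact ⟨α, a, b, c, d, fun y hy s hs => (min_le_left _ _).trans (e y hy s hs)⟩
    · obtain ⟨α, a, b, c, d, e⟩ := h' ξ hξ
      exact ⟨α, a, b, c, d, fun y hy s hs => (min_le_right _ _).trans (e y hy s hs)⟩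
  · intro x hx
    obtain ⟨a, ha, h1⟩ := Metric.mem_closure_iff.1 (G.dense hx) _ (half_pos hη)
    obtain ⟨α, b1, b2, rfl, b4, μ, b5, b6, b7⟩ := G.oc_margin ha
    refine ⟨ball x (η / 2), mem_nhdsWithin_of_mem_nhds (ball_mem_nhds x (half_pos hη)), μ, b5, b6,
      fun ξ hξ => ⟨α, b1, b2, ?_, b4, b7⟩⟩
    have := dist_triangle ξ x (α 1)
    rw [← dist_eq_norm]
    linarith [mem_ball.1 hξ]

theorem prim2_sub {x y v : E n} {c e R : ℝ} (h : c ≤ ‖1 - dot x v‖) (hy : ‖y‖ ≤ e) (hv : ‖v‖ ≤ R) :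
    c - e * R ≤ ‖1 - dot (x - y) v‖ := by
  have h1 := norm_sub_le (1 - dot (x - y) v) (dot y v)
  have h2 := (norm_dot_le y v).trans (mul_le_mul hy hv (norm_nonneg _) ((norm_nonneg _).trans hy))
  rw [dot_sub_left, show 1 - (dot x v - dot y v) - dot y v = 1 - dot x v by ring,
    ← dot_sub_left] at h1
  linarith

theorem Geo.prim_abs (G : Geo D Φ) (B : ℝ) {a0 a1 a4 a5 : ℝ} (h0 : 0 < a0) (h1 : a0 < a1)
    (h4 : a1 < a4) (h5 : a4 < a5) (h6 : a5 < 1) : ∃ δL > 0, ∃ κ > 0, ∀ (f g : ℂ → E n)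
      (q : TT → E n), DifferentiableOn ℂ f (Ann a0) → (∀ w ∈ Ann a0, ‖f w‖ ≤ B) →
      DifferentiableOn ℂ g (ball 0 a5) → g 0 = 0 →
      (∀ w ∈ Ann a0, ‖w‖ < a5 → ‖f w - g w‖ ≤ κ) → RL f q →
      (∀ᵐ t, ∀ a ∈ interior (Kd D), dot (q t) a ≠ 1) →
        (∀ w ∈ Ann a1, f w ∈ D) ∧ (∀ w ∈ ball (0 : ℂ) a4, δL ≤ dep D (g w)) ∧
          ∀ w : ℂ, a1 ≤ ‖w‖ → ‖w‖ ≤ a4 → δL ≤ dep D (f w) := by
  obtain ⟨R, hR, hK, hdep⟩ := G.dep_of_lev
  obtain ⟨b, b0, b1⟩ := exists_between h1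
  have hB1 : 0 < |B| + 1 := by positivity
  obtain ⟨δ, hδ, hH⟩ := log_harnack (C := 1 + (|B| + 1) * R) (h5.trans h6)
  obtain ⟨μ, hμ, hμ1, hnet⟩ := prim2_net G (η := δ / 2 / (|B| + 1)) (by positivity)
  obtain ⟨δL, hL, eL⟩ : ∃ δL > 0, 2 * δL * R = δ / 2 := ⟨δ / (4 * R), by positivity, by
    field_simp
    norm_num⟩
  obtain ⟨e, he, e1, e2, e3⟩ : ∃ e > 0, e ≤ 1 ∧ e ≤ δL ∧ e * R ≤ μ / 2 :=
    ⟨min 1 (min δL (μ / 2 / R)), by positivity, min_le_left _ _,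
      (min_le_right _ _).trans (min_le_left _ _),
      (le_div_iff₀ hR).1 ((min_le_right _ _).trans (min_le_right _ _))⟩
  have hb0 : 0 < b := h0.trans b0
  have hb1 : 0 < a1 - b := sub_pos.2 b1
  obtain ⟨κ, hκ, eκ⟩ : ∃ κ > 0, κ + κ * b / (a1 - b) = e :=
    ⟨e / (1 + b / (a1 - b)), by positivity, by field_simp⟩
  refine ⟨δL, hL, κ, hκ, fun f g q hf hB hg g0 hfg hq hav => ?_⟩
  obtain ⟨f₁, f₂, d1, d2, hs, -, hc⟩ := laurent hb0 b0 (by linarith) hf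
  have c2 : ∀ w : ℂ, a1 ≤ ‖w‖ → ‖f₂ w‖ ≤ e - κ := fun w hw => by
    refine (hc g κ (hg.mono (closedBall_subset_ball (by linarith))) (fun ω hω => ?_) w
      (by linarith)).trans ?_
    · rw [mem_sphere_zero_iff_norm] at hω
      exact hfg ω ⟨by linarith, by linarith⟩ (by linarith)
    · have := div_le_div_of_nonneg_left (mul_pos hκ hb0).le hb1 (sub_le_sub_right hw b)
      linarith
  have hs' : ∀ w ∈ Ann b, f₁ w = f w - f₂ w := fun w hw => by rw [hs w hw, add_sub_cancel_right]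
  have c1 : HB f₁ (|B| + 1) := by
    have out : ∀ w : ℂ, a1 ≤ ‖w‖ → ‖w‖ < 1 → ‖f₁ w‖ ≤ |B| + 1 := fun w a c => by
      rw [hs' w ⟨by linarith, c⟩]
      linarith [norm_sub_le (f w) (f₂ w), hB w ⟨by linarith, c⟩, c2 w a, le_abs_self B]
    refine ⟨d1, fun w hw => (le_total a1 ‖w‖).elim (fun a => out w a (mem_ball_zero_iff.1 hw))
      fun a => prim2_max (h0.trans h1) (by linarith) d1 (fun ω hω => out ω hω.ge (by linarith)) a⟩
  have c3 : ∀ w : ℂ, ‖w‖ ≤ a4 → ‖f₁ w - g w‖ ≤ e := fun w hw => by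
    refine prim2_max (φ := fun w => f₁ w - g w) (by linarith) h5
      ((d1.mono (ball_subset_ball h6.le)).sub hg) (fun ω hω => ?_) hw
    rw [hs' ω ⟨by linarith, by linarith⟩, sub_right_comm]
    linarith [norm_sub_le (f ω - g ω) (f₂ ω), hfg ω ⟨by linarith, by linarith⟩ (by linarith),
      c2 ω (by linarith)]
  have r1 : RL f₁ fun t => q t - f₂ (ec t) := by
    have r2 := RL_of_cont (show b < 1 by linarith) (U := {w | b < ‖w‖}) (fun w a _ => a)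
      d2.continuousOn
    refine RL.congr (f := fun w => f w - f₂ w) ?_ (show b < 1 by linarith) hs'
    filter_upwards [hq, r2] with t a c using a.sub c
  have key : ∀ w : ℂ, ‖w‖ ≤ a4 → 2 * δL ≤ dep D (f₁ w) := fun w hw => by
    refine hdep _ _ fun ξ hξ => ?_
    obtain ⟨α, α1, α2, α3, α4, α5⟩ := hnet ξ hξ
    have hR1 := hK _ (α4 1 (right_mem_Icc.2 zero_le_one))
    have k1 := cont_disc c1 r1 α1 α2 (half_pos hμ) (by linarith) fun s hs => by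
      filter_upwards [hav] with t ht
      have := prim2_sub (α5 _ ht s hs) (y := f₂ (ec t)) (e := e)
        ((c2 _ (by rw [norm_ec]; linarith)).trans (by linarith)) (hK _ (α4 s hs))
      linarith
    have k2 := hH (fun w => 1 - dot (f₁ w) (α 1))
      ⟨(diffOn_dot d1 (differentiableOn_const _)).const_sub 1, fun x hx => by
        have := norm_sub_le (1 : ℂ) (dot (f₁ x) (α 1))
        rw [norm_one] at this
        linarith [(norm_dot_le (f₁ x) (α 1)).trans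
          (mul_le_mul (c1.bd x hx) hR1 (norm_nonneg _) hB1.le)]⟩
      (fun x hx => norm_pos_iff.1 ((half_pos hμ).trans_le (k1 x hx))) (by
        have k3 := c3 0 (by rw [norm_zero]; linarith)
        rw [g0, sub_zero, ← norm_neg] at k3
        have := prim2_sub (x := 0) (v := α 1) (c := 1) (by simp) k3 hR1
        rw [zero_sub, neg_neg] at this
        linarith) w hw
    have k4 := norm_sub_le (1 - dot (f₁ w) ξ) (dot (f₁ w) (α 1 - ξ))
    have k5 := (norm_dot_le (f₁ w) (α 1 - ξ)).trans (mul_le_mul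
      (c1.bd w (mem_ball_zero_iff.2 (by linarith))) ((norm_sub_rev _ _).trans_le α3)
      (norm_nonneg _) hB1.le)
    rw [mul_div_cancel₀ _ hB1.ne'] at k5
    rw [show 1 - dot (f₁ w) ξ - dot (f₁ w) (α 1 - ξ) = 1 - dot (f₁ w) (α 1) by
      rw [dot_sub_right]; ring] at k4
    linarith
  have lip : ∀ (w : ℂ) (y : E n), ‖w‖ ≤ a4 → ‖f₁ w - y‖ ≤ e → δL ≤ dep D y := fun w y a c => by
    have l1 : dep D (f₁ w) ≤ dep D y + dist (f₁ w) y := infDist_le_infDist_add_dist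
    rw [dist_eq_norm] at l1
    linarith [key w a]
  have hf3 : ∀ w : ℂ, a1 ≤ ‖w‖ → ‖w‖ ≤ a4 → δL ≤ dep D (f w) := fun w a c => lip w _ c (by
    rw [hs' w ⟨by linarith, by linarith⟩, sub_sub_cancel_left, norm_neg]
    linarith [c2 w a])
  have hA : Ann a1 ⊆ Ann a0 := fun w hw => ⟨h1.trans hw.1, hw.2⟩
  have n4 : ‖(a4 : ℂ)‖ = a4 := by rw [norm_real, Real.norm_of_nonneg (by linarith)]
  refine ⟨G.mem_of_avoid (isOpen_Ann a1) (isPreconnected_Ann (by linarith)) (hf.mono hA)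
    (fun a ha w hw h => ?_) (w₀ := a4) ⟨by linarith, by linarith⟩
    ((dep_pos_iff G.isOpen G.ne_univ).1 (hL.trans_le (hf3 _ (by linarith) n4.le))),
    fun w hw => lip w _ (mem_ball_zero_iff.1 hw).le (c3 w (mem_ball_zero_iff.1 hw).le), hf3⟩
  obtain ⟨α, α1, α2, rfl, α4, ν, ν0, ν1, α5⟩ := G.oc_margin ha
  obtain ⟨κ', k0, hk⟩ := G.lev hL
  have k1 := cont_ann (h0.trans h1) h1 (by linarith) hf (fun w hw => hB w (hA hw)) hq α1 α2
    (lt_min ν0 k0) ((min_le_left _ _).trans ν1) (fun s hs ω hω => (min_le_right _ _).trans (hk _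
      (hf3 ω (mem_sphere_zero_iff_norm.1 hω).ge ((mem_sphere_zero_iff_norm.1 hω).trans_le h4.le))
      _ (α4 s hs))) (fun s hs => hav.mono fun t ht => (min_le_left _ _).trans (α5 _ ht s hs)) w hw
  rw [h, sub_self, norm_zero] at k1
  exact absurd (lt_min ν0 k0) (not_lt.2 k1)

end Pool.Agent.MP_4baaa2_an.H94

/-!
The perturbed Poisson kernel is asymptotically real.
-/

namespace Pool.Agent.MP_4baaa2_an.H94

open Set Metric Filter Topology Complex MeasureTheory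
open scoped ComplexConjugate
open Pool.Agent.Lib.PlaneTop

variable {n : ℕ} {D : Set (E n)} {Φ : E n → E n → ℂ}

variable {h m : ℂ → E n} {xs : TT → E n} {Lg : E n → ℂ → ℂ} {γ A₀ : ℝ} {b₀ : TT → ℝ} {η : ℕ → ℝ}
  {τ : ℕ → TT → Ty} {P : Par} {ε : ℝ} {p : E n} {a a' c K : ℝ} {ν : ℕ → TT → E n}
  {𝒰 : Ultrafilter ℕ}


/-- a logarithm of `lam` -/
noncomputable def L0 (P : Par) (ε : ℝ) (p : E n) (h m : ℂ → E n) (b₀ : TT → ℝ) (w : ℂ) : ℂ :=
  log (dot (Nv P ε p h m b₀ w) (h w)) - I * SI b₀ w -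
    (log (1 - conj (F h p) * w) + log (1 - F h p / w))

theorem n1b_slit {x : ℂ} (hx : ‖x‖ < 1) : 1 - x ∈ slitPlane := by
  refine Or.inl ?_
  have h1 := re_le_norm x
  rw [sub_re, one_re]
  linarith

theorem n1b_lt {ζ w : ℂ} (hζ : ‖ζ‖ < ‖w‖) (hw : ‖w‖ < 1) :
    w ≠ 0 ∧ ‖conj ζ * w‖ < 1 ∧ ‖ζ / w‖ < 1 := by
  have h0 : 0 < ‖w‖ := (norm_nonneg _).trans_lt hζ
  refine ⟨norm_pos_iff.1 h0, ?_, ?_⟩
  · rw [norm_mul, norm_conj]
    exact mul_lt_one_of_nonneg_of_lt_one_right (hζ.trans hw).le h0.le hw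
  · rw [norm_div, div_lt_one h0]
    exact hζ

theorem exp_L0 (Y : Yp P ε p h m b₀ c a a') (hc : 0 < c) {w : ℂ} (hw : w ∈ Ann a)
    (hζ : ‖F h p‖ < ‖w‖) : exp (L0 P ε p h m b₀ w) = lam P ε p h m w := by
  obtain ⟨h0, h1, h2⟩ := n1b_lt hζ hw.2
  have e1 := slitPlane_ne_zero (n1b_slit h1)
  have e2 := slitPlane_ne_zero (n1b_slit h2)
  have e3 := slitPlane_ne_zero (Or.inl (Y.pos hc hw).1)
  have e4 : w - F h p ≠ 0 := fun e => hζ.ne (by rw [sub_eq_zero.1 e])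
  have e5 := exp_ne_zero (I * SI b₀ w)
  rw [L0, exp_sub, exp_sub, exp_add, exp_log e1, exp_log e2, exp_log e3, Nv, dot_smul_left, ka,
    lam]
  field_simp

theorem L0_diff (Y : Yp P ε p h m b₀ c a a') (hc : 0 < c) (ha : P.r ^ 2 ≤ a)
    (hd : DifferentiableOn ℂ h (ball 0 1)) (hm' : DifferentiableOn ℂ m (ball 0 1))
    (hb : Integrable b₀) {a₀ : ℝ} (h1 : a ≤ a₀) (h2 : ‖F h p‖ ≤ a₀) :
    DifferentiableOn ℂ (L0 P ε p h m b₀) (Ann a₀) := by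
  have hN := (Nv_diff (P := P) (ε := ε) (p := p) hd hm' hb).mono (s := Ann a₀)
    fun w hw => ⟨(ha.trans h1).trans_lt hw.1, hw.2⟩
  have d1 := (diffOn_dot hN (hd.mono (ha4_sub a₀))).clog
    fun w hw => Or.inl (Y.pos hc ⟨h1.trans_lt hw.1, hw.2⟩).1
  have d2 := ((SI_diff hb).mono (ha4_sub a₀)).const_mul I
  have d3 : DifferentiableOn ℂ (fun w => log (1 - conj (F h p) * w)) (Ann a₀) :=
    DifferentiableOn.clog (by fun_prop) fun w hw => n1b_slit (n1b_lt (h2.trans_lt hw.1) hw.2).2.1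
  have d4 : DifferentiableOn ℂ (fun w => log (1 - F h p / w)) (Ann a₀) :=
    DifferentiableOn.clog ((differentiableOn_const _).sub ((differentiableOn_const _).div
      differentiableOn_id fun w hw => (n1b_lt (h2.trans_lt hw.1) hw.2).1))
      fun w hw => n1b_slit (n1b_lt (h2.trans_lt hw.1) hw.2).2.2
  exact (d1.sub d2).sub (d3.add d4)

theorem n1b_mem {u w : ℂ} (hu : ‖u‖ ≤ 1) (hw : ‖w‖ < 1) : u * w ∈ ball (0 : ℂ) 1 := by
  rw [mem_ball_zero_iff, norm_mul]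
  exact mul_lt_one_of_nonneg_of_lt_one_right hu (norm_nonneg _) hw

/-- the imaginary part of the rotated logarithm -/
theorem n1b_im (B : Bdy D Φ h xs Lg) (hb : Integrable b₀) {z : E n} (hz : z ∈ D) {u w : ℂ}
    (hF : F h z = w) (hu : ‖u‖ ≤ 1) (hw : ‖w‖ < 1) :
    (L0 P ε p h m b₀ w + Lg z (u * w)).im = arg (dot (Nv P ε p h m b₀ w) (h w)) - PI b₀ w -
      (log (1 - conj (F h p) * w) + log (1 - F h p / w)).im + (log (1 - conj w * (u * w))).im +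
      PI (fun t => (Φ z (xs t)).im) (u * w) := by
  have h1 := B.lgi z hz _ (n1b_mem hu hw)
  rw [gz, sub_im, hF] at h1
  rw [add_im, L0, sub_im, sub_im, log_im, I_mul_im, SI_re hb hw, ← h1]
  ring

theorem n1b_rot (r : ℝ) (s t : TT) : ec s * (r * ec t) = r * ec (t + s) ∧
    conj ((r : ℂ) * ec t) * (ec s * (r * ec t)) = (r : ℂ) ^ 2 * ec s := by
  have h0 := ec_ne t
  refine ⟨by rw [ec_add]; ring, ?_⟩
  rw [map_mul, conj_ofReal, conj_ec]
  field_simp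

theorem n1b_ec {θ : ℕ → ℝ} (hθ : Tendsto θ atTop (𝓝 0)) :
    Tendsto (fun k => ec (θ k : ℝ)) atTop (𝓝 1) ∧
      Tendsto (fun k => ec (-(θ k : ℝ) : TT)) atTop (𝓝 1) := by
  have h1 : Continuous fun x : ℝ => ec (x : TT) := by
    simp only [ec_coe]
    fun_prop
  have h2 : ec ((0 : ℝ) : TT) = 1 := by rw [ec_coe]; simp
  have h3 := (h1.tendsto 0).comp (hθ.neg.trans_eq (by rw [neg_zero]))
  refine ⟨h2 ▸ (h1.tendsto 0).comp hθ, h2 ▸ h3.congr fun k => ?_⟩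
  simp only [Function.comp_apply, AddCircle.coe_neg]

/-- The kernel `N1` is asymptotically real on the circle. -/
theorem Geo.n1im (G : Geo D Φ) (B : Bdy D Φ h xs Lg) (hb : Measurable b₀) (hA : ∀ t, |b₀ t| ≤ A₀)
    (hm' : DifferentiableOn ℂ m (ball 0 1)) (Y : Yp P ε p h m b₀ c a a') (hc : 0 < c)
    (ha : P.r ^ 2 ≤ a) (hζ : ‖F h p‖ < 1) {a1 : ℝ} (h1 : a ≤ a1) (h2 : a1 < 1)
    (hD : ∀ w ∈ Ann a1, ff P ε p h m w ∈ D) {q : TT → E n} {υ : TT → ℝ}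
    (hq : RL (ff P ε p h m) q) (hυ : RL (fun w => arg (dot (Nv P ε p h m b₀ w) (h w))) υ)
    (hT : ∀ᵐ t, Tru D Φ (q t) (xs t) (b₀ t - υ t)) :
    ∀ μ > 0, ∃ r₃ < 1, ∀ w ∈ Ann r₃, |(N1 P ε p h m w).im| ≤ μ := by
  have hi := ha2_bdd hb hA
  have hd := B.adm.1
  obtain ⟨a₀, k1, k2, k3⟩ : ∃ a₀ : ℝ, a1 ≤ a₀ ∧ ‖F h p‖ ≤ a₀ ∧ a₀ < 1 :=
    ⟨max a1 ‖F h p‖, le_max_left _ _, le_max_right _ _, max_lt h2 hζ⟩
  obtain ⟨b, hb1, hb2⟩ := exists_between k3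
  obtain ⟨b', hb3, hb4⟩ := exists_between hb2
  have hb0 : 0 < b := ((norm_nonneg _).trans k2).trans_lt hb1
  have s1 : Ann a₀ ⊆ Ann a := fun w hw => ⟨(h1.trans k1).trans_lt hw.1, hw.2⟩
  have s2 : Ann b ⊆ Ann a₀ := fun w hw => ⟨hb1.trans hw.1, hw.2⟩
  have s3 : Ann b' ⊆ Ann b := fun w hw => ⟨hb3.trans hw.1, hw.2⟩
  have hD' : ∀ w ∈ Ann a₀, ff P ε p h m w ∈ D := fun w hw => hD w ⟨k1.trans_lt hw.1, hw.2⟩
  have hF : ∀ w ∈ Ann a₀, F h (ff P ε p h m w) = w := fun w hw =>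
    F_ff B.adm (ha4_sub a₀ hw) (Y.pos hc (s1 hw)).2 (hD' w hw)
  have df := (Y.ff_diff hc ha hd hm').mono s1
  have dL := L0_diff Y hc ha hd hm' hi (h1.trans k1) k2
  obtain ⟨Ξ, hΞ⟩ : ∃ Ξ : ℂ → ℂ → ℂ,
      Ξ = fun u w => L0 P ε p h m b₀ w + Lg (ff P ε p h m w) (u * w) := ⟨_, rfl⟩
  have dΞ : ∀ u : ℂ, ‖u‖ ≤ 1 → DifferentiableOn ℂ (Ξ u) (Ann a₀) := fun u hu => by
    rw [hΞ]
    exact dL.add (DifferentiableOn.comp (g := fun x : E n × ℂ => Lg x.1 x.2)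
      (f := fun w => (ff P ε p h m w, u * w)) B.lg.lgd (df.prodMk (by fun_prop))
      fun w hw => ⟨hD' w hw, n1b_mem hu hw.2⟩)
  have cΞ : ContinuousOn (fun x : ℂ × ℂ => Ξ x.1 x.2) (closedBall 0 1 ×ˢ Ann a₀) := by
    rw [hΞ]
    have c1 : ContinuousOn (fun x : ℂ × ℂ => ff P ε p h m x.2) (closedBall 0 1 ×ˢ Ann a₀) :=
      df.continuousOn.comp continuousOn_snd fun x hx => hx.2
    exact (dL.continuousOn.comp continuousOn_snd fun x hx => hx.2).add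
      (ContinuousOn.comp (g := fun x : E n × ℂ => Lg x.1 x.2)
        (f := fun x : ℂ × ℂ => (ff P ε p h m x.2, x.1 * x.2)) B.lg.lgd.continuousOn
        (c1.prodMk (by fun_prop))
        fun x hx => ⟨hD' _ hx.2, n1b_mem (mem_closedBall_zero_iff.1 hx.1) hx.2.2⟩)
  obtain ⟨C, hC⟩ := ((isCompact_closedBall (0 : ℂ) 1).prod
    (isCompact_sphere (0 : ℂ) b)).exists_bound_of_continuousOn
    (cΞ.mono (prod_mono subset_rfl (ha5_sph hb1 hb2)))
  have hC' : ∀ s : TT, ∀ ω ∈ sphere (0 : ℂ) b, ‖Ξ (ec s) ω‖ ≤ C := fun s ω hω =>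
    hC (ec s, ω) ⟨sphere_subset_closedBall (ec_mem s), hω⟩
  have hIm : ∀ (s : TT), ∀ w ∈ Ann a₀, (Ξ (ec s) w).im =
      arg (dot (Nv P ε p h m b₀ w) (h w)) - PI b₀ w -
      (log (1 - conj (F h p) * w) + log (1 - F h p / w)).im +
      (log (1 - conj w * (ec s * w))).im +
      PI (fun t => (Φ (ff P ε p h m w) (xs t)).im) (ec s * w) := fun s w hw => by
    rw [hΞ]
    exact n1b_im B hi (hD' w hw) (hF w hw) (norm_ec s).le hw.2
  obtain ⟨A, hΦ⟩ := G.Φbdd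
  have hbd : ∀ (s : TT), ∀ w ∈ Ann a₀, |(Ξ (ec s) w).im| ≤ 4 * Real.pi + A₀ + A := by
    intro s w hw
    have e1 := abs_le.1 (abs_arg_le_pi (dot (Nv P ε p h m b₀ w) (h w)))
    have e2 := abs_le.1 (norm_PI_le_const (f := b₀) (Eventually.of_forall hA) hw.2)
    have e3 := abs_le.1 (abs_arg_le_pi (1 - conj (F h p) * w))
    have e4 := abs_le.1 (abs_arg_le_pi (1 - F h p / w))
    have e5 := abs_le.1 (abs_arg_le_pi (1 - conj w * (ec s * w)))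
    have e6 := abs_le.1 (norm_PI_le_const (f := fun t => (Φ (ff P ε p h m w) (xs t)).im)
      (Eventually.of_forall fun t => hΦ _ (hD' w hw) _ (B.mem t))
      (mem_ball_zero_iff.1 (n1b_mem (norm_ec s).le hw.2)))
    rw [hIm s w hw, add_im, log_im, log_im, log_im, abs_le]
    constructor <;> linarith [e1.1, e1.2, e2.1, e2.2, e3.1, e3.2, e4.1, e4.2, e5.1, e5.2, e6.1,
      e6.2]
  have hlim : ∀ {s : ℕ → TT}, Tendsto (fun k => ec (s k)) atTop (𝓝 1) → ∀ w ∈ Ann b,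
      Tendsto (fun k => Ξ (ec (s k)) w) atTop (𝓝 (Ξ 1 w)) := fun {s} hs w hw =>
    Tendsto.comp (g := fun x : ℂ × ℂ => Ξ x.1 x.2) (f := fun k => (ec (s k), w))
      (cΞ (1, w) ⟨by simp, s2 hw⟩) (tendsto_nhdsWithin_iff.2 ⟨hs.prodMk_nhds tendsto_const_nhds,
        Eventually.of_forall fun k => ⟨sphere_subset_closedBall (ec_mem _), s2 hw⟩⟩)
  obtain ⟨θ, hθ, hθ0, hpi⟩ := G.tru_pi B.meas B.mem
  have key : ∀ᵐ t, ∀ ε' > 0, ∀ᶠ k in atTop, ∀ᶠ r : ℝ in 𝓝[<] 1,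
      (Ξ (ec (θ k : ℝ)) (r * ec t)).im ≤ ε' ∧ (-Ξ (ec (-(θ k : ℝ) : TT)) (r * ec t)).im ≤ ε' := by
    filter_upwards [hpi, hq, hυ, hT, RL_PI hi] with t t1 t2 t3 t4 t5 ε' hε'
    have ev := ev_ann k3 t
    have t6 := (t3.sub t5).sub (log_cancel hζ t)
    have t7 : ∀ᶠ k in atTop, Real.pi * θ k < ε' / 3 :=
      (hθ0.const_mul Real.pi).eventually (gt_mem_nhds (by rw [mul_zero]; positivity))
    filter_upwards [t1 _ _ _ (ev.mono fun r hr => hD' _ hr) t2 t4 (ε' / 3) (by positivity), t7]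
      with k t8 t9
    obtain ⟨u1, u2⟩ := arg_rot (hθ k).1 (hθ k).2
    filter_upwards [t8, ev, (t6.add u1).eventually (gt_mem_nhds (lt_add_of_pos_right _
      (by positivity : 0 < ε' / 3))), (t6.add u2).eventually (lt_mem_nhds (sub_lt_self _
      (by positivity : 0 < ε' / 3)))] with r v1 v2 v3 v4
    rw [neg_im, hIm _ _ v2, hIm _ _ v2, (n1b_rot r _ t).2, (n1b_rot r _ t).2, (n1b_rot r _ t).1,
      (n1b_rot r _ t).1, ← sub_eq_add_neg t]
    constructor <;> linarith [v1.1, v1.2]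
  obtain ⟨K, -, hK⟩ := an_lim hb0 hb3 hb4
  have up := hK (fun k => Ξ (ec (θ k : ℝ))) (Ξ 1) a₀ C _ hb1 (fun k => dΞ _ (norm_ec _).le)
    (fun k => hC' _) (fun k w hw => (abs_le.1 (hbd _ w (s2 hw))).2)
    (key.mono fun t ht ε' hε' => (ht ε' hε').mono fun k hk => hk.mono fun r hr => hr.1)
    (hlim (n1b_ec hθ0).1)
  have low := hK (fun k w => -Ξ (ec (-(θ k : ℝ) : TT)) w) (fun w => -Ξ 1 w) a₀ C
    (4 * Real.pi + A₀ + A) hb1 (fun k => (dΞ _ (norm_ec _).le).neg)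
    (fun k ω hω => (norm_neg _).trans_le (hC' _ ω hω))
    (fun k w hw => (neg_im _).trans_le (neg_le.1 (abs_le.1 (hbd _ w (s2 hw))).1))
    (key.mono fun t ht ε' hε' => (ht ε' hε').mono fun k hk => hk.mono fun r hr => hr.2)
    fun w hw => (hlim (n1b_ec hθ0).2 w hw).neg
  refine im_zero (L := Ξ 1) (C := K * C) (hb0.trans hb3).le hb4
    ((dΞ 1 norm_one.le).mono (s3.trans s2)) (fun w hw => ?_) fun w hw =>
    abs_le.2 ⟨neg_le.1 ((neg_im _).symm.trans_le (low w hw)), up w hw⟩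
  have hw' := s2 (s3 hw)
  rw [hΞ, N1_eq (Y.pos hc (s1 hw')).2]
  simp only [one_mul]
  rw [exp_add, exp_L0 Y hc (s1 hw') (k2.trans_lt hw'.1), B.lg.lge _ (hD' w hw') w (ha4_sub a₀ hw'),
    hF w hw']

end Pool.Agent.MP_4baaa2_an.H94
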