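import Pool.Agent.MP_4baaa2_an.Mg.H94_Var
import Pool.Agent.MP_4baaa2_an.Mg.H94_Pol
import Pool.Agent.MP_4baaa2_an.Mg.H94_GeoA
import Pool.Agent.MP_4baaa2_an.Mg.H94_Smooth
import Pool.Agent.MP_4baaa2_an.Mg.H94_GeoH
import Pool.Agent.MP_4baaa2_an.Mg.H94_Gen2

/-!
The structure of maximisers.
-/

namespace Pool.Agent.MP_4baaa2_an.H94

open Set Metric Filter Topology Complex MeasureTheory
open scoped ComplexConjugate
open Pool.Agent.Lib.PlaneTop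

variable {n : ℕ} {D : Set (E n)} {Φ : E n → E n → ℂ}


theorem Geo.core (G : Geo D Φ) (R : Rad) : ∃ δL > 0, ∀ P : Par, P.r = R.r → ∃ ε₀ > 0,
    ∀ ε ∈ Icc (0 : ℝ) ε₀, ∀ p ∈ D, ∀ h, IsMax D P ε p h → R.σ1 ≤ ‖F h p‖ → ‖F h p‖ ≤ R.σ2 →
      ∃ m, Core D R P δL ε p h m := by
  have hr0 := R.h0
  have hr2 : 0 < R.r ^ 2 := by positivity
  have k1 := R.h1
  have k2 := R.h2
  have k3 := R.h3
  have k4 := R.h4
  have k5 := R.h5
  have k6 := R.h6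
  have k7 := R.h7
  have k8 := R.h8
  have k9 := R.h9
  obtain ⟨γ, A₀, hsel⟩ := G.exists_sel
  obtain ⟨δ₀, hδ₀, hdep⟩ := G.U0_proper (σ := R.ρ1) (by linarith)
  obtain ⟨Rh, -, hRh⟩ := G.hb
  obtain ⟨ξ₀, hξ₀⟩ : ∃ ξ, ξ ∈ Kd D := ⟨0, interior_subset (zero_mem_interior_Kd G.bdd)⟩
  obtain ⟨_, _, _, S₀⟩ := hsel (fun _ => ξ₀) measurable_const fun _ => hξ₀
  set a0 : ℝ := (R.r ^ 2 + R.a1) / 2 with ha0
  set a5 : ℝ := (R.a4 + 1) / 2 with ha5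
  obtain ⟨c, hc, ypos⟩ := G.ypos S₀.gpos A₀ (σ1 := R.σ1) (σ2 := R.σ2) (a' := a5) (by linarith)
    (by linarith) hδ₀ (by linarith)
  obtain ⟨δL, hδL, κ, hκ, prim⟩ := G.prim_abs (1 / c) (a0 := a0) (a1 := R.a1) (a4 := R.a4)
    (a5 := a5) (by linarith) (by linarith) (by linarith) (by linarith) (by linarith)
  refine ⟨δL, hδL, fun P hP => ?_⟩
  have hPa : P.r ^ 2 < a0 := by rw [hP]; linarith
  obtain ⟨K, hK, mult⟩ := G.mult P hPa (by linarith) A₀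
  obtain ⟨ε₁, hε₁, ypos⟩ := ypos P a0 K hPa (by linarith) hK
  obtain ⟨ε₂, hε₂, gain⟩ := G.gain P
  obtain ⟨ε₃, hε₃, proper⟩ := G.proper P (σ := R.σ2) (by linarith)
  obtain ⟨K₃, hK₃, sub⟩ := ff_sub_fp (n := n) P A₀ Rh hc (a' := a5) (by linarith)
  obtain ⟨BQ, -, hBQ, -⟩ := G.U_compare P
  have hev : ∀ᶠ ε in 𝓝 (0 : ℝ), R.σ2 * Real.exp (|ε| * BQ) < R.ρ1 := by
    have hc : ContinuousAt (fun ε : ℝ => R.σ2 * Real.exp (|ε| * BQ)) 0 := by fun_prop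
    exact hc.tendsto.eventually (gt_mem_nhds (by simpa using k7))
  obtain ⟨ε₄, hε₄, hev⟩ := Metric.eventually_nhds_iff.1 hev
  refine ⟨min (min ε₁ ε₂) (min (min ε₃ (ε₄ / 2)) (κ / K₃)), by positivity,
    fun ε hε p hp h hh hlo hhi => ?_⟩
  have e1 : ε ≤ ε₁ := hε.2.trans ((min_le_left _ _).trans (min_le_left _ _))
  have e2 : ε ≤ ε₂ := hε.2.trans ((min_le_left _ _).trans (min_le_right _ _))
  have e3 : ε ≤ ε₃ :=
    hε.2.trans ((min_le_right _ _).trans ((min_le_left _ _).trans (min_le_left _ _)))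
  have e4 : ε ≤ ε₄ / 2 :=
    hε.2.trans ((min_le_right _ _).trans ((min_le_left _ _).trans (min_le_right _ _)))
  have e5 : ε * K₃ ≤ κ :=
    (le_div_iff₀ hK₃).1 (hε.2.trans ((min_le_right _ _).trans (min_le_right _ _)))
  have hζ0 : F h p ≠ 0 := norm_pos_iff.1 (by linarith)
  have hζr : ‖F h p‖ ≤ P.r := by rw [hP]; linarith
  have hζ1 : ‖F h p‖ < 1 := by linarith
  have hdp : δ₀ ≤ dep D p := by
    refine hdep p hp ?_
    obtain ⟨h₀, hh₀⟩ := G.max_exists P le_rfl hp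
    have f1 : U0 D p = ‖F h₀ p‖ := by
      rw [← U_zero D P, hh₀.U_eq, V]
      simp
    have f2 := (hh.2 h₀ hh₀.1).trans (cls2_V_le P hε.1 p h)
    have f3 := hev (y := ε) (by rw [dist_zero_right, Real.norm_of_nonneg hε.1]; linarith)
    rw [abs_of_nonneg hε.1] at f3
    have f4 : ‖F h₀ p‖ ≤ R.σ2 * Real.exp (ε * Q P h₀) := by
      have := mul_le_mul_of_nonneg_right (f2.trans hhi) (Real.exp_pos (ε * Q P h₀)).le
      rwa [V, mul_assoc, ← Real.exp_add, neg_add_cancel, Real.exp_zero, mul_one] at this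
    have f5 : R.σ2 * Real.exp (ε * Q P h₀) ≤ R.σ2 * Real.exp (ε * BQ) :=
      mul_le_mul_of_nonneg_left (Real.exp_le_exp.2
        (mul_le_mul_of_nonneg_left (hBQ h₀ hh₀.1) hε.1)) (by linarith)
    linarith
  obtain ⟨xs, Lg, B⟩ := G.exists_bdy hh.1 (proper ε ⟨hε.1, e3⟩ p hp h hh hζ0 hhi)
  obtain ⟨b₀, η, τ, S⟩ := hsel xs B.meas B.mem
  obtain ⟨m, ν, 𝒰, M⟩ := mult B S (gain ε ⟨hε.1, e2⟩ p hp h hh hζ0 hζr) hε.1 hζr
  have Y := ypos ε ⟨hε.1, e1⟩ hdp hlo hhi B S M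
  obtain ⟨q, υ, hq, hυ, hpol⟩ := G.pol B S M Y hc hPa.le (by linarith) hζr
  have hcoh : ∀ᵐ t, (∀ a ∈ interior (Kd D), dot (q t) a ≠ 1) ∧
      (q t ∈ closure D → Tru D Φ (q t) (xs t) (b₀ t - υ t)) := hpol.mono fun t ht =>
    G.coh γ S.gpos (xs t) (q t) (b₀ t) (υ t) η (fun j => τ j t) S.elim (fun j => S.ty j t) ht.1
      ht.2.1 ht.2.2
  obtain ⟨p1, p2, p3⟩ := prim (ff P ε p h m) (fp p h m) q (Y.ff_diff hc hPa.le hh.1.1 M.md)
    (fun w hw => Y.ff_le hc hζ1 hw) (Y.fp_diff hc (by linarith) hh.1.1 M.md) fp_zero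
    (fun w hw hw' => (sub hε.1 hPa.le (hRh h hh.1) hζ1 S.meas S.bd Y w hw hw').trans e5) hq
    (hcoh.mono fun t ht => ht.1)
  have hcl := hq.mem (a := R.a1) (by linarith) p1
  refine ⟨m, hP.symm ▸ rfl, hε.1, hh.1, hp, hlo, hhi, M.md, fun w hw => ⟨(Y.pos hc ?_).2, p1 w hw⟩,
    fun w hw => ⟨Y.posp hc (ball_subset_ball (by linarith) hw), p2 w hw⟩,
    fun w h1 h2 => p3 w (by linarith) (by linarith),
    G.n1im B S.meas S.bd M.md Y hc hPa.le hζ1 (a1 := R.a1) (by linarith) (by linarith) p1 hq hυ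
      ((hcoh.and hcl).mono fun t ht => ht.1.2 ht.2)⟩
  exact ⟨lt_trans (by linarith) hw.1, hw.2⟩

end Pool.Agent.MP_4baaa2_an.H94

/-!
Quadratic growth at the maximisers.
-/

namespace Pool.Agent.MP_4baaa2_an.H94

open Set Metric Filter Topology Complex
open scoped ComplexConjugate
open Pool.Agent.Lib.PlaneTop

variable {n : ℕ}

variable {D : Set (E n)} {Φ : E n → E n → ℂ}

theorem grow4_ineq {K₁ K₂ c ε Λ s q N a A X : ℝ} (hK₂ : 0 < K₂) (hc : 0 < c) (hε : 0 ≤ ε)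
    (hq : 0 ≤ q) (hN0 : 0 ≤ Λ * N) (hN : Λ * N ≤ q) (hs : s * (8 * K₂) ≤ 1)
    (ha : a ^ 2 = 1 / (8 * K₂) * q) (hX : X ^ 2 = A)
    (hε2 : ε * ((Λ + 1) ^ 2 * ((K₁ * K₂) ^ 2 / (2 * c) + K₁ * K₂ + K₂)) ≤ 2 * K₂) :
    K₂ * (ε * (Λ + 1) * a * (K₁ * (X + ε * (Λ + 1) * a)) + (ε * (Λ + 1)) ^ 2 * a ^ 2 +
      ε * a ^ 2 + ε * Λ * s * N) ≤ c / 2 * A + ε / 2 * q := by
  have h1 : K₂ * (ε * a ^ 2) = ε * q / 8 := by rw [ha]; field_simp
  have h2 : K₂ * (ε * Λ * s * N) ≤ ε * q / 8 := by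
    have h3 := mul_le_mul_of_nonneg_left hs hN0
    have h4 := mul_le_mul_of_nonneg_left (h3.trans_eq (mul_one _) |>.trans hN) hε
    linarith
  have h5 : K₁ * K₂ * (ε * (Λ + 1) * a) * X ≤
      c / 2 * A + (K₁ * K₂) ^ 2 / (2 * c) * (ε * (Λ + 1) * a) ^ 2 := by
    have h6 : 0 ≤ (c * X - K₁ * K₂ * (ε * (Λ + 1) * a)) ^ 2 / (2 * c) := by positivity
    have h7 : (c * X - K₁ * K₂ * (ε * (Λ + 1) * a)) ^ 2 / (2 * c) =
        c / 2 * X ^ 2 + (K₁ * K₂) ^ 2 / (2 * c) * (ε * (Λ + 1) * a) ^ 2 -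
          K₁ * K₂ * (ε * (Λ + 1) * a) * X := by
      field_simp
      ring
    rw [← hX]
    linarith
  have h8 : ((K₁ * K₂) ^ 2 / (2 * c) + K₁ * K₂ + K₂) * (ε * (Λ + 1) * a) ^ 2 ≤ ε * q / 4 := by
    have h9 := mul_le_mul_of_nonneg_right hε2 (by positivity : 0 ≤ ε * (1 / (8 * K₂) * q))
    have h10 : 2 * K₂ * (ε * (1 / (8 * K₂) * q)) = ε * q / 4 := by field_simp; ring
    rw [mul_pow (ε * (Λ + 1)) a, ha, ← h10]
    refine le_trans (le_of_eq ?_) h9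
    ring
  linarith

theorem Geo.growth (G : Geo D Φ) (R : Rad) {δL C c e₀ : ℝ} (hδ : 0 < δL) (hC : 0 < C)
    (hc : 0 < c) (he : 0 < e₀) : ∃ P : Par, P.r = R.r ∧ ∃ ε₂ > 0, ∃ C₂ > 0,
      ε₂ * (P.Λ + 1) ≤ e₀ ∧
      (∀ Δ : ℂ → E n, DifferentiableOn ℂ Δ (ball 0 1) → ∀ w : ℂ, ‖w‖ ≤ R.ρ1 →
        ‖Δ w‖ ^ 2 ≤ C₂ * Q P Δ) ∧
      ∀ ε ≤ ε₂, ∀ p h m, Good D R P δL C c ε p h m → Growth D P ε p h := by
  obtain ⟨K₁, hK₁, e₁, he₁, chip⟩ := G.chi_plus R hδ hC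
  obtain ⟨K₂, hK₂, e₂, he₂, inner⟩ := G.inner_est R hδ hC
  have ha1 : 0 < R.a1 := (pow_pos R.h0 2).trans R.h1
  have hs0 : 0 < min R.a1 (1 / (8 * K₂)) := by positivity
  have hsr : min R.a1 (1 / (8 * K₂)) < R.r := by
    linarith [min_le_left R.a1 (1 / (8 * K₂)), R.h2, R.h3, R.h4, R.h5, R.h6, R.h7, R.h8]
  obtain ⟨Cd, hCd, hint⟩ := interp (n := n) (δ := 1 / (8 * K₂)) hs0 hsr R.h8 R.h9 (by positivity)
  let P : Par := ⟨8 * K₂ * Cd, min R.a1 (1 / (8 * K₂)), R.r, by positivity, hs0, hsr, R.h9⟩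
  have hΛ := P.hΛ
  have hL : 0 < P.Λ + 1 := by linarith
  have hQ : ∀ Δ : ℂ → E n, DifferentiableOn ℂ Δ (ball 0 1) → ∀ w : ℂ, ‖w‖ ≤ R.ρ1 →
      ‖Δ w‖ ^ 2 ≤ 1 / (8 * K₂) * Q P Δ := fun Δ hΔ w hw => by
    refine (hint Δ hΔ w hw).trans_eq ?_
    simp only [Q, P]
    field_simp
    ring
  set B : ℝ := (K₁ * K₂) ^ 2 / (2 * c) + K₁ * K₂ + K₂ with hB
  have hB0 : 0 < B := by positivity
  have hsmall : ∀ ε ≤ min (min e₀ (min e₁ e₂) / (P.Λ + 1)) (2 * K₂ / ((P.Λ + 1) ^ 2 * B)),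
      ε * (P.Λ + 1) ≤ min e₀ (min e₁ e₂) ∧ ε * ((P.Λ + 1) ^ 2 * B) ≤ 2 * K₂ := fun ε hε =>
    ⟨(le_div_iff₀ hL).1 (hε.trans (min_le_left _ _)),
      (le_div_iff₀ (by positivity)).1 (hε.trans (min_le_right _ _))⟩
  refine ⟨P, rfl, min (min e₀ (min e₁ e₂) / (P.Λ + 1)) (2 * K₂ / ((P.Λ + 1) ^ 2 * B)),
    by positivity, 1 / (8 * K₂), by positivity, (hsmall _ le_rfl).1.trans (min_le_left _ _), hQ,
    fun ε hε p h m hg h₂ hh₂ x hx hF => ?_⟩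
  obtain ⟨hε1, hε2⟩ := hsmall ε hε
  have hε0 := hg.eps
  have hΔ : DifferentiableOn ℂ (h₂ - h) (ball 0 1) := hh₂.1.sub hg.adm.1
  have hq0 := Q_nonneg P (h₂ - h)
  have hadd := Q_add P hg.adm.1 hΔ
  rw [add_sub_cancel] at hadd
  have ha : ∀ ω : ℂ, ‖ω‖ ≤ R.ρ1 → ‖h₂ ω - h ω‖ ≤ √(1 / (8 * K₂) * Q P (h₂ - h)) := fun ω hω =>
    Real.le_sqrt_of_sq_le (hQ _ hΔ ω hω)
  have ha2 : √(1 / (8 * K₂) * Q P (h₂ - h)) ^ 2 = 1 / (8 * K₂) * Q P (h₂ - h) :=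
    Real.sq_sqrt (by positivity)
  have hF0 : F h p ≠ 0 := norm_pos_iff.1 (by linarith [hg.lo, R.h2, R.h3, R.h4, R.h5])
  have hN : P.Λ * N2 P.s (h₂ - h) ≤ Q P (h₂ - h) := le_add_of_nonneg_right (N2_nonneg _ _)
  have hN0 : 0 ≤ P.Λ * N2 P.s (h₂ - h) := mul_nonneg hΛ (N2_nonneg _ _)
  have hs8 : P.s * (8 * K₂) ≤ 1 := (le_div_iff₀ (by positivity)).1 (min_le_right _ _)
  have key : x - 1 ≤ ε * (Lq P h (h₂ - h)).re + ε / 2 * Q P (h₂ - h) := by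
    refine le_of_forall_pos_le_add fun μ hμ => ?_
    obtain ⟨ρ, hρ, hρ1, hout⟩ := hg.outer G hc hh₂ hμ
    have hres := congrArg re (hg.residue G hh₂ hρ hρ1)
    rw [hF, mul_div_cancel_right₀ _ hF0, sub_re, sub_re, ofReal_re, one_re] at hres
    have hX := chip hg (hε1.trans ((min_le_right _ _).trans (min_le_left _ _))) hh₂ ha hρ hρ1
    have hin := inner hg (min_le_left _ _) (hε1.trans ((min_le_right _ _).trans (min_le_right _ _)))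
      hh₂ ha hX
    have hA0 : 0 ≤ Real.circleAverage (fun w => ‖chi h₂ (ff P ε p h m) w‖ ^ 2) 0 ρ :=
      Real.circleAverage_nonneg_of_nonneg fun _ _ => sq_nonneg _
    have := grow4_ineq hK₂ hc hε0 hq0 hN0 hN hs8 ha2 (Real.sq_sqrt hA0) hε2
    linarith
  have := Real.log_le_sub_one_of_pos hx
  rw [hadd]
  linarith

theorem Geo.growth_all (G : Geo D Φ) (R : Rad) : ∃ P : Par, ∃ ε₀ > 0, ∃ C₂ > 0,
    (∀ Δ : ℂ → E n, DifferentiableOn ℂ Δ (ball 0 1) → ∀ w : ℂ, ‖w‖ ≤ R.ρ1 →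
      ‖Δ w‖ ^ 2 ≤ C₂ * Q P Δ) ∧
    ∀ ε ∈ Icc (0 : ℝ) ε₀, ∀ p ∈ D, ∀ h, IsMax D P ε p h → R.σ1 ≤ ‖F h p‖ → ‖F h p‖ ≤ R.σ2 →
      Growth D P ε p h := by
  obtain ⟨δL, hδ, core⟩ := G.core R
  obtain ⟨C, hC, c, hc, e₀, he, good⟩ := G.good_of R hδ
  obtain ⟨P, hP, ε₂, hε₂, C₂, hC₂, h1, h2, h3⟩ := G.growth R hδ hC hc he
  obtain ⟨ε₀, hε₀, h4⟩ := core P hP
  refine ⟨P, min ε₀ ε₂, lt_min hε₀ hε₂, C₂, hC₂, h2, fun ε hε p hp h hh hlo hhi => ?_⟩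
  have hε2 : ε ≤ ε₂ := hε.2.trans (min_le_right _ _)
  obtain ⟨m, hcore⟩ := h4 ε ⟨hε.1, hε.2.trans (min_le_left _ _)⟩ p hp h hh hlo hhi
  exact h3 ε hε2 p h m (good
    ((mul_le_mul_of_nonneg_right hε2 (by linarith [P.hΛ])).trans h1) hcore)

theorem coreev_max {P : Par} {p : E n} {h : ℂ → E n} (hh : IsMax D P 0 p h) :
    ‖F h p‖ = U0 D p := by
  rw [← U_zero D P, hh.U_eq, V]
  simp

/-- radii around a given level -/
theorem main_rad {σ : ℝ} (h0 : 0 < σ) (h1 : σ < 1) : ∃ R : Rad, R.σ1 = σ ∧ R.σ2 = σ := by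
  have h2 : σ < √σ := Real.lt_sqrt_of_sq_lt (by nlinarith)
  obtain ⟨r, hr1, hr2⟩ := exists_between h2
  have hr0 : 0 < r := h0.trans hr1
  have h3 : r ^ 2 < σ := Real.lt_sqrt hr0.le |>.1 hr2
  have h4 : √σ < 1 := by
    rw [Real.sqrt_lt' one_pos]
    linarith
  generalize hm : r ^ 2 = m at h3
  refine ⟨⟨m + (σ - m) / 5, m + 2 * (σ - m) / 5, m + 3 * (σ - m) / 5, m + 4 * (σ - m) / 5, σ, σ,
    (σ + r) / 2, r, hr0, ?_, ?_, ?_, ?_, ?_, ?_, ?_, ?_, ?_⟩, rfl, rfl⟩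
  all_goals linarith

/-- existence of an extremal disc through the origin and a given point -/
theorem Geo.lempert (G : Geo D Φ) {p : E n} (hp : p ∈ D) (hp0 : p ≠ 0) :
    ∃ f : ℂ → E n, DifferentiableOn ℂ f (ball 0 1) ∧ MapsTo f (ball 0 1) D ∧ f 0 = 0 ∧
      ∃ ζ ∈ ball (0 : ℂ) 1, f ζ = p ∧ ‖ζ‖ = U0 D p := by
  have u0 := G.U0_pos hp hp0
  obtain ⟨R, e1, e2⟩ := main_rad u0 (G.U0_lt_one hp)
  obtain ⟨δL, hδ, core⟩ := G.core R
  obtain ⟨P, hP⟩ : ∃ P : Par, P.r = R.r :=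
    ⟨⟨0, R.r / 2, R.r, le_rfl, half_pos R.h0, half_lt_self R.h0, R.h9⟩, rfl⟩
  obtain ⟨ε₀, hε₀, core⟩ := core P hP
  obtain ⟨h, hm⟩ := G.max_exists P le_rfl hp
  have e := coreev_max hm
  have hζ : F h p ≠ 0 := norm_pos_iff.1 (by rwa [e])
  obtain ⟨m, hc⟩ := core 0 ⟨le_rfl, hε₀.le⟩ p hp h hm (by rw [e, e1]) (by rw [e, e2])
  have hnt : ∀ w, nt P 0 p h m w = np p h m w := fun w => by simp [nt]
  have key : ∀ w ∈ ball (0 : ℂ) 1, dot (np p h m w) (h w) ≠ 0 ∧ fp p h m w ∈ D := fun w hw => by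
    rcases lt_or_ge ‖w‖ R.a4 with h1 | h1
    · have := hc.inn w (mem_ball_zero_iff.2 h1)
      exact ⟨this.1, grow1_deep hδ this.2⟩
    · have := hc.ne w ⟨by linarith [R.h2, R.h3, R.h4], mem_ball_zero_iff.1 hw⟩
      rwa [ff, hnt] at this
  refine ⟨fp p h m, ?_, fun w hw => (key w hw).2, fp_zero, F h p, (hm.1.F_spec hp).1,
    fp_zeta hm.1 hp hζ, e⟩
  exact (differentiableOn_id.div (diffOn_dot (np_diff hc.md) hm.1.1) fun w hw => (key w hw).1).smul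
    (np_diff hc.md)

theorem Geo.U0_conn (G : Geo D Φ) {t : ℝ} (ht : 0 < t) :
    IsPreconnected {z ∈ D | U0 D z < t} := by
  have hU : ∀ z ∈ D, ∃ h, Adm D h ∧ ‖F h z‖ = U0 D z := fun z hz => by
    obtain ⟨h, hm⟩ := G.max_exists ⟨0, 1 / 4, 1 / 2, le_rfl, by norm_num, by norm_num,
      by norm_num⟩ le_rfl hz
    exact ⟨h, hm.1, coreev_max hm⟩
  refine isPreconnected_of_forall 0 fun z hz => ?_
  rcases eq_or_ne z 0 with rfl | hz0
  · exact ⟨{0}, singleton_subset_iff.2 hz, rfl, rfl, isPreconnected_singleton⟩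
  obtain ⟨f, fd, fm, f0, ζ, hζ, fζ, e⟩ := G.lempert hz.1 hz0
  have s1 : closedBall (0 : ℂ) ‖ζ‖ ⊆ ball 0 1 := closedBall_subset_ball (mem_ball_zero_iff.1 hζ)
  refine ⟨f '' closedBall 0 ‖ζ‖, ?_, ⟨0, mem_closedBall_self (norm_nonneg _), f0⟩,
    ⟨ζ, mem_closedBall_zero_iff.2 le_rfl, fζ⟩,
    (convex_closedBall 0 ‖ζ‖).isPreconnected.image f (fd.continuousOn.mono s1)⟩
  rintro _ ⟨w, hw, rfl⟩
  refine ⟨fm (s1 hw), ?_⟩
  obtain ⟨h, ha, he⟩ := hU _ (fm (s1 hw))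
  have h1 : ‖(F h ∘ f) w‖ ≤ ‖w‖ :=
    norm_le_norm_of_mapsTo_ball ((ha.F_diff G.isOpen).comp fd fm)
      (fun x hx => ball_subset_closedBall (ha.F_spec (fm hx)).1)
      (by rw [Function.comp_apply, f0, ha.F_zero G.zero]) (mem_ball_zero_iff.1 (s1 hw))
  rw [← he]
  exact (h1.trans (mem_closedBall_zero_iff.1 hw)).trans_lt (e ▸ hz.2)

end Pool.Agent.MP_4baaa2_an.H94

/-!
Sublevel sets of the value function.
-/

namespace Pool.Agent.MP_4baaa2_an.H94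

open Set Metric Filter Topology Complex
open scoped ComplexConjugate
open Pool.Agent.Lib.PlaneTop

variable {n : ℕ}

variable {D : Set (E n)} {Φ : E n → E n → ℂ}

theorem Geo.sublevel_lc (G : Geo D Φ) (P : Par) {ε t : ℝ} (hε : 0 ≤ ε) (ht : 0 < t) :
    ∀ z ∉ {z ∈ D | U D P ε z < t}, ∃ ξ ∈ Kd {z ∈ D | U D P ε z < t}, dot z ξ = 1 := by
  intro z hz
  by_cases hzD : z ∈ D
  · have htz : t ≤ U D P ε z := le_of_not_gt fun h => hz ⟨hzD, h⟩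
    obtain ⟨h, hh⟩ := G.max_exists P hε hzD
    obtain ⟨h1, h2, -⟩ := hh.1.F_spec hzD
    have hζ : F h z ≠ 0 := by
      intro e
      have := cls2_V_le P hε z h
      rw [← hh.U_eq, e, norm_zero] at this
      linarith
    refine ⟨xi h (F h z), fun x hx he => ?_, ?_⟩
    · have e1 : dot x (h (F h z)) = F h z := by
        rw [xi, dot_smul_right, inv_mul_eq_one₀ hζ] at he
        exact he.symm
      have e2 := hh.1.F_unique hx.1 h1 e1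
      obtain ⟨h', hh'⟩ := G.max_exists P hε hx.1
      have e3 := hh'.2 h hh.1
      have e4 : V P ε x h = V P ε z h := by unfold V; rw [e2]
      rw [← hh'.U_eq, e4, ← hh.U_eq] at e3
      linarith [hx.2]
    · rw [xi, dot_smul_right, h2, inv_mul_cancel₀ hζ]
  · obtain ⟨ξ, hξ, he⟩ := G.lc z hzD
    exact ⟨ξ, fun x hx => hξ x hx.1, he⟩

/-- in a small ball tangent to the hyperplane the linear term beats the quadratic one -/
theorem level2_ball {g v : E n} {C c R : ℝ} (hc : 0 < c) (hg : c ≤ ‖g‖) (hR : 0 < R)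
    (hR2 : 2 * C * R ≤ c) (hv : ‖v + R • ((‖g‖⁻¹ : ℝ) • cj g)‖ < R) :
    ‖v‖ < 2 * R ∧ (dot g v).re + C * ‖v‖ ^ 2 < 0 := by
  have hg0 : 0 < ‖g‖ := hc.trans_le hg
  have hν : ‖R • ((‖g‖⁻¹ : ℝ) • cj g)‖ = R := by
    rw [norm_smul, norm_smul, norm_cj, Real.norm_of_nonneg hR.le, norm_inv, norm_norm,
      inv_mul_cancel₀ hg0.ne', mul_one]
  constructor
  · have := norm_sub_le (v + R • ((‖g‖⁻¹ : ℝ) • cj g)) (R • ((‖g‖⁻¹ : ℝ) • cj g))
    rw [add_sub_cancel_right, hν] at this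
    linarith
  · have h1 := norm_add_sq (𝕜 := ℂ) (R • ((‖g‖⁻¹ : ℝ) • cj g)) v
    rw [hν, ← dot_cj_left, cj_rsmul, cj_rsmul, cj_cj, dot_rsmul_left, dot_rsmul_left,
      add_comm _ v] at h1
    have h2 : RCLike.re ((R : ℂ) * (((‖g‖⁻¹ : ℝ) : ℂ) * dot g v)) = R * (‖g‖⁻¹ * (dot g v).re) := by
      rw [RCLike.re_to_complex, re_ofReal_mul, re_ofReal_mul]
    rw [h2] at h1
    have h3 : ‖v + R • ((‖g‖⁻¹ : ℝ) • cj g)‖ ^ 2 < R ^ 2 :=
      pow_lt_pow_left₀ hv (norm_nonneg _) two_ne_zero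
    have h4 : 2 * (R * (‖g‖⁻¹ * (dot g v).re)) + ‖v‖ ^ 2 < 0 := by linarith
    have h5 : 2 * R * (dot g v).re + ‖g‖ * ‖v‖ ^ 2 < 0 := by
      have := mul_neg_of_pos_of_neg hg0 h4
      have e : ‖g‖ * (2 * (R * (‖g‖⁻¹ * (dot g v).re)) + ‖v‖ ^ 2) =
          2 * R * (dot g v).re + ‖g‖ * ‖v‖ ^ 2 := by field_simp
      linarith
    have h6 : 2 * C * R * ‖v‖ ^ 2 ≤ ‖g‖ * ‖v‖ ^ 2 :=
      mul_le_mul_of_nonneg_right (hR2.trans hg) (sq_nonneg _)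
    have h7 : (2 * R) * ((dot g v).re + C * ‖v‖ ^ 2) < 0 := by linarith
    exact neg_of_mul_neg_right h7 (by positivity)

/-- the data on a shell of the value function -/
theorem level2_shell (G : Geo D Φ) (R : Rad) {t : ℝ} (h1 : R.σ1 < t) (h2 : t < R.σ2) :
    ∃ P : Par, ∃ ε > (0 : ℝ), ∃ δ₀ > 0, ∃ a > (0 : ℝ), (∀ z ∈ D, U D P ε z ≤ U0 D z) ∧
      (∀ z ∈ D, U D P ε z < R.σ1 → U0 D z < t) ∧ (∀ z ∈ D, U D P ε z ≤ t → δ₀ ≤ dep D z) ∧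
      ∀ p ∈ D, R.σ1 ≤ U D P ε p → U D P ε p ≤ t → ∃ ν : E n, ‖ν‖ = 1 ∧
        (∀ z ∈ ball (p - a • ν) a, z ∈ D ∧ U D P ε z < U D P ε p) ∧
        ∀ z ∈ ball (p + a • ν) a, U D P ε p < U D P ε z := by
  have hσ1 : 0 < R.σ1 := by
    have := R.h1; have := R.h2; have := R.h3; have := R.h4; have := R.h5
    nlinarith [sq_nonneg R.r]
  have hρ1 : R.ρ1 < 1 := R.h8.trans R.h9
  obtain ⟨P, ε₀, hε₀, C₂, hC₂, hQ, hgr⟩ := G.growth_all R
  obtain ⟨B, -, -, hB⟩ := G.U_compare P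
  obtain ⟨δ₀, hδ₀, hdep⟩ := G.U0_proper (R.h7.trans hρ1)
  have key : ∀ x y : ℝ, x < y → ∀ᶠ ε in 𝓝[>] (0 : ℝ), x * Real.exp (ε * B) < y := by
    intro x y hxy
    have hc : ContinuousAt (fun ε : ℝ => x * Real.exp (ε * B)) 0 := by fun_prop
    exact (hc.tendsto.eventually (gt_mem_nhds (by simpa using hxy))).filter_mono nhdsWithin_le_nhds
  obtain ⟨ε, e1, e2, e3⟩ := ((key _ _ h1).and ((key _ _ h2).and (Ioc_mem_nhdsGT hε₀))).exists
  have hε : 0 < ε := e3.1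
  have hup : ∀ z ∈ D, U0 D z ≤ U D P ε z * Real.exp (ε * B) := fun z hz => by
    have := mul_le_mul_of_nonneg_right (hB ε hε.le z hz).1 (Real.exp_pos (ε * B)).le
    rwa [mul_assoc, ← Real.exp_add, neg_add_cancel, Real.exp_zero, mul_one] at this
  have hhi : ∀ z ∈ D, U D P ε z ≤ t → U0 D z ≤ R.σ2 := fun z hz h =>
    (hup z hz).trans ((mul_le_mul_of_nonneg_right h (Real.exp_pos _).le).trans e2.le)
  obtain ⟨C, hC, c, hc, δ, hδ, H⟩ := G.c11 hε hC₂ hσ1 R.h7 hρ1 hδ₀ hQ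
  have ha : 0 < min (δ / 2) (c / (2 * C)) := lt_min (by positivity) (by positivity)
  have ha1 : 2 * min (δ / 2) (c / (2 * C)) ≤ δ := by linarith [min_le_left (δ / 2) (c / (2 * C))]
  have ha2 : 2 * C * min (δ / 2) (c / (2 * C)) ≤ c := by
    rw [mul_comm]
    exact (le_div_iff₀ (by positivity)).1 (min_le_right _ _)
  refine ⟨P, ε, hε, δ₀, hδ₀, _, ha, fun z hz => (hB ε hε.le z hz).2, fun z hz h => ?_,
    fun z hz h => hdep z hz (hhi z hz h), fun p hp hlo hhi' => ?_⟩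
  · exact (hup z hz).trans_lt ((mul_le_mul_of_nonneg_right h.le (Real.exp_pos _).le).trans_lt e1)
  obtain ⟨h, hh⟩ := G.max_exists P hε.le hp
  have f1 : R.σ1 ≤ ‖F h p‖ := hlo.trans (hh.U_eq.trans_le (cls2_V_le P hε.le p h))
  have f2 : ‖F h p‖ ≤ R.σ2 := (G.le_U0 hh.1 hp).trans (hhi p hp hhi')
  obtain ⟨g, hg, Hg⟩ := H p h (hdep p hp (hhi p hp hhi')) hh f1 f2
    (hgr ε ⟨hε.le, e3.2⟩ p hp h hh f1 f2)
  have hg0 : 0 < ‖g‖ := hc.trans_le hg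
  have hp0 : 0 < U D P ε p := hσ1.trans_le hlo
  refine ⟨(‖g‖⁻¹ : ℝ) • cj g, ?_, fun z hz => ?_, fun z hz => ?_⟩
  · rw [norm_smul, norm_cj, norm_inv, norm_norm, inv_mul_cancel₀ hg0.ne']
  · rw [mem_ball_iff_norm, sub_sub_eq_add_sub, add_sub_right_comm] at hz
    obtain ⟨k1, k2⟩ := level2_ball hc hg ha ha2 hz
    obtain ⟨k3, k4, k5⟩ := Hg z (mem_ball_iff_norm.2 (k1.trans_le ha1))
    exact ⟨k3, (Real.log_lt_log_iff k4 hp0).1 (by linarith [(abs_le.1 k5).2])⟩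
  · rw [mem_ball_iff_norm', add_sub_right_comm] at hz
    obtain ⟨k1, k2⟩ := level2_ball hc hg ha ha2 hz
    obtain ⟨-, k4, k5⟩ := Hg z (mem_ball_iff_norm'.2 (k1.trans_le ha1))
    rw [← neg_sub z p, dot_neg_right, neg_re, norm_neg] at k2
    exact (Real.log_lt_log_iff hp0 k4).1 (by linarith [(abs_le.1 k5).1])

/-- radii above a given level -/
theorem level2_rad {σ : ℝ} (hσ : σ < 1) : ∃ R : Rad, σ < R.σ1 ∧ R.σ1 < R.σ2 := by
  obtain ⟨r, hr1, hr2⟩ := exists_between (max_lt hσ (one_pos : (0 : ℝ) < 1))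
  have hr0 : 0 < r := (le_max_right _ _).trans_lt hr1
  have hσr : σ < r := (le_max_left _ _).trans_lt hr1
  have hm : max σ (r ^ 2) < r := max_lt hσr (by nlinarith)
  have m1 := le_max_left σ (r ^ 2)
  have m2 := le_max_right σ (r ^ 2)
  generalize max σ (r ^ 2) = m at hm m1 m2
  refine ⟨⟨m + (r - m) / 8, m + 2 * (r - m) / 8, m + 3 * (r - m) / 8, m + 4 * (r - m) / 8,
    m + 5 * (r - m) / 8, m + 6 * (r - m) / 8, m + 7 * (r - m) / 8, r, hr0, ?_, ?_, ?_, ?_, ?_, ?_,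
    ?_, ?_, hr2⟩, ?_, ?_⟩
  all_goals linarith

theorem level2_sup (G : Pre D) {X : Set (E n)} (hX : IsCompact X) (hXD : X ⊆ D) :
    ∃ σ < (1 : ℝ), ∀ x ∈ X, U0 D x ≤ σ := by
  rcases X.eq_empty_or_nonempty with rfl | hne
  · exact ⟨0, one_pos, fun x hx => absurd hx (notMem_empty x)⟩
  have hc := G.U_cont ⟨0, 1 / 3, 1 / 2, le_rfl, by norm_num, by norm_num, by norm_num⟩ le_rfl
  obtain ⟨x, hx, hm⟩ := hX.exists_isMaxOn hne
    ((hc.congr fun z _ => (U_zero D _ z).symm).mono hXD)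
  exact ⟨_, G.U0_lt_one (hXD hx), fun y hy => hm hy⟩

theorem Geo.inner (G : Geo D Φ) {X : Set (E n)} (hX : IsCompact X) (hXD : X ⊆ D) :
    ∃ G' : Set (E n), Nice G' ∧ X ⊆ G' ∧ closure G' ⊆ D := by
  obtain ⟨σ, hσ, hXσ⟩ := level2_sup G.toPre hX hXD
  obtain ⟨R, hR1, hR2⟩ := level2_rad hσ
  obtain ⟨t, ht1, ht2⟩ := exists_between hR2
  have ht : 0 < t := by
    have := R.h1; have := R.h2; have := R.h3; have := R.h4; have := R.h5
    nlinarith [sq_nonneg R.r]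
  obtain ⟨P, ε, hε, δ₀, hδ₀, a, ha, hle, hlo, hdep, H⟩ := level2_shell G R ht1 ht2
  obtain ⟨hK, hKD⟩ := isCompact_deep G.bdd G.ne_univ hδ₀
  have hc := G.U_cont P hε.le
  have hsub : {z ∈ D | U D P ε z < t} ⊆ {z | δ₀ ≤ dep D z} := fun z hz => hdep z hz.1 hz.2.le
  have hcl : closure {z ∈ D | U D P ε z < t} ⊆ D := (closure_minimal hsub hK.isClosed).trans hKD
  have hop : IsOpen {z ∈ D | U D P ε z < t} := hc.isOpen_inter_preimage G.isOpen isOpen_Iio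
  refine ⟨{z ∈ D | U D P ε z < t}, ⟨hop, ?_, G.bdd.subset fun z hz => hz.1, ⟨G.zero, ?_⟩,
    fun e => G.ne_univ (univ_subset_iff.1 fun z hz => (e.symm.subset hz).1),
    G.sublevel_lc P hε.le ht, a, ha, fun q hq => ?_⟩,
    fun x hx => ⟨hXD hx, by linarith [hle x (hXD hx), hXσ x hx]⟩, hcl⟩
  · refine conn_sublevel G.isOpen hc hK hKD hsub (G.U0_conn ht)
      (fun z hz => ⟨hz.1, (hle z hz.1).trans_lt hz.2⟩) fun z hz hzt hmin => ⟨hz, hlo z hz ?_⟩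
    by_contra hn
    obtain ⟨ν, hν, H1, -⟩ := H z hz (not_lt.1 hn) hzt.le
    have hz1 : z ∈ closure (ball (z - a • ν) a) := by
      rw [closure_ball _ ha.ne', mem_closedBall_iff_norm, sub_sub_cancel, norm_smul, hν, mul_one,
        Real.norm_of_nonneg ha.le]
    obtain ⟨y, hy1, hy2⟩ := ((mem_closure_iff_frequently.1 hz1).and_eventually hmin).exists
    exact absurd (H1 y hy1).2 (not_lt.2 hy2)
  · obtain ⟨h, hh⟩ := G.max_exists P hε.le G.zero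
    have := cls2_V_le P hε.le 0 h
    rw [← hh.U_eq, hh.1.F_zero G.zero, norm_zero] at this
    exact this.trans_lt ht
  · rw [hop.frontier_eq] at hq
    have hqD := hcl hq.1
    have q1 : t ≤ U D P ε q := le_of_not_gt fun h => hq.2 ⟨hqD, h⟩
    have q2 : U D P ε q ≤ t := ContinuousWithinAt.closure_le hq.1
      ((hc q hqD).mono fun z hz => hz.1) continuousWithinAt_const fun z hz => hz.2.le
    obtain ⟨ν, hν, H1, H2⟩ := H q hqD (ht1.le.trans q1) q2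
    exact ⟨ν, hν, fun z hz => ⟨(H1 z hz).1, (H1 z hz).2.trans_le q2⟩,
      disjoint_left.2 fun z hz hz' => absurd hz'.2 (not_lt.2 (q1.trans (H2 z hz).le))⟩

end Pool.Agent.MP_4baaa2_an.H94

/-!
Domains with the geometric interface are approximable.
-/

namespace Pool.Agent.MP_4baaa2_an.H94

open Set Metric Filter Topology Complex
open scoped ComplexConjugate
open Pool.Agent.Lib.PlaneTop

variable {n : ℕ}

theorem Geo.step {D : Set (E n)} {Φ : E n → E n → ℂ} (G : Geo D Φ) {X : Set (E n)}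
    (hX : IsCompact X) (hXD : X ⊆ D) :
    ∃ Ψ : E n → ℝ, SmoothLC Ψ ∧ X ⊆ {z | Ψ z < 0} ∧ closure {z | Ψ z < 0} ⊆ D := by
  obtain ⟨G', hN, h1, h2⟩ := G.inner hX hXD
  obtain ⟨Ψ, hΨ, h3, h4⟩ := hN.smooth hX h1
  exact ⟨Ψ, hΨ, h3, h4.trans (subset_closure.trans h2)⟩

theorem Pre.approx {D : Set (E n)} (G : Pre D) (step : ∀ {X : Set (E n)}, IsCompact X → X ⊆ D →
    ∃ Ψ : E n → ℝ, SmoothLC Ψ ∧ X ⊆ {z | Ψ z < 0} ∧ closure {z | Ψ z < 0} ⊆ D) :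
    Approximable D := by
  have hK : ∀ j : ℕ, IsCompact {z | 1 / ((j : ℝ) + 1) ≤ dep D z} ∧
      {z | 1 / ((j : ℝ) + 1) ≤ dep D z} ⊆ D := fun j =>
    isCompact_deep G.bdd G.ne_univ Nat.one_div_pos_of_nat
  let T := {Ψ : E n → ℝ // SmoothLC Ψ ∧ closure {z | Ψ z < 0} ⊆ D}
  have hstep : ∀ (j : ℕ) (x : T), ∃ y : T, closure {z | x.1 z < 0} ⊆ {z | y.1 z < 0} ∧
      {z | 1 / ((j : ℝ) + 1) ≤ dep D z} ⊆ {z | y.1 z < 0} := fun j x => by
    obtain ⟨Ψ, h1, h2, h3⟩ := step ((x.2.1.bdd.isCompact_closure).union (hK j).1)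
      (union_subset x.2.2 (hK j).2)
    exact ⟨⟨Ψ, h1, h3⟩, subset_union_left.trans h2, subset_union_right.trans h2⟩
  choose nx hnx using hstep
  obtain ⟨Ψ₀, h1, -, h3⟩ := step isCompact_empty (empty_subset _)
  let s : ℕ → T := fun j => Nat.rec ⟨Ψ₀, h1, h3⟩ (fun j x => nx j x) j
  refine ⟨fun j => (s j).1, fun j => (s j).2.1, fun j => (hnx j (s j)).1, ?_⟩
  refine Subset.antisymm (iUnion_subset fun j => subset_closure.trans (s j).2.2) fun z hz => ?_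
  obtain ⟨j, hj⟩ := exists_nat_one_div_lt ((dep_pos_iff G.isOpen G.ne_univ).2 hz)
  exact mem_iUnion.2 ⟨j + 1, (hnx j (s j)).2 hj.le⟩

end Pool.Agent.MP_4baaa2_an.H94

/-!
The sublevel sets of the value function.
-/

namespace Pool.Agent.MP_4baaa2_an.H94

open Set Metric Filter Topology Complex
open scoped ComplexConjugate
open Pool.Agent.Lib.PlaneTop

variable {n : ℕ} {D : Set (E n)} {q ξ : E n} {r : ℝ}

/-- a differentiable curve of hyperplanes gives an edge with a linear rate -/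
theorem eds_of_curve {γ : ℝ → E n} {g : E n} (hγ : HasDerivAt γ g 0) (h0 : γ 0 = ξ)
    (hK : ∀ θ, γ θ ∈ Kd D) {a : ℝ} {e : ℂ} (he : a * dot q g = e) : EdS D q ξ e := by
  intro η hη
  have hp : 0 < ‖q‖ * |a| + 1 := by positivity
  have ht : Tendsto (fun δ : ℝ => a * δ) (𝓝[>] 0) (𝓝 0) :=
    ((continuous_const.mul continuous_id).tendsto' 0 0 (by simp)).mono_left nhdsWithin_le_nhds
  refine ⟨|a| * (‖g‖ + 1), ?_⟩
  filter_upwards [ht.eventually (hγ.isLittleO.def one_pos),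
    ht.eventually (hγ.isLittleO.def (div_pos hη hp)), self_mem_nhdsWithin] with δ h1 h2 h3
  have h4 : 0 < δ := h3
  rw [h0, sub_zero, Real.norm_eq_abs, abs_mul, abs_of_pos h4] at h1 h2
  refine ⟨γ (a * δ), hK _, ?_, ?_⟩
  · have := norm_add_le (γ (a * δ) - ξ - (a * δ) • g) ((a * δ) • g)
    rw [sub_add_cancel, norm_smul, Real.norm_eq_abs, abs_mul, abs_of_pos h4] at this
    linarith
  · have e1 : dot q (γ (a * δ) - ξ) - δ * e = dot q (γ (a * δ) - ξ - (a * δ) • g) := by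
      rw [dot_sub_right q (γ (a * δ) - ξ), dot_rsmul_right, ← he]
      push_cast
      ring
    rw [e1]
    refine (norm_dot_le _ _).trans ((mul_le_mul_of_nonneg_left h2 (norm_nonneg q)).trans ?_)
    have e2 : ‖q‖ * (η / (‖q‖ * |a| + 1) * (|a| * δ)) =
        δ * η * (‖q‖ * |a| / (‖q‖ * |a| + 1)) := by ring
    rw [e2]
    exact mul_le_of_le_one_right (by positivity) ((div_le_one hp).2 (by linarith))

theorem Pre.xi_mem (G : Pre D) {h : ℂ → E n} (hh : Adm D h) {w : ℂ} (hw : ‖w‖ = r) (h0 : 0 < r)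
    (h1 : r < 1) : xi h w ∈ Kd (Dr D r) := by
  intro z hz he
  have hw0 : w ≠ 0 := norm_pos_iff.1 (hw ▸ h0)
  rw [xi, dot_smul_right, inv_mul_eq_one₀ hw0] at he
  have := G.le_U0 hh hz.1
  rw [hh.F_unique hz.1 (mem_ball_zero_iff.2 (hw ▸ h1)) he.symm, hw] at this
  exact absurd hz.2 (not_lt.2 this)

theorem sub2_tr (G : Gen D) (hq : q ∈ D) (hq0 : q ≠ 0) {a : E n} (ha : a ∈ D)
    (hlt : U0 D a < U0 D q) : ∃ d : ℂ, d • (q - a) ∈ Tg D q :=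
  G.tr hq (G.Sg_convex hq hq0) ha hlt

theorem sub2_tr0 (G : Gen D) (hq : q ∈ D) (hq0 : q ≠ 0) : ∃ v, v ∈ Tg D q :=
  (sub2_tr G hq hq0 G.zero (by rw [G.U0_zero]; exact G.U0_pos hq hq0)).elim fun _ hd => ⟨_, hd⟩

/-- the derivative of the rotated disc of hyperplanes -/
theorem sub2_curve {h : ℂ → E n} {ζ : ℂ} (hd : DifferentiableAt ℂ h ζ) (hζ : ζ ≠ 0) :
    HasDerivAt (fun θ : ℝ => xi h (ζ * exp (θ * I)))
      ((ζ * I) • (ζ⁻¹ • deriv h ζ + (-(ζ ^ 2)⁻¹) • h ζ)) 0 := by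
  have h1 : HasDerivAt (fun θ : ℝ => ζ * exp (θ * I)) (ζ * I) 0 := by
    have := ((Complex.ofRealCLM.hasDerivAt (x := 0)).mul_const I).cexp.const_mul ζ
    simpa using this
  have h2 : HasDerivAt (xi h) (ζ⁻¹ • deriv h ζ + (-(ζ ^ 2)⁻¹) • h ζ) (ζ * exp ((0 : ℝ) * I)) := by
    rw [ofReal_zero, zero_mul, exp_zero, mul_one]
    exact (hasDerivAt_inv hζ).smul hd.hasDerivAt
  exact h2.scomp (0 : ℝ) h1

/-- polar hyperplanes come from a maximiser, and rotating it gives the edges -/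
theorem Gen.ed (G : Gen D) (hq : q ∈ D) (hr : U0 D q = r) (h0 : 0 < r) (h1 : dot q ξ = 1)
    {l e : ℂ} (hl : l ≠ 0) (hle : (l * e).re = 0)
    (hp : ∀ v ∈ Tg D q, (dot (l • ξ) v).re ≤ 0) : EdS (Dr D r) q ξ e := by
  have hq0 : q ≠ 0 := by
    rintro rfl
    simp at h1
  have hξ : ξ ≠ 0 := by
    rintro rfl
    simp at h1
  have hr1 : r < 1 := hr ▸ G.U0_lt_one hq
  obtain ⟨c, -, h, hh, he⟩ := polar_ray (G.Sg_compact hq hq0) (G.Sg_convex hq hq0)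
    (sub2_tr0 G hq hq0) (smul_ne_zero hl hξ) hp (G.Sg_ne hq)
  obtain ⟨s1, s2, s3⟩ := hh.1.F_spec hq
  have hn : ‖F h q‖ = r := hh.2.trans hr
  have hζ : F h q ≠ 0 := norm_pos_iff.1 (hn ▸ h0)
  have hO := s3 _ s1
  rw [sg, cc] at he
  generalize F h q = ζ at *
  have e1 : c * l * O h q ζ ζ = 1 := by
    have := congrArg (dot q) he
    rw [dot_smul_right, dot_rsmul_right, dot_smul_right, s2, h1] at this
    field_simp at this
    linear_combination -this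
  have e2 : xi h ζ = ξ := by
    have := congrArg (fun x => O h q ζ ζ • x) he
    simp only [← Complex.coe_smul, smul_smul] at this
    rw [show O h q ζ ζ * (ζ * O h q ζ ζ)⁻¹ = ζ⁻¹ by field_simp,
      show O h q ζ ζ * (c * l) = 1 by linear_combination e1, one_smul] at this
    exact this
  have e3 : ((c * (l * e) * I).re : ℂ) = c * (l * e) * I := by
    refine Complex.ext (by simp only [ofReal_re]) ?_
    rw [ofReal_im, mul_I_im, re_ofReal_mul, hle, mul_zero]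
  refine eds_of_curve (sub2_curve (hh.1.1.differentiableAt (isOpen_ball.mem_nhds s1)) hζ)
    (by simpa using e2) (fun θ => G.xi_mem hh.1 ?_ h0 hr1) (a := (c * (l * e) * I).re) ?_
  · rw [norm_mul, norm_exp_ofReal_mul_I, mul_one, hn]
  · rw [e3, dot_smul_right, dot_add_right, dot_smul_right, dot_smul_right, s2]
    rw [O_self] at e1
    have e4 : ζ * I * (ζ⁻¹ * dot q (deriv h ζ) + -(ζ ^ 2)⁻¹ * ζ) =
        -I * (1 - dot q (deriv h ζ)) := by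
      field_simp
      ring
    rw [e4]
    linear_combination e * e1 - c * l * e * (1 - dot q (deriv h ζ)) * I_mul_I

theorem Gen.Dr_closure (G : Gen D) (h1 : r < 1) :
    IsCompact (closure (Dr D r)) ∧ closure (Dr D r) ⊆ D := by
  obtain ⟨δ, hδ, H⟩ := G.U0_proper h1
  obtain ⟨hK, hKD⟩ := isCompact_deep G.bdd G.ne_univ hδ
  have hs : closure (Dr D r) ⊆ {z | δ ≤ dep D z} :=
    closure_minimal (fun z hz => H z hz.1 hz.2.le) hK.isClosed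
  exact ⟨hK.of_isClosed_subset isClosed_closure hs, hs.trans hKD⟩

/-- the value function has no local minimum away from the origin -/
theorem sub2_min (G : Gen D) (hq : q ∈ D) (hm : IsLocalMin (U0 D) q) : q = 0 := by
  by_contra hq0
  obtain ⟨v, hv⟩ := sub2_tr0 G hq hq0
  obtain ⟨ρ, hρ, H⟩ := G.danskin hq hq0 hv
  have ht : Tendsto (fun t : ℝ => q + t • v) (𝓝[>] 0) (𝓝 q) :=
    ((continuous_const.add (continuous_id.smul continuous_const)).tendsto' 0 q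
      (by simp)).mono_left nhdsWithin_le_nhds
  obtain ⟨t, h1, h2⟩ := ((ht.eventually hm).and (Ioo_mem_nhdsGT hρ)).exists
  exact absurd (H q (by simpa using hρ) v (by simpa using hρ) t h2).2 (not_lt.2 h1)

/-- the sublevel sets satisfy the hypotheses of the second stage -/
theorem Gen.hyp (G : Gen D) (h0 : 0 < r) (h1 : r < 1) : Hyp (Dr D r) := by
  obtain ⟨hK, hKD⟩ := G.Dr_closure h1
  have hc := G.U0_cont
  have hop : IsOpen (Dr D r) := hc.isOpen_inter_preimage G.isOpen isOpen_Iio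
  have hz : (0 : E n) ∈ Dr D r := ⟨G.zero, by rw [G.U0_zero]; exact h0⟩
  have hle : ∀ y ∈ closure (Dr D r), U0 D y ≤ r := fun y hy =>
    ContinuousWithinAt.closure_le hy ((hc y (hKD hy)).mono fun z hz => hz.1)
      continuousWithinAt_const fun z hz => hz.2.le
  refine ⟨G.two, hop, ⟨⟨0, hz⟩, conn_sublevel G.isOpen hc hK hKD subset_closure
    isPreconnected_singleton (singleton_subset_iff.2 hz) fun z hz _ hm => sub2_min G hz hm⟩,
    G.bdd.subset fun z hz => hz.1, hz, fun z hz' => ?_, fun q hq => ?_⟩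
  · by_cases hzD : z ∈ D
    · have h2 : r ≤ U0 D z := le_of_not_gt fun h => hz' ⟨hzD, h⟩
      obtain ⟨h, hh⟩ := G.mx_exists hzD
      have hζ : F h z ≠ 0 := norm_pos_iff.1 (hh.2 ▸ h0.trans_le h2)
      refine ⟨xi h (F h z), fun y hy => G.xi_mem hh.1 hh.2 (h0.trans_le h2) (G.U0_lt_one hzD) y
        ⟨hy.1, hy.2.trans_le h2⟩, ?_⟩
      rw [xi, dot_smul_right, (hh.1.F_spec hzD).2.1, inv_mul_cancel₀ hζ]
    · obtain ⟨ξ, h2, h3⟩ := G.lc z hzD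
      exact ⟨ξ, fun y hy => h2 y hy.1, h3⟩
  · rw [hop.frontier_eq] at hq
    have hqD := hKD hq.1
    have hr : U0 D q = r := (hle q hq.1).antisymm (le_of_not_gt fun h => hq.2 ⟨hqD, h⟩)
    have hq0 : q ≠ 0 := by
      rintro rfl
      exact hq.2 hz
    refine ⟨Tg D q, hq.1, G.Tg_open hqD hq0, Tg_convex D q, fun v hv c hc => Tg_smul hv hc,
      fun v hv => ?_, fun a ha => sub2_tr G hqD hq0 ha.1 (hr ▸ ha.2),
      fun ξ _ h2 l e hl _ hle hp => G.ed hqD hr h0 h2 hl hle hp⟩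
    obtain ⟨ρ, hρ, H⟩ := G.danskin hqD hq0 hv
    exact ⟨ρ, hρ, fun y hy h2 d h3 t ht =>
      ⟨(H y h2 d h3 t ht).1, (H y h2 d h3 t ht).2.trans_le (hle y hy)⟩⟩

theorem Gen.approx (G : Gen D) : Approximable D := by
  refine G.toPre.approx fun {X} hX hXD => ?_
  obtain ⟨σ, hσ, hs⟩ := level2_sup G.toPre hX hXD
  obtain ⟨r, hr1, hr2⟩ := exists_between (max_lt hσ one_pos)
  obtain ⟨Φ, G'⟩ := (G.hyp ((le_max_right _ _).trans_lt hr1) hr2).geo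
  obtain ⟨Ψ, h1, h2, h3⟩ := G'.step hX fun x hx =>
    ⟨hXD hx, (hs x hx).trans_lt ((le_max_left _ _).trans_lt hr1)⟩
  exact ⟨Ψ, h1, h2, h3.trans fun z hz => hz.1⟩

theorem general (hn : 2 ≤ n) (hopen : IsOpen D) (hconn : IsConnected D)
    (hbdd : Bornology.IsBounded D) (hzero : (0 : E n) ∈ D) (hlc : LinConvex D)
    (hg : ∀ z ∈ frontier D, IsConnected (Gam D z)) : Approximable D :=
  (gen_of hn hopen hconn hbdd hzero hlc hg).approx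

end Pool.Agent.MP_4baaa2_an.H94
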