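import Pool.Agent.MP_4baaa2_an.Mg.H94_Bdy

/-!
Estimates at a Fatou point, first part.
-/

namespace Pool.Agent.MP_4baaa2_an.H94

open Set Metric Filter Topology Complex MeasureTheory
open scoped ComplexConjugate
open Pool.Agent.Lib.PlaneTop

variable {n : ℕ} {D : Set (E n)} {Φ : E n → E n → ℂ}

variable {h : ℂ → E n} {xs : TT → E n} {Lg : E n → ℂ → ℂ} {τ : Ty} {ξ : E n} {e : ℂ} {γ η : ℝ}


theorem pt1_den {a w : ℂ} (ha : ‖a‖ < 1) (hw : ‖w‖ < 1) : 1 - conj a * w ≠ 0 := by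
  intro hc
  have h1 : ‖conj a * w‖ = 1 := by rw [← sub_eq_zero.1 hc, norm_one]
  rw [norm_mul, norm_conj] at h1
  nlinarith [norm_nonneg a, norm_nonneg w]

theorem pt1_split (a w : ℂ) :
    1 - conj a * w = ((1 - ‖w‖ ^ 2 : ℝ) : ℂ) + conj (w - a) * w := by
  rw [ofReal_sub, ofReal_pow, ← conj_mul', map_sub]
  push_cast
  ring

theorem pt1_ev (he : ‖e‖ = 1) (M : ℝ) {d : ℝ} (hd : 0 < d) :
    ∀ᶠ w in 𝓝[Cone M e] e, ‖w‖ < 1 ∧ 1 - ‖w‖ ≤ d :=
  (cone_ev he).2 ⟨d, hd, fun _ hw h1 => ⟨hw.1, h1⟩⟩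

theorem uz_eq (hh : Adm D h) (hL : IsLg D h Lg) {z : E n} (hz : z ∈ D) {w : ℂ} (hw : ‖w‖ < 1)
    (hw0 : w ≠ 0) :
    uz h z w = (w - F h z) * (1 - conj (F h z) * w) / w * exp (gz h Lg z w) := by
  obtain ⟨h1, h2, -⟩ := hh.F_spec hz
  have hne := pt1_den (mem_ball_zero_iff.1 h1) hw
  have e1 := W_eq h z h2 w
  rw [gz, exp_sub, exp_log hne, hL.lge z hz w (mem_ball_zero_iff.2 hw), uz, xi, dot_smul_right]
  generalize 1 - conj (F h z) * w = u at hne ⊢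
  field_simp
  linear_combination e1

theorem uz_diff (hd : DifferentiableOn ℂ h (ball 0 1)) (z : E n) {w : ℂ} (hw : ‖w‖ < 1)
    (hw0 : w ≠ 0) : DifferentiableAt ℂ (uz h z) w := by
  have h1 : DifferentiableAt ℂ h w :=
    hd.differentiableAt (isOpen_ball.mem_nhds (mem_ball_zero_iff.2 hw))
  unfold uz xi
  exact (differentiableAt_const _).sub (diffAt_dot (differentiableAt_const _)
    ((differentiableAt_inv hw0).smul h1))

/-- the logarithmic derivative -/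
theorem uz_deriv (hh : Adm D h) (hL : IsLg D h Lg) {z : E n} (hz : z ∈ D) {w : ℂ} (hw : ‖w‖ < 1)
    (hw0 : w ≠ 0) (hne : w ≠ F h z) : deriv (uz h z) w = uz h z w * ((w - F h z)⁻¹ -
      conj (F h z) / (1 - conj (F h z) * w) - w⁻¹ + deriv (gz h Lg z) w) := by
  obtain ⟨h1, -, -⟩ := hh.F_spec hz
  have hden := pt1_den (mem_ball_zero_iff.1 h1) hw
  have hb : ball (0 : ℂ) 1 ∈ 𝓝 w := isOpen_ball.mem_nhds (mem_ball_zero_iff.2 hw)
  have hg : HasDerivAt (gz h Lg z) (deriv (gz h Lg z) w) w :=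
    ((gz_diff hh hL hz).differentiableAt hb).hasDerivAt
  have hev : uz h z =ᶠ[𝓝 w]
      fun x => (x - F h z) * (1 - conj (F h z) * x) / x * exp (gz h Lg z x) := by
    filter_upwards [hb, isOpen_ne.mem_nhds hw0] with x hx hx0
    exact uz_eq hh hL hz (mem_ball_zero_iff.1 hx) hx0
  have d1 : HasDerivAt (fun x : ℂ => x - F h z) 1 w := (hasDerivAt_id w).sub_const _
  have d2 : HasDerivAt (fun x : ℂ => 1 - conj (F h z) * x) (-(conj (F h z) * 1)) w :=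
    ((hasDerivAt_id w).const_mul _).const_sub _
  have d3 := (((d1.fun_mul d2).fun_div (hasDerivAt_id' w) hw0).fun_mul hg.cexp)
  rw [hev.deriv_eq, d3.deriv, uz_eq hh hL hz hw hw0]
  have hne' : w - F h z ≠ 0 := sub_ne_zero.2 hne
  field_simp
  ring

theorem norm_sub_le_den {a w : ℂ} (ha : ‖a‖ < 1) (hw : ‖w‖ < 1) : ‖w - a‖ ≤ ‖1 - conj a * w‖ ∧
    1 - ‖w‖ ≤ ‖1 - conj a * w‖ ∧ ‖1 - conj a * w‖ ≤ 2 * (1 - ‖w‖) + ‖w - a‖ := by
  have h0 := norm_nonneg a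
  have h1 := norm_nonneg w
  refine ⟨?_, ?_, ?_⟩
  · have e : ‖1 - conj a * w‖ ^ 2 - ‖w - a‖ ^ 2 = (1 - ‖a‖ ^ 2) * (1 - ‖w‖ ^ 2) := by
      simp only [← Complex.normSq_eq_norm_sq, normSq_apply, sub_re, sub_im, mul_re, mul_im, one_re,
        one_im, conj_re, conj_im]
      ring
    have h2 : 0 ≤ (1 - ‖a‖ ^ 2) * (1 - ‖w‖ ^ 2) := mul_nonneg (by nlinarith) (by nlinarith)
    exact (pow_le_pow_iff_left₀ (norm_nonneg _) (norm_nonneg _) two_ne_zero).1 (by linarith)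
  · have h2 := norm_sub_norm_le (1 : ℂ) (conj a * w)
    rw [norm_one, norm_mul, norm_conj] at h2
    nlinarith
  · have h2 := norm_add_le (((1 - ‖w‖ ^ 2 : ℝ) : ℂ)) (conj (w - a) * w)
    rw [← pt1_split, norm_mul, norm_conj, Complex.norm_real, Real.norm_of_nonneg (by nlinarith)] at h2
    have h3 := norm_nonneg (w - a)
    nlinarith

/-- Hint: `Ty` is countable (`ae_all_iff`); for `σ` use `fatou_hm` with `B = {t | τ j t ≠ σ}` and
`rate` for `g = gz h Lg z`, `f t = Im Φ z (xs t)` (`IsTy.ph` off `B`, `meas_phase`, `G.Φbdd`; `A` also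
bounds the finitely many `|lo i|, |hi i|`); `1 - ‖w‖² = (1 - ‖w‖) (1 + ‖w‖)` and `‖w‖ → 1`.
`HB.nt` for `h` gives the convergence of `xi h`. -/
theorem Geo.fat (G : Geo D Φ) (B : Bdy D Φ h xs Lg) {A₀ : ℝ} {b₀ : TT → ℝ} {η : ℕ → ℝ}
    {τ : ℕ → TT → Ty} (S : Sel D Φ xs γ A₀ b₀ η τ) (j : ℕ) :
    ∀ᵐ t, Fat D h Lg (τ j t) (xs t) (ec t) := by
  obtain ⟨Rh, -, hRh⟩ := G.hb
  obtain ⟨A₁, hA₁⟩ := G.Φbdd
  have hm : ∀ σ : Ty, MeasurableSet {t | τ j t = σ}ᶜ := fun σ => (S.fib j σ).compl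
  filter_upwards [ae_all_iff.2 fun σ : Ty => fatou_hm (hm σ), (hRh h B.adm).nt B.rl] with t h1 h2
  refine ⟨norm_ec t, fun M ε hε => ?_⟩
  obtain ⟨A, hA⟩ : ∃ A : ℝ, A = |A₁| + |((τ j t).1 : ℝ)| + Real.pi := ⟨_, rfl⟩
  have hpi := Real.pi_pos
  have hA0 : 0 < A := by rw [hA]; positivity
  have h3 := h1 (τ j t) (fun hc => hc rfl) M (ε / (4 * A)) (by positivity)
  have h4 : Tendsto (xi h) (𝓝[Cone M (ec t)] (ec t)) (𝓝 (xs t)) := by
    have i1 : Tendsto (fun w : ℂ => w⁻¹) (𝓝[Cone M (ec t)] (ec t)) (𝓝 (ec t)⁻¹) :=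
      (continuousAt_inv₀ (ec_ne t)).tendsto.mono_left nhdsWithin_le_nhds
    have i2 := i1.smul (h2 M)
    rwa [inv_smul_smul₀ (ec_ne t)] at i2
  filter_upwards [h3, h4.eventually (closedBall_mem_nhds _ hε),
    pt1_ev (norm_ec t) M (lt_min (by positivity : 0 < ε / 4) (by norm_num : (0 : ℝ) < 1 / 2))]
    with w hw1 hw2 hw3
  refine ⟨fun i hi' z hz hzi => ?_, mem_closedBall_iff_norm.1 hw2⟩
  obtain ⟨-, -, n1, -, n2, n3⟩ := (S.ty j t).2.num i hi'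
  have hγ := S.gpos
  have b1 := le_abs_self ((τ j t).1 : ℝ)
  have b2 := neg_abs_le ((τ j t).1 : ℝ)
  have b3 := abs_nonneg A₁
  obtain ⟨r1, r2⟩ := rate (g := gz h Lg z) (f := fun s => (Φ z (xs s)).im) (a := lo i) (b := hi i)
    (A := A) (gz_diff B.adm B.lg hz) (G.meas_phase B.meas B.mem hz) (hm (τ j t))
    (fun s => by
      have := (hA₁ z hz _ (B.mem s)).trans (le_abs_self A₁)
      have := abs_nonneg ((τ j t).1 : ℝ)
      linarith)
    (abs_le.2 ⟨by linarith, by linarith⟩) (abs_le.2 ⟨by linarith, by linarith⟩) n1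
    (fun s hs => by
      have e : τ j s = τ j t := not_not.1 hs
      have := (S.ty j s).2
      rw [e] at this
      exact this.ph i hi' z hz hzi)
    (B.lgi z hz) hw3.1
  rw [le_div_iff₀ (by positivity)] at hw1
  have c0 : 0 ≤ A * H94.hm {s | τ j s = τ j t}ᶜ w := mul_nonneg hA0.le (hm_nonneg _ hw3.1)
  refine ⟨⟨by linarith [r1.1], by linarith [r1.2]⟩, ?_⟩
  have k0 : 0 ≤ (hi i - lo i) / Real.pi := div_nonneg (by linarith) hpi.le
  have k1 : (hi i - lo i) / Real.pi ≤ 2 := by rw [div_le_iff₀ hpi]; linarith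
  rw [mul_div_assoc] at r2
  have d1 := hw3.2.trans (min_le_left _ _)
  have d2 := hw3.2.trans (min_le_right _ _)
  have d3 : 0 < 1 - ‖w‖ := by linarith [hw3.1]
  refine le_of_mul_le_mul_right ?_ (by linarith : 0 < 1 + ‖w‖)
  have e1 : (hi i - lo i) / Real.pi * (1 - ‖w‖) ≤ 2 * (ε / 4) := mul_le_mul k1 d1 d3.le (by norm_num)
  have e2 : ε * (1 - ‖w‖) ≤ ε * (1 / 2) := mul_le_mul_of_nonneg_left d2 hε.le
  nlinarith

/-- off the balls -/
theorem Geo.ua (G : Geo D Φ) (hF : Fat D h Lg τ ξ e) (hT : IsTy D Φ γ η τ ξ) (M : ℝ) :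
    ∀ᶠ w in 𝓝[Cone M e] e, ∀ z ∈ D, (∀ i ∈ τ.2.2, rad i ≤ ‖z - cen n i‖) →
      (τ.2.1 : ℝ) / 2 ≤ ‖uz h z w‖ := by
  obtain ⟨R, hR0, hR⟩ := G.bdd.exists_pos_norm_le
  have hk := hT.kpos
  filter_upwards [hF.2 M ((τ.2.1 : ℝ) / (2 * R)) (by positivity)] with w hw z hz hi'
  have h1 := hT.off z hz hi'
  have h2 : 1 - dot z ξ = uz h z w + dot z (xi h w - ξ) := by
    rw [uz, dot_sub_right]
    ring
  have h3 := norm_add_le (uz h z w) (dot z (xi h w - ξ))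
  have h4 : ‖dot z (xi h w - ξ)‖ ≤ R * ((τ.2.1 : ℝ) / (2 * R)) :=
    (norm_dot_le _ _).trans (mul_le_mul (hR z hz) hw.2 (norm_nonneg _) hR0.le)
  have h5 : R * ((τ.2.1 : ℝ) / (2 * R)) = (τ.2.1 : ℝ) / 2 := by field_simp
  rw [← h2] at h3
  linarith

/-- growth of `exp gz` in a cone. Hint: `cone_ev`, `walk` with `κ = (hi - lo) / π + ε`
(wlog `M ≥ 1`, `cone_mono`); `exp (κ log (d₀ / d)) = (d₀ / d) ^ κ`. -/
theorem Geo.ug (G : Geo D Φ) (B : Bdy D Φ h xs Lg) (hF : Fat D h Lg τ ξ e)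
    (hT : IsTy D Φ γ η τ ξ) (M : ℝ) {ε : ℝ} (hε : 0 < ε) : ∃ C > 0, ∀ᶠ d₀ : ℝ in 𝓝[>] 0,
      ∀ w ∈ Cone M e, 1 - ‖w‖ ≤ d₀ → ∀ i ∈ τ.2.2, ∀ z ∈ D, ‖z - cen n i‖ < 2 * rad i →
        ‖exp (gz h Lg z w)‖ ≤ C * (d₀ / (1 - ‖w‖)) ^ ((hi i - lo i) / Real.pi + ε) *
          ‖exp (gz h Lg z ((1 - d₀ : ℝ) * e))‖ ∧
        ‖exp (gz h Lg z ((1 - d₀ : ℝ) * e))‖ ≤
          C * (d₀ / (1 - ‖w‖)) ^ ((hi i - lo i) / Real.pi + ε) * ‖exp (gz h Lg z w)‖ := by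
  have hpi := Real.pi_pos
  obtain ⟨M', hM1, hM2⟩ : ∃ M' : ℝ, 1 ≤ M' ∧ M ≤ M' := ⟨max 1 M, le_max_left _ _, le_max_right _ _⟩
  obtain ⟨d₁, hd₁, H⟩ := (cone_ev hF.1).1 (hF.2 M' ε hε)
  refine ⟨Real.exp (((Real.pi + η) / Real.pi + ε) * (M' + 1)), Real.exp_pos _, ?_⟩
  have hδ : 0 < min 1 (d₁ / M') := lt_min one_pos (by positivity)
  filter_upwards [Ioo_mem_nhdsGT hδ] with d₀ hd₀ w hw hwd i hi' z hz hzi
  obtain ⟨-, -, n1, n2, -, -⟩ := hT.num i hi'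
  have k0 : 0 ≤ (hi i - lo i) / Real.pi + ε := add_nonneg (div_nonneg (by linarith) hpi.le) hε.le
  have k1 : (hi i - lo i) / Real.pi + ε ≤ (Real.pi + η) / Real.pi + ε := by
    gcongr
    linarith
  have h1 : M' * d₀ ≤ d₁ := by
    have := (hd₀.2.trans_le (min_le_right _ _)).le
    rw [le_div_iff₀ (by linarith)] at this
    linarith
  have h2 := walk (gz_diff B.adm B.lg hz) hF.1 hM1 k0 (hd₀.2.trans_le (min_le_left _ _)) h1
    (fun x hx hxd => ((H x hx hxd).1 i hi' z hz hzi).2) (cone_mono hM2 e hw) hwd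
  have d3 : 0 < 1 - ‖w‖ := by linarith [hw.1]
  have h3 : ∀ u v : ℂ, ‖u - v‖ ≤ ((hi i - lo i) / Real.pi + ε) * (M' + 1) +
      ((hi i - lo i) / Real.pi + ε) * Real.log (d₀ / (1 - ‖w‖)) →
      ‖exp u‖ ≤ Real.exp (((Real.pi + η) / Real.pi + ε) * (M' + 1)) *
        (d₀ / (1 - ‖w‖)) ^ ((hi i - lo i) / Real.pi + ε) * ‖exp v‖ := by
    intro u v huv
    rw [Real.rpow_def_of_pos (div_pos hd₀.1 d3), norm_exp, norm_exp, ← Real.exp_add,
      ← Real.exp_add, Real.exp_le_exp]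
    have a1 := (re_le_norm (u - v)).trans huv
    rw [sub_re] at a1
    have a2 := mul_le_mul_of_nonneg_right k1 (by linarith : 0 ≤ M' + 1)
    linarith
  exact ⟨h3 _ _ h2, h3 _ _ (by rwa [norm_sub_rev])⟩

/-- near the zero. Hint: `uz_eq`, `ug` with a fixed `d₀`; at `w₀ = (1 - d₀) e` one has
`exp (gz w₀) = O h z a w₀ / (1 - conj a w₀)`, and `O h z a w₀ = (w₀ - ⟨z, h w₀⟩) / (w₀ - a)` (`W_eq`)
is bounded because `‖w₀ - a‖ ≥ d₀ / 2` when `(M + N) (1 - ‖w‖) ≤ d₀ / 2`. -/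
theorem Geo.ub (G : Geo D Φ) (B : Bdy D Φ h xs Lg) (hF : Fat D h Lg τ ξ e)
    (hT : IsTy D Φ γ η τ ξ) (M N : ℝ) {ε : ℝ} (hε : 0 < ε) : ∃ C > 0,
      ∀ᶠ w in 𝓝[Cone M e] e, ∀ i ∈ τ.2.2, ∀ z ∈ D, ‖z - cen n i‖ < 2 * rad i →
        ‖F h z - w‖ ≤ N * (1 - ‖w‖) →
          ‖uz h z w‖ ≤ C * (1 - ‖w‖) ^ (2 - (hi i - lo i) / Real.pi - ε) := by
  have hpi := Real.pi_pos
  obtain ⟨R, hR0, hR⟩ := G.bdd.exists_pos_norm_le
  obtain ⟨C, hC, H⟩ := G.ug B hF hT M hε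
  obtain ⟨d₀, H, hd₀, hd₁⟩ := (H.and (Ioo_mem_nhdsGT (by norm_num : (0 : ℝ) < 1 / 2))).exists
  obtain ⟨w₀, hw₀⟩ : ∃ w₀ : ℂ, w₀ = (1 - d₀ : ℝ) * e := ⟨_, rfl⟩
  simp only [← hw₀] at H
  have n0 : ‖w₀‖ = 1 - d₀ := by
    rw [hw₀, norm_mul, hF.1, mul_one, Complex.norm_real, Real.norm_of_nonneg (by linarith)]
  have n1 : ‖w₀ - e‖ = d₀ := by
    have : w₀ - e = -((d₀ : ℂ) * e) := by
      rw [hw₀]
      push_cast
      ring
    rw [this, norm_neg, norm_mul, hF.1, mul_one, Complex.norm_real, Real.norm_of_nonneg hd₀.le]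
  have n2 : w₀ ≠ 0 := norm_ne_zero_iff.1 (by rw [n0]; linarith)
  have n3 : ‖w₀‖ < 1 := by linarith
  obtain ⟨U, hU⟩ : ∃ U : ℝ, U = (1 + R * ‖xi h w₀‖) / (d₀ / 2 * d₀) := ⟨_, rfl⟩
  have hU0 : 0 < U := by rw [hU]; positivity
  have hN := abs_nonneg N
  have hM := abs_nonneg M
  refine ⟨(|N| + 1) * (2 + |N|) * 2 * (C * U), by positivity, ?_⟩
  filter_upwards [pt1_ev hF.1 M (by positivity : 0 < d₀ / (2 * (|M| + |N| + 1))),
    self_mem_nhdsWithin] with w hw1 hw i hi' z hz hzi hzw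
  obtain ⟨d, hd⟩ : ∃ d : ℝ, d = 1 - ‖w‖ := ⟨_, rfl⟩
  have hw2 := hw.2
  have d3 : 0 < d := by linarith [hw.1]
  have hw3 := hw1.2
  rw [← hd] at hw2 hw3 hzw ⊢
  rw [le_div_iff₀ (by positivity)] at hw3
  have m1 : M * d ≤ |M| * d := mul_le_mul_of_nonneg_right (le_abs_self M) d3.le
  have m2 : N * d ≤ |N| * d := mul_le_mul_of_nonneg_right (le_abs_self N) d3.le
  have m3 := mul_nonneg hM d3.le
  have m4 := mul_nonneg hN d3.le
  have hdd : d ≤ d₀ := by linarith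
  have ha := mem_ball_zero_iff.1 (B.adm.F_spec hz).1
  have hw0 : w ≠ 0 := norm_ne_zero_iff.1 (by linarith)
  have a1 : d₀ / 2 ≤ ‖w₀ - F h z‖ := by
    have t1 := norm_add₃_le (a := w₀ - F h z) (b := F h z - w) (c := w - e)
    rw [show w₀ - F h z + (F h z - w) + (w - e) = w₀ - e by ring, n1] at t1
    linarith
  have a2 : d₀ ≤ ‖1 - conj (F h z) * w₀‖ := by linarith [(norm_sub_le_den ha n3).2.1]
  have a3 : ‖uz h z w₀‖ ≤ 1 + R * ‖xi h w₀‖ := by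
    refine (norm_sub_le _ _).trans ?_
    rw [norm_one]
    exact add_le_add_right ((norm_dot_le _ _).trans
      (mul_le_mul_of_nonneg_right (hR z hz) (norm_nonneg _))) _
  have a4 : ‖exp (gz h Lg z w₀)‖ ≤ U := by
    rw [hU, le_div_iff₀ (by positivity)]
    refine le_trans ?_ a3
    rw [uz_eq B.adm B.lg hz n3 n2, norm_mul, norm_div, norm_mul, mul_comm]
    refine mul_le_mul_of_nonneg_right ?_ (norm_nonneg _)
    rw [le_div_iff₀ (by linarith)]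
    have t1 : d₀ / 2 * d₀ ≤ ‖w₀ - F h z‖ * ‖1 - conj (F h z) * w₀‖ :=
      mul_le_mul a1 a2 hd₀.le (norm_nonneg _)
    have t2 : d₀ / 2 * d₀ * ‖w₀‖ ≤ d₀ / 2 * d₀ * 1 :=
      mul_le_mul_of_nonneg_left n3.le (by positivity)
    linarith
  obtain ⟨-, -, n4, -, -, -⟩ := hT.num i hi'
  obtain ⟨κ, hκ⟩ : ∃ κ : ℝ, κ = (hi i - lo i) / Real.pi + ε := ⟨_, rfl⟩
  have k0 : 0 ≤ κ := hκ ▸ add_nonneg (div_nonneg (by linarith) hpi.le) hε.le
  have a5 := (H w hw (hd ▸ hdd) i hi' z hz hzi).1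
  rw [← hd, ← hκ] at a5
  have a6 : (d₀ / d) ^ κ ≤ d ^ (-κ) := by
    rw [Real.rpow_neg d3.le, ← Real.inv_rpow d3.le, inv_eq_one_div]
    exact Real.rpow_le_rpow (by positivity) (by gcongr; linarith) k0
  have a7 : ‖exp (gz h Lg z w)‖ ≤ C * d ^ (-κ) * U :=
    a5.trans (mul_le_mul (mul_le_mul_of_nonneg_left a6 hC.le) a4 (norm_nonneg _) (by positivity))
  have a8 : ‖w - F h z‖ ≤ (|N| + 1) * d := by
    rw [norm_sub_rev]
    linarith
  have a9 : ‖1 - conj (F h z) * w‖ ≤ (2 + |N|) * d := by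
    have := (norm_sub_le_den ha hw.1).2.2
    rw [norm_sub_rev w, ← hd] at this
    linarith
  have b1 : ‖w - F h z‖ * ‖1 - conj (F h z) * w‖ / ‖w‖ ≤ (|N| + 1) * d * ((2 + |N|) * d) * 2 := by
    rw [div_le_iff₀ (by linarith)]
    have t1 := mul_le_mul a8 a9 (norm_nonneg _) (by positivity)
    have t2 : (|N| + 1) * d * ((2 + |N|) * d) * 1 ≤ (|N| + 1) * d * ((2 + |N|) * d) * (2 * ‖w‖) :=
      mul_le_mul_of_nonneg_left (by linarith) (by positivity)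
    linarith
  have b2 : d ^ (2 - (hi i - lo i) / Real.pi - ε) = d * d * d ^ (-κ) := by
    rw [show 2 - (hi i - lo i) / Real.pi - ε = 1 + 1 + -κ by rw [hκ]; ring, Real.rpow_add d3,
      Real.rpow_add d3, Real.rpow_one]
  rw [uz_eq B.adm B.lg hz hw.1 hw0, norm_mul, norm_div, norm_mul, b2]
  refine (mul_le_mul b1 a7 (norm_nonneg _) (by positivity)).trans_eq ?_
  ring

/-- far from the zero. Hint: `(w - a) (1 - conj a w) / w = ‖w - a‖² (1 + x)` with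
`x = (w - a) (1 - ‖w‖²) / (w ‖w - a‖²)`, `‖x‖ ≤ 4 / N`; `arg_one_sub`-type bound
`|arg (1 + x)| ≤ 2 ‖x‖` (`Complex.abs_arg_le…` or `‖log (1 + x)‖ ≤ 3/2 ‖x‖`); `uz_deriv`,
`norm_sub_le_den`. -/
theorem Geo.uc (G : Geo D Φ) (B : Bdy D Φ h xs Lg) (hF : Fat D h Lg τ ξ e) (M : ℝ) {ε : ℝ}
    (hε : 0 < ε) : ∃ N > 0, ∀ᶠ w in 𝓝[Cone M e] e, ∀ i ∈ τ.2.2, ∀ z ∈ D,
      ‖z - cen n i‖ < 2 * rad i → N * (1 - ‖w‖) ≤ ‖F h z - w‖ →
        (∃ φ ∈ Icc (lo i - ε) (hi i + ε), ∃ x : ℝ, 0 < x ∧ uz h z w = x * exp (φ * I)) ∧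
        ‖deriv (uz h z) w‖ * (1 - ‖w‖) ≤ ((hi i - lo i) / Real.pi + ε) * ‖uz h z w‖ := by
  obtain ⟨N, hN⟩ : ∃ N : ℝ, N = 12 / ε + 8 := ⟨_, rfl⟩
  have hN0 : 0 < 12 / ε := by positivity
  have hN1 : 0 < N := by linarith
  have hN2 : 1 / N ≤ 1 / 8 := one_div_le_one_div_of_le (by norm_num) (by linarith)
  have hN3 : 1 / N ≤ ε / 12 := by
    rw [← one_div_div 12 ε]
    exact one_div_le_one_div_of_le hN0 (by linarith)
  refine ⟨N, hN1, ?_⟩
  filter_upwards [hF.2 M (ε / 4) (by positivity),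
    pt1_ev hF.1 M (lt_min (by positivity : 0 < ε / 8) (by norm_num : (0 : ℝ) < 1 / 2))]
    with w hw1 hw3 i hi' z hz hzi hzw
  obtain ⟨c1, c2⟩ := hw1.1 i hi' z hz hzi
  have d1 := hw3.2.trans (min_le_left _ _)
  have d2 := hw3.2.trans (min_le_right _ _)
  have hw := hw3.1
  have d3 : 0 < 1 - ‖w‖ := by linarith
  have ha := mem_ball_zero_iff.1 (B.adm.F_spec hz).1
  have hwp : 0 < ‖w‖ := by linarith
  have hw0 : w ≠ 0 := norm_pos_iff.1 hwp
  rw [norm_sub_rev] at hzw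
  have hδ : 0 < ‖w - F h z‖ := (mul_pos hN1 d3).trans_le hzw
  have hδ0 : w - F h z ≠ 0 := norm_pos_iff.1 hδ
  have q1 : (1 - ‖w‖) / ‖w - F h z‖ ≤ 1 / N := by
    rw [div_le_div_iff₀ hδ hN1]
    linarith
  constructor
  · obtain ⟨x, hx⟩ : ∃ x : ℂ, x = ((1 - ‖w‖ ^ 2 : ℝ) : ℂ) / (conj (w - F h z) * w) := ⟨_, rfl⟩
    have hc0 : conj (w - F h z) ≠ 0 := (map_ne_zero _).2 hδ0
    have x1 : ‖x‖ ≤ 4 * (1 / N) := by
      refine le_trans ?_ (mul_le_mul_of_nonneg_left q1 (by norm_num))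
      rw [hx, norm_div, norm_mul, norm_conj, Complex.norm_real, Real.norm_of_nonneg (by nlinarith),
        ← mul_div_assoc, div_le_div_iff₀ (by positivity) hδ]
      have t1 : 1 - ‖w‖ ^ 2 ≤ 4 * (1 - ‖w‖) * ‖w‖ := by nlinarith
      have t2 := mul_le_mul_of_nonneg_right t1 hδ.le
      linarith
    have x2 : ‖x‖ ≤ 1 / 2 := by linarith
    have x3 := Complex.norm_log_one_add_half_le_self x2
    have x4 : 1 + x ≠ 0 := by
      intro hc
      have : x = -1 := by linear_combination hc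
      rw [this, norm_neg, norm_one] at x2
      linarith
    have x5 := abs_le.1 ((abs_im_le_norm (log (1 + x))).trans x3)
    refine ⟨(log (1 + x) + gz h Lg z w).im, ?_,
      ‖w - F h z‖ ^ 2 * Real.exp (log (1 + x) + gz h Lg z w).re, by positivity, ?_⟩
    · rw [add_im]
      exact ⟨by linarith [c1.1, x5.1], by linarith [c1.2, x5.2]⟩
    · rw [ofReal_mul, mul_assoc, ofReal_exp, ← exp_add, re_add_im, exp_add, exp_log x4,
        uz_eq B.adm B.lg hz hw hw0, pt1_split, ← mul_assoc, ofReal_pow, ← mul_conj', hx]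
      congr 1
      field_simp
      ring
  · have q2 : ‖w - F h z‖ ≤ ‖1 - conj (F h z) * w‖ := (norm_sub_le_den ha hw).1
    have q3 : ‖(w - F h z)⁻¹‖ * (1 - ‖w‖) ≤ 1 / N := by
      rwa [norm_inv, inv_mul_eq_div]
    have q4 : ‖conj (F h z) / (1 - conj (F h z) * w)‖ * (1 - ‖w‖) ≤ 1 / N := by
      refine le_trans (mul_le_mul_of_nonneg_right ?_ d3.le) q3
      rw [norm_div, norm_conj, norm_inv, inv_eq_one_div]
      exact div_le_div₀ zero_le_one ha.le hδ q2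
    have q5 : ‖w⁻¹‖ * (1 - ‖w‖) ≤ 2 * (ε / 8) := by
      refine mul_le_mul ?_ d1 d3.le (by norm_num)
      rw [norm_inv, inv_le_comm₀ hwp (by norm_num)]
      linarith
    have q6 : ‖(w - F h z)⁻¹ - conj (F h z) / (1 - conj (F h z) * w) - w⁻¹ +
        deriv (gz h Lg z) w‖ ≤ ‖(w - F h z)⁻¹‖ + ‖conj (F h z) / (1 - conj (F h z) * w)‖ + ‖w⁻¹‖ +
          ‖deriv (gz h Lg z) w‖ :=
      (norm_add_le _ _).trans (add_le_add_left ((norm_sub_le _ _).trans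
        (add_le_add_left (norm_sub_le _ _) _)) _)
    have q7 := mul_le_mul_of_nonneg_right q6 d3.le
    rw [uz_deriv B.adm B.lg hz hw hw0 (sub_ne_zero.1 hδ0), norm_mul, mul_assoc, mul_comm]
    refine mul_le_mul_of_nonneg_right ?_ (norm_nonneg _)
    linarith

end Pool.Agent.MP_4baaa2_an.H94

/-!
Estimates at a Fatou point: inactive balls and active points.
-/

namespace Pool.Agent.MP_4baaa2_an.H94

open Set Metric Filter Topology Complex MeasureTheory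
open scoped ComplexConjugate
open Pool.Agent.Lib.PlaneTop

variable {n : ℕ} {D : Set (E n)} {Φ : E n → E n → ℂ}

variable {h : ℂ → E n} {xs : TT → E n} {Lg : E n → ℂ → ℂ} {τ : Ty} {ξ : E n} {e : ℂ} {γ η : ℝ}


theorem pt2_rad (he : ‖e‖ = 1) {d : ℝ} (h0 : 0 ≤ d) (h1 : d ≤ 1) :
    ‖((1 - d : ℝ) : ℂ) * e‖ = 1 - d ∧ ‖((1 - d : ℝ) : ℂ) * e - e‖ = d := by
  constructor
  · rw [norm_mul, he, mul_one, norm_real, Real.norm_of_nonneg (by linarith)]
  · rw [show ((1 - d : ℝ) : ℂ) * e - e = -((d : ℂ) * e) by push_cast; ring, norm_neg, norm_mul, he,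
      mul_one, norm_real, Real.norm_of_nonneg h0]

theorem pt2_deriv (hd : DifferentiableOn ℂ h (ball 0 1)) (z : E n) {w : ℂ} (hw : ‖w‖ < 1)
    (hw0 : w ≠ 0) : deriv (uz h z) w = -dot z (deriv (xi h) w) := by
  have h1 : DifferentiableAt ℂ h w :=
    hd.differentiableAt (isOpen_ball.mem_nhds (mem_ball_zero_iff.2 hw))
  have h2 : DifferentiableAt ℂ (xi h) w :=
    (differentiableAt_inv hw0).smul h1
  have h3 := (hasDerivAt_dot (hasDerivAt_const w z) h2.hasDerivAt).const_sub 1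
  rw [dot_zero_left, zero_add] at h3
  exact h3.deriv

theorem pt2_uz (z : E n) {w : ℂ} (hw0 : w ≠ 0) : uz h z w * w = w - dot z (h w) := by
  rw [uz, xi, dot_smul_right]
  field_simp

theorem pt2_norm (hh : Adm D h) (hL : IsLg D h Lg) {z : E n} (hz : z ∈ D) {w : ℂ} (hw : ‖w‖ < 1)
    (hw0 : w ≠ 0) : ‖uz h z w‖ * ‖w‖ =
      ‖w - F h z‖ * ‖1 - conj (F h z) * w‖ * ‖exp (gz h Lg z w)‖ := by
  have h1 : ‖w‖ ≠ 0 := norm_ne_zero_iff.2 hw0
  rw [uz_eq hh hL hz hw hw0, norm_mul, norm_div, norm_mul]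
  field_simp

/-- a degenerate point is active everywhere. Hint: take `z₁ ∈ D` with `F h z₁` close to `e`
(`onto`), and `z = q + c (z₁ - q) ∈ D` with `‖c‖` small (`G.line`); then
`ω - ⟨z, h ω⟩ = c (ω - ⟨z₁, h ω⟩)`, so `F h z = F h z₁` (`Adm.F_unique`). -/
theorem Geo.act_of_deg (G : Geo D Φ) (B : Bdy D Φ h xs Lg) (he : ‖e‖ = 1) {q : E n}
    (hq : q ∈ closure D) (hd : ∀ ω ∈ ball (0 : ℂ) 1, dot q (h ω) = ω) : ActP D h e q := by
  intro δ hδ
  have hd0 : 0 < min (δ / 2) 1 := lt_min (half_pos hδ) one_pos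
  obtain ⟨h1, h2⟩ := pt2_rad he hd0.le (min_le_right _ _)
  set a : ℂ := ((1 - min (δ / 2) 1 : ℝ) : ℂ) * e with ha
  have ha1 : a ∈ ball (0 : ℂ) 1 := by
    rw [mem_ball_zero_iff, h1]
    linarith
  obtain ⟨z₁, hz₁, hF⟩ : a ∈ F h '' D := B.onto ▸ ha1
  have hn : 0 < ‖z₁ - q‖ + 1 := by positivity
  obtain ⟨c, hc, hz⟩ := G.line q hq z₁ hz₁ (min (1 / 2) (δ / (‖z₁ - q‖ + 1)))
    ⟨lt_min one_half_pos (div_pos hδ hn), (min_le_left _ _).trans_lt one_half_lt_one⟩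
  refine ⟨_, hz, ?_, ?_⟩
  · rw [add_sub_cancel_left, norm_smul, hc]
    have h3 : min (1 / 2) (δ / (‖z₁ - q‖ + 1)) * (‖z₁ - q‖ + 1) ≤ δ :=
      (le_div_iff₀ hn).1 (min_le_right _ _)
    have h4 : 0 < min (1 / 2) (δ / (‖z₁ - q‖ + 1)) := lt_min one_half_pos (div_pos hδ hn)
    nlinarith
  · have h3 := (B.adm.F_spec hz₁).2.1
    rw [hF] at h3
    rw [B.adm.F_unique hz ha1 (by simp [hd a ha1, h3]), h2]
    exact (min_le_left _ _).trans_lt (half_lt_self hδ)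

/-- an inactive ball stays away from `e`. Hint: compactness of the closed ball. -/
theorem inact_far {i : Bl} (hi' : ¬Act D h e i) : ∃ δ > 0, ∀ z ∈ D,
    ‖z - cen n i‖ ≤ 3 / 2 * rad i → δ ≤ ‖F h z - e‖ := by
  have key : ∃ δ > 0, ∀ z ∈ D, z ∈ closedBall (cen n i) (3 / 2 * rad i) → δ ≤ ‖F h z - e‖ := by
    refine (isCompact_closedBall (cen n i) (3 / 2 * rad i)).induction_on
      (p := fun s => ∃ δ > 0, ∀ z ∈ D, z ∈ s → δ ≤ ‖F h z - e‖) ⟨1, one_pos, by simp⟩ ?_ ?_ ?_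
    · rintro s t hst ⟨δ, hδ, H⟩
      exact ⟨δ, hδ, fun z hz hs => H z hz (hst hs)⟩
    · rintro s t ⟨δ, hδ, H⟩ ⟨δ', hδ', H'⟩
      exact ⟨min δ δ', lt_min hδ hδ', fun z hz hs => hs.elim
        (fun hs => (min_le_left _ _).trans (H z hz hs))
        fun hs => (min_le_right _ _).trans (H' z hz hs)⟩
    · intro q hq
      have h1 : ¬ActP D h e q := fun h1 => hi' ⟨q, mem_closedBall_iff_norm.1 hq, h1⟩
      simp only [ActP, not_forall, not_exists, not_and, not_lt] at h1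
      obtain ⟨δ, hδ, H⟩ := h1
      exact ⟨ball q δ, mem_nhdsWithin_of_mem_nhds (ball_mem_nhds q hδ), δ, hδ,
        fun z hz hs => H z hz (mem_ball_iff_norm.1 hs)⟩
  obtain ⟨δ, hδ, H⟩ := key
  exact ⟨δ, hδ, fun z hz hs => H z hz (mem_closedBall_iff_norm.2 hs)⟩

/-- Hint: minimise on the compact set `closure D ∩ closedBall cen rad`. If the minimum is `0` at
`q`, the function `ω ↦ ω - ⟨q, h ω⟩` vanishes at `w₀`; if it vanishes identically (identity theorem)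
use `act_of_deg`; otherwise the zero is isolated and `zero_of_lt` gives, for `z ∈ D` close to `q`, a
zero `F h z` close to `w₀`, against `hδ`. -/
theorem Geo.inact_low (G : Geo D Φ) (B : Bdy D Φ h xs Lg) (he : ‖e‖ = 1) {i : Bl}
    (hr : 0 < rad i) (hi' : ¬Act D h e i) {δ : ℝ}
    (hδ : ∀ z ∈ D, ‖z - cen n i‖ ≤ 3 / 2 * rad i → δ ≤ ‖F h z - e‖) {w₀ : ℂ} (hw : ‖w₀‖ < 1)
    (hw' : ‖w₀ - e‖ < δ) :
    ∃ c > 0, ∀ z ∈ D, ‖z - cen n i‖ ≤ rad i → c ≤ ‖w₀ - dot z (h w₀)‖ := by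
  have hK : IsCompact (closure D ∩ closedBall (cen n i) (rad i)) :=
    (isCompact_closedBall _ _).inter_left isClosed_closure
  have hw1 : w₀ ∈ ball (0 : ℂ) 1 := mem_ball_zero_iff.2 hw
  have hne : ∀ q ∈ closure D ∩ closedBall (cen n i) (rad i), w₀ - dot q (h w₀) ≠ 0 := by
    rintro q ⟨hq, hq'⟩ h0
    rw [mem_closedBall_iff_norm] at hq'
    have hdf : ∀ z : E n, DifferentiableOn ℂ (fun ω => ω - dot z (h ω)) (ball 0 1) := fun z =>
      differentiableOn_id.sub (diffOn_dot (differentiableOn_const z) B.adm.1)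
    have han := (hdf q).analyticOnNhd isOpen_ball
    rcases (han w₀ hw1).eventually_eq_zero_or_eventually_ne_zero with h1 | h1
    · have h2 := han.eqOn_zero_of_preconnected_of_eventuallyEq_zero
        (convex_ball _ _).isPreconnected hw1 h1
      exact hi' ⟨q, by linarith, G.act_of_deg B he hq fun ω hω => (sub_eq_zero.1 (h2 hω)).symm⟩
    · rw [eventually_nhdsWithin_iff, Metric.eventually_nhds_iff] at h1
      obtain ⟨ρ, hρ, h1⟩ := h1
      obtain ⟨r, hr0, hr1, hr2, hr3⟩ : ∃ r > 0, r < ρ ∧ r < 1 - ‖w₀‖ ∧ r < δ - ‖w₀ - e‖ := by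
        have h2 : 0 < min ρ (min (1 - ‖w₀‖) (δ - ‖w₀ - e‖)) :=
          lt_min hρ (lt_min (by linarith) (by linarith))
        obtain ⟨r, h3, h4⟩ := exists_between h2
        simp only [lt_min_iff] at h4
        exact ⟨r, h3, h4⟩
      have hsub : closedBall w₀ r ⊆ ball (0 : ℂ) 1 := fun ω hω => by
        rw [mem_closedBall_iff_norm] at hω
        rw [mem_ball_zero_iff]
        have := norm_le_insert' ω w₀
        linarith
      obtain ⟨m, hm, hmin⟩ : ∃ m > 0, ∀ ω ∈ sphere w₀ r, m ≤ ‖ω - dot q (h ω)‖ := by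
        refine (isCompact_sphere w₀ r).exists_forall_le'
          (((hdf q).continuousOn.mono (sphere_subset_closedBall.trans hsub)).norm) fun ω hω => ?_
        rw [mem_sphere] at hω
        refine norm_pos_iff.2 (h1 (by linarith) fun h2 => ?_)
        rw [mem_singleton_iff.1 h2, dist_self] at hω
        linarith
      obtain ⟨Rh, hRh, hb⟩ := adm_bound G.isOpen G.zero
      obtain ⟨z, hz, hzq⟩ := Metric.mem_closure_iff.1 hq (min (rad i / 2) (m / (2 * Rh)))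
        (lt_min (half_pos hr) (by positivity))
      rw [dist_eq_norm, lt_min_iff, lt_div_iff₀ (by positivity)] at hzq
      have hcl : ∀ ω ∈ ball (0 : ℂ) 1, ‖(ω - dot z (h ω)) - (ω - dot q (h ω))‖ < m / 2 :=
        fun ω hω => by
          rw [show (ω - dot z (h ω)) - (ω - dot q (h ω)) = dot (q - z) (h ω) by simp]
          have h2 := norm_dot_le (q - z) (h ω)
          have h3 := mul_le_mul_of_nonneg_left (hb h B.adm ω hω) (norm_nonneg (q - z))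
          have h4 := (lt_div_iff₀ (by positivity)).1 hzq.2
          linarith
      obtain ⟨ω, hω, hω0⟩ := zero_of_lt (g := fun ω => ω - dot z (h ω)) hr0
        (((hdf z).mono (by rwa [closure_ball _ hr0.ne'])).diffContOnCl) fun ω hω => by
          have h2 := hcl w₀ hw1
          have h3 := hcl ω (hsub (sphere_subset_closedBall hω))
          have h4 := hmin ω hω
          have h5 := norm_le_insert (ω - dot z (h ω)) (ω - dot q (h ω))
          rw [h0, sub_zero] at h2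
          linarith
      have h2 := B.adm.F_unique hz (hsub (ball_subset_closedBall hω)) (sub_eq_zero.1 hω0).symm
      have h3 := hδ z hz (by
        have := norm_sub_le_norm_sub_add_norm_sub z q (cen n i)
        rw [norm_sub_rev z q] at this
        linarith [hzq.1])
      rw [h2] at h3
      rw [mem_ball_iff_norm] at hω
      have := norm_sub_le_norm_sub_add_norm_sub ω w₀ e
      linarith
  obtain ⟨c, hc, H⟩ := hK.exists_forall_le' (f := fun q => ‖w₀ - dot q (h w₀)‖) (a := 0)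
    (by fun_prop) fun q hq => norm_pos_iff.2 (hne q hq)
  exact ⟨c, hc, fun z hz hs => H z ⟨subset_closure hz, mem_closedBall_iff_norm.2 hs⟩⟩

/-- lower bound on an inactive ball. Hint: `uz_eq`, `ug` (second inequality) with `d₀ < δ / 2`,
`inact_low` at `w₀ = (1 - d₀) e`, `norm_sub_le_den`. -/
theorem Geo.ud (G : Geo D Φ) (B : Bdy D Φ h xs Lg) (hF : Fat D h Lg τ ξ e)
    (hT : IsTy D Φ γ η τ ξ) {i : Bl} (hi₁ : i ∈ τ.2.2) (hi' : ¬Act D h e i) (M : ℝ) {ε : ℝ}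
    (hε : 0 < ε) : ∃ c > 0, ∀ᶠ w in 𝓝[Cone M e] e, ∀ z ∈ D, ‖z - cen n i‖ ≤ rad i →
      c * (1 - ‖w‖) ^ ((hi i - lo i) / Real.pi + ε) ≤ ‖uz h z w‖ := by
  have he := hF.1
  have hr := (hT.num i hi₁).1
  obtain ⟨δ, hδ, hfar⟩ := inact_far hi'
  obtain ⟨C, hC, hg⟩ := G.ug B hF hT M hε
  obtain ⟨d₀, hg, hd0, hd1⟩ := (hg.and (Ioo_mem_nhdsGT (lt_min hδ one_pos))).exists
  rw [lt_min_iff] at hd1
  obtain ⟨h1, h2⟩ := pt2_rad he hd0.le hd1.2.le
  set w₀ : ℂ := ((1 - d₀ : ℝ) : ℂ) * e with hw₀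
  have hw1 : ‖w₀‖ < 1 := by linarith
  have hw0 : w₀ ≠ 0 := norm_pos_iff.1 (by linarith [hd1.2])
  obtain ⟨c, hc, hlow⟩ := G.inact_low B he hr hi' hfar hw1 (by linarith [hd1.1])
  set κ := (hi i - lo i) / Real.pi + ε with hκ
  have hp : 0 < d₀ ^ κ := Real.rpow_pos_of_pos hd0 κ
  refine ⟨δ / 2 * (δ / 2) * (c / (4 * C * d₀ ^ κ)), by positivity, ?_⟩
  have e1 : ∀ᶠ w in 𝓝[Cone M e] e, ‖w - e‖ < δ / 2 :=
    mem_nhdsWithin_of_mem_nhds (by
      filter_upwards [ball_mem_nhds e (half_pos hδ)] with w hw using mem_ball_iff_norm.1 hw)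
  have e2 : ∀ᶠ w in 𝓝[Cone M e] e, 1 - ‖w‖ ≤ d₀ := (cone_ev he).2 ⟨d₀, hd0, fun w _ hw => hw⟩
  filter_upwards [e1, e2, self_mem_nhdsWithin] with w hwe hwd hw z hz hzc
  have hwn : w ≠ 0 := norm_pos_iff.1 (by linarith [hd1.2])
  have hd : 0 < 1 - ‖w‖ := sub_pos.2 hw.1
  have ha : ‖F h z‖ < 1 := cls2_F_lt B.adm hz
  have h3 := (hg w hw hwd i hi₁ z hz (by linarith)).2
  have h4 := hlow z hz hzc
  rw [← pt2_uz z hw0, norm_mul, pt2_norm B.adm B.lg hz hw1 hw0] at h4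
  have h5 : ‖w₀ - F h z‖ ≤ 2 := (norm_sub_le _ _).trans (by linarith)
  have h6 : ‖1 - conj (F h z) * w₀‖ ≤ 2 := by
    refine (norm_sub_le _ _).trans ?_
    rw [norm_one, norm_mul, Complex.norm_conj]
    nlinarith [norm_nonneg (F h z), norm_nonneg w₀]
  have h7 : c ≤ 2 * 2 * ‖exp (gz h Lg z w₀)‖ := h4.trans (by gcongr)
  have h8 : δ / 2 ≤ ‖w - F h z‖ := by
    have h9 := hfar z hz (by linarith)
    have h10 := norm_sub_le_norm_sub_add_norm_sub (F h z) w e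
    rw [norm_sub_rev (F h z) w] at h10
    linarith
  have h9 := h8.trans (norm_sub_le_den ha hw.1).1
  have hq : 0 < (1 - ‖w‖) ^ κ := Real.rpow_pos_of_pos hd κ
  have h10 : c / (4 * C * d₀ ^ κ) * (1 - ‖w‖) ^ κ ≤ ‖exp (gz h Lg z w)‖ := by
    rw [Real.div_rpow hd0.le hd.le, mul_div_assoc', div_mul_eq_mul_div, le_div_iff₀ hq] at h3
    rw [div_mul_eq_mul_div, div_le_iff₀ (by positivity)]
    nlinarith
  calc δ / 2 * (δ / 2) * (c / (4 * C * d₀ ^ κ)) * (1 - ‖w‖) ^ κ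
      = δ / 2 * (δ / 2) * (c / (4 * C * d₀ ^ κ) * (1 - ‖w‖) ^ κ) := by ring
    _ ≤ ‖w - F h z‖ * ‖1 - conj (F h z) * w‖ * ‖exp (gz h Lg z w)‖ := by gcongr
    _ = ‖uz h z w‖ * ‖w‖ := (pt2_norm B.adm B.lg hz hw.1 hwn).symm
    _ ≤ ‖uz h z w‖ := mul_le_of_le_one_right (norm_nonneg _) hw.1.le

/-- the active point. Hint: fix `w`, `d = 1 - ‖w‖`. For `z → q`, `F h z → e`: `ub` with
`N = |M| + 1`, and `uz_deriv` with `‖w - F h z‖ ≥ d / 2`, `norm_sub_le_den`, `Ctl` give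
`‖deriv (uz h z) w‖ d ≤ C ‖uz h z w‖`. Both `uz h z w` and
`deriv (uz h z) w = - ⟨z, deriv (xi h) w⟩` are continuous in `z`. -/
theorem Geo.ue (G : Geo D Φ) (B : Bdy D Φ h xs Lg) (hF : Fat D h Lg τ ξ e)
    (hT : IsTy D Φ γ η τ ξ) {i : Bl} (hi₁ : i ∈ τ.2.2) {q : E n}
    (hq : ‖q - cen n i‖ ≤ 3 / 2 * rad i) (hq' : ActP D h e q) (M : ℝ) {ε : ℝ} (hε : 0 < ε) :
    ∃ C > 0, ∀ᶠ w in 𝓝[Cone M e] e,
      ‖uz h q w‖ ≤ C * (1 - ‖w‖) ^ (2 - (hi i - lo i) / Real.pi - ε) ∧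
      ‖deriv (uz h q) w‖ * (1 - ‖w‖) ≤ C * (1 - ‖w‖) ^ (2 - (hi i - lo i) / Real.pi - ε) := by
  have he := hF.1
  have hr := (hT.num i hi₁).1
  have hκ : 0 ≤ (hi i - lo i) / Real.pi :=
    div_nonneg (sub_nonneg.2 (hT.num i hi₁).2.2.1) Real.pi_pos.le
  obtain ⟨C, hC, hb⟩ := G.ub B hF hT M (|M| + 1) hε
  refine ⟨((hi i - lo i) / Real.pi + 5) * C, by positivity, ?_⟩
  have e2 : ∀ᶠ w in 𝓝[Cone M e] e, 1 - ‖w‖ ≤ 1 / 2 :=
    (cone_ev he).2 ⟨1 / 2, one_half_pos, fun w _ hw => hw⟩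
  filter_upwards [hb, hF.2 M 1 one_pos, e2, self_mem_nhdsWithin] with w hb hc hwd hw
  set κ := (hi i - lo i) / Real.pi with hκ'
  set X := (1 - ‖w‖) ^ (2 - κ - ε) with hX
  have hd : 0 < 1 - ‖w‖ := sub_pos.2 hw.1
  have hX0 : 0 < X := Real.rpow_pos_of_pos hd _
  have hwn : w ≠ 0 := norm_pos_iff.1 (by linarith)
  have hcl : IsClosed {z : E n | ‖1 - dot z (xi h w)‖ ≤ (κ + 5) * C * X ∧
      ‖-dot z (deriv (xi h) w)‖ * (1 - ‖w‖) ≤ (κ + 5) * C * X} :=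
    IsClosed.and (isClosed_le (by fun_prop) continuous_const)
      (isClosed_le (by fun_prop) continuous_const)
  rw [pt2_deriv B.adm.1 q hw.1 hwn]
  refine hcl.closure_subset (Metric.mem_closure_iff.2 fun ρ hρ => ?_)
  obtain ⟨z, hz, hzq, hze⟩ := hq' (min ρ (min (rad i / 2) ((1 - ‖w‖) / 2)))
    (lt_min hρ (lt_min (half_pos hr) (half_pos hd)))
  simp only [lt_min_iff] at hzq hze
  refine ⟨z, ?_, by rw [dist_comm, dist_eq_norm]; exact hzq.1⟩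
  have hzc : ‖z - cen n i‖ < 2 * rad i := by
    have := norm_sub_le_norm_sub_add_norm_sub z q (cen n i)
    linarith [hzq.2.1]
  have ha : ‖F h z‖ < 1 := cls2_F_lt B.adm hz
  have h1 : ‖uz h z w‖ ≤ C * X := hb i hi₁ z hz hzc (by
    have h2 := norm_sub_le_norm_sub_add_norm_sub (F h z) e w
    rw [norm_sub_rev e w] at h2
    have h3 := mul_le_mul_of_nonneg_right (le_abs_self M) hd.le
    linarith [hw.2, hze.2.2])
  have h2 : (1 - ‖w‖) / 2 ≤ ‖w - F h z‖ := by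
    have h3 := norm_le_insert (F h z) e
    have h4 := norm_le_insert w (F h z)
    linarith [hze.2.2]
  have hne : w ≠ F h z := sub_ne_zero.1 (norm_pos_iff.1 (by linarith))
  have h3 : ‖(w - F h z)⁻¹‖ * (1 - ‖w‖) ≤ 2 := by
    rw [norm_inv, inv_mul_le_iff₀ (by linarith)]
    linarith
  have h4 : ‖conj (F h z) / (1 - conj (F h z) * w)‖ * (1 - ‖w‖) ≤ 1 := by
    have h5 := (norm_sub_le_den ha hw.1).2.1
    rw [norm_div, Complex.norm_conj, div_mul_eq_mul_div, div_le_one (by linarith)]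
    nlinarith
  have h5 : ‖w⁻¹‖ * (1 - ‖w‖) ≤ 1 := by
    rw [norm_inv, inv_mul_le_iff₀ (by linarith)]
    linarith
  have h6 := (hc.1 i hi₁ z hz hzc).2
  have h7 : ‖(w - F h z)⁻¹ - conj (F h z) / (1 - conj (F h z) * w) - w⁻¹ +
      deriv (gz h Lg z) w‖ * (1 - ‖w‖) ≤ κ + 5 := by
    have h8 : ‖(w - F h z)⁻¹ - conj (F h z) / (1 - conj (F h z) * w) - w⁻¹ +
        deriv (gz h Lg z) w‖ ≤ ‖(w - F h z)⁻¹‖ + ‖conj (F h z) / (1 - conj (F h z) * w)‖ +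
          ‖w⁻¹‖ + ‖deriv (gz h Lg z) w‖ :=
      (norm_add_le _ _).trans (add_le_add_left ((norm_sub_le _ _).trans
        (add_le_add_left (norm_sub_le _ _) _)) _)
    have h9 := mul_le_mul_of_nonneg_right h8 hd.le
    linarith
  constructor
  · refine h1.trans ?_
    have : 0 < C * X := by positivity
    nlinarith
  · rw [← pt2_deriv B.adm.1 z hw.1 hwn, uz_deriv B.adm B.lg hz hw.1 hwn hne, norm_mul, mul_assoc,
      mul_assoc, mul_comm (κ + 5)]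
    exact mul_le_mul h1 h7 (by positivity) (by positivity)

end Pool.Agent.MP_4baaa2_an.H94

/-!
An active ball which is not flat improves all upper bounds.
-/

namespace Pool.Agent.MP_4baaa2_an.H94

open Set Metric Filter Topology Complex MeasureTheory
open scoped ComplexConjugate
open Pool.Agent.Lib.PlaneTop

variable {n : ℕ} {D : Set (E n)} {Φ : E n → E n → ℂ}

variable {h : ℂ → E n} {xs : TT → E n} {Lg : E n → ℂ → ℂ} {τ : Ty} {ξ : E n} {e : ℂ} {γ η : ℝ}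


/-- the elementary factor at a point much deeper than the zero. Hint: with `a = e + x`,
`‖x‖ ≤ y / N`: `w - a = - y e - x`, `1 - conj a w = y - conj x w`; compare with `- 2 conj e / y`. -/
theorem pt3_num {ε : ℝ} (hε : 0 < ε) : ∃ N ≥ (2 : ℝ), ∀ (e a : ℂ) (y : ℝ), ‖e‖ = 1 → ‖a‖ < 1 →
    0 < y → y ≤ 1 / N → N * ‖a - e‖ ≤ y →
      (1 - y : ℝ) * e ≠ a ∧ y / 2 ≤ ‖(1 - y : ℝ) * e - a‖ ∧
      2 - ε ≤ ‖((1 - y : ℝ) * e - a)⁻¹ - conj a / (1 - conj a * ((1 - y : ℝ) * e)) -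
        ((1 - y : ℝ) * e)⁻¹‖ * y := by
  refine ⟨max 2 (8 / ε), le_max_left _ _, fun e a y he ha hy hyN hae => ?_⟩
  set N := max 2 (8 / ε) with hN
  have hN2 : 2 ≤ N := le_max_left _ _
  have hN8 : 8 ≤ N * ε := (div_le_iff₀ hε).1 (le_max_right _ _)
  rw [le_div_iff₀ (by linarith)] at hyN
  have hy2 : y ≤ 1 / 2 := by nlinarith
  obtain ⟨h1, h2⟩ := pt2_rad he hy.le (by linarith)
  set w : ℂ := ((1 - y : ℝ) : ℂ) * e with hw
  have hx0 := norm_nonneg (a - e)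
  have h3 : y / 2 ≤ ‖w - a‖ := by
    have h4 := norm_sub_le_norm_sub_add_norm_sub w a e
    nlinarith
  have hwa : w - a ≠ 0 := norm_pos_iff.1 (by linarith)
  have h4 : y / 2 ≤ ‖1 - conj a * w‖ := h3.trans (norm_sub_le_den ha (by linarith)).1
  have hden : 1 - conj a * w ≠ 0 := norm_pos_iff.1 (by linarith)
  have hw0 : w ≠ 0 := norm_pos_iff.1 (by linarith)
  have hee : conj e * e = 1 := by
    rw [Complex.conj_mul', he]
    simp
  refine ⟨sub_ne_zero.1 hwa, h3, ?_⟩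
  have hA : ‖y * (w - a)⁻¹ + conj e‖ ≤ ε / 4 := by
    have e1 : y * (w - a)⁻¹ + conj e = -(conj e * (a - e)) / (w - a) := by
      field_simp
      rw [hw]
      push_cast
      linear_combination (-(y : ℂ)) * hee
    rw [e1, norm_div, norm_neg, norm_mul, Complex.norm_conj, he, one_mul,
      div_le_iff₀ (by linarith)]
    nlinarith
  have hB : ‖y * (conj a / (1 - conj a * w)) - conj e‖ ≤ ε / 2 := by
    have e1 : y * (conj a / (1 - conj a * w)) - conj e =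
        conj (a - e) * (y + conj e * w) / (1 - conj a * w) := by
      rw [map_sub]
      field_simp
      rw [hw]
      push_cast
      linear_combination (conj e * (1 - (y : ℂ))) * hee
    have h5 : ‖(y : ℂ) + conj e * w‖ ≤ 2 := by
      refine (norm_add_le _ _).trans ?_
      rw [norm_mul, Complex.norm_conj, he, h1, norm_real, Real.norm_of_nonneg hy.le]
      linarith
    rw [e1, norm_div, norm_mul, Complex.norm_conj, div_le_iff₀ (by linarith)]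
    have h6 := mul_le_mul_of_nonneg_left h5 hx0
    nlinarith
  have hC : ‖y * w⁻¹‖ ≤ ε / 4 := by
    rw [norm_mul, norm_inv, h1, norm_real, Real.norm_of_nonneg hy.le, ← div_eq_mul_inv,
      div_le_iff₀ (by linarith)]
    nlinarith
  have e2 : -(2 * conj e) = ((w - a)⁻¹ - conj a / (1 - conj a * w) - w⁻¹) * y -
      (y * (w - a)⁻¹ + conj e) + (y * (conj a / (1 - conj a * w)) - conj e) + y * w⁻¹ := by ring
  have h5 : ‖-(2 * conj e)‖ = 2 := by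
    rw [norm_neg, norm_mul, Complex.norm_conj, he]
    simp
  have h6 : ‖-(2 * conj e)‖ ≤ ‖((w - a)⁻¹ - conj a / (1 - conj a * w) - w⁻¹) * y‖ +
      ‖y * (w - a)⁻¹ + conj e‖ + ‖y * (conj a / (1 - conj a * w)) - conj e‖ + ‖y * w⁻¹‖ := by
    rw [e2]
    exact (norm_add_le _ _).trans (add_le_add_left ((norm_add_le _ _).trans
      (add_le_add_left (norm_sub_le _ _) _)) _)
  rw [norm_mul _ (y : ℂ), norm_real, Real.norm_of_nonneg hy.le] at h6
  linarith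

/-- the estimate at the radial point -/
theorem pt3_rad (G : Geo D Φ) (B : Bdy D Φ h xs Lg) (hF : Fat D h Lg τ ξ e)
    (hT : IsTy D Φ γ η τ ξ) {i : Bl} (hi₁ : i ∈ τ.2.2) (hf : ¬Flat η i) (ha : Act D h e i) :
    ∃ K > 0, ∃ N ≥ (2 : ℝ), ∃ d > 0, ∀ y : ℝ, 0 < y → y ≤ d → ∀ i' ∈ τ.2.2, ∀ z ∈ D,
      ‖z - cen n i'‖ < 2 * rad i' → N * ‖F h z - e‖ ≤ y →
        y / 2 ≤ ‖(1 - y : ℝ) * e - F h z‖ ∧
        ‖uz h z ((1 - y : ℝ) * e)‖ ≤ K * y ^ (1 + η / Real.pi) := by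
  have he := hF.1
  have hr := (hT.num i hi₁).1
  have hη : 0 < η := hr.trans_le (hT.num i hi₁).2.1
  have hπ := Real.pi_pos
  obtain ⟨ε, hε, hεη⟩ : ∃ ε > 0, η / Real.pi = 10 * ε := ⟨η / Real.pi / 10, by positivity, by ring⟩
  have hW : (hi i - lo i) / Real.pi ≤ 1 - 20 * ε := by
    have h1 : hi i - lo i ≤ Real.pi - 2 * η := (not_le.1 hf).le
    calc (hi i - lo i) / Real.pi ≤ (Real.pi - 2 * η) / Real.pi := by gcongr
      _ = 1 - 2 * (η / Real.pi) := by field_simp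
      _ = _ := by rw [hεη]; ring
  have hW0 : 0 ≤ (hi i - lo i) / Real.pi :=
    div_nonneg (sub_nonneg.2 (hT.num i hi₁).2.2.1) hπ.le
  obtain ⟨q, hq, hq'⟩ := ha
  have hqD : q ∈ closure D := Metric.mem_closure_iff.2 fun δ hδ => by
    obtain ⟨z, hz, h1, -⟩ := hq' δ hδ
    exact ⟨z, hz, by rwa [dist_comm, dist_eq_norm]⟩
  obtain ⟨R, hR, hRD⟩ := G.bdd.closure.subset_ball_lt 0 (0 : E n)
  obtain ⟨l, hl0, hl1, hl2⟩ : ∃ l > 0, l < 1 ∧ l * (2 * R) ≤ rad i / 2 :=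
    ⟨min (1 / 2) (rad i / 2 / (2 * R)), by positivity,
      (min_le_left _ _).trans_lt one_half_lt_one,
      (le_div_iff₀ (by positivity)).1 (min_le_right _ _)⟩
  obtain ⟨N, hN, hnum⟩ := pt3_num hε
  obtain ⟨Ce, hCe, hue⟩ := G.ue B hF hT hi₁ hq hq' 1 hε
  obtain ⟨Nc, hNc, huc⟩ := G.uc B hF 1 hε
  obtain ⟨Cb, hCb, hub⟩ := G.ub B hF hT 1 Nc hε
  obtain ⟨d, hd, H⟩ := (cone_ev he).1 (hue.and (huc.and (hub.and (hF.2 1 ε hε))))
  refine ⟨(Cb + 2 * Ce) / l + 4 * Ce / (7 * ε * l), by positivity, N, hN, min d (1 / N),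
    by positivity, fun y hy hyd i' hi' z hz hzc hze => ?_⟩
  rw [le_min_iff] at hyd
  have hy1 : y ≤ 1 / 2 := hyd.2.trans (one_div_le_one_div_of_le two_pos hN)
  have haz : ‖F h z‖ < 1 := cls2_F_lt B.adm hz
  obtain ⟨hne, hlow, hT2⟩ := hnum e (F h z) y he haz hy hyd.2 hze
  refine ⟨hlow, ?_⟩
  obtain ⟨h1, -⟩ := pt2_rad he hy.le (by linarith)
  have hmem := radial_mem (M := 1) (r := 1 - y) he le_rfl (by linarith) (by linarith)
  set w : ℂ := ((1 - y : ℝ) : ℂ) * e with hw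
  have hdy : 1 - ‖w‖ = y := by linarith
  have hw0 : w ≠ 0 := norm_pos_iff.1 (by linarith)
  obtain ⟨hue, huc, hub, hct, -⟩ := H w hmem (by linarith [hyd.1])
  have hct := (hct i' hi' z hz hzc).2
  rw [hdy] at hue huc hub hct
  set X := y ^ (1 + η / Real.pi) with hX
  have hX0 : 0 < X := Real.rpow_pos_of_pos hy _
  have hXX : y ^ (2 - (hi i - lo i) / Real.pi - ε) ≤ X :=
    Real.rpow_le_rpow_of_exponent_ge hy (by linarith) (by linarith)
  have hq1 : ‖uz h q w‖ ≤ Ce * X := hue.1.trans (by gcongr)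
  have hq2 : ‖deriv (uz h q) w‖ * y ≤ Ce * X := hue.2.trans (by gcongr)
  obtain ⟨c, hc, hzcD⟩ := G.line q hqD z hz l ⟨hl0, hl1⟩
  set zc := q + c • (z - q) with hzc'
  have hzc2 : ‖zc - cen n i‖ < 2 * rad i := by
    have h2 := norm_sub_le_norm_sub_add_norm_sub zc q (cen n i)
    rw [hzc', add_sub_cancel_left, norm_smul, hc] at h2
    have h3 := mem_ball_zero_iff.1 (hRD hqD)
    have h4 := mem_ball_zero_iff.1 (hRD (subset_closure hz))
    have h5 := norm_sub_le z q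
    have h6 : l * ‖z - q‖ < l * (2 * R) := mul_lt_mul_of_pos_left (by linarith) hl0
    linarith
  have hc1 : ‖1 - c‖ ≤ 2 := (norm_sub_le _ _).trans (by rw [norm_one, hc]; linarith)
  have e1 : uz h zc w = (1 - c) * uz h q w + c * uz h z w := by
    simp only [uz, hzc', dot_add_left, dot_smul_left, dot_sub_left]
    ring
  have e2 : c * deriv (uz h z) w = deriv (uz h zc) w - (1 - c) * deriv (uz h q) w := by
    simp only [pt2_deriv B.adm.1 _ hmem.1 hw0, hzc', dot_add_left, dot_smul_left, dot_sub_left]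
    ring
  have hu0 := norm_nonneg (uz h z w)
  have hq3 : ‖(1 - c) * uz h q w‖ ≤ 2 * (Ce * X) := by
    rw [norm_mul]
    gcongr
  rcases le_total ‖F h zc - w‖ (Nc * y) with hcase | hcase
  · have h2 : ‖uz h zc w‖ ≤ Cb * X := (hub i hi₁ zc hzcD hzc2 hcase).trans (by gcongr)
    have h3 := norm_sub_le (uz h zc w) ((1 - c) * uz h q w)
    rw [e1, add_sub_cancel_left, norm_mul, hc, ← e1] at h3
    have h4 : ‖uz h z w‖ ≤ (Cb + 2 * Ce) / l * X := by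
      rw [div_mul_eq_mul_div, le_div_iff₀ hl0]
      linarith
    have h5 : 0 ≤ 4 * Ce / (7 * ε * l) * X := by positivity
    linarith
  · have h2 := (huc i hi₁ zc hzcD hzc2 hcase).2
    have hW' : (hi i' - lo i') / Real.pi ≤ 1 + 10 * ε := by
      have h1 : hi i' - lo i' ≤ Real.pi + η := by linarith [(hT.num i' hi').2.2.2.1]
      calc (hi i' - lo i') / Real.pi ≤ (Real.pi + η) / Real.pi := by gcongr
        _ = 1 + η / Real.pi := by field_simp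
        _ = _ := by rw [hεη]
    have h3 : ‖uz h z w‖ * (1 - 12 * ε) ≤ ‖deriv (uz h z) w‖ * y := by
      rw [uz_deriv B.adm B.lg hz hmem.1 hw0 hne, norm_mul, mul_assoc]
      refine mul_le_mul_of_nonneg_left ?_ hu0
      have h4 := norm_le_add_norm_add ((w - F h z)⁻¹ - conj (F h z) / (1 - conj (F h z) * w) - w⁻¹)
        (deriv (gz h Lg z) w)
      have h5 := mul_le_mul_of_nonneg_right h4 hy.le
      linarith
    have h4 : l * ‖deriv (uz h z) w‖ ≤ ‖deriv (uz h zc) w‖ + 2 * ‖deriv (uz h q) w‖ := by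
      rw [← hc, ← norm_mul, e2]
      refine (norm_sub_le _ _).trans ?_
      rw [norm_mul]
      gcongr
    have h5 : ‖uz h zc w‖ ≤ 2 * (Ce * X) + l * ‖uz h z w‖ := by
      rw [e1]
      refine (norm_add_le _ _).trans ?_
      rw [norm_mul c, hc]
      linarith
    have h6 : ‖deriv (uz h zc) w‖ * y ≤ (1 - 19 * ε) * (2 * (Ce * X) + l * ‖uz h z w‖) :=
      h2.trans (mul_le_mul (by linarith) h5 (norm_nonneg _) (by linarith))
    have h7 := mul_le_mul_of_nonneg_right h4 hy.le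
    have h8 := mul_le_mul_of_nonneg_left h3 hl0.le
    have h9 : 0 ≤ ε * (Ce * X) := by positivity
    have h10 : ‖uz h z w‖ ≤ 4 * Ce / (7 * ε * l) * X := by
      rw [div_mul_eq_mul_div, le_div_iff₀ (by positivity)]
      linarith
    have h11 : 0 ≤ (Cb + 2 * Ce) / l * X := by positivity
    linarith

/-- Hint. `W = (hi i - lo i) / π < 1 - 2η/π`, `W' = (hi i' - lo i') / π ≤ 1 + η/π`, `ε = η / (10 π)`.
Let `q` be the active point (in the closure of `D`), `l > 0` with `l * 2 (RD + 1) < rad i / 2`,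
`l < 1`. Given `w` of depth `d` and `z`, `a = F h z`, `‖a - e‖ ≤ (|M| + |N|) d`; put `y = N' d` with
`N' = N₁ (|M| + |N| + 1)` (`N₁` from `pt3_num`), `ŵ = (1 - y) e ∈ Cone 1 e` (`radial_mem`, `cone_ev`).
By `uz_deriv`, `pt3_num`, `Ctl`: `‖deriv (uz h z) ŵ‖ y ≥ (2 - W' - 2ε) ‖uz h z ŵ‖`.
`G.line` gives `z_c = q + c (z - q) ∈ D`, `‖c‖ = l`, within `2 rad i` of the centre, and
`uz h z_c = (1 - c) uz h q + c uz h z`. If `F h z_c` is near `ŵ` use `ub` at `ŵ`, otherwise the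
derivative bound of `uc`; together with `ue`: `l (2 - W - W' - 3ε) ‖uz h z ŵ‖ ≤ C y^(1 + η/π)`.
Go back from `ŵ` to `w` with `uz_eq`, `ug` (`d₀ = y`), `norm_sub_le_den`. -/
theorem Geo.uf (G : Geo D Φ) (B : Bdy D Φ h xs Lg) (hF : Fat D h Lg τ ξ e)
    (hT : IsTy D Φ γ η τ ξ) {i : Bl} (hi₁ : i ∈ τ.2.2) (hf : ¬Flat η i) (ha : Act D h e i)
    (M N : ℝ) : ∃ C > 0, ∀ᶠ w in 𝓝[Cone M e] e, ∀ i' ∈ τ.2.2, ∀ z ∈ D,
      ‖z - cen n i'‖ < 2 * rad i' → ‖F h z - w‖ ≤ N * (1 - ‖w‖) →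
        ‖uz h z w‖ ≤ C * (1 - ‖w‖) ^ (1 + η / Real.pi) := by
  have he := hF.1
  have hη : 0 < η := (hT.num i hi₁).1.trans_le (hT.num i hi₁).2.1
  have hπ := Real.pi_pos
  obtain ⟨K, hK, N₁, hN₁, d₁, hd₁, hrad⟩ := pt3_rad G B hF hT hi₁ hf ha
  obtain ⟨Cg, hCg, hg⟩ := G.ug B hF hT M one_pos
  obtain ⟨d₂, hd₂, hg⟩ := (nhdsGT_basis (0 : ℝ)).eventually_iff.1 hg
  obtain ⟨N', hN'⟩ : ∃ N', N' = N₁ * (|M| + |N| + 1) := ⟨_, rfl⟩
  have hM0 := abs_nonneg M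
  have hN0 := abs_nonneg N
  have hN1 : 1 ≤ N' := by nlinarith
  refine ⟨8 * (|N| + 1) * (|N| + 2) * Cg * N' ^ (2 + η / Real.pi) * K * N' ^ (1 + η / Real.pi),
    by positivity, (cone_ev he).2 ⟨min d₁ (min (d₂ / 2) (1 / 2)) / N', by positivity,
      fun w hw hwd i' hi' z hz hzc hzw => ?_⟩⟩
  rw [le_div_iff₀ (by linarith), le_min_iff, le_min_iff] at hwd
  obtain ⟨d, hd⟩ : ∃ d, d = 1 - ‖w‖ := ⟨_, rfl⟩
  have hw2 := hw.2
  rw [← hd] at hwd hzw hw2 ⊢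
  have hd0 : 0 < d := hd ▸ sub_pos.2 hw.1
  obtain ⟨y, hy⟩ : ∃ y, y = d * N' := ⟨_, rfl⟩
  rw [← hy] at hwd
  have hdy : d ≤ y := by nlinarith
  have hy0 : 0 < y := hd0.trans_le hdy
  have haz : ‖F h z‖ < 1 := cls2_F_lt B.adm hz
  have h1 : ‖w - F h z‖ ≤ |N| * d := by
    rw [norm_sub_rev]
    exact hzw.trans (mul_le_mul_of_nonneg_right (le_abs_self N) hd0.le)
  obtain ⟨h2, h3⟩ := hrad y hy0 hwd.1 i' hi' z hz hzc (by
    have h2 := norm_sub_le_norm_sub_add_norm_sub (F h z) w e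
    rw [norm_sub_rev (F h z) w] at h2
    have h3 := mul_le_mul_of_nonneg_right (le_abs_self M) hd0.le
    have h4 : ‖F h z - e‖ ≤ (|M| + |N| + 1) * d := by linarith
    calc N₁ * ‖F h z - e‖ ≤ N₁ * ((|M| + |N| + 1) * d) := by gcongr
      _ = y := by rw [hy, hN']; ring)
  have h4 := (hg ⟨hy0, by linarith [hwd.2.1]⟩ w hw (hd ▸ hdy) i' hi' z hz hzc).1
  obtain ⟨h5, -⟩ := pt2_rad he hy0.le (by linarith [hwd.2.2])
  set v : ℂ := ((1 - y : ℝ) : ℂ) * e with hv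
  have hv1 : ‖v‖ < 1 := by linarith
  have hv0 : v ≠ 0 := norm_pos_iff.1 (by linarith [hwd.2.2])
  have hwn : 1 / 2 ≤ ‖w‖ := by linarith [hwd.2.2]
  have hw0 : w ≠ 0 := norm_pos_iff.1 (by linarith)
  have h6 : (y / (1 - ‖w‖)) ^ ((hi i' - lo i') / Real.pi + 1) ≤ N' ^ (2 + η / Real.pi) := by
    rw [← hd, hy, mul_div_cancel_left₀ _ hd0.ne']
    refine Real.rpow_le_rpow_of_exponent_le hN1 ?_
    have h7 : hi i' - lo i' ≤ Real.pi + η := by linarith [(hT.num i' hi').2.2.2.1]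
    have h8 : (hi i' - lo i') / Real.pi ≤ 1 + η / Real.pi :=
      calc (hi i' - lo i') / Real.pi ≤ (Real.pi + η) / Real.pi := by gcongr
        _ = 1 + η / Real.pi := by field_simp
    linarith
  have h7 : ‖exp (gz h Lg z w)‖ ≤ Cg * N' ^ (2 + η / Real.pi) * ‖exp (gz h Lg z v)‖ :=
    h4.trans (by gcongr)
  have h8 : d / 2 * (d / 2) * ‖exp (gz h Lg z v)‖ ≤ K * y ^ (1 + η / Real.pi) :=
    calc d / 2 * (d / 2) * ‖exp (gz h Lg z v)‖
        ≤ ‖v - F h z‖ * ‖1 - conj (F h z) * v‖ * ‖exp (gz h Lg z v)‖ := by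
          have h9 := (norm_sub_le_den haz hv1).1
          gcongr <;> linarith
      _ = ‖uz h z v‖ * ‖v‖ := (pt2_norm B.adm B.lg hz hv1 hv0).symm
      _ ≤ ‖uz h z v‖ := mul_le_of_le_one_right (norm_nonneg _) hv1.le
      _ ≤ _ := h3
  have h9 : ‖1 - conj (F h z) * w‖ ≤ (|N| + 2) * d := by
    have h10 := (norm_sub_le_den haz hw.1).2.2
    rw [← hd] at h10
    linarith
  have h10 : ‖w - F h z‖ ≤ (|N| + 1) * d := by linarith
  calc ‖uz h z w‖ ≤ 2 * (‖uz h z w‖ * ‖w‖) := by nlinarith [norm_nonneg (uz h z w)]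
    _ = 2 * (‖w - F h z‖ * ‖1 - conj (F h z) * w‖ * ‖exp (gz h Lg z w)‖) := by
        rw [pt2_norm B.adm B.lg hz hw.1 hw0]
    _ ≤ 2 * ((|N| + 1) * d * ((|N| + 2) * d) *
          (Cg * N' ^ (2 + η / Real.pi) * ‖exp (gz h Lg z v)‖)) := by gcongr
    _ = 8 * (|N| + 1) * (|N| + 2) * Cg * N' ^ (2 + η / Real.pi) *
          (d / 2 * (d / 2) * ‖exp (gz h Lg z v)‖) := by ring
    _ ≤ 8 * (|N| + 1) * (|N| + 2) * Cg * N' ^ (2 + η / Real.pi) *
          (K * y ^ (1 + η / Real.pi)) := by gcongr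
    _ = _ := by
        rw [hy, Real.mul_rpow hd0.le (by linarith)]
        ring

end Pool.Agent.MP_4baaa2_an.H94

/-!
Admissible variations near a Fatou point.
-/

namespace Pool.Agent.MP_4baaa2_an.H94

open Set Metric Filter Topology Complex MeasureTheory
open scoped ComplexConjugate
open Pool.Agent.Lib.PlaneTop

variable {n : ℕ} {D : Set (E n)} {Φ : E n → E n → ℂ}

variable {h : ℂ → E n} {xs : TT → E n} {Lg : E n → ℂ → ℂ} {τ : Ty} {ξ : E n} {e : ℂ} {γ η : ℝ}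


theorem pt4_cos {ψ t : ℝ} (ht : t ≤ Real.pi) (h : |ψ| ≤ t) : Real.cos t ≤ Real.cos ψ := by
  rw [← Real.cos_abs ψ]
  exact Real.cos_le_cos_of_nonneg_of_le_pi (abs_nonneg _) ht h

theorem pt4_exp (l : ℂ) (y : ℝ) :
    exp l * exp (-(y * I)) = (Real.exp l.re : ℝ) * exp ((l.im - y : ℝ) * I) := by
  rw [ofReal_exp, ← exp_add, ← exp_add]
  congr 1
  conv_lhs => rw [← re_add_im l]
  push_cast
  ring

theorem pt4_exp' (φ y : ℝ) : exp (φ * I) * exp (-(y * I)) = exp ((φ - y : ℝ) * I) := by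
  rw [← exp_add]
  congr 1
  push_cast
  ring

/-- no cancellation by phases -/
theorem pt4_phase {γ b φ x : ℝ} {l N : ℂ} (hγ : 0 < γ) (hγ1 : γ ≤ 1 / 10) (hx : 0 < x)
    (hφ : |φ - b| ≤ Real.pi - 9 * γ / 10) (hl : |l.im - b| ≤ γ / 2) (hN : ‖N - 1‖ ≤ γ / 10)
    (hs : ‖exp l‖ ≤ γ / 20) : exp l * N + (1 - exp l) * (x * exp (φ * I)) ≠ 0 := by
  intro h0
  have hpi := Real.pi_gt_three
  have hpi' := Real.pi_lt_d2
  obtain ⟨r, hr⟩ : ∃ r, r = Real.exp l.re := ⟨_, rfl⟩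
  have hr0 : 0 < r := hr ▸ Real.exp_pos _
  have h1 := pt4_exp l l.im
  rw [sub_self, ofReal_zero, zero_mul, exp_zero, mul_one, ← hr] at h1
  have h2 := pt4_exp' φ l.im
  obtain ⟨δ, hδ⟩ : ∃ δ, δ = φ - l.im := ⟨_, rfl⟩
  rw [← hδ] at h2
  have h3 : (r : ℂ) + x * exp (δ * I) = r * (1 - N) + exp l * (x * exp (δ * I)) := by
    linear_combination exp (-(l.im * I)) * h0 - N * h1 - (1 - exp l) * x * h2
  have h4 : ‖(r : ℂ) + x * exp (δ * I)‖ ≤ γ / 10 * (r + x) := by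
    rw [h3]
    refine (norm_add_le _ _).trans ?_
    rw [norm_mul, norm_mul, norm_mul, norm_exp_ofReal_mul_I, norm_real, norm_real,
      Real.norm_of_nonneg hr0.le, Real.norm_of_nonneg hx.le, norm_sub_rev]
    nlinarith [mul_le_mul_of_nonneg_left hN hr0.le, mul_le_mul_of_nonneg_right hs hx.le]
  have h5 : |δ| ≤ Real.pi - 2 / 5 * γ := by
    rw [abs_le] at *
    constructor <;> linarith
  have h6 := pt4_cos (by linarith) h5
  rw [Real.cos_pi_sub] at h6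
  have h7 := Real.cos_le_one_sub_mul_cos_sq (x := 2 / 5 * γ)
    (by rw [abs_of_pos (by linarith)]; linarith)
  have h8 : 1 / 5 ≤ 2 / Real.pi ^ 2 := by
    rw [le_div_iff₀ (by positivity)]
    nlinarith
  have h9 : -1 + 3 / 100 * γ ^ 2 ≤ Real.cos δ := by nlinarith [sq_nonneg γ]
  have h10 : ‖(r : ℂ) + x * exp (δ * I)‖ ^ 2 = r ^ 2 + x ^ 2 + 2 * r * x * Real.cos δ := by
    rw [← normSq_eq_norm_sq, normSq_apply]
    simp only [add_re, add_im, ofReal_re, ofReal_im, re_ofReal_mul, im_ofReal_mul,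
      exp_ofReal_mul_I_re, exp_ofReal_mul_I_im]
    linear_combination x ^ 2 * Real.sin_sq_add_cos_sq δ
  have h11 := pow_le_pow_left₀ (norm_nonneg _) h4 2
  have h12 := mul_le_mul_of_nonneg_left h9 (mul_pos hr0 hx).le
  have h13 : γ ^ 2 ≤ 1 / 100 := by nlinarith
  have h14 := mul_pos (mul_pos hr0 hx) (pow_pos hγ 2)
  nlinarith [mul_le_mul_of_nonneg_right h13 (sq_nonneg (r - x)), sq_nonneg (r - x)]

/-- no cancellation by size -/
theorem pt4_size {x N u : ℂ} (hx : ‖x‖ ≤ 1 / 2)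
    (h : 2 * ‖u‖ < ‖x‖ * ‖N‖ ∨ 2 * (‖x‖ * ‖N‖) < ‖u‖) : x * N + (1 - x) * u ≠ 0 := by
  intro h0
  have h1 := congrArg norm (eq_neg_of_add_eq_zero_left h0)
  rw [norm_neg, norm_mul, norm_mul] at h1
  have h2 := norm_sub_le (1 : ℂ) x
  have h3 := norm_sub_norm_le (1 : ℂ) x
  rw [norm_one] at h2 h3
  have h4 := norm_nonneg u
  rcases h with h | h <;> nlinarith

/-- no cancellation on a flat ball: `y` points out of the half plane -/
theorem pt4_flat {η ψ x a : ℝ} {y c : ℂ} (hη : 0 < η) (hη1 : η ≤ 1 / 10) (hx : 0 < x) (ha : 0 < a)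
    (hψ : |ψ| ≤ Real.pi / 2 + η) (hy : y.re ≤ -(7 * η) * ‖y‖) (hy0 : y ≠ 0) (hc : ‖c‖ ≤ η) :
    (1 - c) * (x * exp (ψ * I)) ≠ a * y := by
  intro h0
  have hpi := Real.pi_gt_three
  have h1 := congrArg norm h0
  rw [norm_mul, norm_mul, norm_mul, norm_exp_ofReal_mul_I, norm_real, norm_real,
    Real.norm_of_nonneg hx.le, Real.norm_of_nonneg ha.le, mul_one] at h1
  have h2 := norm_sub_norm_le (1 : ℂ) c
  rw [norm_one] at h2
  have h3 := congrArg re h0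
  rw [sub_mul, one_mul, sub_re, re_ofReal_mul, re_ofReal_mul, exp_ofReal_mul_I_re] at h3
  have h4 := re_le_norm (c * (x * exp (ψ * I)))
  rw [norm_mul, norm_mul, norm_exp_ofReal_mul_I, norm_real, Real.norm_of_nonneg hx.le,
    mul_one] at h4
  have h5 := pt4_cos (by linarith) hψ
  rw [add_comm, Real.cos_add_pi_div_two] at h5
  have h6 := Real.sin_le hη.le
  have h7 := mul_le_mul_of_nonneg_left hy ha.le
  have h8 := mul_pos hη hx
  have h9 := mul_pos ha (norm_pos_iff.2 hy0)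
  have h10 : 9 / 10 * x ≤ a * ‖y‖ := by nlinarith
  have h11 := mul_le_mul_of_nonneg_left h10 hη.le
  have h12 := mul_le_mul_of_nonneg_right hc hx.le
  have h13 := mul_le_mul_of_nonneg_left (show -η ≤ Real.cos ψ by linarith) hx.le
  nlinarith

/-- comparison of powers -/
theorem pt4_pow {α β : ℝ} (h : α < β) (C L : ℝ) {c : ℝ} (hc : 0 < c) :
    ∀ᶠ s : ℝ in 𝓝[>] 0, C * s ^ β < c * Real.exp (α * Real.log s - L) := by
  have h1 : Tendsto (fun s : ℝ => C * s ^ (β - α)) (𝓝[>] 0) (𝓝 (C * 0 ^ (β - α))) :=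
    ((Real.continuousAt_rpow_const 0 _ (.inr (sub_pos.2 h).le)).tendsto.mono_left
      nhdsWithin_le_nhds).const_mul C
  rw [Real.zero_rpow (sub_pos.2 h).ne', mul_zero] at h1
  filter_upwards [h1.eventually (gt_mem_nhds (mul_pos hc (Real.exp_pos (-L)))),
    self_mem_nhdsWithin] with s h2 hs
  have h3 := mul_lt_mul_of_pos_right h2 (Real.rpow_pos_of_pos hs α)
  rwa [mul_assoc, ← Real.rpow_add hs, sub_add_cancel, Real.rpow_def_of_pos hs α, mul_assoc,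
    ← Real.exp_add, neg_add_eq_sub, mul_comm (Real.log s)] at h3

theorem RN.mono {g : ℂ → E n} {b α γ₁ γ₂ θ₁ θ₂ θ₃ θ₄ : ℝ} (H : RN D h g e b α γ₁ θ₁ θ₂)
    (h1 : γ₂ ≤ γ₁) (h2 : θ₃ ≤ θ₁) (h3 : θ₄ ≤ θ₂) : RN D h g e b α γ₂ θ₃ θ₄ := by
  intro L
  filter_upwards [H L] with s hs w hw hd l hl hl' u hu
  refine hs w hw hd l hl (hl'.trans h1) u (hu.imp (fun h => h.trans h2) ?_)
  rintro ⟨h4, h5, ψ, h6, h7⟩
  exact ⟨h4, h5, ψ, h6.trans h3, h7⟩

theorem pt4_small {α : ℝ} (hα : 0 < α) (L : ℝ) {c : ℝ} (hc : 0 < c) :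
    ∀ᶠ s : ℝ in 𝓝[>] 0, Real.exp (α * Real.log s + L) < c := by
  filter_upwards [pt4_pow hα (Real.exp L) 0 hc, self_mem_nhdsWithin] with s h1 h2
  rw [zero_mul, sub_zero, Real.exp_zero, mul_one, Real.rpow_def_of_pos h2, ← Real.exp_add] at h1
  rwa [mul_comm, add_comm]

theorem pt4_two {d : ℝ} (hd : 0 < d) : ∀ᶠ s : ℝ in 𝓝[>] 0, 2 * s ≤ d := by
  filter_upwards [Ioo_mem_nhdsGT (half_pos hd)] with s hs
  linarith [hs.2]

theorem pt4_norm {l : ℂ} {a L : ℝ} (h : |l.re - a| ≤ L) :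
    Real.exp (a - L) ≤ ‖exp l‖ ∧ ‖exp l‖ ≤ Real.exp (a + L) := by
  rw [norm_exp, abs_le] at *
  exact ⟨Real.exp_le_exp.2 (by linarith), Real.exp_le_exp.2 (by linarith)⟩

theorem pt4_up {d s β p : ℝ} (hd : 0 < d) (hd1 : d ≤ 1) (hs : d ≤ 2 * s) (hβ : 0 ≤ β)
    (hp : β ≤ p) : d ^ p ≤ 2 ^ β * s ^ β := by
  rw [← Real.mul_rpow zero_le_two (by linarith)]
  exact (Real.rpow_le_rpow_of_exponent_ge hd hd1 hp).trans (Real.rpow_le_rpow hd.le hs hβ)

/-- an active ball which is not flat allows a variation of higher order -/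
theorem Geo.rn_a (G : Geo D Φ) (B : Bdy D Φ h xs Lg) (hF : Fat D h Lg τ ξ e)
    (hT : IsTy D Φ γ η τ ξ) (hγ : 0 < γ) (hγ1 : γ ≤ 1 / 10) {i : Bl} (hi₁ : i ∈ τ.2.2)
    (hf : ¬Flat η i) (ha : Act D h e i) (θ₁ θ₂ : ℝ) :
    RN D h (fun _ => 0) e τ.1 (1 + η / (2 * Real.pi)) (γ / 2) θ₁ θ₂ := by
  intro L
  have hpi := Real.pi_pos
  have hη : 0 < η := (hT.num i hi₁).1.trans_le (hT.num i hi₁).2.1
  have hq : η / Real.pi = 2 * (η / (2 * Real.pi)) := by field_simp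
  have hq0 : 0 < η / (2 * Real.pi) := by positivity
  obtain ⟨d₁, hd₁, H₁⟩ := (cone_ev hF.1).1 (G.ua hF hT 9)
  obtain ⟨N, -, H₂⟩ := G.uc B hF 9 (ε := γ / 10) (by positivity)
  obtain ⟨d₂, hd₂, H₂⟩ := (cone_ev hF.1).1 H₂
  obtain ⟨C, hC, H₃⟩ := G.uf B hF hT hi₁ hf ha 9 N
  obtain ⟨d₃, hd₃, H₃⟩ := (cone_ev hF.1).1 H₃
  filter_upwards [pt4_two hd₁, pt4_two hd₂, pt4_two hd₃,
    pt4_small (α := 1 + η / (2 * Real.pi)) (by positivity) L (c := γ / 20) (by positivity),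
    pt4_small (α := 1 + η / (2 * Real.pi)) (by positivity) L (half_pos (half_pos hT.kpos)),
    pt4_pow (α := 1 + η / (2 * Real.pi)) (β := 1 + η / Real.pi) (by linarith)
      (2 * C * 2 ^ (1 + η / Real.pi)) L one_pos] with s e₁ e₂ e₃ e₄ e₅ e₆ w hw hd l hl hl' u _ z hz
  obtain ⟨h1, h2⟩ := pt4_norm hl
  have h3 : ‖exp l‖ ≤ 1 / 2 := by linarith
  have h4 : (1 : ℂ) - u * dot z (xi (fun _ => (0 : E n)) w) = 1 := by simp [xi]
  rw [h4]
  by_cases hb : ∀ j ∈ τ.2.2, rad j ≤ ‖z - cen n j‖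
  · have h5 := H₁ w hw (hd.trans e₁) z hz hb
    exact pt4_size h3 (.inr (by rw [norm_one]; linarith))
  push Not at hb
  obtain ⟨j, hj, hb⟩ := hb
  obtain ⟨n₁, -, -, -, n₂, n₃⟩ := hT.num j hj
  have hb' : ‖z - cen n j‖ < 2 * rad j := by linarith
  rcases le_total (N * (1 - ‖w‖)) ‖F h z - w‖ with h5 | h5
  · obtain ⟨⟨φ, ⟨h6, h7⟩, x, hx, h8⟩, -⟩ := H₂ w hw (hd.trans e₂) j hj z hz hb' h5
    rw [h8]
    exact pt4_phase hγ hγ1 hx (abs_le.2 ⟨by linarith, by linarith⟩) hl'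
      (by rw [sub_self, norm_zero]; positivity) (by linarith)
  · have h6 := H₃ w hw (hd.trans e₃) j hj z hz hb' h5
    have h7 := mul_le_mul_of_nonneg_left (pt4_up (β := 1 + η / Real.pi) (sub_pos.2 hw.1)
      (sub_le_self _ (norm_nonneg _)) hd (by positivity) le_rfl) hC.le
    exact pt4_size h3 (.inl (by rw [norm_one]; linarith))

theorem pt4_y {γ η RD ω ω₀ ψ ρ : ℝ} {u : ℂ} {z c X v : E n} (hγ1 : γ ≤ 1 / 10) (hη : 0 < η)
    (hη1 : η ≤ γ / 20) (hRD : 0 < RD) (hρ : ρ = γ / (40 * (RD + 1) * η))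
    (hω₀ : |ω₀| ≤ Real.pi / 2 - γ + η) (hω : |ω - ω₀| ≤ η) (hψ : |ψ| ≤ η) (hu : ‖u‖ ≤ 1)
    (hu' : u = ‖u‖ * exp (ψ * I)) (hz : ‖z‖ ≤ RD) (hc : ‖z - c‖ ≤ η) (hv : ‖v‖ ≤ 1)
    (hX : ‖X - v‖ ≤ η / (RD + 1)) (hX2 : ‖X‖ ≤ 2) (h : (exp (ω₀ * I) * dot c v).re ≤ 0) :
    (-(exp (ω * I) * (1 - u * (ρ * dot z X)))).re ≤ -(7 / 10 * γ) := by
  have hpi := Real.pi_gt_three
  have hγ : 0 < γ := by linarith
  have h1 : 89 / 100 * γ ≤ Real.cos ω := by
    have h2 : |ω| ≤ Real.pi / 2 - 9 / 10 * γ := by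
      have := abs_add_le (ω - ω₀) ω₀
      rw [sub_add_cancel] at this
      linarith
    have h3 := pt4_cos (by linarith) h2
    rw [Real.cos_pi_div_two_sub] at h3
    have h4 := Real.sin_gt_sub_cube (x := 9 / 10 * γ) (by linarith)
    have h5 : γ ^ 2 ≤ 1 / 100 := by nlinarith
    nlinarith
  have h2 : ‖exp ((ω + ψ - ω₀ : ℝ) * I) - 1‖ ≤ 2 * η := by
    rw [mul_comm]
    refine Real.norm_exp_I_mul_ofReal_sub_one_le.trans ?_
    have := abs_add_le (ω - ω₀) ψ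
    rw [Real.norm_eq_abs, add_sub_right_comm]
    linarith
  have h3 : ‖exp ((ω + ψ - ω₀ : ℝ) * I) * dot z X - dot c v‖ ≤ 4 * η * (RD + 1) := by
    rw [show exp ((ω + ψ - ω₀ : ℝ) * I) * dot z X - dot c v =
      (exp ((ω + ψ - ω₀ : ℝ) * I) - 1) * dot z X + dot z (X - v) + dot (z - c) v by
        simp only [dot_sub_left, dot_sub_right]; ring]
    have h4 : ‖(exp ((ω + ψ - ω₀ : ℝ) * I) - 1) * dot z X‖ ≤ 2 * η * (RD * 2) := by
      rw [norm_mul]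
      exact mul_le_mul h2 ((norm_dot_le _ _).trans (by gcongr)) (norm_nonneg _) (by positivity)
    have h5 : ‖dot z (X - v)‖ ≤ η := by
      refine (norm_dot_le _ _).trans ((mul_le_mul (hz.trans (le_add_of_nonneg_right zero_le_one))
        hX (norm_nonneg _) (by positivity)).trans (le_of_eq ?_))
      field_simp
    have h6 : ‖dot (z - c) v‖ ≤ η :=
      (norm_dot_le _ _).trans ((mul_le_mul hc hv (norm_nonneg _) hη.le).trans (by rw [mul_one]))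
    linarith [norm_add₃_le (a := (exp ((ω + ψ - ω₀ : ℝ) * I) - 1) * dot z X) (b := dot z (X - v))
      (c := dot (z - c) v)]
  have h4 : (exp ((ω + ψ : ℝ) * I) * dot z X).re ≤ 4 * η * (RD + 1) := by
    have h5 : exp ((ω + ψ : ℝ) * I) * dot z X = exp (ω₀ * I) * dot c v +
        exp (ω₀ * I) * (exp ((ω + ψ - ω₀ : ℝ) * I) * dot z X - dot c v) := by
      rw [mul_sub, ← mul_assoc, ← exp_add, add_sub_cancel]
      congr 2
      push_cast
      ring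
    have h6 := re_le_norm (exp (ω₀ * I) * (exp ((ω + ψ - ω₀ : ℝ) * I) * dot z X - dot c v))
    rw [norm_mul, norm_exp_ofReal_mul_I, one_mul] at h6
    rw [h5, add_re]
    linarith
  have h5 : -(exp (ω * I) * (1 - u * (ρ * dot z X))) =
      -exp (ω * I) + (‖u‖ * ρ : ℝ) * (exp ((ω + ψ : ℝ) * I) * dot z X) := by
    rw [ofReal_add, add_mul, exp_add, ofReal_mul]
    linear_combination exp (ω * I) * (ρ * dot z X) * hu'
  have hρ0 : 0 < ρ := by rw [hρ]; positivity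
  have h6 : ρ * (4 * η * (RD + 1)) = γ / 10 := by rw [hρ]; field_simp; norm_num
  rw [h5, add_re, neg_re, exp_ofReal_mul_I_re, re_ofReal_mul]
  have h7 := mul_le_mul_of_nonneg_left h4 (mul_nonneg (norm_nonneg u) hρ0.le)
  have h8 := mul_le_mul_of_nonneg_right hu (by positivity : 0 ≤ γ / 10)
  rw [mul_assoc ‖u‖ ρ (4 * η * (RD + 1)), h6] at h7
  linarith

/-- the first order variation is admissible -/
theorem Geo.rn_fo (G : Geo D Φ) (B : Bdy D Φ h xs Lg) (hF : Fat D h Lg τ ξ e)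
    (hT : IsTy D Φ γ η τ ξ) (hγ1 : γ ≤ 1 / 10) (hη : 0 < η) (hη1 : η ≤ γ / 20)
    (hA : ∀ i ∈ τ.2.2, ¬Flat η i → ¬Act D h e i) {RD : ℝ} (hR : D ⊆ ball 0 RD) {g : ℂ → E n}
    (hg : HB g 1) {v : E n} (hv : Tendsto (xi g) (𝓝[Cone 9 e] e) (𝓝 v)) (hv1 : ‖v‖ ≤ 1)
    (hc : Cnd η τ τ.1 v) : RN D h (fun w => (γ / (40 * (RD + 1) * η) : ℝ) • g w) e τ.1
      (1 - 3 * η / (2 * Real.pi)) η η η := by
  intro L
  have _ := hg
  have hpi := Real.pi_gt_three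
  have hγ : 0 < γ := by linarith
  have hRD : 0 < RD := by simpa using hR G.zero
  obtain ⟨ρ, hρ⟩ : ∃ ρ, ρ = γ / (40 * (RD + 1) * η) := ⟨_, rfl⟩
  have hρ0 : 0 < ρ := by rw [hρ]; positivity
  have hρ1 : η * (ρ * (RD * 2)) ≤ γ / 20 := by
    have : η * (ρ * ((RD + 1) * 2)) = γ / 20 := by rw [hρ]; field_simp; norm_num
    nlinarith [mul_pos hη hρ0]
  obtain ⟨q, hq⟩ : ∃ q, q = η / (4 * Real.pi) := ⟨_, rfl⟩
  have hq0 : 0 < q := by rw [hq]; positivity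
  have hq1 : q * (4 * Real.pi) = η := by rw [hq]; field_simp
  have hq2 : q ≤ 1 / 100 := by nlinarith
  rw [← hρ, show 3 * η / (2 * Real.pi) = 6 * q by rw [hq]; field_simp; norm_num]
  obtain ⟨NB, hNB⟩ : ∃ x, x = 1 + ρ * (RD * 2) := ⟨_, rfl⟩
  have hNB0 : 0 < NB := by rw [hNB]; positivity
  have hNB1 : η * NB ≤ γ / 10 := by rw [hNB]; linarith
  obtain ⟨d₀, hd₀, H₀⟩ := (cone_ev hF.1).1 (hv.eventually
    (closedBall_mem_nhds v (show 0 < η / (RD + 1) by positivity)))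
  obtain ⟨d₁, hd₁, H₁⟩ := (cone_ev hF.1).1 (G.ua hF hT 9)
  obtain ⟨N₀, -, H₂⟩ := G.uc B hF 9 (half_pos hη)
  obtain ⟨d₂, hd₂, H₂⟩ := (cone_ev hF.1).1 H₂
  obtain ⟨C, hC, H₃⟩ := G.ub B hF hT 9 N₀ hq0
  obtain ⟨d₃, hd₃, H₃⟩ := (cone_ev hF.1).1 H₃
  have H₄ : ∀ᶠ s : ℝ in 𝓝[>] 0, ∀ i ∈ τ.2.2, ¬Flat η i → ∀ w ∈ Cone 9 e, 1 - ‖w‖ ≤ 2 * s →
      s / 2 ≤ 1 - ‖w‖ → ∀ z ∈ D, ‖z - cen n i‖ ≤ rad i →
        2 * (Real.exp ((1 - 6 * q) * Real.log s + L) * NB) < ‖uz h z w‖ := by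
    refine (eventually_all_finset _).2 fun i hi₁ => ?_
    by_cases hf : Flat η i
    · exact .of_forall fun s h => absurd hf h
    obtain ⟨c, hc', H⟩ := G.ud B hF hT hi₁ (hA i hi₁ hf) 9 hq0
    obtain ⟨d, hd', H⟩ := (cone_ev hF.1).1 H
    filter_upwards [pt4_two hd', self_mem_nhdsWithin,
      pt4_pow (α := 1 - 7 * q) (β := 1 - 6 * q) (by linarith) (2 * NB * Real.exp L)
        ((1 - 7 * q) * Real.log 2) hc'] with s e₁ hs e₂ _ w hw hd hd₂ z hz hb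
    have hs' : 0 < s := hs
    refine lt_of_lt_of_le ?_ (H w hw (hd.trans e₁) z hz hb)
    have h1 : (hi i - lo i) / Real.pi + q ≤ 1 - 7 * q := by
      rw [Flat, not_le] at hf
      rw [← le_sub_iff_add_le, div_le_iff₀ (by linarith)]
      linarith
    have h2 := (Real.rpow_le_rpow (half_pos hs').le hd₂ (by linarith : 0 ≤ 1 - 7 * q)).trans
      (Real.rpow_le_rpow_of_exponent_ge (sub_pos.2 hw.1) (sub_le_self _ (norm_nonneg _)) h1)
    rw [Real.rpow_def_of_pos (half_pos hs'), Real.log_div hs'.ne' two_ne_zero, mul_comm,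
      mul_sub] at h2
    rw [Real.rpow_def_of_pos hs', mul_comm (Real.log s)] at e₂
    rw [Real.exp_add]
    linarith [mul_le_mul_of_nonneg_left h2 hc'.le]
  filter_upwards [pt4_two hd₀, pt4_two hd₁, pt4_two hd₂, pt4_two hd₃, H₄,
    pt4_small (α := 1 - 6 * q) (by linarith) L hη,
    pt4_small (α := 1 - 6 * q) (by linarith) L
      (div_pos (half_pos (half_pos hT.kpos)) hNB0),
    pt4_pow (α := 1 - 6 * q) (β := 1 - 5 * q) (by linarith) (2 * C * 2 ^ (1 - 5 * q)) L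
      (show 0 < 7 / 10 * γ by linarith)] with s e₀ e₁ e₂ e₃ e₄ e₅ e₆ e₇ w hw hd l hl hl' u hu z hz
  obtain ⟨h1, h2⟩ := pt4_norm hl
  have h3 : ‖exp l‖ ≤ 1 / 2 := by linarith
  have hX : ‖xi g w - v‖ ≤ η / (RD + 1) := mem_closedBall_iff_norm.1 (H₀ w hw (hd.trans e₀))
  have hX2 : ‖xi g w‖ ≤ 2 := by
    have h4 : η / (RD + 1) ≤ η := div_le_self hη.le (by linarith)
    linarith [norm_sub_norm_le (xi g w) v]
  have hz' : ‖z‖ ≤ RD := (mem_ball_zero_iff.1 (hR hz)).le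
  have h4 : dot z (xi (fun w => ρ • g w) w) = ρ * dot z (xi g w) := by
    simp only [xi, dot_smul_right, dot_rsmul_right]
    ring
  rw [h4]
  obtain ⟨N, hN⟩ : ∃ N, N = 1 - u * (ρ * dot z (xi g w)) := ⟨_, rfl⟩
  have hN1 : ‖N - 1‖ ≤ ‖u‖ * (ρ * (RD * 2)) := by
    rw [hN, sub_sub_cancel_left, norm_neg, norm_mul, norm_mul, norm_real,
      Real.norm_of_nonneg hρ0.le]
    gcongr
    exact (norm_dot_le _ _).trans (by gcongr)
  have hu1 : ‖u‖ ≤ 1 := hu.elim (fun h => by linarith) fun h => h.1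
  have hN2 : ‖N‖ ≤ NB := by
    have h5 := norm_sub_norm_le N 1
    have h6 := mul_le_mul_of_nonneg_right hu1 (show 0 ≤ ρ * (RD * 2) by positivity)
    rw [norm_one] at h5
    linarith
  have hN3 : ‖exp l‖ * ‖N‖ ≤ Real.exp ((1 - 6 * q) * Real.log s + L) * NB := by gcongr
  rw [← hN]
  by_cases hb : ∀ j ∈ τ.2.2, rad j ≤ ‖z - cen n j‖
  · have h5 := H₁ w hw (hd.trans e₁) z hz hb
    rw [lt_div_iff₀ hNB0] at e₆
    exact pt4_size h3 (.inr (by linarith))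
  push Not at hb
  obtain ⟨j, hj, hb⟩ := hb
  obtain ⟨n₁, n₂, -, n₃, n₄, n₅⟩ := hT.num j hj
  have hb' : ‖z - cen n j‖ < 2 * rad j := by linarith
  have near : 7 / 10 * γ ≤ ‖N‖ → ‖F h z - w‖ ≤ N₀ * (1 - ‖w‖) →
      exp l * N + (1 - exp l) * uz h z w ≠ 0 := fun h5 h6 => by
    have h7 := H₃ w hw (hd.trans e₃) j hj z hz hb' h6
    have h8 : (hi j - lo j) / Real.pi ≤ 1 + 4 * q := by
      rw [div_le_iff₀ (by linarith)]
      linarith
    have h9 := mul_le_mul_of_nonneg_left (pt4_up (β := 1 - 5 * q)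
      (p := 2 - (hi j - lo j) / Real.pi - q) (sub_pos.2 hw.1)
      (sub_le_self _ (norm_nonneg _)) hd (by linarith) (by linarith)) hC.le
    have h10 := mul_le_mul h1 h5 (by linarith) (norm_nonneg _)
    exact pt4_size h3 (.inl (by linarith))
  rcases hu with hu | ⟨-, hu2, ψ, hψ, hu3⟩
  · have h5 : ‖N - 1‖ ≤ γ / 10 := by
      linarith [mul_le_mul_of_nonneg_right hu (show 0 ≤ ρ * (RD * 2) by positivity)]
    rcases le_total (N₀ * (1 - ‖w‖)) ‖F h z - w‖ with h6 | h6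
    · obtain ⟨⟨φ, ⟨h7, h8⟩, x, hx, h9⟩, -⟩ := H₂ w hw (hd.trans e₂) j hj z hz hb' h6
      rw [h9]
      exact pt4_phase hγ hγ1 hx (abs_le.2 ⟨by linarith, by linarith⟩) (hl'.trans (by linarith))
        h5 (by linarith)
    · refine near ?_ h6
      have h7 := norm_sub_norm_le 1 N
      rw [norm_one, norm_sub_rev] at h7
      linarith
  by_cases hf : Flat η j
  swap
  · exact pt4_size h3 (.inr (by linarith [e₄ j hj hf w hw hd hu2 z hz hb.le]))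
  have h5 := pt4_y (ω := l.im - mid j) hγ1 hη hη1 hRD hρ (by
      rw [Flat] at hf
      rw [mid]
      exact abs_le.2 ⟨by linarith, by linarith⟩) (by rwa [sub_sub_sub_cancel_right]) hψ hu1 hu3
    hz' (hb.le.trans n₂) hv1 hX hX2 (hc j hj hf)
  rw [← hN] at h5
  have h6 : ‖-(exp ((l.im - mid j : ℝ) * I) * N)‖ = ‖N‖ := by
    rw [norm_neg, norm_mul, norm_exp_ofReal_mul_I, one_mul]
  have h7 : 7 / 10 * γ ≤ ‖N‖ := by
    have h8 := (abs_le.1 (abs_re_le_norm (-(exp ((l.im - mid j : ℝ) * I) * N)))).1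
    linarith
  rcases le_total (N₀ * (1 - ‖w‖)) ‖F h z - w‖ with h8 | h8
  · obtain ⟨⟨φ, ⟨h9, h10⟩, x, hx, h11⟩, -⟩ := H₂ w hw (hd.trans e₂) j hj z hz hb' h8
    rw [h11]
    intro h0
    refine pt4_flat (ψ := φ - mid j) (y := -(exp ((l.im - mid j : ℝ) * I) * N)) (c := exp l) hη
      (by linarith) hx (Real.exp_pos l.re) (by
        rw [mid]
        exact abs_le.2 ⟨by linarith, by linarith⟩) ?_ (norm_pos_iff.1 (by linarith))
      (by linarith) ?_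
    · rw [h6]
      linarith [mul_le_mul_of_nonneg_left hN2 hη.le]
    · linear_combination exp (-(mid j * I)) * h0 - N * pt4_exp l (mid j) -
        (1 - exp l) * x * pt4_exp' φ (mid j)
  · exact near h7 h8

end Pool.Agent.MP_4baaa2_an.H94
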