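import Pool.Agent.MP_4baaa2_an.Mg.H94_Top
import Pool.Agent.MP_4baaa2_an.Mg.H94_Ha1

-- part MP_4baaa2_an.H94.Flow
section

/-!
A discrete flow in the disc algebra with boundary values in moving domains.
-/

namespace Pool.Agent.MP_4baaa2_an.H94

open Set Metric Filter Topology Complex MeasureTheory
open scoped ComplexConjugate
open Pool.Agent.Lib.PlaneTop

lemma flow_exp {f : ℂ → ℂ} (hf : DA f) : DA fun w => exp (f w) :=
  ⟨hf.differentiableOn.cexp, hf.continuousOn.cexp⟩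

lemma flow_dslope {f : ℂ → ℂ} (hf : DA f) : DA (dslope f 0) := by
  have h0 : ball (0 : ℂ) 1 ∈ 𝓝 0 := ball_mem_nhds _ one_pos
  refine ⟨(differentiableOn_dslope h0).2 hf.differentiableOn, ?_⟩
  exact (continuousOn_dslope (mem_of_superset h0 subset_closure)).2
    ⟨hf.continuousOn, hf.differentiableOn.differentiableAt h0⟩

lemma flow_nonneg {f : ℂ → ℂ} {B : ℝ} (h : ∀ t, ‖f (ec t)‖ ≤ B) : 0 ≤ B :=
  (norm_nonneg _).trans (h 0)

lemma flow_sub {X : Type*} {ρ : ℝ} (hρ : ρ < 1) :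
    (univ : Set X) ×ˢ closedBall (0 : ℂ) ρ ⊆ univ ×ˢ ball 0 1 :=
  prod_mono Subset.rfl (closedBall_subset_ball hρ)

lemma flow_bound {X : Type*} [TopologicalSpace X] [CompactSpace X] {F : X → ℂ → ℂ}
    (hc : ContinuousOn (fun x : X × ℂ => F x.1 x.2) (univ ×ˢ ball 0 1)) {ρ : ℝ} (hρ : ρ < 1) :
    ∃ M > 0, ∀ t, ∀ ζ : ℂ, ‖ζ‖ ≤ ρ → ‖F t ζ‖ ≤ M := by
  obtain ⟨M, hM⟩ := (isCompact_univ.prod (isCompact_closedBall (0 : ℂ) ρ)).exists_bound_of_continuousOn
    (hc.mono (flow_sub hρ))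
  exact ⟨max M 1, by positivity, fun t ζ hζ =>
    (hM (t, ζ) ⟨trivial, mem_closedBall_zero_iff.2 hζ⟩).trans (le_max_left _ _)⟩

/-- one step for a single map. -/
theorem Fam.step {X : Type*} [TopologicalSpace X] [CompactSpace X] {R : X → ℂ → ℂ} (h : Fam R)
    {ρ : ℝ} (hρ : ρ < 1) : ∃ K > 0, ∃ δ > 0,
    ∀ t, ∀ ζ v : ℂ, ‖ζ‖ ≤ ρ → ‖v‖ ≤ δ → ∃ ω : ℂ, ‖ω - (ζ + v)‖ ≤ K * ‖v‖ ^ 2 ∧
      R t ω = R t ζ + deriv (R t) ζ * v := by
  set r : ℝ := (1 - ρ) / 2 with hr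
  have hr0 : 0 < r := by rw [hr]; linarith
  have hρ' : ρ + r < 1 := by rw [hr]; linarith
  obtain ⟨b, hb0, hb⟩ := flow_bound h.cont hρ'
  obtain ⟨m, hm0, hm⟩ := (isCompact_univ.prod (isCompact_closedBall (0 : ℂ) ρ)).exists_forall_le'
    ((cont_deriv h.cont h.diff).mono (flow_sub hρ)).norm (a := 0)
    (fun x hx => norm_pos_iff.2 (h.der x.1 x.2 (closedBall_subset_ball hρ hx.2)))
  set M : ℝ := 4 * b / r ^ 2 with hM
  have hM0 : 0 < M := by positivity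
  set K : ℝ := 6 * M / m with hK
  have hK0 : 0 < K := by positivity
  refine ⟨K, hK0, min (1 / K) (r / 4), by positivity, fun t ζ v hζ hv => ?_⟩
  rcases eq_or_ne v 0 with rfl | hv0
  · exact ⟨ζ, by simp, by simp⟩
  have hv1 : 0 < ‖v‖ := norm_pos_iff.2 hv0
  have hv2 : K * ‖v‖ ≤ 1 := by
    have := hv.trans (min_le_left _ _)
    rwa [le_div_iff₀ hK0, mul_comm] at this
  have hv3 : ‖v‖ ≤ r / 4 := hv.trans (min_le_right _ _)
  have hin : ∀ s : ℂ, ‖s‖ < r → ‖ζ + s‖ ≤ ρ + r := fun s hs =>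
    (norm_add_le _ _).trans (by linarith)
  have hζ1 : ball (0 : ℂ) 1 ∈ 𝓝 ζ := isOpen_ball.mem_nhds (mem_ball_zero_iff.2 (hζ.trans_lt hρ))
  have tay : ∀ s : ℂ, ‖s‖ < r → ‖R t (ζ + s) - R t ζ - s * deriv (R t) ζ‖ ≤ M * ‖s‖ ^ 2 := by
    intro s hs
    have := schwarz_taylor (G := fun s => R t (ζ + s)) (δ := r) (b := b)
      ((h.diff t).comp (by fun_prop) fun s hs =>
        mem_ball_zero_iff.2 ((hin s (mem_ball_zero_iff.1 hs)).trans_lt hρ'))
      (fun s hs => hb t _ (hin s (mem_ball_zero_iff.1 hs))) s (mem_ball_zero_iff.2 hs)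
    simpa only [add_zero, smul_eq_mul, deriv_comp_const_add] using this
  have hcl : ∀ ω : ℂ, ‖ω - (ζ + v)‖ ≤ K * ‖v‖ ^ 2 → ‖ω - ζ‖ ≤ 2 * ‖v‖ := by
    intro ω hω
    have e : ω - ζ = (ω - (ζ + v)) + v := by ring
    rw [e]
    refine (norm_add_le _ _).trans ?_
    nlinarith
  have hsub : closedBall (ζ + v) (K * ‖v‖ ^ 2) ⊆ ball 0 1 := fun ω hω => by
    have a1 := hcl ω (by rwa [mem_closedBall, dist_eq_norm] at hω)
    have a2 := hin (ω - ζ) (by linarith)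
    rw [add_sub_cancel] at a2
    exact mem_ball_zero_iff.2 (a2.trans_lt hρ')
  obtain ⟨ω, hω, hω0⟩ := zero_of_lt (g := fun ω => R t ω - (R t ζ + deriv (R t) ζ * v))
    (c := ζ + v) (r := K * ‖v‖ ^ 2) (by positivity)
    (((h.diff t).sub_const _).diffContOnCl_ball hsub) (fun ω hω => by
      rw [mem_sphere, dist_eq_norm] at hω
      have a1 := hcl ω hω.le
      have a2 := tay v (by linarith)
      have a3 := tay (ω - ζ) (by linarith)
      rw [add_sub_cancel] at a3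
      have a4 : M * ‖ω - ζ‖ ^ 2 ≤ M * (2 * ‖v‖) ^ 2 := by gcongr
      have a5 : m * (K * ‖v‖ ^ 2) ≤ ‖deriv (R t) ζ * (ω - (ζ + v))‖ := by
        rw [norm_mul, hω]
        exact mul_le_mul_of_nonneg_right (hm (t, ζ) ⟨trivial, mem_closedBall_zero_iff.2 hζ⟩)
          (by positivity)
      have a6 : m * (K * ‖v‖ ^ 2) = 6 * (M * ‖v‖ ^ 2) := by rw [hK]; field_simp
      have e1 : R t (ζ + v) - (R t ζ + deriv (R t) ζ * v) =
          R t (ζ + v) - R t ζ - v * deriv (R t) ζ := by ring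
      have e2 : deriv (R t) ζ * (ω - (ζ + v)) = (R t ω - (R t ζ + deriv (R t) ζ * v)) -
          (R t ω - R t ζ - (ω - ζ) * deriv (R t) ζ) := by ring
      rw [e2] at a5
      have a7 := norm_sub_le (R t ω - (R t ζ + deriv (R t) ζ * v))
        (R t ω - R t ζ - (ω - ζ) * deriv (R t) ζ)
      have a8 : 0 < M * ‖v‖ ^ 2 := by positivity
      simp only [e1]
      nlinarith)
  exact ⟨ω, by simpa only [mem_ball, dist_eq_norm] using (mem_ball.1 hω).le, sub_eq_zero.1 hω0⟩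

lemma flow_alg {u : ℂ} {a D ε : ℝ} (ha : 0 < a) (hε : 0 < ε) (h1 : a / 2 ≤ u.re) (h2 : ‖u‖ ≤ D)
    (h3 : ε * D ^ 2 ≤ a / 2) (h4 : ε * a ≤ 4) : ‖1 - ε * u‖ ≤ 1 - ε * a / 4 := by
  refine (pow_le_pow_iff_left₀ (norm_nonneg _) (by linarith) two_ne_zero).1 ?_
  have e1 : ‖1 - ε * u‖ ^ 2 = 1 - 2 * ε * u.re + ε ^ 2 * ‖u‖ ^ 2 := by
    rw [Complex.sq_norm, Complex.sq_norm, normSq_apply, normSq_apply]
    simp only [sub_re, one_re, re_ofReal_mul, sub_im, one_im, im_ofReal_mul]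
    ring
  have e2 : ‖u‖ ^ 2 ≤ D ^ 2 := by gcongr
  have e3 : ε ^ 2 * ‖u‖ ^ 2 ≤ ε * (ε * D ^ 2) := by nlinarith [sq_nonneg ε]
  have e4 : ε * (ε * D ^ 2) ≤ ε * (a / 2) := by gcongr
  have e5 : ε * (a / 2) ≤ ε * u.re := by gcongr
  rw [e1]
  nlinarith [sq_nonneg (ε * a)]

/-- continuous families in the disc algebra -/
structure DAY {Y V : Type*} [TopologicalSpace Y] [NormedAddCommGroup V] [NormedSpace ℂ V]
    (f : Y → ℂ → V) : Prop where
  da : ∀ y, DA (f y)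
  cont : ContinuousOn (fun x : Y × ℂ => f x.1 x.2) (univ ×ˢ closedBall 0 1)

section day
variable {Y V : Type*} [TopologicalSpace Y] [NormedAddCommGroup V] [NormedSpace ℂ V]
  {f g : Y → ℂ → V} {a : Y → ℂ → ℂ}

theorem DAY.of_diff {k : ℂ → V} (hk : Differentiable ℂ k) : DAY fun (_ : Y) => k :=
  ⟨fun _ => hk.diffContOnCl, (hk.continuous.comp continuous_snd).continuousOn⟩

theorem DAY.par {c : Y → V} (hc : Continuous c) : DAY fun y (_ : ℂ) => c y :=
  ⟨fun _ => diffContOnCl_const, (hc.comp continuous_fst).continuousOn⟩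

theorem DAY.add (hf : DAY f) (hg : DAY g) : DAY fun y w => f y w + g y w :=
  ⟨fun y => (hf.da y).add (hg.da y), hf.cont.add hg.cont⟩

theorem DAY.sub (hf : DAY f) (hg : DAY g) : DAY fun y w => f y w - g y w :=
  ⟨fun y => (hf.da y).sub (hg.da y), hf.cont.sub hg.cont⟩

theorem DAY.smul (ha : DAY a) (hf : DAY f) : DAY fun y w => a y w • f y w :=
  ⟨fun y => ⟨(ha.da y).1.smul (hf.da y).1, (ha.da y).2.smul (hf.da y).2⟩, ha.cont.smul hf.cont⟩

theorem DAY.mul {b : Y → ℂ → ℂ} (ha : DAY a) (hb : DAY b) : DAY fun y w => a y w * b y w :=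
  ha.smul hb

theorem DAY.comp {Y' : Type*} [TopologicalSpace Y'] (hf : DAY f) {φ : Y' → Y}
    (hφ : Continuous φ) : DAY fun y => f (φ y) :=
  ⟨fun y => hf.da _, hf.cont.comp (f := fun x : Y' × ℂ => (φ x.1, x.2)) (by fun_prop)
    fun _ hx => ⟨trivial, hx.2⟩⟩

theorem DAY.post (ha : DAY a) {k : ℂ → V} (hk : Differentiable ℂ k) :
    DAY fun y w => k (a y w) :=
  ⟨fun y => hk.comp_diffContOnCl (ha.da y), hk.continuous.comp_continuousOn ha.cont⟩

theorem DAY.sum {ι : Type*} (s : Finset ι) {f : ι → Y → ℂ → V} (hf : ∀ i ∈ s, DAY (f i)) :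
    DAY fun y w => ∑ i ∈ s, f i y w :=
  ⟨fun y => ⟨DifferentiableOn.fun_sum fun i hi => ((hf i hi).da y).1,
    continuousOn_finsetSum _ fun i hi => ((hf i hi).da y).2⟩,
    continuousOn_finsetSum _ fun i hi => (hf i hi).cont⟩

/-- evaluation along a continuous map into the closed disc -/
theorem DAY.eval (hf : DAY f) {Z : Type*} [TopologicalSpace Z] {φ : Z → Y} {w : Z → ℂ}
    (hφ : Continuous φ) (hw : Continuous w) (h1 : ∀ z, ‖w z‖ ≤ 1) :
    Continuous fun z => f (φ z) (w z) :=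
  hf.cont.comp_continuous (f := fun z => (φ z, w z)) (by fun_prop)
    fun z => ⟨trivial, mem_closedBall_zero_iff.2 (h1 z)⟩

end day

section par

variable {Y : Type*} [TopologicalSpace Y]

theorem DAY.dsl {f : Y → ℂ → ℂ} (hf : DAY f) : DAY fun y => dslope (f y) 0 := by
  refine ⟨fun y => flow_dslope (hf.da y), fun x hx => ?_⟩
  rcases eq_or_ne x.2 0 with h0 | h0
  · have h1 := cont_dslope (hf.cont.mono (prod_mono Subset.rfl ball_subset_closedBall))
      fun y => (hf.da y).1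
    exact (h1.continuousAt ((isOpen_univ.prod isOpen_ball).mem_nhds
      ⟨trivial, by rw [h0]; exact mem_ball_self one_pos⟩)).continuousWithinAt
  · have h1 : ContinuousWithinAt (fun x : Y × ℂ => (f x.1 x.2 - f x.1 0) / x.2)
        (univ ×ˢ closedBall 0 1) x :=
      ((hf.cont x hx).sub ((hf.eval continuous_fst continuous_const
        fun _ => by simp).continuousWithinAt)).div continuousWithinAt_snd h0
    refine h1.congr_of_eventuallyEq_of_mem ?_ hx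
    filter_upwards [nhdsWithin_le_nhds (continuous_snd.continuousAt.eventually_ne h0)] with z hz
    rw [dslope_of_ne _ hz, slope_def_field, sub_zero]

theorem ptalg_pow (k : ℕ) : ∃ C > 0, ∀ (f : Y → ℂ → ℂ) (B : ℝ), DAY f →
    (∀ y t, ‖f y (ec t)‖ ≤ B) → ∃ g : Y → ℂ → ℂ, DAY g ∧ ∀ y t, ‖g y (ec t)‖ ≤ C * B ∧
      (g y (ec t)).im = (conj (ec t) ^ k * f y (ec t)).im := by
  induction k with
  | zero =>
    exact ⟨1, one_pos, fun f B hf hB => ⟨f, hf, fun y t => ⟨by simpa using hB y t, by simp⟩⟩⟩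
  | succ k ih =>
    obtain ⟨C, hC, ih⟩ := ih
    refine ⟨2 * C + 1, by positivity, fun f B hf hB => ?_⟩
    have h0 : ∀ y, ‖f y 0‖ ≤ B := fun y =>
      DA.hb (hf.da y) (hB y) 0 (mem_closedBall_self zero_le_one)
    have he : ∀ y t, f y (ec t) = f y 0 + ec t * dslope (f y) 0 (ec t) := fun y t => by
      have := sub_smul_dslope (f y) 0 (ec t)
      rw [sub_zero, smul_eq_mul] at this
      rw [this]; ring
    obtain ⟨g, hg, hg'⟩ := ih _ (2 * B) hf.dsl (fun y t => by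
      have h1 : ec t * dslope (f y) 0 (ec t) = f y (ec t) - f y 0 := by rw [he y t]; ring
      have h2 := congrArg norm h1
      rw [norm_mul, norm_ec, one_mul] at h2
      rw [h2]
      exact (norm_sub_le _ _).trans (by linarith [hB y t, h0 y]))
    have hc : Continuous fun y => conj (f y 0) :=
      continuous_conj.comp (hf.eval continuous_id continuous_const fun _ => by simp)
    refine ⟨fun y w => g y w - w ^ (k + 1) * conj (f y 0), hg.sub
      ((DAY.of_diff (k := fun w => w ^ (k + 1)) (by fun_prop)).mul (DAY.par hc)),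
      fun y t => ⟨?_, ?_⟩⟩
    · refine (norm_sub_le _ _).trans ?_
      rw [norm_mul, norm_pow, norm_ec, one_pow, one_mul, norm_conj]
      linarith [(hg' y t).1, h0 y]
    · have h1 : conj (ec t) * ec t = 1 := by rw [conj_ec, inv_mul_cancel₀ (ec_ne t)]
      have h2 : conj (ec t) ^ (k + 1) * f y (ec t) =
          conj (ec t ^ (k + 1) * conj (f y 0)) + conj (ec t) ^ k * dslope (f y) 0 (ec t) := by
        rw [map_mul, map_pow, conj_conj]
        conv_lhs => rw [he y t]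
        linear_combination (conj (ec t) ^ k * dslope (f y) 0 (ec t)) * h1
      rw [h2, add_im, conj_im, sub_im, (hg' y t).2]
      ring

lemma pflow_poly (P : Polynomial ℂ) : ∃ C > 0, ∀ (f : Y → ℂ → ℂ) (B : ℝ), DAY f →
    (∀ y t, ‖f y (ec t)‖ ≤ B) → ∃ g : Y → ℂ → ℂ, DAY g ∧ ∀ y t, ‖g y (ec t)‖ ≤ C * B ∧
      (g y (ec t)).im = (conj (P.eval (ec t)) * f y (ec t)).im := by
  induction P using Polynomial.induction_on' with
  | add p q hp hq =>
    obtain ⟨C, hC, hp⟩ := hp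
    obtain ⟨D, hD, hq⟩ := hq
    refine ⟨C + D, by positivity, fun f B hf hB => ?_⟩
    obtain ⟨g, hg, hg'⟩ := hp f B hf hB
    obtain ⟨g₂, hg₂, hg₂'⟩ := hq f B hf hB
    refine ⟨fun y w => g y w + g₂ y w, hg.add hg₂, fun y t => ⟨?_, ?_⟩⟩
    · exact (norm_add_le _ _).trans (by linarith [(hg' y t).1, (hg₂' y t).1])
    · rw [add_im, (hg' y t).2, (hg₂' y t).2, Polynomial.eval_add, map_add, add_mul, add_im]
  | monomial n a =>
    obtain ⟨C, hC, h⟩ := ptalg_pow (Y := Y) n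
    refine ⟨C * ‖a‖ + 1, by positivity, fun f B hf hB => ?_⟩
    obtain ⟨g, hg, hg'⟩ := h (fun y w => conj a * f y w) (‖a‖ * B)
      ((DAY.par continuous_const).mul hf) (fun y t => by
        rw [norm_mul, norm_conj]
        exact mul_le_mul_of_nonneg_left (hB y t) (norm_nonneg _))
    refine ⟨g, hg, fun y t => ⟨by linarith [(hg' y t).1, flow_nonneg (hB y)], ?_⟩⟩
    rw [(hg' y t).2, Polynomial.eval_monomial, map_mul, map_pow]
    congr 1
    ring

lemma pflow_approx {χ : TT → ℝ} (hχ : Continuous χ) {θ : ℝ} (hθ : 0 < θ) :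
    ∃ P : Polynomial ℂ, ∀ t, |χ t - (P.eval (ec t)).re| < θ := by
  obtain ⟨B', hB', hB''⟩ := desc (K := univ) isCompact_univ (U := ec) (B := fun t => (χ t : ℂ))
    continuous_ec.continuousOn (by fun_prop) (fun s _ t _ hst => by
      have := le_ec_dist s t
      rw [hst, sub_self, norm_zero] at this
      have h2 : dist s t = 0 := le_antisymm (by linarith) dist_nonneg
      rw [dist_eq_zero.1 h2])
  have hsub : sphere (0 : ℂ) 1 ⊆ ec '' univ := fun w hw => by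
    obtain ⟨t, ht⟩ := ec_surj (mem_sphere_zero_iff_norm.1 hw)
    exact ⟨t, trivial, ht⟩
  obtain ⟨P, hP⟩ := poly_approx (B := fun w => (B' w).re)
    (continuous_re.comp_continuousOn (hB'.mono hsub)) hθ
  refine ⟨P, fun t => ?_⟩
  have h3 := hP (ec t) (ec_mem t)
  simpa only [hB'' t trivial, ofReal_re] using h3

lemma pflow_re (P : Polynomial ℂ) : ∃ C > 0, ∀ (f : Y → ℂ → ℂ) (B : ℝ), DAY f →
    (∀ y t, ‖f y (ec t)‖ ≤ B) → ∃ g : Y → ℂ → ℂ, DAY g ∧ ∀ y t, ‖g y (ec t)‖ ≤ C * B ∧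
      (g y (ec t)).im = (P.eval (ec t)).re * (f y (ec t)).im := by
  obtain ⟨C, hC, h⟩ := pflow_poly (Y := Y) P
  obtain ⟨M, hM⟩ := isCompact_univ.exists_bound_of_continuousOn
    (f := fun t : TT => P.eval (ec t)) (by fun_prop)
  have hM0 : 0 ≤ M := (norm_nonneg _).trans (hM 0 trivial)
  refine ⟨M + C, by positivity, fun f B hf hB => ?_⟩
  obtain ⟨g, hg, hg'⟩ := h f B hf hB
  refine ⟨fun y w => (2 : ℂ)⁻¹ * (P.eval w * f y w + g y w), (DAY.par continuous_const).mul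
    (((DAY.of_diff P.differentiable).mul hf).add hg), fun y t => ⟨?_, ?_⟩⟩
  · have hB0 := flow_nonneg (hB y)
    have h1 : ‖P.eval (ec t) * f y (ec t)‖ ≤ M * B := by
      rw [norm_mul]
      exact mul_le_mul (hM t trivial) (hB y t) (norm_nonneg _) hM0
    have h2 := norm_add_le (P.eval (ec t) * f y (ec t)) (g y (ec t))
    have h3 := (hg' y t).1
    rw [norm_mul, norm_inv, Complex.norm_two]
    have : 0 ≤ M * B := by positivity
    have : 0 ≤ C * B := by positivity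
    nlinarith
  · have h2 : (2 : ℂ)⁻¹ = ((2⁻¹ : ℝ) : ℂ) := by push_cast; rfl
    rw [h2, im_ofReal_mul, add_im, (hg' y t).2, mul_im, mul_im, conj_re, conj_im]
    ring

/-- a finite partition of unity subordinate to a family of neighbourhoods -/
lemma pflow_pou {X : Type*} [TopologicalSpace X] [CompactSpace X] [T2Space X] {P : X → X → Prop}
    (h : ∀ x₀, ∀ᶠ x in 𝓝 x₀, P x₀ x) : ∃ (T : Finset X) (χ : T → X → ℝ), (∀ j, Continuous (χ j)) ∧
      (∀ j x, 0 ≤ χ j x) ∧ (∀ x, ∑ j, χ j x = 1) ∧ ∀ j x, χ j x ≠ 0 → P j x := by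
  obtain ⟨T, -, hT⟩ := isCompact_univ.elim_nhds_subcover (fun x₀ => interior {x | P x₀ x})
    (fun x _ => interior_mem_nhds.2 (h x))
  obtain ⟨χ, hχ⟩ := PartitionOfUnity.exists_isSubordinate isClosed_univ
    (fun j : T => interior {x | P j x}) (fun _ => isOpen_interior) (fun t ht => by
      obtain ⟨j, hj, hj'⟩ := mem_iUnion₂.1 (hT ht)
      exact mem_iUnion.2 ⟨⟨j, hj⟩, hj'⟩)
  refine ⟨T, fun j x => χ j x, fun j => (χ j).continuous, fun j x => χ.nonneg j x, fun x => ?_,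
    fun j x h0 => interior_subset (hχ j (subset_tsupport _ h0))⟩
  rw [← finsum_eq_sum_of_fintype]
  exact χ.sum_eq_one (mem_univ x)

variable [CompactSpace Y] [T2Space Y]

theorem ptalg {χ : Y × TT → ℝ} (hχ : Continuous χ) {θ : ℝ} (hθ : 0 < θ) : ∃ C : ℝ,
    ∀ (f : Y → ℂ → ℂ) (B : ℝ), DAY f → (∀ y t, ‖f y (ec t)‖ ≤ B) → ∃ g : Y → ℂ → ℂ, DAY g ∧
      ∀ y t, ‖g y (ec t)‖ ≤ C * B ∧ |(g y (ec t)).im - χ (y, t) * (f y (ec t)).im| ≤ θ * B := by
  choose P hP using fun y₀ : Y =>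
    pflow_approx (χ := fun t => χ (y₀, t)) (hχ.comp (by fun_prop)) hθ
  obtain ⟨T, φ, φc, φ0, φ1, φP⟩ := pflow_pou (X := Y)
    (P := fun y₀ y => ∀ t ∈ (univ : Set TT), |χ (y, t) - ((P y₀).eval (ec t)).re| < θ) fun y₀ =>
      isCompact_univ.eventually_forall_of_forall_eventually fun t _ =>
        (by fun_prop : Continuous fun x : Y × TT =>
          |χ (x.1, x.2) - ((P y₀).eval (ec x.2)).re|).continuousAt.eventually
            (gt_mem_nhds (hP y₀ t))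
  choose C hC0 hC using fun j : T => pflow_re (Y := Y) (P j)
  refine ⟨∑ j, C j, fun f B hf hB => ?_⟩
  choose g hg hg' using fun j => hC j f B hf hB
  refine ⟨fun y w => ∑ j, (φ j y : ℂ) * g j y w, DAY.sum _ fun j _ =>
    (DAY.par (continuous_ofReal.comp (φc j))).mul (hg j), fun y t => ⟨?_, ?_⟩⟩
  · rw [Finset.sum_mul]
    refine (norm_sum_le _ _).trans (Finset.sum_le_sum fun j _ => ?_)
    have h1 : φ j y ≤ 1 := φ1 y ▸ Finset.single_le_sum (fun i _ => φ0 i y) (Finset.mem_univ j)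
    rw [norm_mul, norm_real, Real.norm_of_nonneg (φ0 j y)]
    exact (mul_le_of_le_one_left (norm_nonneg _) h1).trans (hg' j y t).1
  · have hB0 := flow_nonneg (hB y)
    have s2 : (∑ j, (φ j y : ℂ) * g j y (ec t)).im - χ (y, t) * (f y (ec t)).im =
        ∑ j, φ j y * ((((P j).eval (ec t)).re - χ (y, t)) * (f y (ec t)).im) := by
      rw [im_sum, ← one_mul (χ (y, t) * _), ← φ1 y, Finset.sum_mul, ← Finset.sum_sub_distrib]
      exact Finset.sum_congr rfl fun j _ => by rw [im_ofReal_mul, (hg' j y t).2]; ring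
    rw [s2, ← one_mul (θ * B), ← φ1 y, Finset.sum_mul]
    refine (Finset.abs_sum_le_sum_abs _ _).trans (Finset.sum_le_sum fun j _ => ?_)
    rcases eq_or_ne (φ j y) 0 with h0 | h0
    · simp [h0]
    · rw [abs_mul, abs_of_nonneg (φ0 j y), abs_mul, abs_sub_comm]
      exact mul_le_mul_of_nonneg_left (mul_le_mul (φP j y h0 t trivial).le
        ((abs_im_le_norm _).trans (hB y t)) (abs_nonneg _) hθ.le) (φ0 j y)

/-- Uniform approximate solution of a Riemann-Hilbert problem. -/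
theorem Fam.psolve {R N : Y × TT → ℂ → ℂ} (h : Fam R)
    (hc : ContinuousOn (fun x : (Y × TT) × ℂ => N x.1 x.2) (univ ×ˢ ball 0 1))
    (hd : ∀ t, DifferentiableOn ℂ (N t) (ball 0 1)) {ρ θ : ℝ} (hρ : ρ < 1) (hθ : 0 < θ) :
    ∃ C : ℝ, ∀ (x : Y → ℂ → ℂ) (ζ : Y → TT → ℂ), DAY x →
      (∀ y t, ‖ζ y t‖ ≤ ρ ∧ x y (ec t) = R (y, t) (ζ y t)) →
      ∃ g : Y → ℂ → ℂ, DAY g ∧ ∀ y t, ‖g y (ec t)‖ ≤ C ∧
        |(g y (ec t)).im - (N (y, t) (ζ y t)).im| ≤ θ := by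
  classical
  choose p hp using fun t₀ : Y × TT =>
    runge (h.diff t₀) (h.inj t₀) (h.der t₀) (hd t₀) hρ (θ := θ / 4) (by positivity)
  obtain ⟨T, χ, χc, χ0, χ1, χP⟩ := pflow_pou (X := Y × TT)
    (P := fun t₀ t => ∀ ζ ∈ closedBall (0 : ℂ) ρ, ‖N t ζ - (p t₀).eval (R t ζ)‖ < θ / 2)
    fun t₀ => (isCompact_closedBall _ _).eventually_forall_of_forall_eventually fun ζ hζ => by
      have hn : (univ : Set (Y × TT)) ×ˢ ball (0 : ℂ) 1 ∈ 𝓝 (t₀, ζ) :=
        (isOpen_univ.prod isOpen_ball).mem_nhds ⟨trivial, closedBall_subset_ball hρ hζ⟩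
      have hca : ContinuousAt
          (fun z : (Y × TT) × ℂ => ‖N z.1 z.2 - (p t₀).eval (R z.1 z.2)‖) (t₀, ζ) :=
        ((hc.continuousAt hn).sub
          ((p t₀).continuous.continuousAt.comp (h.cont.continuousAt hn))).norm
      exact hca.eventually (gt_mem_nhds ((hp t₀ ζ (mem_closedBall_zero_iff.1 hζ)).trans_lt
        (by linarith)))
  set η : ℝ := θ / 2 / (Fintype.card T + 1) with hη
  have hη0 : 0 < η := by positivity
  have h2 : ∀ j : T, ∃ C : ℝ, ∀ (x : Y → ℂ → ℂ) (ζ : Y → TT → ℂ), DAY x →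
      (∀ y t, ‖ζ y t‖ ≤ ρ ∧ x y (ec t) = R (y, t) (ζ y t)) → ∃ g : Y → ℂ → ℂ, DAY g ∧
        ∀ y t, ‖g y (ec t)‖ ≤ C ∧
          |(g y (ec t)).im - χ j (y, t) * ((p j).eval (x y (ec t))).im| ≤ η := by
    intro j
    obtain ⟨B, hB0, hB⟩ := flow_bound (F := fun t ζ => (p j).eval (R t ζ))
      ((p j).continuous.comp_continuousOn h.cont) hρ
    obtain ⟨C, hC⟩ := ptalg (χc j) (θ := η / B) (by positivity)
    refine ⟨C * B, fun x ζ hx hζ => ?_⟩
    obtain ⟨g, hg, hg'⟩ := hC _ B (hx.post (p j).differentiable) (fun y t => by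
      rw [(hζ y t).2]; exact hB _ _ (hζ y t).1)
    exact ⟨g, hg, fun y t => ⟨(hg' y t).1, by simpa [hB0.ne'] using (hg' y t).2⟩⟩
  choose C hC using h2
  refine ⟨∑ j, C j, fun x ζ hx hζ => ?_⟩
  choose g hg hg' using fun j => hC j x ζ hx hζ
  refine ⟨fun y w => ∑ j, g j y w, DAY.sum _ fun j _ => hg j, fun y t => ⟨?_, ?_⟩⟩
  · exact (norm_sum_le _ _).trans (Finset.sum_le_sum fun j _ => (hg' j y t).1)
  · have s1 := χ1 (y, t)
    have s2 : (∑ j, g j y (ec t)).im - (N (y, t) (ζ y t)).im =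
        ∑ j, ((g j y (ec t)).im - χ j (y, t) * (N (y, t) (ζ y t)).im) := by
      rw [Finset.sum_sub_distrib, ← Finset.sum_mul, s1, one_mul, im_sum]
    have s3 : ∀ j, |(g j y (ec t)).im - χ j (y, t) * (N (y, t) (ζ y t)).im| ≤
        η + χ j (y, t) * (θ / 2) := by
      intro j
      have a1 := (hg' j y t).2
      have a2 : |χ j (y, t) * ((p j).eval (x y (ec t))).im - χ j (y, t) * (N (y, t) (ζ y t)).im| ≤
          χ j (y, t) * (θ / 2) := by
        rcases eq_or_ne (χ j (y, t)) 0 with h0 | h0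
        · simp [h0]
        · have a4 := χP j _ h0 (ζ y t) (mem_closedBall_zero_iff.2 (hζ y t).1)
          rw [← mul_sub, abs_mul, abs_of_nonneg (χ0 j _), abs_sub_comm, ← sub_im, (hζ y t).2]
          exact mul_le_mul_of_nonneg_left ((abs_im_le_norm _).trans a4.le) (χ0 j _)
      exact (abs_sub_le _ _ _).trans (add_le_add a1 a2)
    rw [s2]
    refine (Finset.abs_sum_le_sum_abs _ _).trans ((Finset.sum_le_sum fun j _ => s3 j).trans ?_)
    rw [Finset.sum_add_distrib, ← Finset.sum_mul, s1, Finset.sum_const, Finset.card_univ,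
      nsmul_eq_mul]
    have s4 : η * (Fintype.card T + 1) = θ / 2 := by rw [hη]; field_simp
    linarith

lemma pflow_one {R : Y × TT → ℂ → ℂ} (h : Fam R) {c : Y → ℂ → ℂ} (hc : DAY c)
    (h0 : ∀ y t, R (y, t) 0 = c y (ec t)) {ρ θ : ℝ} (hρ : ρ < 1) (hθ : 0 < θ) :
    ∃ q : ℝ, 0 ≤ q ∧ q < 1 ∧ ∀ (r : ℝ) (x : Y → ℂ → ℂ), ∃ x' : Y → ℂ → ℂ, r ≤ ρ → DAY x →
      (∀ y t, ∃ ζ : ℂ, ‖ζ‖ ≤ r ∧ x y (ec t) = R (y, t) ζ) → DAY x' ∧ ∀ y t,
        (∃ ζ : ℂ, ‖ζ‖ ≤ q * r ∧ x' y (ec t) = R (y, t) ζ) ∧ ‖x' y (ec t) - x y (ec t)‖ ≤ θ := by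
  obtain ⟨N, hN, hN', hNe⟩ := h.exists_log
  obtain ⟨C, hC⟩ := h.psolve (N := fun t ζ => -N t ζ) hN.neg (fun t => (hN' t).neg) hρ one_pos
  obtain ⟨CN, -, hCN⟩ := flow_bound hN hρ
  obtain ⟨L, hL0, hL⟩ := flow_bound (F := fun t ζ => dslope (R t) 0 ζ) (cont_dslope h.cont h.diff) hρ
  obtain ⟨K, hK0, δ, hδ0, hK⟩ := h.step hρ
  set a : ℝ := Real.exp (-(C + CN)) with ha
  set D : ℝ := Real.exp (C + CN) with hD
  set E : ℝ := Real.exp C with hE
  have ha0 : 0 < a := Real.exp_pos _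
  have hD0 : 0 < D := Real.exp_pos _
  have hE0 : 0 < E := Real.exp_pos _
  have hsm : ∀ A B : ℝ, 0 < B → ∀ᶠ ε : ℝ in 𝓝[>] 0, ε * A ≤ B := fun A B hB =>
    mem_nhdsWithin_of_mem_nhds ((((continuous_id.mul continuous_const).tendsto' 0 0
      (by simp)).eventually (gt_mem_nhds hB)).mono fun _ h => h.le)
  obtain ⟨ε, ⟨⟨⟨⟨e1, e2⟩, e3⟩, e4⟩, e5⟩, hε⟩ := ((((((hsm (D ^ 2) (a / 2) (by positivity)).and
    (hsm a 4 (by norm_num))).and (hsm D δ hδ0)).and (hsm (L * E) θ hθ)).and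
    (hsm (K * D ^ 2) (a / 8) (by positivity))).and self_mem_nhdsWithin).exists
  have hε0 : 0 < ε := hε
  refine ⟨1 - ε * a / 8, by linarith, by have := mul_pos hε0 ha0; linarith, fun r x => ?_⟩
  by_cases hx : r ≤ ρ ∧ DAY x ∧ ∀ y t, ∃ ζ : ℂ, ‖ζ‖ ≤ r ∧ x y (ec t) = R (y, t) ζ
  swap
  · exact ⟨x, fun a b c => absurd ⟨a, b, c⟩ hx⟩
  obtain ⟨hr, hx, hζ⟩ := hx
  choose ζ hζ hζ' using hζ
  obtain ⟨g, hg, hg'⟩ := hC x ζ hx fun y t => ⟨(hζ y t).trans hr, hζ' y t⟩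
  refine ⟨fun y w => x y w - ε * ((x y w - c y w) * exp (g y w)), fun _ _ _ => ⟨hx.sub
    ((DAY.par continuous_const).mul ((hx.sub hc).mul (hg.post differentiable_exp))),
    fun y t => ?_⟩⟩
  have z1 : ‖ζ y t‖ ≤ ρ := (hζ y t).trans hr
  have z2 : ζ y t ∈ ball (0 : ℂ) 1 := mem_ball_zero_iff.2 (z1.trans_lt hρ)
  have z3 : ‖ζ y t‖ ≤ 1 := (z1.trans_lt hρ).le
  have x1 : x y (ec t) - c y (ec t) = ζ y t * dslope (R (y, t)) 0 (ζ y t) := by
    have := sub_smul_dslope (R (y, t)) 0 (ζ y t)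
    rw [sub_zero, smul_eq_mul] at this
    rw [this, hζ' y t, h0 y t]
  have x2 : dslope (R (y, t)) 0 (ζ y t) = deriv (R (y, t)) (ζ y t) * exp (N (y, t) (ζ y t)) := by
    rw [hNe _ _ z2, mul_div_cancel₀ _ (h.der _ _ z2)]
  set s : ℂ := g y (ec t) + N (y, t) (ζ y t) with hs
  have s1 : ‖s‖ ≤ C + CN := (norm_add_le _ _).trans (add_le_add (hg' y t).1 (hCN _ _ z1))
  have s2 : |s.im| ≤ 1 := by simpa [hs] using (hg' y t).2
  have s3 := abs_le.1 ((abs_re_le_norm s).trans s1)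
  have u1 : ‖exp s‖ ≤ D := by rw [norm_exp]; exact Real.exp_le_exp.2 s3.2
  have u2 : a / 2 ≤ (exp s).re := by
    have b1 : a ≤ Real.exp s.re := Real.exp_le_exp.2 s3.1
    have b2 := Real.one_sub_sq_div_two_le_cos (x := s.im)
    have b3 : s.im ^ 2 ≤ 1 := by rwa [sq_le_one_iff_abs_le_one]
    rw [exp_re]
    nlinarith
  have u3 := flow_alg ha0 hε0 u2 u1 e1 e2
  have v1 : ‖-(ε * (ζ y t * exp s))‖ ≤ ε * (‖ζ y t‖ * D) := by
    rw [norm_neg, norm_mul, norm_mul, norm_real, Real.norm_of_nonneg hε0.le]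
    gcongr
  have v2 : ε * (‖ζ y t‖ * D) ≤ ε * (1 * D) := by gcongr
  obtain ⟨ω, hω, hω'⟩ := hK (y, t) (ζ y t) (-(ε * (ζ y t * exp s))) z1 (by linarith)
  refine ⟨⟨ω, ?_, ?_⟩, ?_⟩
  · have w1 : ‖ζ y t + -(ε * (ζ y t * exp s))‖ ≤ ‖ζ y t‖ * (1 - ε * a / 4) := by
      have : ζ y t + -(ε * (ζ y t * exp s)) = ζ y t * (1 - ε * exp s) := by ring
      rw [this, norm_mul]
      gcongr
    have w2 : K * ‖-(ε * (ζ y t * exp s))‖ ^ 2 ≤ K * (ε * (‖ζ y t‖ * D)) ^ 2 := by gcongr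
    have w3 : K * (ε * (‖ζ y t‖ * D)) ^ 2 = ‖ζ y t‖ * ε * (ε * (K * D ^ 2)) * ‖ζ y t‖ := by ring
    have w4 : ‖ζ y t‖ * ε * (ε * (K * D ^ 2)) * ‖ζ y t‖ ≤ ‖ζ y t‖ * ε * (a / 8) * 1 := by gcongr
    have w5 := norm_le_norm_sub_add ω (ζ y t + -(ε * (ζ y t * exp s)))
    have w6 : (1 - ε * a / 8) * ‖ζ y t‖ ≤ (1 - ε * a / 8) * r :=
      mul_le_mul_of_nonneg_left (hζ y t) (by linarith)
    linarith
  · simp only
    rw [hω', x1, x2, hs, exp_add, hζ' y t]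
    ring
  · have y1 : ‖exp (g y (ec t))‖ ≤ E := by
      rw [norm_exp]
      exact Real.exp_le_exp.2 ((re_le_norm _).trans (hg' y t).1)
    have y2 := hL (y, t) _ z1
    simp only
    rw [sub_sub_cancel_left, norm_neg, x1, norm_mul, norm_mul, norm_mul, norm_real,
      Real.norm_of_nonneg hε0.le]
    calc ε * (‖ζ y t‖ * ‖dslope (R (y, t)) 0 (ζ y t)‖ * ‖exp (g y (ec t))‖) ≤ ε * (1 * L * E) := by gcongr
      _ ≤ θ := by linarith

theorem Fam.pflow {R : Y × TT → ℂ → ℂ} (h : Fam R)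
    {c x₀ : Y → ℂ → ℂ} (hc : DAY c) (hx : DAY x₀) (h0 : ∀ y t, R (y, t) 0 = c y (ec t)) {ρ θ : ℝ}
    (hρ0 : 0 ≤ ρ) (hρ : ρ < 1) (hθ : 0 < θ)
    (hs : ∀ y t, ∃ ζ : ℂ, ‖ζ‖ ≤ ρ ∧ x₀ y (ec t) = R (y, t) ζ) :
    ∃ (N : ℕ) (x : ℕ → Y → ℂ → ℂ), x 0 = x₀ ∧
      (∀ j, DAY (x j) ∧ ∀ y t, (∃ ζ : ℂ, ‖ζ‖ ≤ ρ ∧ x j y (ec t) = R (y, t) ζ) ∧
        ‖x (j + 1) y (ec t) - x j y (ec t)‖ ≤ θ) ∧ ∀ y t, ‖x N y (ec t) - c y (ec t)‖ ≤ θ := by
  obtain ⟨q, hq0, hq1, hq⟩ := pflow_one h hc h0 hρ hθ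
  choose F hF using hq
  obtain ⟨L, hL0, hL⟩ := flow_bound (F := fun t ζ => dslope (R t) 0 ζ) (cont_dslope h.cont h.diff) hρ
  have hle : ∀ j : ℕ, q ^ j * ρ ≤ ρ := fun j =>
    mul_le_of_le_one_left hρ0 (pow_le_one₀ hq0 hq1.le)
  let x : ℕ → Y → ℂ → ℂ := fun j => Nat.rec x₀ (fun j y => F (q ^ j * ρ) y) j
  have hx' : ∀ j, x (j + 1) = F (q ^ j * ρ) (x j) := fun _ => rfl
  have key : ∀ j, DAY (x j) ∧ ∀ y t, ∃ ζ : ℂ, ‖ζ‖ ≤ q ^ j * ρ ∧ x j y (ec t) = R (y, t) ζ := by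
    intro j
    induction j with
    | zero => exact ⟨hx, by rw [pow_zero, one_mul]; exact hs⟩
    | succ j ih =>
      obtain ⟨a, b⟩ := hF _ _ (hle j) ih.1 ih.2
      rw [hx', pow_succ', mul_assoc]
      exact ⟨a, fun y t => (b y t).1⟩
  obtain ⟨N, hN⟩ := exists_pow_lt_of_lt_one (div_pos hθ hL0) hq1
  refine ⟨N, x, rfl, fun j => ⟨(key j).1, fun y t => ⟨?_, ?_⟩⟩, fun y t => ?_⟩
  · obtain ⟨ζ, h1, h2⟩ := (key j).2 y t
    exact ⟨ζ, h1.trans (hle j), h2⟩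
  · exact ((hF _ _ (hle j) (key j).1 (key j).2).2 y t).2
  · obtain ⟨ζ, h1, h2⟩ := (key N).2 y t
    have := sub_smul_dslope (R (y, t)) 0 ζ
    rw [sub_zero, smul_eq_mul] at this
    rw [h2, ← h0 y t, ← this, norm_mul]
    have h3 := hL (y, t) ζ (h1.trans (hle N))
    have h4 : q ^ N * ρ ≤ q ^ N * 1 := mul_le_mul_of_nonneg_left hρ.le (pow_nonneg hq0 N)
    rw [lt_div_iff₀ hL0] at hN
    calc ‖ζ‖ * ‖dslope (R (y, t)) 0 ζ‖ ≤ q ^ N * L :=
          mul_le_mul (by linarith) h3 (norm_nonneg _) (pow_nonneg hq0 N)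
      _ ≤ θ := hN.le

end par

theorem Fam.flow {R : TT → ℂ → ℂ} (h : Fam R) {c x₀ : ℂ → ℂ} (hc : DA c) (hx : DA x₀)
    (h0 : ∀ t, R t 0 = c (ec t)) {ρ θ : ℝ} (hρ : ρ < 1) (hθ : 0 < θ)
    (hs : ∀ t, ∃ ζ : ℂ, ‖ζ‖ ≤ ρ ∧ x₀ (ec t) = R t ζ) :
    ∃ (N : ℕ) (x : ℕ → ℂ → ℂ), x 0 = x₀ ∧
      (∀ j, DA (x j) ∧ ∀ t, (∃ ζ : ℂ, ‖ζ‖ ≤ ρ ∧ x j (ec t) = R t ζ) ∧
        ‖x (j + 1) (ec t) - x j (ec t)‖ ≤ θ) ∧ ∀ t, ‖x N (ec t) - c (ec t)‖ ≤ θ := by
  have hρ0 : 0 ≤ ρ := by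
    obtain ⟨ζ, hζ, -⟩ := hs 0
    exact (norm_nonneg _).trans hζ
  have key : ∀ {f : ℂ → ℂ}, DA f → DAY fun _ : Unit => f := fun hf =>
    ⟨fun _ => hf, hf.continuousOn_ball.comp continuousOn_snd fun _ hx => hx.2⟩
  obtain ⟨N, x, h1, h2, h3⟩ := Fam.pflow (Y := Unit) (R := fun y => R y.2)
    ⟨h.cont.comp (f := fun x : (Unit × TT) × ℂ => (x.1.2, x.2)) (by fun_prop)
      fun _ hx => ⟨trivial, hx.2⟩, fun _ => h.diff _, fun _ => h.inj _, fun _ => h.der _⟩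
    (key hc) (key hx) (fun _ => h0) hρ0 hρ hθ fun _ => hs
  exact ⟨N, fun j => x j (), congrFun h1 (), fun j => ⟨(h2 j).1.da _, (h2 j).2 ()⟩, h3 ()⟩

end Pool.Agent.MP_4baaa2_an.H94

/-!
A function of the disc algebra in a moving channel.
-/

namespace Pool.Agent.MP_4baaa2_an.H94

open Set Metric Filter Topology Complex MeasureTheory
open scoped ComplexConjugate
open Pool.Agent.Lib.PlaneTop

variable {Y : Type*} [TopologicalSpace Y] {K : Set Y}

lemma chan_open {Z : Type*} [TopologicalSpace Z] (hK : IsCompact K) {F : Z → Y → ℂ}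
    (hF : ContinuousOn (fun x : Z × Y => F x.1 x.2) (univ ×ˢ K)) :
    IsOpen {z | ∀ y ∈ K, F z y ≠ 0} := by
  have : CompactSpace K := isCompact_iff_compactSpace.1 hK
  have hc : Continuous fun x : Z × K => F x.1 x.2 :=
    hF.comp_continuous (f := fun x : Z × K => (x.1, (x.2 : Y))) (by fun_prop)
      fun x => ⟨trivial, x.2.2⟩
  rw [isOpen_iff_mem_nhds]
  intro z hz
  have := (isCompact_univ (X := K)).eventually_forall_of_forall_eventually (x₀ := z)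
    (P := fun z y => F z y ≠ 0) fun y _ => hc.continuousAt.eventually_ne (hz y y.2)
  exact this.mono fun z h y hy => h ⟨y, hy⟩ trivial

lemma chan_snd {Z : Type*} [TopologicalSpace Z] {U : Y → ℂ} (hU : ContinuousOn U K) :
    ContinuousOn (fun x : Z × Y => U x.2) (univ ×ˢ K) :=
  hU.comp continuousOn_snd fun _ hx => hx.2

/-- logarithms on the components of the domain `{x | ∀ y, x + (1 - x) U y ≠ 0}`. -/
theorem chan_log (hK : IsCompact K) (hp : IsPathConnected K) {U : Y → ℂ} (hU : ContinuousOn U K)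
    {y₀ : Y} (hy : y₀ ∈ K) (h1 : U y₀ = 1) {c : ℂ}
    (hb : Bornology.IsBounded {x : ℂ | ∀ y ∈ K, x + c + (1 - (x + c)) * U y ≠ 0}) :
    ∀ b ∉ connectedComponentIn {x : ℂ | ∀ y ∈ K, x + c + (1 - (x + c)) * U y ≠ 0} 0,
      HasLogOn (fun x => x - b)
        (connectedComponentIn {x : ℂ | ∀ y ∈ K, x + c + (1 - (x + c)) * U y ≠ 0} 0) := by
  set Ω := {x : ℂ | ∀ y ∈ K, x + c + (1 - (x + c)) * U y ≠ 0} with hΩ
  have hsub := connectedComponentIn_subset Ω 0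
  have hA : ∀ b ∉ Ω, HasLogOn (fun x => x - b) Ω := by
    intro b hb
    simp only [hΩ, mem_ofPred_eq, not_forall, not_not] at hb
    obtain ⟨y, hyK, hy0⟩ := hb
    obtain ⟨γ, hγ⟩ := hp.joinedIn y₀ hy y hyK
    have hγ' : ∀ s : ℝ, γ.extend s ∈ K := fun s => by
      have : γ.extend s ∈ range γ := γ.extend_range ▸ mem_range_self s
      obtain ⟨u, hu⟩ := this
      exact hu ▸ hγ u
    have hc : Continuous fun s : ℝ => U (γ.extend s) := hU.comp_continuous (by fun_prop) hγ'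
    have hl := HasLogOn.homotopy (H := fun s x => x + c + (1 - (x + c)) * U (γ.extend s))
      (K := Ω) (Continuous.continuousOn (Continuous.add (by fun_prop)
        (Continuous.mul (by fun_prop) (hc.comp continuous_fst)))) (fun s _ x hx => hx _ (hγ' s))
      ((hasLogOn_const one_ne_zero Ω).congr fun x _ => by simp [h1])
    have hne : 1 - U y ≠ 0 := fun h => by
      rw [← sub_eq_zero.1 h] at hy0
      simp at hy0
    refine (hl.div (hasLogOn_const hne Ω)).congr fun x _ => ?_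
    rw [eq_div_iff hne, γ.extend_one]
    linear_combination -hy0
  intro b hbG
  by_cases hbΩ : b ∈ Ω
  swap
  · exact (hA b hbΩ).mono hsub
  have ho : IsOpen Ω := chan_open (F := fun x y => x + c + (1 - (x + c)) * U y) hK
    ((Continuous.continuousOn (by fun_prop)).add
      ((Continuous.continuousOn (by fun_prop)).mul (chan_snd hU)))
  set S : Set ℝ := Ici 0 ∩ (fun s : ℝ => b + s) ⁻¹' Ωᶜ with hS
  have hScl : IsClosed S := isClosed_Ici.inter (ho.isClosed_compl.preimage (by fun_prop))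
  have hSne : S.Nonempty := by
    obtain ⟨C, hC⟩ := hb.exists_norm_le
    have hC0 := (norm_nonneg _).trans (hC b hbΩ)
    refine ⟨C + ‖b‖ + 1, by simp only [mem_Ici]; positivity, fun h => ?_⟩
    have a1 := hC _ h
    have a2 := norm_sub_le (b + ((C + ‖b‖ + 1 : ℝ) : ℂ)) b
    rw [add_sub_cancel_left, norm_real, Real.norm_of_nonneg (by positivity)] at a2
    linarith
  have hbdd : BddBelow S := ⟨0, fun s hs => hs.1⟩
  have hmem := hScl.csInf_mem hSne hbdd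
  set s₀ := sInf S with hs₀
  have hin : ∀ s ∈ Ico 0 s₀, b + (s : ℝ) ∈ Ω := fun s hs => by
    by_contra hn
    exact absurd (csInf_le hbdd ⟨hs.1, hn⟩) (not_le.2 hs.2)
  have hout : ∀ s ∈ Icc 0 s₀, b + (s : ℝ) ∉ connectedComponentIn Ω 0 := by
    intro s hs hG
    rcases hs.2.eq_or_lt with rfl | hlt
    · exact hmem.2 (hsub hG)
    · have hpre : IsPreconnected ((fun s : ℝ => b + s) '' Ico 0 s₀) :=
        isPreconnected_Ico.image _ (by fun_prop)
      have := hpre.subset_connectedComponentIn ⟨s, ⟨hs.1, hlt⟩, rfl⟩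
        (by rintro _ ⟨u, hu, rfl⟩; exact hin u hu)
      rw [← connectedComponentIn_eq hG] at this
      exact hbG (this ⟨0, ⟨le_rfl, hs.1.trans_lt hlt⟩, by simp⟩)
  have hj : JoinedIn (connectedComponentIn Ω 0)ᶜ b (b + s₀) :=
    JoinedIn.ofLine (f := fun u : ℝ => b + ((u * s₀ : ℝ) : ℂ)) (by fun_prop) (by simp) (by simp)
      (by
        rintro _ ⟨u, hu, rfl⟩
        exact hout _ ⟨mul_nonneg hu.1 hmem.1, mul_le_of_le_one_left hmem.1 hu.2⟩)
  exact ((hA _ hmem.2).mono hsub).of_joinedIn hj.symm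

lemma chan_cont {ρ θ : Y → ℝ} {Z : Set Y} (hρ : ContinuousOn ρ Z) (hθ : ContinuousOn θ Z) :
    ContinuousOn (fun y => (ρ y : ℂ) * exp (θ y * I)) Z :=
  (continuous_ofReal.comp_continuousOn hρ).mul
    ((continuous_ofReal.comp_continuousOn hθ).mul continuousOn_const).cexp

/-- `1` and the sink are joined. -/
theorem chan_join (hK : IsCompact K) {ρ θ : Y → ℝ} (hρ : ContinuousOn ρ K)
    (hθ : ContinuousOn θ K) {y₀ : Y} (hy : y₀ ∈ K) (h1 : ρ y₀ = 1 ∧ θ y₀ = 0)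
    (inj : ∀ y ∈ K, ∀ y' ∈ K, 0 < ρ y → ρ y * exp (θ y * I) = ρ y' * exp (θ y' * I) → θ y = θ y')
    {L : ℂ} (hL : ‖exp L‖ < 1 / 2) (hb : ∀ y ∈ K, (ρ y, θ y) ∈ BrS L) :
    JoinedIn {x : ℂ | ∀ y ∈ K, x + (1 - x) * (ρ y * exp (θ y * I)) ≠ 0} (exp L) 1 := by
  set U : Y → ℂ := fun y => ρ y * exp (θ y * I) with hU
  have hUc : ContinuousOn U K := chan_cont hρ hθ
  have hUn : ∀ y ∈ K, ‖U y‖ = ρ y := fun y hy => by
    rw [hU]
    simp only [norm_mul, norm_exp_ofReal_mul_I, mul_one, norm_real]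
    exact Real.norm_of_nonneg (hb y hy).1
  obtain ⟨B, hB, hBe, -, hB0⟩ := br hL
  obtain ⟨B', hB', hB''⟩ := desc hK (B := fun y => B (ρ y, θ y)) hUc
    (hB.comp (hρ.prodMk hθ) hb) (fun y hy y' hy' h => by
      have e : ρ y = ρ y' := by rw [← hUn y hy, h, hUn y' hy']
      rcases (hb y hy).1.eq_or_lt with h0 | h0
      · have h0' : ρ y = 0 := h0.symm
        rw [← e, h0', hB0, hB0]
      · rw [inj y hy y' hy' h0 h, e])
  set c := exp L with hc
  have hc1 : 1 - c ≠ 0 := fun h => by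
    rw [← sub_eq_zero.1 h, norm_one] at hL
    linarith
  have hc1' : c - 1 ≠ 0 := fun h => hc1 (by linear_combination -h)
  have hl : HasLogOn (fun u => u - c / (c - 1)) (U '' K) := by
    have : HasLogOn (fun u => c + (1 - c) * u) (U '' K) := ⟨B', hB', by
      rintro _ ⟨y, hy, rfl⟩
      rw [hB'' y hy, hBe _ (hb y hy)]⟩
    refine (this.div (hasLogOn_const hc1 _)).congr fun u _ => ?_
    field_simp
    ring
  set D := {x : ℂ | ∀ y ∈ K, x + (1 - x) * U y ≠ 0} with hD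
  have ho : IsOpen D := chan_open (F := fun x y => x + (1 - x) * U y) hK
    ((Continuous.continuousOn (by fun_prop)).add
      ((Continuous.continuousOn (by fun_prop)).mul (chan_snd hUc)))
  obtain ⟨r, hr, hrD⟩ := Metric.isOpen_iff.1 ho 1 fun y _ => by simp
  obtain ⟨d, hd, hj⟩ := bk (hK.image_of_continuousOn hUc) hl (1 / r + 2)
  have hne : ∀ u ∈ (U '' K)ᶜ, u - 1 ≠ 0 := fun u hu h =>
    hu ⟨y₀, hy, by rw [sub_eq_zero.1 h]; simp [hU, h1.1, h1.2]⟩
  have hj' := (hj.map_continuousOn (f := fun u => u / (u - 1))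
    (continuousOn_id.div (by fun_prop) hne)).mono (V := D) (by
      rintro _ ⟨u, hu, rfl⟩ y hy h
      have h2 := hne u hu
      refine hu ⟨y, hy, ?_⟩
      field_simp at h
      linear_combination -h)
  have e1 : c / (c - 1) / (c / (c - 1) - 1) = c := by
    field_simp
    ring
  rw [e1] at hj'
  refine hj'.trans ((((convex_ball (1 : ℂ) r).isPathConnected ⟨1, mem_ball_self hr⟩).joinedIn _ ?_ _
    (mem_ball_self hr)).mono hrD)
  have h2 := hne d hj.target_mem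
  have h3 : d / (d - 1) - 1 = (d - 1)⁻¹ := by
    field_simp
    ring
  have h4 := norm_sub_norm_le d 1
  rw [norm_one] at h4
  rw [mem_ball, dist_eq_norm, h3, norm_inv, inv_lt_comm₀ (norm_pos_iff.2 h2) hr, ← one_div]
  linarith

lemma chan_slit {q : ℂ} (h : ‖q - 1‖ ≤ 1 / 2) : q ∈ slitPlane := by
  have := mem_slitPlane_of_norm_lt_one (z := q - 1) (by linarith)
  rwa [add_sub_cancel] at this

lemma chan_quot {a b : ℂ} {κ : ℝ} (hκ : 0 < κ) (hb : κ ≤ ‖b‖) (h : ‖a - b‖ ≤ κ / 2) :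
    ‖a / b - 1‖ ≤ 1 / 2 := by
  have h0 : 0 < ‖b‖ := hκ.trans_le hb
  rw [div_sub_one (norm_pos_iff.1 h0), norm_div, div_le_iff₀ h0]
  linarith

lemma chan_disc {x Λ : ℂ → ℂ} (hx : DA x) (hΛ : DA Λ) {κ : ℝ} (hκ : 0 < κ)
    (h1 : ∀ t, κ ≤ ‖exp (Λ (ec t))‖) (h2 : ∀ t, ‖x (ec t) - exp (Λ (ec t))‖ ≤ κ / 2) :
    DA (fun w => x w / exp (Λ w)) ∧ ∀ w ∈ closedBall (0 : ℂ) 1, ‖x w / exp (Λ w) - 1‖ ≤ 1 / 2 := by
  have hq : DA fun w => x w / exp (Λ w) :=
    ⟨hx.differentiableOn.div hΛ.differentiableOn.cexp fun _ _ => exp_ne_zero _,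
      hx.continuousOn.div hΛ.continuousOn.cexp fun _ _ => exp_ne_zero _⟩
  exact ⟨hq, DA.hb (hq.sub_const 1) fun t => chan_quot hκ (h1 t) (h2 t)⟩

/-- the family of conformal maps onto the moving channel -/
lemma chan_fam {X : Type*} [TopologicalSpace X] (hK : IsCompact K) (hp : IsPathConnected K) {U : X → Y → ℂ}
    (hU : ContinuousOn (fun x : X × Y => U x.1 x.2) (univ ×ˢ K)) {y₀ : Y} (hy : y₀ ∈ K)
    (h1 : ∀ t, U t y₀ = 1) {ε : ℝ} (hε : 0 < ε)
    (hball : ∀ t, ∀ u ∈ ball (1 : ℂ) ε, ∃ y ∈ K, U t y = u) {c : X → ℂ} (hc : Continuous c)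
    (hL : ∀ t, ‖c t‖ < 1 / 2)
    (hj : ∀ t, JoinedIn {x : ℂ | ∀ y ∈ K, x + (1 - x) * U t y ≠ 0} (c t) 1) :
    ∃ R : X → ℂ → ℂ, Fam R ∧ (∀ t, R t 0 = c t) ∧ (∀ t, (1 : ℂ) ∈ R t '' ball 0 1) ∧
      ∀ t, ∀ ζ ∈ ball (0 : ℂ) 1, ∀ y ∈ K, R t ζ + (1 - R t ζ) * U t y ≠ 0 := by
  set Ω : X → Set ℂ := fun t => {x | ∀ y ∈ K, x + c t + (1 - (x + c t)) * U t y ≠ 0} with hΩ
  have hUt : ∀ t, ContinuousOn (U t) K := fun t =>
    hU.comp (f := fun y => (t, y)) (by fun_prop) fun y hy => ⟨trivial, hy⟩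
  have hUy : ∀ y ∈ K, Continuous fun t => U t y := fun y hy =>
    hU.comp_continuous (f := fun t => (t, y)) (by fun_prop) fun t => ⟨trivial, hy⟩
  have hbd : ∀ t, Ω t ⊆ ball 0 (1 / ε + 2) := by
    intro t x hx
    by_contra hn
    rw [mem_ball_zero_iff, not_lt] at hn
    have a1 : 1 / ε < ‖x + c t - 1‖ := by
      have a2 := norm_sub_le (x + c t - 1) (c t - 1)
      have a3 := norm_sub_le (c t) 1
      rw [norm_one] at a3
      have e : x + c t - 1 - (c t - 1) = x := by ring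
      rw [e] at a2
      linarith [hL t]
    have a0 : 0 < ‖x + c t - 1‖ := (by positivity : (0 : ℝ) < 1 / ε).trans a1
    have a4 : x + c t - 1 ≠ 0 := norm_pos_iff.1 a0
    obtain ⟨y, hyK, hy'⟩ := hball t (1 + (x + c t - 1)⁻¹) (by
      rw [mem_ball, dist_eq_norm, add_sub_cancel_left, norm_inv, inv_lt_comm₀ a0 hε, ← one_div]
      exact a1)
    refine hx y hyK ?_
    rw [hy']
    field_simp
    ring
  have hj' : ∀ t, JoinedIn (Ω t) 0 (1 - c t) := fun t => by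
    have := ((hj t).map (f := fun x => x - c t) (by fun_prop)).mono (V := Ω t) (by
      rintro _ ⟨x, hx, rfl⟩ y hy
      simpa only [sub_add_cancel] using hx y hy)
    rwa [sub_self] at this
  obtain ⟨R, hR, hR'⟩ := rfam (Ω := Ω) (C := 1 / ε + 2)
    (chan_open (F := fun (x : X × ℂ) y => x.2 + c x.1 + (1 - (x.2 + c x.1)) * U x.1 y) hK
      ((Continuous.continuousOn (by fun_prop)).add ((Continuous.continuousOn (by fun_prop)).mul
        (hU.comp (f := fun x : (X × ℂ) × Y => (x.1.1, x.2)) (by fun_prop)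
          fun x hx => ⟨trivial, hx.2⟩))))
    hbd (fun t => (hj' t).source_mem) (fun t b hb η hη => by
      simp only [hΩ, mem_ofPred_eq, not_forall, not_not] at hb
      obtain ⟨y, hyK, hy0⟩ := hb
      have hne : U t y - 1 ≠ 0 := fun h => by
        rw [sub_eq_zero.1 h] at hy0
        simp at hy0
      have hcy := hUy y hyK
      have c1 : ContinuousAt (fun s => ‖U s y / (U s y - 1) - c s - b‖) t :=
        (((hcy.continuousAt.div (hcy.sub continuous_const).continuousAt hne).sub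
          hc.continuousAt).sub continuousAt_const).norm
      have c2 : U t y / (U t y - 1) - c t - b = 0 := by
        field_simp
        linear_combination hy0
      filter_upwards [c1.eventually (gt_mem_nhds (a := η) (by simpa only [c2, norm_zero])),
        (hcy.sub continuous_const).continuousAt.eventually_ne hne] with s s1 s2
      refine ⟨_, fun h => h y hyK ?_, s1⟩
      have s3 : U s y - 1 ≠ 0 := s2
      field_simp
      ring)
    (fun t => chan_log hK hp (hUt t) hy (h1 t) (isBounded_ball.subset (hbd t)))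
  refine ⟨fun t ζ => R t ζ + c t, ⟨hR.cont.add (Continuous.continuousOn (by fun_prop)),
    fun t => (hR.diff t).add_const _, fun t a ha b hb h => hR.inj t ha hb (add_right_cancel h),
    fun t w hw => by simpa only [deriv_add_const] using hR.der t w hw⟩,
    fun t => by simp [(hR' t).2], fun t => ?_, fun t ζ hζ => ?_⟩
  · obtain ⟨γ, hγ⟩ := hj' t
    have := (isPreconnected_range γ.continuous).subset_connectedComponentIn γ.source_mem_range
      (F := Ω t) (by rintro _ ⟨u, rfl⟩; exact hγ u) γ.target_mem_range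
    rw [← (hR' t).1] at this
    obtain ⟨ζ, hζ, h⟩ := this
    exact ⟨ζ, hζ, by simp [h]⟩
  · exact connectedComponentIn_subset (Ω t) 0 ((hR' t).1 ▸ mem_image_of_mem _ hζ)

/-- a function of the disc algebra in the channel, with prescribed size at the origin -/
theorem chan (hK : IsCompact K) (hp : IsPathConnected K) {ρ θ : TT → Y → ℝ}
    (hρ : ContinuousOn (fun x : TT × Y => ρ x.1 x.2) (univ ×ˢ K))
    (hθ : ContinuousOn (fun x : TT × Y => θ x.1 x.2) (univ ×ˢ K)) {y₀ : Y} (hy : y₀ ∈ K)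
    (h1 : ∀ t, ρ t y₀ = 1 ∧ θ t y₀ = 0) (tip : ∀ t, ∃ y ∈ K, ρ t y = 0)
    (inj : ∀ t, ∀ y ∈ K, ∀ y' ∈ K, 0 < ρ t y →
      ρ t y * exp (θ t y * I) = ρ t y' * exp (θ t y' * I) → θ t y = θ t y')
    {ε : ℝ} (hε : 0 < ε)
    (hball : ∀ t, ∀ u ∈ ball (1 : ℂ) ε, ∃ y ∈ K, ρ t y * exp (θ t y * I) = u)
    {Lc : ℂ → ℂ} (hc : DA Lc) (hL : ∀ t, ‖exp (Lc (ec t))‖ < 1 / 2)
    (hb : ∀ t, ∀ y ∈ K, (ρ t y, θ t y) ∈ BrS (Lc (ec t))) {s : ℝ} (hs : s ≤ 0)
    (hs' : (Lc 0).re ≤ s - 1) :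
    ∃ Λ : ℂ → ℂ, DA Λ ∧ (Λ 0).re ∈ Icc (s - 1) s ∧ ∀ t, ∃ l : Y → ℂ, ContinuousOn l K ∧
      (∀ y ∈ K, exp (l y) = exp (Λ (ec t)) + (1 - exp (Λ (ec t))) * (ρ t y * exp (θ t y * I))) ∧
      l y₀ = 0 ∧ ∀ y ∈ K, ρ t y = 0 → l y = Λ (ec t) := by
  set U : TT → Y → ℂ := fun t y => ρ t y * exp (θ t y * I) with hU
  have hUc : ContinuousOn (fun x : TT × Y => U x.1 x.2) (univ ×ˢ K) := chan_cont hρ hθ
  have hsl : ∀ t, ContinuousOn (fun y : Y => (t, y)) K ∧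
      MapsTo (fun y : Y => (t, y)) K ((univ : Set TT) ×ˢ K) :=
    fun t => ⟨by fun_prop, fun y hy => ⟨trivial, hy⟩⟩
  have hUt : ∀ t, ContinuousOn (U t) K := fun t => hUc.comp (hsl t).1 (hsl t).2
  have hec : ∀ t, ec t ∈ closedBall (0 : ℂ) 1 := fun t => sphere_subset_closedBall (ec_mem t)
  have h00 : (0 : ℂ) ∈ closedBall (0 : ℂ) 1 := mem_closedBall_self zero_le_one
  have hU1 : ∀ t, U t y₀ = 1 := fun t => by simp [hU, (h1 t).1, (h1 t).2]
  have hU0 : ∀ t y, ρ t y = 0 → U t y = 0 := fun t y h => by simp [hU, h]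
  obtain ⟨R, hR, hR0, hR1, hRne⟩ := chan_fam hK hp hUc hy hU1 hε hball
    (c := fun t => exp (Lc (ec t))) (hc.continuousOn_ball.comp_continuous continuous_ec hec).cexp hL
    (fun t => chan_join hK (hρ.comp (hsl t).1 (hsl t).2) (hθ.comp (hsl t).1 (hsl t).2) hy (h1 t)
      (inj t) (hL t) (hb t))
  obtain ⟨r, hr, hr'⟩ := hR.radius (c := fun _ => 1) continuous_const hR1
  have hr0 : 0 ≤ r := by
    obtain ⟨ζ, hζ, -⟩ := hr' 0
    exact (norm_nonneg _).trans hζ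
  have cR : ContinuousOn (fun x : (TT × ℂ) × Y => R x.1.1 x.1.2) ((univ ×ˢ closedBall 0 r) ×ˢ K) :=
    hR.cont.comp continuousOn_fst fun x hx => flow_sub hr hx.1
  have cU : ContinuousOn (fun x : (TT × ℂ) × Y => U x.1.1 x.2) ((univ ×ˢ closedBall 0 r) ×ˢ K) :=
    hUc.comp (f := fun x : (TT × ℂ) × Y => (x.1.1, x.2)) (by fun_prop) fun x hx => ⟨trivial, hx.2⟩
  obtain ⟨κ, hκ, hκ'⟩ := ((isCompact_univ.prod (isCompact_closedBall (0 : ℂ) r)).prod
    hK).exists_forall_le' (cR.add ((continuousOn_const.sub cR).mul cU)).norm (a := 0)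
    (fun x hx => norm_pos_iff.2 (hRne x.1.1 x.1.2 (closedBall_subset_ball hr hx.1.2) x.2 hx.2))
  have hκ1 : ∀ t, ∀ ζ : ℂ, ‖ζ‖ ≤ r → ∀ y ∈ K, κ ≤ ‖R t ζ + (1 - R t ζ) * U t y‖ :=
    fun t ζ hζ y hy => hκ' ((t, ζ), y) ⟨⟨trivial, mem_closedBall_zero_iff.2 hζ⟩, hy⟩
  have hκ2 : ∀ t, ∀ ζ : ℂ, ‖ζ‖ ≤ r → κ ≤ ‖R t ζ‖ := fun t ζ hζ => by
    obtain ⟨y, hy, hy0⟩ := tip t
    simpa only [hU0 t y hy0, mul_zero, add_zero] using hκ1 t ζ hζ y hy
  obtain ⟨M, hM⟩ := (isCompact_univ.prod hK).exists_bound_of_continuousOn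
    ((continuousOn_const (c := (1 : ℂ))).sub hUc)
  have hM1 : 1 ≤ M := by
    obtain ⟨y, hy, hy0⟩ := tip 0
    simpa [hU0 0 y hy0] using hM (0, y) ⟨trivial, hy⟩
  have hη : κ / 2 / M ≤ κ / 2 := div_le_self (by positivity) hM1
  obtain ⟨N, x, hx0, hx, hxN⟩ := hR.flow (c := fun w => exp (Lc w)) (x₀ := fun _ => 1)
    (flow_exp hc) diffContOnCl_const hR0 hr (θ := κ / 2 / M) (by positivity) hr'
  have hxκ : ∀ j t, κ ≤ ‖x j (ec t)‖ := fun j t => by
    obtain ⟨ζ, a, b⟩ := ((hx j).2 t).1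
    exact b ▸ hκ2 t ζ a
  have key : ∀ j, ∃ Λ : ℂ → ℂ, DA Λ ∧ (∀ w ∈ closedBall (0 : ℂ) 1, exp (Λ w) = x j w) ∧
      ∀ t, ∃ l : Y → ℂ, ContinuousOn l K ∧
        (∀ y ∈ K, exp (l y) = exp (Λ (ec t)) + (1 - exp (Λ (ec t))) * U t y) ∧
        l y₀ = 0 ∧ ∀ y ∈ K, ρ t y = 0 → l y = Λ (ec t) := by
    intro j
    induction j with
    | zero =>
      exact ⟨fun _ => 0, diffContOnCl_const, fun w _ => by simp [hx0],
        fun t => ⟨fun _ => 0, continuousOn_const, fun y _ => by simp, rfl, fun _ _ _ => rfl⟩⟩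
    | succ j ih =>
      obtain ⟨Λ, hΛ, he, hl⟩ := ih
      obtain ⟨hq, hq'⟩ := chan_disc (hx (j + 1)).1 hΛ hκ (fun t => he _ (hec t) ▸ hxκ j t)
        (fun t => he _ (hec t) ▸ ((hx j).2 t).2.trans hη)
      have he' : ∀ w ∈ closedBall (0 : ℂ) 1,
          exp (Λ w + log (x (j + 1) w / exp (Λ w))) = x (j + 1) w := fun w hw => by
        rw [exp_add, exp_log (slitPlane_ne_zero (chan_slit (hq' w hw))),
          mul_div_cancel₀ _ (exp_ne_zero _)]
      refine ⟨fun w => Λ w + log (x (j + 1) w / exp (Λ w)), hΛ.add (DiffContOnCl.mk_ball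
        (hq.differentiableOn.clog fun w hw => chan_slit (hq' w (ball_subset_closedBall hw)))
        (hq.continuousOn_ball.clog fun w hw => chan_slit (hq' w hw))), he', fun t => ?_⟩
      obtain ⟨l, l1, l2, l3, l4⟩ := hl t
      set x' := x (j + 1) (ec t) with hx'
      have hs : ∀ y ∈ K, (x' + (1 - x') * U t y) / exp (l y) ∈ slitPlane := fun y hy => by
        obtain ⟨⟨ζ, a, b⟩, d⟩ := (hx j).2 t
        refine chan_slit (chan_quot hκ ?_ ?_)
        · rw [l2 y hy, he _ (hec t), b]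
          exact hκ1 t ζ a y hy
        · have e : x' + (1 - x') * U t y - exp (l y) = (x' - x j (ec t)) * (1 - U t y) := by
            rw [l2 y hy, he _ (hec t)]
            ring
          rw [e, norm_mul]
          calc _ ≤ κ / 2 / M * M :=
                mul_le_mul d (hM (t, y) ⟨trivial, hy⟩) (norm_nonneg _) (by positivity)
            _ = κ / 2 := by field_simp
      refine ⟨fun y => l y + log ((x' + (1 - x') * U t y) / exp (l y)), l1.add
        (((continuousOn_const.add (continuousOn_const.mul (hUt t))).div l1.cexp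
          fun _ _ => exp_ne_zero _).clog hs), fun y hy => ?_, ?_, fun y hy hy0 => ?_⟩
      · simp only
        rw [he' _ (hec t), exp_add, exp_log (slitPlane_ne_zero (hs y hy)),
          mul_div_cancel₀ _ (exp_ne_zero _)]
      · simp [l3, hU1 t]
      · simp only [hU0 t y hy0, mul_zero, add_zero, l4 y hy hy0]
        rfl
  have hend : ‖x N 0‖ ≤ Real.exp s := by
    have a1 := (chan_disc (hx N).1 hc hκ (fun t => hR0 t ▸ hκ2 t 0 (by simpa using hr0))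
      (fun t => (hxN t).trans hη)).2 0 h00
    have a2 := norm_le_norm_sub_add (x N 0 / exp (Lc 0)) 1
    rw [norm_one, norm_div, norm_exp, div_le_iff₀ (Real.exp_pos _)] at a2
    have a3 : Real.exp (Lc 0).re ≤ Real.exp (s - 1) := Real.exp_le_exp.2 hs'
    have a4 : Real.exp s = Real.exp (s - 1) * Real.exp 1 := by rw [← Real.exp_add]; ring_nf
    have a5 := Real.add_one_le_exp 1
    have a6 := Real.exp_pos (Lc 0).re
    nlinarith
  have hex : ∃ j, ‖x j 0‖ ≤ Real.exp s := ⟨N, hend⟩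
  have hlow : Real.exp (s - 1) ≤ ‖x (Nat.find hex) 0‖ := by
    rcases hj : Nat.find hex with _ | i
    · rw [hx0, norm_one]
      exact Real.exp_le_one_iff.2 (by linarith)
    · have a0 : ¬ ‖x i 0‖ ≤ Real.exp s := Nat.find_min hex (by omega)
      obtain ⟨Λ, hΛ, he, -⟩ := key i
      have a1 := (chan_disc (hx (i + 1)).1 hΛ hκ (fun t => he _ (hec t) ▸ hxκ i t)
        (fun t => he _ (hec t) ▸ ((hx i).2 t).2.trans hη)).2 0 h00
      rw [he 0 h00] at a1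
      have a6 := Real.exp_pos (s - 1)
      have a7 : 0 < ‖x i 0‖ := (Real.exp_pos s).trans (not_le.1 a0)
      have a2 := norm_sub_norm_le 1 (x (i + 1) 0 / x i 0)
      rw [norm_sub_rev, norm_one, norm_div] at a2
      have a3 : 1 / 2 ≤ ‖x (i + 1) 0‖ / ‖x i 0‖ := by linarith
      rw [le_div_iff₀ a7] at a3
      have a4 : Real.exp s = Real.exp (s - 1) * Real.exp 1 := by rw [← Real.exp_add]; ring_nf
      have a5 := Real.add_one_le_exp 1
      nlinarith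
  obtain ⟨Λ, hΛ, he, hl⟩ := key (Nat.find hex)
  have hup := Nat.find_spec hex
  rw [← he 0 h00, norm_exp, Real.exp_le_exp] at hlow hup
  exact ⟨Λ, hΛ, ⟨hlow, hup⟩, hl⟩

end Pool.Agent.MP_4baaa2_an.H94

/-!
The sink of the channel, margins.
-/

namespace Pool.Agent.MP_4baaa2_an.H94

open Set Metric Filter Topology Complex MeasureTheory
open scoped ComplexConjugate
open Pool.Agent.Lib.PlaneTop

variable {X : Type*} [TopologicalSpace X] {Z : Set X}

theorem low_pair (hp : IsPathConnected Z) {l : X → ℂ} (hl : ContinuousOn l Z) {μ m : ℝ}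
    (hμ : 0 < μ) (hs : ∀ a ∈ Z, ∀ a' ∈ Z, μ ≤ ‖l a - l a' - 2 * Real.pi * I‖)
    (hm : ∀ a ∈ Z, m ≤ (l a).re) {a a' : X} (ha : a ∈ Z) (ha' : a' ∈ Z)
    (h1 : (l a).re ≤ m + μ / 4) (h2 : (l a').re ≤ m + μ / 4) :
    (l a).im - (l a').im ≤ 2 * Real.pi - μ / 4 := by
  obtain ⟨γ, hγ⟩ := hp.joinedIn a' ha' a ha
  have hz : ∀ s, γ.extend s ∈ Z := fun s => by
    obtain ⟨u, hu⟩ : γ.extend s ∈ range γ := γ.extend_range ▸ mem_range_self s
    exact hu ▸ hγ u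
  have hc : Continuous fun s => l (γ.extend s) := hl.comp_continuous γ.continuous_extend hz
  have := cl_margin (γ := fun s => l (γ.extend s)) (m := m) hμ hc.continuousOn
    (fun s _ t _ => hs _ (hz s) _ (hz t)) (fun s _ => hm _ (hz s)) (by simpa using h2)
    (by simpa using h1)
  simpa using this

/-- the minimum of the real part is continuous and attained -/
theorem exists_low (hZ : IsCompact Z) (hne : Z.Nonempty) {l : TT → X → ℂ}
    (hl : ContinuousOn (fun x : TT × X => l x.1 x.2) (univ ×ˢ Z)) : ∃ m : TT → ℝ, Continuous m ∧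
      ∀ t, (∀ a ∈ Z, m t ≤ (l t a).re) ∧ ∃ a ∈ Z, (l t a).re = m t := by
  have : CompactSpace Z := isCompact_iff_compactSpace.1 hZ
  have : Nonempty Z := hne.to_subtype
  have hc : Continuous fun x : TT × Z => (l x.1 x.2).re :=
    continuous_re.comp (hl.comp_continuous (f := fun x : TT × Z => (x.1, (x.2 : X)))
      (by fun_prop) fun x => ⟨mem_univ _, x.2.2⟩)
  refine ⟨fun t => sInf ((fun a : Z => (l t a).re) '' univ),
    isCompact_univ.continuous_sInf (f := fun t (a : Z) => (l t a).re) hc, fun t => ?_⟩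
  have ht : Continuous fun a : Z => (l t a).re := hc.comp (Continuous.prodMk_right t)
  have hK := isCompact_univ.image ht
  refine ⟨fun a ha => csInf_le hK.bddBelow ⟨⟨a, ha⟩, mem_univ _, rfl⟩, ?_⟩
  obtain ⟨a, -, h⟩ := hK.sInf_mem (univ_nonempty.image _)
  exact ⟨a, a.2, h⟩

theorem sink_unif (hZ : IsCompact Z) {l : TT → X → ℂ}
    (hl : ContinuousOn (fun x : TT × X => l x.1 x.2) (univ ×ˢ Z)) (t₀ : TT) {ε : ℝ}
    (hε : 0 < ε) : ∀ᶠ t in 𝓝 t₀, ∀ a ∈ Z, ‖l t a - l t₀ a‖ < ε := by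
  have h := hZ.eventually_forall_of_forall_eventually (x₀ := t₀)
    (P := fun t a => a ∈ Z → ‖l t a - l t₀ a‖ < ε) fun y hy => by
      have h0 : ContinuousOn (fun x : TT × X => l t₀ x.2) (univ ×ˢ Z) :=
        hl.comp (f := fun x : TT × X => (t₀, x.2)) (by fun_prop) fun x hx => ⟨mem_univ _, hx.2⟩
      have h1 := ((hl.sub h0).norm (t₀, y) ⟨mem_univ _, hy⟩).eventually
        (gt_mem_nhds (a := ε) (by simpa using hε))
      filter_upwards [eventually_nhdsWithin_iff.1 h1] with z hz hz2 using hz ⟨mem_univ _, hz2⟩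
  exact h.mono fun t ht a ha => ht a ha ha

theorem sink (hZ : IsCompact Z) (hp : IsPathConnected Z) {l : TT → X → ℂ}
    (hl : ContinuousOn (fun x : TT × X => l x.1 x.2) (univ ×ˢ Z)) {μ : ℝ} (hμ : 0 < μ)
    (hs : ∀ t, ∀ a ∈ Z, ∀ a' ∈ Z, μ ≤ ‖l t a - l t a' - 2 * Real.pi * I‖) {m : TT → ℝ}
    (hm : ∀ t, (∀ a ∈ Z, m t ≤ (l t a).re) ∧ ∃ a ∈ Z, (l t a).re = m t) (N : ℝ) :
    ∃ Lc : ℂ → ℂ, DA Lc ∧ (∀ w ∈ closedBall (0 : ℂ) 1, (Lc w).re ≤ N) ∧ ∀ t, ∀ a ∈ Z,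
      (l t a).re ≤ m t + μ / 8 → |(l t a).im - (Lc (ec t)).im| ≤ Real.pi - 5 * μ / 64 := by
  obtain ⟨ψ, hψ⟩ := exists_continuous_forall_mem_convex_of_local_const (X := TT) (E := ℝ)
    (t := fun t => ⋂ a ∈ {a ∈ Z | (l t a).re ≤ m t + μ / 8},
      Icc ((l t a).im - (Real.pi - 3 * μ / 32)) ((l t a).im + (Real.pi - 3 * μ / 32)))
    (fun t => convex_iInter₂ fun a _ => convex_Icc _ _) fun t₀ => by
      have hc : ContinuousOn (l t₀) Z :=
        hl.comp (f := fun a : X => (t₀, a)) (by fun_prop) fun x hx => ⟨mem_univ _, hx⟩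
      obtain ⟨a₀, ha₀, e₀⟩ := (hm t₀).2
      set S : Set ℝ := (fun a => (l t₀ a).im) '' {a ∈ Z | (l t₀ a).re ≤ m t₀ + μ / 4} with hS
      have hne : S.Nonempty := ⟨_, a₀, ⟨ha₀, by linarith⟩, rfl⟩
      have hup : ∀ x ∈ S, ∀ y ∈ S, y ≤ x + (2 * Real.pi - μ / 4) := by
        rintro _ ⟨a, ha, rfl⟩ _ ⟨b, hb, rfl⟩
        have := low_pair hp hc hμ (hs t₀) (hm t₀).1 hb.1 ha.1 hb.2 ha.2
        dsimp only
        linarith
      have hbd : BddAbove S := let ⟨x, hx⟩ := hne; ⟨_, hup x hx⟩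
      refine ⟨sSup S - (Real.pi - μ / 8), ?_⟩
      filter_upwards [sink_unif hZ hl t₀ (show 0 < μ / 32 by positivity)] with t ht
      refine mem_iInter₂.2 fun a ha => ?_
      have r1 := abs_le.1 ((abs_re_le_norm _).trans (ht a ha.1).le)
      have r2 := abs_le.1 ((abs_re_le_norm _).trans (ht a₀ ha₀).le)
      have r3 := abs_le.1 ((abs_im_le_norm _).trans (ht a ha.1).le)
      rw [sub_re] at r1 r2
      rw [sub_im] at r3
      have r4 := (hm t).1 a₀ ha₀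
      have r5 := ha.2
      have hx : (l t₀ a).im ∈ S := ⟨a, ⟨ha.1, by linarith [r1.1, r2.2]⟩, rfl⟩
      have r6 := le_csSup hbd hx
      have r7 := csSup_le hne (hup _ hx)
      constructor <;> linarith [r3.1, r3.2]
  obtain ⟨P, hP⟩ := pflow_approx ψ.continuous (show 0 < μ / 64 by positivity)
  obtain ⟨C, hC⟩ := (isCompact_closedBall (0 : ℂ) 1).exists_bound_of_continuousOn
    (f := fun w => P.eval w) P.continuous.continuousOn
  refine ⟨fun w => I * P.eval w + ((N - C : ℝ) : ℂ), ?_, fun w hw => ?_, fun t a ha h => ?_⟩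
  · exact Differentiable.diffContOnCl (((P.differentiable).const_mul I).add_const _)
  · have := abs_le.1 ((abs_im_le_norm _).trans (hC w hw))
    simp only [add_re, mul_re, I_re, I_im, ofReal_re]
    linarith [this.1]
  · have h1 := mem_iInter₂.1 (hψ t) a ⟨ha, h⟩
    have h2 := abs_lt.1 (hP t)
    simp only [add_im, mul_im, I_re, I_im, ofReal_im]
    rw [abs_le]
    constructor <;> linarith [h1.1, h1.2, h2.1, h2.2]

theorem margin {x e : ℂ} {μ : ℝ} (hμ : 0 < μ) (hμ1 : μ ≤ 1)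
    (h : ∀ ν : ℂ, ‖ν‖ ≤ μ → x + (1 - x) * exp (e + ν) ≠ 0) :
    μ / 4 * ‖x‖ ≤ ‖x + (1 - x) * exp e‖ := by
  by_contra hcon
  rw [not_le] at hcon
  have hx : x ≠ 0 := by
    rintro rfl
    rw [norm_zero, mul_zero] at hcon
    exact absurd hcon (not_lt.2 (norm_nonneg _))
  have hx0 : 0 < ‖x‖ := norm_pos_iff.2 hx
  set z : ℂ := -(x + (1 - x) * exp e) / x with hz
  have hzn : ‖z‖ < μ / 4 := by
    rw [hz, norm_div, norm_neg, div_lt_iff₀ hx0]
    exact hcon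
  have hu : 1 + z ≠ 0 := fun h0 => by
    have : z = -1 := by linear_combination h0
    rw [this, norm_neg, norm_one] at hzn
    linarith
  have hl := norm_log_one_add_half_le_self (z := z) (by linarith)
  refine h (-log (1 + z)) (by rw [norm_neg]; linarith) ?_
  have e1 : (1 - x) * exp e = -x * (1 + z) := by
    rw [hz]
    field_simp
    ring
  rw [exp_add, exp_neg, exp_log hu, ← mul_assoc, e1]
  field_simp
  ring

theorem pin {Λ : ℂ} {s L b γ' : ℝ} (hγ : 0 < γ') (hγ1 : γ' ≤ 1) (hs : Real.exp (s + L + 3) ≤ γ')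
    (hΛ : |Λ.re - s| ≤ L) (h : ∀ β : ℂ, |β.re - s| ≤ L + 1 → |β.im - b| ≤ Real.pi - γ' →
      exp Λ + (1 - exp Λ) * exp β ≠ 0) :
    ∃ k : ℤ, |Λ.im - k * (2 * Real.pi) - b| ≤ 2 * γ' := by
  have pi3 := Real.pi_gt_three
  have hx : ‖-exp Λ‖ ≤ γ' / 4 := by
    rw [norm_neg, norm_exp]
    have h1 : Real.exp Λ.re ≤ Real.exp (s + L) :=
      Real.exp_le_exp.2 (by linarith [(abs_le.1 hΛ).2])
    have h2 := Real.add_one_le_exp 3
    have h3 := Real.exp_pos (s + L)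
    rw [Real.exp_add (s + L)] at hs
    nlinarith
  have hu : 1 + -exp Λ ≠ 0 := fun h0 => by
    have : -exp Λ = -1 := by linear_combination h0
    rw [this, norm_neg, norm_one] at hx
    linarith
  have hl := norm_log_one_add_half_le_self (z := -exp Λ) (by linarith)
  set g := log (1 + -exp Λ) with hg
  have g1 := abs_le.1 ((abs_re_le_norm g).trans hl)
  have g2 := abs_le.1 ((abs_im_le_norm g).trans hl)
  have key : ∀ k : ℤ, Real.pi - γ' < |Λ.im - g.im + Real.pi - k * (2 * Real.pi) - b| := fun k => by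
    by_contra hk
    refine h (Λ - g + Real.pi * I - k * (2 * Real.pi * I)) ?_ ?_ ?_
    · have := abs_le.1 hΛ
      simp only [sub_re, add_re, mul_re, ofReal_re, ofReal_im, I_re, I_im, intCast_re, intCast_im,
        re_ofNat, im_ofNat, mul_im]
      rw [abs_le]
      constructor <;> linarith [this.1, this.2, g1.1, g1.2]
    · simpa using not_lt.1 hk
    · rw [exp_sub, exp_add, exp_sub, exp_int_mul_two_pi_mul_I, exp_pi_mul_I, hg, exp_log hu,
        sub_eq_add_neg]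
      field_simp
      ring
  set k := round ((Λ.im - b) / (2 * Real.pi)) with hk
  have hd : |Λ.im - k * (2 * Real.pi) - b| ≤ Real.pi := by
    have h1 := abs_sub_round ((Λ.im - b) / (2 * Real.pi))
    have h2 : Λ.im - k * (2 * Real.pi) - b =
        ((Λ.im - b) / (2 * Real.pi) - k) * (2 * Real.pi) := by
      field_simp
      ring
    rw [h2, abs_mul, abs_of_pos (show 0 < 2 * Real.pi by linarith)]
    nlinarith
  refine ⟨k, ?_⟩
  have k1 := key k
  have k2 := key (k + 1)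
  push_cast at k2
  rw [abs_le] at hd ⊢
  rw [lt_abs] at k1 k2
  constructor
  · rcases k1 with k1 | k1 <;> linarith [hd.1, hd.2, g2.1, g2.2]
  · rcases k2 with k2 | k2 <;> linarith [hd.1, hd.2, g2.1, g2.2]

/-- `|arg (1 - x)| ≤ 2 ‖x‖` for small `x` -/
theorem arg_one_sub {x : ℂ} (hx : ‖x‖ ≤ 1 / 2) : |arg (1 - x)| ≤ 2 * ‖x‖ := by
  have hl := norm_log_one_add_half_le_self (z := -x) (by rwa [norm_neg])
  have := abs_im_le_norm (log (1 + -x))
  rw [log_im, ← sub_eq_add_neg] at this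
  rw [norm_neg, ← sub_eq_add_neg] at hl
  linarith [norm_nonneg x]

end Pool.Agent.MP_4baaa2_an.H94

end

-- part MP_4baaa2_an.H94.Slat
section

/-!
A function of the disc algebra which avoids all obstacles.
-/

namespace Pool.Agent.MP_4baaa2_an.H94

open Set Metric Filter Topology Complex MeasureTheory
open scoped ComplexConjugate
open Pool.Agent.Lib.PlaneTop

/-- the height profile of the walls -/
noncomputable def slatW (s x : ℝ) : ℝ := max 0 (1 - |x - s|)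

/-- the profile of the shadows -/
noncomputable def slatS (μ m : ℝ) (z : ℂ) : ℝ := max 0 (1 - 8 * (z.re - m) / μ)

/-- the logarithm of the obstacle with walls -/
noncomputable def slatE (s c b : ℝ) (z : ℂ) (p : ℂ × ℝ × ℂ × ℝ) : ℂ :=
  z + p.1 + ((p.2.1 * c * slatW s (z + p.1).re : ℝ) : ℂ) * (p.2.2.1 + I * b - (z + p.1))

/-- the modulus of the obstacle with walls and shadows -/
noncomputable def slatR (μ m s c b : ℝ) (z : ℂ) (p : ℂ × ℝ × ℂ × ℝ) : ℝ :=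
  Real.exp (slatE s c b z p).re * (1 - p.2.2.2 * slatS μ m z)

/-- the rectangle -/
def slatQ (s L γ' : ℝ) : Set ℂ := {β | |β.re - s| ≤ L + 1 ∧ |β.im| ≤ Real.pi - γ'}

/-- the additional parameters -/
def slatP (μ' s L γ' : ℝ) : Set (ℂ × ℝ × ℂ × ℝ) :=
  closedBall 0 μ' ×ˢ Icc 0 1 ×ˢ slatQ s L γ' ×ˢ Icc 0 1

/-- the inequalities between the constants -/
structure SlatC (μ μ' γ γ' s L : ℝ) : Prop where
  p : 0 < μ'
  a : 32 * μ' ≤ μ
  b : 32 * μ' ≤ γ'
  c : 8 * γ' ≤ γ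
  d : γ ≤ 1
  e : μ ≤ 1
  f : 0 ≤ L

lemma slatQ_convex (s L γ' : ℝ) : Convex ℝ (slatQ s L γ') := by
  have e : slatQ s L γ' = ({β : ℂ | s - (L + 1) ≤ β.re} ∩ {β : ℂ | β.re ≤ s + (L + 1)}) ∩
      ({β : ℂ | -(Real.pi - γ') ≤ β.im} ∩ {β : ℂ | β.im ≤ Real.pi - γ'}) := by
    ext β
    simp only [slatQ, mem_ofPred_eq, mem_inter_iff, abs_le]
    constructor
    · rintro ⟨⟨h1, h2⟩, h3, h4⟩
      exact ⟨⟨by linarith, by linarith⟩, h3, h4⟩
    · rintro ⟨⟨h1, h2⟩, h3, h4⟩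
      exact ⟨⟨by linarith, by linarith⟩, h3, h4⟩
  rw [e]
  exact ((convex_halfSpace_re_ge _).inter (convex_halfSpace_re_le _)).inter
    ((convex_halfSpace_im_ge _).inter (convex_halfSpace_im_le _))

lemma slatQ_compact (s L γ' : ℝ) : IsCompact (slatQ s L γ') := by
  refine (isCompact_closedBall (0 : ℂ) (|s| + (L + 1) + (Real.pi - γ'))).of_isClosed_subset ?_ ?_
  · exact (isClosed_le (f := fun β : ℂ => |β.re - s|) (by fun_prop) continuous_const).inter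
      (isClosed_le (f := fun β : ℂ => |β.im|) (by fun_prop) continuous_const)
  · intro β hβ
    rw [mem_closedBall_zero_iff]
    have h1 := norm_le_abs_re_add_abs_im β
    have h2 : |β.re| ≤ |β.re - s| + |s| := by
      have := abs_add_le (β.re - s) s
      rwa [sub_add_cancel] at this
    linarith [hβ.1, hβ.2]

lemma slatP_compact (μ' s L γ' : ℝ) : IsCompact (slatP μ' s L γ') :=
  (isCompact_closedBall _ _).prod (isCompact_Icc.prod ((slatQ_compact s L γ').prod isCompact_Icc))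

lemma slatP_convex (μ' s L γ' : ℝ) : Convex ℝ (slatP μ' s L γ') :=
  (convex_closedBall _ _).prod ((convex_Icc _ _).prod ((slatQ_convex s L γ').prod (convex_Icc _ _)))

variable {μ μ' γ γ' s L m c b : ℝ}

lemma slat_base (C : SlatC μ μ' γ γ' s L) : (s : ℂ) ∈ slatQ s L γ' := by
  refine ⟨?_, ?_⟩
  · simp only [ofReal_re, sub_self, abs_zero]
    linarith [C.f]
  · simp only [ofReal_im, abs_zero]
    linarith [Real.pi_gt_three, C.c, C.d]

lemma slat_memP (C : SlatC μ μ' γ γ' s L) {ν : ℂ} (hν : ‖ν‖ ≤ μ') {σ' : ℝ}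
    (h : σ' ∈ Icc (0 : ℝ) 1) : (ν, (0 : ℝ), (s : ℂ), σ') ∈ slatP μ' s L γ' :=
  ⟨mem_closedBall_zero_iff.2 hν, ⟨le_rfl, zero_le_one⟩, slat_base C, h⟩

lemma slatE_zero (z ν β : ℂ) (σ' : ℝ) : slatE s c b z (ν, 0, β, σ') = z + ν := by
  simp [slatE]

lemma slat_polar (z : ℂ) : ((Real.exp z.re : ℝ) : ℂ) * exp (z.im * I) = exp z := by
  rw [ofReal_exp, ← exp_add, re_add_im]

lemma slat_U (z : ℂ) (p : ℂ × ℝ × ℂ × ℝ) :
    (slatR μ m s c b z p : ℂ) * exp ((slatE s c b z p).im * I) =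
      exp (slatE s c b z p) * (1 - p.2.2.2 * slatS μ m z) := by
  rw [← slat_polar (slatE s c b z p), slatR]
  push_cast
  ring

lemma slatS_low {z : ℂ} (h : z.re = m) : slatS μ m z = 1 := by
  simp [slatS, h]

lemma slat_conv {x y r u : ℝ} (hx : |x| ≤ r) (hy : |y| ≤ r) (h0 : 0 ≤ u) (h1 : u ≤ 1) :
    |x + u * (y - x)| ≤ r := by
  rw [abs_le] at *
  constructor <;> nlinarith [hx.1, hx.2, hy.1, hy.2]

/-- wall points, plain points and shadowed points -/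
lemma slat_tri (C : SlatC μ μ' γ γ' s L) (hm : m ≤ s - L - 3) (c0 : 0 ≤ c) (c1 : c ≤ 1) {z : ℂ}
    (hz : m ≤ z.re) (hc : 0 < c → z.re ≤ s + L + 2 → |z.im - b| ≤ Real.pi - γ / 2)
    {p : ℂ × ℝ × ℂ × ℝ} (hp : p ∈ slatP μ' s L γ') :
    (0 < c ∧ |(slatE s c b z p).re - s| ≤ L + 1 ∧ |(slatE s c b z p).im - b| ≤ Real.pi - γ' ∧
        slatR μ m s c b z p = Real.exp (slatE s c b z p).re) ∨
      (slatE s c b z p = z + p.1 ∧ slatR μ m s c b z p = Real.exp (slatE s c b z p).re) ∨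
      (slatE s c b z p = z + p.1 ∧ z.re ≤ m + μ / 8 ∧ 0 ≤ slatR μ m s c b z p ∧
        slatR μ m s c b z p ≤ Real.exp (slatE s c b z p).re) := by
  obtain ⟨ν, σ, β, σ'⟩ := p
  obtain ⟨hν, hσ, hβ, hσ'⟩ := hp
  have hν' : ‖ν‖ ≤ μ' := mem_closedBall_zero_iff.1 hν
  have r1 := abs_le.1 ((abs_re_le_norm ν).trans hν')
  have r2 := abs_le.1 ((abs_im_le_norm ν).trans hν')
  have hμ : 0 < μ := by linarith [C.p, C.a]
  have Ca := C.a
  have Cb := C.b
  have Cc := C.c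
  have Cd := C.d
  have Ce := C.e
  have Cf := C.f
  have Cp := C.p
  simp only [mem_Icc] at hσ hσ'
  by_cases hS : z.re ≤ m + μ / 8
  · refine Or.inr (Or.inr ?_)
    have hW : slatW s (z + ν).re = 0 := by
      refine max_eq_left ?_
      have : s - (z + ν).re ≤ |(z + ν).re - s| := by rw [abs_sub_comm]; exact le_abs_self _
      rw [add_re] at this ⊢
      linarith [r1.2]
    have s0 : 0 ≤ slatS μ m z := le_max_left _ _
    have s1 : slatS μ m z ≤ 1 := by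
      refine max_le zero_le_one ?_
      have : 0 ≤ 8 * (z.re - m) / μ := div_nonneg (by linarith) hμ.le
      linarith
    have e0 := Real.exp_pos (slatE s c b z (ν, σ, β, σ')).re
    have t0 : 0 ≤ σ' * slatS μ m z := mul_nonneg hσ'.1 s0
    have t1 : σ' * slatS μ m z ≤ 1 := mul_le_one₀ hσ'.2 s0 s1
    refine ⟨by simp only [slatE, hW]; simp, hS, ?_, ?_⟩
    · exact mul_nonneg e0.le (by simpa using t1)
    · exact mul_le_of_le_one_right e0.le (by simpa using t0)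
  · have s0 : slatS μ m z = 0 := by
      refine max_eq_left ?_
      have : 1 ≤ 8 * (z.re - m) / μ := (one_le_div hμ).2 (by linarith)
      linarith
    have hR : slatR μ m s c b z (ν, σ, β, σ') = Real.exp (slatE s c b z (ν, σ, β, σ')).re := by
      simp [slatR, s0]
    have w0 : 0 ≤ slatW s (z + ν).re := le_max_left _ _
    have w1 : slatW s (z + ν).re ≤ 1 := max_le zero_le_one (by linarith [abs_nonneg ((z + ν).re - s)])
    by_cases hu : σ * c * slatW s (z + ν).re = 0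
    · exact Or.inr (Or.inl ⟨by simp only [slatE, hu]; simp, hR⟩)
    · have cp : 0 < c := c0.lt_of_ne fun h => hu (by rw [← h]; ring)
      have wp : 0 < slatW s (z + ν).re := w0.lt_of_ne fun h => hu (by rw [← h]; ring)
      have w2 : |(z + ν).re - s| < 1 := by
        by_contra h
        have : slatW s (z + ν).re = 0 := max_eq_left (by linarith [not_lt.1 h])
        linarith
      have u0 : 0 ≤ σ * c * slatW s (z + ν).re := mul_nonneg (mul_nonneg hσ.1 c0) w0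
      have u1 : σ * c * slatW s (z + ν).re ≤ 1 :=
        mul_le_one₀ (mul_le_one₀ hσ.2 c0 c1) w0 w1
      have w3 := abs_lt.1 w2
      rw [add_re] at w3
      have i1 := abs_le.1 (hc cp (by linarith [r1.1]))
      refine Or.inl ⟨cp, ?_, ?_, hR⟩
      · have := slat_conv (r := L + 1) (x := (z + ν).re - s) (y := β.re - s) (by linarith) hβ.1 u0 u1
        refine le_trans (le_of_eq ?_) this
        congr 1
        simp only [slatE, add_re, mul_re, ofReal_re, ofReal_im, sub_re, I_re, I_im, sub_im]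
        ring
      · have := slat_conv (r := Real.pi - γ') (x := (z + ν).im - b) (y := β.im)
          (by rw [add_im, abs_le]; constructor <;> linarith [r2.1, r2.2, i1.1, i1.2]) hβ.2 u0 u1
        refine le_trans (le_of_eq ?_) this
        congr 1
        simp only [slatE, add_im, mul_im, ofReal_re, ofReal_im, sub_re, I_re, I_im, sub_im]
        ring

lemma slat_int {θ θ' : ℝ} (h : exp (θ * I) = exp (θ' * I)) :
    ∃ k : ℤ, θ = θ' + k * (2 * Real.pi) := by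
  obtain ⟨k, hk⟩ := exp_eq_exp_iff_exists_int.1 h
  refine ⟨k, ?_⟩
  have := congrArg im hk
  simpa using this

lemma slat_int0 {k : ℤ} (h : |(k : ℝ) * (2 * Real.pi)| < 2 * Real.pi) : k = 0 := by
  have hp : 0 < 2 * Real.pi := Real.two_pi_pos
  rw [abs_mul, abs_of_pos hp] at h
  have h1 : |(k : ℝ)| < 1 := by nlinarith
  have h2 : |k| < 1 := by exact_mod_cast h1
  exact Int.abs_lt_one_iff.1 h2

/-- a wall point and any point of the same modulus -/
lemma slat_wall (C : SlatC μ μ' γ γ' s L) (hm : m ≤ s - L - 3) (c1 : c ≤ 1) (cp : 0 < c) {z : ℂ}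
    (hz : m ≤ z.re) (hc : 0 < c → z.re ≤ s + L + 2 → |z.im - b| ≤ Real.pi - γ / 2)
    {p : ℂ × ℝ × ℂ × ℝ} (hp : p ∈ slatP μ' s L γ') {x : ℝ} (hx : |x - s| ≤ L + 1)
    (h : slatR μ m s c b z p = Real.exp x) : |(slatE s c b z p).im - b| ≤ Real.pi - γ' := by
  have hν' : ‖p.1‖ ≤ μ' := mem_closedBall_zero_iff.1 hp.1
  have r1 := abs_le.1 ((abs_re_le_norm p.1).trans hν')
  have r2 := abs_le.1 ((abs_im_le_norm p.1).trans hν')
  have x1 := abs_le.1 hx
  have key : z.re ≤ s + L + 2 → |(z + p.1).im - b| ≤ Real.pi - γ' := fun h => by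
    have i1 := abs_le.1 (hc cp h)
    rw [add_im, abs_le]
    constructor <;> linarith [r2.1, r2.2, i1.1, i1.2, C.b, C.c, C.p]
  rcases slat_tri C hm cp.le c1 hz hc hp with h1 | h1 | h1
  · exact h1.2.2.1
  · have e : (slatE s c b z p).re = x := Real.exp_injective (h1.2.symm.trans h)
    rw [h1.1] at e ⊢
    rw [add_re] at e
    exact key (by linarith [C.a, C.e, r1.1, x1.2])
  · rw [h1.1]
    exact key (by linarith [h1.2.1, C.e, C.f])

/-- a point whose modulus is as small as that of a shadowed point -/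
lemma slat_low (C : SlatC μ μ' γ γ' s L) (hm : m ≤ s - L - 3) (c0 : 0 ≤ c) (c1 : c ≤ 1) {z : ℂ}
    (hz : m ≤ z.re) (hc : 0 < c → z.re ≤ s + L + 2 → |z.im - b| ≤ Real.pi - γ / 2)
    {p : ℂ × ℝ × ℂ × ℝ} (hp : p ∈ slatP μ' s L γ')
    (h : slatR μ m s c b z p ≤ Real.exp (m + μ / 8 + μ')) :
    slatE s c b z p = z + p.1 ∧ z.re ≤ m + μ / 4 := by
  have hν' : ‖p.1‖ ≤ μ' := mem_closedBall_zero_iff.1 hp.1
  have r1 := abs_le.1 ((abs_re_le_norm p.1).trans hν')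
  rcases slat_tri C hm c0 c1 hz hc hp with h1 | h1 | h1
  · rw [h1.2.2.2, Real.exp_le_exp] at h
    have := abs_le.1 h1.2.1
    exfalso
    linarith [C.a, C.e, this.1]
  · rw [h1.2, Real.exp_le_exp, h1.1, add_re] at h
    exact ⟨h1.1, by linarith [C.a, r1.1, C.p]⟩
  · exact ⟨h1.1, by linarith [h1.2.1, C.a, C.p]⟩

lemma slat_inj (C : SlatC μ μ' γ γ' s L) (hm : m ≤ s - L - 3) (c0 : 0 ≤ c) (c1 : c ≤ 1) {z z' : ℂ}
    (hz : m ≤ z.re) (hc : 0 < c → z.re ≤ s + L + 2 → |z.im - b| ≤ Real.pi - γ / 2)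
    (hz' : m ≤ z'.re) (hc' : 0 < c → z'.re ≤ s + L + 2 → |z'.im - b| ≤ Real.pi - γ / 2)
    (hsep : ∀ k : ℤ, k ≠ 0 → μ ≤ ‖z - z' - k * (2 * Real.pi * I)‖)
    (hlow : z.re ≤ m + μ / 4 → z'.re ≤ m + μ / 4 → |z.im - z'.im| ≤ 2 * Real.pi - μ / 4)
    {p p' : ℂ × ℝ × ℂ × ℝ} (hp : p ∈ slatP μ' s L γ') (hp' : p' ∈ slatP μ' s L γ')
    (hR : slatR μ m s c b z p = slatR μ m s c b z' p') {k : ℤ}
    (hk : (slatE s c b z p).im = (slatE s c b z' p').im + k * (2 * Real.pi)) : k = 0 := by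
  have hν : ‖p.1‖ ≤ μ' := mem_closedBall_zero_iff.1 hp.1
  have hν' : ‖p'.1‖ ≤ μ' := mem_closedBall_zero_iff.1 hp'.1
  have r1 := abs_le.1 ((abs_re_le_norm p.1).trans hν)
  have r2 := abs_le.1 ((abs_im_le_norm p.1).trans hν)
  have r1' := abs_le.1 ((abs_re_le_norm p'.1).trans hν')
  have r2' := abs_le.1 ((abs_im_le_norm p'.1).trans hν')
  have γp : 0 < γ' := by linarith [C.p, C.b]
  have strip : |(slatE s c b z p).im - b| ≤ Real.pi - γ' →
      |(slatE s c b z' p').im - b| ≤ Real.pi - γ' → k = 0 := fun h1 h2 => by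
    refine slat_int0 ?_
    rw [abs_le] at h1 h2
    rw [abs_lt]
    constructor <;> linarith [h1.1, h1.2, h2.1, h2.2]
  have low : slatR μ m s c b z p ≤ Real.exp (m + μ / 8 + μ') → k = 0 := fun h => by
    obtain ⟨e1, l1⟩ := slat_low C hm c0 c1 hz hc hp h
    obtain ⟨e2, l2⟩ := slat_low C hm c0 c1 hz' hc' hp' (hR ▸ h)
    have := abs_le.1 (hlow l1 l2)
    rw [e1, e2, add_im, add_im] at hk
    refine slat_int0 ?_
    rw [abs_lt]
    constructor <;> linarith [this.1, this.2, C.a, C.p]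
  rcases slat_tri C hm c0 c1 hz hc hp with h1 | h1 | h1
  · exact strip h1.2.2.1 (slat_wall C hm c1 h1.1 hz' hc' hp' h1.2.1 (hR.symm.trans h1.2.2.2))
  · rcases slat_tri C hm c0 c1 hz' hc' hp' with h2 | h2 | h2
    · exact strip (slat_wall C hm c1 h2.1 hz hc hp h2.2.1 (hR.trans h2.2.2.2)) h2.2.2.1
    · by_contra k0
      have e : (slatE s c b z p).re = (slatE s c b z' p').re :=
        Real.exp_injective (h1.2.symm.trans (hR.trans h2.2))
      rw [h1.1, h2.1] at e hk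
      have e2 : z - z' - k * (2 * Real.pi * I) = p'.1 - p.1 := by
        apply Complex.ext
        · simp only [add_re] at e
          simp
          linarith
        · simp only [add_im] at hk
          simp
          linarith
      have := hsep k k0
      rw [e2] at this
      linarith [norm_sub_le p'.1 p.1, C.a, C.p]
    · refine low ?_
      rw [hR]
      refine h2.2.2.2.trans (Real.exp_le_exp.2 ?_)
      rw [h2.1, add_re]
      linarith [h2.2.1]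
  · refine low (h1.2.2.2.trans (Real.exp_le_exp.2 ?_))
    rw [h1.1, add_re]
    linarith [h1.2.1]

lemma slat_nonneg (C : SlatC μ μ' γ γ' s L) (hm : m ≤ s - L - 3) (c0 : 0 ≤ c) (c1 : c ≤ 1) {z : ℂ}
    (hz : m ≤ z.re) (hc : 0 < c → z.re ≤ s + L + 2 → |z.im - b| ≤ Real.pi - γ / 2)
    {p : ℂ × ℝ × ℂ × ℝ} (hp : p ∈ slatP μ' s L γ') : 0 ≤ slatR μ m s c b z p := by
  rcases slat_tri C hm c0 c1 hz hc hp with h1 | h1 | h1
  · rw [h1.2.2.2]; exact (Real.exp_pos _).le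
  · rw [h1.2]; exact (Real.exp_pos _).le
  · exact h1.2.2.1

lemma slat_junction {x : ℂ} {r : ℝ} (hx : ‖x‖ ≤ 1 / 2) (hr : 0 ≤ r) (h : ‖1 - x‖ * r = ‖x‖) :
    r ≤ 2 * ‖x‖ := by
  have := norm_sub_norm_le (1 : ℂ) x
  rw [norm_one] at this
  nlinarith

lemma slat_exp2 (x : ℝ) : 2 * Real.exp (x - 2) < Real.exp (x - 1) := by
  have h : x - 1 = (x - 2) + 1 := by ring
  rw [h, Real.exp_add]
  have := Real.exp_one_gt_d9
  nlinarith [Real.exp_pos (x - 2)]

/-- the obstacles are admissible for the branch of the sink -/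
lemma slat_sink (C : SlatC μ μ' γ γ' s L) (hm : m ≤ s - L - 3) (c0 : 0 ≤ c) (c1 : c ≤ 1) {z : ℂ}
    (hz : m ≤ z.re) (hc : 0 < c → z.re ≤ s + L + 2 → |z.im - b| ≤ Real.pi - γ / 2)
    {p : ℂ × ℝ × ℂ × ℝ} (hp : p ∈ slatP μ' s L γ') {w : ℂ} (w1 : ‖exp w‖ ≤ μ / 128)
    (w2 : w.re ≤ m - 2) (w3 : z.re ≤ m + μ / 8 → |z.im - w.im| ≤ Real.pi - 5 * μ / 64) :
    (slatR μ m s c b z p, (slatE s c b z p).im) ∈ BrS w := by
  have hν : ‖p.1‖ ≤ μ' := mem_closedBall_zero_iff.1 hp.1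
  have r1 := abs_le.1 ((abs_re_le_norm p.1).trans hν)
  have r2 := abs_le.1 ((abs_im_le_norm p.1).trans hν)
  have h0 := slat_nonneg C hm c0 c1 hz hc hp
  have w4 : ‖exp w‖ ≤ 1 / 2 := by linarith [C.e]
  refine ⟨h0, fun h => ?_⟩
  have j := slat_junction w4 h0 h
  have j2 : slatR μ m s c b z p < Real.exp (m - 1) := by
    refine j.trans_lt (lt_of_le_of_lt ?_ (slat_exp2 m))
    rw [norm_exp]
    linarith [Real.exp_le_exp.2 w2]
  rcases slat_tri C hm c0 c1 hz hc hp with h1 | h1 | h1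
  · rw [h1.2.2.2, Real.exp_lt_exp] at j2
    have := abs_le.1 h1.2.1
    exfalso
    linarith [this.1]
  · rw [h1.2, Real.exp_lt_exp, h1.1, add_re] at j2
    exfalso
    linarith [C.a, C.e, r1.1]
  · have a1 := abs_le.1 (arg_one_sub w4)
    have a2 := abs_le.1 (w3 h1.2.1)
    show |(slatE s c b z p).im + arg (1 - exp w) - w.im| < Real.pi
    rw [h1.1, add_im, abs_lt]
    constructor <;> linarith [a1.1, a1.2, a2.1, a2.2, r2.1, r2.2, C.a, C.p]

/-- the obstacles without walls are admissible for a pinned branch -/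
lemma slat_pin (C : SlatC μ μ' γ γ' s L) (hm : m ≤ s - L - 3) (hs : Real.exp (s + L + 3) ≤ γ')
    {z : ℂ} (hz : m ≤ z.re) (hc : z.re < s + L + 3 → |z.im - b| ≤ Real.pi - γ) {σ' : ℝ}
    (hσ : σ' ∈ Icc (0 : ℝ) 1) {w : ℂ} (w1 : w.re ≤ s + L) (w2 : |w.im - b| ≤ 2 * γ') :
    (slatR μ m s c b z (0, 0, s, σ'), (slatE s c b z (0, 0, s, σ')).im) ∈ BrS w := by
  have hp := slat_memP C (ν := 0) (by simpa using C.p.le) hσ
  have e0 : slatR μ m s c b z (0, 0, s, σ') = slatR μ m s 0 b z (0, 0, s, σ') := by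
    simp only [slatR, slatE_zero]
  have T := slat_tri (b := b) C hm le_rfl zero_le_one hz (fun h => absurd h (lt_irrefl _)) hp
  have h0 := slat_nonneg (b := b) C hm le_rfl zero_le_one hz (fun h => absurd h (lt_irrefl _)) hp
  have w3 : ‖exp w‖ ≤ Real.exp (s + L) := by rw [norm_exp]; exact Real.exp_le_exp.2 w1
  have w4 : Real.exp (s + L) ≤ γ' := (Real.exp_le_exp.2 (by linarith)).trans hs
  have w5 : ‖exp w‖ ≤ 1 / 2 := by linarith [C.c, C.d]
  rw [e0]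
  refine ⟨h0, fun h => ?_⟩
  have j := slat_junction w5 h0 h
  have hre : z.re < s + L + 3 := by
    rcases T with h1 | h1 | h1
    · exact absurd h1.1 (lt_irrefl _)
    · have j2 := slat_exp2 (s + L + 2)
      rw [show s + L + 2 - 2 = s + L by ring] at j2
      have j3 : Real.exp (slatE s 0 b z (0, 0, s, σ')).re < Real.exp (s + L + 2 - 1) := by
        rw [← h1.2]
        have j' : slatR μ m s 0 b z (0, 0, s, σ') ≤ 2 * ‖exp w‖ := j
        linarith
      rw [Real.exp_lt_exp, slatE_zero, add_zero] at j3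
      linarith
    · linarith [h1.2.1, C.e, C.f]
  have a1 := abs_le.1 (arg_one_sub w5)
  have a2 := abs_le.1 (hc hre)
  have a3 := abs_le.1 w2
  show |(slatE s c b z (0, 0, s, σ')).im + arg (1 - exp w) - w.im| < Real.pi
  rw [slatE_zero, add_zero, abs_lt]
  constructor <;> linarith [a1.1, a1.2, a2.1, a2.2, a3.1, a3.2, C.b, C.c, C.p]


/-- the switch for the walls -/
lemma slat_chi {X : Type*} [TopologicalSpace X] {Z : Set X} (hZ : IsCompact Z) {l : TT → X → ℂ}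
    (hl : ContinuousOn (fun x : TT × X => l x.1 x.2) (univ ×ˢ Z)) {b : TT → ℝ} (hb : Continuous b)
    (R : ℝ) {γ : ℝ} (hγ : 0 < γ) : ∃ χ : TT → ℝ, Continuous χ ∧ ∀ t, 0 ≤ χ t ∧ χ t ≤ 1 ∧
      (0 < χ t → ∀ a ∈ Z, (l t a).re ≤ R + 2 → |(l t a).im - b t| ≤ Real.pi - γ / 2) ∧
      ((∀ a ∈ Z, (l t a).re < R + 3 → |(l t a).im - b t| ≤ Real.pi - γ) → χ t = 1) := by
  have hla : ∀ a ∈ Z, Continuous fun t => l t a := fun a ha =>
    hl.comp_continuous (f := fun t : TT => (t, a)) (by fun_prop) fun t => ⟨trivial, ha⟩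
  set A : Set TT := {t | ∃ a ∈ Z, (l t a).re ≤ R + 2 ∧ Real.pi - γ / 2 ≤ |(l t a).im - b t|} with hA
  set B : Set TT := {t | ∀ a ∈ Z, (l t a).re < R + 3 → |(l t a).im - b t| ≤ Real.pi - γ} with hB
  have cA : IsClosed A := by
    have c1 : ContinuousOn (fun x : TT × X => ((l x.1 x.2).re, |(l x.1 x.2).im - b x.1|))
        (univ ×ˢ Z) :=
      (continuous_re.comp_continuousOn hl).prodMk
        ((continuous_im.comp_continuousOn hl).sub (hb.comp continuous_fst).continuousOn).abs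
    obtain ⟨T, T1, T2⟩ := continuousOn_iff_isClosed.1 c1 (Iic (R + 2) ×ˢ Ici (Real.pi - γ / 2))
      (isClosed_Iic.prod isClosed_Ici)
    have c2 := ((isCompact_univ.prod hZ).inter_left T1).image continuous_fst
    rw [← T2] at c2
    have e : A = Prod.fst '' ((fun x : TT × X => ((l x.1 x.2).re, |(l x.1 x.2).im - b x.1|)) ⁻¹'
        (Iic (R + 2) ×ˢ Ici (Real.pi - γ / 2)) ∩ univ ×ˢ Z) := by
      ext t
      constructor
      · rintro ⟨a, ha, h1, h2⟩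
        exact ⟨(t, a), ⟨⟨h1, h2⟩, trivial, ha⟩, rfl⟩
      · rintro ⟨x, ⟨⟨h1, h2⟩, -, ha⟩, rfl⟩
        exact ⟨x.2, ha, h1, h2⟩
    rw [e]
    exact c2.isClosed
  have cB : IsClosed B := by
    have e : B = ⋂ a ∈ Z, ({t | R + 3 ≤ (l t a).re} ∪ {t | |(l t a).im - b t| ≤ Real.pi - γ}) := by
      ext t
      simp only [hB, mem_ofPred_eq, mem_iInter, mem_union]
      refine forall₂_congr fun a _ => ?_
      rw [← not_le, imp_iff_not_or, not_not]
    rw [e]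
    refine isClosed_biInter fun a ha => ?_
    have := hla a ha
    exact (isClosed_le continuous_const (by fun_prop)).union
      (isClosed_le (by fun_prop) continuous_const)
  have dj : Disjoint A B := by
    rw [Set.disjoint_left]
    rintro t ⟨a, ha, h1, h2⟩ h
    linarith [h a ha (by linarith)]
  obtain ⟨χ, χ0, χ1, χ2⟩ := exists_continuous_zero_one_of_isClosed cA cB dj
  refine ⟨χ, χ.continuous, fun t => ⟨(χ2 t).1, (χ2 t).2, fun h a ha h1 => ?_, fun h => χ1 h⟩⟩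
  by_contra h2
  have : χ t = 0 := χ0 ⟨a, ha, h1, (not_le.1 h2).le⟩
  linarith

lemma slatE_cont (s : ℝ) : Continuous fun x : (ℝ × ℝ × ℂ) × (ℂ × ℝ × ℂ × ℝ) =>
    slatE s x.1.1 x.1.2.1 x.1.2.2 x.2 := by
  unfold slatE slatW
  fun_prop

lemma slatR_cont (μ s : ℝ) : Continuous fun x : ℝ × (ℝ × ℝ × ℂ) × (ℂ × ℝ × ℂ × ℝ) =>
    slatR μ x.1 s x.2.1.1 x.2.1.2.1 x.2.1.2.2 x.2.2 := by
  have h := (slatE_cont s).comp
    (continuous_snd (X := ℝ) (Y := (ℝ × ℝ × ℂ) × (ℂ × ℝ × ℂ × ℝ)))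
  unfold slatR slatS
  refine (Real.continuous_exp.comp (continuous_re.comp h)).mul ?_
  fun_prop

/-- the properties of the boundary values at one point of the circle -/
lemma slat_at {X : Type*} [TopologicalSpace X] {Z : Set X} (hp : IsPathConnected Z) {z₀ : X}
    (hz : z₀ ∈ Z) {l : X → ℂ} (hl : ContinuousOn l Z) (h0 : l z₀ = 0)
    (C : SlatC μ μ' γ γ' s L) (hm : m ≤ s - L - 3) (hm1 : ∀ a ∈ Z, m ≤ (l a).re)
    (hm2 : ∃ a ∈ Z, (l a).re = m) (hs : Real.exp (s + L + 3) ≤ γ') {A : ℝ} {w : ℂ}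
    (hA : ∀ l' : X → ℂ, ContinuousOn l' Z →
      (∀ a ∈ Z, exp (l' a) = exp w + (1 - exp w) * exp (l a)) → l' z₀ = 0 →
        ∀ a ∈ Z, |(l' a).im| ≤ A)
    (hc : (∀ a ∈ Z, (l a).re < s + L + 3 → |(l a).im - b| ≤ Real.pi - γ) → c = 1)
    {q : X × (ℂ × ℝ × ℂ × ℝ) → ℂ} (q1 : ContinuousOn q (Z ×ˢ slatP μ' s L γ'))
    (q2 : ∀ y ∈ Z ×ˢ slatP μ' s L γ', exp (q y) = exp w + (1 - exp w) *
      ((slatR μ m s c b (l y.1) y.2 : ℂ) * exp ((slatE s c b (l y.1) y.2).im * I)))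
    (q3 : q (z₀, 0, 0, s, 0) = 0)
    (q4 : ∀ y ∈ Z ×ˢ slatP μ' s L γ', slatR μ m s c b (l y.1) y.2 = 0 → q y = w) :
    |w.im| ≤ A + Real.pi ∧
      (∀ a ∈ Z, μ' / 4 * ‖exp w‖ ≤ ‖exp w + (1 - exp w) * exp (l a)‖) ∧
      ((∀ a ∈ Z, (l a).re < s + L + 3 → |(l a).im - b| ≤ Real.pi - γ) →
        |w.re - s| ≤ L → |w.im - b| ≤ 2 * γ') := by
  obtain ⟨a₁, ha₁, e₁⟩ := hm2
  have n0 : ‖(0 : ℂ)‖ ≤ μ' := by simpa using C.p.le
  have i0 : (0 : ℝ) ∈ Icc (0 : ℝ) 1 := ⟨le_rfl, zero_le_one⟩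
  have i1 : (1 : ℝ) ∈ Icc (0 : ℝ) 1 := ⟨zero_le_one, le_rfl⟩
  have γp : 0 < γ' := by linarith [C.p, C.b]
  have tip : q (a₁, 0, 0, s, 1) = w :=
    q4 _ ⟨ha₁, slat_memP C n0 i1⟩ (by simp [slatR, slatS_low e₁])
  have q5 : ∀ a ∈ Z, ∀ p ∈ slatP μ' s L γ', exp (q (a, p)) = exp w + (1 - exp w) *
      (exp (slatE s c b (l a) p) * (1 - p.2.2.2 * slatS μ m (l a))) := fun a ha p hp => by
    rw [q2 _ ⟨ha, hp⟩, slat_U]
  refine ⟨?_, fun a ha => ?_, fun H hw => ?_⟩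
  · have h1 := hA (fun a => q (a, 0, 0, s, 0))
      (q1.comp (f := fun a : X => (a, (0 : ℂ), (0 : ℝ), (s : ℂ), (0 : ℝ))) (by fun_prop)
        fun a ha => ⟨ha, slat_memP C n0 i0⟩)
      (fun a ha => by rw [q5 a ha _ (slat_memP C n0 i0), slatE_zero]; simp) q3 a₁ ha₁
    have h2 := (seg_arg (l := fun σ' => q (a₁, 0, 0, s, σ'))
      (a := exp w + (1 - exp w) * exp (l a₁)) (b := -((1 - exp w) * exp (l a₁)))
      (q1.comp (f := fun σ' : ℝ => (a₁, (0 : ℂ), (0 : ℝ), (s : ℂ), σ')) (by fun_prop)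
        fun σ' h => ⟨ha₁, slat_memP C n0 h⟩)
      (fun σ' h => by
        rw [q5 a₁ ha₁ _ (slat_memP C n0 h), slatE_zero, slatS_low e₁]
        simp only [add_zero, ofReal_one]
        ring)).2.2
    simp only [tip] at h2
    rw [abs_le] at h1 ⊢
    rw [abs_lt] at h2
    constructor <;> linarith [h1.1, h1.2, h2.1, h2.2]
  · refine margin C.p (by linarith [C.a, C.e, C.p]) fun ν hν => ?_
    have := q5 a ha _ (slat_memP C hν i0)
    rw [slatE_zero] at this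
    simp only [ofReal_zero, zero_mul, sub_zero, mul_one] at this
    rw [← this]
    exact exp_ne_zero _
  · have s0 : s + L + 3 < 0 := by
      rw [← Real.exp_lt_one_iff]
      linarith [C.c, C.d]
    obtain ⟨a₂, ha₂, e₂⟩ : ∃ a ∈ Z, (l a).re = s :=
      hp.isConnected.isPreconnected.intermediate_value ha₁ hz
        (continuous_re.comp_continuousOn hl)
        ⟨by show (l a₁).re ≤ s; linarith [C.f], by
          show s ≤ (l z₀).re
          rw [h0, zero_re]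
          linarith [C.f]⟩
    obtain ⟨k, hk⟩ := pin (Λ := w) (b := b) γp (by linarith [C.c, C.d]) hs hw fun β h1 h2 => by
      have hP : ((0 : ℂ), (1 : ℝ), β - I * b, (0 : ℝ)) ∈ slatP μ' s L γ' :=
        ⟨mem_closedBall_zero_iff.2 n0, i1, ⟨by simpa using h1, by simpa using h2⟩, i0⟩
      have := q5 a₂ ha₂ _ hP
      have e : slatE s c b (l a₂) (0, 1, β - I * b, 0) = β := by
        simp [slatE, slatW, hc H, e₂]
      rw [e] at this
      simp only [ofReal_zero, zero_mul, sub_zero, mul_one] at this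
      rw [← this]
      exact exp_ne_zero _
    set w' : ℂ := w - k * (2 * Real.pi * I) with hw'
    have x1 : exp w' = exp w := by rw [hw', exp_sub, exp_int_mul_two_pi_mul_I, div_one]
    have x2 : w'.re = w.re := by simp [hw']
    have x3 : w'.im = w.im - k * (2 * Real.pi) := by simp [hw']
    have x4 : w'.re ≤ s + L := by linarith [(abs_le.1 hw).2]
    have x5 : ‖exp w'‖ < 1 / 2 := by
      rw [norm_exp]
      have : Real.exp w'.re ≤ Real.exp (s + L + 3) := Real.exp_le_exp.2 (by linarith)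
      linarith [C.c, C.d]
    obtain ⟨B, B1, B2, B3, B4⟩ := br x5
    have mem : ∀ x ∈ Z ×ˢ Icc (0 : ℝ) 1, (slatR μ m s c b (l x.1) (0, 0, s, x.2),
        (slatE s c b (l x.1) (0, 0, s, x.2)).im) ∈ BrS w' := fun x hx =>
      slat_pin C hm hs (hm1 _ hx.1) (H _ hx.1) hx.2 x4 (by rw [x3]; exact hk)
    have l1 : ContinuousOn (fun x : X × ℝ => l x.1) (Z ×ˢ Icc (0 : ℝ) 1) :=
      hl.comp continuousOn_fst fun x hx => hx.1
    have l2 : ContinuousOn (fun x : X × ℝ => (((c, b, l x.1), ((0 : ℂ), (0 : ℝ), (s : ℂ), x.2)) :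
        (ℝ × ℝ × ℂ) × (ℂ × ℝ × ℂ × ℝ))) (Z ×ˢ Icc (0 : ℝ) 1) :=
      (continuousOn_const.prodMk (continuousOn_const.prodMk l1)).prodMk (by fun_prop)
    have c1 : ContinuousOn (fun x : X × ℝ => q (x.1, (0 : ℂ), (0 : ℝ), (s : ℂ), x.2))
        (Z ×ˢ Icc (0 : ℝ) 1) :=
      q1.comp (f := fun x : X × ℝ => (x.1, (0 : ℂ), (0 : ℝ), (s : ℂ), x.2)) (by fun_prop)
        fun x hx => ⟨hx.1, slat_memP C n0 hx.2⟩
    have c2 : ContinuousOn
        (fun x : X × ℝ => slatR μ m s c b (l x.1) ((0 : ℂ), (0 : ℝ), (s : ℂ), x.2))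
        (Z ×ˢ Icc (0 : ℝ) 1) :=
      (slatR_cont μ s).comp_continuousOn ((continuousOn_const (c := m)).prodMk l2)
    have c3 : ContinuousOn
        (fun x : X × ℝ => (slatE s c b (l x.1) ((0 : ℂ), (0 : ℝ), (s : ℂ), x.2)).im)
        (Z ×ˢ Icc (0 : ℝ) 1) :=
      continuous_im.comp_continuousOn ((slatE_cont s).comp_continuousOn l2)
    have c4 : ContinuousOn
        (fun x : X × ℝ => B (slatR μ m s c b (l x.1) ((0 : ℂ), (0 : ℝ), (s : ℂ), x.2),
          (slatE s c b (l x.1) ((0 : ℂ), (0 : ℝ), (s : ℂ), x.2)).im)) (Z ×ˢ Icc (0 : ℝ) 1) :=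
      B1.comp (c2.prodMk c3) mem
    have key := log_sub_const (hp.isConnected.isPreconnected.prod isPreconnected_Icc) c1 c4
      (fun x hx => by rw [B2 _ (mem x hx), x1, q2 _ ⟨hx.1, slat_memP C n0 hx.2⟩])
      (x := (z₀, 0)) (y := (a₁, 1)) ⟨hz, i0⟩ ⟨ha₁, i1⟩
    have v1 : slatR μ m s c b (l z₀) (0, 0, s, 0) = 1 := by simp [slatR, slatE_zero, h0]
    have v2 : (slatE s c b (l z₀) (0, 0, s, 0)).im = 0 := by simp [slatE_zero, h0]
    have v3 : slatR μ m s c b (l a₁) (0, 0, s, 1) = 0 := by simp [slatR, slatS_low e₁]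
    simp only [v1, v2, v3, B3, B4, q3, tip, sub_zero] at key
    have e : w'.im = w.im := by
      have := congrArg im key
      rw [zero_im, sub_im] at this
      linarith
    rw [← e, x3]
    exact hk

/-- a function of the disc algebra which avoids the obstacles and is pinned by the walls -/
theorem slat {X : Type*} [TopologicalSpace X] {Z : Set X} (hZ : IsCompact Z)
    (hp : IsPathConnected Z) {z₀ : X} (hz : z₀ ∈ Z) {l : TT → X → ℂ}
    (hl : ContinuousOn (fun x : TT × X => l x.1 x.2) (univ ×ˢ Z)) (h0 : ∀ t, l t z₀ = 0)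
    {μ : ℝ} (hμ : 0 < μ) (hμ1 : μ ≤ 1)
    (hsep : ∀ t, ∀ a ∈ Z, ∀ a' ∈ Z, ∀ k : ℤ, k ≠ 0 → μ ≤ ‖l t a - l t a' - k * (2 * Real.pi * I)‖)
    {ε : ℝ} (hε : 0 < ε) (hball : ∀ t, ∀ u ∈ ball (1 : ℂ) ε, ∃ a ∈ Z, exp (l t a) = u)
    {A : ℝ} (hA : ∀ (t : TT) (x : ℂ) (l' : X → ℂ), ContinuousOn l' Z →
      (∀ a ∈ Z, exp (l' a) = x + (1 - x) * exp (l t a)) → l' z₀ = 0 → ∀ a ∈ Z, |(l' a).im| ≤ A)
    {b : TT → ℝ} (hb : Continuous b) {γ γ' s L : ℝ} (hγ' : 0 < γ') (hγ : 8 * γ' ≤ γ)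
    (hγ1 : γ ≤ 1) (hL : 0 ≤ L) (hs : Real.exp (s + L + 3) ≤ γ')
    (hlow : ∀ t, ∃ a ∈ Z, (l t a).re ≤ s - L - 3) :
    ∃ Λ : ℂ → ℂ, DA Λ ∧ (Λ 0).re ∈ Icc (s - 1) s ∧
      (∀ w ∈ closedBall (0 : ℂ) 1, |(Λ w).im| ≤ A + Real.pi) ∧ ∀ t,
      (∀ a ∈ Z, min μ γ' / 128 * ‖exp (Λ (ec t))‖ ≤
        ‖exp (Λ (ec t)) + (1 - exp (Λ (ec t))) * exp (l t a)‖) ∧
      ((∀ a ∈ Z, (l t a).re < s + L + 3 → |(l t a).im - b t| ≤ Real.pi - γ) →
        |(Λ (ec t)).re - s| ≤ L → |(Λ (ec t)).im - b t| ≤ 2 * γ') := by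
  have C : SlatC μ (min μ γ' / 32) γ γ' s L :=
    ⟨by have := lt_min hμ hγ'; linarith, by linarith [min_le_left μ γ'],
      by linarith [min_le_right μ γ'], hγ, hγ1, hμ1, hL⟩
  have e128 : min μ γ' / 128 = min μ γ' / 32 / 4 := by ring
  rw [e128]
  generalize min μ γ' / 32 = μ' at C ⊢
  obtain ⟨m, mc, hm⟩ := exists_low hZ ⟨z₀, hz⟩ hl
  have hm' : ∀ t, m t ≤ s - L - 3 := fun t => by
    obtain ⟨a, ha, h⟩ := hlow t
    exact ((hm t).1 a ha).trans h
  obtain ⟨χ, χc, hχ⟩ := slat_chi hZ hl hb (s + L) (γ := γ) (by linarith)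
  have hlt : ∀ t, ContinuousOn (l t) Z := fun t =>
    hl.comp (f := fun a : X => (t, a)) (by fun_prop) fun a ha => ⟨trivial, ha⟩
  have hsep1 : ∀ t, ∀ a ∈ Z, ∀ a' ∈ Z, μ ≤ ‖l t a - l t a' - 2 * Real.pi * I‖ :=
    fun t a ha a' ha' => by simpa using hsep t a ha a' ha' 1 one_ne_zero
  obtain ⟨t₀, -, ht₀⟩ := isCompact_univ.exists_isMinOn univ_nonempty mc.continuousOn
  obtain ⟨Lc, Lc1, Lc2, Lc3⟩ := sink hZ hp hl hμ hsep1 hm
    (min (Real.log (μ / 128)) (m t₀ - 2))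
  have hec : ∀ t, ec t ∈ closedBall (0 : ℂ) 1 := fun t => sphere_subset_closedBall (ec_mem t)
  have Lc4 : ∀ t, ‖exp (Lc (ec t))‖ ≤ μ / 128 := fun t => by
    rw [norm_exp, ← Real.exp_log (show 0 < μ / 128 by positivity), Real.exp_le_exp]
    exact (Lc2 _ (hec t)).trans (min_le_left _ _)
  have Lc5 : ∀ t, ∀ w ∈ closedBall (0 : ℂ) 1, (Lc w).re ≤ m t - 2 := fun t w hw => by
    have h1 : m t₀ ≤ m t := ht₀ (mem_univ t)
    linarith [(Lc2 w hw).trans (min_le_right _ _)]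
  have n0 : ‖(0 : ℂ)‖ ≤ μ' := by simpa using C.p.le
  have i0 : (0 : ℝ) ∈ Icc (0 : ℝ) 1 := ⟨le_rfl, zero_le_one⟩
  have i1 : (1 : ℝ) ∈ Icc (0 : ℝ) 1 := ⟨zero_le_one, le_rfl⟩
  have s0 : s + L + 3 < 0 := by
    rw [← Real.exp_lt_one_iff]
    linarith
  have l1 : ContinuousOn (fun x : TT × X × (ℂ × ℝ × ℂ × ℝ) => l x.1 x.2.1)
      (univ ×ˢ Z ×ˢ slatP μ' s L γ') :=
    hl.comp (f := fun x : TT × X × (ℂ × ℝ × ℂ × ℝ) => (x.1, x.2.1)) (by fun_prop)
      fun x hx => ⟨trivial, hx.2.1⟩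
  have l2 : ContinuousOn (fun x : TT × X × (ℂ × ℝ × ℂ × ℝ) =>
      (((χ x.1, b x.1, l x.1 x.2.1), x.2.2) : (ℝ × ℝ × ℂ) × (ℂ × ℝ × ℂ × ℝ)))
      (univ ×ˢ Z ×ˢ slatP μ' s L γ') :=
    ((χc.comp continuous_fst).continuousOn.prodMk
      ((hb.comp continuous_fst).continuousOn.prodMk l1)).prodMk (by fun_prop)
  obtain ⟨Λ, Λ1, Λ2, Λ3⟩ := chan (K := Z ×ˢ slatP μ' s L γ')
    (ρ := fun t y => slatR μ (m t) s (χ t) (b t) (l t y.1) y.2)
    (θ := fun t y => (slatE s (χ t) (b t) (l t y.1) y.2).im)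
    (hZ.prod (slatP_compact _ _ _ _))
    (hp.prod ((slatP_convex _ _ _ _).isPathConnected ⟨_, slat_memP C n0 i0⟩))
    ((slatR_cont μ s).comp_continuousOn ((mc.comp continuous_fst).continuousOn.prodMk l2))
    (continuous_im.comp_continuousOn ((slatE_cont s).comp_continuousOn l2))
    (y₀ := (z₀, 0, 0, s, 0)) ⟨hz, slat_memP C n0 i0⟩
    (fun t => by simp [slatR, slatE_zero, h0])
    (fun t => by
      obtain ⟨a, ha, e⟩ := (hm t).2
      exact ⟨(a, 0, 0, s, 1), ⟨ha, slat_memP C n0 i1⟩, by simp [slatR, slatS_low e]⟩)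
    (fun t y hy y' hy' hpos h => by
      have c1 := fun h => (hχ t).2.2.1 h _ hy.1
      have c2 := fun h => (hχ t).2.2.1 h _ hy'.1
      have p2 := slat_nonneg C (hm' t) (hχ t).1 (hχ t).2.1 ((hm t).1 _ hy'.1) c2 hy'.2
      have hn := congrArg norm h
      rw [norm_mul, norm_mul, norm_exp_ofReal_mul_I, norm_exp_ofReal_mul_I, mul_one, mul_one,
        norm_real, norm_real, Real.norm_eq_abs, Real.norm_eq_abs, abs_of_pos hpos,
        abs_of_nonneg p2] at hn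
      rw [← hn] at h
      obtain ⟨k, hk⟩ := slat_int (mul_left_cancel₀ (ofReal_ne_zero.2 hpos.ne') h)
      have k0 := slat_inj C (hm' t) (hχ t).1 (hχ t).2.1 ((hm t).1 _ hy.1) c1 ((hm t).1 _ hy'.1) c2
        (hsep t _ hy.1 _ hy'.1) (fun h1 h2 => by
          have u1 := low_pair hp (hlt t) hμ (hsep1 t) (hm t).1 hy.1 hy'.1 h1 h2
          have u2 := low_pair hp (hlt t) hμ (hsep1 t) (hm t).1 hy'.1 hy.1 h2 h1
          rw [abs_le]
          constructor <;> linarith) hy.2 hy'.2 hn hk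
      rw [hk, k0]
      simp)
    hε
    (fun t u hu => by
      obtain ⟨a, ha, e⟩ := hball t u hu
      refine ⟨(a, 0, 0, s, 0), ⟨ha, slat_memP C n0 i0⟩, ?_⟩
      rw [slat_U, slatE_zero]
      simpa using e)
    Lc1 (fun t => by linarith [Lc4 t])
    (fun t y hy => slat_sink C (hm' t) (hχ t).1 (hχ t).2.1 ((hm t).1 _ hy.1)
      (fun h => (hχ t).2.2.1 h _ hy.1) hy.2 (Lc4 t) (Lc5 t _ (hec t)) (Lc3 t _ hy.1))
    (s := s) (by linarith)
    (by linarith [Lc5 0 0 (mem_closedBall_self zero_le_one), hm' 0])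
  have key : ∀ t, |(Λ (ec t)).im| ≤ A + Real.pi ∧
      (∀ a ∈ Z, μ' / 4 * ‖exp (Λ (ec t))‖ ≤
        ‖exp (Λ (ec t)) + (1 - exp (Λ (ec t))) * exp (l t a)‖) ∧
      ((∀ a ∈ Z, (l t a).re < s + L + 3 → |(l t a).im - b t| ≤ Real.pi - γ) →
        |(Λ (ec t)).re - s| ≤ L → |(Λ (ec t)).im - b t| ≤ 2 * γ') := fun t => by
    obtain ⟨q, q1, q2, q3, q4⟩ := Λ3 t
    exact slat_at hp hz (hlt t) (h0 t) C (hm' t) (hm t).1 (hm t).2 hs (hA t _) (hχ t).2.2.2
      q1 q2 q3 q4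
  refine ⟨Λ, Λ1, Λ2, abs_im_le_of_sphere Λ1 fun w hw => ?_, fun t => (key t).2⟩
  obtain ⟨t, rfl⟩ := ec_surj (mem_sphere_zero_iff_norm.1 hw)
  exact (key t).1

end Pool.Agent.MP_4baaa2_an.H94

end
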