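import Pool.Agent.MP_4baaa2_an.Mg.H94_Slat
import Pool.Agent.MP_4baaa2_an.Mg.H94_Bdy
import Pool.Agent.MP_4baaa2_an.Mg.H94_Ha5
import Pool.Agent.MP_4baaa2_an.Mg.H94_Pt
import Pool.Agent.MP_4baaa2_an.Mg.H94_GeoA

/-!
The channel for the deep part of the domain.
-/

namespace Pool.Agent.MP_4baaa2_an.H94

open Set Metric Filter Topology Complex MeasureTheory
open scoped ComplexConjugate
open Pool.Agent.Lib.PlaneTop

variable {n : ℕ} {D : Set (E n)} {Φ : E n → E n → ℂ}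

theorem Geo.slatd_kappa (G : Geo D Φ) {xs : TT → E n} (hx : Measurable xs)
    (hK : ∀ t, xs t ∈ Kd D) {b₀ : TT → ℝ} (hb : Measurable b₀) {γ : ℝ}
    (hnp : ∀ t, ∃ κ > 0, NP D Φ (xs t) (b₀ t) γ κ) {m : ℝ} (hm : 0 < m) :
    ∃ κ > 0, volume.real {t | ¬ NP D Φ (xs t) (b₀ t) γ κ} ≤ m := by
  set S : ℕ → Set TT := fun k => {t | ¬ NP D Φ (xs t) (b₀ t) γ (1 / ((k : ℝ) + 1))} with hS
  have h1 : ∀ k, MeasurableSet (S k) := fun k => by
    have := (hx.prodMk hb) (G.np_closed γ (1 / ((k : ℝ) + 1))).measurableSet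
    convert this.compl using 1
    ext t
    simp [hS, hK t]
  have h2 : Antitone S := fun i j hij t ht hn => ht fun z hz h =>
    hn z hz (h.trans_le (Nat.one_div_le_one_div hij))
  have h3 : ⋂ k, S k = ∅ := by
    refine eq_empty_of_forall_notMem fun t ht => ?_
    obtain ⟨κ, hκ, h⟩ := hnp t
    obtain ⟨k, hk⟩ := exists_nat_one_div_lt hκ
    exact mem_iInter.1 ht k fun z hz h' => h z hz (h'.trans hk)
  have h4 := tendsto_measure_iInter_atTop (μ := volume) (fun k => (h1 k).nullMeasurableSet) h2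
    ⟨0, measure_ne_top _ _⟩
  rw [h3, measure_empty] at h4
  have h5 := (ENNReal.tendsto_toReal ENNReal.zero_ne_top).comp h4
  obtain ⟨k, hk⟩ := (h5.eventually (gt_mem_nhds (show ENNReal.toReal 0 < m from hm))).exists
  exact ⟨_, by positivity, hk.le⟩

theorem slatd_ball {δ : ℝ} (hδ : δ ≤ dep D 0 / 2) : ball (0 : E n) (dep D 0 / 2) ⊆ Zd D δ := by
  intro z hz
  have h := infDist_le_infDist_add_dist (x := (0 : E n)) (y := z) (s := Dᶜ)
  rw [mem_ball, dist_comm] at hz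
  change δ ≤ infDist z Dᶜ
  unfold dep at hz hδ
  linarith

theorem slatd_hit {d RD : ℝ} (hRD : 0 < RD) {ξ : E n} (hξ : 1 ≤ RD * ‖ξ‖) {u : ℂ}
    (hu : u ∈ ball (1 : ℂ) (d / RD)) : ∃ a ∈ ball (0 : E n) d, 1 - dot a ξ = u := by
  have h0 : 0 < ‖ξ‖ := by
    by_contra hc
    have : ‖ξ‖ = 0 := le_antisymm (not_lt.1 hc) (norm_nonneg _)
    rw [this] at hξ
    linarith
  refine ⟨((1 - u) / ((‖ξ‖ ^ 2 : ℝ) : ℂ)) • cj ξ, ?_, ?_⟩
  · rw [mem_ball, dist_eq_norm', lt_div_iff₀ hRD] at hu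
    rw [mem_ball_zero_iff, norm_smul, norm_cj, norm_div, Complex.norm_real,
      Real.norm_of_nonneg (by positivity)]
    have e : ‖1 - u‖ / ‖ξ‖ ^ 2 * ‖ξ‖ = ‖1 - u‖ / ‖ξ‖ := by field_simp
    rw [e, div_lt_iff₀ h0]
    have h1 : ‖1 - u‖ ≤ ‖1 - u‖ * (RD * ‖ξ‖) := le_mul_of_one_le_right (norm_nonneg _) hξ
    nlinarith
  · rw [cls1_solve (norm_pos_iff.1 h0)]
    ring

theorem slatd_xi {h : ℂ → E n} (hd : DifferentiableOn ℂ h (ball 0 1)) :
    ContinuousOn (xi h) (Ann 0) :=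
  ContinuousOn.smul (continuousOn_id.inv₀ fun _ hw => norm_pos_iff.1 hw.1)
    (hd.continuousOn.mono fun _ hw => mem_ball_zero_iff.2 hw.2)

theorem slatd_three {S₁ S₂ S₃ S : Set TT} {m : ℝ} (h1 : volume.real S₁ ≤ m / 3)
    (h2 : volume.real S₂ ≤ m / 3) (h3 : volume.real S₃ ≤ m / 3) (h : S ⊆ S₁ ∪ S₂ ∪ S₃) :
    volume.real S ≤ m := by
  have a1 := measureReal_mono (μ := volume) h (measure_ne_top _ _)
  have a2 := measureReal_union_le (μ := volume) (S₁ ∪ S₂) S₃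
  have a3 := measureReal_union_le (μ := volume) S₁ S₂
  linarith

theorem slatd_ev {c e : ℝ} (he : 0 < e) : ∀ᶠ x : ℝ in 𝓝[>] 0, x * c ≤ e := by
  have : Tendsto (fun x : ℝ => x * c) (𝓝 0) (𝓝 (0 * c)) :=
    (continuous_id.mul continuous_const).tendsto 0
  rw [zero_mul] at this
  exact nhdsWithin_le_nhds (this.eventually (ge_mem_nhds he))

theorem Geo.slatd (G : Geo D Φ) : ∃ A' : ℝ, ∀ γ' > 0, ∃ μ₁ > 0,
    ∀ {h : ℂ → E n} {xs : TT → E n} {Lg : E n → ℂ → ℂ} {γ A₀ : ℝ} {b₀ : TT → ℝ} {η : ℕ → ℝ}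
      {τ : ℕ → TT → Ty}, Bdy D Φ h xs Lg → Sel D Φ xs γ A₀ b₀ η τ → 16 * γ' ≤ γ →
      ∀ m > 0, ∀ L ≥ (0 : ℝ), ∀ᶠ t' : ℝ in 𝓝[>] 0, ∀ᶠ δ : ℝ in 𝓝[>] 0, ∀ᶠ r : ℝ in 𝓝[<] 1,
        ∃ Λ : ℂ → ℂ, DA Λ ∧ (Λ 0).re ∈ Icc (Real.log t' - 1) (Real.log t') ∧
          (∀ w ∈ closedBall (0 : ℂ) 1, |(Λ w).im| ≤ A') ∧
          (∀ t, ∀ z ∈ Zd D δ, μ₁ * ‖exp (Λ (ec t))‖ ≤
            ‖exp (Λ (ec t)) + (1 - exp (Λ (ec t))) * uz h z (r * ec t)‖) ∧
          volume.real {t | |(Λ (ec t)).re - Real.log t'| ≤ L ∧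
            3 * γ' < |(Λ (ec t)).im - b₀ t|} ≤ m := by
  obtain ⟨δ₀, hδ₀, A, C, hdeep⟩ := G.deep
  obtain ⟨μ₀, hμ₀, hsep⟩ := G.sep
  obtain ⟨Rh, hRh, hhb⟩ := G.hb
  obtain ⟨RD, hRD, hR⟩ := G.bdd.subset_ball_lt 0 (0 : E n)
  have hd : 0 < dep D 0 := (dep_pos_iff G.isOpen G.ne_univ).2 G.zero
  have hμ : 0 < min (μ₀ / 2) 1 := lt_min (half_pos hμ₀) one_pos
  refine ⟨A + Real.pi, fun γ' hγ' => ⟨min (min (μ₀ / 2) 1) γ' / 128,
    div_pos (lt_min hμ hγ') (by norm_num), ?_⟩⟩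
  intro h xs Lg γ A₀ b₀ η τ B S hγ m hm L hL
  have hm3 : 0 < m / 3 := by positivity
  obtain ⟨b, hb, hb1⟩ := cont_approx S.meas S.bd hγ' hm3
  obtain ⟨κ, hκ, hκ1⟩ := G.slatd_kappa B.meas B.mem S.meas S.np hm3
  filter_upwards [self_mem_nhdsWithin, slatd_ev (c := Real.exp (L + 3)) hγ',
    slatd_ev (c := Real.exp (L + 3)) (half_pos hκ)] with t' ht0 ht1 ht2
  have ht0' : 0 < t' := ht0
  have e1 : Real.exp (Real.log t' + L + 3) = t' * Real.exp (L + 3) := by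
    rw [add_assoc, Real.exp_add, Real.exp_log ht0']
  filter_upwards [Ioc_mem_nhdsGT hδ₀, Ioc_mem_nhdsGT (half_pos hd),
    slatd_ev (c := C * (2 * Rh)) (Real.exp_pos (Real.log t' - L - 3))] with δ hδ1 hδ2 hδ3
  obtain ⟨hz0, hpc, hpush, hA⟩ := hdeep δ hδ1
  obtain ⟨hZ, hZD⟩ : IsCompact (Zd D δ) ∧ Zd D δ ⊆ D := isCompact_deep G.bdd G.ne_univ hδ1.1
  have hθ : 0 < min (μ₀ / 4) (min γ' (Real.log 2)) :=
    lt_min (by positivity) (lt_min hγ' (Real.log_pos one_lt_two))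
  obtain ⟨ρ₁, hρ₁, ε, hε, hnear⟩ := G.lg_near hδ1.1 hz0 hpc.isConnected.isPreconnected hθ
  replace hnear := hnear h Lg B.adm B.lg
  obtain ⟨ρ₂, hρ₂, hcl⟩ := G.cl_K B.adm hε
  filter_upwards [Ioo_mem_nhdsLT hρ₁, Ioo_mem_nhdsLT hρ₂,
    Ioo_mem_nhdsLT (show (1 / 2 : ℝ) < 1 by norm_num),
    B.rl_xi.in_measure one_pos (slatd_xi B.adm.1) hε hm3] with r hr1 hr2 hr3 hr4
  have hn : ∀ t, ‖(r : ℂ) * ec t‖ = r := fun t => by
    rw [norm_mul, norm_ec, mul_one, Complex.norm_real, Real.norm_of_nonneg (by linarith [hr3.1])]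
  have hw1 : ∀ t, ‖(r : ℂ) * ec t‖ < 1 := fun t => (hn t).trans_lt hr1.2
  have hA1 : ∀ t, (r : ℂ) * ec t ∈ Ann ρ₁ := fun t => ⟨hr1.1.trans_eq (hn t).symm, hw1 t⟩
  have hA2 : ∀ t, (r : ℂ) * ec t ∈ Ann ρ₂ := fun t => ⟨hr2.1.trans_eq (hn t).symm, hw1 t⟩
  have hw0 : ∀ t, (r : ℂ) * ec t ≠ 0 := fun t =>
    norm_pos_iff.1 (by rw [hn t]; linarith [hr3.1])
  have hexp : ∀ t, ∀ a ∈ Zd D δ, exp (lz h Lg a (r * ec t)) = uz h a (r * ec t) := fun t a ha =>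
    exp_lz B.adm B.lg (hZD ha) ((hnear _ (hA1 t)).1 a ha) (hw1 t)
  obtain ⟨Λ, k1, k2, k3, k4⟩ := slat hZ hpc hz0 (l := fun t a => lz h Lg a (r * ec t))
    (μ := min (μ₀ / 2) 1) (ε := dep D 0 / 2 / RD) (A := A) (b := b) (γ := γ) (γ' := γ')
    (s := Real.log t') (L := L)
    (ContinuousOn.comp (g := fun x : E n × ℂ => lz h Lg x.1 x.2)
      (f := fun x : TT × E n => (x.2, (r : ℂ) * ec x.1)) (lz_cont G.isOpen B.adm B.lg)
      (by fun_prop) fun x hx => ⟨hZD hx.2, (hnear _ (hA1 x.1)).1 _ hx.2, hw1 x.1⟩)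
    (fun t => by
      simp [lz, B.lg.lg0 _ (mem_ball_zero_iff.2 (hw1 t)), B.adm.F_zero G.zero])
    hμ (min_le_right _ _)
    (fun t a ha a' ha' k hk => by
      obtain ⟨ξ, hξ, hξ'⟩ := hcl _ (hA2 t)
      have a1 := ((hnear _ (hA1 t)).2 ξ hξ hξ' a ha).trans (min_le_left _ _)
      have a2 := ((hnear _ (hA1 t)).2 ξ hξ hξ' a' ha').trans (min_le_left _ _)
      have a3 := hsep ξ hξ a (hZD ha) a' (hZD ha') k hk
      have e : Φ a ξ - Φ a' ξ - k * (2 * Real.pi * I) =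
          (lz h Lg a (r * ec t) - lz h Lg a' (r * ec t) - k * (2 * Real.pi * I)) -
            (lz h Lg a (r * ec t) - Φ a ξ) + (lz h Lg a' (r * ec t) - Φ a' ξ) := by ring
      rw [e] at a3
      have a4 := a3.trans ((norm_add_le _ _).trans (add_le_add_left (norm_sub_le _ _) _))
      exact (min_le_left _ _).trans (by linarith))
    (by positivity)
    (fun t u hu => by
      obtain ⟨a, ha, hau⟩ := slatd_hit hRD (xi_low B.adm B.onto hR (hw1 t) (hw0 t)).2 hu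
      exact ⟨a, slatd_ball hδ2.2 ha, (hexp t a (slatd_ball hδ2.2 ha)).trans hau⟩)
    (fun t x l' hl' he h0 => hA ((1 - x) • xi h (r * ec t)) l' hl' (fun a ha => by
      rw [he a ha, hexp t a ha, uz, dot_smul_right]
      ring) h0)
    hb hγ' (by linarith) (by linarith [S.gle]) hL (e1.trans_le ht1)
    (fun t => by
      obtain ⟨z, hz, -, hz0⟩ := (xi_low B.adm B.onto hR (hw1 t) (hw0 t)).1
      obtain ⟨z', hz', hzz⟩ := hpush z hz
      refine ⟨z', hz', Real.exp_le_exp.1 ?_⟩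
      rw [← Complex.norm_exp, hexp t z' hz']
      have a1 : ‖xi h (r * ec t)‖ ≤ 2 * Rh := by
        rw [xi, norm_smul, norm_inv, hn t]
        refine mul_le_mul ?_ ((hhb h B.adm).bd _ (mem_ball_zero_iff.2 (hw1 t))) (norm_nonneg _)
          zero_le_two
        rw [inv_le_comm₀ (by linarith [hr3.1]) two_pos]
        linarith [hr3.1]
      have e : uz h z' (r * ec t) = -dot (z' - z) (xi h (r * ec t)) := by
        rw [← sub_zero (uz h z' (r * ec t)), ← hz0, uz, uz, dot_sub_left]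
        ring
      rw [e, norm_neg]
      refine (norm_dot_le _ _).trans ((mul_le_mul hzz a1 (norm_nonneg _)
        ((norm_nonneg _).trans hzz)).trans ?_)
      linarith)
  refine ⟨Λ, k1, k2, k3, fun t z hz => ?_, slatd_three hb1 hκ1 hr4 fun t ht => ?_⟩
  · rw [← hexp t z hz]
    exact (k4 t).1 z hz
  by_contra hcon
  simp only [mem_union, mem_ofPred_eq, not_or, not_lt, not_not] at hcon
  obtain ⟨⟨c1, c2⟩, c3⟩ := hcon
  have c4 := (k4 t).2 (fun a ha hre => by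
    have a1 := (hnear _ (hA1 t)).2 _ (B.mem t) c3 a ha
    have a2 := (abs_re_le_norm _).trans (a1.trans ((min_le_right _ _).trans (min_le_right _ _)))
    have a3 := (abs_im_le_norm _).trans (a1.trans ((min_le_right _ _).trans (min_le_left _ _)))
    rw [sub_re] at a2
    rw [sub_im] at a3
    have a4 := c2 a (hZD ha) (by
      rw [← G.Φexp a (hZD ha) _ (B.mem t), Complex.norm_exp]
      have : (Φ a (xs t)).re < Real.log t' + L + 3 + Real.log 2 := by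
        linarith [(abs_le.1 a2).1]
      have := Real.exp_lt_exp.2 this
      rw [Real.exp_add, e1, Real.exp_log two_pos] at this
      linarith)
    rw [abs_le] at a3 a4 c1 ⊢
    constructor <;> linarith [a3.1, a3.2, a4.1, a4.2, c1.1, c1.2]) ht.1
  have c5 := ht.2
  rw [abs_le] at c1 c4
  exact absurd (abs_le.2 ⟨by linarith [c1.1, c4.1], by linarith [c1.2, c4.2]⟩) (not_le.2 c5)

end Pool.Agent.MP_4baaa2_an.H94

/-!
Construction of the competitors.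
-/

namespace Pool.Agent.MP_4baaa2_an.H94

open Set Metric Filter Topology Complex MeasureTheory
open scoped ComplexConjugate
open Pool.Agent.Lib.PlaneTop

variable {n : ℕ} {D : Set (E n)} {Φ : E n → E n → ℂ}


variable {h : ℂ → E n} {xs : TT → E n} {Lg : E n → ℂ → ℂ} {γ A₀ : ℝ} {b₀ : TT → ℝ} {η : ℕ → ℝ}
  {τ : ℕ → TT → Ty}

theorem kk_dcc {g : ℂ → E n} {Λ u : ℂ → ℂ} {r : ℝ} (hr0 : 0 < r) (hr : r < 1)
    (hh : DifferentiableOn ℂ h (ball 0 1)) (hg : DifferentiableOn ℂ g (ball 0 1)) (hΛ : DA Λ)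
    (hu : DifferentiableOn ℂ u (ball 0 1)) : DiffContOnCl ℂ (kk h g Λ u r) (ball 0 r) := by
  have hs : closure (ball (0 : ℂ) r) ⊆ ball 0 1 :=
    closure_ball_subset_closedBall.trans (closedBall_subset_ball hr)
  have h1 : DiffContOnCl ℂ (fun w : ℂ => exp (Λ (w / r))) (ball 0 r) := by
    refine differentiable_exp.comp_diffContOnCl (hΛ.comp (g := fun w : ℂ => w / r)
      (Differentiable.diffContOnCl (by fun_prop)) fun w hw => ?_)
    rw [mem_ball_zero_iff] at hw ⊢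
    rwa [norm_div, Complex.norm_real, Real.norm_of_nonneg hr0.le, div_lt_one hr0]
  have h2 := (hh.mono hs).diffContOnCl
  have h3 := (hg.mono hs).diffContOnCl
  have h4 := (hu.mono hs).diffContOnCl
  exact ⟨((h1.1.const_sub 1).smul h2.1).add ((h1.1.mul h4.1).smul h3.1),
    ((continuousOn_const.sub h1.2).smul h2.2).add ((h1.2.mul h4.2).smul h3.2)⟩

theorem kk_dot (h g : ℂ → E n) (Λ u : ℂ → ℂ) (r : ℝ) (z : E n) {w : ℂ} (hw : w ≠ 0) :
    w - dot z (kk h g Λ u r w) = w * (exp (Λ (w / r)) * (1 - u w * dot z (xi g w)) +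
      (1 - exp (Λ (w / r))) * uz h z w) := by
  simp only [kk, uz, xi, dot_add_right, dot_smul_right]
  field_simp
  ring

theorem var0_ev {P : ℝ → Prop} (h : ∀ᶠ s : ℝ in 𝓝[>] 0, P s) :
    ∀ᶠ k : ℕ in atTop, ∀ s ∈ Ioc (0 : ℝ) (1 / ((k : ℝ) + 1)), P s := by
  obtain ⟨a, ha, h⟩ := mem_nhdsGT_iff_exists_Ioc_subset.1 h
  filter_upwards [(tendsto_one_div_add_atTop_nhds_zero_nat (𝕜 := ℝ)).eventually
    (eventually_le_nhds ha)] with k hk s hs
  exact h ⟨hs.1, hs.2.trans hk⟩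

theorem var0_rpow {α : ℝ} (hα : 0 < α) : Tendsto (fun s : ℝ => s ^ α) (𝓝[>] 0) (𝓝[>] 0) := by
  refine tendsto_nhdsWithin_iff.2 ⟨?_, ?_⟩
  · have := (Real.continuousAt_rpow_const 0 α (.inr hα.le)).tendsto
    rw [Real.zero_rpow hα.ne'] at this
    exact this.mono_left nhdsWithin_le_nhds
  · filter_upwards [self_mem_nhdsWithin] with s hs using Real.rpow_pos_of_pos hs α

theorem var0_margin {x y v : ℂ} {μ : ℝ} (hx : x ≠ 0) (h : μ * ‖x‖ ≤ ‖x + y‖) (hv : ‖v‖ < μ) :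
    x * (1 - v) + y ≠ 0 := fun h0 => by
  rw [show x + y = x * v by linear_combination h0, norm_mul, mul_comm] at h
  exact hv.not_ge (le_of_mul_le_mul_left h (norm_pos_iff.2 hx))

/-- The competitors over a sawtooth domain are admissible for the deep part of the domain. -/
theorem Geo.var0 (G : Geo D Φ) (B : Bdy D Φ h xs Lg) (S : Sel D Φ xs γ A₀ b₀ η τ)
    {g : ℂ → E n} {Bg : ℝ} (hg : HB g Bg) {γ' : ℝ} (hγ' : 0 < γ') (hγ : 16 * γ' ≤ γ) :
    ∃ θ₀ > 0, ∀ (T : Set TT) (α θ₁ θ₂ : ℝ), MeasurableSet T → 0 < α → θ₁ ≤ θ₀ →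
      (∀ᵐ t, t ∈ T → RN D h g (ec t) (b₀ t) α (7 * γ') θ₁ θ₂) →
      ∀ m > 0, 2 * m < volume.real T →
        ∀ᶠ s : ℝ in 𝓝[>] 0, ∀ᶠ δ : ℝ in 𝓝[>] 0, ∀ᶠ r : ℝ in 𝓝[<] 1,
          ∃ (Gs : Set TT) (Λ : ℂ → ℂ), IsClosed Gs ∧ volume.real (T \ Gs) ≤ 2 * m ∧ DA Λ ∧
            (Λ 0).re ∈ Icc (α * Real.log s - 1) (α * Real.log s) ∧
            (∀ w : ℂ, ‖w‖ < 1 → ‖Λ w - (Λ 0).re - I * SI b₀ w‖ ≤ 12 * γ' / (1 - ‖w‖)) ∧
            ∀ u, Dmp Gsᶜ θ₁ θ₂ u →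
              ∃ W, SawV Gs s r W ∧ Adm (Zd D δ) (tw (kk h g Λ u r) W) := by
  obtain ⟨A', hA'⟩ := G.slatd
  obtain ⟨μ₁, hμ, hsl⟩ := hA' γ' hγ'
  obtain ⟨RD, hRD, hD⟩ := G.bdd.subset_ball_lt 0 0
  obtain ⟨δ₀, hδ₀, A, C, hdeep⟩ := G.deep
  have hBg : 0 ≤ Bg := (norm_nonneg _).trans (hg.bd 0 (mem_ball_self one_pos))
  refine ⟨μ₁ / (4 * RD * (Bg + 1)), by positivity, fun T α θ₁ θ₂ _ hα hθ hRN m hm hmT => ?_⟩
  obtain ⟨m₁, hm₁, L, hL, L', hx⟩ := xset 9 (max A' A₀) hm (show 0 < 3 * γ' by positivity)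
  have hint : Integrable b₀ :=
    Integrable.of_bound S.meas.aestronglyMeasurable A₀ (Eventually.of_forall S.bd)
  let T' : Set TT := {t | RN D h g (ec t) (b₀ t) α (7 * γ') θ₁ θ₂ ∧
    Tendsto (PI b₀) (𝓝[Cone 9 (ec t)] (ec t)) (𝓝 (b₀ t))}
  have hT' : T ≤ᵐ[volume] T' := by
    filter_upwards [hRN, fatou hint] with t h1 h2 ht using ⟨h1 ht, h2 9⟩
  let Q : ℕ → TT → Prop := fun k t => ∀ s ∈ Ioc (0 : ℝ) (1 / ((k : ℝ) + 1)),
    (∀ w ∈ Cone 9 (ec t), 1 - ‖w‖ ≤ 2 * s → ∀ l : ℂ,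
      |l.re - α * Real.log s| ≤ L' → |l.im - b₀ t| ≤ 7 * γ' → ∀ u : ℂ,
        (‖u‖ ≤ θ₁ ∨ (‖u‖ ≤ 1 ∧ s / 2 ≤ 1 - ‖w‖ ∧ ∃ ψ : ℝ, |ψ| ≤ θ₂ ∧ u = ‖u‖ * exp (ψ * I))) →
        ∀ z ∈ D, exp l * (1 - u * dot z (xi g w)) + (1 - exp l) * uz h z w ≠ 0) ∧
    ∀ w ∈ Cone 9 (ec t), 1 - ‖w‖ ≤ 2 * s → |PI b₀ w - b₀ t| ≤ γ'
  have hQ : ∀ k t, Q k t → Q (k + 1) t := fun k t hq s hs =>
    hq s ⟨hs.1, hs.2.trans (Nat.one_div_le_one_div (Nat.le_succ k))⟩
  have hS : ∀ t ∈ T', ∃ k, Q k t := fun t ht => by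
    obtain ⟨d, hd, h1⟩ := (cone_ev (norm_ec t)).1 (Metric.tendsto_nhds.1 ht.2 γ' hγ')
    refine (var0_ev ((ht.1 L').and ?_)).exists
    filter_upwards [Ioo_mem_nhdsGT (half_pos hd)] with s hs w hw hws
    exact (h1 w hw (by linarith [hs.2])).le
  obtain ⟨k, hk⟩ := good_set hQ hS hm
  filter_upwards [(var0_rpow hα).eventually (hsl B S hγ m₁ hm₁ L hL),
    Ioc_mem_nhdsGT (show (0 : ℝ) < 1 / 16 by norm_num),
    Ioc_mem_nhdsGT (show (0 : ℝ) < 1 / ((k : ℝ) + 1) by positivity)] with s h1 hs hsk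
  filter_upwards [h1, Ioc_mem_nhdsGT hδ₀] with δ h2 hδ
  filter_upwards [h2, Ioo_mem_nhdsLT (show 1 - s / 2 < 1 by linarith [hs.1])] with r h3 hr
  obtain ⟨Λ, hΛ, l0, l1, l2, l3⟩ := h3
  rw [Real.log_rpow hs.1] at l0 l3
  obtain ⟨⟨X, hX, hX'⟩, l4⟩ := hx b₀ S.meas (fun t => (S.bd t).trans (le_max_right _ _)) Λ _ hΛ l0
    (fun w hw => (l1 w hw).trans (le_max_left _ _)) l3
  obtain ⟨hZ, hZD⟩ := isCompact_deep G.bdd G.ne_univ hδ.1
  have hr0 : 1 / 2 < r := by linarith [hr.1, hs.2]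
  have hr1 : 0 < r := by linarith
  have hvol : volume.real (T \ closure {t | t ∈ T' ∧ Q k t ∧ t ∉ X}) ≤ 2 * m := by
    refine le_trans ?_ (hk X hX)
    refine ENNReal.toReal_mono (measure_ne_top _ _) (measure_mono_ae ?_)
    filter_upwards [hT'] with t h1 ht using ⟨subset_toMeasurable _ _ (h1 ht.1), ht.2⟩
  have hne : (closure {t | t ∈ T' ∧ Q k t ∧ t ∉ X}).Nonempty := by
    rw [nonempty_iff_ne_empty]
    intro h0
    rw [h0, sdiff_empty] at hvol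
    exact hmT.not_ge hvol
  refine ⟨_, Λ, isClosed_closure, hvol, hΛ, l0, fun w hw => (l4 w hw).trans_eq (by ring),
    fun u hu => saw_adm hZ (hdeep δ hδ).2.1 (hdeep δ hδ).1 isClosed_closure hne hs.1 hs.2 hr.1.le
      hr.2 (kk_dcc hr1 hr.2 B.adm.1 hg.diff hΛ hu.hb.diff) fun w hw z hz => ?_⟩
  have hw1 : 1 / 2 < ‖w‖ ∧ ‖w‖ ≤ r := by
    rcases hw with hw | hw
    · exact ⟨hw.1 ▸ hr0, hw.1.le⟩
    · exact ⟨by linarith [hw.2.1, hs.2], hw.2.2.1⟩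
  have hw0 : w ≠ 0 := norm_pos_iff.1 (by linarith [hw1.1])
  have hwb : w ∈ ball (0 : ℂ) 1 := mem_ball_zero_iff.2 (hw1.2.trans_lt hr.2)
  have hnr : ‖w / r‖ = ‖w‖ / r := by rw [norm_div, Complex.norm_real, Real.norm_of_nonneg hr1.le]
  refine fun h0 => mul_ne_zero hw0 ?_ ((kk_dot h g Λ u r z hw0).symm.trans (sub_eq_zero.2 h0.symm))
  rcases hw with hw | ⟨⟨t, ht, c1, c2⟩, hd, -, hc⟩
  · obtain ⟨t, ht⟩ := ec_surj (w := w / r) (by rw [hnr, hw.1, div_self hr1.ne'])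
    have h4 := l2 t z hz
    rw [ht, mul_div_cancel₀ _ (ofReal_ne_zero.2 hr1.ne')] at h4
    refine var0_margin (exp_ne_zero _) h4 ?_
    have h5 : ‖xi g w‖ ≤ 2 * Bg := by
      rw [xi, norm_smul, norm_inv]
      exact mul_le_mul ((inv_le_comm₀ (by linarith [hw1.1]) two_pos).2 (by linarith [hw1.1]))
        (hg.bd w hwb) (norm_nonneg _) zero_le_two
    have h6 : ‖dot z (xi g w)‖ ≤ RD * (2 * Bg) := (norm_dot_le _ _).trans
      (mul_le_mul (mem_ball_zero_iff.1 (hD (hZD hz))).le h5 (norm_nonneg _) hRD.le)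
    rw [norm_mul]
    refine (mul_le_mul ((hu.small w hwb hw.2).trans hθ) h6 (norm_nonneg _)
      (by positivity)).trans_lt ?_
    rw [div_mul_eq_mul_div, div_lt_iff₀ (by positivity)]
    exact mul_lt_mul_of_pos_left (by nlinarith [mul_nonneg hRD.le hBg]) hμ
  · obtain ⟨t', ⟨-, hq, hX1⟩, c3, c4⟩ :=
      ((mem_closure_iff_frequently.1 ht).and_eventually ((cone_near c1).and (cone_near c2))).exists
    rw [show (8 : ℝ) + 1 = 9 by norm_num] at c3 c4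
    have h4 := hX' t' hX1 _ c4
    have h5 := (hq s hsk).2 _ c4 (by
      rw [hnr]
      linarith [le_div_self (norm_nonneg w) hr1 hr.2.le])
    refine (hq s hsk).1 w c3 hd _ h4.1 ?_ _ ?_ z (hZD hz)
    · linarith [abs_sub_le (Λ (w / r)).im (PI b₀ (w / r)) (b₀ t'), h4.2]
    · rcases hc with hc | hc
      · exact .inl (hu.small w hwb hc)
      · exact (hu.phase w hwb).imp_right fun h => ⟨hu.hb.bd w hwb, hc, h⟩

/-- size of the factor on a smaller disc -/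
theorem x_bound {A γ' ρ : ℝ} (hρ : ρ < 1) : ∃ C > 0, ∀ᶠ r : ℝ in 𝓝[<] 1,
    ∀ (b₀ : TT → ℝ) (Λ : ℂ → ℂ), Measurable b₀ → (∀ t, |b₀ t| ≤ A) →
      (∀ w : ℂ, ‖w‖ < 1 → ‖Λ w - (Λ 0).re - I * SI b₀ w‖ ≤ 12 * γ' / (1 - ‖w‖)) →
      ∀ w : ℂ, ‖w‖ ≤ ρ → ‖exp (Λ (w / r))‖ ≤ C * Real.exp (Λ 0).re := by
  obtain ⟨a, a0, a1, a2⟩ : ∃ a : ℝ, 0 < a ∧ a < 1 ∧ ρ ≤ a * a := by
    have h0 := le_max_right ρ 0
    have h1 := le_max_left ρ 0
    have h2 : max ρ 0 < 1 := max_lt hρ one_pos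
    exact ⟨(1 + max ρ 0) / 2, by linarith, by linarith, by nlinarith [sq_nonneg (1 - max ρ 0)]⟩
  refine ⟨Real.exp (12 * |γ'| / (1 - a) + 2 / (1 - a) * |A|), Real.exp_pos _, ?_⟩
  filter_upwards [Ioo_mem_nhdsLT a1] with r hr b₀ Λ hb hA hΛ w hw
  have hr0 := a0.trans hr.1
  have h1 : ‖w / r‖ ≤ a := by
    rw [norm_div, Complex.norm_real, Real.norm_of_nonneg hr0.le, div_le_iff₀ hr0]
    exact hw.trans (a2.trans (mul_le_mul_of_nonneg_left hr.1.le a0.le))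
  generalize w / r = v at h1
  have hv := h1.trans_lt a1
  have hint : Integrable b₀ :=
    Integrable.of_bound hb.aestronglyMeasurable A (Eventually.of_forall hA)
  have ha : 0 < 1 - a := sub_pos.2 a1
  have h2 : ‖Λ v - (Λ 0).re - I * SI b₀ v‖ ≤ 12 * |γ'| / (1 - a) :=
    (hΛ v hv).trans (div_le_div₀ (by positivity) (by linarith [le_abs_self γ']) ha (by linarith))
  have h3 : ∫ t, |b₀ t| ≤ |A| := by
    simpa using integral_mono hint.abs (integrable_const |A|) fun t => (hA t).trans (le_abs_self A)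
  have h4 : ‖I * SI b₀ v‖ ≤ 2 / (1 - a) * |A| := by
    rw [norm_mul, norm_I, one_mul]
    exact (norm_SI_le hint hv).trans (mul_le_mul (div_le_div₀ zero_le_two le_rfl ha (by linarith))
      h3 (integral_nonneg fun t => abs_nonneg _) (by positivity))
  rw [norm_exp, ← Real.exp_add, Real.exp_le_exp]
  have h5 := re_le_norm (Λ v - (Λ 0).re - I * SI b₀ v)
  have h6 := re_le_norm (I * SI b₀ v)
  rw [sub_re, sub_re, ofReal_re] at h5
  linarith

end Pool.Agent.MP_4baaa2_an.H94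

/-!
Balls which are not flat are not active.
-/

namespace Pool.Agent.MP_4baaa2_an.H94

open Set Metric Filter Topology Complex MeasureTheory
open scoped ComplexConjugate
open Pool.Agent.Lib.PlaneTop

variable {n : ℕ} {D : Set (E n)} {Φ : E n → E n → ℂ}


variable {h : ℂ → E n} {xs : TT → E n} {Lg : E n → ℂ → ℂ} {γ A₀ : ℝ} {b₀ : TT → ℝ} {η : ℕ → ℝ}
  {τ : ℕ → TT → Ty} {P : Par} {ε : ℝ} {p : E n}

theorem casea_harnack {W : ℂ → ℂ} (hW : DifferentiableOn ℂ W (ball 0 1))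
    (hre : ∀ ω ∈ ball (0 : ℂ) 1, 0 ≤ (W ω).re) (h0 : ‖W 0‖ = (W 0).re) {ω : ℂ} (hω : ‖ω‖ < 1) :
    ‖W ω‖ ≤ 2 / (1 - ‖ω‖) * (W 0).re := by
  obtain ⟨-, h1, -⟩ := harnack hW hre (mem_ball_zero_iff.2 hω)
  rw [sub_zero, h0] at h1
  have hp : 0 ≤ (W 0).re := h0 ▸ norm_nonneg _
  exact h1.trans (mul_le_mul_of_nonneg_right
    (div_le_div_of_nonneg_right (by linarith) (by linarith)) hp)

theorem casea_small {a : ℝ} (ha : 0 < a) : ∀ᶠ s : ℝ in 𝓝[>] 0, 0 < s ∧ s ≤ a :=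
  Ioc_mem_nhdsGT ha

/-- the sawtooth map gains. Hint: `exists_hm_small` gives `w₀` with `hm Tᶜ w₀ ≤ cz / 8`; by
`continuousOn_hm`, `hm Tᶜ ≤ cz / 4` on a closed disc around `w₀` inside `ball 0 ρ₀`;
`hm Gsᶜ ≤ hm Tᶜ + hm (T \ Gs)` (`hm_union`, `hm_mono`, `hm_le`). `harnack` gives
`‖W w₀‖ ≤ H Re W 0 ≤ 4 H s`, so `w₀ exp (- W w₀)` is in that disc (`proper_exp`), and `SawV.low` gives
`cz / 2 ≤ 4 cz / s * H Re W 0`. -/
theorem saw_gain {T : Set TT} (hT : MeasurableSet T) (h0 : 0 < volume.real T) :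
    ∃ m > 0, 2 * m < volume.real T ∧ ∃ c > 0, ∀ᶠ s : ℝ in 𝓝[>] 0, ∀ (Gs : Set TT) (r : ℝ)
      (W : ℂ → ℂ), IsClosed Gs → volume.real (T \ Gs) ≤ 2 * m → SawV Gs s r W →
        c * s ≤ (W 0).re := by
  have hcz : 0 < cz := by unfold cz; norm_num
  obtain ⟨w₀, hw₀, hs₀⟩ := exists_hm_small hT h0 (c := cz / 8) (by positivity)
  have hy : 0 < 1 - ‖w₀‖ := by linarith
  have hc := (continuousOn_hm hT.compl).continuousAt (isOpen_ball.mem_nhds
    (mem_ball_zero_iff.2 hw₀))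
  obtain ⟨d, hd, hdd⟩ := Metric.eventually_nhds_iff.1
    (hc.eventually (eventually_le_nhds (show hm Tᶜ w₀ < cz / 4 by linarith)))
  refine ⟨min (volume.real T / 4) (cz * (1 - ‖w₀‖) / 32), by positivity,
    by linarith [min_le_left (volume.real T / 4) (cz * (1 - ‖w₀‖) / 32)], (1 - ‖w₀‖) / 16,
    by positivity, ?_⟩
  filter_upwards [casea_small (a := min d (1 - ‖w₀‖) * (1 - ‖w₀‖) / 32) (by positivity)]
    with s ⟨hs, hsa⟩ Gs r W hG hv hW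
  have hm₀ : w₀ ∈ closedBall (0 : ℂ) 1 := mem_closedBall_zero_iff.2 hw₀.le
  have h1 := casea_harnack hW.da.differentiableOn
    (fun ω hω => (hW.re ω (ball_subset_closedBall hω)).1) hW.zero hw₀
  have h2 := (hW.re 0 (mem_closedBall_self zero_le_one)).2
  have h3 : ‖w₀ * exp (-W w₀) - w₀‖ ≤ min d (1 - ‖w₀‖) / 2 := by
    rw [← mul_sub_one, norm_mul]
    refine (mul_le_of_le_one_left (norm_nonneg _) hw₀.le).trans
      ((proper_exp (hW.re _ hm₀).1).trans ?_)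
    have h4 : 2 / (1 - ‖w₀‖) * (W 0).re ≤ min d (1 - ‖w₀‖) / 4 := by
      rw [div_mul_eq_mul_div, div_le_iff₀ hy]
      linarith
    linarith
  have h4 := min_le_left d (1 - ‖w₀‖)
  have h5 := min_le_right d (1 - ‖w₀‖)
  set w := w₀ * exp (-W w₀) with hw
  have h6 : ‖w‖ ≤ (1 + ‖w₀‖) / 2 := by linarith [norm_le_norm_sub_add w w₀]
  have h7 : ‖w‖ < 1 := by linarith
  have h8 : hm Tᶜ w ≤ cz / 4 := hdd (by rw [dist_eq_norm]; linarith)
  have hm1 : MeasurableSet (T \ Gs) := hT.diff hG.measurableSet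
  have h9 : hm (T \ Gs) w ≤ cz / 4 := by
    refine (hm_le hm1 h7).trans ?_
    rw [div_mul_eq_mul_div, div_le_iff₀ (by linarith)]
    have := min_le_right (volume.real T / 4) (cz * (1 - ‖w₀‖) / 32)
    nlinarith
  have h10 : hm Gsᶜ w ≤ cz / 2 := by
    refine (hm_mono hG.measurableSet.compl (hT.compl.union hm1) (fun t ht => ?_) h7).trans
      ((hm_union hT.compl hm1 h7).trans (by linarith))
    by_cases ht' : t ∈ T
    · exact Or.inr ⟨ht', ht⟩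
    · exact Or.inl ht'
  have h11 := hW.low w₀ hm₀
  have h12 := mul_le_mul_of_nonneg_left ((re_le_norm _).trans h1)
    (show 0 ≤ 4 * cz / s by positivity)
  have h13 : cz / 2 ≤ 4 * cz / s * (2 / (1 - ‖w₀‖) * (W 0).re) := by linarith
  rw [show 4 * cz / s * (2 / (1 - ‖w₀‖) * (W 0).re) = cz * (8 * (W 0).re) / (s * (1 - ‖w₀‖)) by
    field_simp; ring, le_div_iff₀ (by positivity)] at h13
  have h14 : s * (1 - ‖w₀‖) / 2 ≤ 8 * (W 0).re := le_of_mul_le_mul_left (by linarith) hcz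
  linarith

/-- Hint: `var0` with `g = 0`, `γ' = γ / 16`, `θ₁ = θ₀`, `u = 0` (`dmp_zero`), `ρ = (1 + P.r) / 2`.
`kk h 0 Λ 0 r w - h w = - exp (Λ (w / r)) • h w` has norm `≤ C₁ s ^ α ≤ C₁ s` (`x_bound`);
`a = (C₁ + 4) s`; `Gain` with `μ = s²`; `norm_ell_le`. So `c s ≤ C (s ^ α + s²)` for small `s`. -/
theorem Geo.no_gain (G : Geo D Φ) (B : Bdy D Φ h xs Lg) (S : Sel D Φ xs γ A₀ b₀ η τ)
    (hg : Gain D P ε p h) (hζ : ‖F h p‖ ≤ P.r) {T : Set TT} (hT : MeasurableSet T) {α : ℝ}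
    (hα : 1 < α) (H : ∀ θ₁ θ₂, ∀ᵐ t, t ∈ T →
      RN D h (fun _ => 0) (ec t) (b₀ t) α (γ / 2) θ₁ θ₂) : volume T = 0 := by
  by_contra hne
  have h0 : 0 < volume.real T := ENNReal.toReal_pos hne (measure_ne_top _ _)
  have hγ := S.gpos
  obtain ⟨m, hm0, hm1, c₀, hc₀, E1⟩ := saw_gain hT h0
  have hg0 : HB (fun _ : ℂ => (0 : E n)) 0 := ⟨differentiableOn_const _, fun _ _ => by simp⟩
  obtain ⟨θ₀, hθ₀, H1⟩ := G.var0 B S hg0 (γ' := γ / 16) (by positivity) (by linarith)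
  have E2 := H1 T α θ₀ 0 hT (by linarith) le_rfl
    ((H θ₀ 0).mono fun t ht h1 => (ht h1).mono (by linarith) le_rfl le_rfl) m hm0 hm1
  obtain ⟨ρ, hρ, hρ1⟩ := exists_between P.hr
  obtain ⟨c, hc, C, a₀, ha₀, H2⟩ := hg ρ hρ hρ1
  obtain ⟨C₁, hC₁, E3⟩ := x_bound (A := A₀) (γ' := γ / 16) hρ1
  obtain ⟨Rh, hRh, hb⟩ := adm_bound G.isOpen G.zero
  obtain ⟨C₃, hC₃, H3⟩ := norm_ell_le P ε p (hb h B.adm) hζ
  have E4 := pt4_pow hα (C₃ * (C₁ * Rh)) 0 (c := c * c₀ / 2) (by positivity)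
  have E5 := pt4_pow (one_lt_two (α := ℝ)) (1 + C * (C₁ * Rh + 4) ^ 2) 0 (c := c * c₀ / 2)
    (by positivity)
  obtain ⟨s, ⟨hs, hsa⟩, s1, s2, s4, s5⟩ := ((casea_small
    (a := min 1 (a₀ / (C₁ * Rh + 4))) (by positivity)).and (E1.and (E2.and (E4.and E5)))).exists
  have hs1 : s ≤ 1 := hsa.trans (min_le_left _ _)
  have hs2 : (C₁ * Rh + 4) * s ≤ a₀ := by
    have := hsa.trans (min_le_right _ _)
    rwa [le_div_iff₀ (by positivity), mul_comm] at this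
  rw [one_mul, sub_zero, Real.exp_log hs] at s4 s5
  rw [Real.rpow_two] at s5
  obtain ⟨δ, d1, d2⟩ := (s2.and (H2 (s ^ 2) (by positivity))).exists
  obtain ⟨r, ⟨Gs, Λ, hG, hv, hΛ, hΛ0, hΛ1, H4⟩, r2, r3, r4⟩ :=
    (d1.and (E3.and (Ioo_mem_nhdsLT hρ1))).exists
  obtain ⟨W, hW, hadm⟩ := H4 _ (dmp_zero _ hθ₀.le 0)
  have hr0 : 0 < r := ((P.hs.trans P.hsr).trans hρ).trans r3
  have hk := (kk_dcc hr0 r4 B.adm.1 hg0.diff hΛ (differentiableOn_const (0 : ℂ))).differentiableOn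
  have hpow : s ^ α ≤ s := by
    simpa using Real.rpow_le_rpow_of_exponent_ge hs hs1 hα.le
  have hkb : ∀ w : ℂ, ‖w‖ ≤ ρ →
      ‖kk h (fun _ => 0) Λ (fun _ => 0) r w - h w‖ ≤ C₁ * Rh * s ^ α := fun w hw => by
    have e : kk h (fun _ => 0) Λ (fun _ => 0) r w - h w = -(exp (Λ (w / r)) • h w) := by
      simp only [kk, smul_zero, add_zero, sub_smul, one_smul]
      abel
    have b1 := r2 b₀ Λ S.meas S.bd hΛ1 w hw
    have b2 : Real.exp (Λ 0).re ≤ s ^ α := by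
      rw [Real.rpow_def_of_pos hs, mul_comm]
      exact Real.exp_le_exp.2 hΛ0.2
    rw [e, norm_neg, norm_smul]
    exact (mul_le_mul (b1.trans (mul_le_mul_of_nonneg_left b2 hC₁.le))
      (hb h B.adm w (mem_ball_zero_iff.2 (hw.trans_lt hρ1))) (norm_nonneg _)
      (by positivity)).trans_eq (by ring)
  have hCR : 0 < C₁ * Rh := by positivity
  have g1 := d2 _ W ((C₁ * Rh + 4) * s) hs2 (hk.mono (ball_subset_ball r3.le))
    (fun w hw => (hkb w (mem_ball_zero_iff.1 hw).le).trans (by nlinarith))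
    hW.da.differentiableOn (fun ω hω => (hW.re ω (ball_subset_closedBall hω)).1) hW.zero
    ((hW.re 0 (mem_closedBall_self zero_le_one)).2.trans (by nlinarith)) hadm
  have g2 := H3 (kk h (fun _ => 0) Λ (fun _ => 0) r - h) _ fun w hw => hkb w (hw.trans hρ.le)
  have g3 := (abs_le.1 ((abs_re_le_norm _).trans g2)).1
  have g4 := mul_le_mul_of_nonneg_left (s1 Gs r W hG hv hW) hc.le
  linarith

/-- Hint: for `σ : Ty` and `i ∈ σ.2.2` not flat, `T = {t | τ j t = σ ∧ Act D h (ec t) i}` is measurable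
(`act_closed`) and null (`fat`, `rn_a`, `no_gain`); `ae_all_iff` over the countable type
`Ty × Bl`. -/
theorem Geo.caseA (G : Geo D Φ) (B : Bdy D Φ h xs Lg) (S : Sel D Φ xs γ A₀ b₀ η τ)
    (hg : Gain D P ε p h) (hζ : ‖F h p‖ ≤ P.r) (j : ℕ) :
    ∀ᵐ t, ∀ i ∈ (τ j t).2.2, ¬Flat (η j) i → ¬Act D h (ec t) i := by
  have key : ∀ (σ : Ty) (i : Bl), ∀ᵐ t, i ∈ σ.2.2 → ¬Flat (η j) i → τ j t = σ →
      ¬Act D h (ec t) i := by
    intro σ i
    by_cases hi₁ : i ∈ σ.2.2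
    swap
    · exact Eventually.of_forall fun _ h1 => absurd h1 hi₁
    by_cases hf : Flat (η j) i
    · exact Eventually.of_forall fun _ _ h1 => absurd hf h1
    have hT : MeasurableSet ({t | τ j t = σ} ∩ ec ⁻¹' {e | Act D h e i}) :=
      (S.fib j σ).inter ((act_closed D h i).preimage continuous_ec).measurableSet
    have hα : 1 < 1 + η j / (2 * Real.pi) :=
      lt_add_of_pos_right _ (div_pos (S.epos j).1 (by positivity))
    have h0 := G.no_gain B S hg hζ hT hα fun θ₁ θ₂ => (G.fat B S j).mono fun t ht h1 => by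
      rw [← (S.ty j t).1]
      exact G.rn_a B ht (S.ty j t).2 S.gpos S.gle (h1.1.symm ▸ hi₁) hf h1.2 θ₁ θ₂
    filter_upwards [measure_eq_zero_iff_ae_notMem.1 h0] with t ht _ _ h1 h2
    exact ht ⟨h1, h2⟩
  filter_upwards [ae_all_iff.2 fun σ => ae_all_iff.2 (key σ)] with t ht i h1 h2
  exact ht _ i h1 h2 rfl

end Pool.Agent.MP_4baaa2_an.H94

/-!
The first order condition.
-/

namespace Pool.Agent.MP_4baaa2_an.H94

open Set Metric Filter Topology Complex MeasureTheory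
open scoped ComplexConjugate
open Pool.Agent.Lib.PlaneTop

variable {n : ℕ} {D : Set (E n)} {Φ : E n → E n → ℂ}


variable {h : ℂ → E n} {xs : TT → E n} {Lg : E n → ℂ → ℂ} {γ A₀ : ℝ} {b₀ : TT → ℝ} {η : ℕ → ℝ}
  {τ : ℕ → TT → Ty} {P : Par} {ε : ℝ} {p : E n}

theorem fo_ev (c : ℝ) {d : ℝ} (hd : 0 < d) : ∀ᶠ x : ℝ in 𝓝[>] 0, c * x ≤ d := by
  have h : Tendsto (fun x : ℝ => c * x) (𝓝 0) (𝓝 (c * 0)) := tendsto_id.const_mul c
  rw [mul_zero] at h
  exact (h.eventually (ge_mem_nhds hd)).filter_mono nhdsWithin_le_nhds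

theorem fo_ka (hm' : Measurable b₀) (hA : ∀ t, |b₀ t| ≤ A₀) {ρ : ℝ} (hρ : ρ < 1) {w : ℂ}
    (hw : ‖w‖ ≤ ρ) : ‖ka b₀ w‖ ≤ Real.exp (2 * A₀ / (1 - ρ)) := by
  have h0 : 0 ≤ A₀ := (abs_nonneg _).trans (hA 0)
  refine (ka_bound hm' hA (hw.trans_lt hρ)).2.trans (Real.exp_le_exp.2 ?_)
  exact div_le_div_of_nonneg_left (by linarith) (by linarith) (by linarith)

/-- the normalised factor is close to the outer function -/
theorem x_close (hm' : Measurable b₀) (hA : ∀ t, |b₀ t| ≤ A₀) {ρ θ : ℝ} (hρ : ρ < 1) (hθ : 0 < θ) :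
    ∀ᶠ γ' : ℝ in 𝓝[>] 0, ∀ᶠ r : ℝ in 𝓝[<] 1, ∀ Λ : ℂ → ℂ,
      (∀ w : ℂ, ‖w‖ < 1 → ‖Λ w - (Λ 0).re - I * SI b₀ w‖ ≤ 12 * γ' / (1 - ‖w‖)) →
      ∀ w : ℂ, ‖w‖ ≤ ρ → ‖exp (Λ (w / r) - (Λ 0).re) - ka b₀ w‖ ≤ θ := by
  obtain ⟨ρ', hρ'⟩ : ∃ x, x = (1 + ρ) / 2 := ⟨_, rfl⟩
  have h1 : ρ' < 1 := by linarith
  have h2 : ∀ᶠ r : ℝ in 𝓝 1, ∀ w ∈ closedBall (0 : ℂ) ρ,
      ‖w / r‖ < ρ' ∧ ‖ka b₀ (w / r) - ka b₀ w‖ < θ / 2 := by
    refine (isCompact_closedBall _ _).eventually_forall_of_forall_eventually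
      (P := fun (r : ℝ) (w : ℂ) => ‖w / r‖ < ρ' ∧ ‖ka b₀ (w / r) - ka b₀ w‖ < θ / 2) fun w hw => ?_
    rw [mem_closedBall_zero_iff] at hw
    have h3 : ContinuousAt (fun x : ℝ × ℂ => x.2 / x.1) (1, w) :=
      continuousAt_snd.div (by fun_prop) (by simp)
    have h4 : ContinuousAt (ka b₀) w := (ka_diff (ha2_bdd hm' hA)).continuousOn.continuousAt
      (isOpen_ball.mem_nhds (mem_ball_zero_iff.2 (hw.trans_lt hρ)))
    have h5 : ContinuousAt (fun x : ℝ × ℂ => ‖ka b₀ (x.2 / x.1) - ka b₀ x.2‖) (1, w) :=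
      ((ContinuousAt.comp_of_eq h4 h3 (by simp)).sub
        (ContinuousAt.comp_of_eq h4 continuousAt_snd rfl)).norm
    refine (h3.norm.eventually_lt continuousAt_const ?_).and
      (h5.eventually_lt continuousAt_const ?_)
    · simp only [ofReal_one, div_one]
      linarith
    · simpa using hθ
  obtain ⟨K, hK⟩ : ∃ x, x = Real.exp (2 * A₀ / (1 - ρ')) := ⟨_, rfl⟩
  filter_upwards [self_mem_nhdsWithin, fo_ev (12 / (1 - ρ')) one_pos,
    fo_ev (K * (2 * (12 / (1 - ρ')))) (half_pos hθ)] with γ' h3 h4 h5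
  filter_upwards [h2.filter_mono nhdsWithin_le_nhds] with r hr Λ hΛ w hw
  obtain ⟨h6, h7⟩ := hr w (mem_closedBall_zero_iff.2 hw)
  have h8 : ‖Λ (w / r) - (Λ 0).re - I * SI b₀ (w / r)‖ ≤ 12 / (1 - ρ') * γ' := by
    refine (hΛ _ (h6.trans h1)).trans ?_
    rw [div_mul_eq_mul_div]
    exact div_le_div_of_nonneg_left (mul_nonneg (by norm_num) (le_of_lt h3)) (by linarith)
      (by linarith)
  have h9 := (norm_exp_sub_one_le (h8.trans h4)).trans (mul_le_mul_of_nonneg_left h8 zero_le_two)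
  have h10 := mul_le_mul (hK ▸ fo_ka hm' hA h1 h6.le) h9 (norm_nonneg _) (hK ▸ (Real.exp_pos _).le)
  have h11 : exp (Λ (w / r) - (Λ 0).re) - ka b₀ w =
      ka b₀ (w / r) * (exp (Λ (w / r) - (Λ 0).re - I * SI b₀ (w / r)) - 1) +
        (ka b₀ (w / r) - ka b₀ w) := by
    rw [mul_sub, mul_one, sub_add_sub_cancel, ka, ka, ← exp_add, add_sub_cancel]
  rw [h11]
  refine (norm_add_le _ _).trans ?_
  rw [norm_mul]
  linarith

/-- the first order condition for an admissible direction -/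
theorem Geo.fo_gen (G : Geo D Φ) (B : Bdy D Φ h xs Lg) (S : Sel D Φ xs γ A₀ b₀ η τ)
    (hg : Gain D P ε p h) (hζ : ‖F h p‖ ≤ P.r) {g : ℂ → E n} {Bg α γ₀ : ℝ} (hb : HB g Bg)
    (hα : 0 < α) (hα1 : α ≤ 1) (hγ₀ : 0 < γ₀)
    (H : ∀ᵐ t, RN D h g (ec t) (b₀ t) α γ₀ γ₀ γ₀) :
    (ell P ε p h fun w => ka b₀ w • g w).re ≤ (ell P ε p h fun w => ka b₀ w • h w).re := by
  obtain ⟨Rh, hRh, hh⟩ := G.hb
  replace hh := hh h B.adm
  have hBg : 0 ≤ Bg := (norm_nonneg _).trans (hb.bd 0 (mem_ball_self one_pos))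
  have hr1 := P.hr
  have hr0 := P.hs.trans P.hsr
  obtain ⟨ρ, hρ⟩ : ∃ x, x = (1 + P.r) / 2 := ⟨_, rfl⟩
  have hρ1 : ρ < 1 := by linarith
  obtain ⟨c, hc, C, a₀, ha₀, hG⟩ := hg ρ (by linarith) hρ1
  obtain ⟨Ce, hCe, hE⟩ := norm_ell_le P ε p hh.bd hζ
  obtain ⟨Kk, hKk⟩ : ∃ x, x = Real.exp (2 * A₀ / (1 - P.r)) := ⟨_, rfl⟩
  have hKk0 : 0 < Kk := hKk ▸ Real.exp_pos _
  obtain ⟨M, hM⟩ : ∃ x, x = 1 + Ce * ((Kk + 1) * Bg + Rh) := ⟨_, rfl⟩
  have hM0 : 0 < M := by rw [hM]; positivity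
  refine le_of_forall_pos_le_add fun ε' hε' => ?_
  obtain ⟨θ, hθ⟩ : ∃ x, x = ε' / M := ⟨_, rfl⟩
  have hθ0 : 0 < θ := by rw [hθ]; positivity
  have hθ1 : θ * M = ε' := by rw [hθ]; field_simp
  obtain ⟨γ', ⟨hγ', h7, h16⟩, hx⟩ := ((eventually_mem_nhdsWithin.and ((fo_ev 7 hγ₀).and
    (fo_ev 16 S.gpos))).and (x_close S.meas S.bd hr1 hθ0)).exists
  obtain ⟨θ₀, hθ₀, hV⟩ := G.var0 B S hb hγ' h16
  obtain ⟨m₀, hm₀, hD⟩ := exists_dmp (lt_min hθ₀ hγ₀) hγ₀ hθ0 hr1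
  obtain ⟨C₁, hC₁, hx'⟩ := x_bound (A := A₀) (γ' := γ') hρ1
  obtain ⟨K, hK⟩ : ∃ x, x = C₁ * (Bg + Rh) + 4 := ⟨_, rfl⟩
  have hK0 : 0 < K := by rw [hK]; positivity
  have hK' : 0 < Real.exp 1 * (1 + |C| * K ^ 2) := by positivity
  have hm1 := min_le_left (m₀ / 2) (1 / 4)
  have hm2 := min_le_right (m₀ / 2) (1 / 4)
  obtain ⟨s, ⟨⟨hs, hs1⟩, e₁, e₂⟩, hV⟩ := ((Eventually.and (Ioo_mem_nhdsGT one_pos)
    ((pt4_small hα 0 (div_pos ha₀ hK0)).and (pt4_small hα 0 (div_pos hθ0 hK')))).and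
    (hV univ α (min θ₀ γ₀) γ₀ .univ hα (min_le_left _ _)
      (H.mono fun t ht _ => ht.mono h7 (min_le_right _ _) le_rfl) (min (m₀ / 2) (1 / 4))
      (lt_min (half_pos hm₀) (by norm_num)) (by rw [probReal_univ]; linarith))).exists
  rw [add_zero] at e₁ e₂
  obtain ⟨t, ht⟩ : ∃ x, x = Real.exp (α * Real.log s) := ⟨_, rfl⟩
  have ht0 : 0 < t := ht ▸ Real.exp_pos _
  have hst : s ≤ t := by
    rw [ht]
    conv_lhs => rw [← Real.exp_log hs]
    exact Real.exp_le_exp.2 (by nlinarith [Real.log_neg hs hs1])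
  rw [← ht, lt_div_iff₀ (by assumption)] at e₁ e₂
  obtain ⟨δ, hG, hV⟩ := ((hG (t ^ 2) (by positivity)).and hV).exists
  obtain ⟨r, ⟨⟨hr₁, hr₂⟩, hx, hx'⟩, Gs, Λ, hGs, hvol, hΛ, ⟨hσ₁, hσ₂⟩, hΛ', hV⟩ :=
    ((Eventually.and (Ioo_mem_nhdsLT hρ1) (hx.and hx')).and hV).exists
  obtain ⟨u, hu, hu'⟩ := hD Gsᶜ hGs.measurableSet.compl (by rw [compl_eq_univ_sdiff]; linarith)
  obtain ⟨W, hW, hA⟩ := hV u hu
  have hk := (kk_dcc (by linarith) hr₂ hh.diff hb.diff hΛ hu.hb.diff).differentiableOn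
  have hσ : Real.exp (Λ 0).re ≤ t := ht ▸ Real.exp_le_exp.2 hσ₂
  have h0 := hW.re 0 (mem_closedBall_self zero_le_one)
  have h1 := hG (kk h g Λ u r) W (t * K) e₁.le (hk.mono (ball_subset_ball hr₁.le))
    (fun w hw => by
      have hw1 := ball_subset_ball hρ1.le hw
      have h2 := (hx' b₀ Λ S.meas S.bd hΛ' w (mem_ball_zero_iff.1 hw).le).trans
        (mul_le_mul_of_nonneg_left hσ hC₁.le)
      have h3 : ‖u w • g w - h w‖ ≤ Bg + Rh := by
        refine (norm_sub_le _ _).trans (add_le_add ?_ (hh.bd w hw1))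
        rw [norm_smul]
        exact (mul_le_mul (hu.hb.bd w hw1) (hb.bd w hw1) (norm_nonneg _) zero_le_one).trans
          (one_mul _).le
      rw [show kk h g Λ u r w - h w = exp (Λ (w / r)) • (u w • g w - h w) by
        rw [kk]; module, norm_smul]
      refine (mul_le_mul h2 h3 (norm_nonneg _) (by positivity)).trans ?_
      rw [hK]
      linarith)
    hW.da.differentiableOn (fun ω hω => (hW.re ω (ball_subset_closedBall hω)).1) hW.zero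
    (by rw [hK]; linarith [mul_nonneg (mul_nonneg hC₁.le (add_nonneg hBg hRh.le)) ht0.le]) hA
  obtain ⟨η₁, hη₁⟩ : ∃ x : ℂ → E n,
    x = ((Real.exp (-(Λ 0).re) : ℝ) : ℂ) • (kk h g Λ u r - h) := ⟨_, rfl⟩
  have h2 : (ell P ε p h η₁).re ≤ θ := by
    rw [hη₁, mult_ell_smul, re_ofReal_mul]
    have h3 : (ell P ε p h (kk h g Λ u r - h)).re ≤ t * (t * (1 + |C| * K ^ 2)) := by
      have h4 := mul_le_mul_of_nonneg_right (le_abs_self C) (sq_nonneg (t * K))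
      linarith [mul_nonneg hc.le h0.1]
    have h4 : Real.exp (-(Λ 0).re) * t ≤ Real.exp 1 := by
      rw [ht, ← Real.exp_add]
      exact Real.exp_le_exp.2 (by linarith)
    have h5 := mul_le_mul_of_nonneg_left h3 (Real.exp_pos (-(Λ 0).re)).le
    have h6 := mul_le_mul_of_nonneg_right h4 (show 0 ≤ t * (1 + |C| * K ^ 2) by positivity)
    linarith
  have hsub : closedBall (0 : ℂ) P.r ⊆ ball 0 1 := closedBall_subset_ball hr1
  have c₀ := ((ka_diff (ha2_bdd S.meas S.bd)).continuousOn.mono hsub)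
  have c₁ : ContinuousOn η₁ (closedBall 0 P.r) := by
    rw [hη₁]
    exact ((hk.continuousOn.mono (closedBall_subset_ball (by linarith))).sub
      (hh.diff.continuousOn.mono hsub)).const_smul _
  have c₂ := c₀.smul (hb.diff.continuousOn.mono hsub)
  have c₃ := c₀.smul (hh.diff.continuousOn.mono hsub)
  have h3 := kern_ell_add (ε := ε) hh.diff hζ c₁ (c₂.sub c₁)
    (η'' := fun w => ka b₀ w • g w) fun w _ => (add_sub_cancel _ _).symm
  have h4 := kern_ell_add (ε := ε) hh.diff hζ c₃ ((c₂.sub c₁).sub c₃)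
    (η'' := fun w => ka b₀ w • g w - η₁ w) fun w _ => (add_sub_cancel _ _).symm
  have h5 := hE (fun w => ka b₀ w • g w - η₁ w - ka b₀ w • h w) (θ * ((Kk + 1) * Bg + Rh))
    fun w hw => by
      have hw1 := mem_ball_zero_iff.2 (hw.trans_lt hr1)
      obtain ⟨x, hx₁⟩ : ∃ x, x = exp (Λ (w / r) - (Λ 0).re) := ⟨_, rfl⟩
      have h6 := hx Λ hΛ' w hw
      rw [← hx₁] at h6
      have h7 : ‖ka b₀ w * (1 - u w) - (x - ka b₀ w) * u w‖ ≤ θ * (Kk + 1) := by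
        refine (norm_sub_le _ _).trans ?_
        rw [norm_mul, norm_mul, norm_sub_rev 1]
        have h8 := mul_le_mul (hKk ▸ fo_ka S.meas S.bd hr1 hw) (hu' w hw) (norm_nonneg _) hKk0.le
        have h9 := mul_le_mul h6 (hu.hb.bd w hw1) (norm_nonneg _) hθ0.le
        linarith
      have h8 : ka b₀ w • g w - η₁ w - ka b₀ w • h w =
          (ka b₀ w * (1 - u w) - (x - ka b₀ w) * u w) • g w + (x - ka b₀ w) • h w := by
        rw [hη₁, hx₁, sub_eq_add_neg (Λ _), exp_add, ofReal_exp, ofReal_neg, Pi.smul_apply,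
          Pi.sub_apply, kk]
        module
      rw [h8]
      refine (norm_add_le _ _).trans ?_
      rw [norm_smul, norm_smul]
      have h9 := mul_le_mul h7 (hb.bd w hw1) (norm_nonneg _) (by positivity)
      have h10 := mul_le_mul h6 (hh.bd w hw1) (norm_nonneg _) hθ0.le
      linarith
  have h6 := (re_le_norm _).trans h5
  have h7 := congrArg re (h3.trans (congrArg _ h4))
  rw [add_re, add_re] at h7
  rw [hM] at hθ1
  refine h7.trans_le ((add_le_add h2 (add_le_add le_rfl h6)).trans ?_)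
  rw [add_left_comm]
  exact add_le_add le_rfl (by linarith)

/-- the first order condition -/
theorem Geo.fo (G : Geo D Φ) (B : Bdy D Φ h xs Lg) (S : Sel D Φ xs γ A₀ b₀ η τ)
    (hg : Gain D P ε p h) (hζ : ‖F h p‖ ≤ P.r) : ∃ c > 0, ∀ (j : ℕ) (g : ℂ → E n)
      (gs : TT → E n), HB g 1 → RL g gs →
      (∀ᵐ t, Cnd (η j) (τ j t) (b₀ t) (conj (ec t) • gs t)) →
      (ell P ε p h fun w => ka b₀ w • g w).re ≤
        η j / c * (ell P ε p h fun w => ka b₀ w • h w).re := by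
  obtain ⟨RD, hRD, hR⟩ := G.bdd.subset_ball_lt 0 0
  have hγ := S.gpos
  have hpi := Real.pi_gt_three
  refine ⟨γ / (40 * (RD + 1)), by positivity, fun j g gs hb hrl hc => ?_⟩
  obtain ⟨hη, hη1⟩ := S.epos j
  have hγ1 := S.gle
  obtain ⟨ρ, hρ⟩ : ∃ ρ, ρ = γ / (40 * (RD + 1) * η j) := ⟨_, rfl⟩
  have hρ0 : 0 < ρ := by rw [hρ]; positivity
  have h1 : 0 ≤ 3 * η j / (2 * Real.pi) := by positivity
  have h2 : 3 * η j / (2 * Real.pi) < 1 := by
    rw [div_lt_one (by positivity)]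
    linarith
  have h3 := G.fo_gen B S hg hζ (g := fun w => ρ • g w) (Bg := ρ)
    (α := 1 - 3 * η j / (2 * Real.pi)) ⟨hb.diff.const_smul ρ, fun w hw => by
      rw [norm_smul, Real.norm_of_nonneg hρ0.le]
      exact mul_le_of_le_one_right hρ0.le (hb.bd w hw)⟩ (by linarith) (by linarith) hη (by
      filter_upwards [G.fat B S j, G.caseA B S hg hζ j, hb.nt hrl, hc,
        hrl.bound one_pos fun w hw => hb.bd w (mem_ball_zero_iff.2 hw.2)] with t a₁ a₂ a₃ a₄ a₅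
      rw [← (S.ty j t).1] at a₄ ⊢
      rw [hρ]
      refine G.rn_fo B a₁ (S.ty j t).2 hγ1 hη hη1 a₂ hR hb ?_ ?_ a₄
      · rw [← inv_eq_conj (norm_ec t)]
        exact ((continuousAt_inv₀ (norm_pos_iff.1 (by simp))).tendsto.mono_left
          nhdsWithin_le_nhds).smul (a₃ 9)
      · rwa [norm_smul, norm_conj, norm_ec, one_mul])
  rw [show (fun w => ka b₀ w • ρ • g w) = (ρ : ℂ) • fun w => ka b₀ w • g w from
    funext fun w => by rw [Pi.smul_apply, coe_smul, smul_comm], mult_ell_smul,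
    re_ofReal_mul] at h3
  rw [show η j / (γ / (40 * (RD + 1))) = ρ⁻¹ by rw [hρ]; field_simp]
  exact (le_inv_mul_iff₀ hρ0).2 h3

end Pool.Agent.MP_4baaa2_an.H94

/-!
The kernel of the first variation and the approximate multipliers.
-/

namespace Pool.Agent.MP_4baaa2_an.H94

open Set Metric Filter Topology Complex MeasureTheory
open scoped ComplexConjugate
open Pool.Agent.Lib.PlaneTop

variable {n : ℕ} {D : Set (E n)} {Φ : E n → E n → ℂ}

variable {h m : ℂ → E n} {xs : TT → E n} {Lg : E n → ℂ → ℂ} {γ A₀ : ℝ} {b₀ : TT → ℝ} {η : ℕ → ℝ}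
  {τ : ℕ → TT → Ty} {P : Par} {ε : ℝ} {p : E n} {a a' c K : ℝ} {ν : ℕ → TT → E n}
  {𝒰 : Ultrafilter ℕ}


theorem mult0_dot {f g : ℂ → E n} {fs gs : TT → E n} (hf : RL f fs) (hg : RL g gs) :
    RL (fun w => dot (f w) (g w)) fun t => dot (fs t) (gs t) := by
  filter_upwards [hf, hg] with t h1 h2
  exact tendsto_dot h1 h2

theorem mult0_avg {f : ℂ → ℂ} {fs : TT → ℂ} {a B : ℝ} {L : ℂ} (h : RL f fs) (ha : a < 1)
    (hc : ContinuousOn f (Ann a)) (hf : ∀ w ∈ Ann a, ‖f w‖ ≤ B)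
    (hL : ∀ r ∈ Ioo (max a 0) 1, Real.circleAverage f 0 r = L) : ∫ t, fs t = L := by
  have h1 := h.tendsto_L1 ha hc hf
  have h2 : ‖L - ∫ t, fs t‖ ≤ 0 := by
    refine ge_of_tendsto h1 ((ha4_ev ha).mono fun r hr => ?_)
    rw [← hL r hr, avg_eq, ← integral_sub (ha5_int (ha4_cont hc hr)) (h.int ha hc hf)]
    exact norm_integral_le_integral_norm _
  exact (sub_eq_zero.1 (norm_le_zero_iff.1 h2)).symm

theorem mult0_idot {u gs : TT → E n} {B : ℝ} (hu : Integrable u) (hg : Integrable gs)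
    (hB : ∀ᵐ t, ‖gs t‖ ≤ B) : Integrable (fun t => dot (u t) (gs t)) ∧
      ‖∫ t, dot (u t) (gs t)‖ ≤ B * ∫ t, ‖u t‖ := by
  have h1 : ∀ᵐ t, ‖dot (u t) (gs t)‖ ≤ B * ‖u t‖ := hB.mono fun t ht =>
    (norm_dot_le _ _).trans (by rw [mul_comm]; gcongr)
  refine ⟨(hu.norm.const_mul B).mono' (continuous_dot.comp_aestronglyMeasurable
    (hu.aestronglyMeasurable.prodMk hg.aestronglyMeasurable)) h1, ?_⟩
  rw [← integral_const_mul]
  exact norm_integral_le_of_norm_le (hu.norm.const_mul B) h1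

theorem mult0_ec (t : TT) : conj (ec t) * ec t = 1 := by
  rw [conj_ec, inv_mul_cancel₀ (ec_ne t)]

/-- Hint: `laurent` for `f w = (ka b₀ w / w) • kap P h w` (`kap_diff`, `ka_diff`) with radius `a₁`
and `g = 0`; `kQ = f₂ + f₁ 0`, `ψQ = f₁ - f₁ 0`; `f₁ 0` is the mean of `f - f₂` on the circle of radius
`a₂` (`cx5_center`, `norm_avg_le`, `kap_le`, `ka_bound`). For the integral: the mean of `⟨kQ, g⟩` over
the circle of radius `ρ` is `Lq` (`avg_kap`, `avg_eq_zero`), and tends to the integral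
(`avg_eq`, `RL_of_cont`, `RL.tendsto_L1`). -/
theorem exists_kern (P : Par) {a₁ a₂ : ℝ} (h1 : P.r ^ 2 < a₁) (h2 : a₁ < a₂) (h3 : a₂ < 1)
    (A Rh : ℝ) : ∃ K ≥ (0 : ℝ), ∀ (h : ℂ → E n) (b₀ : TT → ℝ), HB h Rh → Measurable b₀ →
      (∀ t, |b₀ t| ≤ A) → ∃ kQ ψQ : ℂ → E n, DifferentiableOn ℂ kQ {w | a₁ < ‖w‖} ∧
        DifferentiableOn ℂ ψQ (ball 0 1) ∧ ψQ 0 = 0 ∧
        (∀ w ∈ Ann a₁, (ka b₀ w / w) • kap P h w = kQ w + ψQ w) ∧
        (∀ w : ℂ, a₂ ≤ ‖w‖ → ‖kQ w‖ ≤ K) ∧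
        ∀ (g : ℂ → E n) (gs : TT → E n) (B : ℝ), HB g B → RL g gs →
          ∫ t, dot (kQ (ec t)) (gs t) = Lq P h fun w => ka b₀ w • g w := by
  have h0 : 0 < a₁ := (sq_nonneg _).trans_lt h1
  have hΛ := P.hΛ
  set M : ℝ := 2 * Real.exp (2 * |A| / (1 - a₂)) * (P.Λ + 1) * |Rh| with hM
  have hM0 : 0 ≤ M := by positivity
  have hd : 0 < a₂ - a₁ := sub_pos.2 h2
  refine ⟨M + 2 * (M * a₁ / (a₂ - a₁)), by positivity, fun h b₀ hh hm hA => ?_⟩
  have hi := ha2_bdd hm hA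
  set f : ℂ → E n := fun w => (ka b₀ w / w) • kap P h w with hf
  have hne : ∀ w : ℂ, P.r ^ 2 < ‖w‖ → w ≠ 0 := fun w hw =>
    norm_pos_iff.1 ((sq_nonneg _).trans_lt hw)
  have hfd : DifferentiableOn ℂ f (Ann (P.r ^ 2)) :=
    ((((ka_diff hi).mono (ha4_sub _)).div differentiableOn_id fun w hw => hne w hw.1)).smul
      ((kap_diff P hh.diff).mono fun w hw => hw.1)
  have hfb : ∀ w : ℂ, a₁ ≤ ‖w‖ → ‖w‖ ≤ a₂ → ‖f w‖ ≤ M := by
    intro w hw1 hw2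
    have hw : 0 < ‖w‖ := h0.trans_le hw1
    have k1 := (ka_bound hm hA (hw2.trans_lt h3)).2
    have k2 := kap_le P (fun ω hω => (hh.bd ω hω).trans (le_abs_self Rh)) (h1.trans_le hw1)
    have k3 : 2 * A / (1 - ‖w‖) ≤ 2 * |A| / (1 - a₂) :=
      div_le_div₀ (by positivity) (by linarith [le_abs_self A]) (by linarith) (by linarith)
    have k4 := k1.trans (Real.exp_le_exp.2 k3)
    calc ‖f w‖ = ‖ka b₀ w‖ / ‖w‖ * ‖kap P h w‖ := by rw [hf, norm_smul, norm_div]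
      _ ≤ Real.exp (2 * |A| / (1 - a₂)) / ‖w‖ * (2 * ‖w‖ * (P.Λ + 1) * |Rh|) := by gcongr
      _ = M := by rw [hM]; field_simp
  obtain ⟨f₁, f₂, d1, d2, he, -, hb⟩ := laurent h0 h1 (h2.trans h3) hfd
  have b2 : ∀ w : ℂ, a₂ ≤ ‖w‖ → ‖f₂ w‖ ≤ M * a₁ / (a₂ - a₁) := fun w hw =>
    (hb 0 M (differentiableOn_const _) (fun ω hω => by
      rw [mem_sphere_zero_iff_norm] at hω
      simpa using hfb ω hω.ge (hω.le.trans h2.le)) w (h2.trans_le hw)).trans (by gcongr)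
  have b1 : ‖f₁ 0‖ ≤ M + M * a₁ / (a₂ - a₁) := by
    rw [← cx5_center (h0.trans h2) (d1.mono (closedBall_subset_ball h3))]
    refine norm_avg_le (h0.trans h2) fun w hw => ?_
    rw [mem_sphere_zero_iff_norm] at hw
    rw [eq_sub_of_add_eq (he w ⟨hw ▸ h2, hw ▸ h3⟩).symm]
    exact (norm_sub_le _ _).trans (add_le_add (hfb w (hw ▸ h2.le) hw.le) (b2 w hw.ge))
  have bK : ∀ w : ℂ, a₂ ≤ ‖w‖ → ‖f₂ w + f₁ 0‖ ≤ M + 2 * (M * a₁ / (a₂ - a₁)) := fun w hw =>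
    (norm_add_le _ _).trans (by linarith [b2 w hw])
  have dk : DifferentiableOn ℂ (fun w => f₂ w + f₁ 0) {w | a₁ < ‖w‖} := d2.add_const _
  have dψ : DifferentiableOn ℂ (fun w => f₁ w - f₁ 0) (ball 0 1) := d1.sub_const _
  have he' : ∀ w ∈ Ann a₁, f w = (f₂ w + f₁ 0) + (f₁ w - f₁ 0) := fun w hw => by
    rw [he w hw]; abel
  refine ⟨_, _, dk, dψ, sub_self _, he', bK, fun g gs B hg hr => ?_⟩
  have r1 : RL (fun w => f₂ w + f₁ 0) fun t => f₂ (ec t) + f₁ 0 :=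
    RL_of_cont (h2.trans h3) (fun w hw _ => hw) dk.continuousOn
  have hsub : Ann a₂ ⊆ {w | a₁ < ‖w‖} := fun w hw => h2.trans hw.1
  refine mult0_avg (B := (M + 2 * (M * a₁ / (a₂ - a₁))) * B) (mult0_dot r1 hr) h3
    (contOn_dot (dk.continuousOn.mono hsub) (hg.diff.continuousOn.mono (ha4_sub _)))
    (fun w hw => (norm_dot_le _ _).trans (mul_le_mul (bK w hw.1.le) (hg.bd w (ha4_sub _ hw))
      (norm_nonneg _) (by positivity))) fun r hr' => ?_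
  have hr2 : a₂ < r := (le_max_left _ _).trans_lt hr'.1
  have hr0 : 0 < r := h0.trans (h2.trans hr2)
  have hs : sphere (0 : ℂ) r ⊆ Ann a₁ := ha5_sph (h2.trans hr2) hr'.2
  have hgc : ContinuousOn g (sphere 0 r) := hg.diff.continuousOn.mono (hs.trans (ha4_sub _))
  have z := avg_eq_zero hr0 hr'.2 (diffOn_dot dψ hg.diff) (by simp)
  have z2 := Real.circleAverage_fun_add
    ((contOn_dot (dk.continuousOn.mono fun w hw => (hs hw).1) hgc).circleIntegrable hr0.le)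
    ((contOn_dot (dψ.continuousOn.mono (hs.trans (ha4_sub _))) hgc).circleIntegrable hr0.le)
  rw [z, add_zero] at z2
  rw [← avg_kap P hh.diff ((ka_diff hi).fun_smul hg.diff) (h1.trans (h2.trans hr2)) hr'.2, ← z2]
  refine Real.circleAverage_congr_sphere fun w hw => ?_
  rw [abs_of_pos hr0] at hw
  simp only [← dot_add_left, ← he' w (hs hw), hf, dot_smul_left, dot_smul_right]
  ring

/-- pairing of bounded holomorphic functions with the disc algebra. Hint: `HB.mean`. -/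
theorem int_dot_zero {ψ g : ℂ → E n} {gs : TT → E n} {B : ℝ} (hψ : Differentiable ℂ ψ)
    (h0 : ψ 0 = 0) (hg : HB g B) (hr : RL g gs) : ∫ t, dot (ψ (ec t)) (gs t) = 0 := by
  obtain ⟨C, hC⟩ := (isCompact_closedBall (0 : ℂ) 1).exists_bound_of_continuousOn
    hψ.continuous.continuousOn
  have h1 : HB (fun w => dot (ψ w) (g w)) (C * B) :=
    ⟨diffOn_dot hψ.differentiableOn hg.diff, fun w hw => (norm_dot_le _ _).trans
      (mul_le_mul (hC w (ball_subset_closedBall hw)) (hg.bd w hw) (norm_nonneg _)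
        ((norm_nonneg _).trans (hC w (ball_subset_closedBall hw))))⟩
  have r1 : RL ψ fun t => ψ (ec t) :=
    RL_of_cont (U := univ) one_pos (fun _ _ _ => mem_univ _) hψ.continuous.continuousOn
  rw [h1.mean (mult0_dot r1 hr), h0, dot_zero_left]

/-- Hint: `dual` with `ι = Ty × Bl`, `A (σ, i) = {t | τ j t = σ ∧ i ∈ σ.2.2 ∧ Flat (η j) i}`,
`a (σ, i) t = (exp ((σ.1 - mid i) I) * conj (ec t)) • cen n i`, `β = η j / c * Re ell (ka • h)` (`fo`),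
`β' = β + 1 / (j + 1)`. The `L¹` norms of `ν j` are eventually bounded by `Geo.sl` and the third
claim for `g = h`; then `PI_holo`, `norm_PI_le_int`. -/
theorem Geo.mult_seq (G : Geo D Φ) (B : Bdy D Φ h xs Lg) (S : Sel D Φ xs γ A₀ b₀ η τ)
    (hg : Gain D P ε p h) (hζ : ‖F h p‖ ≤ P.r) {k : TT → E n} (hk : Continuous k)
    (hk' : ∀ (g : ℂ → E n) (gs : TT → E n) (B : ℝ), HB g B → RL g gs →
      ∫ t, dot (k t) (gs t) = ell P ε p h fun w => ka b₀ w • g w) :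
    ∃ (ψ : ℕ → ℂ → E n) (ν : ℕ → TT → E n),
      (∀ j, Differentiable ℂ (ψ j) ∧ ψ j 0 = 0 ∧ Integrable (ν j) ∧
        ∀ t v, Cnd (η j) (τ j t) (b₀ t) v → (ec t * dot (ν j t) v).re ≤ 0) ∧
      Tendsto (fun j => ∫ t, ‖k t + ψ j (ec t) - ν j t‖) atTop (𝓝 0) ∧
      (∀ (g : ℂ → E n) (gs : TT → E n) (B : ℝ), HB g B → RL g gs →
        Tendsto (fun j => ∫ t, dot (ν j t) (gs t)) atTop
          (𝓝 (ell P ε p h fun w => ka b₀ w • g w))) ∧
      ∃ C : ℝ, ∀ᶠ j in atTop, ∀ w : ℂ, ‖w‖ < 1 → ‖ψ j w‖ ≤ C / (1 - ‖w‖) := by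
  obtain ⟨c, hc, hfo⟩ := G.fo B S hg hζ
  set R : ℝ := (ell P ε p h fun w => ka b₀ w • h w).re with hR
  have key : ∀ j : ℕ, ∃ (ψ : ℂ → E n) (ν : TT → E n), (Differentiable ℂ ψ ∧ ψ 0 = 0 ∧
      Integrable ν ∧ ∀ t v, Cnd (η j) (τ j t) (b₀ t) v → (ec t * dot (ν t) v).re ≤ 0) ∧
      ∫ t, ‖k t + ψ (ec t) - ν t‖ ≤ η j / c * R + 1 / ((j : ℝ) + 1) := by
    intro j
    obtain ⟨ψ, d, z, ν, iν, hL, hp⟩ := dual (ι := Ty × Bl)
      (A := fun x => {t | τ j t = x.1 ∧ x.2 ∈ x.1.2.2 ∧ Flat (η j) x.2})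
      (fun x => (S.fib j x.1).inter (MeasurableSet.const _))
      (a := fun x t => (exp ((((x.1.1 : ℚ) : ℝ) - mid x.2 : ℝ) * I) * conj (ec t)) • cen n x.2)
      (fun x => (continuous_const.mul (continuous_conj.comp continuous_ec)).smul continuous_const)
      hk (β := η j / c * R) (β' := η j / c * R + 1 / ((j : ℝ) + 1))
      (lt_add_of_pos_right _ Nat.one_div_pos_of_nat) fun g gs hb hr H => by
        rw [hk' g gs 1 hb hr]
        refine hfo j g gs hb hr (H.mono fun t ht i hi hF => ?_)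
        have := ht (τ j t, i) ⟨rfl, hi, hF⟩
        rw [dot_smul_left, (S.ty j t).1] at this
        rwa [dot_smul_right, ← mul_assoc]
    refine ⟨ψ, ν, ⟨d, z, iν, fun t v hv => ?_⟩, hL⟩
    rw [← dot_smul_right]
    refine hp t _ ?_
    rintro ⟨σ, i⟩ ⟨rfl, hi, hF⟩
    have := hv i hi hF
    rw [← (S.ty j t).1] at this
    rwa [dot_smul_left, dot_smul_right, mul_assoc, ← mul_assoc (conj (ec t)), mult0_ec, one_mul]
  choose ψ ν hψ hL using key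
  have ik : Integrable k := ha5_int hk
  have iψ : ∀ j, Integrable fun t => ψ j (ec t) := fun j =>
    ha5_int ((hψ j).1.continuous.comp continuous_ec)
  have iu : ∀ j, Integrable fun t => k t + ψ j (ec t) - ν j t := fun j =>
    (ik.add (iψ j)).sub (hψ j).2.2.1
  have T1 : Tendsto (fun j => ∫ t, ‖k t + ψ j (ec t) - ν j t‖) atTop (𝓝 0) := by
    refine squeeze_zero (fun j => integral_nonneg fun t => norm_nonneg _) hL ?_
    simpa using ((S.elim.div_const c).mul_const R).add tendsto_one_div_add_atTop_nhds_zero_nat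
  have T2 : ∀ (g : ℂ → E n) (gs : TT → E n) (B : ℝ), HB g B → RL g gs →
      Tendsto (fun j => ∫ t, dot (ν j t) (gs t)) atTop
        (𝓝 (ell P ε p h fun w => ka b₀ w • g w)) := by
    intro g gs Bg hb hr
    have ig := hb.int hr
    have bg := hr.bound one_pos fun w hw => hb.bd w (ha4_sub _ hw)
    rw [tendsto_iff_norm_sub_tendsto_zero]
    refine squeeze_zero (fun j => norm_nonneg _) (fun j => ?_) (by simpa using T1.const_mul Bg)
    refine le_of_eq_of_le ?_ (mult0_idot (iu j) ig bg).2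
    simp only [dot_sub_left, dot_add_left]
    have i1 : Integrable fun t => dot (k t) (gs t) + dot (ψ j (ec t)) (gs t) :=
      (mult0_idot ik ig bg).1.add (mult0_idot (iψ j) ig bg).1
    rw [integral_sub i1 (mult0_idot (hψ j).2.2.1 ig bg).1, integral_add (mult0_idot ik ig bg).1
      (mult0_idot (iψ j) ig bg).1, hk' g gs Bg hb hr, int_dot_zero (hψ j).1 (hψ j).2.1 hb hr,
      add_zero, norm_sub_rev]
  refine ⟨ψ, ν, hψ, T1, T2, ?_⟩
  obtain ⟨c₁, hc₁, hsl⟩ := G.sl S.gpos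
  obtain ⟨Rh, -, hRh⟩ := G.hb
  have hh := hRh h B.adm
  have ig := hh.int B.rl
  have bg := B.rl.bound one_pos fun w hw => hh.bd w (ha4_sub _ hw)
  have T3 := (continuous_re.tendsto _).comp (T2 h _ Rh hh B.rl)
  refine ⟨2 * (1 + (R + 1) / c₁ + ∫ t, ‖k t‖), ?_⟩
  filter_upwards [hsl S, T1.eventually_le_const one_pos,
    T3.eventually_le_const (lt_add_one R)] with j j1 j2 j3 w hw
  have id := (mult0_idot (hψ j).2.2.1 ig bg).1
  have n1 : ∫ t, ‖ν j t‖ ≤ (R + 1) / c₁ := by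
    rw [le_div_iff₀' hc₁, ← integral_const_mul]
    refine le_trans ?_ j3
    rw [Function.comp_apply, ← RCLike.re_to_complex, ← integral_re id]
    exact integral_mono ((hψ j).2.2.1.norm.const_mul _) id.re fun t => j1 t _ ((hψ j).2.2.2 t)
  have n2 : ∫ t, ‖ψ j (ec t)‖ ≤ 1 + (R + 1) / c₁ + ∫ t, ‖k t‖ := by
    refine le_trans ?_ (add_le_add_left (add_le_add j2 n1) _)
    have i1 : Integrable fun t => ‖k t + ψ j (ec t) - ν j t‖ + ‖ν j t‖ :=
      (iu j).norm.add (hψ j).2.2.1.norm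
    rw [← integral_add (iu j).norm (hψ j).2.2.1.norm, ← integral_add i1 ik.norm]
    refine integral_mono (iψ j).norm (i1.add ik.norm) fun t => ?_
    calc ‖ψ j (ec t)‖ = ‖k t + ψ j (ec t) - ν j t + ν j t - k t‖ := by congr 1; abel
      _ ≤ _ := (norm_sub_le _ _).trans (add_le_add_left (norm_add_le _ _) _)
  rw [← PI_holo (hψ j).1.diffContOnCl hw]
  refine (norm_PI_le_int (iψ j) hw).trans ?_
  rw [mul_div_right_comm]
  exact mul_le_mul_of_nonneg_left n2 (div_nonneg zero_le_two (by linarith))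

end Pool.Agent.MP_4baaa2_an.H94

/-!
The multiplier.
-/

namespace Pool.Agent.MP_4baaa2_an.H94

open Set Metric Filter Topology Complex MeasureTheory
open scoped ComplexConjugate
open Pool.Agent.Lib.PlaneTop

variable {n : ℕ} {D : Set (E n)} {Φ : E n → E n → ℂ}

variable {h m : ℂ → E n} {xs : TT → E n} {Lg : E n → ℂ → ℂ} {γ A₀ : ℝ} {b₀ : TT → ℝ} {η : ℕ → ℝ}
  {τ : ℕ → TT → Ty} {P : Par} {ε : ℝ} {p : E n} {a a' c K : ℝ} {ν : ℕ → TT → E n}
  {𝒰 : Ultrafilter ℕ}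

theorem mult_rl {φ g : ℂ → E n} {gs : TT → E n} {U : Set ℂ} (ha : a < 1)
    (hU : ∀ w : ℂ, a < ‖w‖ → ‖w‖ ≤ 1 → w ∈ U) (hφ : ContinuousOn φ U) (hg : RL g gs) :
    RL (fun w => dot (φ w) (g w)) fun t => dot (φ (ec t)) (gs t) := by
  filter_upwards [RL_of_cont ha hU hφ, hg] with t h1 h2 using tendsto_dot h1 h2

theorem mult_int {φ gs : TT → E n} {g : ℂ → E n} {B : ℝ} (hφ : Integrable φ) (hg : HB g B)
    (hr : RL g gs) {u : TT → ℝ} (hu : Continuous u) {C : ℝ} (hC : ∀ t, |u t| ≤ C) :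
    Integrable (fun t => u t • dot (φ t) (gs t)) ∧
      ∫ t, ‖u t • dot (φ t) (gs t)‖ ≤ C * B * ∫ t, ‖φ t‖ := by
  have h1 : ∀ᵐ t, ‖u t • dot (φ t) (gs t)‖ ≤ C * B * ‖φ t‖ := by
    filter_upwards [hr.bound one_pos fun x hx => hg.bd x (ha4_sub 0 hx)] with t ht
    rw [norm_smul, mul_assoc, mul_comm B]
    exact mul_le_mul (hC t) ((norm_dot_le _ _).trans
      (mul_le_mul_of_nonneg_left ht (norm_nonneg _))) (norm_nonneg _)
      ((abs_nonneg _).trans (hC t))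
  have h2 : Integrable (fun t => u t • dot (φ t) (gs t)) :=
    (hφ.norm.const_mul (C * B)).mono' (hu.aestronglyMeasurable.smul
      (continuous_dot.comp_aestronglyMeasurable (hφ.1.prodMk (hg.int hr).1))) h1
  refine ⟨h2, ?_⟩
  rw [← integral_const_mul]
  exact integral_mono_ae h2.norm (hφ.norm.const_mul _) h1

theorem mult_ci {φ : TT → E n} (hφ : Continuous φ) : Integrable φ :=
  hφ.integrable_of_hasCompactSupport (HasCompactSupport.of_compactSpace _)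

theorem mult_int1 {φ gs : TT → E n} {g : ℂ → E n} {B : ℝ} (hφ : Continuous φ) (hg : HB g B)
    (hr : RL g gs) : Integrable fun t => dot (φ t) (gs t) := by
  simpa using (mult_int (mult_ci hφ) hg hr (u := fun _ => 1) continuous_const (C := 1)
    (by simp)).1

theorem mult_sq (ζ : ℂ) (t : TT) :
    ((‖ec t - ζ‖ ^ 2 : ℝ) : ℂ) = (1 - conj ζ * ec t) * (ec t - ζ) / ec t := by
  have h := ec_ne t
  rw [ofReal_pow, ← mul_conj', map_sub, conj_ec]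
  field_simp

theorem mult_fac {ζ w : ℂ} {a : ℝ} (h0 : 0 < a) (hζ : ‖ζ‖ < 1) (h1 : a ≤ ‖w‖) (h2 : ‖w‖ ≤ 1) :
    ‖(1 - conj ζ * w) * (w - ζ) / w‖ ≤ 4 / a := by
  have a1 : ‖1 - conj ζ * w‖ ≤ 2 := by
    refine (norm_sub_le _ _).trans ?_
    rw [norm_one, norm_mul, RCLike.norm_conj]
    nlinarith [norm_nonneg ζ, norm_nonneg w]
  have a2 : ‖w - ζ‖ ≤ 2 := (norm_sub_le _ _).trans (by linarith)
  rw [norm_div, norm_mul]
  exact div_le_div₀ (by norm_num) (by nlinarith [norm_nonneg (w - ζ), norm_nonneg (1 - conj ζ * w)])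
    h0 h1

/-- Poisson representation at a finite stage. -/
theorem rep_fin {a₂ a : ℝ} (h0 : 0 < a₂) (h2 : a₂ < a) (ha : a < 1) {K₀ : ℝ} (hK : 0 ≤ K₀) :
    ∃ K ≥ (0 : ℝ), ∀ (a₁ ε B : ℝ) (ζ : ℂ) (v : E n) (ψ kQ g : ℂ → E n) (gs : TT → E n), a₁ < a₂ →
      0 ≤ ε → ‖ζ‖ < 1 → Differentiable ℂ ψ → ψ 0 = 0 → DifferentiableOn ℂ kQ {w | a₁ < ‖w‖} →
      (∀ w : ℂ, a₂ ≤ ‖w‖ → ‖kQ w‖ ≤ K₀) → HB g B → RL g gs → ∀ w ∈ Ann a,
        ‖dot (((1 - conj ζ * w) * (w - ζ) / w) • (ψ w - (ε : ℂ) • kQ w) + (1 - conj ζ * w) • v)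
            (g w) - PI (fun t => (‖ec t - ζ‖ ^ 2 : ℝ) •
              dot ((ec t / (ec t - ζ)) • v - (ε : ℂ) • kQ (ec t) + ψ (ec t)) (gs t)) w‖ ≤
          ε * K * B * (1 - ‖w‖) := by
  obtain ⟨K₁, hK₁, H⟩ := rep_ann (V := ℂ) h0 h2 ha
  refine ⟨K₁ * (4 / a₂ * K₀), by positivity, ?_⟩
  intro a₁ ε B ζ v ψ kQ g gs h1 hε hζ dψ ψ0 dk bk hg hr w hw
  have hB : 0 ≤ B := (norm_nonneg _).trans (hg.bd 0 (mem_ball_self one_pos))
  have hm : max a₁ 0 < a₂ := max_lt h1 h0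
  obtain ⟨φ, hφ⟩ : ∃ φ : ℂ → E n, φ = fun w => (1 - conj ζ * w) • ((w - ζ) • dslope ψ 0 w + v) :=
    ⟨_, rfl⟩
  obtain ⟨χ, hχ⟩ : ∃ χ : ℂ → E n, χ = fun w => ((1 - conj ζ * w) * (w - ζ) / w) • kQ w := ⟨_, rfl⟩
  have dφ : Differentiable ℂ φ := by
    have : Differentiable ℂ (dslope ψ 0) := differentiableOn_univ.1
      ((differentiableOn_dslope univ_mem).2 dψ.differentiableOn)
    rw [hφ]
    fun_prop
  have dχ : DifferentiableOn ℂ χ {w | max a₁ 0 < ‖w‖} := by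
    rw [hχ]
    have d1 : Differentiable ℂ fun w : ℂ => (1 - conj ζ * w) * (w - ζ) := by fun_prop
    have d2 : DifferentiableOn ℂ (fun w : ℂ => (1 - conj ζ * w) * (w - ζ) / w)
        {w | max a₁ 0 < ‖w‖} := d1.differentiableOn.fun_div differentiableOn_id
      fun x (hx : max a₁ 0 < ‖x‖) => norm_pos_iff.1 ((le_max_right _ _).trans_lt hx)
    exact d2.fun_smul (dk.mono fun x (hx : max a₁ 0 < ‖x‖) =>
      show a₁ < ‖x‖ from (le_max_left _ _).trans_lt hx)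
  have e1 : ∀ x : ℂ, x ≠ 0 → ((1 - conj ζ * x) * (x - ζ) / x) • (ψ x - (ε : ℂ) • kQ x) +
      (1 - conj ζ * x) • v = φ x - (ε : ℂ) • χ x := fun x hx => by
    rw [hφ, hχ]
    simp only [dslope_of_ne _ hx, slope_def_module, ψ0, sub_zero]
    match_scalars <;> field_simp
  have e2 : ∀ t, (‖ec t - ζ‖ ^ 2 : ℝ) • dot ((ec t / (ec t - ζ)) • v - (ε : ℂ) • kQ (ec t) +
      ψ (ec t)) (gs t) = dot (φ (ec t)) (gs t) - ε * dot (χ (ec t)) (gs t) := fun t => by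
    have a1 := ec_ne t
    have a2 := ec_sub_ne hζ t
    rw [← dot_smul_left, ← dot_sub_left, ← e1 _ a1, real_smul, ← dot_smul_left, mult_sq]
    congr 1
    match_scalars <;> field_simp
  obtain ⟨C, hC⟩ := (isCompact_closedBall (0 : ℂ) 1).exists_bound_of_continuousOn
    dφ.continuous.continuousOn
  have f1 : HB (fun w => dot (φ w) (g w)) (C * B) :=
    ⟨diffOn_dot dφ.differentiableOn hg.diff, fun x hx => (norm_dot_le _ _).trans
      (mul_le_mul (hC x (ball_subset_closedBall hx)) (hg.bd x hx) (norm_nonneg _)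
        ((norm_nonneg _).trans (hC 0 (mem_closedBall_self zero_le_one))))⟩
  have r1 := mult_rl (U := univ) one_half_lt_one (fun _ _ _ => mem_univ _)
    dφ.continuous.continuousOn hr
  have r2 := mult_rl (hm.trans (h2.trans ha)) (fun _ h _ => h) dχ.continuousOn hr
  have b2 : ∀ x : ℂ, a₂ ≤ ‖x‖ → ‖x‖ < 1 → ‖dot (χ x) (g x)‖ ≤ 4 / a₂ * K₀ * B := fun x x1 x2 => by
    refine (norm_dot_le _ _).trans (mul_le_mul ?_ (hg.bd x (mem_ball_zero_iff.2 x2))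
      (norm_nonneg _) (by positivity))
    rw [hχ, norm_smul]
    exact mul_le_mul (mult_fac h0 hζ x1 x2.le) (bk x x1) (norm_nonneg _) (by positivity)
  have key := H _ _ _ _ _ hm (diffOn_dot (dχ.mono fun x hx => hx.1) (hg.diff.mono (ha4_sub _)))
    (fun x hx => b2 x hx.1.le hx.2) (fun x hx => b2 x (mem_sphere_zero_iff_norm.1 hx).ge
      ((mem_sphere_zero_iff_norm.1 hx).trans_lt (h2.trans ha))) r2 w hw
  have i2 : Integrable fun t => dot (χ (ec t)) (gs t) :=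
    mult_int1 (dχ.continuousOn.comp_continuous continuous_ec fun t => by
      rw [mem_setOf_eq, norm_ec]
      exact hm.trans (h2.trans ha)) hg hr
  simp only [e2]
  rw [PI_sub (f1.int r1) (i2.const_mul _) hw.2, PI_mul, f1.rep r1 hw.2,
    e1 w (norm_pos_iff.1 ((h0.trans h2).trans hw.1)), dot_sub_left, dot_smul_left,
    sub_sub_sub_cancel_left, ← mul_sub, norm_mul, norm_real, Real.norm_of_nonneg hε, norm_sub_rev]
  calc _ ≤ ε * (K₁ * (4 / a₂ * K₀ * B) * (1 - ‖w‖)) := mul_le_mul_of_nonneg_left key hε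
    _ = _ := by ring

theorem mult_small {x μ : ℝ} (hx : 0 ≤ x) (hμ : 0 < μ) : x * (μ / (2 * (x + 1))) ≤ μ / 2 := by
  rw [← mul_div_assoc, div_le_div_iff₀ (by positivity) two_pos]
  nlinarith

theorem Geo.mult (G : Geo D Φ) (P : Par) {a : ℝ} (ha : P.r ^ 2 < a) (ha1 : a < 1) (A₀ : ℝ) :
    ∃ K ≥ (0 : ℝ), ∀ {h : ℂ → E n} {xs : TT → E n} {Lg : E n → ℂ → ℂ} {γ : ℝ} {b₀ : TT → ℝ}
      {η : ℕ → ℝ} {τ : ℕ → TT → Ty} {ε : ℝ} {p : E n}, Bdy D Φ h xs Lg →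
      Sel D Φ xs γ A₀ b₀ η τ → Gain D P ε p h → 0 ≤ ε → ‖F h p‖ ≤ P.r →
        ∃ m ν 𝒰, Mu P ε p h b₀ η τ a K m ν 𝒰 := by
  obtain ⟨a₁, p1, p2⟩ := exists_between ha
  obtain ⟨a₂, p3, p4⟩ := exists_between p2
  have p0 : 0 < a₁ := (sq_nonneg _).trans_lt p1
  have a0 : 0 < a := p0.trans p2
  obtain ⟨Rh, -, hR⟩ := adm_bound G.isOpen G.zero
  obtain ⟨K₀, hK₀, H₀⟩ := exists_kern (n := n) P p1 p3 (p4.trans ha1) A₀ Rh
  obtain ⟨K, hK, H⟩ := rep_fin (n := n) (p0.trans p3) p4 ha1 hK₀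
  refine ⟨K, hK, fun {h xs Lg γ b₀ η τ ε p} Bd S hg hε hζ => ?_⟩
  obtain ⟨kQ, ψQ, k1, k2, k3, k4, k5, k6⟩ := H₀ h b₀ ⟨Bd.adm.1, hR h Bd.adm⟩ S.meas S.bd
  have hζ1 : ‖F h p‖ < 1 := hζ.trans_lt P.hr
  have dka := ka_diff (ha2_bdd S.meas S.bd)
  have ka0 : ∀ w, ka b₀ w ≠ 0 := fun w => exp_ne_zero _
  obtain ⟨v, hv⟩ : ∃ v : E n, v = (cc h p * ka b₀ (F h p)) • p := ⟨_, rfl⟩
  have ck : Continuous fun t => kQ (ec t) :=
    k1.continuousOn.comp_continuous continuous_ec fun t => by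
      rw [mem_setOf_eq, norm_ec]
      exact p2.trans ha1
  have ce : Continuous fun t => ec t / (ec t - F h p) :=
    continuous_ec.div (continuous_ec.sub continuous_const) (ec_sub_ne hζ1)
  have hk : Continuous fun t => (ec t / (ec t - F h p)) • v - (ε : ℂ) • kQ (ec t) :=
    (ce.smul continuous_const).sub (ck.const_smul (ε : ℂ))
  obtain ⟨ψ, ν, s1, s2, s3, C, s4⟩ := G.mult_seq Bd S hg hζ hk fun g gs B hb hr => by
    have i1 := ha4_int (hb.int hr) ce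
    have e : ∀ t, dot ((ec t / (ec t - F h p)) • v - (ε : ℂ) • kQ (ec t)) (gs t) =
        dotL v ((ec t / (ec t - F h p)) • gs t) - ε * dot (kQ (ec t)) (gs t) := fun t => by
      rw [dotL_apply, dot_sub_left, dot_smul_left, dot_smul_left, dot_smul_right]
    simp only [e]
    rw [integral_sub ((dotL v).integrable_comp i1) ((mult_int1 ck hb hr).const_mul _),
      (dotL v).integral_comp_comm i1, hb.cauchy hr hζ1, integral_const_mul, k6 g gs B hb hr,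
      dotL_apply, ell, hv, dot_smul_left, dot_smul_right, mul_assoc]
  have hU := Ultrafilter.of_le (atTop : Filter ℕ)
  generalize Ultrafilter.of (atTop : Filter ℕ) = 𝒰 at hU
  obtain ⟨ψ₀, d0, l0⟩ := montel 𝒰 (f := ψ) isOpen_ball
    (Eventually.of_forall fun j => (s1 j).1.differentiableOn) fun x (hx : x ∈ ball (0 : ℂ) 1) => by
      have hx' := sub_pos.2 (mem_ball_zero_iff.1 hx)
      refine ⟨(1 - ‖x‖) / 2, by positivity, |C| / ((1 - ‖x‖) / 2), ?_⟩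
      filter_upwards [hU s4] with j hj y hy
      have y1 := mem_ball_iff_norm.1 hy.1
      have y2 := norm_sub_norm_le y x
      exact (hj y (mem_ball_zero_iff.1 hy.2)).trans
        (div_le_div₀ (abs_nonneg C) (le_abs_self C) (by positivity) (by linarith))
  have z0 : ψ₀ 0 = 0 := tendsto_nhds_unique (l0.tendsto_at (mem_ball_self one_pos))
    (tendsto_const_nhds.congr fun j => (s1 j).2.1.symm)
  obtain ⟨Ψ, hΨ⟩ : ∃ Ψ : ℂ → E n, Ψ = fun w => ψ₀ w -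
      (cc h p * w * dslope (ka b₀) (F h p) w) • p + (ε : ℂ) • ψQ w := ⟨_, rfl⟩
  have dΨ : DifferentiableOn ℂ Ψ (ball 0 1) := by
    have := (differentiableOn_dslope (isOpen_ball.mem_nhds (mem_ball_zero_iff.2 hζ1))).2 dka
    rw [hΨ]
    exact (d0.sub (((differentiableOn_id.const_mul _).mul this).smul_const p)).add
      (k2.const_smul (ε : ℂ))
  have Ψ0 : Ψ 0 = 0 := by simp [hΨ, z0, k3]
  refine ⟨fun w => (ka b₀ w)⁻¹ • dslope Ψ 0 w, ν, 𝒰, hU, (dka.inv fun w _ => ka0 w).smul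
    ((differentiableOn_dslope (ball_mem_nhds 0 one_pos)).2 dΨ), fun j => (s1 j).2.2.1,
    fun j => (s1 j).2.2.2, s3, fun g gs B hb hr ρ hρ μ hμ => ?_⟩
  have hB : 0 ≤ B := (norm_nonneg _).trans (hb.bd 0 (mem_ball_self one_pos))
  have hρ' := sub_pos.2 hρ
  have q1 : 0 ≤ 4 / a * B := by positivity
  have q2 : 0 ≤ 2 / (1 - ρ) * (4 * B) := by positivity
  filter_upwards [Metric.tendstoUniformlyOn_iff.1
    ((tendstoLocallyUniformlyOn_iff_forall_isCompact isOpen_ball).1 l0 _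
      (closedBall_subset_ball hρ) (isCompact_closedBall 0 ρ)) (μ / (2 * (4 / a * B + 1)))
      (by positivity), hU (s2.eventually (ge_mem_nhds
        (show 0 < μ / (2 * (2 / (1 - ρ) * (4 * B) + 1)) by positivity)))] with j j1 j2 w hw hwρ
  have w0 : w ≠ 0 := norm_pos_iff.1 (a0.trans hw.1)
  have e1 : Nv P ε p h (fun w => (ka b₀ w)⁻¹ • dslope Ψ 0 w) b₀ w =
      (((1 - conj (F h p) * w) * (w - F h p) / w) • (ψ j w - (ε : ℂ) • kQ w) +
        (1 - conj (F h p) * w) • v) +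
        ((1 - conj (F h p) * w) * (w - F h p) / w) • (ψ₀ w - ψ j w) := by
    have c0 := ka0 w
    have c1 : kap P h w = (w / ka b₀ w) • (kQ w + ψQ w) := by
      rw [← k4 w ⟨p2.trans hw.1, hw.2⟩, smul_smul, div_mul_div_cancel₀ c0, div_self w0, one_smul]
    have c2 : ka b₀ (F h p) = ka b₀ w - (w - F h p) * dslope (ka b₀) (F h p) w := by
      rw [← smul_eq_mul, sub_smul_dslope, sub_sub_cancel]
    simp only [Nv, nt, np, dslope_of_ne _ w0, slope_def_module, Ψ0, sub_zero]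
    rw [c1, hv, c2, hΨ]
    match_scalars <;> field_simp <;> ring
  have hu : Continuous fun t => ‖ec t - F h p‖ ^ 2 := by fun_prop
  have hu4 : ∀ t, |‖ec t - F h p‖ ^ 2| ≤ 4 := fun t => by
    have := norm_sub_le (ec t) (F h p)
    rw [norm_ec] at this
    rw [abs_of_nonneg (sq_nonneg _)]
    nlinarith [norm_nonneg (ec t - F h p)]
  have ik := mult_ci (hk.add ((s1 j).1.continuous.comp continuous_ec))
  have i1 := (mult_int ik hb hr hu hu4).1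
  have i2 := (mult_int (s1 j).2.2.1 hb hr hu hu4).1
  obtain ⟨i3, i4⟩ := mult_int (ik.sub (s1 j).2.2.1) hb hr hu hu4
  have t1 := H a₁ ε B (F h p) v (ψ j) kQ g gs p3 hε hζ1 (s1 j).1 (s1 j).2.1 k1 k5 hb hr w hw
  have t2 : ‖dot (((1 - conj (F h p) * w) * (w - F h p) / w) • (ψ₀ w - ψ j w)) (g w)‖ ≤ μ / 2 := by
    refine (norm_dot_le _ _).trans (le_trans ?_ (mult_small q1 hμ))
    have := (j1 w (mem_closedBall_zero_iff.2 hwρ)).le
    rw [dist_eq_norm] at this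
    rw [norm_smul, mul_right_comm]
    exact mul_le_mul (mul_le_mul (mult_fac a0 hζ1 hw.1.le hw.2.le) (hb.bd w (ha4_sub a hw))
      (norm_nonneg _) (by positivity)) this (norm_nonneg _) q1
  have t3 := (norm_PI_le_int i3 hw.2).trans (mul_le_mul
    (div_le_div_of_nonneg_left zero_le_two hρ' (show 1 - ρ ≤ 1 - ‖w‖ by linarith))
    (i4.trans (mul_le_mul_of_nonneg_left j2 (by positivity)))
    (integral_nonneg fun _ => norm_nonneg _) (by positivity))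
  rw [← mul_assoc] at t3
  have t4 := t3.trans (mult_small q2 hμ)
  simp only [Pi.sub_apply, dot_sub_left _ (ν j _), smul_sub] at t4
  rw [PI_sub i1 i2 hw.2] at t4
  rw [e1, dot_add_left]
  refine le_trans (le_of_eq ?_) ((norm_add₃_le.trans (add_le_add (add_le_add t1 t2) t4)).trans
    (le_of_eq (by ring)))
  congr 1
  simp only [Pi.add_apply, Function.comp_apply]
  ring

end Pool.Agent.MP_4baaa2_an.H94
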